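import Mathlib

/-! Dilworth's theorem for posets of finite width. -/

set_option autoImplicit false

namespace Pool.Agent.H37.PD

open Finset Filter

theorem cluster {ι X : Type} (U : Ultrafilter ι) (g : ι → X → ℕ) (k : ℕ) (h : ∀ i x, g i x ≤ k) :
    ∃ f : X → ℕ, ∀ x, ∀ᶠ i in U, g i x = f x := by
  have : ∀ x, ∃ c, ∀ᶠ i in U, g i x = c := fun x => by
    obtain ⟨c, -, hc⟩ := (U.eventually_exists_mem_iff (P := fun c i => g i x = c)
      (Set.finite_le_nat k)).1 (Eventually.of_forall fun i => ⟨_, h i x, rfl⟩)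
    exact ⟨c, hc⟩
  exact ⟨fun x => (this x).choose, fun x => (this x).choose_spec⟩

variable {X : Type} (R : X → X → Prop)

/-- valid colourings by chains -/
def Ch (S : Set X) (k : ℕ) (f : X → ℕ) : Prop :=
  (∀ x ∈ S, f x < k) ∧ ∀ x ∈ S, ∀ y ∈ S, f x = f y → R x y ∨ R y x

/-- antichains -/
def An (M : Finset X) : Prop := ∀ x ∈ M, ∀ y ∈ M, R x y → x = y

variable {R}

theorem Ch.hit {S : Set X} {k : ℕ} {f : X → ℕ} (h : Ch R S k f) {M : Finset X} (hM : An R M)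
    (hS : ∀ m ∈ M, m ∈ S) (hk : #M = k) {c : ℕ} (hc : c < k) : ∃ m ∈ M, f m = c := by
  have : M.image f = range k := eq_of_subset_of_card_le
    (fun c hc => by
      obtain ⟨m, h1, rfl⟩ := mem_image.1 hc
      exact mem_range.2 (h.1 m (hS m h1)))
    (by
      rw [card_image_of_injOn, hk, card_range]
      intro x hx y hy e
      exact (h.2 x (hS x hx) y (hS y hy) e).elim (hM x hx y hy) fun h => (hM y hy x hx h).symm)
  exact mem_image.1 (this ▸ mem_range.2 hc)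

theorem paste (ht : ∀ x y z, R x y → R y z → R x z) (ha : ∀ x y, R x y → R y x → x = y)
    {S : Set X} {k : ℕ} {M : Finset X} (hM : An R M) (hS : ∀ m ∈ M, m ∈ S ∧ R m m)
    (hc : ∀ x ∈ S, ∃ m ∈ M, R x m ∨ R m x) {f g h : X → ℕ}
    (hf : Ch R {x ∈ S | ∃ m ∈ M, R x m} k f) (hg : Ch R {x ∈ S | ∃ m ∈ M, R m x} k g)
    (h1 : ∀ x ∈ S, (∃ m ∈ M, R m x) → ∃ m ∈ M, g m = g x ∧ h x = f m)
    (h2 : ∀ x ∈ S, (¬ ∃ m ∈ M, R m x) → h x = f x) :
    Ch R S k h ∧ (∀ x ∈ S, (∃ m ∈ M, R x m) → h x = f x) ∧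
      ∀ x ∈ S, (∃ m ∈ M, R m x) → ∀ y ∈ S, (∃ m ∈ M, R m y) → (h x = h y ↔ g x = g y) := by
  have mL : ∀ m ∈ M, m ∈ {x ∈ S | ∃ m ∈ M, R x m} := fun m hm => ⟨(hS m hm).1, m, hm, (hS m hm).2⟩
  have mU : ∀ m ∈ M, m ∈ {x ∈ S | ∃ m ∈ M, R m x} := fun m hm => ⟨(hS m hm).1, m, hm, (hS m hm).2⟩
  have fi : ∀ m ∈ M, ∀ n ∈ M, f m = f n → m = n := fun m hm n hn e =>
    (hf.2 m (mL m hm) n (mL n hn) e).elim (hM m hm n hn) fun h => (hM n hn m hm h).symm
  have gi : ∀ m ∈ M, ∀ n ∈ M, g m = g n → m = n := fun m hm n hn e =>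
    (hg.2 m (mU m hm) n (mU n hn) e).elim (hM m hm n hn) fun h => (hM n hn m hm h).symm
  have eL : ∀ x ∈ S, (∃ m ∈ M, R x m) → h x = f x := by
    rintro x hx ⟨m, hm, r⟩
    by_cases u : ∃ m ∈ M, R m x
    · obtain ⟨n, hn, e1, e2⟩ := h1 x hx u
      obtain ⟨m', hm', r'⟩ := u
      obtain rfl := hM m' hm' m hm (ht _ _ _ r' r)
      obtain rfl := ha _ _ r r'
      rw [e2, gi n hn x hm e1]
    · exact h2 x hx u
  have eU : ∀ x ∈ S, (∃ m ∈ M, R m x) → ∀ y ∈ S, (∃ m ∈ M, R m y) → (h x = h y ↔ g x = g y) := by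
    intro x hx u y hy v
    obtain ⟨n, hn, e1, e2⟩ := h1 x hx u
    obtain ⟨n', hn', e3, e4⟩ := h1 y hy v
    rw [e2, e4, ← e1, ← e3]
    exact ⟨fun e => by rw [fi n hn n' hn' e], fun e => by rw [gi n hn n' hn' e]⟩
  have lu : ∀ x ∈ S, (∃ m ∈ M, R x m) → ∀ y ∈ S, (∃ m ∈ M, R m y) → h x = h y → R x y := by
    intro x hx u y hy v e
    obtain ⟨n, hn, e1, e2⟩ := h1 y hy v
    rw [eL x hx u, e2] at e
    have a : R x n := (hf.2 x ⟨hx, u⟩ n (mL n hn) e).elim id fun r => by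
      obtain ⟨m, hm, r'⟩ := u
      exact hM n hn m hm (ht _ _ _ r r') ▸ r'
    have b : R n y := (hg.2 n (mU n hn) y ⟨hy, v⟩ e1).elim id fun r => by
      obtain ⟨m, hm, r'⟩ := v
      exact hM m hm n hn (ht _ _ _ r' r) ▸ r'
    exact ht _ _ _ a b
  have hc' : ∀ x ∈ S, (∃ m ∈ M, R x m) ∨ ∃ m ∈ M, R m x := fun x hx =>
    let ⟨m, hm, r⟩ := hc x hx
    r.imp (fun r => ⟨m, hm, r⟩) fun r => ⟨m, hm, r⟩
  refine ⟨⟨fun x hx => ?_, fun x hx y hy e => ?_⟩, eL, eU⟩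
  · rcases hc' x hx with u | u
    · rw [eL x hx u]; exact hf.1 x ⟨hx, u⟩
    · obtain ⟨n, hn, -, e2⟩ := h1 x hx u
      rw [e2]; exact hf.1 n (mL n hn)
  · rcases hc' x hx with u | u <;> rcases hc' y hy with v | v
    · exact hf.2 x ⟨hx, u⟩ y ⟨hy, v⟩ (by rwa [eL x hx u, eL y hy v] at e)
    · exact Or.inl (lu x hx u y hy v e)
    · exact Or.inr (lu y hy v x hx u e.symm)
    · exact hg.2 x ⟨hx, u⟩ y ⟨hy, v⟩ ((eU x hx u y hy v).1 e)

theorem cover {S : Set X} {k : ℕ} (hw : ∀ M : Finset X, (∀ m ∈ M, m ∈ S) → An R M → #M ≤ k)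
    {M : Finset X} (hM : An R M) (hS : ∀ m ∈ M, m ∈ S ∧ R m m) (hk : #M = k) :
    ∀ x ∈ S, ∃ m ∈ M, R x m ∨ R m x := by
  classical
  intro x hx
  by_contra hn
  push Not at hn
  have : x ∉ M := fun h => (hn x h).1 (hS x h).2
  have := hw (insert x M) (by simpa [hx] using fun m hm => (hS m hm).1) (by
    intro a ha b hb r
    rw [mem_insert] at ha hb
    rcases ha with rfl | ha <;> rcases hb with rfl | hb
    exacts [rfl, absurd r (hn b hb).1, absurd r (hn a ha).2, hM a ha b hb r])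
  rw [card_insert_of_notMem ‹_›] at this
  omega

theorem dilw_fin (hr : ∀ x, R x x) (ht : ∀ x y z, R x y → R y z → R x z)
    (ha : ∀ x y, R x y → R y x → x = y) (S : Finset X) :
    ∀ k, (∀ M : Finset X, (∀ m ∈ M, m ∈ S) → An R M → #M ≤ k) → ∃ f, Ch R S k f := by
  classical
  induction S using Finset.strongInduction with
  | H S ih =>
  intro k hw
  by_cases h : ∃ M : Finset X, (∀ m ∈ M, m ∈ S) ∧ An R M ∧ #M = k ∧
      (∃ a ∈ S, ¬ ∃ m ∈ M, R m a) ∧ ∃ b ∈ S, ¬ ∃ m ∈ M, R b m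
  · obtain ⟨M, h1, h2, h3, h4, h5⟩ := h
    obtain ⟨f, hf⟩ := ih _ (filter_ssubset.2 h5) k fun N a b => hw N (fun m c => (mem_filter.1 (a m c)).1) b
    obtain ⟨g, hg⟩ := ih _ (filter_ssubset.2 h4) k fun N a b => hw N (fun m c => (mem_filter.1 (a m c)).1) b
    rw [coe_filter] at hf hg
    have : ∀ x, ∃ c, x ∈ S → ((∃ m ∈ M, R m x) → ∃ m ∈ M, g m = g x ∧ c = f m) ∧
        ((¬ ∃ m ∈ M, R m x) → c = f x) := fun x => by
      by_cases hx : x ∈ S ∧ ∃ m ∈ M, R m x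
      · obtain ⟨m, a, b⟩ := hg.hit h2 (fun m hm => ⟨h1 m hm, m, hm, hr m⟩) h3 (hg.1 x hx)
        exact ⟨f m, fun _ => ⟨fun _ => ⟨m, a, b, rfl⟩, fun h => absurd hx.2 h⟩⟩
      · exact ⟨f x, fun a => ⟨fun b => absurd ⟨a, b⟩ hx, fun _ => rfl⟩⟩
    choose u hu using this
    exact ⟨u, (paste ht ha (S := S) h2 (fun m hm => ⟨h1 m hm, hr m⟩)
      (cover hw h2 (fun m hm => ⟨h1 m hm, hr m⟩) h3) hf hg
      (fun x hx => (hu x hx).1) fun x hx => (hu x hx).2).1⟩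
  rcases S.eq_empty_or_nonempty with rfl | hS
  · exact ⟨0, by simp [Ch]⟩
  letI : PartialOrder X := { le := R, le_refl := hr, le_trans := ht, le_antisymm := ha }
  obtain ⟨a, ha1, ha2⟩ := S.exists_minimal hS
  obtain ⟨b, hb1, hb2⟩ := (S.filter fun x => R a x).exists_maximal ⟨a, mem_filter.2 ⟨ha1, hr a⟩⟩
  rw [mem_filter] at hb1
  obtain ⟨k, rfl⟩ : ∃ j, k = j + 1 := ⟨k - 1, by
    have := hw {a} (by simpa using ha1) (by simp [An])
    simp at this; omega⟩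
  obtain ⟨f, hf⟩ := ih ((S.erase a).erase b) (lt_of_le_of_lt (erase_subset _ _) (erase_ssubset ha1)) k
    fun M h1 h2 => by
      simp only [mem_erase] at h1
      refine Nat.le_of_lt_succ (lt_of_le_of_ne (hw M (fun m hm => (h1 m hm).2.2) h2) fun e => ?_)
      refine h ⟨M, fun m hm => (h1 m hm).2.2, h2, e, ⟨a, ha1, ?_⟩, b, hb1.1, ?_⟩
      · rintro ⟨m, hm, r⟩
        exact (h1 m hm).2.1 (ha _ _ r (ha2 (h1 m hm).2.2 r))
      · rintro ⟨m, hm, r⟩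
        exact (h1 m hm).1 (ha _ _ (hb2 (mem_filter.2 ⟨(h1 m hm).2.2, ht _ _ _ hb1.2 r⟩) r) r)
  have m : ∀ x ∈ S, ¬ (x = a ∨ x = b) → x ∈ (((S.erase a).erase b : Finset X) : Set X) :=
    fun x hx h => by push Not at h; simpa [h] using hx
  refine ⟨fun x => if x = a ∨ x = b then k else f x, fun x hx => ?_, fun x hx y hy e => ?_⟩
  · simp only; split_ifs with c
    · omega
    · exact (hf.1 x (m x hx c)).trans (by omega)
  · simp only at e; split_ifs at e with c d d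
    · rcases c with rfl | rfl <;> rcases d with rfl | rfl <;> simp [hr, hb1.2]
    · exact absurd (hf.1 y (m y hy d)) (by omega)
    · exact absurd (hf.1 x (m x hx c)) (by omega)
    · exact hf.2 x (m x hx c) y (m y hy d) e

theorem dilw (hr : ∀ x, R x x) (ht : ∀ x y z, R x y → R y z → R x z)
    (ha : ∀ x y, R x y → R y x → x = y) (S : Set X) (k : ℕ)
    (hw : ∀ M : Finset X, (∀ m ∈ M, m ∈ S) → An R M → #M ≤ k) : ∃ f, Ch R S k f := by
  classical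
  choose g hg using fun N : Finset X => dilw_fin hr ht ha (N.filter (· ∈ S)) k
    fun M a b => hw M (fun m c => (mem_filter.1 (a m c)).2) b
  obtain ⟨f, hf⟩ := cluster (Ultrafilter.of atTop) (fun N x => min (g N x) k) k
    fun _ _ => min_le_right _ _
  have e : ∀ x ∈ S, ∀ᶠ N in (Ultrafilter.of atTop : Ultrafilter (Finset X)), x ∈ ((N.filter (· ∈ S) : Finset X) : Set X) ∧
      g N x = f x := fun x hx => by
    filter_upwards [hf x, Ultrafilter.of_le atTop (eventually_ge_atTop {x})] with N h1 h2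
    have : x ∈ ((N.filter (· ∈ S) : Finset X) : Set X) := by simpa [hx] using h2
    exact ⟨this, by rw [← h1, min_eq_left ((hg N).1 x this).le]⟩
  refine ⟨f, fun x hx => ?_, fun x hx y hy h => ?_⟩
  · obtain ⟨N, h1, h2⟩ := (e x hx).exists
    exact h2 ▸ (hg N).1 x h1
  · obtain ⟨N, ⟨h1, h2⟩, h3, h4⟩ := ((e x hx).and (e y hy)).exists
    exact (hg N).2 x h1 y h3 (by rw [h2, h4, h])

end Pool.Agent.H37.PD
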