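import Pool.Agent.H37.CI

/-!
Normal forms for c.e. predicates, the halting problem in stage form, and numberings.
-/

set_option autoImplicit false

namespace Pool.Agent.H37

open Encodable Nat.Partrec Nat.Partrec.Code

variable {α β γ : Type} [Primcodable α] [Primcodable β] [Primcodable γ]

theorem computablePred_iff {p : α → Prop} :
    ComputablePred p ↔ ∃ f : α → Bool, CI ∅ f ∧ ∀ a, p a ↔ f a = true := by
  rw [ComputablePred.computable_iff]
  constructor
  · rintro ⟨f, hf, rfl⟩; exact ⟨f, CI.of_comp hf, fun a => Iff.rfl⟩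
  · rintro ⟨f, hf, h⟩; exact ⟨f, hf.computable, funext fun a => propext (h a)⟩

theorem computablePred_of {p : α → Prop} (f : α → Bool) (hf : CI ∅ f)
    (h : ∀ a, p a ↔ f a = true) : ComputablePred p := computablePred_iff.2 ⟨f, hf, h⟩

theorem partrec_of_ri {f : α →. β} (h : RecursiveIn ∅ f) : Partrec f := recursiveIn_empty_iff.1 h

theorem re_of_nat {p : α → Prop} (D : α → ℕ → Bool) (hD : CI ∅ fun q : α × ℕ => D q.1 q.2)
    (h : ∀ a, p a ↔ ∃ s, D a s = true) : REPred p := by
  have := (partrec_of_ri (RI.rfind (p := fun a n => Part.some (D a n)) hD.ri)).dom_re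
  refine this.of_eq fun a => ?_
  rw [h, Nat.rfind_dom]
  simp

/-- projections of computable relations are c.e. -/
theorem re_of_exists {p : α → Prop} (D : α → β → Bool) (hD : CI ∅ fun q : α × β => D q.1 q.2)
    (h : ∀ a, p a ↔ ∃ b, D a b = true) : REPred p := by
  refine re_of_nat (fun a n => (decode (α := β) n).elim false (D a)) ?_ fun a => ?_
  · refine CI.elim (by fun_prop) (by fun_prop) ?_
    exact hD.comp (g := fun q : (α × ℕ) × β => (q.1.1, q.2)) (by fun_prop)
  · rw [h]
    constructor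
    · rintro ⟨b, hb⟩; exact ⟨encode b, by simpa using hb⟩
    · rintro ⟨n, hn⟩
      cases e : decode (α := β) n with
      | none => simp [e] at hn
      | some b => exact ⟨b, by simpa [e] using hn⟩

/-- stage approximation of a partial recursive function -/
theorem partrec_stage {f : α →. β} (hf : Partrec f) :
    ∃ F : α → ℕ → Option β, CI ∅ (fun q : α × ℕ => F q.1 q.2) ∧
      (∀ a s t b, s ≤ t → F a s = some b → F a t = some b) ∧
      ∀ a b, b ∈ f a ↔ ∃ s, F a s = some b := by
  obtain ⟨c, hc⟩ := exists_code.1 hf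
  refine ⟨fun a s => (evaln s c (encode a)).bind fun v => decode v, by fun_prop, ?_, ?_⟩
  · intro a s t b hst h
    simp only [Option.bind_eq_some_iff] at h ⊢
    obtain ⟨v, hv, hb⟩ := h
    exact ⟨v, evaln_mono hst hv, hb⟩
  · intro a b
    have key : ∀ v, v ∈ eval c (encode a) ↔ ∃ b ∈ f a, encode b = v := by
      intro v; rw [hc]; simp
    constructor
    · intro hb
      obtain ⟨s, hs⟩ := evaln_complete.1 ((key _).2 ⟨b, hb, rfl⟩)
      exact ⟨s, by simp only [Option.bind_eq_some_iff]; exact ⟨_, hs, by simp⟩⟩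
    · rintro ⟨s, hs⟩
      simp only [Option.bind_eq_some_iff] at hs
      obtain ⟨v, hv, hb⟩ := hs
      obtain ⟨b', hb', rfl⟩ := (key v).1 (evaln_sound hv)
      simp only [encodek, Option.some.injEq] at hb
      exact hb ▸ hb'

/-- stage approximation of a c.e. predicate -/
theorem re_stage {p : α → Prop} (hp : REPred p) :
    ∃ D : α → ℕ → Bool, CI ∅ (fun q : α × ℕ => D q.1 q.2) ∧
      (∀ a s t, s ≤ t → D a s = true → D a t = true) ∧ ∀ a, p a ↔ ∃ s, D a s = true := by
  obtain ⟨F, hF, hm, h⟩ := partrec_stage hp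
  refine ⟨fun a s => (F a s).isSome, by fun_prop, fun a s t hst hs => ?_, fun a => ?_⟩
  · obtain ⟨b, hb⟩ := Option.isSome_iff_exists.1 hs
    simp [hm a s t b hst hb]
  · have := h a ()
    simp only [Part.mem_assert_iff, Part.mem_some_iff, exists_prop, and_true] at this
    rw [this]
    refine exists_congr fun s => ?_
    beta_reduce
    cases F a s <;> simp

theorem REPred.comp' {p : β → Prop} (hp : REPred p) {g : α → β} (hg : CI ∅ g) :
    REPred fun a => p (g a) := Partrec.comp hp hg.computable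

theorem re_and {p q : α → Prop} (hp : REPred p) (hq : REPred q) : REPred fun a => p a ∧ q a := by
  obtain ⟨D, hD, hm, h⟩ := re_stage hp
  obtain ⟨E, hE, hm', h'⟩ := re_stage hq
  refine re_of_nat (fun a s => D a s && E a s) (by fun_prop) fun a => ?_
  rw [h, h']
  constructor
  · rintro ⟨⟨s, hs⟩, t, ht⟩
    exact ⟨max s t, by simp [hm a s _ (le_max_left s t) hs, hm' a t _ (le_max_right s t) ht]⟩
  · rintro ⟨s, hs⟩
    simp only [Bool.and_eq_true] at hs
    exact ⟨⟨s, hs.1⟩, s, hs.2⟩

theorem re_or {p q : α → Prop} (hp : REPred p) (hq : REPred q) : REPred fun a => p a ∨ q a := by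
  obtain ⟨D, hD, -, h⟩ := re_stage hp
  obtain ⟨E, hE, -, h'⟩ := re_stage hq
  refine re_of_nat (fun a s => D a s || E a s) (by fun_prop) fun a => ?_
  rw [h, h']
  simp [exists_or]

theorem re_exists {p : α → β → Prop} (hp : REPred fun q : α × β => p q.1 q.2) :
    REPred fun a => ∃ b, p a b := by
  obtain ⟨D, hD, -, h⟩ := re_stage hp
  refine re_of_exists (fun a (b : β × ℕ) => D (a, b.1) b.2) ?_ fun a => ?_
  · exact hD.comp (g := fun q : α × β × ℕ => ((q.1, q.2.1), q.2.2)) (by fun_prop)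
  · constructor
    · rintro ⟨b, hb⟩
      obtain ⟨s, hs⟩ := (h (a, b)).1 hb
      exact ⟨(b, s), hs⟩
    · rintro ⟨⟨b, s⟩, hs⟩
      exact ⟨b, (h (a, b)).2 ⟨s, hs⟩⟩

theorem exists_stage_all {ι : Type} (l : List ι) (D : ι → ℕ → Bool)
    (hm : ∀ a s t, s ≤ t → D a s = true → D a t = true) (h : ∀ a ∈ l, ∃ s, D a s = true) :
    ∃ s, ∀ t, s ≤ t → ∀ a ∈ l, D a t = true := by
  induction l with
  | nil => exact ⟨0, by simp⟩
  | cons a l ih =>
    obtain ⟨s, hs⟩ := ih fun b hb => h b (List.mem_cons_of_mem _ hb)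
    obtain ⟨s', hs'⟩ := h a List.mem_cons_self
    refine ⟨max s s', fun t ht b hb => ?_⟩
    rcases List.mem_cons.1 hb with rfl | hb
    · exact hm _ _ _ (le_trans (le_max_right _ _) ht) hs'
    · exact hs t (le_trans (le_max_left _ _) ht) b hb

theorem re_forall_mem {p : α → β → Prop} (hp : REPred fun q : α × β => p q.1 q.2)
    {l : α → List β} (hl : CI ∅ l) : REPred fun a => ∀ b ∈ l a, p a b := by
  obtain ⟨D, hD, hm, h⟩ := re_stage hp
  refine re_of_nat (fun a s => (l a).all fun b => D (a, b) s) ?_ fun a => ?_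
  · refine CI.all (by fun_prop) ?_
    exact hD.comp (g := fun q : (α × ℕ) × β => ((q.1.1, q.2), q.1.2)) (by fun_prop)
  · constructor
    · intro H
      obtain ⟨s, hs⟩ := exists_stage_all (l a) (fun b s => D (a, b) s) (fun b => hm (a, b))
        fun b hb => (h (a, b)).1 (H b hb)
      exact ⟨s, by simpa using hs s le_rfl⟩
    · rintro ⟨s, hs⟩ b hb
      exact (h (a, b)).2 ⟨s, by simpa using List.all_eq_true.1 hs b hb⟩

theorem re_of_bool {p : α → Prop} (f : α → Bool) (hf : CI ∅ f) (h : ∀ a, p a ↔ f a = true) :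
    REPred p := (computablePred_of f hf h).to_re

/-- a c.e. relation that is total has a computable selector -/
theorem re_choice {p : α → β → Prop} (hp : REPred fun q : α × β => p q.1 q.2)
    (h : ∀ a, ∃ b, p a b) : ∃ f : α → β, CI ∅ f ∧ ∀ a, p a (f a) := by
  obtain ⟨D, hD, -, hh⟩ := re_stage hp
  obtain ⟨f, hf, H⟩ := CI.exists_choice (O := ∅) (p := fun a (b : β × ℕ) => D (a, b.1) b.2)
    (hD.comp (g := fun q : α × β × ℕ => ((q.1, q.2.1), q.2.2)) (by fun_prop)) fun a => by
      obtain ⟨b, hb⟩ := h a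
      obtain ⟨s, hs⟩ := (hh (a, b)).1 hb
      exact ⟨(b, s), hs⟩
  exact ⟨fun a => (f a).1, by fun_prop, fun a => (hh (a, (f a).1)).2 ⟨_, H a⟩⟩

theorem bool_of_re_re {p : α → Prop} (h1 : REPred p) (h2 : REPred fun a => ¬ p a) :
    ∃ f : α → Bool, CI ∅ f ∧ ∀ a, p a ↔ f a = true :=
  computablePred_iff.1 (ComputablePred.computable_iff_re_compl_re'.2 ⟨h1, h2⟩)

/-- the `e`-th program on input `n`, run for `s` steps -/
def ev (e n s : ℕ) : Option ℕ := evaln s (Denumerable.ofNat Code e) n

@[fun_prop] theorem CI.ev {O : Set (ℕ →. ℕ)} {e n s : α → ℕ} (he : CI O e) (hn : CI O n)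
    (hs : CI O s) : CI O fun a => ev (e a) (n a) (s a) := by
  unfold Pool.Agent.H37.ev; fun_prop

theorem ev_mono {e n s t v : ℕ} (h : s ≤ t) (hv : ev e n s = some v) : ev e n t = some v :=
  evaln_mono h hv

theorem ev_unique {e n s t v w : ℕ} (hv : ev e n s = some v) (hw : ev e n t = some w) : v = w := by
  have h1 := ev_mono (le_max_left s t) hv
  have h2 := ev_mono (le_max_right s t) hw
  rw [h1] at h2; exact Option.some.inj h2

theorem ev_iff {e n v : ℕ} :
    v ∈ eval (Denumerable.ofNat Code e) n ↔ ∃ s, ev e n s = some v := evaln_complete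

theorem exists_index_part {f : ℕ →. ℕ} (hf : Partrec f) :
    ∃ e, ∀ n v, v ∈ f n ↔ ∃ s, ev e n s = some v := by
  obtain ⟨c, hc⟩ := exists_code.1 (Partrec.nat_iff.1 hf)
  refine ⟨encode c, fun n v => ?_⟩
  rw [← ev_iff, Denumerable.ofNat_encode, hc]

theorem exists_index {f : ℕ → ℕ} (hf : CI ∅ f) : ∃ e, ∀ n, ∃ s, ev e n s = some (f n) := by
  obtain ⟨e, he⟩ := exists_index_part hf.computable
  exact ⟨e, fun n => (he n _).1 (by simp)⟩

/-- stage form of the halting set -/
def Kst (e s : ℕ) : Bool := (ev e e s).isSome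

@[fun_prop] theorem CI.Kst {O : Set (ℕ →. ℕ)} {e s : α → ℕ} (he : CI O e) (hs : CI O s) :
    CI O fun a => Kst (e a) (s a) := by
  unfold Pool.Agent.H37.Kst; fun_prop

theorem Kst_mono {e s t : ℕ} (h : s ≤ t) (hv : Kst e s = true) : Kst e t = true := by
  unfold Kst at *
  obtain ⟨v, hv⟩ := Option.isSome_iff_exists.1 hv
  simp [ev_mono h hv]

theorem K_not_coRE : ¬ REPred fun e => ¬ ∃ s, Kst e s = true := by
  intro h
  have h' : Partrec fun e : ℕ =>
      (Part.assert (¬ ∃ s, Kst e s = true) fun _ => Part.some ()).map fun _ => 0 :=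
    Partrec.map h (Computable.const 0).to₂
  obtain ⟨e, he⟩ := exists_index_part h'
  by_cases hk : ∃ s, Kst e s = true
  · obtain ⟨s, hs⟩ := hk
    obtain ⟨v, hv⟩ := Option.isSome_iff_exists.1 hs
    have := (he e v).2 ⟨s, hv⟩
    simp only [Part.mem_map_iff, Part.mem_assert_iff] at this
    obtain ⟨_, ⟨h1, -⟩, -⟩ := this
    exact h1 ⟨s, hs⟩
  · obtain ⟨s, hs⟩ := (he e 0).1 (by simp [hk])
    exact hk ⟨s, by simp [Kst, hs]⟩

theorem K_not_computable (f : ℕ → Bool) (hf : CI ∅ f) :
    ¬ ∀ e, f e = true ↔ ∃ s, Kst e s = true := fun h =>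
  K_not_coRE (re_of_bool (fun e => !f e) (by fun_prop) fun e => by rw [← h]; simp)

/-- a surjective numbering with decidable equality of an infinite type is computably
equivalent to a bijective one -/
theorem exists_equiv_of_numbering {τ : Type} [Infinite τ] (ν : ℕ → τ)
    (hν : Function.Surjective ν) (E : ℕ → ℕ → Bool) (hE : CI ∅ fun p : ℕ × ℕ => E p.1 p.2)
    (hEν : ∀ a b, E a b = true ↔ ν a = ν b) :
    ∃ (e : ℕ ≃ τ) (r s : ℕ → ℕ), CI ∅ r ∧ CI ∅ s ∧ (∀ n, ν (r n) = e n) ∧
      ∀ m, e (s m) = ν m := by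
  classical
  let P : ℕ → Bool := fun n => (List.range n).all fun m => !E m n
  have hP : CI ∅ P := by
    refine CI.all (by fun_prop) (CI.not ?_)
    exact hE.comp (g := fun q : ℕ × ℕ => (q.2, q.1)) (by fun_prop)
  have hPs : ∀ n, P n = true ↔ ∀ m < n, ν m ≠ ν n := by
    intro n; simp [P, ← hEν]
  have hex : ∀ m, ∃ k, E k m = true := fun m => ⟨m, (hEν _ _).2 rfl⟩
  let lst : ℕ → ℕ := fun m => Nat.find (hex m)
  have hlst : CI ∅ lst := CI.find (p := fun m k => E k m)
    (hE.comp (g := fun q : ℕ × ℕ => (q.2, q.1)) (by fun_prop)) hex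
  have hl1 : ∀ m, ν (lst m) = ν m := fun m => (hEν _ _).1 (Nat.find_spec (hex m))
  have hl2 : ∀ m, P (lst m) = true := fun m => (hPs _).2 fun k hk hkk =>
    Nat.find_min (hex m) hk ((hEν _ _).2 (hkk.trans (hl1 m)))
  have hinj : ∀ a b, P a = true → P b = true → ν a = ν b → a = b := by
    intro a b ha hb hab
    rcases lt_trichotomy a b with h | h | h
    · exact absurd hab ((hPs b).1 hb a h)
    · exact h
    · exact absurd hab.symm ((hPs a).1 ha b h)
  have hinf : (Set.ofPred fun n => P n = true).Infinite := by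
    intro hf
    have : (Set.univ : Set τ).Finite := by
      refine (hf.image ν).subset fun x _ => ?_
      obtain ⟨m, rfl⟩ := hν x
      exact ⟨lst m, hl2 m, hl1 m⟩
    exact Set.infinite_univ this
  let cnt : ℕ → ℕ := fun n => Nat.count (fun n => P n = true) n
  have hcnt : CI ∅ cnt :=
    CI.of_rec1 (h := fun n c => c + cond (P n) 1 0) (by fun_prop) fun n => by
      simp only [cnt, Nat.count_succ]; cases P n <;> simp
  have hex2 : ∀ n, ∃ k, (P k && decide (cnt k = n)) = true := fun n =>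
    ⟨Nat.nth (fun n => P n = true) n, by
      simp [cnt, Nat.nth_mem_of_infinite hinf, Nat.count_nth_of_infinite hinf]⟩
  obtain ⟨r, hr, hr'⟩ := CI.exists_choice (O := ∅)
    (p := fun n k => P k && decide (cnt k = n)) (by fun_prop) hex2
  simp only [Bool.and_eq_true, decide_eq_true_eq] at hr'
  have hcinj : ∀ a b, P a = true → P b = true → cnt a = cnt b → a = b := by
    intro a b ha hb hab
    rw [← Nat.nth_count (p := fun n => P n = true) ha, ← Nat.nth_count (p := fun n => P n = true) hb]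
    exact congrArg _ hab
  have hbij : Function.Bijective fun n => ν (r n) := by
    constructor
    · intro a b hab
      have := hinj _ _ (hr' a).1 (hr' b).1 hab
      rw [← (hr' a).2, ← (hr' b).2, this]
    · intro x
      obtain ⟨m, rfl⟩ := hν x
      refine ⟨cnt (lst m), ?_⟩
      show ν (r _) = _
      rw [hcinj _ _ (hr' _).1 (hl2 m) (hr' _).2, hl1]
  refine ⟨Equiv.ofBijective _ hbij, r, fun m => cnt (lst m), hr, by fun_prop, fun n => rfl,
    fun m => ?_⟩
  show ν (r _) = _
  rw [hcinj _ _ (hr' _).1 (hl2 m) (hr' _).2, hl1]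

end Pool.Agent.H37
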