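import Pool.Agent.H37.DC

/-!
Normal form for oracle computations: every partial function recursive in a total oracle `x` is
`app e x` for a monotone functional `U e` on finite strings. The low basis theorem.
-/

set_option autoImplicit false

namespace Pool.Agent.H37

open Encodable Filter Nat.Partrec

variable {α β : Type} [Primcodable α] [Primcodable β] {O : Set (ℕ →. ℕ)}

/-- the oracle given by a total function -/
abbrev orc (x : ℕ → ℕ) : Set (ℕ →. ℕ) := {fun n => Part.some (x n)}

def pre {γ : Type} (x : ℕ → γ) (k : ℕ) : List γ := (List.range k).map x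

section pre
variable {γ : Type}

@[simp] theorem length_pre (x : ℕ → γ) (k : ℕ) : (pre x k).length = k := by simp [pre]
theorem pre_succ (x : ℕ → γ) (k : ℕ) : pre x (k + 1) = pre x k ++ [x k] := by
  simp [pre, List.range_succ]
theorem pre_pf (x : ℕ → γ) {k l : ℕ} (h : k ≤ l) : pre x k <+: pre x l := by
  induction l, h using Nat.le_induction with
  | base => exact List.prefix_rfl
  | succ l _ ih => rw [pre_succ]; exact ih.trans (List.prefix_append _ _)
theorem take_pre (x : ℕ → γ) {k l : ℕ} (h : k ≤ l) : (pre x l).take k = pre x k := by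
  have := List.prefix_iff_eq_take.1 (pre_pf x h)
  rw [length_pre] at this; exact this.symm
theorem getElem?_pre (x : ℕ → γ) {k i : ℕ} (h : i < k) : (pre x k)[i]? = some (x i) := by
  simp [pre, h]
theorem getD_pre (x : ℕ → γ) {k i : ℕ} (h : i < k) (d : γ) : (pre x k).getD i d = x i := by
  simp [pre, h]
theorem pre_congr {x y : ℕ → γ} {k : ℕ} (h : ∀ i < k, x i = y i) : pre x k = pre y k :=
  List.map_congr_left fun i hi => h i (List.mem_range.1 hi)
theorem pre_eq_iff {x y : ℕ → γ} {k : ℕ} : pre x k = pre y k ↔ ∀ i < k, x i = y i :=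
  ⟨fun h i hi => by
    have := getElem?_pre x hi
    rw [h, getElem?_pre y hi] at this
    exact (Option.some.inj this).symm, pre_congr⟩
theorem pre_getD (σ : List γ) (d : γ) : pre (fun i => σ.getD i d) σ.length = σ := by
  apply List.ext_getElem <;> simp +contextual [pre]
theorem pf_pre {σ : List γ} {x : ℕ → γ} {k : ℕ} (h : σ <+: pre x k) : σ = pre x σ.length := by
  have := h.length_le
  rw [length_pre] at this
  rw [← take_pre x this]; exact List.prefix_iff_eq_take.1 h
end pre

@[fun_prop] theorem CI.pre {x : α → ℕ → β} {k : α → ℕ} (hx : CI O fun q : α × ℕ => x q.1 q.2)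
    (hk : CI O k) : CI O fun a => pre (x a) (k a) := by
  unfold Pool.Agent.H37.pre; fun_prop

def Mon {γ δ : Type} (Φ : List γ → ℕ → Option δ) : Prop :=
  ∀ σ τ n v, σ <+: τ → Φ σ n = some v → Φ τ n = some v

theorem Mon.ev {γ δ : Type} {Φ : List γ → ℕ → Option δ} (h : Mon Φ) {x : ℕ → γ} {n : ℕ} {v : δ} :
    (∃ k, Φ (pre x k) n = some v) ↔ ∀ᶠ k in atTop, Φ (pre x k) n = some v :=
  ⟨fun ⟨k, hk⟩ => (eventually_ge_atTop k).mono fun _ hl => h _ _ _ _ (pre_pf x hl) hk,
    fun h => h.exists⟩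

theorem exists_rep {x : ℕ → ℕ} {f : ℕ →. ℕ} (h : Nat.RecursiveIn (orc x) f) :
    ∃ Φ : List ℕ → ℕ → Option ℕ, CI ∅ (fun q : List ℕ × ℕ => Φ q.1 q.2) ∧ Mon Φ ∧
      ∀ n v, v ∈ f n ↔ ∀ᶠ k in atTop, Φ (pre x k) n = some v := by
  have base : ∀ g : ℕ → ℕ, CI ∅ g → ∃ Φ : List ℕ → ℕ → Option ℕ,
      CI ∅ (fun q : List ℕ × ℕ => Φ q.1 q.2) ∧ Mon Φ ∧
      ∀ n v, v ∈ Part.some (g n) ↔ ∀ᶠ k in atTop, Φ (pre x k) n = some v := fun g hg =>
    ⟨fun _ n => some (g n), by fun_prop, fun _ _ _ _ _ h => h, fun n v => by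
      rw [eventually_const, Part.mem_some_iff, Option.some.injEq, eq_comm]⟩
  induction h with
  | zero => exact base (fun _ => 0) (by fun_prop)
  | succ => exact base Nat.succ (by fun_prop)
  | left => exact base (fun n => n.unpair.1) (by fun_prop)
  | right => exact base (fun n => n.unpair.2) (by fun_prop)
  | oracle g hg =>
    obtain rfl : g = _ := hg
    have hm : Mon fun (σ : List ℕ) n => σ[n]? := fun σ τ n v ⟨ρ, h⟩ h' => by
      obtain ⟨h1, -⟩ := List.getElem?_eq_some_iff.1 h'
      beta_reduce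
      rw [← h, List.getElem?_append_left h1]; exact h'
    refine ⟨fun σ n => σ[n]?, by fun_prop, hm, fun n v => ?_⟩
    rw [← hm.ev, Part.mem_some_iff]
    refine ⟨fun h => ⟨n + 1, by rw [getElem?_pre x (by omega), h]⟩, fun ⟨k, hk⟩ => ?_⟩
    obtain ⟨h1, -⟩ := List.getElem?_eq_some_iff.1 hk
    rw [getElem?_pre x (by simpa using h1)] at hk
    exact (Option.some.inj hk).symm
  | @pair f g _ _ ihf ihg =>
    obtain ⟨F, F1, F2, F3⟩ := ihf
    obtain ⟨G, G1, G2, G3⟩ := ihg
    refine ⟨fun σ n => (F σ n).bind fun a => (G σ n).map (Nat.pair a),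
      CI.optBind F1 (CI.optMap (by fun_prop) (G1.comp (g := fun q : (List ℕ × ℕ) × ℕ => q.1)
        (by fun_prop))), fun σ τ n v h h' => ?_,
      fun n v => ?_⟩
    · simp only [Option.bind_eq_some_iff, Option.map_eq_some_iff] at h' ⊢
      obtain ⟨a, h1, b, h2, h3⟩ := h'
      exact ⟨a, F2 _ _ _ _ h h1, b, G2 _ _ _ _ h h2, h3⟩
    · have : v ∈ Nat.pair <$> f n <*> g n ↔ ∃ a ∈ f n, ∃ b ∈ g n, Nat.pair a b = v := by
        simp [Seq.seq]
      rw [this]
      constructor
      · rintro ⟨a, h1, b, h2, rfl⟩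
        filter_upwards [(F3 _ _).1 h1, (G3 _ _).1 h2] with k h3 h4
        simp [h3, h4]
      · intro h
        obtain ⟨k, hk⟩ := h.exists
        simp only [Option.bind_eq_some_iff, Option.map_eq_some_iff] at hk
        obtain ⟨a, h1, b, h2, h3⟩ := hk
        exact ⟨a, (F3 _ _).2 (F2.ev.1 ⟨k, h1⟩), b, (G3 _ _).2 (G2.ev.1 ⟨k, h2⟩), h3⟩
  | @comp f g _ _ ihf ihg =>
    obtain ⟨F, F1, F2, F3⟩ := ihf
    obtain ⟨G, G1, G2, G3⟩ := ihg
    refine ⟨fun σ n => (G σ n).bind (F σ),
      CI.optBind G1 (F1.comp (g := fun q : (List ℕ × ℕ) × ℕ => (q.1.1, q.2)) (by fun_prop)),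
      fun σ τ n v h h' => ?_, fun n v => ?_⟩
    · simp only [Option.bind_eq_some_iff] at h' ⊢
      obtain ⟨a, h1, h2⟩ := h'
      exact ⟨a, G2 _ _ _ _ h h1, F2 _ _ _ _ h h2⟩
    · simp only [Part.bind_eq_bind, Part.mem_bind_iff]
      constructor
      · rintro ⟨a, h1, h2⟩
        filter_upwards [(G3 _ _).1 h1, (F3 _ _).1 h2] with k h3 h4
        simp [h3, h4]
      · intro h
        obtain ⟨k, hk⟩ := h.exists
        simp only [Option.bind_eq_some_iff] at hk
        obtain ⟨a, h1, h2⟩ := hk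
        exact ⟨a, (G3 _ _).2 (G2.ev.1 ⟨k, h1⟩), (F3 _ _).2 (F2.ev.1 ⟨k, h2⟩)⟩
  | @prec f g _ _ ihf ihg =>
    obtain ⟨F, F1, F2, F3⟩ := ihf
    obtain ⟨G, G1, G2, G3⟩ := ihg
    let R : List ℕ → ℕ → ℕ → Option ℕ := fun σ a m =>
      m.rec (F σ a) fun y IH => IH.bind fun i => G σ (Nat.pair a (Nat.pair y i))
    have R2 : ∀ a m σ τ v, σ <+: τ → R σ a m = some v → R τ a m = some v := by
      intro a m σ τ v h
      induction m generalizing v with
      | zero => exact F2 _ _ _ _ h
      | succ m ih =>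
        intro h'
        simp only [R, Option.bind_eq_some_iff] at h' ⊢
        obtain ⟨i, h1, h2⟩ := h'
        exact ⟨i, ih _ h1, G2 _ _ _ _ h h2⟩
    refine ⟨fun σ n => R σ n.unpair.1 n.unpair.2, ?_, fun σ τ n v => R2 _ _ σ τ v, fun n v => ?_⟩
    · refine CI.nat_rec (f := fun q : List ℕ × ℕ => q.2.unpair.2)
        (g := fun q => F q.1 q.2.unpair.1)
        (h := fun q y IH => IH.bind fun i => G q.1 (Nat.pair q.2.unpair.1 (Nat.pair y i)))
        (by fun_prop) (F1.comp (g := fun q : List ℕ × ℕ => (q.1, q.2.unpair.1)) (by fun_prop)) ?_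
      exact CI.optBind (by fun_prop) (G1.comp (g := fun q : ((List ℕ × ℕ) × ℕ × Option ℕ) × ℕ =>
        (q.1.1.1, Nat.pair q.1.1.2.unpair.1 (Nat.pair q.1.2.1 q.2))) (by fun_prop))
    · dsimp only
      generalize n.unpair.1 = a
      generalize n.unpair.2 = m
      induction m generalizing v with
      | zero => exact F3 a v
      | succ m ih =>
        simp only [Part.bind_eq_bind, Part.mem_bind_iff] at ih ⊢
        constructor
        · rintro ⟨i, h1, h2⟩
          filter_upwards [(ih _).1 h1, (G3 _ _).1 h2] with k h3 h4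
          change (R _ a m).bind _ = _
          simp [h3, h4]
        · intro h
          obtain ⟨k, hk⟩ := h.exists
          change (R _ a m).bind _ = _ at hk
          simp only [Option.bind_eq_some_iff] at hk
          obtain ⟨i, h1, h2⟩ := hk
          exact ⟨i, (ih _).2 ((eventually_ge_atTop k).mono fun l hl =>
            R2 _ _ _ _ _ (pre_pf x hl) h1), (G3 _ _).2 (G2.ev.1 ⟨k, h2⟩)⟩
  | @rfind f _ ih =>
    obtain ⟨F, F1, F2, F3⟩ := ih
    let P : List ℕ → ℕ → ℕ → Bool := fun σ a m => F σ (Nat.pair a m) == some 0 &&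
      (List.range m).all fun j => (F σ (Nat.pair a j)).getD 0 != 0
    have hP : ∀ σ a m, P σ a m = true ↔ F σ (Nat.pair a m) = some 0 ∧
        ∀ j < m, ∃ v, v ≠ 0 ∧ F σ (Nat.pair a j) = some v := by
      intro σ a m
      simp only [P, Bool.and_eq_true, beq_iff_eq, List.all_eq_true, List.mem_range, bne_iff_ne]
      refine and_congr_right fun _ => forall₂_congr fun j _ => ?_
      cases F σ (Nat.pair a j) <;> simp
    have hf : ∀ σ a m, (List.range σ.length).find? (P σ a) = some m ↔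
        m < σ.length ∧ P σ a m = true := by
      intro σ a m
      rw [List.find?_range_eq_some]
      refine ⟨fun h => ⟨List.mem_range.1 h.2.1, h.1⟩, fun h => ⟨h.2, List.mem_range.2 h.1,
        fun j hj => ?_⟩⟩
      obtain ⟨v, h1, h2⟩ := ((hP _ _ _).1 h.2).2 j hj
      simp [P, h2, h1]
    have hm : Mon fun σ a => (List.range σ.length).find? (P σ a) := fun σ τ a m h h' => by
      simp only [hf, hP] at h' ⊢
      refine ⟨h'.1.trans_le h.length_le, F2 _ _ _ _ h h'.2.1, fun j hj => ?_⟩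
      obtain ⟨v, h1, h2⟩ := h'.2.2 j hj
      exact ⟨v, h1, F2 _ _ _ _ h h2⟩
    obtain ⟨F', hF'⟩ : ∃ F' : List ℕ × ℕ → Option ℕ, ∀ σ n, F σ n = F' (σ, n) :=
      ⟨fun q => F q.1 q.2, fun _ _ => rfl⟩
    have F1' : CI ∅ F' := F1.of_eq fun q => hF' _ _
    refine ⟨fun σ a => (List.range σ.length).find? (P σ a), by simp only [P, hF']; fun_prop, hm,
      fun a m => ?_⟩
    simp only [hf, hP, Nat.mem_rfind, Part.map_eq_map, Part.mem_map_iff]
    simp only [length_pre]
    constructor
    · rintro ⟨⟨v, h1, h2⟩, h3⟩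
      obtain rfl : v = 0 := by simpa using h2
      have : ∀ᶠ k in atTop, ∀ j ∈ Finset.range m, ∃ v, v ≠ 0 ∧ F (pre x k) (Nat.pair a j) = some v :=
        (eventually_all_finset _).2 fun j hj => by
          obtain ⟨v, h4, h5⟩ := h3 (Finset.mem_range.1 hj)
          exact ((F3 _ _).1 h4).mono fun k hk => ⟨v, by simpa using h5, hk⟩
      filter_upwards [(F3 _ _).1 h1, this, eventually_gt_atTop m] with k h4 h5 h6
      exact ⟨h6, h4, fun j hj => h5 j (Finset.mem_range.2 hj)⟩
    · intro h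
      obtain ⟨k, -, h1, h2⟩ := h.exists
      refine ⟨⟨0, (F3 _ _).2 (F2.ev.1 ⟨k, h1⟩), by simp⟩, fun {j} hj => ?_⟩
      obtain ⟨v, h3, h4⟩ := h2 j hj
      exact ⟨v, (F3 _ _).2 (F2.ev.1 ⟨k, h4⟩), by simpa using h3⟩

/-- the `e`-th monotone functional -/
def U (e : ℕ) (σ : List ℕ) (n : ℕ) : Option ℕ :=
  ((List.range (σ.length + 1)).filterMap fun k => ev e (encode (σ.take k.unpair.1, n)) k).head?

@[fun_prop] theorem CI.U {e n : α → ℕ} {σ : α → List ℕ} (he : CI O e) (hσ : CI O σ) (hn : CI O n) :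
    CI O fun a => U (e a) (σ a) (n a) := by
  unfold Pool.Agent.H37.U; fun_prop

theorem U_mon (e : ℕ) : Mon (U e) := by
  rintro σ τ n v ⟨ρ, rfl⟩ h
  unfold U at h ⊢
  rw [List.length_append, add_right_comm, List.range_add, List.filterMap_append,
    List.filterMap_congr (g := fun k => ev e (encode (σ.take k.unpair.1, n)) k) fun k hk => by
      rw [List.take_append_of_le_length]
      have := Nat.unpair_left_le k
      have := List.mem_range.1 hk
      omega]
  rw [List.head?_append, h]; rfl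

/-- the partial function computed by the `e`-th functional from the oracle `x` -/
def app (e : ℕ) (x : ℕ → ℕ) : ℕ →. ℕ := fun n => Nat.rfindOpt fun k => U e (pre x k) n

theorem mem_app {e : ℕ} {x : ℕ → ℕ} {n v : ℕ} : v ∈ app e x n ↔ ∃ k, U e (pre x k) n = some v :=
  Nat.rfindOpt_mono fun h h' => U_mon e _ _ _ _ (pre_pf x h) h'

theorem mem_app' {e : ℕ} {x : ℕ → ℕ} {n v : ℕ} :
    v ∈ app e x n ↔ ∀ᶠ k in atTop, U e (pre x k) n = some v := mem_app.trans (U_mon e).ev

theorem dom_app {e : ℕ} {x : ℕ → ℕ} {n : ℕ} :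
    (app e x n).Dom ↔ ∃ k, (U e (pre x k) n).isSome = true := by
  simp only [Part.dom_iff_mem, mem_app, Option.isSome_iff_exists]
  exact exists_comm

theorem RI.app {e n : α → ℕ} {x : α → ℕ → ℕ} (he : CI O e)
    (hx : CI O fun q : α × ℕ => x q.1 q.2) (hn : CI O n) :
    RecursiveIn O fun a => app (e a) (x a) (n a) :=
  RI.rfindOpt (CI.U (by fun_prop) (CI.pre (x := fun q : α × ℕ => x q.1)
    (hx.comp (g := fun q : (α × ℕ) × ℕ => (q.1.1, q.2)) (by fun_prop)) (by fun_prop)) (by fun_prop))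

theorem ri_app (e : ℕ) {x : ℕ → ℕ} (hx : CI O x) : RecursiveIn O (app e x) :=
  RI.app (e := fun _ => e) (x := fun _ => x) (n := fun n => n) (by fun_prop) (by fun_prop)
    (by fun_prop)

/-- a computable monotone functional has an index -/
theorem exists_U {Φ : List ℕ → ℕ → Option ℕ} (h : CI ∅ fun q : List ℕ × ℕ => Φ q.1 q.2)
    (hm : Mon Φ) : ∃ e, (∀ σ n v, U e σ n = some v → Φ σ n = some v) ∧
      ∀ x n v, v ∈ app e x n ↔ ∃ k, Φ (pre x k) n = some v := by
  obtain ⟨e, he⟩ := exists_index_part (f := fun m =>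
      ((decode (α := List ℕ × ℕ) m).bind fun q => Φ q.1 q.2 : Option ℕ))
    (partrec_of_ri (RI.ofOption (CI.optBind (by fun_prop) (h.comp (by fun_prop)))))
  have h0 : ∀ σ n v, Φ σ n = some v ↔ ∃ s, ev e (encode (σ, n)) s = some v := fun σ n v => by
    rw [← he]; simp only [encodek, Option.bind_some, Part.mem_coe, Option.mem_def]
  have h1 : ∀ σ n v, U e σ n = some v → Φ σ n = some v := fun σ n v h => by
    obtain ⟨k, -, hk⟩ := List.mem_filterMap.1 (List.mem_of_mem_head? h)
    exact hm _ _ _ _ (List.take_prefix _ _) ((h0 _ _ _).2 ⟨k, hk⟩)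
  refine ⟨e, h1, fun x n v => mem_app.trans ⟨fun ⟨k, hk⟩ => ⟨k, h1 _ _ _ hk⟩, fun ⟨k, hk⟩ => ?_⟩⟩
  obtain ⟨s, hs⟩ := (h0 _ _ _).1 hk
  have h2 : v ∈ (List.range ((pre x (Nat.pair k s)).length + 1)).filterMap fun j =>
      ev e (encode ((pre x (Nat.pair k s)).take j.unpair.1, n)) j :=
    List.mem_filterMap.2 ⟨Nat.pair k s, by simp, by
      rw [Nat.unpair_pair, take_pre x (Nat.left_le_pair k s)]
      exact ev_mono (Nat.right_le_pair k s) hs⟩
  obtain ⟨w, hw⟩ : ∃ w, U e (pre x (Nat.pair k s)) n = some w :=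
    ⟨_, List.head?_eq_some_head (List.ne_nil_of_mem h2)⟩
  have h3 := h1 _ _ _ hw
  rw [hm _ _ _ _ (pre_pf x (Nat.left_le_pair k s)) hk] at h3
  exact ⟨_, hw.trans h3.symm⟩

theorem exists_app {x : ℕ → ℕ} {f : ℕ →. ℕ} (h : RecursiveIn (orc x) f) : ∃ e, f = app e x := by
  obtain ⟨Φ, h1, h2, h3⟩ := exists_rep (RecursiveIn.iff_nat.1 h)
  obtain ⟨e, -, he⟩ := exists_U h1 h2
  exact ⟨e, funext fun n => Part.ext fun v => by rw [h3, he, h2.ev]⟩

theorem exists_app_tot {x f : ℕ → ℕ} (h : CI (orc x) f) : ∃ e, ∀ n, f n ∈ app e x n := by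
  obtain ⟨e, he⟩ := exists_app h.ri
  exact ⟨e, fun n => by rw [← he]; simp⟩

theorem countable_ri (x : ℕ → ℕ) : {f : ℕ →. ℕ | RecursiveIn (orc x) f}.Countable :=
  (Set.countable_range fun e => app e x).mono fun _ h => (exists_app h).imp fun _ h => h.symm

theorem countable_ci (x : ℕ → ℕ) : {f : ℕ → ℕ | CI (orc x) f}.Countable :=
  (countable_ri x).preimage_of_injOn (f := fun f : ℕ → ℕ => fun n => Part.some (f n))
    (fun f _ g _ h => funext fun n => Part.some_injective (congrFun h n)) |>.mono fun _ h => h.ri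

theorem CI.trans {x : ℕ → ℕ} {f : α → β} (h : CI (orc x) f) (hx : CI O x) : CI O f :=
  h.subst fun g hg => by obtain rfl : g = _ := hg; exact hx.ri

/-! ### the halting oracle -/

open Classical in
/-- characteristic function of the halting set -/
noncomputable def Kf (e : ℕ) : ℕ := if (Code.eval (Denumerable.ofNat Code e) e).Dom then 1 else 0

theorem ci_K {p : α → Prop} (hp : REPred p) :
    ∃ b : α → Bool, CI (orc Kf) b ∧ ∀ a, p a ↔ b a = true := by
  have h : Partrec fun m : ℕ => ((decode (α := α) m.unpair.1 : Option α) : Part α).bind fun a =>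
      (Part.assert (p a) fun _ => Part.some ()).map fun _ => 0 :=
    (Computable.ofOption (CI.computable (by fun_prop))).bind
      ((Partrec.map hp (Computable.const 0).to₂).comp Computable.snd).to₂
  obtain ⟨c, hc⟩ := Code.exists_code.1 (Partrec.nat_iff.1 h)
  have hK := CI.self Kf
  refine ⟨fun a => Kf (encode (Code.curry c (encode a))) == 1, by fun_prop, fun a => ?_⟩
  simp only [Kf, Denumerable.ofNat_encode, beq_iff_eq, ite_eq_left_iff, zero_ne_one, imp_false,
    not_not]
  rw [Code.eval_curry, hc]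
  simp [Part.assert]

/-! ### the low basis theorem -/

theorem exists_path {T : List Bool → Prop} (h : ∀ k, ∃ x, ∀ j ≤ k, T (pre x j)) :
    ∃ x, ∀ j, T (pre x j) := by
  have hc : ∀ k, IsClosed {x : ℕ → Bool | ∀ j ≤ k, T (pre x j)} := fun k => by
    have : {x : ℕ → Bool | ∀ j ≤ k, T (pre x j)} =
        (fun (x : ℕ → Bool) (i : Fin k) => x i) ⁻¹' {y | ∀ j ≤ k,
          T (pre (fun i => if h : i < k then y ⟨i, h⟩ else false) j)} := by
      ext x
      refine forall₂_congr fun j hj => ?_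
      exact iff_of_eq (congrArg T (pre_congr fun i hi => by simp [show i < k by omega]))
    rw [this]
    exact (isClosed_discrete _).preimage (by fun_prop)
  obtain ⟨x, hx⟩ := IsCompact.nonempty_iInter_of_sequence_nonempty_isCompact_isClosed
    (fun k => {x : ℕ → Bool | ∀ j ≤ k, T (pre x j)}) (fun k x hx j hj => hx j (by omega)) h
    (hc 0).isCompact hc
  exact ⟨x, fun j => Set.mem_iInter.1 hx j j le_rfl⟩

/-- emptiness of an effectively closed class is c.e. -/
theorem re_empty {T : α → List Bool → Bool} (hT : CI ∅ fun q : α × List Bool => T q.1 q.2) :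
    REPred fun a => ¬ ∃ x, ∀ j, T a (pre x j) = true := by
  obtain ⟨T', hT'⟩ : ∃ T' : α × List Bool → Bool, ∀ a σ, T a σ = T' (a, σ) :=
    ⟨fun q => T q.1 q.2, fun _ _ => rfl⟩
  have h1 : CI ∅ T' := hT.of_eq fun q => hT' _ _
  refine re_of_nat (fun a k => (allLists [true, false] k).all fun σ => σ.length != k ||
    (List.range (k + 1)).any fun j => !T' (a, σ.take j)) (by fun_prop) fun a => ?_
  simp only [List.all_eq_true, mem_allLists, Bool.or_eq_true, bne_iff_ne, List.any_eq_true,
    List.mem_range, Bool.not_eq_true', ← hT']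
  constructor
  · intro h
    by_contra hn
    push Not at hn
    refine h (exists_path (T := fun σ => T a σ = true) fun k => ?_)
    obtain ⟨σ, -, h2, h3⟩ := hn k
    refine ⟨fun i => σ.getD i false, fun j hj => ?_⟩
    rw [← take_pre _ hj, ← h2, pre_getD]
    simpa using h3 j (by omega)
  · rintro ⟨k, hk⟩ ⟨x, hx⟩
    rcases hk (pre x k) ⟨by simp, by simp⟩ with h | ⟨j, h1, h2⟩
    · simp at h
    · rw [take_pre x (by omega), hx] at h2; cases h2

theorem low_basis {T : List Bool → Bool} (hT : CI ∅ T) (h : ∃ x, ∀ j, T (pre x j) = true) :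
    ∃ x : ℕ → Bool, (∀ j, T (pre x j) = true) ∧ ∃ b : ℕ × ℕ → Bool, CI (orc Kf) b ∧
      ∀ e n, (app e (fun i => (x i).toNat) n).Dom ↔ b (e, n) = true := by
  let S : List ℕ → List Bool → Bool := fun E σ =>
    T σ && E.all fun p => (U p.unpair.1 (σ.map Bool.toNat) p.unpair.2).isNone
  obtain ⟨c, hc, hcS⟩ := ci_K (re_empty (T := S) (by simp only [S]; fun_prop))
  let E : ℕ → List ℕ := fun n => n.rec [] fun p L => cond (c (p :: L)) L (p :: L)
  have hE : CI (orc Kf) E := CI.of_rec1 (h := fun p L => cond (c (p :: L)) L (p :: L))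
    (by fun_prop) fun _ => rfl
  have hEs : ∀ n, E (n + 1) = cond (c (n :: E n)) (E n) (n :: E n) := fun _ => rfl
  have h1 : ∀ n, ∃ x, ∀ j, S (E n) (pre x j) = true := by
    intro n
    induction n with
    | zero => simpa [S, E] using h
    | succ n ih =>
      rw [hEs]
      cases hb : c (n :: E n)
      · by_contra hn
        rw [(hcS (n :: E n)).1 hn] at hb; cases hb
      · exact ih
  have h2 : ∀ n m, n ≤ m → E n ⊆ E m := fun n m h => by
    induction m, h using Nat.le_induction with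
    | base => exact List.Subset.refl _
    | succ m _ ih =>
      rw [hEs]
      cases c (m :: E m)
      · exact List.subset_cons_of_subset _ ih
      · exact ih
  have h3 : ∀ {L L' σ}, L ⊆ L' → S L' σ = true → S L σ = true := fun h h' => by
    simp only [S, Bool.and_eq_true, List.all_eq_true] at h' ⊢
    exact ⟨h'.1, fun p hp => h'.2 p (h hp)⟩
  obtain ⟨x, hx⟩ := exists_path (T := fun σ => ∀ j ≤ σ.length, S (E σ.length) (σ.take j) = true)
    fun k => (h1 k).imp fun x hx j hj i hi => by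
      rw [length_pre] at hi ⊢
      rw [take_pre x hi]; exact h3 (h2 _ _ hj) (hx i)
  have h4 : ∀ n j, S (E n) (pre x j) = true := fun n j => by
    have := hx (max n j) j (by simp)
    rw [length_pre, take_pre x (le_max_right n j)] at this
    exact h3 (h2 _ _ (le_max_left n j)) this
  have hm : ∀ j, (pre x j).map Bool.toNat = pre (fun i => (x i).toNat) j := fun j => by
    simp [pre]
  refine ⟨x, fun j => by simpa [S, E] using h4 0 j,
    fun q => c (Nat.pair q.1 q.2 :: E (Nat.pair q.1 q.2)), by fun_prop, fun e n => ?_⟩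
  rw [dom_app]
  constructor
  · rintro ⟨k, hk⟩
    by_contra hb
    have := h4 (Nat.pair e n + 1) k
    rw [hEs, show c (Nat.pair e n :: E (Nat.pair e n)) = false from Bool.eq_false_iff.2 hb] at this
    simp only [S, cond_false, Bool.and_eq_true, List.all_cons, Nat.unpair_pair, hm,
      Option.isNone_iff_eq_none] at this
    rw [this.2.1] at hk; cases hk
  · intro hb
    by_contra hn
    refine (hcS _).2 hb ⟨x, fun j => ?_⟩
    have := h4 (Nat.pair e n) j
    simp only [S, Bool.and_eq_true, List.all_cons, Nat.unpair_pair, hm] at this ⊢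
    refine ⟨this.1, ?_, this.2⟩
    cases hu : U e (pre (fun i => (x i).toNat) j) n
    · rfl
    · exact absurd ⟨j, by rw [hu]; rfl⟩ hn

end Pool.Agent.H37
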