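import Pool.Agent.H38.NP.Graphs

/-!
Unary to binary conversion; NP-hardness of simultaneous incongruences with odd unary moduli.
-/

set_option autoImplicit false

namespace Pool.Agent.H37

open Pool.Agent.H38.NP

instance : EncInj Bin := ⟨fun ⟨a⟩ ⟨b⟩ h => by
  have h' : a.bits = b.bits := h
  rw [Bin.mk.injEq, ← Nat.digits_inj_iff (b := 2), Nat.digits_two_eq_bits, Nat.digits_two_eq_bits, h']⟩

def bstep (s : ℕ × List Bool) : ℕ × List Bool :=
  if s.1 = 0 then s else (s.1 / 2, s.2 ++ [decide (s.1 % 2 = 1)])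

theorem bits_eq {n : ℕ} (h : n ≠ 0) : n.bits = decide (n % 2 = 1) :: (n / 2).bits := by
  obtain ⟨k, rfl | rfl⟩ := Nat.even_or_odd' n
  · rw [Nat.bit0_bits _ (by omega)]; simp
  · rw [Nat.bit1_bits, show (2 * k + 1) / 2 = k by omega]; simp

theorem bstep_iter (n i : ℕ) : (bstep^[i] (n, [])).1 ≤ n - i ∧ (bstep^[i] (n, [])).2.length ≤ i ∧
    (bstep^[i] (n, [])).2 ++ (bstep^[i] (n, [])).1.bits = n.bits := by
  induction i with
  | zero => simp
  | succ i ih =>
    rw [Function.iterate_succ_apply']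
    generalize bstep^[i] (n, []) = s at ih ⊢
    unfold bstep
    split_ifs with h
    · exact ⟨by omega, by omega, ih.2.2⟩
    · refine ⟨by simp only; omega, by simp only [List.length_append, List.length_singleton]; omega, ?_⟩
      rw [← ih.2.2, bits_eq h]; simp

@[fun_prop] theorem pt_bin {α : Type} [Enc α] {f : α → ℕ} (hf : PT f) :
    PT fun a => Bin.mk (f a) := by
  have h : PT fun a => bstep^[f a] (f a, []) :=
    PT.iterate (step := fun _ => bstep) (by unfold bstep; fun_prop) hf (by fun_prop)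
      (((PB.const 5).mul hf.nat_pb).add (PB.const 1)) fun a i hi => by
        obtain ⟨h1, h2, -⟩ := bstep_iter (f a) i
        have := sz_le_of_forall (l := (bstep^[i] (f a, [])).2) (B := 1) fun _ _ => by simp
        rw [sz_prod, sz_nat]
        nlinarith [Nat.sub_le (f a) i]
  refine (PT.bmk h.snd).recast' fun a => ?_
  obtain ⟨h1, -, h3⟩ := bstep_iter (f a) (f a)
  rw [Nat.sub_self, Nat.le_zero] at h1
  rw [h1] at h3
  change _ = (f a).bits
  simpa using h3

def oddP (k : ℕ) : List ℕ := (List.range (2 * (k + 4) ^ 2 + 1)).filter fun p =>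
  decide (3 ≤ p) && (List.range p).all fun d => decide (d < 2) || !decide (d ∣ p)

theorem mem_oddP {k p : ℕ} : p ∈ oddP k ↔ p < 2 * (k + 4) ^ 2 + 1 ∧ p.Prime ∧ p ≠ 2 := by
  simp only [oddP, List.mem_filter, List.mem_range, Bool.and_eq_true, decide_eq_true_eq,
    List.all_eq_true, Bool.or_eq_true, Bool.not_eq_true', decide_eq_false_iff_not,
    Nat.prime_def_lt']
  refine and_congr_right fun _ => ⟨fun h => ⟨⟨by omega, fun m h1 h2 =>
    (h.2 m h2).resolve_left (by omega)⟩, by omega⟩, fun h => ⟨by omega, fun m hm =>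
    (lt_or_ge m 2).imp_right fun h1 => h.1.2 m h1 hm⟩⟩

theorem le_length_oddP (k : ℕ) : k ≤ (oddP k).length := by
  by_contra hn
  set n := (k + 4) ^ 2 with hn'
  have h0 : 4 ≤ n := by nlinarith
  have h1 := Nat.four_pow_lt_mul_centralBinom n h0
  have h2 : n.centralBinom ≤ (2 * n) ^ k := by
    rw [← Nat.prod_pow_factorization_centralBinom,
      ← Finset.prod_filter_of_ne (p := Nat.Prime) fun p _ h => by
        by_contra hp
        simp [Nat.factorization_eq_zero_of_not_prime _ hp] at h]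
    refine (Finset.prod_le_pow_card _ _ (2 * n) fun p _ =>
      Nat.pow_factorization_choose_le (by omega)).trans (Nat.pow_le_pow_right (by omega) ?_)
    have : (Finset.range (2 * n + 1)).filter Nat.Prime ⊆ insert 2 (oddP k).toFinset := fun p hp => by
      simp only [Finset.mem_filter, Finset.mem_range, Finset.mem_insert, List.mem_toFinset,
        mem_oddP] at hp ⊢
      tauto
    have h3 := (Finset.card_le_card this).trans (Finset.card_insert_le _ _)
    have := List.toFinset_card_le (oddP k)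
    exact h3.trans (by omega)
  have h3 : 2 * n ≤ 4 ^ (k + 5) := by
    have := (k + 4).lt_two_pow_self
    have h4 : 4 ^ (k + 4) = 2 ^ (k + 4) * 2 ^ (k + 4) := by rw [← mul_pow]; rfl
    rw [pow_succ, h4]; nlinarith
  have h4 : n * (2 * n) ^ k ≤ (4 ^ (k + 5)) ^ (k + 1) := by
    rw [pow_succ' _ k]
    exact Nat.mul_le_mul (by omega) (Nat.pow_le_pow_left h3 k)
  have h5 : (4 ^ (k + 5)) ^ (k + 1) ≤ 4 ^ n := by
    rw [← pow_mul]; exact Nat.pow_le_pow_right (by omega) (by nlinarith)
  have := Nat.mul_le_mul_left n h2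
  omega

def nv (φ : List (Lit × Lit × Lit)) : ℕ := (φ.map fun C => C.1.1 + C.2.1.1 + C.2.2.1 + 1).sum

def pv (φ : List (Lit × Lit × Lit)) (i : ℕ) : ℕ := (oddP (nv φ)).getD i 3

def simRed (φ : List (Lit × Lit × Lit)) : List (ℕ × ℕ) := φ.flatMap fun C =>
  ((List.range (pv φ C.1.1 * pv φ C.2.1.1 * pv φ C.2.2.1)).filter fun b =>
    decide (b % pv φ C.1.1 = 1) != C.1.2 && decide (b % pv φ C.2.1.1 = 1) != C.2.1.2 &&
      decide (b % pv φ C.2.2.1 = 1) != C.2.2.2).map fun b =>
    (b, pv φ C.1.1 * pv φ C.2.1.1 * pv φ C.2.2.1)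

theorem pv_prime (φ : List (Lit × Lit × Lit)) (i : ℕ) : (pv φ i).Prime ∧ pv φ i ≠ 2 := by
  unfold pv
  by_cases h : i < (oddP (nv φ)).length
  · rw [List.getD_eq_getElem _ _ h]; exact (mem_oddP.1 (List.getElem_mem h)).2
  · rw [List.getD_eq_default _ _ (by omega)]; decide

theorem simInc_nph : NPH (fun L : List (ℕ × ℕ) => ∀ p ∈ L, p.1 < p.2 ∧ p.2 % 2 = 1)
    fun L => ∃ t, ∀ p ∈ L, t % p.2 ≠ p.1 := by
  refine sat3_nph.reduce simRed (by unfold simRed pv nv oddP; fun_prop) fun φ _ => ⟨?_, ?_⟩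
  · intro p hp
    simp only [simRed, List.mem_flatMap, List.mem_map, List.mem_filter, List.mem_range] at hp
    obtain ⟨C, -, b, ⟨h, -⟩, rfl⟩ := hp
    have := fun i => (pv_prime φ i).1.eq_two_or_odd.resolve_left (pv_prime φ i).2
    exact ⟨h, by simp [Nat.mul_mod, this]⟩
  have key : ∀ t, (∀ p ∈ simRed φ, t % p.2 ≠ p.1) ↔ ∀ C ∈ φ, decide (t % pv φ C.1.1 = 1) = C.1.2 ∨
      decide (t % pv φ C.2.1.1 = 1) = C.2.1.2 ∨ decide (t % pv φ C.2.2.1 = 1) = C.2.2.2 := by
    intro t
    simp only [simRed, List.mem_flatMap, List.mem_map, List.mem_filter, List.mem_range,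
      forall_exists_index, and_imp]
    have e : ∀ a b c, t % (a * b * c) % a = t % a ∧ t % (a * b * c) % b = t % b ∧
        t % (a * b * c) % c = t % c := fun a b c =>
      ⟨Nat.mod_mod_of_dvd _ ⟨b * c, by ring⟩, Nat.mod_mod_of_dvd _ ⟨a * c, by ring⟩,
        Nat.mod_mod_of_dvd _ ⟨a * b, by ring⟩⟩
    constructor
    · intro h C hC
      by_contra hn
      have := fun i => (pv_prime φ i).1.pos
      exact h _ C hC _ (Nat.mod_lt t (Nat.mul_pos (Nat.mul_pos (this _) (this _)) (this _)))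
        (by simpa [e, and_assoc, -decide_eq_true_eq] using hn) rfl rfl
    · rintro h _ C hC b - h1 rfl h2
      dsimp only at h2
      subst h2
      have := h C hC
      simp only [e, Bool.and_eq_true, bne_iff_ne] at h1
      tauto
  simp only [key]
  refine ⟨fun ⟨a, ha⟩ => ?_, fun ⟨t, ht⟩ => ⟨fun i => decide (t % pv φ i = 1), ht⟩⟩
  obtain ⟨t, ht⟩ := Nat.chineseRemainderOfFinset (fun i => (a i).toNat) (pv φ) (Finset.range (nv φ))
    (fun i _ => (pv_prime φ i).1.ne_zero) fun i hi j hj hij => by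
      refine (Nat.coprime_primes (pv_prime φ i).1 (pv_prime φ j).1).2 fun h => hij ?_
      have h1 := le_length_oddP (nv φ)
      simp only [Finset.coe_range, Set.mem_Iio] at hi hj
      unfold pv at h
      rw [List.getD_eq_getElem _ _ (by omega), List.getD_eq_getElem _ _ (by omega)] at h
      exact (List.Nodup.getElem_inj_iff (List.nodup_range.filter _)).1 h
  have h1 : ∀ i < nv φ, decide (t % pv φ i = 1) = a i := fun i hi => by
    have h2 : t % pv φ i = _ := ht i (Finset.mem_range.2 hi)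
    have h3 := (pv_prime φ i).1.one_lt
    rw [h2]
    cases a i <;> simp [Nat.mod_eq_of_lt h3]
  refine ⟨t, fun C hC => ?_⟩
  have h2 : C.1.1 + C.2.1.1 + C.2.2.1 + 1 ≤ nv φ :=
    List.single_le_sum (by simp) _ (List.mem_map_of_mem (f := fun C : Lit × Lit × Lit =>
      C.1.1 + C.2.1.1 + C.2.2.1 + 1) hC)
  rw [h1 _ (by omega), h1 _ (by omega), h1 _ (by omega)]
  exact ha C hC

end Pool.Agent.H37
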