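import Mathlib

/-!
Closure library for oracle computability. `CI O f` says that the total function `f` is computable
in the oracle set `O`; closure lemmas are registered with `fun_prop`. `CI ∅ f` is `Computable f`.
-/

set_option autoImplicit false

namespace Pool.Agent.H37

open Encodable Part

variable {α β γ δ σ : Type} [Primcodable α] [Primcodable β] [Primcodable γ] [Primcodable δ]
  [Primcodable σ] {O : Set (ℕ →. ℕ)}

/-- total functions computable in `O` -/
@[fun_prop] def CI (O : Set (ℕ →. ℕ)) (f : α → σ) : Prop :=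
  RecursiveIn O (fun a => Part.some (f a))

theorem CI.ri {f : α → σ} (h : CI O f) : RecursiveIn O (fun a => Part.some (f a)) := h
theorem CI.of_ri {f : α → σ} (h : RecursiveIn O (fun a => Part.some (f a))) : CI O f := h
theorem CI.of_comp {f : α → σ} (h : Computable f) : CI O f := Partrec.recursiveIn h
theorem CI.of_prim {f : α → σ} (h : Primrec f) : CI O f := CI.of_comp h.to_comp
theorem CI.computable {f : α → σ} (h : CI ∅ f) : Computable f := recursiveIn_empty_iff.1 h
theorem ci_iff {f : α → σ} : CI ∅ f ↔ Computable f := ⟨CI.computable, CI.of_comp⟩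
theorem CI.of_eq {f g : α → σ} (h : CI O f) (H : ∀ a, f a = g a) : CI O g :=
  (funext H : f = g) ▸ h
theorem CI.mono {O' : Set (ℕ →. ℕ)} {f : α → σ} (h : CI O f) (H : O ⊆ O') : CI O' f :=
  RecursiveIn.mono H h
theorem CI.of_empty {f : α → σ} (h : CI ∅ f) : CI O f := h.mono (Set.empty_subset _)
theorem CI.subst {O' : Set (ℕ →. ℕ)} {f : α → σ} (h : CI O f)
    (H : ∀ g, g ∈ O → RecursiveIn O' g) : CI O' f := RecursiveIn.subst h H

namespace RI

theorem natPrec' {f g h : ℕ →. ℕ} (hf : Nat.RecursiveIn O f) (hg : Nat.RecursiveIn O g)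
    (hh : Nat.RecursiveIn O h) :
    Nat.RecursiveIn O fun a => (f a).bind fun n => n.rec (g a)
      fun y IH => do {let i ← IH; h (Nat.pair a (Nat.pair y i))} :=
  ((Nat.RecursiveIn.prec hg hh).comp
    (Nat.RecursiveIn.pair Nat.Partrec.some.recursiveIn hf)).of_eq fun a =>
    Part.ext fun s => by simp [Seq.seq]

set_option backward.isDefEq.respectTransparency false in
theorem bind {f : α →. β} {g : α → β →. σ} (hf : RecursiveIn O f)
    (hg : RecursiveIn O fun p : α × β => g p.1 p.2) :
    RecursiveIn O fun a => (f a).bind (g a) :=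
  Nat.RecursiveIn.of_eq
    (Nat.RecursiveIn.comp hg (Nat.RecursiveIn.pair Nat.Partrec.some.recursiveIn hf)) fun n => by
    rcases e : decode (α := α) n <;> simp [Seq.seq, e, encodek]

theorem map {f : α →. β} {g : α → β → σ} (hf : RecursiveIn O f)
    (hg : CI O fun p : α × β => g p.1 p.2) : RecursiveIn O fun a => (f a).map (g a) := by
  simpa [bind_some_eq_map] using bind (g := fun a x => Part.some (g a x)) hf hg

theorem comp {f : β →. σ} {g : α → β} (hf : RecursiveIn O f) (hg : CI O g) :
    RecursiveIn O fun a => f (g a) :=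
  Nat.RecursiveIn.of_eq (Nat.RecursiveIn.comp hf hg) fun n => by
    simp only [map_some, bind_eq_bind]
    rcases e : decode (α := α) n with - | a <;> simp [encodek]

theorem nat_rec {f : α → ℕ} {g : α →. σ} {h : α → ℕ × σ →. σ} (hf : CI O f)
    (hg : RecursiveIn O g) (hh : RecursiveIn O fun p : α × (ℕ × σ) => h p.1 p.2) :
    RecursiveIn O fun a => (f a).rec (g a) fun y IH => IH.bind fun i => h a (y, i) :=
  Nat.RecursiveIn.of_eq (natPrec' hf hg hh) fun n => by
    rcases e : decode (α := α) n with - | a
    · simp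
    · simp only [coe_some, bind_some]
      induction f a <;> simp_all

end RI

@[fun_prop] theorem CI.id' : CI O (fun a : α => a) := CI.of_prim Primrec.id
@[fun_prop] theorem CI.const (b : β) : CI O (fun _ : α => b) := CI.of_prim (Primrec.const b)
@[fun_prop] theorem CI.comp {f : β → γ} {g : α → β} (hf : CI O f) (hg : CI O g) :
    CI O (fun a => f (g a)) := RI.comp (f := fun b => Part.some (f b)) hf hg
@[fun_prop] theorem CI.mk {f : α → β} {g : α → γ} (hf : CI O f) (hg : CI O g) :
    CI O (fun a => (f a, g a)) :=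
  Nat.RecursiveIn.of_eq (Nat.RecursiveIn.pair hf hg) fun n => by
    cases decode (α := α) n <;> simp [Seq.seq]
@[fun_prop] theorem CI.fst {f : α → β × γ} (hf : CI O f) : CI O (fun a => (f a).1) :=
  (CI.of_prim Primrec.fst).comp hf
@[fun_prop] theorem CI.snd {f : α → β × γ} (hf : CI O f) : CI O (fun a => (f a).2) :=
  (CI.of_prim Primrec.snd).comp hf

theorem CI.prim1 {p : β → σ} (hp : Primrec p) {f : α → β} (hf : CI O f) :
    CI O fun a => p (f a) := (CI.of_prim hp).comp hf
theorem CI.prim2 {p : β → γ → σ} (hp : Primrec₂ p) {f : α → β} {g : α → γ} (hf : CI O f)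
    (hg : CI O g) : CI O fun a => p (f a) (g a) :=
  (CI.of_prim (f := fun q : β × γ => p q.1 q.2) hp).comp (hf.mk hg)
theorem CI.comp1 {p : β → σ} (hp : Computable p) {f : α → β} (hf : CI O f) :
    CI O fun a => p (f a) := (CI.of_comp hp).comp hf
theorem CI.comp2 {p : β → γ → σ} (hp : Computable₂ p) {f : α → β} {g : α → γ} (hf : CI O f)
    (hg : CI O g) : CI O fun a => p (f a) (g a) :=
  (CI.of_comp (f := fun q : β × γ => p q.1 q.2) hp).comp (hf.mk hg)

namespace RI

set_option backward.isDefEq.respectTransparency false in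
theorem rfind {p : α → ℕ →. Bool} (hp : RecursiveIn O fun q : α × ℕ => p q.1 q.2) :
    RecursiveIn O fun a => Nat.rfind (p a) :=
  Nat.RecursiveIn.of_eq (Nat.RecursiveIn.rfind <|
      map hp (g := fun _ b => cond b 0 1)
        (CI.of_prim ((Primrec.dom_bool fun b => cond b 0 1).comp Primrec.snd)))
    fun n => by
    rcases e : decode (α := α) n <;> simp [e, Nat.rfind_zero_none, map_map, map_id']

theorem ofOption {f : α → Option β} (hf : CI O f) : RecursiveIn O fun a => (f a : Part β) :=
  comp (f := fun o : Option β => (o : Part β))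
    (Partrec.recursiveIn (Computable.ofOption Computable.id)) hf

theorem rfindOpt {f : α → ℕ → Option σ} (hf : CI O fun q : α × ℕ => f q.1 q.2) :
    RecursiveIn O fun a => Nat.rfindOpt (f a) :=
  bind (rfind (CI.prim1 Primrec.option_isSome hf)) (ofOption hf)

theorem of_partrec {f : β →. σ} (hf : Partrec f) {g : α → β} (hg : CI O g) :
    RecursiveIn O fun a => f (g a) := comp hf.recursiveIn hg

theorem ci_of_tot {f : α →. σ} {g : α → σ} (hf : RecursiveIn O f) (H : ∀ a, g a ∈ f a) : CI O g :=
  RecursiveIn.of_eq hf fun a => eq_some_iff.2 (H a)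

end RI

theorem CI.oracle {x : ℕ → ℕ} (h : (fun n => Part.some (x n)) ∈ O) : CI O x :=
  RecursiveIn.oracle _ h

theorem CI.self (x : ℕ → ℕ) : CI {fun n => Part.some (x n)} x := CI.oracle rfl

theorem CI.nat_rec {f : α → ℕ} {g : α → σ} {h : α → ℕ → σ → σ} (hf : CI O f) (hg : CI O g)
    (hh : CI O fun p : α × ℕ × σ => h p.1 p.2.1 p.2.2) :
    CI O fun a => Nat.rec (motive := fun _ => σ) (g a) (fun y IH => h a y IH) (f a) :=
  RecursiveIn.of_eq (RI.nat_rec (h := fun a q => Part.some (h a q.1 q.2)) hf hg hh) fun a => by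
    beta_reduce
    induction f a <;> simp [*]

/-- a function defined by primitive recursion -/
theorem CI.of_rec {F : α → ℕ → σ} {g : α → σ} {h : α → ℕ → σ → σ} (hg : CI O g)
    (hh : CI O fun p : α × ℕ × σ => h p.1 p.2.1 p.2.2) (h0 : ∀ a, F a 0 = g a)
    (hs : ∀ a n, F a (n + 1) = h a n (F a n)) : CI O fun p : α × ℕ => F p.1 p.2 :=
  (CI.nat_rec (f := fun p : α × ℕ => p.2) (g := fun p => g p.1) (h := fun p => h p.1)
    (by fun_prop) (by fun_prop)
    (hh.comp (g := fun q : (α × ℕ) × ℕ × σ => (q.1.1, q.2.1, q.2.2)) (by fun_prop))).of_eq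
    fun p => by
      induction p.2 with
      | zero => simp [h0]
      | succ n ih => simp [hs, ← ih]

theorem CI.of_rec1 {F : ℕ → σ} {h : ℕ → σ → σ}
    (hh : CI O fun p : ℕ × σ => h p.1 p.2)
    (hs : ∀ n, F (n + 1) = h n (F n)) : CI O F :=
  (CI.nat_rec (f := fun n : ℕ => n) (g := fun _ => F 0) (h := fun _ => h)
    (by fun_prop) (by fun_prop)
    (hh.comp (g := fun q : ℕ × ℕ × σ => (q.2.1, q.2.2)) (by fun_prop))).of_eq
    fun p => by
      induction p with
      | zero => simp
      | succ n ih => simp [hs, ← ih]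

@[fun_prop] theorem CI.iterate {f : α → ℕ} {g : α → σ} {h : α → σ → σ}
    (hh : CI O fun p : α × σ => h p.1 p.2) (hf : CI O f) (hg : CI O g) :
    CI O fun a => (h a)^[f a] (g a) :=
  (CI.nat_rec (h := fun a _ s => h a s) hf hg
    (hh.comp (g := fun q : α × ℕ × σ => (q.1, q.2.2)) (by fun_prop))).of_eq fun a => by
    induction f a with
    | zero => rfl
    | succ n ih => simp [Function.iterate_succ_apply', ← ih]

@[fun_prop] theorem CI.encode {f : α → β} (hf : CI O f) : CI O fun a => encode (f a) :=
  CI.prim1 Primrec.encode hf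
@[fun_prop] theorem CI.decode {f : α → ℕ} (hf : CI O f) : CI O fun a => decode (α := β) (f a) :=
  CI.prim1 Primrec.decode hf
@[fun_prop] theorem CI.ofNat {τ : Type} [Denumerable τ] {f : α → ℕ} (hf : CI O f) :
    CI O fun a => Denumerable.ofNat τ (f a) := CI.prim1 (Primrec.ofNat τ) hf

@[fun_prop] theorem CI.cond {c : α → Bool} {f g : α → σ} (hc : CI O c) (hf : CI O f)
    (hg : CI O g) : CI O fun a => cond (c a) (f a) (g a) :=
  CI.prim1 (p := fun q : Bool × σ × σ => _root_.cond q.1 q.2.1 q.2.2)
    (Primrec.cond Primrec.fst (Primrec.fst.comp Primrec.snd) (Primrec.snd.comp Primrec.snd))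
    (hc.mk (hf.mk hg))
@[fun_prop] theorem CI.ite {c : α → Prop} [DecidablePred c] {f g : α → σ}
    (hc : CI O fun a => decide (c a)) (hf : CI O f) (hg : CI O g) :
    CI O fun a => if c a then f a else g a :=
  (CI.cond hc hf hg).of_eq fun a => by by_cases h : c a <;> simp [h]

@[fun_prop] theorem CI.and {f g : α → Bool} (hf : CI O f) (hg : CI O g) :
    CI O fun a => f a && g a := CI.prim2 Primrec.and hf hg
@[fun_prop] theorem CI.or {f g : α → Bool} (hf : CI O f) (hg : CI O g) :
    CI O fun a => f a || g a := CI.prim2 Primrec.or hf hg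
@[fun_prop] theorem CI.not {f : α → Bool} (hf : CI O f) : CI O fun a => !f a :=
  CI.prim1 Primrec.not hf
@[fun_prop] theorem CI.xor {f g : α → Bool} (hf : CI O f) (hg : CI O g) :
    CI O fun a => xor (f a) (g a) := CI.prim2 (Primrec.dom_bool₂ Bool.xor) hf hg
@[fun_prop] theorem CI.toNat {f : α → Bool} (hf : CI O f) : CI O fun a => (f a).toNat :=
  CI.prim1 (Primrec.dom_bool Bool.toNat) hf

@[fun_prop] theorem CI.succ {f : α → ℕ} (hf : CI O f) : CI O fun a => (f a).succ :=
  CI.prim1 Primrec.succ hf
@[fun_prop] theorem CI.pred {f : α → ℕ} (hf : CI O f) : CI O fun a => (f a).pred :=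
  CI.prim1 Primrec.pred hf
@[fun_prop] theorem CI.add {f g : α → ℕ} (hf : CI O f) (hg : CI O g) : CI O fun a => f a + g a :=
  CI.prim2 Primrec.nat_add hf hg
@[fun_prop] theorem CI.sub {f g : α → ℕ} (hf : CI O f) (hg : CI O g) : CI O fun a => f a - g a :=
  CI.prim2 Primrec.nat_sub hf hg
@[fun_prop] theorem CI.mul {f g : α → ℕ} (hf : CI O f) (hg : CI O g) : CI O fun a => f a * g a :=
  CI.prim2 Primrec.nat_mul hf hg
@[fun_prop] theorem CI.div {f g : α → ℕ} (hf : CI O f) (hg : CI O g) : CI O fun a => f a / g a :=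
  CI.prim2 Primrec.nat_div hf hg
@[fun_prop] theorem CI.mod {f g : α → ℕ} (hf : CI O f) (hg : CI O g) : CI O fun a => f a % g a :=
  CI.prim2 Primrec.nat_mod hf hg
@[fun_prop] theorem CI.pow {f g : α → ℕ} (hf : CI O f) (hg : CI O g) : CI O fun a => f a ^ g a :=
  CI.prim2 (Primrec₂.unpaired'.1 Nat.Primrec.pow) hf hg
@[fun_prop] theorem CI.max {f g : α → ℕ} (hf : CI O f) (hg : CI O g) :
    CI O fun a => max (f a) (g a) := CI.prim2 Primrec.nat_max hf hg
@[fun_prop] theorem CI.min {f g : α → ℕ} (hf : CI O f) (hg : CI O g) :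
    CI O fun a => min (f a) (g a) := CI.prim2 Primrec.nat_min hf hg
@[fun_prop] theorem CI.pair {f g : α → ℕ} (hf : CI O f) (hg : CI O g) :
    CI O fun a => Nat.pair (f a) (g a) := CI.prim2 Primrec₂.natPair hf hg
@[fun_prop] theorem CI.unpair {f : α → ℕ} (hf : CI O f) : CI O fun a => (f a).unpair :=
  CI.prim1 Primrec.unpair hf
@[fun_prop] theorem CI.bodd {f : α → ℕ} (hf : CI O f) : CI O fun a => (f a).bodd :=
  CI.prim1 Primrec.nat_bodd hf
@[fun_prop] theorem CI.div2 {f : α → ℕ} (hf : CI O f) : CI O fun a => (f a).div2 :=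
  CI.prim1 Primrec.nat_div2 hf
@[fun_prop] theorem CI.finVal {n : ℕ} {f : α → Fin n} (hf : CI O f) : CI O fun a => (f a).val :=
  CI.prim1 Primrec.fin_val hf
theorem CI.dom_finite [Finite β] (p : β → σ) {f : α → β} (hf : CI O f) : CI O fun a => p (f a) :=
  CI.prim1 (Primrec.dom_finite p) hf

@[fun_prop] theorem CI.le {f g : α → ℕ} (hf : CI O f) (hg : CI O g) :
    CI O fun a => decide (f a ≤ g a) := CI.prim2 Primrec.nat_le.decide hf hg
@[fun_prop] theorem CI.lt {f g : α → ℕ} (hf : CI O f) (hg : CI O g) :
    CI O fun a => decide (f a < g a) := CI.prim2 Primrec.nat_lt.decide hf hg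
theorem CI.eq' {f g : α → β} [i : ∀ a, Decidable (f a = g a)] (hf : CI O f)
    (hg : CI O g) : CI O fun a => decide (f a = g a) := by
  classical
  exact (CI.prim2 (Primrec.eq (α := β)).decide hf hg).of_eq fun a => by simp
@[fun_prop] theorem CI.eq [DecidableEq β] {f g : α → β} (hf : CI O f)
    (hg : CI O g) : CI O fun a => decide (f a = g a) := CI.eq' hf hg
@[fun_prop] theorem CI.beq [BEq β] [LawfulBEq β] {f g : α → β} (hf : CI O f) (hg : CI O g) :
    CI O fun a => f a == g a := by
  classical
  exact (CI.eq hf hg).of_eq fun a => by by_cases h : f a = g a <;> simp [h]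
@[fun_prop] theorem CI.bne [BEq β] [LawfulBEq β] {f g : α → β} (hf : CI O f) (hg : CI O g) :
    CI O fun a => f a != g a := (CI.beq hf hg).not

theorem CI.dec_and {p q : α → Prop} [DecidablePred p] [DecidablePred q]
    [∀ a, Decidable (p a ∧ q a)] (hp : CI O fun a => decide (p a))
    (hq : CI O fun a => decide (q a)) : CI O fun a => decide (p a ∧ q a) :=
  (hp.and hq).of_eq fun a => by simp
theorem CI.dec_or {p q : α → Prop} [DecidablePred p] [DecidablePred q]
    [∀ a, Decidable (p a ∨ q a)] (hp : CI O fun a => decide (p a))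
    (hq : CI O fun a => decide (q a)) : CI O fun a => decide (p a ∨ q a) :=
  (hp.or hq).of_eq fun a => by simp
theorem CI.dec_not {p : α → Prop} [DecidablePred p] [∀ a, Decidable (¬ p a)]
    (hp : CI O fun a => decide (p a)) : CI O fun a => decide (¬ p a) :=
  hp.not.of_eq fun a => by simp

@[fun_prop] theorem CI.some {f : α → β} (hf : CI O f) : CI O fun a => Option.some (f a) :=
  CI.prim1 Primrec.option_some hf
@[fun_prop] theorem CI.isSome {f : α → Option β} (hf : CI O f) : CI O fun a => (f a).isSome :=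
  CI.prim1 Primrec.option_isSome hf
@[fun_prop] theorem CI.isNone {f : α → Option β} (hf : CI O f) : CI O fun a => (f a).isNone :=
  hf.isSome.not.of_eq fun a => by cases f a <;> rfl
@[fun_prop] theorem CI.optGetD {f : α → Option β} {g : α → β} (hf : CI O f) (hg : CI O g) :
    CI O fun a => (f a).getD (g a) := CI.prim2 Primrec.option_getD hf hg
@[fun_prop] theorem CI.elim {o : α → Option β} {n : α → σ} {s : α → β → σ} (ho : CI O o)
    (hn : CI O n) (hs : CI O fun p : α × β => s p.1 p.2) :
    CI O fun a => (o a).elim (n a) (s a) := by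
  by_cases h : Nonempty β
  · obtain ⟨d⟩ := h
    exact (CI.cond ho.isSome (hs.comp (g := fun a => (a, (o a).getD d)) (by fun_prop)) hn).of_eq
      fun a => by cases o a <;> rfl
  · exact hn.of_eq fun a => by
      cases o a with
      | none => rfl
      | some b => exact absurd ⟨b⟩ h
@[fun_prop] theorem CI.optBind {o : α → Option β} {s : α → β → Option σ} (ho : CI O o)
    (hs : CI O fun p : α × β => s p.1 p.2) : CI O fun a => (o a).bind (s a) :=
  (CI.elim ho (CI.const Option.none) hs).of_eq fun a => by cases o a <;> rfl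
@[fun_prop] theorem CI.optMap {o : α → Option β} {s : α → β → σ}
    (hs : CI O fun p : α × β => s p.1 p.2) (ho : CI O o) : CI O fun a => (o a).map (s a) :=
  (CI.elim ho (CI.const Option.none) hs.some).of_eq fun a => by cases o a <;> rfl
@[fun_prop] theorem CI.toList {o : α → Option β} (ho : CI O o) : CI O fun a => (o a).toList :=
  CI.prim1 Primrec.optionToList ho

@[fun_prop] theorem CI.cons {f : α → β} {l : α → List β} (hf : CI O f) (hl : CI O l) :
    CI O fun a => f a :: l a := CI.prim2 Primrec.list_cons hf hl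
@[fun_prop] theorem CI.append {l l' : α → List β} (hl : CI O l) (hl' : CI O l') :
    CI O fun a => l a ++ l' a := CI.prim2 Primrec.list_append hl hl'
@[fun_prop] theorem CI.tail {l : α → List β} (hl : CI O l) : CI O fun a => (l a).tail :=
  CI.prim1 Primrec.list_tail hl
@[fun_prop] theorem CI.head? {l : α → List β} (hl : CI O l) : CI O fun a => (l a).head? :=
  CI.prim1 Primrec.list_head? hl
@[fun_prop] theorem CI.headD {l : α → List β} {d : α → β} (hl : CI O l) (hd : CI O d) :
    CI O fun a => (l a).headD (d a) :=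
  (hl.head?.optGetD hd).of_eq fun a => by cases l a <;> rfl
@[fun_prop] theorem CI.reverse {l : α → List β} (hl : CI O l) : CI O fun a => (l a).reverse :=
  CI.prim1 Primrec.list_reverse hl
@[fun_prop] theorem CI.length {l : α → List β} (hl : CI O l) : CI O fun a => (l a).length :=
  CI.prim1 Primrec.list_length hl
@[fun_prop] theorem CI.getElem? {l : α → List β} {n : α → ℕ} (hl : CI O l) (hn : CI O n) :
    CI O fun a => (l a)[n a]? := CI.prim2 Primrec.list_getElem? hl hn
@[fun_prop] theorem CI.getD {l : α → List β} {n : α → ℕ} {d : α → β} (hl : CI O l) (hn : CI O n)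
    (hd : CI O d) : CI O fun a => (l a).getD (n a) (d a) :=
  ((hl.getElem? hn).optGetD hd).of_eq fun a => by simp
@[fun_prop] theorem CI.range {n : α → ℕ} (hn : CI O n) : CI O fun a => List.range (n a) :=
  CI.prim1 Primrec.list_range hn
@[fun_prop] theorem CI.take {l : α → List β} {n : α → ℕ} (hn : CI O n) (hl : CI O l) :
    CI O fun a => (l a).take (n a) := CI.prim2 Primrec.list_take hn hl
@[fun_prop] theorem CI.drop {l : α → List β} {n : α → ℕ} (hn : CI O n) (hl : CI O l) :
    CI O fun a => (l a).drop (n a) := CI.prim2 Primrec.list_drop hn hl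
@[fun_prop] theorem CI.flatten {l : α → List (List β)} (hl : CI O l) :
    CI O fun a => (l a).flatten := CI.prim1 Primrec.list_flatten hl
@[fun_prop] theorem CI.isEmpty {l : α → List β} (hl : CI O l) : CI O fun a => (l a).isEmpty :=
  hl.head?.isNone.of_eq fun a => by cases l a <;> rfl
@[fun_prop] theorem CI.getLast? {l : α → List β} (hl : CI O l) : CI O fun a => (l a).getLast? :=
  hl.reverse.head?.of_eq fun a => by simp
@[fun_prop] theorem CI.dropLast {l : α → List β} (hl : CI O l) : CI O fun a => (l a).dropLast :=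
  hl.reverse.tail.reverse.of_eq fun a => by simp

@[fun_prop] theorem CI.foldl {f : α → σ → β → σ} {l : α → List β} {s : α → σ}
    (hf : CI O fun p : α × σ × β => f p.1 p.2.1 p.2.2) (hs : CI O s) (hl : CI O l) :
    CI O fun a => (l a).foldl (f a) (s a) := by
  let step : α → List β × σ → List β × σ := fun a q =>
    q.1.head?.elim q fun b => (q.1.tail, f a q.2 b)
  have hstep : CI O fun p : α × (List β × σ) => step p.1 p.2 := by
    refine CI.elim (by fun_prop) (by fun_prop) (CI.mk (by fun_prop) ?_)
    exact hf.comp (g := fun p : (α × (List β × σ)) × β => (p.1.1, p.1.2.2, p.2)) (by fun_prop)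
  have e : ∀ a (l : List β) s, (step a)^[l.length] (l, s) = ([], l.foldl (f a) s) := by
    intro a l
    induction l with
    | nil => intro s; rfl
    | cons b l ih => intro s; rw [List.length_cons, Function.iterate_succ_apply]; exact ih _
  exact (CI.iterate hstep hl.length (hl.mk hs)).snd.of_eq fun a => by rw [e]

@[fun_prop] theorem CI.foldr {f : α → β → σ → σ} {l : α → List β} {s : α → σ}
    (hf : CI O fun p : α × β × σ => f p.1 p.2.1 p.2.2) (hs : CI O s) (hl : CI O l) :
    CI O fun a => (l a).foldr (f a) (s a) :=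
  (CI.foldl (f := fun a s b => f a b s)
    (hf.comp (g := fun p : α × σ × β => (p.1, p.2.2, p.2.1)) (by fun_prop)) hs
    hl.reverse).of_eq fun a => by simp [List.foldl_reverse]

@[fun_prop] theorem CI.map {f : α → β → γ} {l : α → List β}
    (hf : CI O fun p : α × β => f p.1 p.2) (hl : CI O l) : CI O fun a => (l a).map (f a) :=
  (CI.foldr (f := fun a b s => f a b :: s)
    (CI.cons (hf.comp (g := fun p : α × β × List γ => (p.1, p.2.1)) (by fun_prop)) (by fun_prop))
    (CI.const []) hl).of_eq fun a => by induction l a <;> simp [*]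

@[fun_prop] theorem CI.flatMap {f : α → β → List γ} {l : α → List β}
    (hf : CI O fun p : α × β => f p.1 p.2) (hl : CI O l) : CI O fun a => (l a).flatMap (f a) :=
  (CI.map hf hl).flatten.of_eq fun a => by simp [List.flatMap_def]

@[fun_prop] theorem CI.filterMap {f : α → β → Option γ} {l : α → List β}
    (hf : CI O fun p : α × β => f p.1 p.2) (hl : CI O l) : CI O fun a => (l a).filterMap (f a) :=
  (CI.flatMap (f := fun a x => (f a x).toList) hf.toList hl).of_eq fun a => by
    induction l a with
    | nil => rfl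
    | cons x l ih => cases h : f a x <;> simp [h, ih]

@[fun_prop] theorem CI.filter {f : α → β → Bool} {l : α → List β}
    (hf : CI O fun p : α × β => f p.1 p.2) (hl : CI O l) : CI O fun a => (l a).filter (f a) :=
  (CI.flatMap (f := fun a x => _root_.cond (f a x) [x] []) (by fun_prop) hl).of_eq fun a => by
    induction l a with
    | nil => rfl
    | cons x l ih => cases h : f a x <;> simp [h, ih]

@[fun_prop] theorem CI.all {f : α → β → Bool} {l : α → List β} (hl : CI O l)
    (hf : CI O fun p : α × β => f p.1 p.2) : CI O fun a => (l a).all (f a) :=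
  (CI.foldr (f := fun a b s => f a b && s)
    (CI.and (hf.comp (g := fun p : α × β × Bool => (p.1, p.2.1)) (by fun_prop)) (by fun_prop))
    (CI.const true) hl).of_eq fun a => by induction l a <;> simp [*]

@[fun_prop] theorem CI.any {f : α → β → Bool} {l : α → List β} (hl : CI O l)
    (hf : CI O fun p : α × β => f p.1 p.2) : CI O fun a => (l a).any (f a) :=
  (CI.foldr (f := fun a b s => f a b || s)
    (CI.or (hf.comp (g := fun p : α × β × Bool => (p.1, p.2.1)) (by fun_prop)) (by fun_prop))
    (CI.const false) hl).of_eq fun a => by induction l a <;> simp [*]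

@[fun_prop] theorem CI.find? {f : α → β → Bool} {l : α → List β}
    (hf : CI O fun p : α × β => f p.1 p.2) (hl : CI O l) : CI O fun a => (l a).find? (f a) :=
  (CI.filter hf hl).head?.of_eq fun a => by simp

@[fun_prop] theorem CI.countP {f : α → β → Bool} {l : α → List β}
    (hf : CI O fun p : α × β => f p.1 p.2) (hl : CI O l) : CI O fun a => (l a).countP (f a) :=
  (CI.filter hf hl).length.of_eq fun a => by simp [List.countP_eq_length_filter]

@[fun_prop] theorem CI.sum {l : α → List ℕ} (hl : CI O l) : CI O fun a => (l a).sum :=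
  (CI.foldr (f := fun _ b s => b + s) (by fun_prop) (CI.const 0) hl).of_eq fun a => by
    induction l a <;> simp [*]

@[fun_prop] theorem CI.replicate {n : α → ℕ} {x : α → β} (hn : CI O n) (hx : CI O x) :
    CI O fun a => List.replicate (n a) (x a) :=
  (CI.map (f := fun a _ => x a) (by fun_prop) hn.range).of_eq fun a => by simp

theorem CI.mem' {x : α → β} {l : α → List β} [∀ a, Decidable (x a ∈ l a)]
    (hl : CI O l) (hx : CI O x) : CI O fun a => decide (x a ∈ l a) := by
  classical
  exact (CI.any (f := fun a b => decide (x a = b)) hl (by fun_prop)).of_eq fun a => by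
    by_cases h : x a ∈ l a
    · simp [h]
    · simp only [h, decide_false, List.any_eq_false, decide_eq_true_eq]
      rintro b hb rfl; exact h hb

@[fun_prop] theorem CI.mem [BEq β] [LawfulBEq β] {x : α → β} {l : α → List β}
    (hl : CI O l) (hx : CI O x) : CI O fun a => decide (x a ∈ l a) := CI.mem' hl hx

@[fun_prop] theorem CI.contains [BEq β] [LawfulBEq β] {x : α → β} {l : α → List β}
    (hl : CI O l) (hx : CI O x) : CI O fun a => (l a).contains (x a) :=
  (CI.mem hl hx).of_eq fun a => by simp

@[fun_prop] theorem CI.dvd {f g : α → ℕ} (hf : CI O f) (hg : CI O g) :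
    CI O fun a => decide (f a ∣ g a) :=
  (CI.eq (hg.mod hf) (CI.const 0)).of_eq fun a => by simp [Nat.dvd_iff_mod_eq_zero]

@[fun_prop] theorem CI.zip {l : α → List β} {l' : α → List γ} (hl : CI O l) (hl' : CI O l') :
    CI O fun a => (l a).zip (l' a) :=
  (CI.filterMap (f := fun a i => ((l a)[i]?).bind fun x => ((l' a)[i]?).map fun y => (x, y))
    (by fun_prop) hl.length.range).of_eq fun a => by
    generalize l a = u
    generalize l' a = v
    induction u generalizing v with
    | nil => simp
    | cons x u ih =>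
      cases v with
      | nil => simp
      | cons y v =>
        simp only [List.length_cons, List.range_succ_eq_map, List.filterMap_cons,
          List.filterMap_map, List.zip_cons_cons]
        simp [← ih v]

@[fun_prop] theorem CI.evaln {k : α → ℕ} {c : α → Nat.Partrec.Code} {n : α → ℕ} (hk : CI O k)
    (hc : CI O c) (hn : CI O n) : CI O fun a => Nat.Partrec.Code.evaln (k a) (c a) (n a) :=
  CI.prim1 Nat.Partrec.Code.primrec_evaln ((hk.mk hc).mk hn)

@[fun_prop] theorem CI.curry {c : α → Nat.Partrec.Code} {n : α → ℕ}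
    (hc : CI O c) (hn : CI O n) : CI O fun a => Nat.Partrec.Code.curry (c a) (n a) :=
  CI.prim2 Nat.Partrec.Code.primrec₂_curry hc hn

@[fun_prop] theorem CI.inl {f : α → β} (hf : CI O f) : CI O fun a => (Sum.inl (f a) : β ⊕ γ) :=
  CI.prim1 Primrec.sumInl hf
@[fun_prop] theorem CI.inr {f : α → γ} (hf : CI O f) : CI O fun a => (Sum.inr (f a) : β ⊕ γ) :=
  CI.prim1 Primrec.sumInr hf

attribute [irreducible] CI

/-- unbounded search -/
theorem CI.find {p : α → ℕ → Bool} (hp : CI O fun q : α × ℕ => p q.1 q.2)
    (h : ∀ a, ∃ n, p a n = true) : CI O fun a => Nat.find (h a) :=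
  RI.ci_of_tot (RI.rfind (p := fun a n => Part.some (p a n)) hp.ri) fun a => by
    rw [Nat.mem_rfind]
    refine ⟨by simpa using Nat.find_spec (h a), fun {m} hm => ?_⟩
    simpa using Nat.find_min (h a) hm

/-- a computable witness function -/
theorem CI.exists_choice {p : α → β → Bool} (hp : CI O fun q : α × β => p q.1 q.2)
    (h : ∀ a, ∃ b, p a b = true) : ∃ f : α → β, CI O f ∧ ∀ a, p a (f a) = true := by
  rcases isEmpty_or_nonempty α with hα | ⟨⟨a0⟩⟩
  · exact ⟨fun a => isEmptyElim a, CI.of_prim (Primrec.dom_finite _), fun a => isEmptyElim a⟩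
  obtain ⟨d, -⟩ := h a0
  have h' : ∀ a, ∃ n, p a ((Encodable.decode (α := β) n).getD d) = true := fun a => by
    obtain ⟨b, hb⟩ := h a
    exact ⟨Encodable.encode b, by simpa using hb⟩
  have hq : CI O fun q : α × ℕ => p q.1 ((Encodable.decode (α := β) q.2).getD d) :=
    hp.comp (g := fun q : α × ℕ => (q.1, (Encodable.decode (α := β) q.2).getD d)) (by fun_prop)
  have := CI.find hq h'
  exact ⟨fun a => (Encodable.decode (α := β) (Nat.find (h' a))).getD d, by fun_prop,
    fun a => Nat.find_spec (h' a)⟩

end Pool.Agent.H37
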