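import Mathlib

set_option autoImplicit false

namespace Pool.Agent.H37.AT

open Finset Function Polynomial

/-- nodal weight -/
noncomputable def w (Ω : Finset ℚ) (x : ℚ) : ℚ := ∏ b ∈ Ω.erase x, (x - b)⁻¹

theorem lam_poly (Ω : Finset ℚ) (P : ℚ[X]) (hP : P.degree < #Ω) :
    ∑ x ∈ Ω, w Ω x * P.eval x = P.coeff (#Ω - 1) := by
  rw [Lagrange.coeff_eq_sum (v := id) (Set.injOn_id _) hP]
  refine sum_congr rfl fun x _ => ?_
  simp only [w, id, prod_inv_distrib]
  rw [mul_comm, div_eq_mul_inv]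

theorem lam_pow (Ω : Finset ℚ) (d : ℕ) (hd : d < #Ω) :
    ∑ x ∈ Ω, w Ω x * x ^ d = if d + 1 = #Ω then 1 else 0 := by
  have := lam_poly Ω (X ^ d) (by rw [degree_X_pow]; exact_mod_cast hd)
  simp only [eval_pow, eval_X, coeff_X_pow] at this
  rw [this]
  congr 1
  exact propext (by omega)

theorem one_var (Ω : Finset ℚ) (u : ℚ → ℚ) (x0 : ℚ) (hx : x0 ∈ Ω) (hu : u x0 ≠ 0) :
    ∃ i, i + 1 ≤ #Ω ∧ ((∃ y ∈ Ω, u y ≠ u x0) → i + 2 ≤ #Ω) ∧
      ∑ x ∈ Ω, w Ω x * (x ^ i * u x) ≠ 0 := by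
  set p := Lagrange.interpolate Ω id u with hp
  have ev : ∀ x ∈ Ω, p.eval x = u x := fun x h =>
    Lagrange.eval_interpolate_at_node (v := id) u (Set.injOn_id _) h
  have p0 : p ≠ 0 := fun h => hu (by rw [← ev x0 hx, h, eval_zero])
  have dg : p.natDegree < #Ω := by
    have := Lagrange.degree_interpolate_lt (v := id) (s := Ω) u (Set.injOn_id _)
    rw [← hp, degree_eq_natDegree p0] at this
    exact_mod_cast this
  refine ⟨#Ω - 1 - p.natDegree, by omega, fun ⟨y, hy, h⟩ => ?_, ?_⟩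
  · have : p.natDegree ≠ 0 := fun h0 => h (by
      rw [← ev y hy, ← ev x0 hx, eq_C_of_natDegree_eq_zero h0, eval_C, eval_C])
    omega
  · have h1 := lam_poly Ω (X ^ (#Ω - 1 - p.natDegree) * p) (by
      rw [degree_mul, degree_X_pow, degree_eq_natDegree p0]
      exact_mod_cast (show #Ω - 1 - p.natDegree + p.natDegree < #Ω by omega))
    have h2 : (X ^ (#Ω - 1 - p.natDegree) * p).coeff (#Ω - 1) = p.coeff p.natDegree := by
      conv_lhs => rw [show #Ω - 1 = p.natDegree + (#Ω - 1 - p.natDegree) by omega]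
      rw [show p.natDegree + (#Ω - 1 - p.natDegree) - p.natDegree = #Ω - 1 - p.natDegree by omega]
      exact coeff_X_pow_mul _ _ _
    rw [h2] at h1
    have h3 : p.coeff p.natDegree ≠ 0 := by
      rw [coeff_natDegree]; exact leadingCoeff_ne_zero.2 p0
    rw [← h1] at h3
    convert h3 using 1
    exact sum_congr rfl fun x hx => by rw [eval_mul, eval_pow, eval_X, ev x hx]

theorem w_erase {Ω : Finset ℚ} {a x : ℚ} (ha : a ∈ Ω) (hx : x ≠ a) :
    w Ω x * (x - a) = w (Ω.erase a) x := by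
  unfold w
  rw [← mul_prod_erase _ _ (mem_erase.2 ⟨hx.symm, ha⟩), erase_right_comm]
  have : x - a ≠ 0 := sub_ne_zero.2 hx
  field_simp

theorem w_scale (Ω : Finset ℚ) {t x : ℚ} (ht : t ≠ 0) (hx : x ∈ Ω) :
    t ^ (#Ω - 1) * w (Ω.image (t * ·)) (t * x) = w Ω x := by
  unfold w
  have inj : Injective (t * ·) := mul_right_injective₀ ht
  rw [← image_erase inj, prod_image (fun _ _ _ _ h => inj h), ← card_erase_of_mem hx,
    ← prod_const, ← prod_mul_distrib]
  refine prod_congr rfl fun b _ => ?_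
  rw [← mul_sub, mul_inv, ← mul_assoc, mul_inv_cancel₀ ht, one_mul]

/-- the iterated functional on the first `j` coordinates -/
noncomputable def L (Ω : Finset ℚ) : ℕ → ((ℕ → ℚ) → ℚ) → ℚ
  | 0, F => F 0
  | j + 1, F => ∑ x ∈ Ω, w Ω x * L Ω j fun c => F (update c j x)

theorem L_mul (Ω : Finset ℚ) (j : ℕ) (a : ℚ) (F : (ℕ → ℚ) → ℚ) :
    L Ω j (fun c => a * F c) = a * L Ω j F := by
  induction j generalizing F with
  | zero => rfl
  | succ j ih => simp only [L, ih, mul_sum]; exact sum_congr rfl fun x _ => by ring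

theorem L_sum {ι : Type} (Ω : Finset ℚ) (j : ℕ) (s : Finset ι) (F : ι → (ℕ → ℚ) → ℚ) :
    L Ω j (fun c => ∑ i ∈ s, F i c) = ∑ i ∈ s, L Ω j (F i) := by
  induction j generalizing F with
  | zero => rfl
  | succ j ih => simp only [L, ih, mul_sum]; exact sum_comm

theorem L_prod (Ω : Finset ℚ) (j : ℕ) (f : Fin j → ℚ → ℚ) :
    L Ω j (fun c => ∏ v : Fin j, f v (c v)) = ∏ v : Fin j, ∑ x ∈ Ω, w Ω x * f v x := by
  induction j with
  | zero => simp [L]
  | succ j ih =>
    simp only [L, Fin.prod_univ_castSucc, Fin.val_castSucc, Fin.val_last, update_self]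
    rw [← ih, mul_sum]
    refine sum_congr rfl fun x _ => ?_
    have : ∀ c : ℕ → ℚ, (∏ v : Fin j, f v.castSucc (update c j x v)) * f (Fin.last j) x =
        f (Fin.last j) x * ∏ v : Fin j, f v.castSucc (c v) := fun c => by
      rw [mul_comm]
      congr 1
      exact prod_congr rfl fun v _ => by rw [update_of_ne v.2.ne]
    simp only [this, L_mul]
    ring

theorem prod_upd {M : Type} [CommMonoid M] (j : ℕ) (f : ℕ → ℚ → M) (c : ℕ → ℚ) (x : ℚ) :
    ∏ v ∈ range j, f v (update c j x v) = ∏ v ∈ range j, f v (c v) :=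
  prod_congr rfl fun v hv => by rw [update_of_ne (mem_range.1 hv).ne]

theorem L_erase {Ω : Finset ℚ} {a : ℚ} (ha : a ∈ Ω) (j : ℕ) (F : (ℕ → ℚ) → ℚ) :
    L Ω j (fun c => F c * ∏ v ∈ range j, (c v - a)) = L (Ω.erase a) j F := by
  induction j generalizing F with
  | zero => simp [L]
  | succ j ih =>
    simp only [L, prod_range_succ, update_self, prod_upd j fun _ y => y - a]
    rw [← add_sum_erase Ω _ ha]
    have : ∀ x, L Ω j (fun c => F (update c j x) * ((∏ v ∈ range j, (c v - a)) * (x - a))) =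
        (x - a) * L (Ω.erase a) j fun c => F (update c j x) := fun x => by
      rw [← ih, ← L_mul]
      congr 1
      funext c; ring
    simp only [this]
    rw [sub_self, zero_mul, mul_zero, zero_add]
    refine sum_congr rfl fun x hx => ?_
    rw [← w_erase ha (mem_erase.1 hx).1, mul_assoc]

theorem L_scale (Ω : Finset ℚ) {t : ℚ} (ht : t ≠ 0) (j : ℕ) (F : (ℕ → ℚ) → ℚ) :
    t ^ ((#Ω - 1) * j) * L (Ω.image (t * ·)) j F = L Ω j fun c => F (t • c) := by
  induction j generalizing F with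
  | zero => simp [L]
  | succ j ih =>
    have inj : Injective (t * ·) := mul_right_injective₀ ht
    simp only [L]
    rw [sum_image (fun _ _ _ _ h => inj h), mul_sum]
    refine sum_congr rfl fun x hx => ?_
    have : ∀ c : ℕ → ℚ, t • update c j x = update (t • c) j (t * x) := fun c => by
      funext v
      by_cases h : v = j
      · subst h; simp
      · simp [update_of_ne h]
    simp only [this]
    rw [← ih fun c => F (update c j (t * x)), ← w_scale Ω ht hx]
    ring

theorem L_zero (Ω : Finset ℚ) (j : ℕ) (F : (ℕ → ℚ) → ℚ) (h : L Ω j F ≠ 0) :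
    ∃ c : ℕ → ℚ, (∀ v < j, c v ∈ Ω) ∧ F c ≠ 0 := by
  induction j generalizing F with
  | zero => exact ⟨0, by simp, h⟩
  | succ j ih =>
    obtain ⟨x, hx, h1⟩ := exists_ne_zero_of_sum_ne_zero h
    obtain ⟨c, hc, h2⟩ := ih _ (right_ne_zero_of_mul h1)
    refine ⟨_, fun v hv => ?_, h2⟩
    by_cases e : v = j
    · subst e; simpa using hx
    · rw [update_of_ne e]; exact hc v (by omega)

/-- the monomial with exponents `δ` -/
def mon (j : ℕ) (δ : ℕ → ℕ) (c : ℕ → ℚ) : ℚ := ∏ v ∈ range j, c v ^ δ v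

theorem mon_upd (j : ℕ) (δ : ℕ → ℕ) (i : ℕ) (c : ℕ → ℚ) (x : ℚ) :
    mon (j + 1) (update δ j i) (update c j x) = x ^ i * mon j δ c := by
  unfold mon
  rw [prod_range_succ, update_self, update_self, mul_comm]
  congr 1
  exact prod_congr rfl fun v hv => by
    rw [update_of_ne (mem_range.1 hv).ne, update_of_ne (mem_range.1 hv).ne]

theorem sum_upd (j : ℕ) (δ : ℕ → ℕ) (i : ℕ) :
    ∑ v ∈ range (j + 1), update δ j i v = ∑ v ∈ range j, δ v + i := by
  rw [sum_range_succ, update_self]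
  congr 1
  exact sum_congr rfl fun v hv => by rw [update_of_ne (mem_range.1 hv).ne]

theorem L_init (Ω : Finset ℚ) (j : ℕ) (F : (ℕ → ℚ) → ℚ) (c : ℕ → ℚ) (hc : ∀ v < j, c v ∈ Ω)
    (hz : ∀ v, j ≤ v → c v = 0) (h : F c ≠ 0) :
    ∃ δ : ℕ → ℕ, ∑ v ∈ range j, δ v ≤ (#Ω - 1) * j ∧ L Ω j (fun c => F c * mon j δ c) ≠ 0 := by
  induction j generalizing F c with
  | zero =>
    refine ⟨0, by simp, ?_⟩
    obtain rfl : c = 0 := funext fun v => hz v (Nat.zero_le _)
    simpa [L, mon] using h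
  | succ j ih =>
    obtain ⟨δ, h1, h2⟩ := ih (fun c' => F (update c' j (c j))) (update c j 0)
      (fun v hv => by rw [update_of_ne hv.ne]; exact hc v (by omega))
      (fun v hv => by
        by_cases e : v = j
        · subst e; simp
        · rw [update_of_ne e]; exact hz v (by omega))
      (by simpa using h)
    obtain ⟨i, hi, -, h3⟩ := one_var Ω
      (fun x => L Ω j fun c' => F (update c' j x) * mon j δ c') (c j) (hc j (by omega)) h2
    refine ⟨update δ j i, ?_, ?_⟩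
    · rw [sum_upd, mul_add, mul_one]; omega
    · simp only [L, mon_upd]
      convert h3 using 3 with x
      rw [← L_mul]
      congr 1
      funext c'; ring

theorem exch {β : Type} (f : Finset ℚ → β) (K : ℕ)
    (h : ∀ Ω : Finset ℚ, #Ω = K + 1 → ∀ a ∈ Ω, ∀ b ∈ Ω, f (Ω.erase a) = f (Ω.erase b)) :
    ∀ A B : Finset ℚ, #A = K → #B = K → f A = f B := by
  intro A B hA hB
  induction hn : #(A \ B) generalizing A with
  | zero =>
    rw [eq_of_subset_of_card_le (sdiff_eq_empty_iff_subset.1 (card_eq_zero.1 hn)) (by omega)]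
  | succ n ih =>
    obtain ⟨a, ha⟩ := card_pos.1 (show 0 < #(A \ B) by omega)
    obtain ⟨b, hb⟩ := card_pos.1 (show 0 < #(B \ A) by
      rw [← card_sdiff_comm (hA.trans hB.symm)]; omega)
    rw [mem_sdiff] at ha hb
    have h1 : #(insert b A) = K + 1 := by rw [card_insert_of_notMem hb.2, hA]
    have h2 := h _ h1 b (mem_insert_self _ _) a (mem_insert_of_mem ha.1)
    rw [erase_insert hb.2] at h2
    rw [h2]
    refine ih _ (by rw [card_erase_of_mem (mem_insert_of_mem ha.1), h1]; rfl) ?_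
    have : (insert b A).erase a \ B = (A \ B).erase a := by
      ext x
      simp only [mem_sdiff, mem_erase, mem_insert]
      constructor
      · rintro ⟨⟨h1, rfl | h2⟩, h3⟩
        · exact absurd hb.1 h3
        · exact ⟨h1, h2, h3⟩
      · tauto
    rw [this, card_erase_of_mem (mem_sdiff.2 ha), hn]; rfl

/-- the state of the induction -/
def St (j : ℕ) (P : (ℕ → ℚ) → ℚ) (m K g : ℕ) : Prop :=
  ∃ (δ : ℕ → ℕ) (Ω : Finset ℚ), #Ω = K + 1 ∧ m + ∑ v ∈ range j, δ v ≤ K * j + g ∧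
    L Ω j (fun c => P c * mon j δ c) ≠ 0

theorem St.step {j : ℕ} {P P' : (ℕ → ℚ) → ℚ} {m K g : ℕ} (h : St j P m K g)
    (hom : ∀ (t : ℚ) c, P (t • c) = t ^ m * P c)
    (hP : ∀ c x, P' (update c j x) = P c * ∏ v ∈ range j, (c v - x)) :
    St (j + 1) P' (m + j) (K + 1) (g - 1) := by
  obtain ⟨δ, Ω, h1, h2, h3⟩ := h
  set f : Finset ℚ → ℚ := fun A => L A j fun c => P c * mon j δ c with hf
  have key : ∀ Ω' : Finset ℚ, #Ω' = K + 2 → ∀ i, L Ω' (j + 1)
      (fun c => P' c * mon (j + 1) (update δ j i) c) =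
      ∑ x ∈ Ω', w Ω' x * (x ^ i * f (Ω'.erase x)) := by
    intro Ω' _ i
    simp only [L, mon_upd, hP]
    refine sum_congr rfl fun x hx => ?_
    rw [hf]
    simp only
    congr 1
    rw [← L_erase hx, ← L_mul]
    congr 1
    funext c; ring
  by_cases hg : m + ∑ v ∈ range j, δ v ≤ K * j + (g - 1)
  · obtain ⟨a, ha⟩ := Infinite.exists_notMem_finset Ω
    have hc : #(insert a Ω) = K + 2 := by rw [card_insert_of_notMem ha, h1]
    obtain ⟨i, hi, -, h4⟩ := one_var (insert a Ω) (fun x => f ((insert a Ω).erase x)) a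
      (mem_insert_self _ _) (by simpa [erase_insert ha] using h3)
    refine ⟨update δ j i, insert a Ω, hc, ?_, by rwa [key _ hc]⟩
    rw [sum_upd]; nlinarith
  · have : ∃ Ω' : Finset ℚ, #Ω' = K + 1 + 1 ∧ ∃ a ∈ Ω', ∃ b ∈ Ω',
        f (Ω'.erase a) ≠ f (Ω'.erase b) := by
      by_contra hn
      push Not at hn
      have inj : Injective ((2 : ℚ) * ·) := mul_right_injective₀ two_ne_zero
      have e1 := exch f (K + 1) hn (Ω.image (2 * ·)) Ω (by rw [card_image_of_injective _ inj, h1]) h1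
      have e2 := L_scale Ω (two_ne_zero (α := ℚ)) j fun c => P c * mon j δ c
      have e3 : ∀ c : ℕ → ℚ, P ((2 : ℚ) • c) * mon j δ ((2 : ℚ) • c) =
          2 ^ (m + ∑ v ∈ range j, δ v) * (P c * mon j δ c) := fun c => by
        simp only [hom, mon, Pi.smul_apply, smul_eq_mul, mul_pow, prod_mul_distrib,
          prod_pow_eq_pow_sum, pow_add]
        ring
      simp only [e3, L_mul, h1, Nat.add_sub_cancel] at e2
      change _ * f _ = _ * f _ at e2
      rw [e1] at e2
      have := mul_right_cancel₀ h3 e2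
      have := (pow_right_injective₀ (show (0 : ℚ) < 2 by norm_num) (by norm_num)) this
      omega
    obtain ⟨Ω', hc, a, ha, b, hb, hab⟩ := this
    obtain ⟨a, ha, h5, h6⟩ : ∃ a ∈ Ω', f (Ω'.erase a) ≠ 0 ∧ ∃ b ∈ Ω',
        f (Ω'.erase b) ≠ f (Ω'.erase a) := by
      by_cases e : f (Ω'.erase a) = 0
      · exact ⟨b, hb, by rw [← e]; exact hab.symm, a, ha, hab⟩
      · exact ⟨a, ha, e, b, hb, hab.symm⟩
    obtain ⟨i, -, hi, h4⟩ := one_var Ω' (fun x => f (Ω'.erase x)) a ha h5
    have := hi h6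
    refine ⟨update δ j i, Ω', hc, ?_, by rwa [key _ hc]⟩
    rw [sum_upd]
    have : K * j + g ≤ K * j + (g - 1) + 1 := by omega
    nlinarith

end Pool.Agent.H37.AT
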