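import Pool.Agent.H38.NP.Defs

set_option autoImplicit false

namespace Pool.Agent.H37.AT

variable {V : Type} [DecidableEq V]

/-- `D` is an orientation of `G`: it consists of one of the two directions of each edge -/
def IsOrient (G : SimpleGraph V) (D : Finset (V × V)) : Prop :=
  (∀ e ∈ D, G.Adj e.1 e.2) ∧ ∀ u v, G.Adj u v → ((u, v) ∈ D ↔ (v, u) ∉ D)

/-- out-degree of `v` in the arc set `F` -/
def outd (F : Finset (V × V)) (v : V) : ℕ := (F.filter fun e => e.1 = v).card

/-- in-degree of `v` in the arc set `F` -/
def ind (F : Finset (V × V)) (v : V) : ℕ := (F.filter fun e => e.2 = v).card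

/-- every vertex has equal in-degree and out-degree -/
def Eul (F : Finset (V × V)) : Prop := ∀ v, ind F v = outd F v

open Classical in
/-- the number of even spanning Eulerian subgraphs -/
noncomputable def EE (D : Finset (V × V)) : ℕ :=
  (D.powerset.filter fun F => Eul F ∧ Even F.card).card

open Classical in
/-- the number of odd spanning Eulerian subgraphs -/
noncomputable def EO (D : Finset (V × V)) : ℕ :=
  (D.powerset.filter fun F => Eul F ∧ Odd F.card).card

/-- the Alon-Tarsi number -/
noncomputable def AT (G : SimpleGraph V) : ℕ :=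
  sInf {k | ∃ D, IsOrient G D ∧ EE D ≠ EO D ∧ ∀ v, outd D v + 1 ≤ k}

/-- the entry of a Boolean matrix given by its rows -/
def ent (M : List (List Bool)) (u v : ℕ) : Bool := (M.getD u []).getD v false

/-- `M` is the adjacency matrix of a simple graph: square, symmetric, zero diagonal -/
def IsAdjM (M : List (List Bool)) : Prop :=
  (∀ r ∈ M, r.length = M.length) ∧ (∀ u v, ent M u v = ent M v u) ∧ ∀ u, ent M u u = false

/-- the graph with adjacency matrix `M` -/
def gr (M : List (List Bool)) : SimpleGraph (Fin M.length) :=
  SimpleGraph.fromRel fun u v => ent M u v = true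

end Pool.Agent.H37.AT
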