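import Pool.Agent.H37.AT1
import Pool.Agent.H37.ATDefs

set_option autoImplicit false

namespace Pool.Agent.H37.AT

open Finset Function

variable {n : ℕ}

/-- the graph polynomial of an arc set -/
def PD (D : Finset (Fin n × Fin n)) (c : ℕ → ℚ) : ℚ := ∏ e ∈ D, (c e.1 - c e.2)

theorem prod_out (A : Finset (Fin n × Fin n)) (c : ℕ → ℚ) :
    ∏ e ∈ A, c e.1 = ∏ v : Fin n, c v ^ outd A v := by
  rw [← prod_fiberwise' A (fun e => e.1) fun v : Fin n => c v]
  simp [outd]

theorem prod_in (A : Finset (Fin n × Fin n)) (c : ℕ → ℚ) :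
    ∏ e ∈ A, c e.2 = ∏ v : Fin n, c v ^ ind A v := by
  rw [← prod_fiberwise' A (fun e => e.2) fun v : Fin n => c v]
  simp [ind]

theorem sum_out (A : Finset (Fin n × Fin n)) : ∑ v, outd A v = #A :=
  (card_eq_sum_card_fiberwise (s := A) (f := fun e => e.1) (fun _ _ => mem_univ _)).symm

theorem sum_in (A : Finset (Fin n × Fin n)) : ∑ v, ind A v = #A :=
  (card_eq_sum_card_fiberwise (s := A) (f := fun e => e.2) (fun _ _ => mem_univ _)).symm

theorem term {Ω : Finset ℚ} {K : ℕ} (hΩ : #Ω = K + 1) (d : Fin n → ℕ) (hd : ∑ v, d v ≤ K * n) :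
    ∏ v, ∑ x ∈ Ω, w Ω x * x ^ d v = if ∀ v, d v = K then 1 else 0 := by
  split_ifs with h
  · exact prod_eq_one fun v _ => by rw [lam_pow _ _ (by rw [h]; omega), if_pos (by rw [h, hΩ])]
  · have : ∃ v, d v < K := by
      by_contra hn
      push Not at hn h
      obtain ⟨v, hv⟩ := h
      have := sum_lt_sum (s := univ) (f := fun _ => K) (g := d) (fun i _ => hn i)
        ⟨v, mem_univ _, lt_of_le_of_ne (hn v) hv.symm⟩
      simp only [sum_const, card_univ, Fintype.card_fin, smul_eq_mul] at this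
      rw [mul_comm] at this
      omega
    obtain ⟨v, hv⟩ := this
    exact prod_eq_zero (mem_univ v) (by rw [lam_pow _ _ (by omega), if_neg (by omega)])

theorem expand {Ω : Finset ℚ} {K : ℕ} (hΩ : #Ω = K + 1) (D : Finset (Fin n × Fin n)) (δ : ℕ → ℕ)
    (hd : #D + ∑ v ∈ range n, δ v ≤ K * n) :
    L Ω n (fun c => PD D c * mon n δ c) = ∑ F ∈ D.powerset,
      (-1) ^ #F * if ∀ v, outd (D \ F) v + ind F v + δ v = K then 1 else 0 := by
  have : ∀ c, PD D c * mon n δ c = ∑ F ∈ D.powerset,
      (-1) ^ #F * ∏ v : Fin n, c v ^ (outd (D \ F) v + ind F v + δ v) := fun c => by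
    rw [PD, prod_sub, sum_mul]
    refine sum_congr rfl fun F _ => ?_
    rw [prod_out, prod_in, mon, ← Fin.prod_univ_eq_prod_range fun v => c v ^ δ v]
    simp only [pow_add, prod_mul_distrib]
    ring
  simp only [this, L_sum, L_mul]
  refine sum_congr rfl fun F hF => ?_
  rw [L_prod Ω n fun v x => x ^ (outd (D \ F) v + ind F v + δ v), term hΩ]
  rw [sum_add_distrib, sum_add_distrib, sum_out, sum_in, Fin.sum_univ_eq_sum_range δ,
    card_sdiff_add_card_eq_card (mem_powerset.1 hF)]
  exact hd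

theorem outd_sdiff {D F : Finset (Fin n × Fin n)} (h : F ⊆ D) (v : Fin n) :
    outd (D \ F) v + outd F v = outd D v := by
  unfold outd
  rw [← card_union_of_disjoint (disjoint_filter_filter sdiff_disjoint), ← filter_union,
    sdiff_union_of_subset h]

theorem eeo {Ω : Finset ℚ} {K : ℕ} (hΩ : #Ω = K + 1) (D : Finset (Fin n × Fin n)) (δ : ℕ → ℕ)
    (hd : ∀ v, outd D v + δ v = K) :
    L Ω n (fun c => PD D c * mon n δ c) = (EE D : ℚ) - EO D := by
  classical
  rw [expand hΩ D δ (by
    rw [← sum_out, ← Fin.sum_univ_eq_sum_range δ, ← sum_add_distrib]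
    simp [hd, mul_comm])]
  simp only [EE, EO, card_filter, Nat.cast_sum, ← sum_sub_distrib]
  refine sum_congr rfl fun F hF => ?_
  have : (∀ v, outd (D \ F) v + ind F v + δ v = K) ↔ Eul F := forall_congr' fun v => by
    have := outd_sdiff (mem_powerset.1 hF) v
    have := hd v
    omega
  simp only [this]
  by_cases h : Eul F
  · rcases Nat.even_or_odd #F with h1 | h1
    · simp [h, h1, h1.neg_one_pow, Nat.not_odd_iff_even.2 h1]
    · simp [h, h1, h1.neg_one_pow, Nat.not_even_iff_odd.2 h1]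
  · simp [h]

theorem toAT {G : SimpleGraph (Fin n)} {D : Finset (Fin n × Fin n)} (hD : IsOrient G D) {K : ℕ}
    (h : St n (PD D) #D K 0) :
    ∃ D', IsOrient G D' ∧ EE D' ≠ EO D' ∧ ∀ v, outd D' v + 1 ≤ K + 1 := by
  obtain ⟨δ, Ω, h1, h2, h3⟩ := h
  have h4 := h3
  rw [expand h1 D δ h2] at h4
  obtain ⟨F, hF, h5⟩ := exists_ne_zero_of_sum_ne_zero h4
  have h6 : ∀ v, outd (D \ F) v + ind F v + δ v = K := by
    by_contra hn
    simp [hn] at h5
  rw [mem_powerset] at hF
  have dj : Disjoint (D \ F) (F.image Prod.swap) := by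
    rw [disjoint_left]
    rintro ⟨u, v⟩ ha hb
    have : (v, u) ∈ F := by simpa using hb
    exact ((hD.2 u v (hD.1 _ (mem_sdiff.1 ha).1)).1 (mem_sdiff.1 ha).1) (hF this)
  have ho : ∀ v, outd ((D \ F) ∪ F.image Prod.swap) v = outd (D \ F) v + ind F v := fun v => by
    unfold outd ind
    rw [filter_union, card_union_of_disjoint (disjoint_filter_filter dj), filter_image,
      card_image_of_injective _ Prod.swap_injective]
    rfl
  refine ⟨(D \ F) ∪ F.image Prod.swap, ⟨?_, ?_⟩, fun e => h3 ?_, fun v => ?_⟩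
  · rintro ⟨u, v⟩ he
    rcases mem_union.1 he with he | he
    · exact hD.1 _ (mem_sdiff.1 he).1
    · have : (v, u) ∈ F := by simpa using he
      exact (hD.1 _ (hF this)).symm
  · intro u v huv
    have e : ∀ u v, (u, v) ∈ (D \ F) ∪ F.image Prod.swap ↔
        ((u, v) ∈ D ∧ (u, v) ∉ F) ∨ (v, u) ∈ F := fun u v => by simp
    rw [e, e]
    have := hD.2 u v huv
    have := @hF (u, v)
    have := @hF (v, u)
    tauto
  · have h7 := eeo h1 ((D \ F) ∪ F.image Prod.swap) δ fun v => by rw [ho, h6]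
    rw [e, sub_self] at h7
    have : ∀ c, PD D c * mon n δ c =
        (-1) ^ #F * (PD ((D \ F) ∪ F.image Prod.swap) c * mon n δ c) := fun c => by
      unfold PD
      rw [prod_union dj, prod_image (fun _ _ _ _ h => Prod.swap_injective h),
        ← prod_sdiff hF, ← prod_const]
      simp only [Prod.fst_swap, Prod.snd_swap]
      rw [mul_left_comm _ (_ * _), mul_assoc, mul_assoc, mul_left_comm (∏ _ ∈ F, _) (∏ _ ∈ F, _),
        ← mul_assoc (∏ _ ∈ F, _), ← prod_mul_distrib]
      simp
    simp only [this, L_mul, h7, mul_zero]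
  · have := h6 v
    rw [ho]; omega

theorem fromAT {G : SimpleGraph (Fin n)} {D : Finset (Fin n × Fin n)} (hD : IsOrient G D) {K : ℕ}
    (h : EE D ≠ EO D) (hK : ∀ v, outd D v + 1 ≤ K + 1) :
    ∃ (Ω : Finset ℚ) (c : ℕ → ℚ), #Ω = K + 1 ∧ (∀ v < n, c v ∈ Ω) ∧
      ∀ u v : Fin n, G.Adj u v → c u ≠ c v := by
  obtain ⟨Ω, hΩ⟩ := Infinite.exists_subset_card_eq ℚ (K + 1)
  have h1 := eeo hΩ D (fun v => if hv : v < n then K - outd D ⟨v, hv⟩ else 0) fun v => by
    have := hK v
    simp only [v.2, dite_true, Fin.eta]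
    omega
  obtain ⟨c, h2, h3⟩ := L_zero Ω n _ (h1 ▸ sub_ne_zero.2 (by exact_mod_cast h))
  have h4 := prod_ne_zero_iff.1 (left_ne_zero_of_mul h3)
  refine ⟨Ω, c, hΩ, h2, fun u v huv => ?_⟩
  by_cases e : (u, v) ∈ D
  · exact sub_ne_zero.1 (h4 _ e)
  · have : (v, u) ∈ D := (hD.2 v u huv.symm).2 e
    exact (sub_ne_zero.1 (h4 _ this)).symm

open Classical in
/-- the increasing orientation -/
noncomputable def D0 (G : SimpleGraph (Fin n)) : Finset (Fin n × Fin n) :=
  univ.filter fun e => e.1 < e.2 ∧ G.Adj e.1 e.2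

theorem D0_or (G : SimpleGraph (Fin n)) : IsOrient G (D0 G) := by
  classical
  refine ⟨fun e he => by simp only [D0, mem_filter] at he; exact he.2.2, fun u v h => ?_⟩
  have := h.ne
  simp only [D0, mem_filter, mem_univ, true_and, h, h.symm, and_true, not_lt]
  exact ⟨le_of_lt, fun h => lt_of_le_of_ne h this⟩

theorem prod_D0 {M : Type} [CommMonoid M] (G : SimpleGraph (Fin n)) (adj : ℕ → ℕ → Bool)
    (h : ∀ u v : Fin n, u < v → (G.Adj u v ↔ adj u v = true)) (f : ℕ → ℕ → M) :
    ∏ e ∈ D0 G, f e.1 e.2 = ∏ v ∈ range n, ∏ u ∈ range v, if adj u v then f u v else 1 := by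
  classical
  rw [D0, prod_filter, ← univ_product_univ, prod_product_right,
    ← Fin.prod_univ_eq_prod_range fun v => ∏ u ∈ range v, if adj u v then f u v else 1]
  refine prod_congr rfl fun v _ => ?_
  have : ∏ u ∈ range v, (if adj u v then f u v else 1) =
      ∏ u ∈ range n, if u < v ∧ adj u v then f u v else 1 := by
    rw [← prod_subset (range_subset_range.2 v.2.le)]
    · exact prod_congr rfl fun u hu => by simp [mem_range.1 hu]
    · intro u _ hu
      rw [if_neg fun h => hu (mem_range.2 h.1)]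
  rw [this, ← Fin.prod_univ_eq_prod_range fun u => if u < v ∧ adj u v then f u v else 1]
  refine prod_congr rfl fun u _ => ?_
  by_cases e : u < v
  · have e' : (u : ℕ) < v := e
    simp [e, e', h u v e]
  · have e' : ¬ (u : ℕ) < v := e
    simp [e, e']

theorem main (G : SimpleGraph (Fin n)) (adj : ℕ → ℕ → Bool)
    (h : ∀ u v : Fin n, u < v → (G.Adj u v ↔ adj u v = true)) (n0 N k : ℕ) (hn : n = n0 + N)
    (hN : n0 * n0 ≤ N) (hu : ∀ u v, u < v → n0 ≤ v → adj u v = true) (c0 : ℕ → ℕ)
    (h1 : ∀ v < n0, c0 v ≤ k) (h2 : ∀ u v, u < v → v < n0 → adj u v = true → c0 u ≠ c0 v) :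
    ∃ D, IsOrient G D ∧ EE D ≠ EO D ∧ ∀ v, outd D v + 1 ≤ k + N + 1 := by
  refine toAT (D0_or G) ?_
  set P : ℕ → (ℕ → ℚ) → ℚ := fun j c =>
    ∏ v ∈ range j, ∏ u ∈ range v, if adj u v then c u - c v else 1 with hP
  set m : ℕ → ℕ := fun j => ∑ v ∈ range j, ∑ u ∈ range v, if adj u v then 1 else 0 with hm
  have e1 : PD (D0 G) = P n := funext fun c => prod_D0 G adj h fun u v => c u - c v
  have e2 : #(D0 G) = m n := by
    have := prod_D0 G adj h fun _ _ => (2 : ℕ)
    refine Nat.pow_right_injective le_rfl ?_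
    simp only [prod_const] at this
    simp only [this, hm, ← prod_pow_eq_pow_sum]
    exact prod_congr rfl fun v _ => prod_congr rfl fun u _ => by split_ifs <;> simp
  have hom : ∀ j (t : ℚ) c, P j (t • c) = t ^ m j * P j c := fun j t c => by
    simp only [hP, hm, ← prod_pow_eq_pow_sum, ← prod_mul_distrib]
    refine prod_congr rfl fun v _ => prod_congr rfl fun u _ => ?_
    split_ifs <;> simp [mul_sub]
  have key : ∀ i, St (n0 + i) (P (n0 + i)) (m (n0 + i)) (k + i) (m n0 - i) := by
    intro i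
    induction i with
    | zero =>
      have inj : Injective (fun x : ℕ => (x : ℚ)) := Nat.cast_injective
      have hc : #((range (k + 1)).image fun x : ℕ => (x : ℚ)) = k + 1 := by
        rw [card_image_of_injective _ inj, card_range]
      obtain ⟨δ, h3, h4⟩ := L_init ((range (k + 1)).image fun x : ℕ => (x : ℚ)) n0 (P n0)
        (fun v => if v < n0 then c0 v else 0)
        (fun v hv => mem_image.2 ⟨c0 v, mem_range.2 (Nat.lt_succ_of_le (h1 v hv)), by simp [hv]⟩)
        (fun v hv => by simp [hv.not_gt])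
        (prod_ne_zero_iff.2 fun v hv => prod_ne_zero_iff.2 fun u hu => by
          rw [mem_range] at hu hv
          split_ifs with ha
          · simp only [hv, hu.trans hv, if_true]
            exact sub_ne_zero.2 (by exact_mod_cast h2 u v hu hv ha)
          · exact one_ne_zero)
      refine ⟨δ, _, hc, ?_, h4⟩
      rw [hc] at h3
      simp only [Nat.add_sub_cancel, add_zero, Nat.sub_zero] at h3 ⊢
      omega
    | succ i ih =>
      have := ih.step (P' := P (n0 + i + 1)) (hom _) fun c x => by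
        simp only [hP, prod_range_succ, update_self]
        congr 1
        · refine prod_congr rfl fun v hv => prod_congr rfl fun u hu => ?_
          rw [mem_range] at hu hv
          rw [update_of_ne hv.ne, update_of_ne (hu.trans hv).ne]
        · refine prod_congr rfl fun u hu' => ?_
          rw [mem_range] at hu'
          rw [if_pos (hu u _ hu' (by omega)), update_of_ne hu'.ne]
      have e3 : m (n0 + (i + 1)) = m (n0 + i) + (n0 + i) := by
        simp only [hm, ← add_assoc, sum_range_succ]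
        rw [add_assoc]
        congr 1
        rw [sum_congr rfl fun u hu' => if_pos (hu u _ (mem_range.1 hu') (by omega))]
        simp
      rw [e3]
      exact this
  have hm0 : m n0 ≤ n0 * n0 := by
    calc m n0 ≤ ∑ _v ∈ range n0, n0 := sum_le_sum fun v hv => by
          calc _ ≤ ∑ _u ∈ range v, 1 := sum_le_sum fun u _ => by split_ifs <;> omega
            _ ≤ n0 := by simpa using (mem_range.1 hv).le
      _ = n0 * n0 := by simp
  have := key N
  rw [show m n0 - N = 0 by omega, ← hn] at this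
  rwa [e1, e2]

end Pool.Agent.H37.AT
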