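import Pool.Agent.H37.AT2
import Pool.Agent.H36.Gr

set_option autoImplicit false

namespace Pool.Agent.H37.AT

open Finset Pool.Agent.H38.NP Pool.Agent.H36.Gr

/-- adjacency for `u < v` -/
def adjF (φ : F3) (u v : ℕ) : Bool :=
  decide (3 * φ.length ≤ u) ||
    cond (decide (v < 3 * φ.length)) (decide (u / 3 = v / 3) || conf φ u v)
      (cond (decide (v < 5 * φ.length)) (!decide ((v - 3 * φ.length) / 2 = u / 3))
        (!decide (v = 5 * φ.length)))

/-- symmetric adjacency -/
def adjS (φ : F3) (u v : ℕ) : Bool :=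
  (decide (u < v) && adjF φ u v) || (decide (v < u) && adjF φ v u)

/-- the adjacency matrix on `n` vertices -/
def mat (φ : F3) (n : ℕ) : List (List Bool) :=
  (List.range n).map fun u => (List.range n).map fun v => adjS φ u v

theorem ent_mat (φ : F3) (n u v : ℕ) :
    ent (mat φ n) u v = (decide (u < n) && decide (v < n) && adjS φ u v) := by
  unfold ent mat
  by_cases hu : u < n <;> by_cases hv : v < n <;> simp [hu, hv]

theorem len_mat (φ : F3) (n : ℕ) : (mat φ n).length = n := by simp [mat]

theorem adj_mat (φ : F3) (n : ℕ) (u v : Fin (mat φ n).length) (h : u < v) :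
    (gr (mat φ n)).Adj u v ↔ adjF φ u v = true := by
  have h2 := u.2.trans_eq (len_mat φ n)
  have h3 := v.2.trans_eq (len_mat φ n)
  simp [gr, ent_mat, adjS, h, h2, h3, h.not_gt, h.ne]

theorem hard : NPHardOn (fun p : List (List Bool) × ℕ => IsAdjM p.1)
    (fun p => AT (gr p.1) ≤ p.2) := by
  have h1 : PT fun p : F3 × ℕ × ℕ => adjF p.1 p.2.1 p.2.2 := by unfold adjF; fun_prop
  obtain ⟨A, hA, eA⟩ : ∃ A : F3 × ℕ × ℕ → Bool, PT A ∧ ∀ a x y, adjF a x y = A (a, x, y) :=
    ⟨_, h1, fun _ _ _ => rfl⟩
  have h2 : PT fun φ : F3 => (mat φ (5 * φ.length + 1 + (5 * φ.length + 1) * (5 * φ.length + 1)),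
      2 * φ.length + (5 * φ.length + 1) * (5 * φ.length + 1) + 1) := by
    unfold mat adjS; simp only [eA]; fun_prop
  refine NPH.npHardOn (sat3_nph.reduce _ h2 fun φ _ => ⟨⟨?_, ?_, ?_⟩, ?_⟩)
  · simp [mat]
  · intro u v
    simp only [ent_mat, adjS]
    rw [Bool.or_comm, Bool.and_comm (decide (u < _))]
  · intro u
    simp [ent_mat, adjS]
  simp only
  set m := φ.length with hm
  set N := (5 * m + 1) * (5 * m + 1) with hN
  have hu : ∀ u v, u < v → 5 * m + 1 ≤ v → adjF φ u v = true := fun u v _ h => by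
    have a1 : ¬ v < 3 * m := by omega
    have a2 : ¬ v < 5 * m := by omega
    have a3 : ¬ v = 5 * m := by omega
    simp [adjF, ← hm, a1, a2, a3]
  have mn := main (gr (mat φ (5 * m + 1 + N))) (adjF φ) (adj_mat φ _) (5 * m + 1) N
  rw [sat3_iff_sel]
  constructor
  · rintro ⟨s, s1, s2⟩
    refine Nat.sInf_le (mn (2 * m) (len_mat _ _) le_rfl hu (fun u => if u < 3 * m then
      (if s (u / 3) = u then 2 * m else if u < s (u / 3) then 2 * (u / 3) + u % 3
        else 2 * (u / 3) + u % 3 - 1) else u - 3 * m) (fun v hv => ?_) fun u v h hv ha => ?_)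
    · have := s1 (v / 3)
      split_ifs <;> omega
    · have a1 := s1 (u / 3)
      have a2 := s1 (v / 3)
      by_cases b1 : 3 * m ≤ u
      · split_ifs <;> omega
      by_cases b2 : v < 3 * m
      · by_cases b3 : u / 3 = v / 3
        · rw [b3] at a1 ⊢
          split_ifs <;> omega
        · have b4 : conf φ u v = true := by simpa [adjF, ← hm, b1, b2, b3] using ha
          have a3 := s2 (u / 3) (by omega) (v / 3) (by omega)
          have : ¬ (s (u / 3) = u ∧ s (v / 3) = v) := fun ⟨c1, c2⟩ => by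
            rw [c1, c2, b4] at a3; simp at a3
          split_ifs <;> omega
      by_cases b3 : v < 5 * m
      · have b4 : ¬ (v - 3 * m) / 2 = u / 3 := by simpa [adjF, ← hm, b1, b2, b3] using ha
        split_ifs <;> omega
      · have b4 : ¬ v = 5 * m := by simpa [adjF, ← hm, b1, b2, b3] using ha
        omega
  · intro h
    obtain ⟨D, d1, d2, d3⟩ := Nat.sInf_mem (s := {k | ∃ D, IsOrient (gr (mat φ (5 * m + 1 + N))) D ∧
      EE D ≠ EO D ∧ ∀ v, outd D v + 1 ≤ k}) ⟨_, mn (5 * m + 1) (len_mat _ _) le_rfl hu id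
        (fun v hv => hv.le) fun u v h _ _ => h.ne⟩
    obtain ⟨Ω, c, c1, c2, c3⟩ := fromAT d1 d2 fun v => (d3 v).trans h
    rw [len_mat] at c2
    have c4 : ∀ u v, u < v → v < 5 * m + 1 + N → adjF φ u v = true → c u ≠ c v := fun u v h hv ha =>
      c3 ⟨u, by rw [len_mat]; omega⟩ ⟨v, by rw [len_mat]; omega⟩ ((adj_mat φ _ _ _ h).2 ha)
    have c5 : (Ico (3 * m) (5 * m + 1 + N)).image c = Ω := by
      refine eq_of_subset_of_card_le (fun x hx => ?_) ?_
      · obtain ⟨v, hv, rfl⟩ := mem_image.1 hx
        exact c2 v (mem_Ico.1 hv).2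
      · rw [card_image_of_injOn, c1, Nat.card_Ico]
        · omega
        · intro u hu v hv e
          simp only [coe_Ico, Set.mem_Ico] at hu hv
          by_contra hne
          rcases lt_or_gt_of_ne hne with h | h
          · exact c4 u v h hv.2 (by simp [adjF, ← hm, hu.1]) e
          · exact c4 v u h hu.2 (by simp [adjF, ← hm, hv.1]) e.symm
    have c6 : ∀ u < 3 * m, c u = c (5 * m) ∨ c u = c (3 * m + 2 * (u / 3)) ∨
        c u = c (3 * m + 2 * (u / 3) + 1) := fun u hu => by
      obtain ⟨p, hp, e⟩ := mem_image.1 (c5 ▸ c2 u (by omega))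
      rw [mem_Ico] at hp
      have h1 : adjF φ u p ≠ true := fun h => c4 u p (by omega) hp.2 h e.symm
      have b1 : ¬ 3 * m ≤ u := by omega
      have b2 : ¬ p < 3 * m := by omega
      by_cases b3 : p < 5 * m
      · have b4 : (p - 3 * m) / 2 = u / 3 := by simpa [adjF, ← hm, b1, b2, b3] using h1
        obtain rfl | rfl : p = 3 * m + 2 * (u / 3) ∨ p = 3 * m + 2 * (u / 3) + 1 := by omega
        · simp [e]
        · simp [e]
      · have b4 : p = 5 * m := by simpa [adjF, ← hm, b1, b2, b3] using h1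
        simp [← e, b4]
    have c7 : ∀ d < m, ∃ u, u / 3 = d ∧ c u = c (5 * m) := fun d hd => by
      have t : ∀ u v, u < v → u / 3 = d → v / 3 = d → c u ≠ c v := fun u v h a b =>
        c4 u v h (by omega) (by
          have : v < 3 * m := by omega
          simp [adjF, ← hm, this, a, b])
      have t1 := t (3 * d) (3 * d + 1) (by omega) (by omega) (by omega)
      have t2 := t (3 * d) (3 * d + 2) (by omega) (by omega) (by omega)
      have t3 := t (3 * d + 1) (3 * d + 2) (by omega) (by omega) (by omega)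
      have u1 := c6 (3 * d) (by omega)
      have u2 := c6 (3 * d + 1) (by omega)
      have u3 := c6 (3 * d + 2) (by omega)
      rw [show 3 * d / 3 = d by omega] at u1
      rw [show (3 * d + 1) / 3 = d by omega] at u2
      rw [show (3 * d + 2) / 3 = d by omega] at u3
      by_contra hn
      push Not at hn
      have := hn (3 * d) (by omega)
      have := hn (3 * d + 1) (by omega)
      have := hn (3 * d + 2) (by omega)
      grind
    choose! s s1 using c7
    refine ⟨s, fun d hd => (s1 d hd).1, fun d hd e he => ?_⟩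
    obtain ⟨a1, a2⟩ := s1 d hd
    obtain ⟨a3, a4⟩ := s1 e he
    by_contra hc
    rw [Bool.not_eq_false] at hc
    rcases lt_trichotomy (s d) (s e) with h | h | h
    · have : s e < 3 * m := by omega
      exact c4 _ _ h (by omega) (by simp [adjF, ← hm, this, hc]) (a2.trans a4.symm)
    · simp [h] at hc
    · have : s d < 3 * m := by omega
      rw [conf_symm] at hc
      exact c4 _ _ h (by omega) (by simp [adjF, ← hm, this, hc]) (a4.trans a2.symm)

end Pool.Agent.H37.AT
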