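import Pool.Agent.H37.Io3

/-! Slalom forcing: sets of strings killed by a slalom. -/

set_option autoImplicit false

namespace Pool.Agent.H37.Ae

open Filter Io

def hh (j : ℕ) : ℕ := 2 ^ j.factorial

theorem hh_mono : Monotone hh := fun _ _ h => Nat.pow_le_pow_right two_pos (Nat.factorial_le h)
theorem hh_pos (j : ℕ) : 0 < hh j := by unfold hh; positivity

@[fun_prop] theorem ci_hh {α : Type} [Primcodable α] {O : Set (ℕ →. ℕ)} {f : α → ℕ} (hf : CI O f) :
    CI O fun a => hh (f a) := by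
  have := ci_fac (O := O)
  unfold hh; fun_prop

def Bd (ρ : List ℕ) : Prop := ∀ j < ρ.length, ρ.getD j 0 < hh j
def Room (k i : ℕ) : Prop := 1 ≤ i ∧ k * 2 ^ (i + 2) ≤ hh i
def Av (A : ℕ → List ℕ) (i : ℕ) (ρ : List ℕ) : Prop := ∀ j, i ≤ j → j < ρ.length → ρ.getD j 0 ∉ A j
def Kills (A : ℕ → List ℕ) (B : List ℕ → Prop) (σ : List ℕ) : Prop :=
  ∀ ρ, σ <+: ρ → Bd ρ → B ρ → ¬ Av A σ.length ρ
def Small (k : ℕ) (B : List ℕ → Prop) (σ : List ℕ) : Prop :=
  ∃ A : ℕ → List ℕ, (∀ j, (A j).length ≤ k) ∧ Kills A B σ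

theorem Room.mono {k i j : ℕ} (h : Room k i) (hj : i ≤ j) : Room k j := by
  induction j, hj using Nat.le_induction with
  | base => exact h
  | succ j _ ih =>
    refine ⟨by omega, ?_⟩
    have : hh j * 2 ≤ hh (j + 1) := by
      unfold hh
      rw [← pow_succ]
      refine Nat.pow_le_pow_right two_pos ?_
      have := ih.1
      have := j.factorial_pos
      rw [Nat.factorial_succ]; nlinarith
    have := ih.2
    rw [add_right_comm, pow_succ, ← mul_assoc]; omega

theorem ev_room (a c : ℕ) : ∀ᶠ L in atTop, ∀ k ≤ a * 2 ^ 2 ^ (c * L), Room k L := by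
  filter_upwards [Nat.eventually_mul_pow_lt_factorial_sub (a + 4) (2 ^ (c + 1)) 0,
    eventually_ge_atTop 1] with L h h1 k hk
  refine ⟨h1, (Nat.mul_le_mul_right _ (hk.trans (Nat.mul_le_mul_right _
    (Nat.lt_two_pow_self (n := a)).le))).trans ?_⟩
  rw [← pow_add, ← pow_add]
  refine Nat.pow_le_pow_right two_pos (le_trans ?_ h.le)
  rw [← pow_mul, add_mul c, one_mul, pow_add]
  have := Nat.lt_two_pow_self (n := L)
  have := Nat.one_le_two_pow (n := c * L)
  nlinarith [Nat.zero_le (a * (2 ^ (c * L) * 2 ^ L - 1)), Nat.mul_le_mul this this,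
    Nat.mul_le_mul_left a (Nat.one_le_iff_ne_zero.2 (by positivity) : 1 ≤ 2 ^ (c * L) * 2 ^ L)]

theorem getD_pf {σ ρ : List ℕ} (h : σ <+: ρ) {j : ℕ} (hj : j < σ.length) :
    ρ.getD j 0 = σ.getD j 0 := by
  obtain ⟨τ, rfl⟩ := h
  exact List.getD_append _ _ _ _ hj

theorem Kills.ext {A : ℕ → List ℕ} {B : List ℕ → Prop} {σ τ : List ℕ} (h : Kills A B σ)
    (h1 : σ <+: τ) (h2 : Av A σ.length τ) : Kills A B τ := fun ρ a b c d =>
  h ρ (h1.trans a) b c fun j e f => by
    by_cases h3 : j < τ.length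
    exacts [getD_pf a h3 ▸ h2 j e h3, d j (by omega) f]

theorem Small.mono {k : ℕ} {B C : List ℕ → Prop} {σ : List ℕ} (h : Small k C σ)
    (h1 : ∀ ρ, B ρ → C ρ) : Small k B σ :=
  h.imp fun _ h => ⟨h.1, fun ρ a b c => h.2 ρ a b (h1 ρ c)⟩

theorem Small.or {k l : ℕ} {B C : List ℕ → Prop} {σ : List ℕ} (h : Small k B σ)
    (h' : Small l C σ) : Small (k + l) (fun ρ => B ρ ∨ C ρ) σ := by
  obtain ⟨A, h1, h2⟩ := h
  obtain ⟨A', h3, h4⟩ := h'
  refine ⟨fun j => A j ++ A' j, fun j => by simpa using add_le_add (h1 j) (h3 j),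
    fun ρ a b c d => c.elim (fun c => h2 ρ a b c fun j e f g => d j e f (List.mem_append_left _ g))
      fun c => h4 ρ a b c fun j e f g => d j e f (List.mem_append_right _ g)⟩

theorem small_ex {k G : ℕ} {D : ℕ → List ℕ → Prop} {σ : List ℕ} (h : ∀ c, Small k (D c) σ) :
    Small (k * G) (fun ρ => ∃ c < G, D c ρ) σ := by
  induction G with
  | zero => exact ⟨fun _ => [], by simp, fun ρ _ _ h => by simp at h⟩
  | succ G ih =>
    exact (ih.or (h G)).mono fun ρ ⟨c, h1, h2⟩ => (Nat.lt_succ_iff_lt_or_eq.1 h1).imp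
      (fun h => ⟨c, h, h2⟩) fun h : c = G => h ▸ h2

theorem Small.not {k : ℕ} {B : List ℕ → Prop} {σ : List ℕ} (h : Small k B σ) (hb : Bd σ) :
    ¬ B σ := fun h1 => h.elim fun _ h => h.2 σ List.prefix_rfl hb h1 fun j _ _ => by omega

/-- candidates -/
def cand (τ : List ℕ) (L i : ℕ) : List ℕ :=
  τ ++ (List.range (L - τ.length)).map fun j => i % hh (τ.length + j)

theorem cand_len {τ : List ℕ} {L : ℕ} (h : τ.length ≤ L) (i : ℕ) : (cand τ L i).length = L := by
  simp [cand]; omega

theorem cand_get {τ : List ℕ} {L i j : ℕ} (h : τ.length ≤ j) (hj : j < (cand τ L i).length) :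
    (cand τ L i).getD j 0 = i % hh j := by
  have : j - τ.length < L - τ.length := by simp [cand] at hj; omega
  rw [cand, List.getD_append_right _ _ _ _ h]
  simp [this, h]

theorem cand_bd {τ : List ℕ} (h : Bd τ) (L i : ℕ) : Bd (cand τ L i) := fun j hj => by
  by_cases h1 : j < τ.length
  · exact getD_pf (List.prefix_append _ _) h1 ▸ h j h1
  · exact cand_get (by omega) hj ▸ Nat.mod_lt _ (hh_pos j)

theorem exists_cand {τ : List ℕ} {k L : ℕ} (h : Room k τ.length) (hL : τ.length ≤ L)
    {A : ℕ → List ℕ} (hA : ∀ j, (A j).length ≤ k) :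
    ∃ i < 2 * k * L + 1, Av A τ.length (cand τ L i) := by
  by_contra! hc
  generalize hm : 2 * k * L + 1 = m at hc
  have h1 : Finset.range m ⊆ (Finset.Ico τ.length L).biUnion fun j =>
      (A j).toFinset.biUnion fun v => (Finset.range m).filter fun i => i % hh j = v := by
    intro i hi
    have := hc i (Finset.mem_range.1 hi)
    simp only [Av, not_forall, not_not] at this
    obtain ⟨j, a, b, c⟩ := this
    rw [cand_get a b] at c
    rw [cand_len hL] at b
    simp only [Finset.mem_biUnion, Finset.mem_Ico, List.mem_toFinset, Finset.mem_filter]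
    exact ⟨j, ⟨a, b⟩, _, c, hi, rfl⟩
  have h2 : ∀ j ∈ Finset.Ico τ.length L, (((A j).toFinset.biUnion fun v =>
      (Finset.range m).filter fun i => i % hh j = v).card : ℝ) ≤ m / 4 * (1 / 2) ^ j + k := by
    intro j hj
    have a1 := Finset.card_biUnion_le_card_mul (A j).toFinset
      (fun v => (Finset.range m).filter fun i => i % hh j = v) (m / hh j + 1) fun v _ => by
        rw [← Finset.card_range (m / hh j + 1)]
        refine Finset.card_le_card_of_injOn (· / hh j) (fun i hi => ?_) fun i hi i' hi' e => ?_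
        · simp only [Finset.coe_filter, Finset.mem_range, Set.mem_setOf_eq, Finset.coe_range,
            Set.mem_Iio] at hi ⊢
          exact Nat.lt_succ_of_le (Nat.div_le_div_right hi.1.le)
        · simp only [Finset.coe_filter, Set.mem_setOf_eq] at hi hi' e
          rw [← Nat.div_add_mod i (hh j), ← Nat.div_add_mod i' (hh j), e, hi.2, hi'.2]
    have a2 := a1.trans (Nat.mul_le_mul_right _ ((List.toFinset_card_le _).trans (hA j)))
    have a3 : k * (m / hh j) * (4 * 2 ^ j) ≤ m := by
      have := (h.mono (Finset.mem_Ico.1 hj).1).2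
      calc _ = k * 2 ^ (j + 2) * (m / hh j) := by ring
        _ ≤ hh j * (m / hh j) := Nat.mul_le_mul_right _ this
        _ ≤ m := Nat.mul_div_le _ _
    refine (Nat.cast_le.2 a2).trans ?_
    have a4 : (k : ℝ) * (m / hh j : ℕ) * (4 * 2 ^ j) ≤ m := by exact_mod_cast a3
    rw [← le_div_iff₀ (by positivity)] at a4
    rw [one_div_pow, div_mul_div_comm, mul_one, Nat.cast_mul, Nat.cast_add, mul_add]
    simpa using a4
  have h3 : (m : ℝ) ≤ ∑ j ∈ Finset.range L, (m / 4 * (1 / 2 : ℝ) ^ j + k) := by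
    refine le_trans ?_ ((Finset.sum_le_sum h2).trans (Finset.sum_le_sum_of_subset_of_nonneg
      (fun j hj => Finset.mem_range.2 (Finset.mem_Ico.1 hj).2) fun _ _ _ => by positivity))
    exact_mod_cast ((Finset.card_range m).symm.le.trans (Finset.card_le_card h1)).trans
      Finset.card_biUnion_le
  rw [Finset.sum_add_distrib, ← Finset.mul_sum, Finset.sum_const, Finset.card_range,
    nsmul_eq_mul] at h3
  have h4 := mul_le_mul_of_nonneg_left (sum_geometric_two_le L) (by positivity : (0 : ℝ) ≤ m / 4)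
  have h5 : (m : ℝ) = 2 * k * L + 1 := by rw [← hm]; push_cast; rfl
  nlinarith

def bd (ρ : List ℕ) : Bool := (List.range ρ.length).all fun j => decide (ρ.getD j 0 < hh j)

theorem bd_iff {ρ : List ℕ} : bd ρ = true ↔ Bd ρ := by simp [bd, Bd]

/-- largeness seen at stage `s` -/
def lg (B : List ℕ → Bool) (k : ℕ) (σ : List ℕ) (s : ℕ) : Bool :=
  (allLists (allLists (List.range (hh s)) k) s).all fun α =>
    (allLists (List.range (hh s)) s).any fun ρ => ρ.take σ.length == σ && bd ρ && B ρ &&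
      (List.range ρ.length).all fun j => decide (j < σ.length) ||
        !(α.getD j []).contains (ρ.getD j 0)

theorem lg_iff {B : List ℕ → Bool} {k : ℕ} {σ : List ℕ} :
    (∃ s, lg B k σ s = true) ↔ ¬ Small k (B · = true) σ := by
  have e : ∀ s, lg B k σ s = true ↔ ∀ α ∈ allLists (allLists (List.range (hh s)) k) s,
      ∃ ρ ∈ allLists (List.range (hh s)) s, σ <+: ρ ∧ Bd ρ ∧ B ρ = true ∧
        Av (α.getD · []) σ.length ρ := fun s => by
    simp only [lg, List.all_eq_true, List.any_eq_true, Bool.and_eq_true, bd_iff, beq_iff_eq,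
      List.prefix_iff_eq_take, eq_comm (a := σ), and_assoc, List.mem_range, Bool.or_eq_true,
      decide_eq_true_eq, Bool.not_eq_true', List.contains_eq_mem, decide_eq_false_iff_not, Av,
      ← not_le, ← imp_iff_not_or]
    simp only [imp.swap (a := σ.length ≤ _)]
  simp only [e]
  constructor
  · rintro ⟨s, h⟩ ⟨A, h1, h2⟩
    obtain ⟨ρ, a1, a2, a3, a4, a5⟩ := h ((List.range s).map fun j =>
      (A j).filter (decide <| · < hh s)) (mem_allLists.2 ⟨by simp, List.forall_mem_map.2 fun j _ =>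
        mem_allLists.2 ⟨(List.length_filter_le _ _).trans (h1 j), by simp⟩⟩)
    refine h2 ρ a2 a3 a4 fun j b1 b2 b3 => a5 j b1 b2 ?_
    have b4 : j < s := b2.trans_le (mem_allLists.1 a1).1
    have := (a3 j b2).trans_le (hh_mono b4.le)
    simp only [List.getD_eq_getElem?_getD] at this b3
    simp [b4, b3, this]
  · refine not_imp_comm.1 fun h => ?_
    push Not at h
    choose α h1 h2 using h
    have : ∀ j, ∃ a ∈ {a | a ∈ allLists (List.range (hh j)) k}, ∀ᶠ s in hyperfilter ℕ,
        ((α s).getD j []).filter (decide <| · < hh j) = a := fun j =>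
      (Ultrafilter.eventually_exists_mem_iff (List.finite_toSet _)).1 (.of_forall fun s =>
        ⟨_, mem_allLists.2 ⟨(List.length_filter_le _ _).trans (by
          rw [List.getD_eq_getElem?_getD]
          cases e : (α s)[j]? with
          | none => simp
          | some a => exact (mem_allLists.1 ((mem_allLists.1 (h1 s)).2 a
            (List.mem_of_getElem? e))).1), by simp⟩, rfl⟩)
    choose A a1 a2 using this
    refine ⟨A, fun j => (mem_allLists.1 (a1 j)).1, fun ρ b1 b2 b3 b4 => ?_⟩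
    obtain ⟨s, c1, c2⟩ := (((eventually_all_finset (Finset.range ρ.length)).2 fun j _ => a2 j).and
      (Nat.hyperfilter_le_atTop (eventually_ge_atTop ρ.length))).exists
    refine h2 s ρ (mem_allLists.2 ⟨c2, fun v hv => ?_⟩) b1 b2 b3 fun j d1 d2 d3 => b4 j d1 d2 ?_
    · obtain ⟨j, hj, rfl⟩ := List.getElem_of_mem hv
      have := (b2 j hj).trans_le (hh_mono (hj.le.trans c2))
      rwa [List.getD_eq_getElem _ _ hj, ← List.mem_range] at this
    · rw [← c1 j (Finset.mem_range.2 d2)]
      exact List.mem_filter.2 ⟨d3, decide_eq_true (b2 j d2)⟩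

end Pool.Agent.H37.Ae
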