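import Pool.Agent.H37.Ae1

/-! A function below `2 ^ n!`, eventually different from the computable functions, which computes
no such function below `2 ^ 2 ^ n`. -/

set_option autoImplicit false

namespace Pool.Agent.H37.Ae

open Filter Io Encodable

abbrev Cd := List ℕ × ℕ × (List ℕ → Bool)

structure Val (p : Cd) : Prop where
  bd : Bd p.1
  room : Room p.2.1 p.1.length
  ci : CI ∅ p.2.2
  up : ∀ ρ τ, ρ <+: τ → p.2.2 ρ = true → p.2.2 τ = true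
  small : Small p.2.1 (p.2.2 · = true) p.1

def Le (q p : Cd) : Prop := p.1 <+: q.1 ∧ ∀ ρ, p.2.2 ρ = true → q.2.2 ρ = true

theorem Le.refl (p : Cd) : Le p p := ⟨List.prefix_rfl, fun _ h => h⟩
theorem Le.trans {p q r : Cd} (h : Le p q) (h' : Le q r) : Le p r :=
  ⟨h'.1.trans h.1, fun ρ a => h.2 ρ (h'.2 ρ a)⟩

theorem longer {p : Cd} (h : Val p) (L : ℕ) :
    ∃ τ, L ≤ τ.length ∧ p.1 <+: τ ∧ Val (τ, p.2) := by
  obtain ⟨A, h1, h2⟩ := h.small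
  obtain ⟨i, -, hi⟩ := exists_cand h.room (le_max_left _ L) h1
  have := cand_len (le_max_left p.1.length L) i
  exact ⟨cand p.1 (max p.1.length L) i, this.symm ▸ le_max_right _ _, List.prefix_append _ _, cand_bd h.bd _ _,
    h.room.mono (List.prefix_append _ _).length_le, h.ci, h.up, A, h1,
    h2.ext (List.prefix_append _ _) hi⟩

theorem avoid {p : Cd} (h : Val p) {x : ℕ → ℕ} (hx : CI ∅ x) : ∃ q, Val q ∧ Le q p ∧
    ∃ J, ∀ ρ : List ℕ, (∃ j, J ≤ j ∧ j < ρ.length ∧ ρ.getD j 0 = x j) → q.2.2 ρ = true := by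
  obtain ⟨L, hL⟩ := eventually_atTop.1 (ev_room (p.2.1 + 1) 0)
  obtain ⟨τ, h1, h2, h3⟩ := longer h L
  have := h.ci
  have e : ∀ ρ : List ℕ, (p.2.2 ρ || (List.range ρ.length).any fun j => decide (τ.length ≤ j) &&
      ρ.getD j 0 == x j) = true ↔ p.2.2 ρ = true ∨
        ∃ j, τ.length ≤ j ∧ j < ρ.length ∧ ρ.getD j 0 = x j := fun ρ => by
    simp [and_left_comm]
  refine ⟨(τ, p.2.1 + 1, fun ρ => p.2.2 ρ || (List.range ρ.length).any fun j =>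
    decide (τ.length ≤ j) && ρ.getD j 0 == x j), ⟨h3.bd, hL _ h1 _ (by simp), by fun_prop,
      fun ρ ρ' a b => (e _).2 (((e _).1 b).imp (h.up _ _ a) fun ⟨j, c, d, f⟩ =>
        ⟨j, c, d.trans_le a.length_le, (getD_pf a d).trans f⟩),
      (h3.small.or (C := fun ρ => ∃ j, τ.length ≤ j ∧ j < ρ.length ∧ ρ.getD j 0 = x j)
        ⟨fun j => [x j], by simp, fun ρ _ _ ⟨j, a, b, c⟩ d => d j a b (by rw [c]; simp)⟩).mono
          fun ρ => (e ρ).1⟩, ⟨h2, fun ρ a => (e _).2 (Or.inl a)⟩, _, fun ρ a => (e _).2 (Or.inr a)⟩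

theorem ci_lg {α : Type} [Primcodable α] {B : α → List ℕ → Bool} {k s : α → ℕ} {σ : α → List ℕ}
    (hB : CI ∅ fun q : α × List ℕ => B q.1 q.2) (hk : CI ∅ k) (hσ : CI ∅ σ) (hs : CI ∅ s) :
    CI ∅ fun a => lg (B a) (k a) (σ a) (s a) := by
  obtain ⟨F, hF, e⟩ : ∃ F : α × List ℕ → Bool, CI ∅ F ∧ ∀ a ρ, B a ρ = F (a, ρ) :=
    ⟨_, hB, fun _ _ => rfl⟩
  simp only [lg, bd, e]
  fun_prop

theorem decide_e {p : Cd} (h : Val p) (e : ℕ) : ∃ q, Val q ∧ Le q p ∧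
    ((∃ n, ∀ ρ, (∃ c < 2 ^ 2 ^ n, U e ρ n = some c) → q.2.2 ρ = true) ∨
      ∃ x, CI ∅ x ∧ ∀ N r, Val r → Le r q → ∃ r', Val r' ∧ Le r' r ∧
        ∃ n, N ≤ n ∧ U e r'.1 n = some (x n)) := by
  have hB := h.ci
  by_cases hc : ∃ ρ n K, p.1 <+: ρ ∧ Bd ρ ∧ Room K ρ.length ∧
      Small K (fun ρ => p.2.2 ρ = true ∨ ∃ c < 2 ^ 2 ^ n, U e ρ n = some c) ρ
  · obtain ⟨ρ, n, K, h1, h2, h3, h4⟩ := hc
    have e1 : ∀ ρ, (p.2.2 ρ || (List.range (2 ^ 2 ^ n)).any fun c => U e ρ n == some c) = true ↔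
        p.2.2 ρ = true ∨ ∃ c < 2 ^ 2 ^ n, U e ρ n = some c := fun ρ => by simp
    exact ⟨(ρ, K, fun ρ => p.2.2 ρ || (List.range (2 ^ 2 ^ n)).any fun c => U e ρ n == some c),
      ⟨h2, h3, by fun_prop, fun ρ τ a b => (e1 _).2 (((e1 _).1 b).imp (h.up _ _ a)
        fun ⟨c, h5, h6⟩ => ⟨c, h5, U_mon e _ _ _ _ a h6⟩), h4.mono fun ρ => (e1 ρ).1⟩,
      ⟨h1, fun ρ a => (e1 _).2 (Or.inl a)⟩, Or.inl ⟨n, fun ρ a => (e1 _).2 (Or.inr a)⟩⟩
  refine ⟨p, h, Le.refl p, Or.inr ?_⟩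
  have hg := ci_fac (O := ∅)
  have ex : ∀ n, ∃ u : ℕ, decide (n < (u + 1).factorial) = true := fun n =>
    ⟨n, decide_eq_true (Nat.self_le_factorial _)⟩
  obtain ⟨T, hT, eT⟩ : ∃ T : ℕ → ℕ, CI ∅ T ∧ ∀ n, Nat.find (ex n) = T n :=
    ⟨_, CI.find (by fun_prop) ex, fun _ => rfl⟩
  obtain ⟨Q, hQ, eQ⟩ : ∃ Q : ℕ → List ℕ × ℕ, CI ∅ Q ∧ ∀ u, Q u =
    (decode u.unpair.1 : Option (List ℕ × ℕ)).getD ([], 0) := ⟨_, by fun_prop, fun _ => rfl⟩
  obtain ⟨R, hR, eR⟩ : ∃ R : ℕ → List ℕ × ℕ, CI ∅ R ∧ ∀ n, R n =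
      (cand (Q (T n)).1 (T n).factorial (n - (T n).factorial), (Q (T n)).2) :=
    ⟨_, by unfold cand; fun_prop, fun _ => rfl⟩
  have l1 := ci_lg (α := ℕ × ℕ × ℕ) (B := fun _ => p.2.2) (k := fun q => (R q.1).2)
    (σ := fun q => (R q.1).1) (s := fun q => q.2.2) (by fun_prop) (by fun_prop) (by fun_prop)
    (by fun_prop)
  have l2 := ci_lg (α := ℕ × ℕ × ℕ) (B := fun q ρ => U e ρ q.1 == some q.2.1)
    (k := fun q => (R q.1).2) (σ := fun q => (R q.1).1) (s := fun q => q.2.2) (by fun_prop)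
    (by fun_prop) (by fun_prop) (by fun_prop)
  obtain ⟨X, hX, eX⟩ := CI.exists_choice (O := ∅) (p := fun n (q : ℕ × ℕ) =>
    !((R n).1.take p.1.length == p.1 && bd (R n).1 && decide (1 ≤ (R n).1.length) &&
      decide (((R n).2 + (R n).2 * 2 ^ 2 ^ n) * 2 ^ ((R n).1.length + 2) ≤ hh (R n).1.length)) ||
      lg p.2.2 (R n).2 (R n).1 q.2 || lg (fun ρ => U e ρ n == some q.1) (R n).2 (R n).1 q.2)
    (CI.or (CI.or (by unfold bd; fun_prop) l1) l2) fun n => by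
      by_contra! h0
      simp only [ne_eq, Bool.or_eq_true, not_or, Bool.not_eq_true', Bool.not_eq_false,
        Bool.and_eq_true, beq_iff_eq, bd_iff, decide_eq_true_eq, Prod.forall] at h0
      obtain ⟨⟨⟨⟨⟨a1, a2⟩, a3⟩, a4⟩, -⟩, -⟩ := h0 0 0
      refine hc ⟨_, n, _, List.prefix_iff_eq_take.2 a1.symm, a2, ⟨a3, a4⟩,
        (not_not.1 (mt lg_iff.2 fun ⟨s, hs⟩ => (h0 0 s).1.2 hs)).or (small_ex fun c => ?_)⟩
      simpa using not_not.1 (mt lg_iff.2 fun ⟨s, hs⟩ => (h0 c s).2 hs)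
  refine ⟨fun n => (X n).1, by fun_prop, fun N r h1 h2 => ?_⟩
  obtain ⟨A, a1, a2⟩ := h1.small
  obtain ⟨L, hL⟩ := eventually_atTop.1 (ev_room (2 * r.2.1) (2 * r.2.1 + 2))
  obtain ⟨u, u1, u2⟩ : ∃ u, u.unpair.1 = encode (r.1, r.2.1) ∧
      L + N + r.1.length + 2 * r.2.1 + 1 ≤ u :=
    ⟨Nat.pair _ _, by rw [Nat.unpair_pair], Nat.right_le_pair _ _⟩
  have u3 := u.self_le_factorial
  obtain ⟨i, b1, b2⟩ := exists_cand h1.room (show _ ≤ u.factorial by omega) a1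
  have b3 : Nat.find (ex (u.factorial + i)) = u := (Nat.find_eq_iff _).2
    ⟨decide_eq_true (by rw [Nat.factorial_succ]; nlinarith), fun v hv => by
      have := Nat.factorial_le (show v + 1 ≤ u from hv)
      simp only [decide_eq_true_eq]; omega⟩
  have b4 : R (u.factorial + i) = (cand r.1 u.factorial i, r.2.1) := by
    rw [eR, ← eT, b3, eQ, u1]; simp
  have b5 : r.1 <+: cand r.1 u.factorial i := List.prefix_append _ _
  have b6 := cand_bd h1.bd u.factorial i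
  have b7 := a2.ext b5 b2
  have b8 := hL u.factorial (by omega) (r.2.1 + r.2.1 * 2 ^ 2 ^ (u.factorial + i)) (by
    have : 2 ^ 2 ^ (u.factorial + i) ≤ 2 ^ 2 ^ ((2 * r.2.1 + 2) * u.factorial) :=
      Nat.pow_le_pow_right two_pos (Nat.pow_le_pow_right two_pos (by nlinarith))
    have := Nat.one_le_two_pow (n := 2 ^ (u.factorial + i))
    nlinarith)
  have b9 := eX (u.factorial + i)
  simp only [b4, Bool.or_eq_true, Bool.not_eq_true', ← Bool.not_eq_true, Bool.and_eq_true,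
    beq_iff_eq, bd_iff, decide_eq_true_eq, cand_len (show r.1.length ≤ u.factorial by omega) i] at b9
  rcases b9 with (b9 | b9) | b9
  · exact absurd ⟨⟨⟨(List.prefix_iff_eq_take.1 (h2.1.trans b5)).symm, b6⟩, b8.1⟩, b8.2⟩ b9
  · exact absurd ⟨A, a1, fun ρ a b c => b7 ρ a b (h2.2 ρ c)⟩ (lg_iff.1 ⟨_, b9⟩)
  have := lg_iff.1 ⟨_, b9⟩
  simp only [Small, Kills, not_exists, not_and, not_forall, not_not, beq_iff_eq] at this
  obtain ⟨ρ, c1, c2, c3, c4⟩ := this A a1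
  exact ⟨(ρ, r.2), ⟨c2, h1.room.mono (b5.trans c1).length_le, h1.ci, h1.up, A, a1, b7.ext c1 c4⟩,
    ⟨b5.trans c1, fun _ h => h⟩, _, by omega, c3⟩

theorem exists_y : ∃ y : ℕ → ℕ, (∀ n, y n < hh n) ∧ (∀ x, CI ∅ x → ∀ᶠ n in atTop, x n ≠ y n) ∧
    ∀ z, CI (orc y) z → (∀ n, z n < 2 ^ 2 ^ n) → ∃ x, CI ∅ x ∧ ∃ᶠ n in atTop, x n = z n := by
  have : Countable {x : ℕ → ℕ // Computable x} := Hd.countable_comp.to_subtype
  obtain ⟨s, -, h1, h2, h3⟩ := chain (ι := ℕ ⊕ ℕ ⊕ {x : ℕ → ℕ // Computable x} ⊕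
      ℕ × ℕ × {x : ℕ → ℕ // Computable x}) Le Le.refl (fun _ _ _ => Le.trans) Val
    (fun i q => match i with
      | .inl L => L ≤ q.1.length
      | .inr (.inl e) => (∃ n, ∀ ρ, (∃ c < 2 ^ 2 ^ n, U e ρ n = some c) → q.2.2 ρ = true) ∨
        ∃ x, CI ∅ x ∧ ∀ N r, Val r → Le r q → ∃ r', Val r' ∧ Le r' r ∧
          ∃ n, N ≤ n ∧ U e r'.1 n = some (x n)
      | .inr (.inr (.inl x)) =>
        ∃ J, ∀ ρ : List ℕ, (∃ j, J ≤ j ∧ j < ρ.length ∧ ρ.getD j 0 = x.1 j) → q.2.2 ρ = true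
      | .inr (.inr (.inr (e, N, x))) => (∃ n, N ≤ n ∧ U e q.1 n = some (x.1 n)) ∨
        ∀ r, Val r → Le r q → ¬ ∃ n, N ≤ n ∧ U e r.1 n = some (x.1 n))
    (by
      rintro (L | e | x | ⟨e, N, x⟩) p hp
      · obtain ⟨τ, a, b, c⟩ := longer hp L
        exact ⟨_, c, ⟨b, fun _ h => h⟩, a⟩
      · exact decide_e hp e
      · exact avoid hp (CI.of_comp x.2)
      · by_cases h : ∀ r, Val r → Le r p → ¬ ∃ n, N ≤ n ∧ U e r.1 n = some (x.1 n)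
        · exact ⟨p, hp, Le.refl p, Or.inr h⟩
        · simp only [not_forall, not_not] at h
          obtain ⟨r, a, b, c⟩ := h
          exact ⟨r, a, b, Or.inl c⟩)
    ([0], 0, fun _ => false) ⟨fun j _ => by cases j <;> simpa using hh_pos _, ⟨by simp, by simp⟩,
      by fun_prop, by simp, fun _ => [], by simp, by simp [Kills]⟩
  choose M hM using fun L => h3 (.inl L)
  let y : ℕ → ℕ := fun j => (s (M (j + 1))).1.getD j 0
  have a1 : ∀ a, pre y (s a).1.length = (s a).1 := fun a =>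
    (pre_congr fun j hj => ((getD_pf (h2 _ _ (le_max_left _ a)).1 (hM (j + 1))).symm.trans
      (getD_pf (h2 _ _ (le_max_right _ a)).1 hj))).trans (pre_getD _ 0)
  have a2 : ∀ a t, ¬ (s a).2.2 (pre y t) = true := fun a t h =>
    (h1 (max a (M t))).small.not (h1 _).bd ((h1 _).up _ _ (a1 _ ▸ pre_pf y ((hM t).trans
      (h2 _ _ (le_max_right a _)).1.length_le)) ((h2 _ _ (le_max_left _ _)).2 _ h))
  refine ⟨y, fun n => (h1 _).bd n (hM (n + 1)), fun x hx => ?_, fun z hz hb => ?_⟩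
  · obtain ⟨a, J, hJ⟩ := h3 (.inr (.inr (.inl ⟨x, hx.computable⟩)))
    exact (eventually_ge_atTop J).mono fun n hn h => a2 a (n + 1)
      (hJ _ ⟨n, hn, by simp, (getD_pre y n.lt_succ_self 0).trans h.symm⟩)
  · obtain ⟨e, he⟩ := exists_app_tot hz
    obtain ⟨a, ⟨n, hn⟩ | ⟨x, hx, H⟩⟩ := h3 (.inr (.inl e))
    · obtain ⟨t, ht⟩ := mem_app.1 (he n)
      exact absurd (hn _ ⟨_, hb n, ht⟩) (a2 a t)
    refine ⟨x, hx, frequently_atTop.2 fun N => ?_⟩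
    obtain ⟨b, ⟨n, b1, b2⟩ | hb⟩ := h3 (.inr (.inr (.inr (e, N, ⟨x, hx.computable⟩))))
    · exact ⟨n, b1, Part.mem_unique (mem_app.2 ⟨_, (a1 b).symm ▸ b2⟩) (he n)⟩
    · obtain ⟨r, c1, c2, c3⟩ := H N _ (h1 _) (h2 _ _ (le_max_left a b))
      exact absurd c3 (hb r c1 (c2.trans (h2 _ _ (le_max_right a b))))

end Pool.Agent.H37.Ae
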