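import Pool.Agent.H37.Ae2

set_option autoImplicit false

namespace Pool.Agent.H37.Ae

open Filter Io IoD

theorem exists_graph (y : ℕ → ℕ) : ∃ A : ℕ → Bool, CI (orc y) (chi A) ∧ CI (orc (chi A)) y := by
  have h := CI.self y
  refine ⟨fun n => y n.unpair.1 == n.unpair.2, by unfold chi; fun_prop, ?_⟩
  obtain ⟨F, hF, e⟩ : ∃ F : ℕ → ℕ, CI (orc (chi fun n => y n.unpair.1 == n.unpair.2)) F ∧
    ∀ n, F n = (y n.unpair.1 == n.unpair.2).toNat := ⟨_, CI.self _, fun _ => rfl⟩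
  obtain ⟨g, hg, h'⟩ := CI.exists_choice (p := fun n v : ℕ => F (Nat.pair n v) == 1)
    (by fun_prop : CI (orc (chi fun n => y n.unpair.1 == n.unpair.2)) _)
    fun n => ⟨y n, by simp [e]⟩
  exact hg.of_eq fun n => by
    have := h' n
    rw [e, Nat.unpair_pair] at this
    by_contra h1
    simp [Ne.symm h1] at this

theorem fin_iff {x y : ℕ → ℕ} : {n | x n = y n}.Finite ↔ ∀ᶠ n in atTop, x n ≠ y n := by
  rw [← Nat.cofinite_eq_atTop, eventually_cofinite]; simp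

theorem proper : Comp (AED fun n => 2 ^ 2 ^ n) ⊂ Comp (AED fun n => 2 ^ n.factorial) := by
  refine ⟨fun A ⟨y, ⟨h1, h2⟩, h3⟩ => ?_, fun h => ?_⟩
  · obtain ⟨N, hN⟩ := eventually_atTop.1 (Nat.eventually_pow_lt_factorial_sub 2 0)
    have h3 := red_iff.1 h3
    refine ⟨fun n => cond (decide (n < N)) 0 (y n), ⟨fun n => ?_, fun x hx => fin_iff.2 ?_⟩,
      red_iff.2 (by fun_prop)⟩
    · by_cases h : n < N
      · simp [h]
      · simpa [h] using (h1 n).trans (Nat.pow_lt_pow_right one_lt_two (hN n (by omega)))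
    · filter_upwards [fin_iff.1 (h2 x hx), eventually_ge_atTop N] with n a b
      simpa [b.not_gt] using a
  · obtain ⟨y, h1, h2, h3⟩ := exists_y
    obtain ⟨A, h4, h5⟩ := exists_graph y
    obtain ⟨z, ⟨a1, a2⟩, a3⟩ := h ⟨y, ⟨h1, fun x hx => fin_iff.2 (h2 x (CI.of_comp hx))⟩,
      red_iff.2 h5⟩
    obtain ⟨x, b1, b2⟩ := h3 z ((red_iff.1 a3).trans h4) a1
    exact b2 (fin_iff.1 (a2 x b1.computable))

end Pool.Agent.H37.Ae
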