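import Mathlib

set_option autoImplicit false

namespace Pool.Agent.H37.Attr

open MeasureTheory

/-- the fair coin measure on Cantor space -/
noncomputable def coin : Measure (ℕ → Bool) :=
  Measure.infinitePi fun _ : ℕ => (PMF.uniformOfFintype Bool).toMeasure

/-- a set as an oracle -/
def ora (X : ℕ → Bool) : ℕ →. ℕ := fun n => Part.some (X n).toNat

/-- upper density of the symmetric difference -/
noncomputable def delta (C D : ℕ → Bool) : ℝ :=
  Filter.limsup (fun n : ℕ => (((Finset.range n).filter fun k => C k ≠ D k).card : ℝ) / (n : ℝ))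
    Filter.atTop

/-- the Turing degree of a set -/
def Deg (A : ℕ → Bool) : Type := {C : ℕ → Bool // TuringEquivalent (ora C) (ora A)}

/-- Hausdorff distance of the degrees of `A` and `B` for `delta` -/
noncomputable def Hd (A B : ℕ → Bool) : ℝ :=
  max (⨆ C : Deg A, ⨅ D : Deg B, delta C.1 D.1) (⨆ D : Deg B, ⨅ C : Deg A, delta C.1 D.1)

/-- almost every degree is at distance one half -/
def Attractive (A : ℕ → Bool) : Prop := ∀ᵐ B ∂coin, Hd A B = 1 / 2

/-- almost everywhere dominating -/
def AEDom (A : ℕ → Bool) : Prop :=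
  ∀ᵐ B ∂coin, ∀ f : ℕ → ℕ, TuringReducible (fun n => Part.some (f n)) (ora B) →
    ∃ g : ℕ → ℕ, TuringReducible (fun n => Part.some (g n)) (ora A) ∧
      ∀ᶠ n in Filter.atTop, f n ≤ g n

/-- the degree of `A` contains a c.e. set -/
def CEDeg (A : ℕ → Bool) : Prop :=
  ∃ C : ℕ → Bool, REPred (fun n => C n = true) ∧ TuringEquivalent (ora C) (ora A)

open Classical in
/-- the Turing jump: pairs `(e, n)` such that program `e` halts on `n` and some initial segment -/
noncomputable def jump (X : ℕ → Bool) (p : ℕ) : Bool :=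
  decide (∃ s : ℕ, ((Denumerable.ofNat Nat.Partrec.Code p.unpair.1).eval
    (Encodable.encode (p.unpair.2, (List.range s).map X))).Dom)

end Pool.Agent.H37.Attr
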