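import Pool.Agent.H37.Hd5
import Pool.Agent.H37.AttrDefs

/-! Attractive c.e. degrees are almost everywhere dominating and high. -/

set_option autoImplicit false

namespace Pool.Agent.H37.Attr

open MeasureTheory ProbabilityTheory Filter Rnd Defc Encodable Hd
open scoped ENNReal

theorem coin_eq : coin = P := by
  unfold coin P
  congr 1
  funext _
  refine Measure.ext_of_singleton fun b => ?_
  rw [PMF.toMeasure_apply_singleton _ _ (measurableSet_singleton _), uniformOn_univ]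
  simp

theorem far {A B : ℕ → Bool} {Ψ : ℕ × ℕ → Bool} (h3 : CI (orc (bit B)) Ψ)
    (h4 : ∀ X, LE X A → ∀ N, ∃ t, N ≤ t ∧ ∀ m < t.factorial, Ψ (t, m) = !X m) :
    3 / 4 ≤ Hd A B := by
  have hg : CI (orc (bit B)) Nat.factorial :=
    CI.of_rec1 (h := fun n x => (n + 1) * x) (by fun_prop) fun _ => rfl
  have ex : ∀ m, ∃ t : ℕ, decide (m < t.factorial) = true := fun m =>
    ⟨m + 1, decide_eq_true (Nat.self_le_factorial _)⟩
  have h5 := CI.find (O := orc (bit B)) (by fun_prop) ex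
  have h6 : LE (fun m => Ψ (Nat.find (ex m), m)) B := h3.comp (by fun_prop)
  have : Nonempty (Deg A) := ⟨⟨A, tr_iff.2 (.refl _), tr_iff.2 (.refl _)⟩⟩
  refine le_max_of_le_right (le_ciSup_of_le ⟨1, ?_⟩
    ⟨_, tr_iff.2 (code_le (N := 7) h6), tr_iff.2 (le_code _ _ _)⟩ (le_ciInf fun C => ?_))
  · rintro _ ⟨D, rfl⟩
    exact ciInf_le_of_le ⟨0, by rintro _ ⟨C, rfl⟩; exact dl_nonneg _ _⟩ this.some (dl_le_one _ _)
  obtain ⟨X, hX, -⟩ := C
  have h7 := dl_code' 7 B (fun m => Ψ (Nat.find (ex m), m)) X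
  have h8 : 7 / 8 ≤ dl (fun m => Ψ (Nat.find (ex m), m)) X := by
    refine le_dl (frequently_atTop.2 fun a => ?_)
    obtain ⟨t, a1, a2⟩ := h4 X (tr_iff.1 hX) (a + 8)
    obtain ⟨t, rfl⟩ : ∃ u, t = u + 1 := ⟨t - 1, by omega⟩
    refine ⟨_, le_trans (by omega) (Nat.self_le_factorial (t + 1)), ?_⟩
    have a3 : t * t.factorial ≤ dis (fun m => Ψ (Nat.find (ex m), m)) X (t + 1).factorial := by
      refine le_trans ?_ (Finset.card_le_card (s := Finset.Ico t.factorial (t + 1).factorial)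
        fun m hm => ?_)
      · rw [Nat.card_Ico, Nat.factorial_succ, Nat.succ_mul]; omega
      · rw [Finset.mem_Ico] at hm
        have : Nat.find (ex m) = t + 1 := (Nat.find_eq_iff _).2 ⟨decide_eq_true hm.2, fun u hu => by
          have := Nat.factorial_le (Nat.le_of_lt_succ hu)
          simp only [decide_eq_true_eq]; omega⟩
        refine Finset.mem_filter.2 ⟨Finset.mem_range.2 hm.2, ?_⟩
        show Ψ (Nat.find (ex m), m) ≠ X m
        rw [this, a2 m hm.2]
        simp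
    have a4 : (0 : ℝ) < t.factorial := by exact_mod_cast t.factorial_pos
    have a5 : (t : ℝ) * t.factorial ≤ dis (fun m => Ψ (Nat.find (ex m), m)) X (t + 1).factorial := by
      exact_mod_cast a3
    have a6 : (7 : ℝ) ≤ t := by exact_mod_cast (by omega : 7 ≤ t)
    rw [le_div_iff₀ (by exact_mod_cast (t + 1).factorial_pos), Nat.factorial_succ] at *
    push_cast at *
    nlinarith
  show _ ≤ dl X (code 7 B fun m => Ψ (Nat.find (ex m), m))
  rw [dl_comm]
  rw [show (1 : ℝ) / ((7 : ℕ) + 1) = 1 / 8 by norm_num] at h7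
  linarith

theorem dom_of {A B : ℕ → Bool} (hA : CEDeg A) (h : Hd A B = 1 / 2) {f : ℕ → ℕ}
    (hf : CI (orc (bit B)) f) : ∃ g : ℕ → ℕ, CI (orc (bit A)) g ∧ ∀ᶠ n in atTop, f n ≤ g n := by
  obtain ⟨C, h1, h2, h3⟩ := hA
  obtain ⟨D, hD, hm, eD⟩ := re_stage h1
  by_contra hc
  obtain ⟨F, hF, eF⟩ : ∃ F : ℕ × ℕ → Bool, CI ∅ F ∧ ∀ a b, D a b = F (a, b) := ⟨_, hD, fun _ _ => rfl⟩
  have hg : ∀ O, CI O Nat.factorial := fun O =>
    CI.of_rec1 (h := fun n x => (n + 1) * x) (by fun_prop) fun _ => rfl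
  have hF1 : CI (orc (bit B)) F := hF.of_empty
  refine absurd (h ▸ far (A := A) (B := B) (Ψ := fun q => !(U q.1.unpair.1 ((List.range
    (f q.1.unpair.2)).map fun i => (F (i, f q.1.unpair.2)).toNat) q.2 == some 1)) (by fun_prop)
    fun X hX N => ?_) (by norm_num)
  obtain ⟨e, he⟩ := exists_app_tot (ci_bit.2 (hX.trans (tr_iff.1 h3)))
  have hF2 : CI (orc (bit C)) F := hF.of_empty
  have hC := CI.self (bit C)
  have hg2 := hg (orc (bit C))
  obtain ⟨g, g1, g2⟩ := CI.exists_choice (O := orc (bit C)) (p := fun (n : ℕ) (q : ℕ × ℕ) =>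
    decide (q.1 ≤ q.2) && ((List.range (Nat.pair e n).factorial).all fun m =>
      (U e (pre (bit C) q.1) m).isSome) &&
      (List.range q.1).all fun i => (F (i, q.2)).toNat == bit C i) (by fun_prop) fun n => by
    obtain ⟨k, hk⟩ := ((eventually_all_finset (Finset.range (Nat.pair e n).factorial)).2 fun i _ =>
      mem_app'.1 (he i)).exists
    obtain ⟨s, s1, s2⟩ := ((eventually_ge_atTop k).and ((eventually_all_finset (Finset.range k)).2
      fun i _ => show ∀ᶠ s in atTop, D i s = C i by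
        cases hi : C i
        · exact .of_forall fun s => Bool.eq_false_iff.2 fun h => by simp [(eD i).2 ⟨s, h⟩] at hi
        · obtain ⟨s, hs⟩ := (eD i).1 hi
          exact (eventually_ge_atTop s).mono fun t ht => hm _ _ _ ht hs)).exists
    exact ⟨(k, s), by simp_all [bit]⟩
  obtain ⟨n, n1, n2⟩ := ((not_eventually.1 fun h => hc ⟨fun n => (g n).2,
    g1.snd.trans (ci_bit.2 (tr_iff.1 h2)), h⟩).and_eventually (eventually_ge_atTop N)).exists
  refine ⟨Nat.pair e n, n2.trans (Nat.right_le_pair _ _), fun m hm' => ?_⟩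
  have g3 := g2 n
  have n3 : (g n).2 < f n := not_le.1 n1
  simp only [Bool.and_eq_true, decide_eq_true_eq, List.all_eq_true, List.mem_range, beq_iff_eq,
    Option.isSome_iff_exists] at g3
  obtain ⟨v, hv⟩ := g3.1.2 m hm'
  obtain rfl := Part.mem_unique (he m) (mem_app.2 ⟨_, hv⟩)
  have : pre (bit C) (g n).1 <+: pre (fun i => (F (i, f n)).toNat) (f n) := by
    rw [← pre_congr (x := fun i => (F (i, f n)).toNat) fun i hi => ?_]
    · exact pre_pf _ (by omega)
    · have := g3.2 i hi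
      rw [← eF] at this ⊢
      unfold bit at this ⊢
      cases hi : C i
      · exact congrArg _ (Bool.eq_false_iff.2 fun h => by simp [(eD i).2 ⟨_, h⟩] at hi)
      · rw [hm _ _ _ (by omega : (g n).2 ≤ f n) (by rw [hi] at this; simpa using this)]
  simp only [Nat.unpair_pair]
  rw [show U e (List.map _ _) m = _ from U_mon e _ _ _ _ this hv]
  unfold bit
  cases X m <;> rfl

theorem aedom {A : ℕ → Bool} (hA : CEDeg A) (h : Attractive A) : AEDom A :=
  h.mono fun _ hB _ hf => (dom_of hA hB (tr_fun.1 hf)).imp fun _ h => ⟨tr_fun.2 h.1, h.2⟩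

/-! ### the jump -/

theorem jump_ce (X : ℕ → Bool) : ∃ D : ℕ × ℕ → Bool, CI (orc (bit X)) D ∧
    ∀ p, jump X p = true ↔ ∃ t, D (p, t) = true := by
  have hX : CI (orc (bit X)) X := LE.refl X
  refine ⟨fun q => (ev q.1.unpair.1 (encode (q.1.unpair.2, pre X q.2.unpair.1)) q.2.unpair.2).isSome,
    by fun_prop, fun p => ?_⟩
  simp only [jump, decide_eq_true_eq, Part.dom_iff_mem, ev_iff, Option.isSome_iff_exists]
  exact ⟨fun ⟨s, v, t, h⟩ => ⟨Nat.pair s t, v, by simpa [pre] using h⟩, fun ⟨t, v, h⟩ => ⟨_, v, _, h⟩⟩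

theorem jump_dec {α : Type} [Primcodable α] {X : ℕ → Bool} {D : α × ℕ → Bool}
    (hD : CI (orc (bit X)) D) :
    ∃ b : α → Bool, CI (orc (bit (jump X))) b ∧ ∀ a, b a = true ↔ ∃ t, D (a, t) = true := by
  obtain ⟨e, he⟩ := exists_app_tot (x := bit X) (f := fun m =>
    (decode (α := α × ℕ) m).elim 0 fun q => (D q).toNat) (by fun_prop)
  obtain ⟨c, hc⟩ := re_index (re_of_nat (p := fun q : ℕ × List Bool =>
    ∃ t, (U e (q.2.map Bool.toNat) (Nat.pair q.1 t) == some 1) = true)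
    (fun q t => U e (q.2.map Bool.toNat) (Nat.pair q.1 t) == some 1) (by fun_prop) fun _ => Iff.rfl)
  have hJ : CI (orc (bit (jump X))) (jump X) := LE.refl _
  refine ⟨fun a => jump X (Nat.pair c (encode a)), by fun_prop, fun a => ?_⟩
  have h1 : ∀ t, (D (a, t)).toNat ∈ app e (bit X) (Nat.pair (encode a) t) := fun t => by
    simpa using he (encode (a, t))
  have h2 : ∀ s, ((Denumerable.ofNat Nat.Partrec.Code c).eval (encode (encode a, pre X s))).Dom ↔
      ∃ t, U e (pre (bit X) s) (Nat.pair (encode a) t) = some 1 := fun s => by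
    have := hc (encode a, pre X s)
    simp only [beq_iff_eq, map_pre, Option.isSome_iff_exists] at this
    simp only [this, Part.dom_iff_mem, ev_iff]
    exact exists_comm
  simp only [jump, decide_eq_true_eq, Nat.unpair_pair]
  refine (exists_congr h2).trans ⟨fun ⟨s, t, h⟩ => ⟨t, ?_⟩, fun ⟨t, h⟩ => ?_⟩
  · simpa using Part.mem_unique (h1 t) (mem_app.2 ⟨s, h⟩)
  · obtain ⟨s, hs⟩ := mem_app.1 (h1 t)
    exact ⟨s, t, by simpa [h] using hs⟩

theorem jump_mono {X Y : ℕ → Bool} (h : LE X Y) : LE (jump X) (jump Y) := by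
  obtain ⟨D, h1, h2⟩ := jump_ce X
  obtain ⟨b, h3, h4⟩ := jump_dec (h1.trans (ci_bit.2 h))
  exact h3.of_eq fun p => Bool.eq_iff_iff.2 ((h4 p).trans (h2 p).symm)

theorem limit {A S : ℕ → Bool} {a : ℕ × ℕ → Bool} (ha : CI (orc (bit A)) a)
    (h : ∀ e, ∀ᶠ s in atTop, a (e, s) = S e) : LE S (jump A) := by
  obtain ⟨b, h1, h2⟩ := jump_dec (α := ℕ × ℕ × Bool) (X := A)
    (D := fun q => a (q.1.1, q.1.2.1 + q.2) != q.1.2.2) (by fun_prop)
  obtain ⟨f, h3, h4⟩ := CI.exists_choice (p := fun e (q : ℕ × Bool) => !b (e, q)) (by fun_prop)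
    fun e => by
      obtain ⟨s, hs⟩ := eventually_atTop.1 (h e)
      exact ⟨(s, S e), by simpa [← Bool.not_eq_true, h2] using fun t => hs _ (by omega)⟩
  refine h3.snd.of_eq fun e => ?_
  obtain ⟨s, hs⟩ := eventually_atTop.1 (h e)
  have := h4 e
  simp only [Bool.not_eq_true', ← Bool.not_eq_true, h2, bne_iff_ne, not_exists, not_not] at this
  rw [← this s, hs _ (by omega)]

/-- zeros on the block of `(e, v)` -/
def Zr (e v : ℕ) : Set (ℕ → Bool) := {ω | ∀ i < e + 2, ω (Nat.pair (Nat.pair e v) i) = false}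

theorem P_Zr (e : ℕ) {φ : ℕ → ℕ} (hφ : Function.Injective φ) (s : Finset ℕ) :
    P (⋂ n ∈ s, Zr e (φ n)) = (2⁻¹ ^ (e + 2)) ^ s.card := by
  have : ⋂ n ∈ s, Zr e (φ n) = Set.pi ((s ×ˢ Finset.range (e + 2)).image fun q =>
      Nat.pair (Nat.pair e (φ q.1)) q.2) fun _ => {false} := by
    ext ω; simp only [Zr, Set.mem_iInter, Set.mem_setOf_eq, Set.mem_pi, Finset.coe_image,
      Set.forall_mem_image, Finset.mem_coe, Finset.mem_product, Finset.mem_range, Prod.forall,
      Set.mem_singleton_iff]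
    tauto
  rw [this, P, Measure.infinitePi_pi _ fun _ _ => measurableSet_singleton _]
  simp only [uniformOn_univ]
  rw [Finset.prod_const, Finset.card_image_of_injective _ fun a b h => by
    simp only [Nat.pair_eq_pair, true_and] at h
    exact Prod.ext (hφ h.1) h.2]
  simp [← pow_mul, mul_comm]

theorem P_Zr1 (e v : ℕ) : P (Zr e v) = 2⁻¹ ^ (e + 2) := by
  simpa using P_Zr e Function.injective_id {v}

theorem null_Zr (e : ℕ) {V : Set ℕ} (hV : V.Infinite) : P {ω | ∀ v ∈ V, ω ∉ Zr e v} = 0 := by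
  let φ : ℕ → ℕ := fun n => hV.natEmbedding V n
  have hφ : Function.Injective φ := Subtype.val_injective.comp (hV.natEmbedding V).injective
  have hm : ∀ v, MeasurableSet (Zr e v) := fun v => by unfold Zr; measurability
  have h := measure_limsup_eq_one (μ := P) (fun n => hm (φ n))
    ((iIndepSet_iff_meas_biInter fun n => hm (φ n)).2 fun s => by simp [P_Zr e hφ, P_Zr1])
    (by simp only [P_Zr1]; exact ENNReal.tsum_const_eq_top_of_ne_zero (by simp))
  refine measure_mono_null ?_ ((prob_compl_eq_zero_iff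
    (MeasurableSet.measurableSet_limsup fun n => hm (φ n))).2 h)
  intro ω hω hc
  obtain ⟨n, hn⟩ := (mem_limsup_iff_frequently_mem.1 hc).exists
  exact hω _ (hV.natEmbedding V n).2 hn

theorem escape {A : ℕ → Bool} (hA : AEDom A) {J : ℕ × ℕ → ℕ} (hJ : CI ∅ J) :
    ∃ g : ℕ → ℕ, CI (orc (bit A)) g ∧ ∀ e, Tendsto (fun t => J (e, t)) atTop atTop →
      ∀ᶠ s in atTop, ∃ t < g (Nat.pair e s), J (e, s + t) ≠ J (e, s) := by
  have c1 : Countable {g : ℕ → ℕ // CI (orc (bit A)) g} := (countable_ci' _).to_subtype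
  let S : {g : ℕ → ℕ // CI (orc (bit A)) g} × ℕ → Set (ℕ → Bool) := fun q =>
    {B | ∀ e s, q.2 ≤ s → ∃ t < q.1.1 (Nat.pair e s), B ∉ Zr e (J (e, s + t))}
  obtain ⟨⟨g, N⟩, hq⟩ : ∃ q, 0 < P (S q) := exists_measure_pos_of_not_measure_iUnion_null fun h0 => by
    have h1 : P (⋃ e, ⋃ s, {B | ∀ t, B ∈ Zr e (J (e, s + t))}) ≤ 2⁻¹ ^ 1 :=
      (measure_iUnion_le _).trans ((ENNReal.tsum_le_tsum fun e => P_mono_le
        (S := fun s => {B | ∀ t, B ∈ Zr e (J (e, s + t))}) (fun s s' h B hB t => by simpa [show s + (s' - s + t) = s' + t by omega] using hB (s' - s + t))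
        fun s => le_trans (measure_mono fun B hB => by exact hB 0) (P_Zr1 e (J (e, s + 0))).le).trans (geo2 1).le)
    rw [AEDom, coin_eq] at hA
    rw [measure_congr (t := Set.univ) ?_] at h1
    · simp at h1
    filter_upwards [hA, measure_eq_zero_iff_ae_notMem.1 h0] with B b1 b2
    refine eq_true (by_contra fun hc => b2 ?_)
    have hB : CI (orc (bit B)) B := LE.refl B
    have hJ' : CI (orc (bit B)) J := hJ.of_empty
    obtain ⟨f, f1, f2⟩ := CI.exists_choice (O := orc (bit B)) (p := fun n t : ℕ =>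
      (List.range (n.unpair.1 + 2)).any fun i =>
        B (Nat.pair (Nat.pair n.unpair.1 (J (n.unpair.1, n.unpair.2 + t))) i)) (by fun_prop) fun n => by
      by_contra h
      exact hc (Set.mem_iUnion₂.2 ⟨n.unpair.1, n.unpair.2, fun t => by
        simpa [Zr] using not_exists.1 h t⟩)
    obtain ⟨g, g1, g2⟩ := b1 (fun n => f n + 1) (tr_fun.2 (by fun_prop))
    obtain ⟨N, hN⟩ := eventually_atTop.1 g2
    refine Set.mem_iUnion.2 ⟨(⟨g, tr_fun.1 g1⟩, N), fun e s hs =>
      ⟨_, hN _ (hs.trans (Nat.right_le_pair e s)), ?_⟩⟩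
    simpa [Zr] using f2 (Nat.pair e s)
  refine ⟨g.1, g.2, fun e he => by_contra fun hc => hq.ne' (measure_mono_null (fun B hB => ?_)
    (null_Zr e (V := {v | ∃ s, N ≤ s ∧ v = J (e, s) ∧
      ∀ t < g.1 (Nat.pair e s), J (e, s + t) = J (e, s)}) ?_))⟩
  · rintro _ ⟨s, h1, rfl, h2⟩
    obtain ⟨t, h3, h4⟩ := hB e s h1
    exact h2 t h3 ▸ h4
  · refine Set.infinite_of_not_bddAbove ?_
    rintro ⟨M, hM⟩
    obtain ⟨s, h1, h2, h3⟩ := ((not_eventually.1 hc).and_eventually
      ((eventually_ge_atTop N).and (he.eventually_gt_atTop M))).exists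
    exact h3.not_ge (hM ⟨s, h2, rfl, by simpa using h1⟩)

theorem high_of {A : ℕ → Bool} (hA : AEDom A) : LE (jump (jump fun _ => false)) (jump A) := by
  obtain ⟨D0, a1, a2⟩ := jump_ce fun _ => false
  obtain ⟨b, b1, b2⟩ := ci_K (re_of_nat (fun p t => D0 (p, t))
    (a1.trans (O := ∅) (by unfold bit; fun_prop)) a2)
  obtain ⟨D, d1, d2⟩ := jump_ce (jump fun _ => false)
  obtain ⟨R, r1, r2⟩ := post (fun p t => D (p, t)) (d1.trans (ci_bit.2 (b1.of_eq fun p =>
    Bool.eq_iff_iff.2 (b2 p).symm))) d2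
  let J : ℕ × ℕ → ℕ := fun q =>
    ((List.range q.2).find? fun v => (List.range q.2).all fun b => R (q.1, v, b)).getD q.2
  have hJ : CI ∅ J := by simp only [J]; fun_prop
  obtain ⟨g, g1, g2⟩ := escape hA hJ
  have ref : ∀ e V, (∀ v < V, ¬ ∀ b, R (e, v, b) = true) → ∀ᶠ t in atTop, ∀ v < V,
      ¬ ((List.range t).all fun b => R (e, v, b)) = true := fun e V h => by
    refine ((eventually_all_finset (Finset.range V)).2 fun v hv => ?_).mono fun t ht v hv =>
      ht v (Finset.mem_range.2 hv)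
    obtain ⟨b, hb⟩ := not_forall.1 (h v (Finset.mem_range.1 hv))
    exact (eventually_gt_atTop b).mono fun t ht h => hb (List.all_eq_true.1 h b (List.mem_range.2 ht))
  have j1 : ∀ e, (∃ c, ∀ b, R (e, c, b) = true) → ∃ c, ∀ᶠ t in atTop, J (e, t) = c := fun e h => by
    classical
    refine ⟨Nat.find h, ?_⟩
    filter_upwards [ref e _ fun v => Nat.find_min h, eventually_gt_atTop (Nat.find h)] with t h1 h2
    simp only [J]
    rw [List.find?_range_eq_some.2 ⟨by simp [Nat.find_spec h], List.mem_range.2 h2, fun v hv => by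
      simpa using h1 v hv⟩]; rfl
  have j2 : ∀ e, (¬ ∃ c, ∀ b, R (e, c, b) = true) → Tendsto (fun t => J (e, t)) atTop atTop :=
    fun e h => tendsto_atTop.2 fun V => by
    filter_upwards [ref e V fun v _ hv => h ⟨v, hv⟩, eventually_ge_atTop V] with t h1 h2
    simp only [J]
    cases hf : (List.range t).find? fun v => (List.range t).all fun b => R (e, v, b)
    · exact h2
    · have := List.find?_some hf
      exact le_of_not_gt fun hc => h1 _ hc this
  have hJ' : CI (orc (bit A)) J := hJ.of_empty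
  clear_value J
  refine limit (a := fun q => (List.range (g (Nat.pair q.1 q.2))).all fun t =>
    J (q.1, q.2 + t) == J q) (by fun_prop) fun e => ?_
  by_cases h : ∃ c, ∀ b, R (e, c, b) = true
  · obtain ⟨c, hc⟩ := j1 e h
    obtain ⟨N, hN⟩ := eventually_atTop.1 hc
    refine (eventually_ge_atTop N).mono fun s hs => ?_
    simp [(r2 e).2 h, hN s hs, fun t => hN (s + t) (by omega)]
  · refine (g2 e (j2 e h)).mono fun s hs => ?_
    rw [Bool.eq_false_iff.2 (mt (r2 e).1 h)]
    simpa using hs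

theorem high {A : ℕ → Bool} (hA : CEDeg A) (h : Attractive A) :
    TuringEquivalent (ora (jump A)) (ora (jump (jump fun _ => false))) := by
  refine ⟨tr_iff.2 (jump_mono ?_), tr_iff.2 (high_of (aedom hA h))⟩
  obtain ⟨C, h1, -, h3⟩ := hA
  obtain ⟨D, hD, -, eD⟩ := re_stage h1
  obtain ⟨b, b1, b2⟩ := jump_dec (X := fun _ => false) hD.of_empty
  exact (tr_iff.1 h3).trans (b1.of_eq fun n => Bool.eq_iff_iff.2 ((b2 n).trans (eD n).symm))

end Pool.Agent.H37.Attr
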