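import Pool.Agent.H37.BlmDefs
import Pool.Agent.H37.RE

namespace Pool.Agent.H37.Blm

open Nat.Partrec Nat.Partrec.Code Encodable

def lf (i x : ℕ) : ℕ := if x = 0 then 0 else (Denumerable.ofNat (List ℕ) i).getD x 0

def E (n x s : ℕ) : Option ℕ :=
  if n % 3 = 0 then ev (n / 3) x s
  else if n % 3 = 1 then some (lf (n / 3) x)
  else if Kst (n / 3) x = true then none else some (n / 3 + 1)

@[fun_prop] theorem ci_E {α : Type} [Primcodable α] {n x s : α → ℕ} (hn : CI ∅ n) (hx : CI ∅ x)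
    (hs : CI ∅ s) : CI ∅ fun a => E (n a) (x a) (s a) := by
  unfold E lf
  refine CI.ite (by fun_prop) (by fun_prop) (CI.ite (by fun_prop) ?_ (CI.ite ?_ (by fun_prop)
    (by fun_prop)))
  · exact CI.some (CI.ite (by fun_prop) (by fun_prop) (by fun_prop))
  · simp only [Bool.decide_eq_true]; fun_prop

theorem E_mono {n x s t v : ℕ} (h : s ≤ t) (hv : E n x s = some v) : E n x t = some v := by
  unfold E at *
  split_ifs at * <;> first | exact ev_mono h hv | exact hv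

theorem E_unique {n x s t v w : ℕ} (hv : E n x s = some v) (hw : E n x t = some w) : v = w := by
  have h1 := E_mono (le_max_left s t) hv
  have h2 := E_mono (le_max_right s t) hw
  rw [h1] at h2; exact Option.some.inj h2

def ph (n : ℕ) : ℕ →. ℕ := fun x => Nat.rfindOpt (E n x)
def Ph (n : ℕ) : ℕ →. ℕ := fun x => Nat.rfind fun s => Part.some (E n x s).isSome

theorem mem_ph {n x v : ℕ} : v ∈ ph n x ↔ ∃ s, E n x s = some v :=
  Nat.rfindOpt_mono fun h hv => E_mono h hv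

theorem dom_ph {n x : ℕ} : (ph n x).Dom ↔ ∃ s v, E n x s = some v := by
  rw [Part.dom_iff_mem]
  simp only [mem_ph]
  exact exists_comm

theorem mem_Ph {n x y : ℕ} : y ∈ Ph n x ↔
    (E n x y).isSome = true ∧ ∀ s < y, (E n x s).isSome = false := by
  unfold Ph
  rw [Nat.mem_rfind]
  simp only [Part.mem_some_iff]
  exact ⟨fun h => ⟨h.1.symm, fun s hs => (h.2 hs).symm⟩,
    fun h => ⟨h.1.symm, fun hs => (h.2 _ hs).symm⟩⟩

theorem Ph_le {n x b : ℕ} : (∃ y ∈ Ph n x, y ≤ b) ↔ ∃ v, E n x b = some v := by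
  constructor
  · rintro ⟨y, hy, hb⟩
    obtain ⟨v, hv⟩ := Option.isSome_iff_exists.1 (mem_Ph.1 hy).1
    exact ⟨v, E_mono hb hv⟩
  · rintro ⟨v, hv⟩
    have hex : ∃ s, (E n x s).isSome = true := ⟨b, by simp [hv]⟩
    exact ⟨Nat.find hex, mem_Ph.2 ⟨Nat.find_spec hex, fun s hs => by
      simpa using Nat.find_min hex hs⟩, Nat.find_min' hex (by simp [hv])⟩

theorem ph_three (e : ℕ) : ph (3 * e) = eval (Denumerable.ofNat Code e) := by
  funext x
  apply Part.ext
  intro v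
  rw [mem_ph, ev_iff]
  simp [E]

theorem smn {F : ℕ → ℕ →. ℕ} (hF : Partrec fun p : ℕ × ℕ => F p.1 p.2) :
    ∃ h : ℕ → ℕ, Computable h ∧ Function.Injective h ∧
      ∀ i, F i = eval (Denumerable.ofNat Code (h i)) := by
  have h1 : Partrec fun n : ℕ => F n.unpair.1 n.unpair.2 :=
    hF.comp (g := fun n : ℕ => (n.unpair.1, n.unpair.2))
      (CI.computable (by fun_prop))
  obtain ⟨c, hc⟩ := exists_code.1 (Partrec.nat_iff.1 h1)
  refine ⟨fun i => encode (curry c i), CI.computable (by fun_prop), fun i j h => ?_, fun i => ?_⟩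
  · exact (curry_inj (encode_injective h)).2
  · funext x
    rw [Denumerable.ofNat_encode, eval_curry, hc]; simp

def B0 : Blum where
  φ := ph
  Φ := Ph
  toStd := by
    obtain ⟨h, h1, -, h2⟩ := smn (F := ph) (partrec_of_ri (RI.rfindOpt
      (f := fun p : ℕ × ℕ => E p.1 p.2) (by fun_prop)))
    exact ⟨h, h1, h2⟩
  ofStd := ⟨fun e => 3 * e, CI.computable (by fun_prop), fun e => (ph_three e).symm⟩
  partrec := fun i => partrec_of_ri (RI.rfind (p := fun x s => Part.some (E i x s).isSome)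
    (CI.ri (by fun_prop)))
  dom := fun i x => by
    rw [dom_ph, Part.dom_iff_mem]
    constructor
    · rintro ⟨y, hy⟩
      exact ⟨y, Ph_le.1 ⟨y, hy, le_rfl⟩⟩
    · rintro ⟨s, h⟩
      obtain ⟨y, hy, -⟩ := Ph_le.2 h
      exact ⟨y, hy⟩
  dec := computablePred_of (fun p : ℕ × ℕ × ℕ => (E p.1 p.2.1 p.2.2).isSome &&
      (List.range p.2.2).all fun s => !(E p.1 p.2.1 s).isSome)
    (CI.and (by fun_prop) (CI.all (by fun_prop) (by fun_prop))) fun p => by
      rw [mem_Ph]; simp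

theorem mem_cls {t : ℕ → ℕ} {f : ℕ →. ℕ} : f ∈ B0.cls t ↔
    ∃ j, f = ph j ∧ (∀ x, ∃ s v, E j x s = some v) ∧ ∃ m, ∀ x ≥ m, ∃ v, E j x (t x) = some v := by
  show (∃ j, f = ph j ∧ (∀ x, (ph j x).Dom) ∧ ∃ m, ∀ x ≥ m, ∃ y ∈ Ph j x, y ≤ t x) ↔ _
  simp only [dom_ph, Ph_le]

theorem ph_eq {j : ℕ} {v : ℕ → ℕ} (h : ∀ z, ∃ s, E j z s = some (v z)) :
    ph j = fun z => Part.some (v z) := by
  funext z
  exact Part.eq_some_iff.2 (mem_ph.2 (h z))

theorem zero_mem (t : ℕ → ℕ) (v : ℕ → ℕ) (h0 : v 0 = 0) (N : ℕ) (hN : ∀ x ≥ N, v x = 0) :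
    (fun z => Part.some (v z) : ℕ →. ℕ) ∈ B0.cls t := by
  have key : ∀ z s, E (3 * encode ((List.range N).map v) + 1) z s = some (v z) := by
    intro z s
    have h1 : (3 * encode ((List.range N).map v) + 1) % 3 = 1 := by omega
    have h2 : (3 * encode ((List.range N).map v) + 1) / 3 = encode ((List.range N).map v) := by
      omega
    simp only [E, h1, h2, lf, Denumerable.ofNat_encode]
    by_cases hz : z = 0
    · simp [hz, h0]
    · by_cases hzN : z < N
      · simp [hz, hzN]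
      · simp [hz, hN z (by omega), List.getElem?_eq_none (l := List.range N) (i := z)
          (by simpa using hzN)]
  exact mem_cls.2 ⟨_, (ph_eq fun z => ⟨0, key z 0⟩).symm, fun x => ⟨0, _, key x 0⟩, 0,
    fun x _ => ⟨_, key x _⟩⟩

theorem not_re : ¬ B0.REClass (B0.cls fun _ => 0) := by
  rintro (h | ⟨g, hg, h⟩)
  · have := zero_mem (fun _ => 0) (fun _ => 0) rfl 0 (fun _ _ => rfl)
    rw [h] at this; exact this
  have hg' : CI ∅ g := CI.of_comp hg
  refine K_not_coRE (re_of_exists (fun e (p : ℕ × ℕ) => E (g p.1) 0 p.2 == some (e + 1))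
    (by fun_prop) fun e => ?_)
  constructor
  · intro hk
    have key : ∀ z s, E (3 * e + 2) z s = some (e + 1) := by
      intro z s
      have h1 : (3 * e + 2) % 3 = 2 := by omega
      have h2 : (3 * e + 2) / 3 = e := by omega
      have h3 : ¬ Kst e z = true := fun h => hk ⟨z, h⟩
      simp [E, h1, h2, h3]
    have : ph (3 * e + 2) ∈ B0.cls fun _ => 0 :=
      mem_cls.2 ⟨_, rfl, fun x => ⟨0, _, key x 0⟩, 0, fun x _ => ⟨_, key x _⟩⟩
    rw [h] at this
    obtain ⟨n, hn⟩ := this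
    have h1 : e + 1 ∈ ph (g n) 0 := by
      have : e + 1 ∈ ph (3 * e + 2) 0 := mem_ph.2 ⟨0, key 0 0⟩
      rw [hn] at this; exact this
    obtain ⟨s, hs⟩ := mem_ph.1 h1
    exact ⟨(n, s), by simp [hs]⟩
  · rintro ⟨⟨n, s⟩, hs⟩ ⟨x, hx⟩
    have hs' : E (g n) 0 s = some (e + 1) := by simpa using hs
    have : ph (g n) ∈ B0.cls fun _ => 0 := by rw [h]; exact ⟨n, rfl⟩
    obtain ⟨j, hj, ht, m, hm⟩ := mem_cls.1 this
    have h1 : e + 1 ∈ ph j 0 := by rw [← hj]; exact mem_ph.2 ⟨s, hs'⟩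
    obtain ⟨s', h1⟩ := mem_ph.1 h1
    obtain ⟨v, hv⟩ := hm m le_rfl
    obtain ⟨s2, v2, h2⟩ := ht x
    unfold E at h1 hv h2
    by_cases c0 : j % 3 = 0
    · simp [c0, ev, evaln] at hv
    by_cases c1 : j % 3 = 1
    · simp [c1, lf] at h1
    simp only [c0, c1, if_false] at h1 h2
    split_ifs at h1 h2 with c2 c3
    have : j / 3 = e := by simpa using h1
    rw [this] at c3; exact c3 hx

end Pool.Agent.H37.Blm
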