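import Pool.Agent.H37.Blm1

namespace Pool.Agent.H37.Blm

open Nat.Partrec Nat.Partrec.Code Encodable

def Rb (t v : ℕ → ℕ) (p z : ℕ) : Bool :=
  E p.unpair.1 z (if p.unpair.2.unpair.1 ≤ z then t z else p.unpair.2.unpair.2) == some (v z)

def Ab (t v : ℕ → ℕ) (p y : ℕ) : Bool :=
  (List.range (p + 1)).all fun q => (List.range y).any fun z => !Rb t v q z

def fire (t v : ℕ → ℕ) (x : ℕ) : Bool :=
  Ab t v x.unpair.1 (x.unpair.2 + 1) && !Ab t v x.unpair.1 x.unpair.2

def dg (t : ℕ → ℕ) (x : ℕ) : ℕ :=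
  ((List.range (x + 1)).map fun j => (E j x (t x)).getD 0).sum + 1

def out (t₁ t₂ v : ℕ → ℕ) (x : ℕ) : ℕ :=
  if x = 0 then 0 else cond (fire t₁ v x) (dg t₂ x) 0

def conv (i x s : ℕ) : Bool := (List.range (x + 1)).all fun z => (E i z s).isSome

def FF (t₁ t₂ : ℕ → ℕ) (i : ℕ) : ℕ →. ℕ := fun x =>
  (Nat.rfind fun s => Part.some (conv i x s)).map fun s =>
    out t₁ t₂ (fun z => (E i z s).getD 0) x

theorem FF_partrec {t₁ t₂ : ℕ → ℕ} (h1 : CI ∅ t₁) (h2 : CI ∅ t₂) :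
    Partrec fun p : ℕ × ℕ => FF t₁ t₂ p.1 p.2 := by
  refine partrec_of_ri (RI.map (RI.rfind (p := fun (p : ℕ × ℕ) s => Part.some (conv p.1 p.2 s))
    (CI.ri ?_)) ?_)
  · unfold conv
    exact CI.all (by fun_prop) (by fun_prop)
  · have hA : CI ∅ fun a : (ℕ × ℕ) × ℕ × ℕ =>
        Ab t₁ (fun z => (E a.1.1 z a.1.2).getD 0) a.2.1 a.2.2 := by
      unfold Ab Rb
      refine CI.all (by fun_prop) (CI.any (by fun_prop) (CI.not (CI.beq (ci_E (by fun_prop)
        (by fun_prop) (CI.ite (by fun_prop) (by fun_prop) (by fun_prop))) (by fun_prop))))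
    unfold out fire dg
    refine CI.ite (by fun_prop) (by fun_prop) (CI.cond (CI.and ?_ (CI.not ?_)) ?_ (by fun_prop))
    · exact hA.comp (g := fun p : (ℕ × ℕ) × ℕ =>
        ((p.1.1, p.2), (p.1.2.unpair.1, p.1.2.unpair.2 + 1))) (by fun_prop)
    · exact hA.comp (g := fun p : (ℕ × ℕ) × ℕ =>
        ((p.1.1, p.2), (p.1.2.unpair.1, p.1.2.unpair.2))) (by fun_prop)
    · exact CI.add (CI.sum (CI.map (by fun_prop) (by fun_prop))) (by fun_prop)

theorem Ab_iff {t v : ℕ → ℕ} {p y : ℕ} :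
    Ab t v p y = true ↔ ∀ q ≤ p, ∃ z < y, Rb t v q z = false := by
  simp [Ab, Nat.lt_succ_iff]

theorem Ab_congr {t v v' : ℕ → ℕ} {p y : ℕ} (h : ∀ z < y, v z = v' z) :
    Ab t v p y = Ab t v' p y := by
  rw [Bool.eq_iff_iff, Ab_iff, Ab_iff]
  refine forall₂_congr fun q _ => exists_congr fun z => and_congr_right fun hz => ?_
  simp only [Rb, h z hz]

theorem out_congr {t₁ t₂ v v' : ℕ → ℕ} {x : ℕ} (h : ∀ z ≤ x, v z = v' z) :
    out t₁ t₂ v x = out t₁ t₂ v' x := by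
  have := Nat.unpair_right_le x
  unfold out fire
  rw [Ab_congr (v := v) (v' := v') fun z hz => h z (by omega),
    Ab_congr (v := v) (v' := v') (y := x.unpair.2) fun z hz => h z (by omega)]

theorem stage {i : ℕ} {v : ℕ → ℕ} (h : ∀ z, ∃ s, E i z s = some (v z)) (m : ℕ) :
    ∃ s, ∀ z < m, E i z s = some (v z) := by
  induction m with
  | zero => exact ⟨0, by simp⟩
  | succ m ih =>
    obtain ⟨s, hs⟩ := ih
    obtain ⟨s', hs'⟩ := h m
    refine ⟨max s s', fun z hz => ?_⟩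
    rcases Nat.lt_succ_iff_lt_or_eq.1 hz with hz | rfl
    · exact E_mono (le_max_left _ _) (hs z hz)
    · exact E_mono (le_max_right _ _) hs'

theorem FF_total {t₁ t₂ : ℕ → ℕ} {i : ℕ} {v : ℕ → ℕ} (h : ∀ z, ∃ s, E i z s = some (v z)) :
    FF t₁ t₂ i = fun x => Part.some (out t₁ t₂ v x) := by
  funext x
  obtain ⟨s, hs⟩ := stage h (x + 1)
  have hex : ∃ s, conv i x s = true := ⟨s, by
    simp only [conv, List.all_eq_true, List.mem_range]
    intro z hz; simp [hs z hz]⟩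
  apply Part.eq_some_iff.2
  refine (Part.mem_map_iff _).2 ⟨Nat.find hex, Nat.mem_rfind.2 ⟨?_, fun {m} hm => ?_⟩, ?_⟩
  · simp [Nat.find_spec hex]
  · simpa using Nat.find_min hex hm
  · apply out_congr
    intro z hz
    have h1 := Nat.find_spec hex
    generalize Nat.find hex = s0 at h1 ⊢
    simp only [conv, List.all_eq_true, List.mem_range] at h1
    obtain ⟨w, hw⟩ := Option.isSome_iff_exists.1 (h1 z (by omega))
    obtain ⟨s', hs'⟩ := h z
    rw [hw, E_unique hw hs']; rfl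

theorem FF_dom {t₁ t₂ : ℕ → ℕ} {i x : ℕ} (h : (FF t₁ t₂ i x).Dom) : ∃ s v, E i x s = some v := by
  obtain ⟨y, hy⟩ := Part.dom_iff_mem.1 h
  obtain ⟨s, hs, -⟩ := (Part.mem_map_iff _).1 hy
  have h1 := (Nat.mem_rfind.1 hs).1
  have h2 : conv i x s = true := by simpa using h1
  simp only [conv, List.all_eq_true, List.mem_range] at h2
  exact ⟨s, Option.isSome_iff_exists.1 (h2 x (by omega))⟩

theorem cls_iff (t v : ℕ → ℕ) :
    (fun z => Part.some (v z) : ℕ →. ℕ) ∈ B0.cls t ↔ ∃ p, ∀ z, Rb t v p z = true := by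
  refine mem_cls.trans ?_
  constructor
  · rintro ⟨j, hj, -, m, hm⟩
    have hv : ∀ z, ∃ s, E j z s = some (v z) := fun z => mem_ph.1 (by rw [← hj]; simp)
    obtain ⟨s, hs⟩ := stage hv m
    refine ⟨Nat.pair j (Nat.pair m s), fun z => ?_⟩
    simp only [Rb, Nat.unpair_pair, beq_iff_eq]
    split_ifs with hz
    · obtain ⟨w, hw⟩ := hm z hz
      obtain ⟨s', hs'⟩ := hv z
      rw [hw, E_unique hw hs']
    · exact hs z (by omega)
  · rintro ⟨p, hp⟩
    simp only [Rb, beq_iff_eq] at hp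
    refine ⟨p.unpair.1, (ph_eq fun z => ⟨_, hp z⟩).symm, fun z => ⟨_, _, hp z⟩,
      p.unpair.2.unpair.1, fun z hz => ⟨v z, ?_⟩⟩
    have := hp z
    rwa [if_pos hz] at this

theorem Ab_mono {t v : ℕ → ℕ} {p y y' : ℕ} (h : y ≤ y') (H : Ab t v p y = true) :
    Ab t v p y' = true := by
  rw [Ab_iff] at *
  intro q hq
  obtain ⟨z, hz, e⟩ := H q hq
  exact ⟨z, by omega, e⟩

theorem fire_fin {t v : ℕ → ℕ} {p : ℕ} (hp : ∀ z, Rb t v p z = true) :
    ∃ N, ∀ x ≥ N, fire t v x = false := by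
  have hf : {x | fire t v x = true}.Finite := by
    refine Set.Finite.of_finite_image (f := fun x => x.unpair.1)
      ((Set.finite_lt_nat p).subset ?_) ?_
    · rintro _ ⟨x, hx, rfl⟩
      simp only [fire, Set.mem_setOf_eq, Bool.and_eq_true] at hx
      by_contra hlt
      obtain ⟨z, -, e⟩ := Ab_iff.1 hx.1 p (by simpa using hlt)
      rw [hp z] at e; cases e
    · intro x hx y hy e
      simp only [fire, Set.mem_setOf_eq, Bool.and_eq_true, Bool.not_eq_true'] at hx hy e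
      have : x.unpair.2 = y.unpair.2 := by
        rcases lt_trichotomy x.unpair.2 y.unpair.2 with h | h | h
        · have := Ab_mono (show x.unpair.2 + 1 ≤ y.unpair.2 from h) hx.1
          rw [e, hy.2] at this; cases this
        · exact h
        · have := Ab_mono (show y.unpair.2 + 1 ≤ x.unpair.2 from h) hy.1
          rw [← e, hx.2] at this; cases this
      rw [← Nat.pair_unpair x, ← Nat.pair_unpair y, e, this]
  obtain ⟨N, hN⟩ := hf.bddAbove
  refine ⟨N + 1, fun x hx => ?_⟩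
  by_contra h
  have : x ≤ N := hN (by simpa using h)
  omega

theorem fire_inf {t v : ℕ → ℕ} (hp : ∀ p, ∃ z, Rb t v p z = false) (p : ℕ) :
    ∃ x ≥ p, fire t v x = true := by
  have hex : ∃ y, Ab t v p y = true := by
    choose z hz using hp
    refine ⟨(Finset.range (p + 1)).sup z + 1, Ab_iff.2 fun q hq => ⟨z q, ?_, hz q⟩⟩
    exact Nat.lt_succ_of_le (Finset.le_sup (f := z) (Finset.mem_range.2 (by omega)))
  have h0 : Nat.find hex ≠ 0 := by
    intro h
    have := Nat.find_spec hex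
    rw [h, Ab_iff] at this
    obtain ⟨z, hz, -⟩ := this 0 (by omega)
    omega
  obtain ⟨y, hy⟩ := Nat.exists_eq_succ_of_ne_zero h0
  refine ⟨Nat.pair p y, Nat.left_le_pair _ _, ?_⟩
  have h1 := Nat.find_spec hex
  have h2 := Nat.find_min hex (m := y) (by omega)
  rw [hy] at h1
  simp only [fire, Nat.unpair_pair, Bool.and_eq_true, Bool.not_eq_true']
  exact ⟨h1, by simpa using h2⟩

theorem out_mem (t₁ t₂ v : ℕ → ℕ) :
    (fun z => Part.some (v z) : ℕ →. ℕ) ∈ B0.cls t₁ ↔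
      (fun x => Part.some (out t₁ t₂ v x) : ℕ →. ℕ) ∈ B0.cls t₂ := by
  refine (cls_iff _ _).trans ?_
  constructor
  · rintro ⟨p, hp⟩
    obtain ⟨N, hN⟩ := fire_fin hp
    exact zero_mem t₂ _ (by simp [out]) N fun x hx => by simp [out, hN x hx]
  · intro h
    by_contra hn
    push Not at hn
    obtain ⟨j, hj, -, m, hm⟩ := mem_cls.1 h
    obtain ⟨x, hx, hf⟩ := fire_inf (t := t₁) (v := v) (fun p => by simpa using hn p) (m + j + 1)
    obtain ⟨w, hw⟩ := hm x (by omega)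
    have h1 : out t₁ t₂ v x ∈ ph j x := by rw [← hj]; simp
    obtain ⟨s, hs⟩ := mem_ph.1 h1
    have h2 := E_unique hw hs
    have h3 : x ≠ 0 := by omega
    have h4 : w ≤ ((List.range (x + 1)).map fun j => (E j x (t₂ x)).getD 0).sum :=
      List.le_sum_of_mem (List.mem_map.2 ⟨j, List.mem_range.2 (by omega), by simp [hw]⟩)
    simp only [out, h3, if_false, hf, cond_true, dg] at h2
    omega

theorem reduce {t₁ t₂ : ℕ → ℕ} (h1 : Computable t₁) (h2 : Computable t₂) :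
    OneOneReducible (B0.idx t₁) (B0.idx t₂) := by
  obtain ⟨h, hc, hi, he⟩ := smn (FF_partrec (CI.of_comp h1) (CI.of_comp h2))
  have hc' : CI ∅ h := CI.of_comp hc
  refine ⟨fun i => 3 * h i, CI.computable (by fun_prop), fun i j e => hi (by simpa using e),
    fun i => ?_⟩
  show ph i ∈ B0.cls t₁ ↔ ph (3 * h i) ∈ B0.cls t₂
  rw [ph_three, ← he]
  by_cases ht : ∀ z, ∃ v s, E i z s = some v
  · choose v hv using ht
    rw [ph_eq hv, FF_total hv]
    exact out_mem t₁ t₂ v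
  · constructor
    · intro H
      obtain ⟨j, hj, hd, -⟩ := mem_cls.1 H
      refine absurd (fun z => ?_) ht
      have : (ph i z).Dom := by rw [hj]; exact dom_ph.2 (hd z)
      obtain ⟨s, v, e⟩ := dom_ph.1 this
      exact ⟨v, s, e⟩
    · intro H
      obtain ⟨j, hj, hd, -⟩ := mem_cls.1 H
      refine absurd (fun z => ?_) ht
      have : (FF t₁ t₂ i z).Dom := by rw [hj]; exact dom_ph.2 (hd z)
      obtain ⟨s, v, e⟩ := FF_dom this
      exact ⟨v, s, e⟩

end Pool.Agent.H37.Blm
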