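import Mathlib

/-! Blum measures, complexity classes, conformity. -/

namespace Pool.Agent.H37.Blm

open Nat.Partrec

/-- A Blum measure: an acceptable numbering `φ` of the unary partial recursive functions
(computable translations to and from the standard numbering) with step-counting functions `Φ`. -/
structure Blum where
  φ : ℕ → ℕ →. ℕ
  Φ : ℕ → ℕ →. ℕ
  toStd : ∃ f : ℕ → ℕ, Computable f ∧ ∀ i, φ i = Code.eval (Denumerable.ofNat Code (f i))
  ofStd : ∃ g : ℕ → ℕ, Computable g ∧ ∀ e, Code.eval (Denumerable.ofNat Code e) = φ (g e)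
  partrec : ∀ i, Partrec (Φ i)
  dom : ∀ i x, (Φ i x).Dom ↔ (φ i x).Dom
  dec : ComputablePred fun p : ℕ × ℕ × ℕ => p.2.2 ∈ Φ p.1 p.2.1

namespace Blum

/-- The complexity class `Φ(t)`. -/
def cls (B : Blum) (t : ℕ → ℕ) : Set (ℕ →. ℕ) :=
  {f | ∃ i, f = B.φ i ∧ (∀ x, (B.φ i x).Dom) ∧ ∃ m, ∀ x ≥ m, ∃ y ∈ B.Φ i x, y ≤ t x}

/-- The index set of `Φ(t)`. -/
def idx (B : Blum) (t : ℕ → ℕ) (i : ℕ) : Prop := B.φ i ∈ B.cls t

/-- All nonempty classes have one-one equivalent index sets. -/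
def Conform (B : Blum) : Prop :=
  ∀ t₁ t₂ : ℕ → ℕ, Computable t₁ → Computable t₂ → (B.cls t₁).Nonempty → (B.cls t₂).Nonempty →
    OneOneEquiv (B.idx t₁) (B.idx t₂)

/-- Recursively enumerable classes of functions. -/
def REClass (B : Blum) (C : Set (ℕ →. ℕ)) : Prop :=
  C = ∅ ∨ ∃ g : ℕ → ℕ, Computable g ∧ C = {f | ∃ n, f = B.φ (g n)}

end Blum

end Pool.Agent.H37.Blm
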