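import Mathlib

/-! Sylvester sequence, levels and the weight function for bin packing. -/

open Finset

namespace Pool.Agent.H37.Bp

def ts : ℕ → ℕ
  | 0 => 2
  | i + 1 => ts i * (ts i - 1) + 1

lemma ts_ge (i : ℕ) : 2 ≤ ts i := by
  induction i with
  | zero => exact le_rfl
  | succ i ih =>
    have : 2 * 1 ≤ ts i * (ts i - 1) := Nat.mul_le_mul ih (by omega)
    simp only [ts]; omega

noncomputable def T (i : ℕ) : ℝ := ts i

noncomputable def s (i : ℕ) : ℝ := 1 / (T i - 1)

lemma T_ge (i : ℕ) : 2 ≤ T i := by unfold T; exact_mod_cast ts_ge i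

lemma T_pos (i : ℕ) : 0 < T i := by linarith [T_ge i]

lemma T_succ (i : ℕ) : T (i + 1) = T i * (T i - 1) + 1 := by
  unfold T; simp only [ts]
  rw [Nat.cast_add, Nat.cast_mul, Nat.cast_sub (by linarith [ts_ge i])]; simp

lemma T_zero : T 0 = 2 := by simp [T, ts]

lemma T_mono : Monotone T := monotone_nat_of_le_succ fun i => by
  rw [T_succ]; nlinarith [T_ge i]

lemma T_seven {i : ℕ} (h : 2 ≤ i) : 7 ≤ T i := by
  have : T 2 = 7 := by simp [T, ts]
  exact this ▸ T_mono h

lemma T_three {l n : ℕ} (h : 2 ≤ l) (h' : l < n) : 3 * T l ≤ T n := by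
  refine le_trans ?_ (T_mono h')
  rw [T_succ]; nlinarith [T_seven h]

lemma s_pos (i : ℕ) : 0 < s i := by unfold s; have := T_ge i; apply div_pos <;> linarith

lemma s_zero : s 0 = 1 := by rw [s, T_zero]; norm_num

lemma s_mul (i : ℕ) : s i * (T i - 1) = 1 := by
  unfold s; have := T_ge i; field_simp [show T i - 1 ≠ 0 by linarith]

lemma s_succ (i : ℕ) : s (i + 1) = s i * (1 / T i) := by
  unfold s; rw [T_succ]
  have := T_ge i
  field_simp [show T i - 1 ≠ 0 by linarith]; ring

lemma s_sub (i : ℕ) : s i = 1 / T i + s (i + 1) := by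
  rw [s_succ]; unfold s
  have := T_ge i
  field_simp [show T i - 1 ≠ 0 by linarith]; ring

lemma inv_le (i : ℕ) : 1 / T i ≤ 1 / 2 := one_div_le_one_div_of_le (by norm_num) (T_ge i)

lemma inv_pos' (i : ℕ) : 0 < 1 / T i := one_div_pos.mpr (T_pos i)

lemma s_anti : Antitone s := antitone_nat_of_succ_le fun i => by
  have := s_sub i; have := inv_pos' i; linarith

lemma s_le_pow (i : ℕ) : s i ≤ (1 / 2) ^ i := by
  induction i with
  | zero => simp [s_zero]
  | succ i ih =>
    rw [s_succ, pow_succ]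
    exact mul_le_mul ih (inv_le i) (inv_pos' i).le (by positivity)

lemma s_summ : Summable s :=
  Summable.of_nonneg_of_le (fun i => (s_pos i).le) s_le_pow summable_geometric_two

lemma s_six {i : ℕ} (h : 2 ≤ i) : s i ≤ 1 / 6 :=
  one_div_le_one_div_of_le (by norm_num) (by linarith [T_seven h])

lemma s_succ_le (i : ℕ) : s (i + 1) ≤ 1 / T i := by
  rw [s_succ]; exact mul_le_of_le_one_left (inv_pos' i).le (s_zero ▸ s_anti (Nat.zero_le i))

lemma ex_lev {y : ℝ} (hy : 0 < y) : ∃ m, s (m + 1) < y := by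
  obtain ⟨m, hm⟩ := exists_pow_lt_of_lt_one hy (show (1 / 2 : ℝ) < 1 by norm_num)
  exact ⟨m, ((s_anti (Nat.le_succ m)).trans (s_le_pow m)).trans_lt hm⟩

open Classical in
noncomputable def lev (y : ℝ) : ℕ := if h : 0 < y then Nat.find (ex_lev h) else 0

lemma lev_lt {y : ℝ} (hy : 0 < y) : s (lev y + 1) < y := by
  classical
  rw [lev, dif_pos hy]; exact Nat.find_spec (ex_lev hy)

lemma lev_ge {y : ℝ} (hy : 0 < y) {m : ℕ} (h : y ≤ s m) : m ≤ lev y := by
  by_contra hc
  exact absurd ((lev_lt hy).trans_le (h.trans (s_anti (by omega)))) (lt_irrefl _)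

lemma le_lev {y : ℝ} (hy : 0 < y) (h1 : y ≤ 1) : y ≤ s (lev y) := by
  classical
  rcases h : lev y with _ | m
  · rwa [s_zero]
  · rw [lev, dif_pos hy] at h
    exact not_lt.mp (Nat.find_min (ex_lev hy) (by omega))

noncomputable def W (y : ℝ) : ℝ :=
  if 1 / T (lev y) < y then y + s (lev y + 1) else y * (1 + 1 / T (lev y))

lemma W_ge {y : ℝ} (hy : 0 < y) (h1 : y ≤ 1) : y * (1 + 1 / T (lev y)) ≤ W y := by
  unfold W; split_ifs
  · rw [s_succ, mul_add, mul_one]
    have := mul_le_mul_of_nonneg_right (le_lev hy h1) (inv_pos' (lev y)).le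
    linarith
  · exact le_rfl

noncomputable def tail (m : ℕ) : ℝ := ∑' i, s (i + m)

lemma tail_succ (m : ℕ) : tail m = s m + tail (m + 1) := by
  unfold tail
  rw [((summable_nat_add_iff m).mpr s_summ).tsum_eq_zero_add]
  simp only [zero_add, add_assoc, add_comm 1 m]

lemma tail_nonneg (m : ℕ) : 0 ≤ tail m := tsum_nonneg fun _ => (s_pos _).le

lemma W_small {y : ℝ} (hy : 0 < y) {m : ℕ} (h : y ≤ 1 / T m) : W y - y ≤ y * (1 / T m) := by
  have h1 : m ≤ lev y := lev_ge hy (h.trans (by linarith [s_sub m, s_pos (m + 1)]))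
  unfold W; split_ifs with c
  · have h2 : m < lev y := lt_of_le_of_ne h1 fun e => by rw [← e] at c; linarith
    have h3 : s (lev y) ≤ 1 / T m := (s_anti h2).trans (s_succ_le m)
    rw [s_succ, add_sub_cancel_left, mul_comm y]
    exact mul_le_mul h3 c.le (inv_pos' _).le (inv_pos' _).le
  · have : 1 / T (lev y) ≤ 1 / T m := one_div_le_one_div_of_le (T_pos m) (T_mono h1)
    nlinarith

lemma W_sum {ι : Type} [DecidableEq ι] (x : ι → ℝ) (F : Finset ι) :
    (∀ i ∈ F, 0 < x i) → ∀ m, ∑ i ∈ F, x i ≤ s m → ∑ i ∈ F, (W (x i) - x i) ≤ tail (m + 1) := by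
  induction F using Finset.strongInduction with
  | H F ih =>
    intro hx m hm
    by_cases c : ∃ i ∈ F, 1 / T m < x i
    · obtain ⟨i, hi, hc⟩ := c
      rw [← add_sum_erase _ _ hi] at hm ⊢
      have h0 : 0 ≤ ∑ j ∈ F.erase i, x j := sum_nonneg fun j hj => (hx j (mem_of_mem_erase hj)).le
      have h1 := ih _ (erase_ssubset hi) (fun j hj => hx j (mem_of_mem_erase hj)) (m + 1)
        (by linarith [s_sub m])
      have h2 : lev (x i) = m := by
        refine le_antisymm ?_ (lev_ge (hx i hi) (by linarith))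
        by_contra hlt
        have a1 := le_lev (hx i hi) (by linarith [s_zero ▸ s_anti (Nat.zero_le m)])
        have a2 : s (lev (x i)) ≤ s (m + 1) := s_anti (by omega)
        linarith [s_succ_le m]
      rw [tail_succ, W, h2, if_pos hc]; linarith
    · push Not at c
      refine (sum_le_sum fun i hi => W_small (hx i hi) (c i hi)).trans ?_
      rw [← sum_mul, tail_succ, s_succ]
      have := mul_le_mul_of_nonneg_right hm (inv_pos' m).le
      linarith [tail_nonneg (m + 1 + 1)]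

lemma W_bin {ι : Type} [DecidableEq ι] (x : ι → ℝ) (F : Finset ι) (hx : ∀ i ∈ F, 0 < x i)
    (h : ∑ i ∈ F, x i ≤ 1) : ∑ i ∈ F, W (x i) ≤ ∑' i, s i := by
  have h1 := W_sum x F hx 0 (by rwa [s_zero])
  have h2 := tail_succ 0
  rw [sum_sub_distrib] at h1
  rw [s_zero] at h2
  have : ∑' i, s i = tail 0 := by simp [tail]
  linarith

/-- The size type of an item inside its level. -/
noncomputable def ty (y : ℝ) : Fin 3 :=
  if 1 / T (lev y) < y then 0 else if 1 / (T (lev y) + 1) < y then 1 else 2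

noncomputable def tr (y : ℝ) : Fin 3 × Fin 3 := (⟨min (lev y) 2, by omega⟩, ty y)

/-- A bin that holds only items of one class. -/
def Pu (a : Fin 3) (m : ℕ) (x w : ℝ) : Prop :=
  (a = 0 → ∃ c : ℕ, x ≤ c * s m ∧ c * s m ≤ w) ∧
  (a = 1 → ∃ c : ℕ, x ≤ c * (1 / T m) ∧ c * (1 / T m) ≤ w)

lemma Pu_add {y : ℝ} (hy : 0 < y) (h1 : y ≤ 1) {x w : ℝ} (h : Pu (ty y) (lev y) x w) :
    Pu (ty y) (lev y) (x + y) (w + W y) := by
  constructor
  · intro e
    obtain ⟨c, a, b⟩ := h.1 e
    have c1 : 1 / T (lev y) < y := by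
      by_contra hc; rw [ty, if_neg hc] at e; split_ifs at e <;> simp at e
    refine ⟨c + 1, ?_, ?_⟩ <;> push_cast
    · linarith [le_lev hy h1]
    · rw [W, if_pos c1]; linarith [s_sub (lev y)]
  · intro e
    obtain ⟨c, a, b⟩ := h.2 e
    have c1 : ¬ 1 / T (lev y) < y := fun hc => by rw [ty, if_pos hc] at e; simp at e
    have c2 : 1 / (T (lev y) + 1) < y := by
      by_contra hc; rw [ty, if_neg c1, if_neg hc] at e; simp at e
    refine ⟨c + 1, ?_, ?_⟩ <;> push_cast
    · linarith [not_lt.mp c1]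
    · rw [W, if_neg c1]
      have tp := T_pos (lev y)
      have : 1 / T (lev y) = 1 / (T (lev y) + 1) * (1 + 1 / T (lev y)) := by field_simp
      have h3 := mul_le_mul_of_nonneg_right c2.le
        (show 0 ≤ 1 + 1 / T (lev y) by linarith [inv_pos' (lev y)])
      linarith

lemma Pu_zero (a : Fin 3) (m : ℕ) : Pu a m 0 0 := ⟨fun _ => ⟨0, by simp⟩, fun _ => ⟨0, by simp⟩⟩

lemma near {t x w : ℝ} (ht : 0 < t) (h : 1 - 1 / (t + 1) ≤ x) (hw : x * (1 + 1 / t) ≤ w) :
    1 ≤ w := by
  have e : (1 - 1 / (t + 1)) * (1 + 1 / t) = 1 := by field_simp; ring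
  have := mul_le_mul_of_nonneg_right h (show 0 ≤ 1 + 1 / t by positivity)
  linarith

lemma Pu_full {y : ℝ} (hy : 0 < y) (h1 : y ≤ 1) {x w : ℝ} (h : Pu (ty y) (lev y) x w)
    (hf : 1 < x + y) (hw : x * (1 + 1 / T (lev y)) ≤ w) : 1 ≤ w := by
  have tp := T_pos (lev y)
  by_cases c1 : 1 / T (lev y) < y
  · obtain ⟨c, a, b⟩ := h.1 (by rw [ty, if_pos c1])
    have a1 := le_lev hy h1
    have a2 := s_mul (lev y)
    have a3 := s_pos (lev y)
    have a4 : T (lev y) - 1 < c + 1 := by
      by_contra hc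
      have := mul_le_mul_of_nonneg_left (not_lt.mp hc) a3.le
      linarith
    have a5 : ts (lev y) ≤ c + 1 := by
      have : (ts (lev y) : ℝ) < ((c + 2 : ℕ) : ℝ) := by push_cast; unfold T at a4; linarith
      have := Nat.cast_lt.mp this; omega
    have a6 : T (lev y) - 1 ≤ c := by
      have : (ts (lev y) : ℝ) ≤ ((c + 1 : ℕ) : ℝ) := Nat.cast_le.mpr a5
      push_cast at this; unfold T; linarith
    nlinarith
  by_cases c2 : 1 / (T (lev y) + 1) < y
  · obtain ⟨c, a, b⟩ := h.2 (by rw [ty, if_neg c1, if_pos c2])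
    have a2 : 1 / T (lev y) * T (lev y) = 1 := by field_simp
    have a3 := inv_pos' (lev y)
    have a4 : T (lev y) < c + 1 := by
      by_contra hc
      have := mul_le_mul_of_nonneg_left (not_lt.mp hc) a3.le
      linarith [not_lt.mp c1]
    have a5 : ts (lev y) ≤ c := by
      have : (ts (lev y) : ℝ) < ((c + 1 : ℕ) : ℝ) := by push_cast; exact a4
      have := Nat.cast_lt.mp this; omega
    have a6 : T (lev y) ≤ c := Nat.cast_le.mpr a5
    nlinarith
  · exact near tp (by linarith [not_lt.mp c2]) hw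

/-- A bin with enough extra weight may be closed by any item of its level. -/
lemma rich_full {m : ℕ} {x w : ℝ} (hf : 1 - s m ≤ x)
    (hw : x * (1 + 1 / T m) + 2 * s (m + 1) ≤ w) : 1 ≤ w := by
  have a1 := s_sub m
  have a2 := s_succ m
  have a3 := mul_le_mul_of_nonneg_right hf (show 0 ≤ 1 + 1 / T m by linarith [inv_pos' m])
  nlinarith

/-- A bin whose gap is below the next level has weight at least one. -/
lemma deep_full {m : ℕ} (hm : 2 ≤ m) {x w : ℝ} (hf : 1 - s (m + 1) ≤ x)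
    (hw : x * (1 + 1 / T m) ≤ w) : 1 ≤ w := by
  refine near (T_pos m) (le_trans ?_ hf) hw
  have : s (m + 1) ≤ 1 / (T m + 1) := by
    unfold s; rw [T_succ]
    exact one_div_le_one_div_of_le (by linarith [T_pos m]) (by nlinarith [T_seven hm])
  linarith

/-- Mass of a shallower level gives the extra weight. -/
lemma extra {l n : ℕ} (h : 2 ≤ l) (h' : l < n) {x : ℝ} (hx : s (l + 1) ≤ x) :
    x * (1 + 1 / T n) + 2 * s (n + 1) ≤ x * (1 + 1 / T l) := by
  have a1 : s n ≤ x := (s_anti h').trans hx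
  have a2 : 3 * (1 / T n) ≤ 1 / T l := by
    rw [mul_one_div, div_le_div_iff₀ (T_pos n) (T_pos l)]; linarith [T_three h h']
  have a3 := inv_pos' n
  have a4 := s_pos n
  rw [s_succ]
  nlinarith

end Pool.Agent.H37.Bp
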