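import Pool.Agent.H37.Bp1

/-! One track of the algorithm: at most four working bins and one collateral bin. -/

open Finset Function

namespace Pool.Agent.H37.Bp

structure St where
  Wk : Finset ℕ
  Ks : Finset ℕ
  U : Finset ℕ
  ld : ℕ → ℝ
  wt : ℕ → ℝ
  lv : ℕ → ℕ
  tot : ℝ
  D : ℝ

structure Inv (a : Fin 3 × Fin 3) (σ : St) : Prop where
  dis : ∀ j ∈ σ.Wk, j ∉ σ.Ks
  subW : σ.Wk ⊆ σ.U
  subK : σ.Ks ⊆ σ.U
  cW : σ.Wk.card ≤ 4
  cK : σ.Ks.card ≤ 1
  ld0 : ∀ j ∉ σ.U, σ.ld j = 0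
  ld1 : ∀ j, σ.ld j ≤ 1
  lam : ∀ j ∈ σ.Wk, min (σ.lv j) 2 = a.1
  big : ∀ j ∈ σ.Wk, s (σ.lv j + 1) < σ.ld j
  rate : ∀ j ∈ σ.Wk, σ.ld j * (1 + 1 / T (σ.lv j)) ≤ σ.wt j
  safe : ∀ j ∈ σ.Wk, Pu a.2 (σ.lv j) (σ.ld j) (σ.wt j) ∨
    σ.ld j * (1 + 1 / T (σ.lv j)) + 2 * s (σ.lv j + 1) ≤ σ.wt j
  ord : ∀ i ∈ σ.Wk, ∀ j ∈ σ.Wk, σ.lv i < σ.lv j → 1 - σ.ld j ≤ s (σ.lv i)
  ordK : ∀ i ∈ σ.Wk, ∀ j ∈ σ.Ks, σ.lv i < σ.lv j → 1 - σ.ld j ≤ s (σ.lv i)
  inj : ∀ i ∈ σ.Wk, ∀ j ∈ σ.Wk, σ.lv i = σ.lv j → i = j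
  col : ∀ j ∈ σ.Ks, σ.ld j + 5 * s (σ.lv j + 1) ≤ σ.wt j ∧ σ.D ≤ 4 * s (σ.lv j + 1) ∧ 0 ≤ σ.ld j
  one : ∀ j ∈ σ.Ks, ∀ i ∈ σ.Wk, ∀ i' ∈ σ.Wk, σ.lv j < σ.lv i → σ.lv j < σ.lv i' → i = i'
  D0 : σ.Ks = ∅ → σ.D ≤ 0
  acc : (σ.U.card : ℝ) + ∑ j ∈ σ.Wk, (σ.wt j - 1) + ∑ j ∈ σ.Ks, (σ.wt j - 1) ≤ σ.tot + σ.D

variable {a : Fin 3 × Fin 3} {σ : St} {y : ℝ}

lemma two_le {m n : ℕ} {c : ℕ} (h1 : min m 2 = c) (h2 : min n 2 = c) (h : m < n) : 2 ≤ m := by
  omega

lemma Inv.closeK (h : Inv a σ) {K : ℕ} (hK : K ∈ σ.Ks) (hf : 1 - s (σ.lv K + 1) ≤ σ.ld K) :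
    Inv a {σ with Ks := ∅, D := 0} := by
  have e : σ.Ks = {K} := eq_singleton_iff_unique_mem.mpr
    ⟨hK, fun j hj => card_le_one.mp h.cK j hj K hK⟩
  refine {h with
    dis := ?_, subK := ?_, cK := ?_, ordK := ?_, col := ?_, one := ?_, D0 := ?_,
    acc := ?_} <;> try simp
  have a1 := h.acc
  have a2 := h.col K hK
  rw [e, sum_singleton] at a1
  simp only [sum_sub_distrib, sum_const, nsmul_eq_mul, mul_one] at a1 ⊢
  linarith [a2.1, a2.2.1]

lemma Inv.closeW (h : Inv a σ) (p : ℕ → Prop) [DecidablePred p]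
    (hp : ∀ j ∈ σ.Wk, ¬ p j → 1 ≤ σ.wt j) : Inv a {σ with Wk := σ.Wk.filter p} := by
  have m : ∀ {j}, j ∈ σ.Wk.filter p → j ∈ σ.Wk := fun hj => (mem_filter.mp hj).1
  refine {h with
    dis := fun j hj => h.dis j (m hj)
    subW := (filter_subset _ _).trans h.subW
    cW := (card_filter_le _ _).trans h.cW
    lam := fun j hj => h.lam j (m hj)
    big := fun j hj => h.big j (m hj)
    rate := fun j hj => h.rate j (m hj)
    safe := fun j hj => h.safe j (m hj)
    ord := fun i hi j hj => h.ord i (m hi) j (m hj)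
    ordK := fun i hi => h.ordK i (m hi)
    inj := fun i hi j hj => h.inj i (m hi) j (m hj)
    one := fun j hj i hi i' hi' => h.one j hj i (m hi) i' (m hi')
    acc := ?_}
  have a1 := h.acc
  rw [← sum_filter_add_sum_filter_not σ.Wk p] at a1
  have : 0 ≤ ∑ j ∈ σ.Wk.filter (fun j => ¬ p j), (σ.wt j - 1) :=
    sum_nonneg fun j hj => sub_nonneg.mpr (hp j (mem_filter.mp hj).1 (mem_filter.mp hj).2)
  change (σ.U.card : ℝ) + ∑ j ∈ σ.Wk.filter p, (σ.wt j - 1) + ∑ j ∈ σ.Ks, (σ.wt j - 1) ≤ σ.tot + σ.D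
  linarith

lemma Inv.wt_ge (h : Inv a σ) {j : ℕ} (hj : j ∈ σ.Wk) : σ.ld j ≤ σ.wt j := by
  have a1 := h.rate j hj
  have a2 := h.big j hj
  have := mul_pos ((s_pos _).trans a2) (inv_pos' (σ.lv j))
  linarith

/-- Four working bins that are nearly full: close the two deepest and the old collateral, and
make the shallowest the new collateral. -/
lemma Inv.force (h : Inv a σ) (h4 : σ.Wk.card = 4) (hf : ∀ j ∈ σ.Wk, 5 / 6 ≤ σ.ld j)
    (h2 : ∀ j ∈ σ.Wk, 2 ≤ σ.lv j) : ∃ A ∈ σ.Wk, ∃ B ∈ σ.Wk, ∃ D,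
    Inv a {σ with Wk := {B}, Ks := {A}, D := D} := by
  obtain ⟨A, hA, mA⟩ := exists_min_image σ.Wk σ.lv (card_pos.mp (by omega))
  have c3 : (σ.Wk.erase A).card = 3 := by rw [card_erase_of_mem hA, h4]
  obtain ⟨B, hB, mB⟩ := exists_min_image (σ.Wk.erase A) σ.lv (card_pos.mp (by omega))
  have hB' := mem_of_mem_erase hB
  have c2 : ((σ.Wk.erase A).erase B).card = 2 := by rw [card_erase_of_mem hB, c3]
  have AB : σ.lv A < σ.lv B :=
    lt_of_le_of_ne (mA B hB') fun e => ne_of_mem_erase hB (h.inj A hA B hB' e).symm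
  have BZ : ∀ j ∈ (σ.Wk.erase A).erase B, j ∈ σ.Wk ∧ σ.lv B < σ.lv j := fun j hj =>
    ⟨mem_of_mem_erase (mem_of_mem_erase hj), lt_of_le_of_ne (mB j (mem_of_mem_erase hj)) fun e =>
      ne_of_mem_erase hj (h.inj B hB' j (mem_of_mem_erase (mem_of_mem_erase hj)) e).symm⟩
  have BK : ∀ j ∈ σ.Ks, σ.lv B < σ.lv j := by
    intro j hj
    by_contra hc
    obtain ⟨u, hu, v, hv, uv⟩ := one_lt_card.mp (show 1 < ((σ.Wk.erase A).erase B).card by omega)
    exact uv (h.one j hj u (BZ u hu).1 v (BZ v hv).1 ((not_lt.mp hc).trans_lt (BZ u hu).2)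
      ((not_lt.mp hc).trans_lt (BZ v hv).2))
  have sB : s (σ.lv B) ≤ s (σ.lv A + 1) := s_anti AB
  have sp := s_pos (σ.lv A + 1)
  have hD : σ.D ≤ s (σ.lv A + 1) := by
    rcases σ.Ks.eq_empty_or_nonempty with e | ⟨j, hj⟩
    · linarith [h.D0 e]
    · have a1 := (h.col j hj).2.1
      have a2 : s (σ.lv j + 1) ≤ s (σ.lv A + 1 + 1) := s_anti (by have := BK j hj; omega)
      have a3 : 1 / T (σ.lv A + 1) ≤ 1 / 4 :=
        one_div_le_one_div_of_le (by norm_num) (by
          linarith [T_seven (show 2 ≤ σ.lv A + 1 by have := h2 A hA; omega)])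
      rw [s_succ (σ.lv A + 1)] at a2
      nlinarith
  refine ⟨A, hA, B, hB', σ.D + 3 * s (σ.lv A + 1), {h with
    dis := ?_, subW := ?_, subK := ?_, cW := ?_, cK := ?_, lam := ?_, big := ?_, rate := ?_,
    safe := ?_, ord := ?_, ordK := ?_, inj := ?_, col := ?_, one := ?_, D0 := ?_, acc := ?_}⟩ <;>
    simp only [mem_singleton, forall_eq, card_singleton, singleton_subset_iff, sum_singleton]
  · exact ne_of_mem_erase hB
  · exact h.subW hB'
  · exact h.subW hA
  · norm_num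
  · rfl
  · exact h.lam B hB'
  · exact h.big B hB'
  · exact h.rate B hB'
  · exact h.safe B hB'
  · intro c; omega
  · intro c; omega
  · simp
  · refine ⟨?_, by linarith, by linarith [hf A hA]⟩
    have a1 := h.rate A hA
    have a2 := s_six (h2 A hA)
    have a3 := inv_pos' (σ.lv A)
    rw [s_succ]
    nlinarith [hf A hA]
  · simp
  · simp
  · have a1 := h.acc
    rw [← add_sum_erase _ _ hA, ← add_sum_erase _ _ hB] at a1
    have a2 : -(2 * s (σ.lv A + 1)) ≤ ∑ j ∈ (σ.Wk.erase A).erase B, (σ.wt j - 1) := by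
      have := card_nsmul_le_sum ((σ.Wk.erase A).erase B) (fun j => σ.wt j - 1)
        (-s (σ.lv A + 1)) fun j hj => by
          linarith [h.ord B hB' j (BZ j hj).1 (BZ j hj).2, h.wt_ge (BZ j hj).1]
      rw [c2] at this; simpa using this
    have a3 : -s (σ.lv A + 1) ≤ ∑ j ∈ σ.Ks, (σ.wt j - 1) := by
      rcases σ.Ks.eq_empty_or_nonempty with e | ⟨j, hj⟩
      · rw [e, sum_empty]; linarith
      · rw [eq_singleton_iff_unique_mem.mpr ⟨hj, fun i hi => card_le_one.mp h.cK i hi j hj⟩,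
          sum_singleton]
        linarith [h.ordK B hB' j hj (BK j hj), (h.col j hj).1, s_pos (σ.lv j + 1)]
    linarith

/-- Put the item into bin `b`. -/
noncomputable def put (σ : St) (b : ℕ) (y : ℝ) : St :=
  {σ with U := insert b σ.U, ld := update σ.ld b (σ.ld b + y), wt := update σ.wt b (σ.wt b + W y),
          tot := σ.tot + W y}

lemma sum_upd (F : Finset ℕ) (w : ℕ → ℝ) (b : ℕ) (d : ℝ) :
    ∑ j ∈ F, (update w b (w b + d) j - 1) = ∑ j ∈ F, (w j - 1) + if b ∈ F then d else 0 := by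
  rw [← sum_ite_eq F b (fun _ => d), ← sum_add_distrib]
  refine sum_congr rfl fun j _ => ?_
  by_cases e : b = j
  · subst e; simp; ring
  · simp [e, update_of_ne (Ne.symm e)]

lemma upd_ge (l : ℕ → ℝ) (b : ℕ) {y : ℝ} (hy : 0 < y) (j : ℕ) : l j ≤ update l b (l b + y) j := by
  by_cases e : j = b
  · subst e; simp [hy.le]
  · simp [e]

lemma Inv.putK (h : Inv a σ) (hy : 0 < y) (h1 : y ≤ 1) {K : ℕ} (hK : K ∈ σ.Ks)
    (hf : σ.ld K + y ≤ 1) : Inv a (put σ K y) := by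
  have ne : ∀ {j}, j ∈ σ.Wk → j ≠ K := fun hj e => h.dis _ hj (e ▸ hK)
  have wy : y ≤ W y := le_trans (by nlinarith [inv_pos' (lev y)]) (W_ge hy h1)
  refine {h with
    subW := h.subW.trans (subset_insert _ _)
    subK := h.subK.trans (subset_insert _ _)
    ld0 := fun j hj => ?_, ld1 := fun j => ?_, big := fun j hj => ?_, rate := fun j hj => ?_,
    safe := fun j hj => ?_, ord := fun i hi j hj c => ?_, ordK := fun i hi j hj c => ?_,
    col := fun j hj => ?_, acc := ?_} <;> simp only [put] at *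
  · rw [mem_insert, not_or] at hj; rw [update_of_ne hj.1]; exact h.ld0 j hj.2
  · by_cases e : j = K
    · subst e; simpa using hf
    · rw [update_of_ne e]; exact h.ld1 j
  · rw [update_of_ne (ne hj)]; exact h.big j hj
  · rw [update_of_ne (ne hj), update_of_ne (ne hj)]; exact h.rate j hj
  · rw [update_of_ne (ne hj), update_of_ne (ne hj)]; exact h.safe j hj
  · linarith [h.ord i hi j hj c, upd_ge σ.ld K hy j]
  · linarith [h.ordK i hi j hj c, upd_ge σ.ld K hy j]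
  · rw [card_le_one.mp h.cK j hj K hK, update_self, update_self]
    obtain ⟨c1, c2, c3⟩ := h.col K hK
    exact ⟨by linarith, c2, by linarith⟩
  · rw [sum_upd, sum_upd, if_pos hK, if_neg fun c => ne c rfl, insert_eq_of_mem (h.subK hK)]
    linarith [h.acc]

/-- Put the item into a working bin `b`, whose level becomes `n`. -/
lemma Inv.putW (h : Inv a σ) (hy : 0 < y) (h1 : y ≤ 1) (ha : tr y = a) {b : ℕ} (hb : b ∈ σ.Wk)
    (hf : σ.ld b + y ≤ 1) (n : ℕ) (hn : n = max (σ.lv b) (lev y))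
    (c1 : ∀ i ∈ σ.Wk, i ≠ b → σ.lv i ≤ n → σ.lv i < σ.lv b)
    (c2 : ∀ j ∈ σ.Wk, n < σ.lv j → 1 - σ.ld j ≤ s n)
    (c3 : ∀ j ∈ σ.Ks, (n < σ.lv j → 1 - σ.ld j ≤ s n) ∧ (σ.lv j < n → σ.lv j < σ.lv b)) :
    Inv a {put σ b y with lv := update σ.lv b n} := by
  have ne : ∀ {j}, j ∈ σ.Ks → j ≠ b := fun hj e => h.dis _ hb (e ▸ hj)
  have wy := W_ge hy h1
  have ly : min (lev y) 2 = a.1 := by rw [← ha]; rfl
  have lb := h.lam b hb
  have n1 : σ.lv b ≤ n := hn ▸ le_max_left _ _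
  have n2 : lev y ≤ n := hn ▸ le_max_right _ _
  have i1 : 1 / T n ≤ 1 / T (σ.lv b) := one_div_le_one_div_of_le (T_pos _) (T_mono n1)
  have i2 : 1 / T n ≤ 1 / T (lev y) := one_div_le_one_div_of_le (T_pos _) (T_mono n2)
  have p0 : 0 < σ.ld b := (s_pos _).trans (h.big b hb)
  have r1 : σ.ld b * (1 + 1 / T n) ≤ σ.wt b := le_trans (by nlinarith) (h.rate b hb)
  have r2 : y * (1 + 1 / T n) ≤ W y := le_trans (by nlinarith) wy
  refine {h with
    subW := h.subW.trans (subset_insert _ _)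
    subK := h.subK.trans (subset_insert _ _)
    ld0 := fun j hj => ?_, ld1 := fun j => ?_, lam := fun j hj => ?_, big := fun j hj => ?_,
    rate := fun j hj => ?_, safe := fun j hj => ?_, ord := fun i hi j hj c => ?_,
    ordK := fun i hi j hj c => ?_, inj := fun i hi j hj c => ?_, col := fun j hj => ?_,
    one := fun j hj i hi i' hi' c c' => ?_, acc := ?_} <;> simp only [put] at *
  · rw [mem_insert, not_or] at hj; rw [update_of_ne hj.1]; exact h.ld0 j hj.2
  · by_cases e : j = b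
    · subst e; simpa using hf
    · rw [update_of_ne e]; exact h.ld1 j
  · by_cases e : j = b
    · subst e; rw [update_self]; omega
    · rw [update_of_ne e]; exact h.lam j hj
  · by_cases e : j = b
    · subst e; simp only [update_self]
      linarith [h.big j hj, s_anti (show σ.lv j + 1 ≤ n + 1 by omega)]
    · simp only [update_of_ne e]; exact h.big j hj
  · by_cases e : j = b
    · subst e; simp only [update_self]; linarith
    · simp only [update_of_ne e]; exact h.rate j hj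
  · by_cases e : j = b
    · subst e; simp only [update_self]
      rcases lt_trichotomy (σ.lv j) (lev y) with c | c | c
      · right
        have := extra (two_le lb ly c) (c.trans_le n2) (h.big j hj).le
        linarith [h.rate j hj]
      · have e1 : n = lev y := by omega
        rcases h.safe j hj with d | d
        · left; rw [e1, ← ha]; rw [c, ← ha] at d; exact Pu_add hy h1 d
        · right; rw [c, ← e1] at d; linarith
      · right
        have := extra (two_le ly lb c) (c.trans_le n1) (lev_lt hy).le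
        linarith
    · simp only [update_of_ne e]; exact h.safe j hj
  · by_cases e : i = b
    · subst e; rw [update_self] at c ⊢
      have e' : j ≠ i := fun e' => by rw [e', update_self] at c; omega
      rw [update_of_ne e'] at c ⊢
      exact c2 j hj c
    · rw [update_of_ne e] at c ⊢
      by_cases e' : j = b
      · subst e'; rw [update_self] at c ⊢
        linarith [h.ord i hi j hj (c1 i hi e c.le)]
      · rw [update_of_ne e'] at c ⊢; exact h.ord i hi j hj c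
  · rw [update_of_ne (ne hj)] at c ⊢
    by_cases e : i = b
    · subst e; rw [update_self] at c ⊢; exact (c3 j hj).1 c
    · rw [update_of_ne e] at c ⊢; exact h.ordK i hi j hj c
  · by_cases e : i = b <;> by_cases e' : j = b
    · rw [e, e']
    · subst e; rw [update_self, update_of_ne e'] at c
      have := c1 j hj e' c.ge; omega
    · subst e'; rw [update_self, update_of_ne e] at c
      have := c1 i hi e c.le; omega
    · rw [update_of_ne e, update_of_ne e'] at c; exact h.inj i hi j hj c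
  · simp only [update_of_ne (ne hj)]; exact h.col j hj
  · rw [update_of_ne (ne hj)] at c c'
    have key : ∀ u, σ.lv j < update σ.lv b n u → σ.lv j < σ.lv u := by
      intro u hu
      by_cases e : u = b
      · subst e; rw [update_self] at hu; exact (c3 j hj).2 hu
      · rwa [update_of_ne e] at hu
    exact h.one j hj i hi i' hi' (key i c) (key i' c')
  · rw [sum_upd, sum_upd, if_pos hb, if_neg fun c => ne c rfl, insert_eq_of_mem (h.subW hb)]
    linarith [h.acc]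

/-- Open a new working bin. -/
lemma Inv.putN (h : Inv a σ) (hy : 0 < y) (h1 : y ≤ 1) (ha : tr y = a) {b : ℕ} (hb : b ∉ σ.U)
    (h3 : σ.Wk.card ≤ 3) (c2 : ∀ j ∈ σ.Wk, lev y < σ.lv j ∧ 1 - σ.ld j ≤ s (lev y))
    (c3 : ∀ j ∈ σ.Ks, lev y ≤ σ.lv j ∧ 1 - σ.ld j ≤ s (lev y)) :
    Inv a {put {σ with wt := update σ.wt b 0} b y with
      Wk := insert b σ.Wk, lv := update σ.lv b (lev y)} := by
  have ne : ∀ {j}, j ∈ σ.Ks → j ≠ b := fun hj e => hb (e ▸ h.subK hj)
  have nw : ∀ {j}, j ∈ σ.Wk → j ≠ b := fun hj e => hb (e ▸ h.subW hj)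
  have l0 := h.ld0 b hb
  refine {h with
    dis := fun j hj => ?_
    subW := insert_subset_insert _ h.subW
    subK := h.subK.trans (subset_insert _ _)
    cW := (card_insert_le _ _).trans (by omega)
    ld0 := fun j hj => ?_, ld1 := fun j => ?_, lam := fun j hj => ?_, big := fun j hj => ?_,
    rate := fun j hj => ?_, safe := fun j hj => ?_, ord := fun i hi j hj c => ?_,
    ordK := fun i hi j hj c => ?_, inj := fun i hi j hj c => ?_, col := fun j hj => ?_,
    one := fun j hj i hi i' hi' c c' => ?_, acc := ?_} <;>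
    simp only [put, mem_insert, update_idem, update_self, l0, zero_add] at *
  · rcases hj with rfl | hj
    · exact fun c => ne c rfl
    · exact h.dis j hj
  · rw [not_or] at hj; rw [update_of_ne hj.1]; exact h.ld0 j hj.2
  · by_cases e : j = b
    · subst e; simpa using h1
    · rw [update_of_ne e]; exact h.ld1 j
  · rcases hj with rfl | hj
    · rw [update_self, ← ha]; rfl
    · rw [update_of_ne (nw hj)]; exact h.lam j hj
  · rcases hj with rfl | hj
    · simp only [update_self]; exact lev_lt hy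
    · simp only [update_of_ne (nw hj)]; exact h.big j hj
  · rcases hj with rfl | hj
    · simp only [update_self]; exact W_ge hy h1
    · simp only [update_of_ne (nw hj)]; exact h.rate j hj
  · rcases hj with rfl | hj
    · simp only [update_self]; left
      have := Pu_add hy h1 (Pu_zero (ty y) (lev y))
      rw [zero_add, zero_add] at this; rw [← ha]; exact this
    · simp only [update_of_ne (nw hj)]; exact h.safe j hj
  · rcases hi with rfl | hi <;> rcases hj with rfl | hj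
    · omega
    · rw [update_self, update_of_ne (nw hj)]; exact (c2 j hj).2
    · rw [update_self, update_of_ne (nw hi)] at c; have := (c2 i hi).1; omega
    · rw [update_of_ne (nw hi), update_of_ne (nw hj)] at c ⊢; exact h.ord i hi j hj c
  · rw [update_of_ne (ne hj)] at c ⊢
    rcases hi with rfl | hi
    · rw [update_self]; exact (c3 j hj).2
    · rw [update_of_ne (nw hi)] at c ⊢; exact h.ordK i hi j hj c
  · rcases hi with rfl | hi <;> rcases hj with rfl | hj
    · rfl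
    · rw [update_self, update_of_ne (nw hj)] at c; have := (c2 j hj).1; omega
    · rw [update_self, update_of_ne (nw hi)] at c; have := (c2 i hi).1; omega
    · rw [update_of_ne (nw hi), update_of_ne (nw hj)] at c; exact h.inj i hi j hj c
  · simp only [update_of_ne (ne hj)]; exact h.col j hj
  · rw [update_of_ne (ne hj)] at c c'
    have := (c3 j hj).1
    rcases hi with rfl | hi
    · rw [update_self] at c; omega
    rcases hi' with rfl | hi'
    · rw [update_self] at c'; omega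
    rw [update_of_ne (nw hi)] at c
    rw [update_of_ne (nw hi')] at c'
    exact h.one j hj i hi i' hi' c c'
  · rw [sum_insert fun c => nw c rfl, update_self, card_insert_of_notMem hb,
      sum_congr rfl fun j hj => by rw [update_of_ne (nw hj)],
      sum_congr rfl fun j (hj : j ∈ σ.Ks) => by rw [update_of_ne (ne hj)]]
    push_cast
    linarith [h.acc]

def Step (σ : St) (y : ℝ) (b : ℕ) (σ' : St) : Prop :=
  (b ∈ σ.Wk ∪ σ.Ks ∨ b ∉ σ.U) ∧ σ'.U = insert b σ.U ∧
    σ'.Wk ∪ σ'.Ks ⊆ insert b (σ.Wk ∪ σ.Ks) ∧ σ'.ld = update σ.ld b (σ.ld b + y) ∧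
    σ'.tot = σ.tot + W y

lemma Step.of_sub {σ σ₁ σ' : St} {b : ℕ} (h : Step σ₁ y b σ') (e1 : σ₁.U = σ.U)
    (e2 : σ₁.ld = σ.ld) (e3 : σ₁.tot = σ.tot) (e4 : σ₁.Wk ∪ σ₁.Ks ⊆ σ.Wk ∪ σ.Ks) :
    Step σ y b σ' := by
  obtain ⟨a1, a2, a3, a4, a5⟩ := h
  rw [e1] at a1 a2; rw [e2] at a4; rw [e3] at a5
  exact ⟨a1.imp_left fun c => e4 c, a2, a3.trans (insert_subset_insert _ e4), a4, a5⟩

lemma step3 (h : Inv a σ) (hy : 0 < y) (h1 : y ≤ 1) (ha : tr y = a)
    (c2 : ∀ j ∈ σ.Wk, lev y < σ.lv j ∧ 1 - σ.ld j ≤ s (lev y))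
    (c3 : ∀ j ∈ σ.Ks, lev y ≤ σ.lv j ∧ 1 - σ.ld j ≤ s (lev y)) :
    ∃ b σ', Step σ y b σ' ∧ Inv a σ' := by
  obtain ⟨b, hb⟩ := Infinite.exists_notMem_finset σ.U
  by_cases h3 : σ.Wk.card ≤ 3
  · refine ⟨b, _, ⟨Or.inr hb, rfl, ?_, rfl, rfl⟩, h.putN hy h1 ha hb h3 c2 c3⟩
    simp [put]
  · have ly : min (lev y) 2 = a.1 := by rw [← ha]; rfl
    have l2 : ∀ j ∈ σ.Wk, 2 ≤ lev y := fun j hj => two_le ly (h.lam j hj) (c2 j hj).1
    obtain ⟨A, hA, B, hB, D, h'⟩ := h.force (by have := h.cW; omega)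
      (fun j hj => by linarith [(c2 j hj).2, s_six (l2 j hj)])
      (fun j hj => by have := (c2 j hj).1; have := l2 j hj; omega)
    refine ⟨b, _, Step.of_sub (σ₁ := {σ with Wk := {B}, Ks := {A}, D := D})
      ⟨Or.inr hb, rfl, ?_, rfl, rfl⟩ rfl rfl rfl ?_, h'.putN hy h1 ha hb (by simp) ?_ ?_⟩
    · simp [put]
    · intro j hj
      simp only [mem_union, mem_singleton] at hj ⊢
      rcases hj with rfl | rfl <;> [exact Or.inl hB; exact Or.inl hA]
    · simpa using c2 B hB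
    · simpa using ⟨(c2 A hA).1.le, by linarith [(c2 A hA).2]⟩

lemma step2 (h : Inv a σ) (hy : 0 < y) (h1 : y ≤ 1) (ha : tr y = a)
    (fW : ∀ j ∈ σ.Wk, σ.lv j ≤ lev y → σ.ld j + y ≤ 1)
    (fK : ∀ j ∈ σ.Ks, σ.lv j < lev y → σ.ld j + y ≤ 1) :
    ∃ b σ', Step σ y b σ' ∧ Inv a σ' := by
  by_cases k1 : ∃ j ∈ σ.Ks, σ.ld j + y ≤ 1
  · obtain ⟨j, hj, hf⟩ := k1
    exact ⟨j, put σ j y, ⟨Or.inl (mem_union_right _ hj), rfl, subset_insert _ _, rfl, rfl⟩,
      h.putK hy h1 hj hf⟩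
  push Not at k1
  have yl := le_lev hy h1
  have c3 : ∀ j ∈ σ.Ks, lev y ≤ σ.lv j ∧ 1 - σ.ld j ≤ s (lev y) := fun j hj =>
    ⟨not_lt.mp fun c => absurd (fK j hj c) (not_le.mpr (k1 j hj)), by linarith [k1 j hj]⟩
  by_cases k2 : ∃ j ∈ σ.Wk, lev y ≤ σ.lv j ∧ σ.ld j + y ≤ 1
  · obtain ⟨j, hj, hl, hf⟩ := k2
    exact ⟨j, {put σ j y with lv := update σ.lv j (σ.lv j)},
      ⟨Or.inl (mem_union_left _ hj), rfl, subset_insert _ _, rfl, rfl⟩,
      h.putW hy h1 ha hj hf (σ.lv j) (max_eq_left hl).symm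
        (fun i hi e c => lt_of_le_of_ne c fun e' => e (h.inj i hi j hj e'))
        (fun i hi c => h.ord j hj i hi c) fun i hi => ⟨h.ordK j hj i hi, id⟩⟩
  push Not at k2
  have c2 : ∀ j ∈ σ.Wk, lev y ≤ σ.lv j → lev y < σ.lv j ∧ 1 - σ.ld j ≤ s (lev y) := fun j hj c =>
    ⟨lt_of_le_of_ne c fun e => absurd (fW j hj e.ge) (not_le.mpr (k2 j hj c)),
      by linarith [k2 j hj c]⟩
  by_cases k3 : (σ.Wk.filter fun j => σ.lv j < lev y).Nonempty
  · obtain ⟨j, hj, mj⟩ := exists_max_image _ σ.lv k3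
    obtain ⟨hj, hl⟩ := mem_filter.mp hj
    refine ⟨j, {put σ j y with lv := update σ.lv j (lev y)},
      ⟨Or.inl (mem_union_left _ hj), rfl, subset_insert _ _, rfl, rfl⟩,
      h.putW hy h1 ha hj (fW j hj hl.le) (lev y) (max_eq_right hl.le).symm (fun i hi e c => ?_)
        (fun i hi c => (c2 i hi c.le).2) fun i hi => ⟨fun _ => (c3 i hi).2, fun c => ?_⟩⟩
    · have : σ.lv i < lev y := lt_of_le_of_ne c fun e' => by have := (c2 i hi e'.ge).1; omega
      exact lt_of_le_of_ne (mj i (mem_filter.mpr ⟨hi, this⟩)) fun e' => e (h.inj i hi j hj e')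
    · have := (c3 i hi).1; omega
  · exact step3 h hy h1 ha (fun j hj => c2 j hj
      (not_lt.mp fun c => k3 ⟨j, mem_filter.mpr ⟨hj, c⟩⟩)) c3

lemma step1 (h : Inv a σ) (hy : 0 < y) (h1 : y ≤ 1) (ha : tr y = a)
    (fK : ∀ j ∈ σ.Ks, σ.lv j < lev y → σ.ld j + y ≤ 1) :
    ∃ b σ', Step σ y b σ' ∧ Inv a σ' := by
  classical
  have yl := le_lev hy h1
  have ly : min (lev y) 2 = a.1 := by rw [← ha]; rfl
  have h' := h.closeW (fun j => σ.lv j ≤ lev y → σ.ld j + y ≤ 1) fun j hj c => by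
    push Not at c
    rcases c.1.lt_or_eq with d | d
    · exact deep_full (two_le (h.lam j hj) ly d)
        (by linarith [c.2, s_anti (show σ.lv j + 1 ≤ lev y from d)]) (h.rate j hj)
    · rcases h.safe j hj with e | e
      · rw [d, ← ha] at e
        exact Pu_full hy h1 e c.2 (d ▸ h.rate j hj)
      · exact rich_full (by rw [d]; linarith [c.2]) e
  obtain ⟨b, σ', s1, s2⟩ := step2 h' hy h1 ha (fun j hj => (mem_filter.mp hj).2) fK
  exact ⟨b, σ', s1.of_sub rfl rfl rfl (union_subset_union (filter_subset _ _) Subset.rfl), s2⟩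

lemma step (h : Inv a σ) (hy : 0 < y) (h1 : y ≤ 1) (ha : tr y = a) :
    ∃ b σ', Step σ y b σ' ∧ Inv a σ' := by
  by_cases fK : ∀ j ∈ σ.Ks, σ.lv j < lev y → σ.ld j + y ≤ 1
  · exact step1 h hy h1 ha fK
  · push Not at fK
    obtain ⟨K, hK, c1, c2⟩ := fK
    have h' := h.closeK hK
      (by linarith [le_lev hy h1, s_anti (show σ.lv K + 1 ≤ lev y from c1)])
    obtain ⟨b, σ', s1, s2⟩ := step1 h' hy h1 ha (by simp)
    exact ⟨b, σ', s1.of_sub rfl rfl rfl (union_subset_union Subset.rfl (empty_subset _)), s2⟩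

lemma Inv.cardO (h : Inv a σ) : (σ.Wk ∪ σ.Ks).card ≤ 5 :=
  (card_union_le _ _).trans (by have := h.cW; have := h.cK; omega)

lemma Inv.cardU (h : Inv a σ) : (σ.U.card : ℝ) ≤ σ.tot + 9 := by
  have a1 := h.acc
  have a2 := card_nsmul_le_sum σ.Wk (fun j => σ.wt j - 1) (-1) fun j hj => by
    linarith [h.wt_ge hj, h.big j hj, s_pos (σ.lv j + 1)]
  have a3 := card_nsmul_le_sum σ.Ks (fun j => σ.wt j - 1) (-1) fun j hj => by
    linarith [(h.col j hj).1, (h.col j hj).2.2, s_pos (σ.lv j + 1)]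
  have a4 : σ.D ≤ 4 := by
    rcases σ.Ks.eq_empty_or_nonempty with e | ⟨j, hj⟩
    · linarith [h.D0 e]
    · linarith [(h.col j hj).2.1, s_zero ▸ s_anti (Nat.zero_le (σ.lv j + 1))]
  have a5 : (σ.Wk.card : ℝ) ≤ 4 := by exact_mod_cast h.cW
  have a6 : (σ.Ks.card : ℝ) ≤ 1 := by exact_mod_cast h.cK
  simp only [nsmul_eq_mul, mul_neg, mul_one] at a2 a3
  linarith

def st0 : St := ⟨∅, ∅, ∅, fun _ => 0, fun _ => 0, fun _ => 0, 0, 0⟩

lemma inv0 (a : Fin 3 × Fin 3) : Inv a st0 := by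
  constructor <;> simp [st0]

end Pool.Agent.H37.Bp
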