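import Pool.Agent.H37.Bp2

/-! From the state machine to an on-line algorithm; the lower bound for bounded space. -/

open Finset Function

namespace Pool.Agent.H37.Bp

def Val (L : List ℝ) : Prop := ∀ y ∈ L, 0 < y ∧ y ≤ 1

theorem wrap {S ι : Type} [DecidableEq ι] (O U : S → Finset ι) (ld : S → ι → ℝ) (tot : S → ℝ)
    (I : S → Prop) (s0 : S) (h0 : I s0) (hU : U s0 = ∅) (hl : ld s0 = fun _ => 0) (ht : tot s0 = 0)
    (k : ℕ) (C : ℝ)
    (hI : ∀ σ, I σ → (O σ).card ≤ k ∧ (∀ j, ld σ j ≤ 1) ∧ ((U σ).card : ℝ) ≤ tot σ + C)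
    (hs : ∀ σ y, I σ → 0 < y → y ≤ 1 → ∃ b σ', (b ∈ O σ ∨ b ∉ U σ) ∧ U σ' = insert b (U σ) ∧
      O σ' ⊆ insert b (O σ) ∧ ld σ' = update (ld σ) b (ld σ b + y) ∧ tot σ' = tot σ + W y ∧ I σ')
    (enc : ι → ℕ) (he : Injective enc) : ∃ A : List ℝ → ℝ → ℕ,
    (∀ L : List ℝ, Val L → ∀ b : ℕ, ∑ i ∈ (univ : Finset (Fin L.length)).filter
      (fun i : Fin L.length => A (L.take (i : ℕ)) (L.get i) = b), L.get i ≤ 1) ∧
    (∀ p : List ℝ, Val p → Set.ncard {b : ℕ | (∃ i : Fin p.length, A (p.take (i : ℕ)) (p.get i) = b) ∧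
      ∃ q : List ℝ, ∃ x : ℝ, Val q ∧ 0 < x ∧ x ≤ 1 ∧ A (p ++ q) x = b} ≤ k) ∧
    (∀ L : List ℝ, Val L → (((univ : Finset (Fin L.length)).image
      (fun i : Fin L.length => A (L.take (i : ℕ)) (L.get i))).card : ℝ) ≤
        ∑ i : Fin L.length, W (L.get i) + C) := by
  haveI : Nonempty S := ⟨s0⟩
  haveI : Nonempty ι := by
    obtain ⟨b, -⟩ := hs s0 1 h0 one_pos le_rfl; exact ⟨b⟩
  choose! nb ns hn using hs
  obtain ⟨st, st0, st1⟩ : ∃ st : List ℝ → S, st [] = s0 ∧ ∀ p y, st (p ++ [y]) = ns (st p) y :=
    ⟨fun L => L.foldl ns s0, rfl, fun p y => by simp⟩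
  have vI : ∀ L, Val L → I (st L) := by
    intro L
    induction L using List.reverseRecOn with
    | nil => intro _; rwa [st0]
    | append_singleton p y ih =>
      intro hv
      have hy := hv y (by simp)
      rw [st1]
      exact (hn _ y (ih fun z hz => hv z (by simp [hz])) hy.1 hy.2).2.2.2.2.2
  have main : ∀ L, Val L → ∀ n ≤ L.length,
      U (st (L.take n)) = (range n).image (fun i => nb (st (L.take i)) (L.getD i 0)) ∧
      (∀ j, ld (st (L.take n)) j =
        ∑ i ∈ range n, if nb (st (L.take i)) (L.getD i 0) = j then L.getD i 0 else 0) ∧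
      tot (st (L.take n)) = ∑ i ∈ range n, W (L.getD i 0) := by
    intro L hv n
    induction n with
    | zero => intro _; simp [st0, hU, hl, ht]
    | succ n ih =>
      intro hn'
      obtain ⟨a1, a2, a3⟩ := ih (by omega)
      have e0 : L.getD n 0 = L[n] := List.getD_eq_getElem _ _ hn'
      have e : L.take (n + 1) = L.take n ++ [L.getD n 0] := by
        rw [e0]; exact (List.take_concat_get' L n hn').symm
      have hy : 0 < L.getD n 0 ∧ L.getD n 0 ≤ 1 := by rw [e0]; exact hv _ (List.getElem_mem _)
      obtain ⟨-, b2, -, b4, b5, -⟩ := hn _ _ (vI (L.take n) fun z hz => hv z (List.mem_of_mem_take hz))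
        hy.1 hy.2
      rw [e, st1, b2, b4, b5, a1, a3, range_add_one, image_insert, sum_insert notMem_range_self]
      refine ⟨rfl, fun j => ?_, add_comm _ _⟩
      rw [sum_insert notMem_range_self, ← a2]
      by_cases c : nb (st (L.take n)) (L.getD n 0) = j
      · rw [if_pos c, c, update_self, add_comm]
      · rw [if_neg c, update_of_ne (Ne.symm c), zero_add]
  have gt : ∀ (L : List ℝ) (i : Fin L.length), L.getD i 0 = L.get i := fun L i => by simp
  have mU : ∀ L, Val L → U (st L) =
      (univ : Finset (Fin L.length)).image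
        fun i : Fin L.length => nb (st (L.take i)) (L.get i) := by
    intro L hv
    have := (main L hv _ le_rfl).1
    rw [List.take_length] at this
    rw [this]; ext j
    simp only [mem_image, mem_range, mem_univ, true_and]
    exact ⟨fun ⟨i, hi, e⟩ => ⟨⟨i, hi⟩, by rw [← gt]; exact e⟩, fun ⟨i, e⟩ => ⟨i, i.2, by rw [gt]; exact e⟩⟩
  refine ⟨fun p y => enc (nb (st p) y), fun L hv b => ?_, fun p hp => ?_, fun L hv => ?_⟩
  · by_cases c : ∃ j, enc j = b
    · obtain ⟨j, rfl⟩ := c
      have a1 := (main L hv _ le_rfl).2.1 j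
      rw [List.take_length, sum_range] at a1
      simp only [gt] at a1
      simp only [he.eq_iff, sum_filter]
      rw [← a1]; exact (hI _ (vI L hv)).2.1 j
    · rw [filter_false_of_mem fun i _ e => c ⟨_, e⟩]; simp
  · have key : ∀ q, Val q → U (st p) ⊆ U (st (p ++ q)) ∧
        ∀ j ∈ U (st p), j ∈ O (st (p ++ q)) → j ∈ O (st p) := by
      intro q
      induction q using List.reverseRecOn with
      | nil => intro _; simp
      | append_singleton q y ih =>
        intro hv
        have hy := hv y (by simp)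
        have hq : Val q := fun z hz => hv z (by simp [hz])
        obtain ⟨a1, a2⟩ := ih hq
        obtain ⟨b1, b2, b3, -⟩ := hn _ y (vI (p ++ q) fun z hz =>
          (List.mem_append.mp hz).elim (hp z) (hq z)) hy.1 hy.2
        rw [← List.append_assoc, st1, b2]
        refine ⟨a1.trans (subset_insert _ _), fun j hj hj' => a2 j hj ?_⟩
        rcases mem_insert.mp (b3 hj') with rfl | c
        · exact b1.resolve_right fun c => c (a1 hj)
        · exact c
    refine le_trans (Set.ncard_le_ncard (t := ((O (st p)).image enc : Finset ℕ)) ?_ (finite_toSet _)) ?_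
    · rintro b ⟨⟨i, rfl⟩, q, x, hq, x0, x1, e⟩
      have e' := he e
      have a0 : nb (st (p.take i)) (p.get i) ∈ U (st p) := by
        rw [mU p hp]; exact mem_image_of_mem _ (mem_univ i)
      obtain ⟨a1, a2⟩ := key q hq
      obtain ⟨b1, -⟩ := hn _ x (vI (p ++ q) fun z hz =>
          (List.mem_append.mp hz).elim (hp z) (hq z)) x0 x1
      rw [e'] at b1
      exact mem_coe.mpr (mem_image_of_mem _ (a2 _ a0 (b1.resolve_right fun c => c (a1 a0))))
    · rw [Set.ncard_coe_finset]; exact card_image_le.trans (hI _ (vI p hp)).1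
  · have a1 := (main L hv _ le_rfl).2.2
    rw [List.take_length, sum_range] at a1
    simp only [gt] at a1
    rw [← a1]
    refine le_trans ?_ (hI _ (vI L hv)).2.2
    rw [mU L hv]
    have := card_image_le (f := enc) (s := (univ : Finset (Fin L.length)).image
      fun i : Fin L.length => nb (st (L.take i)) (L.get i))
    rw [image_image] at this
    exact_mod_cast this

abbrev Tr := Fin 3 × Fin 3

def glue (F : Tr → Finset ℕ) : Finset (Tr × ℕ) := univ.biUnion fun a => (F a).image (Prod.mk a)

lemma mem_glue (F : Tr → Finset ℕ) (j : Tr × ℕ) : j ∈ glue F ↔ j.2 ∈ F j.1 := by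
  obtain ⟨a, j⟩ := j
  simp [glue]

lemma card_glue (F : Tr → Finset ℕ) : (glue F).card ≤ ∑ a, (F a).card :=
  card_biUnion_le.trans (sum_le_sum fun _ _ => card_image_le)

theorem algo : ∃ A : List ℝ → ℝ → ℕ,
    (∀ L : List ℝ, Val L → ∀ b : ℕ, ∑ i ∈ (univ : Finset (Fin L.length)).filter
      (fun i : Fin L.length => A (L.take (i : ℕ)) (L.get i) = b), L.get i ≤ 1) ∧
    (∀ p : List ℝ, Val p → Set.ncard {b : ℕ | (∃ i : Fin p.length, A (p.take (i : ℕ)) (p.get i) = b) ∧
      ∃ q : List ℝ, ∃ x : ℝ, Val q ∧ 0 < x ∧ x ≤ 1 ∧ A (p ++ q) x = b} ≤ 45) ∧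
    (∀ L : List ℝ, Val L → (((univ : Finset (Fin L.length)).image
      (fun i : Fin L.length => A (L.take (i : ℕ)) (L.get i))).card : ℝ) ≤
        ∑ i : Fin L.length, W (L.get i) + 81) := by
  refine wrap (S := Tr → St) (fun σ => glue fun a => (σ a).Wk ∪ (σ a).Ks)
    (fun σ => glue fun a => (σ a).U) (fun σ j => (σ j.1).ld j.2) (fun σ => ∑ a, (σ a).tot)
    (fun σ => ∀ a, Inv a (σ a)) (fun _ => st0) inv0 (by ext j; simp [mem_glue, st0]) rfl (by simp [st0]) 45 81
    (fun σ h => ⟨?_, fun j => (h j.1).ld1 _, ?_⟩) (fun σ y h hy h1 => ?_) Encodable.encode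
    Encodable.encode_injective
  · exact (card_glue _).trans ((sum_le_sum fun a _ => (h a).cardO).trans (by simp))
  · have a1 : ((glue fun a => (σ a).U).card : ℝ) ≤ ∑ a, ((σ a).U.card : ℝ) := by
      exact_mod_cast card_glue _
    refine a1.trans ((sum_le_sum fun a _ => (h a).cardU).trans ?_)
    rw [sum_add_distrib]; simp; norm_num
  · obtain ⟨b, σ', ⟨s1, s2, s3, s4, s5⟩, s6⟩ := step (h (tr y)) hy h1 rfl
    refine ⟨(tr y, b), update σ (tr y) σ', by simpa only [mem_glue] using s1, ?_, ?_, ?_, ?_, ?_⟩
    · ext ⟨a, j⟩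
      by_cases e : a = tr y
      · subst e; simp [mem_glue, s2]
      · simp [mem_glue, e]
    · rintro ⟨a, j⟩ hj
      by_cases e : a = tr y
      · subst e
        simp only [mem_glue, update_self] at hj
        simpa [mem_glue] using s3 hj
      · simp only [mem_glue, update_of_ne e] at hj
        exact mem_insert_of_mem ((mem_glue _ _).mpr hj)
    · funext ⟨a, j⟩
      by_cases e : a = tr y
      · subst e
        by_cases e' : j = b
        · subst e'; simp [s4]
        · simp [s4, e']
      · simp [e]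
    · rw [← add_sum_erase _ _ (mem_univ (tr y)), ← add_sum_erase _ (fun a => (σ a).tot) (mem_univ (tr y)),
        update_self, s5, sum_congr rfl fun a ha => by rw [update_of_ne (ne_of_mem_erase ha)]]
      ring
    · intro a
      by_cases e : a = tr y
      · subst e; rwa [update_self]
      · rw [update_of_ne e]; exact h a

def Feas (L : List ℝ) : Set ℕ := {m : ℕ | ∃ f : Fin L.length → Fin m, ∀ j : Fin m,
  ∑ i ∈ (univ : Finset (Fin L.length)).filter (fun i : Fin L.length => f i = j), L.get i ≤ 1}

lemma feas_ne (L : List ℝ) (hv : Val L) : (Feas L).Nonempty :=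
  ⟨L.length, id, fun j => by
    have : (univ : Finset (Fin L.length)).filter (fun i => id i = j) = {j} := by ext; simp
    rw [this, sum_singleton]; exact (hv _ (List.get_mem _ _)).2⟩

lemma W_opt (L : List ℝ) (hv : Val L) :
    ∑ i : Fin L.length, W (L.get i) ≤ (∑' i, s i) * (sInf (Feas L) : ℕ) := by
  obtain ⟨f, hf⟩ := Nat.sInf_mem (feas_ne L hv)
  rw [← sum_fiberwise univ f]
  refine (sum_le_sum fun j _ => W_bin _ _ (fun i _ => (hv _ (List.get_mem _ _)).1) (hf j)).trans ?_
  simp [mul_comm]

lemma sum_inv (r : ℕ) : ∑ j ∈ range r, 1 / T j + s r = 1 := by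
  induction r with
  | zero => simp [s_zero]
  | succ r ih => rw [sum_range_succ]; linarith [s_sub r]

lemma cnt {ι : Type} (F : Finset ι) (x : ι → ℝ) (m : ℕ) (hx : ∀ i ∈ F, 1 / T m < x i)
    (h : ∑ i ∈ F, x i ≤ 1) : (F.card : ℝ) ≤ T m - 1 := by
  rcases F.eq_empty_or_nonempty with rfl | hne
  · simp; linarith [T_ge m]
  have a1 := sum_lt_sum_of_nonempty hne hx
  rw [sum_const, nsmul_eq_mul, mul_one_div] at a1
  have a2 : (F.card : ℝ) < T m := by
    have := a1.trans_le h; rwa [div_lt_one (T_pos m)] at this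
  have a3 : F.card + 1 ≤ ts m := by unfold T at a2; exact_mod_cast a2
  have : ((F.card + 1 : ℕ) : ℝ) ≤ T m := Nat.cast_le.mpr a3
  push_cast at this; linarith

/-- Every bounded-space algorithm needs many bins on the phase lists. -/
theorem lower (A : List ℝ → ℝ → ℕ) (k : ℕ)
    (h1 : ∀ L : List ℝ, Val L → ∀ b : ℕ, ∑ i ∈ (univ : Finset (Fin L.length)).filter
      (fun i : Fin L.length => A (L.take (i : ℕ)) (L.get i) = b), L.get i ≤ 1)
    (h2 : ∀ p : List ℝ, Val p →
      Set.ncard {b : ℕ | (∃ i : Fin p.length, A (p.take (i : ℕ)) (p.get i) = b) ∧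
      ∃ q : List ℝ, ∃ x : ℝ, Val q ∧ 0 < x ∧ x ≤ 1 ∧ A (p ++ q) x = b} ≤ k)
    (r N : ℕ) (hr : 0 < r) (hN : 0 < N) : ∃ L : List ℝ, Val L ∧ sInf (Feas L) = N ∧
      N * ∑ j ∈ range r, s j - r * k ≤ (((univ : Finset (Fin L.length)).image
        (fun i : Fin L.length => A (L.take (i : ℕ)) (L.get i))).card : ℝ) := by
  have r0 : (0 : ℝ) < r := by exact_mod_cast hr
  set e : ℝ := s r / r with he
  have e0 : 0 < e := div_pos (s_pos r) r0
  set z : ℕ → ℝ := fun j => 1 / T j + e with hz
  have zs : ∑ j ∈ range r, z j = 1 := by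
    rw [sum_add_distrib, sum_const, card_range, nsmul_eq_mul, he, mul_div_cancel₀ _ r0.ne', sum_inv]
  have z0 : ∀ j, 0 < z j := fun j => add_pos (inv_pos' j) e0
  have z1 : ∀ j < r, z j ≤ 1 := fun j hj =>
    zs ▸ single_le_sum (fun j _ => (z0 j).le) (mem_range.mpr hj)
  obtain ⟨L, hl, hg⟩ : ∃ L : List ℝ, L.length = r * N ∧ ∀ i : Fin L.length, L.get i = z (i / N) :=
    ⟨List.ofFn fun i : Fin (r * N) => z (i / N), by simp, fun i => by simp⟩
  have dv : ∀ i : Fin L.length, i / N < r := fun i =>
    (Nat.div_lt_iff_lt_mul hN).mpr (hl ▸ i.2)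
  have hv : Val L := fun y hy => by
    obtain ⟨i, rfl⟩ := List.mem_iff_get.mp hy
    rw [hg]; exact ⟨z0 _, z1 _ (dv i)⟩
  have ph : ∀ j < r, (univ.filter fun i : Fin L.length => i / N = j).card = N := by
    intro j hj
    have lt : ∀ c < N, j * N + c < L.length := fun c hc => by
      rw [hl]; nlinarith [Nat.mul_le_mul_right N (Nat.succ_le_of_lt hj)]
    refine Eq.trans ?_ (card_range N)
    refine (card_bij (fun c hc => (⟨j * N + c, lt c (mem_range.mp hc)⟩ : Fin L.length)) (fun c hc => ?_)
      (fun c _ d _ h => by simpa using h) fun i hi => ?_).symm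
    · simp only [mem_filter, mem_univ, true_and]
      rw [add_comm, Nat.add_mul_div_right _ _ hN, Nat.div_eq_of_lt (mem_range.mp hc), zero_add]
    · refine ⟨i % N, mem_range.mpr (Nat.mod_lt _ hN), Fin.ext ?_⟩
      change j * N + i % N = i
      rw [← (mem_filter.mp hi).2]; exact Nat.div_add_mod' _ _
  refine ⟨L, hv, le_antisymm (Nat.sInf_le ⟨fun i => ⟨i % N, Nat.mod_lt _ hN⟩, fun j => ?_⟩) ?_, ?_⟩
  · simp only [hg]
    rw [← zs, ← sum_image (f := z) (g := fun i : Fin L.length => i / N) fun a ha b hb c => Fin.ext ?_]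
    · exact sum_le_sum_of_subset_of_nonneg (fun a ha => by
        obtain ⟨i, -, rfl⟩ := mem_image.mp ha; exact mem_range.mpr (dv i)) fun j _ _ => (z0 j).le
    · have a1 := congrArg Fin.val (mem_filter.mp ha).2
      have a2 := congrArg Fin.val (mem_filter.mp hb).2
      simp only at a1 a2 c
      rw [← Nat.div_add_mod' a N, ← Nat.div_add_mod' b N, a1, a2, c]
  · obtain ⟨f, hf⟩ := Nat.sInf_mem (feas_ne L hv)
    have := card_le_mul_card_image (f := f) (univ.filter fun i : Fin L.length => i / N = 0) 1
      fun j _ => by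
        have := cnt ((univ.filter fun i : Fin L.length => i / N = 0).filter fun i => f i = j) L.get 0
          (fun i hi => by rw [hg, (mem_filter.mp (mem_filter.mp hi).1).2]; simp [hz, e0])
          (le_trans (sum_le_sum_of_subset_of_nonneg (filter_subset_filter _ (subset_univ _))
            fun i _ _ => (hv _ (List.get_mem _ _)).1.le) (hf j))
        rw [T_zero] at this
        exact_mod_cast this.trans_eq (by norm_num : (2 : ℝ) - 1 = 1)
    rw [ph 0 hr, one_mul] at this
    exact this.trans (card_le_univ _ |>.trans (by simp))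
  · set β : Fin L.length → ℕ := fun i => A (L.take i) (L.get i) with hβ
    have key : ∀ j ≤ r, N * ∑ l ∈ range j, s l - j * k ≤
        (((univ.filter fun i : Fin L.length => i / N < j).image β).card : ℝ) := by
      intro j
      induction j with
      | zero => intro _; simp
      | succ j ih =>
        intro hj
        have ih := ih (by omega)
        set P := (univ.filter fun i : Fin L.length => i / N < j).image β with hP
        set Q := (univ.filter fun i : Fin L.length => i / N = j).image β with hQ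
        have a1 : (univ.filter fun i : Fin L.length => i / N < j + 1).image β = P ∪ Q := by
          rw [hP, hQ, ← image_union, ← filter_or]
          congr 1; ext i; simp only [mem_filter, mem_univ, true_and]; omega
        have a2 : (N : ℝ) ≤ (T j - 1) * Q.card := by
          have := card_le_mul_card_image (f := β) (univ.filter fun i : Fin L.length => i / N = j)
            (ts j - 1) fun b _ => by
              have := cnt ((univ.filter fun i : Fin L.length => i / N = j).filter fun i => β i = b)
                L.get j (fun i hi => by rw [hg, (mem_filter.mp (mem_filter.mp hi).1).2]; simp [hz, e0])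
                (le_trans (sum_le_sum_of_subset_of_nonneg (filter_subset_filter _ (subset_univ _))
                  fun i _ _ => (hv _ (List.get_mem _ _)).1.le) (h1 L hv b))
              have e : T j - 1 = ((ts j - 1 : ℕ) : ℝ) := by
                rw [Nat.cast_sub (by linarith [ts_ge j])]; simp [T]
              rw [e] at this; exact_mod_cast this
          rw [ph j hj] at this
          have e : T j - 1 = ((ts j - 1 : ℕ) : ℝ) := by
            rw [Nat.cast_sub (by linarith [ts_ge j])]; simp [T]
          rw [e]; exact_mod_cast this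
        have a3 : (P ∩ Q).card ≤ k := by
          have lp : (L.take (j * N)).length = j * N := by
            rw [List.length_take, hl]; exact min_eq_left (Nat.mul_le_mul_right N (by omega))
          refine le_trans ?_ (h2 (L.take (j * N)) fun y hy => hv y (List.mem_of_mem_take hy))
          rw [← Set.ncard_coe_finset]
          refine Set.ncard_le_ncard (fun b hb => ?_) ((Set.finite_range _).subset fun b hb => hb.1)
          obtain ⟨b1, b2⟩ := mem_inter.mp (mem_coe.mp hb)
          obtain ⟨i, hi, rfl⟩ := mem_image.mp b1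
          obtain ⟨i', hi', c⟩ := mem_image.mp b2
          have l1 : (i : ℕ) < j * N := (Nat.div_lt_iff_lt_mul hN).mp (mem_filter.mp hi).2
          have l2 : j * N ≤ i' := (Nat.le_div_iff_mul_le hN).mp (mem_filter.mp hi').2.ge
          refine ⟨⟨⟨i, by rwa [lp]⟩, ?_⟩, (L.take i').drop (j * N), L.get i',
            fun y hy => hv y (List.mem_of_mem_take (List.mem_of_mem_drop hy)),
            (hv _ (List.get_mem _ _)).1, (hv _ (List.get_mem _ _)).2, ?_⟩
          · simp [hβ, List.take_take, min_eq_left l1.le]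
          · rw [← c, hβ]
            have : L.take (j * N) = (L.take i').take (j * N) := by
              rw [List.take_take, min_eq_left l2]
            rw [this, List.take_append_drop]
        have a4 : ((P ∪ Q).card : ℝ) + (P ∩ Q).card = P.card + Q.card := by
          exact_mod_cast card_union_add_card_inter P Q
        have a5 : ((P ∩ Q).card : ℝ) ≤ k := by exact_mod_cast a3
        have a6 : N * s j ≤ Q.card := by
          have := mul_le_mul_of_nonneg_left a2 (s_pos j).le
          rw [← mul_assoc, s_mul, one_mul] at this; linarith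
        rw [a1, sum_range_succ]; push_cast; linarith
    refine (key r le_rfl).trans (Nat.cast_le.mpr (card_le_card (image_subset_image (subset_univ _))))

end Pool.Agent.H37.Bp
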