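import Pool.Agent.H37.Gen

/-! Bushy trees. -/

set_option autoImplicit false

namespace Pool.Agent.H37.Bush

open Encodable

/-- `S` is `p`-big above a node -/
inductive Big (p : ℕ → ℕ) (S : List ℕ → Prop) : List ℕ → Prop
  | base {σ : List ℕ} : S σ → Big p S σ
  | step {σ : List ℕ} (F : Finset ℕ) : p σ.length ≤ F.card → (∀ x ∈ F, Big p S (σ ++ [x])) →
      Big p S σ

variable {p q : ℕ → ℕ} {S T : List ℕ → Prop} {σ : List ℕ}

theorem Big.bind (h : Big p S σ) (hp : ∀ n, q n ≤ p n) (hS : ∀ ρ, S ρ → Big q T ρ) : Big q T σ := by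
  induction h with
  | base h => exact hS _ h
  | step F h _ ih => exact .step F ((hp _).trans h) ih

theorem Big.mono (h : Big p S σ) (hp : ∀ n, q n ≤ p n) (hS : ∀ ρ, S ρ → T ρ) : Big q T σ :=
  h.bind hp fun ρ h => .base (hS ρ h)

theorem Big.union (h : Big (fun n => p n + q n) (fun ρ => S ρ ∨ T ρ) σ) : Big p S σ ∨ Big q T σ := by
  classical
  induction h with
  | base h => exact h.imp .base .base
  | @step σ F h _ ih =>
    have := Finset.card_filter_add_card_filter_not (s := F) fun x => Big p S (σ ++ [x])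
    rcases le_or_gt (p σ.length) (F.filter fun x => Big p S (σ ++ [x])).card with h1 | h1
    · exact Or.inl (.step _ h1 fun x hx => (Finset.mem_filter.1 hx).2)
    · exact Or.inr (.step (F.filter fun x => ¬ Big p S (σ ++ [x])) (by omega) fun x hx =>
        (ih x (Finset.mem_filter.1 hx).1).resolve_left (Finset.mem_filter.1 hx).2)

theorem Big.list {ι : Type} {R : ι → List ℕ → Prop} (l : List ι)
    (h : Big (fun n => l.length * p n + 1) (fun ρ => ∃ v ∈ l, R v ρ) σ) : ∃ v ∈ l, Big p (R v) σ := by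
  induction l with
  | nil =>
    exfalso
    induction h with
    | base h => simp at h
    | step F h _ ih =>
      obtain ⟨x, hx⟩ := Finset.card_pos.1 (lt_of_lt_of_le (by simp) h)
      exact ih x hx
  | cons a l ih =>
    rcases Big.union (p := p) (q := fun n => l.length * p n + 1) (S := R a)
      (h.mono (fun n => by simp [add_mul]; omega) fun ρ h => by simpa using h) with h | h
    · exact ⟨a, List.mem_cons_self, h⟩
    · exact (ih h).imp fun v h => ⟨List.mem_cons_of_mem _ h.1, h.2⟩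

theorem extend (h : ¬ Big p S σ) (N : ℕ) : ∃ τ, σ <+: τ ∧ N ≤ τ.length ∧ ¬ Big p S τ := by
  induction N with
  | zero => exact ⟨σ, List.prefix_rfl, Nat.zero_le _, h⟩
  | succ N ih =>
    obtain ⟨τ, h1, h2, h3⟩ := ih
    obtain ⟨x, hx⟩ : ∃ x, ¬ Big p S (τ ++ [x]) := by_contra fun hc =>
      h3 (.step (Finset.range (p τ.length)) (by simp) fun x _ => by_contra fun h => hc ⟨x, h⟩)
    exact ⟨_, h1.trans (List.prefix_append _ _), by simpa, hx⟩

/-- number of children of `τ` in `L` with last entry below `b` -/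
def kids (L : List (List ℕ)) (b : ℕ) (τ : List ℕ) : ℕ :=
  (List.range b).countP fun x => decide (τ ++ [x] ∈ L)

@[fun_prop] theorem ci_kids {α : Type} [Primcodable α] {O : Set (ℕ →. ℕ)} {L : α → List (List ℕ)}
    {b : α → ℕ} {τ : α → List ℕ} (hL : CI O L) (hb : CI O b) (hτ : CI O τ) :
    CI O fun a => kids (L a) (b a) (τ a) := by unfold kids; fun_prop

theorem kids_eq (L : List (List ℕ)) (b : ℕ) (τ : List ℕ) :
    kids L b τ = ((Finset.range b).filter fun x => τ ++ [x] ∈ L).card := by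
  rw [kids, List.countP_eq_length_filter, ← List.toFinset_card_of_nodup (List.nodup_range.filter _),
    List.toFinset_filter, List.toFinset_range]
  simp

theorem kids_mono {L L' : List (List ℕ)} {b b' : ℕ} (h : L ⊆ L') (hb : b ≤ b') (τ : List ℕ) :
    kids L b τ ≤ kids L' b' τ := by
  rw [kids_eq, kids_eq]
  refine Finset.card_le_card fun x hx => ?_
  simp only [Finset.mem_filter, Finset.mem_range] at hx ⊢
  exact ⟨by omega, h hx.2⟩

/-- a finite certificate of bigness -/
def Cert (p : ℕ → ℕ) (S : List ℕ → Prop) (L : List (List ℕ)) (b : ℕ) : Prop :=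
  ∀ τ ∈ L, S τ ∨ p τ.length ≤ kids L b τ

theorem Cert.mono {L : List (List ℕ)} {b b' : ℕ} (h : Cert p S L b) (hb : b ≤ b') : Cert p S L b' :=
  fun τ hτ => (h τ hτ).imp_right fun h => h.trans (kids_mono (List.Subset.refl _) hb τ)

theorem Cert.big {L : List (List ℕ)} {b : ℕ} (h : Cert p S L b) (hσ : σ ∈ L) :
    Big p (fun ρ => ρ ∈ L ∧ σ <+: ρ ∧ S ρ) σ := by
  suffices H : ∀ n, ∀ τ ∈ L, (L.map List.length).sum < τ.length + n → σ <+: τ →
      Big p (fun ρ => ρ ∈ L ∧ σ <+: ρ ∧ S ρ) τ from H _ σ hσ (Nat.lt_add_left _ (Nat.lt_succ_self _))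
    List.prefix_rfl
  intro n
  induction n with
  | zero =>
    exact fun τ h1 h2 => absurd (List.single_le_sum (by simp) _ (List.mem_map_of_mem h1)) h2.not_ge
  | succ n ih =>
    intro τ h1 h2 h3
    rcases h τ h1 with h4 | h4
    · exact .base ⟨h1, h3, h4⟩
    · exact .step _ (kids_eq L b τ ▸ h4) fun x hx => ih _ (Finset.mem_filter.1 hx).2
        (by simp; omega) (h3.trans (List.prefix_append _ _))

theorem Big.cert (h : Big p S σ) : ∃ L b, σ ∈ L ∧ Cert p S L b := by
  induction h with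
  | @base σ h => exact ⟨[σ], 0, by simp, by simp [Cert, h]⟩
  | @step σ F h h' ih =>
    have : ∃ L b, (∀ x ∈ F, σ ++ [x] ∈ L ∧ x < b) ∧ Cert p S L b := by
      clear h h'
      induction F using Finset.induction_on with
      | empty => exact ⟨[], 0, by simp, by simp [Cert]⟩
      | insert x F _ ih' =>
        obtain ⟨L, b, h1, h2⟩ := ih' fun y hy => ih y (Finset.mem_insert_of_mem hy)
        obtain ⟨L', b', h3, h4⟩ := ih x (Finset.mem_insert_self _ _)
        refine ⟨L ++ L', b + b' + x + 1, fun y hy => ?_, fun τ hτ => ?_⟩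
        · rcases Finset.mem_insert.1 hy with rfl | hy
          · exact ⟨List.mem_append_right _ h3, by omega⟩
          · exact ⟨List.mem_append_left _ (h1 y hy).1, by have := (h1 y hy).2; omega⟩
        · rcases List.mem_append.1 hτ with hτ | hτ
          · exact (h2 τ hτ).imp_right fun h => h.trans (kids_mono (by simp) (by omega) τ)
          · exact (h4 τ hτ).imp_right fun h => h.trans (kids_mono (by simp) (by omega) τ)
    obtain ⟨L, b, h1, h2⟩ := this
    refine ⟨σ :: L, b, by simp, fun τ hτ => ?_⟩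
    rcases List.mem_cons.1 hτ with rfl | hτ
    · refine Or.inr (h.trans ?_)
      rw [kids_eq]
      exact Finset.card_le_card fun x hx => by simp [h1 x hx]
    · exact (h2 τ hτ).imp_right fun h => h.trans (kids_mono (by simp) le_rfl τ)

theorem Cert.path {L : List (List ℕ)} {b : ℕ} (h : Cert p S L b) (hσ : σ ∈ L) (hT : ¬ Big p T σ) :
    ∃ ρ ∈ L, σ <+: ρ ∧ S ρ ∧ ¬ Big p T ρ := by
  by_contra hc
  exact hT ((h.big hσ).bind (fun _ => le_rfl) fun ρ h => by_contra fun h' =>
    hc ⟨ρ, h.1, h.2.1, h.2.2, h'⟩)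

theorem re_big (hp : CI ∅ p) (hS : REPred S) : REPred (Big p S) := by
  obtain ⟨D, hD, hm, eD⟩ := re_stage hS
  obtain ⟨F, hF, eF⟩ : ∃ F : List ℕ × ℕ → Bool, CI ∅ F ∧ ∀ a b, D a b = F (a, b) :=
    ⟨_, hD, fun _ _ => rfl⟩
  refine re_of_exists (fun σ (q : List (List ℕ) × ℕ) => decide (σ ∈ q.1) && q.1.all fun τ =>
    F (τ, q.2) || decide (p τ.length ≤ kids q.1 q.2 τ)) (by fun_prop) fun σ => ?_
  simp only [Bool.and_eq_true, decide_eq_true_eq, List.all_eq_true, Bool.or_eq_true, ← eF]
  constructor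
  · intro h
    obtain ⟨L, b, h1, h2⟩ := h.cert
    obtain ⟨s, hs⟩ := exists_stage_all L (fun τ s => D τ s || decide (p τ.length ≤ kids L s τ))
      (fun τ s t h h' => by
        simp only [Bool.or_eq_true, decide_eq_true_eq] at h' ⊢
        exact h'.imp (hm _ _ _ h) fun h' => h'.trans (kids_mono (List.Subset.refl _) h τ))
      fun τ hτ => (h2 τ hτ).elim (fun h => ((eD τ).1 h).imp fun s hs => by simp [hs])
        fun h => ⟨b, by simp [h]⟩
    exact ⟨(L, s), h1, by simpa using hs s le_rfl⟩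
  · rintro ⟨⟨L, s⟩, h1, h2⟩
    exact (Cert.big (S := S) (fun τ hτ => (h2 τ hτ).imp_left fun h => (eD τ).2 ⟨s, h⟩) h1).mono
      (fun _ => le_rfl) fun _ h => h.2.2

end Pool.Agent.H37.Bush
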