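import Pool.Agent.H37.Bush1
import Pool.Agent.H37.Attr1

/-! A bushy generic function whose bounded computable functions are guessed by fireworks. -/

set_option autoImplicit false

namespace Pool.Agent.H37.Bush

open Encodable Filter Rnd Hd

/-- states: lists of certificates with values -/
abbrev St := List (List (List ℕ) × List Bool)

/-- the nodes of a state -/
def nodes (x : St) : List (List ℕ) := x.flatMap fun q => q.1

/-- functional `c` with oracle string `ρ` outputs `v` below `n!` -/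
def Sb (c n : ℕ) (v : List Bool) (ρ : List ℕ) : Bool :=
  (List.range n.factorial).all fun m => U c ρ m == some (v.getD m false).toNat

theorem Sb_mono {c n : ℕ} {v : List Bool} {ρ τ : List ℕ} (h : ρ <+: τ) (hs : Sb c n v ρ = true) :
    Sb c n v τ = true := by
  simp only [Sb, List.all_eq_true, beq_iff_eq] at hs ⊢
  exact fun m hm => U_mon c _ _ _ _ h (hs m hm)

theorem ci_Sb : CI ∅ fun q : (ℕ × ℕ) × List Bool × List ℕ => Sb q.1.1 q.1.2 q.2.1 q.2.2 := by
  have : CI ∅ Nat.factorial := CI.of_rec1 (h := fun n x => (n + 1) * x) (by fun_prop) fun _ => rfl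
  unfold Sb; fun_prop

attribute [irreducible] Sb

/-- parameters of a strategy -/
def par (e : ℕ) : List ℕ × ℕ × ℕ × ℕ := (decode e.unpair.2).getD ([], 0, 0, 0)

/-- the node `τ` is irrelevant, or bad, or has a certificate in `y` -/
def cl (e n : ℕ) (τ : List ℕ) (y : List (List ℕ) × List Bool) (s : ℕ) : Bool :=
  τ.take (par e).1.length != (par e).1 || (ev (par e).2.1 (encode τ) s).isSome ||
    (decide (τ ∈ y.1) && y.1.all fun ρ => Sb (par e).2.2.2 n y.2 ρ ||
      decide ((par e).2.2.1 * 2 ^ ρ.length ≤ kids y.1 s ρ))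

/-- `y` may follow `x` -/
def chk (e s0 : ℕ) (x y : St) (s : ℕ) : Bool := (List.range (nodes x).length).all fun i =>
  cl e (Nat.pair e (Nat.pair s0 i)) ((nodes x).getD i []) (y.getD i ([], [])) s

theorem ci_chk : CI ∅ fun q : (ℕ × ℕ) × St × St × ℕ => chk q.1.1 q.1.2 q.2.1 q.2.2.1 q.2.2.2 := by
  obtain ⟨F, hF, eF⟩ : ∃ F : (ℕ × ℕ) × List Bool × List ℕ → Bool, CI ∅ F ∧
      ∀ a b c d, Sb a b c d = F ((a, b), c, d) := ⟨_, ci_Sb, fun _ _ _ _ => rfl⟩
  simp only [chk, cl, nodes, par, eF]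
  fun_prop

attribute [irreducible] chk

/-- creation stage, counter and state -/
def st (e : ℕ) : ℕ → ℕ × ℕ × St
  | 0 => (0, 0, [([(par e).1], [])])
  | s + 1 => bif chk e (st e s).1 (st e s).2.2 ((decode s.unpair.1).getD []) s then
      (s + 1, (st e s).2.1 + 1, (decode s.unpair.1).getD []) else st e s

theorem ci_st : CI ∅ fun q : ℕ × ℕ => st q.1 q.2 := by
  obtain ⟨F, hF, eF⟩ : ∃ F : (ℕ × ℕ) × St × St × ℕ → Bool, CI ∅ F ∧
      ∀ a b c d e, chk a b c d e = F ((a, b), c, d, e) := ⟨_, ci_chk, fun _ _ _ _ _ => rfl⟩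
  exact CI.of_rec (g := fun e => (0, 0, [([(par e).1], [])])) (h := fun e s p =>
    bif F ((e, p.1), p.2.2, (decode s.unpair.1).getD [], s) then
      (s + 1, p.2.1 + 1, (decode s.unpair.1).getD []) else p) (by unfold par; fun_prop)
    (by fun_prop) (fun _ => rfl) fun _ _ => by rw [st, eF]

theorem st_succ (e s : ℕ) : st e (s + 1) = st e s ∨ ((st e (s + 1)).1 = s + 1 ∧
    (st e (s + 1)).2.1 = (st e s).2.1 + 1 ∧
      chk e (st e s).1 (st e s).2.2 (st e (s + 1)).2.2 s = true) := by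
  rw [st]
  cases h : chk e (st e s).1 (st e s).2.2 ((decode s.unpair.1).getD []) s <;> simp [h]

theorem ct_mono (e : ℕ) : Monotone fun s => (st e s).2.1 := monotone_nat_of_le_succ fun s => by
  rcases st_succ e s with h | h
  · rw [h]
  · omega

theorem ct_ivt {e s j : ℕ} (h : j ≤ (st e s).2.1) : ∃ t, (st e t).2.1 = j := by
  induction s with
  | zero => exact ⟨0, (Nat.le_zero.1 h).symm⟩
  | succ s ih =>
    rcases h.eq_or_lt with h1 | h1
    · exact ⟨_, h1.symm⟩
    · rcases st_succ e s with h2 | h2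
      · exact ih (h2 ▸ h)
      · exact ih (by omega)

theorem st_eq {e s t : ℕ} (h : (st e s).2.1 = (st e t).2.1) : st e s = st e t := by
  wlog hs : s ≤ t generalizing s t
  · exact (this h.symm (le_of_not_ge hs)).symm
  induction t, hs using Nat.le_induction with
  | base => rfl
  | succ t ht ih =>
    have := ct_mono e ht
    rcases st_succ e t with h2 | h2
    · rw [h2] at h ⊢; exact ih h
    · simp only at this; omega

theorem st_trans {e s j : ℕ} (h : (st e s).2.1 = j + 1) :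
    ∃ t, (st e t).2.1 = j ∧ chk e (st e t).1 (st e t).2.2 (st e s).2.2 t = true := by
  induction s with
  | zero => simp [st] at h
  | succ s ih =>
    rcases st_succ e s with h2 | h2
    · rw [h2] at h ⊢; exact ih h
    · exact ⟨s, by omega, h2.2.2⟩

theorem st_time (e s : ℕ) : st e (st e s).1 = st e s := by
  induction s with
  | zero => rfl
  | succ s ih =>
    rcases st_succ e s with h2 | h2
    · rwa [h2]
    · rw [h2.1]

theorem st_next {e s : ℕ} {y : St} (h : ∀ᶠ t in atTop, chk e (st e s).1 (st e s).2.2 y t = true) :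
    ∃ t, (st e t).2.1 = (st e s).2.1 + 1 := by
  obtain ⟨N, hN⟩ := eventually_atTop.1 h
  have h1 := Nat.right_le_pair (encode y) (N + s)
  by_contra hc
  have h2 := st_eq ((ct_mono e (show s ≤ Nat.pair (encode y) (N + s) by omega)).antisymm
    (le_of_not_gt fun h => hc (ct_ivt h)))
  exact hc ⟨Nat.pair (encode y) (N + s) + 1, by simp [st, ← h2, hN _ (le_trans (Nat.le_add_right N s) h1)]⟩

theorem fire : ∃ bad : ℕ → ℕ, ∀ (O : Set (ℕ →. ℕ)) (r : ℕ → ℕ), CI O r → (∀ e, r e ≠ bad e) →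
    ∃ Ψ : ℕ × ℕ → Bool, CI O Ψ ∧ ∀ e s0 i s m, (st e s0).2.1 = r e → (st e s).2.1 = r e + 1 →
      Ψ (Nat.pair e (Nat.pair s0 i), m) = !((st e s).2.2.getD i ([], [])).2.getD m false := by
  have : ∀ e, ∃ b, ∀ s, (st e s).2.1 ≠ b → ∃ t, (st e t).2.1 = (st e s).2.1 + 1 := fun e => by
    by_cases h : ∃ s, ¬ ∃ t, (st e t).2.1 = (st e s).2.1 + 1
    · obtain ⟨s, hs⟩ := h
      exact ⟨(st e s).2.1, fun s' h' => ct_ivt (s := s) (lt_of_le_of_ne
        (le_of_not_gt fun h => hs (ct_ivt h)) h')⟩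
    · exact ⟨0, fun s _ => by_contra fun h' => h ⟨s, h'⟩⟩
  choose bad hb using this
  refine ⟨bad, fun O r hr h => ?_⟩
  obtain ⟨S, hS, eS⟩ : ∃ S : ℕ × ℕ → ℕ × ℕ × St, CI O S ∧ ∀ a b, st a b = S (a, b) :=
    ⟨_, ci_st.of_empty, fun _ _ => rfl⟩
  obtain ⟨u, hu, hu'⟩ := CI.exists_choice (O := O) (p := fun n s : ℕ =>
    (S (n.unpair.1, n.unpair.2.unpair.1)).2.1 != r n.unpair.1 ||
      (S (n.unpair.1, s)).2.1 == r n.unpair.1 + 1) (by fun_prop) fun n => by
    by_cases hc : (st n.unpair.1 n.unpair.2.unpair.1).2.1 = r n.unpair.1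
    · exact (hb _ _ (hc ▸ h _)).imp fun s hs => by simp [← eS, hs, hc]
    · exact ⟨0, by simp [← eS, hc]⟩
  refine ⟨fun q => !((S (q.1.unpair.1, u q.1)).2.2.getD q.1.unpair.2.unpair.2 ([], [])).2.getD
    q.2 false, by fun_prop, fun e s0 i s m h1 h2 => ?_⟩
  have := hu' (Nat.pair e (Nat.pair s0 i))
  simp only [Nat.unpair_pair, ← eS, h1, bne_self_eq_false, Bool.false_or, beq_iff_eq] at this ⊢
  rw [st_eq (this.trans h2.symm)]

theorem rounds {σ : List ℕ} {B : List ℕ → Prop} {d k c e : ℕ} (he : par e = (σ, d, k, c))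
    (hd : ∀ τ, Big (fun n => k * 2 ^ n) B τ ↔ ∃ s, (ev d (encode τ) s).isSome = true)
    (h0 : ¬ Big (fun n => k * 2 ^ n) B σ)
    (h : ∀ τ n, σ <+: τ → ¬ Big (fun n => k * 2 ^ n) B τ →
      ∃ v, Big (fun n => k * 2 ^ n) (fun ρ => Sb c n v ρ = true) τ) (J : ℕ) :
    ∃ s τ, (st e s).2.1 = J ∧ τ ∈ nodes (st e s).2.2 ∧ σ <+: τ ∧ ¬ Big (fun n => k * 2 ^ n) B τ ∧
      ∀ j < J, ∃ s0 i s, (st e s0).2.1 = j ∧ (st e s).2.1 = j + 1 ∧
        Sb c (Nat.pair e (Nat.pair s0 i)) ((st e s).2.2.getD i ([], [])).2 τ = true := by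
  induction J with
  | zero => exact ⟨0, σ, rfl, by simp [st, nodes, he], List.prefix_rfl, h0, by simp⟩
  | succ J ih =>
    obtain ⟨s, τ, h1, h2, h3, h4, h5⟩ := ih
    have : ∀ n ρ, ∃ y, ∀ᶠ t in atTop, cl e n ρ y t = true := fun n ρ => by
      simp only [cl, he, Bool.or_eq_true, bne_iff_ne, Bool.and_eq_true, decide_eq_true_eq,
        List.all_eq_true]
      by_cases a1 : σ <+: ρ
      · by_cases a2 : Big (fun n => k * 2 ^ n) B ρ
        · obtain ⟨t, ht⟩ := (hd ρ).1 a2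
          obtain ⟨v, hv⟩ := Option.isSome_iff_exists.1 ht
          exact ⟨([], []), (eventually_ge_atTop t).mono fun t' h' => by simp [ev_mono h' hv]⟩
        · obtain ⟨v, hv⟩ := h ρ n a1 a2
          obtain ⟨L, b, a3, a4⟩ := hv.cert
          exact ⟨(L, v), (eventually_ge_atTop b).mono fun t h' => Or.inr ⟨a3, a4.mono h'⟩⟩
      · exact ⟨([], []), .of_forall fun t => Or.inl (Or.inl fun h => a1 (h ▸ List.take_prefix _ _))⟩
    choose Y hY using this
    obtain ⟨t, ht⟩ := st_next (e := e) (s := s) (y := (List.range (nodes (st e s).2.2).length).map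
      fun i => Y (Nat.pair e (Nat.pair (st e s).1 i)) ((nodes (st e s).2.2).getD i [])) (by
      refine ((eventually_all_finset (Finset.range (nodes (st e s).2.2).length)).2 fun i _ =>
        hY (Nat.pair e (Nat.pair (st e s).1 i)) ((nodes (st e s).2.2).getD i [])).mono fun t ht => ?_
      unfold chk
      refine List.all_eq_true.2 fun i hi => ?_
      rw [List.mem_range] at hi
      simpa [hi] using ht i (Finset.mem_range.2 hi))
    obtain ⟨s1, a1, a2⟩ := st_trans ht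
    rw [st_eq a1] at a2
    obtain ⟨i, hi, rfl⟩ := List.getElem_of_mem h2
    unfold chk at a2
    have a3 := List.all_eq_true.1 a2 i (List.mem_range.2 hi)
    rw [List.getD_eq_getElem _ _ hi] at a3
    simp only [cl, he, Bool.or_eq_true, bne_iff_ne, Bool.and_eq_true, decide_eq_true_eq,
      List.all_eq_true] at a3
    obtain ⟨a4, a5⟩ := a3.resolve_left fun h => h.elim (fun h => h (List.prefix_iff_eq_take.1 h3).symm)
      fun h => h4 ((hd _).2 ⟨_, h⟩)
    obtain ⟨ρ, b1, b2, b3, b4⟩ := Cert.path (p := fun n => k * 2 ^ n) a5 a4 h4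
    refine ⟨t, ρ, by omega, List.mem_flatMap.2 ⟨_, ?_, b1⟩, h3.trans b2, b4, fun j hj => ?_⟩
    · rcases lt_or_ge i (st e t).2.2.length with h | h
      · rw [List.getD_eq_getElem _ _ h]; exact List.getElem_mem h
      · rw [List.getD_eq_default _ _ h] at b1; cases b1
    · rcases Nat.lt_succ_iff_lt_or_eq.1 hj with hj | rfl
      · obtain ⟨s0, i, s', c1, c2, c3⟩ := h5 j hj
        exact ⟨s0, i, s', c1, c2, Sb_mono b2 c3⟩
      · exact ⟨_, i, t, by rw [st_time, h1], by omega, b3⟩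

theorem rex {α β : Type} [Primcodable α] [Primcodable β] {r : α × β → Prop} (h : REPred r) :
    REPred fun a => ∃ b, r (a, b) := re_exists (p := fun a b => r (a, b)) h

theorem bushy {H : ℕ × ℕ → Prop} (hH : REPred H)
    (hs : ∀ n (F : Finset ℕ), 2 ^ n ≤ F.card → ∃ v ∈ F, ¬ H (n, v)) (M : ℕ → ℕ) :
    ∃ a : ℕ → ℕ, (∀ n, ¬ H (n, a n)) ∧ ∀ X : ℕ → Bool, CI (orc a) X → ∀ N, ∃ e, N ≤ e ∧ ∀ j ≤ M e,
      ∃ s0 i s, (st e s0).2.1 = j ∧ (st e s).2.1 = j + 1 ∧
        ∀ m < (Nat.pair e (Nat.pair s0 i)).factorial,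
          ((st e s).2.2.getD i ([], [])).2.getD m false = X m := by
  let B0 : List ℕ → Prop := fun τ => ∃ n, n < τ.length ∧ H (n, τ.getD n 0)
  have hC : ∀ c n, REPred fun ρ => ∃ v ∈ W n.factorial, Sb c n v ρ = true := fun c n =>
    re_of_bool (fun ρ => (W n.factorial).any fun v => Sb c n v ρ) (CI.any (by fun_prop)
      (ci_Sb.comp (g := fun q : List ℕ × List Bool => ((c, n), q.2, q.1)) (by fun_prop))) (by simp)
  obtain ⟨s, h0, h1, h2, h3⟩ := chain (P := List ℕ × (List ℕ → Prop) × ℕ) (ι := ℕ × ℕ)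
    (fun q p => p.1 <+: q.1 ∧ ∀ ρ, p.2.1 ρ → q.2.1 ρ) (fun _ => ⟨List.prefix_rfl, fun _ h => h⟩)
    (fun _ _ _ h h' => ⟨h'.1.trans h.1, fun ρ a => h.2 ρ (h'.2 ρ a)⟩)
    (fun p => REPred p.2.1 ∧ ¬ Big (fun n => p.2.2 * 2 ^ n) p.2.1 p.1)
    (fun i q => i.2 ≤ q.1.length ∧ ((∃ n, ∀ ρ, (∃ v ∈ W n.factorial, Sb i.1 n v ρ = true) → q.2.1 ρ) ∨
      ∃ e, i.2 ≤ e ∧ ∀ j ≤ M e, ∃ s0 l s, (st e s0).2.1 = j ∧ (st e s).2.1 = j + 1 ∧
        Sb i.1 (Nat.pair e (Nat.pair s0 l)) ((st e s).2.2.getD l ([], [])).2 q.1 = true))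
    (by
      rintro ⟨c, N⟩ ⟨σ0, B, k⟩ ⟨hB, hσ⟩
      obtain ⟨σ, a1, a2, a3⟩ := extend hσ N
      by_cases hc : ∃ τ n K, σ <+: τ ∧ ¬ Big (fun n => K * 2 ^ n)
          (fun ρ => B ρ ∨ ∃ v ∈ W n.factorial, Sb c n v ρ = true) τ
      · obtain ⟨τ, n, K, b1, b2⟩ := hc
        exact ⟨(τ, _, K), ⟨re_or hB (hC c n), b2⟩, ⟨a1.trans b1, fun _ => Or.inl⟩,
          a2.trans b1.length_le, Or.inl ⟨n, fun _ => Or.inr⟩⟩
      push Not at hc
      obtain ⟨d, hd⟩ := re_index (re_big (p := fun n => k * 2 ^ n) (by fun_prop) hB)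
      obtain ⟨t, τ, -, -, b1, b2, b3⟩ := rounds (e := Nat.pair N (encode (σ, d, k, c)))
        (by simp only [par, Nat.unpair_pair, encodek, Option.getD_some]) hd a3 (fun τ n b1 b2 =>
          ((Big.union ((hc τ n (k + (W n.factorial).length * k + 1) b1).mono (fun n => by
            have := Nat.one_le_two_pow (n := n)
            simp only [add_mul, mul_assoc]; omega) fun _ h => h)).resolve_left b2).list.imp
          fun _ h => h.2) (M (Nat.pair N (encode (σ, d, k, c))) + 1)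
      exact ⟨(τ, B, k), ⟨hB, b2⟩, ⟨a1.trans b1, fun _ h => h⟩, a2.trans b1.length_le,
        Or.inr ⟨_, Nat.left_le_pair _ _, fun j hj => b3 j (Nat.lt_succ_of_le hj)⟩⟩)
    ([], B0, 1) ⟨rex (r := fun q : List ℕ × ℕ => q.2 < q.1.length ∧ H (q.2, q.1.getD q.2 0))
      (re_and (re_of_bool (fun q => decide (q.2 < q.1.length)) (by fun_prop) (by simp))
        (REPred.comp' hH (by fun_prop))), fun h => by
      have : ∀ τ, Big (fun n => 1 * 2 ^ n) B0 τ → B0 τ := fun τ h => by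
        induction h with
        | base h => exact h
        | @step τ F h _ ih =>
          obtain ⟨v, h1, h2⟩ := hs τ.length F (by omega)
          obtain ⟨n, h3, h4⟩ := ih v h1
          rcases lt_or_ge n τ.length with h5 | h5
          · exact ⟨n, h5, by rwa [List.getD_append _ _ _ _ h5] at h4⟩
          · obtain rfl : n = τ.length := by simp at h3; omega
            simp [h2] at h4
      simpa [B0] using this _ h⟩
  choose K hK using fun N => h3 (0, N)
  let a : ℕ → ℕ := fun n => (s (K (n + 1))).1.getD n 0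
  have h4 : ∀ m, pre a (s m).1.length = (s m).1 := fun m => by
    refine (pre_congr fun i hi => ?_).trans (pre_getD _ 0)
    obtain ⟨ρ, e1⟩ := (h2 _ _ (le_max_left m (K (i + 1)))).1
    obtain ⟨ρ', e2⟩ := (h2 _ _ (le_max_right m (K (i + 1)))).1
    simp only [a]
    rw [← List.getD_append _ ρ _ _ hi, e1, ← e2, List.getD_append _ _ _ _ (hK (i + 1)).1]
  have h5 : ∀ m l, ∃ l', l ≤ l' ∧ ¬ (s m).2.1 (pre a l') := fun m l =>
    ⟨_, (hK l).1.trans (h2 _ _ (le_max_right m (K l))).1.length_le, fun h =>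
      (h1 _).2 (.base (h4 _ ▸ (h2 _ _ (le_max_left m (K l))).2 _ h))⟩
  refine ⟨a, fun n h => ?_, fun X hX N => ?_⟩
  · obtain ⟨l, a1, a2⟩ := h5 0 (n + 1)
    exact a2 (h0 ▸ ⟨n, by simpa, by rwa [getD_pre a a1]⟩)
  obtain ⟨c, hc⟩ := exists_app_tot (ci_bit.2 hX)
  obtain ⟨m, -, ⟨n, hn⟩ | ⟨e, a1, a2⟩⟩ := h3 (c, N)
  · obtain ⟨l, hl⟩ := eventually_atTop.1 ((eventually_all_finset (Finset.range n.factorial)).2
      fun i _ => mem_app'.1 (hc i))
    obtain ⟨l', a1, a2⟩ := h5 m l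
    refine absurd (hn _ ⟨pre X n.factorial, mem_W.2 (by simp), ?_⟩) a2
    unfold Sb
    refine List.all_eq_true.2 fun i hi => ?_
    rw [List.mem_range] at hi
    rw [hl l' a1 i (Finset.mem_range.2 hi), getD_pre X hi]
    exact beq_self_eq_true _
  · refine ⟨e, a1, fun j hj => ?_⟩
    obtain ⟨s0, i, t, b1, b2, b3⟩ := a2 j hj
    refine ⟨s0, i, t, b1, b2, fun l hl => ?_⟩
    unfold Sb at b3
    have b4 := beq_iff_eq.1 (List.all_eq_true.1 b3 l (List.mem_range.2 hl))
    rw [← h4] at b4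
    have := Part.mem_unique (mem_app.2 ⟨_, b4⟩) (hc l)
    revert this
    unfold bit
    cases X l <;> cases List.getD _ l false <;> simp

end Pool.Agent.H37.Bush
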