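import Pool.Agent.H37.Hd3

/-! A hyperimmune-free set and a hyperimmune PA set whose degrees are close. -/

set_option autoImplicit false

namespace Pool.Agent.H37.Hd

open MeasureTheory Filter Rnd Defc Encodable
open scoped ENNReal

/-- the even bits -/
def evn (ω : ℕ → Bool) (n : ℕ) : Bool := ω (2 * n)
/-- the odd bits -/
def odn (ω : ℕ → Bool) (n : ℕ) : Bool := ω (2 * n + 1)

/-- finite form of the test of the even bits of `ρ` against the join of `τ` and the odd bits -/
def Bd' (ρ τ : List Bool) : Bool :=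
  Bd ((List.range ρ.length).map fun n =>
      (if n % 2 = 0 then τ.getD (n / 2) false else ρ.getD n false).toNat)
    ((List.range (ρ.length / 2)).map fun n => ρ.getD (2 * n) false)

theorem ci_Bd' : CI ∅ fun q : List Bool × List Bool => Bd' q.1 q.2 :=
  ci_Bd.comp (g := fun q : List Bool × List Bool => ((List.range q.1.length).map fun n =>
      (if n % 2 = 0 then q.2.getD (n / 2) false else q.1.getD n false).toNat,
    (List.range (q.1.length / 2)).map fun n => q.1.getD (2 * n) false)) (by fun_prop)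

theorem Bd'_eq (ω z : ℕ → Bool) (s : ℕ) : Bd' (pre ω s) (pre z s) =
    Bd (pre (bit (join z (odn ω))) s) (pre (evn ω) (s / 2)) := by
  unfold Bd'
  rw [length_pre]
  congr 1 <;> refine List.map_congr_left fun n hn => ?_ <;> rw [List.mem_range] at hn
  · rw [getD_pre z (by omega), getD_pre ω hn]
    unfold bit join odn
    split_ifs
    · rfl
    · congr 2; omega
  · exact getD_pre ω (by omega) _

theorem meas_Bd (D : ℕ → Bool) : MeasurableSet {p : (ℕ → Bool) × (ℕ → Bool) |
    ∃ s, Bd (pre (bit (join p.2 D)) s) (pre p.1 (s / 2)) = true} := by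
  letI : MeasurableSpace (List Bool) := ⊤
  have : DiscreteMeasurableSpace (List Bool) := ⟨fun _ => trivial⟩
  refine measurableSet_setOf.2 (Measurable.exists fun s => ?_)
  have h : Measurable fun p : (ℕ → Bool) × (ℕ → Bool) => (pre (join p.2 D) s, pre p.1 (s / 2)) :=
    ((meas_pre id s).comp (meas_join.comp (measurable_snd.prodMk measurable_const))).prodMk
      ((meas_pre id _).comp measurable_fst)
  simpa [Function.comp_def, map_pre] using (measurable_of_countable
    fun q : List Bool × List Bool => Bd (q.1.map Bool.toNat) q.2 = true).comp h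

attribute [local irreducible] Bd Bd' W ev

/-- the sets whose join with `D` fails the test against `X` -/
def SS (X D : ℕ → Bool) (s : ℕ) : Set (ℕ → Bool) :=
  {z | Bd (pre (bit (join z D)) s) (pre X (s / 2)) = true}

theorem exists_X (D : ℕ → Bool) : ∃ X, ∀ s, P (SS X D s) ≤ 2⁻¹ ^ 2 := by
  obtain ⟨X, hX⟩ := exists_le_lintegral (μ := P)
    (measurable_measure_prodMk_left (ν := P) (meas_Bd D)).aemeasurable
  refine ⟨X, fun s => le_trans (measure_mono fun z hz => ?_) (hX.trans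
    (((Measure.prod_apply (meas_Bd D)).symm.trans (Measure.prod_apply_symm (meas_Bd D))).trans_le
      ((lintegral_mono (g := fun _ => 2⁻¹ ^ 2) fun z => ?_).trans ?_)))⟩
  · exact ⟨s, hz⟩
  · exact P_Bd (bit (join z D))
  · simp

theorem exists_om : ∃ ω : ℕ → Bool, (∀ c s, ev c c s ≠ some (bit (odn ω) c)) ∧
    (∀ s, P (SS (evn ω) (odn ω) s) ≤ 2⁻¹ ^ 2) ∧
    ∀ f : ℕ → ℕ, CI (orc (bit ω)) f → ∃ g, Computable g ∧ ∀ n, f n ≤ g n := by
  obtain ⟨F, hF, eF⟩ : ∃ F : List Bool × List Bool → Bool, CI ∅ F ∧ ∀ a b, Bd' a b = F (a, b) :=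
    ⟨_, ci_Bd', fun _ _ => rfl⟩
  have key : ∀ ω s, P (SS (evn ω) (odn ω) s) ≤ 2⁻¹ ^ 2 ↔
      ((W s).countP fun τ => F (pre ω s, τ)) * 2 ^ 2 ≤ 2 ^ s := fun ω s => by
    rw [← cnt_le, ← P_pre]
    simp only [← eF, Bd'_eq, SS]
  obtain ⟨ω, h1, h2⟩ := hif_basis (T := fun ρ => ((List.range (ρ.length / 2)).all fun c =>
      ev c c ρ.length != some (ρ.getD (2 * c + 1) false).toNat) &&
      decide (((W ρ.length).countP fun τ => F (ρ, τ)) * 2 ^ 2 ≤ 2 ^ ρ.length)) (by fun_prop) (by
    classical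
    let D : ℕ → Bool := fun c => decide (∃ s, ev c c s = some 0)
    obtain ⟨X, hX⟩ := exists_X D
    refine ⟨join X D, fun j => ?_⟩
    simp only [length_pre, Bool.and_eq_true, List.all_eq_true, List.mem_range, bne_iff_ne,
      decide_eq_true_eq, ← key]
    refine ⟨fun c hc h => ?_, ?_⟩
    · rw [getD_pre _ (by omega), join_od] at h
      by_cases h0 : ∃ s, ev c c s = some 0
      · simpa [D, h0] using ev_unique h0.choose_spec h
      · exact h0 ⟨j, by simpa [D, h0] using h⟩
    · rw [show odn (join X D) = D from funext (join_od X D),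
        show evn (join X D) = X from funext (join_ev X D)]
      exact hX j)
  simp only [length_pre, Bool.and_eq_true, List.all_eq_true, List.mem_range, bne_iff_ne,
    decide_eq_true_eq, ← key] at h1
  refine ⟨ω, fun c s h => (h1 (2 * c + 2 + s)).1 c (by omega) ?_, fun s => (h1 s).2, h2⟩
  rw [getD_pre _ (by omega)]
  exact ev_mono (by omega) h

theorem P_bad (bad : ℕ → ℕ) : P (⋃ e, {z | encode (pre z (e + 3)) = bad e}) ≤ 2⁻¹ ^ 2 := by
  refine (measure_iUnion_le _).trans ((ENNReal.tsum_le_tsum (g := fun e => 2⁻¹ ^ 3 * 2⁻¹ ^ e)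
    fun e => ?_).trans ?_)
  · rcases Set.eq_empty_or_nonempty {z : ℕ → Bool | encode (pre z (e + 3)) = bad e} with h | ⟨x, h⟩
    · simp [h]
    · have := P_cyl (pre x (e + 3))
      rw [length_pre, pow_add, mul_comm] at this
      rw [← this]
      refine measure_mono fun z hz => ?_
      simpa [cyl] using hz.trans (Eq.symm h)
  · rw [ENNReal.tsum_mul_left, ENNReal.tsum_geometric, ENNReal.one_sub_inv_two, inv_inv, pow_succ,
      mul_assoc, ENNReal.inv_mul_cancel (by simp) (by simp), mul_one]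

theorem three {A B C : Set (ℕ → Bool)} (h1 : P A ≤ 2⁻¹ ^ 2) (h2 : P B ≤ 2⁻¹ ^ 2)
    (h3 : P C ≤ 2⁻¹ ^ 2) : ∃ z, z ∉ A ∧ z ∉ B ∧ z ∉ C := by
  by_contra hc
  have h := (measure_union_le _ _).trans (add_le_add h1 ((measure_union_le _ _).trans
    (add_le_add h2 h3)))
  rw [Set.eq_univ_of_forall (s := A ∪ (B ∪ C))
    (fun z => by_contra fun h => hc ⟨z, by simpa [not_or] using h⟩), measure_univ,
    ← ENNReal.toReal_le_toReal (by simp) (by simp)] at h
  rw [ENNReal.toReal_add (by simp) (by simp), ENNReal.toReal_add (by simp) (by simp)] at h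
  norm_num at h

theorem main4 : ∃ X Y : ℕ → Bool,
    (∀ f : ℕ → ℕ, CI (orc (bit X)) f → ∃ g, Computable g ∧ ∀ n, f n ≤ g n) ∧
    (∃ f : ℕ → ℕ, CI (orc (bit Y)) f ∧ ∀ g, Computable g → ∃ n, g n < f n) ∧
    (∃ D, LE D Y ∧ ∀ c s, ev c c s ≠ some (bit D c)) ∧
    (∀ B, LE B Y → dl X B ≤ 7 / 8) ∧ ∃ z, LE z Y ∧ ∀ A, LE A X → dl z A ≤ 7 / 8 := by
  obtain ⟨ω, h0, h1, h2⟩ := exists_om
  obtain ⟨bad, hb⟩ := fire
  obtain ⟨z, z1, z2, z3⟩ := three (P_mono_le (S := SS (evn ω) (odn ω))
    (fun s t h z hz => Bd_mono h (Nat.div_le_div_right h) hz) h1) (P_Bd (bit (evn ω))) (P_bad bad)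
  have hz0 : CI (orc (bit (join z (odn ω)))) z := le_join_l _ _
  have h3 : LE (evn ω) ω := (LE.refl ω).comp (g := fun n => 2 * n) (by fun_prop)
  exact ⟨evn ω, join z (odn ω), fun f hf => h2 f (hf.trans (ci_bit.2 h3)),
    hb _ (fun e => encode (pre z (e + 3))) (by fun_prop) fun e h => z3 (Set.mem_iUnion.2 ⟨e, h⟩),
    ⟨odn ω, le_join_r _ _, h0⟩, fun B hB => dl_of_Bd (fun h => z1 (Set.mem_iUnion.2 h)) hB, z, hz0,
    fun A hA => dl_of_Bd z2 hA⟩

end Pool.Agent.H37.Hd
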