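import Pool.Agent.H37.Bush2
import Pool.Agent.H37.Hd4

/-! A dispersive set such that almost no set computes a weakly 1-generic relative to it. -/

set_option autoImplicit false

namespace Pool.Agent.H37.Bush

open Encodable Filter Rnd Hd Defc MeasureTheory Attr
open scoped ENNReal

/-- the computed set has exactly `v` zeros from position `n` on -/
def zr (n v : ℕ) (ρ : List Bool) : Bool := (List.range (v + 1)).all fun m =>
  U n.unpair.1 (ρ.map Bool.toNat) (n + m) == some (m == v).toNat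

/-- the oracles with a run of `v` zeros -/
def ZZ (n v : ℕ) : Set (ℕ → Bool) := ⋃ s, {B | zr n v (pre B s) = true}

theorem mem_ZZ {n v : ℕ} {B : ℕ → Bool} :
    B ∈ ZZ n v ↔ ∀ m ≤ v, (m == v).toNat ∈ app n.unpair.1 (bit B) (n + m) := by
  simp only [ZZ, zr, Set.mem_iUnion, Set.mem_setOf_eq, List.all_eq_true, List.mem_range, map_pre,
    beq_iff_eq, Nat.lt_succ_iff]
  refine ⟨fun ⟨s, h⟩ m hm => mem_app.2 ⟨s, h m hm⟩, fun h => ?_⟩
  obtain ⟨s, hs⟩ := ((eventually_all_finset (Finset.range (v + 1))).2 fun m hm =>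
    mem_app'.1 (h m (Nat.lt_succ_iff.1 (Finset.mem_range.1 hm)))).exists
  exact ⟨s, fun m hm => hs m (Finset.mem_range.2 (Nat.lt_succ_of_le hm))⟩

theorem exists_a (M : ℕ → ℕ) : ∃ a : ℕ → ℕ, (∀ n, P (ZZ n (a n)) ≤ 2⁻¹ ^ n) ∧
    ∀ X : ℕ → Bool, CI (orc a) X → ∀ N, ∃ e, N ≤ e ∧ ∀ j ≤ M e,
      ∃ s0 i s, (st e s0).2.1 = j ∧ (st e s).2.1 = j + 1 ∧
        ∀ m < (Nat.pair e (Nat.pair s0 i)).factorial,
          ((st e s).2.2.getD i ([], [])).2.getD m false = X m := by
  have k : ∀ n v, (∃ s, decide (2 ^ s < (W s).countP (zr n v) * 2 ^ n) = true) ↔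
      ¬ P (ZZ n v) ≤ 2⁻¹ ^ n := fun n v => by
    simp only [decide_eq_true_eq, ← not_le, ← cnt_le, ← P_pre, ← not_forall]
    refine not_congr ⟨P_mono_le fun s t h B hB => ?_, fun h s =>
      (measure_mono (Set.subset_iUnion (fun s => {B | zr n v (pre B s) = true}) s)).trans h⟩
    simp only [zr, Set.mem_setOf_eq, List.all_eq_true, map_pre, beq_iff_eq] at hB ⊢
    exact fun m hm => U_mon _ _ _ _ _ (pre_pf _ h) (hB m hm)
  obtain ⟨a, h1, h2⟩ := bushy (H := fun q => ¬ P (ZZ q.1 q.2) ≤ 2⁻¹ ^ q.1)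
    (re_of_nat (fun (q : ℕ × ℕ) s => decide (2 ^ s < (W s).countP (fun ρ => zr q.1 q.2 ρ) * 2 ^ q.1))
      (by unfold zr; fun_prop) fun q => (k _ _).symm) (fun n F hF => by
      by_contra hc
      simp only [not_exists, not_and, not_not, not_le] at hc
      have h1 := ENNReal.sum_lt_sum_of_nonempty (Finset.card_pos.1 (n.two_pow_pos.trans_le hF)) hc
      rw [← measure_biUnion_finset (f := ZZ n) (fun v _ w _ h => Set.disjoint_left.2 fun B h1 h2 => ?_)
        fun v _ => .iUnion fun s => meas_set (fun τ => zr n v τ = true) s, Finset.sum_const,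
        nsmul_eq_mul] at h1
      · refine (h1.trans_le prob_le_one).not_ge ?_
        calc (1 : ℝ≥0∞) = (2 ^ n : ℕ) * 2⁻¹ ^ n := by
              rw [Nat.cast_pow, ← mul_pow, Nat.cast_ofNat, ENNReal.mul_inv_cancel] <;> simp
          _ ≤ _ := by gcongr
      · wlog hv : v < w generalizing v w
        · exact this w ‹_› v ‹_› h.symm h2 h1 (by omega)
        simpa [beq_eq_false_iff_ne.2 hv.ne] using Part.mem_unique (mem_ZZ.1 h1 v le_rfl) (mem_ZZ.1 h2 v hv.le)) M
  exact ⟨a, fun n => not_not.1 (h1 n), h2⟩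

theorem main : ∃ A : ℕ → Bool, ¬ Attractive A ∧ ¬ ∀ᵐ B ∂coin, ∃ G, LE G B ∧ ∀ V : Set (List Bool),
    (∃ f : ℕ →. ℕ, RecursiveIn (orc (bit A)) f ∧ ∀ σ, σ ∈ V ↔ (f (encode σ)).Dom) →
    (∀ σ, ∃ τ ∈ V, σ <+: τ) → ∃ n, pre G n ∈ V := by
  obtain ⟨a, h1, h2⟩ := exists_a fun e => ((W (e + 3)).map encode).sum
  obtain ⟨bad, hb⟩ := Bush.fire
  let A : ℕ → Bool := fun p => a p.unpair.1 == p.unpair.2
  have hA : CI (orc a) A := by have := CI.self a; simp only [A]; fun_prop
  have ha : CI (orc (bit A)) a := by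
    have hA' : CI (orc (bit A)) A := LE.refl A
    obtain ⟨f, f1, f2⟩ := CI.exists_choice (O := orc (bit A)) (p := fun n v => A (Nat.pair n v))
      (by fun_prop) fun n => ⟨a n, by simp [A]⟩
    exact f1.of_eq fun n => Eq.symm (by simpa [A] using f2 n)
  refine ⟨A, fun h => ?_, fun h => ?_⟩
  · rw [Attractive, coin_eq] at h
    have h3 := P_bad bad
    rw [measure_congr (t := Set.univ) (h.mono fun B hB => eq_true (by_contra fun hc => ?_))] at h3
    · exact (lt_half (m := 0) two_pos).not_ge (by simpa using h3)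
    have hB' : CI (orc (bit B)) B := LE.refl B
    obtain ⟨Ψ, a1, a2⟩ := hb (orc (bit B)) (fun e => encode (pre B (e + 3))) (by fun_prop)
      fun e he => hc (Set.mem_iUnion.2 ⟨e, he⟩)
    refine absurd (hB ▸ far a1 fun X hX N => ?_) (by norm_num)
    obtain ⟨e, b1, b2⟩ := h2 X (CI.trans hX (ci_bit.2 hA)) N
    obtain ⟨s0, i, s, b3, b4, b5⟩ := b2 (encode (pre B (e + 3)))
      (List.single_le_sum (by simp) _ (List.mem_map_of_mem (mem_W.2 (by simp))))
    exact ⟨_, b1.trans (Nat.left_le_pair _ _), fun m hm => by rw [a2 e s0 i s m b3 b4, b5 m hm]⟩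
  rw [coin_eq] at h
  obtain ⟨B, ⟨G, a1, a2⟩, a3⟩ := (h.and (ae_eventually_notMem (s := fun n => ZZ n (a n))
    (ne_top_of_le_ne_top (by simp [ENNReal.tsum_geometric]) (ENNReal.tsum_le_tsum h1)))).exists
  obtain ⟨e, he⟩ := exists_app_tot (ci_bit.2 a1)
  obtain ⟨N, hN⟩ := eventually_atTop.1 a3
  let c : List Bool → Bool := fun σ => (List.range σ.length).any fun n => decide (N ≤ n) &&
    n.unpair.1 == e && decide (n + a n < σ.length) &&
      (List.range (a n + 1)).all fun m => σ.getD (n + m) false == (m == a n)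
  have hc : CI (orc (bit A)) c := by simp only [c]; fun_prop
  obtain ⟨l, hl⟩ := a2 {σ | c σ = true} ⟨fun m => ((decode (α := List Bool) m).bind fun σ =>
    bif c σ then some 0 else none : Option ℕ), RI.ofOption (by fun_prop), fun σ => by
      cases h : c σ <;> simp [h]⟩ fun σ => by
    obtain ⟨n, b1, b2⟩ : ∃ n, σ.length + N ≤ n ∧ n.unpair.1 = e :=
      ⟨Nat.pair e _, Nat.right_le_pair _ _, by simp⟩
    let x : ℕ → Bool := fun i => if i < σ.length then σ.getD i false else i == n + a n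
    refine ⟨pre x (n + a n + 1), List.any_eq_true.2 ⟨n, by simp, ?_⟩, ?_⟩
    · simp only [Bool.and_eq_true, decide_eq_true_eq, beq_iff_eq, List.all_eq_true, List.mem_range,
        length_pre]
      refine ⟨⟨⟨by omega, b2⟩, by omega⟩, fun m hm => ?_⟩
      rw [getD_pre x (by omega)]
      simp [x, show ¬ n + m < σ.length by omega]
    · rw [← pre_getD σ false, ← pre_congr (x := x) fun i hi => if_pos hi]
      exact pre_pf x (by omega)
  obtain ⟨n, -, hn⟩ := List.any_eq_true.1 hl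
  simp only [Bool.and_eq_true, decide_eq_true_eq, beq_iff_eq, List.all_eq_true, List.mem_range,
    length_pre] at hn
  refine hN n hn.1.1.1 (mem_ZZ.2 fun m hm => ?_)
  rw [← hn.2 m (by omega), getD_pre G (by omega), hn.1.1.2]
  exact he _

end Pool.Agent.H37.Bush
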