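import Pool.Agent.H37.NF

/-! From a decidable numbering of a ring to a computable ring with its prime ideals. -/

set_option autoImplicit false

namespace Pool.Agent.H37

theorem cring {R C : Type} [CommRing R] [Primcodable C] (ν : C → R) (hν : Function.Surjective ν)
    (E : C × C → Bool) (hE : CI ∅ E) (eE : ∀ a b, E (a, b) = true ↔ ν a = ν b)
    (ad ml : C × C → C) (ng : C → C) (h1 : CI ∅ ad) (h2 : CI ∅ ml) (h3 : CI ∅ ng)
    (e1 : ∀ a b, ν (ad (a, b)) = ν a + ν b) (e2 : ∀ a b, ν (ml (a, b)) = ν a * ν b)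
    (e3 : ∀ a, ν (ng a) = - ν a) (P : Set (ℕ → ℕ)) (F : (ℕ → ℕ) → Ideal R)
    (hF : Set.BijOn F P {p | p.IsPrime})
    (c1 : ∀ f ∈ P, ∃ b : C → Bool, CI (orc f) b ∧ ∀ c, ν c ∈ F f ↔ b c = true)
    (c2 : ∀ f ∈ P, ∀ O (b : C → Bool), CI O b → (∀ c, ν c ∈ F f ↔ b c = true) → CI O f) :
    ∃ (U : ℕ → Bool) (add mul : ℕ → ℕ → ℕ) (neg : ℕ → ℕ) (zero one : ℕ),
      Computable U ∧ Computable₂ add ∧ Computable₂ mul ∧ Computable neg ∧
      U zero = true ∧ U one = true ∧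
      (∀ a b, U a = true → U b = true → U (add a b) = true ∧ U (mul a b) = true) ∧
      (∀ a, U a = true → U (neg a) = true) ∧
      (∀ a b c, U a = true → U b = true → U c = true →
        add (add a b) c = add a (add b c) ∧ mul (mul a b) c = mul a (mul b c) ∧
        mul a (add b c) = add (mul a b) (mul a c)) ∧
      (∀ a b, U a = true → U b = true → add a b = add b a ∧ mul a b = mul b a) ∧
      (∀ a, U a = true → add zero a = a ∧ add a (neg a) = zero ∧ mul one a = a) ∧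
      ∃ F : (ℕ → ℕ) → (ℕ → ℕ),
        Set.BijOn F P
          {χ : ℕ → ℕ | (∀ n, χ n = 0 ∨ χ n = 1) ∧
            (∀ n, χ n = 1 → U n = true) ∧
            χ zero = 1 ∧ χ one = 0 ∧
            (∀ a b, χ a = 1 → χ b = 1 → χ (add a b) = 1) ∧
            (∀ a b, U a = true → χ b = 1 → χ (mul a b) = 1) ∧
            (∀ a b, U a = true → U b = true → χ (mul a b) = 1 → χ a = 1 ∨ χ b = 1)} ∧
        ∀ f : ℕ → ℕ, f ∈ P → TuringEquivalent (PFun.lift f) (PFun.lift (F f)) := by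
  classical
  obtain ⟨c0, hc0⟩ := hν 0
  obtain ⟨co, hco⟩ := hν 1
  obtain ⟨r, hr, er⟩ : ∃ r : ℕ → C, CI ∅ r ∧ ∀ c, r (Encodable.encode c) = c :=
    ⟨fun n => (Encodable.decode n).getD c0, by fun_prop, by simp⟩
  have ex : ∀ x : R, ∃ k, ν (r k) = x := fun x => let ⟨c, hc⟩ := hν x; ⟨_, by rw [er, hc]⟩
  let σ : R → ℕ := fun x => Nat.find (ex x)
  have μσ : ∀ x, ν (r (σ x)) = x := fun x => Nat.find_spec (ex x)
  have hs : CI ∅ fun c => σ (ν c) :=
    (CI.find (p := fun c k => E (r k, c)) (by fun_prop) fun c => (ex (ν c)).imp fun k h =>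
      (eE _ _).2 h).of_eq fun c => by simp only [σ, eE]
  obtain ⟨s, hs, es⟩ : ∃ s : C → ℕ, CI ∅ s ∧ ∀ c, s c = σ (ν c) := ⟨_, hs, fun _ => rfl⟩
  obtain ⟨U, hU, eU⟩ : ∃ U : ℕ → Bool, CI ∅ U ∧ ∀ a, U a = true ↔ ∃ x, σ x = a :=
    ⟨fun a => decide (s (r a) = a), by fun_prop, fun a => by
      rw [decide_eq_true_eq, es]
      exact ⟨fun h => ⟨_, h⟩, by rintro ⟨x, rfl⟩; rw [μσ]⟩⟩
  let χ : Ideal R → ℕ → ℕ := fun p n => if U n = true ∧ ν (r n) ∈ p then 1 else 0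
  have χσ : ∀ p x, χ p (σ x) = 1 ↔ x ∈ p := fun p x => by simp [χ, eU, μσ]
  have χ1 : ∀ p n, χ p n = 1 → ∃ x ∈ p, σ x = n := fun p n h => by
    simp only [χ, ite_eq_left_iff, zero_ne_one, imp_false, not_not, eU] at h
    obtain ⟨⟨x, rfl⟩, h⟩ := h
    exact ⟨x, μσ x ▸ h, rfl⟩
  refine ⟨U, fun a b => s (ad (r a, r b)), fun a b => s (ml (r a, r b)),
    fun a => s (ng (r a)), σ 0, σ 1, hU.computable, CI.computable (by fun_prop),
    CI.computable (by fun_prop), CI.computable (by fun_prop), ?_⟩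
  simp only [eU, es, e1, e2, e3, μσ, forall_exists_index, exists_apply_eq_apply,
    implies_true, and_self, true_and, add_assoc, mul_assoc, mul_add, zero_add, one_mul, add_neg_cancel]
  refine ⟨fun a b _ _ _ _ => by rw [add_comm, mul_comm]; exact ⟨rfl, rfl⟩,
    fun a x h => by simp [← h, μσ], fun f => χ (F f),
    Set.BijOn.comp (g := χ) (t := {p | p.IsPrime}) ⟨fun p hp => ⟨fun n => ?_, fun n h => ?_, (χσ _ _).2 p.zero_mem, ?_,
      fun a b ha hb => ?_, fun a b x _ hb => ?_, fun a b x hx y hy h => ?_⟩,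
      fun p _ q _ h => Ideal.ext fun x => by rw [← χσ, h, χσ], ?_⟩ hF, fun f hf => ⟨?_, ?_⟩⟩
  · simp only [χ]; split_ifs <;> simp
  · exact (χ1 p n h).imp fun x h => h.2
  · have : (1 : R) ∉ p := (Ideal.ne_top_iff_one p).1 hp.ne_top
    simp [χ, μσ, this]
  · obtain ⟨x, a1, rfl⟩ := χ1 p a ha
    obtain ⟨y, b1, rfl⟩ := χ1 p b hb
    rw [μσ, μσ, χσ]; exact p.add_mem a1 b1
  · obtain ⟨y, b1, rfl⟩ := χ1 p b hb
    rw [μσ, χσ]; exact p.mul_mem_left _ b1
  · subst hx hy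
    simpa only [μσ, χσ] using hp.mem_or_mem ((χσ _ _).1 h)
  · rintro ψ ⟨a1, a2, a3, a4, a5, a6, a7⟩
    refine ⟨⟨⟨⟨{x | ψ (σ x) = 1}, fun {x y} hx hy => ?_⟩, a3⟩, fun x y hy => ?_⟩,
      ⟨(Ideal.ne_top_iff_one _).2 fun h => ?_, fun {x y} h => ?_⟩, funext fun n => ?_⟩
    · have := a5 _ _ hx hy
      rwa [μσ, μσ] at this
    · have := a6 _ _ x rfl hy
      rwa [μσ, μσ] at this
    · have : ψ (σ 1) = 1 := h
      omega
    · exact a7 _ _ x rfl y rfl (by rw [μσ, μσ]; exact h)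
    · rcases a1 n with h | h
      · rw [h]
        refine if_neg fun ⟨b1, b2⟩ => ?_
        have : ψ (σ (ν (r n))) = 1 := b2
        obtain ⟨x, rfl⟩ := (eU n).1 b1
        rw [μσ] at this
        omega
      · obtain ⟨x, rfl⟩ := a2 n h
        rw [h, χσ]; exact h
  · have := CI.self (χ (F f))
    have := hs.of_empty (O := orc (χ (F f)))
    exact (c2 f hf _ (fun c => decide (χ (F f) (s c) = 1)) (by fun_prop) fun c => by
      rw [decide_eq_true_eq, es, χσ]).ri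
  · obtain ⟨b, b1, b2⟩ := c1 f hf
    have := hU.of_empty (O := orc f)
    have := hr.of_empty (O := orc f)
    refine ((show CI (orc f) fun n => cond (U n && b (r n)) 1 0 by fun_prop).of_eq
      fun n => ?_).ri
    simp only [χ, b2]
    cases U n <;> cases b (r n) <;> simp

end Pool.Agent.H37
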