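import Pool.Agent.H37.CSDefs
import Pool.Agent.H38.NP.Api

set_option autoImplicit false

namespace Pool.Agent.H37.CS

open Pool.Agent.H38.NP Function ContextFreeGrammar

abbrev It := ℕ × ℕ × ℕ

def stp (k : ℕ) (w : List ℕ) (R : List It) (s i l : ℕ) : Bool :=
  cond (decide (s < k)) (decide (w[i]? = some s) && decide (l = i + 1)) (R.contains (s - k, i, l))

def ps (k : ℕ) (w : List ℕ) (R : List It) (P : List ℕ) (s : ℕ) : List ℕ :=
  (List.range (w.length + 1)).filter fun l => P.any fun i => stp k w R s i l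

def pos (k : ℕ) (w : List ℕ) (R : List It) (α P : List ℕ) : List ℕ := α.foldl (ps k w R) P

def uni (g : CG) (w : List ℕ) : List It :=
  g.flatMap fun r => (List.range (w.length + 1)).flatMap fun i =>
    (List.range (w.length + 1)).map fun j => (r.1, i, j)

def nx (k : ℕ) (g : CG) (w : List ℕ) (R : List It) : List It :=
  (uni g w).filter fun u => g.any fun r =>
    decide (r.1 = u.1) && (pos k w R r.2 [u.2.1]).contains u.2.2

def fx (k : ℕ) (g : CG) (w : List ℕ) : List It := (nx k g w)^[(uni g w).length + 1] []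

def mem (k : ℕ) (g : CG) (w : List ℕ) : Bool :=
  w.all (fun a => decide (a < k)) && (fx k g w).contains (0, 0, w.length)

theorem pt_mem (k : ℕ) : PT fun p : CG × List ℕ => mem k p.1 p.2 := by
  have h1 : PT fun p : (List ℕ × List It) × List ℕ × ℕ => ps k p.1.1 p.1.2 p.2.1 p.2.2 := by
    unfold ps stp; fun_prop
  have h2 : PT fun p : (List ℕ × List It) × List ℕ × ℕ => pos k p.1.1 p.1.2 p.2.1 [p.2.2] := by
    unfold pos
    refine PT.foldl (f := fun (p : (List ℕ × List It) × List ℕ × ℕ) P s => ps k p.1.1 p.1.2 P s)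
      (h1.comp (g := fun p : ((List ℕ × List It) × List ℕ × ℕ) × List ℕ × ℕ => (p.1.1, p.2))
        (by fun_prop)) (by fun_prop) (by fun_prop)
      (B := fun p => sz (List.range (p.1.1.length + 1)) + sz [p.2.2])
      ((PT.pb (by fun_prop)).add (PT.pb (by fun_prop))) fun p n => ?_
    generalize List.take n p.2.1 = l
    induction l using List.reverseRecOn with
    | nil => simp
    | append_singleton l a _ =>
      rw [List.foldl_append]
      exact (sz_le_of_sublist List.filter_sublist).trans (Nat.le_add_right _ _)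
  obtain ⟨F, hF, eF⟩ : ∃ F : (List ℕ × List It) × List ℕ × ℕ → List ℕ, PT F ∧
      ∀ w R α i, pos k w R α [i] = F ((w, R), α, i) := ⟨_, h2, fun _ _ _ _ => rfl⟩
  have h3 : PT fun p : CG × List ℕ => uni p.1 p.2 := by unfold uni; fun_prop
  obtain ⟨U, hU, eU⟩ : ∃ U : CG × List ℕ → List It, PT U ∧ ∀ g w, uni g w = U (g, w) :=
    ⟨_, h3, fun _ _ => rfl⟩
  have h4 : PT fun p : (CG × List ℕ) × List It => nx k p.1.1 p.1.2 p.2 := by
    unfold nx; simp only [eF, eU]; fun_prop
  have h5 : PT fun p : CG × List ℕ => fx k p.1 p.2 := by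
    unfold fx
    refine PT.iterate (step := fun (p : CG × List ℕ) R => nx k p.1 p.2 R) h4
      (by simp only [eU]; fun_prop) (by fun_prop) h3.pb fun p i _ => ?_
    cases i with
    | zero => simp
    | succ i => rw [iterate_succ_apply']; exact sz_le_of_sublist List.filter_sublist
  unfold mem
  fun_prop

def M (k : ℕ) (w : List ℕ) (R : List It) : List ℕ → ℕ → ℕ → Prop
  | [], i, j => i = j
  | s :: α, i, j => ∃ l ≤ w.length, stp k w R s i l = true ∧ M k w R α l j

variable {k : ℕ} {w : List ℕ} {R R' : List It} {g : CG}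

theorem mem_pos {α P : List ℕ} {j : ℕ} : j ∈ pos k w R α P ↔ ∃ i ∈ P, M k w R α i j := by
  induction α generalizing P with
  | nil => simp [pos, M]
  | cons s α ih =>
    change j ∈ pos k w R α (ps k w R P s) ↔ _
    simp only [ih, ps, M, List.mem_filter, List.mem_range, List.any_eq_true, Nat.lt_succ_iff]
    constructor
    · rintro ⟨l, ⟨h1, i, h2, h3⟩, h4⟩; exact ⟨i, h2, l, h1, h3, h4⟩
    · rintro ⟨i, h2, l, h1, h3, h4⟩; exact ⟨l, ⟨h1, i, h2, h3⟩, h4⟩

theorem M_append {α β : List ℕ} {i j : ℕ} :
    M k w R (α ++ β) i j ↔ ∃ l, M k w R α i l ∧ M k w R β l j := by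
  induction α generalizing i with
  | nil => simp [M]
  | cons s α ih =>
    simp only [List.cons_append, M, ih]
    constructor
    · rintro ⟨l, h1, h2, l', h3, h4⟩; exact ⟨l', ⟨l, h1, h2, h3⟩, h4⟩
    · rintro ⟨l', ⟨l, h1, h2, h3⟩, h4⟩; exact ⟨l, h1, h2, l', h3, h4⟩

theorem M_le {α : List ℕ} {i j : ℕ} (h : M k w R α i j) (hi : i ≤ w.length) : j ≤ w.length := by
  induction α generalizing i with
  | nil => cases h; exact hi
  | cons s α ih => obtain ⟨l, h1, -, h2⟩ := h; exact ih h2 h1

theorem M_mono (hR : R ⊆ R') {α : List ℕ} {i j : ℕ} (h : M k w R α i j) : M k w R' α i j := by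
  induction α generalizing i with
  | nil => exact h
  | cons s α ih =>
    obtain ⟨l, h1, h2, h3⟩ := h
    refine ⟨l, h1, ?_, ih h3⟩
    unfold stp at h2 ⊢
    by_cases e : s < k
    · simpa [e] using h2
    · simp only [e, decide_false, cond_false, List.contains_iff_mem] at h2 ⊢
      exact hR h2

theorem mem_nx {u : It} : u ∈ nx k g w R ↔ u.2.1 ≤ w.length ∧
    ∃ r ∈ g, r.1 = u.1 ∧ M k w R r.2 u.2.1 u.2.2 := by
  obtain ⟨A, i, j⟩ := u
  simp only [nx, uni, List.mem_filter, List.mem_flatMap, List.mem_map, List.mem_range,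
    Nat.lt_succ_iff, List.any_eq_true, Bool.and_eq_true, decide_eq_true_eq, List.contains_iff_mem,
    mem_pos, List.mem_singleton, exists_eq_left, Prod.mk.injEq]
  constructor
  · rintro ⟨⟨r, -, i', h, j', -, -, rfl, -⟩, h'⟩; exact ⟨h, h'⟩
  · rintro ⟨h, r, h1, h2, h3⟩
    exact ⟨⟨r, h1, i, h, j, M_le h3 h, h2, rfl, rfl⟩, r, h1, h2, h3⟩

theorem nx_mono (hR : R ⊆ R') : nx k g w R ⊆ nx k g w R' := fun _ h =>
  let ⟨h1, r, h2, h3, h4⟩ := mem_nx.1 h
  mem_nx.2 ⟨h1, r, h2, h3, M_mono hR h4⟩

theorem fx_fix : nx k g w (fx k g w) ⊆ fx k g w := by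
  have h0 : ∀ i, (nx k g w)^[i] [] ⊆ (nx k g w)^[i + 1] [] := by
    intro i
    induction i with
    | zero => simp
    | succ i ih => rw [iterate_succ_apply', iterate_succ_apply' _ (i + 1)]; exact nx_mono ih
  have h1 : ∀ i, nx k g w ((nx k g w)^[i] []) ⊆ (nx k g w)^[i] [] ∨
      i ≤ ((nx k g w)^[i] []).toFinset.card := by
    intro i
    induction i with
    | zero => simp
    | succ i ih =>
      by_cases h : nx k g w ((nx k g w)^[i] []) ⊆ (nx k g w)^[i] []
      · left; rw [iterate_succ_apply']; exact nx_mono h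
      · right
        refine lt_of_le_of_lt (ih.resolve_left h) (Finset.card_lt_card ⟨fun x hx => ?_, fun h' => h ?_⟩)
        · exact List.mem_toFinset.2 (h0 i (List.mem_toFinset.1 hx))
        · intro x hx
          rw [iterate_succ_apply'] at h'
          exact List.mem_toFinset.1 (h' (List.mem_toFinset.2 hx))
  refine (h1 _).resolve_right fun h => ?_
  rw [iterate_succ_apply'] at h
  have := (List.toFinset_card_le _).trans (List.length_filter_le _ _) |> h.trans
  omega

/-- code of a symbol -/
def cd (k : ℕ) : Symbol (Fin k) ℕ → ℕ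
  | .terminal a => a
  | .nonterminal A => A + k

@[simp] theorem cd_sym (n : ℕ) : cd k (sym k n) = n := by
  unfold sym; split_ifs <;> simp [cd]; omega

@[simp] theorem sym_cd (s : Symbol (Fin k) ℕ) : sym k (cd k s) = s := by
  cases s <;> simp [cd, sym]

theorem mem_rules {r : ContextFreeRule (Fin k) ℕ} :
    r ∈ (toCFG k g).rules ↔ ∃ a ∈ g, (⟨a.1, a.2.map (sym k)⟩ : ContextFreeRule _ _) = r :=
  List.mem_toFinset.trans List.mem_map

theorem prod_parts {α β : List (Symbol (Fin k) ℕ)} (h : (toCFG k g).Produces α β) :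
    ∃ a ∈ g, ∃ p q : List (Symbol (Fin k) ℕ),
      α = p ++ [Symbol.nonterminal a.1] ++ q ∧ β = p ++ a.2.map (sym k) ++ q := by
  obtain ⟨r, h1, h2⟩ := h
  obtain ⟨a, h3, rfl⟩ := mem_rules.1 h1
  exact ⟨a, h3, h2.exists_parts⟩

theorem sound (v : List (Fin k)) (n : ℕ) : ∀ u ∈ (nx k g (v.map Fin.val))^[n] [],
    ∃ x : List (Fin k), v.drop u.2.1 = x ++ v.drop u.2.2 ∧
      (toCFG k g).Derives [.nonterminal u.1] (x.map .terminal) := by
  induction n with
  | zero => simp
  | succ n ih =>
    intro u hu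
    rw [iterate_succ_apply'] at hu
    obtain ⟨-, r, h1, h2, h3⟩ := mem_nx.1 hu
    have : ∀ α i j, M k (v.map Fin.val) ((nx k g (v.map Fin.val))^[n] []) α i j →
        ∃ x : List (Fin k), v.drop i = x ++ v.drop j ∧
          (toCFG k g).Derives (α.map (sym k)) (x.map .terminal) := by
      intro α
      induction α with
      | nil => rintro i j rfl; exact ⟨[], rfl, Derives.refl _⟩
      | cons s α ihα =>
        rintro i j ⟨l, -, a1, a2⟩
        obtain ⟨y, b1, b2⟩ := ihα l j a2
        suffices ∃ x : List (Fin k), v.drop i = x ++ v.drop l ∧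
            (toCFG k g).Derives [sym k s] (x.map .terminal) by
          obtain ⟨x, c1, c2⟩ := this
          refine ⟨x ++ y, by rw [c1, b1, List.append_assoc], ?_⟩
          rw [List.map_append]
          exact (c2.append_right _).trans (b2.append_left _)
        unfold stp at a1
        by_cases e : s < k
        · simp only [e, decide_true, cond_true, Bool.and_eq_true, decide_eq_true_eq,
            List.getElem?_map, Option.map_eq_some_iff] at a1
          obtain ⟨⟨a, c1, rfl⟩, rfl⟩ := a1
          obtain ⟨hi, rfl⟩ := List.getElem?_eq_some_iff.1 c1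
          exact ⟨[v[i]], by simp, by rw [show sym k v[i] = _ from dif_pos e]; exact Derives.refl _⟩
        · simp only [e, decide_false, cond_false, List.contains_iff_mem] at a1
          rw [show sym k s = _ from dif_neg e]
          exact ih _ a1
    obtain ⟨x, a1, a2⟩ := this _ _ _ h3
    refine ⟨x, a1, Produces.trans_derives ⟨_, mem_rules.2 ⟨r, h1, rfl⟩, ?_⟩ a2⟩
    rw [← h2]
    exact ContextFreeRule.Rewrites.input_output

theorem complete (v : List (Fin k)) {α : List (Symbol (Fin k) ℕ)}
    (h : (toCFG k g).Derives α (v.map .terminal)) :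
    M k (v.map Fin.val) (fx k g (v.map Fin.val)) (α.map (cd k)) 0 v.length := by
  induction h using Relation.ReflTransGen.head_induction_on with
  | refl =>
    have : ∀ x y : List (Fin k), v = x ++ y → M k (v.map Fin.val) (fx k g (v.map Fin.val))
        ((y.map Symbol.terminal).map (cd k)) x.length v.length := by
      intro x y
      induction y generalizing x with
      | nil => rintro rfl; simp [M]
      | cons a y ih =>
        intro e
        refine ⟨x.length + 1, by simp [e], by simp [stp, cd, e], ?_⟩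
        simpa using ih (x ++ [a]) (by simpa using e)
    exact this [] v rfl
  | head h _ ih =>
    obtain ⟨a, h3, p, q, rfl, rfl⟩ := prod_parts h
    simp only [List.map_append, M_append, List.map_map] at ih ⊢
    obtain ⟨j, ⟨i, b1, b2⟩, b3⟩ := ih
    have hi := M_le b1 (Nat.zero_le _)
    refine ⟨j, ⟨i, b1, j, M_le b2 hi, ?_, rfl⟩, b3⟩
    have e : cd k ∘ sym k = id := funext cd_sym
    rw [e, List.map_id] at b2
    have := fx_fix (mem_nx (u := (a.1, i, j)).2 ⟨hi, a, h3, rfl, b2⟩)
    simpa [stp, cd] using this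

theorem mem_iff (v : List (Fin k)) :
    mem k g (v.map Fin.val) = true ↔ v ∈ (toCFG k g).language := by
  simp only [mem, Bool.and_eq_true, List.all_eq_true, decide_eq_true_eq, List.contains_iff_mem,
    mem_language_iff, List.length_map]
  constructor
  · rintro ⟨-, h⟩
    obtain ⟨x, h1, h2⟩ := sound v _ _ h
    simp only [List.drop_zero, List.drop_length, List.append_nil] at h1
    exact h1 ▸ h2
  · intro h
    refine ⟨by simp, ?_⟩
    obtain ⟨l, -, h1, h2⟩ := complete v h
    cases h2
    simpa [stp, cd, toCFG] using h1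

theorem mem_lt (h : mem k g w = true) : ∀ a ∈ w, a < k := by
  simp only [mem, Bool.and_eq_true, List.all_eq_true, decide_eq_true_eq] at h
  exact h.1

end Pool.Agent.H37.CS
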