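import Pool.Agent.H37.CS1
import Pool.Agent.H37.SimInc

set_option autoImplicit false

namespace Pool.Agent.H37.CS

open Pool.Agent.H38.NP Function ContextFreeGrammar

theorem lang_le {T : Type} (g1 g2 : ContextFreeGrammar T) (φ : Symbol T g1.NT → Symbol T g2.NT)
    (h1 : ∀ a, φ (.terminal a) = .terminal a) (h2 : φ (.nonterminal g1.initial) = .nonterminal g2.initial)
    (h3 : ∀ r ∈ g1.rules, ∃ r' ∈ g2.rules, φ (.nonterminal r.input) = .nonterminal r'.input ∧
      r.output.map φ = r'.output) : g1.language ≤ g2.language := by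
  have : ∀ α β, g1.Derives α β → g2.Derives (α.map φ) (β.map φ) := by
    intro α β h
    induction h with
    | refl => exact Derives.refl _
    | tail _ h ih =>
      obtain ⟨r, a1, a2⟩ := h
      obtain ⟨r', b1, b2, b3⟩ := h3 r a1
      obtain ⟨p, q, rfl, rfl⟩ := a2.exists_parts
      refine ih.trans_produces ⟨r', b1, ?_⟩
      simp only [List.map_append, List.map_cons, List.map_nil, b2, b3]
      exact ContextFreeRule.rewrites_of_exists_parts _ _ _
  intro w hw
  have := this _ _ ((mem_language_iff _ _).1 hw)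
  rw [List.map_map, show φ ∘ Symbol.terminal = Symbol.terminal from funext h1] at this
  simp only [List.map_cons, List.map_nil, h2] at this
  exact (mem_language_iff _ _).2 this

/-- renaming of nonterminals -/
def mp {T N N' : Type} (f : N → N') : Symbol T N → Symbol T N'
  | .terminal a => .terminal a
  | .nonterminal A => .nonterminal (f A)

theorem rename {k : ℕ} (G : ContextFreeGrammar (Fin k)) : ∃ g : CG,
    (toCFG k g).language = G.language ∧
      sz g ≤ gsize G * (2 * (2 * (gsize G + 1) + 1 + gsize G * (2 * (gsize G + 1 + k) + 1)) + 1) := by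
  classical
  set L : List (Symbol (Fin k) G.NT) := .nonterminal G.initial ::
    G.rules.toList.flatMap fun r => .nonterminal r.input :: r.output with hL
  have len : L.length = gsize G + 1 := by
    simp only [hL, List.length_cons, List.length_flatMap, gsize, Finset.sum_map_toList]
  set f : G.NT → ℕ := fun A => L.idxOf (.nonterminal A) with hf
  have fle : ∀ A, f A ≤ gsize G + 1 := fun A => len ▸ List.idxOf_le_length
  refine ⟨G.rules.toList.map fun r => (f r.input, r.output.map (cd k ∘ mp f)), le_antisymm ?_ ?_, ?_⟩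
  · let φ : Symbol (Fin k) ℕ → Symbol (Fin k) G.NT := fun s => match s with
      | .terminal a => .terminal a
      | .nonterminal n => L.getD n (.nonterminal G.initial)
    have e : ∀ s ∈ L, φ (mp f s) = s := by
      rintro (a | A) hs
      · rfl
      · change L.getD (L.idxOf _) _ = _
        rw [List.getD_eq_getElem _ _ (List.idxOf_lt_length_iff.2 hs), List.getElem_idxOf]
    refine lang_le (toCFG k _) G φ (fun _ => rfl) rfl fun r hr => ?_
    obtain ⟨a, h1, rfl⟩ := mem_rules.1 hr
    obtain ⟨r, h2, rfl⟩ := List.mem_map.1 h1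
    have m : ∀ s ∈ Symbol.nonterminal r.input :: r.output, s ∈ L := fun s hs =>
      List.mem_cons_of_mem _ (List.mem_flatMap.2 ⟨r, h2, hs⟩)
    refine ⟨r, Finset.mem_toList.1 h2, e _ (m _ List.mem_cons_self), ?_⟩
    change ((r.output.map (cd k ∘ mp f)).map (sym k)).map φ = _
    rw [List.map_map, List.map_map]
    conv_rhs => rw [← List.map_id r.output]
    refine List.map_congr_left fun s hs => ?_
    simp only [comp, sym_cd, id]
    exact e s (m s (List.mem_cons_of_mem _ hs))
  · refine lang_le G (toCFG k _) (mp f) (fun _ => rfl) ?_ fun r hr => ?_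
    · change Symbol.nonterminal (L.idxOf _) = Symbol.nonterminal 0
      simp [hL]
    · refine ⟨_, mem_rules.2 ⟨_, List.mem_map.2 ⟨r, Finset.mem_toList.2 hr, rfl⟩, rfl⟩, rfl, ?_⟩
      change _ = (r.output.map (cd k ∘ mp f)).map (sym k)
      rw [List.map_map]
      exact List.map_congr_left fun s _ => (sym_cd _).symm
  · refine (sz_le_of_forall (B := 2 * (gsize G + 1) + 1 + gsize G * (2 * (gsize G + 1 + k) + 1))
      fun a ha => ?_).trans (Nat.mul_le_mul_right _ ?_)
    · obtain ⟨r, h2, rfl⟩ := List.mem_map.1 ha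
      have h3 : r.output.length + 1 ≤ gsize G :=
        Finset.single_le_sum (f := fun r : ContextFreeRule (Fin k) G.NT => r.output.length + 1)
          (fun _ _ => Nat.zero_le _) (Finset.mem_toList.1 h2)
      have h4 := sz_le_of_forall (l := r.output.map (cd k ∘ mp f)) (B := gsize G + 1 + k)
        fun s hs => by
          obtain ⟨s, -, rfl⟩ := List.mem_map.1 hs
          cases s with
          | terminal a => simp [cd, mp]; omega
          | nonterminal A => simpa [cd, mp] using fle A
      rw [List.length_map] at h4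
      have h5 := fle r.input
      have h6 := Nat.mul_le_mul_right (2 * (gsize G + 1 + k) + 1) (show r.output.length ≤ gsize G by omega)
      rw [sz_prod, sz_nat]
      simp only
      omega
    · rw [List.length_map, Finset.length_toList, Finset.card_eq_sum_ones]
      exact Finset.sum_le_sum fun _ _ => by omega

theorem fin_lang {k : ℕ} (S : List (List (Fin k))) (v : List (Fin k)) :
    v ∈ (toCFG k ((S.map (List.map Fin.val)).map fun w => (0, w))).language ↔ v ∈ S := by
  have e : ∀ u : List (Fin k), (u.map Fin.val).map (sym k) = u.map .terminal := fun u => by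
    rw [List.map_map]
    exact List.map_congr_left fun a _ => sym_cd (.terminal a)
  rw [mem_language_iff]
  constructor
  · intro h
    rcases h.eq_or_head with h | ⟨β, h1, h2⟩
    · have : Symbol.nonterminal 0 ∈ v.map (Symbol.terminal : _ → Symbol (Fin k) ℕ) :=
        h ▸ List.mem_cons_self
      simp at this
    · obtain ⟨a, h3, p, q, h4, rfl⟩ := prod_parts h1
      simp only [List.map_map, List.mem_map, comp] at h3
      obtain ⟨u, hu, rfl⟩ := h3
      have : 1 = (p ++ [Symbol.nonterminal 0] ++ q).length := congrArg List.length h4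
      simp only [List.length_cons, List.length_nil, List.length_append] at this
      obtain rfl : p = [] := List.length_eq_zero_iff.1 (by omega)
      obtain rfl : q = [] := List.length_eq_zero_iff.1 (by omega)
      rw [List.nil_append, List.append_nil, e] at h2
      rcases Derives.eq_or_head h2 with h | ⟨γ, h5, -⟩
      · rwa [← List.map_injective_iff.2 (fun _ _ h => Symbol.terminal.inj h) h]
      · obtain ⟨r, -, h6⟩ := h5.exists_nonterminal_input_mem
        obtain ⟨_, -, h7⟩ := List.mem_map.1 h6
        cases h7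
  · intro h
    refine Produces.single ⟨_, mem_rules.2 ⟨(0, v.map Fin.val), by simpa using ⟨v, h, rfl⟩, rfl⟩, ?_⟩
    have : (⟨0, (v.map Fin.val).map (sym k)⟩ : ContextFreeRule (Fin k) ℕ).Rewrites
        [.nonterminal 0] (v.map .terminal) := by
      rw [← e v]; exact ContextFreeRule.Rewrites.input_output
    exact this

/-- the object with number `e` -/
def nth (α : Type) [Enc α] [Dec α] (e : ℕ) : α := dec ⟨e.bits.take (e.size - 1)⟩

theorem pt_bits {α : Type} [Enc α] {f : α → ℕ} (hf : PT f) : PT fun a => (f a).bits :=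
  PT.bval (pt_bin hf).raw

@[fun_prop] theorem pt_size {α : Type} [Enc α] {f : α → ℕ} (hf : PT f) : PT fun a => (f a).size :=
  (pt_bits hf).length.of_eq fun _ => Nat.size_eq_bits_len _

@[fun_prop] theorem pt_nth {α β : Type} [Enc α] [Enc β] [Dec β] {f : α → ℕ} (hf : PT f) :
    PT fun a => nth β (f a) :=
  Dec.pt.comp (PT.bmk (PT.take (by fun_prop) (pt_bits hf)))

theorem nth_surj {α : Type} [Enc α] [Dec α] (a : α) : ∃ e, nth α e = a ∧ e.size = sz a + 1 := by
  have : ∀ x : List Bool, ∃ e : ℕ, e.bits = x ++ [true] := by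
    intro x
    induction x with
    | nil => exact ⟨1, rfl⟩
    | cons b x ih =>
      obtain ⟨e, he⟩ := ih
      exact ⟨Nat.bit b e, by rw [Nat.bits_append_bit _ _ (by rintro rfl; simp at he), he]; rfl⟩
  obtain ⟨e, he⟩ := this (enc a)
  have h : e.size = sz a + 1 := by rw [← Nat.size_eq_bits_len, he]; simp [sz]
  refine ⟨e, ?_, h⟩
  unfold nth
  rw [he, h, Nat.add_sub_cancel, List.take_left' rfl]
  exact Dec.dec_raw a

section teach
open Finset
variable {X : Type} (m : ℕ → X → Bool) (μ : ℕ → ℚ)

theorem teach1 (hμ : ∀ x, 0 < μ x) (C : Finset ℕ) (hC : C.Nonempty) :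
    ∃ x ∈ C, ∃ l : List X, 2 ^ l.length * μ x ≤ ∑ y ∈ C, μ y ∧
      ∀ y ∈ C, m x ≠ m y → ∃ w ∈ l, m x w ≠ m y w := by
  induction C using Finset.strongInduction with
  | H C ih =>
    by_cases h : ∃ w, ∃ x ∈ C, ∃ y ∈ C, m x w = true ∧ m y w = false
    · obtain ⟨w, x, hx, y, hy, h1, h2⟩ := h
      obtain ⟨b, hb⟩ : ∃ b, 2 * ∑ z ∈ C.filter (fun z => m z w = b), μ z ≤ ∑ z ∈ C, μ z := by
        have := sum_filter_add_sum_filter_not C (fun z => m z w = true) μ
        simp only [Bool.not_eq_true] at this
        rcases le_total (∑ z ∈ C.filter (fun z => m z w = true), μ z)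
          (∑ z ∈ C.filter (fun z => m z w = false), μ z) with h | h
        · exact ⟨true, by linarith⟩
        · exact ⟨false, by linarith⟩
      obtain ⟨z, hz, l, a1, a2⟩ := ih (C.filter fun z => m z w = b)
        (filter_ssubset.2 (by cases b; exacts [⟨x, hx, by simp [h1]⟩, ⟨y, hy, by simp [h2]⟩]))
        (by cases b; exacts [⟨y, mem_filter.2 ⟨hy, h2⟩⟩, ⟨x, mem_filter.2 ⟨hx, h1⟩⟩])
      rw [mem_filter] at hz
      refine ⟨z, hz.1, w :: l, by rw [List.length_cons, pow_succ]; linarith, fun u hu hne => ?_⟩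
      by_cases e : m u w = b
      · obtain ⟨v, c1, c2⟩ := a2 u (mem_filter.2 ⟨hu, e⟩) hne
        exact ⟨v, List.mem_cons_of_mem _ c1, c2⟩
      · exact ⟨w, List.mem_cons_self, by rw [hz.2]; exact Ne.symm e⟩
    · obtain ⟨x, hx⟩ := hC
      refine ⟨x, hx, [], by simpa using single_le_sum (fun y _ => (hμ y).le) hx, fun y hy hne => ?_⟩
      refine absurd (funext fun w => ?_) hne
      push Not at h
      have := h w x hx y hy
      have := h w y hy x hx
      cases hx : m x w <;> cases hy : m y w <;> simp_all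

theorem teach2 (hμ : ∀ x, 0 < μ x) (C : Finset ℕ) :
    ∃ T : ℕ → List X, ∀ x ∈ C, 2 ^ (T x).length * μ x ≤ ∑ y ∈ C, μ y ∧
      ∀ y ∈ C, m x ≠ m y → ∃ w ∈ T x ++ T y, m x w ≠ m y w := by
  induction C using Finset.strongInduction with
  | H C ih =>
    rcases C.eq_empty_or_nonempty with rfl | hC
    · exact ⟨fun _ => [], by simp⟩
    obtain ⟨z, hz, l, a1, a2⟩ := teach1 m μ hμ C hC
    obtain ⟨T, hT⟩ := ih _ (erase_ssubset hz)
    refine ⟨update T z l, fun x hx => ?_⟩
    by_cases e : x = z
    · subst e
      refine ⟨by simpa using a1, fun y hy hne => ?_⟩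
      obtain ⟨w, b1, b2⟩ := a2 y hy hne
      exact ⟨w, by simp [b1], b2⟩
    · obtain ⟨b1, b2⟩ := hT x (mem_erase.2 ⟨e, hx⟩)
      rw [update_of_ne e]
      refine ⟨b1.trans (sum_le_sum_of_subset_of_nonneg (erase_subset _ _) fun y _ _ => (hμ y).le),
        fun y hy hne => ?_⟩
      by_cases e' : y = z
      · subst e'
        obtain ⟨w, c1, c2⟩ := a2 x hx hne.symm
        exact ⟨w, by simp [c1], c2.symm⟩
      · rw [update_of_ne e']
        exact b2 y (mem_erase.2 ⟨e', hy⟩) hne

theorem teach3 (n : ℕ) : ∃ τ : List (List X), ∀ x < n, (τ.getD x []).length ≤ 3 * x.size + 1 ∧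
    ∀ y < n, m x ≠ m y →
      ∃ w ∈ τ.getD x [] ++ cond (decide (y < x.size)) [] (τ.getD y []), m x w ≠ m y w := by
  classical
  obtain ⟨T, hT⟩ := teach2 m (fun x => 1 / ((x + 1) * (x + 2))) (fun x => by positivity) (range n)
  have hs : ∀ n : ℕ, ∑ x ∈ range n, (1 : ℚ) / ((x + 1) * (x + 2)) = 1 - 1 / (n + 1) := by
    intro n
    induction n with
    | zero => simp
    | succ n ih => rw [sum_range_succ, ih]; push_cast; field_simp; ring
  let d : ℕ → ℕ → Option X := fun x y =>
    if h : m x ≠ m y then some (Function.ne_iff.1 h).choose else none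
  refine ⟨(List.range n).map fun x => T x ++ (List.range x.size).filterMap (d x), fun x hx => ?_⟩
  have e : ∀ x < n, ((List.range n).map fun x => T x ++ (List.range x.size).filterMap (d x)).getD x []
      = T x ++ (List.range x.size).filterMap (d x) := fun x hx => by simp [hx]
  obtain ⟨h1, h2⟩ := hT x (mem_range.2 hx)
  rw [e x hx]
  refine ⟨?_, fun y hy hne => ?_⟩
  · have a1 := List.length_filterMap_le (d x) (List.range x.size)
    have a2 : (2 : ℚ) ^ (T x).length ≤ (x + 1) * (x + 2) := by
      rw [hs, mul_one_div, div_le_iff₀ (by positivity)] at h1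
      have : (0 : ℚ) ≤ 1 / (n + 1) * ((x + 1) * (x + 2)) := by positivity
      linarith
    have a3 : 2 ^ (T x).length ≤ (x + 1) * (x + 2) := by exact_mod_cast a2
    have a4 := Nat.lt_size_self x
    have a5 : 2 ^ (T x).length ≤ 2 ^ (2 * x.size + 1) := by
      rw [pow_succ, two_mul, pow_add]; nlinarith
    have := (Nat.pow_le_pow_iff_right (by norm_num)).1 a5
    rw [List.length_range] at a1
    rw [List.length_append]; omega
  · by_cases h : y < x.size
    · refine ⟨_, ?_, (Function.ne_iff.1 hne).choose_spec⟩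
      simp only [List.mem_append, List.mem_filterMap, List.mem_range]
      exact Or.inl (Or.inr ⟨y, h, dif_pos hne⟩)
    · obtain ⟨w, a1, a2⟩ := h2 y (mem_range.2 hy) hne
      refine ⟨w, ?_, a2⟩
      rw [e y hy]
      simp only [List.mem_append, h, decide_false, cond_false] at a1 ⊢
      tauto

end teach

theorem lim_find (P : ℕ → ℕ → Bool) (anti : ∀ s t a, s ≤ t → P t a = true → P s a = true)
    (h : ∃ a, ∀ t, P t a = true) :
    ∃ a, (∀ t, P t a = true) ∧ ∃ t0, ∀ t, t0 ≤ t → (List.range t).find? (P t) = some a := by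
  classical
  refine ⟨Nat.find h, Nat.find_spec h, ?_⟩
  have : ∀ b, ∃ s, b < Nat.find h → P s b ≠ true := fun b => by
    by_cases hb : b < Nat.find h
    · obtain ⟨s, hs⟩ := not_forall.1 (Nat.find_min h hb)
      exact ⟨s, fun _ => hs⟩
    · exact ⟨0, fun h => absurd h hb⟩
  choose s hs using this
  refine ⟨(Finset.range (Nat.find h)).sup s + Nat.find h + 1, fun t ht => ?_⟩
  rw [List.find?_range_eq_some]
  refine ⟨Nat.find_spec h t, List.mem_range.2 (by omega), fun b hb => ?_⟩
  have := Finset.le_sup (f := s) (Finset.mem_range.2 hb)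
  have := mt (anti (s b) t b (by omega)) (hs b hb)
  simpa using this

end Pool.Agent.H37.CS
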