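import Pool.Agent.H37.CS2

set_option autoImplicit false

namespace Pool.Agent.H37.CS

open Pool.Agent.H38.NP Function

abbrev Tc := List (List (List ℕ))

section
variable (m : ℕ → List ℕ → Bool)

def goodT (t i : ℕ) (τ : Tc) : Bool :=
  (List.range t).all fun x => !decide (x.size.size ≤ i) ||
    (decide ((τ.getD x []).length ≤ 3 * x.size + 1) &&
      (List.range t).all fun y => !decide (y.size.size ≤ i) ||
        (List.range t).all fun a => (m x (nth _ a) == m y (nth _ a)) ||
          (τ.getD x [] ++ cond (decide (y < x.size)) [] (τ.getD y [])).any fun w => m x w != m y w)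

def best (t i : ℕ) : Tc := nth _ (((List.range t).find? fun a => goodT m t i (nth _ a)).getD 0)

def TT (t e : ℕ) : List (List ℕ) :=
  (List.range (e.size + 1)).flatMap fun i => ((best m t i).getD e []).take (3 * e.size + 1)

def cand (k : ℕ) (S : List (List ℕ) × List (List ℕ)) (e : ℕ) : Bool :=
  S.1.all (fun w => m e w) && S.2.all (fun w => !m e w) &&
    (TT m (sz S) e).all fun w => !(w.all fun a => decide (a < k)) || S.1.contains w || S.2.contains w

theorem goodT_iff {t i : ℕ} {τ : Tc} : goodT m t i τ = true ↔ ∀ x < t, x.size.size ≤ i →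
    (τ.getD x []).length ≤ 3 * x.size + 1 ∧ ∀ y < t, y.size.size ≤ i → ∀ a < t,
      m x (nth _ a) ≠ m y (nth _ a) →
      ∃ w ∈ τ.getD x [] ++ cond (decide (y < x.size)) [] (τ.getD y []), m x w ≠ m y w := by
  simp only [goodT, List.all_eq_true, List.mem_range, Bool.or_eq_true, Bool.not_eq_true',
    decide_eq_false_iff_not, Bool.and_eq_true, decide_eq_true_eq, beq_iff_eq, List.any_eq_true,
    bne_iff_ne, imp_iff_not_or, not_not, ne_eq]

theorem best_lim (i : ℕ) : ∃ τ : Tc, (∀ x, x.size.size ≤ i →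
    (τ.getD x []).length ≤ 3 * x.size + 1 ∧ ∀ y, y.size.size ≤ i → m x ≠ m y →
      ∃ w ∈ τ.getD x [] ++ cond (decide (y < x.size)) [] (τ.getD y []), m x w ≠ m y w) ∧
    ∃ t0, ∀ t, t0 ≤ t → best m t i = τ := by
  obtain ⟨a, h1, t0, h2⟩ := lim_find (fun t a => goodT m t i (nth _ a))
    (fun s t a h h1 => (goodT_iff m).2 fun x hx hx' =>
      let ⟨b1, b2⟩ := (goodT_iff m).1 h1 x (by omega) hx'
      ⟨b1, fun y hy hy' c hc => b2 y (by omega) hy' c (by omega)⟩) (by
    obtain ⟨τ, hτ⟩ := teach3 m (2 ^ 2 ^ i)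
    obtain ⟨a, rfl, -⟩ := nth_surj τ
    have e : ∀ x : ℕ, x.size.size ≤ i → x < 2 ^ 2 ^ i := fun x hx =>
      Nat.size_le.1 (Nat.size_le.1 hx).le
    exact ⟨a, fun t => (goodT_iff m).2 fun x _ hx => ⟨(hτ x (e x hx)).1, fun y _ hy c _ hc =>
      (hτ x (e x hx)).2 y (e y hy) fun h => hc (by rw [h])⟩⟩)
  refine ⟨nth _ a, fun x hx => ⟨((goodT_iff m).1 (h1 (x + 1)) x (by omega) hx).1,
    fun y hy hne => ?_⟩, t0, fun t ht => by rw [best, h2 t ht]; rfl⟩
  obtain ⟨w, hw⟩ := Function.ne_iff.1 hne
  obtain ⟨c, rfl, -⟩ := nth_surj w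
  exact ((goodT_iff m).1 (h1 (x + y + c + 1)) x (by omega) hx).2 y (by omega) hy c (by omega) hw

theorem TT_lim : ∃ T : ℕ → List (List ℕ),
    (∀ e, (T e).length ≤ (e.size + 1) * (3 * e.size + 1)) ∧
    (∀ x y, y ≤ x → m x ≠ m y → ∃ w ∈ T x ++ T y, m x w ≠ m y w) ∧
    ∀ e, ∃ t0, ∀ t, t0 ≤ t → ∀ x ≤ e, TT m t x = T x := by
  choose τ h1 t0 h2 using best_lim m
  have s1 : ∀ x : ℕ, x.size ≤ x := fun x => Nat.size_le.2 Nat.lt_two_pow_self
  refine ⟨fun e => (List.range (e.size + 1)).flatMap fun i => ((τ i).getD e []).take (3 * e.size + 1),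
    fun e => ?_,
    fun x y hxy hne => ?_, fun e => ⟨(Finset.range (e.size + 1)).sup t0, fun t ht x hx => ?_⟩⟩
  · rw [List.length_flatMap]
    refine (List.sum_le_card_nsmul _ (3 * e.size + 1) fun x hx => ?_).trans (by simp)
    obtain ⟨i, -, rfl⟩ := List.mem_map.1 hx
    exact List.length_take_le _ _
  · have := Nat.size_le_size hxy
    simp only [List.mem_append, List.mem_flatMap, List.mem_range]
    by_cases h : y < x.size
    · obtain ⟨w, a1, a2⟩ := (h1 x.size x (s1 _)).2 y ((s1 _).trans this) hne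
      simp only [h, decide_true, cond_true, List.append_nil] at a1
      exact ⟨w, Or.inl ⟨x.size, by omega, by rwa [List.take_of_length_le (h1 _ x (s1 _)).1]⟩, a2⟩
    · obtain ⟨w, a1, a2⟩ := (h1 y.size x (Nat.size_le_size (by omega))).2 y (s1 _) hne
      simp only [h, decide_false, cond_false, List.mem_append] at a1
      exact ⟨w, a1.imp (fun a => ⟨y.size, by omega, by
        rwa [List.take_of_length_le (h1 _ x (Nat.size_le_size (by omega))).1]⟩)
        fun a => ⟨y.size, by omega, by rwa [List.take_of_length_le (h1 _ y (s1 _)).1]⟩, a2⟩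
  · refine List.flatMap_congr fun i hi => ?_
    have := Nat.size_le_size hx
    rw [h2 i t (le_trans (Finset.le_sup (f := t0) (by simp at hi ⊢; omega)) ht)]

theorem pt_cand (k : ℕ) (hm : PT fun p : ℕ × List ℕ => m p.1 p.2) :
    PT fun p : (List (List ℕ) × List (List ℕ)) × ℕ => cand m k p.1 p.2 := by
  obtain ⟨F, hF, rfl⟩ : ∃ F : ℕ × List ℕ → Bool, PT F ∧ m = fun a b => F (a, b) := ⟨_, hm, rfl⟩
  have h1 : PT fun p : ℕ × ℕ × Tc => goodT (fun a b => F (a, b)) p.1 p.2.1 p.2.2 := by
    unfold goodT; fun_prop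
  obtain ⟨G, hG, eG⟩ : ∃ G : ℕ × ℕ × Tc → Bool, PT G ∧
      ∀ t i τ, goodT (fun a b => F (a, b)) t i τ = G (t, i, τ) := ⟨_, h1, fun _ _ _ => rfl⟩
  have h2 : PT fun p : ℕ × ℕ => best (fun a b => F (a, b)) p.1 p.2 := by
    unfold best; simp only [eG]; fun_prop
  obtain ⟨B, hB, eB⟩ : ∃ B : ℕ × ℕ → Tc, PT B ∧
      ∀ t i, best (fun a b => F (a, b)) t i = B (t, i) := ⟨_, h2, fun _ _ => rfl⟩
  unfold cand TT; simp only [eB]; fun_prop

end

def mm (k e : ℕ) (w : List ℕ) : Bool := mem k (nth CG e) w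

def alg (k : ℕ) (S : List (List ℕ) × List (List ℕ)) : CG :=
  (((List.range (sz S)).find? (cand (mm k) k S)).map (nth CG)).getD (S.1.map fun w => (0, w))

theorem pt_alg (k : ℕ) : PT (alg k) := by
  have h1 := pt_cand (mm k) k ((pt_mem k).comp (g := fun p : ℕ × List ℕ => (nth CG p.1, p.2))
    (by fun_prop))
  obtain ⟨C, hC, eC⟩ : ∃ C : (List (List ℕ) × List (List ℕ)) × ℕ → Bool, PT C ∧
      ∀ S, cand (mm k) k S = fun e => C (S, e) := ⟨_, h1, fun _ => rfl⟩
  unfold alg; simp only [eC]; fun_prop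

def vl {k : ℕ} (S : Smp k) : List (List ℕ) × List (List ℕ) :=
  (S.1.map (List.map Fin.val), S.2.map (List.map Fin.val))

theorem enc_map {α β : Type} [Enc α] [Enc β] (f : α → β) (h : ∀ a, enc (f a) = enc a)
    (l : List α) : enc (l.map f) = enc l := by
  induction l with
  | nil => rfl
  | cons a l ih => simp [h, ih]

theorem enc_vl {k : ℕ} (S : Smp k) : enc (vl S) = enc S := by
  have := enc_map (List.map Fin.val) (enc_map (Fin.val (n := k)) fun _ => rfl)
  simp only [vl, enc_prod', this]

theorem cand_iff {k e : ℕ} {S : Smp k} : cand (mm k) k (vl S) e = true ↔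
    Cons S (toCFG k (nth CG e)).language ∧ ∀ w ∈ TT (mm k) (sz (vl S)) e, (∀ a ∈ w, a < k) →
      ∃ v ∈ S.1 ++ S.2, v.map Fin.val = w := by
  simp only [cand, Bool.and_eq_true, List.all_eq_true, Cons, ← mem_iff, Bool.or_eq_true,
    Bool.not_eq_true', List.contains_iff_mem]
  simp only [vl, List.mem_map, forall_exists_index, and_imp, forall_apply_eq_imp_iff₂, mm,
    Bool.not_eq_true, List.mem_append, or_and_right, exists_or, or_assoc, ← Bool.not_eq_true,
    List.all_eq_true, decide_eq_true_eq, ← imp_iff_not_or]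
  refine and_congr_right fun _ => forall₂_congr fun w _ => ?_
  rw [imp_or]
  by_cases h : ∀ x ∈ w, x < k
  · exact or_congr_right ⟨fun a _ => a, fun a => a h⟩
  · exact iff_of_true (Or.inl fun h' => absurd h' h) (Or.inl fun h' => absurd h' h)

theorem learner (k : ℕ) : Learner fun S : Smp k => alg k (vl S) := by
  obtain ⟨f, h1, h2⟩ := (pt_alg k).polyTimeOn fun _ => True
  refine ⟨⟨f, h1, fun S _ => by rw [← enc_vl, h2 _ trivial]⟩, fun S hS => ?_⟩
  simp only [alg]
  cases h : (List.range (sz (vl S))).find? (cand (mm k) k (vl S)) with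
  | none => exact ⟨fun w hw => (fin_lang _ _).2 hw, fun w hw h => hS w ((fin_lang _ _).1 h) hw⟩
  | some e => exact (cand_iff.1 (List.find?_some h)).1

theorem main (k : ℕ) : ∃ A : Smp k → CG, Learner A ∧ ∃ q : Polynomial ℕ,
    ∀ G : ContextFreeGrammar (Fin k), ∃ CS, Charac A G CS ∧
      CS.1.length + CS.2.length ≤ q.eval (gsize G) := by
  classical
  refine ⟨_, learner k, ?_⟩
  set r : Polynomial ℕ := .X * (2 * (2 * (.X + 1) + 1 + .X * (2 * (.X + 1 + .C k) + 1)) + 1) + 1
    with hr
  refine ⟨2 * ((r + 1) * (3 * r + 1) + 1), fun G => ?_⟩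
  have cs : ∀ l : List (List (Fin k)), Cons (l.filter fun v => decide (v ∈ G.language),
      l.filter fun v => decide (v ∉ G.language)) G.language := fun l =>
    ⟨fun w hw => by simpa using (List.mem_filter.1 hw).2,
      fun w hw => by simpa using (List.mem_filter.1 hw).2⟩
  have sub : ∀ (l : List (List (Fin k))) (S : Smp k),
      (l.filter fun v => decide (v ∈ G.language)) ⊆ S.1 →
      (l.filter fun v => decide (v ∉ G.language)) ⊆ S.2 → l ⊆ S.1 ++ S.2 := fun l S h1 h2 v hv => by
    by_cases h : v ∈ G.language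
    · exact List.mem_append_left _ (h1 (List.mem_filter.2 ⟨hv, by simpa using h⟩))
    · exact List.mem_append_right _ (h2 (List.mem_filter.2 ⟨hv, by simpa using h⟩))
  have agree : ∀ (S : Smp k) (L L' : Language (Fin k)), Cons S L → Cons S L' →
      ∀ v ∈ S.1 ++ S.2, v ∈ L ↔ v ∈ L' := fun S L L' h1 h2 v hv =>
    (List.mem_append.1 hv).elim (fun h => iff_of_true (h1.1 v h) (h2.1 v h))
      fun h => iff_of_false (h1.2 v h) (h2.2 v h)
  suffices ∃ l : List (List (Fin k)), l.length ≤ (r.eval (gsize G) + 1) * (3 * r.eval (gsize G) + 1) + 1 ∧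
      ∀ S : Smp k, Cons S G.language → l ⊆ S.1 ++ S.2 →
        (toCFG k (alg k (vl S))).language = G.language by
    obtain ⟨l, h1, h2⟩ := this
    refine ⟨_, ⟨cs l, fun S a b c => h2 S a (sub l S b c)⟩, ?_⟩
    have := List.length_filter_le (fun v => decide (v ∈ G.language)) l
    have := List.length_filter_le (fun v => decide (v ∉ G.language)) l
    simp only [Polynomial.eval_mul, Polynomial.eval_add, Polynomial.eval_ofNat, Polynomial.eval_one]
    omega
  cases k with
  | zero =>
    refine ⟨[[]], by simp, fun S h1 h2 => Language.ext fun v => ?_⟩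
    obtain rfl : v = [] := by cases v with
      | nil => rfl
      | cons a _ => exact a.elim0
    exact agree S _ _ ((learner 0).2 S fun w a b => h1.2 w b (h1.1 w a)) h1 _ (h2 (by simp))
  | succ k =>
    obtain ⟨g, g1, g2⟩ := rename G
    obtain ⟨e, rfl, e2⟩ := nth_surj g
    obtain ⟨T, T1, T2, T3⟩ := TT_lim (mm (k + 1))
    obtain ⟨t0, T4⟩ := T3 e
    have cv : ∀ w : List ℕ, (∀ a ∈ w, a < k + 1) →
        (w.map (Fin.ofNat (k + 1))).map Fin.val = w := fun w hw => by
      rw [List.map_map]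
      conv_rhs => rw [← List.map_id w]
      exact List.map_congr_left fun a ha => Nat.mod_eq_of_lt (hw a ha)
    refine ⟨List.replicate (t0 + e + 1) 0 :: (T e).map (List.map (Fin.ofNat (k + 1))), ?_,
      fun S h1 h2 => ?_⟩
    · have : e.size ≤ r.eval (gsize G) := by
        simp only [hr, Polynomial.eval_mul, Polynomial.eval_add, Polynomial.eval_ofNat,
          Polynomial.eval_one, Polynomial.eval_X, Polynomial.eval_C]
        omega
      rw [List.length_cons, List.length_map]
      exact Nat.succ_le_succ ((T1 e).trans (Nat.mul_le_mul (by omega) (by omega)))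
    · have ht : t0 + e + 1 ≤ sz (vl S) := by
        have a1 : (List.replicate (t0 + e + 1) (0 : Fin (k + 1))).map Fin.val ∈ (vl S).1 ++ (vl S).2 := by
          simp only [vl, ← List.map_append]
          exact List.mem_map_of_mem (h2 List.mem_cons_self)
        have a2 := (length_le_sz _).trans (sz_le_of_mem a1)
        rw [List.length_map, List.length_replicate, sz_append] at a2
        rw [sz_prod]; omega
      have c1 : cand (mm (k + 1)) (k + 1) (vl S) e = true := cand_iff.2 ⟨g1 ▸ h1, fun w hw hk => by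
        rw [T4 _ (by omega) e le_rfl] at hw
        exact ⟨_, h2 (List.mem_cons_of_mem _ (List.mem_map_of_mem hw)), cv w hk⟩⟩
      simp only [alg]
      cases h : (List.range (sz (vl S))).find? (cand (mm (k + 1)) (k + 1) (vl S)) with
      | none => exact absurd c1 (by simpa using List.find?_eq_none.1 h e (List.mem_range.2 (by omega)))
      | some x =>
        rw [List.find?_range_eq_some] at h
        have hx : x ≤ e := le_of_not_gt fun hx => by simpa [c1] using h.2.2 e hx
        obtain ⟨c2, c3⟩ := cand_iff.1 h.1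
        rw [T4 _ (by omega) x hx] at c3
        have : mm (k + 1) e = mm (k + 1) x := by
          by_contra hne
          obtain ⟨w, a1, a2⟩ := T2 e x hx hne
          have hk : ∀ a ∈ w, a < k + 1 := by
            cases b : mm (k + 1) e w
            · exact mem_lt (show mm (k + 1) x w = true by simpa [b] using a2)
            · exact mem_lt b
          obtain ⟨v, b1, rfl⟩ : ∃ v ∈ S.1 ++ S.2, v.map Fin.val = w :=
            (List.mem_append.1 a1).elim (fun hw =>
              ⟨_, h2 (List.mem_cons_of_mem _ (List.mem_map_of_mem hw)), cv w hk⟩) fun hw => c3 w hw hk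
          have := agree S _ _ (g1 ▸ h1) c2 v b1
          rw [← mem_iff, ← mem_iff] at this
          exact a2 (Bool.eq_iff_iff.2 this)
        rw [← g1]
        refine Language.ext fun v => ?_
        rw [← mem_iff, ← mem_iff]
        exact (Bool.eq_iff_iff.1 (congrFun this _)).symm

end Pool.Agent.H37.CS
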