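import Pool.Agent.H38.NP.Defs

set_option autoImplicit false

namespace Pool.Agent.H37.CS

open Pool.Agent.H38.NP

/-- letters are coded by their number -/
instance encFin (k : ℕ) : Enc (Fin k) := ⟨fun a => enc a.val⟩

/-- samples: listings of the positive and of the negative strings -/
abbrev Smp (k : ℕ) := List (List (Fin k)) × List (List (Fin k))

/-- coded grammars: lists of productions, symbols being numbers -/
abbrev CG := List (ℕ × List ℕ)

/-- numbers below `k` are terminals, `k + A` is the nonterminal `A` -/
def sym (k n : ℕ) : Symbol (Fin k) ℕ :=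
  if h : n < k then .terminal ⟨n, h⟩ else .nonterminal (n - k)

/-- the context-free grammar given by a code, with start symbol `0` -/
def toCFG (k : ℕ) (g : CG) : ContextFreeGrammar (Fin k) :=
  ⟨ℕ, 0, (g.map fun r => ⟨r.1, r.2.map (sym k)⟩).toFinset⟩

/-- the size of a grammar: the total length of its productions -/
def gsize {k : ℕ} (G : ContextFreeGrammar (Fin k)) : ℕ := ∑ r ∈ G.rules, (r.output.length + 1)

/-- the sample is consistent with the language -/
def Cons {k : ℕ} (S : Smp k) (L : Language (Fin k)) : Prop :=
  (∀ w ∈ S.1, w ∈ L) ∧ ∀ w ∈ S.2, w ∉ L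

/-- a polynomial-time algorithm giving a consistent grammar on each non-contradictory sample -/
def Learner {k : ℕ} (A : Smp k → CG) : Prop :=
  PolyTimeOn (fun _ => True) A ∧
    ∀ S : Smp k, (∀ w ∈ S.1, w ∉ S.2) → Cons S (toCFG k (A S)).language

/-- `CS` is a characteristic sample for `G` with respect to `A` -/
def Charac {k : ℕ} (A : Smp k → CG) (G : ContextFreeGrammar (Fin k)) (CS : Smp k) : Prop :=
  Cons CS G.language ∧ ∀ S : Smp k, Cons S G.language → CS.1 ⊆ S.1 → CS.2 ⊆ S.2 →
    (toCFG k (A S)).language = G.language

end Pool.Agent.H37.CS
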