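import Pool.Agent.H38.NP.Defs

set_option autoImplicit false

namespace Pool.Agent.H37.Chip

open Pool.Agent.H38.NP

/-- `y` arises from `x` by one legal firing in the digraph with `A v w` arcs from `v` to `w` -/
def Step {V : Type} [Fintype V] [DecidableEq V] (A : V → V → ℕ) (x y : V → ℤ) : Prop :=
  ∃ v, (y = fun w => x w - (if w = v then ((∑ z, A v z : ℕ) : ℤ) else 0) + A v w) ∧ 0 ≤ y v

/-- there is no infinite legal game from `x` -/
def Terminating {V : Type} [Fintype V] [DecidableEq V] (A : V → V → ℕ) (x : V → ℤ) : Prop :=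
  ¬ ∃ g : ℕ → V → ℤ, g 0 = x ∧ ∀ i, Step A (g i) (g (i + 1))

/-- the chip-distribution on `Fin n` given by a list of signed binary integers -/
def chips (n : ℕ) (l : List (Bool × Bin)) : Fin n → ℤ := fun v =>
  if (l.getD v (false, ⟨0⟩)).1 then -((l.getD v (false, ⟨0⟩)).2.val : ℤ)
  else (l.getD v (false, ⟨0⟩)).2.val

/-- the simple digraph on `Fin n` given by a list of arcs (loops and repetitions are ignored) -/
def simple (n : ℕ) (E : List (ℕ × ℕ)) : Fin n → Fin n → ℕ := fun u v =>
  if u ≠ v ∧ (u.val, v.val) ∈ E then 1 else 0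

/-- the multigraph on `Fin n` given by a list of arcs with binary multiplicities -/
def multi (n : ℕ) (E : List ((ℕ × ℕ) × Bin)) : Fin n → Fin n → ℕ := fun u v =>
  ((E.filter fun e => e.1 = (u.val, v.val)).map fun e => e.2.val).sum

end Pool.Agent.H37.Chip
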