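import Pool.Agent.H37.SimInc
import Pool.Agent.H37.ChipDefs

set_option autoImplicit false

namespace Pool.Agent.H37.Chip

open Pool.Agent.H38.NP Finset

section general

variable {V : Type} [Fintype V] [DecidableEq V] {A : V → V → ℕ}

def deg (A : V → V → ℕ) (v : V) : ℤ := ((∑ z, A v z : ℕ) : ℤ)

def cfg (A : V → V → ℕ) (x : V → ℤ) (u : V → ℕ) : V → ℤ :=
  fun w => x w - deg A w * u w + ∑ v, (A v w : ℤ) * u v

def inc (u : V → ℕ) (v : V) : V → ℕ := fun w => u w + if w = v then 1 else 0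

theorem sum_inc (u : V → ℕ) (v : V) : ∑ w, inc u v w = ∑ w, u w + 1 := by
  simp [inc, sum_add_distrib]

theorem cfg_zero (x : V → ℤ) : cfg A x 0 = x := by funext w; simp [cfg]

theorem step_iff (hA : ∀ v, A v v = 0) {x y : V → ℤ} {u : V → ℕ} :
    Step A (cfg A x u) y ↔ ∃ v, deg A v ≤ cfg A x u v ∧ y = cfg A x (inc u v) := by
  refine exists_congr fun v => ?_
  have : (fun w => cfg A x u w - (if w = v then ((∑ z, A v z : ℕ) : ℤ) else 0) + A v w) =
      cfg A x (inc u v) := by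
    funext w
    simp only [cfg, inc, Nat.cast_add, mul_add, sum_add_distrib, Nat.cast_ite, Nat.cast_one,
      Nat.cast_zero, mul_ite, mul_one, mul_zero, sum_ite_eq', mem_univ, if_true]
    split_ifs with h
    · subst h; unfold deg; ring
    · ring
  rw [← this]
  constructor
  · rintro ⟨rfl, h⟩
    exact ⟨by simpa [hA, deg] using h, rfl⟩
  · rintro ⟨h, rfl⟩
    exact ⟨rfl, by simpa [hA, deg] using h⟩

theorem cfg_inc (x : V → ℤ) (u : V → ℕ) (v w : V) :
    cfg A x (inc u v) w = cfg A x u w - (if w = v then deg A w else 0) + A v w := by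
  simp only [cfg, inc, Nat.cast_add, mul_add, sum_add_distrib, Nat.cast_ite, Nat.cast_one,
    Nat.cast_zero, mul_ite, mul_one, mul_zero, sum_ite_eq', mem_univ, if_true]
  ring

theorem inc_le {x : V → ℤ} {u U : V → ℕ} (h : u ≤ U) {v : V} (h1 : deg A v ≤ cfg A x u v)
    (h2 : u v < U v ∨ cfg A x U v < deg A v) : inc u v ≤ U := by
  intro w
  unfold inc
  split_ifs with e
  · subst e
    refine h2.elim id fun h2 => lt_of_le_of_ne (h w) fun e => ?_
    have : cfg A x u w ≤ cfg A x U w := by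
      unfold cfg
      rw [e]
      gcongr with z
      exact h z
    omega
  · exact h w

theorem sum_cfg (x : V → ℤ) (u : V → ℕ) : ∑ w, cfg A x u w = ∑ w, x w := by
  simp only [cfg, deg, sum_add_distrib, sum_sub_distrib, Nat.cast_sum, sum_mul]
  rw [sum_comm (f := fun w v => (A v w : ℤ) * u v)]
  ring

theorem least (hA : ∀ v, A v v = 0) {x y : V → ℤ} {U : V → ℕ} (hU : ∀ v, cfg A x U v < deg A v)
    (h : Relation.ReflTransGen (Step A) x y) : ∃ u ≤ U, y = cfg A x u := by
  induction h with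
  | refl => exact ⟨0, zero_le, (cfg_zero x).symm⟩
  | tail _ h ih =>
    obtain ⟨u, h1, rfl⟩ := ih
    obtain ⟨v, h2, rfl⟩ := (step_iff hA).1 h
    exact ⟨_, inc_le h1 h2 (Or.inr (hU v)), rfl⟩

theorem term_of (hA : ∀ v, A v v = 0) {x : V → ℤ} {U : V → ℕ} (hU : ∀ v, cfg A x U v < deg A v) :
    Terminating A x := by
  rintro ⟨g, h0, h⟩
  have : ∀ i, ∃ u ≤ U, ∑ w, u w = i ∧ g i = cfg A x u := by
    intro i
    induction i with
    | zero => exact ⟨0, zero_le, by simp, by rw [cfg_zero, h0]⟩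
    | succ i ih =>
      obtain ⟨u, h1, h2, h3⟩ := ih
      obtain ⟨v, h4, h5⟩ := (step_iff hA).1 (h3 ▸ h i)
      exact ⟨_, inc_le h1 h4 (Or.inr (hU v)), by rw [sum_inc, h2], h5⟩
  obtain ⟨u, h1, h2, -⟩ := this (∑ w, U w + 1)
  have := sum_le_sum (s := univ) fun w _ => h1 w
  omega

theorem nonneg_inc {x : V → ℤ} {u : V → ℕ} (h : ∀ w, 0 ≤ cfg A x u w) {v : V}
    (hv : deg A v ≤ cfg A x u v) (w : V) : 0 ≤ cfg A x (inc u v) w := by
  rw [cfg_inc]
  have := h w
  split_ifs with e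
  · subst e; omega
  · omega

theorem stable_of (hA : ∀ v, A v v = 0) {x : V → ℤ} (hx : ∀ v, 0 ≤ x v) (h : Terminating A x) :
    ∃ u, ∀ v, 0 ≤ cfg A x u v ∧ cfg A x u v < deg A v := by
  by_contra hn
  have : ∀ u : V → ℕ, (∀ v, 0 ≤ cfg A x u v) → ∃ v, deg A v ≤ cfg A x u v := fun u hu => by
    by_contra h1
    push Not at h1
    exact hn ⟨u, fun v => ⟨hu v, h1 v⟩⟩
  choose! F hF using fun (u : V → ℕ) (hu : ∀ v, 0 ≤ cfg A x u v) =>
    show ∃ u', (∀ v, 0 ≤ cfg A x u' v) ∧ Step A (cfg A x u) (cfg A x u') from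
      let ⟨v, hv⟩ := this u hu
      ⟨_, nonneg_inc hu hv, (step_iff hA).2 ⟨v, hv, rfl⟩⟩
  have h1 : ∀ i, ∀ v, 0 ≤ cfg A x (F^[i] 0) v := fun i => by
    induction i with
    | zero => simpa [cfg_zero] using hx
    | succ i ih => rw [Function.iterate_succ_apply']; exact (hF _ ih).1
  exact h ⟨fun i => cfg A x (F^[i] 0), cfg_zero x, fun i => by
    simp only [Function.iterate_succ_apply']; exact (hF _ (h1 i)).2⟩

theorem maxi (hA : ∀ v, A v v = 0) {x : V → ℤ} (hx : ∀ v, 0 ≤ x v) (U : V → ℕ) :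
    ∃ u ≤ U, Relation.ReflTransGen (Step A) x (cfg A x u) ∧ ∀ v, 0 ≤ cfg A x u v ∧
      (cfg A x u v < deg A v ∨ (u v = U v ∧ deg A v ≤ cfg A x U v)) := by
  have : ∀ d (u : V → ℕ), u ≤ U → ∑ w, U w ≤ ∑ w, u w + d →
      Relation.ReflTransGen (Step A) x (cfg A x u) → (∀ v, 0 ≤ cfg A x u v) →
      ∃ u ≤ U, Relation.ReflTransGen (Step A) x (cfg A x u) ∧ ∀ v, 0 ≤ cfg A x u v ∧
      (cfg A x u v < deg A v ∨ (u v = U v ∧ deg A v ≤ cfg A x U v)) := by
    intro d
    induction d using Nat.strong_induction_on with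
    | _ d ih =>
    intro u h1 h2 h3 h4
    by_cases h : ∀ v, cfg A x u v < deg A v ∨ (u v = U v ∧ deg A v ≤ cfg A x U v)
    · exact ⟨u, h1, h3, fun v => ⟨h4 v, h v⟩⟩
    · push Not at h
      obtain ⟨v, h5, h6⟩ := h
      have h7 := inc_le h1 h5 ((h1 v).lt_or_eq.imp_right h6)
      have h8 := sum_le_sum (s := univ) fun w _ => h7 w
      rw [sum_inc] at h8
      exact ih (d - 1) (by omega) _ h7 (by rw [sum_inc]; omega)
        (h3.tail ((step_iff hA).2 ⟨v, h5, rfl⟩)) (nonneg_inc h4 h5)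
  exact this (∑ w, U w) 0 zero_le (by simp) (by rw [cfg_zero]) (by simpa [cfg_zero] using hx)

end general

/-! ### the gadget graph -/

def blk (p : ℕ × ℕ) : List (ℕ × ℕ) :=
  (p.2 - p.1, p.2) :: ((List.range p.2).filter fun c => c != p.2 - 1 - p.1).map fun c => (c, p.2)

def cn (L : List (ℕ × ℕ)) : List (ℕ × ℕ) := (0, 2) :: (1, 2) :: L.flatMap blk

def vio (L : List (ℕ × ℕ)) (t : ℕ) : ℕ := (L.map fun p => if t % p.2 = p.1 then p.2 else 0).sum

def sto (C : List (ℕ × ℕ)) (t : ℕ) : ℕ := (C.map fun c => (c.1 + t) % c.2).sum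

theorem sum_mod (m t : ℕ) : ∑ c ∈ range m, (c + t) % m = ∑ c ∈ range m, c % m := by
  induction t with
  | zero => rfl
  | succ t ih =>
    have h1 := sum_range_succ (fun c => (c + t) % m) m
    have h2 := sum_range_succ' (fun c => (c + t) % m) m
    simp only [Nat.add_mod_left, zero_add] at h1 h2
    simp only [← ih, ← add_assoc, add_right_comm _ t 1]
    omega

theorem sto_blk {p : ℕ × ℕ} (h : p.1 < p.2) (t : ℕ) :
    sto (blk p) t + (if t % p.2 = p.1 then p.2 else 0) = ∑ c ∈ range p.2, c % p.2 + 1 := by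
  obtain ⟨b, m⟩ := p
  dsimp only at h ⊢
  have h1 : sto (blk (b, m)) t = (m - b + t) % m + ∑ c ∈ (range m).erase (m - 1 - b), (c + t) % m := by
    simp only [sto, blk, List.map_cons, List.sum_cons, List.map_map, Function.comp_def]
    rw [← List.sum_toFinset _ (List.nodup_range.filter _)]
    congr 2
    ext c; simp [and_comm]
  rw [h1, ← sum_mod m t, ← add_sum_erase _ _ (mem_range.2 (show m - 1 - b < m by omega))]
  have h2 : (m - b + t) % m + (if t % m = b then m else 0) = (m - 1 - b + t) % m + 1 := by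
    have h3 := Nat.mod_lt t (show 0 < m by omega)
    rw [← Nat.add_mod_mod, ← Nat.add_mod_mod (m - 1 - b)]
    generalize t % m = s at h3
    rcases lt_trichotomy s b with e | rfl | e
    · rw [if_neg e.ne, Nat.mod_eq_of_lt (by omega), Nat.mod_eq_of_lt (by omega)]; omega
    · rw [if_pos rfl, Nat.sub_add_cancel h.le, Nat.mod_self, Nat.mod_eq_of_lt (by omega)]; omega
    · rw [if_neg e.ne', Nat.mod_eq_sub_mod (by omega), Nat.mod_eq_of_lt (by omega),
        Nat.mod_eq_sub_mod (by omega), Nat.mod_eq_of_lt (by omega)]; omega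
  omega

theorem sto_cn {L : List (ℕ × ℕ)} (h : ∀ p ∈ L, p.1 < p.2) (t : ℕ) :
    sto (cn L) t + vio L t = sto (cn L) 0 + vio L 0 := by
  have : ∀ t, sto (L.flatMap blk) t + vio L t =
      (L.map fun p => ∑ c ∈ range p.2, c % p.2 + 1).sum := fun t => by
    induction L with
    | nil => rfl
    | cons p L ih =>
      have h1 := sto_blk (h p List.mem_cons_self) t
      have h2 := ih fun q hq => h q (List.mem_cons_of_mem _ hq)
      simp only [sto, vio, List.flatMap_cons, List.map_append, List.sum_append, List.map_cons,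
        List.sum_cons] at h1 h2 ⊢
      omega
  have h1 := this t
  have h2 := this 0
  simp only [sto, cn, List.map_cons, List.sum_cons] at h1 h2 ⊢
  omega

def nn (L : List (ℕ × ℕ)) : ℕ := 1 + (cn L).length + ((cn L).map fun c => c.2).sum

def ct (L : List (ℕ × ℕ)) (v : ℕ) : ℕ × ℕ := (cn L).getD (v - 1) (0, 1)

def adj (L : List (ℕ × ℕ)) (u v : ℕ) : Bool :=
  if u = 0 then decide (1 ≤ v) && decide (v < (cn L).length + 1)
  else if u ≤ (cn L).length then
    decide ((cn L).length + 1 ≤ v) && decide (v < (cn L).length + 1 + (ct L u).2)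
  else decide (v = 0)

def Y (L : List (ℕ × ℕ)) (t v : ℕ) : ℕ :=
  if v = 0 then (cn L).length - 1 + vio L t
  else if v ≤ (cn L).length then ((ct L v).1 + t) % (ct L v).2 else 0

def G (L : List (ℕ × ℕ)) : Fin (nn L) → Fin (nn L) → ℕ := fun u v => if adj L u v then 1 else 0

def X (L : List (ℕ × ℕ)) (t : ℕ) : Fin (nn L) → ℤ := fun v => Y L t v

def P0 (L : List (ℕ × ℕ)) : Fin (nn L) := ⟨0, by unfold nn; omega⟩

theorem G_self (L : List (ℕ × ℕ)) (v : Fin (nn L)) : G L v v = 0 := by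
  unfold G adj
  split_ifs <;> simp_all <;> omega

theorem card_Ico {n a b : ℕ} (h : b ≤ n) :
    ∑ z : Fin n, (if (decide (a ≤ z.val) && decide (z.val < b)) = true then 1 else 0) = b - a := by
  rw [Fin.sum_univ_eq_sum_range (fun z => if (decide (a ≤ z) && decide (z < b)) = true then 1 else 0),
    ← card_filter, ← Nat.card_Ico]
  congr 1
  ext z; simp; omega

theorem ct_mem {L : List (ℕ × ℕ)} {v : ℕ} (h0 : v ≠ 0) (h : v ≤ (cn L).length) : ct L v ∈ cn L := by
  rw [ct, List.getD_eq_getElem _ _ (by omega)]; exact List.getElem_mem _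

theorem cn_pos {L : List (ℕ × ℕ)} (h : ∀ p ∈ L, p.1 < p.2) : ∀ c ∈ cn L, 0 < c.2 := by
  intro c hc
  simp only [cn, blk, List.mem_cons, List.mem_flatMap, List.mem_map] at hc
  rcases hc with rfl | rfl | ⟨p, hp, rfl | ⟨_, -, rfl⟩⟩
  · simp
  · simp
  all_goals have := h p hp; simp only; omega

theorem deg_G (L : List (ℕ × ℕ)) (v : Fin (nn L)) : deg (G L) v =
    if v.val = 0 then ((cn L).length : ℤ) else if v.val ≤ (cn L).length then ((ct L v).2 : ℤ) else 1 := by
  unfold deg G adj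
  split_ifs with h1 h2
  · rw [card_Ico (by unfold nn; omega)]; simp
  · have : (ct L v).2 ≤ ((cn L).map fun c => c.2).sum :=
      List.single_le_sum (by simp) _ (List.mem_map_of_mem (ct_mem h1 h2))
    rw [card_Ico (by unfold nn; omega)]; simp
  · rw [sum_eq_single (P0 L) (fun b _ hb => if_neg (by simpa [P0, Fin.ext_iff] using hb))
      (by simp)]
    simp [P0]

theorem in_ct (L : List (ℕ × ℕ)) (u : Fin (nn L) → ℕ) {w : Fin (nn L)} (h0 : w.val ≠ 0)
    (h : w.val ≤ (cn L).length) : ∑ v, (G L v w : ℤ) * u v = u (P0 L) := by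
  rw [sum_eq_single (P0 L) (fun b _ hb => ?_) (by simp)]
  · simp [G, adj, P0]; omega
  · have : b.val ≠ 0 := by simpa [P0, Fin.ext_iff] using hb
    simp only [G, adj, if_neg this]
    split_ifs <;> simp_all <;> omega

theorem sum_X {L : List (ℕ × ℕ)} (h : ∀ p ∈ L, p.1 < p.2) (t : ℕ) : ∑ v, X L t v = ∑ v, X L 0 v := by
  have : ∀ t, ∑ v, X L t v = ((cn L).length - 1 + vio L t + sto (cn L) t : ℕ) := fun t => by
    simp only [X]
    rw [← Nat.cast_sum, Fin.sum_univ_eq_sum_range (Y L t), nn, sum_range_add, sum_range_add,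
      sum_eq_zero (s := range (List.sum _)) fun i _ => by simp [Y]; omega, sto,
      ← List.ofFn_getElem_eq_map, List.sum_ofFn, ← Fin.sum_univ_eq_sum_range _ (cn L).length,
      sum_range_one, add_zero]
    congr 2
    refine sum_congr rfl fun i _ => ?_
    have := i.2
    simp only [Y, ct, Nat.add_sub_cancel_left]
    rw [if_neg (by omega), if_pos (by omega), List.getD_eq_getElem _ _ this]
  rw [this, this]
  have := sto_cn h t
  omega

theorem det {L : List (ℕ × ℕ)} (h : ∀ p ∈ L, p.1 < p.2) {u : Fin (nn L) → ℕ}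
    (hu : ∀ v, v ≠ P0 L → 0 ≤ cfg (G L) (X L 0) u v ∧ cfg (G L) (X L 0) u v < deg (G L) v) :
    cfg (G L) (X L 0) u = X L (u (P0 L)) := by
  have h1 : ∀ v, v ≠ P0 L → cfg (G L) (X L 0) u v = X L (u (P0 L)) v := fun v hv => by
    have h0 : v.val ≠ 0 := by simpa [P0, Fin.ext_iff] using hv
    have h2 := hu v hv
    rw [deg_G, if_neg h0] at h2
    simp only [X, Y, if_neg h0]
    split_ifs at h2 ⊢ with h3
    · simp only [cfg, in_ct L u h0 h3, deg_G, X, Y, if_neg h0, if_pos h3, add_zero] at h2 ⊢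
      rw [← Nat.mod_add_mod]
      push_cast at h2 ⊢
      rw [← Int.emod_eq_of_lt h2.1 h2.2, sub_add_eq_add_sub, Int.sub_mul_emod_self_left]
    · push_cast; omega
  funext v
  by_cases hv : v = P0 L
  · have h2 := (sum_cfg (A := G L) (X L 0) u).trans (sum_X h (u (P0 L))).symm
    rw [← add_sum_erase _ _ (mem_univ v), ← add_sum_erase _ _ (mem_univ v),
      sum_congr rfl fun w hw => h1 w (hv ▸ (mem_erase.1 hw).1)] at h2
    exact add_right_cancel h2
  · exact h1 v hv

theorem ex {L : List (ℕ × ℕ)} (h : ∀ p ∈ L, p.1 < p.2) (t : ℕ) : ∃ U : Fin (nn L) → ℕ,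
    U (P0 L) = t ∧ cfg (G L) (X L 0) U = X L t ∧ ∀ v, v ≠ P0 L → X L t v < deg (G L) v := by
  let U1 : Fin (nn L) → ℕ := fun v => if v.val = 0 then t else
    ((ct L v).1 % (ct L v).2 + t) / (ct L v).2
  let U : Fin (nn L) → ℕ := fun v => if v.val ≤ (cn L).length then U1 v else ∑ w, G L w v * U1 w
  have h0 : U (P0 L) = t := by simp [U, U1, P0]
  have h1 : ∀ v, v ≠ P0 L → 0 ≤ cfg (G L) (X L 0) U v ∧ cfg (G L) (X L 0) U v < deg (G L) v := by
    intro v hv
    have h0' : v.val ≠ 0 := by simpa [P0, Fin.ext_iff] using hv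
    by_cases h3 : v.val ≤ (cn L).length
    · simp only [cfg, in_ct L U h0' h3, deg_G, X, Y, if_neg h0', if_pos h3, add_zero, h0]
      simp only [U, U1, if_neg h0', if_pos h3]
      have a := Nat.div_add_mod ((ct L v).1 % (ct L v).2 + t) (ct L v).2
      have b := Nat.mod_lt ((ct L v).1 % (ct L v).2 + t) (cn_pos h _ (ct_mem h0' h3))
      generalize ((ct L v).1 % (ct L v).2 + t) / (ct L v).2 = q at a
      zify at a b ⊢
      constructor <;> linarith [Int.emod_nonneg ((ct L v).1 % (ct L v).2 + t : ℤ)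
        (show ((ct L v).2 : ℤ) ≠ 0 by have := cn_pos h _ (ct_mem h0' h3); omega)]
    · have : ∑ w, (G L w v : ℤ) * U w = U v := by
        simp only [U, if_neg h3]
        push_cast
        refine sum_congr rfl fun w _ => ?_
        split_ifs with h4
        · rfl
        · have : w.val ≠ 0 := by omega
          simp [G, adj, h4, this, h0']
      simp [cfg, this, deg_G, X, Y, h0', h3]
  have h2 := det h h1
  rw [h0] at h2
  exact ⟨U, h0, h2, fun v hv => h2 ▸ (h1 v hv).2⟩

theorem vio_zero {L : List (ℕ × ℕ)} (h : ∀ p ∈ L, p.1 < p.2) (t : ℕ) :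
    X L t (P0 L) < deg (G L) (P0 L) ↔ ∀ p ∈ L, t % p.2 ≠ p.1 := by
  have : vio L t = 0 ↔ ∀ p ∈ L, t % p.2 ≠ p.1 := by
    simp only [vio, List.sum_eq_zero_iff, List.mem_map, forall_exists_index, and_imp,
      forall_apply_eq_imp_iff₂, ite_eq_right_iff]
    exact forall₂_congr fun p hp => imp_congr_right fun _ => by have := h p hp; simp; omega
  have h1 : 2 ≤ (cn L).length := by simp [cn]
  simp only [← this, deg_G, X, Y, P0, if_true]
  omega

theorem stab {L : List (ℕ × ℕ)} (h : ∀ p ∈ L, p.1 < p.2) {t : ℕ} (ht : ∀ p ∈ L, t % p.2 ≠ p.1) :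
    ∃ U : Fin (nn L) → ℕ, U (P0 L) = t ∧ ∀ v, cfg (G L) (X L 0) U v < deg (G L) v := by
  obtain ⟨U, h1, h2, h3⟩ := ex h t
  refine ⟨U, h1, fun v => ?_⟩
  rw [h2]
  by_cases hv : v = P0 L
  · rw [hv]; exact (vio_zero h t).2 ht
  · exact h3 v hv

theorem term_iff {L : List (ℕ × ℕ)} (h : ∀ p ∈ L, p.1 < p.2) :
    (∃ t, ∀ p ∈ L, t % p.2 ≠ p.1) ↔ Terminating (G L) (X L 0) := by
  constructor
  · rintro ⟨t, ht⟩
    obtain ⟨U, -, hU⟩ := stab h ht
    exact term_of (G_self L) hU
  · intro ht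
    obtain ⟨u, hu⟩ := stable_of (G_self L) (fun v => by simp [X]) ht
    refine ⟨u (P0 L), (vio_zero h _).1 ?_⟩
    rw [← det h fun v _ => hu v]; exact (hu _).2

def Y' (L : List (ℕ × ℕ)) (v : ℕ) : ℕ := if v = 1 then 1 else if v = 2 then 0 else Y L 0 v

theorem reach_iff {L : List (ℕ × ℕ)} (h : ∀ p ∈ L, p.1 < p.2 ∧ p.2 % 2 = 1) :
    (∃ t, ∀ p ∈ L, t % p.2 ≠ p.1) ↔
      ¬ Relation.ReflTransGen (Step (G L)) (X L 0) fun v => Y' L v := by
  have h' : ∀ p ∈ L, p.1 < p.2 := fun p hp => (h p hp).1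
  have h2 : 2 ≤ (cn L).length := by simp [cn]
  have key : ∀ T, T % 2 = 1 → (∀ p ∈ L, p.2 ∣ T) → X L T = fun v : Fin (nn L) => (Y' L v : ℤ) := by
    intro T a1 a2
    funext v
    simp only [X, Y', Nat.cast_inj]
    split_ifs with e1 e2
    · simp [Y, ct, cn, e1, a1]
    · simp [Y, ct, cn, e2]; omega
    · unfold Y
      split_ifs with e3 e4
      · simp only [vio]
        congr 2
        exact List.map_congr_left fun p hp => by simp [Nat.mod_eq_zero_of_dvd (a2 p hp)]
      · have : ct L v ∈ L.flatMap blk := by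
          obtain ⟨j, hj⟩ : ∃ j, v.val = j + 3 := ⟨v - 3, by omega⟩
          simp only [cn, List.length_cons] at e4
          simp only [ct, cn, hj, show j + 3 - 1 = j + 1 + 1 by omega, List.getD_cons_succ]
          rw [List.getD_eq_getElem _ _ (by omega)]; exact List.getElem_mem _
        simp only [blk, List.mem_flatMap, List.mem_cons, List.mem_map] at this
        obtain ⟨p, hp, e | ⟨c, -, e⟩⟩ := this <;> obtain ⟨q, rfl⟩ := a2 p hp
        · simp [e]
        · simp [← e]
      · rfl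
  have hT : (L.map fun p => p.2).prod % 2 = 1 := by
    clear key h2 h'
    induction L with
    | nil => rfl
    | cons p L ih =>
      simp [Nat.mul_mod, (h p List.mem_cons_self).2, ih fun q hq => h q (List.mem_cons_of_mem _ hq)]
  have hT' : ∀ p ∈ L, p.2 ∣ (L.map fun p => p.2).prod := fun p hp =>
    List.dvd_prod (List.mem_map_of_mem hp)
  constructor
  · intro ht hr
    classical
    obtain ⟨U, a1, a2⟩ := stab h' (Nat.find_spec ht)
    obtain ⟨u, a3, a4⟩ := least (G_self L) a2 hr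
    obtain ⟨-, -, -, a5⟩ := ex h' (L.map fun p => p.2).prod
    rw [key _ hT hT'] at a5
    have a6 := a4.trans (det h' fun v hv => by rw [← a4]; exact ⟨by simp, a5 v hv⟩)
    have a7 : u (P0 L) ≤ Nat.find ht := a1 ▸ a3 (P0 L)
    generalize u (P0 L) = s at a6 a7
    have a8 : ∀ v < nn L, Y' L v = Y L s v := fun v hv => by simpa [X] using congrFun a6 ⟨v, hv⟩
    have a9 : s % 2 = 1 := by simpa [Y', Y, ct, cn, eq_comm] using a8 1 (by unfold nn; omega)
    refine Nat.find_min ht (m := Nat.find ht % s) ((Nat.mod_lt _ (by omega)).trans_le a7)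
      fun p hp => ?_
    rw [Nat.mod_mod_of_dvd _ ?_]
    · exact Nat.find_spec ht p hp
    obtain ⟨j, b1, b2⟩ := List.getElem_of_mem (l := L.flatMap blk) (a := (p.2 - p.1, p.2))
      (List.mem_flatMap.2 ⟨p, hp, List.mem_cons_self⟩)
    have b3 : ct L (j + 3) = (p.2 - p.1, p.2) := by
      simp only [ct, cn, show j + 3 - 1 = j + 1 + 1 by omega, List.getD_cons_succ]
      rw [List.getD_eq_getElem _ _ b1, b2]
    have b4 : j + 3 ≤ (cn L).length := by simp only [cn, List.length_cons]; omega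
    have b5 := a8 (j + 3) (by unfold nn; omega)
    simp only [Y', Y, b3, if_pos b4] at b5
    rw [if_neg (by omega), if_neg (by omega), if_neg (by omega), if_neg (by omega)] at b5
    exact (Nat.modEq_zero_iff_dvd.1 (Nat.ModEq.add_left_cancel' _ b5).symm)
  · intro hr
    by_contra hn
    obtain ⟨U, a1, a2, a3⟩ := ex h' (L.map fun p => p.2).prod
    obtain ⟨u, -, b2, b3⟩ := maxi (G_self L) (x := X L 0) (fun v => by simp [X]) U
    have b4 := det h' fun v hv => ⟨(b3 v).1, (b3 v).2.resolve_right fun h => by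
      rw [a2] at h; exact absurd (a3 v hv) (not_lt.2 h.2)⟩
    rcases (b3 (P0 L)).2 with b5 | b5
    · exact hn ⟨_, (vio_zero h' _).1 (b4 ▸ b5)⟩
    · rw [b4, b5.1, a1, key _ hT hT'] at b2
      exact hr b2

def lst (n : ℕ) (f : ℕ → ℕ) : List (Bool × Bin) := (List.range n).map fun v => (false, ⟨f v⟩)

theorem chips_lst (n : ℕ) (f : ℕ → ℕ) : chips n (lst n f) = fun v : Fin n => (f v : ℤ) := by
  funext v; simp [chips, lst]

theorem pt_adj : PT fun p : List (ℕ × ℕ) × ℕ × ℕ => adj p.1 p.2.1 p.2.2 := by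
  unfold adj ct cn blk; fun_prop

@[fun_prop] theorem pt_Y {α : Type} [Enc α] {L : α → List (ℕ × ℕ)} {v : α → ℕ} (hL : PT L)
    (hv : PT v) : PT fun a => Y (L a) 0 (v a) := by
  unfold Y vio ct cn blk; fun_prop

@[fun_prop] theorem pt_nn : PT nn := by unfold nn cn blk; fun_prop

theorem halt_hard : NPHard (lang fun p : ℕ × List (ℕ × ℕ) × List (Bool × Bin) =>
    Terminating (simple p.1 p.2.1) (chips p.1 p.2.2)) := by
  refine NPH.npHard (C := fun _ => True) (simInc_nph.reduce
    (fun L => (nn L, edgesOf (nn L) (adj L), lst (nn L) (Y L 0)))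
    (PT.mk pt_nn (PT.mk (PT.edgesOf pt_nn pt_adj) (by unfold lst; fun_prop))) fun L h =>
      ⟨trivial, ?_⟩) fun _ _ => Iff.rfl
  have : simple (nn L) (edgesOf (nn L) (adj L)) = G L := by
    funext u v
    have := G_self L u
    by_cases e : u = v <;> simp_all [simple, G, mem_edgesOf]
  simp only [this, chips_lst]
  exact term_iff fun p hp => (h p hp).1

theorem reach_hard : CoNPHardOn
    (fun p : ℕ × List ((ℕ × ℕ) × Bin) × List (Bool × Bin) × List (Bool × Bin) =>
      ∀ u v, multi p.1 p.2.1 u v ≤ 1 ∧ multi p.1 p.2.1 u u = 0)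
    fun p => Relation.ReflTransGen (Step (multi p.1 p.2.1)) (chips p.1 p.2.2.1)
      (chips p.1 p.2.2.2) := by
  refine NPH.coNPHardOn (simInc_nph.reduce
    (fun L => (nn L, (edgesOf (nn L) (adj L)).map fun e => (e, ⟨1⟩), lst (nn L) (Y L 0),
      lst (nn L) (Y' L)))
    (PT.mk pt_nn (PT.mk (PT.map (by fun_prop) (PT.edgesOf pt_nn pt_adj))
      (by unfold lst Y'; fun_prop))) fun L h => ?_)
  have : multi (nn L) ((edgesOf (nn L) (adj L)).map fun e => (e, ⟨1⟩)) = G L := by
    funext u v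
    have h1 : (edgesOf (nn L) (adj L)).Nodup := by
      rw [edgesOf, List.nodup_flatMap]
      refine ⟨fun a _ => (List.nodup_range.filter _).map fun _ _ h => (Prod.mk.inj h).2,
        List.nodup_range.imp fun h => ?_⟩
      simp only [Function.onFun, List.disjoint_left, List.mem_map]
      rintro _ ⟨_, -, rfl⟩ ⟨_, -, e⟩
      exact h (Prod.mk.inj e).1.symm
    have h2 := h1.count (a := (u.val, v.val))
    simp only [mem_edgesOf, Fin.is_lt, true_and] at h2
    rw [G, ← h2]
    simp [multi, List.filter_map, Function.comp_def, List.count, List.countP_eq_length_filter,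
      ← Bool.beq_eq_decide_eq]
  simp only [this, chips_lst]
  exact ⟨fun u v => ⟨by unfold G; split_ifs <;> omega, G_self L u⟩, reach_iff h⟩

end Pool.Agent.H37.Chip
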