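import Pool.Agent.H37.CkDefs

set_option autoImplicit false

namespace Pool.Agent.H37.Ck

open Set MeasureTheory
open scoped symmDiff

/-- sets with finitely many boundary points -/
def El (S : Set ℝ) : Prop :=
  MeasurableSet S ∧ ∃ P : Finset ℝ, ∀ x y, x ≤ y → (∀ p ∈ P, p ∉ Icc x y) → (x ∈ S ↔ y ∈ S)

lemma El.comb {S T U : Set ℝ} (hS : El S) (hT : El T) (hU : MeasurableSet U)
    (h : ∀ x y, (x ∈ S ↔ y ∈ S) → (x ∈ T ↔ y ∈ T) → (x ∈ U ↔ y ∈ U)) : El U := by
  classical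
  obtain ⟨-, P, hP⟩ := hS
  obtain ⟨-, Q, hQ⟩ := hT
  exact ⟨hU, P ∪ Q, fun x y hxy hp => h x y (hP x y hxy fun p h' => hp p (by simp [h']))
    (hQ x y hxy fun p h' => hp p (by simp [h']))⟩

lemma El.inter {S T : Set ℝ} (hS : El S) (hT : El T) : El (S ∩ T) :=
  hS.comb hT (hS.1.inter hT.1) fun x y h1 h2 => by simp [h1, h2]

lemma el_Iio (a : ℝ) : El (Iio a) :=
  ⟨measurableSet_Iio, {a}, fun x y hxy hp => by
    have := hp a (by simp)
    simp only [mem_Icc, not_and, not_le, mem_Iio] at this ⊢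
    constructor
    · intro h; exact this h.le
    · intro h; linarith⟩

lemma el_Icc : El (Icc 0 1) :=
  ⟨measurableSet_Icc, {0, 1}, fun x y hxy hp => by
    have h0 := hp 0 (by simp)
    have h1 := hp 1 (by simp)
    simp only [mem_Icc, not_and, not_le] at h0 h1 ⊢
    constructor
    · rintro ⟨a, b⟩; exact ⟨by linarith, (h1 b).le⟩
    · rintro ⟨a, b⟩
      refine ⟨?_, by linarith⟩
      by_contra hc
      have := h0 (by linarith); linarith⟩

lemma fin_of_sub {X : Set ℝ} (h : X ⊆ Icc 0 1) : volume X ≠ ⊤ :=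
  ((measure_mono h).trans_lt (by simp)).ne

lemma approx {S W : Set ℝ} (hS : MeasurableSet S) (hW : El W) (hSW : S ⊆ W) (hWI : W ⊆ Icc 0 1)
    {ε : ℝ} (hε : 0 < ε) :
    ∃ K, El K ∧ K ⊆ W ∧ volume.real (K \ S) ≤ ε ∧ volume.real (S \ K) ≤ ε := by
  have hr : IsSetRing {S | El S} :=
    ⟨⟨MeasurableSet.empty, ∅, fun _ _ _ _ => Iff.rfl⟩,
      fun s t hs ht => hs.comb ht (hs.1.union ht.1) fun x y h1 h2 => by simp [h1, h2],
      fun s t hs ht => hs.comb ht (hs.1.diff ht.1) fun x y h1 h2 => by simp [h1, h2]⟩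
  have hg : (inferInstance : MeasurableSpace ℝ) = MeasurableSpace.generateFrom {S | El S} := by
    refine le_antisymm ?_ (MeasurableSpace.generateFrom_le fun t ht => ht.1)
    rw [BorelSpace.measurable_eq (α := ℝ), borel_eq_generateFrom_Iio]
    refine MeasurableSpace.generateFrom_mono ?_
    rintro _ ⟨a, rfl⟩
    exact el_Iio a
  obtain ⟨t, ht, hlt⟩ := exists_measure_symmDiff_lt_of_generateFrom_isSetRing
    (μ := volume.restrict (Icc (0 : ℝ) 1)) hr
    ⟨{univ}, countable_singleton _, by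
      rintro _ rfl
      exact ⟨MeasurableSet.univ, ∅, fun _ _ _ _ => Iff.rfl⟩, by simp⟩ hg hS
    (ENNReal.ofReal_pos.2 hε)
  rw [Measure.restrict_apply (ht.1.symmDiff hS)] at hlt
  have key : ∀ X, X ⊆ t ∆ S ∩ Icc 0 1 → volume.real X ≤ ε := fun X hX =>
    ENNReal.toReal_le_of_le_ofReal hε.le ((measure_mono hX).trans hlt.le)
  refine ⟨t ∩ W, El.inter ht hW, inter_subset_right, key _ ?_, key _ ?_⟩
  · rintro x ⟨⟨h1, h2⟩, h3⟩
    exact ⟨Or.inl ⟨h1, h3⟩, hWI h2⟩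
  · rintro x ⟨h1, h2⟩
    exact ⟨Or.inr ⟨h1, fun h => h2 ⟨h, hSW h1⟩⟩, hWI (hSW h1)⟩

open Classical in
/-- three-level density -/
noncomputable def h3 (J K : Set ℝ) (x y z : ℝ) : ℝ → ℝ :=
  fun p => if p ∈ J then x else if p ∈ K then y else z

open Classical in
/-- two-level density -/
noncomputable def h2 (K : Set ℝ) (y z : ℝ) : ℝ → ℝ := fun p => if p ∈ K then y else z

lemma h2_eq {J K : Set ℝ} (h : J ⊆ K) (y z : ℝ) : h2 K y z = h3 J K y y z := by
  funext p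
  unfold h2 h3
  by_cases hp : p ∈ J
  · simp [hp, h hp]
  · simp [hp]

lemma val3 {J K X : Set ℝ} (hJ : MeasurableSet J) (hK : MeasurableSet K) (h : J ⊆ K)
    (hX : X ⊆ Icc 0 1) (x y z : ℝ) :
    val (h3 J K x y z) X = x * volume.real (J ∩ X) + y * volume.real ((K \ J) ∩ X) +
      z * volume.real (Kᶜ ∩ X) := by
  have e : h3 J K x y z = fun p => J.indicator (fun _ => x) p + (K \ J).indicator (fun _ => y) p +
      Kᶜ.indicator (fun _ => z) p := by
    funext p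
    unfold h3
    by_cases h1 : p ∈ J
    · simp [h1, h h1]
    · by_cases h2 : p ∈ K <;> simp [h1, h2]
  haveI : IsFiniteMeasure (volume.restrict X) := isFiniteMeasure_restrict.2 (fin_of_sub hX)
  have i : ∀ (S : Set ℝ) (c : ℝ), MeasurableSet S →
      Integrable (S.indicator fun _ => c) (volume.restrict X) :=
    fun S c hS => (integrable_const c).indicator hS
  have j : ∀ (S : Set ℝ) (c : ℝ), MeasurableSet S →
      ∫ p in X, S.indicator (fun _ => c) p = c * volume.real (S ∩ X) := by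
    intro S c hS
    rw [integral_indicator_const _ hS, measureReal_restrict_apply hS, smul_eq_mul, mul_comm]
  unfold val
  rw [e]
  have a1 := integral_add (f := fun p => J.indicator (fun _ => x) p +
    (K \ J).indicator (fun _ => y) p) ((i _ x hJ).add (i _ y (hK.diff hJ))) (i _ z hK.compl)
  have a2 := integral_add (i _ x hJ) (i _ y (hK.diff hJ))
  rw [a1, a2, j _ _ hJ, j _ _ (hK.diff hJ), j _ _ hK.compl]

lemma pc3 {J K : Set ℝ} (hJ : El J) (hK : El K) {x y z : ℝ} (hx : 0 ≤ x) (hy : 0 ≤ y)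
    (hz : 0 ≤ z) (hv : 0 < val (h3 J K x y z) (Icc 0 1)) : PC (h3 J K x y z) := by
  classical
  obtain ⟨-, P, hP⟩ := hJ
  obtain ⟨-, Q, hQ⟩ := hK
  refine ⟨⟨P ∪ Q, fun u v _ huv _ hp => ?_⟩, fun u _ => ?_, hv⟩
  · have h1 := hP u v huv fun p h' => hp p (by simp [h'])
    have h2 := hQ u v huv fun p h' => hp p (by simp [h'])
    simp only [h3, h1, h2]
  · unfold h3; split_ifs <;> assumption

lemma split {A B X : Set ℝ} (hB : MeasurableSet B) (hX : MeasurableSet X) (hA1 : A ⊆ Icc 0 1)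
    (hB1 : B ⊆ Icc 0 1) (hd : Disjoint A B) (h0 : volume (Icc 0 1 \ (A ∪ B)) = 0) :
    volume.real (X ∩ A) + volume.real (X ∩ B) = volume.real (X ∩ Icc 0 1) := by
  rw [← measureReal_union (hd.mono inter_subset_right inter_subset_right) (hX.inter hB)
    (fin_of_sub (inter_subset_right.trans hA1)) (fin_of_sub (inter_subset_right.trans hB1)),
    ← inter_union_distrib_left]
  refine measureReal_congr (ae_eq_set_inter (ae_eq_refl _) ?_)
  refine ae_eq_set.2 ⟨?_, h0⟩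
  rw [sdiff_eq_empty.2 (union_subset hA1 hB1)]; simp

lemma cut {X Y : Set ℝ} (hY : MeasurableSet Y) (hX : X ⊆ Icc 0 1) :
    volume.real X = volume.real (Y ∩ X) + volume.real (X \ Y) := by
  rw [inter_comm, measureReal_inter_add_sdiff hY (fin_of_sub hX)]

lemma gap {c : ℝ} (hc : 0 < c) : ∀ (n : ℕ) (r : ℝ), 0 < r → ∃ ε0, 0 < ε0 ∧ ∀ ε, ε ≤ ε0 →
    ∀ l : ℕ → ℝ, l 0 ≤ ε → r ≤ l n → ∃ k < n, l k + ε ≤ c * l (k + 1) ^ 2
  | 0, r, hr => ⟨r / 2, by linarith, fun ε h l h1 h2 => by linarith⟩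
  | n + 1, r, hr => by
    have p : 0 < c * r ^ 2 / 2 := by positivity
    obtain ⟨ε0, h0, h⟩ := gap hc n _ p
    refine ⟨min ε0 (c * r ^ 2 / 2), lt_min h0 p, fun ε hε l h1 h2 => ?_⟩
    by_cases hl : c * r ^ 2 / 2 ≤ l n
    · obtain ⟨k, hk, hk'⟩ := h ε (hε.trans (min_le_left _ _)) l h1 hl
      exact ⟨k, by omega, hk'⟩
    · refine ⟨n, by omega, ?_⟩
      have := hε.trans (min_le_right _ _)
      have : r ^ 2 ≤ l (n + 1) ^ 2 := pow_le_pow_left₀ hr.le h2 2
      nlinarith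

lemma numeric {a c T t ε l l0 L L' b : ℝ} (ha : 0 < a) (ha1 : a ≤ 1) (hc : 0 < c)
    (hcT : c * (2 * T + 3) < a ^ 2 / 8) (ht : 1 ≤ t) (hT : t + 2 * (a / 8) ≤ T) (hε : 0 < ε)
    (hl : 0 < l) (hl1 : l ≤ 1) (hl0 : 0 ≤ l0) (hg : l0 + ε ≤ c * l ^ 2) (hb0 : 0 ≤ b)
    (h1 : a / 8 * l - (t + 2 * (a / 8)) * ε ≤ a / 8 * L) (h2 : L ≤ L')
    (h3 : b ≤ (1 - 3 * a / 4) * l + ε)
    (h4 : a * l / 4 * t * L' ≤ t * l0 + a * l / 4 * (t + 2 * (a / 8)) * b + 2 * ε) : False := by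
  have e1 : ε ≤ c * l := by nlinarith
  have η0 : 0 < a * l / 4 := by positivity
  have e2 : a * l / 4 * L' ≤ l0 + 2 * ε + a * l / 4 * (1 + a / 4) * b := by
    have p : 0 ≤ a * l / 4 * b := by positivity
    have q : a * l / 4 * (t + 2 * (a / 8)) * b ≤ t * (a * l / 4 * (1 + a / 4) * b) := by
      have : t + 2 * (a / 8) ≤ t * (1 + a / 4) := by nlinarith
      nlinarith
    have : t * (a * l / 4 * L') ≤ t * (l0 + 2 * ε + a * l / 4 * (1 + a / 4) * b) := by nlinarith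
    exact le_of_mul_le_mul_left this (by linarith)
  have e3 : a / 4 * L' ≤ 2 * c * l + a / 4 * (1 + a / 4) * b := by
    have : l * (a / 4 * L') ≤ l * (2 * c * l + a / 4 * (1 + a / 4) * b) := by nlinarith
    exact le_of_mul_le_mul_left this hl
  have e4 : a / 4 * l - 2 * T * (c * l) ≤ a / 4 * L' := by
    have : (t + 2 * (a / 8)) * ε ≤ T * (c * l) :=
      mul_le_mul hT e1 hε.le (by linarith)
    nlinarith
  have e5 : a / 4 * (1 + a / 4) * b ≤ a / 4 * (1 - a / 2) * l + c * l := by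
    have p : a / 4 * (1 + a / 4) * b ≤ a / 4 * (1 + a / 4) * ((1 - 3 * a / 4) * l + c * l) :=
      mul_le_mul_of_nonneg_left (by linarith) (by positivity)
    have q : a / 4 * (1 + a / 4) * (c * l) ≤ 1 * (c * l) :=
      mul_le_mul_of_nonneg_right (by nlinarith) (by positivity)
    have r : a / 4 * (1 + a / 4) * ((1 - 3 * a / 4) * l) ≤ a / 4 * (1 - a / 2) * l := by
      have : 0 ≤ a * a * a * l := by positivity
      nlinarith
    nlinarith
  have : l * (a ^ 2 / 8) ≤ l * (c * (2 * T + 3)) := by nlinarith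
  have := le_of_mul_le_mul_left this hl
  linarith

end Pool.Agent.H37.Ck
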