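import Pool.Agent.H37.Ck1

set_option autoImplicit false

namespace Pool.Agent.H37.Ck

open Set MeasureTheory

lemma valA {M : Mech} (hw : M.Whole) {f g : ℝ → ℝ} (hf : PC f) (hg : PC g) {J K : Set ℝ}
    (hJ : MeasurableSet J) (hK : MeasurableSet K) (h : J ⊆ K) (x y z : ℝ) :
    val (h3 J K x y z) (M.A f g) =
      val (h3 J K x y z) (Icc 0 1) - val (h3 J K x y z) (M.B f g) := by
  obtain ⟨-, m2, s1, s2, d, n⟩ := hw f g hf hg
  rw [val3 hJ hK h s1, val3 hJ hK h s2, val3 hJ hK h subset_rfl, ← split m2 hJ s1 s2 d n,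
    ← split m2 (hK.diff hJ) s1 s2 d n, ← split m2 hK.compl s1 s2 d n]
  ring

lemma cutK {J K X : Set ℝ} (hJ : MeasurableSet J) (h : J ⊆ K) (hX : X ⊆ Icc 0 1) :
    volume.real (K ∩ X) = volume.real (J ∩ X) + volume.real ((K \ J) ∩ X) := by
  rw [cut hJ (inter_subset_right.trans hX), ← inter_assoc, inter_eq_left.2 h]
  congr 2
  ext p; simp only [mem_diff, mem_inter_iff]; tauto

lemma le_tot (Y : Set ℝ) {X : Set ℝ} (hX : X ⊆ Icc 0 1) :
    volume.real (Y ∩ X) ≤ volume.real (Y ∩ Icc 0 1) :=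
  measureReal_mono (inter_subset_inter_right _ hX) (fin_of_sub inter_subset_right)

lemma le_one {X : Set ℝ} (hX : X ⊆ Icc 0 1) : volume.real X ≤ 1 := by
  have := measureReal_mono hX (fin_of_sub subset_rfl)
  simpa using this

lemma one_eq (K : Set ℝ) : h2 K 1 1 = fun _ => 1 := by
  funext p; simp [h2]

lemma val2 {K X : Set ℝ} (hK : MeasurableSet K) (hX : X ⊆ Icc 0 1) (y z : ℝ) :
    val (h2 K y z) X = y * volume.real (K ∩ X) + z * volume.real (Kᶜ ∩ X) := by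
  rw [h2_eq subset_rfl, val3 hK hK subset_rfl hX]; simp

lemma val_one {X : Set ℝ} : val (fun _ => 1) X = volume.real X := by
  simp [val]

lemma pc_one : PC fun _ => 1 :=
  ⟨⟨∅, fun _ _ _ _ _ _ => rfl⟩, fun _ _ => zero_le_one, by rw [val_one]; simp⟩

lemma core {M : Mech} (hw : M.Whole) (ht : M.Truthful) {a : ℝ}
    (hf : ∀ f g, PC f → PC g → a * val f (Icc 0 1) ≤ val f (M.A f g))
    {J K : Set ℝ} (hJ : El J) (hK : El K) (hJK : J ⊆ K) (hKI : K ⊆ Icc 0 1)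
    {c T t ε l l0 : ℝ} (ha : 0 < a) (ha1 : a ≤ 1) (hc : 0 < c)
    (hcT : c * (2 * T + 3) < a ^ 2 / 8) (h1t : 1 ≤ t) (hT : t + 2 * (a / 8) ≤ T) (hε : 0 < ε)
    (hA1 : volume.real (K \ M.A (h2 K 1 1) (h2 K 1 1)) ≤ ε)
    (hA2 : volume.real (M.A (h2 K 1 1) (h2 K 1 1) \ K) ≤ ε)
    (hl : l = volume.real (K ∩ M.B (h2 K 1 0) (h2 K (t + a / 8) 1)))
    (hl0 : l0 = volume.real (K ∩ M.B (h2 K 1 0) (h2 K t 1)))
    (hJ1 : volume.real (J \ (K ∩ M.B (h2 K 1 0) (h2 K (t + a / 8) 1))) ≤ ε)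
    (hJ2 : volume.real ((K ∩ M.B (h2 K 1 0) (h2 K (t + a / 8) 1)) \ J) ≤ ε)
    (hg : l0 + ε ≤ c * l ^ 2) : False := by
  have l1 : l ≤ 1 := hl ▸ le_one (inter_subset_left.trans hKI)
  have l00 : 0 ≤ l0 := hl0 ▸ measureReal_nonneg
  have lp : 0 < l := by
    rcases (show 0 ≤ l from hl ▸ measureReal_nonneg).eq_or_lt with h | h
    · rw [← h] at hg; linarith
    · exact h
  have c1 : c < 1 / 2 := by nlinarith
  have εl : ε < l := by nlinarith
  have hJI : J ∩ Icc 0 1 = J := inter_eq_left.2 (hJK.trans hKI)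
  have sS : K ∩ M.B (h2 K 1 0) (h2 K (t + a / 8) 1) ⊆ Icc 0 1 := inter_subset_left.trans hKI
  have j1 : l - ε ≤ volume.real (J ∩ M.B (h2 K 1 0) (h2 K (t + a / 8) 1)) := by
    have := cut hJ.1 sS
    rw [← inter_assoc, inter_eq_left.2 hJK] at this
    linarith
  have m1l : l - ε ≤ volume.real (J ∩ Icc 0 1) :=
    j1.trans (measureReal_mono (by rw [hJI]; exact inter_subset_left)
      (fin_of_sub inter_subset_right))
  have pc : ∀ x y z : ℝ, 0 < x → 0 ≤ y → 0 ≤ z → PC (h3 J K x y z) := by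
    intro x y z hx hy hz
    refine pc3 hJ hK hx.le hy hz ?_
    rw [val3 hJ.1 hK.1 hJK subset_rfl]
    have : 0 < volume.real (J ∩ Icc 0 1) := by linarith
    positivity
  simp only [h2_eq hJK] at hA1 hA2 hl hl0 hJ1 hJ2 j1 sS
  have η0 : 0 < a * l / 4 := by positivity
  have η1 : a * l / 4 ≤ 1 := by nlinarith
  generalize hη : a * l / 4 = η at η0 η1
  have t1 : 0 < t + a / 8 := by positivity
  have t2 : 0 < t + 2 * (a / 8) := by positivity
  have t0 : 0 < t := by positivity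
  have p1 := pc 1 1 1 one_pos zero_le_one zero_le_one
  have pf := pc 1 1 0 one_pos zero_le_one le_rfl
  have pf' := pc 1 η 0 one_pos η0.le le_rfl
  have pg0 := pc t t 1 t0 t0.le zero_le_one
  have pg1 := pc _ _ 1 t1 t1.le zero_le_one
  have pg := pc _ 0 1 t2 le_rfl zero_le_one
  have sB : ∀ {f g}, PC f → PC g → M.B f g ⊆ Icc 0 1 := fun hf hg => (hw _ _ hf hg).2.2.2.1
  have T1 : ∀ {x y z f' g}, PC (h3 J K x y z) → PC f' → PC g →
      val (h3 J K x y z) (M.B (h3 J K x y z) g) ≤ val (h3 J K x y z) (M.B f' g) := by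
    intro x y z f' g q1 q2 q3
    have := ht.1 _ _ _ q1 q2 q3
    rw [valA hw q1 q3 hJ.1 hK.1 hJK, valA hw q2 q3 hJ.1 hK.1 hJK] at this
    linarith
  have V : ∀ {f g}, PC f → PC g → ∀ x y z, val (h3 J K x y z) (M.B f g) =
      x * volume.real (J ∩ M.B f g) + y * volume.real ((K \ J) ∩ M.B f g) +
        z * volume.real (Kᶜ ∩ M.B f g) := fun q1 q2 => val3 hJ.1 hK.1 hJK (sB q1 q2)
  have m1u : volume.real (J ∩ Icc 0 1) ≤ l + ε := by
    have := cut (hK.1.inter (hw _ _ pf pg1).2.1) (hJK.trans hKI)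
    have := measureReal_mono (inter_subset_left (t := J)) (fin_of_sub sS)
    rw [hJI]; linarith
  have ea := ht.2 _ _ _ pf pg1 pg
  have eb := ht.2 _ _ _ pf pg pg1
  have ec := hf _ _ pf' pg
  have ed := T1 pf' pf pg0
  have ee := ht.2 _ _ _ pf' pg0 pg
  have ef := ht.2 _ _ _ pf' pg p1
  have ef1 := T1 p1 pf' p1
  have ef2 := T1 pf' p1 p1
  have eg := T1 pf pf' pg
  rw [valA hw pf' pg hJ.1 hK.1 hJK, val3 hJ.1 hK.1 hJK subset_rfl, V pf' pg] at ec
  rw [V pf pg, V pf pg1] at ea eb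
  rw [V pf' pg0, V pf pg0] at ed
  rw [V pf' pg0, V pf' pg] at ee
  rw [V pf' p1, V pf' pg] at ef
  rw [V pf' p1, V p1 p1] at ef1 ef2
  rw [V pf pg, V pf' pg] at eg
  rw [cutK hJ.1 hJK (sB pf pg1)] at hl
  rw [cutK hJ.1 hJK (sB pf pg0)] at hl0
  obtain ⟨mA, mB, sA, sB0, d, n⟩ := hw _ _ p1 p1
  have k1 : volume.real (J ∩ M.B (h3 J K 1 1 1) (h3 J K 1 1 1)) +
      volume.real ((K \ J) ∩ M.B (h3 J K 1 1 1) (h3 J K 1 1 1)) ≤ ε := by
    rw [← cutK hJ.1 hJK sB0]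
    refine le_trans (measureReal_mono ?_ (fin_of_sub (diff_subset.trans hKI))) hA1
    exact fun p hp => ⟨hp.1, fun h => disjoint_left.1 d h hp.2⟩
  have k2 : volume.real (Kᶜ ∩ Icc 0 1) - ε ≤
      volume.real (Kᶜ ∩ M.B (h3 J K 1 1 1) (h3 J K 1 1 1)) := by
    have := split mB hK.1.compl sA sB0 d n
    rw [inter_comm Kᶜ (M.A _ _), ← diff_eq] at this
    linarith
  have k3 := le_tot Kᶜ (sB pf' pg0)
  have k4 : volume.real ((K \ J) ∩ Icc 0 1) ≤ 1 := le_one inter_subset_right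
  have z : ∀ X : Set ℝ, 0 ≤ volume.real X := fun X => measureReal_nonneg
  have z1 := z ((K \ J) ∩ M.B (h3 J K 1 1 0) (h3 J K (t + 2 * (a / 8)) 0 1))
  have z2 := z ((K \ J) ∩ M.B (h3 J K 1 η 0) (h3 J K (t + 2 * (a / 8)) 0 1))
  have z3 := z ((K \ J) ∩ M.B (h3 J K 1 1 0) (h3 J K t t 1))
  have z4 := z (J ∩ M.B (h3 J K 1 η 0) (h3 J K t t 1))
  have z5 := z (J ∩ M.B (h3 J K 1 η 0) (h3 J K 1 1 1))
  have z6 := z ((K \ J) ∩ M.B (h3 J K 1 1 1) (h3 J K 1 1 1))
  have z7 := z ((K \ J) ∩ Icc 0 1)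
  have z8 := z (J ∩ M.B (h3 J K 1 η 0) (h3 J K (t + 2 * (a / 8)) 0 1))
  generalize volume.real (J ∩ Icc 0 1) = m1 at *
  generalize volume.real ((K \ J) ∩ Icc 0 1) = m2 at *
  generalize volume.real (Kᶜ ∩ Icc 0 1) = m3 at *
  generalize M.B (h3 J K 1 1 0) (h3 J K (t + 2 * (a / 8)) 0 1) = X1 at *
  generalize M.B (h3 J K 1 η 0) (h3 J K (t + 2 * (a / 8)) 0 1) = X2 at *
  generalize M.B (h3 J K 1 1 0) (h3 J K t t 1) = X3 at *
  generalize M.B (h3 J K 1 η 0) (h3 J K t t 1) = X4 at *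
  generalize M.B (h3 J K 1 η 0) (h3 J K 1 1 1) = X5 at *
  generalize M.B (h3 J K 1 1 1) (h3 J K 1 1 1) = X6 at *
  generalize M.B (h3 J K 1 1 0) (h3 J K (t + a / 8) (t + a / 8) 1) = X7 at *
  refine numeric (L := volume.real (J ∩ X1) + volume.real ((K \ J) ∩ X1))
    (L' := volume.real (J ∩ X2) + volume.real ((K \ J) ∩ X2)) ha ha1 hc hcT h1t hT hε lp l1 l00 hg
    z8 ?_ (by linarith) ?_ ?_
  · have := mul_le_mul_of_nonneg_left j1 t2.le
    have := mul_nonneg t2.le z1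
    rw [hl] at *
    nlinarith
  · have q1 := mul_le_mul_of_nonneg_left m1u (sub_nonneg.2 ha1)
    have q2 := mul_nonneg η0.le z2
    have q3 := mul_le_mul_of_nonneg_left k4 η0.le
    have q4 := mul_nonneg ha.le (mul_nonneg η0.le z7)
    have q5 := mul_nonneg ha.le hε.le
    nlinarith
  · rw [hη]
    have q1 : η * (volume.real (J ∩ X4) + volume.real ((K \ J) ∩ X4)) ≤ l0 := by nlinarith
    have q2 : η * (volume.real (J ∩ X5) + volume.real ((K \ J) ∩ X5)) ≤ ε := by nlinarith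
    have q3 : m3 - ε - (volume.real (J ∩ X5) + volume.real ((K \ J) ∩ X5)) ≤
        volume.real (Kᶜ ∩ X5) := by
      have := z (J ∩ X6)
      linarith
    have q4 : t * (volume.real (J ∩ X2) + volume.real ((K \ J) ∩ X2)) ≤
        t * (volume.real (J ∩ X4) + volume.real ((K \ J) ∩ X4)) +
          (t + 2 * (a / 8)) * volume.real (J ∩ X2) + ε +
          (volume.real (J ∩ X5) + volume.real ((K \ J) ∩ X5)) := by
      have := mul_nonneg t2.le z5
      linarith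
    have q5 := mul_le_mul_of_nonneg_left q4 η0.le
    have q6 := mul_le_mul_of_nonneg_left q1 t0.le
    have q7 := mul_le_mul_of_nonneg_right η1 hε.le
    nlinarith

theorem main {α : ℝ} (hα : 0 < α) (M : Mech) (hw : M.Whole) (ht : M.Truthful) :
    ¬ M.ApproxProp α := by
  intro hp
  unfold Mech.ApproxProp at hp
  have ha : 0 < α / 2 := by positivity
  generalize α / 2 = a at hp ha
  obtain ⟨mA, mB, sA, sB, d, n0⟩ := hw _ _ pc_one pc_one
  have a0 : a ≤ volume.real (M.A (fun _ => 1) fun _ => 1) := by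
    have := (hp _ _ pc_one pc_one).1
    rw [val_one, val_one] at this
    simpa using this
  have ha1 : a ≤ 1 := a0.trans (le_one sA)
  obtain ⟨n, hn⟩ := exists_nat_ge (4 / a ^ 2 / (a / 8))
  have hn' : 4 ≤ (1 + n * (a / 8)) * a ^ 2 := by
    rw [div_le_iff₀ (by positivity), div_le_iff₀ (by positivity)] at hn
    nlinarith [sq_nonneg a]
  have hT : 0 < 2 * (1 + (n + 1) * (a / 8)) + 3 := by positivity
  obtain ⟨c, hc, hcT⟩ : ∃ c, 0 < c ∧ c * (2 * (1 + (n + 1) * (a / 8)) + 3) < a ^ 2 / 8 :=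
    ⟨a ^ 2 / 16 / (2 * (1 + (n + 1) * (a / 8)) + 3), by positivity, by
      rw [div_mul_cancel₀ _ hT.ne']; nlinarith [pow_pos ha 2]⟩
  obtain ⟨ε0, h0, hgap⟩ := gap hc n (a ^ 2 / 4) (by positivity)
  obtain ⟨ε, hε, e1, e2⟩ : ∃ ε, 0 < ε ∧ ε ≤ ε0 ∧ ε ≤ a / 2 :=
    ⟨min ε0 (a / 2), lt_min h0 (by positivity), min_le_left _ _, min_le_right _ _⟩
  obtain ⟨K, hK, hKI, k1, k2⟩ := approx mA el_Icc sA subset_rfl hε
  have hKK : K ∩ Icc 0 1 = K := inter_eq_left.2 hKI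
  have kA : volume.real K - ε ≤ volume.real (K ∩ M.A (fun _ => 1) fun _ => 1) := by
    have := cut mA hKI
    rw [inter_comm] at this
    linarith
  have kp : a / 2 ≤ volume.real K := by
    have := cut hK.1 sA
    have := measureReal_mono (inter_subset_left (t := M.A (fun _ => 1) fun _ => 1))
      (fin_of_sub hKI)
    linarith
  have pc : ∀ y z : ℝ, 0 < y → 0 ≤ z → PC (h2 K y z) := by
    intro y z hy hz
    have : 0 < val (h2 K y z) (Icc 0 1) := by
      rw [val2 hK.1 subset_rfl, hKK]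
      have : 0 < volume.real K := by linarith
      positivity
    rw [h2_eq subset_rfl] at this ⊢
    exact pc3 hK hK hy.le hy.le hz this
  have pf := pc 1 0 one_pos le_rfl
  have tp : ∀ k : ℕ, (0 : ℝ) < 1 + k * (a / 8) := fun k => by positivity
  obtain ⟨k, hk, hg⟩ := hgap ε e1
    (fun k => volume.real (K ∩ M.B (h2 K 1 0) (h2 K (1 + k * (a / 8)) 1))) (by
      obtain ⟨-, m2, s1, s2, d, n⟩ := hw _ _ pf pc_one
      have h1 := ht.1 _ _ _ pf pc_one pc_one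
      have h2 := split m2 hK.1 s1 s2 d n
      rw [val2 hK.1 sA, val2 hK.1 s1] at h1
      simp only [Nat.cast_zero, zero_mul, add_zero, one_eq]
      rw [hKK] at h2
      linarith) (by
      have pg := pc _ 1 (tp n) zero_le_one
      have s2 := (hw _ _ pf pg).2.2.2.1
      have h1 := (hp _ _ pf pg).2
      rw [val2 hK.1 s2, val2 hK.1 subset_rfl, hKK] at h1
      have h2 := le_one ((inter_subset_right (s := Kᶜ)).trans s2)
      have h3 : 0 ≤ volume.real (Kᶜ ∩ Icc (0 : ℝ) 1) := measureReal_nonneg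
      have h4 := mul_le_mul_of_nonneg_left kp (mul_pos ha (tp n)).le
      refine le_of_mul_le_mul_left ?_ (tp n)
      nlinarith)
  have e : 1 + ((k + 1 : ℕ) : ℝ) * (a / 8) = 1 + k * (a / 8) + a / 8 := by push_cast; ring
  simp only [e] at hg
  have pg := pc _ 1 (e ▸ tp (k + 1)) zero_le_one
  obtain ⟨J, hJ, hJK, j1, j2⟩ := approx (hK.1.inter (hw _ _ pf pg).2.1) hK inter_subset_left hKI hε
  have kn : (k : ℝ) + 1 ≤ n := by exact_mod_cast hk
  rw [← one_eq K] at k1 k2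
  refine core hw ht (fun f g hf hg => (hp f g hf hg).1) hJ hK hJK hKI ha ha1 hc hcT
    (t := 1 + k * (a / 8)) (by have : 0 ≤ k * (a / 8) := by positivity
                               linarith) (by nlinarith) hε k1 k2 rfl rfl j1 j2 hg

end Pool.Agent.H37.Ck
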