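import Mathlib

set_option autoImplicit false

namespace Pool.Agent.H37.Ck

open Set MeasureTheory

/-- value of a piece under a density -/
noncomputable def val (f : ℝ → ℝ) (X : Set ℝ) : ℝ := ∫ x in X, f x

/-- admissible density: on `[0,1]` it is constant between finitely many break points,
nonnegative, and of positive total value -/
def PC (f : ℝ → ℝ) : Prop :=
  (∃ P : Finset ℝ, ∀ x y, 0 ≤ x → x ≤ y → y ≤ 1 → (∀ p ∈ P, p ∉ Icc x y) → f x = f y) ∧
    (∀ x ∈ Icc (0 : ℝ) 1, 0 ≤ f x) ∧ 0 < val f (Icc 0 1)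

/-- a two-agent mechanism: the pieces of agents 1 and 2 as functions of the two reports -/
structure Mech where
  A : (ℝ → ℝ) → (ℝ → ℝ) → Set ℝ
  B : (ℝ → ℝ) → (ℝ → ℝ) → Set ℝ

/-- the pieces are disjoint measurable subsets of the cake covering it up to a null set -/
def Mech.Whole (M : Mech) : Prop :=
  ∀ f g, PC f → PC g → MeasurableSet (M.A f g) ∧ MeasurableSet (M.B f g) ∧
    M.A f g ⊆ Icc 0 1 ∧ M.B f g ⊆ Icc 0 1 ∧ Disjoint (M.A f g) (M.B f g) ∧
    volume (Icc 0 1 \ (M.A f g ∪ M.B f g)) = 0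

/-- truth-telling is a dominant strategy for both agents -/
def Mech.Truthful (M : Mech) : Prop :=
  (∀ f f' g, PC f → PC f' → PC g → val f (M.A f' g) ≤ val f (M.A f g)) ∧
    ∀ f g g', PC f → PC g → PC g' → val g (M.B f g') ≤ val g (M.B f g)

/-- each agent gets at least `α / 2` of its value for the cake -/
def Mech.ApproxProp (M : Mech) (α : ℝ) : Prop :=
  ∀ f g, PC f → PC g → α / 2 * val f (Icc 0 1) ≤ val f (M.A f g) ∧
    α / 2 * val g (Icc 0 1) ≤ val g (M.B f g)

end Pool.Agent.H37.Ck
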