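import Pool.Agent.H37.LowDefs

set_option autoImplicit false

namespace Pool.Agent.H37

open Classical in
/-- the relative density of `X` in `[0, n)` -/
noncomputable def dens (X : Set ℕ) (n : ℕ) : ℝ :=
  (((Finset.range n).filter fun i => i ∈ X).card : ℝ) / n

/-- the density pseudo-metric: upper density of the symmetric difference -/
noncomputable def delta (A B : Set ℕ) : ℝ := Filter.limsup (dens (symmDiff A B)) Filter.atTop

/-- coarse similarity: the symmetric difference has density zero -/
def Coarse (A B : Set ℕ) : Prop := Filter.Tendsto (dens (symmDiff A B)) Filter.atTop (nhds 0)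

end Pool.Agent.H37
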