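import Pool.Agent.H37.Gen
import Pool.Agent.H37.CoarseDefs

/-!
The sets not computing a fixed noncomputable set generate a closed subspace of the space of
coarse similarity classes.
-/

set_option autoImplicit false

namespace Pool.Agent.H37.CoarseCl

open Pool.Agent.H37 Filter

def df (A B : ℕ → Bool) (m : ℕ) : ℕ := (List.range m).countP fun i => A i != B i

theorem df_succ (A B : ℕ → Bool) (m : ℕ) :
    df A B (m + 1) = df A B m + if A m = B m then 0 else 1 := by
  by_cases h : A m = B m <;> simp [df, List.range_succ, h]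

theorem df_tri (A B C : ℕ → Bool) (m : ℕ) : df A C m ≤ df A B m + df B C m := by
  induction m with
  | zero => simp [df]
  | succ m ih => simp only [df_succ]; split_ifs <;> first | omega | simp_all

theorem df_comm (A B : ℕ → Bool) (m : ℕ) : df A B m = df B A m := by
  simp only [df, bne_comm]

theorem df_congr {A A' : ℕ → Bool} (B : ℕ → Bool) {m k : ℕ} (h : Agr k A A') (hm : m ≤ k) :
    df A' B m = df A B m :=
  List.countP_congr fun i hi => by rw [h i (by have := List.mem_range.1 hi; omega)]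

theorem df_const {A B : ℕ → Bool} {N : ℕ} (h : ∀ i, N ≤ i → A i = B i) (m : ℕ) (hm : N ≤ m) :
    df A B m = df A B N := by
  induction m, hm using Nat.le_induction with
  | base => rfl
  | succ m hm ih => rw [df_succ, if_pos (h m hm), ih]; rfl

def nb (A : ℕ → Bool) : ℕ → ℕ := fun i => (A i).toNat

def Mem (B : ℕ → Bool) (p : ℕ × ℕ × (ℕ → Bool)) (D : ℕ → Bool) : Prop :=
  Agr p.1 p.2.2 D ∧ ∀ m, p.1 ≤ m → p.2.1 * df D B m ≤ m

theorem Mem.up {B : ℕ → Bool} {p q : ℕ × ℕ × (ℕ → Bool)} {D : ℕ → Bool} (h : Mem B q D)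
    (h1 : p.1 ≤ q.1) (h2 : p.2.1 ≤ q.2.1) (h3 : Mem B p q.2.2) : Mem B p D :=
  ⟨h3.1.trans (h.1.mono h1), fun m hm => by
    by_cases h4 : q.1 ≤ m
    · exact (Nat.mul_le_mul_right _ h2).trans (h.2 m h4)
    · rw [df_congr B h.1 (by omega)]; exact h3.2 m hm⟩

theorem step {B : ℕ → Bool} {Z : ℕ → ℕ}
    (hB : ∀ q, ∃ A, ¬ CI (orc (nb A)) Z ∧ ∀ᶠ m in atTop, q * df A B m ≤ m) (e : ℕ)
    (p : ℕ × ℕ × (ℕ → Bool)) (hp : Mem B p p.2.2 ∧ ∃ N, ∀ i, N ≤ i → p.2.2 i = B i) :
    ∃ p' : ℕ × ℕ × (ℕ → Bool), (Mem B p' p'.2.2 ∧ ∃ N, ∀ i, N ≤ i → p'.2.2 i = B i) ∧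
      (p.1 ≤ p'.1 ∧ p.2.1 ≤ p'.2.1 ∧ Mem B p p'.2.2) ∧
      ∀ D, Mem B p' D → ¬ ∀ x, Z x ∈ app e (nb D) x := by
  obtain ⟨k, q, D⟩ := p
  obtain ⟨⟨-, h1⟩, M, h2⟩ := hp
  dsimp only at h1 h2
  by_contra hn
  push Not at hn
  have a1 : ∀ D' l x v, k ≤ l → Agr k D D' → (∀ m, k ≤ m → m ≤ l → q * df D' B m ≤ m) →
      U e (pre (nb D') l) x = some v → v = Z x := by
    intro D' l x v b1 b2 b3 b4
    have c1 : Agr l D' fun i => if i < l then D' i else B i := fun i hi => if_pos hi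
    have c2 : ∀ i, l ≤ i → (fun i => if i < l then D' i else B i) i = B i :=
      fun i hi => if_neg (by omega)
    have c3 : ∀ m, k ≤ m → q * df (fun i => if i < l then D' i else B i) B m ≤ m := fun m hm => by
      by_cases h : m ≤ l
      · rw [df_congr B c1 h]; exact b3 m hm h
      · rw [df_const c2 m (by omega), df_congr B c1 le_rfl]
        exact (b3 l b1 le_rfl).trans (by omega)
    obtain ⟨E, d1, d2⟩ := hn (l, q, fun i => if i < l then D' i else B i)
      ⟨⟨Agr.refl _ _, fun m hm => c3 m (b1.trans hm)⟩, l, c2⟩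
      ⟨b1, le_rfl, b2.trans (c1.mono b1), c3⟩
    refine Part.mem_unique (mem_app.2 ⟨l, ?_⟩) (d2 x)
    rw [← b4, pre_congr (x := nb E) (y := nb D') fun i hi =>
      congrArg Bool.toNat ((c1.trans d1.1) i hi)]
  obtain ⟨A, a2, a3⟩ := hB (4 * q)
  obtain ⟨N0, a4⟩ := eventually_atTop.1 a3
  obtain ⟨N, b1, b2, b3⟩ : ∃ N, k ≤ N ∧ N0 ≤ N ∧ ∀ m, N ≤ m → 4 * q * df D B m ≤ m :=
    ⟨k + N0 + M + 4 * q * df D B M, by omega, by omega, fun m hm => by
      rw [df_const h2 m (by omega)]; omega⟩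
  obtain ⟨E, c1, c2⟩ := hn (N, 4 * q, D) ⟨⟨Agr.refl _ _, b3⟩, M, h2⟩
    ⟨b1, by simp only; omega, Agr.refl _ _, h1⟩
  have hA := CI.self (nb A)
  obtain ⟨r, r1, r2⟩ := CI.exists_choice (O := orc (nb A)) (p := fun x (τ : List Bool) =>
    τ.take N == pre D N && decide (N ≤ τ.length) && (U e (τ.map Bool.toNat) x).isSome &&
      (List.range (τ.length + 1)).all fun m => decide (m < N) || decide (2 * q *
        ((List.range m).countP fun i => (τ.getD i false).toNat != nb A i) ≤ m))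
    (by fun_prop) fun x => by
      obtain ⟨l, d1, d2⟩ := ((mem_app'.1 (c2 x)).and (eventually_ge_atTop N)).exists
      refine ⟨pre E l, ?_⟩
      simp only [Bool.and_eq_true, beq_iff_eq, decide_eq_true_eq, List.all_eq_true, length_pre,
        List.mem_range, Bool.or_eq_true]
      refine ⟨⟨⟨(take_pre E d2).trans (pre_congr c1.1), d2⟩, by
        rw [show (pre E l).map Bool.toNat = pre (nb E) l by simp [pre, nb], d1]; rfl⟩, fun m hm => ?_⟩
      refine (lt_or_ge m N).imp_right fun h => ?_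
      rw [List.countP_congr (q := fun i => E i != A i) fun i hi => by
        rw [getD_pre E (by have := List.mem_range.1 hi; omega)]
        simp only [nb]; cases E i <;> cases A i <;> simp]
      have e1 := c1.2 m h
      have e2 := a4 m (by omega)
      have e3 := Nat.mul_le_mul_left (4 * q) (df_tri E B A m)
      rw [df_comm] at e2
      change 2 * q * df E A m ≤ m
      dsimp only at e1
      nlinarith
  refine a2 ((show CI _ fun x => (U e ((r x).map Bool.toNat) x).getD 0 by fun_prop).of_eq fun x => ?_)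
  have d1 := r2 x
  simp only [Bool.and_eq_true, beq_iff_eq, decide_eq_true_eq, List.all_eq_true,
    List.mem_range, Bool.or_eq_true, Option.isSome_iff_exists] at d1
  obtain ⟨⟨⟨d1, d2⟩, v, d3⟩, d4⟩ := d1
  generalize r x = τ at d1 d2 d3 d4 ⊢
  have d5 : Agr N D fun i => τ.getD i false := by
    rw [← pre_getD τ false, take_pre _ d2] at d1
    exact pre_eq_iff.1 d1
  rw [d3]
  refine a1 (fun i => τ.getD i false) τ.length x v (by omega) (d5.mono b1) (fun m e1 e2 => ?_) ?_
  · by_cases h : m < N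
    · rw [df_congr B d5 h.le]; exact h1 m e1
    · have e3 := (d4 m (by omega)).resolve_left h
      rw [List.countP_congr (q := fun i => τ.getD i false != A i) fun i hi => by
        simp only [nb]; cases τ.getD i false <;> cases A i <;> simp] at e3
      have e4 := a4 m (by omega)
      have e5 := Nat.mul_le_mul_left (4 * q) (df_tri (fun i => τ.getD i false) A B m)
      change 2 * q * df (fun i => τ.getD i false) A m ≤ m at e3
      nlinarith
  · rw [← d3]
    congr 1
    conv_rhs => rw [← pre_getD τ false]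
    simp [pre, nb]

theorem closed {B : ℕ → Bool} {Z : ℕ → ℕ}
    (hB : ∀ q, ∃ A, ¬ CI (orc (nb A)) Z ∧ ∀ᶠ m in atTop, q * df A B m ≤ m) :
    ∃ D, ¬ CI (orc (nb D)) Z ∧ ∀ q, ∀ᶠ m in atTop, q * df D B m ≤ m := by
  obtain ⟨s, -, hI, h1, h2⟩ := chain (P := ℕ × ℕ × (ℕ → Bool)) (ι := ℕ ⊕ ℕ)
    (fun p' p => (p.1 ≤ p'.1 ∧ p.2.1 ≤ p'.2.1 ∧ Mem B p p'.2.2) ∨ p' = p) (fun p => Or.inr rfl)
    (by
      rintro p q r (h | rfl) (h' | rfl)
      · exact Or.inl ⟨h'.1.trans h.1, h'.2.1.trans h.2.1, h.2.2.up h'.1 h'.2.1 h'.2.2⟩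
      exacts [Or.inl h, Or.inl h', Or.inr rfl])
    (fun p => Mem B p p.2.2 ∧ ∃ N, ∀ i, N ≤ i → p.2.2 i = B i)
    (fun i p => Sum.elim (fun e => ∀ D, Mem B p D → ¬ ∀ x, Z x ∈ app e (nb D) x)
      (fun n => n ≤ p.1 ∧ n ≤ p.2.1) i)
    (by
      rintro (e | n) p hp
      · exact (step hB e p hp).imp fun _ h => ⟨h.1, Or.inl h.2.1, h.2.2⟩
      · obtain ⟨k, q, D⟩ := p
        obtain ⟨h1, M, h2⟩ := hp
        refine ⟨(k + n + M + (q + n) * df D B M, q + n, D), ⟨⟨Agr.refl _ _, fun m hm => ?_⟩, M, h2⟩,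
          Or.inl ⟨by simp only; omega, by simp, h1⟩, by simp only; omega, by simp⟩
        dsimp only at hm h2 ⊢
        rw [df_const h2 m (by omega)]; omega)
    (0, 0, B) ⟨⟨Agr.refl _ _, by simp⟩, 0, fun _ _ => rfl⟩
  replace h1 : ∀ n m, n ≤ m → (s n).1 ≤ (s m).1 ∧ Mem B (s n) (s m).2.2 := fun n m h =>
    (h1 n m h).elim (fun h => ⟨h.1, h.2.2⟩) fun h => h ▸ ⟨le_rfl, (hI m).1⟩
  choose N hN using fun n => h2 (Sum.inr n)
  have h3 : ∀ n, Agr (s n).1 (s n).2.2 fun i => (s (N (i + 1))).2.2 i := fun n i hi =>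
    ((h1 _ _ (le_max_right n (N (i + 1)))).2.1 i (hN (i + 1)).1).symm.trans
      ((h1 _ _ (le_max_left n (N (i + 1)))).2.1 i hi)
  have h4 : ∀ n, Mem B (s n) fun i => (s (N (i + 1))).2.2 i := fun n => ⟨h3 n, fun m hm => by
    rw [df_congr B (h3 (max n (N m))) ((hN m).1.trans (h1 _ _ (le_max_right _ _)).1)]
    exact (h1 _ _ (le_max_left _ _)).2.2 m hm⟩
  refine ⟨fun i => (s (N (i + 1))).2.2 i, fun h => ?_, fun q => ?_⟩
  · obtain ⟨e, he⟩ := exists_app_tot h
    obtain ⟨n, hn⟩ := h2 (Sum.inl e)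
    exact hn _ (h4 n) he
  · exact (eventually_ge_atTop (s (N q)).1).mono fun m hm =>
      (Nat.mul_le_mul_right _ (hN q).2).trans ((h4 (N q)).2 m hm)

theorem proper {Z D : ℕ → Bool} (h : ∀ᶠ m in atTop, 8 * df D (fun i => Z (Nat.log 2 i)) m ≤ m) :
    CI (orc (nb D)) (nb Z) := by
  obtain ⟨N, hN⟩ := eventually_atTop.1 h
  have hD := CI.self (nb D)
  refine (show CI (orc (nb D)) fun n => if n < N then (pre (nb Z) N).getD n 0 else
    (decide (2 ^ n < 2 * (List.range (2 ^ n)).countP fun j => nb D (2 ^ n + j) == 1)).toNat by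
      fun_prop).of_eq fun n => ?_
  split_ifs with h1
  · exact getD_pre _ h1 _
  have h2 := hN (2 ^ n + 2 ^ n) (by have := n.lt_two_pow_self; omega)
  rw [df, List.range_add, List.countP_append, List.countP_map,
    List.countP_congr (l := List.range (2 ^ n)) (p := _ ∘ _) (q := fun j => D (2 ^ n + j) != Z n)
      fun j hj => by
        have := List.mem_range.1 hj
        simp only [Function.comp]
        rw [Nat.log_eq_of_pow_le_of_lt_pow (m := n) (by omega) (by omega)]] at h2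
  have h3 := List.length_eq_countP_add_countP (fun j => D (2 ^ n + j)) (l := List.range (2 ^ n))
  have h4 : ((List.range (2 ^ n)).countP fun j => nb D (2 ^ n + j) == 1) =
      (List.range (2 ^ n)).countP fun j => D (2 ^ n + j) :=
    List.countP_congr fun j _ => by simp only [nb]; cases D (2 ^ n + j) <;> simp
  have h5 : 0 < 2 ^ n := by positivity
  rw [h4]
  simp only [nb]
  cases hz : Z n <;> simp only [hz, Bool.bne_false, Bool.bne_true, List.length_range,
    Bool.not_eq_true, Bool.decide_eq_false] at h2 h3 ⊢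
  · rw [decide_eq_false (by omega)]
  · rw [decide_eq_true (by omega)]

open Classical in
noncomputable def tb (A : Set ℕ) : ℕ → Bool := fun i => decide (i ∈ A)

theorem chi_eq (A : Set ℕ) : chi A = fun n => Part.some (nb (tb A) n) := by
  funext n
  by_cases h : n ∈ A <;> simp [chi, nb, tb, h]

theorem dens_eq (A B : Set ℕ) (m : ℕ) : dens (symmDiff A B) m = df (tb A) (tb B) m / m := by
  unfold dens
  congr 2
  induction m with
  | zero => simp [df]
  | succ m ih =>
    rw [df_succ, Finset.range_add_one, Finset.filter_insert, ← ih]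
    by_cases h1 : m ∈ A <;> by_cases h2 : m ∈ B <;> simp [tb, Set.mem_symmDiff, h1, h2]

theorem ev_of_lt {A B : Set ℕ} {q : ℕ}
    (h : ∀ᶠ m in atTop, dens (symmDiff A B) m < 1 / (q + 1 : ℝ)) :
    ∀ᶠ m in atTop, q * df (tb A) (tb B) m ≤ m := by
  filter_upwards [h, eventually_gt_atTop 0] with m h1 h2
  have h3 : (0 : ℝ) < m := by exact_mod_cast h2
  rw [dens_eq, div_lt_div_iff₀ h3 (by positivity)] at h1
  have : (q : ℝ) * df (tb A) (tb B) m ≤ m := by
    have : (0 : ℝ) ≤ df (tb A) (tb B) m := Nat.cast_nonneg _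
    nlinarith
  exact_mod_cast this

theorem main : ∃ U : Set (Set ℕ),
    (∀ A ∈ U, ∀ B, TuringEquivalent (chi B) (chi A) → B ∈ U) ∧ U.Nonempty ∧
    (∃ B, ∀ A ∈ U, ¬ Coarse A B) ∧
    ∀ B, (∀ ε > (0 : ℝ), ∃ A ∈ U, delta A B < ε) → ∃ A ∈ U, Coarse A B := by
  classical
  let Z : ℕ → Bool := fun e => decide (∃ s, Kst e s = true)
  have tt : ∀ D : ℕ → Bool, tb {i | D i = true} = D := fun D => funext fun i => by simp [tb]
  refine ⟨{A | ¬ CI (orc (nb (tb A))) (nb Z)}, fun A hA B h h' => hA (h'.trans (CI.of_ri ?_)),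
    ⟨∅, fun h => K_not_computable (fun e => nb Z e == 1) ?_ fun e => ?_⟩,
    ⟨{i | Z (Nat.log 2 i) = true}, fun A hA h => hA (proper ?_)⟩, fun B h => ?_⟩
  · have := h.1
    rwa [chi_eq, chi_eq] at this
  · have : CI ∅ (nb Z) := h.trans ((CI.const 0).of_eq fun n => by simp [nb, tb])
    fun_prop
  · simp only [nb, Z]; by_cases h : ∃ s, Kst e s = true <;> simp [h]
  · simpa only [tt] using ev_of_lt (h.eventually_lt_const (by positivity))
  · obtain ⟨D, h1, h2⟩ := closed (B := tb B) (Z := nb Z) fun q => by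
      obtain ⟨A, a1, a2⟩ := h (1 / (q + 1 : ℝ)) (by positivity)
      refine ⟨_, a1, ev_of_lt (eventually_lt_of_limsup_lt a2 ⟨1, ?_⟩)⟩
      refine eventually_map.2 (Eventually.of_forall fun m => div_le_one_of_le₀ ?_ (by positivity))
      exact_mod_cast (Finset.card_filter_le _ _).trans (by simp)
    refine ⟨{i | D i = true}, by simpa only [Set.mem_setOf_eq, tt] using h1, ?_⟩
    refine tendsto_order.2 ⟨fun a ha => Eventually.of_forall fun m => ha.trans_le (by
      rw [dens_eq]; positivity), fun a ha => ?_⟩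
    obtain ⟨q, hq⟩ := exists_nat_one_div_lt ha
    filter_upwards [h2 (q + 1), eventually_gt_atTop 0] with m h3 h4
    have h5 : (0 : ℝ) < m := by exact_mod_cast h4
    rw [dens_eq, tt]
    refine lt_of_le_of_lt ?_ hq
    rw [div_le_div_iff₀ h5 (by positivity)]
    have : ((q + 1 : ℕ) : ℝ) * df D (tb B) m ≤ m := by exact_mod_cast h3
    push_cast at this
    linarith

end Pool.Agent.H37.CoarseCl
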