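import Mathlib

set_option autoImplicit false

namespace Pool.Agent.H37.ERed

/-- the value `Ψ^B` of an operator `Ψ` (a set of axioms `(x, u)`, where `u` is the canonical index
of the finite set of positions of binary ones of `u`) on a set `B` -/
def Ap (Ψ : ℕ × ℕ → Prop) (B : Set ℕ) : Set ℕ :=
  {x | ∃ u, Ψ (x, u) ∧ ∀ y, u.testBit y = true → y ∈ B}

/-- the reducibility given by a class `r` of operators -/
def Le (r : Set (ℕ × ℕ → Prop)) (A B : Set ℕ) : Prop := ∃ Ψ ∈ r, A = Ap Ψ B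

/-- equivalence for the reducibility given by `r` -/
def Eqv (r : Set (ℕ × ℕ → Prop)) (A B : Set ℕ) : Prop := Le r A B ∧ Le r B A

/-- `r` is a class of enumeration operators giving a proper e-reducibility -/
def ProperERed (r : Set (ℕ × ℕ → Prop)) : Prop :=
  (∀ Ψ ∈ r, REPred Ψ) ∧ (∀ A, Le r A A) ∧ (∀ A B C, Le r A B → Le r B C → Le r A C) ∧
    ∀ A : Set ℕ, REPred (· ∈ A) → Eqv r A ∅

/-- partial many-one operators: each `x` has at most one axiom, whose finite set has at most one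
element -/
def pm : Set (ℕ × ℕ → Prop) :=
  {Ψ | REPred Ψ ∧ (∀ x u, Ψ (x, u) → u = 0 ∨ ∃ y, u = 2 ^ y) ∧ ∀ x u v, Ψ (x, u) → Ψ (x, v) → u = v}

/-- partial one-one operators: moreover each singleton is used for at most one `x` -/
def p1 : Set (ℕ × ℕ → Prop) :=
  {Ψ | Ψ ∈ pm ∧ ∀ x x' u, u ≠ 0 → Ψ (x, u) → Ψ (x', u) → x = x'}

end Pool.Agent.H37.ERed
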