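import Pool.Agent.H37.Gen
import Pool.Agent.H37.ERedDefs

set_option autoImplicit false

namespace Pool.Agent.H37.ERed

open Pool.Agent.H37

def Sat (u : ℕ) (B : Set ℕ) : Prop := ∀ y, u.testBit y = true → y ∈ B

@[simp] theorem sat_zero (B : Set ℕ) : Sat 0 B := by simp [Sat]
@[simp] theorem sat_pow (y : ℕ) (B : Set ℕ) : Sat (2 ^ y) B ↔ y ∈ B := by
  simp [Sat, Nat.testBit_two_pow]
theorem mem_Ap {Ψ : ℕ × ℕ → Prop} {B : Set ℕ} {x : ℕ} : x ∈ Ap Ψ B ↔ ∃ u, Ψ (x, u) ∧ Sat u B :=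
  Iff.rfl

def cmp (Ψ Φ : ℕ × ℕ → Prop) (p : ℕ × ℕ) : Prop :=
  (Ψ (p.1, 0) ∧ p.2 = 0) ∨ ∃ y, Ψ (p.1, 2 ^ y) ∧ Φ (y, p.2)

theorem cmp_pm {Ψ Φ : ℕ × ℕ → Prop} (h : Ψ ∈ pm) (h' : Φ ∈ pm) : cmp Ψ Φ ∈ pm := by
  refine ⟨re_or (re_and (REPred.comp' h.1 (by fun_prop))
    (re_of_bool (fun p => p.2 == 0) (by fun_prop) (by simp)))
    (re_exists (p := fun (p : ℕ × ℕ) y => Ψ (p.1, 2 ^ y) ∧ Φ (y, p.2))
      (re_and (REPred.comp' h.1 (by fun_prop)) (REPred.comp' h'.1 (by fun_prop)))), ?_, ?_⟩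
  · rintro x u (⟨-, h1⟩ | ⟨y, -, h1⟩)
    · exact Or.inl h1
    · exact h'.2.1 _ _ h1
  · rintro x u v (⟨h1, h2⟩ | ⟨y, h1, h2⟩) (⟨h3, h4⟩ | ⟨z, h3, h4⟩)
    · exact h2.trans h4.symm
    · exact absurd (h.2.2 _ _ _ h3 h1) (by positivity)
    · exact absurd (h.2.2 _ _ _ h1 h3) (by positivity)
    · obtain rfl := Nat.pow_right_injective le_rfl (h.2.2 _ _ _ h1 h3)
      exact h'.2.2 _ _ _ h2 h4

theorem cmp_p1 {Ψ Φ : ℕ × ℕ → Prop} (h : Ψ ∈ p1) (h' : Φ ∈ p1) : cmp Ψ Φ ∈ p1 := by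
  refine ⟨cmp_pm h.1 h'.1, ?_⟩
  rintro x x' u hu (⟨-, h2⟩ | ⟨y, h1, h2⟩) (⟨-, h4⟩ | ⟨z, h3, h4⟩)
  · exact absurd h2 hu
  · exact absurd h2 hu
  · exact absurd h4 hu
  · obtain rfl := h'.2 _ _ _ hu h2 h4
    exact h.2 _ _ _ (by positivity) h1 h3

theorem Ap_cmp {Ψ : ℕ × ℕ → Prop} (h : Ψ ∈ pm) (Φ : ℕ × ℕ → Prop) (C : Set ℕ) :
    Ap Ψ (Ap Φ C) = Ap (cmp Ψ Φ) C := by
  ext x
  simp only [mem_Ap, cmp]
  constructor
  · rintro ⟨u, h1, h2⟩
    rcases h.2.1 _ _ h1 with rfl | ⟨y, rfl⟩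
    · exact ⟨0, Or.inl ⟨h1, rfl⟩, by simp⟩
    · obtain ⟨v, h3, h4⟩ := (sat_pow _ _).1 h2
      exact ⟨v, Or.inr ⟨y, h1, h3⟩, h4⟩
  · rintro ⟨u, ⟨h1, -⟩ | ⟨y, h1, h2⟩, h3⟩
    · exact ⟨0, h1, by simp⟩
    · exact ⟨_, h1, (sat_pow _ _).2 ⟨u, h2, h3⟩⟩

theorem le_of {A B : Set ℕ} (h : Le p1 A B) : Le pm A B := h.imp fun _ h => ⟨h.1.1, h.2⟩

theorem tr1 (A B C : Set ℕ) : Le p1 A B → Le p1 B C → Le p1 A C := by
  rintro ⟨Ψ, h, rfl⟩ ⟨Φ, h', rfl⟩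
  exact ⟨_, cmp_p1 h h', Ap_cmp h.1 _ _⟩

theorem proper_p1 : ProperERed p1 := by
  refine ⟨fun _ h => h.1.1, fun A => ⟨fun p => p.2 = 2 ^ p.1, ⟨⟨re_of_bool
    (fun p => p.2 == 2 ^ p.1) (by fun_prop) (by simp), fun x u h => Or.inr ⟨x, h⟩,
    fun x u v h h' => h.trans h'.symm⟩, fun x x' u _ h h' =>
      Nat.pow_right_injective le_rfl (h.symm.trans h')⟩, by ext x; simp [mem_Ap]⟩, tr1,
    fun A hA => ⟨⟨fun p => p.1 ∈ A ∧ p.2 = 0, ⟨⟨re_and (REPred.comp' hA (by fun_prop))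
      (re_of_bool (fun p => p.2 == 0) (by fun_prop) (by simp)), fun x u h => Or.inl h.2,
      fun x u v h h' => h.2.trans h'.2.symm⟩, fun x x' u hu h => absurd h.2 hu⟩,
      by ext x; simp [mem_Ap]⟩, fun _ => False, ⟨⟨re_of_bool (fun _ => false) (by fun_prop)
      (by simp), by simp, by simp⟩, by simp⟩, by ext x; simp [mem_Ap]⟩⟩

theorem proper_pm : ProperERed pm := by
  refine ⟨fun _ h => h.1, fun A => le_of (proper_p1.2.1 A), ?_,
    fun A hA => (proper_p1.2.2.2 A hA).imp le_of le_of⟩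
  rintro _ _ C ⟨Ψ, h, rfl⟩ ⟨Φ, h', rfl⟩
  exact ⟨_, cmp_pm h h', Ap_cmp h _ _⟩

theorem distinct : ∃ A B, Le pm A B ∧ ¬ Le p1 A B := by
  obtain ⟨f, hf⟩ := generic (β := Bool) (ι := {p : ℕ × ℕ → Prop // REPred p})
    fun Ψ g => {x : ℕ | g x.unpair.1 = true} ≠ Ap Ψ.1 {x | g x = true}
  refine ⟨{x : ℕ | f x.unpair.1 = true}, {x | f x = true}, ⟨fun p => p.2 = 2 ^ p.1.unpair.1,
    ⟨re_of_bool (fun p => p.2 == 2 ^ p.1.unpair.1) (by fun_prop) (by simp),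
      fun x u h => Or.inr ⟨_, h⟩, fun x u v h h' => h.trans h'.symm⟩, by ext x; simp [mem_Ap]⟩,
    fun ⟨Ψ, h, e⟩ => ?_⟩
  obtain ⟨k, hk | hk⟩ := hf ⟨Ψ, h.1.1⟩
  · exact hk f (Agr.refl _ _) e
  have key : ∀ (b : Bool) l, ∃ g : ℕ → Bool, g k = b ∧ (∀ y < l, k < y → g y = false) ∧
      ∀ j, b = true ↔ ∃ u, Ψ (Nat.pair k j, u) ∧ Sat u {x | g x = true} := fun b l => by
    obtain ⟨g, a1, a2⟩ := hk (fun i => if i < k then f i else (decide (i = k) && b))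
      (fun i hi => if_pos hi) (k + l + 1)
    have a3 : g k = b := by simp [a1 k (by omega)]
    refine ⟨g, a3, fun y h1 h2 => by simp [a1 y (by omega), h2.ne', h2.le], fun j => ?_⟩
    rw [← mem_Ap, ← not_not.1 a2]; simp [a3]
  obtain ⟨g0, -, -, b1⟩ := key false 0
  obtain ⟨g1, -, -, b2⟩ := key true 0
  have : ∀ j, ∃ y, Ψ (Nat.pair k j, 2 ^ y) := fun j => by
    obtain ⟨u, c1, -⟩ := (b2 j).1 rfl
    rcases h.1.2.1 _ _ c1 with rfl | ⟨y, rfl⟩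
    · exact absurd ((b1 j).2 ⟨0, c1, by simp⟩) (by simp)
    · exact ⟨y, c1⟩
  choose y hy using this
  have hi : Function.Injective y := fun i j e' =>
    (Nat.pair_eq_pair.1 (h.2 _ _ _ (by positivity) (hy i) (e' ▸ hy j))).2
  obtain ⟨_, ⟨j, rfl⟩, hj⟩ := (Set.infinite_range_of_injective hi).exists_gt k
  obtain ⟨g, -, c1, c2⟩ := key true (y j + 1)
  obtain ⟨u, c3, c4⟩ := (c2 j).1 rfl
  rw [h.1.2.2 _ _ _ c3 (hy j), sat_pow] at c4
  simp [c1 (y j) (by omega) hj] at c4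

def dc (z : ℕ) : ℕ × ℕ × List ℕ := (Encodable.decode z).getD (0, 0, [])
def ec (e x : ℕ) (D : List ℕ) : ℕ := Encodable.encode (e, x, D)
theorem dc_ec (e x : ℕ) (D : List ℕ) : dc (ec e x D) = (e, x, D) := by
  rw [dc, ec, Encodable.encodek]; rfl

def Ks (z : ℕ) : Prop := Kf (dc z).2.1 = 1 ∨
  ∃ u, u ∈ (dc z).2.2 ∧ ∃ s, (ev (dc z).1 (Encodable.encode (z, u)) s).isSome = true

theorem re_Kf : REPred fun e => Kf e = 1 :=
  re_of_nat Kst (by fun_prop) fun e => by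
    simp only [Kf, ite_eq_left_iff, zero_ne_one, imp_false, not_not, Part.dom_iff_mem, ev_iff, Kst,
      Option.isSome_iff_exists]
    exact exists_comm

theorem m_compl {p : ℕ → Prop} (hp : REPred p) : ∃ g : ℕ → ℕ, CI ∅ g ∧ ∀ a, p a ↔ Kf (g a) = 1 := by
  have h : Partrec fun m : ℕ => (Part.assert (p m.unpair.1) fun _ => Part.some ()).map fun _ => 0 :=
    Partrec.map (hp.comp (CI.computable (by fun_prop))) (Computable.const 0).to₂
  obtain ⟨c, hc⟩ := Nat.Partrec.Code.exists_code.1 (Partrec.nat_iff.1 h)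
  refine ⟨fun a => Encodable.encode (Nat.Partrec.Code.curry c a), by fun_prop, fun a => ?_⟩
  simp only [Kf, Denumerable.ofNat_encode, ite_eq_left_iff, zero_ne_one, imp_false, not_not]
  rw [Nat.Partrec.Code.eval_curry, hc]
  simp [Part.assert]

theorem re_Ks : REPred Ks := by
  have : CI ∅ dc := by unfold dc; fun_prop
  exact re_or (REPred.comp' re_Kf (by fun_prop)) ((re_of_exists (β := ℕ × ℕ)
    (fun z q => decide (q.1 ∈ (dc z).2.2) && (ev (dc z).1 (Encodable.encode (z, q.1)) q.2).isSome)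
    (by fun_prop) fun z => by simp))

theorem contig : ∃ C, ¬ Eqv pm C ∅ ∧ ∀ A B, Eqv pm A C → Eqv pm B C → Eqv p1 A B := by
  obtain ⟨g, hg, hgK⟩ := m_compl re_Ks
  have up : ∀ A, Le pm A {z | ¬ Ks z} → Le p1 A {z | ¬ Ks z} := by
    rintro _ ⟨Ψ, h, rfl⟩
    obtain ⟨e, he⟩ := re_index (p := fun _ : ℕ × ℕ => False)
      (re_of_bool (fun _ => false) (by fun_prop) (by simp))
    refine ⟨fun p => (Ψ (p.1, 0) ∧ p.2 = 0) ∨ ∃ y, Ψ (p.1, 2 ^ y) ∧ p.2 = 2 ^ ec e (g y) [p.1],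
      ⟨⟨re_or (re_and (REPred.comp' h.1 (by fun_prop))
        (re_of_bool (fun p => p.2 == 0) (by fun_prop) (by simp)))
      (re_exists (p := fun (p : ℕ × ℕ) y => Ψ (p.1, 2 ^ y) ∧ p.2 = 2 ^ ec e (g y) [p.1])
        (re_and (REPred.comp' h.1 (by fun_prop)) (re_of_bool
          (fun q => q.1.2 == 2 ^ ec e (g q.2) [q.1.1]) (by unfold ec; fun_prop) (by simp)))),
        ?_, ?_⟩, ?_⟩, ?_⟩
    · rintro x u (⟨-, h1⟩ | ⟨y, -, h1⟩)
      exacts [Or.inl h1, Or.inr ⟨_, h1⟩]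
    · rintro x u v (⟨h1, h2⟩ | ⟨y, h1, h2⟩) (⟨h3, h4⟩ | ⟨z, h3, h4⟩)
      · exact h2.trans h4.symm
      · exact absurd (h.2.2 _ _ _ h3 h1) (by positivity)
      · exact absurd (h.2.2 _ _ _ h1 h3) (by positivity)
      · obtain rfl := Nat.pow_right_injective le_rfl (h.2.2 _ _ _ h1 h3)
        exact h2.trans h4.symm
    · rintro x x' u hu (⟨-, h2⟩ | ⟨y, -, h2⟩) (⟨-, h4⟩ | ⟨z, -, h4⟩)
      · exact absurd h2 hu
      · exact absurd h2 hu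
      · exact absurd h4 hu
      · have := congrArg dc (Nat.pow_right_injective le_rfl (h2.symm.trans h4))
        simp only [dc_ec, Prod.mk.injEq, List.cons.injEq] at this
        exact this.2.2.1
    · have k : ∀ y x, Ks (ec e (g y) [x]) ↔ Ks y := fun y x => by
        rw [Ks, dc_ec, hgK y]; simp only [← he]; simp
      ext x
      simp only [mem_Ap]
      constructor
      · rintro ⟨u, h1, h2⟩
        rcases h.2.1 _ _ h1 with rfl | ⟨y, rfl⟩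
        · exact ⟨0, Or.inl ⟨h1, rfl⟩, by simp⟩
        · exact ⟨_, Or.inr ⟨y, h1, rfl⟩, by simpa [k] using h2⟩
      · rintro ⟨u, ⟨h1, -⟩ | ⟨y, h1, rfl⟩, h3⟩
        · exact ⟨0, h1, by simp⟩
        · exact ⟨_, h1, by simpa [k] using h3⟩
  have down : ∀ A, Le pm {z | ¬ Ks z} A → Le p1 {z | ¬ Ks z} A := by
    rintro A ⟨Ψ, h, hA⟩
    classical
    obtain ⟨e, he⟩ := re_index h.1
    have k1 : ∀ w D, Ks (ec e (g w) D) ↔ Ks w ∨ ∃ u ∈ D, Ψ (ec e (g w) D, u) := fun w D => by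
      rw [Ks, dc_ec, hgK w]; simp only [he]
    have k2 : ∀ z u, Ψ (z, u) → (¬ Ks z ↔ Sat u A) := fun z u h1 => by
      change z ∈ {z | ¬ Ks z} ↔ _
      rw [hA, mem_Ap]
      exact ⟨fun ⟨v, h2, h3⟩ => h.2.2 _ _ _ h2 h1 ▸ h3, fun h2 => ⟨u, h1, h2⟩⟩
    have k3 : ∀ w D u, u ∉ D → Ψ (ec e (g w) D, u) → (¬ Ks w ↔ Sat u A) := fun w D u h1 h2 => by
      rw [← k2 _ _ h2, k1]
      exact not_congr ⟨Or.inl, fun h3 => h3.resolve_right fun ⟨v, h4, h5⟩ =>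
        h1 (h.2.2 _ _ _ h5 h2 ▸ h4)⟩
    have hΨ : ∀ b : Bool, REPred fun q : ℕ × ℕ => ∃ D, decide (q.2 ∈ D) = b ∧
        Ψ (ec e (g q.1) D, q.2) := fun b =>
      re_exists (p := fun (q : ℕ × ℕ) D => decide (q.2 ∈ D) = b ∧ Ψ (ec e (g q.1) D, q.2))
        (re_and (re_of_bool (fun r => decide (r.1.2 ∈ r.2) == b) (by fun_prop) (by simp))
          (REPred.comp' h.1 (by unfold ec; fun_prop)))
    obtain ⟨F, hF, H⟩ := re_choice (p := fun (q : ℕ × List ℕ) (o : Bool × ℕ) =>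
        (o.1 = false ∧ (Ks q.1 ∨ ((∃ D, decide (o.2 ∈ D) = true ∧ Ψ (ec e (g q.1) D, o.2)) ∧
          ∃ D, decide (o.2 ∈ D) = false ∧ Ψ (ec e (g q.1) D, o.2)))) ∨
        ((o.1 = true ∧ (o.2 = 0 ∨ o.2 ∉ q.2)) ∧
          ∃ D, decide (o.2 ∈ D) = false ∧ Ψ (ec e (g q.1) D, o.2)))
      (re_or (re_and (re_of_bool (fun r => !r.2.1) (by fun_prop) (by simp))
        (re_or (REPred.comp' re_Ks (by fun_prop)) (re_and
          (REPred.comp' (hΨ true) (g := fun r : (ℕ × List ℕ) × Bool × ℕ => (r.1.1, r.2.2))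
            (by fun_prop))
          (REPred.comp' (hΨ false) (g := fun r : (ℕ × List ℕ) × Bool × ℕ => (r.1.1, r.2.2))
            (by fun_prop)))))
        (re_and (re_of_bool (fun r => r.2.1 && (r.2.2 == 0 || !decide (r.2.2 ∈ r.1.2)))
          (by fun_prop) (by simp))
          (REPred.comp' (hΨ false) (g := fun r : (ℕ × List ℕ) × Bool × ℕ => (r.1.1, r.2.2))
            (by fun_prop))))
      fun ⟨w, D⟩ => by
        by_cases h1 : Ks w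
        · exact ⟨(false, 0), Or.inl ⟨rfl, Or.inl h1⟩⟩
        let D' := D.filter fun u => ¬ ∃ D, decide (u ∈ D) = true ∧ Ψ (ec e (g w) D, u)
        have h2 : ∀ u, Ψ (ec e (g w) D', u) → u ∉ D' := fun u h3 h4 => by
          have := (List.mem_filter.1 h4).2
          simp only [decide_eq_true_eq] at this
          exact this ⟨D', h4, h3⟩
        obtain ⟨u, h3, -⟩ : ec e (g w) D' ∈ Ap Ψ A := by
          rw [← hA]
          exact fun h4 => ((k1 _ _).1 h4).elim h1 fun ⟨u, h5, h6⟩ => h2 u h6 h5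
        by_cases h4 : u ∈ D
        · refine ⟨(false, u), Or.inl ⟨rfl, Or.inr ⟨?_, D', by simpa using h2 u h3, h3⟩⟩⟩
          by_contra h5
          exact h2 u h3 (List.mem_filter.2 ⟨h4, by simpa only [decide_eq_true_eq] using h5⟩)
        · exact ⟨(true, u), Or.inr ⟨⟨rfl, Or.inr h4⟩, D', by simpa using h2 u h3, h3⟩⟩
    let L : ℕ → List ℕ := fun n => n.rec [] fun w D => (F (w, D)).2 :: D
    have hL : CI ∅ L := CI.of_rec1 (h := fun w D => (F (w, D)).2 :: D) (by fun_prop) fun _ => rfl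
    have hm : ∀ w w', w < w' → (F (w, L w)).2 ∈ L w' := fun w w' h => by
      induction w', h using Nat.le_induction with
      | base => exact List.mem_cons_self
      | succ m _ ih => exact List.mem_cons_of_mem _ ih
    have hT : ∀ w u, F (w, L w) = (true, u) → (u = 0 ∨ u ∉ L w) ∧
        ∃ D, u ∉ D ∧ Ψ (ec e (g w) D, u) := fun w u h => by simpa [h] using H (w, L w)
    refine ⟨fun p => F (p.1, L p.1) = (true, p.2), ⟨⟨re_of_bool
      (fun p => F (p.1, L p.1) == (true, p.2)) (by fun_prop) (by simp), fun w u h1 => ?_,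
      fun w u v h1 h2 => (Prod.mk.inj (h1.symm.trans h2)).2⟩, fun w w' u hu h1 h2 => ?_⟩, ?_⟩
    · obtain ⟨-, D, -, h2⟩ := hT w u h1
      exact h.2.1 _ _ h2
    · rcases lt_trichotomy w w' with h3 | h3 | h3
      · exact absurd (by simpa [show F (w, L w) = _ from h1] using hm w w' h3)
          ((hT _ _ h2).1.resolve_left hu)
      · exact h3
      · exact absurd (by simpa [show F (w', L w') = _ from h2] using hm w' w h3)
          ((hT _ _ h1).1.resolve_left hu)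
    · ext w
      simp only [mem_Ap, Set.mem_setOf_eq]
      constructor
      · intro h1
        rcases H (w, L w) with ⟨-, h2 | ⟨⟨D, h2, h3⟩, D', h4, h5⟩⟩ | ⟨⟨h2, -⟩, D, h4, h5⟩
        · exact absurd h2 h1
        · exact absurd ((k1 _ _).2 (Or.inr ⟨_, by simpa using h2, h3⟩))
            ((k2 _ _ h3).2 ((k3 _ _ _ (by simpa using h4) h5).1 h1))
        · exact ⟨_, Prod.ext h2 rfl, (k3 _ _ _ (by simpa using h4) h5).1 h1⟩
      · rintro ⟨u, h1, h2⟩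
        obtain ⟨-, D, h3, h4⟩ := hT w u h1
        exact (k3 _ _ _ h3 h4).2 h2
  refine ⟨{z | ¬ Ks z}, fun ⟨⟨Ψ, h, e⟩, _⟩ => K_not_coRE ?_, fun A B h h' =>
    ⟨tr1 _ _ _ (up _ h.1) (down _ h'.2), tr1 _ _ _ (up _ h'.1) (down _ h.2)⟩⟩
  refine (REPred.comp' h.1 (g := fun x => (ec 0 x [], 0)) (by unfold ec; fun_prop)).of_eq fun x => ?_
  have h1 : ec 0 x [] ∈ {z | ¬ Ks z} ↔ ¬ ∃ s, Kst x s = true := by
    simp only [Set.mem_setOf_eq, Ks, dc_ec, Kf, ite_eq_left_iff, zero_ne_one, imp_false, not_not,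
      Part.dom_iff_mem, ev_iff, Kst, Option.isSome_iff_exists]
    simpa using forall_comm
  rw [← h1, e, mem_Ap]
  refine ⟨fun h2 => ⟨0, h2, by simp⟩, fun ⟨u, h2, h3⟩ => ?_⟩
  rcases h.2.1 _ _ h2 with rfl | ⟨y, rfl⟩
  · exact h2
  · simp at h3

end Pool.Agent.H37.ERed
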