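import Pool.Agent.H37.Gen

/-!
Every countable Turing ideal is the cospectrum of a graph-cototal enumeration degree.
-/

set_option autoImplicit false

namespace Pool.Agent.H37.Cosp

open Pool.Agent.H37

def Sim (k : ℕ) (f g : ℕ → ℕ) : Prop := ∀ a, a.unpair.1 < k → g a = f a

def Sat (f : ℕ → ℕ) (u : ℕ) : Prop := ∀ y : ℕ, u.testBit y = true → f y.unpair.1 ≠ y.unpair.2

def Cmp (k : ℕ) (f : ℕ → ℕ) (u : ℕ) : Prop :=
  ∀ y : ℕ, u.testBit y = true → y.unpair.1.unpair.1 < k → f y.unpair.1 ≠ y.unpair.2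

theorem lt_of_bit {u y : ℕ} (h : u.testBit y = true) : y < u :=
  Nat.lt_two_pow_self.trans_le (Nat.ge_two_pow_of_testBit h)

theorem build (z : ℕ → ℕ → ℕ) : ∃ f : ℕ → ℕ, (∀ i, ∃ N, ∀ n, N ≤ n → f (Nat.pair i n) = z i n) ∧
    ∀ W : ℕ → Prop, REPred W → (∃ x u v, W (Nat.pair (2 * x) u) ∧ W (Nat.pair (2 * x + 1) v) ∧
      Sat f u ∧ Sat f v) ∨ ∃ k, ∀ x u v, W (Nat.pair (2 * x) u) → W (Nat.pair (2 * x + 1) v) →
      Cmp k f u → ¬ Cmp k f v := by
  obtain ⟨s, -, hI, h1, h2⟩ := chain (P := ℕ × (ℕ → ℕ)) (ι := {W : ℕ → Prop // REPred W} ⊕ ℕ)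
    (fun q p => p.1 ≤ q.1 ∧ Sim p.1 p.2 q.2) (fun p => ⟨le_rfl, fun _ _ => rfl⟩)
    (fun p q r h h' => ⟨h'.1.trans h.1, fun a ha => (h.2 a (by omega)).trans (h'.2 a ha)⟩)
    (fun p => ∀ i, ∃ N, ∀ n, N ≤ n → p.2 (Nat.pair i n) = z i n)
    (fun i p => Sum.elim (fun W => (∃ x u v, W.1 (Nat.pair (2 * x) u) ∧
      W.1 (Nat.pair (2 * x + 1) v) ∧ ∀ g, Sim p.1 p.2 g → Sat g u ∧ Sat g v) ∨
      ∀ x u v, W.1 (Nat.pair (2 * x) u) → W.1 (Nat.pair (2 * x + 1) v) →
        Cmp p.1 p.2 u → ¬ Cmp p.1 p.2 v) (fun n => n ≤ p.1) i)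
    (by
      rintro (W | n) ⟨k, f⟩ hf
      · by_cases h : ∀ x u v, W.1 (Nat.pair (2 * x) u) → W.1 (Nat.pair (2 * x + 1) v) →
          Cmp k f u → ¬ Cmp k f v
        · exact ⟨(k, f), hf, ⟨le_rfl, fun _ _ => rfl⟩, Or.inr h⟩
        · push Not at h
          obtain ⟨x, u, v, a1, a2, a3, a4⟩ := h
          have key : ∀ w, w ≤ u + v → Cmp k f w → ∀ g, Sim (k + u + v)
              (fun a => if k ≤ a.unpair.1 ∧ a < u + v then u + v else f a) g → Sat g w := by
            intro w hw hc g hg y hy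
            have b1 := lt_of_bit hy
            have b2 := Nat.unpair_left_le y
            have b3 := Nat.unpair_right_le y
            have b4 := Nat.unpair_left_le y.unpair.1
            rw [hg _ (by omega)]
            dsimp only
            split_ifs with h
            · omega
            · exact hc y hy (by omega)
          refine ⟨(k + u + v, fun a => if k ≤ a.unpair.1 ∧ a < u + v then u + v else f a),
            fun i => ?_, ⟨by simp only; omega, fun a ha => if_neg (by simp only at ha; omega)⟩,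
            Or.inl ⟨x, u, v, a1, a2, fun g hg =>
              ⟨key u (by omega) a3 g hg, key v (by omega) a4 g hg⟩⟩⟩
          obtain ⟨N, hN⟩ := hf i
          refine ⟨N + u + v, fun n hn => ?_⟩
          have := Nat.right_le_pair i n
          exact (if_neg (by omega)).trans (hN n (by omega))
      · exact ⟨(max k n, f), hf, ⟨le_max_left _ _, fun _ _ => rfl⟩, le_max_right _ _⟩)
    (0, fun a => z a.unpair.1 a.unpair.2) (fun i => ⟨0, by simp⟩)
  choose N hN using fun n => h2 (Sum.inr n)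
  have h3 : ∀ n, Sim (s n).1 (s n).2 fun a => (s (N (a.unpair.1 + 1))).2 a := fun n a ha =>
    ((h1 _ _ (le_max_right n (N (a.unpair.1 + 1)))).2 a (hN (a.unpair.1 + 1))).symm.trans
      ((h1 _ _ (le_max_left n (N (a.unpair.1 + 1)))).2 a ha)
  refine ⟨fun a => (s (N (a.unpair.1 + 1))).2 a, fun i => by simpa using hI (N (i + 1)) i,
    fun W hW => ?_⟩
  obtain ⟨n, ⟨x, u, v, a1, a2, a3⟩ | hn⟩ := h2 (Sum.inl ⟨W, hW⟩)
  · exact Or.inl ⟨x, u, v, a1, a2, a3 _ (h3 n)⟩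
  · refine Or.inr ⟨(s n).1, fun x u v a1 a2 a3 a4 => hn x u v a1 a2 (fun y hy h => ?_)
      fun y hy h => ?_⟩
    · rw [← h3 n _ h]; exact a3 y hy h
    · rw [← h3 n _ h]; exact a4 y hy h

noncomputable abbrev ch (X : Set ℕ) : ℕ → ℕ := X.indicator fun _ => 1

theorem main (I : Set (Set ℕ)) (hc : I.Countable) (hne : I.Nonempty)
    (hd : ∀ X Y : Set ℕ, X ∈ I →
        TuringReducible (fun n => Part.some (Y.indicator (fun _ => (1 : ℕ)) n))
          (fun n => Part.some (X.indicator (fun _ => (1 : ℕ)) n)) → Y ∈ I)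
    (hj : ∀ X Y : Set ℕ, X ∈ I → Y ∈ I →
        {n : ℕ | (n % 2 = 0 ∧ n / 2 ∈ X) ∨ (n % 2 = 1 ∧ n / 2 ∈ Y)} ∈ I) :
      ∃ f : ℕ → ℕ, ∀ X : Set ℕ, X ∈ I ↔
        ∃ g : ℕ →. ℕ, Partrec g ∧
          ∀ x : ℕ, ((x % 2 = 0 ∧ x / 2 ∈ X) ∨ (x % 2 = 1 ∧ x / 2 ∉ X)) ↔
            ∃ u : ℕ, (g (Nat.pair x u)).Dom ∧
              ∀ y : ℕ, u.testBit y = true → f (Nat.unpair y).1 ≠ (Nat.unpair y).2 := by
  classical
  obtain ⟨Z, rfl⟩ := hc.exists_eq_range hne
  obtain ⟨f, h1, h2⟩ := build fun i => ch (Z i)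
  have hcol : ∀ k, ∃ Y ∈ Set.range Z, CI (orc (ch Y)) fun a => if a.unpair.1 < k then f a else 0 := by
    intro k
    induction k with
    | zero => exact ⟨_, ⟨0, rfl⟩, by simpa using CI.const 0⟩
    | succ k ih =>
      obtain ⟨Y, a1, a2⟩ := ih
      obtain ⟨N, hN⟩ := h1 k
      refine ⟨_, hj _ _ a1 ⟨k, rfl⟩, ?_⟩
      generalize hJ : {n : ℕ | (n % 2 = 0 ∧ n / 2 ∈ Y) ∨ (n % 2 = 1 ∧ n / 2 ∈ Z k)} = J
      have b0 := CI.self (ch J)
      have b1 : CI (orc (ch J)) (ch Y) := (show CI _ fun n => ch J (2 * n) by fun_prop).of_eq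
        fun n => by simp [← hJ, Set.indicator_apply]
      have b2 : CI (orc (ch J)) (ch (Z k)) :=
        (show CI _ fun n => ch J (2 * n + 1) by fun_prop).of_eq fun n => by
          simp [← hJ, Set.indicator_apply, show (2 * n + 1) / 2 = n by omega]
      have b3 := a2.trans b1
      generalize ch (Z k) = c at b2 hN
      refine (show CI _ fun a : ℕ => if a.unpair.1 = k then if a.unpair.2 < N then
        (pre (fun n => f (Nat.pair k n)) N).getD a.unpair.2 0 else c a.unpair.2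
        else (if a.unpair.1 < k then f a else 0) from
          CI.ite (by fun_prop) (by fun_prop) b3).of_eq fun a => ?_
      obtain ⟨i, n, rfl⟩ : ∃ i n, a = Nat.pair i n := ⟨_, _, (Nat.pair_unpair a).symm⟩
      simp only [Nat.unpair_pair]
      split_ifs with c1 c2 <;> first | omega | skip
      · rw [getD_pre _ c2, c1]
      · rw [c1, hN n (by omega)]
  refine ⟨f, fun X => ⟨?_, ?_⟩⟩
  · rintro ⟨i, rfl⟩
    obtain ⟨N, hN⟩ := h1 i
    let T : ℕ → Bool := fun x => decide ((x % 2 = 0 ∧ x / 2 ∈ Z i) ∨ (x % 2 = 1 ∧ x / 2 ∉ Z i))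
    obtain ⟨g, a1, a2⟩ := re_iff_dom.2 (re_of_bool (fun m : ℕ => if m.unpair.1 < 2 * N then
      (pre T (2 * N)).getD m.unpair.1 false && m.unpair.2 == 0 else
      m.unpair.2 == 2 ^ Nat.pair (Nat.pair i (m.unpair.1 / 2)) (m.unpair.1 % 2)) (by fun_prop)
      fun _ => Iff.rfl)
    refine ⟨g, a1, fun x => ?_⟩
    simp only [a2, Nat.unpair_pair]
    split_ifs with h
    · simp [getD_pre _ h, T, -List.getD_eq_getElem?_getD]
    · simp only [beq_iff_eq, exists_eq_left, Nat.testBit_two_pow, decide_eq_true_eq, forall_eq',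
        Nat.unpair_pair, hN _ (show N ≤ x / 2 by omega), Set.indicator_apply]
      split_ifs with h' <;> simp [h'] <;> omega
  · rintro ⟨g, a1, a2⟩
    rcases h2 _ a1.dom_re with ⟨x, u, v, b1, b2, b3, b4⟩ | ⟨k, hk⟩
    · have c1 := (a2 _).2 ⟨u, b1, b3⟩
      have c2 := (a2 _).2 ⟨v, b2, b4⟩
      simp [show (2 * x + 1) / 2 = x by omega] at c1 c2
      exact absurd c1 c2
    obtain ⟨Y, b1, b2⟩ := hcol k
    refine hd Y X b1 (CI.ri ?_)
    obtain ⟨D, d1, -, d2⟩ := re_stage a1.dom_re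
    obtain ⟨D', d3⟩ : ∃ D' : ℕ × ℕ → Bool, ∀ a s, D a s = D' (a, s) :=
      ⟨fun q => D q.1 q.2, fun _ _ => rfl⟩
    have d4 : CI (orc (ch Y)) D' := (d1.of_eq fun q => d3 _ _).of_empty
    obtain ⟨F, hF⟩ : ∃ F : ℕ → ℕ, ∀ a, F a = if a.unpair.1 < k then f a else 0 := ⟨_, fun _ => rfl⟩
    replace b2 : CI (orc (ch Y)) F := b2.of_eq fun a => (hF a).symm
    have e1 : ∀ u, ((List.range u).all fun y => u / 2 ^ y % 2 != 1 ||
        decide (k ≤ y.unpair.1.unpair.1) || F y.unpair.1 != y.unpair.2) = true ↔ Cmp k f u := by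
      intro u
      simp only [List.all_eq_true, List.mem_range, Bool.or_eq_true, bne_iff_ne, decide_eq_true_eq,
        Cmp, Nat.testBit_eq_decide_div_mod_eq, hF]
      constructor
      · intro h y c1 c2
        simpa [c1, c2, c2.not_ge] using h y (lt_of_bit (by simpa [Nat.testBit_eq_decide_div_mod_eq] using c1))
      · intro h y _
        by_cases c1 : u / 2 ^ y % 2 = 1
        · by_cases c2 : y.unpair.1.unpair.1 < k
          · simpa [c1, c2, c2.not_ge] using h y c1 c2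
          · simp [not_lt.1 c2]
        · simp [c1]
    have e2 : ∀ x, ∃ u, (g (Nat.pair (2 * x + if x ∈ X then 0 else 1) u)).Dom ∧ Cmp k f u :=
      fun x => ((a2 (2 * x + if x ∈ X then 0 else 1)).1 (by
        split_ifs with h <;> simp [h, show (2 * x + 1) / 2 = x by omega])).imp
        fun u h => ⟨h.1, fun y hy _ => h.2 y hy⟩
    obtain ⟨r, r1, r2⟩ := CI.exists_choice (O := orc (ch Y))
      (p := fun x (q : Bool × ℕ × ℕ) => D' (Nat.pair (2 * x + q.1.toNat) q.2.1, q.2.2) &&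
        (List.range q.2.1).all fun y => q.2.1 / 2 ^ y % 2 != 1 ||
          decide (k ≤ y.unpair.1.unpair.1) || F y.unpair.1 != y.unpair.2) (by fun_prop) fun x => by
      obtain ⟨u, c1, c2⟩ := e2 x
      obtain ⟨s, hs⟩ := (d2 _).1 c1
      refine ⟨(decide (x ∉ X), u, s), ?_⟩
      rw [Bool.and_eq_true, e1, ← d3, ← hs]
      by_cases h : x ∈ X <;> simp [h, c2]
    refine (show CI _ fun x => 1 - (r x).1.toNat by fun_prop).of_eq fun x => ?_
    have c1 := r2 x
    rw [Bool.and_eq_true, e1, ← d3] at c1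
    have c2 := (d2 _).2 ⟨_, c1.1⟩
    obtain ⟨u, c3, c4⟩ := e2 x
    rw [Set.indicator_apply]
    split_ifs at c3 ⊢ with h <;> cases h' : (r x).1 <;> rw [h'] at c2
    · rfl
    · exact absurd c1.2 (hk x _ _ c3 c2 c4)
    · exact absurd c4 (hk x _ _ c2 c3 c1.2)
    · rfl

end Pool.Agent.H37.Cosp
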