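import Pool.Agent.H37.KiDefs

/-! Triviality of measures on Cantor space. -/

set_option autoImplicit false

namespace Pool.Agent.H37.Ct

open MeasureTheory

/-- optimal plain machine -/
def OptC (U : List Bool →. List Bool) : Prop :=
  Partrec U ∧ ∀ M : List Bool →. List Bool, Partrec M →
    ∃ c : ℕ, ∀ p z : List Bool, z ∈ M p → ∃ q : List Bool, q.length ≤ p.length + c ∧ z ∈ U q

/-- the average of the complexity for the machine `M` over the strings of length `n` -/
noncomputable def avg (M : List Bool →. List Bool) (μ : Measure (ℕ → Bool)) (n : ℕ) : ℝ :=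
  ∑ x : Fin n → Bool, μ.real {X | ∀ i : Fin n, X i = x i} * Ki.KP M (List.ofFn x)

/-- triviality of a measure, numbers being coded by `nm` -/
def Triv (M : List Bool →. List Bool) (nm : ℕ → List Bool) (μ : Measure (ℕ → Bool)) : Prop :=
  ∃ c : ℝ, ∀ n, avg M μ n ≤ Ki.KP M (nm n) + c

end Pool.Agent.H37.Ct
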