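import Pool.Agent.H37.Lr2
import Pool.Agent.H37.CtDefs

/-! Every C-trivial measure is K-trivial. -/

set_option autoImplicit false

namespace Pool.Agent.H37.Ct

open MeasureTheory Rnd Defc Hd Kc Ki Lr Finset Classical
open scoped ENNReal

theorem kcE {V : List Bool →. List Bool} (hV : Opt V) {R : ℕ × List Bool → Prop} (hR : REPred R)
    {g : List Bool → ℝ≥0∞} (h : ∀ k σ, R (k, σ) → 2⁻¹ ^ k ≤ g σ) (hs : 2 * ∑' σ, g σ ≤ 1) :
    ∃ c, ∀ k σ, R (k, σ) → cx V σ ≤ k + c := by
  obtain ⟨M, m1, m2, m3⟩ := kc hR fun S hS => by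
    have f2 : ∑ z ∈ S, (2⁻¹ : ℝ≥0∞) ^ z.1 ≤ 1 := by
      rw [sum_eq_tsum_indicator, ENNReal.tsum_prod', ENNReal.tsum_comm]
      exact (ENNReal.tsum_le_tsum fun σ => geoE {k | (k, σ) ∈ S} fun k hk => h k σ (hS _ hk)).trans
        (ENNReal.tsum_mul_left.le.trans hs)
    have := ENNReal.toReal_mono (by simp) f2
    rw [ENNReal.toReal_sum (by simp)] at this
    simpa using this
  obtain ⟨d, hd⟩ := hV.2.2 M m1 m2
  exact ⟨d + 1, fun k σ a => (m3 k σ a).elim fun p b => (LeC.le (hd p _ b.2)).trans (by omega)⟩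

theorem avg_eq (M : List Bool →. List Bool) (μ : Measure (ℕ → Bool)) [IsProbabilityMeasure μ]
    (n : ℕ) : Integrable (fun X => (cx M (pre X n) : ℝ)) μ ∧
      avg M μ n = ∫ X, (cx M (pre X n) : ℝ) ∂μ := by
  have m : ∀ x : Fin n → Bool, MeasurableSet {X : ℕ → Bool | ∀ i : Fin n, X i = x i} :=
    fun x => by measurability
  have e : (fun X => (cx M (pre X n) : ℝ)) = fun X => ∑ x : Fin n → Bool,
      {X : ℕ → Bool | ∀ i : Fin n, X i = x i}.indicator (fun _ => (KP M (List.ofFn x) : ℝ)) X := by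
    funext X
    rw [sum_eq_single (fun i : Fin n => X i) (fun x _ h => Set.indicator_of_notMem
      (fun a => h (funext fun i => (a i).symm)) _) (by simp), Set.indicator_of_mem (by simp),
      show List.ofFn (fun i : Fin n => X i) = pre X n from
        List.ext_getElem (by simp) fun i _ _ => by simp [pre]]
    rfl
  rw [e, integral_finsetSum _ fun x _ => (integrable_const _).indicator (m x)]
  exact ⟨integrable_finsetSum _ fun x _ => (integrable_const _).indicator (m x),
    sum_congr rfl fun x _ => by rw [integral_indicator_const _ (m x), smul_eq_mul]⟩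

variable {U : List Bool →. List Bool}

def Ex (U : List Bool →. List Bool) (σ : List Bool) (d i : ℕ) : Prop :=
  ∃ x, x.length = 2 ^ σ.length + i ∧ σ <+: x ∧ LeC U x (σ.length + d)

def Pop (U : List Bool →. List Bool) (σ : List Bool) (d : ℕ) : Prop :=
  2 ^ σ.length < 2 * ((range (2 ^ σ.length)).filter (Ex U σ d)).card

theorem re_Pop (hU : Partrec U) : REPred fun q : List Bool × ℕ => Pop U q.1 q.2 := by
  have a : REPred fun q : List Bool × ℕ × ℕ => Ex U q.1 q.2.1 q.2.2 := re_exists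
    (p := fun (q : List Bool × ℕ × ℕ) (x : List Bool) => x.length = 2 ^ q.1.length + q.2.2 ∧
      q.1 <+: x ∧ LeC U x (q.1.length + q.2.1))
    (re_and (re_of_bool (fun q => q.2.length == 2 ^ q.1.1.length + q.1.2.2) (by fun_prop) (by simp))
      (re_and (re_of_bool (fun q => q.1.1 == q.2.take q.1.1.length) (by fun_prop)
        (by simp [List.prefix_iff_eq_take])) (REPred.comp' (re_LeC hU)
          (g := fun q : (List Bool × ℕ × ℕ) × List Bool => (q.2, q.1.1.length + q.1.2.1))
          (by fun_prop))))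
  refine (re_wsum a (k := fun q : List Bool × ℕ => 2 ^ q.1.length)
    (l := fun q => List.range (2 ^ q.1.length)) (g := fun q => (q.1.1, q.1.2, q.2))
    (c0 := fun _ => 0) (c1 := fun _ => 2) (by fun_prop) (by fun_prop) (by fun_prop) (by fun_prop)
    (by fun_prop) (by simp)).of_eq fun q => ?_
  rw [Pop, card_filter, mul_sum, ← List.toFinset_range, List.sum_toFinset _ List.nodup_range]
  simp

theorem card_Pop {n d : ℕ} (F : Finset (List Bool)) (h : ∀ σ ∈ F, σ.length = n ∧ Pop U σ d) :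
    F.card ≤ 2 ^ (d + 2) := by
  have : ∀ z ∈ F.sigma fun σ => (range (2 ^ σ.length)).filter (Ex U σ d), Ex U z.1 d z.2 :=
    fun z hz => (mem_filter.1 (mem_sigma.1 hz).2).2
  choose! x h1 h2 h3 using this
  have a := card_LeC U (n + d) ((F.sigma fun σ => (range (2 ^ σ.length)).filter
    (Ex U σ d)).image x) (forall_mem_image.2 fun z hz => (h _ (mem_sigma.1 hz).1).1 ▸ h3 z hz)
  rw [card_image_of_injOn fun z hz y hy e => ?_, card_sigma] at a
  · have b := card_nsmul_le_sum F (fun σ => 2 * ((range (2 ^ σ.length)).filter (Ex U σ d)).card)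
      (2 ^ n) fun σ hσ => (h σ hσ).1 ▸ (h σ hσ).2.le
    rw [← mul_sum, smul_eq_mul] at b
    refine Nat.le_of_mul_le_mul_right (b.trans ((Nat.mul_le_mul_left 2 a).trans_eq ?_))
      n.two_pow_pos
    ring
  · have b := (h _ (mem_sigma.1 hz).1).1.trans (h _ (mem_sigma.1 hy).1).1.symm
    have c := h1 z hz
    rw [e, h1 y hy, b] at c
    exact Sigma.ext ((List.prefix_of_prefix_length_le (h2 z hz) (e ▸ h2 y hy) b.le).eq_of_length b)
      (heq_of_eq (by omega))

theorem low (tot : ∀ x, ∃ n, LeC U x n) (n : ℕ) (S : Finset (List Bool)) :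
    ∑ x ∈ S, (n - cx U x) ≤ 2 ^ (n + 1) := by
  calc _ = ∑ x ∈ S, ((range n).filter fun j => cx U x ≤ j).card := sum_congr rfl fun x _ => by
        rw [← Nat.card_Ico]; congr 1; ext; simp [and_comm]
    _ = ∑ j ∈ range n, (S.filter fun x => cx U x ≤ j).card := by
        simp only [card_filter]; exact sum_comm
    _ ≤ ∑ j ∈ range n, 2 ^ (j + 1) := sum_le_sum fun j _ => card_LeC U j _ fun x hx =>
        (tot x).choose_spec.ex.imp fun q a => ⟨a.1.le.trans (mem_filter.1 hx).2, a.2⟩
    _ ≤ _ := by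
        simp only [pow_succ, ← sum_mul]
        rw [Nat.geomSum_eq le_rfl]; simp

theorem main (hU : OptC U) {V : List Bool →. List Bool} (hV : Opt V) {nm : ℕ → List Bool}
    (h1 : CI ∅ nm) (h2 : Function.Injective nm) (μ : Measure (ℕ → Bool)) [IsProbabilityMeasure μ]
    (h : Triv U nm μ) : Triv V nm μ := by
  obtain ⟨c, hc⟩ := h
  have tot : ∀ x, ∃ n, LeC U x n := fun x =>
    (hU.2 _ Computable.id.partrec).elim fun c h => ⟨_, h x x (by simp)⟩
  obtain ⟨c1, e1⟩ : ∃ c1, ∀ n, ∀ i < 2 ^ n, cx U (nm (2 ^ n + i)) ≤ n + c1 := by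
    obtain ⟨M, m1, m2⟩ := plain_machine (R := fun q => q.2 ∈ (List.range (2 ^ q.1)).map fun i =>
      nm (2 ^ q.1 + i)) (re_of_bool (fun q => ((List.range (2 ^ q.1)).map fun i =>
        nm (2 ^ q.1 + i)).contains q.2) (by fun_prop) (by simp)) fun n S hS =>
      (card_le_card fun x hx => List.mem_toFinset.2 (by exact hS x hx)).trans
        ((List.toFinset_card_le ((List.range (2 ^ n)).map fun i => nm (2 ^ n + i))).trans (by simp))
    obtain ⟨d, hd⟩ := hU.2 M m1
    exact ⟨d, fun n i hi => (m2 n (nm (2 ^ n + i)) (List.mem_map.2 ⟨i, List.mem_range.2 hi,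
      rfl⟩)).elim fun p a => (LeC.le (hd p _ a.2)).trans (by omega)⟩
  let dd : List Bool → ℕ := fun σ => sInf {d | Pop U σ d}
  obtain ⟨c2, e2⟩ := kcE hV (R := fun q => ∃ z : ℕ × ℕ, q.1 = z.1 + 2 * z.2 + 4 ∧
    LeC V (nm q.2.length) z.1 ∧ Pop U q.2 z.2) (re_exists (re_and (re_of_bool
      (fun q => q.1.1 == q.2.1 + 2 * q.2.2 + 4) (by fun_prop) (by simp)) (re_and (REPred.comp'
        (re_LeC hV.1) (g := fun q : (ℕ × List Bool) × ℕ × ℕ => (nm q.1.2.length, q.2.1))
        (by fun_prop)) (REPred.comp' (re_Pop hU.1)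
          (g := fun q : (ℕ × List Bool) × ℕ × ℕ => (q.1.2, q.2.2)) (by fun_prop)))))
    (g := fun σ => if Pop U σ (dd σ) then 2⁻¹ ^ (cx V (nm σ.length) + (2 * dd σ + 4)) else 0)
    (fun k σ ⟨z, a1, a2, a3⟩ => by
      have : dd σ ≤ z.2 := Nat.sInf_le a3
      have := a2.le
      rw [if_pos (show Pop U σ (dd σ) from Nat.sInf_mem (s := {d | Pop U σ d}) ⟨_, a3⟩)]
      exact pow_le_pow_right_of_le_one' (by simp) (by simp only at *; omega)) (by
      have : ∑' y : ℕ × ℕ, (2⁻¹ : ℝ≥0∞) ^ cx V (nm y.1) * 2⁻¹ ^ (y.2 + (1 + 1)) ≤ 2⁻¹ := by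
        simp only [ENNReal.tsum_prod', ENNReal.tsum_mul_left, geo2, ENNReal.tsum_mul_right, pow_one]
        exact mul_le_of_le_one_left' (omega_le hV h2)
      refine (mul_le_mul_right (le_trans ?_ this) 2).trans_eq
        (ENNReal.mul_inv_cancel (by simp) (by simp))
      rw [ENNReal.tsum_eq_iSup_sum]
      refine iSup_le fun F => ?_
      rw [← sum_filter, sum_comp (fun y : ℕ × ℕ => (2⁻¹ : ℝ≥0∞) ^ (cx V (nm y.1) + (2 * y.2 + 4)))
        fun σ => (σ.length, dd σ)]
      refine (sum_le_sum fun y _ => ?_).trans (ENNReal.sum_le_tsum _)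
      rw [nsmul_eq_mul, pow_add, mul_left_comm, show 2 * y.2 + 4 = y.2 + 2 + (y.2 + (1 + 1)) by omega,
        pow_add _ (y.2 + 2), mul_left_comm _ (2⁻¹ ^ (y.2 + 2))]
      refine mul_le_mul_right ((mul_le_mul_right (mul_le_mul_left ?_ _) _).trans (hp ..).le) _
      exact_mod_cast card_Pop (U := U) (n := y.1) (d := y.2) ((F.filter fun a => Pop U a (dd a)).filter
        fun a => (a.length, dd a) = y) fun σ hσ => by
          obtain ⟨a, rfl⟩ := mem_filter.1 hσ
          exact ⟨rfl, (mem_filter.1 a).2⟩)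
  have key : ∀ X n, Pop U (pre X n) (dd (pre X n)) ∧ 2 * (2 ^ n * n) + 2 ^ n * dd (pre X n) ≤
      2 * ∑ i ∈ range (2 ^ n), cx U (pre X (2 ^ n + i)) + 2 ^ n * 4 := fun X n => by
    have a : ∀ d i, cx U (pre X (2 ^ n + i)) ≤ n + d → Ex U (pre X n) d i := fun d i a =>
      ⟨_, by simp, pre_pf X (n.lt_two_pow_self.le.trans (Nat.le_add_right _ i)),
        (tot _).choose_spec.ex.imp fun q b => ⟨by simpa [b.1] using a, b.2⟩⟩
    refine ⟨Nat.sInf_mem (s := {d | Pop U (pre X n) d})
      ⟨∑ i ∈ range (2 ^ n), cx U (pre X (2 ^ n + i)), ?_⟩, ?_⟩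
    · rw [Set.mem_setOf_eq, Pop, length_pre, filter_true_of_mem fun i hi => a _ i
        ((single_le_sum (f := fun i => cx U (pre X (2 ^ n + i))) (by simp) hi).trans
          (Nat.le_add_left _ _))]
      simp
    have b := low tot n ((range (2 ^ n)).image fun i => pre X (2 ^ n + i))
    rw [sum_image fun i _ j _ e => by simpa using congrArg List.length e] at b
    have b1 : ∀ d, dd (pre X n) = d → 2 ^ n * d ≤
        2 * ∑ i ∈ range (2 ^ n), if Ex U (pre X n) (d - 1) i then 0 else d := fun d hd => by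
      rcases d with _ | d
      · simp
      have := Nat.notMem_of_lt_sInf (hd.ge.trans_lt' d.lt_succ_self)
      rw [Set.mem_setOf_eq, Pop, length_pre, not_lt] at this
      have e := card_filter_add_card_filter_not (s := range (2 ^ n)) (Ex U (pre X n) d)
      rw [Finset.sum_ite, sum_const_zero, zero_add, sum_const, smul_eq_mul, ← mul_assoc,
        Nat.add_sub_cancel]
      rw [card_range] at e
      exact Nat.mul_le_mul_right _ (by omega)
    have b2 := sum_le_sum (s := range (2 ^ n)) (f := fun i => n + if Ex U (pre X n)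
      (dd (pre X n) - 1) i then 0 else dd (pre X n)) (g := fun i => cx U (pre X (2 ^ n + i)) +
        (n - cx U (pre X (2 ^ n + i)))) fun i _ => by
      split_ifs with h
      · omega
      · have := mt (a _ i) h
        omega
    have := b1 _ rfl
    rw [sum_add_distrib, sum_add_distrib, sum_const, card_range, smul_eq_mul] at b2
    rw [pow_succ] at b
    omega
  refine ⟨4 * (c + c1) + 12 + c2, fun n => ?_⟩
  have i0 := fun i => (avg_eq U μ (2 ^ n + i)).1
  have p : (0 : ℝ) < 2 ^ n := by positivity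
  have a := integral_mono (f := fun X => (2 : ℝ) ^ n * cx V (pre X n))
    (g := fun X => 4 * ∑ i ∈ range (2 ^ n), (cx U (pre X (2 ^ n + i)) : ℝ) +
      2 ^ n * (cx V (nm n) + 12 + c2 - 4 * n)) ((avg_eq V μ n).1.const_mul _)
    (((integrable_finsetSum _ fun i _ => i0 i).const_mul _).add (integrable_const _)) fun X => by
      obtain ⟨y, y1, y2⟩ := (total hV (nm n)).choose_spec.ex
      have a := e2 _ (pre X n) ⟨(cx V (nm n), dd (pre X n)), rfl, ⟨y, y1.le, by simpa⟩, (key X n).1⟩
      have b := (key X n).2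
      rify at a b
      beta_reduce
      nlinarith [mul_le_mul_of_nonneg_left a p.le]
  rw [integral_const_mul, integral_add ((integrable_finsetSum _ fun i _ => i0 i).const_mul _)
    (integrable_const _), integral_const_mul, integral_finsetSum _ fun i _ => i0 i,
    ← (avg_eq V μ n).2] at a
  have b := sum_le_card_nsmul (range (2 ^ n)) (fun i => ∫ X, (cx U (pre X (2 ^ n + i)) : ℝ) ∂μ)
    (n + c1 + c) fun i hi => (avg_eq U μ _).2 ▸ (hc _).trans (by
      have : (cx U (nm (2 ^ n + i)) : ℝ) ≤ n + c1 := by exact_mod_cast e1 n i (mem_range.1 hi)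
      exact add_le_add_left this c)
  simp only [integral_const, probReal_univ, one_smul, card_range, nsmul_eq_mul, Nat.cast_pow,
    Nat.cast_ofNat] at a b
  refine le_of_mul_le_mul_left ?_ p
  change _ ≤ _ * ((cx V (nm n) : ℝ) + _)
  linarith

end Pool.Agent.H37.Ct
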