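import Pool.Agent.H37.Spc1

namespace Pool.Agent.H37.Spc

open Filter Asymptotics Relation

theorem head_app {S : Type} (y : List S) {V V' : List S} (h : V.head? = V'.head?) :
    (y ++ V).head? = (y ++ V').head? := by
  cases y with
  | nil => simpa using h
  | cons a y => simp

def rp {S : Type} : ℕ → List S → List S
  | 0, _ => []
  | k + 1, u => u ++ rp k u

theorem rp_comm {S : Type} (k : ℕ) (u : List S) : rp k u ++ u = u ++ rp k u := by
  induction k with
  | zero => simp [rp]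
  | succ k ih => simp only [rp, List.append_assoc, ih]

theorem rp_length {S : Type} (k : ℕ) (u : List S) : (rp k u).length = k * u.length := by
  induction k with
  | zero => simp [rp]
  | succ k ih => simp only [rp, List.length_append, ih]; ring

theorem rp_head {S : Type} (k : ℕ) (u v : List S) (h : (u ++ v).head? = v.head?) :
    (rp k u ++ v).head? = v.head? := by
  induction k with
  | zero => simp [rp]
  | succ k ih => rw [rp, List.append_assoc, head_app u ih, h]

theorem rtg_mono {X : Type} {r p : X → X → Prop} {a b : X} (H : ReflTransGen r a b)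
    (h : ∀ x y, r x y → p x y) : ReflTransGen p a b := by
  induction H with
  | refl => exact .refl
  | tail _ hs ih => exact ih.tail (h _ _ hs)

namespace PDA

variable {M : PDA}

theorem exists_B (M : PDA) : ∃ B, 1 ≤ B ∧ ∀ c d, M.Step c d →
    d.2.2.length ≤ c.2.2.length + B ∧ c.2.2.length ≤ d.2.2.length + 1 := by
  have hf : (⋃ q, ⋃ a, ⋃ g, M.δ q a g).Finite :=
    Set.finite_iUnion fun q => Set.finite_iUnion fun a => Set.finite_iUnion fun g => M.finδ q a g
  obtain ⟨B, hB⟩ := (hf.image fun t => t.2.1.length).bddAbove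
  refine ⟨B + 1, by omega, ?_⟩
  rintro c d ⟨β, m, hδ, -, hs⟩
  have : β.length ≤ B := hB ⟨(d.1, β, m), by
    simp only [Set.mem_iUnion]; exact ⟨_, _, _, hδ⟩, rfl⟩
  rw [hs, List.length_append, List.length_tail]
  omega

def HS (M : PDA) (l : ℕ) (c d : M.Cfg) : Prop := M.Step c d ∧ l < c.2.2.length

def Seg (M : PDA) (q : M.Q) (α : List M.G) (u : List M.S) (a : Option M.S) (q' : M.Q)
    (α' : List M.G) : Prop :=
  ∀ v ρ, v.head? = a → ReflTransGen M.Step (q, u ++ v, α ++ ρ) (q', v, α' ++ ρ)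

theorem step_frame {c c1 : M.Cfg} {u1 i : List M.S} (hs : M.Step c c1) (h1 : c1.2.1 = u1 ++ i) :
    ∃ u, c.2.1 = u ++ i ∧ ∀ v (σ : List M.G), v.head? = i.head? → σ.head? = c.2.2.head? →
      ∃ β, c1.2.2 = β ++ c.2.2.tail ∧ M.Step (c.1, u ++ v, σ) (c1.1, u1 ++ v, β ++ σ.tail) := by
  obtain ⟨β, m, hδ, hi, hst⟩ := hs
  cases m with
  | false =>
    simp only [Bool.false_eq_true, if_false] at hi
    refine ⟨u1, by rw [← hi, h1], fun v σ hv hσ => ⟨β, hst, β, false, ?_, by simp, rfl⟩⟩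
    show _ ∈ M.δ c.1 (u1 ++ v).head? σ.head?
    rw [head_app u1 hv, ← h1, hi, hσ]; exact hδ
  | true =>
    simp only [if_true] at hi
    cases hc : c.2.1 with
    | nil =>
      rw [hc, List.tail_nil, h1] at hi
      obtain ⟨rfl, rfl⟩ := List.append_eq_nil_iff.1 hi
      refine ⟨[], rfl, fun v σ hv hσ => ?_⟩
      have hv' : v = [] := by simpa using hv
      subst hv'
      refine ⟨β, hst, β, true, ?_, by simp, rfl⟩
      show _ ∈ M.δ c.1 ([] ++ []).head? σ.head?
      rw [hσ]; rw [hc] at hδ; exact hδ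
    | cons x r =>
      rw [hc, List.tail_cons, h1] at hi
      refine ⟨x :: u1, by rw [← hi]; rfl, fun v σ _ hσ => ⟨β, hst, β, true, ?_, by simp, rfl⟩⟩
      show _ ∈ M.δ c.1 (some x) σ.head?
      rw [hσ]; rw [hc] at hδ; exact hδ

theorem seg_of_hrun {l : ℕ} {c d : M.Cfg} (H : ReflTransGen (M.HS l) c d) :
    ∃ u, c.2.1 = u ++ d.2.1 ∧ ∀ α ρ, c.2.2 = α ++ ρ → ρ.length = l →
      ∃ α', d.2.2 = α' ++ ρ ∧ M.Seg c.1 α u d.2.1.head? d.1 α' := by
  induction H using ReflTransGen.head_induction_on with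
  | refl => exact ⟨[], rfl, fun α ρ h _ => ⟨α, h, fun v ρ' _ => .refl⟩⟩
  | @head c c1 hs _ ih =>
    obtain ⟨u1, h1, ih⟩ := ih
    obtain ⟨u, hu, hf⟩ := step_frame hs.1 h1
    refine ⟨u, hu, fun α ρ hα hρ => ?_⟩
    have hl := hs.2
    cases α with
    | nil => rw [hα] at hl; simp at hl; omega
    | cons g α0 =>
      obtain ⟨β, hβ, -⟩ := hf d.2.1 c.2.2 rfl rfl
      obtain ⟨α', hα', hseg⟩ := ih (β ++ α0) ρ (by rw [hβ, hα]; simp) hρ
      refine ⟨α', hα', fun v ρ' hv => ?_⟩
      obtain ⟨β', hβ', hst⟩ := hf v (g :: α0 ++ ρ') hv (by rw [hα]; rfl)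
      have : β' = β := List.append_cancel_right (hβ'.symm.trans hβ)
      subst this
      refine .head hst ?_
      have := hseg v ρ' hv
      simpa using this

theorem in_frame {c d : M.Cfg} (H : ReflTransGen M.Step c d) :
    ∃ u, c.2.1 = u ++ d.2.1 ∧ ∀ v, v.head? = d.2.1.head? →
      ReflTransGen M.Step (c.1, u ++ v, c.2.2) (d.1, v, d.2.2) := by
  induction H using ReflTransGen.head_induction_on with
  | refl => exact ⟨[], rfl, fun v _ => .refl⟩
  | @head c c1 hs _ ih =>
    obtain ⟨u1, h1, ih⟩ := ih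
    obtain ⟨u, hu, hf⟩ := step_frame hs h1
    refine ⟨u, hu, fun v hv => ?_⟩
    obtain ⟨β, hβ, hst⟩ := hf v c.2.2 hv rfl
    rw [← hβ] at hst
    exact .head hst (ih v hv)

theorem up_dec {B l : ℕ} {R : M.Cfg → M.Cfg → Prop}
    (hB : ∀ c d, R c d → d.2.2.length ≤ c.2.2.length + B) {c d : M.Cfg}
    (H : ReflTransGen R c d) (h1 : c.2.2.length ≤ l) : l < d.2.2.length →
    ∃ e, ReflTransGen R c e ∧ ReflTransGen (fun a b => R a b ∧ l < a.2.2.length) e d ∧
      l < e.2.2.length ∧ e.2.2.length ≤ l + B := by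
  induction H with
  | refl => intro h; omega
  | @tail b d hb hs ih =>
    intro h
    by_cases hl : l < b.2.2.length
    · obtain ⟨e, e1, e2, e3⟩ := ih hl
      exact ⟨e, e1, e2.tail ⟨hs, hl⟩, e3⟩
    · have := hB _ _ hs
      exact ⟨d, hb.tail hs, .refl, h, by omega⟩

theorem down_dec {l : ℕ} {R : M.Cfg → M.Cfg → Prop}
    (hB : ∀ c d, R c d → c.2.2.length ≤ d.2.2.length + 1) {d z : M.Cfg}
    (H : ReflTransGen R d z) : l < d.2.2.length →
    ∃ s, ReflTransGen (fun a b => R a b ∧ l < a.2.2.length) d s ∧ ReflTransGen R s z ∧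
      (s.2.2.length = l ∨ (s = z ∧ l < s.2.2.length)) := by
  induction H using ReflTransGen.head_induction_on with
  | refl => intro h; exact ⟨z, .refl, .refl, Or.inr ⟨rfl, h⟩⟩
  | @head c c1 hs hr ih =>
    intro h
    by_cases hl : l < c1.2.2.length
    · obtain ⟨s, s1, s2, s3⟩ := ih hl
      exact ⟨s, .head ⟨hs, h⟩ s1, s2, s3⟩
    · have := hB _ _ hs
      exact ⟨c1, .single ⟨hs, h⟩, hr, Or.inl (by omega)⟩

theorem hs_mono {l l' : ℕ} (h : l ≤ l') {c d : M.Cfg} (H : ReflTransGen (M.HS l') c d) :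
    ReflTransGen (M.HS l) c d :=
  rtg_mono H fun _ _ h' => ⟨h'.1, lt_of_le_of_lt h h'.2⟩

theorem hs_step {l : ℕ} {c d : M.Cfg} (H : ReflTransGen (M.HS l) c d) :
    ReflTransGen M.Step c d := rtg_mono H fun _ _ h' => h'.1

/-- the data at level `l` -/
def Lev (M : PDA) (B : ℕ) (c d z : M.Cfg) (l : ℕ) (p : M.Cfg × M.Cfg) : Prop :=
  ReflTransGen M.Step c p.1 ∧ l < p.1.2.2.length ∧ p.1.2.2.length ≤ l + B ∧
    ReflTransGen (M.HS l) p.1 d ∧ ReflTransGen (M.HS l) d p.2 ∧ ReflTransGen M.Step p.2 z ∧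
    (p.2.2.2.length = l ∨ p.2 = z)

theorem levels {B : ℕ} (hB1 : 1 ≤ B) (hB : ∀ c d, M.Step c d →
    d.2.2.length ≤ c.2.2.length + B ∧ c.2.2.length ≤ d.2.2.length + 1) {c d z : M.Cfg}
    (h0 : c.2.2.length = 0) (h1 : ReflTransGen M.Step c d) (h2 : ReflTransGen M.Step d z) :
    ∀ N, N * B < d.2.2.length → ∃ p : ℕ → M.Cfg × M.Cfg,
      (∀ j ≤ N, M.Lev B c d z (j * B) (p j)) ∧ ∀ i j, i ≤ j → j ≤ N →
        ReflTransGen (M.HS (i * B)) (p i).1 (p j).1 ∧ ReflTransGen (M.HS (i * B)) (p j).2 (p i).2 := by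
  intro N
  induction N with
  | zero =>
    intro h
    obtain ⟨e, e1, e2, e3, e4⟩ := up_dec (l := 0) (fun a b hab => (hB a b hab).1) h1 (by omega)
      (by omega)
    obtain ⟨s, s1, s2, s3⟩ := down_dec (l := 0) (fun a b hab => (hB a b hab).2) h2 (by omega)
    refine ⟨fun _ => (e, s), fun j hj => ?_, fun i j _ _ => ⟨.refl, .refl⟩⟩
    have : j = 0 := by omega
    subst this
    rw [zero_mul]
    exact ⟨e1, e3, e4, e2, s1, s2, s3.imp id fun h => h.1⟩
  | succ N ih =>
    intro h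
    have hN : (N + 1) * B = N * B + B := by ring
    obtain ⟨p, hp, hq⟩ := ih (by omega)
    obtain ⟨a1, a2, a3, a4, a5, a6, a7⟩ := hp N le_rfl
    obtain ⟨e, e1, e2, e3, e4⟩ := up_dec (l := (N + 1) * B) (fun a b hab => (hB a b hab.1).1) a4
      (by omega) h
    obtain ⟨s, s1, s2, s3⟩ := down_dec (l := (N + 1) * B) (fun a b hab => (hB a b hab.1).2) a5 h
    refine ⟨fun j => if j ≤ N then p j else (e, s), fun j hj => ?_, fun i j hij hj => ?_⟩
    · by_cases hjN : j ≤ N
      · simp only [hjN, if_true]; exact hp j hjN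
      · have : j = N + 1 := by omega
        subst this
        simp only [hjN, if_false]
        refine ⟨a1.trans (hs_step e1), e3, e4, rtg_mono e2 fun _ _ h' => ⟨h'.1.1, h'.2⟩,
          rtg_mono s1 fun _ _ h' => ⟨h'.1.1, h'.2⟩, (hs_step s2).trans a6, ?_⟩
        rcases s3 with s3 | ⟨s3, s4⟩
        · exact Or.inl s3
        · rcases a7 with a7 | a7
          · rw [s3] at s4; omega
          · exact Or.inr (s3.trans a7)
    · by_cases hjN : j ≤ N
      · have hiN : i ≤ N := hij.trans hjN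
        simp only [hjN, hiN, if_true]; exact hq i j hij hjN
      · by_cases hiN : i ≤ N
        · simp only [hjN, hiN, if_true, if_false]
          have hm : i * B ≤ N * B := Nat.mul_le_mul_right _ hiN
          exact ⟨(hq i N hiN le_rfl).1.trans (hs_mono hm e1),
            (hs_mono hm s2).trans (hq i N hiN le_rfl).2⟩
        · simp only [hjN, hiN, if_false]; exact ⟨.refl, .refl⟩

theorem seg_up {q : M.Q} {τ β : List M.G} {u : List M.S} {a : Option M.S}
    (H : M.Seg q τ u a q (τ ++ β)) (hu : ∀ v : List M.S, v.head? = a → (u ++ v).head? = a)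
    (k : ℕ) : ∀ (v : List M.S) (ρ : List M.G), v.head? = a →
      ReflTransGen M.Step (q, rp k u ++ v, τ ++ ρ) (q, v, τ ++ (rp k β ++ ρ)) := by
  induction k with
  | zero => intro v ρ _; exact .refl
  | succ k ih =>
    intro v ρ hv
    have h1 := H (rp k u ++ v) ρ (by rw [rp_head k u v (by rw [hu v hv, hv]), hv])
    have h2 := ih v (β ++ ρ) hv
    rw [← List.append_assoc (rp k β), rp_comm] at h2
    rw [List.append_assoc] at h1
    rw [rp, rp, List.append_assoc]
    exact h1.trans h2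

theorem seg_down {q : M.Q} {β : List M.G} {u : List M.S} {a : Option M.S}
    (H : M.Seg q β u a q []) (hu : ∀ v : List M.S, v.head? = a → (u ++ v).head? = a)
    (k : ℕ) (v : List M.S) (ρ : List M.G) (hv : v.head? = a) :
      ReflTransGen M.Step (q, rp k u ++ v, rp k β ++ ρ) (q, v, ρ) := by
  induction k with
  | zero => exact .refl
  | succ k ih =>
    have h1 := H (rp k u ++ v) (rp k β ++ ρ) (by rw [rp_head k u v (by rw [hu v hv, hv]), hv])
    rw [rp, rp, List.append_assoc, List.append_assoc]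
    exact h1.trans ih

end PDA

end Pool.Agent.H37.Spc
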