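import Pool.Agent.H37.CylDefs
import Pool.Agent.H37.Spc2

namespace Pool.Agent.H37.Cyl

open Pool.Agent.H37.Spc (rp rp_length rp_comm)

abbrev Sg : Type := Option Bool

abbrev Tab (m : ℕ) : Type := Fin (m + 1) → Fin (m + 1) × List Sg

open Classical in
noncomputable def om (i : ℕ) : Bool := decide (IsSquare i)

theorem om_aper (N p : ℕ) (hp : 0 < p) : ¬ ∀ i, N ≤ i → om (i + p) = om i := by
  intro h
  have h1 := h ((N + p) * (N + p)) (by nlinarith)
  simp only [om, decide_eq_decide] at h1
  obtain ⟨r, hr⟩ := h1.2 ⟨_, rfl⟩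
  have h2 : N + p < r := by
    by_contra h3
    have : r * r ≤ (N + p) * (N + p) := Nat.mul_le_mul (by omega) (by omega)
    omega
  have : (N + p + 1) * (N + p + 1) ≤ r * r := Nat.mul_le_mul h2 h2
  nlinarith

noncomputable def dec : ℕ → Σ m, Tab m :=
  (exists_surjective_nat (Σ m, Tab m)).choose

theorem dec_surj : Function.Surjective dec := (exists_surjective_nat (Σ m, Tab m)).choose_spec

noncomputable def pre (l : ℕ) : List Sg := (List.range l).map fun i => some (om i)

noncomputable def nm (l : ℕ) : List Sg := pre l ++ [none]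

def Valid (m l : ℕ) (T : Tab m) : Prop :=
  dec l.unpair.1 = ⟨m, T⟩ ∧ ∀ q, (m + 1) * (T q).2.length ≤ l

theorem exists_valid (m : ℕ) (T : Tab m) (N : ℕ) : ∃ l, N ≤ l ∧ Valid m l T := by
  obtain ⟨e, he⟩ := dec_surj ⟨m, T⟩
  refine ⟨Nat.pair e (N + ∑ q, (m + 1) * (T q).2.length),
    le_trans (by omega) (Nat.right_le_pair _ _), by simpa using he, fun q => ?_⟩
  have := Finset.single_le_sum (f := fun q => (m + 1) * (T q).2.length)
    (fun _ _ => Nat.zero_le _) (Finset.mem_univ q)
  exact le_trans (by omega) (Nat.right_le_pair _ _)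

inductive Run (m : ℕ) : Fin (m + 1) → List Sg → Fin (m + 1) → List Sg → Prop
  | nil (q) : Run m q [] q []
  | cons {q l T w q' o} : Valid m l T → Run m (T q).1 w q' o →
      Run m q (nm l ++ w) q' ((T q).2 ++ o)

inductive L1 : List Sg → Prop
  | nil : L1 []
  | step {m w q' o} : Run m 0 w q' o → L1 o → L1 w

theorem none_not_pre (l : ℕ) : none ∉ pre l := by simp [pre]

theorem split_none {a a' w w' : List Sg} (ha : none ∉ a) (ha' : none ∉ a')
    (h : a ++ none :: w = a' ++ none :: w') : a = a' ∧ w = w' := by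
  induction a generalizing a' with
  | nil =>
    cases a' with
    | nil => simpa using h
    | cons x a' => simp at h; simp [← h.1] at ha'
  | cons x a ih =>
    cases a' with
    | nil => simp at h; simp [h.1] at ha
    | cons x' a' =>
      simp only [List.cons_append, List.cons.injEq] at h
      obtain ⟨h1, h2⟩ := ih (fun e => ha (by simp [e])) (fun e => ha' (by simp [e])) h.2
      exact ⟨by rw [h.1, h1], h2⟩

theorem nm_inj {l l' : ℕ} {w w' : List Sg} (h : nm l ++ w = nm l' ++ w') : l = l' ∧ w = w' := by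
  simp only [nm, List.append_assoc, List.singleton_append] at h
  obtain ⟨h1, h2⟩ := split_none (none_not_pre l) (none_not_pre l') h
  exact ⟨by simpa [pre] using congrArg List.length h1, h2⟩

theorem Run.inv {m q w q' o} (h : Run m q w q' o) : (w = [] ∧ q' = q ∧ o = []) ∨
    ∃ l T w' o', Valid m l T ∧ Run m (T q).1 w' q' o' ∧ w = nm l ++ w' ∧ o = (T q).2 ++ o' := by
  cases h with
  | nil => exact Or.inl ⟨rfl, rfl, rfl⟩
  | cons h1 h2 => exact Or.inr ⟨_, _, _, _, h1, h2, rfl, rfl⟩

theorem Run.m_eq {m m' q r w q' r' o o'} (h : Run m q w q' o) (h' : Run m' r w r' o')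
    (hw : w ≠ []) : m = m' := by
  obtain ⟨l, T, w1, o1, v, -, e, -⟩ := h.inv.resolve_left fun h => hw h.1
  obtain ⟨l', T', w2, o2, v', -, e', -⟩ := h'.inv.resolve_left fun h => hw h.1
  obtain ⟨rfl, -⟩ := nm_inj (e.symm.trans e')
  exact congrArg Sigma.fst (v.1.symm.trans v'.1)

theorem Run.det {m q w q' o} (h : Run m q w q' o) : ∀ {r' o'}, Run m q w r' o' →
    q' = r' ∧ o = o' := by
  induction h with
  | nil q =>
    intro r' o' h'
    rcases h'.inv with ⟨-, rfl, rfl⟩ | ⟨l, T, w1, o1, -, -, e, -⟩
    · exact ⟨rfl, rfl⟩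
    · simp [nm] at e
  | @cons q l T w q' o v _ ih =>
    intro r' o' h'
    rcases h'.inv with ⟨e, -⟩ | ⟨l', T', w1, o1, v', h2, e, rfl⟩
    · simp [nm] at e
    · obtain ⟨rfl, rfl⟩ := nm_inj e
      obtain rfl : T = T' := eq_of_heq (Sigma.mk.inj (v.1.symm.trans v'.1)).2
      obtain ⟨h3, h4⟩ := ih h2
      exact ⟨h3, by rw [h4]⟩

theorem Run.append {m q w q1 o w' q' o'} (h : Run m q w q1 o) (h' : Run m q1 w' q' o') :
    Run m q (w ++ w') q' (o ++ o') := by
  induction h with
  | nil => exact h'
  | cons v _ ih => rw [List.append_assoc, List.append_assoc]; exact Run.cons v (ih h')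

theorem Run.split {m q w q' o} (h : Run m q w q' o) : ∀ A C, w = A ++ none :: C →
    ∃ q1 o1 o2, Run m q (A ++ [none]) q1 o1 ∧ Run m q1 C q' o2 ∧ o = o1 ++ o2 := by
  induction h with
  | nil => intro A C e; simp at e
  | @cons q l T w q' o v h ih =>
    intro A C e
    by_cases hA : none ∈ A
    · obtain ⟨a, A', rfl, ha⟩ := List.eq_append_cons_of_mem hA
      simp only [nm, List.append_assoc, List.cons_append, List.nil_append] at e
      obtain ⟨rfl, e2⟩ := split_none (none_not_pre l) ha e
      obtain ⟨q1, o1, o2, h1, h2, rfl⟩ := ih A' C e2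
      refine ⟨q1, (T q).2 ++ o1, o2, ?_, h2, by simp⟩
      have := Run.cons v h1
      simpa [nm] using this
    · simp only [nm, List.append_assoc, List.cons_append, List.nil_append] at e
      obtain ⟨rfl, rfl⟩ := split_none (none_not_pre l) hA e
      refine ⟨_, (T q).2, o, ?_, h, rfl⟩
      have := Run.cons v (Run.nil (T q).1)
      simpa [nm] using this

theorem Run.total {m q w q' o} (h : Run m q w q' o) : ∀ r, ∃ r' o', Run m r w r' o' ∧
    (m + 1) * o'.length ≤ w.length - 1 := by
  induction h with
  | nil => intro r; exact ⟨r, [], Run.nil r, by simp⟩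
  | @cons q l T w q' o v _ ih =>
    intro r
    obtain ⟨r', o', h1, h2⟩ := ih (T r).1
    refine ⟨r', _, Run.cons v h1, ?_⟩
    have := v.2 r
    simp only [nm, pre, List.length_append, List.length_map, List.length_range, List.length_singleton,
      mul_add]
    omega

theorem L1_iff {m w q' o} (h : Run m 0 w q' o) : L1 w ↔ L1 o := by
  refine ⟨fun H => ?_, fun H => L1.step h H⟩
  by_cases hw : w = []
  · subst hw
    rw [(h.det (Run.nil 0)).2]; exact L1.nil
  · cases H with
    | nil => exact absurd rfl hw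
    | step h' H =>
      obtain rfl := h.m_eq h' hw
      rw [(h.det h').2]; exact H

theorem L1.run {w} (H : L1 w) : ∃ m q' o, Run m 0 w q' o := by
  cases H with
  | nil => exact ⟨0, 0, [], Run.nil 0⟩
  | step h _ => exact ⟨_, _, _, h⟩

def tl (A : List Sg) : ℕ := A.foldl (fun k s => if s = none then 0 else k + 1) 0

theorem tl_fold (B : List Sg) (hB : none ∉ B) (k : ℕ) :
    B.foldl (fun k s => if s = none then 0 else k + 1) k = k + B.length := by
  induction B generalizing k with
  | nil => rfl
  | cons x B ih =>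
    have : x ≠ none := fun e => hB (by simp [e])
    rw [List.foldl_cons, if_neg this, ih fun e => hB (by simp [e])]
    simp; omega

theorem tl_append (A B : List Sg) (hB : none ∉ B) : tl (A ++ B) = tl A + B.length := by
  rw [tl, List.foldl_append, tl_fold B hB]; rfl

theorem Run.pos {m q w q' o} (h : Run m q w q' o) : ∀ A x C, w = A ++ some x :: C →
    x = om (tl A) := by
  induction h with
  | nil => intro A x C e; simp at e
  | @cons q l T w q' o v h ih =>
    intro A x C e
    by_cases hA : none ∈ A
    · obtain ⟨a, A', rfl, ha⟩ := List.eq_append_cons_of_mem hA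
      simp only [nm, List.append_assoc, List.cons_append, List.nil_append] at e
      obtain ⟨rfl, e2⟩ := split_none (none_not_pre l) ha e
      rw [ih A' x C e2]
      simp [tl, List.foldl_append]
    · have h1 : tl A = A.length := by simpa [tl] using tl_append [] A hA
      have h2 := congrArg (fun u => u[A.length]?) e
      simp only [List.getElem?_append_right le_rfl, Nat.sub_self, List.getElem?_cons_zero] at h2
      by_cases hl : A.length < l
      · rw [nm, List.append_assoc, List.getElem?_append_left (by simpa [pre] using hl)] at h2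
        simp [pre, hl] at h2
        rw [h1, h2]
      · exfalso
        have h3 := congrArg (fun u => u[l]?) e
        have h4 : (nm l ++ w)[l]? = some none := by
          rw [nm, List.append_assoc, List.getElem?_append_right (by simp [pre])]
          simp [pre]
        simp only [h4] at h3
        rcases (not_lt.1 hl).eq_or_lt with h5 | h5
        · rw [h5] at h3; simp at h3
        · rw [List.getElem?_append_left h5] at h3
          exact hA (List.mem_of_getElem? h3.symm)

def Ner (u : List Sg) : Set (List Sg) := {s | L1 (u ++ s)}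

def Qt (S : Set (List Sg)) (u : List Sg) : Set (List Sg) := {s | u ++ s ∈ S}

theorem ner_append (u v : List Sg) : Ner (u ++ v) = Qt (Ner u) v := by
  ext s; simp [Ner, Qt]

theorem rp_add {S : Type} (a b : ℕ) (v : List S) : rp (a + b) v = rp a v ++ rp b v := by
  induction a with
  | zero => simp [rp]
  | succ a ih => rw [Nat.succ_add, rp, ih, rp, List.append_assoc]

theorem rp_shift {S : Type} (n : ℕ) (a b : List S) :
    rp n (a ++ b) ++ a = a ++ rp n (b ++ a) := by
  induction n with
  | zero => simp [rp]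
  | succ n ih => simp only [rp, List.append_assoc, ih]

theorem fin_of_tail {α : Type} (f : ℕ → α) (a : ℕ) {S : Set α} (hS : S.Finite)
    (h : ∀ n, a ≤ n → f n ∈ S) : (Set.range f).Finite := by
  refine (((Set.finite_lt_nat a).image f).union hS).subset ?_
  rintro _ ⟨n, rfl⟩
  by_cases hn : n < a
  · exact Or.inl ⟨n, hn, rfl⟩
  · exact Or.inr (h n (by omega))

def Out {Q : Type} (F : Q → Q) (O : Q → List Sg) : ℕ → Q → List Sg
  | 0, _ => []
  | n + 1, r => O r ++ Out F O n (F r)

theorem Out_add {Q : Type} (F : Q → Q) (O : Q → List Sg) (a b : ℕ) : ∀ r,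
    Out F O (a + b) r = Out F O a r ++ Out F O b (F^[a] r) := by
  induction a with
  | zero => intro r; simp [Out]
  | succ a ih => intro r; rw [Nat.succ_add, Out, ih, Out, List.append_assoc]; rfl

theorem Out_len {Q : Type} (F : Q → Q) (O : Q → List Sg) {c L : ℕ} (h : ∀ r, c * (O r).length ≤ L)
    (n : ℕ) : ∀ r, c * (Out F O n r).length ≤ n * L := by
  induction n with
  | zero => intro r; simp [Out]
  | succ n ih =>
    intro r
    have := ih (F r)
    have := h r
    simp only [Out, List.length_append, mul_add, add_mul]; omega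

theorem Out_per {Q : Type} (F : Q → Q) (O : Q → List Sg) {p : ℕ} {r : Q} (h : F^[p] r = r) (k : ℕ) :
    Out F O (k * p) r = rp k (Out F O p r) ∧ F^[k * p] r = r := by
  induction k with
  | zero => simp [Out, rp]
  | succ k ih =>
    rw [Nat.succ_mul, add_comm, Out_add, h, ih.1, Function.iterate_add_apply, ih.2, h]
    exact ⟨rfl, rfl⟩

theorem torsion : ∀ (N : ℕ) (v u : List Sg), v.length = N →
    (Set.range fun n => Ner (u ++ rp n v)).Finite := by
  intro N
  induction N using Nat.strong_induction_on with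
  | _ N ih =>
  intro v u hv
  by_cases hd : ∃ n, Ner (u ++ rp n v) = ∅
  · obtain ⟨a, ha⟩ := hd
    refine fin_of_tail _ a (Set.finite_singleton ∅) fun n hn => ?_
    obtain ⟨b, rfl⟩ := Nat.exists_eq_add_of_le hn
    rw [rp_add, ← List.append_assoc, ner_append, ha]
    rfl
  push Not at hd
  by_cases hn : none ∈ v
  swap
  · rcases Nat.eq_zero_or_pos N with rfl | hN
    · obtain rfl : v = [] := List.eq_nil_of_length_eq_zero hv
      refine fin_of_tail _ 0 (Set.finite_singleton (Ner u)) fun n _ => ?_
      have : rp n ([] : List Sg) = [] := List.eq_nil_of_length_eq_zero (by simp [rp_length])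
      simp [this]
    exfalso
    have hrp : ∀ n, none ∉ rp n v := fun n => by
      induction n with
      | zero => simp [rp]
      | succ n ih => simp [rp, hn, ih]
    have key : ∀ n i, (hi : i < v.length) → v[i] = some (om (tl u + (n * N + i))) := by
      intro n i hi
      obtain ⟨s, hs⟩ := hd (n + 1)
      obtain ⟨m, q', o, h⟩ := L1.run hs
      obtain ⟨x, hx⟩ := Option.ne_none_iff_exists'.1 fun e : v[i] = none =>
        hn (e ▸ List.getElem_mem hi)
      have e : u ++ rp (n + 1) v ++ s =
          (u ++ (rp n v ++ v.take i)) ++ some x :: (v.drop (i + 1) ++ s) := by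
        rw [rp_add, ← hx]
        simp only [rp, List.append_nil, List.append_assoc]
        rw [← List.cons_append, ← List.drop_eq_getElem_cons hi, ← List.append_assoc (v.take i),
          List.take_append_drop]
      rw [hx, h.pos _ _ _ e, tl_append]
      · simp [rp_length, hv, min_eq_left (hv ▸ hi.le)]
      · simp only [List.mem_append, not_or]
        exact ⟨hrp n, fun h => hn (List.mem_of_mem_take h)⟩
    refine om_aper (tl u) N hN fun i hi => ?_
    obtain ⟨j, rfl⟩ := Nat.exists_eq_add_of_le hi
    have h1 := key (j / N) (j % N) (by rw [hv]; exact Nat.mod_lt _ hN)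
    have h2 := key (j / N + 1) (j % N) (by rw [hv]; exact Nat.mod_lt _ hN)
    have e1 : j / N * N + j % N = j := Nat.div_add_mod' j N
    have e2 : tl u + ((j / N + 1) * N + j % N) = tl u + j + N := by rw [add_mul]; omega
    rw [e1] at h1
    rw [e2, h1] at h2
    exact (Option.some.inj h2).symm
  obtain ⟨v1, v2, rfl⟩ := List.append_of_mem hn
  have e0 : ∀ n, u ++ rp (n + 1) (v1 ++ none :: v2) =
      (u ++ v1 ++ [none] ++ rp n (v2 ++ v1 ++ [none])) ++ v2 := by
    intro n
    have := rp_shift n v2 (v1 ++ [none])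
    simp only [rp, List.append_assoc, List.cons_append, List.nil_append] at this ⊢
    rw [this]
  set U := u ++ v1 ++ [none] with hU
  set V := v2 ++ v1 ++ [none] with hV
  have hVl : V.length = N := by
    rw [← hv, hV]; simp; omega
  suffices H : (Set.range fun n => Ner (U ++ rp n V)).Finite by
    refine fin_of_tail _ 1 (H.image fun S => Qt S v2) fun n hn => ?_
    obtain ⟨n, rfl⟩ := Nat.exists_eq_add_of_le' hn
    exact ⟨_, ⟨n, rfl⟩, by rw [e0, ner_append _ v2]⟩
  obtain ⟨s, hs⟩ := hd 2
  obtain ⟨m, q', o, h⟩ := L1.run hs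
  rw [e0] at h
  obtain ⟨q1, o1, o2, hU1, h2, -⟩ := h.split (u ++ v1) (V ++ (v2 ++ s)) (by simp [rp, hU])
  obtain ⟨q2, o3, o4, hV1, -, -⟩ := h2.split (v2 ++ v1) (v2 ++ s) (by simp [hV])
  choose F O hF hO using hV1.total
  have run : ∀ n r, Run m r (rp n V) (F^[n] r) (Out F O n r) := by
    intro n
    induction n with
    | zero => intro r; exact Run.nil r
    | succ n ih => intro r; exact (hF r).append (ih (F r))
  let G : Fin (m + 1) × Set (List Sg) → Set (List Sg) := fun x =>
    {s | ∃ q' o, Run m x.1 s q' o ∧ o ∈ x.2}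
  have hG : ∀ n, Ner (U ++ rp n V) = G (F^[n] q1, Ner (o1 ++ Out F O n q1)) := by
    intro n
    have h3 := hU1.append (run n q1)
    ext s
    constructor
    · intro hs
      obtain ⟨m', q', o, h4⟩ := L1.run hs
      obtain ⟨A, hA⟩ : ∃ A, U ++ rp n V = A ++ [none] := by
        cases n with
        | zero => exact ⟨u ++ v1, by simp [rp, hU]⟩
        | succ n =>
          refine ⟨U ++ rp n V ++ (v2 ++ v1), ?_⟩
          rw [rp_add]; simp [rp, hV]
      obtain ⟨r1, p1, p2, h5, h6, -⟩ := h4.split A s (by rw [hA]; simp)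
      rw [← hA] at h5
      obtain rfl := h3.m_eq h5 (by rw [hA]; simp)
      obtain ⟨rfl, rfl⟩ := h3.det h5
      exact ⟨q', p2, h6, (L1_iff (h3.append h6)).1 hs⟩
    · rintro ⟨q', o, h4, h5⟩
      exact (L1_iff (h3.append h4)).2 h5
  suffices H : (Set.range fun n => Ner (o1 ++ Out F O n q1)).Finite by
    refine ((Set.finite_univ.prod H).image G).subset ?_
    rintro _ ⟨n, rfl⟩
    exact ⟨_, ⟨trivial, n, rfl⟩, (hG n).symm⟩
  obtain ⟨a, p, hp, hpm, hper⟩ : ∃ a p, 0 < p ∧ p ≤ m + 1 ∧ F^[p] (F^[a] q1) = F^[a] q1 := by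
    obtain ⟨i, j, hij, he⟩ := Fintype.exists_ne_map_eq_of_card_lt
      (fun i : Fin (m + 2) => F^[i] q1) (by simp)
    have hi := i.2
    have hj := j.2
    rcases lt_or_gt_of_ne (Fin.val_ne_of_ne hij) with h | h
    · exact ⟨i, j - i, by omega, by omega, by
        rw [← Function.iterate_add_apply, Nat.sub_add_cancel h.le]; exact he.symm⟩
    · exact ⟨j, i - j, by omega, by omega, by
        rw [← Function.iterate_add_apply, Nat.sub_add_cancel h.le]; exact he⟩
  have hlt : (Out F O p (F^[a] q1)).length < N := by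
    have h1 := Out_len F O hO p (F^[a] q1)
    have h2 : p * (V.length - 1) ≤ (m + 1) * (V.length - 1) := Nat.mul_le_mul_right _ hpm
    have h3 := Nat.le_of_mul_le_mul_left (h1.trans h2) (by omega)
    have : 0 < V.length := by rw [hV]; simp
    omega
  have H := ih _ hlt (Out F O p (F^[a] q1)) (o1 ++ Out F O a q1) rfl
  refine fin_of_tail _ a (((Set.finite_lt_nat p).prod H).image
    fun x => Qt x.2 (Out F O x.1 (F^[a] q1))) fun n hn => ?_
  obtain ⟨b, rfl⟩ := Nat.exists_eq_add_of_le hn
  refine ⟨(b % p, Ner (o1 ++ Out F O a q1 ++ rp (b / p) (Out F O p (F^[a] q1)))),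
    ⟨Nat.mod_lt _ hp, b / p, rfl⟩, ?_⟩
  obtain ⟨e1, e2⟩ := Out_per F O hper (b / p)
  simp only
  rw [← ner_append, ← e1, Out_add, List.append_assoc, List.append_assoc]
  conv_rhs => rw [← Nat.div_add_mod' b p, Out_add, e2]

end Pool.Agent.H37.Cyl
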