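import Mathlib

/-! Families of languages, inverse agsm mappings, cylinder operations, the transformation `T`. -/

namespace Pool.Agent.H37.Cyl

open Computability

/-- A language over a finite alphabet. -/
structure Lang where
  X : Type
  fin : Finite X
  L : Language X

/-- An agsm from `X` to `Y`. -/
structure Agsm (X Y : Type) where
  Q : Type
  finQ : Finite Q
  q0 : Q
  F : Set Q
  t : Q → X → Q
  h : Q → X → List Y

namespace Agsm

variable {X Y : Type} (g : Agsm X Y)

/-- Extended transition map. -/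
def tS (q : g.Q) (w : List X) : g.Q := w.foldl g.t q

/-- Extended output map. -/
def hS : g.Q → List X → List Y
  | _, [] => []
  | q, x :: w => g.h q x ++ hS (g.t q x) w

/-- `g⁻¹(M)`. -/
def inv (M : Language Y) : Language X := {w | g.tS g.q0 w ∈ g.F ∧ g.hS g.q0 w ∈ M}

end Agsm

/-- `N` is obtained from `M` by one operation `agsm⁻¹`. -/
def AgsmInv (M N : Lang) : Prop := ∃ g : Agsm N.X M.X, N.L = g.inv M.L

/-- `N` is obtained from `M` by one operation of `C`. -/
inductive COp : Lang → Lang → Prop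
  | invHom (M : Lang) (X : Type) (hX : Finite X) (φ : X → List M.X) :
      COp M ⟨X, hX, {w | w.flatMap φ ∈ M.L}⟩
  | inter (M : Lang) (R : Language M.X) (hR : R.IsRegular) :
      COp M ⟨M.X, M.fin, {w | w ∈ M.L ∧ w ∈ R}⟩

def ClosedUnder (E : Lang → Lang → Prop) (𝓛 : Set Lang) : Prop :=
  ∀ M ∈ 𝓛, ∀ N, E M N → N ∈ 𝓛

/-- `𝓛` is closed under `E` and has an `E`-generator. -/
def Principal (E : Lang → Lang → Prop) (𝓛 : Set Lang) : Prop :=
  ClosedUnder E 𝓛 ∧ ∃ L0 ∈ 𝓛, ∀ N ∈ 𝓛, Relation.ReflTransGen E L0 N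

/-- The alphabet `X` with three new letters. -/
abbrev TL (X : Type) : Type := X ⊕ Fin 3

def y {X : Type} : TL X := Sum.inr 0
def yb {X : Type} : TL X := Sum.inr 1
def z {X : Type} : TL X := Sum.inr 2

/-- `Der i w`: the variable `v_i` of the grammar of `A` derives `w`. -/
inductive Der {X : Type} : Fin 4 → List (TL X) → Prop
  | v0_v1 {w} : Der 1 w → Der 0 w
  | v0_eps : Der 0 []
  | v1_y {w} : Der 2 w → Der 1 (y :: w ++ [yb])
  | v1_v3 {w} : Der 3 w → Der 1 (w ++ [z])
  | v1_z : Der 1 [z]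
  | v2_x {w} (a : TL X) : a ≠ yb → a ≠ z → Der 2 w → Der 2 (w ++ [a])
  | v2_v1 {w} : Der 1 w → Der 2 w
  | v3_x {w} (a : TL X) : a ≠ z → Der 3 w → Der 3 (w ++ [a])
  | v3_yb : Der 3 [yb]

/-- The language consisting of the single letter `a`. -/
def ltr {X : Type} (a : X) : Language X := {w | w = [a]}

/-- `X*` inside the enlarged alphabet. -/
def XStar (X : Type) : Language (TL X) := {w | ∀ a ∈ w, ∃ x : X, a = Sum.inl x}

/-- `B = y + (ȳ X* y⁺)*`. -/
def B (X : Type) : Language (TL X) :=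
  ltr y + (ltr yb * XStar X * (ltr y * (ltr y)∗))∗

/-- `Inter f w`: `w ∈ f₁ A f₂ A ⋯ A fₙ` for `f = f₁ ⋯ fₙ`. -/
inductive Inter {X : Type} : List X → List (TL X) → Prop
  | nil : Inter [] []
  | one (x : X) : Inter [x] [Sum.inl x]
  | cons (x x' : X) {f α r} : Der 0 α → Inter (x' :: f) r →
      Inter (x :: x' :: f) (Sum.inl x :: (α ++ r))

/-- The transformation `T`. -/
def T (M : Lang) : Lang :=
  ⟨TL M.X, haveI := M.fin; inferInstance,
    {w | ∃ f ∈ M.L, ∃ u b, Inter f u ∧ b ∈ B M.X ∧ w = z :: yb :: (u ++ b)}⟩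

end Pool.Agent.H37.Cyl
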