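import Pool.Agent.H37.RE

/-!
Effective dependent choice.
-/

set_option autoImplicit false

namespace Pool.Agent.H37

open Encodable

variable {α σ : Type} [Primcodable α] [Primcodable σ] {O : Set (ℕ →. ℕ)}

/-- effective dependent choice, with a parameter -/
theorem CI.dc_param {D : α → σ → σ → ℕ → Bool}
    (hD : CI O fun q : α × σ × σ × ℕ => D q.1 q.2.1 q.2.2.1 q.2.2.2)
    (I : α → σ → Prop) {s0 : α → σ} (hs0 : CI O s0) (h0 : ∀ a, I a (s0 a))
    (hs : ∀ a s, I a s → ∃ s' t, D a s s' t = true)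
    (hI : ∀ a s s' t, I a s → D a s s' t = true → I a s') :
    ∃ S : α → ℕ → σ, CI O (fun p : α × ℕ => S p.1 p.2) ∧ (∀ a, S a 0 = s0 a) ∧
      ∀ a n, I a (S a n) ∧ ∃ t, D a (S a n) (S a (n + 1)) t = true := by
  classical
  let p : α × σ → ℕ → Bool := fun s n =>
    D s.1 s.2 ((Encodable.decode (α := σ) n.unpair.1).getD s.2) n.unpair.2
  have hp : CI O fun q : (α × σ) × ℕ => p q.1 q.2 :=
    hD.comp (g := fun q : (α × σ) × ℕ =>
      (q.1.1, q.1.2, (Encodable.decode (α := σ) q.2.unpair.1).getD q.1.2, q.2.unpair.2)) (by fun_prop)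
  let g : α × σ →. σ := fun s => (Nat.rfind fun n => Part.some (p s n)).map fun n =>
    (Encodable.decode (α := σ) n.unpair.1).getD s.2
  have hg : RecursiveIn O g :=
    RI.map (RI.rfind (p := fun s n => Part.some (p s n)) hp.ri) (by fun_prop)
  have hgs : ∀ a s, I a s → ∃ s', s' ∈ g (a, s) ∧ ∃ t, D a s s' t = true := by
    intro a s hIs
    obtain ⟨s', t, h⟩ := hs a s hIs
    have : ∃ n, p (a, s) n = true := ⟨Nat.pair (Encodable.encode s') t, by simpa [p] using h⟩
    refine ⟨_, Part.mem_map _ (a := Nat.find this) ?_, _, Nat.find_spec this⟩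
    rw [Nat.mem_rfind]
    refine ⟨by simpa using Nat.find_spec this, fun {m} hm => ?_⟩
    simpa using Nat.find_min this hm
  choose! G hG using hgs
  let S : α → ℕ → σ := fun a n => (G a)^[n] (s0 a)
  have hS : ∀ a n, S a (n + 1) = G a (S a n) := fun a n => Function.iterate_succ_apply' _ _ _
  have hIS : ∀ a n, I a (S a n) := by
    intro a n
    induction n with
    | zero => exact h0 a
    | succ n ih =>
      obtain ⟨t, ht⟩ := (hG a _ ih).2
      rw [hS]; exact hI _ _ _ _ ih ht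
  refine ⟨S, ?_, fun a => rfl, fun a n => ⟨hIS a n, by rw [hS]; exact (hG a _ (hIS a n)).2⟩⟩
  have := RI.nat_rec (O := O) (f := fun q : α × ℕ => q.2) (g := fun q => Part.some (s0 q.1))
    (h := fun q r => g (q.1, r.2)) (by fun_prop) (CI.ri (by fun_prop))
    (RI.comp hg (g := fun q : (α × ℕ) × ℕ × σ => (q.1.1, q.2.2)) (by fun_prop))
  refine RI.ci_of_tot this fun q => ?_
  obtain ⟨a, n⟩ := q
  induction n with
  | zero => simp [S]
  | succ n ih =>
    simp only [Part.mem_bind_iff]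
    exact ⟨_, ih, by rw [hS]; exact (hG a _ (hIS a n)).1⟩

/-- effective dependent choice -/
theorem CI.dc {D : σ → σ → ℕ → Bool} (hD : CI O fun q : σ × σ × ℕ => D q.1 q.2.1 q.2.2)
    (I : σ → Prop) (s0 : σ) (h0 : I s0) (hs : ∀ s, I s → ∃ s' t, D s s' t = true)
    (hI : ∀ s s' t, I s → D s s' t = true → I s') :
    ∃ S : ℕ → σ, CI O S ∧ S 0 = s0 ∧ ∀ n, I (S n) ∧ ∃ t, D (S n) (S (n + 1)) t = true := by
  obtain ⟨S, h1, h2, h3⟩ := CI.dc_param (O := O) (α := ℕ) (D := fun _ => D)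
    (hD.comp (g := fun q : ℕ × σ × σ × ℕ => q.2) (by fun_prop)) (fun _ => I)
    (s0 := fun _ => s0) (by fun_prop) (fun _ => h0) (fun _ => hs) (fun _ => hI)
  exact ⟨S 0, h1.comp (g := fun n => (0, n)) (by fun_prop), h2 0, h3 0⟩

theorem re_dc {R : σ → σ → Prop} (hR : REPred fun q : σ × σ => R q.1 q.2) (I : σ → Prop)
    (s0 : σ) (h0 : I s0) (hs : ∀ s, I s → ∃ s', R s s') (hI : ∀ s s', I s → R s s' → I s') :
    ∃ S : ℕ → σ, CI ∅ S ∧ S 0 = s0 ∧ ∀ n, I (S n) ∧ R (S n) (S (n + 1)) := by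
  obtain ⟨D, hD, -, h⟩ := re_stage hR
  obtain ⟨S, h1, h2, h3⟩ := CI.dc (O := ∅) (D := fun s s' t => D (s, s') t)
    (hD.comp (g := fun q : σ × σ × ℕ => ((q.1, q.2.1), q.2.2)) (by fun_prop)) I s0 h0
    (fun s hIs => by
      obtain ⟨s', hs'⟩ := hs s hIs
      exact ⟨s', (h (s, s')).1 hs'⟩)
    (fun s s' t hIs hd => hI s s' hIs ((h (s, s')).2 ⟨t, hd⟩))
  exact ⟨S, h1, h2, fun n => ⟨(h3 n).1, (h (_, _)).2 (h3 n).2⟩⟩

/-- all lists over `A` of length at most `B` -/
def allLists {τ : Type} (A : List τ) (B : ℕ) : List (List τ) :=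
  (fun L => [] :: L.flatMap fun c => A.map fun a => a :: c)^[B] [[]]

theorem mem_allLists {τ : Type} {A : List τ} {B : ℕ} {c : List τ} :
    c ∈ allLists A B ↔ c.length ≤ B ∧ ∀ a ∈ c, a ∈ A := by
  induction B generalizing c with
  | zero => cases c <;> simp [allLists]
  | succ B ih =>
    unfold allLists at ih ⊢
    rw [Function.iterate_succ_apply']
    cases c with
    | nil => simp
    | cons a c =>
      simp only [List.mem_cons, reduceCtorEq, List.mem_flatMap, List.mem_map, List.cons.injEq,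
        false_or, List.length_cons, add_le_add_iff_right, forall_eq_or_imp]
      constructor
      · rintro ⟨c', hc', a', ha', rfl, rfl⟩
        exact ⟨(ih.1 hc').1, ha', (ih.1 hc').2⟩
      · rintro ⟨h1, h2, h3⟩
        exact ⟨c, ih.2 ⟨h1, h3⟩, a, h2, rfl, rfl⟩

@[fun_prop] theorem CI.allLists {A : α → List σ} {B : α → ℕ} (hA : CI O A) (hB : CI O B) :
    CI O fun a => allLists (A a) (B a) := by
  unfold Pool.Agent.H37.allLists; fun_prop

end Pool.Agent.H37
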