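import Mathlib

/-! Randomness tests on Cantor space with the uniform measure. -/

set_option autoImplicit false

namespace Pool.Agent.H37.Defc

open MeasureTheory ProbabilityTheory
open scoped ENNReal NNReal

/-- the uniform Bernoulli measure -/
noncomputable def P : Measure (ℕ → Bool) :=
  Measure.infinitePi fun _ : ℕ => uniformOn (Set.univ : Set Bool)

/-- the first `n` bits -/
def cut (ω : ℕ → Bool) (n : ℕ) : List Bool := (List.range n).map ω

/-- lower semicomputable: the supremum of computable rational values read off the initial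
segments -/
def LSC (f : (ℕ → Bool) → ℝ≥0∞) : Prop :=
  ∃ g : List Bool → ℕ × ℕ, Computable g ∧
    ∀ ω, f ω = ⨆ n, ((g (cut ω n)).1 : ℝ≥0∞) / ((g (cut ω n)).2 + 1)

/-- expectation-bounded test -/
def ETest (f : (ℕ → Bool) → ℝ≥0∞) : Prop := LSC f ∧ ∫⁻ ω, f ω ∂P < ∞

/-- probability-bounded test -/
def PTest (f : (ℕ → Bool) → ℝ≥0∞) : Prop :=
  LSC f ∧ ∀ c : ℝ≥0, 0 < c → P {ω | (c : ℝ≥0∞) ≤ f ω} ≤ 1 / c

/-- maximal in the class up to a constant factor -/
def Univ (T : ((ℕ → Bool) → ℝ≥0∞) → Prop) (t : (ℕ → Bool) → ℝ≥0∞) : Prop :=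
  T t ∧ ∀ f, T f → ∃ c : ℝ≥0, ∀ ω, f ω ≤ c * t ω

/-- Martin-Löf randomness -/
def MLRandom (ω : ℕ → Bool) : Prop :=
  ∀ V : ℕ × List Bool → Prop, REPred V →
    (∀ k, P {x | ∃ n, V (k, cut x n)} ≤ 2⁻¹ ^ k) → ∃ k, ∀ n, ¬ V (k, cut ω n)

/-- the deficiency given by a test -/
noncomputable def dfc (t : (ℕ → Bool) → ℝ≥0∞) (ω : ℕ → Bool) : ℝ := Real.logb 2 (t ω).toReal

end Pool.Agent.H37.Defc
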