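import Pool.Agent.H37.Rnd1
import Pool.Agent.H37.DefcDefs

/-! Basic facts on randomness tests. -/

set_option autoImplicit false

namespace Pool.Agent.H37.Defc

open MeasureTheory ProbabilityTheory Filter Rnd
open scoped ENNReal NNReal

theorem cut_eq (ω : ℕ → Bool) (n : ℕ) : cut ω n = pre ω n := rfl

instance : IsProbabilityMeasure P := by unfold P; infer_instance

/-- cylinder -/
def cyl (x : List Bool) : Set (ℕ → Bool) := {ω | pre ω x.length = x}

theorem cyl_eq (x : List Bool) :
    cyl x = Set.pi (Finset.range x.length) fun i => {x.getD i false} := by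
  ext ω
  simp only [cyl, Set.mem_setOf_eq, Set.mem_pi, Finset.coe_range, Set.mem_Iio,
    Set.mem_singleton_iff]
  conv_lhs => rw [← pre_getD x false, length_pre, eq_comm, pre_eq_iff]
  exact forall₂_congr fun _ _ => eq_comm

theorem meas_cyl (x : List Bool) : MeasurableSet (cyl x) := by
  rw [cyl_eq]; exact MeasurableSet.pi (Finset.countable_toSet _) fun _ _ => trivial

theorem P_cyl (x : List Bool) : P (cyl x) = 2⁻¹ ^ x.length := by
  rw [cyl_eq, P, Measure.infinitePi_pi _ fun _ _ => measurableSet_singleton _]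
  simp only [uniformOn_univ]
  simp

theorem mem_cyl {x : List Bool} {ω : ℕ → Bool} {n : ℕ} (h : x <+: pre ω n) : ω ∈ cyl x :=
  (pf_pre h).symm

theorem pf_of_cyl {x : List Bool} {ω : ℕ → Bool} {n : ℕ} (h : ω ∈ cyl x) (hn : x.length ≤ n) :
    x <+: pre ω n := by
  have := pre_pf ω hn
  rwa [show pre ω x.length = x from h] at this

theorem meas_pre {β : Type} [MeasurableSpace β] (g : List Bool → β) (n : ℕ) :
    Measurable fun ω : ℕ → Bool => g (pre ω n) := by
  have : (fun ω : ℕ → Bool => g (pre ω n)) = (fun y : Fin n → Bool => g (List.ofFn y)) ∘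
      fun ω i => ω i := by
    funext ω
    simp only [Function.comp]
    congr 1
    exact List.ext_getElem (by simp) fun i _ _ => by simp [pre]
  rw [this]
  exact (measurable_of_countable _).comp (by fun_prop)

theorem LSC.meas {f : (ℕ → Bool) → ℝ≥0∞} (h : LSC f) : Measurable f := by
  obtain ⟨g, -, hg⟩ := h
  rw [show f = _ from funext hg]
  exact Measurable.iSup fun n =>
    meas_pre (fun x => ((g x).1 : ℝ≥0∞) / ((g x).2 + 1)) n

theorem lsc_nat {g : List Bool → ℕ} (hg : CI ∅ g) :
    LSC fun ω => ⨆ n, (g (pre ω n) : ℝ≥0∞) :=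
  ⟨fun x => (g x, 0), CI.computable (by fun_prop), fun ω => by simp [cut_eq]⟩

theorem lt_frac (y a b : ℕ) : (y : ℝ≥0∞) < (a : ℝ≥0∞) / (b + 1) ↔ y * (b + 1) < a := by
  rw [ENNReal.lt_div_iff_mul_lt (by simp) (by simp)]
  exact_mod_cast Iff.rfl

theorem LSC.dec {f : (ℕ → Bool) → ℝ≥0∞} (h : LSC f) : ∃ D : ℕ × List Bool → Bool, CI ∅ D ∧
    ∀ (y : ℕ) ω, (y : ℝ≥0∞) < f ω ↔ ∃ n, D (y, pre ω n) = true := by
  obtain ⟨g, hg, e⟩ := h
  have := CI.of_comp (O := ∅) hg
  refine ⟨fun q => decide (q.1 * ((g q.2).2 + 1) < (g q.2).1), by fun_prop, fun y ω => ?_⟩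
  simp only [e, lt_iSup_iff, lt_frac, cut_eq, decide_eq_true_eq]

theorem PTest.le {f : (ℕ → Bool) → ℝ≥0∞} (h : PTest f) (k : ℕ) :
    P {ω | ((2 ^ k : ℕ) : ℝ≥0∞) < f ω} ≤ 2⁻¹ ^ k := by
  refine le_trans (measure_mono fun ω hω => ?_) ((h.2 (2 ^ k) (by positivity)).trans ?_)
  · simpa using le_of_lt (show ((2 ^ k : ℕ) : ℝ≥0∞) < f ω from hω)
  · simp [ENNReal.inv_pow]

theorem ml_of {t : (ℕ → Bool) → ℝ≥0∞} (ht : Univ ETest t) {ω : ℕ → Bool} (h : t ω ≠ ∞) :
    MLRandom ω := by
  intro V hV hm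
  by_contra hc
  push Not at hc
  obtain ⟨D, hD, mono, eD⟩ := re_stage hV
  obtain ⟨F, hF, eF⟩ : ∃ F : (ℕ × List Bool) × ℕ → Bool, CI ∅ F ∧ ∀ a s, D a s = F (a, s) :=
    ⟨_, hD, fun _ _ => rfl⟩
  let g : List Bool → ℕ := fun x => (List.range x.length).countP fun k =>
    (List.range (x.length + 1)).any fun m => F ((k, x.take m), x.length)
  have hg : CI ∅ g := by simp only [g]; fun_prop
  let A : ℕ → Set (ℕ → Bool) := fun k => {x | ∃ n, V (k, cut x n)}
  have hA : ∀ k, MeasurableSet (A k) := fun k => by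
    simp only [A, Set.setOf_exists]
    exact MeasurableSet.iUnion fun n => meas_pre (fun x => V (k, x)) n (by trivial : MeasurableSet {True})
      |>.congr (by ext; simp [cut_eq])
  have hle : ∀ x, ⨆ n, (g (pre x n) : ℝ≥0∞) ≤ ∑' k, (A k).indicator 1 x := fun x =>
    iSup_le fun n => by
      refine le_trans ?_ (ENNReal.sum_le_tsum (Finset.range n))
      simp only [g, length_pre, List.countP_eq_length_filter]
      rw [← List.toFinset_card_of_nodup (List.nodup_range.filter _), List.toFinset_filter,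
        List.toFinset_range, Finset.card_filter]
      push_cast
      refine Finset.sum_le_sum fun k _ => ?_
      split_ifs with hk
      · simp only [List.any_eq_true, List.mem_range, ← eF] at hk
        obtain ⟨m, hm, hk⟩ := hk
        rw [take_pre _ (by omega)] at hk
        rw [Set.indicator_of_mem (show x ∈ A k from ⟨m, (eD _).2 ⟨_, hk⟩⟩)]; simp
      · simp
  obtain ⟨c, hc'⟩ := ht.2 _ ⟨lsc_nat hg, by
    refine lt_of_le_of_lt (lintegral_mono hle) ?_
    rw [lintegral_tsum fun k => (measurable_one.indicator (hA k)).aemeasurable]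
    refine lt_of_le_of_lt (ENNReal.tsum_le_tsum fun k => ?_)
      (show ∑' k : ℕ, (2⁻¹ : ℝ≥0∞) ^ k < ∞ by simp)
    rw [lintegral_indicator_one (hA k)]; exact hm k⟩
  refine absurd (hc' ω) (not_le.2 (lt_of_lt_of_le (ENNReal.mul_lt_top (by simp) h.lt_top) ?_))
  rw [← ENNReal.iSup_natCast]
  refine iSup_le fun M => ?_
  obtain ⟨s, hs⟩ := exists_stage_all (List.range M)
    (fun k s => (List.range (s + 1)).any fun m => F ((k, pre ω m), s))
    (fun k s s' hs h => by
      simp only [List.any_eq_true, List.mem_range, ← eF] at h ⊢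
      obtain ⟨m, h1, h2⟩ := h
      exact ⟨m, by omega, mono _ _ _ hs h2⟩)
    fun k _ => by
      obtain ⟨n, hn⟩ := hc k
      obtain ⟨s, hs⟩ := (eD _).1 hn
      refine ⟨max n s, ?_⟩
      simp only [List.any_eq_true, List.mem_range, ← eF]
      exact ⟨n, by omega, mono _ _ _ (le_max_right _ _) hs⟩
  refine le_iSup_of_le (M + s) (Nat.cast_le.2 ?_)
  simp only [g, length_pre]
  rw [List.range_add (n := M) (m := s), List.countP_append]
  refine le_trans (le_of_eq ?_) (Nat.le_add_right _ _)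
  rw [List.countP_eq_length.2, List.length_range]
  intro k hk
  have := hs (M + s) (Nat.le_add_left _ _) k hk
  simp only [List.any_eq_true, List.mem_range] at this ⊢
  obtain ⟨m, h1, h2⟩ := this
  exact ⟨m, h1, by rwa [take_pre _ (by omega)]⟩

theorem fin_of_ml {t : (ℕ → Bool) → ℝ≥0∞} (ht : PTest t) {ω : ℕ → Bool} (h : MLRandom ω) :
    t ω ≠ ∞ := by
  obtain ⟨D, hD, e⟩ := ht.1.dec
  obtain ⟨k, hk⟩ := h (fun q => D (2 ^ q.1, q.2) = true)
    (re_of_bool (fun q => D (2 ^ q.1, q.2)) (by fun_prop) fun _ => Iff.rfl) fun k => by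
      simpa only [cut_eq, ← e] using ht.le k
  intro hω
  obtain ⟨n, hn⟩ := (e (2 ^ k) ω).1 (by rw [hω]; exact ENNReal.natCast_lt_top _)
  exact hk n hn

theorem E_fin {tE tP : (ℕ → Bool) → ℝ≥0∞} (hE : ETest tE) (hP : Univ PTest tP) {ω : ℕ → Bool}
    (h : tP ω ≠ ∞) : tE ω ≠ ∞ := by
  obtain ⟨B, hB⟩ := ENNReal.exists_nat_gt hE.2.ne
  have hm := hE.1.meas
  obtain ⟨g, hg, e⟩ := hE.1
  have hg' := CI.of_comp (O := ∅) hg
  obtain ⟨c, hc⟩ := hP.2 (fun x => tE x / (B + 1)) ⟨⟨fun x => ((g x).1, (g x).2 * (B + 1) + B),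
    CI.computable (by fun_prop), fun x => by
      beta_reduce
      rw [e, ENNReal.iSup_div]
      refine iSup_congr fun n => ?_
      rw [div_eq_mul_inv, div_eq_mul_inv, div_eq_mul_inv, mul_assoc,
        ← ENNReal.mul_inv (by simp) (by simp)]
      push_cast
      congr 2; ring⟩, fun c hc => by
    refine (meas_ge_le_lintegral_div (hm.div_const _).aemeasurable (by simpa using hc.ne')
      (by simp)).trans (ENNReal.div_le_div_right ?_ _)
    simp only [div_eq_mul_inv]
    rw [lintegral_mul_const _ hm, ← div_eq_mul_inv]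
    exact ENNReal.div_le_of_le_mul (by simpa using hB.le.trans le_self_add)⟩
  intro hω
  have := hc ω
  rw [hω, ENNReal.top_div_of_ne_top (by simp)] at this
  exact absurd this (not_le.2 (ENNReal.mul_lt_top (by simp) h.lt_top))

theorem lsc_one : LSC fun _ => 1 :=
  ⟨fun _ => (1, 0), Computable.const _, fun _ => by simp⟩

theorem pos_of {T : ((ℕ → Bool) → ℝ≥0∞) → Prop} {t : (ℕ → Bool) → ℝ≥0∞} (ht : Univ T t)
    (h : T fun _ => 1) (ω : ℕ → Bool) : t ω ≠ 0 := by
  obtain ⟨c, hc⟩ := ht.2 _ h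
  intro h0
  simpa [h0] using hc ω

theorem E_one : ETest fun _ => 1 := ⟨lsc_one, by simp⟩

theorem P_one : PTest fun _ => 1 := ⟨lsc_one, fun c hc => by
  by_cases h : (c : ℝ≥0∞) ≤ 1
  · simpa [h] using h
  · simp [h]⟩

/-- the test counting leading ones -/
noncomputable def lead (ω : ℕ → Bool) : ℝ≥0∞ :=
  ⨆ n, ((bif (pre ω n).all id then 2 ^ (pre ω n).length else 0 : ℕ) : ℝ≥0∞)

theorem P_lead : PTest lead := by
  refine ⟨lsc_nat (g := fun x => bif x.all id then 2 ^ x.length else 0) (by fun_prop),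
    fun c hc => ?_⟩
  have hex : ∃ n : ℕ, c ≤ 2 ^ n := (pow_unbounded_of_one_lt c one_lt_two).imp fun _ => le_of_lt
  have h1 := Nat.find_spec hex
  have : {ω | (c : ℝ≥0∞) ≤ lead ω} ⊆ cyl (List.replicate (Nat.find hex) true) := by
    intro ω hω
    rcases h0 : Nat.find hex with _ | m
    · simp [cyl, pre]
    have h2 : 2 ^ m < c := not_le.1 (Nat.find_min hex (by omega))
    have h3 : ((2 ^ m : ℕ) : ℝ≥0∞) < lead ω := lt_of_lt_of_le (by exact_mod_cast h2) hω
    obtain ⟨n, hn⟩ := lt_iSup_iff.1 h3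
    rw [Nat.cast_lt] at hn
    cases ha : (pre ω n).all id
    · simp [ha] at hn
    · simp only [ha, cond_true, length_pre, Nat.pow_lt_pow_iff_right one_lt_two] at hn
      simp only [cyl, List.length_replicate, Set.mem_setOf_eq, List.eq_replicate_iff, length_pre,
        true_and]
      intro b hb
      simpa using List.all_eq_true.1 ha b ((pre_pf ω hn).subset hb)
  refine (measure_mono this).trans ?_
  rw [P_cyl, List.length_replicate, ← ENNReal.inv_pow, one_div, ENNReal.inv_le_inv]
  exact_mod_cast h1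

/-- the marker string -/
def zs (n : ℕ) : List Bool := List.replicate n true ++ [false]

theorem lead_ge {n : ℕ} {ω : ℕ → Bool} (h : ω ∈ cyl (zs n)) : 2 ^ n ≤ lead ω := by
  refine le_iSup_of_le n ?_
  have : pre ω n = List.replicate n true := by
    have := congrArg (List.take n) (show pre ω (zs n).length = zs n from h)
    rwa [take_pre _ (by simp [zs]), zs, List.take_left' (by simp)] at this
  simp [this]

theorem disj_cyl {x y : List Bool} (h1 : ¬ x <+: y) (h2 : ¬ y <+: x) : Disjoint (cyl x) (cyl y) :=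
  Set.disjoint_left.2 fun _ hx hy => (List.prefix_or_prefix_of_prefix
    (pf_of_cyl hx (le_max_left _ y.length)) (pf_of_cyl hy (le_max_right _ _))).elim h1 h2

theorem zs_not {n m : ℕ} (h : n ≠ m) : ¬ zs n <+: zs m := by
  rintro ⟨t, ht⟩
  have h1 := congrArg List.length ht
  have h2 := congrArg (·[n]?) ht
  simp only [zs, List.length_append, List.length_replicate, List.length_singleton] at h1
  have : n < m := by omega
  simp [zs, List.getElem?_append, this] at h2

/-- finite check that every point of a cylinder meets `D` -/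
def chk (D : ℕ × List Bool → Bool) (y : ℕ) (x : List Bool) (s : ℕ) : Bool :=
  (W s).all fun τ => (List.range (s + 1)).any fun n => D (y, (x ++ τ).take n)

theorem ci_chk {D : ℕ × List Bool → Bool} (hD : CI ∅ D) :
    CI ∅ fun q : ℕ × List Bool × ℕ => chk D q.1 q.2.1 q.2.2 := by unfold chk; fun_prop

theorem chk_sound {D : ℕ × List Bool → Bool} {y s : ℕ} {x : List Bool} (h : chk D y x s = true)
    {ω : ℕ → Bool} (hω : ω ∈ cyl x) : ∃ n, D (y, pre ω n) = true := by
  obtain ⟨τ, hτ⟩ := pf_of_cyl hω (Nat.le_add_right _ s)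
  have hl := congrArg List.length hτ
  simp only [List.length_append, length_pre] at hl
  simp only [chk, List.all_eq_true, List.any_eq_true, mem_W, List.mem_range] at h
  obtain ⟨n, h1, h2⟩ := h τ (by omega)
  exact ⟨n, by rwa [hτ, take_pre _ (by omega)] at h2⟩

theorem chk_compl {D : ℕ × List Bool → Bool} {y s0 : ℕ} {x : List Bool}
    (h : ∀ s, s0 ≤ s → chk D y x s = false) : ∃ ω ∈ cyl x, ∀ n, ¬ D (y, pre ω n) = true := by
  obtain ⟨ω, hω⟩ := exists_path (T := fun τ => (τ <+: x ∨ x <+: τ) ∧ ¬ D (y, τ) = true) fun k => by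
    have := h (s0 + k) (Nat.le_add_right _ _)
    simp only [chk, List.all_eq_false, List.any_eq_true, mem_W, List.mem_range, not_exists,
      not_and] at this
    obtain ⟨τ, h1, h2⟩ := this
    refine ⟨fun i => (x ++ τ).getD i false, fun j hj => ?_⟩
    have e : pre (fun i => (x ++ τ).getD i false) j = (x ++ τ).take j := by
      rw [← take_pre _ (l := (x ++ τ).length) (by simp; omega), pre_getD]
    rw [e]
    exact ⟨List.prefix_or_prefix_of_prefix (List.take_prefix _ _) (List.prefix_append _ _),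
      h2 j (by omega)⟩
  refine ⟨ω, ?_, fun n => (hω n).2⟩
  rcases (hω x.length).1 with h | h
  · exact h.eq_of_length (by simp)
  · exact mem_cyl h

end Pool.Agent.H37.Defc
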