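import Pool.Agent.H37.Defc1

/-! A game forcing the two deficiencies to order two sequences in opposite ways. -/

set_option autoImplicit false

namespace Pool.Agent.H37.Defc

open MeasureTheory ProbabilityTheory Filter Rnd
open scoped ENNReal NNReal

def JJ (k : ℕ) : ℕ := 2 ^ (5 * k + 2)

def ys (k : ℕ) (p : ℕ × ℕ) : List Bool := (W (p.1 + JJ k + (5 * k + 2))).getD p.2 []

def stp (DP DE : ℕ × List Bool → Bool) (k s : ℕ) (p : ℕ × ℕ) : ℕ × ℕ :=
  bif chk DP (2 ^ (p.1 + JJ k)) (ys k p) s then (p.1, p.2 + 1) else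
    bif chk DE (2 ^ (p.1 + 2 * k + p.2)) (zs (p.1 + JJ k + 2 * k)) s then (p.1 + 1, 0) else p

def st (DP DE : ℕ × List Bool → Bool) (k : ℕ) : ℕ → ℕ × ℕ
  | 0 => (0, 0)
  | s + 1 => stp DP DE k s (st DP DE k s)

theorem ci_ys : CI ∅ fun q : ℕ × ℕ × ℕ => ys q.1 q.2 := by unfold ys JJ; fun_prop

theorem ci_st {DP DE : ℕ × List Bool → Bool} (hP : CI ∅ DP) (hE : CI ∅ DE) :
    CI ∅ fun q : ℕ × ℕ => st DP DE q.1 q.2 := by
  obtain ⟨c1, h1, e1⟩ : ∃ F : ℕ × List Bool × ℕ → Bool, CI ∅ F ∧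
    ∀ a b c, chk DP a b c = F (a, b, c) := ⟨_, ci_chk hP, fun _ _ _ => rfl⟩
  obtain ⟨c2, h2, e2⟩ : ∃ F : ℕ × List Bool × ℕ → Bool, CI ∅ F ∧
    ∀ a b c, chk DE a b c = F (a, b, c) := ⟨_, ci_chk hE, fun _ _ _ => rfl⟩
  obtain ⟨y, h3, e3⟩ : ∃ F : ℕ × ℕ × ℕ → List Bool, CI ∅ F ∧
    ∀ a b, ys a b = F (a, b) := ⟨_, ci_ys, fun _ _ => rfl⟩
  refine CI.of_rec (g := fun _ => (0, 0)) (h := fun k s p => stp DP DE k s p) (by fun_prop) ?_
    (fun _ => rfl) fun _ _ => rfl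
  simp only [stp, e1, e2, e3, JJ, zs]
  fun_prop

theorem length_W (j : ℕ) : (W j).length = 2 ^ j := by
  have := E_const j 1
  rw [E, div_eq_iff (by positivity)] at this
  simp only [List.map_const', List.sum_replicate, nsmul_eq_mul, mul_one, one_mul] at this
  exact_mod_cast this

theorem ys_lt {k : ℕ} {p : ℕ × ℕ} (h : p.2 ≤ JJ k) :
    p.2 < (W (p.1 + JJ k + (5 * k + 2))).length := by
  rw [length_W]
  refine lt_of_le_of_lt h (Nat.pow_lt_pow_right one_lt_two ?_)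
  have : 0 < JJ k := Nat.two_pow_pos _
  omega

theorem ys_len {k : ℕ} {p : ℕ × ℕ} (h : p.2 ≤ JJ k) :
    (ys k p).length = p.1 + JJ k + (5 * k + 2) := by
  rw [ys, List.getD_eq_getElem _ _ (ys_lt h)]
  exact mem_W.1 (List.getElem_mem _)

theorem pw (a b : ℕ) : (2 : ℝ≥0∞) ^ a * 2⁻¹ ^ (a + b) = 2⁻¹ ^ b := by
  rw [pow_add, ← mul_assoc, ← mul_pow, ENNReal.mul_inv_cancel (by simp) (by simp)]; simp

theorem phase_le {t : (ℕ → Bool) → ℝ≥0∞} (ht : PTest t) {k r j : ℕ} (hj : j ≤ JJ k)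
    (h : ∀ i < j + 1, ∀ ω ∈ cyl (ys k (r, i)), ((2 ^ (r + JJ k) : ℕ) : ℝ≥0∞) < t ω) :
    j + 1 ≤ JJ k := by
  have h1 : P (⋃ i ∈ Finset.range (j + 1), cyl (ys k (r, i))) ≤ 2⁻¹ ^ (r + JJ k) :=
    (measure_mono (Set.iUnion₂_subset fun i hi ω hω => h i (Finset.mem_range.1 hi) ω hω)).trans
      (ht.le _)
  have hl : ∀ i ∈ Finset.range (j + 1), (ys k (r, i)).length = r + JJ k + (5 * k + 2) :=
    fun i hi => ys_len (p := (r, i)) (by simp only [Finset.mem_range] at hi; omega)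
  have hne : ∀ a ∈ Finset.range (j + 1), ∀ b ∈ Finset.range (j + 1), a ≠ b →
      ¬ ys k (r, a) <+: ys k (r, b) := fun a ha b hb hab hp => by
    have := hp.eq_of_length (by rw [hl a ha, hl b hb])
    simp only [Finset.mem_range] at ha hb
    have ha' := ys_lt (k := k) (p := (r, a)) (by simp only; omega)
    have hb' := ys_lt (k := k) (p := (r, b)) (by simp only; omega)
    simp only [ys] at this
    rw [List.getD_eq_getElem _ _ ha', List.getD_eq_getElem _ _ hb'] at this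
    exact hab ((nodup_W _).getElem_inj_iff.1 this)
  rw [measure_biUnion_finset (fun a ha b hb hab => disj_cyl (hne a ha b hb hab)
    (hne b hb a ha hab.symm)) fun _ _ => meas_cyl _,
    Finset.sum_congr rfl fun i hi => by rw [P_cyl, hl i hi], Finset.sum_const, Finset.card_range,
    nsmul_eq_mul, ← pw (5 * k + 2) (r + JJ k), add_comm (5 * k + 2),
    ENNReal.mul_le_mul_iff_left (by simp) (by simp)] at h1
  unfold JJ
  exact_mod_cast h1

/-- the contribution of a position of the game -/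
noncomputable def term (k : ℕ) (p : ℕ × ℕ) : (ℕ → Bool) → ℝ≥0∞ :=
  (cyl (ys k p)).indicator fun _ => 2 ^ (p.1 + 4 * k + p.2)

theorem term_int {k : ℕ} {p : ℕ × ℕ} (h : p.2 ≤ JJ k) :
    ∫⁻ ω, term k p ω ∂P = 2 ^ p.2 * 2⁻¹ ^ (JJ k + k + 2) := by
  rw [term, lintegral_indicator_const (meas_cyl _), P_cyl, ys_len h,
    ← pw (p.1 + 4 * k) (JJ k + k + 2), pow_add _ _ p.2,
    show p.1 + 4 * k + (JJ k + k + 2) = p.1 + JJ k + (5 * k + 2) by ring]
  ring

theorem game {tE tP : (ℕ → Bool) → ℝ≥0∞} (hE : ETest tE) (hP : PTest tP)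
    {DP DE : ℕ × List Bool → Bool}
    (eP : ∀ (y : ℕ) ω, (y : ℝ≥0∞) < tP ω ↔ ∃ n, DP (y, pre ω n) = true)
    (eE : ∀ (y : ℕ) ω, (y : ℝ≥0∞) < tE ω ↔ ∃ n, DE (y, pre ω n) = true) (k : ℕ) :
    ∃ s0, (∀ s, s0 ≤ s → st DP DE k s = st DP DE k s0) ∧
      ∃ F : (ℕ → Bool) → ℝ≥0∞, Measurable F ∧ (∀ s, term k (st DP DE k s) ≤ F) ∧
        ∫⁻ ω, F ω ∂P ≤ 2⁻¹ ^ k * (∫⁻ ω, tE ω ∂P + 1) := by
  let I : ℕ → ℝ≥0∞ := fun r => ∫⁻ ω in cyl (zs (r + JJ k + 2 * k)), tE ω ∂P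
  have hI : ∀ r, ∑ i ∈ Finset.range r, I i ≤ ∫⁻ ω, tE ω ∂P := fun r => by
    rw [← lintegral_biUnion_finset (fun a _ b _ hab => disj_cyl (zs_not (by omega))
      (zs_not (by omega))) fun _ _ => meas_cyl _]
    exact setLIntegral_le_lintegral _ _
  have mt : ∀ p, Measurable (term k p) := fun p => measurable_const.indicator (meas_cyl _)
  have inv : ∀ s, (st DP DE k s).2 ≤ JJ k ∧
      (∀ i < (st DP DE k s).2, ∀ ω ∈ cyl (ys k ((st DP DE k s).1, i)),
        ((2 ^ ((st DP DE k s).1 + JJ k) : ℕ) : ℝ≥0∞) < tP ω) ∧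
      (st DP DE k s).1 * 2⁻¹ ^ (JJ k + 1) ≤ ∑ i ∈ Finset.range (st DP DE k s).1, I i ∧
      ∃ F : (ℕ → Bool) → ℝ≥0∞, Measurable F ∧ (∀ s' ≤ s, term k (st DP DE k s') ≤ F) ∧
        ∫⁻ ω, F ω ∂P ≤ 2⁻¹ ^ k * ∑ i ∈ Finset.range (st DP DE k s).1, I i +
          2 ^ ((st DP DE k s).2 + 1) * 2⁻¹ ^ (JJ k + k + 2) := by
    intro s
    induction s with
    | zero =>
      refine ⟨Nat.zero_le _, by simp [st], by simp [st], term k (0, 0), mt _, ?_, ?_⟩
      · intro s' hs'; obtain rfl := Nat.le_zero.1 hs'; exact le_rfl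
      · rw [term_int (Nat.zero_le _)]
        simp only [st, Finset.range_zero, Finset.sum_empty, mul_zero, zero_add]
        gcongr <;> simp
    | succ s ih =>
      obtain ⟨h1, h2, h3, F, h4, h5, h6⟩ := ih
      have add : ∀ s' ≤ s + 1, term k (st DP DE k s') ≤ F + term k (st DP DE k (s + 1)) :=
        fun s' hs' => by
          rcases hs'.eq_or_lt with rfl | h
          · exact le_add_self
          · exact (h5 s' (by omega)).trans le_self_add
      have hs : st DP DE k (s + 1) = stp DP DE k s (st DP DE k s) := rfl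
      generalize hp : st DP DE k s = p at *
      obtain ⟨r, j⟩ := p
      simp only [stp] at hs h1 h2 h3 h6
      cases a : chk DP (2 ^ (r + JJ k)) (ys k (r, j)) s
      · cases b : chk DE (2 ^ (r + 2 * k + j)) (zs (r + JJ k + 2 * k)) s
        · simp only [a, b, cond_false] at hs
          rw [hs]
          refine ⟨h1, h2, h3, F, h4, fun s' hs' => ?_, h6⟩
          rcases hs'.eq_or_lt with rfl | h
          · rw [hs, ← hp]; exact h5 s le_rfl
          · exact h5 s' (by omega)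
        · simp only [a, b, cond_false, cond_true] at hs
          rw [hs] at add ⊢
          have hb : 2 ^ j * 2⁻¹ ^ (JJ k + 1) ≤ I r := by
            refine le_trans (le_of_eq ?_) (setLIntegral_mono' (f := fun _ => 2 ^ (r + 2 * k + j))
              (meas_cyl _) fun ω hω => ?_)
            · rw [setLIntegral_const, P_cyl, ← pw (r + 2 * k) (JJ k + 1), pow_add _ _ j]
              simp only [zs, List.length_append, List.length_replicate, List.length_singleton]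
              rw [show r + 2 * k + (JJ k + 1) = r + JJ k + 2 * k + 1 by ring]
              ring
            · simpa using ((eE _ ω).2 (chk_sound b hω)).le
          refine ⟨Nat.zero_le _, by simp, ?_, _, h4.add (mt _), add, ?_⟩
          · simp only [Finset.sum_range_succ, Nat.cast_add, Nat.cast_one, add_mul]
            exact add_le_add h3 (le_trans (by gcongr; exact one_le_pow₀ one_le_two) hb)
          · simp only [Pi.add_apply, Finset.sum_range_succ]
            rw [lintegral_add_left h4, term_int (Nat.zero_le _), mul_add]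
            refine add_le_add (h6.trans (add_le_add le_rfl (le_trans (le_of_eq ?_)
              (mul_le_mul_right hb _)))) (by gcongr <;> simp)
            have := pw 1 (JJ k + k + 1)
            rw [show 1 + (JJ k + k + 1) = JJ k + k + 2 by ring] at this
            rw [pow_add _ j, mul_assoc, this]; ring
      · simp only [a, cond_true] at hs
        rw [hs] at add ⊢
        have h7 : ∀ i < j + 1, ∀ ω ∈ cyl (ys k (r, i)),
            ((2 ^ (r + JJ k) : ℕ) : ℝ≥0∞) < tP ω := fun i hi ω hω => by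
          rcases (Nat.lt_succ_iff.1 hi).eq_or_lt with rfl | h
          · exact (eP _ ω).2 (chk_sound a hω)
          · exact h2 i h ω hω
        have h8 := phase_le hP h1 h7
        refine ⟨h8, h7, h3, _, h4.add (mt _), add, ?_⟩
        simp only [Pi.add_apply]
        rw [lintegral_add_left h4, term_int (p := (r, j + 1)) h8]
        refine (add_le_add h6 le_rfl).trans (le_of_eq ?_)
        ring
  obtain ⟨R, hR⟩ := ENNReal.exists_nat_gt
    (ENNReal.mul_ne_top (a := 2 ^ (JJ k + 1)) (by simp) hE.2.ne)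
  let rk : ℕ → ℕ := fun s => (st DP DE k s).1 * (JJ k + 1) + (st DP DE k s).2
  have bd : ∀ s, rk s ≤ R * (JJ k + 1) + JJ k := fun s => by
    have h1 := mul_le_mul_right ((inv s).2.2.1.trans (hI _)) (2 ^ (JJ k + 1))
    rw [mul_left_comm, show (2⁻¹ : ℝ≥0∞) ^ (JJ k + 1) = 2⁻¹ ^ (JJ k + 1 + 0) from rfl, pw,
      pow_zero, mul_one] at h1
    have h2 : (st DP DE k s).1 ≤ R := by exact_mod_cast h1.trans hR.le
    exact add_le_add (Nat.mul_le_mul_right _ h2) (inv s).1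
  obtain ⟨s0, hs0⟩ : ∃ s0, ∀ s, rk s ≤ rk s0 := by
    obtain ⟨_, ⟨s0, rfl⟩, h⟩ := (Set.range_nonempty rk).csSup_mem
      ((Set.finite_Iic _).subset (Set.range_subset_iff.2 bd)) |> fun h => (⟨_, h, rfl⟩ :
        ∃ m ∈ Set.range rk, m = sSup (Set.range rk))
    exact ⟨s0, fun s => h ▸ le_csSup ⟨_, Set.forall_mem_range.2 bd⟩ ⟨s, rfl⟩⟩
  have cst : ∀ s, s0 ≤ s → st DP DE k s = st DP DE k s0 := by
    intro s hs
    induction s, hs using Nat.le_induction with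
    | base => rfl
    | succ s hs ih =>
      have h1 := hs0 (s + 1)
      have h2 := (inv s0).1
      simp only [rk, st, ih, stp] at h1 ⊢
      revert h1
      cases chk DP _ _ s
      · cases chk DE _ _ s
        · simp
        · simp only [cond_false, cond_true]; intro h; nlinarith
      · simp only [cond_true]; omega
  obtain ⟨h1, -, -, F, h2, h3, h4⟩ := inv s0
  refine ⟨s0, cst, F, h2, fun s => ?_, h4.trans ?_⟩
  · rcases le_total s s0 with h | h
    · exact h3 s h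
    · rw [cst s h]; exact h3 s0 le_rfl
  · rw [mul_add, mul_one]
    refine add_le_add (mul_le_mul_right (hI _) _) ?_
    rw [← pw (JJ k + 2) k, show JJ k + 2 + k = JJ k + k + 2 by ring]
    gcongr
    · exact one_le_two
    · omega

theorem opp {tE tP : (ℕ → Bool) → ℝ≥0∞} (hE : Univ ETest tE) (hP : Univ PTest tP) (c : ℕ) :
    ∃ ω₁ ω₂, tP ω₁ ≠ ∞ ∧ tE ω₂ ≠ ∞ ∧ 2 ^ c * tE ω₂ ≤ tE ω₁ ∧ 2 ^ c * tP ω₁ ≤ tP ω₂ := by
  obtain ⟨DP, cP, eP⟩ := hP.1.1.dec
  obtain ⟨DE, cE, eE⟩ := hE.1.1.dec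
  choose s0 hs0 F hF1 hF2 hF3 using game hE.1 hP.1 eP eE
  obtain ⟨S, hS, eS⟩ : ∃ F : ℕ × ℕ → ℕ × ℕ, CI ∅ F ∧ ∀ a b, st DP DE a b = F (a, b) :=
    ⟨_, ci_st cP cE, fun _ _ => rfl⟩
  obtain ⟨y, hy, ey⟩ : ∃ F : ℕ × ℕ × ℕ → List Bool, CI ∅ F ∧
    ∀ a b, ys a b = F (a, b) := ⟨_, ci_ys, fun _ _ => rfl⟩
  let g : List Bool → ℕ := fun x => ((List.range x.length).map fun i =>
    bif x.take (y (i.unpair.1, S i.unpair)).length == y (i.unpair.1, S i.unpair) then
      2 ^ ((S i.unpair).1 + 4 * i.unpair.1 + (S i.unpair).2) else 0).foldr max 0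
  have hg : CI ∅ g := by simp only [g]; fun_prop
  have fm : ∀ (l : List ℕ) (b : ℝ≥0∞), ((l.foldr max 0 : ℕ) : ℝ≥0∞) ≤ b ↔
      ∀ a ∈ l, (a : ℝ≥0∞) ≤ b := fun l b => by
    induction l with
    | nil => simp
    | cons a l ih =>
      rw [List.foldr_cons, (Nat.mono_cast (α := ℝ≥0∞)).map_max, max_le_iff, ih]; simp
  have hle : ∀ ω, ⨆ n, (g (pre ω n) : ℝ≥0∞) ≤ ∑' k, F k ω := fun ω => iSup_le fun n => by
    simp only [g, fm, List.forall_mem_map, ← eS, ← ey]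
    intro i _
    refine le_trans ?_ ((hF2 i.unpair.1 i.unpair.2 ω).trans (ENNReal.le_tsum _))
    rw [eS]
    cases h : (pre ω n).take (ys i.unpair.1 (S i.unpair)).length == ys i.unpair.1 (S i.unpair)
    · simp
    · rw [term, Set.indicator_of_mem (mem_cyl (n := n) (List.prefix_iff_eq_take.2
        (beq_iff_eq.1 h).symm))]
      simp
  obtain ⟨c1, h1⟩ := hE.2 _ ⟨lsc_nat hg, by
    refine lt_of_le_of_lt (lintegral_mono hle) ?_
    rw [lintegral_tsum fun k => (hF1 k).aemeasurable]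
    refine lt_of_le_of_lt (ENNReal.tsum_le_tsum hF3) ?_
    rw [ENNReal.tsum_mul_right]
    exact ENNReal.mul_lt_top (by simp) (by simpa using hE.1.2)⟩
  obtain ⟨c2, h2⟩ := hP.2 _ P_lead
  obtain ⟨k0, hk0⟩ := pow_unbounded_of_one_lt (c1 + c2) one_lt_two
  obtain ⟨k, hk⟩ : ∃ k, k = k0 + c := ⟨_, rfl⟩
  have hc : ∀ x : ℝ≥0, x ≤ c1 + c2 → (x : ℝ≥0∞) ≤ 2 ^ k := fun x hx => by
    have : x ≤ 2 ^ k := hx.trans (hk0.le.trans (pow_le_pow_right₀ one_le_two (by omega)))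
    exact_mod_cast this
  have stay : ∀ s, s0 k ≤ s → stp DP DE k s (st DP DE k (s0 k)) = st DP DE k (s0 k) :=
    fun s hs => by rw [← hs0 k s hs, ← st, hs0 k s hs, hs0 k (s + 1) (by omega)]
  have hst := eS k (s0 k)
  generalize st DP DE k (s0 k) = p at stay hst
  obtain ⟨r, j⟩ := p
  have a1 : ∀ s, s0 k ≤ s → chk DP (2 ^ (r + JJ k)) (ys k (r, j)) s = false := fun s hs => by
    have := stay s hs
    by_contra h
    simp [stp, Bool.not_eq_false _ ▸ h] at this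
  have a2 : ∀ s, s0 k ≤ s →
      chk DE (2 ^ (r + 2 * k + j)) (zs (r + JJ k + 2 * k)) s = false := fun s hs => by
    have := stay s hs
    by_contra h
    simp [stp, a1 s hs, Bool.not_eq_false _ ▸ h] at this
  obtain ⟨ω₁, b1, b2⟩ := chk_compl a1
  obtain ⟨ω₂, b3, b4⟩ := chk_compl a2
  have b5 : tP ω₁ ≤ 2 ^ (r + JJ k) := by simpa using mt (eP _ ω₁).1 (not_exists.2 b2)
  have b6 : tE ω₂ ≤ 2 ^ (r + 2 * k + j) := by simpa using mt (eE _ ω₂).1 (not_exists.2 b4)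
  have canc : ∀ (a : ℕ) (x : ℝ≥0) (u v : ℝ≥0∞), x ≤ c1 + c2 → v ≤ 2 ^ a →
      2 ^ (a + 2 * k) ≤ x * u → 2 ^ c * v ≤ u := fun a x u v hx hv h => by
    rw [← ENNReal.mul_le_mul_iff_right (a := 2 ^ k) (by simp) (by simp)]
    refine le_trans ?_ (h.trans (mul_le_mul_left (hc x hx) _))
    calc _ ≤ (2 : ℝ≥0∞) ^ k * (2 ^ k * 2 ^ a) := by
          gcongr
          · exact one_le_two
          · omega
      _ = _ := by ring
  refine ⟨ω₁, ω₂, ne_top_of_le_ne_top (by simp) b5, ne_top_of_le_ne_top (by simp) b6,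
    canc _ c1 _ _ le_self_add b6 (le_trans ?_ (h1 ω₁)),
    canc _ c2 _ _ le_add_self b5 ((lead_ge b3).trans (h2 ω₂))⟩
  refine le_iSup_of_le (Nat.pair k (s0 k) + 1 + (ys k (r, j)).length) ?_
  refine le_trans (le_of_eq ?_) ((fm _ _).1 le_rfl _ (List.mem_map_of_mem
    (a := Nat.pair k (s0 k)) (by simp only [length_pre, List.mem_range]; omega)))
  simp only [Nat.unpair_pair, ← hst, ← ey]
  rw [take_pre _ (Nat.le_add_left _ _), show pre ω₁ (ys k (r, j)).length = _ from b1]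
  simp only [beq_self_eq_true, cond_true]
  push_cast
  ring

theorem dfc_le {t : (ℕ → Bool) → ℝ≥0∞} {a b : ℕ → Bool} {c : ℝ} {k : ℕ} (hc : c ≤ k)
    (h0 : t a ≠ 0) (h1 : t b ≠ ∞) (h : 2 ^ k * t a ≤ t b) : dfc t a + c ≤ dfc t b := by
  have ha : t a ≠ ∞ := fun e => h1 (by simpa [e] using h)
  have h2 := ENNReal.toReal_mono h1 h
  have h3 := ENNReal.toReal_pos h0 ha
  simp only [ENNReal.toReal_mul, ENNReal.toReal_pow, ENNReal.toReal_ofNat] at h2
  have := Real.logb_le_logb_of_le one_lt_two (by positivity) h2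
  rw [Real.logb_mul (by positivity) h3.ne', Real.logb_pow, Real.logb_self_eq_one one_lt_two] at this
  unfold dfc
  linarith

theorem opposite {tE tP : (ℕ → Bool) → ℝ≥0∞} (hE : Univ ETest tE) (hP : Univ PTest tP) (c : ℝ) :
    ∃ ω₁ ω₂, MLRandom ω₁ ∧ MLRandom ω₂ ∧ (∀ ω ∈ [ω₁, ω₂], ∀ t ∈ [tE, tP], 0 < t ω ∧ t ω < ∞) ∧
      dfc tE ω₂ + c ≤ dfc tE ω₁ ∧ dfc tP ω₁ + c ≤ dfc tP ω₂ := by
  obtain ⟨k, hk⟩ := exists_nat_ge c
  obtain ⟨ω₁, ω₂, h1, h2, h3, h4⟩ := opp hE hP k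
  have h5 := E_fin hE.1 hP h1
  have h6 := fin_of_ml hP.1 (ml_of hE h2)
  have e0 := pos_of hE E_one
  have p0 := pos_of hP P_one
  refine ⟨ω₁, ω₂, ml_of hE h5, ml_of hE h2, ?_, dfc_le hk (e0 _) h5 h3, dfc_le hk (p0 _) h6 h4⟩
  simp [pos_iff_ne_zero, lt_top_iff_ne_top, *]

end Pool.Agent.H37.Defc
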