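import Mathlib

/-! Rigidity of three-dimensional realizers for a generic point set with one floating element. -/

set_option autoImplicit false

namespace Pool.Agent.H37.Dim

open Filter

abbrev V := Fin 3 → ℝ

def lo (c : ℕ → V) : ℕ → V
  | 0 => ![1, 1, 1]
  | n + 1 => c n

def hi (c : ℕ → V) : ℕ → V
  | 0 => ![2, 2, 1]
  | n + 1 => c n

/-- the relation of `x` to a point of `S` does not depend on the point -/
def AlV (S : Set V) (x : V) : Prop :=
  ((∀ i, x i < ![1, 1, 1] i) ∨ ∀ w ∈ S, ¬ ∀ i, x i < w i) ∧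
    ((∀ i, ![2, 2, 1] i < x i) ∨ ∀ w ∈ S, ¬ ∀ i, w i < x i)

def InA (c : ℕ → V) (Z : ℕ → Set V) (a : ℕ) : Prop := ∀ n, a = n + 1 → AlV (Z n) (c n)

def Rl (c : ℕ → V) (Z : ℕ → Set V) (a b : ℕ) : Prop :=
  InA c Z a ∧ InA c Z b ∧ (a = b ∨ ∀ i, hi c a i < lo c b i)

structure Gd (c : ℕ → V) (Z : ℕ → Set V) : Prop where
  dense : ∀ (s t : V) (M : ℕ), (∀ i, 0 ≤ s i) → (∀ i, s i < t i) →
    ∃ n, M ≤ n ∧ ∀ i, s i < c n i ∧ c n i < t i
  pos : ∀ n i, 0 < c n i
  ne : ∀ n, c n 2 ≠ 1
  sub : ∀ k, ∀ w ∈ Z k, w 0 + w 1 = 3 ∧ w 2 = 1 ∧ 1 ≤ w 0 ∧ 1 ≤ w 1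
  anti : Antitone Z
  nd : ∀ s t : ℝ, s < t → ∃ s' t', s < s' ∧ s' < t' ∧ t' < t ∧ ∀ w ∈ Z 0, w 0 ≤ s' ∨ t' ≤ w 0

structure Re (c : ℕ → V) (Z : ℕ → Set V) (L : Fin 3 → ℕ → ℕ → Prop) : Prop where
  tot : ∀ i a b, InA c Z a → InA c Z b → L i a b ∨ L i b a
  tr : ∀ i a b d, L i a b → L i b d → L i a d
  as : ∀ i a b, L i a b → L i b a → a = b
  eq : ∀ a b, InA c Z a → InA c Z b → (Rl c Z a b ↔ ∀ i, L i a b)

variable {c : ℕ → V} {Z : ℕ → Set V} {L : Fin 3 → ℕ → ℕ → Prop}

theorem in0 : InA c Z 0 := fun _ h => by simp at h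

theorem inS {n : ℕ} : InA c Z (n + 1) ↔ AlV (Z n) (c n) :=
  ⟨fun h => h n rfl, fun h m e => by obtain rfl : n = m := by omega
                                     exact h⟩

theorem lo_le (a : ℕ) (i : Fin 3) : lo c a i ≤ hi c a i := by
  cases a
  · fin_cases i <;> simp [lo, hi]
  · rfl

theorem Gd.lo_pos (h : Gd c Z) (a : ℕ) (i : Fin 3) : 0 < lo c a i := by
  cases a
  · fin_cases i <;> simp [lo]
  · exact h.pos _ _

theorem Gd.bd (h : Gd c Z) {k : ℕ} {w : V} (hw : w ∈ Z k) (i : Fin 3) :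
    ![1, 1, 1] i ≤ w i ∧ w i ≤ ![2, 2, 1] i := by
  obtain ⟨h1, h2, h3, h4⟩ := h.sub k w hw
  fin_cases i <;> simp <;> (try constructor) <;> linarith

theorem Gd.al_ext (h : Gd c Z) {k : ℕ} {x : V} (hx : ∀ i, x i < ![1, 1, 1] i ∨ ![2, 2, 1] i < x i) :
    AlV (Z k) x := by
  constructor <;> rw [or_iff_not_imp_left, not_forall] <;> rintro ⟨i, hi⟩ w hw h'
  · exact absurd (((hx i).resolve_left hi).trans (h' i)) (not_lt.2 (h.bd hw i).2)
  · exact absurd ((h' i).trans ((hx i).resolve_right hi)) (not_lt.2 (h.bd hw i).1)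

theorem Gd.ex (h : Gd c Z) (s t : V) (k : ℕ) (h1 : ∀ i, 0 ≤ s i) (h2 : ∀ i, s i < t i)
    (h3 : ∀ x : V, (∀ i, s i < x i ∧ x i < t i) → AlV (Z k) x) :
    ∃ n, InA c Z (n + 1) ∧ ∀ i, s i < c n i ∧ c n i < t i := by
  obtain ⟨n, hn, h4⟩ := h.dense s t k h1 h2
  exact ⟨n, inS.2 ⟨(h3 _ h4).1.imp_right fun h' w hw => h' w (h.anti hn hw),
    (h3 _ h4).2.imp_right fun h' w hw => h' w (h.anti hn hw)⟩, h4⟩

theorem Re.of_lt (r : Re c Z L) {a b : ℕ} (ha : InA c Z a) (hb : InA c Z b)
    (h : ∀ i, hi c a i < lo c b i) (i : Fin 3) : L i a b :=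
  (r.eq a b ha hb).1 ⟨ha, hb, Or.inr h⟩ i

theorem Re.ex_not (r : Re c Z L) {a b : ℕ} (ha : InA c Z a) (hb : InA c Z b) {i : Fin 3}
    (h : hi c b i < lo c a i) : ∃ j, ¬ L j a b := by
  rw [← not_forall, ← r.eq a b ha hb]
  rintro ⟨-, -, rfl | h'⟩
  · exact absurd h (not_lt.2 (lo_le _ _))
  · linarith [h' i, lo_le (c := c) a i, lo_le (c := c) b i]

theorem Re.flip (r : Re c Z L) {a b : ℕ} (ha : InA c Z a) (hb : InA c Z b) {i i' : Fin 3}
    (h : hi c b i' < lo c a i') (h' : ∀ j, j ≠ i → L j a b) : L i b a := by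
  obtain ⟨j, hj⟩ := r.ex_not ha hb h
  obtain rfl : j = i := by_contra fun e => hj (h' j e)
  exact (r.tot _ _ _ ha hb).resolve_left hj

/-- the orders see their coordinate at the extremes -/
def Ext (c : ℕ → V) (Z : ℕ → Set V) (L : Fin 3 → ℕ → ℕ → Prop) (T : ℕ) : Prop :=
  ∀ j a b, InA c Z a → InA c Z b → hi c a j < 1 / (T + 2) → (∀ k, hi c a k < T + 3) →
    T + 3 < lo c b j → (∀ k, 1 / (T + 2) < lo c b k) → L j a b

theorem Re.perm (r : Re c Z L) (π : Equiv.Perm (Fin 3)) : Re c Z fun i => L (π i) :=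
  ⟨fun _ => r.tot _, fun _ => r.tr _, fun _ => r.as _, fun a b ha hb =>
    (r.eq a b ha hb).trans (π.forall_congr_right (q := fun i => L i a b)).symm⟩

theorem norm (h : Gd c Z) (r : Re c Z L) :
    ∃ π : Equiv.Perm (Fin 3), ∃ᶠ T in atTop, Ext c Z (fun i => L (π i)) T := by
  have key : ∀ T : ℕ, ∃ π : Equiv.Perm (Fin 3), Ext c Z (fun i => L (π i)) T := fun T => by
    have e0 : (0 : ℝ) < 1 / (T + 2) := by positivity
    have e1 : (1 : ℝ) / (T + 2) ≤ 1 / 2 := by gcongr; linarith [Nat.cast_nonneg (α := ℝ) T]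
    have e2 : (0 : ℝ) ≤ T := Nat.cast_nonneg T
    generalize hε : (1 : ℝ) / (T + 2) = ε at e0 e1
    choose a ha ha' using fun i : Fin 3 => h.ex (fun k => if k = i then T + 2 else 0)
      (fun k => if k = i then T + 3 else ε) 0 (fun k => by split_ifs <;> linarith)
      (fun k => by split_ifs <;> linarith) fun x hx => h.al_ext fun k => by
        have := hx k
        split_ifs at this
        · right; fin_cases k <;> simp at this ⊢ <;> linarith
        · left; fin_cases k <;> simp at this ⊢ <;> linarith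
    choose b hb hb' using fun i : Fin 3 => h.ex (fun k => if k = i then ε else T + 3)
      (fun k => if k = i then 2 * ε else T + 4) 0 (fun k => by split_ifs <;> linarith)
      (fun k => by split_ifs <;> linarith) fun x hx => h.al_ext fun k => by
        have := hx k
        split_ifs at this
        · left; fin_cases k <;> simp at this ⊢ <;> linarith
        · right; fin_cases k <;> simp at this ⊢ <;> linarith
    choose m hm using fun i => r.ex_not (ha i) (hb i) (i := i) (by
      have := (ha' i i).1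
      have := (hb' i i).2
      simp only [lo, hi, if_true] at *
      linarith)
    have hm' := fun i => (r.tot (m i) _ _ (ha i) (hb i)).resolve_left (hm i)
    have hab : ∀ i j, i ≠ j → ∀ l, L l (a i + 1) (b j + 1) := fun i j hij =>
      r.of_lt (ha i) (hb j) fun k => by
        have h1 := (ha' i k).2
        have h2 := (hb' j k).1
        simp only [lo, hi]
        split_ifs at h1 h2 with h3 h4 <;> first | linarith | exact absurd (h3.symm.trans h4) hij
    have inj : Function.Injective m := fun i j e => by_contra fun hij =>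
      hm i (r.tr _ _ _ _ (hab i j hij _) (r.tr _ _ _ _ (e ▸ hm' j) (hab j i (Ne.symm hij) _)))
    refine ⟨Equiv.ofBijective m (Finite.injective_iff_bijective.1 inj),
      fun j x y hx hy h1 h2 h3 h4 => r.tr _ _ _ _ (r.of_lt hx (hb j) (fun k => ?_) _)
        (r.tr _ _ _ _ (hm' j) (r.of_lt (ha j) hy (fun k => ?_) _))⟩
    · have := (hb' j k).1
      simp only [lo]
      split_ifs at this with e
      · subst e; linarith
      · linarith [h2 k]
    · have := (ha' j k).2
      simp only [hi]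
      split_ifs at this with e
      · subst e; linarith
      · linarith [h4 k]
  by_contra hc
  simp only [not_exists, not_frequently] at hc
  obtain ⟨T, hT⟩ := (eventually_all.2 hc).exists
  obtain ⟨π, hπ⟩ := key T
  exact hT π hπ

section
variable (h : Gd c Z) (r : Re c Z L) (e : ∃ᶠ T in atTop, Ext c Z L T)
include h r e

theorem far {a b : ℕ} (ha : InA c Z a) (hb : InA c Z b) {i : Fin 3} (h1 : hi c a i < lo c b i)
    (h2 : ![2, 2, 1] i < lo c b i ∨ hi c a i < ![1, 1, 1] i) : L i a b := by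
  obtain ⟨s, t, hs, hst, ht, h3⟩ : ∃ s t, hi c a i ≤ s ∧ s < t ∧ t ≤ lo c b i ∧
      (![2, 2, 1] i ≤ s ∨ t ≤ ![1, 1, 1] i) := by
    rcases h2 with h2 | h2
    · exact ⟨_, _, le_max_left _ _, max_lt h1 h2, le_rfl, Or.inl (le_max_right _ _)⟩
    · exact ⟨_, _, le_rfl, lt_min h1 h2, min_le_left _ _, Or.inr (min_le_right _ _)⟩
  have s0 : 0 < s := ((h.lo_pos a i).trans_le (lo_le a i)).trans_le hs
  have t1 : ∀ x : ℝ, 0 < x → ∀ᶠ T : ℕ in atTop, 1 / ((T : ℝ) + 2) < x := fun x hx =>
    ((tendsto_atTop_add_const_right _ 2 tendsto_natCast_atTop_atTop).const_div_atTop 1).eventually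
      (gt_mem_nhds hx)
  have t2 : ∀ x : ℝ, ∀ᶠ T : ℕ in atTop, x < (T : ℝ) + 3 := fun x =>
    (tendsto_atTop_add_const_right _ 3 tendsto_natCast_atTop_atTop).eventually_gt_atTop x
  obtain ⟨T, hT, ⟨u1, u2⟩, u3, u4, u5⟩ := (e.and_eventually (((t1 s s0).and (t2 t)).and
    ((eventually_all.2 fun k => t1 _ (h.lo_pos b k)).and ((eventually_all.2 fun k =>
      t2 (hi c a k)).and (t1 1 one_pos))))).exists
  have e0 : (0 : ℝ) < 1 / (T + 2) := by positivity
  have e2 : (0 : ℝ) ≤ T := Nat.cast_nonneg T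
  obtain ⟨B, hB, hB'⟩ := h.ex (fun k => if k = i then s else T + 3)
    (fun k => if k = i then (s + t) / 2 else T + 4) 0 (fun k => by split_ifs <;> linarith)
    (fun k => by split_ifs <;> linarith) fun x hx => h.al_ext fun k => by
      have := hx k
      split_ifs at this with e
      · subst e; exact h3.symm.imp (fun _ => by linarith) fun _ => by linarith
      · right; fin_cases k <;> simp at this ⊢ <;> linarith
  obtain ⟨A, hA, hA'⟩ := h.ex (fun k => if k = i then (s + t) / 2 else 0)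
    (fun k => if k = i then t else 1 / (T + 2)) 0 (fun k => by split_ifs <;> linarith)
    (fun k => by split_ifs <;> linarith) fun x hx => h.al_ext fun k => by
      have := hx k
      split_ifs at this with e
      · subst e; exact h3.symm.imp (fun _ => by linarith) fun _ => by linarith
      · left; have := this.2.trans u5; fin_cases k <;> simpa
  refine r.tr _ _ _ _ (r.of_lt ha hB (fun k => ?_) _) (r.tr _ _ _ _
    (r.flip hA hB (i' := i) ?_ fun j hj => hT j _ _ hA hB ?_ (fun k => ?_) ?_ fun k => ?_)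
    (r.of_lt hA hb (fun k => ?_) _))
  · have := (hB' k).1
    simp only [lo]
    split_ifs at this with e
    · subst e; linarith
    · linarith [u4 k]
  · have := (hB' i).2
    have := (hA' i).1
    simp only [lo, hi, if_true] at *
    linarith
  · simpa [hj, hi] using (hA' j).2
  · have := (hA' k).2
    simp only [hi]
    split_ifs at this <;> linarith
  · simpa [hj, lo] using (hB' j).1
  · have := (hB' k).1
    simp only [lo]
    split_ifs at this <;> linarith
  · have := (hA' k).2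
    simp only [hi]
    split_ifs at this with e
    · subst e; linarith
    · linarith [u3 k]

theorem far2 {a b : ℕ} (ha : InA c Z a) (hb : InA c Z b) (h1 : hi c a 2 < lo c b 2) : L 2 a b :=
  far h r e ha hb h1 (by
    simp only [Matrix.cons_val]
    exact (lt_or_ge 1 (lo c b 2)).imp_right h1.trans_le)

end

end Pool.Agent.H37.Dim
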