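import Pool.Agent.H37.Dim1

/-! The realizers are the coordinate orders; the position of the floating element. -/

set_option autoImplicit false

namespace Pool.Agent.H37.Dim

open Filter

variable {c : ℕ → V} {Z : ℕ → Set V} {L : Fin 3 → ℕ → ℕ → Prop} {i i' : Fin 3}

/-- the two symmetric coordinates -/
def Op (i i' : Fin 3) : Prop := (i = 0 ∧ i' = 1) ∨ (i = 1 ∧ i' = 0)

theorem Op.symm (o : Op i i') : Op i' i := (Or.symm o).imp And.symm And.symm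

theorem Op.all (o : Op i i') {p : Fin 3 → Prop} : (∀ j, p j) ↔ p i ∧ p i' ∧ p 2 := by
  rcases o with ⟨rfl, rfl⟩ | ⟨rfl, rfl⟩ <;> simp [Fin.forall_fin_succ]
  tauto

theorem Op.oth (o : Op i i') {p : Fin 3 → Prop} (h1 : p i') (h2 : p 2) (j : Fin 3) (h : j ≠ i) :
    p j := o.all (p := fun j => j ≠ i → p j).2 ⟨fun h => absurd rfl h, fun _ => h1, fun _ => h2⟩ j h

theorem Op.one (o : Op i i') : (![1, 1, 1] : V) i = 1 ∧ (![2, 2, 1] : V) i = 2 := by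
  rcases o with ⟨rfl, rfl⟩ | ⟨rfl, rfl⟩ <;> simp

theorem Gd.sum (h : Gd c Z) (o : Op i i') {k : ℕ} {w : V} (hw : w ∈ Z k) : w i + w i' = 3 := by
  rcases o with ⟨rfl, rfl⟩ | ⟨rfl, rfl⟩ <;> linarith [(h.sub k w hw).1]

theorem Gd.ex3 (h : Gd c Z) (o : Op i i') (k : ℕ) {s t s' t' s'' t'' : ℝ} (h0 : 0 ≤ s) (h1 : s < t)
    (h0' : 0 ≤ s') (h1' : s' < t') (h0'' : 0 ≤ s'') (h1'' : s'' < t'')
    (h3 : ∀ x : V, s < x i → x i < t → s' < x i' → x i' < t' → s'' < x 2 → x 2 < t'' →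
      AlV (Z k) x) : ∃ n, InA c Z (n + 1) ∧ (s < c n i ∧ c n i < t) ∧ (s' < c n i' ∧ c n i' < t') ∧
      s'' < c n 2 ∧ c n 2 < t'' := by
  rcases o with ⟨rfl, rfl⟩ | ⟨rfl, rfl⟩
  · obtain ⟨n, hn, h4⟩ := h.ex ![s, s', s''] ![t, t', t''] k (by simp [Fin.forall_fin_succ, *])
      (by simp [Fin.forall_fin_succ, *]) fun x hx =>
        h3 x (hx 0).1 (hx 0).2 (hx 1).1 (hx 1).2 (hx 2).1 (hx 2).2
    exact ⟨n, hn, h4 0, h4 1, h4 2⟩
  · obtain ⟨n, hn, h4⟩ := h.ex ![s', s, s''] ![t', t, t''] k (by simp [Fin.forall_fin_succ, *])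
      (by simp [Fin.forall_fin_succ, *]) fun x hx =>
        h3 x (hx 1).1 (hx 1).2 (hx 0).1 (hx 0).2 (hx 2).1 (hx 2).2
    exact ⟨n, hn, h4 1, h4 0, h4 2⟩

theorem Gd.alP (h : Gd c Z) (o : Op i i') {k : ℕ} {x : V} (h1 : x 2 < 1)
    (h2 : ∀ w ∈ Z k, x i < w i → 3 - x i' ≤ w i) : AlV (Z k) x :=
  ⟨Or.inr fun w hw h' => by linarith [h2 w hw (h' i), h' i', h.sum o hw],
    Or.inr fun w hw h' => by linarith [h' 2, (h.sub k w hw).2.1]⟩

theorem Gd.alQ (h : Gd c Z) (o : Op i i') {k : ℕ} {x : V} (h1 : 1 < x 2)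
    (h2 : ∀ w ∈ Z k, w i < x i → w i ≤ 3 - x i') : AlV (Z k) x :=
  ⟨Or.inr fun w hw h' => by linarith [h' 2, (h.sub k w hw).2.1],
    Or.inr fun w hw h' => by linarith [h2 w hw (h' i), h' i', h.sum o hw]⟩

theorem Gd.bd' (h : Gd c Z) (o : Op i i') {k : ℕ} {w : V} (hw : w ∈ Z k) : 1 ≤ w i ∧ w i ≤ 2 := by
  simpa only [o.one] using h.bd hw i

theorem Gd.gap (h : Gd c Z) (o : Op i i') {s t : ℝ} (hst : s < t) :
    ∃ s' t', s < s' ∧ s' < t' ∧ t' < t ∧ ∀ w ∈ Z 0, w i ≤ s' ∨ t' ≤ w i := by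
  rcases id o with ⟨rfl, rfl⟩ | ⟨rfl, rfl⟩
  · exact h.nd s t hst
  · obtain ⟨s', t', h1, h2, h3, h4⟩ := h.nd (3 - t) (3 - s) (by linarith)
    exact ⟨3 - t', 3 - s', by linarith, by linarith, by linarith, fun w hw =>
      (h4 w hw).symm.imp (fun _ => by linarith [h.sum o hw]) fun _ => by linarith [h.sum o hw]⟩

variable (h : Gd c Z) (r : Re c Z L) (e : ∃ᶠ T in atTop, Ext c Z L T)
include h r e

theorem pp (o : Op i i') {n m : ℕ} (hn : InA c Z (n + 1)) (hm : InA c Z (m + 1)) (h1 : c n 2 < 1)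
    (h2 : c m 2 < 1) (h3 : c n i < c m i) : L i (n + 1) (m + 1) := by
  have p1 := h.pos n i'
  have p2 := h.pos m i'
  obtain ⟨u, hu, u1, u2, u3⟩ := h.ex3 o 0 (h.pos n i).le h3 (s' := c n i' + c m i' + 2)
    (by linarith) (lt_add_one _) (le_max_of_le_left (h.pos n 2).le) (max_lt h1 h2)
    fun x _ _ _ _ _ _ => h.alP o (by assumption) fun w hw _ => by linarith [h.bd' o hw]
  rw [max_lt_iff] at u3
  exact r.tr _ _ _ _ (r.of_lt hn hu (o.all.2 ⟨u1.1, by simp only [lo, hi]; linarith, u3.1.1⟩) _)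
    (r.flip hm hu (i' := i) u1.2 (o.oth (far h r e hm hu (by simp only [lo, hi]; linarith)
      (Or.inl (by simp only [lo, o.symm.one]; linarith))) (far2 h r e hm hu u3.1.2)))

theorem qq (o : Op i i') {n m : ℕ} (hn : InA c Z (n + 1)) (hm : InA c Z (m + 1)) (h1 : 1 < c n 2)
    (h2 : 1 < c m 2) (h3 : c n i < c m i) : L i (n + 1) (m + 1) := by
  obtain ⟨u, hu, u1, u2, u3⟩ := h.ex3 o 0 (h.pos n i).le h3 le_rfl
    (lt_min one_pos (lt_min (h.pos n i') (h.pos m i'))) zero_le_one (lt_min h1 h2)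
    fun x _ _ _ h' _ _ => h.alQ o (by assumption) fun w hw _ => by
      linarith [h.bd' o hw, (lt_min_iff.1 h').1]
  simp only [lt_min_iff] at u2 u3
  exact r.tr _ _ _ _ (r.flip hu hn (i' := i) u1.1 (o.oth (far h r e hu hn u2.2.2.1
      (Or.inr (by simp only [hi, o.symm.one]; exact u2.2.1))) (far2 h r e hu hn u3.2.1)))
    (r.of_lt hu hm (o.all.2 ⟨u1.2, u2.2.2.2, u3.2.2⟩) _)

theorem mid (o : Op i i') {n m : ℕ} (hn : InA c Z (n + 1)) (hm : InA c Z (m + 1))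
    (h3 : c n i < c m i) (H : 1 ≤ c n i → c m i ≤ 2 → L i (n + 1) (m + 1)) :
    L i (n + 1) (m + 1) := by
  by_cases h4 : 2 < c m i ∨ c n i < 1
  · exact far h r e hn hm h3 (by simpa only [o.one, lo, hi] using h4)
  · push Not at h4
    exact H h4.2 h4.1

theorem pq (o : Op i i') {n m : ℕ} (hn : InA c Z (n + 1)) (hm : InA c Z (m + 1)) (h1 : c n 2 < 1)
    (h2 : 1 < c m 2) (h3 : c n i < c m i) : L i (n + 1) (m + 1) := mid h r e o hn hm h3 fun a b => by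
  obtain ⟨s, t, s1, s2, s3, s4⟩ := h.gap o h3
  obtain ⟨u, hu, u1, u2, u3⟩ := h.ex3 o 0 (s := s) (t := (s + t) / 2) (s' := 3 - t)
    (t' := 3 - (s + t) / 2) (by linarith) (by linarith) (by linarith) (by linarith) le_rfl one_pos
    fun x _ _ _ _ _ _ => h.alP o (by assumption) fun w hw _ => by
      rcases s4 w hw with _ | _ <;> linarith
  obtain ⟨v, hv, v1, v2, v3⟩ := h.ex3 o 0 (s := (s + t) / 2) (t := t) (s' := 3 - (s + t) / 2)
    (t' := 3 - s) (by linarith) (by linarith) (by linarith) (by linarith) zero_le_one one_lt_two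
    fun x _ _ _ _ _ _ => h.alQ o (by assumption) fun w hw _ => by
      rcases s4 w hw with _ | _ <;> linarith
  exact r.tr _ _ _ _ (pp h r e o hn hu h1 u3.2 (by linarith)) (r.tr _ _ _ _
    (r.of_lt hu hv (o.all.2 ⟨u1.2.trans v1.1, u2.2.trans v2.1, u3.2.trans v3.1⟩) _)
    (qq h r e o hv hm v3.1 h2 (by linarith)))

theorem qp (o : Op i i') {n m : ℕ} (hn : InA c Z (n + 1)) (hm : InA c Z (m + 1)) (h1 : 1 < c n 2)
    (h2 : c m 2 < 1) (h3 : c n i < c m i) : L i (n + 1) (m + 1) := mid h r e o hn hm h3 fun a b => by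
  obtain ⟨s, t, s1, s2, s3, s4⟩ := h.gap o h3
  obtain ⟨u, hu, u1, u2, u3⟩ := h.ex3 o 0 (s := (s + t) / 2) (t := t) (s' := 3 - t)
    (t' := 3 - (s + t) / 2) (by linarith) (by linarith) (by linarith) (by linarith) le_rfl one_pos
    fun x _ _ _ _ _ _ => h.alP o (by assumption) fun w hw _ => by
      rcases s4 w hw with _ | _ <;> linarith
  obtain ⟨v, hv, v1, v2, v3⟩ := h.ex3 o 0 (s := s) (t := (s + t) / 2) (s' := 3 - (s + t) / 2)
    (t' := 3 - s) (by linarith) (by linarith) (by linarith) (by linarith) zero_le_one one_lt_two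
    fun x _ _ _ _ _ _ => h.alQ o (by assumption) fun w hw _ => by
      rcases s4 w hw with _ | _ <;> linarith
  exact r.tr _ _ _ _ (qq h r e o hn hv h1 v3.1 (by linarith)) (r.tr _ _ _ _
    (r.flip hu hv (i' := i) (v1.2.trans u1.1) (o.oth
      (pq h r e o.symm hu hv u3.2 v3.1 (u2.2.trans v2.1)) (far2 h r e hu hv (u3.2.trans v3.1))))
    (pp h r e o hu hm u3.2 h2 (by linarith)))

theorem pts (i : Fin 3) {n m : ℕ} (hn : InA c Z (n + 1)) (hm : InA c Z (m + 1))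
    (h3 : c n i < c m i) : L i (n + 1) (m + 1) := by
  have : ∀ i i', Op i i' → c n i < c m i → L i (n + 1) (m + 1) := fun i i' o h3 => by
    rcases (h.ne n).lt_or_gt with h1 | h1 <;> rcases (h.ne m).lt_or_gt with h2 | h2
    exacts [pp h r e o hn hm h1 h2 h3, pq h r e o hn hm h1 h2 h3, qp h r e o hn hm h1 h2 h3,
      qq h r e o hn hm h1 h2 h3]
  fin_cases i
  exacts [this 0 1 (Or.inl ⟨rfl, rfl⟩) h3, this 1 0 (Or.inr ⟨rfl, rfl⟩) h3, far2 h r e hn hm h3]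

theorem cut (o : Op i i') : ∃ α : ℝ, 1 ≤ α ∧ α ≤ 2 ∧ ∀ n, InA c Z (n + 1) →
    (c n i < α → L i (n + 1) 0) ∧ (α < c n i → L i 0 (n + 1)) := by
  let S : Set ℝ := {x | ∃ n, InA c Z (n + 1) ∧ L i (n + 1) 0 ∧ x = c n i}
  have b : ∀ x ∈ S, x ≤ 2 := by
    rintro _ ⟨n, h1, h2, rfl⟩
    by_contra hc
    have : hi c 0 i < lo c (n + 1) i := by simpa only [hi, lo, o.one] using not_le.1 hc
    simpa using r.as _ _ _ h2 (far h r e in0 h1 this (Or.inl this))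
  have a : ∀ s : ℝ, 0 ≤ s → s < 1 → ∃ x ∈ S, s < x := fun s h0 h1 => by
    obtain ⟨u, hu, u1, -⟩ := h.ex3 o 0 h0 h1 le_rfl one_pos le_rfl one_pos
      fun x _ _ _ _ _ _ => h.al_ext (o.all.2 ⟨Or.inl (by rwa [o.one.1]),
        Or.inl (by rwa [o.symm.one.1]), Or.inl (by simpa)⟩)
    have : hi c (u + 1) i < lo c 0 i := by simpa only [hi, lo, o.one] using u1.2
    exact ⟨_, ⟨u, hu, far h r e hu in0 this (Or.inr this), rfl⟩, u1.1⟩
  have ne : S.Nonempty := let ⟨x, hx, _⟩ := a 0 le_rfl one_pos; ⟨x, hx⟩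
  refine ⟨sSup S, ?_, csSup_le ne b, fun n hn => ⟨fun h1 => ?_, fun h1 => ?_⟩⟩
  · by_contra hc
    obtain ⟨x, hx, h1⟩ := a (max 0 (sSup S)) (le_max_left _ _) (max_lt one_pos (not_le.1 hc))
    exact absurd (le_csSup ⟨2, b⟩ hx) (not_le.2 (max_lt_iff.1 h1).2)
  · obtain ⟨_, ⟨m, m1, m2, rfl⟩, h2⟩ := exists_lt_of_lt_csSup ne h1
    exact r.tr _ _ _ _ (pts h r e i hn m1 h2) m2
  · exact (r.tot i _ _ in0 hn).resolve_right fun h2 =>
      absurd (le_csSup ⟨2, b⟩ ⟨n, hn, h2, rfl⟩) (not_le.2 h1)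

theorem place : ∃ α : V, α 0 + α 1 = 3 ∧ α 2 = 1 ∧
    (∀ k s t, s < α 0 → α 0 < t → ∃ w ∈ Z k, s < w 0 ∧ w 0 < t) ∧ ∀ i n, InA c Z (n + 1) →
    (c n i < α i → L i (n + 1) 0) ∧ (α i < c n i → L i 0 (n + 1)) := by
  have o : Op 0 1 := Or.inl ⟨rfl, rfl⟩
  obtain ⟨a, a1, a2, ha⟩ := cut h r e o
  obtain ⟨b, b1, b2, hb⟩ := cut h r e o.symm
  have lw : ∀ n, InA c Z (n + 1) → c n 0 < a → c n 1 < b → c n 2 < 1 → c n 0 < 1 ∧ c n 1 < 1 :=
    fun n hn h1 h2 h3 => by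
      obtain ⟨-, -, h4 | h4⟩ := (r.eq _ _ hn in0).2
        (o.all.2 ⟨(ha n hn).1 h1, (hb n hn).1 h2, far2 h r e hn in0 h3⟩)
      exacts [by simp at h4, ⟨h4 0, h4 1⟩]
  have up : ∀ n, InA c Z (n + 1) → a < c n 0 → b < c n 1 → 1 < c n 2 → 2 < c n 0 ∧ 2 < c n 1 :=
    fun n hn h1 h2 h3 => by
      obtain ⟨-, -, h4 | h4⟩ := (r.eq _ _ in0 hn).2
        (o.all.2 ⟨(ha n hn).2 h1, (hb n hn).2 h2, far2 h r e in0 hn h3⟩)
      exacts [by simp at h4, ⟨h4 0, h4 1⟩]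
  have ab : a + b = 3 := by
    rcases lt_trichotomy (a + b) 3 with h1 | h1 | h1
    · obtain ⟨u, hu, u1, u2, u3⟩ := h.ex3 o 0 (s := a) (t := a + (3 - a - b) / 2) (s' := b)
        (t' := b + (3 - a - b) / 2) (by linarith) (by linarith) (by linarith) (by linarith)
        zero_le_one one_lt_two fun x _ _ _ _ _ _ => h.alQ o (by assumption) fun w _ _ => by linarith
      linarith [up u hu u1.1 u2.1 u3.1]
    · exact h1
    · obtain ⟨u, hu, u1, u2, u3⟩ := h.ex3 o 0 (s := a - (a + b - 3) / 2) (t := a)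
        (s' := b - (a + b - 3) / 2) (t' := b) (by linarith) (by linarith) (by linarith)
        (by linarith) le_rfl one_pos
        fun x _ _ _ _ _ _ => h.alP o (by assumption) fun w _ _ => by linarith
      linarith [lw u hu u1.2 u2.2 u3.2]
  refine ⟨![a, b, 1], ab, rfl, fun k s t hs ht => ?_, o.all.2 ⟨ha, hb, fun n hn =>
    ⟨fun h1 => far2 h r e hn in0 h1, fun h1 => far2 h r e in0 hn h1⟩⟩⟩
  by_contra hc
  push Not at hc
  have hs' : s < a := hs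
  have ht' : a < t := ht
  obtain ⟨u, hu, u1, u2, u3⟩ := h.ex3 o k (s := max s (a - 1 / 2)) (t := a)
    (s' := max (3 - t) (b - 1 / 2)) (t' := b) (le_max_of_le_right (by linarith))
    (max_lt hs' (by linarith)) (le_max_of_le_right (by linarith))
    (max_lt (by linarith) (by linarith)) le_rfl one_pos
    fun x x1 _ x2 _ _ _ => h.alP o (by assumption) fun w hw _ => by
      linarith [hc w hw (by linarith [(max_lt_iff.1 x1).1]), (max_lt_iff.1 x2).1]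
  linarith [lw u hu u1.2 u2.2 u3.2, (max_lt_iff.1 u1.1).2, (max_lt_iff.1 u2.1).2]

end Pool.Agent.H37.Dim
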