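import Pool.Agent.H37.NF

/-!
Generic objects: descending chains through countably many dense sets, Cohen generic functions,
countability of the c.e. sets.
-/

set_option autoImplicit false

namespace Pool.Agent.H37

open Encodable

theorem chain {P ι : Type} [Countable ι] (le : P → P → Prop) (hr : ∀ p, le p p)
    (ht : ∀ p q r, le p q → le q r → le p r) (I : P → Prop) (D : ι → P → Prop)
    (hD : ∀ i p, I p → ∃ q, I q ∧ le q p ∧ D i q) (p0 : P) (h0 : I p0) :
    ∃ s : ℕ → P, s 0 = p0 ∧ (∀ n, I (s n)) ∧ (∀ n m, n ≤ m → le (s m) (s n)) ∧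
      ∀ i, ∃ n, D i (s n) := by
  obtain ⟨g, hg⟩ := exists_surjective_nat (Option ι)
  have : ∀ (o : Option ι) p, I p → ∃ q, I q ∧ le q p ∧ ∀ i, o = some i → D i q := by
    rintro (_ | i) p hp
    · exact ⟨p, hp, hr p, by simp⟩
    · simpa using hD i p hp
  choose! F h1 h2 h3 using this
  let s : ℕ → P := fun n => n.rec p0 fun n p => F (g n) p
  have hI : ∀ n, I (s n) := fun n => by
    induction n with
    | zero => exact h0
    | succ n ih => exact h1 _ _ ih
  refine ⟨s, rfl, hI, fun n m h => ?_, fun i => ?_⟩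
  · induction m, h using Nat.le_induction with
    | base => exact hr _
    | succ m _ ih => exact ht _ _ _ (h2 _ _ (hI m)) ih
  · obtain ⟨n, hn⟩ := hg (some i)
    exact ⟨n + 1, h3 _ _ (hI n) i hn⟩

def Agr {β : Type} (k : ℕ) (f g : ℕ → β) : Prop := ∀ i < k, g i = f i

theorem Agr.mono {β : Type} {k l : ℕ} {f g : ℕ → β} (h : Agr l f g) (hk : k ≤ l) : Agr k f g :=
  fun i hi => h i (by omega)
theorem Agr.trans {β : Type} {k : ℕ} {f g h : ℕ → β} (h1 : Agr k f g) (h2 : Agr k g h) :
    Agr k f h := fun i hi => (h2 i hi).trans (h1 i hi)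
theorem Agr.refl {β : Type} (k : ℕ) (f : ℕ → β) : Agr k f f := fun _ _ => rfl

/-- a Cohen generic function decides each of countably many properties -/
theorem generic {β ι : Type} [Inhabited β] [Countable ι] (P : ι → (ℕ → β) → Prop) :
    ∃ f : ℕ → β, ∀ i, ∃ k, (∀ g, Agr k f g → P i g) ∨
      ∀ g, Agr k f g → ∀ l, ∃ h, Agr l g h ∧ ¬ P i h := by
  obtain ⟨s, -, -, h1, h2⟩ := chain (P := ℕ × (ℕ → β)) (ι := ι ⊕ ℕ)
    (fun q p => p.1 ≤ q.1 ∧ Agr p.1 p.2 q.2) (fun p => ⟨le_rfl, Agr.refl _ _⟩)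
    (fun p q r h h' => ⟨h'.1.trans h.1, h'.2.trans (h.2.mono h'.1)⟩) (fun _ => True)
    (fun i p => Sum.elim (fun i => (∀ g, Agr p.1 p.2 g → P i g) ∨
      ∀ g, Agr p.1 p.2 g → ∀ l, ∃ h, Agr l g h ∧ ¬ P i h) (fun n => n ≤ p.1) i)
    (by
      rintro (i | n) ⟨k, f⟩ -
      · by_cases h : ∀ g, Agr k f g → ∀ l, ∃ h, Agr l g h ∧ ¬ P i h
        · exact ⟨(k, f), trivial, ⟨le_rfl, Agr.refl _ _⟩, Or.inr h⟩
        · push Not at h
          obtain ⟨g, h1, l, h2⟩ := h
          exact ⟨(max k l, g), trivial, ⟨le_max_left _ _, h1⟩,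
            Or.inl fun h h3 => h2 h (h3.mono (le_max_right _ _))⟩
      · exact ⟨(max k n, f), trivial, ⟨le_max_left _ _, Agr.refl _ _⟩, le_max_right _ _⟩)
    (0, default) trivial
  choose N hN using fun n => h2 (Sum.inr n)
  have h3 : ∀ n, Agr (s n).1 (s n).2 fun i => (s (N (i + 1))).2 i := fun n i hi =>
    ((h1 _ _ (le_max_right n (N (i + 1)))).2 i (hN (i + 1))).symm.trans
      ((h1 _ _ (le_max_left n (N (i + 1)))).2 i hi)
  refine ⟨fun i => (s (N (i + 1))).2 i, fun i => ?_⟩
  obtain ⟨n, hn⟩ := h2 (Sum.inl i)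
  exact ⟨(s n).1, hn.imp (fun h g hg => h g ((h3 n).trans hg)) fun h g hg => h g ((h3 n).trans hg)⟩

variable {α : Type} [Primcodable α]

theorem re_index {p : α → Prop} (hp : REPred p) :
    ∃ e, ∀ a, p a ↔ ∃ s, (ev e (encode a) s).isSome = true := by
  have h : Partrec fun m : ℕ => ((decode (α := α) m : Option α) : Part α).bind fun a =>
      (Part.assert (p a) fun _ => Part.some ()).map fun _ => 0 :=
    (Computable.ofOption (CI.computable (by fun_prop))).bind
      ((Partrec.map hp (Computable.const 0).to₂).comp Computable.snd).to₂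
  obtain ⟨e, he⟩ := exists_index_part h
  refine ⟨e, fun a => ?_⟩
  simp only [Option.isSome_iff_exists]
  rw [exists_comm]
  simp [← he]

theorem countable_re : {p : α → Prop | REPred p}.Countable :=
  (Set.countable_range fun e a => ∃ s, (ev e (encode a) s).isSome = true).mono fun _ hp =>
    (re_index hp).imp fun _ h => funext fun a => propext (h a).symm

instance : Countable {p : α → Prop // REPred p} := countable_re.to_subtype

theorem re_iff_dom {p : α → Prop} :
    (∃ f : α →. ℕ, Partrec f ∧ ∀ a, (f a).Dom ↔ p a) ↔ REPred p :=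
  ⟨fun ⟨_, hf, h⟩ => hf.dom_re.of_eq h, fun h =>
    ⟨_, Partrec.map h (Computable.const 0).to₂, fun a => by simp [Part.assert]⟩⟩

end Pool.Agent.H37
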