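import Pool.Agent.H37.Defc1
import Pool.Agent.H37.Gen

/-! Uniform measure and counting, joins, upper density of disagreement, coding. -/

set_option autoImplicit false

namespace Pool.Agent.H37.Hd

open MeasureTheory ProbabilityTheory Filter Rnd Defc Encodable
open scoped ENNReal NNReal

/-- a set as a function to the naturals -/
def bit (X : ℕ → Bool) (n : ℕ) : ℕ := (X n).toNat

/-- Turing reducibility of sets -/
def LE (X Y : ℕ → Bool) : Prop := CI (orc (bit Y)) X

theorem ci_bit {O : Set (ℕ →. ℕ)} {X : ℕ → Bool} : CI O (bit X) ↔ CI O X :=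
  ⟨fun h => (show CI O fun n => bit X n == 1 by fun_prop).of_eq fun n => by
    unfold bit; cases X n <;> rfl, fun h => h.toNat⟩

theorem LE.refl (X : ℕ → Bool) : LE X X := ci_bit.1 (CI.self _)
theorem LE.trans {X Y Z : ℕ → Bool} (h : LE X Y) (h' : LE Y Z) : LE X Z :=
  CI.trans h (ci_bit.2 h')

theorem tr_fun {f : ℕ → ℕ} {Y : ℕ → Bool} :
    TuringReducible (fun n => Part.some (f n)) (fun n => Part.some (Y n).toNat) ↔
      CI (orc (bit Y)) f := ⟨fun h => CI.of_ri h, fun h => h.ri⟩

theorem tr_iff {X Y : ℕ → Bool} :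
    TuringReducible (fun n => Part.some (X n).toNat) (fun n => Part.some (Y n).toNat) ↔ LE X Y :=
  tr_fun.trans ci_bit

theorem map_pre (X : ℕ → Bool) (k : ℕ) : (pre X k).map Bool.toNat = pre (bit X) k := by
  simp [pre, bit]

theorem countable_ci' {α β : Type} [Primcodable α] [Primcodable β] (x : ℕ → ℕ) :
    {f : α → β | CI (orc x) f}.Countable :=
  ((countable_ci x).preimage_of_injOn
    (f := fun (f : α → β) n => encode ((decode (α := α) n).map f)) fun f _ g _ h =>
      funext fun a => by simpa using congrFun h (encode a)).mono fun f h =>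
    CI.encode (CI.optMap (h.comp (by fun_prop)) (by fun_prop))

theorem countable_comp {α β : Type} [Primcodable α] [Primcodable β] :
    {f : α → β | Computable f}.Countable :=
  (countable_ci' fun _ => 0).mono fun _ h => CI.of_comp h

/-! ### measure and counting -/

theorem meas_set (p : List Bool → Prop) (n : ℕ) : MeasurableSet {ω : ℕ → Bool | p (pre ω n)} :=
  measurableSet_setOf.2 (meas_pre p n)

theorem P_pre (p : List Bool → Bool) (L : ℕ) :
    P {ω | p (pre ω L) = true} = (W L).countP p * 2⁻¹ ^ L := by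
  have e : {ω | p (pre ω L) = true} = ⋃ τ ∈ ((W L).filter p).toFinset, cyl τ := by
    ext ω
    simp only [Set.mem_setOf_eq, List.mem_toFinset, List.mem_filter, mem_W, Set.mem_iUnion, cyl]
    exact ⟨fun h => ⟨_, ⟨by simp, h⟩, by simp⟩, fun ⟨τ, ⟨h1, h2⟩, h3⟩ => by rwa [← h1, h3]⟩
  rw [e, measure_biUnion_finset _ fun τ _ => meas_cyl τ,
    Finset.sum_congr rfl (g := fun _ => 2⁻¹ ^ L) fun τ h => by
      rw [P_cyl, mem_W.1 (List.mem_filter.1 (List.mem_toFinset.1 h)).1]]
  · rw [Finset.sum_const, List.toFinset_card_of_nodup ((nodup_W L).filter _),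
      List.countP_eq_length_filter, nsmul_eq_mul]
  · intro a ha b hb hab
    have h1 := mem_W.1 (List.mem_filter.1 (List.mem_toFinset.1 ha)).1
    have h2 := mem_W.1 (List.mem_filter.1 (List.mem_toFinset.1 hb)).1
    exact disj_cyl (fun h => hab (h.eq_of_length (by omega)))
      fun h => hab (h.eq_of_length (by omega)).symm

theorem cnt_le (c k L : ℕ) : (c : ℝ≥0∞) * 2⁻¹ ^ L ≤ 2⁻¹ ^ k ↔ c * 2 ^ k ≤ 2 ^ L := by
  rw [← ENNReal.inv_pow, ← ENNReal.inv_pow, ← div_eq_mul_inv,
    ENNReal.div_le_iff (by simp) (by simp), mul_comm, ← div_eq_mul_inv,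
    ENNReal.le_div_iff_mul_le (by simp) (by simp)]
  exact_mod_cast Iff.rfl

theorem P_fin (L : ℕ) (S : Finset (Fin L → Bool)) :
    P {ω | (fun i : Fin L => ω i) ∈ S} ≤ S.card * 2⁻¹ ^ L := by
  have e : {ω : ℕ → Bool | (fun i : Fin L => ω i) ∈ S} ⊆ ⋃ τ ∈ S, cyl (List.ofFn τ) := by
    intro ω h
    simp only [Set.mem_iUnion, cyl, Set.mem_setOf_eq, List.length_ofFn]
    exact ⟨_, h, List.ext_getElem (by simp) fun i _ _ => by simp [pre]⟩
  refine (measure_mono e).trans ((measure_biUnion_finset_le _ _).trans ?_)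
  simp [P_cyl]

theorem P_mono_le {S : ℕ → Set (ℕ → Bool)} (h : Monotone S) {c : ℝ≥0∞} (hc : ∀ n, P (S n) ≤ c) :
    P (⋃ n, S n) ≤ c := by
  rw [h.measure_iUnion]; exact iSup_le hc

theorem null_of_le {S : Set (ℕ → Bool)} (h : ∀ n, P S ≤ 2⁻¹ ^ n) : P S = 0 :=
  le_antisymm (ge_of_tendsto' (ENNReal.tendsto_pow_atTop_nhds_zero_of_lt_one (by simp)) h) zero_le

theorem P_single (x : ℕ → Bool) : P {x} = 0 := null_of_le fun n => by
  have := P_cyl (pre x n)
  rw [length_pre] at this
  rw [← this]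
  exact measure_mono (by simp [cyl])

theorem ae_not_le (X : ℕ → Bool) : ∀ᵐ Y ∂P, ¬ LE Y X := by
  have : NullSingletonClass P := ⟨P_single⟩
  exact (countable_ci' (bit X)).ae_notMem P

/-! ### joins -/

/-- the join of two sets -/
def join (X Y : ℕ → Bool) (n : ℕ) : Bool := if n % 2 = 0 then X (n / 2) else Y (n / 2)

@[simp] theorem join_ev (X Y : ℕ → Bool) (n : ℕ) : join X Y (2 * n) = X n := by simp [join]
@[simp] theorem join_od (X Y : ℕ → Bool) (n : ℕ) : join X Y (2 * n + 1) = Y n := by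
  simp [join, Nat.add_mod, show (2 * n + 1) / 2 = n by omega]

theorem le_join_l (X Y : ℕ → Bool) : LE X (join X Y) :=
  ((LE.refl (join X Y)).comp (g := fun n => 2 * n) (by fun_prop)).of_eq fun n => by simp
theorem le_join_r (X Y : ℕ → Bool) : LE Y (join X Y) :=
  ((LE.refl (join X Y)).comp (g := fun n => 2 * n + 1) (by fun_prop)).of_eq fun n => by simp

theorem meas_join : Measurable fun p : (ℕ → Bool) × (ℕ → Bool) => join p.1 p.2 := by
  refine measurable_pi_lambda _ fun n => ?_
  unfold join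
  split_ifs <;> fun_prop

theorem map_join : (P.prod P).map (fun p => join p.1 p.2) = P := by
  classical
  refine Measure.eq_infinitePi _ fun s t ht => ?_
  have i0 : Function.Injective fun n : ℕ => 2 * n := fun a b h => by simpa using h
  have i1 : Function.Injective fun n : ℕ => 2 * n + 1 := fun a b h => by simpa using h
  have e : (fun p : (ℕ → Bool) × (ℕ → Bool) => join p.1 p.2) ⁻¹' Set.pi s t =
      Set.pi (s.preimage _ i0.injOn) (fun n => t (2 * n)) ×ˢ
        Set.pi (s.preimage _ i1.injOn) (fun n => t (2 * n + 1)) := by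
    ext ⟨X, Y⟩
    simp only [Set.mem_preimage, Set.mem_pi, Finset.mem_coe, Set.mem_prod, Finset.mem_preimage]
    refine ⟨fun h => ⟨fun i hi => by simpa using h _ hi, fun i hi => by simpa using h _ hi⟩,
      fun h i hi => ?_⟩
    rcases Nat.even_or_odd' i with ⟨k, rfl | rfl⟩
    · simpa using h.1 k hi
    · simpa using h.2 k hi
  rw [Measure.map_apply meas_join (MeasurableSet.pi (Finset.countable_toSet _) fun _ _ => trivial),
    e, Measure.prod_prod, P, Measure.infinitePi_pi _ fun _ _ => ht _,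
    Measure.infinitePi_pi _ fun _ _ => ht _,
    Finset.prod_preimage' (fun n => 2 * n) s i0.injOn fun n => uniformOn Set.univ (t n),
    Finset.prod_preimage' (fun n => 2 * n + 1) s i1.injOn fun n => uniformOn Set.univ (t n)]
  refine Eq.trans ?_ (Finset.prod_filter_mul_prod_filter_not s (fun n => n % 2 = 0) fun n =>
      uniformOn Set.univ (t n))
  congr 2 <;> ext n <;> simp only [Finset.mem_filter] <;> refine and_congr_right fun _ => ?_
  · exact ⟨fun ⟨k, h⟩ => by simp only at h; omega, fun h => ⟨n / 2, by simp only; omega⟩⟩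
  · exact ⟨fun ⟨k, h⟩ => by simp only at h; omega, fun h => ⟨n / 2, by simp only; omega⟩⟩

theorem ae_join {p : (ℕ → Bool) → Prop} (h : ∀ᵐ Z ∂P, p Z) : ∀ᵐ X ∂P, ∀ᵐ Y ∂P, p (join X Y) := by
  rw [← map_join] at h
  exact Measure.ae_ae_of_ae_prod (ae_of_ae_map meas_join.aemeasurable h)

/-! ### density of disagreement -/

/-- number of disagreements below `n` -/
def dis (X Y : ℕ → Bool) (n : ℕ) : ℕ := ((Finset.range n).filter fun k => X k ≠ Y k).card

/-- upper density of disagreement -/
noncomputable def dl (X Y : ℕ → Bool) : ℝ := limsup (fun n : ℕ => (dis X Y n : ℝ) / n) atTop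

theorem dis_comm (X Y : ℕ → Bool) : dis X Y = dis Y X := by
  funext n; simp only [dis, ne_comm]
theorem dl_comm (X Y : ℕ → Bool) : dl X Y = dl Y X := by simp only [dl, dis_comm X Y]

theorem ratio_le (X Y : ℕ → Bool) (n : ℕ) : (dis X Y n : ℝ) / n ≤ 1 :=
  div_le_one_of_le₀ (by exact_mod_cast (Finset.card_filter_le _ _).trans (by simp)) (by positivity)

theorem bd1 (X Y : ℕ → Bool) :
    IsBoundedUnder (· ≤ ·) atTop fun n : ℕ => (dis X Y n : ℝ) / n :=
  isBoundedUnder_of ⟨1, ratio_le X Y⟩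
theorem bd2 (X Y : ℕ → Bool) :
    IsCoboundedUnder (· ≤ ·) atTop fun n : ℕ => (dis X Y n : ℝ) / n :=
  isCoboundedUnder_le_of_le atTop (x := 0) fun n => by positivity

theorem dl_le {X Y : ℕ → Bool} {c : ℝ} (h : ∀ᶠ n : ℕ in atTop, (dis X Y n : ℝ) / n ≤ c) :
    dl X Y ≤ c := limsup_le_of_le (bd2 X Y) h
theorem le_dl {X Y : ℕ → Bool} {c : ℝ} (h : ∃ᶠ n : ℕ in atTop, c ≤ (dis X Y n : ℝ) / n) :
    c ≤ dl X Y := le_limsup_of_frequently_le h (bd1 X Y)
theorem dl_le_one (X Y : ℕ → Bool) : dl X Y ≤ 1 := dl_le (.of_forall (ratio_le X Y))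
theorem dl_nonneg (X Y : ℕ → Bool) : 0 ≤ dl X Y := le_dl (.of_forall fun _ => by positivity)

/-- `A` is written into `X` at the positions congruent to `N` modulo `N + 1` -/
def code (N : ℕ) (A X : ℕ → Bool) (n : ℕ) : Bool :=
  if n % (N + 1) = N then A (n / (N + 1)) else X n

theorem code_le {N : ℕ} {A X : ℕ → Bool} (h : LE X A) : LE (code N A X) A := by
  have h1 : CI (orc (bit A)) X := h
  have h2 : CI (orc (bit A)) A := LE.refl A
  show CI _ fun n => if n % (N + 1) = N then A (n / (N + 1)) else X n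
  fun_prop

theorem le_code (N : ℕ) (A X : ℕ → Bool) : LE A (code N A X) :=
  ((LE.refl (code N A X)).comp (g := fun n => N + (N + 1) * n) (by fun_prop)).of_eq fun n => by
    simp only [code]
    rw [Nat.add_mul_mod_self_left, Nat.add_mul_div_left _ _ N.succ_pos,
      Nat.mod_eq_of_lt N.lt_succ_self, Nat.div_eq_of_lt N.lt_succ_self]
    simp

theorem dl_near {N : ℕ} {X X' : ℕ → Bool} (h : ∀ n, n % (N + 1) ≠ N → X n = X' n) (Y : ℕ → Bool) :
    dl X Y ≤ dl X' Y + 1 / (N + 1) := by
  refine le_of_forall_pos_le_add fun ε hε => dl_le ?_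
  filter_upwards [eventually_lt_of_limsup_lt (lt_add_of_pos_right (dl X' Y) hε) (bd1 X' Y),
    eventually_gt_atTop 0] with n h1 h2
  have h3 : dis X Y n ≤ dis X' Y n + n / (N + 1) := by
    have : ((Finset.range n).filter fun k => k % (N + 1) = N).card ≤ n / (N + 1) := by
      rw [← Finset.card_range (n / (N + 1))]
      refine Finset.card_le_card_of_injOn (· / (N + 1)) (fun k hk => ?_) fun a ha b hb e => ?_
      · simp only [Finset.coe_filter, Finset.mem_range, Set.mem_setOf_eq, Finset.coe_range,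
          Set.mem_Iio] at hk ⊢
        rw [← Nat.succ_le_iff, Nat.le_div_iff_mul_le N.succ_pos, Nat.succ_mul, mul_comm]
        have := Nat.div_add_mod k (N + 1)
        simp only [Nat.succ_eq_add_one] at *
        omega
      · simp only [Finset.coe_filter, Set.mem_setOf_eq] at ha hb e
        rw [← Nat.div_add_mod a (N + 1), ← Nat.div_add_mod b (N + 1), ha.2, hb.2, e]
    refine le_trans ((Finset.card_le_card fun k hk => ?_).trans (Finset.card_union_le _ _))
      (Nat.add_le_add_left this _)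
    simp only [Finset.mem_filter, Finset.mem_union] at hk ⊢
    by_cases e : k % (N + 1) = N
    · exact Or.inr ⟨hk.1, e⟩
    · exact Or.inl ⟨hk.1, h k e ▸ hk.2⟩
  have h4 : ((n / (N + 1) : ℕ) : ℝ) ≤ n / (N + 1) := by exact_mod_cast Nat.cast_div_le (α := ℝ)
  have h5 : (dis X Y n : ℝ) ≤ dis X' Y n + n / (N + 1) := by
    have : (dis X Y n : ℝ) ≤ dis X' Y n + (n / (N + 1) : ℕ) := by exact_mod_cast h3
    linarith
  have h6 : (0 : ℝ) < n := by exact_mod_cast h2
  calc (dis X Y n : ℝ) / n ≤ (dis X' Y n + n / (N + 1)) / n := by gcongr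
    _ = dis X' Y n / n + 1 / (N + 1) := by field_simp
    _ ≤ _ := by linarith

theorem dl_code (N : ℕ) (A X Y : ℕ → Bool) : dl (code N A X) Y ≤ dl X Y + 1 / (N + 1) :=
  dl_near (fun n h => by simp [code, h]) Y
theorem dl_code' (N : ℕ) (A X Y : ℕ → Bool) : dl X Y ≤ dl (code N A X) Y + 1 / (N + 1) :=
  dl_near (fun n h => by simp [code, h]) Y

end Pool.Agent.H37.Hd
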