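import Pool.Agent.H37.Dim2
import Pool.Agent.H37.Hd1

/-! The generic point set and the Cantor set. -/

set_option autoImplicit false

namespace Pool.Agent.H37.Dim

open Filter Encodable Rnd

def N (σ : List Bool) : ℕ := σ.foldl (fun a b => 3 * a + 2 * b.toNat) 1

def uu (n i : ℕ) : ℕ :=
  ((decode (α := List ℕ) n.unpair.2.unpair.2).getD []).getD i 0 * 3 ^ (n - n.unpair.2.unpair.1)

noncomputable def cc (n : ℕ) (i : Fin 3) : ℝ := (6 * uu n i + 1) / (2 * 3 ^ (n + 1))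

noncomputable def rr (y : ℕ → Bool) : ℝ := ⨆ k, (N (pre y k) : ℝ) / 3 ^ k

def tw (i : ℕ) (b : Bool) : Bool := if i = 0 then b else if i = 1 then !b else false

noncomputable def ζ (y : ℕ → Bool) (i : Fin 3) : ℝ := rr fun n => tw i (y n)

def ZZ (T : List Bool → Bool) (k : ℕ) : Set V :=
  {w | ∃ y, (∀ j ≤ k + 2, T (pre y j) = true) ∧ w = ζ y}

theorem N_succ (y : ℕ → Bool) (k : ℕ) : N (pre y (k + 1)) = 3 * N (pre y k) + 2 * (y k).toNat := by
  simp [N, pre_succ]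

theorem N_zero (y : ℕ → Bool) : N (pre y 0) = 1 := rfl

theorem rr_bd (y : ℕ → Bool) (k : ℕ) :
    (N (pre y k) : ℝ) / 3 ^ k ≤ rr y ∧ rr y ≤ (N (pre y k) + 1) / 3 ^ k := by
  have m : Monotone fun k => (N (pre y k) : ℝ) / 3 ^ k := monotone_nat_of_le_succ fun k => by
    rw [div_le_div_iff₀ (by positivity) (by positivity), N_succ, pow_succ]
    push_cast
    nlinarith [show (0 : ℝ) ≤ (y k).toNat * 3 ^ k by positivity]
  have a : Antitone fun k => ((N (pre y k) : ℝ) + 1) / 3 ^ k := antitone_nat_of_succ_le fun k => by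
    rw [div_le_div_iff₀ (by positivity) (by positivity), N_succ, pow_succ]
    push_cast
    have : ((y k).toNat : ℝ) ≤ 1 := by cases y k <;> simp
    nlinarith [show (0 : ℝ) < 3 ^ k by positivity]
  have b : ∀ k l, (N (pre y l) : ℝ) / 3 ^ l ≤ (N (pre y k) + 1) / 3 ^ k := fun k l =>
    (m (le_max_left l k)).trans (le_trans (by beta_reduce; gcongr; linarith) (a (le_max_right l k)))
  exact ⟨le_ciSup ⟨_, by rintro _ ⟨l, rfl⟩; exact b 0 l⟩ k, ciSup_le (b k)⟩

theorem small {x : ℝ} (h : 0 < x) : ∃ k : ℕ, 1 / (3 : ℝ) ^ k < x := by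
  simpa using exists_pow_lt_of_lt_one h (show (1 / 3 : ℝ) < 1 by norm_num)

theorem eq_of {x y C : ℝ} (hC : 0 < C) (h : ∀ k : ℕ, |x - y| ≤ C / 3 ^ k) : x = y := by
  by_contra hc
  obtain ⟨k, hk⟩ := small (div_pos (abs_pos.2 (sub_ne_zero.2 hc)) hC)
  rw [lt_div_iff₀ hC, one_div_mul_eq_div] at hk
  linarith [h k]

theorem ζ_sub (y : ℕ → Bool) : ζ y 0 + ζ y 1 = 3 ∧ ζ y 2 = 1 ∧ 1 ≤ ζ y 0 ∧ 1 ≤ ζ y 1 := by
  have one : ∀ y, 1 ≤ rr y := fun y => by simpa [N_zero] using (rr_bd y 0).1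
  refine ⟨eq_of one_pos fun k => ?_, ?_, one _, one _⟩
  · have : N (pre y k) + N (pre (fun n => !y n) k) + 1 = 3 * 3 ^ k := by
      induction k with
      | zero => rfl
      | succ k ih => rw [N_succ, N_succ, pow_succ]; cases y k <;> simp <;> omega
    have e : (N (pre y k) : ℝ) / 3 ^ k + N (pre (fun n => !y n) k) / 3 ^ k + 1 / 3 ^ k = 3 := by
      field_simp; exact_mod_cast this.trans (mul_comm _ _)
    have h1 := rr_bd y k
    have h2 := rr_bd (fun n => !y n) k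
    rw [add_div] at h1 h2
    change |rr y + rr (fun n => !y n) - 3| ≤ _
    rw [abs_le]; constructor <;> linarith
  · have : ∀ k, N (pre (fun _ => false) k) = 3 ^ k := fun k => by
      induction k with
      | zero => rfl
      | succ k ih => rw [N_succ, ih]; simp [pow_succ, mul_comm]
    change rr (fun _ => false) = 1
    simp [rr, this]

theorem gap (y : ℕ → Bool) (k a : ℕ) :
    (N (pre y (k + 1)) ≤ 3 * a + 1 → rr y ≤ (3 * a + 1) / 3 ^ (k + 1)) ∧
      (3 * a + 1 < N (pre y (k + 1)) → (3 * a + 2) / 3 ^ (k + 1) ≤ rr y) := by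
  refine ⟨fun h => (rr_bd y (k + 1)).2.trans ?_, fun h => le_trans ?_ (rr_bd y (k + 1)).1⟩
  · gcongr
    have : N (pre y (k + 1)) ≤ 3 * a := by
      rw [N_succ] at h ⊢; cases hy : y k <;> simp [hy] at h ⊢ <;> omega
    exact_mod_cast this
  · gcongr
    exact_mod_cast h

theorem cmp (y : ℕ → Bool) (n : ℕ) (i : Fin 3) :
    (cc n i < rr y ↔ 9 * uu n i + 1 < N (pre y (n + 2))) ∧
      (rr y < cc n i ↔ ¬ 9 * uu n i + 1 < N (pre y (n + 2))) := by
  have e : cc n i = (9 * uu n i + 3 / 2) / 3 ^ (n + 2) := by unfold cc; field_simp; ring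
  obtain ⟨h1, h2⟩ := gap y (n + 1) (3 * uu n i)
  rw [← mul_assoc] at h1 h2
  push_cast at h1 h2
  have p : (0 : ℝ) < 3 ^ (n + 2) := by positivity
  have a : 9 * uu n i + 1 < N (pre y (n + 2)) → cc n i < rr y := fun h =>
    lt_of_lt_of_le (by rw [e]; exact div_lt_div_of_pos_right (by linarith) p) (h2 h)
  have b : ¬ 9 * uu n i + 1 < N (pre y (n + 2)) → rr y < cc n i := fun h =>
    (h1 (not_lt.1 h)).trans_lt (by rw [e]; exact div_lt_div_of_pos_right (by linarith) p)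
  exact ⟨⟨fun h => by_contra fun h' => lt_asymm h (b h'), a⟩, fun h h' => lt_asymm h (a h'), b⟩

theorem cc_ne (y : ℕ → Bool) (n : ℕ) (i : Fin 3) : cc n i ≠ rr y := fun e => by
  by_cases h : 9 * uu n i + 1 < N (pre y (n + 2))
  exacts [((cmp y n i).1.2 h).ne e, ((cmp y n i).2.2 h).ne' e]

theorem cc_inj {n m : ℕ} {i : Fin 3} (h : cc n i = cc m i) : n = m := by
  wlog hnm : n < m generalizing n m
  · exact by_contra fun e => e (this h.symm (by omega)).symm
  obtain ⟨d, rfl⟩ := Nat.exists_eq_add_of_lt hnm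
  unfold cc at h
  rw [div_eq_div_iff (by positivity) (by positivity)] at h
  have h' : (6 * uu n i + 1) * 3 ^ d * 3 = 6 * uu (n + d + 1) i + 1 := by
    have : ((6 * uu n i + 1) * 3 ^ d * 3 : ℝ) = 6 * uu (n + d + 1) i + 1 :=
      mul_right_cancel₀ (b := 2 * 3 ^ (n + 1)) (by positivity) (by rw [← h]; ring)
    exact_mod_cast this
  omega

theorem appr {s : ℝ} (hs : 0 ≤ s) (k : ℕ) :
    ∃ a : ℕ, s < a / 3 ^ k ∧ a / 3 ^ k ≤ s + 1 / (3 : ℝ) ^ k := by
  have p : (0 : ℝ) < 3 ^ k := by positivity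
  refine ⟨⌊s * 3 ^ k⌋₊ + 1, ?_, ?_⟩
  · rw [lt_div_iff₀ p]; push_cast; exact Nat.lt_floor_add_one _
  · rw [div_le_iff₀ p, add_mul, one_div_mul_cancel p.ne']
    push_cast
    linarith [Nat.floor_le (mul_nonneg hs p.le)]

theorem gd (T : List Bool → Bool) : Gd cc (ZZ T) := by
  refine ⟨fun s t M h1 h2 => ?_, fun n i => by unfold cc; positivity,
    fun n => (ζ_sub fun _ => false).2.1 ▸ cc_ne _ n 2, ?_,
    fun k l h w ⟨y, h1, h2⟩ => ⟨y, fun j hj => h1 j (by omega), h2⟩, fun s t hst => ?_⟩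
  · have : ∀ᶠ k : ℕ in atTop, ∀ i, 1 / (3 : ℝ) ^ k < (t i - s i) / 2 :=
      eventually_all.2 fun i => by
        obtain ⟨k, hk⟩ := small (half_pos (sub_pos.2 (h2 i)))
        exact eventually_atTop.2 ⟨k, fun l hl => lt_of_le_of_lt (by gcongr; norm_num) hk⟩
    obtain ⟨k, hk⟩ := this.exists
    choose a h3 h4 using fun i => appr (h1 i) k
    refine ⟨Nat.pair M (Nat.pair k (encode [a 0, a 1, a 2])), Nat.left_le_pair _ _, fun i => ?_⟩
    obtain ⟨d, hd⟩ := Nat.exists_eq_add_of_le ((Nat.left_le_pair k (encode [a 0, a 1, a 2])).trans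
      (Nat.right_le_pair M _))
    have e : uu (k + d) i = a i * 3 ^ d := by
      rw [← Nat.add_sub_cancel_left (n := k) (m := d), ← hd]
      simp only [uu, Nat.unpair_pair, encodek, Option.getD_some, Nat.add_sub_of_le
        ((Nat.left_le_pair k (encode [a 0, a 1, a 2])).trans (Nat.right_le_pair M _))]
      fin_cases i <;> rfl
    have e' : cc (k + d) i = a i / 3 ^ k + 1 / (2 * 3 ^ (k + d + 1)) := by
      rw [cc, e]; push_cast; field_simp; ring
    have l : 1 / (2 * (3 : ℝ) ^ (k + d + 1)) ≤ 1 / 3 ^ k := by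
      gcongr
      have : (3 : ℝ) ^ k ≤ 3 ^ (k + d + 1) := pow_le_pow_right₀ (by norm_num) (by omega)
      linarith [show (0 : ℝ) < 3 ^ k by positivity]
    have l' : 0 < 1 / (2 * (3 : ℝ) ^ (k + d + 1)) := by positivity
    rw [hd, e']
    constructor <;> linarith [h3 i, h4 i, hk i]
  · rintro k _ ⟨y, -, rfl⟩
    exact ζ_sub y
  · by_cases ht : t ≤ 1
    · refine ⟨(2 * s + t) / 3, (s + 2 * t) / 3, by linarith, by linarith, by linarith, ?_⟩
      rintro _ ⟨y, -, rfl⟩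
      exact Or.inr (by linarith [(ζ_sub y).2.2.1])
    obtain ⟨k, hk⟩ := small (half_pos (sub_pos.2 (max_lt hst (by linarith : 0 < t))))
    obtain ⟨a, h1, h2⟩ := appr (le_max_right s 0) k
    have e : ∀ j : ℝ, (3 * a + j) / 3 ^ (k + 1) = a / 3 ^ k + j / 3 * (1 / 3 ^ k) := fun j => by
      field_simp; ring
    have p : (0 : ℝ) < 1 / 3 ^ k := by positivity
    refine ⟨(3 * a + 1) / 3 ^ (k + 1), (3 * a + 2) / 3 ^ (k + 1), ?_, ?_, ?_, ?_⟩
    · rw [e]; linarith [le_max_left s 0]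
    · rw [e, e]; linarith
    · rw [e]; linarith
    · rintro _ ⟨y, -, rfl⟩
      exact (le_or_gt _ _).imp (gap y k a).1 (gap y k a).2

theorem closed {T : List Bool → Bool} {α : ℝ}
    (h : ∀ k s t, s < α → α < t → ∃ w ∈ ZZ T k, s < w 0 ∧ w 0 < t) :
    ∃ y, (∀ j, T (pre y j) = true) ∧ rr y = α := by
  obtain ⟨y, hy⟩ := exists_path (T := fun σ => T σ = true ∧
    |α - N σ / 3 ^ σ.length| ≤ 2 / 3 ^ σ.length) fun k => by
      have p : (0 : ℝ) < 1 / 3 ^ k := by positivity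
      obtain ⟨_, ⟨y, h1, rfl⟩, h2, h3⟩ := h k (α - 1 / 3 ^ k) (α + 1 / 3 ^ k) (by linarith)
        (by linarith)
      refine ⟨y, fun j hj => ⟨h1 j (by omega), ?_⟩⟩
      have h4 := rr_bd y j
      have l : 1 / (3 : ℝ) ^ k ≤ 1 / 3 ^ j := by gcongr; norm_num
      have e : (2 : ℝ) / 3 ^ j = 1 / 3 ^ j + 1 / 3 ^ j := by ring
      change _ < rr y at h2
      change rr y < _ at h3
      rw [add_div] at h4
      rw [length_pre, abs_le, e]
      constructor <;> linarith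
  refine ⟨y, fun j => (hy j).1, eq_of three_pos fun j => ?_⟩
  have h4 := rr_bd y j
  have h5 := (hy j).2
  have e : (3 : ℝ) / 3 ^ j = 2 / 3 ^ j + 1 / 3 ^ j := by ring
  have p : (0 : ℝ) < 1 / 3 ^ j := by positivity
  rw [add_div] at h4
  rw [length_pre, abs_le] at h5
  rw [abs_le, e]
  constructor <;> linarith

theorem digit (y : ℕ → Bool) (k : ℕ) {x : ℝ} (h1 : (3 * N (pre y k) + 1) / 3 ^ (k + 1) < x)
    (h2 : x < (3 * N (pre y k) + 2) / 3 ^ (k + 1)) : x ≤ rr y ↔ y k = true := by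
  obtain ⟨h3, h4⟩ := gap y k (N (pre y k))
  rw [N_succ] at h3 h4
  cases hy : y k <;> simp only [hy] at h3 h4
  · simpa using (h3 (by simp)).trans_lt h1
  · simpa using (h2.trans_le (h4 (by simp))).le

theorem rr_inj {y y' : ℕ → Bool} (h : rr y = rr y') : y = y' := by
  have : ∀ k, pre y k = pre y' k := fun k => by
    induction k with
    | zero => rfl
    | succ k ih =>
      obtain ⟨x, h1, h2⟩ := exists_between (show (3 * N (pre y k) + 1 : ℝ) / 3 ^ (k + 1) <
        (3 * N (pre y k) + 2) / 3 ^ (k + 1) by gcongr; norm_num)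
      have := (digit y k h1 h2).symm.trans (h ▸ digit y' k (ih ▸ h1) (ih ▸ h2))
      rw [pre_succ, pre_succ, ih, Bool.eq_iff_iff.2 this]
  exact funext fun k => pre_eq_iff.1 (this (k + 1)) k (by omega)

end Pool.Agent.H37.Dim
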