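import Pool.Agent.H37.PDDefs

/-! Solutions of the dimensionality problem of a partial ordering. -/

set_option autoImplicit false

namespace Pool.Agent.H37.PD

/-- the `i`-th relation coded by `f` -/
def Lr (f : ℕ → ℕ) (i a b : ℕ) : Prop := f (Nat.pair i (Nat.pair a b)) = 1

/-- characteristic functions of `n`-tuples of linear orderings of `A` with intersection `R` -/
def Sol (A : Set ℕ) (R : ℕ → ℕ → Prop) (n : ℕ) : Set (ℕ → ℕ) :=
  {f | (∀ m, f m ≤ 1) ∧ (∀ i a b, Lr f i a b → i < n ∧ a ∈ A ∧ b ∈ A) ∧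
    (∀ i < n, (∀ a ∈ A, ∀ b ∈ A, Lr f i a b ∨ Lr f i b a) ∧
      (∀ a b, Lr f i a b → Lr f i b a → a = b) ∧
      ∀ a b d, Lr f i a b → Lr f i b d → Lr f i a d) ∧
    ∀ a ∈ A, ∀ b ∈ A, R a b ↔ ∀ i < n, Lr f i a b}

/-- the tuples coded by `f` and `g` differ by a permutation of the `n` orderings -/
def Perm (n : ℕ) (f g : ℕ → ℕ) : Prop :=
  ∃ π : Equiv.Perm (Fin n), ∀ (i : Fin n) a b, Lr f i a b ↔ Lr g (π i) a b

/-- there is a degree-preserving bijection up to permutation of the orderings -/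
def RepPerm (n : ℕ) (P Q : Set (ℕ → ℕ)) : Prop :=
  ∃ F : Q → P, Function.Surjective F ∧ (∀ f g, F f = F g ↔ Perm n f g) ∧
    ∀ f, TuringEquivalent (tot (F f)) (tot f)

end Pool.Agent.H37.PD
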