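import Pool.Agent.H37.Dim3
import Pool.Agent.H37.DimDefs

/-! Realizers of the poset correspond to the paths of the tree. -/

set_option autoImplicit false

namespace Pool.Agent.H37.Dim

open Filter Encodable Rnd PD Hd

def dn (a : ℕ) : ℕ := if a = 0 then 1 else 2 * 3 ^ a
def nl (a i : ℕ) : ℕ := if a = 0 then 1 else 6 * uu (a - 1) i + 1
def nh (a i : ℕ) : ℕ := if a = 0 then (if i = 2 then 1 else 2) else 6 * uu (a - 1) i + 1
def lt (a b i : ℕ) : Bool := decide (nh a i * dn b < nl b i * dn a)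
def lt3 (a b : ℕ) : Bool := lt a b 0 && (lt a b 1 && lt a b 2)
def bl (n i : ℕ) (σ : List Bool) : Bool := decide (9 * uu n i + 1 < N (σ.map (tw i)))

section
variable {α : Type} [Primcodable α] {O : Set (ℕ →. ℕ)}

@[fun_prop] theorem ci_N {σ : α → List Bool} (h : CI O σ) : CI O fun a => N (σ a) := by
  unfold N; fun_prop
@[fun_prop] theorem ci_uu {n i : α → ℕ} (h : CI O n) (h' : CI O i) :
    CI O fun a => uu (n a) (i a) := by
  unfold uu; fun_prop
@[fun_prop] theorem ci_lt {a b i : α → ℕ} (h : CI O a) (h' : CI O b) (h'' : CI O i) :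
    CI O fun x => lt (a x) (b x) (i x) := by
  unfold lt nh nl dn; fun_prop
@[fun_prop] theorem ci_lt3 {a b : α → ℕ} (h : CI O a) (h' : CI O b) :
    CI O fun x => lt3 (a x) (b x) := by
  unfold lt3; fun_prop
@[fun_prop] theorem ci_bl {n i : α → ℕ} {σ : α → List Bool} (h : CI O n) (h' : CI O i)
    (h'' : CI O σ) : CI O fun x => bl (n x) (i x) (σ x) := by
  unfold bl tw; fun_prop
end

theorem dn_pos (a : ℕ) : (0 : ℝ) < dn a := by unfold dn; split_ifs <;> positivity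

theorem lo_eq (a : ℕ) (i : Fin 3) : lo cc a i = nl a i / dn a := by
  cases a
  · fin_cases i <;> simp [lo, nl, dn]
  · simp [lo, nl, dn, cc]

theorem hi_eq (a : ℕ) (i : Fin 3) : hi cc a i = nh a i / dn a := by
  cases a
  · fin_cases i <;> simp [hi, nh, dn]
  · simp [hi, nh, dn, cc]

theorem lt_iff (a b : ℕ) (i : Fin 3) : lt a b i = true ↔ hi cc a i < lo cc b i := by
  rw [lo_eq, hi_eq, div_lt_div_iff₀ (dn_pos a) (dn_pos b), lt, decide_eq_true_eq]
  exact_mod_cast Iff.rfl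

theorem all3 {p : Fin 3 → Prop} : (∀ i, p i) ↔ p 0 ∧ p 1 ∧ p 2 := Op.all (Or.inl ⟨rfl, rfl⟩)

theorem lt3_iff (a b : ℕ) : lt3 a b = true ↔ ∀ i, hi cc a i < lo cc b i := by
  simp only [all3, ← lt_iff, lt3, Bool.and_eq_true]
  rfl

theorem bl_iff (y : ℕ → Bool) (n : ℕ) (i : Fin 3) :
    (cc n i < ζ y i ↔ bl n i (pre y (n + 2)) = true) ∧
      (ζ y i < cc n i ↔ bl n i (pre y (n + 2)) = false) := by
  have : (pre y (n + 2)).map (tw i) = pre (fun n => tw i (y n)) (n + 2) := by simp [pre]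
  simpa only [bl, this, decide_eq_true_eq, decide_eq_false_iff_not, ζ] using cmp _ n i

variable {T : List Bool → Bool}

theorem all_ZZ (n : ℕ) (p : V → Prop) (q : List Bool → Bool)
    (h : ∀ y, p (ζ y) ↔ q (pre y (n + 2)) = true) : (∀ w ∈ ZZ T n, ¬ p w) ↔
    ((W (n + 2)).all fun σ => !((List.range (n + 3)).all fun j => T (σ.take j)) || !q σ) = true := by
  simp only [List.all_eq_true, mem_W, Bool.or_eq_true, Bool.not_eq_true', ← Bool.not_eq_true,
    List.mem_range, ← imp_iff_not_or]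
  constructor
  · intro H σ hσ h1
    have e : pre (fun i => σ.getD i false) (n + 2) = σ := hσ ▸ pre_getD σ false
    rw [← e, ← h]
    exact H _ ⟨_, fun j hj => by rw [← take_pre _ hj, e]; exact h1 j (by omega), rfl⟩
  · rintro H _ ⟨y, h1, rfl⟩
    rw [h]
    exact H _ (by simp) fun j hj => by rw [take_pre _ (by omega)]; exact h1 j (by omega)

theorem dec_in (hT : CI ∅ T) : ∃ D : ℕ → Bool, CI ∅ D ∧ ∀ a, InA cc (ZZ T) a ↔ D a = true := by
  refine ⟨fun a => a == 0 || ((lt3 a 0 || (W (a - 1 + 2)).all fun σ =>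
    !((List.range (a - 1 + 3)).all fun j => T (σ.take j)) ||
      !(bl (a - 1) 0 σ && (bl (a - 1) 1 σ && bl (a - 1) 2 σ))) && (lt3 0 a || (W (a - 1 + 2)).all
    fun σ => !((List.range (a - 1 + 3)).all fun j => T (σ.take j)) ||
      !(!bl (a - 1) 0 σ && (!bl (a - 1) 1 σ && !bl (a - 1) 2 σ)))), by fun_prop, fun a => ?_⟩
  cases a with
  | zero => simpa using in0
  | succ n =>
    rw [inS, AlV, all_ZZ n _ (fun σ => bl n 0 σ && (bl n 1 σ && bl n 2 σ)) fun y => by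
      simp only [all3, (bl_iff y n _).1, Bool.and_eq_true]; rfl,
      all_ZZ n _ (fun σ => !bl n 0 σ && (!bl n 1 σ && !bl n 2 σ)) fun y => by
      simp only [all3, (bl_iff y n _).2, Bool.and_eq_true, Bool.not_eq_true']; rfl]
    simp only [Nat.add_sub_cancel, Bool.or_eq_true, Bool.and_eq_true, lt3_iff, beq_iff_eq,
      Nat.succ_ne_zero, false_or]
    rfl

theorem cpo (hT : CI ∅ T) : CPO {a | InA cc (ZZ T) a} (Rl cc (ZZ T)) := by
  obtain ⟨D, hD, eD⟩ := dec_in hT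
  refine ⟨computablePred_of D hD eD, computablePred_of (fun p => D p.1 && (D p.2 &&
    (p.1 == p.2 || lt3 p.1 p.2))) (by fun_prop) fun p => by simp [Rl, eD, lt3_iff],
    fun _ _ h => ⟨h.1, h.2.1⟩, fun _ h => ⟨h, h, Or.inl rfl⟩, ?_, ?_⟩
  · rintro a b ⟨-, -, h | h⟩ ⟨-, -, h' | h'⟩
    exacts [h, h, h'.symm, by linarith [h 0, h' 0, lo_le (c := cc) a 0, lo_le (c := cc) b 0]]
  · rintro a b d ⟨h1, -, rfl | h⟩ ⟨h2, h3, rfl | h'⟩
    exacts [⟨h1, h1, Or.inl rfl⟩, ⟨h1, h3, Or.inr h'⟩, ⟨h1, h3, Or.inr h⟩,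
      ⟨h1, h3, Or.inr fun i => (h i).trans ((lo_le b i).trans_lt (h' i))⟩]

/-- the coordinates when the floating element sits at the point given by `y` -/
noncomputable def κ (y : ℕ → Bool) : ℕ → V
  | 0 => ζ y
  | n + 1 => cc n

def Ly (T : List Bool → Bool) (y : ℕ → Bool) (i : Fin 3) (a b : ℕ) : Prop :=
  InA cc (ZZ T) a ∧ InA cc (ZZ T) b ∧ κ y a i ≤ κ y b i

def Rel (T : List Bool → Bool) (f : ℕ → ℕ) (y : ℕ → Bool) : Prop :=
  ∃ π : Equiv.Perm (Fin 3), ∀ i a b, Lr f (π i) a b ↔ Ly T y i a b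

theorem κ_inj {y : ℕ → Bool} {a b : ℕ} {i : Fin 3} (h : κ y a i = κ y b i) : a = b := by
  cases a <;> cases b
  exacts [rfl, absurd h.symm (cc_ne _ _ _), absurd h (cc_ne _ _ _), congrArg _ (cc_inj h)]

theorem dec_Ly (hT : CI ∅ T) (y : ℕ → Bool) : ∃ D : ℕ × ℕ × ℕ → Bool, CI (orc (bit y)) D ∧
    ∀ (i : Fin 3) a b, Ly T y i a b ↔ D (i, a, b) = true := by
  obtain ⟨D, hD, eD⟩ := dec_in hT
  have hD' : CI (orc (bit y)) D := hD.of_empty
  have hy : CI (orc (bit y)) y := LE.refl y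
  refine ⟨fun q => D q.2.1 && (D q.2.2 && if q.2.1 = 0 then (q.2.2 == 0 ||
    !bl (q.2.2 - 1) q.1 (pre y (q.2.2 - 1 + 2))) else if q.2.2 = 0 then
    bl (q.2.1 - 1) q.1 (pre y (q.2.1 - 1 + 2)) else !lt q.2.2 q.2.1 q.1), by fun_prop,
    fun i a b => ?_⟩
  simp only [Ly, eD, Bool.and_eq_true]
  refine and_congr_right fun _ => and_congr_right fun _ => ?_
  cases a <;> cases b
  · simp
  · simp [κ, ← (bl_iff y _ i).2, le_iff_lt_or_eq, (cc_ne _ _ _).symm, ζ]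
  · simp [κ, ← (bl_iff y _ i).1, le_iff_lt_or_eq, cc_ne, ζ]
  · simp [κ, ← Bool.not_eq_true, lt_iff, lo, hi]

theorem re_Ly {y : ℕ → Bool} (hy : ∀ j, T (pre y j) = true) : Re cc (ZZ T) (Ly T y) := by
  have hz : ∀ n, ζ y ∈ ZZ T n := fun n => ⟨y, fun j _ => hy j, rfl⟩
  have b : ∀ a i, lo cc a i ≤ κ y a i ∧ κ y a i ≤ hi cc a i := fun a i => by
    cases a
    exacts [(gd T).bd (hz 0) i, ⟨le_rfl, le_rfl⟩]
  refine ⟨fun i a b ha hb => (le_total _ _).imp (fun h => ⟨ha, hb, h⟩) fun h => ⟨hb, ha, h⟩,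
    fun i a b d h h' => ⟨h.1, h'.2.1, h.2.2.trans h'.2.2⟩,
    fun i a b h h' => κ_inj (h.2.2.antisymm h'.2.2), fun a a' ha ha' => ⟨?_, fun h => ?_⟩⟩
  · rintro ⟨-, -, rfl | h⟩ i
    exacts [⟨ha, ha, le_rfl⟩, ⟨ha, ha', (b a i).2.trans ((h i).le.trans (b a' i).1)⟩]
  · refine ⟨ha, ha', or_iff_not_imp_left.2 fun e => ?_⟩
    have h' : ∀ i, κ y a i < κ y a' i := fun i => (h i).2.2.lt_of_ne fun e' => e (κ_inj e')
    cases a <;> cases a'
    exacts [absurd rfl e, (inS.1 ha').2.resolve_right fun H => H _ (hz _) h',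
      (inS.1 ha).1.resolve_right fun H => H _ (hz _) h', h']

theorem ex_sol {y : ℕ → Bool} (hy : ∀ j, T (pre y j) = true) :
    ∃ f ∈ Sol {a | InA cc (ZZ T) a} (Rl cc (ZZ T)) 3, Rel T f y := by
  classical
  have r := re_Ly hy
  let f : ℕ → ℕ := fun m => if ∃ h : m.unpair.1 < 3,
    Ly T y ⟨_, h⟩ m.unpair.2.unpair.1 m.unpair.2.unpair.2 then 1 else 0
  have e : ∀ i a b, Lr f i a b ↔ ∃ h : i < 3, Ly T y ⟨i, h⟩ a b := fun i a b => by simp [Lr, f]
  refine ⟨f, ⟨fun m => by simp only [f]; split_ifs <;> simp, fun i a b h => ?_, fun i hi => ?_,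
    fun a ha b hb => ?_⟩, 1, fun i a b => by simp [e]⟩
  · obtain ⟨h1, h2⟩ := (e _ _ _).1 h
    exact ⟨h1, h2.1, h2.2.1⟩
  · simp only [e, hi, exists_true_left]
    exact ⟨fun a ha b hb => r.tot _ a b ha hb, r.as _, r.tr _⟩
  · rw [r.eq a b ha hb, Fin.forall_iff]
    exact forall₂_congr fun i hi => by simp [e, hi]

theorem ex_path {f : ℕ → ℕ} (hf : f ∈ Sol {a | InA cc (ZZ T) a} (Rl cc (ZZ T)) 3) :
    ∃ y, (∀ j, T (pre y j) = true) ∧ Rel T f y := by
  have r : Re cc (ZZ T) fun i => Lr f i := ⟨fun i a b ha hb => (hf.2.2.1 i i.2).1 a ha b hb,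
    fun i => (hf.2.2.1 i i.2).2.2, fun i => (hf.2.2.1 i i.2).2.1, fun a b ha hb =>
      (hf.2.2.2 a ha b hb).trans (Fin.forall_iff (p := fun i => Lr f i a b)).symm⟩
  obtain ⟨π, e⟩ := norm (gd T) r
  have r' := r.perm π
  obtain ⟨α, h1, h2, h3, h4⟩ := place (gd T) r' e
  obtain ⟨y, hy, h5⟩ := closed h3
  obtain rfl : α = ζ y := funext (all3.2 ⟨h5.symm, by
    linarith [(ζ_sub y).1, show ζ y 0 = α 0 from h5], h2.trans (ζ_sub y).2.1.symm⟩)
  have st : ∀ i a b, InA cc (ZZ T) a → InA cc (ZZ T) b → κ y a i < κ y b i → Lr f (π i) a b :=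
    fun i a b ha hb h => by
      cases a <;> cases b
      exacts [absurd h (lt_irrefl _), (h4 i _ hb).2 h, (h4 i _ ha).1 h, pts (gd T) r' e i ha hb h]
  refine ⟨y, hy, π, fun i a b => ⟨fun h => ?_, fun ⟨ha, hb, h⟩ => ?_⟩⟩
  · obtain ⟨-, ha, hb⟩ := hf.2.1 _ _ _ h
    refine ⟨ha, hb, not_lt.1 fun h' => ?_⟩
    obtain rfl := r'.as i _ _ h (st i b a hb ha h')
    exact lt_irrefl _ h'
  · rcases h.lt_or_eq with h | h
    · exact st i a b ha hb h
    · obtain rfl := κ_inj h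
      exact (r'.tot i a a ha ha).elim id id

theorem ex_pt {s t : ℝ} (h0 : 0 ≤ s) (h : s < t) :
    ∃ n, InA cc (ZZ T) (n + 1) ∧ s < cc n 0 ∧ cc n 0 < t := by
  have o : Op 0 1 := Or.inl ⟨rfl, rfl⟩
  obtain ⟨n, h1, h2, -⟩ := (gd T).ex3 o 0 h0 h zero_le_two (lt_add_one _) le_rfl one_pos
    fun x _ _ _ _ _ _ => (gd T).alP o (by assumption) fun w hw _ => by linarith [(gd T).bd' o hw]
  exact ⟨n, h1, h2⟩

theorem uniq {f g : ℕ → ℕ} {y y' : ℕ → Bool} (h : Rel T f y) (h' : Rel T g y') :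
    y = y' ↔ Perm 3 f g := by
  obtain ⟨π, h⟩ := h
  obtain ⟨π', h'⟩ := h'
  refine ⟨fun e => ⟨π.symm.trans π', fun i a b => ?_⟩, fun ⟨σ, hσ⟩ => ?_⟩
  · rw [Equiv.trans_apply, h', ← e, ← h, Equiv.apply_symm_apply]
  · have k : ∀ a b, Ly T y 0 a b ↔ Ly T y' (π'.symm (σ (π 0))) a b := fun a b => by
      rw [← h, ← h', hσ, Equiv.apply_symm_apply]
    have e : π'.symm (σ (π 0)) = 0 := by
      by_contra hc
      obtain ⟨a, ha, ha'⟩ := (gd T).ex (fun k => if k = 0 then 0 else 2)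
        (fun k => if k = 0 then 1 else 3) 0 (fun k => by split_ifs <;> linarith)
        (fun k => by split_ifs <;> linarith) fun x hx => (gd T).al_ext
          (all3.2 ⟨Or.inl (hx 0).2, Or.inr (hx 1).1, Or.inr (one_lt_two.trans (hx 2).1)⟩)
      obtain ⟨b, hb, hb'⟩ := (gd T).ex (fun k => if k = 0 then 2 else 0)
        (fun k => if k = 0 then 3 else 1) 0 (fun k => by split_ifs <;> linarith)
        (fun k => by split_ifs <;> linarith) fun x hx => (gd T).al_ext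
          (all3.2 ⟨Or.inr (hx 0).1, Or.inl (hx 1).2, Or.inl (hx 2).2⟩)
      have h1 := ((k (a + 1) (b + 1)).1 ⟨ha, hb, by
        linarith [show κ y (a + 1) 0 < 1 from (ha' 0).2, show 2 < κ y (b + 1) 0 from (hb' 0).1]⟩).2.2
      have h2 := (ha' (π'.symm (σ (π 0)))).1
      have h3 := (hb' (π'.symm (σ (π 0)))).2
      simp only [hc, if_false, κ] at h1 h2 h3
      linarith
    rw [e] at k
    have : ∀ y y', (∀ a b, Ly T y 0 a b ↔ Ly T y' 0 a b) → rr y ≤ rr y' := fun y y' k => by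
      by_contra hc
      obtain ⟨n, h1, h2, h3⟩ := ex_pt (T := T) (zero_le_one.trans (ζ_sub y').2.2.1) (not_le.1 hc)
      exact absurd ((k (n + 1) 0).1 ⟨h1, in0, h3.le⟩).2.2 (not_le.2 h2)
    exact rr_inj ((this _ _ k).antisymm (this _ _ fun a b => (k a b).symm))

theorem deg (hT : CI ∅ T) {f : ℕ → ℕ} {y : ℕ → Bool}
    (hf : f ∈ Sol {a | InA cc (ZZ T) a} (Rl cc (ZZ T)) 3) (h : Rel T f y) :
    CI (orc f) y ∧ CI (orc (bit y)) f := by
  obtain ⟨π, h⟩ := h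
  constructor
  · obtain ⟨D, hD, eD⟩ := dec_in hT
    have key : ∀ a k n : ℕ, (D (n + 1) && (decide ((3 * a + 1) * (2 * 3 ^ (n + 1)) <
        (6 * uu n 0 + 1) * 3 ^ (k + 1)) && decide ((6 * uu n 0 + 1) * 3 ^ (k + 1) <
        (3 * a + 2) * (2 * 3 ^ (n + 1))))) = true ↔ InA cc (ZZ T) (n + 1) ∧
        (3 * a + 1) / 3 ^ (k + 1) < cc n 0 ∧ cc n 0 < (3 * a + 2) / 3 ^ (k + 1) := fun a k n => by
      rw [cc, div_lt_div_iff₀ (by positivity) (by positivity),
        div_lt_div_iff₀ (by positivity) (by positivity), eD]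
      simp only [Bool.and_eq_true, decide_eq_true_eq]
      exact_mod_cast Iff.rfl
    obtain ⟨p, hp, ep⟩ := CI.exists_choice (O := orc f) (p := fun (q : ℕ × ℕ) n => D (n + 1) &&
      (decide ((3 * q.1 + 1) * (2 * 3 ^ (n + 1)) < (6 * uu n 0 + 1) * 3 ^ (q.2 + 1)) &&
      decide ((6 * uu n 0 + 1) * 3 ^ (q.2 + 1) < (3 * q.1 + 2) * (2 * 3 ^ (n + 1)))))
      (CI.of_empty (by fun_prop)) fun q => by
        simp only [key]
        exact ex_pt (by positivity) (by gcongr; norm_num)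
    have hf' := CI.self f
    have : CI (orc f) (pre y) := CI.of_rec1 (h := fun k σ =>
      σ ++ [f (Nat.pair (π 0) (Nat.pair (p (N σ, k) + 1) 0)) == 1]) (by fun_prop) fun k => by
        obtain ⟨h1, h2, h3⟩ := (key _ _ _).1 (ep (N (pre y k), k))
        rw [pre_succ]
        congr 2
        rw [Bool.eq_iff_iff, beq_iff_eq, ← digit y k h2 h3]
        exact ⟨fun h4 => (h 0 _ _).2 ⟨h1, in0, h4⟩, fun h4 => ((h 0 _ _).1 h4).2.2⟩
    exact (show CI (orc f) fun k => (pre y (k + 1)).getD k false by fun_prop).of_eq fun k =>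
      getD_pre y (by omega) _
  · obtain ⟨D, hD, eD⟩ := dec_Ly hT y
    refine (show CI _ fun m : ℕ => (decide (m.unpair.1 < 3) && D ([(π.symm 0).val, (π.symm 1).val,
      (π.symm 2).val].getD m.unpair.1 0, m.unpair.2.unpair.1, m.unpair.2.unpair.2)).toNat by
        fun_prop).of_eq fun m => ?_
    obtain ⟨i, a, b, rfl⟩ : ∃ i a b, m = Nat.pair i (Nat.pair a b) :=
      ⟨m.unpair.1, m.unpair.2.unpair.1, m.unpair.2.unpair.2, by simp⟩
    simp only [Nat.unpair_pair]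
    have h0 := hf.1 (Nat.pair i (Nat.pair a b))
    by_cases hi : i < 3
    · have h1 := h (π.symm ⟨i, hi⟩) a b
      have e : [(π.symm 0).val, (π.symm 1).val, (π.symm 2).val].getD i 0 = π.symm ⟨i, hi⟩ := by
        interval_cases i <;> rfl
      rw [Equiv.apply_symm_apply, eD, Lr] at h1
      rw [e]
      cases hd : D (π.symm ⟨i, hi⟩, a, b) <;> simp [hd, hi] at h1 ⊢ <;> omega
    · have : ¬ Lr f i a b := fun h1 => hi (hf.2.1 _ _ _ h1).1
      simp only [Lr] at this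
      simp only [hi, decide_false, Bool.false_and, Bool.toNat_false]
      omega

end Pool.Agent.H37.Dim
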