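import Pool.Agent.H37.NF

/-! An effectively closed class whose members are independent for Turing reducibility. -/

set_option autoImplicit false

namespace Pool.Agent.H37.Ind

open Encodable Filter List

abbrev B := List Bool
abbrev Rq := ℕ × B × B × B
abbrev Cd := Rq × B × B × B

def lev (c : Cd) : ℕ := c.1.2.1.length

def ins (c : Cd) (σ : B) : B :=
  if σ = c.1.2.1 then c.2.1 else if σ = c.1.2.2.1 then c.2.2.1 else c.2.2.2

def th (c : Cd) (ρ : B) : B :=
  if ρ.length < lev c then ρ else ρ.take (lev c) ++ (ins c (ρ.take (lev c)) ++ ρ.drop (lev c))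

def ps (ms : List Cd) (ρ : B) : List ℕ := (ms.foldr th ρ).map Bool.toNat

def jn (a b : List ℕ) : List ℕ := (a.zip b).map fun p => Nat.pair p.1 p.2

def sat (ms : List Cd) (q : Rq) : Bool :=
  (range (ps ms q.2.1).length).any fun p =>
    (U q.1 (jn (ps ms q.2.2.1) (ps ms q.2.2.2)) p).elim false fun v => v != (ps ms q.2.1).getD p 0

def req (ms : List Cd) (c : Cd) : Bool :=
  decide (c.1.1 < lev c) && decide (c.1.2.2.1.length = lev c) && decide (c.1.2.2.2.length = lev c) &&
    !sat ms c.1 && sat (ms ++ [c]) c.1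

def act (ms : List Cd) (s : ℕ) : Option Cd :=
  ((range s).filterMap fun i => decode (α := Cd) i).find? (req ms)

def st : ℕ → List Cd
  | 0 => []
  | s + 1 => st s ++ (act (st s) s).toList

def T (τ : List ℕ) : Bool :=
  (allLists [false, true] τ.length).any fun ρ =>
    decide (ρ.length = τ.length) && decide ((ps (st τ.length) ρ).take τ.length = τ)

theorem ci_T : CI ∅ T := by
  have h1 : CI ∅ fun p : Cd × B => th p.1 p.2 := by unfold th ins lev; fun_prop
  obtain ⟨F, hF, eF⟩ : ∃ F : Cd × B → B, CI ∅ F ∧ th = fun a b => F (a, b) := ⟨_, h1, rfl⟩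
  have h2 : CI ∅ fun p : List Cd × B => ps p.1 p.2 := by unfold ps; simp only [eF]; fun_prop
  obtain ⟨G, hG, eG⟩ : ∃ G : List Cd × B → List ℕ, CI ∅ G ∧ ∀ a b, ps a b = G (a, b) :=
    ⟨_, h2, fun _ _ => rfl⟩
  have h3 : CI ∅ fun p : List Cd × Rq => sat p.1 p.2 := by unfold sat jn; simp only [eG]; fun_prop
  obtain ⟨S, hS, eS⟩ : ∃ S : List Cd × Rq → Bool, CI ∅ S ∧ ∀ a b, sat a b = S (a, b) :=
    ⟨_, h3, fun _ _ => rfl⟩
  have h4 : CI ∅ fun p : List Cd × Cd => req p.1 p.2 := by unfold req lev; simp only [eS]; fun_prop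
  obtain ⟨R, hR, eR⟩ : ∃ R : List Cd × Cd → Bool, CI ∅ R ∧ req = fun a b => R (a, b) := ⟨_, h4, rfl⟩
  have h5 : CI ∅ st := CI.of_rec1 (h := fun s l => l ++ (act l s).toList)
    (by unfold act; simp only [eR]; fun_prop) fun _ => rfl
  unfold T; simp only [eG]; fun_prop

theorem take_th (c : Cd) (ρ : B) : ρ.take (lev c) <+: th c ρ := by
  unfold th; split_ifs
  exacts [take_prefix _ _, prefix_append _ _]

theorem len_th (c : Cd) (ρ : B) : ρ.length ≤ (th c ρ).length := by
  unfold th; split_ifs <;> simp; omega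

theorem th_low {c : Cd} {ρ : B} (h : ρ.length < lev c) : th c ρ = ρ := if_pos h

theorem th_pf {c : Cd} {ρ : B} (h : ρ.length ≤ lev c) : ρ <+: th c ρ := by
  have := take_th c ρ; rwa [take_of_length_le h] at this

theorem th_mono (c : Cd) {ρ ρ' : B} (h : ρ <+: ρ') : th c ρ <+: th c ρ' := by
  by_cases h1 : ρ.length < lev c
  · rw [th_low h1]
    refine IsPrefix.trans ?_ (take_th c ρ')
    exact prefix_take_iff.2 ⟨h, h1.le⟩
  · obtain ⟨t, rfl⟩ := h
    unfold th
    rw [if_neg h1, if_neg (by simp; omega), take_append_of_le_length (by omega),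
      drop_append_of_le_length (by omega), ← append_assoc _ _ t, ← append_assoc _ _ t]
    exact prefix_append _ _

theorem th_refl (c : Cd) {ρ ρ' : B} (h : th c ρ <+: th c ρ') : ρ <+: ρ' ∨ ρ' <+: ρ := by
  by_cases h1 : ρ.length < lev c
  · rw [th_low h1] at h
    rcases prefix_or_prefix_of_prefix h (take_th c ρ') with h | h
    · exact Or.inl (h.trans (take_prefix _ _))
    · have := h.length_le
      rw [take_of_length_le (by simp at this; omega)] at h
      exact Or.inr h
  by_cases h2 : ρ'.length < lev c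
  · rw [th_low h2] at h
    have := ((take_th c ρ).trans h).length_le
    simp at this; omega
  have e : ρ.take (lev c) = ρ'.take (lev c) :=
    (prefix_of_prefix_length_le ((take_th c ρ).trans h) (take_th c ρ') (by simp; omega)).eq_of_length
      (by simp; omega)
  unfold th at h
  rw [if_neg h1, if_neg h2, e, prefix_append_right_inj, prefix_append_right_inj] at h
  left
  rw [← take_append_drop (lev c) ρ, ← take_append_drop (lev c) ρ', e]
  exact (prefix_append_right_inj _).2 h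

theorem fo_len (ms : List Cd) (ρ : B) : ρ.length ≤ (ms.foldr th ρ).length := by
  induction ms with
  | nil => rfl
  | cons c ms ih => exact ih.trans (len_th _ _)

theorem fo_mono (ms : List Cd) {ρ ρ' : B} (h : ρ <+: ρ') : ms.foldr th ρ <+: ms.foldr th ρ' := by
  induction ms with
  | nil => exact h
  | cons c ms ih => exact th_mono c ih

theorem fo_refl (ms : List Cd) {ρ ρ' : B}
    (h : ms.foldr th ρ <+: ms.foldr th ρ' ∨ ms.foldr th ρ' <+: ms.foldr th ρ) :
    ρ <+: ρ' ∨ ρ' <+: ρ := by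
  induction ms with
  | nil => exact h
  | cons c ms ih => exact ih (h.elim (th_refl c) fun h => (th_refl c h).symm)

theorem ps_len (ms : List Cd) (ρ : B) : ρ.length ≤ (ps ms ρ).length := by
  simpa [ps] using fo_len ms ρ

theorem ps_mono (ms : List Cd) {ρ ρ' : B} (h : ρ <+: ρ') : ps ms ρ <+: ps ms ρ' :=
  (fo_mono ms h).map _

theorem ps_refl (ms : List Cd) {ρ ρ' : B} (h : ps ms ρ <+: ps ms ρ') : ρ <+: ρ' ∨ ρ' <+: ρ := by
  refine fo_refl ms (Or.inl ?_)
  have := h.map fun n => n == 1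
  simpa [ps, Function.comp_def, show ∀ b : Bool, (b.toNat == 1) = b by decide] using this

theorem ps_app (ms ns : List Cd) (ρ : B) : ps (ms ++ ns) ρ = ps ms (ns.foldr th ρ) := by
  simp [ps]

theorem jn_mono {a a' b b' : List ℕ} (h : a <+: a') (h' : b <+: b') : jn a b <+: jn a' b' := by
  refine IsPrefix.map _ ?_
  induction a generalizing a' b b' with
  | nil => simp
  | cons x a ih =>
    cases b with
    | nil => simp
    | cons y b =>
      obtain ⟨a', rfl, h1⟩ := cons_prefix_iff.1 h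
      obtain ⟨b', rfl, h2⟩ := cons_prefix_iff.1 h'
      simpa using ih h1 h2

theorem jn_pre (y z : ℕ → ℕ) (k : ℕ) : jn (pre y k) (pre z k) = pre (fun n => Nat.pair (y n) (z n)) k := by
  simp [jn, pre, zip_map']

theorem sat_iff {ms : List Cd} {q : Rq} : sat ms q = true ↔ ∃ p v w, (ps ms q.2.1)[p]? = some w ∧
    U q.1 (jn (ps ms q.2.2.1) (ps ms q.2.2.2)) p = some v ∧ v ≠ w := by
  simp only [sat, any_eq_true, mem_range]
  constructor
  · rintro ⟨p, h1, h2⟩
    cases h : U q.1 (jn (ps ms q.2.2.1) (ps ms q.2.2.2)) p with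
    | none => simp [h] at h2
    | some v => exact ⟨p, v, _, getElem?_eq_getElem h1, h, by simpa [h, h1] using h2⟩
  · rintro ⟨p, v, w, h1, h2, h3⟩
    exact ⟨p, (List.getElem?_eq_some_iff.1 h1).1, by simpa [h2, h1] using h3⟩

theorem pf_get {a b : List ℕ} (h : a <+: b) {p w : ℕ} (h1 : a[p]? = some w) : b[p]? = some w := by
  obtain ⟨t, rfl⟩ := h
  rw [getElem?_append_left (List.getElem?_eq_some_iff.1 h1).1, h1]

theorem sat_mono {ms ns : List Cd} {q : Rq} (h1 : ps ms q.2.1 <+: ps ns q.2.1)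
    (h2 : ps ms q.2.2.1 <+: ps ns q.2.2.1) (h3 : ps ms q.2.2.2 <+: ps ns q.2.2.2)
    (h : sat ms q = true) : sat ns q = true := by
  obtain ⟨p, v, w, a1, a2, a3⟩ := sat_iff.1 h
  exact sat_iff.2 ⟨p, v, w, pf_get h1 a1, U_mon _ _ _ _ _ (jn_mono h2 h3) a2, a3⟩

theorem req_iff {ms : List Cd} {c : Cd} : req ms c = true ↔ c.1.1 < lev c ∧
    c.1.2.2.1.length = lev c ∧ c.1.2.2.2.length = lev c ∧ sat ms c.1 = false ∧
    sat (ms ++ [c]) c.1 = true := by
  simp [req, and_assoc]

theorem fin_act (n : ℕ) : ∀ᶠ s in atTop, ∀ c, act (st s) s = some c → n ≤ lev c := by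
  induction n with
  | zero => simp
  | succ n ih =>
    obtain ⟨s0, h0⟩ := eventually_atTop.1 ih
    have hf : {q : Rq | q.1 < n ∧ q.2.1.length = n ∧ q.2.2.1.length = n ∧
        q.2.2.2.length = n}.Finite :=
      ((Set.finite_lt_nat n).prod ((finite_length_eq Bool n).prod
        ((finite_length_eq Bool n).prod (finite_length_eq Bool n)))).subset fun q h => h
    have step : ∀ s, s0 ≤ s → ∀ ρ : B, ρ.length = n → ps (st s) ρ <+: ps (st (s + 1)) ρ := by
      intro s hs ρ hρ
      simp only [st, ps_app]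
      cases h : act (st s) s with
      | none => exact prefix_rfl
      | some c => exact ps_mono _ (th_pf (hρ ▸ h0 s hs c h))
    have : ∀ᶠ s in atTop, ∀ q ∈ {q : Rq | q.1 < n ∧ q.2.1.length = n ∧ q.2.2.1.length = n ∧
        q.2.2.2.length = n}, ∀ c, act (st s) s = some c → c.1 ≠ q := by
      rw [eventually_all_finite hf]
      rintro q ⟨-, q1, q2, q3⟩
      by_cases h : ∃ s, s0 ≤ s ∧ ∃ c, act (st s) s = some c ∧ c.1 = q
      · obtain ⟨s, hs, c, h1, rfl⟩ := h
        have : ∀ t, s + 1 ≤ t → sat (st t) c.1 = true := by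
          intro t ht
          induction t, ht using Nat.le_induction with
          | base => simpa [st, h1] using (req_iff.1 (find?_some h1)).2.2.2.2
          | succ t ht ih =>
            exact sat_mono (step t (by omega) _ q1) (step t (by omega) _ q2) (step t (by omega) _ q3) ih
        refine (eventually_ge_atTop (s + 1)).mono fun t ht d h2 e => ?_
        have h3 := (req_iff.1 (find?_some h2)).2.2.2.1
        rw [e, this t ht] at h3
        simp at h3
      · exact (eventually_ge_atTop s0).mono fun t ht d h2 e => h ⟨t, ht, d, h2, e⟩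
    filter_upwards [this, ih] with s h1 h2 c hc
    refine lt_of_le_of_ne (h2 c hc) fun e => ?_
    obtain ⟨a1, a2, a3, -⟩ := req_iff.1 (find?_some hc)
    exact h1 c.1 ⟨e ▸ a1, e.symm, e ▸ a2, e ▸ a3⟩ c hc rfl

theorem lim (ρ : B) : ∃ a, ∀ᶠ s in atTop, ps (st s) ρ = a := by
  obtain ⟨s0, h0⟩ := eventually_atTop.1 (fin_act (ρ.length + 1))
  refine ⟨ps (st s0) ρ, eventually_atTop.2 ⟨s0, fun t ht => ?_⟩⟩
  induction t, ht using Nat.le_induction with
  | base => rfl
  | succ t ht ih =>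
    rw [← ih]
    simp only [st, ps_app]
    cases h : act (st t) t with
    | none => rfl
    | some c => exact congrArg _ (th_low (h0 t ht c h))

noncomputable def ψ (ρ : B) : List ℕ := (lim ρ).choose

theorem ψ_ev (ρ : B) : ∀ᶠ s in atTop, ps (st s) ρ = ψ ρ := (lim ρ).choose_spec

theorem ψ_mono {ρ ρ' : B} (h : ρ <+: ρ') : ψ ρ <+: ψ ρ' := by
  obtain ⟨s, h1, h2⟩ := ((ψ_ev ρ).and (ψ_ev ρ')).exists
  rw [← h1, ← h2]; exact ps_mono _ h

theorem ψ_refl {ρ ρ' : B} (h : ψ ρ <+: ψ ρ') : ρ <+: ρ' ∨ ρ' <+: ρ := by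
  obtain ⟨s, h1, h2⟩ := ((ψ_ev ρ).and (ψ_ev ρ')).exists
  rw [← h1, ← h2] at h; exact ps_refl _ h

theorem ψ_len (ρ : B) : ρ.length ≤ (ψ ρ).length := by
  obtain ⟨s, h1⟩ := (ψ_ev ρ).exists
  rw [← h1]; exact ps_len _ _

theorem T_iff {τ : List ℕ} : T τ = true ↔ ∃ ρ : B, ρ.length = τ.length ∧ τ <+: ps (st τ.length) ρ := by
  simp only [T, any_eq_true, mem_allLists, Bool.and_eq_true, decide_eq_true_eq, prefix_iff_eq_take]
  exact ⟨fun ⟨ρ, _, h1, h2⟩ => ⟨ρ, h1, h2.symm⟩,
    fun ⟨ρ, h1, h2⟩ => ⟨ρ, ⟨h1.le, fun b _ => by cases b <;> simp⟩, h1, h2.symm⟩⟩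

theorem T_of {τ : List ℕ} {t : ℕ} {ρ : B} (h : τ <+: ps (st t) ρ) (h1 : τ.length ≤ t)
    (h2 : τ.length ≤ ρ.length) : T τ = true := by
  obtain ⟨ns, e⟩ : st τ.length <+: st t := by
    clear h
    induction t, h1 using Nat.le_induction with
    | base => exact prefix_rfl
    | succ t ht ih => exact ih.trans (prefix_append _ _)
  rw [← e, ps_app] at h
  have := fo_len ns ρ
  have h3 : ((ns.foldr th ρ).take τ.length).length = τ.length := by simp; omega
  exact T_iff.2 ⟨_, h3, prefix_of_prefix_length_le h (ps_mono _ (take_prefix _ _))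
    (h3.ge.trans (ps_len _ _))⟩

theorem T_pf {σ τ : List ℕ} (h : σ <+: τ) (h1 : T τ = true) : T σ = true :=
  let ⟨_, a, b⟩ := T_iff.1 h1
  T_of (h.trans b) h.length_le (a ▸ h.length_le)

theorem T_bin {τ : List ℕ} (h : T τ = true) : ∀ i ∈ τ, i < 2 := by
  obtain ⟨ρ, -, b⟩ := T_iff.1 h
  intro i hi
  obtain ⟨c, -, rfl⟩ := mem_map.1 (b.subset hi)
  cases c <;> simp

def Sub (a : List ℕ) (x : ℕ → ℕ) : Prop := ∀ p w, a[p]? = some w → x p = w

theorem sub_pre (x : ℕ → ℕ) (k : ℕ) : Sub (pre x k) x := fun p w h => by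
  have := (List.getElem?_eq_some_iff.1 h).1
  rw [getElem?_pre x (by simpa using this)] at h
  exact Option.some.inj h

theorem Sub.pf {a b : List ℕ} {x : ℕ → ℕ} (h : Sub b x) (h1 : a <+: b) : Sub a x :=
  fun p w h2 => h p w (pf_get h1 h2)

theorem Sub.eq {a : List ℕ} {x : ℕ → ℕ} (h : Sub a x) : a = pre x a.length :=
  List.ext_getElem (by simp) fun i h1 _ => by simpa [pre] using (h i _ (getElem?_eq_getElem h1)).symm

theorem Sub.le {a b : List ℕ} {x : ℕ → ℕ} (h : Sub a x) (h' : Sub b x) (e : a.length ≤ b.length) :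
    a <+: b := by rw [h.eq, h'.eq]; exact pre_pf x e

theorem path {x : ℕ → ℕ} (hx : ∀ n, T (pre x n) = true) : ∃ X, ∀ n, Sub (ψ (pre X n)) x := by
  refine exists_path (T := fun ρ => Sub (ψ ρ) x) fun k => ?_
  have : ∀ᶠ s in atTop, ∀ ρ ∈ {ρ : B | ρ.length = k}, ps (st s) ρ = ψ ρ ∧ (ψ ρ).length ≤ s :=
    (eventually_all_finite (finite_length_eq Bool k)).2 fun ρ _ =>
      (ψ_ev ρ).and (eventually_ge_atTop _)
  obtain ⟨s, h1, h2⟩ := (this.and (eventually_ge_atTop k)).exists
  obtain ⟨ρ, a, b⟩ := T_iff.1 (hx s)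
  rw [length_pre] at a b
  have e : (ρ.take k).length = k := by simp; omega
  obtain ⟨c, d⟩ := h1 _ e
  refine ⟨fun i => (ρ.take k).getD i false, fun j hj => Sub.pf ?_ (ψ_mono (pre_pf _ hj))⟩
  conv => enter [1, 1, 2]; rw [← e]
  rw [pre_getD]
  exact (sub_pre x s).pf (prefix_of_prefix_length_le (c ▸ ps_mono _ (take_prefix _ _)) b
    (by simpa using d))

theorem member (X : ℕ → Bool) : ∃ x, (∀ n, T (pre x n) = true) ∧ ∀ n, Sub (ψ (pre X n)) x := by
  have h : ∀ n, Sub (ψ (pre X n)) fun i => (ψ (pre X (i + 1))).getD i 0 := fun n p w h => by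
    have h1 : p < (ψ (pre X (p + 1))).length := by simpa using ψ_len (pre X (p + 1))
    rcases le_total n (p + 1) with e | e
    · simp [pf_get (ψ_mono (pre_pf X e)) h]
    · have := pf_get (ψ_mono (pre_pf X e)) (getElem?_eq_getElem h1)
      rw [h] at this
      simp [h1, Option.some.inj this]
  refine ⟨_, fun s => ?_, h⟩
  obtain ⟨t, h1, h2⟩ := ((ψ_ev (pre X s)).and (eventually_ge_atTop s)).exists
  exact T_of (h1 ▸ (sub_pre _ s).le (h s) (by simpa using ψ_len (pre X s))) (by simpa using h2)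
    (by simp)

theorem split (σ : B) : ∃ (p w w' : ℕ), (ψ (σ ++ [false]))[p]? = some w ∧ (ψ (σ ++ [true]))[p]? = some w' ∧
    w ≠ w' := by
  by_contra hn
  push Not at hn
  have : ∀ a b : List ℕ, (∀ p w w' : ℕ, a[p]? = some w → b[p]? = some w' → w = w') →
      a.length ≤ b.length → a <+: b := fun a b h e =>
    Sub.le (x := fun i => b.getD i 0) (fun p w h1 => by
      have := (List.getElem?_eq_some_iff.1 h1).1
      simp [h p w _ h1 (getElem?_eq_getElem (by omega)), show p < b.length by omega])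
      (fun p w h1 => by simp [h1]) e
  rcases le_total (ψ (σ ++ [false])).length (ψ (σ ++ [true])).length with e | e
  · simpa using ψ_refl (this _ _ hn e)
  · simpa using ψ_refl (this _ _ (fun p w w' a b => (hn p w' w b a).symm) e)

theorem ne_ev {X Y : ℕ → Bool} (h : X ≠ Y) : ∀ᶠ n in atTop, pre X n ≠ pre Y n := by
  obtain ⟨i, hi⟩ := Function.ne_iff.1 h
  exact (eventually_gt_atTop i).mono fun n hn e => hi (pre_eq_iff.1 e i hn)

theorem indep {x y z : ℕ → ℕ} (hx : ∀ n, T (pre x n) = true) (hy : ∀ n, T (pre y n) = true)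
    (hz : ∀ n, T (pre z n) = true) (h : CI (orc fun n => Nat.pair (y n) (z n)) x) :
    x = y ∨ x = z := by
  by_contra hn
  push Not at hn
  obtain ⟨X, hX⟩ := path hx
  obtain ⟨Y, hY⟩ := path hy
  obtain ⟨Z, hZ⟩ := path hz
  obtain ⟨e, he⟩ := exists_app_tot h
  have eq : ∀ {y} {Y : ℕ → Bool}, (∀ n, Sub (ψ (pre Y n)) y) → x ≠ y → X ≠ Y := by
    rintro y _ hY hne rfl
    refine hne (funext fun i => ?_)
    have h1 : i < (ψ (pre X (i + 1))).length := by simpa using ψ_len (pre X (i + 1))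
    rw [hX _ i _ (getElem?_eq_getElem h1), hY _ i _ (getElem?_eq_getElem h1)]
  have e3 : ∀ᶠ n in atTop, pre Y n = pre Z n → Y = Z := by
    by_cases h : Y = Z
    · simp [h]
    · exact (ne_ev h).mono fun n a b => absurd b a
  obtain ⟨n, ⟨⟨n1, n2⟩, n3⟩, n4⟩ := ((((ne_ev (eq hY hn.1)).and (ne_ev (eq hZ hn.2))).and e3).and
    (eventually_gt_atTop e)).exists
  obtain ⟨p, w, w', a1, a2, a3⟩ := split (pre X n)
  obtain ⟨b, w, a1, a2⟩ : ∃ b w, (ψ (pre X n ++ [b]))[p]? = some w ∧ x p ≠ w := by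
    by_cases h : x p = w
    · exact ⟨true, w', a2, h ▸ a3⟩
    · exact ⟨false, w, a1, h⟩
  obtain ⟨k, hk⟩ := mem_app.1 (he p)
  set c : Cd := ((e, pre X n, pre Y n, pre Z n), [b], (pre Y (n + k)).drop n, (pre Z (n + k)).drop n)
    with hc
  have l : lev c = n := by simp [hc, lev]
  have t0 : ∀ W : ℕ → Bool, th c (pre W n) = pre W n ++ ins c (pre W n) := fun W => by
    simp [th, l, take_pre W le_rfl]
  have t1 : ∀ W : ℕ → Bool, pre W n ++ (pre W (n + k)).drop n = pre W (n + k) := fun W => by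
    rw [← take_pre W (Nat.le_add_right n k), take_append_drop]
  have tX : th c (pre X n) = pre X n ++ [b] := by rw [t0]; simp [ins, hc]
  have tY : th c (pre Y n) = pre Y (n + k) := by rw [t0]; simp [ins, hc, n1.symm, t1]
  have tZ : th c (pre Z n) = pre Z (n + k) := by
    by_cases h : pre Z n = pre Y n
    · rw [← n3 h.symm, tY]
    · rw [t0]; simp [ins, hc, n2.symm, t1, h]
  have ev : ∀ᶠ s in atTop, req (st s) c = true := by
    filter_upwards [ψ_ev (pre X n), ψ_ev (pre Y n), ψ_ev (pre Z n), ψ_ev (pre X n ++ [b]),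
      ψ_ev (pre Y (n + k)), ψ_ev (pre Z (n + k))] with s s1 s2 s3 s4 s5 s6
    refine req_iff.2 ⟨l ▸ n4, by rw [l]; simp [hc], by rw [l]; simp [hc], ?_, sat_iff.2 ⟨p, x p, w, ?_, ?_, a2⟩⟩
    · rw [← Bool.not_eq_true, sat_iff]
      rintro ⟨p, v, w, b1, b2, b3⟩
      simp only [hc, s1, s2, s3] at b1 b2
      have := mem_app.2 ⟨(ψ (pre Y n)).length + (ψ (pre Z n)).length, U_mon _ _ _ _ _
        (jn_pre y z _ ▸ jn_mono ((hY n).le (sub_pre y _) (by simp))
          ((hZ n).le (sub_pre z _) (by simp))) b2⟩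
      exact b3 ((Part.mem_unique this (he p)).trans (hX n p w b1))
    · simp only [ps_app, foldr_cons, foldr_nil, hc]
      rw [← hc, tX, s4, a1]
    · simp only [ps_app, foldr_cons, foldr_nil, hc]
      rw [← hc, tY, tZ, s5, s6]
      refine U_mon _ _ _ _ _ (jn_pre y z _ ▸ jn_mono ((sub_pre y _).le (hY _) ?_)
        ((sub_pre z _).le (hZ _) ?_)) hk
      · have := ψ_len (pre Y (n + k)); simp at this ⊢; omega
      · have := ψ_len (pre Z (n + k)); simp at this ⊢; omega
  set N := (Finset.range (encode c + 1)).sup fun i => ((decode (α := Cd) i).map lev).getD 0 with hN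
  obtain ⟨s, ⟨s1, s2⟩, s3⟩ := ((ev.and (fin_act (N + 1))).and (eventually_gt_atTop (encode c))).exists
  obtain ⟨j, rfl⟩ := Nat.exists_eq_add_of_le (Nat.succ_le_of_lt s3)
  obtain ⟨d, hd⟩ : ∃ d, ((range (encode c + 1)).filterMap fun i => decode (α := Cd) i).find?
      (req (st (encode c + 1 + j))) = some d :=
    Option.isSome_iff_exists.1 (find?_isSome.2 ⟨c, mem_filterMap.2 ⟨encode c, by simp, encodek c⟩, s1⟩)
  have := s2 d (by rw [act, Nat.succ_eq_add_one, range_add, filterMap_append, find?_append, hd]; rfl)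
  obtain ⟨i, i1, i2⟩ := mem_filterMap.1 (mem_of_find?_eq_some hd)
  have h2 := Finset.le_sup (f := fun i => ((decode (α := Cd) i).map lev).getD 0)
    (Finset.mem_range.2 (mem_range.1 i1))
  simp only [i2, Option.map_some, Option.getD_some] at h2
  omega

theorem two : ∃ x y, (∀ n, T (pre x n) = true) ∧ (∀ n, T (pre y n) = true) ∧ x ≠ y := by
  obtain ⟨x, x1, x2⟩ := member fun _ => false
  obtain ⟨y, y1, y2⟩ := member fun _ => true
  obtain ⟨p, w, w', a1, a2, a3⟩ := split []
  refine ⟨x, y, x1, y1, fun e => a3 ?_⟩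
  rw [← x2 1 p w a1, ← y2 1 p w' a2, e]

theorem not_comp {x : ℕ → ℕ} (hx : ∀ n, T (pre x n) = true) : ¬ CI ∅ x := fun h => by
  obtain ⟨y, z, y1, z1, e⟩ := two
  have h1 := (indep hx y1 y1 h.of_empty).elim id id
  have h2 := (indep hx z1 z1 h.of_empty).elim id id
  exact e (h1.symm.trans h2)

end Pool.Agent.H37.Ind
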