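import Pool.Agent.H37.Dim4
import Pool.Agent.H37.Indep

/-! Bounded classes as binary classes; the two readings of the representation problem. -/

set_option autoImplicit false

namespace Pool.Agent.H37.Dim

open Filter Encodable Rnd PD Hd

/-- the graph of a function -/
def gr (x : ℕ → ℕ) (m : ℕ) : Bool := x m.unpair.1 == m.unpair.2

theorem gr_inj {x x' : ℕ → ℕ} (h : gr x = gr x') : x = x' := funext fun i => by
  simpa [gr] using congrFun h (Nat.pair i (x' i))

theorem gr_deg (x : ℕ → ℕ) : CI (orc x) (gr x) ∧ CI (orc (bit (gr x))) x := by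
  have h1 := CI.self x
  have h2 : CI (orc (bit (gr x))) (gr x) := LE.refl _
  refine ⟨by unfold gr; fun_prop, ?_⟩
  obtain ⟨f, hf, e⟩ := CI.exists_choice (O := orc (bit (gr x)))
    (p := fun i j : ℕ => gr x (Nat.pair i j)) (by fun_prop) fun i => ⟨x i, by simp [gr]⟩
  exact hf.of_eq fun i => Eq.symm (by simpa [gr] using e i)

theorem getD_or (y : ℕ → Bool) (n p : ℕ) (d : Bool) :
    (pre y n).getD p d = y p ∨ (pre y n).getD p d = d := by
  by_cases h : p < n
  · exact Or.inl (getD_pre y h d)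
  · exact Or.inr (List.getD_eq_default _ _ (by simpa using h))

theorem bin {P : Set (ℕ → ℕ)} (h : CB P) : ∃ T : List Bool → Bool, CI ∅ T ∧
    ∀ y, (∀ j, T (pre y j) = true) ↔ ∃ x ∈ P, y = gr x := by
  obtain ⟨S, g, h1, h2, h3, h4, rfl⟩ := h
  obtain ⟨D, hD, eD⟩ := computablePred_iff.1 h1
  have hg := CI.of_comp (O := ∅) h3
  obtain ⟨T, hT, eT⟩ : ∃ T : List Bool → Bool, CI ∅ T ∧ ∀ σ, T σ = true ↔
      (∀ i < σ.length, ∀ j < σ.length, ∀ j' < σ.length, σ.getD (Nat.pair i j) false = true →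
        σ.getD (Nat.pair i j') false = true → j = j') ∧ ∀ τ : List ℕ, encode τ < σ.length →
        (∀ i < τ.length, σ.getD (Nat.pair i (τ.getD i 0)) false = true) →
        τ ∈ S ∧ ∃ j < g τ, σ.getD (Nat.pair τ.length j) true = true := by
    refine ⟨fun σ => ((List.range σ.length).all fun i => (List.range σ.length).all fun j =>
      (List.range σ.length).all fun j' => !σ.getD (Nat.pair i j) false ||
        (!σ.getD (Nat.pair i j') false || j == j')) &&
      ((List.range σ.length).map (Denumerable.ofNat (List ℕ))).all fun τ =>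
        !((List.range τ.length).all fun i => σ.getD (Nat.pair i (τ.getD i 0)) false) ||
        (D τ && (List.range (g τ)).any fun j => σ.getD (Nat.pair τ.length j) true),
      by fun_prop, fun σ => ?_⟩
    simp only [Bool.and_eq_true, List.all_eq_true, List.mem_range, Bool.or_eq_true,
      Bool.not_eq_true', ← Bool.not_eq_true, ← imp_iff_not_or, beq_iff_eq, List.mem_map,
      List.any_eq_true, ← eD, forall_exists_index, and_imp, forall_apply_eq_imp_iff₂]
    exact and_congr_right fun _ => ⟨fun H τ hτ => by simpa using H _ hτ,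
      fun H m hm => H _ (by simpa using hm)⟩
  refine ⟨T, hT, fun y => ?_⟩
  simp only [eT, length_pre]
  have ev : ∀ (u : ℕ → ℕ) (K : ℕ), ∀ᶠ n in atTop, ∀ j < K, u j < n := fun u K => by
    simpa using (eventually_all_finset (Finset.range K)).2 fun j _ => eventually_gt_atTop (u j)
  have tr : ∀ y n p, (pre y n).getD p false = true → y p = true := fun y n p h => by
    rcases getD_or y n p false with e | e
    exacts [e ▸ h, by rw [e] at h; simp at h]
  constructor
  · intro H
    have a : ∀ i j j', y (Nat.pair i j) = true → y (Nat.pair i j') = true → j = j' :=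
      fun i j j' e e' => by
        have := Nat.left_le_pair i j
        have := Nat.right_le_pair i j
        have := Nat.right_le_pair i j'
        exact (H (Nat.pair i j + Nat.pair i j' + 1)).1 i (by omega) j (by omega) j' (by omega)
          (by rwa [getD_pre _ (by omega)]) (by rwa [getD_pre _ (by omega)])
    have b : ∀ τ : List ℕ, (∀ i < τ.length, y (Nat.pair i (τ.getD i 0)) = true) →
        τ ∈ S ∧ ∃ j, y (Nat.pair τ.length j) = true := fun τ hτ => by
      obtain ⟨n, e1, e2, e3⟩ := ((eventually_gt_atTop (encode τ)).and ((ev (fun i => Nat.pair i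
        (τ.getD i 0)) τ.length).and (ev (Nat.pair τ.length) (g τ)))).exists
      obtain ⟨h5, j, hj, h6⟩ := (H n).2 τ e1 fun i hi => by rw [getD_pre _ (e2 i hi), hτ i hi]
      exact ⟨h5, j, by rwa [getD_pre _ (e3 j hj)] at h6⟩
    have c : ∀ k, ∃ j, y (Nat.pair k j) = true := fun k => by
      induction k using Nat.strong_induction_on with
      | _ k ih =>
        choose! x hx using ih
        simpa using (b (pre x k) fun i hi => by
          rw [length_pre] at hi; rw [getD_pre _ hi, hx i hi]).2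
    choose x hx using c
    refine ⟨x, fun n => (b (pre x n) fun i hi => by
      rw [length_pre] at hi; rw [getD_pre _ hi, hx i]).1, funext fun m => ?_⟩
    rw [Bool.eq_iff_iff, gr, beq_iff_eq]
    exact ⟨fun h => a _ _ _ (hx _) (by simpa using h), fun h => by simpa [h] using hx m.unpair.1⟩
  · rintro ⟨x, hx, rfl⟩ n
    refine ⟨fun i _ j _ j' _ e e' => ?_, fun τ _ hτ => ?_⟩
    · have := tr _ _ _ e
      have := tr _ _ _ e'
      simp only [gr, Nat.unpair_pair, beq_iff_eq] at *
      omega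
    · have e : τ = pre x τ.length := (pre_getD τ 0).symm.trans (pre_congr fun i hi => Eq.symm (by
        simpa [gr] using tr _ _ _ (hτ i hi)))
      refine ⟨e ▸ hx _, x τ.length, h4 _ _ ?_, ?_⟩
      · rw [e, length_pre, ← pre_succ]; exact hx _
      · rcases getD_or (gr x) n (Nat.pair τ.length (x τ.length)) true with e | e
        exacts [by rw [e]; simp [gr], e]

theorem yes {P : Set (ℕ → ℕ)} (h : CB P) : ∃ A R, CPO A R ∧ RepPerm 3 P (Sol A R 3) := by
  obtain ⟨T, hT, e⟩ := bin h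
  have : ∀ f : Sol {a | InA cc (ZZ T) a} (Rl cc (ZZ T)) 3, ∃ x : P, Rel T f (gr x) := fun f => by
    obtain ⟨y, h1, h2⟩ := ex_path f.2
    obtain ⟨x, hx, rfl⟩ := (e y).1 h1
    exact ⟨⟨x, hx⟩, h2⟩
  choose F hF using this
  refine ⟨_, _, cpo hT, F, fun x => ?_, fun f g => ?_, fun f => ?_⟩
  · obtain ⟨f, h1, h2⟩ := ex_sol ((e _).2 ⟨x, x.2, rfl⟩)
    exact ⟨⟨f, h1⟩, Subtype.ext (gr_inj ((uniq (hF _) h2).2 ⟨1, fun _ _ _ => Iff.rfl⟩))⟩
  · rw [← uniq (hF f) (hF g)]
    exact ⟨fun h => by rw [h], fun h => Subtype.ext (gr_inj h)⟩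
  · obtain ⟨h1, h2⟩ := deg hT f.2 (hF f)
    exact ⟨((gr_deg _).2.trans (ci_bit.2 h1)).ri, (h2.trans (ci_bit.2 (gr_deg _).1)).ri⟩

theorem no : ∃ P, CB P ∧ ∀ A R n, CPO A R → ¬ Rep P (Sol A R n) := by
  refine ⟨{x | ∀ n, Ind.T (pre x n) = true}, ⟨{σ | Ind.T σ = true}, fun _ => 2,
    computablePred_of _ Ind.ci_T fun _ => Iff.rfl, fun _ _ => Ind.T_pf, Computable.const _,
    fun σ i h => Ind.T_bin h i (by simp), rfl⟩, fun A R n hR ⟨F, h1, h2⟩ => ?_⟩
  obtain ⟨x, -, hx, -⟩ := Ind.two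
  obtain ⟨f, ef⟩ : ∃ f, f = F ⟨x, hx⟩ := ⟨_, rfl⟩
  obtain ⟨f1, f2, f3, f4⟩ := f.2
  have key : ∀ i < n, ∀ j < n, ∀ a b, Lr f i a b ↔ Lr f j a b := fun i hi j hj a b => by
    have s : ∀ k, Equiv.swap i j k < n ↔ k < n := fun k => by
      rw [Equiv.swap_apply_def]; split_ifs <;> omega
    let g : ℕ → ℕ := fun m => f.1 (Nat.pair (Equiv.swap i j m.unpair.1) m.unpair.2)
    have e : ∀ k a b, Lr g k a b ↔ Lr f (Equiv.swap i j k) a b := fun k a b => by simp [Lr, g]
    have hg : g ∈ Sol A R n := by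
      refine ⟨fun m => f1 _, fun k a b h => ?_, fun k hk => ?_, fun a ha b hb => ?_⟩
      · simpa only [s] using f2 _ a b ((e _ _ _).1 h)
      · simpa only [e] using f3 _ ((s k).2 hk)
      · simp only [f4 a ha b hb, e]
        exact ⟨fun h k hk => h _ ((s k).2 hk), fun h k hk => by
          simpa using h (Equiv.swap i j k) ((s k).2 hk)⟩
    obtain ⟨y, hy⟩ := h1.2 ⟨g, hg⟩
    have c0 := CI.self f.1
    have c1 : CI (orc f.1) g := by simp only [g, Equiv.swap_apply_def]; fun_prop
    have c2 : CI (orc g) y.1 := by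
      have := (h2 y).2
      rw [hy] at this
      exact CI.of_ri this
    have c3 : CI (orc x) f.1 := ef ▸ CI.of_ri (h2 ⟨x, hx⟩).1
    have c4 : CI (orc fun n => Nat.pair (x n) (x n)) x :=
      (CI.fst (CI.unpair (CI.self fun n => Nat.pair (x n) (x n)))).of_eq fun n => by simp
    have : y = ⟨x, hx⟩ :=
      Subtype.ext ((Ind.indep y.2 hx hx (((c2.trans c1).trans c3).trans c4)).elim id id)
    have : g = f.1 := by rw [ef, ← this, hy]
    simpa only [this, Equiv.swap_apply_left] using e i a b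
  obtain ⟨D, hD, eD⟩ := computablePred_iff.1 hR.2.1
  have c2 : CI (orc f.1) x := ef ▸ CI.of_ri (h2 ⟨x, hx⟩).2
  refine Ind.not_comp hx (c2.trans ((show CI ∅ fun m : ℕ => (decide (m.unpair.1 < n) &&
    D m.unpair.2.unpair).toNat by fun_prop).of_eq fun m => ?_))
  obtain ⟨i, a, b, rfl⟩ : ∃ i a b, m = Nat.pair i (Nat.pair a b) :=
    ⟨m.unpair.1, m.unpair.2.unpair.1, m.unpair.2.unpair.2, by simp⟩
  have h0 := f1 (Nat.pair i (Nat.pair a b))
  have h3 : Lr f i a b ↔ i < n ∧ D (a, b) = true := by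
    rw [← eD]
    refine ⟨fun h => ?_, fun ⟨h, h'⟩ => (f4 a (hR.2.2.1 _ _ h').1 b (hR.2.2.1 _ _ h').2).1 h' i h⟩
    obtain ⟨h4, h5, h6⟩ := f2 _ _ _ h
    exact ⟨h4, (f4 a h5 b h6).2 fun j hj => (key i h4 j hj a b).1 h⟩
  simp only [Nat.unpair_pair, Lr] at h3 ⊢
  by_cases hi : i < n <;> cases hd : D (a, b) <;> simp [hi, hd] at h3 ⊢ <;> omega

end Pool.Agent.H37.Dim
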