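import Pool.Agent.H37.Kc1

/-! Plain complexity cannot be guessed from a string and its self-delimiting complexity. -/

set_option autoImplicit false

namespace Pool.Agent.H37.Kc

open Encodable Rnd Defc Finset Classical

/-- complexity with respect to a machine -/
noncomputable def cx (M : List Bool →. List Bool) (x : List Bool) : ℕ :=
  sInf {m : ℕ | ∃ q : List Bool, q.length = m ∧ x ∈ M q}

def LeC (M : List Bool →. List Bool) (x : List Bool) (n : ℕ) : Prop :=
  ∃ q : List Bool, q.length ≤ n ∧ x ∈ M q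

theorem LeC.le {M : List Bool →. List Bool} {x : List Bool} {n : ℕ} (h : LeC M x n) :
    cx M x ≤ n := by
  obtain ⟨q, h1, h2⟩ := h
  exact (Nat.sInf_le (s := {m : ℕ | ∃ q : List Bool, q.length = m ∧ x ∈ M q}) ⟨q, rfl, h2⟩).trans h1

theorem LeC.ex {M : List Bool →. List Bool} {x : List Bool} {n : ℕ} (h : LeC M x n) :
    ∃ q : List Bool, q.length = cx M x ∧ x ∈ M q := by
  obtain ⟨q, -, h2⟩ := h
  exact Nat.sInf_mem (s := {m : ℕ | ∃ q : List Bool, q.length = m ∧ x ∈ M q}) ⟨_, q, rfl, h2⟩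

theorem re_LeC {M : List Bool →. List Bool} (hM : Partrec M) :
    REPred fun q : List Bool × ℕ => LeC M q.1 q.2 := by
  obtain ⟨F, hF, -, eF⟩ := partrec_stage hM
  obtain ⟨G, hG, eG⟩ : ∃ G : List Bool × ℕ → Option (List Bool), CI ∅ G ∧
    ∀ a t, F a t = G (a, t) := ⟨_, hF, fun _ _ => rfl⟩
  refine re_of_exists (fun q (r : List Bool × ℕ) => decide (r.1.length ≤ q.2) && G r == some q.1)
    (by fun_prop) fun q => ?_
  simp only [LeC, eF, eG, Bool.and_eq_true, beq_iff_eq, decide_eq_true_eq, Prod.exists]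
  exact exists_congr fun c => exists_and_left.symm

theorem card_LeC (M : List Bool →. List Bool) (n : ℕ) (S : Finset (List Bool))
    (h : ∀ x ∈ S, LeC M x n) : S.card ≤ 2 ^ (n + 1) := by
  choose! f hf using h
  refine le_trans (card_le_card_of_injOn (t := (range (n + 1)).biUnion fun j => (W j).toFinset) f
    (fun σ hσ => ?_) fun σ hσ τ hτ e => Part.mem_unique (hf σ hσ).2 (e ▸ (hf τ hτ).2)) ?_
  · have := (hf σ hσ).1
    simp only [coe_biUnion, coe_range, Set.mem_iUnion, mem_coe, List.mem_toFinset, mem_W,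
      Set.mem_Iio]
    exact ⟨_, by omega, rfl⟩
  · refine le_trans card_biUnion_le (le_trans (sum_le_sum fun j _ =>
      (List.toFinset_card_le _).trans (length_W j).le) ?_)
    rw [Nat.geomSum_eq le_rfl]; simp

theorem wt_le {V : List Bool →. List Bool}
    (pf : ∀ p q : List Bool, (V p).Dom → (V q).Dom → p <+: q → p = q) (Y : Finset (List Bool))
    (h : ∀ x ∈ Y, ∃ n, LeC V x n) : ∑ x ∈ Y, ((1 : ℝ) / 2) ^ cx V x ≤ 1 := by
  choose! f hf using fun x hx => (h x hx).choose_spec.ex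
  have := kraft (Y.image f) fun p hp q hq hpq => by
    obtain ⟨x, hx, rfl⟩ := mem_image.1 hp
    obtain ⟨y, hy, rfl⟩ := mem_image.1 hq
    exact pf _ _ (Part.dom_iff_mem.2 ⟨_, (hf x hx).2⟩) (Part.dom_iff_mem.2 ⟨_, (hf y hy).2⟩) hpq
  rw [sum_image (g := f) fun x hx y hy e =>
    Part.mem_unique (hf x hx).2 (by rw [e]; exact (hf y hy).2)] at this
  exact le_trans (le_of_eq (sum_congr rfl fun x hx => by rw [(hf x hx).1])) this

def AA (c : ℕ) : ℕ := 2 ^ (2 * c + 4)
def tt (c : ℕ) : ℕ := AA c * (4 * c + 10)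
def bb (c r : ℕ) : ℕ := r * tt c + (2 * c + 5)
def row (c r t : ℕ) : ℕ := (r * AA c + (AA c - 1 - t)) * (4 * c + 10)
def ka (c r j : ℕ) : ℕ := bb c r + (2 ^ (tt c + 1) + c + 3) - j
def cols (c r j : ℕ) : List (List Bool) := (W (bb c r)).map (zs (Nat.pair r j) ++ ·)

theorem nodup_cols (c r j : ℕ) : (cols c r j).Nodup :=
  (nodup_W _).map fun _ _ h => List.append_cancel_left h

theorem card_cols (c r j : ℕ) : (cols c r j).toFinset.card = 2 * AA c * 2 ^ (r * tt c) := by
  rw [List.toFinset_card_of_nodup (nodup_cols _ _ _), cols, List.length_map, length_W, bb, AA]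
  ring

theorem cols_inj {c r j r' j' : ℕ} {x : List Bool} (h : x ∈ cols c r j) (h' : x ∈ cols c r' j') :
    r = r' ∧ j = j' := by
  obtain ⟨y, -, e⟩ := List.mem_map.1 h
  obtain ⟨y', -, e'⟩ := List.mem_map.1 h'
  rw [← Nat.pair_eq_pair]
  by_contra hne
  exact (List.prefix_or_prefix_of_prefix ⟨y, e⟩ ⟨y', e'⟩).elim (zs_not hne) (zs_not (Ne.symm hne))

theorem row_bd (c r t : ℕ) : r * tt c ≤ row c r t ∧ row c r t ≤ r * tt c + tt c := by
  unfold row tt
  constructor <;> nlinarith [Nat.sub_le (AA c - 1) t, Nat.sub_le (AA c) 1,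
    Nat.zero_le ((AA c - 1 - t) * (4 * c + 10)),
    Nat.mul_le_mul_right (4 * c + 10) ((Nat.sub_le (AA c - 1) t).trans (Nat.sub_le (AA c) 1))]

theorem row_lt {c r t t' : ℕ} (h : t < t') (h' : t' < AA c) :
    row c r t' + (4 * c + 10) ≤ row c r t := by
  unfold row
  rw [← Nat.succ_mul]
  exact Nat.mul_le_mul_right _ (by omega)

theorem row_inj {c r t r' t' : ℕ} (h : t < AA c) (h' : t' < AA c) (e : row c r t = row c r' t') :
    r = r' ∧ t = t' := by
  have e1 := Nat.eq_of_mul_eq_mul_right (by omega) e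
  have : r = r' := by
    rcases lt_trichotomy r r' with a | a | a
    · have := Nat.mul_le_mul_right (AA c) (Nat.succ_le_of_lt a); rw [Nat.succ_mul] at this; omega
    · exact a
    · have := Nat.mul_le_mul_right (AA c) (Nat.succ_le_of_lt a); rw [Nat.succ_mul] at this; omega
  subst this
  exact ⟨rfl, by omega⟩

variable (Wm V : List Bool →. List Bool) (Γ : List Bool × ℕ × ℕ → Prop)

/-- number of strings of a phase with a short plain description -/
noncomputable def dr (c r j n : ℕ) : ℕ := ((cols c r j).toFinset.filter (LeC Wm · n)).card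

def Foll (c r j t : ℕ) (x : List Bool) : Prop :=
  ∃ q : ℕ × ℕ, (row c r t < q.1 ∧ q.1 ≤ row c r t + (4 * c + 10) ∧ q.2 ≤ ka c r j + c + 1) ∧
    LeC V x q.2 ∧ Γ (x, q.2, q.1)

noncomputable def fo (c r j t : ℕ) : ℕ := ((cols c r j).toFinset.filter (Foll V Γ c r j t)).card

theorem dr_mono {c r j n m : ℕ} (h : n ≤ m) : dr Wm c r j n ≤ dr Wm c r j m :=
  card_le_card (monotone_filter_right _ fun _ _ ⟨q, h1, h2⟩ => ⟨q, h1.trans h, h2⟩)

theorem dr_sum (c r n : ℕ) (J : Finset ℕ) (h : ∀ j ∈ J, 2 ^ (r * tt c) ≤ dr Wm c r j n) :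
    J.card * 2 ^ (r * tt c) ≤ 2 ^ (n + 1) := by
  refine le_trans (card_nsmul_le_sum J _ _ h) ?_
  unfold dr
  rw [← card_biUnion fun a _ b _ hab => disjoint_left.2 fun x hx hy => hab
    (cols_inj (List.mem_toFinset.1 (mem_filter.1 hx).1) (List.mem_toFinset.1 (mem_filter.1 hy).1)).2]
  refine card_LeC Wm n _ fun x hx => ?_
  obtain ⟨j, -, hj⟩ := mem_biUnion.1 hx
  exact (mem_filter.1 hj).2

theorem card_sum (l : List (List Bool)) (hl : l.Nodup) (p : List Bool → Prop) :
    (l.toFinset.filter p).card = (l.map fun x => if p x then 1 else 0).sum := by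
  rw [card_filter, List.sum_toFinset _ hl]

theorem pay {c r j : ℕ} (bd : ∀ x k (S : Finset ℕ), (∀ v ∈ S, Γ (x, k, v)) → S.card ≤ 2 ^ c)
    (hj : j ≤ 2 ^ (tt c + 1))
    (h : ∀ t < AA c, 2 * AA c * 2 ^ (r * tt c) ≤ fo V Γ c r j t + 2 ^ (r * tt c)) :
    ∃ S ⊆ (cols c r j).toFinset, (∀ x ∈ S, ∃ n, LeC V x n) ∧
      2 ^ (j + c + 3) * ((1 : ℝ) / 2) ^ (2 ^ (tt c + 1) + c + 3) ≤
        ∑ x ∈ S, ((1 : ℝ) / 2) ^ cx V x := by
  let S := (cols c r j).toFinset.filter fun x => ∀ t < AA c, Foll V Γ c r j t x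
  have A0 : 0 < AA c := Nat.two_pow_pos _
  have h1 : AA c * 2 ^ (r * tt c) ≤ S.card := by
    have a1 := card_filter_add_card_filter_not (s := (cols c r j).toFinset)
      fun x => ∀ t < AA c, Foll V Γ c r j t x
    have a2 : ((cols c r j).toFinset.filter fun x => ¬ ∀ t < AA c, Foll V Γ c r j t x).card ≤
        AA c * 2 ^ (r * tt c) := by
      refine le_trans (card_le_card (t := (range (AA c)).biUnion fun t =>
        (cols c r j).toFinset.filter fun x => ¬ Foll V Γ c r j t x) fun x hx => ?_)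
        (le_trans (card_biUnion_le_card_mul _ _ (2 ^ (r * tt c)) fun t ht => ?_) (by simp))
      · simp only [mem_filter, not_forall, mem_biUnion, mem_range] at hx ⊢
        obtain ⟨h1, t, h2, h3⟩ := hx
        exact ⟨t, h2, h1, h3⟩
      · have := card_filter_add_card_filter_not (s := (cols c r j).toFinset) (Foll V Γ c r j t)
        have := h t (mem_range.1 ht)
        rw [← card_cols c r j, fo] at this
        omega
    rw [card_cols, mul_assoc] at a1
    simp only [S]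
    omega
  have h2 : ∀ x ∈ S, cx V x + (2 * c + 5) ≤ ka c r j + c + 1 := fun x hx => by
    choose! q hq using (mem_filter.1 hx).2
    have := card_le_mul_card_image_of_maps_to (s := range (AA c))
      (t := Icc (cx V x) (ka c r j + c + 1)) (f := fun t => (q t).2)
      (fun t ht => mem_Icc.2 ⟨(hq t (mem_range.1 ht)).2.1.le, (hq t (mem_range.1 ht)).1.2.2⟩)
      (2 ^ c) fun k _ => by
        rw [← card_image_of_injOn (f := fun t => (q t).1) fun a ha b hb e => by
          simp only [coe_filter, mem_range, Set.mem_setOf_eq] at ha hb e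
          have a1 := (hq a ha.1).1
          have b1 := (hq b hb.1).1
          rcases lt_trichotomy a b with h | h | h
          · have := row_lt (r := r) h hb.1; omega
          · exact h
          · have := row_lt (r := r) h ha.1; omega]
        refine bd x k _ fun v hv => ?_
        obtain ⟨t, ht, rfl⟩ := mem_image.1 hv
        obtain ⟨h1, rfl⟩ := mem_filter.1 ht
        exact (hq t (mem_range.1 h1)).2.2
    rw [card_range, Nat.card_Icc, AA, show 2 * c + 4 = c + (c + 4) by ring, pow_add] at this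
    have h3 := Nat.le_of_mul_le_mul_left this (Nat.two_pow_pos c)
    have h4 : c < 2 ^ c := Nat.lt_two_pow_self
    rw [pow_add] at h3
    omega
  refine ⟨S, filter_subset _ _, fun x hx => ?_, ?_⟩
  · obtain ⟨q, -, h, -⟩ := (mem_filter.1 hx).2 0 A0
    exact ⟨_, h⟩
  · obtain ⟨d, hd⟩ := Nat.exists_eq_add_of_le hj
    have h3 : ∀ x ∈ S, ((1 : ℝ) / 2) ^ (r * tt c + d + 2 * c + 4) ≤ (1 / 2) ^ cx V x :=
      fun x hx => pow_le_pow_of_le_one (by norm_num) (by norm_num) (by
        have := h2 x hx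
        simp only [ka, bb, hd] at this
        omega)
    refine le_trans ?_ (card_nsmul_le_sum S _ _ h3)
    rw [nsmul_eq_mul, hd]
    refine le_trans (le_of_eq ?_) (mul_le_mul_of_nonneg_right (Nat.cast_le.2 h1) (by positivity))
    simp only [AA, one_div, inv_pow, pow_add]
    push_cast
    field_simp
    norm_num

/-- positions of the game -/
abbrev Ps := ℕ × ℕ × ℕ

def EvX (q : ℕ × Ps) : Prop := 2 ^ (q.2.1 * tt q.1) ≤ dr Wm q.1 q.2.1 q.2.2.1 (row q.1 q.2.1 q.2.2.2)

def EvY (q : ℕ × Ps) : Prop := 2 * AA q.1 * 2 ^ (q.2.1 * tt q.1) ≤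
  fo V Γ q.1 q.2.1 q.2.2.1 q.2.2.2 + 2 ^ (q.2.1 * tt q.1)

def mvX (q : ℕ × Ps) : Ps := (q.2.1, q.2.2.1 + 1, 0)

def mvY (q : ℕ × Ps) : Ps :=
  bif q.2.2.2 + 1 == AA q.1 then (q.2.1 + 1, 0, 0) else (q.2.1, q.2.2.1, q.2.2.2 + 1)

theorem ci_cols : CI ∅ fun q : ℕ × Ps => cols q.1 q.2.1 q.2.2.1 := by
  unfold cols bb tt AA zs; fun_prop

theorem ci_row : CI ∅ fun q : ℕ × Ps => row q.1 q.2.1 q.2.2.2 := by unfold row AA; fun_prop

theorem ci_ka : CI ∅ fun q : ℕ × Ps => ka q.1 q.2.1 q.2.2.1 := by unfold ka bb tt AA; fun_prop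

theorem re_X (hW : Partrec Wm) : REPred (EvX Wm) := by
  have h1 := ci_row.comp (g := fun r : (ℕ × Ps) × List Bool => r.1) (by fun_prop)
  have := re_wsum (re_LeC hW) (α := ℕ × Ps) (γ := List Bool)
    (k := fun q => 2 ^ (q.2.1 * tt q.1) - 1) (g := fun r => (r.2, row r.1.1 r.1.2.1 r.1.2.2.2))
    (c0 := fun _ => 0) (c1 := fun _ => 1) (by unfold tt AA; fun_prop) ci_cols
    (CI.mk (by fun_prop) h1) (by fun_prop) (by fun_prop) (by simp)
  refine this.of_eq fun q => ?_
  rw [EvX, dr, card_sum _ (nodup_cols _ _ _)]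
  have := Nat.two_pow_pos (q.2.1 * tt q.1)
  dsimp only
  generalize 2 ^ (q.2.1 * tt q.1) = D at *
  constructor <;> intro h <;> omega

theorem re_Y (hV : Partrec V) (hΓ : REPred Γ) : REPred (EvY V Γ) := by
  obtain ⟨rw', h1, e1⟩ : ∃ F : ℕ × Ps → ℕ, CI ∅ F ∧ ∀ q : ℕ × Ps, row q.1 q.2.1 q.2.2.2 = F q :=
    ⟨_, ci_row, fun _ => rfl⟩
  obtain ⟨ka', h2, e2⟩ : ∃ F : ℕ × Ps → ℕ, CI ∅ F ∧ ∀ q : ℕ × Ps, ka q.1 q.2.1 q.2.2.1 = F q :=
    ⟨_, ci_ka, fun _ => rfl⟩
  have a1 : REPred fun z : ((ℕ × Ps) × List Bool) × ℕ × ℕ => rw' z.1.1 < z.2.1 ∧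
      z.2.1 ≤ rw' z.1.1 + (4 * z.1.1.1 + 10) ∧ z.2.2 ≤ ka' z.1.1 + z.1.1.1 + 1 :=
    re_of_bool (fun z => decide (rw' z.1.1 < z.2.1) &&
      (decide (z.2.1 ≤ rw' z.1.1 + (4 * z.1.1.1 + 10)) &&
        decide (z.2.2 ≤ ka' z.1.1 + z.1.1.1 + 1))) (by fun_prop) (by simp)
  have a2 := REPred.comp' (re_LeC hV)
    (g := fun z : ((ℕ × Ps) × List Bool) × ℕ × ℕ => (z.1.2, z.2.2)) (by fun_prop)
  have a3 := REPred.comp' hΓ
    (g := fun z : ((ℕ × Ps) × List Bool) × ℕ × ℕ => (z.1.2, z.2.2, z.2.1)) (by fun_prop)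
  have a4 : REPred fun z : (ℕ × Ps) × List Bool =>
      Foll V Γ z.1.1 z.1.2.1 z.1.2.2.1 z.1.2.2.2 z.2 :=
    (re_ex (re_and a1 (re_and a2 a3))).of_eq fun z => by simp only [Foll, e1, e2]
  have := re_wsum a4 (α := ℕ × Ps) (γ := List Bool)
    (k := fun q => 2 * AA q.1 * 2 ^ (q.2.1 * tt q.1) - 2 ^ (q.2.1 * tt q.1) - 1)
    (g := fun r => r) (c0 := fun _ => 0) (c1 := fun _ => 1) (by unfold tt AA; fun_prop) ci_cols
    (by fun_prop) (by fun_prop) (by fun_prop) (by simp)
  refine this.of_eq fun q => ?_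
  rw [EvY, fo, card_sum _ (nodup_cols _ _ _)]
  have h3 := Nat.two_pow_pos (q.2.1 * tt q.1)
  have h4 := Nat.mul_le_mul_right (2 ^ (q.2.1 * tt q.1)) (show 1 ≤ AA q.1 from Nat.two_pow_pos _)
  rw [mul_assoc]
  dsimp only
  generalize 2 ^ (q.2.1 * tt q.1) = D at *
  constructor <;> intro h <;> omega

theorem run {c : ℕ} (bd : ∀ x k (S : Finset ℕ), (∀ v ∈ S, Γ (x, k, v)) → S.card ≤ 2 ^ c)
    (pf : ∀ p q : List Bool, (V p).Dom → (V q).Dom → p <+: q → p = q) {st : ℕ → Ps}
    (h0 : st 0 = (0, 0, 0)) (hs : ∀ s, (EvX Wm (c, st s) ∧ st (s + 1) = mvX (c, st s)) ∨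
      (EvY V Γ (c, st s) ∧ st (s + 1) = mvY (c, st s)) ∨ st (s + 1) = st s) :
    (∃ s0, ∀ s, s0 ≤ s → st s = st s0) ∧
    (∀ n (S : Finset (List Bool)), (∀ x ∈ S, ∃ s, n = row c (st s).1 (st s).2.2 + (3 * c + 8) ∧
      x ∈ cols c (st s).1 (st s).2.1) → ∑ _x ∈ S, ((1 : ℝ) / 2) ^ n ≤ (1 / 2) ^ (c + 1)) ∧
    ∀ S : Finset (ℕ × List Bool), (∀ q ∈ S, ∃ s, q.1 = ka c (st s).1 (st s).2.1 ∧
      q.2 ∈ cols c (st s).1 (st s).2.1) → ∑ q ∈ S, ((1 : ℝ) / 2) ^ q.1 ≤ (1 / 2) ^ (c + 1) := by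
  set T := 2 ^ (tt c + 1) with hT
  set η : ℝ := (1 / 2) ^ (T + c + 3) with hη
  have η0 : 0 < η := by positivity
  have A0 : 0 < AA c := Nat.two_pow_pos _
  have inv : ∀ s, (st s).2.2 < AA c ∧
      (∀ j < (st s).2.1, 2 ^ ((st s).1 * tt c) ≤ dr Wm c (st s).1 j ((st s).1 * tt c + tt c)) ∧
      (∀ t < (st s).2.2, EvY V Γ (c, (st s).1, (st s).2.1, t)) ∧
      (∀ s' ≤ s, (st s').1 ≤ (st s).1 ∧ ((st s').1 = (st s).1 → (st s').2.1 ≤ (st s).2.1 ∧
        ((st s').2.1 = (st s).2.1 → (st s').2.2 ≤ (st s).2.2) ∧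
        ((st s').2.1 < (st s).2.1 → EvX Wm (c, st s')))) ∧
      ∃ (Y : Finset (List Bool)) (Z : Finset (ℕ × ℕ)),
        (∀ x ∈ Y, (∃ n, LeC V x n) ∧ ∃ r < (st s).1, ∃ j, x ∈ cols c r j) ∧
        (∀ s' ≤ s, ((st s').1, (st s').2.1) ∈ Z) ∧ (∀ z ∈ Z, z.2 ≤ T) ∧
        (st s).1 * η ≤ ∑ x ∈ Y, ((1 : ℝ) / 2) ^ cx V x ∧
        ∑ z ∈ Z, 2 ^ z.2 * η ≤ (1 / 2) ^ (c + 2) * ∑ x ∈ Y, ((1 : ℝ) / 2) ^ cx V x +
          2 ^ ((st s).2.1 + 1) * η := by
    intro s
    induction s with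
    | zero =>
      refine ⟨by simpa [h0] using A0, by simp [h0], by simp [h0], by simp, ∅, {(0, 0)}, by simp,
        by simp [h0], by simp, by simp [h0], ?_⟩
      simp only [h0, sum_singleton, sum_empty]; linarith
    | succ s ih =>
      obtain ⟨i1, i2, i3, i4, Y, Z, i5, i6, i7, i8, i9⟩ := ih
      have last : ∀ {P : ℕ → Prop}, (∀ s' ≤ s, P s') → P (s + 1) → ∀ s' ≤ s + 1, P s' :=
        fun h1 h2 s' hs' => hs'.eq_or_lt.elim (· ▸ h2) fun h => h1 s' (by omega)
      have jT := i7 _ (i6 s le_rfl)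
      have ins : ∀ z : ℕ × ℕ, ∑ z ∈ insert z Z, 2 ^ z.2 * η ≤ 2 ^ z.2 * η + ∑ z ∈ Z, 2 ^ z.2 * η :=
        fun z => by
          by_cases hz : z ∈ Z
          · rw [insert_eq_of_mem hz]; exact le_add_of_nonneg_left (by positivity)
          · rw [sum_insert hz]
      have hs' := hs s
      generalize hp : st s = p at *
      obtain ⟨r, j, t⟩ := p
      simp only at i1 i2 i3 i4 i5 i8 i9 jT
      rcases hs' with ⟨a, e⟩ | ⟨a, e⟩ | e
      · simp only [mvX] at e
        have b : ∀ j' < j + 1, 2 ^ (r * tt c) ≤ dr Wm c r j' (r * tt c + tt c) := fun j' h =>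
          (Nat.lt_succ_iff.1 h).eq_or_lt.elim (fun h => h ▸ le_trans a (dr_mono _ (row_bd _ _ _).2))
            (i2 j')
        have b2 := dr_sum Wm c r _ (range (j + 1)) fun j' h => b j' (mem_range.1 h)
        rw [card_range, add_assoc, pow_add, mul_comm] at b2
        have b3 := Nat.le_of_mul_le_mul_left b2 (Nat.two_pow_pos _)
        refine ⟨by simpa [e] using A0, by simpa only [e] using b, by simp [e],
          last (fun s' h => ?_) (by simp), Y, insert (r, j + 1) Z, by simpa only [e] using i5,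
          last (fun s' h => mem_insert_of_mem (i6 s' h)) (by simp [e]),
          by simpa using ⟨b3, fun a b => i7 (a, b)⟩, by simpa only [e] using i8, ?_⟩
        · obtain ⟨c1, c2⟩ := i4 s' h
          simp only [e]
          refine ⟨c1, fun h1 => ?_⟩
          obtain ⟨c3, c4, c5⟩ := c2 h1
          refine ⟨by omega, by omega, fun _ => c3.eq_or_lt.elim (fun h2 => ?_) c5⟩
          simp only [EvX, h1, h2] at a ⊢
          refine a.trans (dr_mono _ ((c4 h2).eq_or_lt.elim (fun h => h ▸ le_rfl) fun h => ?_))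
          exact le_trans (Nat.le_add_right _ _) (row_lt h i1)
        · refine (ins _).trans ?_
          simp only [e, pow_succ] at i9 ⊢
          linarith
      · have b : ∀ t' < t + 1, EvY V Γ (c, r, j, t') := fun t' h =>
          (Nat.lt_succ_iff.1 h).eq_or_lt.elim (· ▸ a) (i3 t')
        by_cases ht : t + 1 = AA c
        · simp only [mvY, ht, beq_self_eq_true, cond_true] at e
          obtain ⟨S, s1, s2, s3⟩ := pay V Γ bd jT fun t' h => b t' (ht ▸ h)
          have dj : Disjoint Y S := disjoint_left.2 fun x hx hy => by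
            obtain ⟨-, r', h1, j', h2⟩ := i5 x hx
            have := (cols_inj h2 (List.mem_toFinset.1 (s1 hy))).1
            omega
          rw [← hT, ← hη] at s3
          have s4 : (1 : ℝ) ≤ 2 ^ (j + c + 3) := one_le_pow₀ one_le_two
          refine ⟨by simpa [e] using A0, by simp [e], by simp [e], last (fun s' h => ?_) (by simp),
            Y ∪ S, insert (r + 1, 0) Z, fun x hx => ?_,
            last (fun s' h => mem_insert_of_mem (i6 s' h)) (by simp [e]),
            by simpa using fun a b => i7 (a, b), ?_, ?_⟩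
          · have := (i4 s' h).1
            simp only [e]
            exact ⟨by omega, by omega⟩
          · simp only [e]
            rcases mem_union.1 hx with hx | hx
            · obtain ⟨h1, r', h2, h3⟩ := i5 x hx
              exact ⟨h1, r', by omega, h3⟩
            · exact ⟨s2 x hx, r, by omega, j, List.mem_toFinset.1 (s1 hx)⟩
          · rw [sum_union dj, e]; push_cast; nlinarith
          · refine (ins _).trans ?_
            have s5 := mul_le_mul_of_nonneg_left s3 (show (0 : ℝ) ≤ (1 / 2) ^ (c + 2) by positivity)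
            have s6 : ((1 : ℝ) / 2) ^ (c + 2) * (2 ^ (j + c + 3) * η) = 2 ^ (j + 1) * η := by
              simp only [one_div, inv_pow, pow_add]; field_simp
            rw [sum_union dj, e, mul_add]
            simp only [pow_zero, zero_add, pow_one]
            linarith
        · simp only [mvY, beq_eq_false_iff_ne.2 ht, cond_false] at e
          refine ⟨by simp only [e]; omega, by simpa only [e] using i2, by simpa only [e] using b,
            last (fun s' h => ?_) (by simp), Y, Z, by simpa only [e] using i5,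
            last i6 (by simpa only [e, hp] using i6 s le_rfl), i7, by simpa only [e] using i8,
            by simpa only [e] using i9⟩
          obtain ⟨c1, c2⟩ := i4 s' h
          simp only [e]
          exact ⟨c1, fun h1 => ⟨(c2 h1).1, fun h2 => ((c2 h1).2.1 h2).trans (Nat.le_succ _),
            (c2 h1).2.2⟩⟩
      · exact ⟨by simpa only [e] using i1, by simpa only [e] using i2, by simpa only [e] using i3,
          last (by simpa only [e] using i4) (by simp), Y, Z, by simpa only [e] using i5,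
          last i6 (by simpa only [e, hp] using i6 s le_rfl), i7, by simpa only [e] using i8,
          by simpa only [e] using i9⟩
  refine ⟨stuck (rk := fun p => (p.1 * (T + 1) + p.2.1) * AA c + p.2.2)
    (b := (2 ^ (T + c + 3) * (T + 1) + T) * AA c + AA c) (fun s => ?_) fun s => ?_,
    fun n S hS => ?_, fun S hS => ?_⟩
  · obtain ⟨i1, -, -, -, Y, Z, i5, i6, i7, i8, -⟩ := inv s
    have h1 := i8.trans (wt_le pf Y fun x hx => (i5 x hx).1)
    rw [hη, one_div, inv_pow, ← div_eq_mul_inv, div_le_one (by positivity)] at h1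
    have h2 : (st s).1 ≤ 2 ^ (T + c + 3) := by exact_mod_cast h1
    have h3 := i7 _ (i6 s le_rfl)
    gcongr
  · obtain ⟨i1, -, -, -, Y, Z, -, i6, i7, -⟩ := inv s
    have h3 : (st s).2.1 ≤ T := i7 _ (i6 s le_rfl)
    rcases hs s with ⟨-, e⟩ | ⟨-, e⟩ | e
    · left; simp only [e, mvX]; nlinarith
    · left
      by_cases ht : (st s).2.2 + 1 = AA c
      · simp only [e, mvY, ht, beq_self_eq_true, cond_true]
        nlinarith [Nat.mul_le_mul_right (AA c) h3]
      · simp [e, mvY, beq_eq_false_iff_ne.2 ht]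
    · exact Or.inr e
  · rcases S.eq_empty_or_nonempty with rfl | ⟨x0, hx0⟩
    · simp
    choose! f hf using hS
    have e : ∀ x ∈ S, (st (f x)).1 = (st (f x0)).1 ∧ (st (f x)).2.2 = (st (f x0)).2.2 :=
      fun x hx => row_inj (inv _).1 (inv _).1 (by have := (hf x hx).1; have := (hf x0 hx0).1; omega)
    set r := (st (f x0)).1
    set t := (st (f x0)).2.2
    let J := S.image fun x => (st (f x)).2.1
    obtain ⟨y, hy, hm⟩ := S.exists_max_image (fun x => (st (f x)).2.1) ⟨x0, hx0⟩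
    have h1 := dr_sum Wm c r (row c r t) (J.erase (st (f y)).2.1) fun j hj => by
      obtain ⟨h1, h2⟩ := mem_erase.1 hj
      obtain ⟨x, hx, rfl⟩ := mem_image.1 h2
      have h3 := lt_of_le_of_ne (hm x hx) h1
      have h4 : (st (f x)).1 = (st (f y)).1 := (e x hx).1.trans (e y hy).1.symm
      rcases le_total (f x) (f y) with h | h
      · have := (((inv _).2.2.2.1 _ h).2 h4).2.2 h3
        simpa only [EvX, (e x hx).1, (e x hx).2] using this
      · have := (((inv _).2.2.2.1 _ h).2 h4.symm).1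
        omega
    have h2 : S.card ≤ J.card * (2 * AA c * 2 ^ (r * tt c)) := by
      refine le_trans (card_le_card (t := J.biUnion fun j => (cols c r j).toFinset) fun x hx => ?_)
        (card_biUnion_le_card_mul _ _ _ fun j _ => (card_cols c r j).le)
      exact mem_biUnion.2 ⟨_, mem_image_of_mem _ hx, List.mem_toFinset.2 ((e x hx).1 ▸ (hf x hx).2)⟩
    have h3 : J.card ≤ (J.erase (st (f y)).2.1).card + 1 := by
      have := pred_card_le_card_erase (s := J) (a := (st (f y)).2.1); omega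
    have h4 : 2 ^ (r * tt c) ≤ 2 ^ (row c r t + 1) :=
      Nat.pow_le_pow_right two_pos ((row_bd c r t).1.trans (Nat.le_succ _))
    have h5 : S.card ≤ 2 * AA c * (2 * 2 ^ (row c r t + 1)) := by
      have := Nat.mul_le_mul_right (2 ^ (r * tt c)) h3
      nlinarith
    rw [sum_const, nsmul_eq_mul, (hf x0 hx0).1]
    refine le_trans (mul_le_mul_of_nonneg_right (Nat.cast_le.2 h5) (by positivity)) (le_of_eq ?_)
    simp only [AA, one_div, inv_pow, pow_add, r, t]
    push_cast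
    field_simp
    ring
  · choose! f hf using hS
    obtain ⟨-, -, -, -, Y, Z, i5, i6, i7, -, i9⟩ := inv (S.sup f)
    have h1 := wt_le pf Y fun x hx => (i5 x hx).1
    have h2 := i7 _ (i6 _ le_rfl)
    rw [← sum_fiberwise_of_maps_to (g := fun q => ((st (f q)).1, (st (f q)).2.1)) (t := Z)
      fun q hq => i6 _ (le_sup hq)]
    refine le_trans (sum_le_sum fun z hz => ?_) (i9.trans ?_)
    · rw [sum_congr rfl (g := fun _ => (1 / 2) ^ ka c z.1 z.2) fun q hq => by
        obtain ⟨h1, rfl⟩ := mem_filter.1 hq; rw [(hf q h1).1], sum_const, nsmul_eq_mul]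
      have h3 := card_le_card_of_injOn (s := S.filter fun q => ((st (f q)).1, (st (f q)).2.1) = z)
        (t := (cols c z.1 z.2).toFinset) Prod.snd (fun q hq => by
          obtain ⟨h1, rfl⟩ := mem_filter.1 hq; exact List.mem_toFinset.2 (hf q h1).2)
        fun a ha b hb e => by
          obtain ⟨a1, a2⟩ := mem_filter.1 ha
          obtain ⟨b1, b2⟩ := mem_filter.1 hb
          rw [← b2, Prod.mk.injEq] at a2
          exact Prod.ext (by rw [(hf a a1).1, (hf b b1).1, a2.1, a2.2]) e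
      refine le_trans (mul_le_mul_of_nonneg_right (Nat.cast_le.2 h3) (by positivity)) (le_of_eq ?_)
      obtain ⟨d, hd⟩ := Nat.exists_eq_add_of_le (i7 z hz)
      rw [card_cols, show ka c z.1 z.2 = z.1 * tt c + (2 * c + 5) + (d + c + 3) by
        simp only [ka, bb, ← hT, hd]; omega, hη, hd]
      simp only [AA, one_div, inv_pow, pow_add]
      push_cast
      field_simp
      ring
    · have h3 : (2 : ℝ) ^ ((st (S.sup f)).2.1 + 1) ≤ 2 ^ (T + 1) :=
        pow_le_pow_right₀ one_le_two (Nat.succ_le_succ h2)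
      have h4 : (2 : ℝ) ^ (T + 1) * η = (1 / 2) ^ (c + 2) := by
        simp only [hη, one_div, inv_pow, pow_add]; field_simp
      have h5 : ((1 : ℝ) / 2) ^ (c + 1) = 2 * (1 / 2) ^ (c + 2) := by ring
      have h6 : (0 : ℝ) < (1 / 2) ^ (c + 2) := by positivity
      nlinarith

theorem main (hW : Partrec Wm)
    (oW : ∀ M : List Bool →. List Bool, Partrec M → ∃ c : ℕ, ∀ p z : List Bool, z ∈ M p →
      ∃ q : List Bool, q.length ≤ p.length + c ∧ z ∈ Wm q)
    (hV : Partrec V) (pf : ∀ p q : List Bool, (V p).Dom → (V q).Dom → p <+: q → p = q)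
    (oV : ∀ M : List Bool →. List Bool, Partrec M →
      (∀ p q : List Bool, (M p).Dom → (M q).Dom → p <+: q → p = q) →
      ∃ c : ℕ, ∀ p z : List Bool, z ∈ M p → ∃ q : List Bool, q.length ≤ p.length + c ∧ z ∈ V q)
    (hΓ : REPred Γ) (c0 : ℕ)
    (bd : ∀ x k (S : Finset ℕ), (∀ v ∈ S, Γ (x, k, v)) → S.card ≤ 2 ^ c0) :
    ∃ x, ¬ Γ (x, cx V x, cx Wm x) := by
  obtain ⟨st, hst, h0, hs, hk⟩ := process (re_X Wm hW) (re_Y V Γ hV hΓ) (f := mvX) (g := mvY)
    (by unfold mvX; fun_prop) (by unfold mvY AA; fun_prop) (0, 0, 0)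
    (fun q h => by simpa [mvX] using congrArg (·.2.1) h) fun ⟨c, r, j, t⟩ h => by
      unfold mvY at h
      cases e : t + 1 == AA c <;> simp [e] at h
  have hr := fun c => run Wm V Γ (c := c + c0) (fun x k S h => (bd x k S h).trans
    (Nat.pow_le_pow_right two_pos (Nat.le_add_left _ _))) pf (st := fun s => st (c + c0, s))
    (h0 _) (hs _)
  have half : ∀ c, ((1 : ℝ) / 2) ^ (c + c0 + 1) ≤ (1 / 2) ^ (c + 1) := fun c =>
    pow_le_pow_of_le_one (by norm_num) (by norm_num) (by omega)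
  obtain ⟨rw', h1, e1⟩ : ∃ F : ℕ × Ps → ℕ, CI ∅ F ∧ ∀ c (q : Ps), row c q.1 q.2.2 = F (c, q) :=
    ⟨_, ci_row, fun _ _ => rfl⟩
  obtain ⟨ka', h2, e2⟩ : ∃ F : ℕ × Ps → ℕ, CI ∅ F ∧ ∀ c (q : Ps), ka c q.1 q.2.1 = F (c, q) :=
    ⟨_, ci_ka, fun _ _ => rfl⟩
  obtain ⟨cl, h3, e3⟩ : ∃ F : ℕ × Ps → List (List Bool), CI ∅ F ∧
    ∀ c (q : Ps), cols c q.1 q.2.1 = F (c, q) := ⟨_, ci_cols, fun _ _ => rfl⟩
  obtain ⟨M, hM, eM⟩ := plain_machine (R := fun q => ∃ c s,
      q.1 = row (c + c0) (st (c + c0, s)).1 (st (c + c0, s)).2.2 + (3 * (c + c0) + 8) ∧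
      q.2 ∈ cols (c + c0) (st (c + c0, s)).1 (st (c + c0, s)).2.1)
    (re_of_exists (fun q (z : ℕ × ℕ) =>
      q.1 == rw' (z.1 + c0, st (z.1 + c0, z.2)) + (3 * (z.1 + c0) + 8) &&
      (cl (z.1 + c0, st (z.1 + c0, z.2))).contains q.2) (by fun_prop) (by simp [e1, e3]))
    fun n S hS => by
      have := share (w := fun _ => ((1 : ℝ) / 2) ^ n) (fun _ => by positivity)
        (fun c S h => ((hr c).2.1 n S h).trans (half c)) S hS
      rw [sum_const, nsmul_eq_mul, one_div, inv_pow, ← div_eq_mul_inv,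
        div_le_one (by positivity)] at this
      exact_mod_cast this
  obtain ⟨M', hM', pM', eM'⟩ := kc (R := fun q => ∃ c s,
      q.1 = ka (c + c0) (st (c + c0, s)).1 (st (c + c0, s)).2.1 ∧
      q.2 ∈ cols (c + c0) (st (c + c0, s)).1 (st (c + c0, s)).2.1)
    (re_of_exists (fun q (z : ℕ × ℕ) => q.1 == ka' (z.1 + c0, st (z.1 + c0, z.2)) &&
      (cl (z.1 + c0, st (z.1 + c0, z.2))).contains q.2) (by fun_prop) (by simp [e2, e3]))
    (share (fun _ => by positivity) fun c S h => ((hr c).2.2 S h).trans (half c))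
  obtain ⟨c1, hc1⟩ := oW M hM
  obtain ⟨c2, hc2⟩ := oV M' hM' pM'
  obtain ⟨s0, hs0⟩ := (hr (c1 + c2)).1
  obtain ⟨nX, nY⟩ := hk _ s0 hs0
  have b1 := fun x hx => eM _ x ⟨c1 + c2, s0, rfl, hx⟩
  have b2 := fun x hx => eM' _ x ⟨c1 + c2, s0, rfl, hx⟩
  generalize st (c1 + c2 + c0, s0) = p at *
  obtain ⟨r, j, t⟩ := p
  obtain ⟨c, hc⟩ : ∃ c, c1 + c2 + c0 = c := ⟨_, rfl⟩
  rw [hc] at nX nY b1 b2
  simp only [EvX, EvY, not_le] at nX nY b1 b2
  by_contra hall
  push Not at hall
  have : (cols c r j).toFinset.card ≤ dr Wm c r j (row c r t) + fo V Γ c r j t := by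
    refine le_trans (card_le_card fun x hx => ?_) (card_union_le _ _)
    obtain ⟨p, p1, p2⟩ := b1 x (List.mem_toFinset.1 hx)
    obtain ⟨q, q1, q2⟩ := hc1 p x p2
    obtain ⟨p', p3, p4⟩ := b2 x (List.mem_toFinset.1 hx)
    obtain ⟨q', q3, q4⟩ := hc2 p' x p4
    have l1 : LeC Wm x (row c r t + (4 * c + 10)) := ⟨q, by omega, q2⟩
    have p5 : p'.length = ka c r j + 1 := p3
    have l2 : LeC V x (ka c r j + c + 1) := ⟨q', by omega, q4⟩
    simp only [mem_union, mem_filter, hx, true_and]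
    by_cases h : LeC Wm x (row c r t)
    · exact Or.inl h
    · obtain ⟨y, y1, y2⟩ := l1.ex
      obtain ⟨z, z1, z2⟩ := l2.ex
      exact Or.inr ⟨(cx Wm x, cx V x), ⟨not_le.1 fun h' => h ⟨y, y1.trans_le h', y2⟩, l1.le, l2.le⟩,
        ⟨z, z1.le, z2⟩, hall x⟩
  rw [card_cols] at this
  omega

theorem univ {β γ : Type} [Primcodable β] [Primcodable γ]
    {F : ℕ × List Bool × γ × ℕ → Option β} (hF : CI ∅ F)
    (u : ∀ e q y s s' z z', F (e, q, y, s) = some z → F (e, q, y, s') = some z' → z = z') :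
    ∃ U : List Bool × γ →. β, Partrec U ∧ ∀ p y z, z ∈ U (p, y) ↔
      ∃ e q s, p = zs e ++ q ∧ F (e, q, y, s) = some z := by
  have key : ∀ (p : List Bool) e, p.take (e + 1) = zs e ↔ p = zs e ++ p.drop (e + 1) :=
    fun p e => ⟨fun h => by rw [← h, List.take_append_drop], fun h => by
      rw [h, List.take_left' (by simp [zs])]⟩
  obtain ⟨U, hU, e⟩ := search (F := fun q : (List Bool × γ) × ℕ =>
      bif q.1.1.take (q.2.unpair.1 + 1) == zs q.2.unpair.1 then
        F (q.2.unpair.1, q.1.1.drop (q.2.unpair.1 + 1), q.1.2, q.2.unpair.2) else none)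
    (by unfold zs; fun_prop) fun a i j z z' hi hj => by
      simp only [Bool.cond_eq_ite, beq_iff_eq, Option.ite_none_right_eq_some, key] at hi hj
      have : i.unpair.1 = j.unpair.1 := by
        by_contra h
        exact (List.prefix_or_prefix_of_prefix ⟨_, hi.1.symm⟩ ⟨_, hj.1.symm⟩).elim (zs_not h)
          (zs_not (Ne.symm h))
      rw [this] at hi
      exact u _ _ _ _ _ _ _ hi.2 hj.2
  refine ⟨U, hU, fun p y z => ?_⟩
  simp only [e, Bool.cond_eq_ite, beq_iff_eq, Option.ite_none_right_eq_some, key]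
  constructor
  · rintro ⟨i, h1, h2⟩; exact ⟨_, _, _, h1, h2⟩
  · rintro ⟨e, q, s, rfl, h⟩
    have : (zs e ++ q).drop (e + 1) = q := List.drop_left' (by simp [zs])
    exact ⟨Nat.pair e s, by simp [this, h]⟩

theorem enum {α β : Type} [Primcodable α] [Primcodable β] :
    ∃ G : ℕ × α × ℕ → Option β, CI ∅ G ∧
      (∀ e a s t z, s ≤ t → G (e, a, s) = some z → G (e, a, t) = some z) ∧
      (∀ e a s z, G (e, a, s) = some z → encode a < s) ∧
      ∀ M : α →. β, Partrec M → ∃ e, ∀ a z, z ∈ M a ↔ ∃ s, G (e, a, s) = some z := by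
  refine ⟨fun q => (ev q.1 (encode q.2.1) q.2.2).bind fun v => decode v, by fun_prop,
    fun e a s t z h hz => ?_, fun e a s z hz => ?_, fun M hM => ?_⟩
  · simp only [Option.bind_eq_some_iff] at hz ⊢
    obtain ⟨v, h1, h2⟩ := hz
    exact ⟨v, ev_mono h h1, h2⟩
  · simp only [Option.bind_eq_some_iff] at hz
    obtain ⟨v, h1, -⟩ := hz
    exact Nat.Partrec.Code.evaln_bound h1
  · obtain ⟨e, he⟩ := exists_index_part (Partrec.nat_iff.2 hM)
    refine ⟨e, fun a z => ?_⟩
    simp only [Option.bind_eq_some_iff]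
    rw [exists_comm]
    simp only [exists_and_right, ← he]
    simp

theorem mono_uniq {β : Type} {f : ℕ → Option β}
    (m : ∀ s t z, s ≤ t → f s = some z → f t = some z) {s t : ℕ} {z z' : β}
    (h : f s = some z) (h' : f t = some z') : z = z' := by
  have := m _ _ _ (le_max_left s t) h
  rw [m _ _ _ (le_max_right s t) h'] at this
  exact (Option.some.inj this).symm

theorem ex_cond {β γ : Type} [Primcodable β] [Primcodable γ] :
    ∃ U : List Bool × γ →. β, Partrec U ∧ ∀ M : List Bool × γ →. β, Partrec M →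
      ∃ c : ℕ, ∀ p y z, z ∈ M (p, y) → ∃ q : List Bool, q.length ≤ p.length + c ∧ z ∈ U (q, y) := by
  obtain ⟨G, hG, m, -, eG⟩ := enum (α := List Bool × γ) (β := β)
  obtain ⟨U, hU, e⟩ := univ (F := fun q : ℕ × List Bool × γ × ℕ =>
    G (q.1, (q.2.1, q.2.2.1), q.2.2.2)) (by fun_prop)
    fun e q y s s' z z' => mono_uniq (f := fun s => G (e, (q, y), s)) (m e _)
  refine ⟨U, hU, fun M hM => ?_⟩
  obtain ⟨i, hi⟩ := eG M hM
  refine ⟨i + 1, fun p y z hz => ⟨zs i ++ p, by simp [zs]; omega, ?_⟩⟩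
  obtain ⟨s, hs⟩ := (hi _ _).1 hz
  exact (e _ _ _).2 ⟨i, p, s, rfl, hs⟩

theorem ex_plain : ∃ U : List Bool →. List Bool, Partrec U ∧
    ∀ M : List Bool →. List Bool, Partrec M → ∃ c : ℕ, ∀ p z : List Bool, z ∈ M p →
      ∃ q : List Bool, q.length ≤ p.length + c ∧ z ∈ U q := by
  obtain ⟨U, hU, h⟩ := ex_cond (β := List Bool) (γ := ℕ)
  refine ⟨fun p => U (p, 0), hU.comp (Computable.id.pair (Computable.const 0)), fun M hM => ?_⟩
  obtain ⟨c, hc⟩ := h (fun q => M q.1) (hM.comp Computable.fst)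
  exact ⟨c, fun p z => hc p 0 z⟩

theorem ex_pf : ∃ U : List Bool →. List Bool, Partrec U ∧
    (∀ p q : List Bool, (U p).Dom → (U q).Dom → p <+: q → p = q) ∧
    ∀ M : List Bool →. List Bool, Partrec M →
      (∀ p q : List Bool, (M p).Dom → (M q).Dom → p <+: q → p = q) →
      ∃ c : ℕ, ∀ p z : List Bool, z ∈ M p →
        ∃ q : List Bool, q.length ≤ p.length + c ∧ z ∈ U q := by
  obtain ⟨G, hG, m, b, eG⟩ := enum (α := List Bool) (β := List Bool)
  let ok : ℕ × List Bool × ℕ → Bool := fun q => (List.range q.2.2).all fun n =>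
    (decode (α := List Bool) n).elim true fun p => p == q.2.1 || (G (q.1, p, q.2.2)).isNone ||
      !(p.take q.2.1.length == q.2.1 || q.2.1.take p.length == p)
  have hok : CI ∅ ok := by simp only [ok]; fun_prop
  have eok : ∀ e q s, ok (e, q, s) = true ↔
      ∀ p z, G (e, p, s) = some z → (p <+: q ∨ q <+: p) → p = q := fun e q s => by
    simp only [ok, List.all_eq_true, List.mem_range, List.prefix_iff_eq_take]
    constructor
    · intro h p z hz hp
      have := h _ (b _ _ _ _ hz)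
      simp only [encodek, Option.elim_some, hz] at this
      rcases hp with hp | hp <;> simpa [← hp] using this
    · intro h n _
      cases decode (α := List Bool) n with
      | none => rfl
      | some p =>
        cases hz : G (e, p, s) with
        | none => simp [hz]
        | some z =>
          have := h p z hz
          by_cases hp : p = q
          · simp [hp]
          · simp only [hp, imp_false, not_or] at this
            simp [Ne.symm this.1, Ne.symm this.2]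
  obtain ⟨U, hU, e⟩ := univ (γ := ℕ) (F := fun q : ℕ × List Bool × ℕ × ℕ =>
    bif ok (q.1, q.2.1, q.2.2.2) then G (q.1, q.2.1, q.2.2.2) else none) (by fun_prop)
    fun e q y s s' z z' h h' => by
      simp only [Bool.cond_eq_ite, Option.ite_none_right_eq_some] at h h'
      exact mono_uniq (f := fun s => G (e, q, s)) (m e _) h.2 h'.2
  simp only [Bool.cond_eq_ite, Option.ite_none_right_eq_some, eok] at e
  refine ⟨fun p => U (p, 0), hU.comp (Computable.id.pair (Computable.const 0)),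
    fun p q hp hq h => ?_, fun M hM pM => ?_⟩
  · obtain ⟨i, p', s, rfl, a1, a2⟩ := (e _ _ _).1 (Part.get_mem hp)
    obtain ⟨j, q', t, rfl, b1, b2⟩ := (e _ _ _).1 (Part.get_mem hq)
    obtain rfl : i = j := by
      by_contra hne
      exact (List.prefix_or_prefix_of_prefix ((List.prefix_append _ _).trans h)
        (List.prefix_append _ _)).elim (zs_not hne) (zs_not (Ne.symm hne))
    rw [List.prefix_append_right_inj] at h
    rcases le_total s t with hst | hst
    · rw [b1 p' _ (m _ _ _ _ _ hst a2) (Or.inl h)]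
    · rw [a1 q' _ (m _ _ _ _ _ hst b2) (Or.inr h)]
  · obtain ⟨i, hi⟩ := eG M hM
    refine ⟨i + 1, fun p z hz => ⟨zs i ++ p, by simp [zs]; omega, ?_⟩⟩
    obtain ⟨s, hs⟩ := (hi _ _).1 hz
    refine (e _ _ _).2 ⟨i, p, s, rfl, fun p' z' h1 h2 => ?_, hs⟩
    have d1 := Part.dom_iff_mem.2 ⟨_, (hi _ _).2 ⟨s, h1⟩⟩
    have d2 := Part.dom_iff_mem.2 ⟨_, hz⟩
    exact h2.elim (pM _ _ d1 d2) fun h => (pM _ _ d2 d1 h).symm

theorem card_guess {U : List Bool → Part ℕ} (c : ℕ) (S : Finset ℕ)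
    (h : ∀ v ∈ S, ∃ p : List Bool, p.length ≤ c ∧ v ∈ U p) : S.card ≤ 2 ^ (c + 1) := by
  rw [← card_image_of_injective S (f := fun v => List.replicate v true)
    fun a b e => by simpa using congrArg List.length e]
  refine card_LeC (fun p => (U p).map fun v => List.replicate v true) c _ fun x hx => ?_
  obtain ⟨v, hv, rfl⟩ := mem_image.1 hx
  obtain ⟨p, h1, h2⟩ := h v hv
  exact ⟨p, h1, Part.mem_map _ h2⟩

theorem re_mem {α β : Type} [Primcodable α] [Primcodable β] {M : α →. β} (hM : Partrec M) :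
    REPred fun q : α × β => q.2 ∈ M q.1 := by
  obtain ⟨F, hF, -, eF⟩ := partrec_stage hM
  obtain ⟨G, hG, eG⟩ : ∃ G : α × ℕ → Option β, CI ∅ G ∧ ∀ a t, F a t = G (a, t) :=
    ⟨_, hF, fun _ _ => rfl⟩
  exact re_of_nat (fun q s => decide (G (q.1, s) = some q.2)) (CI.eq' (by fun_prop) (by fun_prop))
    fun q => by simp [eF, eG]

theorem not_cond : ¬ ∀ (W : List Bool →. List Bool) (V : List Bool →. List Bool)
    (U : List Bool → (List Bool × ℕ →. ℕ)),
    Partrec W →
    (∀ M : List Bool →. List Bool, Partrec M →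
      ∃ c : ℕ, ∀ (p : List Bool) (z : List Bool), z ∈ M p →
        ∃ q : List Bool, q.length ≤ p.length + c ∧ z ∈ W q) →
    Partrec V →
    (∀ p q : List Bool, (V p).Dom → (V q).Dom → p <+: q → p = q) →
    (∀ M : List Bool →. List Bool, Partrec M →
      (∀ p q : List Bool, (M p).Dom → (M q).Dom → p <+: q → p = q) →
      ∃ c : ℕ, ∀ (p : List Bool) (z : List Bool), z ∈ M p →
        ∃ q : List Bool, q.length ≤ p.length + c ∧ z ∈ V q) →
    Partrec₂ U →
    (∀ M : List Bool → (List Bool × ℕ →. ℕ), Partrec₂ M →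
      ∃ c : ℕ, ∀ (p : List Bool) (y : List Bool × ℕ) (z : ℕ), z ∈ M p y →
        ∃ q : List Bool, q.length ≤ p.length + c ∧ z ∈ U q y) →
    ∃ c : ℕ, ∀ x : List Bool,
      sInf {n : ℕ | ∃ p : List Bool, p.length = n ∧ cx W x ∈ U p (x, cx V x)} ≤ c := by
  intro h
  obtain ⟨W, w1, w2⟩ := ex_plain
  obtain ⟨V, v1, v2, v3⟩ := ex_pf
  obtain ⟨U, u1, u2⟩ := ex_cond (β := ℕ) (γ := List Bool × ℕ)
  obtain ⟨c, hc⟩ := h W V (fun p y => U (p, y)) w1 w2 v1 v2 v3 u1 fun M hM => u2 _ hM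
  obtain ⟨x, hx⟩ := main W V (fun q => ∃ p : List Bool, p.length ≤ c ∧ q.2.2 ∈ U (p, q.1, q.2.1))
    w1 w2 v1 v2 v3 (re_ex (re_and (re_of_bool (p := fun q : (List Bool × ℕ × ℕ) × List Bool =>
      q.2.length ≤ c) (fun q => decide (q.2.length ≤ c)) (by fun_prop)
      (by simp)) (REPred.comp' (re_mem u1) (g := fun q : (List Bool × ℕ × ℕ) × List Bool =>
        ((q.2, q.1.1, q.1.2.1), q.1.2.2)) (by fun_prop)))) (c + 1)
    fun x k S hS => card_guess (U := fun p => U (p, x, k)) c S hS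
  obtain ⟨d, hd⟩ := u2 (fun q => Part.some q.1.length)
    (Computable.list_length.comp Computable.fst).partrec
  obtain ⟨q, -, hq⟩ := hd (List.replicate (cx W x) true) (x, cx V x) (cx W x) (by simp)
  obtain ⟨p, h1, h2⟩ := Nat.sInf_mem
    (s := {n : ℕ | ∃ p : List Bool, p.length = n ∧ cx W x ∈ U (p, x, cx V x)}) ⟨_, q, rfl, hq⟩
  exact hx ⟨p, h1.trans_le (hc x), h2⟩

theorem not_pr : ¬ ∃ U V : List Bool →. List Bool,
      Partrec U ∧
      (∀ M : List Bool →. List Bool, Partrec M →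
        ∃ c : ℕ, ∀ (x p : List Bool), x ∈ M p →
          ∃ q : List Bool, x ∈ U q ∧ q.length ≤ p.length + c) ∧
      Partrec V ∧
      (∀ p q : List Bool, (V p).Dom → (V q).Dom → p <+: q → p = q) ∧
      (∀ M : List Bool →. List Bool, Partrec M →
        (∀ p q : List Bool, (M p).Dom → (M q).Dom → p <+: q → p = q) →
        ∃ c : ℕ, ∀ (x p : List Bool), x ∈ M p →
          ∃ q : List Bool, x ∈ V q ∧ q.length ≤ p.length + c) ∧
      ∃ ψ : List Bool × ℕ →. ℕ, Partrec ψ ∧
        ∃ c : ℕ, ∀ x : List Bool,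
          ∃ y : ℕ, y ∈ ψ (x, sInf (List.length '' {p : List Bool | x ∈ V p})) ∧
            sInf (List.length '' {p : List Bool | x ∈ U p}) ≤ y + c ∧
            y ≤ sInf (List.length '' {p : List Bool | x ∈ U p}) + c := by
  rintro ⟨W, V, w1, w2, v1, v2, v3, ψ, hψ, c, hc⟩
  have e : ∀ (M : List Bool →. List Bool) x,
      sInf (List.length '' {p : List Bool | x ∈ M p}) = cx M x := fun M x => by
    unfold cx; congr 1; ext; simp [and_comm]
  obtain ⟨x, hx⟩ := main W V
    (fun q => ∃ y : ℕ, (q.2.2 ≤ y + c ∧ y ≤ q.2.2 + c) ∧ y ∈ ψ (q.1, q.2.1)) w1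
    (fun M hM => (w2 M hM).imp fun c h p z hz => (h z p hz).imp fun _ => And.symm) v1 v2
    (fun M hM pM => (v3 M hM pM).imp fun c h p z hz => (h z p hz).imp fun _ => And.symm)
    (re_ex (re_and (re_of_bool (p := fun q : (List Bool × ℕ × ℕ) × ℕ => q.1.2.2 ≤ q.2 + c ∧
      q.2 ≤ q.1.2.2 + c) (fun q => decide (q.1.2.2 ≤ q.2 + c) && decide (q.2 ≤ q.1.2.2 + c))
      (by fun_prop) (by simp)) (REPred.comp' (re_mem hψ)
      (g := fun q : (List Bool × ℕ × ℕ) × ℕ => ((q.1.1, q.1.2.1), q.2)) (by fun_prop)))) (c + 1)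
    fun x k S hS => by
      rcases S.eq_empty_or_nonempty with rfl | ⟨v0, hv0⟩
      · simp
      obtain ⟨y, -, hy⟩ := hS v0 hv0
      refine le_trans (card_le_card (t := Icc (y - c) (y + c)) fun v hv => ?_) ?_
      · obtain ⟨y', h1, h2⟩ := hS v hv
        obtain rfl := Part.mem_unique hy h2
        simp only [mem_Icc] at h1 ⊢
        omega
      · have : c < 2 ^ c := Nat.lt_two_pow_self
        rw [Nat.card_Icc, pow_succ]
        omega
  obtain ⟨y, h1, h2⟩ := hc x
  rw [e] at h1 h2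
  exact hx ⟨y, h2, h1⟩

end Pool.Agent.H37.Kc
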