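import Pool.Agent.H37.FoDefs
import Pool.Agent.H37.Kc2
import Pool.Agent.H37.Hd1

/-! Machines with an oracle, a condition and a self-delimiting numerical parameter. -/

set_option autoImplicit false

namespace Pool.Agent.H37.Fo

open Encodable Rnd Defc Kc Finset

variable {α β γ : Type} [Primcodable α] [Primcodable β] [Primcodable γ] {O : Set (ℕ →. ℕ)}

theorem ri_stage {x : ℕ → ℕ} {U : α →. β} (h : RecursiveIn (orc x) U) :
    ∃ D : α × β × ℕ → Bool, CI (orc x) D ∧
      (∀ a b s t, s ≤ t → D (a, b, s) = true → D (a, b, t) = true) ∧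
      ∀ a b, b ∈ U a ↔ ∃ t, D (a, b, t) = true := by
  obtain ⟨e, he⟩ := exists_app (RecursiveIn.iff_nat.2 h)
  have hx := CI.self x
  refine ⟨fun q => H37.U e (pre x q.2.2) (encode q.1) == some (encode q.2.1), by fun_prop,
    fun a b s t hst h => ?_, fun a b => ?_⟩
  · simp only [beq_iff_eq] at h ⊢
    exact U_mon e _ _ _ _ (pre_pf x hst) h
  · simp only [beq_iff_eq, ← mem_app, ← he]
    simp

/-- first success -/
def hd {δ : Type} (f : ℕ → Option δ) (t : ℕ) : Option δ := ((List.range t).filterMap f).head?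

theorem hd_mono {δ : Type} {f : ℕ → Option δ} {t t' : ℕ} {v : δ} (h : hd f t = some v)
    (ht : t ≤ t') : hd f t' = some v := by
  obtain ⟨k, rfl⟩ := Nat.exists_eq_add_of_le ht
  unfold hd at h ⊢
  rw [List.range_add, List.filterMap_append, List.head?_append, h]; rfl

theorem hd_spec {δ : Type} {f : ℕ → Option δ} {t : ℕ} {v : δ} (h : hd f t = some v) :
    ∃ s, f s = some v :=
  let ⟨s, _, h⟩ := List.mem_filterMap.1 (List.mem_of_mem_head? h); ⟨s, h⟩

theorem hd_none {δ : Type} {f : ℕ → Option δ} {t : ℕ} (h : hd f (t + 1) = none) : f t = none := by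
  simp only [hd, List.head?_eq_none_iff, List.filterMap_eq_nil_iff] at h
  exact h t (by simp)

def ii (p : List Bool) : ℕ := ((List.range p.length).find? fun i => !p.getD i false).getD 0

theorem ii_eq (i : ℕ) (r : List Bool) : ii (List.replicate i true ++ false :: r) = i := by
  rw [ii, (List.find?_range_eq_some (i := i)).2 ⟨by simp, by simp, fun j hj => by
    simp [List.getElem?_append_left, hj]⟩]; rfl

theorem machine {D : (ℕ × γ) × ℕ × List Bool × ℕ → Bool} (hD : CI O D)
    (hb : ∀ a k (S : Finset (List Bool)), (∀ s ∈ S, ∃ t, D (a, k, s, t) = true) →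
      S.card ≤ 2 ^ (k + 1)) :
    ∃ M : List Bool × γ →. List Bool, RecursiveIn O M ∧ ∀ n y k s t, D ((n, y), k, s, t) = true →
      ∃ p : List Bool, p.length = k + (2 * Nat.log 2 n + 4) ∧ s ∈ M (p, y) := by
  let L : (ℕ × γ) × ℕ → ℕ → List (List Bool) := fun a t => t.rec [] fun t l =>
    bif D (a.1, a.2, (decode t.unpair.1).getD [], t.unpair.2) &&
      !l.contains ((decode t.unpair.1).getD []) then l ++ [(decode t.unpair.1).getD []] else l
  have hs : ∀ a t, L a (t + 1) = bif D (a.1, a.2, (decode t.unpair.1).getD [], t.unpair.2) &&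
      !(L a t).contains ((decode t.unpair.1).getD []) then L a t ++ [(decode t.unpair.1).getD []]
      else L a t := fun _ _ => rfl
  have h1 : ∀ a t, (L a t).Nodup ∧ ∀ s ∈ L a t, ∃ t, D (a.1, a.2, s, t) = true := fun a t => by
    induction t with
    | zero => simp [L]
    | succ t ih =>
      rw [hs, Bool.cond_eq_ite]
      split_ifs with h
      · simp only [Bool.and_eq_true, Bool.not_eq_true', List.contains_eq_mem,
          decide_eq_false_iff_not] at h
        refine ⟨List.Nodup.append ih.1 (by simp) (by simpa using h.2), fun s hs => ?_⟩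
        rcases List.mem_append.1 hs with hs | hs
        · exact ih.2 s hs
        · rw [List.mem_singleton.1 hs]; exact ⟨_, h.1⟩
      · exact ih
  have h2 : ∀ a s t, s ≤ t → L a s <+: L a t := fun a s t h => by
    induction t, h using Nat.le_induction with
    | base => exact List.prefix_rfl
    | succ t _ ih => rw [hs]; cases (_ && _) <;> simp [ih, ih.trans (List.prefix_append _ _)]
  obtain ⟨F, hF, eF⟩ : ∃ F : ((ℕ × γ) × ℕ) × ℕ → List (List Bool), CI O F ∧
      ∀ a t, L a t = F (a, t) :=
    ⟨_, CI.of_rec (F := L) (g := fun _ => []) (h := fun a t l =>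
      bif D (a.1, a.2, (decode t.unpair.1).getD [], t.unpair.2) &&
        !l.contains ((decode t.unpair.1).getD []) then l ++ [(decode t.unpair.1).getD []] else l)
      (by fun_prop) (by fun_prop) (fun _ => rfl) hs, fun _ _ => rfl⟩
  have b1 : CI O bv := ci_bv.of_empty
  have b2 : CI O ii := by unfold ii; fun_prop
  refine ⟨fun q => Nat.rfindOpt fun t => (F (((bv ((q.1.drop (ii q.1 + 1)).take (ii q.1)), q.2),
    (q.1.drop (ii q.1 + 1 + ii q.1)).length - 1), t))[bv (q.1.drop (ii q.1 + 1 + ii q.1))]?,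
    RI.rfindOpt (by fun_prop), fun n y k s t h => ?_⟩
  have m : s ∈ L ((n, y), k) (Nat.pair (encode s) t + 1) := by
    rw [hs]
    simp only [Nat.unpair_pair, encodek, Option.getD_some, h, Bool.true_and]
    cases hc : (L ((n, y), k) (Nat.pair (encode s) t)).contains s <;> simp_all
  obtain ⟨i, hi, e⟩ := List.mem_iff_getElem.1 m
  have lt := hb (n, y) k (L ((n, y), k) (Nat.pair (encode s) t + 1)).toFinset fun s' hs =>
    (h1 ((n, y), k) (Nat.pair (encode s) t + 1)).2 s' (List.mem_toFinset.1 hs)
  rw [List.toFinset_card_of_nodup (h1 ((n, y), k) (Nat.pair (encode s) t + 1)).1] at lt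
  obtain ⟨p, p1, p2⟩ := bv_surj (k + 1) i (hi.trans_le lt)
  obtain ⟨b, b1, b2⟩ := bv_surj (Nat.log 2 n + 1) n (Nat.lt_pow_succ_log_self one_lt_two n)
  refine ⟨List.replicate b.length true ++ false :: (b ++ p), by simp [b1, p1]; omega, ?_⟩
  have d1 : (List.replicate b.length true ++ false :: (b ++ p)).drop (b.length + 1) = b ++ p := by
    simp [List.drop_append]
  simp only [ii_eq, ← List.drop_drop (i := b.length) (j := b.length + 1), d1, List.take_left',
    List.drop_left', b2, p1, p2, Nat.add_sub_cancel, ← eF]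
  refine (Nat.rfindOpt_mono fun {a u v} huv h => ?_).2 ⟨Nat.pair (encode s) t + 1, by
    rw [Option.mem_def, List.getElem?_eq_getElem hi, e]⟩
  obtain ⟨z, hz⟩ := h2 ((n, y), k) u v huv
  rw [Option.mem_def] at h ⊢
  rw [← hz, List.getElem?_append_left (List.getElem?_eq_some_iff.1 h).1, h]

end Pool.Agent.H37.Fo
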