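import Pool.Agent.H37.Fo1

/-! Shrinking pools of names. -/

set_option autoImplicit false

namespace Pool.Agent.H37.Fo

open Encodable Rnd Defc Kc Finset

abbrev Ev := List Bool × ℕ
abbrev St := List Ev × List Ev × List (List Bool)

variable (T : List Bool × Ev × ℕ → Bool) (Λ : List Ev) (β : ℕ)

def cand (σ : St) (t : ℕ) : Option (Ev × List (List Bool)) :=
  (Λ.find? fun e => !σ.2.1.contains e && decide (σ.2.2.length / 2 ^ β ≤
    ((σ.2.2.drop (Λ.length * (σ.2.2.length / 2 ^ β))).filter fun x => T (x, e, t)).length)).map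
    fun e => (e, ((σ.2.2.drop (Λ.length * (σ.2.2.length / 2 ^ β))).filter
      fun x => T (x, e, t)).take (σ.2.2.length / 2 ^ β))

def step (t : ℕ) (σ : St) (a : ℕ) : Option St :=
  if a = 0 then (hd (cand T Λ β σ) t).map fun r => (σ.1, r.1 :: σ.2.1, r.2)
  else Λ[a - 1]?.map fun e => (e :: σ.1, σ.2.1,
    (σ.2.2.drop ((a - 1) * (σ.2.2.length / 2 ^ β))).take (σ.2.2.length / 2 ^ β))

def run (t : ℕ) (ν : List ℕ) : Option St :=
  ν.foldl (fun o a => o.bind fun σ => step T Λ β t σ a)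
    (some ([], [], W (β * (2 * Λ.length + 1))))

variable {T Λ β}

theorem run_concat (t : ℕ) (ν : List ℕ) (a : ℕ) :
    run T Λ β t (ν ++ [a]) = (run T Λ β t ν).bind fun σ => step T Λ β t σ a := by
  simp [run, List.foldl_append]

theorem step_mono {t t' a : ℕ} {σ τ : St} (h : step T Λ β t σ a = some τ) (ht : t ≤ t') :
    step T Λ β t' σ a = some τ := by
  unfold step at h ⊢
  split_ifs at h ⊢
  · obtain ⟨r, h1, rfl⟩ := Option.map_eq_some_iff.1 h
    rw [hd_mono h1 ht]; rfl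
  · exact h

theorem run_mono {t t' : ℕ} {ν : List ℕ} {σ : St} (h : run T Λ β t ν = some σ) (ht : t ≤ t') :
    run T Λ β t' ν = some σ := by
  induction ν using List.reverseRecOn generalizing σ with
  | nil => exact h
  | append_singleton ν a ih =>
    rw [run_concat, Option.bind_eq_some_iff] at h ⊢
    obtain ⟨τ, h1, h2⟩ := h
    exact ⟨τ, ih h1, step_mono h2 ht⟩

theorem step_spec {t a : ℕ} {σ τ : St} (h : step T Λ β t σ a = some τ) :
    (a = 0 ∧ ∃ e ∈ Λ, e ∉ σ.2.1 ∧ τ.1 = σ.1 ∧ τ.2.1 = e :: σ.2.1 ∧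
      τ.2.2.length = σ.2.2.length / 2 ^ β ∧
      τ.2.2.Sublist (σ.2.2.drop (Λ.length * (σ.2.2.length / 2 ^ β))) ∧
      ∀ x ∈ τ.2.2, ∃ s, T (x, e, s) = true) ∨
    ∃ i, a = i + 1 ∧ ∃ h : i < Λ.length, τ = (Λ[i] :: σ.1, σ.2.1,
      (σ.2.2.drop (i * (σ.2.2.length / 2 ^ β))).take (σ.2.2.length / 2 ^ β)) := by
  unfold step at h
  split_ifs at h with h0
  · obtain ⟨r, h1, rfl⟩ := Option.map_eq_some_iff.1 h
    obtain ⟨s, h2⟩ := hd_spec h1
    obtain ⟨e, h3, rfl⟩ := Option.map_eq_some_iff.1 h2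
    have := List.find?_some h3
    simp only [Bool.and_eq_true, Bool.not_eq_true', List.contains_eq_mem, decide_eq_false_iff_not,
      decide_eq_true_eq] at this
    exact Or.inl ⟨h0, e, List.mem_of_find?_eq_some h3, this.1, rfl, rfl, by
      rw [List.length_take, min_eq_left this.2], (List.take_sublist _ _).trans List.filter_sublist,
      fun x hx => ⟨s, (List.mem_filter.1 (List.mem_of_mem_take hx)).2⟩⟩
  · obtain ⟨e, h1, rfl⟩ := Option.map_eq_some_iff.1 h
    obtain ⟨h2, rfl⟩ := List.getElem?_eq_some_iff.1 h1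
    exact Or.inr ⟨a - 1, by omega, h2, rfl⟩

theorem step_sub {t a : ℕ} {σ τ : St} (h : step T Λ β t σ a = some τ) :
    τ.2.2.Sublist σ.2.2 ∧ σ.1 ⊆ τ.1 ∧ σ.2.1 ⊆ τ.2.1 := by
  rcases step_spec h with ⟨-, e, -, -, a, b, -, c, -⟩ | ⟨i, -, h, rfl⟩
  · exact ⟨c.trans (List.drop_sublist _ _), by simp [a], by simp [b]⟩
  · exact ⟨(List.take_sublist _ _).trans (List.drop_sublist _ _), by simp, by simp⟩

theorem run_sub {t : ℕ} {ν μ : List ℕ} {τ : St} (h : run T Λ β t (ν ++ μ) = some τ) :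
    ∃ σ, run T Λ β t ν = some σ ∧ τ.2.2.Sublist σ.2.2 ∧ σ.1 ⊆ τ.1 ∧ σ.2.1 ⊆ τ.2.1 := by
  induction μ using List.reverseRecOn generalizing τ with
  | nil => exact ⟨τ, by simpa using h, .refl _, by simp, by simp⟩
  | append_singleton μ a ih =>
    rw [← List.append_assoc, run_concat, Option.bind_eq_some_iff] at h
    obtain ⟨ρ, h1, h2⟩ := h
    obtain ⟨σ, a, b, c, d⟩ := ih h1
    obtain ⟨e, f, g⟩ := step_sub h2
    exact ⟨σ, a, e.trans b, List.Subset.trans c f, List.Subset.trans d g⟩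

theorem run_inv (hβ : 2 * Λ.length ≤ 2 ^ β) {t : ℕ} {ν : List ℕ} {σ : St}
    (h : run T Λ β t ν = some σ) : σ.2.2.Nodup ∧ (∀ x ∈ σ.2.2, x.length = β * (2 * Λ.length + 1) ∧
      ∀ e ∈ σ.2.1, ∃ s, T (x, e, s) = true) ∧ σ.1.length + σ.2.1.length = ν.length ∧
      σ.2.1.Nodup ∧ σ.2.1 ⊆ Λ ∧
      ∀ r, ν.length + r = 2 * Λ.length + 1 → σ.2.2.length = 2 ^ (β * r) := by
  induction ν using List.reverseRecOn generalizing σ with
  | nil =>
    obtain rfl := Option.some.inj h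
    refine ⟨nodup_W _, by simp [mem_W], rfl, by simp, by simp, fun r hr => ?_⟩
    rw [length_W, ← hr]; simp
  | append_singleton ν a ih =>
    rw [run_concat, Option.bind_eq_some_iff] at h
    obtain ⟨ρ, h1, h2⟩ := h
    obtain ⟨a1, a2, a3, a4, a5, a6⟩ := ih h1
    have s := (step_sub h2).1
    have l : ∀ r, (ν ++ [a]).length + r = 2 * Λ.length + 1 →
        ρ.2.2.length = 2 ^ (β * r) * 2 ^ β := fun r hr => by
      rw [a6 (r + 1) (by simp at hr; omega), Nat.mul_succ, pow_add]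
    rcases step_spec h2 with ⟨-, e, b1, b2, b3, b4, b5, -, b6⟩ | ⟨i, -, h, rfl⟩
    · refine ⟨a1.sublist s, fun x hx => ⟨(a2 x (s.subset hx)).1, ?_⟩, by simp [b3, b4]; omega,
        by simp [b4, b2, a4], by simp [b4, b1, a5], fun r hr => ?_⟩
      · rw [b4, List.forall_mem_cons]
        exact ⟨b6 x hx, (a2 x (s.subset hx)).2⟩
      · rw [b5, l r hr, Nat.mul_div_cancel _ (by positivity)]
    · refine ⟨a1.sublist s, fun x hx => a2 x (s.subset hx), by simp; omega, a4, a5, fun r hr => ?_⟩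
      simp only [List.length_take, List.length_drop, l r hr]
      rw [Nat.mul_div_cancel _ (by positivity), mul_comm _ (2 ^ β), ← Nat.sub_mul]
      exact min_eq_left (Nat.le_mul_of_pos_left _ (by omega))

theorem idx_drop {P : List (List Bool)} (h : P.Nodup) {x : List Bool} {u : ℕ}
    (hx : x ∈ P.drop u) : u ≤ P.idxOf x := by
  obtain ⟨i, hi, rfl⟩ := List.mem_iff_getElem.1 hx
  rw [List.getElem_drop, h.idxOf_getElem]; omega

theorem idx_take {P : List (List Bool)} (h : P.Nodup) {x : List Bool} {u w : ℕ}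
    (hx : x ∈ (P.drop u).take w) : P.idxOf x < u + w := by
  obtain ⟨i, hi, rfl⟩ := List.mem_iff_getElem.1 hx
  rw [List.getElem_take, List.getElem_drop, h.idxOf_getElem]
  simp at hi; omega

theorem step_disj {t a a' : ℕ} {σ τ τ' : St} (hn : σ.2.2.Nodup) (h : step T Λ β t σ a = some τ)
    (h' : step T Λ β t σ a' = some τ') {x : List Bool} (hx : x ∈ τ.2.2) (hx' : x ∈ τ'.2.2) :
    a = a' := by
  have key : ∀ i j m, (i * m ≤ σ.2.2.idxOf x) → σ.2.2.idxOf x < j * m + m → i ≤ j :=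
    fun i j m a b => Nat.le_of_lt_succ (lt_of_mul_lt_mul_right (a := m)
      (by rw [Nat.succ_mul]; omega) (Nat.zero_le _))
  rcases step_spec h with ⟨rfl, e, -, -, -, -, -, c, -⟩ | ⟨i, rfl, h, rfl⟩ <;>
  rcases step_spec h' with ⟨rfl, e, -, -, -, -, -, c', -⟩ | ⟨j, rfl, h', rfl⟩
  · rfl
  · have := key _ _ _ (idx_drop hn (c.subset hx)) (idx_take hn hx'); omega
  · have := key _ _ _ (idx_drop hn (c'.subset hx')) (idx_take hn hx); omega
  · have := key _ _ _ (idx_drop hn (List.mem_of_mem_take hx)) (idx_take hn hx')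
    have := key _ _ _ (idx_drop hn (List.mem_of_mem_take hx')) (idx_take hn hx)
    omega

theorem diverge (l l' : List ℕ) : l <+: l' ∨ l' <+: l ∨
    ∃ ρ a a' u u', a ≠ a' ∧ l = ρ ++ [a] ++ u ∧ l' = ρ ++ [a'] ++ u' := by
  induction l generalizing l' with
  | nil => simp
  | cons a l ih =>
    rcases l' with _ | ⟨b, l'⟩
    · simp
    by_cases h : a = b
    · subst h
      rcases ih l' with h | h | ⟨ρ, c, c', u, u', h, rfl, rfl⟩
      · simp [h]
      · simp [h]
      · exact Or.inr (Or.inr ⟨a :: ρ, c, c', u, u', h, rfl, rfl⟩)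
    · exact Or.inr (Or.inr ⟨[], a, b, l, l', h, rfl, rfl⟩)

theorem run_chain (hβ : 2 * Λ.length ≤ 2 ^ β) {t : ℕ} {ν ν' : List ℕ} {σ σ' : St}
    (h : run T Λ β t ν = some σ) (h' : run T Λ β t ν' = some σ') {x : List Bool}
    (hx : x ∈ σ.2.2) (hx' : x ∈ σ'.2.2) (hl : ν.length ≤ ν'.length) : σ.1 ⊆ σ'.1 := by
  have : ν <+: ν' := by
    rcases diverge ν ν' with h | h | ⟨ρ, a, a', u, u', n, rfl, rfl⟩
    · exact h
    · exact (h.eq_of_length_le hl) ▸ List.prefix_rfl
    · obtain ⟨τ, b, c, -⟩ := run_sub h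
      obtain ⟨τ', b', c', -⟩ := run_sub h'
      rw [run_concat, Option.bind_eq_some_iff] at b b'
      obtain ⟨π, d, e⟩ := b
      obtain ⟨π', d', e'⟩ := b'
      obtain rfl := Option.some.inj (d.symm.trans d')
      exact absurd (step_disj (run_inv hβ d).1 e e' (c.subset hx) (c'.subset hx')) n
  obtain ⟨μ, rfl⟩ := this
  obtain ⟨τ, b, -, c, -⟩ := run_sub h'
  obtain rfl := Option.some.inj (b.symm.trans h)
  exact c

theorem clean (hβ : 2 * Λ.length ≤ 2 ^ β) (h0 : 0 < Λ.length)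
    (hm : ∀ x e s t, s ≤ t → T (x, e, s) = true → T (x, e, t) = true) {t : ℕ} {ν : List ℕ} {σ : St}
    (h : run T Λ β t ν = some σ) (hl : ν.length ≤ 2 * Λ.length)
    (hn : ∀ t, step T Λ β t σ 0 = none) :
    ∃ x ∈ σ.2.2, ∀ e ∈ Λ, (∃ s, T (x, e, s) = true) → e ∈ σ.2.1 := by
  classical
  obtain ⟨r, hr⟩ := Nat.exists_eq_add_of_le hl
  have l := (run_inv hβ h).2.2.2.2.2 (r + 1) (by omega)
  rw [Nat.mul_succ, pow_add] at l
  set m := 2 ^ (β * r) with hm'
  have m0 : 0 < m := by positivity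
  have l1 : σ.2.2.length / 2 ^ β = m := by rw [l, Nat.mul_div_cancel _ (by positivity)]
  set Q := σ.2.2.drop (Λ.length * m)
  obtain ⟨s, hs⟩ := exists_stage_all ((Q ×ˢ Λ).filter fun p => decide (∃ s, T (p.1, p.2, s) = true))
    (fun p s => T (p.1, p.2, s)) (fun p => hm p.1 p.2) fun p hp => by
      simpa using (List.mem_filter.1 hp).2
  have c : ∀ e ∈ Λ, e ∉ σ.2.1 → (Q.filter fun x => T (x, e, s)).length ≤ m - 1 := fun e a b => by
    have := hn (s + 1)
    simp only [step, if_true, Option.map_eq_none_iff] at this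
    have := hd_none this
    simp only [cand, Option.map_eq_none_iff, List.find?_eq_none, l1] at this
    have := this e a
    simp only [List.contains_eq_mem, b, decide_false, Bool.not_false, Bool.true_and,
      decide_eq_true_eq, not_le] at this
    exact Nat.le_sub_one_of_lt this
  by_contra hc
  push Not at hc
  have n : Q.Nodup := (run_inv hβ h).1.sublist (List.drop_sublist _ _)
  have : Q.toFinset ⊆ (Λ.toFinset.filter (· ∉ σ.2.1)).biUnion
      fun e => (Q.filter fun x => T (x, e, s)).toFinset := fun x hx => by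
    rw [List.mem_toFinset] at hx
    obtain ⟨e, a, b, d⟩ := hc x (List.mem_of_mem_drop hx)
    simp only [mem_biUnion, mem_filter, List.mem_toFinset, List.mem_filter]
    exact ⟨e, ⟨a, d⟩, hx, hs s le_rfl (x, e) (by simp [hx, a, b])⟩
  have := (card_le_card this).trans (card_biUnion_le_card_mul _ _ (m - 1) fun e he =>
    (List.toFinset_card_le _).trans (c e (by simpa using (mem_filter.1 he).1) (mem_filter.1 he).2))
  have f : #(Λ.toFinset.filter (· ∉ σ.2.1)) ≤ Λ.length :=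
    (card_filter_le _ _).trans (List.toFinset_card_le _)
  rw [List.toFinset_card_of_nodup n, List.length_drop, l] at this
  have g := this.trans (Nat.mul_le_mul_right _ f)
  have : Λ.length * (m - 1) < Λ.length * m := Nat.mul_lt_mul_of_pos_left (by omega) h0
  have : m * (2 * Λ.length) ≤ m * 2 ^ β := Nat.mul_le_mul_left _ hβ
  have : m * (2 * Λ.length) = Λ.length * m + Λ.length * m := by ring
  omega

theorem ci_step (hT : CI ∅ T) : CI ∅ fun q : (List Ev × ℕ) × ℕ × St × ℕ =>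
    step T q.1.1 q.1.2 q.2.1 q.2.2.1 q.2.2.2 := by
  obtain ⟨F, hF, eF⟩ : ∃ F : (List Ev × ℕ) × St × ℕ → Option (Ev × List (List Bool)), CI ∅ F ∧
      ∀ Λ β σ, cand T Λ β σ = fun t => F ((Λ, β), σ, t) :=
    ⟨fun q => cand T q.1.1 q.1.2 q.2.1 q.2.2, by unfold cand; fun_prop, fun _ _ _ => rfl⟩
  unfold step hd
  simp only [eF]
  fun_prop

theorem ci_run (hT : CI ∅ T) : CI ∅ fun q : (List Ev × ℕ) × ℕ × List ℕ =>
    run T q.1.1 q.1.2 q.2.1 q.2.2 := by
  obtain ⟨F, hF, eF⟩ : ∃ F : (List Ev × ℕ) × ℕ × St × ℕ → Option St, CI ∅ F ∧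
      ∀ Λ β t σ a, step T Λ β t σ a = F ((Λ, β), t, σ, a) :=
    ⟨_, ci_step hT, fun _ _ _ _ _ => rfl⟩
  unfold run
  simp only [eF]
  fun_prop

end Pool.Agent.H37.Fo
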