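import Pool.Agent.H37.Fo2

/-! Replacing an oracle by a finite condition. -/

set_option autoImplicit false

namespace Pool.Agent.H37.Fo

open Encodable Rnd Defc Kc Finset

variable (T : List Bool × Ev × ℕ → Bool) (A : Ev × ℕ → Bool) (Λ : List Ev) (β : ℕ)

def tr : ℕ → List ℕ
  | 0 => []
  | t + 1 => (run T Λ β t (tr t)).elim (tr t) fun σ => ((List.range Λ.length).find? fun i =>
      !σ.1.contains (Λ.getD i ([], 0)) && A (Λ.getD i ([], 0), t)).elim
      (bif (step T Λ β t σ 0).isSome then tr t ++ [0] else tr t) fun i => tr t ++ [i + 1]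

variable {T A Λ β}

theorem tr_cases {t : ℕ} {σ : St} (h : run T Λ β t (tr T A Λ β t) = some σ) :
    (tr T A Λ β (t + 1) = tr T A Λ β t ∧ step T Λ β t σ 0 = none ∧
      ∀ e ∈ Λ, A (e, t) = true → e ∈ σ.1) ∨
    (tr T A Λ β (t + 1) = tr T A Λ β t ++ [0] ∧ ∃ τ, step T Λ β t σ 0 = some τ) ∨
    ∃ i, ∃ h : i < Λ.length, tr T A Λ β (t + 1) = tr T A Λ β t ++ [i + 1] ∧ Λ[i] ∉ σ.1 ∧
      A (Λ[i], t) = true := by
  rw [tr, h, Option.elim_some]
  cases hf : (List.range Λ.length).find? fun i =>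
      !σ.1.contains (Λ.getD i ([], 0)) && A (Λ.getD i ([], 0), t) with
  | none =>
    cases hs : step T Λ β t σ 0 with
    | none =>
      refine Or.inl ⟨rfl, rfl, fun e he a => ?_⟩
      obtain ⟨i, hi, rfl⟩ := List.mem_iff_getElem.1 he
      simpa [hi, a] using List.find?_eq_none.1 hf i (by simpa)
    | some τ => exact Or.inr (Or.inl ⟨rfl, τ, rfl⟩)
  | some i =>
    have a : i < Λ.length := by simpa using List.mem_of_find?_eq_some hf
    exact Or.inr (Or.inr ⟨i, a, rfl, by simpa [a] using List.find?_some hf⟩)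

theorem tr_inv (t : ℕ) : ∃ σ, run T Λ β t (tr T A Λ β t) = some σ ∧ σ.1.Nodup ∧
    ∀ e ∈ σ.1, e ∈ Λ ∧ ∃ s, A (e, s) = true := by
  induction t with
  | zero => exact ⟨_, rfl, by simp, by simp⟩
  | succ t ih =>
    obtain ⟨σ, a, b, c⟩ := ih
    have a' := run_mono a t.le_succ
    rcases tr_cases a with ⟨d, -⟩ | ⟨d, τ, e⟩ | ⟨i, h, d, e, f⟩ <;> rw [d]
    · exact ⟨σ, a', b, c⟩
    · refine ⟨τ, by rw [run_concat, a']; exact step_mono e t.le_succ, ?_⟩
      rcases step_spec e with ⟨-, e, -, -, g, -⟩ | ⟨i, g, -⟩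
      · rw [g]; exact ⟨b, c⟩
      · cases g
    · refine ⟨(Λ[i] :: σ.1, σ.2.1, (σ.2.2.drop (i * (σ.2.2.length / 2 ^ β))).take
        (σ.2.2.length / 2 ^ β)), by rw [run_concat, a']; simp [step, h], by simp [e, b], ?_⟩
      simp only [List.forall_mem_cons]
      exact ⟨⟨List.getElem_mem _, t, f⟩, c⟩

theorem traj (hβ : 2 * Λ.length ≤ 2 ^ β) (h0 : 0 < Λ.length)
    (hm : ∀ x e s t, s ≤ t → T (x, e, s) = true → T (x, e, t) = true)
    (hA : ∀ e s t, s ≤ t → A (e, s) = true → A (e, t) = true) :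
    ∃ t σ, run T Λ β t (tr T A Λ β t) = some σ ∧
      (∀ t σ', run T Λ β t (tr T A Λ β t) = some σ' → σ'.2.1 ⊆ σ.2.1) ∧ σ.1.Nodup ∧
      (∀ e ∈ σ.1, ∃ s, A (e, s) = true) ∧ (∀ e ∈ Λ, (∃ s, A (e, s) = true) → e ∈ σ.1) ∧
      ∃ x ∈ σ.2.2, ∀ e ∈ Λ, (∃ s, T (x, e, s) = true) → e ∈ σ.2.1 := by
  have st : ∀ t, tr T A Λ β (t + 1) = tr T A Λ β t ∨ ∃ a, tr T A Λ β (t + 1) = tr T A Λ β t ++ [a] :=
    fun t => by
      obtain ⟨σ, a, -⟩ := tr_inv (T := T) (A := A) (Λ := Λ) (β := β) t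
      rcases tr_cases a with ⟨d, -⟩ | ⟨d, -⟩ | ⟨i, h, d, -⟩
      exacts [Or.inl d, Or.inr ⟨_, d⟩, Or.inr ⟨_, d⟩]
  have pf : ∀ s t, s ≤ t → tr T A Λ β s <+: tr T A Λ β t := fun s t h => by
    induction t, h using Nat.le_induction with
    | base => exact List.prefix_rfl
    | succ t _ ih =>
      rcases st t with h | ⟨a, h⟩ <;> rw [h]
      exacts [ih, ih.trans (List.prefix_append _ _)]
  have bd : ∀ t, (tr T A Λ β t).length ≤ 2 * Λ.length := fun t => by
    obtain ⟨σ, a, b, c⟩ := tr_inv (T := T) (A := A) (Λ := Λ) (β := β) t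
    obtain ⟨-, -, d, e, f, -⟩ := run_inv hβ a
    have := (List.subperm_of_subset e f).length_le
    have := (List.subperm_of_subset b fun e he => (c e he).1).length_le
    omega
  obtain ⟨t0, h⟩ := stuck (st := tr T A Λ β) (rk := List.length) bd fun t => by
    rcases st t with h | ⟨a, h⟩ <;> simp [h]
  obtain ⟨σ, a, b, c⟩ := tr_inv (T := T) (A := A) (Λ := Λ) (β := β) t0
  have key : ∀ t, t0 ≤ t → step T Λ β t σ 0 = none ∧ ∀ e ∈ Λ, A (e, t) = true → e ∈ σ.1 :=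
    fun t ht => by
      have e := (h (t + 1) (by omega)).trans (h t ht).symm
      rcases tr_cases (t := t) (by rw [h t ht]; exact run_mono a ht) with ⟨-, d⟩ | ⟨d, -⟩ | ⟨i, -, d, -⟩
      · exact d
      · simp [e] at d
      · simp [e] at d
  refine ⟨t0, σ, a, fun t σ' d => ?_, b, fun e he => (c e he).2, fun e he ⟨s, hs⟩ =>
    (key _ (le_max_left t0 s)).2 e he (hA _ _ _ (le_max_right _ _) hs),
    clean hβ h0 hm a (bd t0) fun t => ?_⟩
  · obtain ⟨μ, e⟩ := pf t _ (le_max_right t0 t)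
    have := run_mono a (le_max_left t0 t)
    rw [← h _ (le_max_left t0 t), ← e] at this
    obtain ⟨τ, f, -, -, g⟩ := run_sub this
    rw [run_mono d (le_max_right t0 t)] at f
    exact Option.some.inj f ▸ g
  · cases hs : step T Λ β t σ 0 with
    | none => rfl
    | some τ => rw [← (key _ (le_max_left t0 t)).1, step_mono hs (le_max_right _ _)]

theorem ci_tr {O : Set (ℕ →. ℕ)} (hT : CI ∅ T) (hA : CI O A) :
    CI O fun q : (List Ev × ℕ) × ℕ => tr T A q.1.1 q.1.2 q.2 := by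
  obtain ⟨F, hF, eF⟩ : ∃ F : (List Ev × ℕ) × ℕ × St × ℕ → Option St, CI O F ∧
      ∀ Λ β t σ a, step T Λ β t σ a = F ((Λ, β), t, σ, a) :=
    ⟨_, (ci_step hT).of_empty, fun _ _ _ _ _ => rfl⟩
  obtain ⟨G, hG, eG⟩ : ∃ G : (List Ev × ℕ) × ℕ × List ℕ → Option St, CI O G ∧
      ∀ Λ β t ν, run T Λ β t ν = G ((Λ, β), t, ν) :=
    ⟨_, (ci_run hT).of_empty, fun _ _ _ _ => rfl⟩
  exact CI.of_rec (F := fun (a : List Ev × ℕ) t => tr T A a.1 a.2 t) (g := fun _ => [])
    (h := fun a t ν => (G (a, t, ν)).elim ν fun σ => ((List.range a.1.length).find? fun i =>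
      !σ.1.contains (a.1.getD i ([], 0)) && A (a.1.getD i ([], 0), t)).elim
      (bif (F (a, t, σ, 0)).isSome then ν ++ [0] else ν) fun i => ν ++ [i + 1])
    (by fun_prop) (by fun_prop) (fun _ => rfl) fun _ _ => by simp only [tr, eF, eG]

def lam (c n : ℕ) : List Ev :=
  ((List.range (n + 1)).flatMap W).flatMap fun s => (List.range (n + c + 1)).map fun k => (s, k)

theorem mem_lam {c n : ℕ} {e : Ev} : e ∈ lam c n ↔ e.1.length ≤ n ∧ e.2 ≤ n + c := by
  obtain ⟨s, k⟩ := e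
  simp [lam, mem_W, Nat.lt_succ_iff]

theorem len_W (n : ℕ) : ((List.range n).flatMap W).length + 1 = 2 ^ n := by
  induction n with
  | zero => rfl
  | succ n ih =>
    rw [List.range_succ, List.flatMap_append, List.length_append, List.flatMap_singleton,
      length_W, pow_succ]
    omega

theorem len_lam (c n : ℕ) : (lam c n).length + (n + c + 1) = 2 ^ (n + 1) * (n + c + 1) := by
  rw [← len_W, lam, List.length_flatMap]
  simp [add_mul]

theorem le_stage {α : Type} [Primcodable α] {O : Set (ℕ →. ℕ)} {M : α → List Bool →. List Bool}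
    {D : (List Bool × α) × List Bool × ℕ → Bool} (hD : CI O D)
    (hm : ∀ a b s t, s ≤ t → D (a, b, s) = true → D (a, b, t) = true)
    (h : ∀ a p b, b ∈ M a p ↔ ∃ t, D ((p, a), b, t) = true) :
    ∃ T : α × Ev × ℕ → Bool, CI O T ∧
      (∀ x e s t, s ≤ t → T (x, e, s) = true → T (x, e, t) = true) ∧
      ∀ x e, (∃ t, T (x, e, t) = true) ↔ LeC (M x) e.1 e.2 := by
  refine ⟨fun q => ((List.range (q.2.1.2 + 1)).flatMap W).any fun p => D ((p, q.1), q.2.1.1, q.2.2),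
    by fun_prop, fun x e s t hst => ?_, fun x e => ?_⟩
  · simp only [List.any_eq_true]
    exact fun ⟨p, a, b⟩ => ⟨p, a, hm _ _ _ _ hst b⟩
  · simp only [List.any_eq_true, List.mem_flatMap, List.mem_range, mem_W, LeC, h, Nat.lt_succ_iff]
    exact ⟨fun ⟨t, p, ⟨_, a, b⟩, c⟩ => ⟨p, b ▸ a, t, c⟩, fun ⟨p, a, t, c⟩ => ⟨t, p, ⟨_, a, rfl⟩, c⟩⟩

theorem kp_le {M : List Bool →. List Bool} {s : List Bool} {n : ℕ} (h : LeC M s n) :
    Ki.KP M s ≤ n ∧ LeC M s (Ki.KP M s) :=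
  ⟨h.le, let ⟨q, a, b⟩ := h.ex; ⟨q, a.le, b⟩⟩

theorem upper {V : List Bool × List Bool →. List Bool} (hV : OptC V) {X : ℕ → Bool}
    {U : List Bool →. List Bool} (hU : OptO X U) :
    ∃ c, ∀ n, 1 ≤ n → ∃ x : List Bool, x.length ≤ c * n ^ 2 * 2 ^ n ∧ Close V U c n x := by
  classical
  obtain ⟨c1, h1⟩ := hV.2 (fun q => Part.some q.1) Computable.fst
  obtain ⟨c2, h2⟩ := hU.2 (fun q => Part.some q) (CI.ri (by fun_prop))
  obtain ⟨D1, d1, d2, d3⟩ := partrec_stage hV.1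
  obtain ⟨T, t1, t2, t3⟩ := le_stage (M := fun x p => V (p, x))
    (D := fun q => D1 q.1 q.2.2 == some q.2.1)
    (CI.beq (d1.comp (g := fun q : (List Bool × List Bool) × List Bool × ℕ => (q.1, q.2.2))
      (by fun_prop)) (by fun_prop)) (by simpa using fun a a' b s t => d2 (a, a') s t b)
    (by simpa using fun a p b => d3 (p, a) b)
  obtain ⟨D2, e1, e2, e3⟩ := ri_stage (x := Hd.bit X) hU.1
  obtain ⟨A', a1, a2, a3⟩ := le_stage (α := Unit) (M := fun _ => U)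
    (D := fun q => D2 (q.1.1, q.2)) (by fun_prop) (fun a => e2 a.1) fun _ => e3
  obtain ⟨Λ, l1, l2, l3⟩ : ∃ Λ : ℕ → List Ev × ℕ, CI ∅ Λ ∧ (∀ n, (Λ n).1 = lam (c1 + c2) n) ∧
      ∀ n, (Λ n).2 = 2 * n + (c1 + c2) + 3 :=
    ⟨fun n => (lam (c1 + c2) n, 2 * n + (c1 + c2) + 3), by unfold lam; fun_prop, fun _ => rfl,
      fun _ => rfl⟩
  have hβ : ∀ n, 2 * (Λ n).1.length ≤ 2 ^ (Λ n).2 := fun n => by
    have := len_lam (c1 + c2) n
    have : 2 ^ (n + 1) * (n + (c1 + c2) + 1) ≤ 2 ^ (n + 1) * 2 ^ (n + (c1 + c2) + 1) :=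
      Nat.mul_le_mul_left _ Nat.lt_two_pow_self.le
    rw [l2, l3, show 2 * n + (c1 + c2) + 3 = n + 1 + (n + (c1 + c2) + 1) + 1 by ring, pow_succ,
      pow_add]
    omega
  have h0 : ∀ n, 0 < (Λ n).1.length := fun n =>
    List.length_pos_of_mem (a := ([], 0)) (by simp [l2, mem_lam])
  obtain ⟨G, hG, eG⟩ : ∃ G : ℕ × ℕ × List ℕ → Option St, CI ∅ G ∧
      ∀ n t ν, run T (Λ n).1 (Λ n).2 t ν = G (n, t, ν) :=
    ⟨_, (ci_run t1).comp (g := fun q : ℕ × ℕ × List ℕ => (Λ q.1, q.2)) (by fun_prop),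
      fun _ _ _ => rfl⟩
  obtain ⟨R, hR, eR⟩ : ∃ R : ℕ × ℕ → List ℕ, CI (orc (Hd.bit X)) R ∧
      ∀ n t, tr T (fun q => A' ((), q)) (Λ n).1 (Λ n).2 t = R (n, t) :=
    ⟨_, (ci_tr t1 (A := fun q => A' ((), q)) (by fun_prop)).comp
      (g := fun q : ℕ × ℕ => (Λ q.1, q.2)) (by have := l1.of_empty (O := orc (Hd.bit X)); fun_prop),
      fun _ _ => rfl⟩
  choose t σ s1 s2 s3 s4 s5 x s6 s7 using fun n =>
    traj (A := fun q => A' ((), q)) (hβ n) (h0 n) t2 (a2 ())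
  obtain ⟨M1, m1, m2⟩ := machine (γ := List Bool) (O := ∅) (D := fun q =>
    (G (q.1.1, q.2.2.2.unpair.1, (decode q.2.2.2.unpair.2).getD [])).elim false fun σ =>
      σ.2.2.contains q.1.2 && σ.1.contains (q.2.2.1, q.2.1) &&
        decide ((σ.1.filter fun e => e.2 == q.2.1).length ≤ 2 ^ (q.2.1 + 1))) (by fun_prop)
    fun a k S hS => by
      rcases S.eq_empty_or_nonempty with rfl | hne
      · simp
      have : ∀ s ∈ S, ∃ t ν σ, run T (Λ a.1).1 (Λ a.1).2 t ν = some σ ∧ a.2 ∈ σ.2.2 ∧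
          (s, k) ∈ σ.1 ∧ (σ.1.filter fun e => e.2 == k).length ≤ 2 ^ (k + 1) := fun s hs => by
        obtain ⟨t, ht⟩ := hS s hs
        simp only [← eG] at ht
        cases h : run T (Λ a.1).1 (Λ a.1).2 t.unpair.1 ((decode t.unpair.2).getD []) with
        | none => rw [h] at ht; simp at ht
        | some σ => rw [h] at ht; exact ⟨_, _, σ, h, by simpa [and_assoc] using ht⟩
      choose! t ν σ b1 b2 b3 b4 using this
      obtain ⟨s0, c0, c⟩ := exists_max_image S (fun s => (ν s).length) hne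
      refine le_trans ?_ ((List.toFinset_card_le _).trans (b4 s0 c0))
      refine card_le_card_of_injOn (fun s => (s, k)) (fun s hs => ?_) fun _ _ _ _ h => by simpa using h
      simpa using run_chain (hβ _) (run_mono (b1 s hs) (le_max_left _ _))
        (run_mono (b1 s0 c0) (le_max_right _ _)) (b2 s hs) (b2 s0 c0) (c s hs) (b3 s hs)
  have hG' := hG.of_empty (O := orc (Hd.bit X))
  obtain ⟨M2, m3, m4⟩ := machine (γ := Unit) (O := orc (Hd.bit X)) (D := fun q =>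
    (G (q.1.1, q.2.2.2, R (q.1.1, q.2.2.2))).elim false fun σ => σ.2.1.contains (q.2.2.1, q.2.1))
    (by fun_prop) fun a k S hS => card_LeC (fun p => V (p, x a.1)) k S fun s hs => by
      obtain ⟨u, hu⟩ := hS s hs
      simp only [← eG, ← eR] at hu
      cases h : run T (Λ a.1).1 (Λ a.1).2 u (tr T (fun q => A' ((), q)) (Λ a.1).1 (Λ a.1).2 u) with
      | none => simp [h] at hu
      | some τ =>
        exact (t3 _ (s, k)).1 (((run_inv (hβ _) (s1 a.1)).2.1 _ (s6 a.1)).2 _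
          (s2 a.1 u τ h (by simpa [h] using hu)))
  obtain ⟨c3, h3⟩ := hV.2 M1 (partrec_of_ri m1)
  obtain ⟨c4, h4⟩ := hU.2 (fun p => M2 (p, ())) (RI.comp m3 (by fun_prop))
  refine ⟨(c1 + c2 + 5) * (4 * (c1 + c2 + 2)) + c3 + c4 + 4, fun n hn => ⟨x n, ?_, fun s hs => ?_⟩⟩
  · rw [((run_inv (hβ _) (s1 n)).2.1 _ (s6 n)).1, l3, l2]
    have := len_lam (c1 + c2) n
    have a : 2 * (lam (c1 + c2) n).length + 1 ≤ 4 * (c1 + c2 + 2) * n * 2 ^ n := by
      have : 2 ^ n * (n + (c1 + c2) + 1) ≤ 2 ^ n * ((c1 + c2 + 2) * n) :=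
        Nat.mul_le_mul_left _ (by nlinarith)
      rw [pow_succ] at *; nlinarith
    calc _ ≤ ((c1 + c2 + 5) * n) * (4 * (c1 + c2 + 2) * n * 2 ^ n) :=
          Nat.mul_le_mul (by nlinarith) a
      _ = (c1 + c2 + 5) * (4 * (c1 + c2 + 2)) * n ^ 2 * 2 ^ n := by ring
      _ ≤ _ := by gcongr; omega
  obtain ⟨q1, a, b⟩ := h1 s (x n) s (by simp)
  obtain ⟨q2, a', b'⟩ := h2 s s (by simp)
  obtain ⟨k1, k2⟩ := kp_le (M := fun p => V (p, x n)) ⟨q1, a, b⟩
  obtain ⟨k3, k4⟩ := kp_le ⟨q2, a', b'⟩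
  have lg : ∀ c, 2 ≤ c → 2 * Nat.log 2 n ≤ c * Nat.log 2 n := fun c h => Nat.mul_le_mul_right _ h
  have := lg ((c1 + c2 + 5) * (4 * (c1 + c2 + 2)) + c3 + c4 + 4) (by omega)
  constructor
  · have f := s5 n (s, Ki.KP U s) (by rw [l2, mem_lam]; simp only; omega) ((a3 () _).2 k4)
    have g : ((σ n).1.filter fun e => e.2 == Ki.KP U s).length ≤ 2 ^ (Ki.KP U s + 1) := by
      rw [← List.toFinset_card_of_nodup ((s3 n).filter _), ← card_image_of_injOn (f := Prod.fst)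
        fun e he e' he' h => Prod.ext h (by simp at he he'; rw [he.2, he'.2])]
      refine card_LeC U _ _ fun s' hs' => ?_
      obtain ⟨e, he, rfl⟩ := mem_image.1 hs'
      simp only [List.mem_toFinset, List.mem_filter, beq_iff_eq] at he
      exact he.2 ▸ (a3 () e).1 (s4 n e he.1)
    obtain ⟨p, p1, p2⟩ := m2 n (x n) (Ki.KP U s) s (Nat.pair (t n) (encode (R (n, t n))))
      (by simp [← eG, ← eR, s1, s6, f, g])
    obtain ⟨q, q1, q2⟩ := h3 p _ s p2
    have := (kp_le (M := fun p => V (p, x n)) ⟨q, q1, q2⟩).1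
    omega
  · have f := s7 n (s, Ki.KP (fun p => V (p, x n)) s) (by rw [l2, mem_lam]; simp only; omega)
      ((t3 _ _).2 k2)
    obtain ⟨p, p1, p2⟩ := m4 n () (Ki.KP (fun p => V (p, x n)) s) s (t n)
      (by simp [← eG, ← eR, s1, f])
    obtain ⟨q, q1, q2⟩ := h4 p s p2
    have := (kp_le ⟨q, q1, q2⟩).1
    omega

theorem lower (V : List Bool × List Bool →. List Bool) (hV : OptC V) : ∃ X, ∀ U, OptO X U →
    ∀ c, ∃ d, ∀ n, 2 ≤ n → ∀ x, Close V U c n x → 2 ^ n ≤ n ^ d * (x.length + 1) := by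
  classical
  have ex : ∀ n m : ℕ, ∃ z : ℕ → List Bool, (∀ i < 2 ^ m, (z i).length = n + 2) ∧
      ∀ x : List Bool, (∀ i < 2 ^ m, LeC (fun p => V (p, x)) (z i) n) → 2 ^ m ≤ x.length := by
    intro n m
    obtain ⟨z, a, b⟩ := exists_mem_notMem_of_card_lt_card
      (s := ((List.range (2 ^ m)).flatMap W).toFinset.biUnion fun x =>
        Fintype.piFinset fun _ : Fin (2 ^ m) =>
          (W (n + 2)).toFinset.filter fun s => LeC (fun p => V (p, x)) s n)
      (t := Fintype.piFinset fun _ : Fin (2 ^ m) => (W (n + 2)).toFinset) (by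
        refine (card_biUnion_le_card_mul _ _ ((2 ^ (n + 1)) ^ 2 ^ m) fun x _ => ?_).trans_lt ?_
        · rw [Fintype.card_piFinset_const]
          exact Nat.pow_le_pow_left (card_LeC _ _ _ fun s hs => (mem_filter.1 hs).2) _
        · rw [Fintype.card_piFinset_const, List.toFinset_card_of_nodup (nodup_W _), length_W,
            pow_succ' 2 (n + 1), mul_pow]
          exact Nat.mul_lt_mul_of_pos_right ((List.toFinset_card_le _).trans_lt
            (by have := len_W (2 ^ m); omega)) (by positivity))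
    refine ⟨fun i => if h : i < 2 ^ m then z ⟨i, h⟩ else [], fun i hi => by
      simpa [hi, mem_W] using Fintype.mem_piFinset.1 a ⟨i, hi⟩, fun x hx => not_lt.1 fun h => b ?_⟩
    refine mem_biUnion.2 ⟨x, by simpa [mem_W], Fintype.mem_piFinset.2 fun i => mem_filter.2
      ⟨Fintype.mem_piFinset.1 a i, by simpa using hx i i.2⟩⟩
  choose z z1 z2 using ex
  let X : ℕ → Bool := fun j => (z j.unpair.1.unpair.1 j.unpair.1.unpair.2
    j.unpair.2.unpair.1).getD j.unpair.2.unpair.2 false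
  refine ⟨X, fun U hU c => ?_⟩
  have hX : CI (orc (Hd.bit X)) X := Hd.LE.refl X
  let bl : ℕ → ℕ → ℕ → List Bool := fun n m i =>
    pre (fun j => X (Nat.pair (Nat.pair n m) (Nat.pair i j))) (n + 2)
  have e : ∀ n m i, i < 2 ^ m → bl n m i = z n m i := fun n m i hi => by
    simp only [bl, X, Nat.unpair_pair]
    rw [← z1 n m i hi, pre_getD]
  obtain ⟨M, m1, m2⟩ := machine (γ := Unit) (O := orc (Hd.bit X)) (D := fun q =>
    decide (q.2.2.2 < 2 ^ q.2.1) && q.2.2.1 == bl q.1.1 q.2.1 q.2.2.2)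
    (by simp only [bl]; unfold pre; fun_prop) fun a k S hS => by
      refine (card_le_card (t := (range (2 ^ k)).image (bl a.1 k)) fun s hs => ?_).trans
        (card_image_le.trans (by rw [card_range, pow_succ]; omega))
      obtain ⟨t, ht⟩ := hS s hs
      simp only [Bool.and_eq_true, decide_eq_true_eq, beq_iff_eq] at ht
      exact mem_image.2 ⟨t, mem_range.2 ht.1, ht.2.symm⟩
  obtain ⟨c1, h1⟩ := hU.2 (fun p => M (p, ())) (RI.comp m1 (by fun_prop))
  obtain ⟨c2, h2⟩ := hV.2 (fun q => Part.some q.1) Computable.fst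
  refine ⟨c + 2 + (c + c1 + 6), fun n hn x hx => ?_⟩
  have l1 : 2 ^ Nat.log 2 n ≤ n := Nat.pow_log_le_self 2 (by omega)
  have l2 : 2 ^ ((c + 2) * Nat.log 2 n + (c + c1 + 6)) ≤ n ^ (c + 2 + (c + c1 + 6)) := by
    rw [pow_add, pow_add n, mul_comm (c + 2), pow_mul]
    gcongr
  refine le_trans ?_ (Nat.mul_le_mul_right _ l2)
  rcases le_total n ((c + 2) * Nat.log 2 n + (c + c1 + 6)) with h | h
  · exact (Nat.pow_le_pow_right two_pos h).trans (Nat.le_mul_of_pos_right _ (Nat.succ_pos _))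
  obtain ⟨m, hm⟩ := Nat.exists_eq_add_of_le h
  obtain ⟨n, rfl⟩ := Nat.exists_eq_add_of_le' hn
  conv_lhs => rw [hm, pow_add]
  refine Nat.mul_le_mul_left _ ((z2 n m x fun i hi => ?_).trans (Nat.le_succ _))
  obtain ⟨p, p1, p2⟩ := m2 n () m (z n m i) i (by simp [hi, e])
  obtain ⟨q, q1, q2⟩ := h1 p _ p2
  have a := (kp_le ⟨q, q1, q2⟩).1
  have b := (hx _ (z1 n m i hi).le).1
  obtain ⟨r, r1, r2⟩ := h2 (z n m i) x (z n m i) (by simp)
  obtain ⟨r, r3, r4⟩ := (kp_le (M := fun p => V (p, x)) ⟨r, r1, r2⟩).2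
  have : Nat.log 2 n ≤ Nat.log 2 (n + 2) := Nat.log_mono_right (by omega)
  exact ⟨r, by rw [add_mul] at hm; omega, r4⟩

theorem poly_le (q : Polynomial ℕ) : ∃ e, ∀ n, 2 ≤ n → q.eval n + 1 ≤ n ^ e := by
  induction q using Polynomial.induction_on' with
  | add p q hp hq =>
    obtain ⟨a, ha⟩ := hp
    obtain ⟨b, hb⟩ := hq
    refine ⟨a + b, fun n hn => ?_⟩
    rw [Polynomial.eval_add, pow_add]
    nlinarith [Nat.mul_le_mul (ha n hn) (hb n hn), Nat.zero_le (p.eval n * q.eval n)]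
  | monomial k a =>
    refine ⟨a + k, fun n hn => ?_⟩
    have : a < n ^ a := Nat.lt_pow_self (by omega)
    have : 0 < n ^ k := by positivity
    rw [Polynomial.eval_monomial, pow_add]
    nlinarith

theorem no_poly {P : ℕ → List Bool → Prop} {d : ℕ}
    (h : ∀ n, 2 ≤ n → ∀ x, P n x → 2 ^ n ≤ n ^ d * (x.length + 1)) (q : Polynomial ℕ) :
    ¬ ∀ n, 1 ≤ n → ∃ x : List Bool, x.length ≤ q.eval n ∧ P n x := fun H => by
  obtain ⟨e, he⟩ := poly_le q
  obtain ⟨n, a, b⟩ := (((tendsto_pow_const_div_const_pow_of_one_lt (d + e)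
    (one_lt_two (α := ℝ))).eventually (gt_mem_nhds one_pos)).and
      (Filter.eventually_ge_atTop 2)).exists
  obtain ⟨x, c, f⟩ := H n (by omega)
  have := (h n b x f).trans (Nat.mul_le_mul_left _ ((Nat.succ_le_succ c).trans (he n b)))
  rw [div_lt_one (by positivity)] at a
  rw [← pow_add] at this
  exact absurd this (not_le.2 (by exact_mod_cast a))

end Pool.Agent.H37.Fo
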