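import Pool.Agent.H37.KiDefs

/-! Conditional complexity and complexity relative to an oracle. -/

set_option autoImplicit false

namespace Pool.Agent.H37.Fo

/-- optimal machine for plain conditional complexity, on pairs (program, condition) -/
def OptC (V : List Bool × List Bool →. List Bool) : Prop :=
  Partrec V ∧ ∀ M : List Bool × List Bool →. List Bool, Partrec M → ∃ c : ℕ,
    ∀ p y s : List Bool, s ∈ M (p, y) → ∃ q : List Bool, q.length ≤ p.length + c ∧ s ∈ V (q, y)

/-- optimal among the machines partial recursive in the oracle `X` -/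
def OptO (X : ℕ → Bool) (U : List Bool →. List Bool) : Prop :=
  RecursiveIn {fun n => Part.some (X n).toNat} U ∧ ∀ M : List Bool →. List Bool,
    RecursiveIn {fun n => Part.some (X n).toNat} M → ∃ c : ℕ,
      ∀ p s : List Bool, s ∈ M p → ∃ q : List Bool, q.length ≤ p.length + c ∧ s ∈ U q

/-- on strings of length at most `n`, complexity given `x` and oracle complexity differ by at most
`c log n + c` -/
def Close (V : List Bool × List Bool →. List Bool) (U : List Bool →. List Bool) (c n : ℕ)
    (x : List Bool) : Prop :=
  ∀ s : List Bool, s.length ≤ n →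
    Ki.KP (fun p => V (p, x)) s ≤ Ki.KP U s + (c * Nat.log 2 n + c) ∧
    Ki.KP U s ≤ Ki.KP (fun p => V (p, x)) s + (c * Nat.log 2 n + c)

end Pool.Agent.H37.Fo
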