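import Pool.Agent.H37.DC

/-!
The free product of the group of all computable permutations with the two-element group is not
the group of computable automorphisms of a computable structure.
-/

set_option autoImplicit false

namespace Pool.Agent.H37.FreeProd

open Pool.Agent.H37 Equiv Filter Monoid
open scoped commutatorElement

/-! ### the algebraic obstruction -/

section alg

variable {G : Type} [Group G]

def actG : G →* Perm (ℤ × (G → ℤ)) :=
  MonoidHom.toHomPerm
    { toFun := fun g v => (v.1, fun x => v.2 (g⁻¹ * x))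
      map_one' := funext fun v => by change _ = v; ext <;> simp
      map_mul' := fun g h => funext fun v => by
        change _ = (v.1, fun x => v.2 (h⁻¹ * (g⁻¹ * x)))
        ext <;> simp [mul_assoc] }

def actH (G : Type) [Group G] : ℤˣ →* Perm (ℤ × (G → ℤ)) :=
  MonoidHom.toHomPerm
    { toFun := fun u v => (v.1 + (1 - (u : ℤ)) * v.2 1, fun x => (u : ℤ) * v.2 x)
      map_one' := funext fun v => by change _ = v; ext <;> simp
      map_mul' := fun g h => funext fun v => by
        change _ = (v.1 + (1 - (h : ℤ)) * v.2 1 + (1 - (g : ℤ)) * ((h : ℤ) * v.2 1),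
          fun x => (g : ℤ) * ((h : ℤ) * v.2 x))
        ext
        · simp; ring
        · simp [mul_assoc] }

theorem actG_apply (g : G) (v : ℤ × (G → ℤ)) : actG g v = (v.1, fun x => v.2 (g⁻¹ * x)) := rfl
theorem actH_apply (u : ℤˣ) (v : ℤ × (G → ℤ)) :
    actH G u v = (v.1 + (1 - (u : ℤ)) * v.2 1, fun x => (u : ℤ) * v.2 x) := rfl

def rho : Coprod G ℤˣ →* Perm (ℤ × (G → ℤ)) := Coprod.lift actG (actH G)

theorem rho_spec (w : Coprod G ℤˣ) (a : ℤ) (f : G → ℤ) :
    rho w (a, f) = (a + (rho w (0, f)).1,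
      fun x => ((Coprod.snd w : ℤˣ) : ℤ) * f ((Coprod.fst w)⁻¹ * x)) := by
  induction w using Coprod.induction_on generalizing a f with
  | inl g => simp [rho, actG_apply]
  | inr u => simp [rho, actH_apply]
  | mul v w hv hw =>
    rw [map_mul, Perm.mul_apply, Perm.mul_apply, hw a, hw 0, hv, hv (0 + _)]
    ext x
    · simp [add_assoc]
    · simp [mul_assoc]

def cm (l : G) : Coprod G ℤˣ := ⁅(Coprod.inl l : Coprod G ℤˣ), (Coprod.inr (-1) : Coprod G ℤˣ)⁆

theorem rho_comm (l : G) (a : ℤ) (f : G → ℤ) :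
    rho (cm l) (a, f) = (a + 2 * (f 1 - f l), f) := by
  simp only [cm, commutatorElement_def, map_mul, ← map_inv, rho, Coprod.lift_apply_inl,
    Coprod.lift_apply_inr, Perm.mul_apply, actG_apply, actH_apply]
  ext x
  · simp; ring
  · simp

theorem alg (l l' : ℕ → G) (hl : ∀ n, ¬ Commute (l n) (l' n)) (x : ℕ → Coprod G ℤˣ)
    (hx : ∀ n, x n = cm (l n) * cm (l' n) * x (n + 1) ^ 6) : False := by
  classical
  let g : ℕ → G := fun n => Coprod.fst (x n)
  have hg : ∀ n, g n = g (n + 1) ^ 6 := fun n => by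
    simp only [g]; rw [hx n]; simp [cm, map_commutatorElement]
  have hs : ∀ n, Coprod.snd (x n) = 1 := fun n => by
    rw [hx n]
    have : ∀ u : ℤˣ, u ^ 6 = 1 := fun u => by rcases Int.units_eq_one_or u with rfl | rfl <;> decide
    simp [cm, map_commutatorElement, this]
  have hp : ∀ n d, ∃ k : ℕ, g n = g (n + d) ^ k := by
    intro n d
    induction d with
    | zero => exact ⟨1, by simp⟩
    | succ d ih =>
      obtain ⟨k, hk⟩ := ih
      exact ⟨6 * k, by rw [hk, hg (n + d), pow_mul, add_assoc]⟩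
  have hc : ∀ n m, g n * g m = g m * g n := fun n m => by
    obtain ⟨k, hk⟩ := hp n m
    obtain ⟨j, hj⟩ := hp m n
    rw [hk, hj, add_comm m n, ← pow_add, ← pow_add, add_comm k j]
  let C : Subgroup G := Subgroup.centralizer (Subgroup.centralizer (Set.range g) : Set G)
  have h1 : ∀ n, g n ∈ C := fun n y hy => (hy _ ⟨n, rfl⟩).symm
  have h2 : ∀ a ∈ C, ∀ b ∈ C, Commute a b := fun a ha b hb =>
    hb a fun _ ⟨n, hn⟩ => hn ▸ ha _ fun _ ⟨m, hm⟩ => hm ▸ hc m n
  let f : G → ℤ := fun y => if y ∈ C then 1 else 0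
  let a : ℕ → ℤ := fun n => (rho (x n) (0, f)).1
  have h3 : ∀ n b, rho (x n) (b, f) = (b + a n, f) := fun n b => by
    rw [rho_spec, hs]
    ext y
    · rfl
    · have : (Coprod.fst (x n))⁻¹ * y ∈ C ↔ y ∈ C := C.mul_mem_cancel_left (C.inv_mem (h1 n))
      simp only [f, this, Units.val_one, one_mul]
  have h4 : ∀ n (k : ℕ), rho (x n ^ k) (0, f) = (k * a n, f) := fun n k => by
    induction k with
    | zero => simp
    | succ k ih => rw [pow_succ', map_mul, Perm.mul_apply, ih, h3]; push_cast; ring_nf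
  have h5 : ∀ n, (a (n + 1)).natAbs < (a n).natAbs := fun n => by
    have e := h3 n 0
    rw [hx n, map_mul, map_mul, Perm.mul_apply, Perm.mul_apply, h4, rho_comm, rho_comm] at e
    have e1 := congrArg Prod.fst e
    have e2 : ¬ (l n ∈ C ∧ l' n ∈ C) := fun h => hl n (h2 _ h.1 _ h.2)
    simp only [f, C.one_mem, if_true] at e1
    split_ifs at e1 with b1 b2 b2
    · exact absurd ⟨by assumption, by assumption⟩ e2
    all_goals omega
  have h6 : ∀ n, (a n).natAbs + n ≤ (a 0).natAbs := fun n => by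
    induction n with
    | zero => simp
    | succ n ih => have := h5 n; omega
  have := h6 ((a 0).natAbs + 1)
  omega

end alg

/-! ### limits of permutations -/

def Lim {ι : Type} (F : Filter ι) (W : ι → Perm ℕ) (w : Perm ℕ) : Prop :=
  ∀ p, ∀ᶠ e in F, W e p = w p ∧ (W e)⁻¹ p = w⁻¹ p

theorem Lim.const {ι : Type} (F : Filter ι) (w : Perm ℕ) : Lim F (fun _ => w) w := fun _ => by simp

theorem Lim.mul {ι : Type} {F : Filter ι} {V W : ι → Perm ℕ} {v w : Perm ℕ} (hv : Lim F V v)
    (hw : Lim F W w) : Lim F (fun e => V e * W e) (v * w) := fun p => by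
  filter_upwards [hv (w p), hw p, hv p, hw (v⁻¹ p)] with e h1 h2 h3 h4
  simp only [mul_inv_rev, Perm.mul_apply, h2.1, h1.1, h3.2, h4.2, and_self]

theorem Lim.pow {ι : Type} {F : Filter ι} {W : ι → Perm ℕ} {w : Perm ℕ} (hw : Lim F W w) (k : ℕ) :
    Lim F (fun e => W e ^ k) (w ^ k) := by
  induction k with
  | zero => simpa using Lim.const F 1
  | succ k ih => simpa only [pow_succ] using ih.mul hw

theorem Lim.unique {ι : Type} {F : Filter ι} [F.NeBot] {W : ι → Perm ℕ} {v w : Perm ℕ}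
    (hv : Lim F W v) (hw : Lim F W w) : v = w := by
  ext p
  obtain ⟨e, h1, h2⟩ := ((hv p).and (hw p)).exists
  rw [← h1.1, h2.1]

def UC (c : ℕ → Perm ℕ) : Prop :=
  CI ∅ (fun q : ℕ × ℕ => c q.1 q.2) ∧ CI ∅ fun q : ℕ × ℕ => (c q.1)⁻¹ q.2

theorem ci_inv {σ : Perm ℕ} (h : CI ∅ σ) : CI ∅ (σ⁻¹ : Perm ℕ) := by
  obtain ⟨f, hf, H⟩ := CI.exists_choice (O := ∅) (p := fun n m : ℕ => σ m == n) (by fun_prop)
    fun n => ⟨σ⁻¹ n, by simp⟩
  exact hf.of_eq fun n => by
    have := H n
    rw [beq_iff_eq] at this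
    exact Perm.eq_inv_iff_eq.2 this

theorem UC.const {σ : Perm ℕ} (h : CI ∅ σ) : UC fun _ => σ :=
  ⟨h.comp (g := fun q : ℕ × ℕ => q.2) (by fun_prop),
    (ci_inv h).comp (g := fun q : ℕ × ℕ => q.2) (by fun_prop)⟩

theorem UC.mul {c d : ℕ → Perm ℕ} (hc : UC c) (hd : UC d) : UC fun e => c e * d e :=
  ⟨hc.1.comp (g := fun q : ℕ × ℕ => (q.1, d q.1 q.2)) (CI.mk (by fun_prop) hd.1),
    (hd.2.comp (g := fun q : ℕ × ℕ => (q.1, (c q.1)⁻¹ q.2)) (CI.mk (by fun_prop) hc.2)).of_eq
      fun q => by simp⟩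

theorem UC.inv {c : ℕ → Perm ℕ} (hc : UC c) : UC fun e => (c e)⁻¹ := ⟨hc.2, by simpa using hc.1⟩

theorem UC.pow {σ : Perm ℕ} (h : CI ∅ σ) : UC fun e => σ ^ e := by
  have := ci_inv h
  constructor
  · simp only [Perm.coe_pow]; fun_prop
  · simp only [← inv_pow, Perm.coe_pow]; fun_prop

theorem UC.comm {c d : ℕ → Perm ℕ} (hc : UC c) (hd : UC d) : UC fun e => ⁅c e, d e⁆ :=
  ((hc.mul hd).mul hc.inv).mul hd.inv

def X (c : ℕ → Perm ℕ) (L : List ℕ) : Perm ℕ := L.foldr (fun e y => c e * y ^ 6) 1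

def wd (L : List ℕ) : List ℕ := L.foldr (fun e w => e :: (w ++ w ++ w ++ w ++ w ++ w)) []

theorem X_eq (c : ℕ → Perm ℕ) (L : List ℕ) : X c L = ((wd L).map c).prod := by
  induction L with
  | nil => rfl
  | cons e L ih =>
    change c e * X c L ^ 6 = ((e :: (wd L ++ wd L ++ wd L ++ wd L ++ wd L ++ wd L)).map c).prod
    simp only [List.map_cons, List.map_append, List.prod_cons, List.prod_append, ← ih, pow_succ,
      pow_zero, one_mul]

theorem prod_apply (c : ℕ → Perm ℕ) (w : List ℕ) (p : ℕ) :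
    (w.map c).prod p = w.foldr (fun e q => c e q) p ∧
      (w.map c).prod⁻¹ p = w.foldl (fun q e => (c e)⁻¹ q) p := by
  induction w generalizing p with
  | nil => simp
  | cons e w ih =>
    rw [List.map_cons, List.prod_cons, mul_inv_rev, Perm.mul_apply, Perm.mul_apply, (ih p).1,
      (ih _).2]
    exact ⟨rfl, rfl⟩

theorem ci_X {c : ℕ → Perm ℕ} (hc : UC c) :
    CI ∅ (fun q : List ℕ × ℕ => X c q.1 q.2) ∧ CI ∅ fun q : List ℕ × ℕ => (X c q.1)⁻¹ q.2 := by
  obtain ⟨h1, h2⟩ := hc
  simp only [X_eq, prod_apply, wd]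
  constructor
  · refine CI.foldr ?_ (by fun_prop) (by fun_prop)
    exact h1.comp (g := fun q : (List ℕ × ℕ) × ℕ × ℕ => q.2) (by fun_prop)
  · refine CI.foldl ?_ (by fun_prop) (by fun_prop)
    exact h2.comp (g := fun q : (List ℕ × ℕ) × ℕ × ℕ => (q.2.2, q.2.1)) (by fun_prop)

theorem lim_X {ι : Type} {F : Filter ι} {c : ℕ → Perm ℕ} {u : ι → ℕ}
    (h : Lim F (fun i => c (u i)) 1) (L : List ℕ) : Lim F (fun i => X c (L ++ [u i])) (X c L) := by
  induction L with
  | nil => simpa [X] using h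
  | cons e L ih => exact (Lim.const F (c e)).mul (ih.pow 6)

theorem limit (Γ : Subgroup (Perm ℕ))
    (hΓ : ∀ σ : Perm ℕ, CI ∅ σ → (∀ l : List ℕ, ∃ γ ∈ Γ, ∀ p ∈ l, γ p = σ p) → σ ∈ Γ)
    (c : ℕ → Perm ℕ) (hc : UC c) (hcΓ : ∀ e, c e ∈ Γ) (hK : ∀ e, (¬ ∃ s, Kst e s = true) → c e = 1) :
    ∃ e : ℕ → ℕ, (∀ n, ∃ s, Kst (e n) s = true) ∧ ∃ x : ℕ → Perm ℕ, (∀ n, x n ∈ Γ) ∧
      ∀ n, x n = c (e n) * x (n + 1) ^ 6 := by
  obtain ⟨hX1, hX2⟩ := ci_X hc
  obtain ⟨X1, e1⟩ : ∃ X1 : List ℕ × ℕ → ℕ, ∀ L p, X c L p = X1 (L, p) :=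
    ⟨fun q => X c q.1 q.2, fun _ _ => rfl⟩
  obtain ⟨X2, e2⟩ : ∃ X2 : List ℕ × ℕ → ℕ, ∀ L p, (X c L)⁻¹ p = X2 (L, p) :=
    ⟨fun q => (X c q.1)⁻¹ q.2, fun _ _ => rfl⟩
  have hX1' : CI ∅ X1 := hX1.of_eq fun q => e1 _ _
  have hX2' : CI ∅ X2 := hX2.of_eq fun q => e2 _ _
  have key : ∀ m, ∃ e, (∃ s, Kst e s = true) ∧ ∀ p < m, c e p = p := by
    intro m
    by_contra hn
    push Not at hn
    have h1 := hc.1
    refine K_not_coRE (re_of_bool (fun e => (List.range m).all fun p => c e p == p) (by fun_prop)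
      fun e => ⟨fun h => by simp [hK e h], fun h h' => ?_⟩)
    obtain ⟨p, hp, hp'⟩ := hn e h'
    exact hp' (by simpa using List.all_eq_true.1 h p (List.mem_range.2 hp))
  choose u hu1 hu2 using key
  have hlim : Lim atTop (fun m => c (u m)) 1 := fun p => by
    filter_upwards [eventually_gt_atTop p] with m hm
    exact ⟨hu2 m p hm, Perm.inv_eq_iff_eq.2 (hu2 m p hm).symm⟩
  obtain ⟨S, hS, hS0, hSs⟩ := re_dc (R := fun L L' : List ℕ =>
      (∃ s, Kst (L'.getD L.length 0) s = true) ∧ L' = L ++ [L'.getD L.length 0] ∧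
      ∀ n ∈ List.range (L.length + 1), ∀ p ∈ List.range (L.length + 1),
        X c (L'.drop n) p = X c (L.drop n) p ∧ (X c (L'.drop n))⁻¹ p = (X c (L.drop n))⁻¹ p)
    (re_and (re_of_nat (fun q s => Kst (q.2.getD q.1.length 0) s) (by fun_prop) fun _ => Iff.rfl)
      (re_of_bool (fun q => q.2 == q.1 ++ [q.2.getD q.1.length 0] &&
        (List.range (q.1.length + 1)).all fun n => (List.range (q.1.length + 1)).all fun p =>
          X c (q.2.drop n) p == X c (q.1.drop n) p &&
            (X c (q.2.drop n))⁻¹ p == (X c (q.1.drop n))⁻¹ p) (by simp only [e1, e2]; fun_prop)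
        fun q => by simp [-List.getD_eq_getElem?_getD, -List.mem_range]))
    (fun _ => True) [] trivial (fun L _ => by
      have : ∀ᶠ m in atTop, ∀ n ∈ Finset.range (L.length + 1), ∀ p ∈ Finset.range (L.length + 1),
          X c (L.drop n ++ [u m]) p = X c (L.drop n) p ∧
            (X c (L.drop n ++ [u m]))⁻¹ p = (X c (L.drop n))⁻¹ p :=
        (eventually_all_finset _).2 fun n _ => (eventually_all_finset _).2 fun p _ =>
          lim_X hlim _ p
      obtain ⟨m, hm⟩ := this.exists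
      refine ⟨L ++ [u m], by simpa using hu1 m, by simp, fun n hn p hp => ?_⟩
      rw [List.drop_append_of_le_length (by simpa [Nat.lt_succ_iff] using hn)]
      exact hm n (by simpa using hn) p (by simpa using hp))
    fun _ _ _ _ => trivial
  have hlen : ∀ m, (S m).length = m := by
    intro m
    induction m with
    | zero => simp [hS0]
    | succ m ih => rw [(hSs m).2.2.1]; simp [ih]
  let e : ℕ → ℕ := fun j => (S (j + 1)).getD j 0
  have hSe : ∀ m, S m = (List.range m).map e := by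
    intro m
    induction m with
    | zero => simp [hS0]
    | succ m ih => rw [(hSs m).2.2.1, hlen, List.range_succ, List.map_append, ← ih]; rfl
  have stab : ∀ n p m, p ≤ m → X c ((S m).drop n) p = X c ((S p).drop n) p ∧
      (X c ((S m).drop n))⁻¹ p = (X c ((S p).drop n))⁻¹ p := by
    intro n p m hm
    induction m, hm using Nat.le_induction with
    | base => exact ⟨rfl, rfl⟩
    | succ m hm ih =>
      rw [← ih.1, ← ih.2]
      by_cases hn : n ≤ m
      · exact (hSs m).2.2.2 n (by simp [hlen]; omega) p (by simp [hlen]; omega)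
      · rw [List.drop_of_length_le (by rw [hlen]; omega),
          List.drop_of_length_le (by rw [hlen]; omega)]
        exact ⟨rfl, rfl⟩
  let x : ℕ → Perm ℕ := fun n =>
    { toFun := fun p => X c ((S p).drop n) p
      invFun := fun p => (X c ((S p).drop n))⁻¹ p
      left_inv := fun p => by
        beta_reduce
        rw [← (stab n _ _ (le_max_right p _)).2]
        exact Perm.inv_eq_iff_eq.2 (stab n p _ (le_max_left p _)).1.symm
      right_inv := fun p => by
        beta_reduce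
        rw [← (stab n _ _ (le_max_right p _)).1]
        exact (Perm.inv_eq_iff_eq.1 (stab n p _ (le_max_left p _)).2).symm }
  have hx : ∀ n, Lim atTop (fun m => X c ((S m).drop n)) (x n) := fun n p => by
    filter_upwards [eventually_ge_atTop p] with m hm
    exact stab n p m hm
  have hXΓ : ∀ L, X c L ∈ Γ := fun L => by
    induction L with
    | nil => exact Γ.one_mem
    | cons e L ih => exact Γ.mul_mem (hcΓ e) (Γ.pow_mem ih 6)
  refine ⟨e, fun n => by simpa only [hlen] using (hSs n).2.1, x, fun n => hΓ _ ?_ fun l => ?_,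
    fun n => (hx n).unique fun p => ?_⟩
  · exact hX1.comp (g := fun p => ((S p).drop n, p)) (by fun_prop)
  · exact ⟨_, hXΓ ((S l.sum).drop n), fun p hp =>
      (stab n p _ (List.single_le_sum (by simp) _ hp)).1⟩
  · filter_upwards [((Lim.const atTop (c (e n))).mul ((hx (n + 1)).pow 6)) p,
      eventually_gt_atTop n] with m h1 h2
    have : (S m).drop n = e n :: (S m).drop (n + 1) := by
      rw [List.drop_eq_getElem_cons (by rw [hlen]; exact h2)]
      simp [hSe m]
    rw [this]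
    exact h1

/-! ### the computable permutations -/

def SymC : Subgroup (Perm ℕ) where
  carrier := {σ | CI ∅ σ}
  one_mem' := CI.id'
  mul_mem' := fun {a b} ha hb => CI.comp (f := a) (g := b) ha hb
  inv_mem' := ci_inv

abbrev Y := ℕ × ℕ × ℕ

def Fib : (ℕ → ℕ → Perm ℕ) →* Perm Y :=
  MonoidHom.toHomPerm
    { toFun := fun γ v => (v.1, v.2.1, γ v.1 v.2.1 v.2.2)
      map_one' := rfl
      map_mul' := fun _ _ => rfl }

def Sh : Perm ℕ →* Perm Y :=
  MonoidHom.toHomPerm
    { toFun := fun T v => (T v.1, v.2)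
      map_one' := rfl
      map_mul' := fun _ _ => rfl }

theorem Fib_apply (γ : ℕ → ℕ → Perm ℕ) (v : Y) : Fib γ v = (v.1, v.2.1, γ v.1 v.2.1 v.2.2) := rfl
theorem Sh_apply (T : Perm ℕ) (v : Y) : Sh T v = (T v.1, v.2) := rfl

theorem conj_Fib (T : Perm ℕ) (γ : ℕ → ℕ → Perm ℕ) :
    (Sh T)⁻¹ * Fib γ * Sh T = Fib fun i => γ (T i) := by
  ext1 v
  simp [← map_inv, Fib_apply, Sh_apply]

def T : Perm ℕ where
  toFun n := if n % 2 = 0 then n + 2 else if n = 1 then 0 else n - 2
  invFun n := if n % 2 = 1 then n + 2 else if n = 0 then 1 else n - 2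
  left_inv n := by beta_reduce; split_ifs <;> first | omega | simp_all
  right_inv n := by beta_reduce; split_ifs <;> first | omega | simp_all

theorem T_pow (e : ℕ) : (T ^ e) 0 = 2 * e := by
  induction e with
  | zero => rfl
  | succ e ih =>
    rw [pow_succ', Perm.mul_apply, ih]
    change (if 2 * e % 2 = 0 then 2 * e + 2 else _) = _
    rw [if_pos (by omega)]; ring

def E : Perm Y ≃* Perm ℕ := (Denumerable.eqv Y).permCongrHom

theorem E_mem {σ : Perm Y} (h : CI ∅ σ) : E σ ∈ SymC := by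
  change CI ∅ fun n => Encodable.encode (σ (Denumerable.ofNat Y n))
  fun_prop

@[fun_prop] theorem ci_swap {α : Type} [Primcodable α] (u v : ℕ) {f : α → ℕ} (hf : CI ∅ f) :
    CI ∅ fun a => swap u v (f a) := by
  simp only [swap_apply_def]; fun_prop

theorem ite_app (c : Prop) [Decidable c] (σ : Perm ℕ) (p : ℕ) :
    (if c then σ else 1) p = if c then σ p else p := by split_ifs <;> rfl

def al : ℕ → ℕ → Perm ℕ := fun i _ => if i = 0 then swap 0 1 else 1
def be : ℕ → ℕ → Perm ℕ := fun i s => if Kst (i / 2) s = true then swap 1 2 else 1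
def ga : ℕ → ℕ → Perm ℕ := fun _ _ => swap 2 3

def gA : SymC := ⟨E (Fib al), E_mem (by
  change CI ∅ fun v => Fib al v
  simp only [Fib_apply, al, ite_app]; fun_prop)⟩
def gB : SymC := ⟨E (Fib be), E_mem (by
  change CI ∅ fun v => Fib be v
  simp only [Fib_apply, be, ite_app]; fun_prop)⟩
def gC : SymC := ⟨E (Fib ga), E_mem (by
  change CI ∅ fun v => Fib ga v
  simp only [Fib_apply, ga]; fun_prop)⟩
def gT : SymC := ⟨E (Sh T), E_mem (by
  change CI ∅ fun v => Sh T v
  simp only [Sh_apply, T, Equiv.coe_fn_mk]; fun_prop)⟩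

def L (e : ℕ) : SymC := ⁅gA, (gT ^ e)⁻¹ * gB * gT ^ e⁆
def L' (e : ℕ) : SymC := gC * L e * gC⁻¹

theorem L_eq (e : ℕ) : (L e : Perm ℕ) = E (Fib ⁅al, fun i => be ((T ^ e) i)⁆) := by
  rw [map_commutatorElement, map_commutatorElement, ← conj_Fib]
  simp [L, gA, gB, gT, commutatorElement_def]

theorem L_one (e : ℕ) (h : ¬ ∃ s, Kst e s = true) : L e = 1 := by
  have : ⁅al, fun i => be ((T ^ e) i)⁆ = 1 := by
    funext i s
    push Not at h
    by_cases hi : i = 0
    · simp [commutatorElement_def, hi, be, T_pow, h s]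
    · simp [commutatorElement_def, al, hi]
  ext1
  rw [L_eq, this]; simp

theorem L_ncomm (e s : ℕ) (h : Kst e s = true) : ¬ Commute (L e) (L' e) := by
  intro hc
  have h1 : Commute (L e : Perm ℕ) (L' e : Perm ℕ) := hc.map SymC.subtype
  have h2 : (L' e : Perm ℕ) = E (Fib (ga * ⁅al, fun i => be ((T ^ e) i)⁆ * ga⁻¹)) := by
    rw [map_mul, map_mul, map_mul, map_mul, map_inv, map_inv, ← L_eq]; rfl
  rw [h2, L_eq] at h1
  have h3 := h1.eq
  rw [← map_mul, ← map_mul, ← map_mul, ← map_mul, E.injective.eq_iff] at h3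
  have h4 : (⁅al, fun i => be ((T ^ e) i)⁆ * (ga * ⁅al, fun i => be ((T ^ e) i)⁆ * ga⁻¹)) 0 s 0 =
      (ga * ⁅al, fun i => be ((T ^ e) i)⁆ * ga⁻¹ * ⁅al, fun i => be ((T ^ e) i)⁆) 0 s 0 := by
    have := DFunLike.congr_fun h3 (0, s, 0)
    rw [Fib_apply, Fib_apply] at this
    exact congrArg (fun v : Y => v.2.2) this
  simp only [commutatorElement_def, al, be, ga, T_pow, Pi.mul_apply, Pi.inv_apply,
    Nat.mul_div_cancel_left e (show 0 < 2 by omega), h, if_true, swap_inv, Perm.mul_apply] at h4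
  revert h4; decide

def ph2 : ℤˣ →* Perm ℕ where
  toFun u := if u = 1 then 1 else swap 0 1
  map_one' := by simp
  map_mul' u v := by
    rcases Int.units_eq_one_or u with rfl | rfl <;> rcases Int.units_eq_one_or v with rfl | rfl <;>
      simp

def InK (G : Type) [Group G] : Prop :=
  ∃ (d : ℕ → Bool) (r : ℕ → List ℕ → Bool), Computable d ∧ Computable₂ r ∧
    ∃ φ : G →* Equiv.Perm ℕ, Function.Injective φ ∧
      ∀ σ : Equiv.Perm ℕ, σ ∈ φ.range ↔
        (Computable (σ : ℕ → ℕ) ∧ (∀ n, d n = false → σ n = n) ∧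
          (∀ n, d n = true → d (σ n) = true) ∧
          ∀ (i : ℕ) (l : List ℕ), (∀ x ∈ l, d x = true) → r i (l.map σ) = r i l)

theorem inK_sym : InK SymC :=
  ⟨fun _ => true, fun _ _ => true, Computable.const _, Computable.const _, SymC.subtype,
    Subtype.val_injective, fun σ => by simp [← ci_iff]; rfl⟩

theorem inK_two : InK ℤˣ := by
  refine ⟨fun n => decide (n < 2), fun _ _ => true, CI.computable (by fun_prop), Computable.const _,
    ph2, (injective_iff_map_eq_one _).2 fun u hu => ?_, fun σ => ⟨?_, fun ⟨_, h1, h2, _⟩ => ?_⟩⟩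
  · by_contra h
    simp [ph2, h] at hu
  · rintro ⟨u, rfl⟩
    by_cases h : u = 1
    · simp [h, Computable.id]
    · refine ⟨?_, ?_, ?_, by simp⟩ <;> simp only [ph2, MonoidHom.coe_mk, OneHom.coe_mk, if_neg h]
      · exact CI.computable (ci_swap 0 1 CI.id')
      · intro n hn
        simp only [decide_eq_false_iff_not] at hn
        exact swap_apply_of_ne_of_ne (by omega) (by omega)
      · intro n hn
        simp only [decide_eq_true_eq, swap_apply_def] at hn ⊢
        split_ifs <;> omega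
  · simp only [decide_eq_false_iff_not, decide_eq_true_eq] at h1 h2
    have a0 := h2 0 (by omega)
    have a1 := h2 1 (by omega)
    have a2 : σ 0 ≠ σ 1 := σ.injective.ne (by omega)
    by_cases h : σ 0 = 0
    · refine ⟨1, Equiv.ext fun n => ?_⟩
      have := h1 n
      simp only [map_one, Perm.one_apply]
      rcases n with _ | _ | n
      · omega
      · change 1 = σ 1; omega
      · exact (this (by omega)).symm
    · refine ⟨-1, Equiv.ext fun n => ?_⟩
      have := h1 n
      simp only [ph2, MonoidHom.coe_mk, OneHom.coe_mk, if_neg (show (-1 : ℤˣ) ≠ 1 by decide),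
        swap_apply_def]
      split_ifs with b1 b2
      · subst b1; omega
      · subst b2; omega
      · exact (this (by omega)).symm

theorem not_inK : ¬ InK (Coprod SymC ℤˣ) := by
  rintro ⟨d, r, -, -, φ, hφ, hr⟩
  have hci : ∀ w, CI ∅ (φ w) := fun w => CI.of_comp ((hr _).1 ⟨w, rfl⟩).1
  let w : ℕ → Coprod SymC ℤˣ := fun e => cm (L e) * cm (L' e)
  have hL : UC fun e => φ (Coprod.inl (L e)) := by
    simp only [L, map_commutatorElement, map_mul, map_inv, map_pow]
    exact (UC.const (hci _)).comm (((UC.pow (hci _)).inv.mul (UC.const (hci _))).mul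
      (UC.pow (hci _)))
  have hL' : UC fun e => φ (Coprod.inl (L' e)) := by
    simp only [L', map_mul]
    exact ((UC.const (hci _)).mul hL).mul (UC.const (hci _))
  obtain ⟨e, he, x, hx, hxe⟩ := limit φ.range (fun σ h1 h2 => (hr σ).2 ⟨h1.computable, fun n hn => by
      obtain ⟨γ, h3, h4⟩ := h2 [n]
      rw [← h4 n (by simp)]; exact ((hr γ).1 h3).2.1 n hn, fun n hn => by
      obtain ⟨γ, h3, h4⟩ := h2 [n]
      rw [← h4 n (by simp)]; exact ((hr γ).1 h3).2.2.1 n hn, fun i l hl => by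
      obtain ⟨γ, h3, h4⟩ := h2 l
      rw [← List.map_congr_left h4]; exact ((hr γ).1 h3).2.2.2 i l hl⟩)
    (fun e => φ (w e)) (by
      simp only [w, cm, map_commutatorElement, map_mul]
      exact (hL.comm (UC.const (hci _))).mul (hL'.comm (UC.const (hci _))))
    (fun e => ⟨_, rfl⟩) fun e h => by simp [w, cm, L', L_one e h]
  choose y hy using hx
  refine alg (fun n => L (e n)) (fun n => L' (e n)) (fun n => ?_) y fun n => hφ ?_
  · obtain ⟨s, hs⟩ := he n
    exact L_ncomm _ s hs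
  · rw [hy, hxe, map_mul φ _ (_ ^ _), map_pow, hy]

theorem main : ¬ ∀ (G H : Type) [Group G] [Group H], InK G → InK H → InK (Coprod G H) :=
  fun h => not_inK (h _ _ inK_sym inK_two)

end Pool.Agent.H37.FreeProd
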