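import Pool.Agent.H37.FrkDefs

namespace Pool.Agent.H37.Frk

open MvPolynomial

abbrev R : Type := MvPolynomial (Fin 3) ℤ

theorem exists_traces (v : Fin 3 → ℂ) : ∃ A B : SL2, ![tr A, tr B, tr (A * B)] = v := by
  obtain ⟨r, hr⟩ := IsAlgClosed.exists_pow_nat_eq (v 2 ^ 2 - 4) (n := 2) (by norm_num)
  refine ⟨⟨!![v 0, -1; 1, 0], by simp [Matrix.det_fin_two]⟩,
    ⟨!![0, (v 2 + r) / 2; -((v 2 - r) / 2), v 1], by
      simp only [Matrix.det_fin_two_of]; linear_combination (-1 / 4 : ℂ) * hr⟩, ?_⟩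
  funext i
  fin_cases i <;> simp [tr, Matrix.trace_fin_two]
  ring

theorem fricke_unique {w : FreeGroup (Fin 2)} {f g : R} (hf : IsFricke w f) (hg : IsFricke w g) :
    f = g := by
  apply MvPolynomial.map_injective (Int.castRingHom ℂ) (RingHom.injective_int _)
  apply MvPolynomial.funext
  intro v
  obtain ⟨A, B, rfl⟩ := exists_traces v
  rw [eval_map, eval_map]
  exact (hf A B).symm.trans (hg A B)

theorem fricke_conj {w w' : FreeGroup (Fin 2)} {f : R} (h : IsConj w w') (hf : IsFricke w f) :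
    IsFricke w' f := by
  intro A B
  obtain ⟨c, rfl⟩ := isConj_iff.1 h
  rw [← hf A B, map_mul, map_mul, map_inv]
  unfold tr
  rw [Matrix.SpecialLinearGroup.coe_mul, Matrix.trace_mul_comm, ← Matrix.SpecialLinearGroup.coe_mul,
    ← mul_assoc, inv_mul_cancel, one_mul]

noncomputable def stp : Fin 2 × Bool → R × R × R × R → R × R × R × R
  | (0, true), (a, b, c, d) => (-b, a + X 0 * b, -d, c + X 0 * d)
  | (0, false), (a, b, c, d) => (X 0 * a + b, -a, X 0 * c + d, -c)
  | (1, true), (a, b, c, d) =>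
      (X 2 * b - X 0 * (X 1 * b) - c - X 0 * d, X 1 * b + d, a + X 0 * b + X 1 * c + X 2 * d, -b)
  | (1, false), (a, b, c, d) =>
      (X 1 * a - X 2 * b + X 0 * (X 1 * b) + c + X 0 * d, -d, -a - X 0 * b - X 2 * d,
        X 1 * d + b)

noncomputable def vec : List (Fin 2 × Bool) → R × R × R × R
  | [] => (1, 0, 0, 0)
  | x :: L => stp x (vec L)

noncomputable def mat (A B : SL2) (v : R × R × R × R) : Matrix (Fin 2) (Fin 2) ℂ :=
  aeval ![tr A, tr B, tr (A * B)] v.1 • (1 : Matrix (Fin 2) (Fin 2) ℂ) +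
  aeval ![tr A, tr B, tr (A * B)] v.2.1 • (A : Matrix (Fin 2) (Fin 2) ℂ) +
  aeval ![tr A, tr B, tr (A * B)] v.2.2.1 • (B : Matrix (Fin 2) (Fin 2) ℂ) +
  aeval ![tr A, tr B, tr (A * B)] v.2.2.2 • ((A : Matrix (Fin 2) (Fin 2) ℂ) * B)

theorem mat_stp (A B : SL2) (x : Fin 2 × Bool) (v : R × R × R × R) :
    ((cond x.2 (![A, B] x.1) (![A, B] x.1)⁻¹ : SL2) : Matrix (Fin 2) (Fin 2) ℂ) * mat A B v =
      mat A B (stp x v) := by
  obtain ⟨a, b, c, d⟩ := v
  have hA := A.det_coe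
  have hB := B.det_coe
  rw [Matrix.det_fin_two] at hA hB
  obtain ⟨i, s⟩ := x
  fin_cases i <;> cases s <;>
  · simp only [mat, stp, Fin.zero_eta, Fin.mk_one, cond_true, cond_false, map_add, map_sub,
      map_neg, map_mul, aeval_X, Matrix.cons_val_zero, Matrix.cons_val_one, Matrix.cons_val_two,
      Matrix.head_cons, Matrix.tail_cons, Matrix.cons_val_fin_one]
    generalize aeval ![tr A, tr B, tr (A * B)] a = a'
    generalize aeval ![tr A, tr B, tr (A * B)] b = b'
    generalize aeval ![tr A, tr B, tr (A * B)] c = c'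
    generalize aeval ![tr A, tr B, tr (A * B)] d = d'
    ext i j
    fin_cases i <;> fin_cases j <;>
      simp [tr, Matrix.trace_fin_two, Matrix.mul_apply, Fin.sum_univ_two, Matrix.adjugate_fin_two,
        Matrix.one_apply] <;> grind

theorem mat_vec (A B : SL2) (L : List (Fin 2 × Bool)) :
    ((FreeGroup.lift ![A, B] (FreeGroup.mk L) : SL2) : Matrix (Fin 2) (Fin 2) ℂ) =
      mat A B (vec L) := by
  rw [FreeGroup.lift_mk]
  induction L with
  | nil => simp [mat, vec]
  | cons x L ih =>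
    rw [List.map_cons, List.prod_cons, Matrix.SpecialLinearGroup.coe_mul, ih, mat_stp]; rfl

noncomputable def fr (L : List (Fin 2 × Bool)) : R :=
  (vec L).1 + (vec L).1 + X 0 * (vec L).2.1 + X 1 * (vec L).2.2.1 + X 2 * (vec L).2.2.2

theorem fr_fricke (L : List (Fin 2 × Bool)) : IsFricke (FreeGroup.mk L) (fr L) := by
  intro A B
  rw [tr, mat_vec]
  simp [mat, fr, tr]
  ring

def P (d b : ℕ) (f : R) : Prop :=
  ∀ m, (coeff m f).natAbs ≤ b ∧ (coeff m f ≠ 0 → ∀ i, m i ≤ d)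

theorem P.mono {d d' b b' : ℕ} {f : R} (h : P d b f) (h1 : d ≤ d') (h2 : b ≤ b') : P d' b' f :=
  fun m => ⟨(h m).1.trans h2, fun e i => ((h m).2 e i).trans h1⟩

theorem P.add {d b b' : ℕ} {f g : R} (h : P d b f) (h' : P d b' g) : P d (b + b') (f + g) := by
  intro m
  rw [coeff_add]
  refine ⟨(Int.natAbs_add_le _ _).trans (Nat.add_le_add (h m).1 (h' m).1), fun e => ?_⟩
  by_cases h0 : coeff m f = 0
  · exact (h' m).2 (by simpa [h0] using e)
  · exact (h m).2 h0

theorem P.neg {d b : ℕ} {f : R} (h : P d b f) : P d b (-f) := by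
  intro m
  rw [coeff_neg, Int.natAbs_neg, neg_ne_zero]
  exact h m

theorem P.sub {d b b' : ℕ} {f g : R} (h : P d b f) (h' : P d b' g) : P d (b + b') (f - g) := by
  rw [sub_eq_add_neg]; exact h.add h'.neg

theorem P.X {d b : ℕ} {f : R} (h : P d b f) (s : Fin 3) : P (d + 1) b (X s * f) := by
  intro m
  rw [coeff_X_mul']
  split_ifs with hs
  · refine ⟨(h _).1, fun e i => ?_⟩
    have := (h _).2 e i
    rw [Finsupp.tsub_apply, Finsupp.single_apply] at this
    split_ifs at this <;> omega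
  · simp

theorem P.u1 {d b : ℕ} {f : R} (h : P d b f) (s : Fin 3) : P (d + 2) b (MvPolynomial.X s * f) :=
  (h.X s).mono (by omega) le_rfl

theorem P.u0 {d b : ℕ} {f : R} (h : P d b f) : P (d + 2) b f := h.mono (by omega) le_rfl

def P4 (d b : ℕ) (v : R × R × R × R) : Prop :=
  P d b v.1 ∧ P d b v.2.1 ∧ P d b v.2.2.1 ∧ P d b v.2.2.2

theorem P4_stp {d b : ℕ} {v : R × R × R × R} (h : P4 d b v) (x : Fin 2 × Bool) :
    P4 (d + 2) (5 * b) (stp x v) := by
  obtain ⟨a, b', c, e⟩ := v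
  obtain ⟨ha, hb, hc, he⟩ := h
  simp only at ha hb hc he
  obtain ⟨i, s⟩ := x
  fin_cases i <;> cases s
  · exact ⟨((ha.u1 0).add hb.u0).mono le_rfl (by omega), ha.u0.neg.mono le_rfl (by omega),
      ((hc.u1 0).add he.u0).mono le_rfl (by omega), hc.u0.neg.mono le_rfl (by omega)⟩
  · exact ⟨hb.u0.neg.mono le_rfl (by omega), (ha.u0.add (hb.u1 0)).mono le_rfl (by omega),
      he.u0.neg.mono le_rfl (by omega), (hc.u0.add (he.u1 0)).mono le_rfl (by omega)⟩
  · exact ⟨(((((ha.u1 1).sub (hb.u1 2)).add ((hb.X 1).X 0)).add hc.u0).add (he.u1 0)).mono le_rfl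
      (by omega), he.u0.neg.mono le_rfl (by omega),
      ((ha.u0.neg.sub (hb.u1 0)).sub (he.u1 2)).mono le_rfl (by omega),
      ((he.u1 1).add hb.u0).mono le_rfl (by omega)⟩
  · exact ⟨((((hb.u1 2).sub ((hb.X 1).X 0)).sub hc.u0).sub (he.u1 0)).mono le_rfl (by omega),
      ((hb.u1 1).add he.u0).mono le_rfl (by omega),
      (((ha.u0.add (hb.u1 0)).add (hc.u1 1)).add (he.u1 2)).mono le_rfl (by omega),
      hb.u0.neg.mono le_rfl (by omega)⟩

theorem P_zero : P 0 1 0 := fun m => by simp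

theorem P_one : P 0 1 1 := fun m => by
  rw [coeff_one]
  split_ifs with h
  · subst h; simp
  · simp

theorem P4_vec (L : List (Fin 2 × Bool)) : P4 (2 * L.length) (5 ^ L.length) (vec L) := by
  induction L with
  | nil => exact ⟨P_one, P_zero, P_zero, P_zero⟩
  | cons x L ih =>
    have := P4_stp ih x
    rw [List.length_cons, pow_succ', mul_add]
    exact this

theorem P_fr (L : List (Fin 2 × Bool)) : P (2 * L.length + 2) (5 ^ (L.length + 1)) (fr L) := by
  obtain ⟨ha, hb, hc, hd⟩ := P4_vec L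
  exact ((((ha.u0.add ha.u0).add (hb.u1 0)).add (hc.u1 1)).add (hd.u1 2)).mono le_rfl
    (by rw [pow_succ]; omega)

theorem bits_le {d k : ℕ} {f : R} (h : P d (5 ^ (k + 1)) f) : bits f ≤ (d + 1) ^ 3 * (3 * (k + 1)) := by
  have h1 : f.support.card ≤ (d + 1) ^ 3 := by
    have : f.support.card ≤ (Fintype.piFinset fun _ : Fin 3 => Finset.range (d + 1)).card := by
      refine Finset.card_le_card_of_injOn (fun m => (m : Fin 3 → ℕ)) ?_ ?_
      · intro m hm
        simp only [Finset.coe_sort_coe, Finset.mem_coe, Fintype.mem_piFinset, Finset.mem_range]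
        intro i
        exact Nat.lt_succ_of_le ((h m).2 (mem_support_iff.1 hm) i)
      · intro m _ m' _ e
        exact DFunLike.coe_injective e
    simpa using this
  have h2 : ∀ m ∈ f.support, Nat.size (coeff m f).natAbs ≤ 3 * (k + 1) := by
    intro m _
    rw [Nat.size_le, pow_mul]
    exact lt_of_le_of_lt (h m).1 (Nat.pow_lt_pow_left (by norm_num) (by omega))
  calc bits f ≤ f.support.card • (3 * (k + 1)) := Finset.sum_le_card_nsmul _ _ _ h2
    _ ≤ _ := by rw [smul_eq_mul]; exact Nat.mul_le_mul_right _ h1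

theorem sizes_le {n s : ℕ} (h : s ∈ sizes n) : s ≤ (2 * n + 3) ^ 3 * (3 * (n + 1)) := by
  obtain ⟨w, f, ⟨L, -, hc, rfl⟩, hf, rfl⟩ := h
  rw [fricke_unique hf (fricke_conj hc (fr_fricke L))]
  exact bits_le (P_fr L)

end Pool.Agent.H37.Frk
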