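import Pool.Agent.H37.Frk1

namespace Pool.Agent.H37.Frk

open Polynomial

noncomputable def s : ℕ → ℤ[X]
  | 0 => 0
  | 1 => 1
  | k + 2 => X * s (k + 1) - s k

theorem s_high : ∀ k i, k ≤ i → (s k).coeff i = 0
  | 0, i, _ => by simp [s]
  | 1, i, h => by rw [s, coeff_one]; simp; omega
  | k + 2, i, h => by
    obtain ⟨i, rfl⟩ : ∃ j, i = j + 1 := ⟨i - 1, by omega⟩
    rw [s, coeff_sub, coeff_X_mul, s_high (k + 1) i (by omega), s_high k _ (by omega)]; rfl

theorem s_odd : ∀ k i, (i + k) % 2 = 0 → (s k).coeff i = 0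
  | 0, i, _ => by simp [s]
  | 1, i, h => by rw [s, coeff_one]; simp; omega
  | k + 2, 0, h => by
    rw [s, coeff_sub, coeff_X_mul_zero, s_odd k _ (by omega)]; rfl
  | k + 2, i + 1, h => by
    rw [s, coeff_sub, coeff_X_mul, s_odd (k + 1) i (by omega), s_odd k _ (by omega)]; rfl

theorem s_coeff : ∀ k i r, i + 2 * r = k →
    (s (k + 1)).coeff i = (-1) ^ r * ((i + r).choose r : ℤ)
  | 0, i, r, h => by
    obtain rfl : i = 0 := by omega
    obtain rfl : r = 0 := by omega
    simp [s]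
  | 1, i, r, h => by
    obtain rfl : i = 1 := by omega
    obtain rfl : r = 0 := by omega
    simp [s]
  | k + 2, 0, r, h => by
    obtain ⟨r, rfl⟩ : ∃ j, r = j + 1 := ⟨r - 1, by omega⟩
    rw [s, coeff_sub, coeff_X_mul_zero, s_coeff k 0 r (by omega)]
    simp [pow_succ]
  | k + 2, i + 1, 0, h => by
    rw [s, coeff_sub, coeff_X_mul, s_coeff (k + 1) i 0 (by omega), s_high _ _ (by omega)]
    simp
  | k + 2, i + 1, r + 1, h => by
    rw [s, coeff_sub, coeff_X_mul, s_coeff (k + 1) i (r + 1) (by omega),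
      s_coeff k (i + 1) r (by omega), show i + 1 + (r + 1) = (i + (r + 1)) + 1 by ring,
      Nat.choose_succ_succ, show i + 1 + r = i + (r + 1) by ring]
    push_cast; ring

theorem sl_pow (M : SL2) (k : ℕ) : ((M ^ (k + 1) : SL2) : Matrix (Fin 2) (Fin 2) ℂ) =
    aeval (tr M) (s (k + 1)) • (M : Matrix (Fin 2) (Fin 2) ℂ) - aeval (tr M) (s k) • 1 := by
  have hM : (M : Matrix (Fin 2) (Fin 2) ℂ) * M = tr M • (M : Matrix (Fin 2) (Fin 2) ℂ) - 1 := by
    have hA := M.det_coe
    rw [Matrix.det_fin_two] at hA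
    ext i j
    fin_cases i <;> fin_cases j <;>
      simp [tr, Matrix.trace_fin_two, Matrix.mul_apply, Fin.sum_univ_two, Matrix.one_apply] <;>
      grind
  induction k with
  | zero => simp [s]
  | succ k ih =>
    rw [pow_succ, Matrix.SpecialLinearGroup.coe_mul, ih, sub_mul, smul_mul_assoc, hM, s]
    simp only [map_sub, map_mul, aeval_X, smul_mul_assoc, one_mul, smul_sub, sub_smul, smul_smul]
    rw [mul_comm (tr M)]
    abel

noncomputable def T (p q r : ℤ[X]) : R :=
  aeval (MvPolynomial.X 0 : R) p * aeval (MvPolynomial.X 1 : R) q * aeval (MvPolynomial.X 2 : R) r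

noncomputable def dd (i j k : ℕ) : Fin 3 →₀ ℕ :=
  Finsupp.single 0 i + Finsupp.single 1 j + Finsupp.single 2 k

theorem dd_inj {i j k i' j' k' : ℕ} : dd i j k = dd i' j' k' ↔ i = i' ∧ j = j' ∧ k = k' := by
  constructor
  · intro h
    have h0 := DFunLike.congr_fun h 0
    have h1 := DFunLike.congr_fun h 1
    have h2 := DFunLike.congr_fun h 2
    simp [dd] at h0 h1 h2
    exact ⟨h0, h1, h2⟩
  · rintro ⟨rfl, rfl, rfl⟩; rfl

theorem aeval_mon (t : Fin 3) (a : ℕ) (c : ℤ) :
    aeval (MvPolynomial.X t : R) (monomial a c) = MvPolynomial.monomial (Finsupp.single t a) c := by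
  rw [aeval_monomial, MvPolynomial.X_pow_eq_monomial, MvPolynomial.algebraMap_eq,
    MvPolynomial.C_mul_monomial, mul_one]

theorem coeff_T (p q r : ℤ[X]) (i j k : ℕ) :
    MvPolynomial.coeff (dd i j k) (T p q r) = p.coeff i * q.coeff j * r.coeff k := by
  unfold T
  induction p using Polynomial.induction_on' with
  | add p p' h1 h2 => simp only [map_add, add_mul, MvPolynomial.coeff_add, h1, h2, coeff_add]
  | monomial a c =>
    induction q using Polynomial.induction_on' with
    | add q q' h1 h2 =>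
      simp only [map_add, add_mul, mul_add, MvPolynomial.coeff_add, h1, h2, coeff_add]
    | monomial b c' =>
      induction r using Polynomial.induction_on' with
      | add r r' h1 h2 =>
        simp only [map_add, mul_add, MvPolynomial.coeff_add, h1, h2, coeff_add]
      | monomial e c'' =>
        rw [aeval_mon, aeval_mon, aeval_mon, MvPolynomial.monomial_mul, MvPolynomial.monomial_mul,
          MvPolynomial.coeff_monomial, coeff_monomial, coeff_monomial, coeff_monomial]
        have := dd_inj (i := a) (j := b) (k := e) (i' := i) (j' := j) (k' := k)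
        change (if dd a b e = dd i j k then _ else _) = _
        simp only [this]
        by_cases h1 : a = i <;> by_cases h2 : b = j <;> by_cases h3 : e = k <;> simp [h1, h2, h3]

theorem aeval_T (v : Fin 3 → ℂ) (p q r : ℤ[X]) :
    MvPolynomial.aeval v (T p q r) = aeval (v 0) p * aeval (v 1) q * aeval (v 2) r := by
  unfold T
  rw [map_mul, map_mul, ← aeval_algHom_apply, ← aeval_algHom_apply, ← aeval_algHom_apply]
  simp

noncomputable def FF (a b c : ℕ) : R :=
  T (s (a + 1)) (s (b + 1)) (s (c + 3) - s (c + 1)) + T (s (a + 1)) (X * s b) (s (c + 1)) +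
    T (X * s a) (s (b + 1)) (s (c + 1)) - T (X * s (a + 1)) (s b) (s (c + 2)) -
    T (s a) (X * s (b + 1)) (s (c + 2)) + T (s a) (s b) (s (c + 2) - s c)

def wd (a b c : ℕ) : List (Fin 2 × Bool) :=
  List.replicate (a + 1) (0, true) ++ List.replicate (b + 1) (1, true) ++
    (List.replicate (c + 1) [(0, true), (1, true)]).flatten

theorem wd_length (a b c : ℕ) : (wd a b c).length = a + b + 2 * c + 4 := by
  simp [wd]; ring

theorem wd_pos (a b c : ℕ) : ∀ x ∈ wd a b c, x.2 = true := by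
  intro x hx
  simp only [wd, List.mem_append, List.mem_flatten, List.mem_replicate] at hx
  rcases hx with (⟨-, rfl⟩ | ⟨-, rfl⟩) | ⟨l, ⟨-, rfl⟩, hx⟩
  · rfl
  · rfl
  · simp at hx; rcases hx with rfl | rfl <;> rfl

theorem wd_cyc (a b c : ℕ) : FreeGroup.IsCyclicallyReduced (wd a b c) := by
  refine ⟨?_, fun x hx y hy _ => ?_⟩
  · refine List.Pairwise.isChain (List.pairwise_of_forall_mem_list fun x hx y hy _ => ?_)
    rw [wd_pos a b c x hx, wd_pos a b c y hy]
  · rw [wd_pos a b c x (List.mem_of_mem_getLast? hx), wd_pos a b c y (List.mem_of_mem_head? hy)]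

theorem wd_fricke (a b c : ℕ) : IsFricke (FreeGroup.mk (wd a b c)) (FF a b c) := by
  intro A B
  have e : FreeGroup.lift ![A, B] (FreeGroup.mk (wd a b c)) =
      A ^ (a + 1) * B ^ (b + 1) * (A * B) ^ (c + 1) := by
    rw [FreeGroup.lift_mk]
    simp [wd, List.map_flatten, List.prod_flatten, mul_assoc]
  rw [e, tr, Matrix.SpecialLinearGroup.coe_mul, Matrix.SpecialLinearGroup.coe_mul, sl_pow, sl_pow,
    sl_pow]
  simp only [FF, map_add, map_sub, aeval_T, s, map_mul, aeval_X, Matrix.cons_val_zero,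
    Matrix.cons_val_one, Matrix.cons_val_two, Matrix.head_cons, Matrix.tail_cons]
  generalize aeval (tr A) (s (a + 1)) = p1
  generalize aeval (tr A) (s a) = q1
  generalize aeval (tr B) (s (b + 1)) = p2
  generalize aeval (tr B) (s b) = q2
  generalize aeval (tr (A * B)) (s (c + 1)) = p3
  generalize aeval (tr (A * B)) (s c) = q3
  have hA := A.det_coe
  have hB := B.det_coe
  rw [Matrix.det_fin_two] at hA hB
  simp [tr, Matrix.trace_fin_two, Matrix.mul_apply, Fin.sum_univ_two, Matrix.one_apply]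
  grind

theorem two_pow_le_choose (r N : ℕ) (h : 2 * r ≤ N) : 2 ^ r ≤ N.choose r := by
  refine le_trans ?_ (Nat.choose_le_choose r h)
  rw [← Nat.centralBinom_eq_two_mul_choose]
  clear h
  induction r with
  | zero => simp
  | succ r ih =>
    have := Nat.succ_mul_centralBinom_succ r
    rw [pow_succ]
    by_contra hlt
    push Not at hlt
    nlinarith

theorem coeff_big (i j k r1 r2 r3 : ℕ) (h : 2 * (r3 + 1) ≤ k + r3) :
    2 ^ (r3 + 1) ≤ (MvPolynomial.coeff (dd (i + 1) (j + 1) k)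
      (FF (i + 1 + 2 * r1) (j + 1 + 2 * r2) (k + 2 * r3))).natAbs := by
  simp only [FF, MvPolynomial.coeff_add, MvPolynomial.coeff_sub, coeff_T, coeff_X_mul, coeff_sub]
  rw [s_coeff _ (i + 1) r1 rfl, s_coeff _ (j + 1) r2 rfl, s_coeff _ k r3 rfl,
    s_coeff (k + 2 * r3 + 2) k (r3 + 1) (by ring),
    show j + 1 + 2 * r2 = (j + 2 * r2) + 1 by ring, s_coeff _ j r2 rfl,
    show i + 1 + 2 * r1 = (i + 2 * r1) + 1 by ring, s_coeff _ i r1 rfl,
    s_odd (i + 2 * r1 + 1 + 1) i (by omega), s_odd (i + 2 * r1 + 1) (i + 1) (by omega),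
    show k + (r3 + 1) = (k + r3) + 1 by ring, Nat.choose_succ_succ]
  have h1 := two_pow_le_choose _ _ h
  have h2 : (i + r1).choose r1 ≤ (i + 1 + r1).choose r1 := Nat.choose_le_choose _ (by omega)
  have h3 : (j + r2).choose r2 ≤ (j + 1 + r2).choose r2 := Nat.choose_le_choose _ (by omega)
  have h4 : 1 ≤ (i + 1 + r1).choose r1 := Nat.choose_pos (by omega)
  have h5 : 1 ≤ (j + 1 + r2).choose r2 := Nat.choose_pos (by omega)
  generalize (i + r1).choose r1 = Q1 at *
  generalize (j + r2).choose r2 = Q2 at *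
  generalize (i + 1 + r1).choose r1 = C1 at *
  generalize (j + 1 + r2).choose r2 = C2 at *
  generalize (k + r3).choose r3 = C3 at *
  generalize (k + r3).choose r3.succ = D3 at *
  obtain ⟨e1, rfl⟩ := Nat.exists_eq_add_of_le h2
  obtain ⟨e2, rfl⟩ := Nat.exists_eq_add_of_le h3
  have key : ∀ x : ℤ, x = (-1) ^ (r1 + r2 + r3 + 1) *
      (((Q1 + e1) * (Q2 + e2) * D3 + (Q1 + e1) * e2 * C3 + e1 * (Q2 + e2) * C3 : ℕ) : ℤ) →
      2 ^ (r3 + 1) ≤ x.natAbs := by
    rintro x rfl
    rw [Int.natAbs_mul, Int.natAbs_pow, Int.natAbs_natCast]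
    simp only [Int.reduceNeg, Int.natAbs_neg, Int.natAbs_one, one_pow, one_mul]
    have : 1 * 1 * D3 ≤ (Q1 + e1) * (Q2 + e2) * D3 :=
      Nat.mul_le_mul_right _ (Nat.mul_le_mul h4 h5)
    omega
  apply key
  push_cast; ring

theorem bits_ge (M a : ℕ) (ha : 8 * M ≤ a + 1) : M ^ 4 ≤ bits (FF a (8 * M - 1) (8 * M - 1)) := by
  classical
  rcases Nat.eq_zero_or_pos M with rfl | hM
  · simp
  set f := FF a (8 * M - 1) (8 * M - 1) with hf
  let I := Finset.range M ×ˢ Finset.range M ×ˢ Finset.range M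
  let g : ℕ × ℕ × ℕ → (Fin 3 →₀ ℕ) := fun r =>
    dd (a - 2 * r.1) (8 * M - 1 - 2 * r.2.1) (8 * M - 1 - 2 * (M + r.2.2))
  have hbig : ∀ r ∈ I, 2 ^ M ≤ (MvPolynomial.coeff (g r) f).natAbs := by
    rintro ⟨r1, r2, r3⟩ hr
    simp only [I, Finset.mem_product, Finset.mem_range] at hr
    have := coeff_big (a - 2 * r1 - 1) (8 * M - 1 - 2 * r2 - 1) (8 * M - 1 - 2 * (M + r3)) r1 r2
      (M + r3) (by omega)
    rw [show a - 2 * r1 - 1 + 1 = a - 2 * r1 by omega,
      show 8 * M - 1 - 2 * r2 - 1 + 1 = 8 * M - 1 - 2 * r2 by omega,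
      show a - 2 * r1 + 2 * r1 = a by omega,
      show 8 * M - 1 - 2 * r2 + 2 * r2 = 8 * M - 1 by omega,
      show 8 * M - 1 - 2 * (M + r3) + 2 * (M + r3) = 8 * M - 1 by omega] at this
    exact le_trans (Nat.pow_le_pow_right (by norm_num) (by omega)) this
  have hinj : Set.InjOn g I := by
    rintro ⟨r1, r2, r3⟩ hr ⟨r1', r2', r3'⟩ hr' e
    simp only [I, Finset.coe_product, Set.mem_prod, Finset.mem_coe, Finset.mem_range] at hr hr'
    have := dd_inj.1 e
    simp only [Prod.mk.injEq] at this ⊢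
    omega
  have hsub : I.image g ⊆ f.support := by
    intro m hm
    obtain ⟨r, hr, rfl⟩ := Finset.mem_image.1 hm
    rw [MvPolynomial.mem_support_iff]
    intro e
    have := hbig r hr
    rw [e] at this
    have h2 : 0 < 2 ^ M := by positivity
    simp at this
  calc M ^ 4 = (I.image g).card • M := by
        rw [Finset.card_image_of_injOn hinj]; simp [I]; ring
    _ ≤ ∑ m ∈ I.image g, Nat.size (MvPolynomial.coeff m f).natAbs := by
        apply Finset.card_nsmul_le_sum
        intro m hm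
        obtain ⟨r, hr, rfl⟩ := Finset.mem_image.1 hm
        exact (Nat.lt_size.2 (hbig r hr)).le
    _ ≤ bits f := Finset.sum_le_sum_of_subset hsub

theorem S_ge (n : ℕ) (hn : 32 ≤ n) : (n / 32) ^ 4 ≤ S n := by
  refine le_trans (bits_ge (n / 32) (n - 24 * (n / 32) - 1) (by omega))
    (le_csSup ⟨_, fun s hs => sizes_le hs⟩ ⟨_, _, ⟨_, wd_cyc _ _ _, IsConj.refl _, ?_⟩,
      wd_fricke _ _ _, rfl⟩)
  rw [wd_length]; omega

theorem S_le (n : ℕ) : S n ≤ (2 * n + 3) ^ 3 * (3 * (n + 1)) :=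
  csSup_le' fun _ hs => sizes_le hs

end Pool.Agent.H37.Frk
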