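import Mathlib

/-! Fricke trace polynomials and their sparse bit-size. -/

namespace Pool.Agent.H37.Frk

open MvPolynomial

/-- `SL(2, ℂ)`. -/
abbrev SL2 : Type := Matrix.SpecialLinearGroup (Fin 2) ℂ

/-- Trace of an element of `SL(2, ℂ)`. -/
noncomputable def tr (M : SL2) : ℂ := Matrix.trace (M : Matrix (Fin 2) (Fin 2) ℂ)

/-- `f` is the Fricke trace polynomial of `w ∈ F(a,b)` (`a = of 0`, `b = of 1`). -/
def IsFricke (w : FreeGroup (Fin 2)) (f : MvPolynomial (Fin 3) ℤ) : Prop :=
  ∀ A B : SL2, tr (FreeGroup.lift ![A, B] w) = aeval ![tr A, tr B, tr (A * B)] f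

/-- `w` has cyclically reduced length `n`. -/
def CycLen (w : FreeGroup (Fin 2)) (n : ℕ) : Prop :=
  ∃ L : List (Fin 2 × Bool), FreeGroup.IsCyclicallyReduced L ∧ IsConj (FreeGroup.mk L) w ∧
    L.length = n

/-- Total binary size of the nonzero coefficients. -/
noncomputable def bits (f : MvPolynomial (Fin 3) ℤ) : ℕ :=
  ∑ m ∈ f.support, Nat.size (coeff m f).natAbs

/-- The sizes `‖f_w‖` of the words of cyclically reduced length `n`. -/
def sizes (n : ℕ) : Set ℕ := {s | ∃ w f, CycLen w n ∧ IsFricke w f ∧ s = bits f}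

/-- `S(n)`, the largest such size. -/
noncomputable def S (n : ℕ) : ℕ := sSup (sizes n)

end Pool.Agent.H37.Frk
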