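import Pool.Agent.H37.Sign2
import Pool.Agent.H37.SimInc

set_option autoImplicit false

namespace Pool.Agent.H37.Sign

open Pool.Agent.H38.NP Pool.Agent.H36.Gr Finset

section PT
variable {α : Type} [Enc α] {n N : α → ℕ} {inc act : α → ℕ → ℕ → Bool}

theorem pt_all (hn : PT n) (hN : PT N) (hi : PT fun p : α × ℕ × ℕ => inc p.1 p.2.1 p.2.2)
    (ha : PT fun p : α × ℕ × ℕ => act p.1 p.2.1 p.2.2) :
    PT (fun a => mkG (verts (n a) (N a) (inc a) (act a)) (adj (N a) (inc a))) ∧
    PT (fun a => tt (n a) (N a) (inc a) (act a)) := by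
  obtain ⟨I, hI, rfl⟩ : ∃ I : α × ℕ × ℕ → Bool, PT I ∧ inc = fun a b c => I (a, b, c) :=
    ⟨_, hi, rfl⟩
  obtain ⟨A, hA, rfl⟩ : ∃ I : α × ℕ × ℕ → Bool, PT I ∧ act = fun a b c => I (a, b, c) :=
    ⟨_, ha, rfl⟩
  have h1 : PT fun p : α × C × C => adj (N p.1) (fun b c => I (p.1, b, c)) p.2.1 p.2.2 := by
    unfold adj; fun_prop
  have h2 : PT fun p : α × ℕ × ℕ =>
      sl (N p.1) (fun b c => I (p.1, b, c)) (fun b c => A (p.1, b, c)) p.2.1 p.2.2 := by
    unfold sl com; fun_prop
  obtain ⟨S, hS, eS⟩ : ∃ S : α × ℕ × ℕ → ℕ, PT S ∧ ∀ a x y,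
      sl (N a) (fun b c => I (a, b, c)) (fun b c => A (a, b, c)) x y = S (a, x, y) :=
    ⟨_, h2, fun _ _ _ => rfl⟩
  obtain ⟨D, hD, eD⟩ : ∃ D : α × C × C → Bool, PT D ∧ ∀ a x y,
      adj (N a) (fun b c => I (a, b, c)) x y = D (a, x, y) := ⟨_, h1, fun _ _ _ => rfl⟩
  have h3 : PT fun a => cols (n a) (N a) (fun b c => I (a, b, c)) (fun b c => A (a, b, c)) := by
    unfold cols; simp only [eS]; fun_prop
  obtain ⟨K, hK, eK⟩ : ∃ K : α → List C, PT K ∧ ∀ a,
      cols (n a) (N a) (fun b c => I (a, b, c)) (fun b c => A (a, b, c)) = K a :=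
    ⟨_, h3, fun _ => rfl⟩
  refine ⟨pt_mkG ?_ h1, ?_⟩
  · unfold verts deg tt; simp only [eK, eD]; fun_prop
  · unfold tt; simp only [eK]; fun_prop

end PT

def incF (φ : F3) (r c : ℕ) : Bool :=
  cond (decide (r / (3 * φ.length + 1) = 3 * φ.length))
    (decide (r % (3 * φ.length + 1) = 3 * φ.length) || decide (c / 3 = r % (3 * φ.length + 1)))
    (decide (c = r / (3 * φ.length + 1)) || decide (c = r % (3 * φ.length + 1)))

def actF (φ : F3) (r s : ℕ) : Bool :=
  decide (s / (3 * φ.length + 1) = 3 * φ.length) &&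
  cond (decide (r / (3 * φ.length + 1) = 3 * φ.length))
    (decide (r % (3 * φ.length + 1) < φ.length) && decide (s % (3 * φ.length + 1) = 3 * φ.length))
    (decide (r % (3 * φ.length + 1) < 3 * φ.length) &&
      conf φ (r / (3 * φ.length + 1)) (r % (3 * φ.length + 1)) &&
      !decide (r / (3 * φ.length + 1) / 3 = r % (3 * φ.length + 1) / 3) &&
      (decide (s % (3 * φ.length + 1) = 3 * φ.length) ||
        decide (s % (3 * φ.length + 1) = r / (3 * φ.length + 1) / 3) ||
        decide (s % (3 * φ.length + 1) = r % (3 * φ.length + 1) / 3)))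

theorem dm {W a b : ℕ} (h : b < W) : (a * W + b) / W = a ∧ (a * W + b) % W = b := by
  constructor
  · rw [add_comm, Nat.add_mul_div_right _ _ (by omega), Nat.div_eq_of_lt h, zero_add]
  · rw [add_comm, Nat.add_mul_mod_self_right, Nat.mod_eq_of_lt h]

theorem sat_iff (φ : F3) : Sat3 φ ↔ ∃ τ : ℕ → ℕ → Bool, ∀ a b, a < b →
    b < (3 * φ.length + 1) * (3 * φ.length + 1) → actF φ a b = true →
      ∃ c < 3 * φ.length, incF φ a c = true ∧ incF φ b c = true ∧ τ a c ≠ τ b c := by
  rw [sat3_iff_sel]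
  constructor
  · rintro ⟨s, h1, h2⟩
    refine ⟨fun r c => if r / (3 * φ.length + 1) = 3 * φ.length then
      decide (r % (3 * φ.length + 1) ≠ 3 * φ.length ∧ s (c / 3) = c) else decide (s (c / 3) ≠ c),
      fun r r' hr hr' ha => ?_⟩
    have hlt : r / (3 * φ.length + 1) < 3 * φ.length + 1 :=
      Nat.div_lt_of_lt_mul (hr.trans hr')
    unfold incF
    unfold actF at ha
    dsimp only
    generalize r / (3 * φ.length + 1) = a at *
    generalize r % (3 * φ.length + 1) = b at *
    generalize r' / (3 * φ.length + 1) = a' at *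
    generalize r' % (3 * φ.length + 1) = b' at *
    by_cases h : a = 3 * φ.length
    · simp [h] at ha
      obtain ⟨rfl, hb, rfl⟩ := ha
      have := h1 b hb
      refine ⟨s b, by omega, ?_⟩
      simp [h, this]; omega
    · simp [h] at ha
      obtain ⟨rfl, ⟨⟨hb, hc⟩, hne⟩, hb'⟩ := ha
      rcases hb' with (rfl | rfl) | rfl
      · by_cases e : s (a / 3) = a
        · refine ⟨b, hb, ?_⟩
          have : s (b / 3) ≠ b := fun e' => by
            have := h2 (a / 3) (by omega) (b / 3) (by omega)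
            rw [e, e', hc] at this
            simp at this
          simp [h, this]
        · exact ⟨a, by omega, by simp [h, e]⟩
      · refine ⟨a, by omega, ?_⟩
        have : a / 3 ≠ 3 * φ.length := by omega
        simp [h, this]
      · refine ⟨b, by omega, ?_⟩
        have : b / 3 ≠ 3 * φ.length := by omega
        simp [h, this]
  · rintro ⟨τ, h⟩
    set N := 3 * φ.length with hN
    have hB : N * (N + 1) + N < (N + 1) * (N + 1) := by nlinarith
    have k1 : ∀ j < φ.length, ∃ c, c / 3 = j ∧ τ (N * (N + 1) + j) c ≠ τ (N * (N + 1) + N) c := by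
      intro j hj
      have e1 := dm (a := N) (show j < N + 1 by omega)
      have e2 := dm (a := N) (show N < N + 1 by omega)
      obtain ⟨c, -, h1, -, h2⟩ := h (N * (N + 1) + j) (N * (N + 1) + N) (by omega) hB
        (by simp [actF, ← hN, e1, e2, hj])
      refine ⟨c, ?_, h2⟩
      simp [incF, ← hN, e1] at h1
      omega
    choose! s hs using k1
    refine ⟨s, fun j hj => (hs j hj).1, fun j hj d hd => ?_⟩
    by_contra hc
    have hjd : j ≠ d := by rintro rfl; simp at hc
    obtain ⟨j1, j2⟩ := hs j hj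
    obtain ⟨d1, d2⟩ := hs d hd
    have e0 := dm (a := s j) (show s d < N + 1 by omega)
    have ha : s j ≠ N := by omega
    have hlt : s j * (N + 1) + s d < N * (N + 1) := by
      have : s j + 1 ≤ N := by omega
      have : s d < N + 1 := by omega
      nlinarith
    have k : ∀ b ≤ N, (b = N ∨ b = j ∨ b = d) → ∃ c, (c = s j ∨ c = s d) ∧ (b = N ∨ c / 3 = b) ∧
        τ (s j * (N + 1) + s d) c ≠ τ (N * (N + 1) + b) c := by
      intro b hb hb'
      have e1 := dm (a := N) (show b < N + 1 by omega)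
      obtain ⟨c, -, h1, h2, h3⟩ := h (s j * (N + 1) + s d) (N * (N + 1) + b) (by omega) (by omega)
        (by
          simp only [Bool.not_eq_false] at hc
          simp [actF, ← hN, e1, e0, ha, hc, j1, d1, hjd]
          omega)
      refine ⟨c, ?_, ?_, h3⟩
      · simpa [incF, ← hN, e0, ha] using h1
      · simpa [incF, ← hN, e1] using h2
    obtain ⟨c1, a1, b1, t1⟩ := k j (by omega) (by simp)
    obtain ⟨c2, a2, b2, t2⟩ := k d (by omega) (by simp)
    obtain ⟨c3, a3, -, t3⟩ := k N le_rfl (by simp)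
    obtain rfl : c1 = s j := by omega
    obtain rfl : c2 = s d := by omega
    rcases a3 with rfl | rfl
    · revert t1 t3 j2
      cases τ (s j * (N + 1) + s d) (s j) <;> cases τ (N * (N + 1) + j) (s j) <;>
        cases τ (N * (N + 1) + N) (s j) <;> simp
    · revert t2 t3 d2
      cases τ (s j * (N + 1) + s d) (s d) <;> cases τ (N * (N + 1) + d) (s d) <;>
        cases τ (N * (N + 1) + N) (s d) <;> simp

theorem hard : NPHardOn
    (fun p : (ℕ × List (ℕ × ℕ)) × Bool × Bin × Bin =>
      (graphOf p.1.1 p.1.2).Connected ∧ p.2.2.2.val ≠ 0)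
    (fun p => rhoMin (graphOf p.1.1 p.1.2) ≤ rat p.2) := by
  have hp := pt_all (α := F3) (n := fun φ => (3 * φ.length + 1) * (3 * φ.length + 1))
    (N := fun φ => 3 * φ.length) (inc := incF) (act := actF) (by fun_prop) (by fun_prop)
    (by unfold incF; fun_prop) (by unfold actF; fun_prop)
  refine NPH.npHardOn (sat3_nph.reduce _
    (hp.1.mk ((PT.const false).mk ((pt_bin hp.2).mk (PT.const ⟨1⟩)))) fun φ _ => ⟨⟨?_, ?_⟩, ?_⟩)
  · refine connected (n := (3 * φ.length + 1) * (3 * φ.length + 1)) (N := 3 * φ.length)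
      (inc := incF φ) (act := actF φ) (by positivity) fun c _ =>
      ⟨3 * φ.length * (3 * φ.length + 1) + 3 * φ.length, by nlinarith, ?_⟩
    have e2 := dm (a := 3 * φ.length) (show 3 * φ.length < 3 * φ.length + 1 by omega)
    simp [incF, e2]
  · simp
  · rw [sat_iff, ← rho_main]
    simp only [rat]
    simp
    rfl

end Pool.Agent.H37.Sign
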