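import Pool.Agent.H37.GDomDefs
import Pool.Agent.H37.Sign3

set_option autoImplicit false

namespace Pool.Agent.H37.GDom

open Pool.Agent.H38.NP Pool.Agent.H36.Gr Finset

theorem triple {p : List ℕ} (nd : p.Nodup) {x y z w : ℕ} (h : [x, y, z] <:+: p)
    (h' : PAdj p y w) : w = x ∨ w = z := by
  obtain ⟨s, t, rfl⟩ := h
  rcases h' with ⟨s', t', e⟩ | ⟨s', t', e⟩
  · right
    have e' : s' ++ y :: (w :: t') = (s ++ [x]) ++ y :: (z :: t) := by simpa using e
    have n1 : ((s ++ [x]) ++ y :: (z :: t)).Nodup := by simpa using nd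
    have n2 := e' ▸ n1
    have := (List.append_cons_inj_of_notMem (by
      intro hy; rw [List.nodup_append] at n2; exact n2.2.2 y hy y (by simp) rfl) (by
      intro hy; rw [List.nodup_append, List.nodup_cons] at n2; exact n2.2.1.1 hy)).1 e'
    simp at this
    exact this.2.1
  · left
    have e' : (s' ++ [w]) ++ y :: t' = (s ++ [x]) ++ y :: (z :: t) := by simpa using e
    have n1 : ((s ++ [x]) ++ y :: (z :: t)).Nodup := by simpa using nd
    have n2 := e' ▸ n1
    have := (List.append_cons_inj_of_notMem (by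
      intro hy; rw [List.nodup_append] at n2; exact n2.2.2 y hy y (by simp) rfl) (by
      intro hy; rw [List.nodup_append, List.nodup_cons] at n2; exact n2.2.1.1 hy)).1 e'
    have := List.append_inj' this.1 rfl
    simpa using this.2

theorem inf2 (g : ℕ → List ℕ) {n i : ℕ} (h : i + 1 < n) :
    g i ++ g (i + 1) <:+: (List.range n).flatMap g := by
  obtain ⟨m, rfl⟩ := Nat.exists_eq_add_of_lt h
  refine ⟨(List.range i).flatMap g, (List.range' (i + 2) m).flatMap g, ?_⟩
  rw [show i + 1 + m + 1 = i + 2 + m by omega, List.range_add, List.range_succ, List.range_succ,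
    List.range'_eq_map_range]
  simp

theorem inf1 (g : ℕ → List ℕ) {n i : ℕ} (h : i < n) : g i <:+: (List.range n).flatMap g :=
  List.infix_of_mem_flatten (List.mem_map_of_mem (List.mem_range.2 h))

theorem chain_fm {R : ℕ → ℕ → Prop} (g : ℕ → List ℕ) (n : ℕ) (h0 : ∀ i < n, g i ≠ [])
    (h1 : ∀ i < n, (g i).IsChain R)
    (h2 : ∀ i, i + 1 < n → ∀ x ∈ (g i).getLast?, ∀ y ∈ (g (i + 1)).head?, R x y) :
    ((List.range n).flatMap g).IsChain R ∧
      (0 < n → ((List.range n).flatMap g).getLast? = (g (n - 1)).getLast? ∧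
        ((List.range n).flatMap g).head? = (g 0).head?) := by
  induction n with
  | zero => simp
  | succ n ih =>
    obtain ⟨a1, a2⟩ := ih (fun i h => h0 i (by omega)) (fun i h => h1 i (by omega))
      (fun i h => h2 i (by omega))
    rw [List.range_succ, List.flatMap_append]
    simp only [List.flatMap_cons, List.flatMap_nil, List.append_nil]
    refine ⟨a1.append (h1 n (by omega)) ?_, fun _ => ⟨?_, ?_⟩⟩
    · rcases n with _ | n
      · simp
      · rw [(a2 (by omega)).1]; exact h2 n (by omega)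
    · exact List.getLast?_append_of_ne_nil _ (h0 n (by omega))
    · rcases n with _ | n
      · simp
      · rw [List.head?_append, (a2 (by omega)).2]
        cases h : g 0 with
        | nil => exact absurd h (h0 0 (by omega))
        | cons a l => simp

theorem PAdj.rel {R : ℕ → ℕ → Prop} {p : List ℕ} (h : p.IsChain R) {u v : ℕ} (h' : PAdj p u v) :
    R u v ∨ R v u :=
  have k : ∀ x y, [x, y] <:+: p → R x y := fun x y ⟨s, t, e⟩ =>
    List.isChain_pair.1 (List.IsChain.left_of_append (e ▸ h)).right_of_append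
  h'.imp (k _ _) (k _ _)

theorem perm_of_len {l : List ℕ} {n : ℕ} (h : l.length = n) (h' : ∀ v < n, v ∈ l) :
    l.Perm (List.range n) :=
  ((List.subperm_of_subset List.nodup_range fun v hv => h' v (List.mem_range.1 hv)).perm_of_length_le
    (by simp [h])).symm

theorem nodup_fm {n : ℕ} {g : ℕ → List ℕ} (key : ℕ → ℕ) (h1 : ∀ a < n, (g a).Nodup)
    (h2 : ∀ a < n, ∀ x ∈ g a, key x = a) : ((List.range n).flatMap g).Nodup := by
  rw [List.nodup_flatMap]
  refine ⟨fun a h => h1 a (List.mem_range.1 h), List.nodup_range.imp_of_mem ?_⟩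
  intro a b ha hb hab x hx hy
  exact hab ((h2 a (List.mem_range.1 ha) x hx).symm.trans (h2 b (List.mem_range.1 hb) x hy))

theorem sum_mul_range (f : ℕ → ℕ) (a b : ℕ) :
    ∑ v ∈ range (a * b), f v = ∑ i ∈ range a, ∑ r ∈ range b, f (i * b + r) := by
  induction a with
  | zero => simp
  | succ a ih => rw [Nat.succ_mul, sum_range_add, ih, sum_range_succ]

theorem decomp (f : ℕ → ℕ) (V N : ℕ) : ∑ v ∈ range (V * (4 + 2 * N * 3) * 5), f v =
    ∑ x ∈ range V, ((f (5 * (x * (4 + 2 * N * 3))) + f (5 * (x * (4 + 2 * N * 3) + 1)) +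
      f (5 * (x * (4 + 2 * N * 3) + 2)) + f (5 * (x * (4 + 2 * N * 3) + 3))) +
      ∑ j ∈ range (2 * N), (f (5 * (x * (4 + 2 * N * 3) + (4 + 3 * j))) +
        f (5 * (x * (4 + 2 * N * 3) + (4 + 3 * j + 1))) +
        f (5 * (x * (4 + 2 * N * 3) + (4 + 3 * j + 2))))) +
    ∑ i ∈ range (V * (4 + 2 * N * 3)),
      (f (5 * i + 1) + f (5 * i + 2) + f (5 * i + 3) + f (5 * i + 4)) := by
  rw [sum_mul_range]
  have : ∀ i, ∑ r ∈ range 5, f (i * 5 + r) =
      f (5 * i) + (f (5 * i + 1) + f (5 * i + 2) + f (5 * i + 3) + f (5 * i + 4)) := by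
    intro i; simp [sum_range_succ, mul_comm i 5]; omega
  simp only [this, sum_add_distrib (f := fun i => f (5 * i))]
  congr 1
  rw [sum_mul_range (fun i => f (5 * i))]
  refine sum_congr rfl fun x _ => ?_
  rw [sum_range_add, sum_mul_range (fun r => f (5 * (x * (4 + 2 * N * 3) + (4 + r))))]
  congr 1
  · simp [sum_range_succ]
  · refine sum_congr rfl fun j _ => ?_
    simp [sum_range_succ, mul_comm j 3, add_assoc]

end Pool.Agent.H37.GDom
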