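import Pool.Agent.H37.GDom1

set_option autoImplicit false

namespace Pool.Agent.H37.GDom

open Pool.Agent.H38.NP Pool.Agent.H36.Gr Finset

def LL (φ : F3) : ℕ := 4 + 2 * (3 * φ.length) * 3

def VV (k : ℕ) (φ : F3) : ℕ :=
  k + 1 + ((List.range (3 * φ.length)).map fun o => (litAt φ o).1 + 1).sum

def TT (k : ℕ) (φ : F3) : ℕ := VV k φ * LL φ

def off (φ : F3) (o : ℕ) : ℕ := cond (litAt φ o).2 (4 + 3 * (3 * φ.length + o) + 2) (4 + 3 * o + 1)

def lit (φ : F3) (o : ℕ) : ℕ := (litAt φ o).1 * LL φ + off φ o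

def occ (φ : F3) (i : ℕ) : ℕ :=
  if (i % LL φ - 4) / 3 < 3 * φ.length then (i % LL φ - 4) / 3
  else (i % LL φ - 4) / 3 - 3 * φ.length

def grp (φ : F3) (i : ℕ) : List ℕ :=
  if i % LL φ < 4 then [] else if lit φ (occ φ i) = i then
    (if occ φ i % 3 = 0 then [5 * i, 5 * lit φ (occ φ i + 1), 5 * lit φ (occ φ i + 2)] else [])
  else [5 * i]

def P1 (T : ℕ) : List ℕ :=
  (List.range T).flatMap (fun i => [5 * i]) ++
    (List.range T).flatMap fun i => [5 * i + 1, 5 * i + 2, 5 * i + 3, 5 * i + 4]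

def P2 (k : ℕ) (φ : F3) : List ℕ :=
  (List.range (VV k φ)).flatMap (fun x => [5 * (x * LL φ + 2), 5 * (x * LL φ),
    5 * (x * LL φ + 3), 5 * (x * LL φ + 1)]) ++
  (List.range (TT k φ)).flatMap fun i => [5 * i + 3, 5 * i + 1, 5 * i + 4, 5 * i + 2] ++ grp φ i

def md (T a : ℕ) : ℕ := if a < T then a else a - T

def PH (T s : ℕ) : List ℕ :=
  (List.range T).flatMap fun i => [5 * i, 5 * md T (i + s) + 2, 5 * i + 1,
    5 * md T (i + s) + 3, 5 * md T (i + 2 * s) + 4]

def paths (k : ℕ) (φ : F3) : List (List ℕ) :=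
  P1 (TT k φ) :: P2 k φ :: (List.range (k - 2)).map fun h => PH (TT k φ) (h + 1)

def MM (k : ℕ) (φ : F3) : ℕ := VV k φ * (2 + 2 * (3 * φ.length)) + TT k φ * 2

variable {k : ℕ} {φ : F3}

theorem var_lt {o : ℕ} (h : o < 3 * φ.length) : (litAt φ o).1 + 1 < VV k φ := by
  have := List.single_le_sum (l := (List.range (3 * φ.length)).map fun o => (litAt φ o).1 + 1)
    (fun _ _ => Nat.zero_le _) _ (List.mem_map_of_mem (List.mem_range.2 h))
  unfold VV; omega

theorem off_lt {o : ℕ} (h : o < 3 * φ.length) : off φ o < LL φ ∧ 4 ≤ off φ o := by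
  unfold off LL; cases (litAt φ o).2 <;> simp <;> omega

theorem lit_mod {o : ℕ} (h : o < 3 * φ.length) : lit φ o % LL φ = off φ o :=
  (Sign.dm (off_lt h).1).2

theorem lit_lt {o : ℕ} (h : o < 3 * φ.length) : lit φ o + 1 < TT k φ := by
  have h1 := var_lt (k := k) h
  have h2 := (off_lt h).1
  have : ((litAt φ o).1 + 2) * LL φ ≤ VV k φ * LL φ := Nat.mul_le_mul_right _ h1
  unfold lit TT; nlinarith

theorem occ_lit {o : ℕ} (h : o < 3 * φ.length) : occ φ (lit φ o) = o := by
  unfold occ; rw [lit_mod h]; unfold off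
  cases (litAt φ o).2 <;> simp only [cond] <;> split_ifs <;> omega

theorem occ_lt {i : ℕ} (h : ¬ i % LL φ < 4) : occ φ i < 3 * φ.length := by
  have : i % LL φ < LL φ := Nat.mod_lt _ (by unfold LL; omega)
  unfold occ; unfold LL at *; split_ifs <;> omega

theorem blk_lt {x r : ℕ} (hx : x < VV k φ) (hr : r < LL φ) : x * LL φ + r < TT k φ := by
  have : (x + 1) * LL φ ≤ VV k φ * LL φ := Nat.mul_le_mul_right _ hx
  unfold TT; nlinarith

theorem TT_big : 4 * k + 4 ≤ TT k φ := by
  have : k + 1 ≤ VV k φ := by unfold VV; omega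
  have : 4 ≤ LL φ := by unfold LL; omega
  unfold TT; nlinarith

theorem lit_far {o o' : ℕ} (h : o < 3 * φ.length) (h' : o' < 3 * φ.length) (hne : o ≠ o') :
    lit φ o + 1 ≠ lit φ o' := by
  intro e
  have h1 := off_lt h
  have h2 := off_lt h'
  have h3 := lit_mod h'
  rw [← e, lit, add_assoc] at h3
  rcases (show off φ o + 1 < LL φ ∨ off φ o + 1 = LL φ by omega) with h4 | h4
  · rw [(Sign.dm h4).2] at h3
    unfold off at h3
    revert h3
    cases (litAt φ o).2 <;> cases (litAt φ o').2 <;> simp <;> omega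
  · rw [h4, ← Nat.succ_mul, Nat.mul_mod_left] at h3
    omega

theorem mem_grp {i v : ℕ} (h : v ∈ grp φ i) : ¬ i % LL φ < 4 ∧
    ((lit φ (occ φ i) ≠ i ∧ v = 5 * i) ∨ ∃ c < φ.length, ∃ r < 3, i = lit φ (3 * c) ∧
      v = 5 * lit φ (3 * c + r)) := by
  unfold grp at h
  split_ifs at h with h1 h2 h3
  · simp at h
  · have := occ_lt h1
    refine ⟨h1, .inr ⟨occ φ i / 3, by omega, ?_⟩⟩
    rw [show 3 * (occ φ i / 3) = occ φ i by omega]
    simp only [List.mem_cons, List.not_mem_nil, or_false] at h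
    rcases h with h | h | h
    exacts [⟨0, by omega, h2.symm, by simp [h, h2]⟩, ⟨1, by omega, h2.symm, h⟩,
      ⟨2, by omega, h2.symm, h⟩]
  · simp at h
  · exact ⟨h1, .inl ⟨h2, by simpa using h⟩⟩

theorem grp_lit {c : ℕ} (h : c < φ.length) : grp φ (lit φ (3 * c)) =
    [5 * lit φ (3 * c), 5 * lit φ (3 * c + 1), 5 * lit φ (3 * c + 2)] := by
  have h1 : 3 * c < 3 * φ.length := by omega
  have := (off_lt h1).2
  unfold grp
  rw [lit_mod h1, occ_lit h1, if_neg (by omega), if_pos rfl, if_pos (by omega)]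

theorem lit_inj {o o' : ℕ} (h : o < 3 * φ.length) (h' : o' < 3 * φ.length)
    (e : lit φ o = lit φ o') : o = o' := by rw [← occ_lit h, e, occ_lit h']

theorem perm1 (T : ℕ) : (P1 T).Perm (List.range (T * 5)) := by
  refine perm_of_len (by simp [P1, List.length_flatMap]; omega) fun v hv => ?_
  simp only [P1, List.mem_append, List.mem_flatMap, List.mem_range, List.mem_cons,
    List.not_mem_nil, or_false]
  by_cases h : v % 5 = 0
  · exact .inl ⟨v / 5, by omega, by omega⟩
  · exact .inr ⟨v / 5, by omega, by omega⟩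

theorem permH {T s : ℕ} (hs : 2 * s < T) : (PH T s).Perm (List.range (T * 5)) := by
  refine perm_of_len (by simp [PH, List.length_flatMap]) fun v hv => ?_
  simp only [PH, List.mem_flatMap, List.mem_range, List.mem_cons, List.not_mem_nil, or_false]
  rcases (show v % 5 = 0 ∨ v % 5 = 1 ∨ (v % 5 = 2 ∨ v % 5 = 3) ∨ v % 5 = 4 by omega)
    with h | h | h | h
  · exact ⟨v / 5, by omega, by omega⟩
  · exact ⟨v / 5, by omega, by omega⟩
  · refine ⟨md T (v / 5 + T - s), ?_, ?_⟩ <;> unfold md <;> split_ifs <;> omega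
  · refine ⟨md T (v / 5 + T - 2 * s), ?_, ?_⟩ <;> unfold md <;> split_ifs <;> omega

theorem perm2 : (P2 k φ).Perm (List.range (TT k φ * 5)) := by
  have hL : 4 ≤ LL φ := by unfold LL; omega
  rw [List.perm_ext_iff_of_nodup ?_ List.nodup_range]
  · intro v
    simp only [P2, List.mem_append, List.mem_flatMap, List.mem_range, List.mem_cons,
      List.not_mem_nil, or_false]
    constructor
    · rintro (⟨x, hx, h⟩ | ⟨i, hi, h | h⟩)
      · have := blk_lt hx (show 3 < LL φ by omega)
        omega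
      · omega
      · obtain ⟨-, ⟨-, h⟩ | ⟨c, hc, r, hr, -, h⟩⟩ := mem_grp h
        · omega
        · have := lit_lt (k := k) (show 3 * c + r < 3 * φ.length by omega)
          omega
    · intro hv
      by_cases h : v % 5 = 0
      · obtain ⟨i, rfl⟩ : ∃ i, v = 5 * i := ⟨v / 5, by omega⟩
        by_cases h1 : i % LL φ < 4
        · refine .inl ⟨i / LL φ, Nat.div_lt_of_lt_mul (by rw [mul_comm]; unfold TT at hv; omega), ?_⟩
          have := Nat.div_add_mod' i (LL φ)
          omega
        · by_cases h2 : lit φ (occ φ i) = i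
          · have h3 := occ_lt h1
            have := lit_lt (k := k) (show 3 * (occ φ i / 3) < 3 * φ.length by omega)
            refine .inr ⟨lit φ (3 * (occ φ i / 3)), by omega, .inr ?_⟩
            rw [grp_lit (by omega)]
            rcases (show occ φ i = 3 * (occ φ i / 3) ∨ occ φ i = 3 * (occ φ i / 3) + 1 ∨
              occ φ i = 3 * (occ φ i / 3) + 2 by omega) with e | e | e <;> rw [← e, h2] <;> simp
          · exact .inr ⟨i, by omega, .inr (by simp [grp, h1, h2])⟩
      · exact .inr ⟨v / 5, by omega, .inl (by omega)⟩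
  · refine List.Nodup.append (nodup_fm (fun v => v / 5 / LL φ) (fun x _ => by simp) ?_)
      (nodup_fm (fun v => if v % 5 = 0 ∧ lit φ (occ φ (v / 5)) = v / 5 then
        lit φ (3 * (occ φ (v / 5) / 3)) else v / 5) (fun i _ => ?_) ?_) ?_
    · intro x _ v hv
      simp only [List.mem_cons, List.not_mem_nil, or_false] at hv
      rcases hv with rfl | rfl | rfl | rfl <;> rw [Nat.mul_div_cancel_left _ (by omega)]
      · exact (Sign.dm (by omega)).1
      · exact Nat.mul_div_cancel _ (by omega)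
      · exact (Sign.dm (by omega)).1
      · exact (Sign.dm (by omega)).1
    · refine List.Nodup.append (by simp) ?_ ?_
      · unfold grp
        split_ifs with h1 h2 h3
        · simp
        · have := occ_lt h1
          have a1 := mt (lit_inj (φ := φ) (o := occ φ i) (o' := occ φ i + 1) (by omega) (by omega))
          have a2 := mt (lit_inj (φ := φ) (o := occ φ i) (o' := occ φ i + 2) (by omega) (by omega))
          have a3 := mt (lit_inj (φ := φ) (o := occ φ i + 1) (o' := occ φ i + 2) (by omega)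
            (by omega))
          simp
          omega
        · simp
        · simp
      · intro v hv h
        simp only [List.mem_cons, List.not_mem_nil, or_false] at hv
        obtain ⟨-, ⟨-, h⟩ | ⟨c, hc, r, hr, -, h⟩⟩ := mem_grp h <;> omega
    · intro i _ v hv
      rcases List.mem_append.1 hv with h | h
      · simp only [List.mem_cons, List.not_mem_nil, or_false] at h
        rw [if_neg (by omega)]; omega
      · obtain ⟨-, ⟨h', rfl⟩ | ⟨c, hc, r, hr, rfl, rfl⟩⟩ := mem_grp h
        · simp [h']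
        · simp [occ_lit (show 3 * c + r < 3 * φ.length by omega), show (3 * c + r) / 3 = c by omega]
    · intro v h1 h2
      simp only [List.mem_append, List.mem_flatMap, List.mem_range, List.mem_cons,
        List.not_mem_nil, or_false] at h1 h2
      obtain ⟨x, hx, h1⟩ := h1
      obtain ⟨r, hr, rfl⟩ : ∃ r < 4, v = 5 * (x * LL φ + r) := by
        rcases h1 with h | h | h | h
        exacts [⟨2, by omega, h⟩, ⟨0, by omega, h⟩, ⟨3, by omega, h⟩, ⟨1, by omega, h⟩]
      have e := (Sign.dm (a := x) (show r < LL φ by omega)).2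
      obtain ⟨i, hi, h | h⟩ := h2
      · omega
      · obtain ⟨h0, ⟨-, h⟩ | ⟨c, hc, r', hr', -, h⟩⟩ := mem_grp h
        · rw [show x * LL φ + r = i by omega] at e; omega
        · have h3 : 3 * c + r' < 3 * φ.length := by omega
          rw [show x * LL φ + r = lit φ (3 * c + r') by omega, lit_mod h3] at e
          have := off_lt h3
          omega

def R1 (u v : ℕ) : Prop := (u % 5 = 0 ∧ v = u + 5) ∨ (u % 5 = 0 ∧ v % 5 = 1) ∨
  (u % 5 ≠ 0 ∧ u % 5 ≠ 4 ∧ v = u + 1) ∨ (u % 5 = 4 ∧ v = u + 2)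

def R2 (u v : ℕ) : Prop := (u % 5 = 0 ∧ v % 5 = 0 ∧ u + 5 ≠ v ∧ v + 5 ≠ u) ∨
  (u % 5 = 0 ∧ v % 5 = 3) ∨ (u % 5 = 3 ∧ u = v + 2) ∨ (u % 5 = 1 ∧ v = u + 3) ∨
  (u % 5 = 4 ∧ u = v + 2) ∨ (u % 5 = 2 ∧ u = v + 2) ∨ (u % 5 = 2 ∧ v = u + 6)

def RH (T s u v : ℕ) : Prop :=
  (((u % 5 = 0 ∧ v % 5 = 2) ∨ (u % 5 = 1 ∧ v % 5 = 3) ∨ (u % 5 = 3 ∧ v % 5 = 4)) ∧
    (v / 5 = u / 5 + s ∨ v / 5 + T = u / 5 + s)) ∨
  (u % 5 = 2 ∧ v % 5 = 1 ∧ (u / 5 = v / 5 + s ∨ u / 5 + T = v / 5 + s)) ∨
  (u % 5 = 4 ∧ v % 5 = 0 ∧ (u / 5 + 1 = v / 5 + 2 * s ∨ u / 5 + 1 + T = v / 5 + 2 * s))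

theorem chain1 {T : ℕ} (hT : 0 < T) : (P1 T).IsChain R1 := by
  have a := chain_fm (R := R1) (fun i => [5 * i]) T (by simp) (by simp)
    (fun i _ => by simp [R1]; omega)
  have b := chain_fm (R := R1) (fun i => [5 * i + 1, 5 * i + 2, 5 * i + 3, 5 * i + 4]) T (by simp)
    (fun i _ => by simp [R1]) (fun i _ => by simp [R1]; omega)
  refine a.1.append b.1 ?_
  rw [(a.2 hT).1, (b.2 hT).2]
  simp [R1]

theorem chainH {T s : ℕ} (hs : 2 * s < T) : (PH T s).IsChain (RH T s) :=
  (chain_fm _ T (by simp) (fun i _ => by simp [RH, md]; split_ifs <;> omega)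
    (fun i _ => by simp [RH, md]; split_ifs <;> omega)).1

theorem chain2 : (P2 k φ).IsChain R2 := by
  have hL : 4 ≤ LL φ := by unfold LL; omega
  have a := chain_fm (R := R2) (fun x => [5 * (x * LL φ + 2), 5 * (x * LL φ),
    5 * (x * LL φ + 3), 5 * (x * LL φ + 1)]) (VV k φ) (by simp)
    (fun i _ => by simp [R2]; omega) (fun i _ => by simp [R2, Nat.succ_mul]; omega)
  have b := chain_fm (R := R2) (fun i => [5 * i + 3, 5 * i + 1, 5 * i + 4, 5 * i + 2] ++ grp φ i)
    (TT k φ) (by simp) (fun i _ => ?_) (fun i _ => ?_)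
  · refine a.1.append b.1 ?_
    rw [(a.2 (by unfold VV; omega)).1, (b.2 (by have := TT_big (k := k) (φ := φ); omega)).2]
    simp [R2]
  · unfold grp
    split_ifs with h1 h2 h3
    · simp [R2]
    · have := occ_lt h1
      have a1 := lit_far (φ := φ) (o := occ φ i) (o' := occ φ i + 1) (by omega) (by omega)
      have a2 := lit_far (φ := φ) (o := occ φ i + 1) (o' := occ φ i) (by omega) (by omega)
      have a3 := lit_far (φ := φ) (o := occ φ i + 1) (o' := occ φ i + 2) (by omega) (by omega)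
      have a4 := lit_far (φ := φ) (o := occ φ i + 2) (o' := occ φ i + 1) (by omega) (by omega)
      simp [R2]; omega
    · simp [R2]
    · simp [R2]
  · unfold grp
    split_ifs <;> simp [R2] <;> omega

theorem factoring (hk : 2 ≤ k) : Factoring k (TT k φ * 5) (paths k φ) := by
  have hT := TT_big (k := k) (φ := φ)
  refine ⟨by simp [paths]; omega, ?_, ?_⟩
  · simp only [paths, List.forall_mem_cons, List.forall_mem_map, List.mem_range]
    exact ⟨perm1 _, perm2, fun h hh => permH (by omega)⟩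
  · have hb : ∀ h < k - 2, ∀ u v, PAdj (PH (TT k φ) (h + 1)) u v →
        u < TT k φ * 5 ∧ v < TT k φ * 5 ∧
        (RH (TT k φ) (h + 1) u v ∨ RH (TT k φ) (h + 1) v u) := by
      intro h hh u v e
      have hp := permH (T := TT k φ) (s := h + 1) (by omega)
      refine ⟨List.mem_range.1 (hp.subset ?_), List.mem_range.1 (hp.subset ?_),
        e.rel (chainH (by omega))⟩
      · rcases e with e | e <;> exact e.subset (by simp)
      · rcases e with e | e <;> exact e.subset (by simp)
    simp only [paths, List.pairwise_cons, List.forall_mem_cons, List.forall_mem_map,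
      List.mem_range, List.pairwise_map]
    refine ⟨⟨fun u v h1 h2 => ?_, fun h hh u v h1 h2 => ?_⟩, fun h hh u v h1 h2 => ?_,
      List.pairwise_lt_range.imp_of_mem fun {a b} ha hb' hab u v h1 h2 => ?_⟩
    · have h1 := h1.rel (chain1 (by omega))
      have h2 := h2.rel chain2
      unfold R1 at h1; unfold R2 at h2; omega
    · have h1 := h1.rel (chain1 (by omega))
      have h2 := hb h hh u v h2
      unfold R1 at h1; unfold RH at h2; omega
    · have h1 := h1.rel chain2
      have h2 := hb h hh u v h2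
      unfold R2 at h1; unfold RH at h2; omega
    · have ha := List.mem_range.1 ha
      have hb' := List.mem_range.1 hb'
      have h1 := hb a ha u v h1
      have h2 := hb b hb' u v h2
      unfold RH at h1 h2; omega

end Pool.Agent.H37.GDom
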