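import Pool.Agent.H37.GDom2

set_option autoImplicit false

namespace Pool.Agent.H37.GDom

open Pool.Agent.H38.NP Pool.Agent.H36.Gr Finset

variable {k : ℕ} {φ : F3}

theorem i1a {T i : ℕ} (h : i + 1 < T) : [5 * i, 5 * (i + 1)] <:+: P1 T :=
  (inf2 (fun i => [5 * i]) h).trans (List.prefix_append _ _).isInfix

theorem i1a' {T i : ℕ} (h : i + 2 < T) : [5 * i, 5 * (i + 1), 5 * (i + 2)] <:+: P1 T := by
  refine List.IsInfix.trans ?_ (List.prefix_append _ _).isInfix
  obtain ⟨m, rfl⟩ := Nat.exists_eq_add_of_lt h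
  refine ⟨(List.range i).flatMap fun i => [5 * i],
    (List.range' (i + 3) m).flatMap fun i => [5 * i], ?_⟩
  rw [show i + 2 + m + 1 = i + 3 + m by omega, List.range_add, List.range_succ, List.range_succ,
    List.range_succ, List.range'_eq_map_range]
  simp [add_assoc]

theorem i1b {T i : ℕ} (h : i < T) : [5 * i + 1, 5 * i + 2, 5 * i + 3, 5 * i + 4] <:+: P1 T :=
  (inf1 (fun i => [5 * i + 1, 5 * i + 2, 5 * i + 3, 5 * i + 4]) h).trans
    (List.suffix_append _ _).isInfix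

theorem i2a {x : ℕ} (h : x < VV k φ) : [5 * (x * LL φ + 2), 5 * (x * LL φ),
    5 * (x * LL φ + 3), 5 * (x * LL φ + 1)] <:+: P2 k φ :=
  (inf1 (fun x => [5 * (x * LL φ + 2), 5 * (x * LL φ),
    5 * (x * LL φ + 3), 5 * (x * LL φ + 1)]) h).trans (List.prefix_append _ _).isInfix

theorem i2b {i : ℕ} (h : i < TT k φ) :
    [5 * i + 3, 5 * i + 1, 5 * i + 4, 5 * i + 2] ++ grp φ i <:+: P2 k φ :=
  (inf1 (fun i => [5 * i + 3, 5 * i + 1, 5 * i + 4, 5 * i + 2] ++ grp φ i) h).trans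
    (List.suffix_append _ _).isInfix

theorem i2c {c : ℕ} (h : c < φ.length) : [5 * lit φ (3 * c) + 2, 5 * lit φ (3 * c),
    5 * lit φ (3 * c + 1), 5 * lit φ (3 * c + 2), 5 * (lit φ (3 * c) + 1) + 3] <:+: P2 k φ := by
  have : _ <:+: P2 k φ := (inf2 (fun i => [5 * i + 3, 5 * i + 1, 5 * i + 4, 5 * i + 2] ++ grp φ i)
    (lit_lt (k := k) (show 3 * c < 3 * φ.length by omega))).trans
    (List.suffix_append _ _).isInfix
  refine List.IsInfix.trans ?_ this
  simp only [grp_lit h]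
  exact ⟨[_, _, _], _, rfl⟩

theorem hit {n : ℕ} {D : Finset ℕ} {p : List ℕ} (hp : p.Perm (List.range n))
    (hD : ∀ v < n, v ∉ D → ∃ w ∈ D, PAdj p v w) {x y z : ℕ} (h : [x, y, z] <:+: p) :
    1 ≤ (if x ∈ D then 1 else 0) + (if y ∈ D then 1 else 0) + (if z ∈ D then 1 else 0) := by
  by_cases hy : y ∈ D
  · simp only [hy, if_true]; omega
  · obtain ⟨w, hw, e⟩ := hD y (List.mem_range.1 (hp.subset (h.subset (by simp)))) hy
    rcases triple (hp.nodup_iff.2 List.nodup_range) h e with rfl | rfl <;>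
      simp only [hw, if_true] <;> omega

theorem hitQ {n : ℕ} {D : Finset ℕ} {p q : List ℕ} (hp : p.Perm (List.range n))
    (hq : q.Perm (List.range n))
    (hD : ∀ v < n, v ∉ D → ∃ w ∈ D, PAdj p v w) (hD' : ∀ v < n, v ∉ D → ∃ w ∈ D, PAdj q v w)
    {a b c d : ℕ} (h1 : [a, b, c] <:+: p) (h2 : [b, c, d] <:+: p) (h : [c, a, d, b] <:+: q) :
    2 ≤ (if a ∈ D then 1 else 0) + (if b ∈ D then 1 else 0) + (if c ∈ D then 1 else 0) +
      (if d ∈ D then 1 else 0) := by
  have a1 := hit hp hD h1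
  have a2 := hit hp hD h2
  have a3 := hit hq hD' (List.IsInfix.trans ⟨[], [b], rfl⟩ h)
  have a4 := hit hq hD' (List.IsInfix.trans ⟨[c], [], rfl⟩ h)
  split_ifs at * <;> omega

theorem sound (h : GlobalDom (TT k φ * 5) (paths k φ) (MM k φ)) : Sat3 φ := by
  obtain ⟨D, hD, hc, h⟩ := h
  have d1 := h (P1 (TT k φ)) (by simp [paths])
  have d2 := h (P2 k φ) (by simp [paths])
  have p1 := perm1 (TT k φ)
  have p2 := perm2 (k := k) (φ := φ)
  have hL : LL φ = 4 + 2 * (3 * φ.length) * 3 := rfl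
  have e : D.card = ∑ v ∈ range (TT k φ * 5), if v ∈ D then 1 else 0 := by
    rw [← card_filter, filter_mem_eq_inter, inter_eq_right.2 hD]
  have e2 := decomp (fun v => if v ∈ D then 1 else 0) (VV k φ) (3 * φ.length)
  rw [← hL, show VV k φ * LL φ = TT k φ from rfl, ← e] at e2
  set A : ℕ → ℕ → ℕ := fun x j => (if 5 * (x * LL φ + (4 + 3 * j)) ∈ D then 1 else 0) +
    (if 5 * (x * LL φ + (4 + 3 * j + 1)) ∈ D then 1 else 0) +
    (if 5 * (x * LL φ + (4 + 3 * j + 2)) ∈ D then 1 else 0) with hA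
  have q1 : ∀ i ∈ range (TT k φ), 2 ≤ (if 5 * i + 1 ∈ D then 1 else 0) +
      (if 5 * i + 2 ∈ D then 1 else 0) + (if 5 * i + 3 ∈ D then 1 else 0) +
      (if 5 * i + 4 ∈ D then 1 else 0) := fun i hi =>
    hitQ p1 p2 d1 d2 (List.IsInfix.trans ⟨[], [_], rfl⟩ (i1b (mem_range.1 hi)))
      (List.IsInfix.trans ⟨[_], [], rfl⟩ (i1b (mem_range.1 hi)))
      (List.IsInfix.trans (List.prefix_append _ _).isInfix (i2b (mem_range.1 hi)))
  have q2 : ∀ x < VV k φ, 2 ≤ (if 5 * (x * LL φ) ∈ D then 1 else 0) +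
      (if 5 * (x * LL φ + 1) ∈ D then 1 else 0) + (if 5 * (x * LL φ + 2) ∈ D then 1 else 0) +
      (if 5 * (x * LL φ + 3) ∈ D then 1 else 0) := fun x hx =>
    have := blk_lt hx (show 3 < LL φ by omega)
    hitQ p1 p2 d1 d2 (i1a' (by omega)) (i1a' (by omega)) (i2a hx)
  have q3 : ∀ x < VV k φ, ∀ j ∈ range (2 * (3 * φ.length)), 1 ≤ A x j := fun x hx j hj =>
    have := blk_lt hx (show 4 + 3 * j + 2 < LL φ by have := mem_range.1 hj; omega)
    hit p1 d1 (i1a' (by omega))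
  have q4 : ∀ x < VV k φ, ∀ j < 2 * (3 * φ.length), A x j ≤ 1 := by
    intro x hx j hj
    by_contra hn
    have s1 := sum_le_sum q1
    have s2 : ∑ _x ∈ range (VV k φ), (2 + 2 * (3 * φ.length)) < _ :=
      sum_lt_sum (fun y hy => add_le_add (q2 y (mem_range.1 hy))
        ((by simp : 2 * (3 * φ.length) = ∑ _j ∈ range (2 * (3 * φ.length)), 1).le.trans
          (sum_le_sum (q3 y (mem_range.1 hy)))))
        ⟨x, mem_range.2 hx, add_lt_add_of_le_of_lt (q2 x hx)
          ((by simp : 2 * (3 * φ.length) = ∑ _j ∈ range (2 * (3 * φ.length)), 1).le.trans_lt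
            (sum_lt_sum (q3 x hx) ⟨j, mem_range.2 hj, by omega⟩))⟩
    simp only [sum_const, card_range, smul_eq_mul] at s1 s2
    unfold MM at hc
    simp only [hA] at s2
    omega
  have mono : ∀ x < VV k φ, ∀ j j', j ≤ j' → j' < 2 * (3 * φ.length) →
      5 * (x * LL φ + (4 + 3 * j' + 2)) ∈ D → 5 * (x * LL φ + (4 + 3 * j + 2)) ∈ D := by
    intro x hx j j' hj
    induction j', hj using Nat.le_induction with
    | base => exact fun _ h => h
    | succ j' _ ih =>
      intro hj h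
      refine ih (by omega) ?_
      have a1 := q4 x hx _ hj
      have := blk_lt hx (show 4 + 3 * (j' + 1) + 2 < LL φ by omega)
      have a2 := hit p1 d1 (i1a' (i := x * LL φ + (4 + 3 * j' + 2)) (by omega))
      simp only [hA, h, if_true] at a1
      rw [show x * LL φ + (4 + 3 * j' + 2) + 1 = x * LL φ + (4 + 3 * (j' + 1)) by omega,
        show x * LL φ + (4 + 3 * j' + 2) + 2 = x * LL φ + (4 + 3 * (j' + 1) + 1) by omega] at a2
      by_contra hn
      simp only [hn, if_false] at a2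
      omega
  have key : ∀ o < 3 * φ.length, 5 * lit φ o ∈ D →
      decide (5 * ((litAt φ o).1 * LL φ + (4 + 3 * (3 * φ.length) + 2)) ∈ D) = (litAt φ o).2 := by
    intro o ho h
    have hx : (litAt φ o).1 < VV k φ := by have := var_lt (k := k) ho; omega
    unfold lit off at h
    cases hs : (litAt φ o).2 <;> rw [hs] at h <;> simp only [cond] at h
    · rw [decide_eq_false_iff_not]
      intro h'
      have h1 := mono _ hx o _ (by omega) (by omega) h'
      have h2 := q4 _ hx o (by omega)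
      simp only [hA, h, h1, if_true] at h2
      omega
    · exact decide_eq_true (mono _ hx _ _ (by omega) (by omega) h)
  rw [sat3_iff_litAt]
  refine ⟨fun x => decide (5 * (x * LL φ + (4 + 3 * (3 * φ.length) + 2)) ∈ D), fun c hc => ?_⟩
  have := hit p2 d2 (List.IsInfix.trans ⟨[_], [_], rfl⟩ (i2c hc))
  by_cases h0 : 5 * lit φ (3 * c) ∈ D
  · exact ⟨0, by omega, key _ (by omega) h0⟩
  by_cases h1 : 5 * lit φ (3 * c + 1) ∈ D
  · exact ⟨1, by omega, key _ (by omega) h1⟩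
  by_cases h2 : 5 * lit φ (3 * c + 2) ∈ D
  · exact ⟨2, by omega, key _ (by omega) h2⟩
  simp [h0, h1, h2] at this

theorem complete (hk : 2 ≤ k) (h : Sat3 φ) : GlobalDom (TT k φ * 5) (paths k φ) (MM k φ) := by
  rw [sat3_iff_litAt] at h
  obtain ⟨a, ha⟩ := h
  have hL : LL φ = 4 + 2 * (3 * φ.length) * 3 := rfl
  have hT := TT_big (k := k) (φ := φ)
  let inD : ℕ → Prop := fun v => if v % 5 = 0 then
    (v / 5 % LL φ = 0 ∨ v / 5 % LL φ = 3 ∨ (4 ≤ v / 5 % LL φ ∧
      (v / 5 % LL φ - 4) % 3 = cond (a (v / 5 / LL φ)) 2 1)) else (v % 5 = 2 ∨ v % 5 = 3)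
  classical
  have m0 : ∀ x r, r < LL φ → (inD (5 * (x * LL φ + r)) ↔
      (r = 0 ∨ r = 3 ∨ (4 ≤ r ∧ (r - 4) % 3 = cond (a x) 2 1))) := by
    intro x r hr
    simp only [inD, Nat.mul_mod_right, if_true, Nat.mul_div_cancel_left _ (show 0 < 5 by omega),
      Sign.dm hr]
  have m1 : ∀ v, v % 5 ≠ 0 → (inD v ↔ v % 5 = 2 ∨ v % 5 = 3) := fun v h => by simp only [inD, h, if_false]
  have md : ∀ v, v ∈ (range (TT k φ * 5)).filter inD ↔ v < TT k φ * 5 ∧ inD v := by simp
  refine ⟨(range (TT k φ * 5)).filter inD, filter_subset _ _, ?_, ?_⟩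
  · rw [card_filter]
    have e2 := decomp (fun v => if inD v then 1 else 0) (VV k φ) (3 * φ.length)
    rw [← hL, show VV k φ * LL φ = TT k φ from rfl] at e2
    rw [e2]
    refine add_le_add ?_ ?_
    · refine (sum_le_card_nsmul _ _ (2 + 2 * (3 * φ.length)) fun x _ => add_le_add ?_ ?_).trans
        (by simp)
      · have := m0 x 0 (by omega)
        simp only [add_zero] at this
        simp [this, m0 x 1 (by omega), m0 x 2 (by omega), m0 x 3 (by omega)]
      · refine (sum_le_card_nsmul _ _ 1 fun j hj => ?_).trans (by simp)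
        have := mem_range.1 hj
        simp only [m0 x _ (show 4 + 3 * j < _ by omega), m0 x _ (show 4 + 3 * j + 1 < _ by omega),
          m0 x _ (show 4 + 3 * j + 2 < _ by omega)]
        clear e2
        cases a x <;> simp only [cond] <;> split_ifs <;>
          first | omega | (simp only [false_or] at *; omega)
    · refine (sum_le_card_nsmul _ _ 2 fun i _ => ?_).trans (by simp)
      simp only [m1 _ (show (5 * i + 1) % 5 ≠ 0 by omega), m1 _ (show (5 * i + 2) % 5 ≠ 0 by omega),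
        m1 _ (show (5 * i + 3) % 5 ≠ 0 by omega), m1 _ (show (5 * i + 4) % 5 ≠ 0 by omega)]
      split_ifs <;> omega
  simp only [paths, List.forall_mem_cons, List.forall_mem_map, List.mem_range, md]
  have cases5 : ∀ v < TT k φ * 5, ¬ (v < TT k φ * 5 ∧ inD v) →
      (∃ x < VV k φ, ∃ r < LL φ, v = 5 * (x * LL φ + r) ∧ r ≠ 0 ∧ r ≠ 3 ∧
        (4 ≤ r → (r - 4) % 3 ≠ cond (a x) 2 1)) ∨ ∃ i < TT k φ, v = 5 * i + 1 ∨ v = 5 * i + 4 := by
    intro v hv hn
    by_cases h : v % 5 = 0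
    · have e := Nat.div_add_mod' (v / 5) (LL φ)
      have hr : v / 5 % LL φ < LL φ := Nat.mod_lt _ (by omega)
      have := m0 (v / 5 / LL φ) _ hr
      rw [show 5 * (v / 5 / LL φ * LL φ + v / 5 % LL φ) = v by omega] at this
      refine .inl ⟨v / 5 / LL φ,
        Nat.div_lt_of_lt_mul (by rw [mul_comm]; unfold TT at hv; omega), _, hr, by omega, ?_⟩
      tauto
    · have := mt (m1 v h).2 fun h => hn ⟨hv, h⟩
      exact .inr ⟨v / 5, by omega, by omega⟩
  refine ⟨fun v hv hn => ?_, fun v hv hn => ?_, fun h hh v hv hn => ?_⟩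
  · rcases cases5 v hv hn with ⟨x, hx, r, hr, rfl, h0, h3, h4⟩ | ⟨i, hi, rfl | rfl⟩
    · have b1 := blk_lt hx hr
      by_cases hc : r = 2 ∨ (4 ≤ r ∧ (r - 4) % 3 + 1 = cond (a x) 2 1)
      · have hr' : r + 1 < LL φ := by
          revert hc; cases a x <;> simp only [cond] <;> omega
        have b2 := blk_lt hx hr'
        refine ⟨5 * (x * LL φ + (r + 1)), ⟨by omega, (m0 x _ hr').2 ?_⟩, .inl (i1a (by omega))⟩
        revert hc; cases a x <;> simp only [cond] <;> omega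
      · obtain ⟨r, rfl⟩ : ∃ r', r = r' + 1 := ⟨r - 1, by omega⟩
        refine ⟨5 * (x * LL φ + r), ⟨by omega, (m0 x _ (by omega)).2 ?_⟩, .inr (i1a (by omega))⟩
        revert hc h4; cases a x <;> simp only [cond] <;> omega
    · exact ⟨5 * i + 2, ⟨by omega, (m1 _ (by omega)).2 (by omega)⟩,
        .inl (List.IsInfix.trans ⟨[], [_, _], rfl⟩ (i1b hi))⟩
    · exact ⟨5 * i + 3, ⟨by omega, (m1 _ (by omega)).2 (by omega)⟩,
        .inr (List.IsInfix.trans ⟨[_, _], [], rfl⟩ (i1b hi))⟩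
  · rcases cases5 v hv hn with ⟨x, hx, r, hr, rfl, h0, h3, h4⟩ | ⟨i, hi, rfl | rfl⟩
    · have b1 := blk_lt hx hr
      have b3 := blk_lt hx (show 3 < LL φ by omega)
      by_cases h1 : r < 4
      · rcases (show r = 1 ∨ r = 2 by omega) with rfl | rfl
        · exact ⟨5 * (x * LL φ + 3), ⟨by omega, (m0 x _ (by omega)).2 (by omega)⟩,
            .inr (List.IsInfix.trans ⟨[_, _], [], rfl⟩ (i2a hx))⟩
        · exact ⟨5 * (x * LL φ + 0), ⟨by omega, (m0 x _ (by omega)).2 (by omega)⟩,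
            .inl (List.IsInfix.trans ⟨[], [_, _], rfl⟩ (i2a hx))⟩
      · have e := (Sign.dm (a := x) hr).2
        generalize x * LL φ + r = i at *
        by_cases h2 : lit φ (occ φ i) = i
        · have h5 := occ_lt (i := i) (φ := φ) (by omega)
          obtain ⟨c, hc, s, hs, e'⟩ : ∃ c < φ.length, ∃ s < 3, occ φ i = 3 * c + s :=
            ⟨occ φ i / 3, by omega, occ φ i % 3, by omega, by omega⟩
          rw [e'] at h2
          subst h2
          have l0 := lit_lt (k := k) (show 3 * c < 3 * φ.length by omega)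
          have hi := i2c (k := k) hc
          rcases (show s = 0 ∨ s = 1 ∨ s = 2 by omega) with rfl | rfl | rfl
          · exact ⟨_, ⟨by omega, (m1 _ (by omega)).2 (by omega)⟩,
              .inr (List.IsInfix.trans ⟨[], [_, _, _], rfl⟩ hi)⟩
          · obtain ⟨j, hj, ej⟩ := ha c hc
            have l1 := lit_lt (k := k) (show 3 * c + j < 3 * φ.length by omega)
            have hin : inD (5 * lit φ (3 * c + j)) := by
              have := off_lt (show 3 * c + j < 3 * φ.length by omega)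
              refine (m0 _ _ this.1).2 (.inr (.inr ⟨this.2, ?_⟩))
              rw [ej]; unfold off
              cases (litAt φ (3 * c + j)).2 <;> simp only [cond] <;> omega
            rcases (show j = 0 ∨ j = 1 ∨ j = 2 by omega) with rfl | rfl | rfl
            · exact ⟨_, ⟨by omega, hin⟩, .inr (List.IsInfix.trans ⟨[_], [_, _], rfl⟩ hi)⟩
            · exact absurd ⟨hv, hin⟩ hn
            · exact ⟨_, ⟨by omega, hin⟩, .inl (List.IsInfix.trans ⟨[_, _], [_], rfl⟩ hi)⟩
          · exact ⟨_, ⟨by omega, (m1 _ (by omega)).2 (by omega)⟩,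
              .inl (List.IsInfix.trans ⟨[_, _, _], [], rfl⟩ hi)⟩
        · have hi := i2b (k := k) (φ := φ) b1
          rw [show grp φ i = [5 * i] by simp [grp, e, h1, h2]] at hi
          exact ⟨5 * i + 2, ⟨by omega, (m1 _ (by omega)).2 (by omega)⟩,
            .inr (List.IsInfix.trans ⟨[_, _, _], [], rfl⟩ hi)⟩
    · exact ⟨5 * i + 3, ⟨by omega, (m1 _ (by omega)).2 (by omega)⟩,
        .inr (List.IsInfix.trans ⟨[], _, rfl⟩ (i2b hi))⟩
    · exact ⟨5 * i + 2, ⟨by omega, (m1 _ (by omega)).2 (by omega)⟩,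
        .inl (List.IsInfix.trans ⟨[_, _], _, rfl⟩ (i2b hi))⟩
  · have hi : ∀ i < TT k φ, [5 * i, 5 * GDom.md (TT k φ) (i + (h + 1)) + 2, 5 * i + 1,
        5 * GDom.md (TT k φ) (i + (h + 1)) + 3, 5 * GDom.md (TT k φ) (i + 2 * (h + 1)) + 4] <:+:
        PH (TT k φ) (h + 1) := fun i hi => inf1 (fun i => [5 * i,
        5 * GDom.md (TT k φ) (i + (h + 1)) + 2, 5 * i + 1,
        5 * GDom.md (TT k φ) (i + (h + 1)) + 3, 5 * GDom.md (TT k φ) (i + 2 * (h + 1)) + 4]) hi
    have hm : ∀ i < TT k φ, GDom.md (TT k φ) (i + (h + 1)) < TT k φ := fun i hi => by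
      unfold GDom.md; split_ifs <;> omega
    rcases cases5 v hv hn with ⟨x, hx, r, hr, rfl, -⟩ | ⟨i, hi', rfl | rfl⟩
    · have b1 := blk_lt hx hr
      have := hm _ b1
      exact ⟨_, ⟨by omega, (m1 _ (by omega)).2 (by omega)⟩,
        .inl (List.IsInfix.trans ⟨[], [_, _, _], rfl⟩ (hi _ b1))⟩
    · have := hm _ hi'
      exact ⟨_, ⟨by omega, (m1 _ (by omega)).2 (by omega)⟩,
        .inr (List.IsInfix.trans ⟨[_], [_, _], rfl⟩ (hi _ hi'))⟩
    · obtain ⟨j, hj, rfl⟩ : ∃ j < TT k φ, i = GDom.md (TT k φ) (j + 2 * (h + 1)) := by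
        refine ⟨GDom.md (TT k φ) (i + TT k φ - 2 * (h + 1)), ?_, ?_⟩ <;> unfold GDom.md <;>
          split_ifs <;> omega
      have := hm _ hj
      exact ⟨_, ⟨by omega, (m1 _ (by omega)).2 (by omega)⟩,
        .inr (List.IsInfix.trans ⟨[_, _, _], [], rfl⟩ (hi _ hj))⟩

theorem hard (hk : 2 ≤ k) : NPHardOn
    (fun I : ℕ × List (List ℕ) × Bin => Factoring k I.1 I.2.1)
    (fun I => GlobalDom I.1 I.2.1 I.2.2.val) := by
  have hL : PT LL := by unfold LL; fun_prop
  have hV : PT (VV k) := by unfold VV; fun_prop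
  have hT : PT (TT k) := by unfold TT; fun_prop
  have hl : PT fun p : F3 × ℕ => lit p.1 p.2 := by unfold lit off; fun_prop
  have ho : PT fun p : F3 × ℕ => occ p.1 p.2 := by unfold occ; fun_prop
  obtain ⟨l, hl', el⟩ : ∃ l : F3 × ℕ → ℕ, PT l ∧ ∀ a b, lit a b = l (a, b) :=
    ⟨_, hl, fun _ _ => rfl⟩
  obtain ⟨o, ho', eo⟩ : ∃ l : F3 × ℕ → ℕ, PT l ∧ ∀ a b, occ a b = l (a, b) :=
    ⟨_, ho, fun _ _ => rfl⟩
  have hP : PT (paths k) := by
    unfold paths P1 P2 PH md grp; simp only [el, eo]; fun_prop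
  have hM : PT (MM k) := by unfold MM; fun_prop
  exact NPH.npHardOn (sat3_nph.reduce (fun φ => (TT k φ * 5, paths k φ, Bin.mk (MM k φ)))
    (PT.mk (by fun_prop) (hP.mk (pt_bin hM))) fun φ _ => ⟨factoring hk, complete hk, sound⟩)

end Pool.Agent.H37.GDom
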