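import Pool.Agent.H38.NP.Defs

set_option autoImplicit false

namespace Pool.Agent.H37.GDom

/-- `u` and `v` are consecutive on the path with vertex sequence `p` -/
def PAdj (p : List ℕ) (u v : ℕ) : Prop := [u, v] <:+: p ∨ [v, u] <:+: p

/-- `P` is a list of `k` pairwise edge-disjoint Hamiltonian paths on the vertices `0, …, n-1` -/
def Factoring (k n : ℕ) (P : List (List ℕ)) : Prop :=
  P.length = k ∧ (∀ p ∈ P, p.Perm (List.range n)) ∧
    P.Pairwise fun p q => ∀ u v, PAdj p u v → ¬ PAdj q u v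

/-- there is a global dominating set of size at most `M` -/
def GlobalDom (n : ℕ) (P : List (List ℕ)) (M : ℕ) : Prop :=
  ∃ D ⊆ Finset.range n, D.card ≤ M ∧ ∀ p ∈ P, ∀ v < n, v ∉ D → ∃ w ∈ D, PAdj p v w

end Pool.Agent.H37.GDom
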