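import Pool.Agent.H37.Io3

/-! List decodable codes and quadratic traces. -/

set_option autoImplicit false

namespace Pool.Agent.H37.Io

open Filter Rnd Hd Topology

variable {O : Set (ℕ →. ℕ)}

theorem trace2 {h H : ℕ → ℕ} (hH : CI ∅ H) (h1 : ∀ t j, j < 2 ^ (t + 1) → h j ≤ H t)
    (hn : ¬ ∃ x, CI O x ∧ IO h x) {R : ℕ → List ℕ} (hR : CI O R)
    (hl : ∀ᶠ t in atTop, (R t).length ≤ 4 ^ t) :
    ∃ y, CI ∅ y ∧ (∀ t, y t < (H t ^ 2 ^ t) ^ 2) ∧ ∀ᶠ t in atTop, y t ∉ R t := by
  have hH' : CI O H := hH.of_empty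
  obtain ⟨u, a1, a2, a3⟩ := trace hH h1 hn (L := fun t => (List.range (H t ^ 2 ^ t)).filter fun u =>
    decide (2 ^ t ≤ (R t).countP fun n => n % H t ^ 2 ^ t == u)) (by fun_prop)
    (hl.mono fun t ht => popular _ (· % H t ^ 2 ^ t) _ _ (by positivity) (by rwa [← mul_pow]))
  have a1' : CI O u := a1.of_empty
  obtain ⟨v, b1, b2, b3⟩ := trace hH h1 hn (L := fun t => ((R t).filter fun n =>
    n % H t ^ 2 ^ t == u t).map fun n => n / H t ^ 2 ^ t) (by fun_prop) (a3.mono fun t ht => by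
      simp only [List.mem_filter, List.mem_range, a2, true_and, decide_eq_true_eq, not_le] at ht
      rw [List.length_map, ← List.countP_eq_length_filter]
      exact ht.le)
  refine ⟨fun t => u t + H t ^ 2 ^ t * v t, by fun_prop, fun t => by
    have := a2 t
    have := b2 t
    nlinarith, b3.mono fun t ht h => ht (List.mem_map.2 ⟨_, List.mem_filter.2 ⟨h, ?_⟩, ?_⟩)⟩
  · simp [Nat.mod_eq_of_lt (a2 _)]
  · rw [Nat.add_mul_div_left _ _ (lt_of_le_of_lt (Nat.zero_le _) (a2 _)), Nat.div_eq_of_lt (a2 _),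
      zero_add]

theorem greedy {α : Type} (S : Finset α) (hS : S.Nonempty) (bad : α → α → Bool) {x b : ℝ}
    (hx : 1 ≤ x) (hb : ∀ w ∈ S, ((S.filter fun σ => bad w σ).card : ℝ) ≤ b * S.card) (r : ℕ) :
    ∃ E : List α, E.length = r ∧ (∀ σ ∈ E, σ ∈ S) ∧
      ∑ w ∈ S, x ^ E.countP (bad w) ≤ S.card * (1 + x * b) ^ r := by
  induction r with
  | zero => exact ⟨[], rfl, by simp⟩
  | succ r ih =>
    obtain ⟨E, h1, h0, h2⟩ := ih
    have hb0 : 0 ≤ b := by
      obtain ⟨w, hw⟩ := hS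
      exact nonneg_of_mul_nonneg_left ((Nat.cast_nonneg _).trans (hb w hw))
        (Nat.cast_pos.2 (Finset.card_pos.2 ⟨w, hw⟩))
    obtain ⟨σ, h4, h3⟩ := Finset.exists_le_of_sum_le hS
      (f := fun σ => ∑ w ∈ S, x ^ (σ :: E).countP (bad w))
      (g := fun _ => S.card * (1 + x * b) ^ (r + 1)) (by
        rw [Finset.sum_comm, Finset.sum_const, nsmul_eq_mul]
        calc _ ≤ ∑ w ∈ S, x ^ E.countP (bad w) * (S.card * (1 + x * b)) := by
              refine Finset.sum_le_sum fun w hw => ?_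
              simp only [List.countP_cons, pow_add, ← Finset.mul_sum]
              refine mul_le_mul_of_nonneg_left ?_ (by positivity)
              calc _ ≤ ∑ σ ∈ S, (1 + x * if bad w σ then 1 else 0) :=
                    Finset.sum_le_sum fun σ _ => by split_ifs <;> simp
                _ ≤ _ := by
                  rw [Finset.sum_add_distrib, ← Finset.mul_sum, Finset.sum_boole]
                  have := mul_le_mul_of_nonneg_left (hb w hw) (zero_le_one.trans hx)
                  simp; linarith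
          _ ≤ S.card * (1 + x * b) ^ r * (S.card * (1 + x * b)) := by
              rw [← Finset.sum_mul]; gcongr
          _ = _ := by ring)
    exact ⟨σ :: E, by simp [h1], List.forall_mem_cons.2 ⟨h4, h0⟩, h3⟩

theorem sum_dis' (x : ℝ) (B : ℕ → Bool) (n : ℕ) :
    ((W n).map fun τ => x ^ dis (fun i => τ.getD i false) B n).sum = (1 + x) ^ n := by
  induction n with
  | zero => simp [W, dis]
  | succ n ih =>
    rw [sum_W_succ, pow_succ, ← ih, ← List.sum_map_mul_right]
    refine congrArg List.sum (List.map_congr_left fun σ hσ => ?_)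
    have e : ∀ b, dis (fun i => (σ ++ [b]).getD i false) B (n + 1) =
        dis (fun i => σ.getD i false) B n + if b = B n then 0 else 1 := fun b => by
      rw [dis_eq, List.range_succ, List.countP_append, ← dis_eq,
        dis_congr (X' := fun i => σ.getD i false) (fun i hi => ?_) fun _ _ => rfl]
      · by_cases h : b = B n <;> simp [h, ← mem_W.1 hσ]
      · rw [List.getD_append _ _ _ _ (by rwa [mem_W.1 hσ])]
    rw [e, e]
    cases B n <;> simp [pow_succ] <;> ring

theorem card_W (n : ℕ) : (W n).toFinset.card = 2 ^ n := by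
  rw [List.toFinset_card_of_nodup (nodup_W n)]
  induction n with
  | zero => rfl
  | succ n ih => simp [W_succ, List.length_flatMap, ih, pow_succ]

theorem chern (q : ℕ) : ∃ κ : ℝ, 0 < κ ∧ κ < 1 ∧ ∀ n (B : ℕ → Bool), (((W n).toFinset.filter fun σ =>
    (q + 1) * n ≤ 2 * q * dis (fun i => σ.getD i false) B n).card : ℝ) ≤ κ ^ n * 2 ^ n := by
  obtain ⟨x, h1, h0⟩ : ∃ x : ℝ, q ^ 2 * x * (1 + x) ^ q < 2 ∧ 0 < x :=
    (((ContinuousAt.eventually_lt (f := fun x : ℝ => q ^ 2 * x * (1 + x) ^ q) (g := fun _ => 2)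
      (x₀ := 0) (by fun_prop) (by fun_prop) (by simp)).filter_mono nhdsWithin_le_nhds).and
        (self_mem_nhdsWithin (s := Set.Ioi 0))).exists
  have h2 : ∀ m : ℕ, (1 + x) ^ m - 1 ≤ m * x * (1 + x) ^ m := fun m => by
    induction m with
    | zero => simp
    | succ m ih =>
      have : 1 ≤ (1 + x) ^ m := one_le_pow₀ (by linarith)
      have : (0 : ℝ) ≤ m * x := by positivity
      rw [pow_succ]; push_cast; nlinarith [mul_pos h0 h0]
  have h3 : 1 ≤ (1 + x) ^ q := one_le_pow₀ (by linarith)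
  refine ⟨(1 + (1 + x) ^ (2 * q)) / (2 * (1 + x) ^ (q + 1)), by positivity, ?_, fun n B => ?_⟩
  · rw [div_lt_one (by positivity), mul_comm 2 q, pow_mul, pow_succ _ q]
    have := pow_le_pow_left₀ (by linarith) (h2 q) 2
    have := mul_lt_mul_of_pos_left h1 (show 0 < x * (1 + x) ^ q by positivity)
    nlinarith
  · rw [← mul_pow, div_mul_comm, div_mul_cancel_left₀ two_ne_zero, mul_pow, inv_pow,
      ← sum_dis' _ B n, le_inv_mul_iff₀ (by positivity), ← List.sum_toFinset _ (nodup_W n), mul_comm,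
      ← nsmul_eq_mul, ← Finset.sum_const]
    refine le_trans (Finset.sum_le_sum fun σ hσ => ?_) (Finset.sum_le_sum_of_subset_of_nonneg
      (Finset.filter_subset _ _) fun _ _ _ => by positivity)
    rw [← pow_mul, ← pow_mul]
    exact pow_le_pow_right₀ (by linarith) (Finset.mem_filter.1 hσ).2

def bad (q n : ℕ) (w σ : List Bool) : Bool :=
  decide ((q + 1) * n ≤ 2 * q * hm n σ w) || decide ((q + 1) * n ≤ 2 * q * (n - hm n σ w))

theorem ld (q : ℕ) : ∃ L m, ∀ n M : ℕ, 2 * M ≤ 2 ^ (n / 2 ^ m) →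
    ∃ E : List (List Bool), E.length = M ∧ (∀ σ ∈ E, σ ∈ W n) ∧
      ∀ w ∈ W n, E.countP (bad q n w) ≤ L := by
  obtain ⟨κ, k0, k1, hk⟩ := chern q
  obtain ⟨θ, t1, t2⟩ : ∃ θ : ℝ, 1 < θ ∧ θ * θ * κ = 1 :=
    ⟨(√κ)⁻¹, (one_lt_inv₀ (Real.sqrt_pos.2 k0)).2 ((Real.sqrt_lt' one_pos).2 (by simpa using k1)),
      by rw [← mul_inv, Real.mul_self_sqrt k0.le, inv_mul_cancel₀ k0.ne']⟩
  obtain ⟨L, hL⟩ := pow_unbounded_of_one_lt 6 t1
  refine ⟨L, L, fun n M hM => ?_⟩
  rcases n.eq_zero_or_pos with rfl | hn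
  · exact ⟨[], by simp at hM ⊢; omega, by simp, by simp⟩
  obtain ⟨E, h1, h2, h3⟩ := greedy (W n).toFinset (Finset.card_pos.1 (by rw [card_W]; positivity))
    (bad q n) (x := θ ^ n) (b := 2 * κ ^ n) (one_le_pow₀ t1.le) (fun w _ => by
      have a1 := hk n fun i => w.getD i false
      have a2 := hk n fun i => !w.getD i false
      rw [card_W, Nat.cast_pow, Nat.cast_ofNat, mul_assoc, two_mul]
      refine le_trans ?_ (add_le_add a1 a2)
      exact_mod_cast (Finset.card_le_card fun σ hσ => by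
        have := dis_not (fun i => σ.getD i false) (fun i => w.getD i false) n
        simp only [bad, hm_eq, Finset.mem_filter, Finset.mem_union, Bool.or_eq_true,
          decide_eq_true_eq] at hσ ⊢
        exact hσ.2.imp (⟨hσ.1, ·⟩) fun h => ⟨hσ.1, by rwa [Nat.sub_eq_of_eq_add' this.symm] at h⟩).trans
          (Finset.card_union_le _ _)) M
  refine ⟨E, h1, fun σ h => List.mem_toFinset.1 (h2 σ h), fun w hw => ?_⟩
  have a1 : (2 * M : ℝ) ≤ θ ^ n := by
    calc (2 * M : ℝ) ≤ 2 ^ (n / 2 ^ L) := by exact_mod_cast hM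
      _ ≤ (θ ^ 2 ^ L) ^ (n / 2 ^ L) := pow_le_pow_left₀ zero_le_two (by
          have := pow_le_pow_right₀ t1.le (Nat.lt_two_pow_self (n := L)).le
          linarith) _
      _ ≤ _ := by rw [← pow_mul]; exact pow_le_pow_right₀ t1.le (Nat.mul_div_le _ _)
  have a2 : (1 + θ ^ n * (2 * κ ^ n)) ^ M < 3 := by
    calc _ ≤ Real.exp (θ ^ n * (2 * κ ^ n)) ^ M := by
          gcongr; linarith [Real.add_one_le_exp (θ ^ n * (2 * κ ^ n))]
      _ ≤ Real.exp 1 := by
          rw [← Real.exp_nat_mul, Real.exp_le_exp]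
          calc _ = θ ^ n * κ ^ n * (2 * M) := by ring
            _ ≤ θ ^ n * κ ^ n * θ ^ n := by gcongr
            _ = 1 := by rw [← mul_pow, ← mul_pow, mul_right_comm, t2, one_pow]
      _ < 3 := Real.exp_one_lt_three
  have a3 := (Finset.single_le_sum (f := fun w => (θ ^ n) ^ E.countP (bad q n w))
    (fun _ _ => by positivity) (List.mem_toFinset.2 hw)).trans h3
  rw [card_W] at a3
  by_contra! hc
  have a4 : (6 : ℝ) ^ n ≤ (θ ^ n) ^ E.countP (bad q n w) := by
    rw [← pow_mul, mul_comm, pow_mul]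
    exact pow_le_pow_left₀ (by norm_num) (hL.le.trans (pow_le_pow_right₀ t1.le hc.le)) _
  have a5 : (3 : ℝ) ^ 1 ≤ 3 ^ n := pow_le_pow_right₀ (by norm_num) hn
  rw [show (6 : ℝ) = 2 * 3 by norm_num, mul_pow] at a4
  push_cast at a3
  have : (0 : ℝ) < 2 ^ n := by positivity
  nlinarith

end Pool.Agent.H37.Io
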