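import Pool.Agent.H37.Gh1

/-! Below an oracle of positive Gamma value, agreement density one half is attained. -/

set_option autoImplicit false

namespace Pool.Agent.H37.Io

open Filter Rnd Hd Topology Finset

variable {O : Set (ℕ →. ℕ)}

theorem dens (s : ℕ → ℝ) (hs : ∀ k, |s k| ≤ 1) (Q : ℕ → ℕ) (hQ : ∀ τ, Q τ ≤ τ)
    (h : ∀ q, ∀ᶠ τ in atTop, q ≤ Q τ ∧ ∀ i < 2 ^ Q τ,
      |∑ k ∈ range (2 ^ (τ - Q τ)), s (2 ^ τ + i * 2 ^ (τ - Q τ) + k)| * Q τ ≤ 2 ^ (τ - Q τ)) :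
    Tendsto (fun n : ℕ => (∑ k ∈ range n, s k) / n) atTop (𝓝 0) := by
  have b : ∀ a n, |∑ k ∈ range n, s (a + k)| ≤ n := fun a n =>
    (abs_sum_le_sum_abs _ _).trans ((sum_le_sum fun k _ => hs _).trans (by simp))
  have e : ∀ τ, 2 ^ Q τ * 2 ^ (τ - Q τ) = 2 ^ τ := fun τ => by
    rw [← pow_add, Nat.add_sub_cancel' (hQ τ)]
  refine Metric.tendsto_atTop.2 fun ε hε => ?_
  obtain ⟨q, hq⟩ := exists_nat_one_div_lt (show 0 < ε / 3 by positivity)
  obtain ⟨T, hT⟩ := eventually_atTop.1 (h (q + 1))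
  generalize hδ : 1 / ((q : ℝ) + 1) = δ at hq
  have d0 : 0 < δ := by rw [← hδ]; positivity
  have d1 : ∀ {x y : ℝ} {m : ℕ}, 0 ≤ x → q + 1 ≤ m → x * m ≤ y → x ≤ δ * y := fun hx hm h => by
    rw [← hδ, one_div, le_inv_mul_iff₀ (by positivity), mul_comm]
    exact le_trans (mul_le_mul_of_nonneg_left (by exact_mod_cast hm) hx) h
  have c1 : ∀ τ, T ≤ τ → ∀ i ≤ 2 ^ Q τ, |∑ k ∈ range (2 ^ τ + i * 2 ^ (τ - Q τ)), s k| ≤
      |∑ k ∈ range (2 ^ τ), s k| + δ * (i * 2 ^ (τ - Q τ)) := fun τ hτ i hi => by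
    induction i with
    | zero => simp
    | succ i ih =>
      rw [Nat.succ_mul, ← add_assoc, sum_range_add]
      have := d1 (abs_nonneg _) (hT τ hτ).1 ((hT τ hτ).2 i hi)
      refine (abs_add_le _ _).trans ((add_le_add (ih (by omega)) this).trans_eq ?_)
      push_cast; ring
  have c2 : ∀ τ, T ≤ τ → |∑ k ∈ range (2 ^ τ), s k| ≤ 2 ^ T + δ * 2 ^ τ := fun τ hτ => by
    induction τ, hτ using Nat.le_induction with
    | base =>
      have := b 0 (2 ^ T)
      simp only [zero_add, Nat.cast_pow, Nat.cast_ofNat] at this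
      exact this.trans (le_add_of_nonneg_right (by positivity))
    | succ τ hτ ih =>
      have := c1 τ hτ _ le_rfl
      have e' : ((2 ^ Q τ : ℕ) : ℝ) * 2 ^ (τ - Q τ) = 2 ^ τ := by exact_mod_cast e τ
      rw [e, e', ← two_mul, ← pow_succ'] at this
      rw [pow_succ (2 : ℝ)]; linarith
  obtain ⟨N, hN⟩ := exists_nat_gt (2 ^ T / δ)
  refine ⟨N + 2 ^ T, fun n hn => ?_⟩
  have n0 : 0 < n := lt_of_lt_of_le (by positivity) hn
  have a1 := Nat.le_log_of_pow_le one_lt_two (show 2 ^ T ≤ n by omega)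
  have a2 := Nat.pow_log_le_self 2 n0.ne'
  have a3 := Nat.lt_pow_succ_log_self one_lt_two n
  generalize Nat.log 2 n = τ at a1 a2 a3
  have a4 := Nat.div_add_mod' (n - 2 ^ τ) (2 ^ (τ - Q τ))
  have a5 := Nat.mod_lt (n - 2 ^ τ) (show 0 < 2 ^ (τ - Q τ) by positivity)
  have a6 : (n - 2 ^ τ) / 2 ^ (τ - Q τ) ≤ 2 ^ Q τ := Nat.div_le_of_le_mul (by
    rw [mul_comm, e]; rw [Nat.succ_eq_add_one, pow_succ] at a3; omega)
  generalize (n - 2 ^ τ) / 2 ^ (τ - Q τ) = i at a4 a6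
  generalize (n - 2 ^ τ) % 2 ^ (τ - Q τ) = r at a4 a5
  have a7 : n = 2 ^ τ + i * 2 ^ (τ - Q τ) + r := by rw [add_assoc, a4]; omega
  have a8 : (r : ℝ) ≤ δ * 2 ^ τ := d1 (m := Q τ) (by positivity) (hT τ a1).1 (by
    have := Nat.mul_le_mul a5.le (Nat.lt_two_pow_self (n := Q τ)).le
    rw [mul_comm (2 ^ _), e] at this
    exact_mod_cast this)
  have a9 := c1 τ a1 i a6
  have a10 := c2 τ a1
  have a11 : (n : ℝ) = 2 ^ τ + i * 2 ^ (τ - Q τ) + r := by exact_mod_cast a7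
  have a12 : (N : ℝ) ≤ n := by exact_mod_cast le_trans (Nat.le_add_right _ _) hn
  rw [Real.dist_eq, sub_zero, abs_div, Nat.abs_cast, div_lt_iff₀ (by exact_mod_cast n0)]
  conv_lhs => rw [a7, sum_range_add]
  rw [div_lt_iff₀ d0] at hN
  have : (0 : ℝ) ≤ δ * (i * 2 ^ (τ - Q τ)) := by positivity
  have : (0 : ℝ) ≤ δ * r := by positivity
  have := mul_le_mul_of_nonneg_left a12 d0.le
  have := mul_le_mul_of_nonneg_right hq.le (Nat.cast_nonneg (α := ℝ) n)
  have : δ * n = δ * 2 ^ τ + δ * (i * 2 ^ (τ - Q τ)) + δ * r := by rw [a11]; ring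
  linarith [abs_add_le (∑ k ∈ range (2 ^ τ + i * 2 ^ (τ - Q τ)), s k)
    (∑ k ∈ range r, s (2 ^ τ + i * 2 ^ (τ - Q τ) + k)), b (2 ^ τ + i * 2 ^ (τ - Q τ)) r]

def MM (t : ℕ) : ℕ := ((2 ^ (2 ^ (t + 1)).factorial) ^ 2 ^ t) ^ 2

def ok (q τ : ℕ) (E : List (List Bool)) : Bool := (W (2 ^ (τ - q))).all fun w =>
  decide ((List.range (MM (Nat.log 3 τ))).countP (fun r => bad q (2 ^ (τ - q)) w (E.getD r [])) ≤
    4 ^ Nat.log 3 τ / 3 ^ (Nat.log 3 τ + 1) / 2 ^ q)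

theorem ev_ok (q : ℕ) : ∀ᶠ τ in atTop,
    ∃ E ∈ allLists (W (2 ^ (τ - q))) (MM (Nat.log 3 τ)), ok q τ E = true := by
  obtain ⟨L, m, h⟩ := ld q
  have h1 : ∀ᶠ t in atTop, L * 2 ^ q * 3 ^ (t + 1) ≤ 4 ^ t :=
    ((tendsto_pow_atTop_atTop_of_one_lt (show (1 : ℝ) < 4 / 3 by norm_num)).eventually_ge_atTop
      (L * 2 ^ q * 3)).mono fun t ht => by
        rw [div_pow, le_div_iff₀ (by positivity), mul_assoc, ← pow_succ'] at ht
        exact_mod_cast ht
  filter_upwards [(tend_log (b := 3) (by omega)).eventually (h1.and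
    (eventually_ge_atTop (7 + q + m))), eventually_ne_atTop 0] with τ ⟨a1, a2⟩ a3
  have a4 := Nat.pow_log_le_self 3 a3
  unfold ok
  generalize Nat.log 3 τ = t at a1 a2 a4
  have a5 : ∀ t, 7 ≤ t → (t + 1) * (2 ^ (t + 1) + 1) + 1 + t ≤ 3 ^ t := fun t ht => by
    induction t, ht using Nat.le_induction with
    | base => norm_num
    | succ t _ ih => rw [pow_succ 3, pow_succ 2 (t + 1)]; nlinarith [Nat.zero_le (t * 2 ^ (t + 1))]
  obtain ⟨E, b1, b2, b3⟩ := h (2 ^ (τ - q)) (MM t) (by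
    have := a5 t (by omega)
    rw [MM, ← pow_mul, ← pow_mul, ← pow_succ', Nat.pow_div (by omega) two_pos]
    refine Nat.pow_le_pow_right two_pos ?_
    calc _ ≤ (2 ^ (t + 1)) ^ 2 ^ (t + 1) * 2 ^ (t + 1) + 1 :=
          Nat.succ_le_succ (Nat.mul_le_mul (Nat.factorial_le_pow _) (pow_succ 2 t).ge)
      _ = 2 ^ ((t + 1) * (2 ^ (t + 1) + 1)) + 1 := by rw [← pow_mul, ← pow_add]; ring_nf
      _ ≤ 2 ^ ((t + 1) * (2 ^ (t + 1) + 1) + 1) := Nat.pow_lt_pow_right one_lt_two (by omega)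
      _ ≤ _ := Nat.pow_le_pow_right two_pos (by omega))
  refine ⟨E, mem_allLists.2 ⟨b1.le, b2⟩, List.all_eq_true.2 fun w hw => decide_eq_true ?_⟩
  have := b3 w hw
  rw [← pre_getD E [], pre, List.countP_map, b1] at this
  exact this.trans ((Nat.le_div_iff_mul_le (by positivity)).2
    ((Nat.le_div_iff_mul_le (by positivity)).2 a1))

theorem exists_QE : ∃ (Q : ℕ → ℕ) (E : ℕ → List (List Bool)), CI ∅ Q ∧ CI ∅ E ∧ (∀ τ, Q τ ≤ τ) ∧
    ∀ q, ∀ᶠ τ in atTop, q ≤ Q τ ∧ ok (Q τ) τ (E τ) = true := by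
  have h1 := ci_log (O := ∅) (b := 3) (by omega)
  have h2 := ci_fac (O := ∅)
  obtain ⟨K, hK, eK⟩ : ∃ K : ℕ × ℕ × List (List Bool) → Bool, CI ∅ K ∧
      ∀ q τ E, ok q τ E = K (q, τ, E) := ⟨fun p => ok p.1 p.2.1 p.2.2, by
    unfold ok bad hm MM; fun_prop, fun _ _ _ => rfl⟩
  obtain ⟨P, hP, eP⟩ : ∃ P : ℕ × ℕ → Bool, CI ∅ P ∧ ∀ q τ, P (q, τ) =
      (allLists (W (2 ^ (τ - q))) (MM (Nat.log 3 τ))).any fun E => K (q, τ, E) :=
    ⟨fun p => (allLists (W (2 ^ (p.2 - p.1))) (MM (Nat.log 3 p.2))).any fun E => K (p.1, p.2, E),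
      by unfold MM; fun_prop, fun _ _ => rfl⟩
  have ex : ∀ τ, ∃ d, (P (τ - d, τ) || decide (τ ≤ d)) = true := fun τ => ⟨τ, by simp⟩
  obtain ⟨D, hD, eD⟩ : ∃ D : ℕ → ℕ, CI ∅ D ∧ ∀ τ, Nat.find (ex τ) = D τ :=
    ⟨_, CI.find (by fun_prop) ex, fun _ => rfl⟩
  obtain ⟨E, hE, eE⟩ := CI.exists_choice (O := ∅) (p := fun τ (E : List (List Bool)) =>
    !P (τ - D τ, τ) || K (τ - D τ, τ, E)) (by fun_prop) fun τ => by
      cases h : P (τ - D τ, τ) with
      | false => simp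
      | true => exact (List.any_eq_true.1 (eP _ _ ▸ h)).imp fun E h => by simpa using h.2
  refine ⟨fun τ => τ - D τ, E, by fun_prop, hE, fun _ => Nat.sub_le _ _, fun q => ?_⟩
  filter_upwards [ev_ok (q + 1), eventually_ge_atTop (q + 1)] with τ a1 a2
  have a3 : D τ ≤ τ - (q + 1) := eD τ ▸ Nat.find_min' _ (by
    rw [Nat.sub_sub_self a2, eP, List.any_eq_true.2 (by simpa only [eK] using a1)]; rfl)
  have a4 := Nat.find_spec (ex τ)
  have a5 := eE τ
  rw [eD, decide_eq_false (by omega), Bool.or_false] at a4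
  exact ⟨by omega, by simpa [a4, eK] using a5⟩

theorem half (hn : ¬ ∃ z, CI O z ∧ IO (fun n => 2 ^ n.factorial) z) {Y : ℕ → Bool} (hY : CI O Y) :
    ∃ A, CI ∅ A ∧ ag Y A = 1 / 2 := by
  obtain ⟨Q, E, hQ, hE, h1, h2⟩ := exists_QE
  have l1 := ci_log (O := O) (b := 3) (by omega)
  have l2 := ci_log (O := ∅) (b := 3) (by omega)
  have l3 := ci_log (O := ∅) one_lt_two
  have f1 := ci_fac (O := O)
  have f2 := ci_fac (O := ∅)
  have hQ' : CI O Q := hQ.of_empty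
  have hE' : CI O E := hE.of_empty
  obtain ⟨w, a1, a2, a3⟩ := trace2 (H := fun t => 2 ^ (2 ^ (t + 1)).factorial) (by fun_prop)
    (fun t j hj => Nat.pow_le_pow_right two_pos (Nat.factorial_le hj.le)) hn
    (R := fun t => ((List.range (3 ^ (t + 1))).filter fun τ => Nat.log 3 τ == t).flatMap fun τ =>
      (List.range (2 ^ Q τ)).flatMap fun i => (List.range (MM t)).filter fun r =>
        bad (Q τ) (2 ^ (τ - Q τ)) ((List.range (2 ^ (τ - Q τ))).map fun k =>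
          Y (2 ^ τ + i * 2 ^ (τ - Q τ) + k)) ((E τ).getD r []))
    (by unfold bad hm MM; fun_prop) (by
      obtain ⟨T, hT⟩ := eventually_atTop.1 (h2 0)
      filter_upwards [eventually_ge_atTop (T + 1)] with t ht
      rw [List.length_flatMap]
      refine (List.sum_le_card_nsmul _ (4 ^ t / 3 ^ (t + 1)) (List.forall_mem_map.2
        fun τ hτ => ?_)).trans ((Nat.mul_le_mul_right _ ?_).trans (Nat.mul_div_le _ (3 ^ (t + 1))))
      · obtain rfl : Nat.log 3 τ = t := by simpa using (List.mem_filter.1 hτ).2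
        have := (hT τ (by have := Nat.log_le_self 3 τ; omega)).2
        rw [List.length_flatMap]
        refine (List.sum_le_card_nsmul _ (4 ^ Nat.log 3 τ / 3 ^ (Nat.log 3 τ + 1) / 2 ^ Q τ)
          (List.forall_mem_map.2 fun i _ => ?_)).trans
          (le_trans (by simp) (Nat.mul_div_le _ (2 ^ Q τ)))
        rw [← List.countP_eq_length_filter]
        exact of_decide_eq_true (List.all_eq_true.1 this _ (mem_W.2 (by simp)))
      · simpa using List.length_filter_le _ (List.range (3 ^ (t + 1))))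
  obtain ⟨A, hA, eA⟩ : ∃ A : ℕ → Bool, CI ∅ A ∧ ∀ n, A n = ((E (Nat.log 2 n)).getD
      (w (Nat.log 3 (Nat.log 2 n))) []).getD ((n - 2 ^ Nat.log 2 n) %
        2 ^ (Nat.log 2 n - Q (Nat.log 2 n))) false := ⟨_, by fun_prop, fun _ => rfl⟩
  have e : ∀ (X Z : ℕ → Bool) n, ∑ k ∈ range n, (if X k = Z k then (1 : ℝ) else -1) =
      2 * ((range n).filter fun k => X k = Z k).card - n := fun X Z n => by
    rw [card_filter, Nat.cast_sum, mul_sum, eq_sub_iff_add_eq, ← nsmul_one n, ← card_range n,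
      ← sum_const, card_range, ← sum_add_distrib]
    exact sum_congr rfl fun k _ => by split_ifs <;> norm_num
  have := dens (fun k => if Y k = A k then 1 else -1) (fun k => by split_ifs <;> simp) Q h1
    fun q => by
      filter_upwards [h2 q, (tend_log (b := 3) (by omega)).eventually a3] with τ b1 b2
      refine ⟨b1.1, fun i hi => ?_⟩
      have b3 : bad (Q τ) (2 ^ (τ - Q τ)) ((List.range (2 ^ (τ - Q τ))).map fun k =>
          Y (2 ^ τ + i * 2 ^ (τ - Q τ) + k)) ((E τ).getD (w (Nat.log 3 τ)) []) = false := by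
        by_contra h
        refine b2 (List.mem_flatMap.2 ⟨τ, by simpa using Nat.lt_pow_succ_log_self (by omega) τ,
          List.mem_flatMap.2 ⟨i, List.mem_range.2 hi, List.mem_filter.2
            ⟨List.mem_range.2 (a2 _), by simpa using h⟩⟩⟩)
      have b4 := dis_not (fun k => Y (2 ^ τ + i * 2 ^ (τ - Q τ) + k))
        (fun k => A (2 ^ τ + i * 2 ^ (τ - Q τ) + k)) (2 ^ (τ - Q τ))
      simp only [bad, hm_eq, Bool.or_eq_false_iff, decide_eq_false_iff_not, not_le] at b3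
      rw [dis_comm, dis_congr (X' := fun k => Y (2 ^ τ + i * 2 ^ (τ - Q τ) + k))
        (B' := fun k => A (2 ^ τ + i * 2 ^ (τ - Q τ) + k)) (fun k hk => by simp [hk])
        (fun k hk => by
          have c1 : (i + 1) * 2 ^ (τ - Q τ) ≤ 2 ^ τ := (Nat.mul_le_mul_right _ hi).trans_eq (by
            rw [← pow_add, Nat.add_sub_cancel' (h1 τ)])
          rw [eA, Nat.log_eq_of_pow_le_of_lt_pow (b := 2) (m := τ)
            (n := 2 ^ τ + i * 2 ^ (τ - Q τ) + k) (by omega)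
            (by rw [Nat.succ_mul] at c1; rw [pow_succ]; omega), add_assoc, Nat.add_sub_cancel_left,
            Nat.mul_add_mod_self_right, Nat.mod_eq_of_lt hk]),
        Nat.sub_eq_of_eq_add' b4.symm] at b3
      rw [e]
      have b5 : ((range (2 ^ (τ - Q τ))).filter fun k => Y (2 ^ τ + i * 2 ^ (τ - Q τ) + k) =
          A (2 ^ τ + i * 2 ^ (τ - Q τ) + k)).card = dis (fun k => Y (2 ^ τ + i * 2 ^ (τ - Q τ) + k))
            (fun k => !A (2 ^ τ + i * 2 ^ (τ - Q τ) + k)) (2 ^ (τ - Q τ)) :=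
        congrArg card (filter_congr fun k _ => by simp)
      rw [b5]
      generalize dis _ _ _ = d at b3 b4
      generalize dis _ _ _ = d' at b3 b4
      obtain ⟨c1, c2⟩ := b3
      rify at c1 c2 b4
      rw [← Nat.abs_cast (Q τ), ← abs_mul, abs_le]
      push_cast
      rw [← b4] at c1 c2 ⊢
      constructor <;> nlinarith
  refine ⟨A, hA, Tendsto.liminf_eq ?_⟩
  have := (this.add_const 1).div_const 2
  rw [zero_add] at this
  refine this.congr' ((eventually_ne_atTop 0).mono fun n hn => ?_)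
  beta_reduce
  rw [e]
  field_simp
  ring

end Pool.Agent.H37.Io
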