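import Pool.Agent.H37.IoDefs

/-! The coarse computability bound and the Gamma value. -/

set_option autoImplicit false

namespace Pool.Agent.H37.IoD

open Filter

/-- lower density of the set of places where `Y` and `A` agree -/
noncomputable def agree (Y A : ℕ → Bool) : ℝ :=
  liminf (fun n : ℕ => (((Finset.range n).filter fun k => Y k = A k).card : ℝ) / n) atTop

noncomputable def gamma (Y : ℕ → Bool) : ℝ := sSup {r | ∃ C, Computable C ∧ r = agree Y C}

noncomputable def Gamma (X : ℕ → Bool) : ℝ := sInf {r | ∃ Y, Red (chi Y) (chi X) ∧ r = gamma Y}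

end Pool.Agent.H37.IoD
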