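import Pool.Agent.H37.Gh2
import Pool.Agent.H37.GhDefs

set_option autoImplicit false

namespace Pool.Agent.H37.IoD

open Filter Io

theorem attain {X Y : ℕ → Bool} (h : Gamma X = 1 / 2) (hY : Red (chi Y) (chi X)) :
    ∃ A, Computable A ∧ agree Y A = 1 / 2 := by
  refine (half (O := orc (chi X)) (fun ⟨z, h1, h2⟩ => ?_)
    (Hd.ci_bit.1 (red_iff.1 hY))).imp fun A h => ⟨h.1.computable, h.2⟩
  obtain ⟨Z, h3, h4⟩ := zero_of h1 h2
  have h5 : Gamma X ≤ 0 := csInf_le_of_le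
    ⟨0, by
      rintro _ ⟨Y, -, rfl⟩
      exact Real.sSup_nonneg (by rintro _ ⟨C, -, rfl⟩; exact ag_nonneg _ _)⟩
    ⟨Z, red_iff.2 (Hd.ci_bit.2 h3), rfl⟩ (Real.sSup_nonpos (by
      rintro _ ⟨C, hC, rfl⟩
      exact (h4 C (CI.of_comp hC)).le))
  rw [h] at h5
  norm_num at h5

end Pool.Agent.H37.IoD
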