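import Pool.Agent.H37.GlDefs

set_option autoImplicit false

namespace Pool.Agent.H37.Gl

open List

/-- inductive shuffle -/
inductive Sh {X : Type} : List X → List X → List X → Prop
  | nil : Sh [] [] []
  | left (a : X) {u v w : List X} : Sh u v w → Sh (a :: u) v (a :: w)
  | right (a : X) {u v w : List X} : Sh u v w → Sh u (a :: v) (a :: w)

variable {X Y : Type}

lemma Sh.symm {u v w : List X} (h : Sh u v w) : Sh v u w := by
  induction h with
  | nil => exact .nil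
  | left a _ ih => exact .right a ih
  | right a _ ih => exact .left a ih

lemma Sh.append {u v w u' v' w' : List X} (h : Sh u v w) (h' : Sh u' v' w') :
    Sh (u ++ u') (v ++ v') (w ++ w') := by
  induction h with
  | nil => exact h'
  | left a _ ih => exact .left a ih
  | right a _ ih => exact .right a ih

lemma sh_l (u : List X) : Sh u [] u := by
  induction u with
  | nil => exact .nil
  | cons a u ih => exact .left a ih

lemma sh_r (u : List X) : Sh [] u u := (sh_l u).symm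

lemma sh_app (u v : List X) : Sh u v (u ++ v) := by
  simpa using (sh_l u).append (sh_r v)

lemma Sh.eq_of_nil {u v w : List X} (h : Sh u v w) (hv : v = []) : w = u := by
  induction h with
  | nil => rfl
  | left a _ ih => rw [ih hv]
  | right a _ ih => simp at hv

lemma Sh.split {x y : List X} : ∀ {u v : List X}, Sh u v (x ++ y) →
    ∃ u1 u2 v1 v2, u = u1 ++ u2 ∧ v = v1 ++ v2 ∧ Sh u1 v1 x ∧ Sh u2 v2 y := by
  induction x with
  | nil => exact fun h => ⟨[], _, [], _, rfl, rfl, .nil, h⟩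
  | cons a x ih =>
    intro u v h
    cases h with
    | left _ h =>
      obtain ⟨u1, u2, v1, v2, rfl, rfl, h1, h2⟩ := ih h
      exact ⟨a :: u1, u2, v1, v2, rfl, rfl, .left a h1, h2⟩
    | right _ h =>
      obtain ⟨u1, u2, v1, v2, rfl, rfl, h1, h2⟩ := ih h
      exact ⟨u1, u2, a :: v1, v2, rfl, rfl, .right a h1, h2⟩

lemma Sh.assoc {ab c t : List X} (h : Sh ab c t) : ∀ {a b : List X}, Sh a b ab →
    ∃ bc, Sh b c bc ∧ Sh a bc t := by
  induction h with
  | nil => intro a b h; cases h; exact ⟨[], .nil, .nil⟩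
  | left x _ ih =>
    intro a b h
    cases h with
    | left _ h => obtain ⟨bc, h1, h2⟩ := ih h; exact ⟨bc, h1, .left x h2⟩
    | right _ h => obtain ⟨bc, h1, h2⟩ := ih h; exact ⟨_, .left x h1, .right x h2⟩
  | right x _ ih =>
    intro a b h
    obtain ⟨bc, h1, h2⟩ := ih h
    exact ⟨_, .right x h1, .right x h2⟩

lemma Sh.assoc' {a b c bc t : List X} (h1 : Sh b c bc) (h2 : Sh a bc t) :
    ∃ ab, Sh a b ab ∧ Sh ab c t := by
  obtain ⟨ab, h3, h4⟩ := h2.symm.assoc h1.symm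
  exact ⟨ab, h3.symm, h4.symm⟩

lemma Sh.map (f : X → Y) {u v w : List X} (h : Sh u v w) :
    Sh (u.map f) (v.map f) (w.map f) := by
  induction h with
  | nil => exact .nil
  | left a _ ih => exact .left _ ih
  | right a _ ih => exact .right _ ih

lemma Sh.of_map (f : X → Y) {a b c : List Y} (h : Sh a b c) : ∀ {u v : List X},
    a = u.map f → b = v.map f → ∃ w, c = w.map f ∧ Sh u v w := by
  induction h with
  | nil =>
    intro u v h1 h2
    obtain rfl := map_eq_nil_iff.1 h1.symm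
    obtain rfl := map_eq_nil_iff.1 h2.symm
    exact ⟨[], rfl, .nil⟩
  | left x _ ih =>
    intro u v h1 h2
    obtain ⟨y, u', rfl, rfl, h3⟩ := map_eq_cons_iff.1 h1.symm
    obtain ⟨w, rfl, hw⟩ := ih h3.symm h2
    exact ⟨y :: w, rfl, .left y hw⟩
  | right x _ ih =>
    intro u v h1 h2
    obtain ⟨y, v', rfl, rfl, h3⟩ := map_eq_cons_iff.1 h2.symm
    obtain ⟨w, rfl, hw⟩ := ih h1 h3.symm
    exact ⟨y :: w, rfl, .right y hw⟩

lemma Sh.sub {u v w : List X} (h : Sh u v w) : u <+ w := by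
  induction h with
  | nil => exact .slnil
  | left a _ ih => exact ih.cons_cons a
  | right a _ ih => exact ih.cons a

lemma Sh.perm {u v w : List X} (h : Sh u v w) : w ~ u ++ v := by
  induction h with
  | nil => exact .nil
  | left a _ ih => exact ih.cons a
  | right a _ ih => exact (ih.cons a).trans perm_middle.symm

lemma sh_iff {u v w : List X} : Shuffle u v w ↔ Sh u v w := by
  constructor
  · rintro ⟨l, rfl, rfl, rfl⟩
    induction l with
    | nil => exact .nil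
    | cons p l ih => exact (sh_app p.1 p.2).append ih
  · intro h
    induction h with
    | nil => exact ⟨[], rfl, rfl, rfl⟩
    | left a _ ih =>
      obtain ⟨l, rfl, rfl, rfl⟩ := ih
      exact ⟨([a], []) :: l, rfl, rfl, rfl⟩
    | right a _ ih =>
      obtain ⟨l, rfl, rfl, rfl⟩ := ih
      exact ⟨([], [a]) :: l, rfl, rfl, rfl⟩

variable {A : Type}

/-- rectangle for concatenation -/
def RC (S : Set (Language A)) (K : Language A) (u v : List A) : Prop :=
  ∃ L ∈ S, ∃ R ∈ S, u ∈ L ∧ v ∈ R ∧ ∀ u' ∈ L, ∀ v' ∈ R, u' ++ v' ∈ K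

/-- rectangle for shuffle -/
def RS (S : Set (Language A)) (K : Language A) (u v : List A) : Prop :=
  ∃ L ∈ S, ∃ R ∈ S, u ∈ L ∧ v ∈ R ∧ ∀ u' ∈ L, ∀ v' ∈ R, ∃ w, Sh u' v' w ∧ w ∈ K

/-- both decompositions -/
def Ok (S : Set (Language A)) (K : Language A) : Prop :=
  (∀ u v, u ++ v ∈ K → RC S K u v) ∧ ∀ u v w, Sh u v w → w ∈ K → RS S K u v

def Dec (K : Language A) : Prop := ∃ S : Set (Language A), S.Finite ∧ K ∈ S ∧ ∀ L ∈ S, Ok S L

lemma RC.mono {S S' : Set (Language A)} {K K' : Language A} {u v : List A} (h : RC S K u v)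
    (hS : S ⊆ S') (hK : ∀ w ∈ K, w ∈ K') : RC S' K' u v := by
  obtain ⟨L, hL, R, hR, h1, h2, h3⟩ := h
  exact ⟨L, hS hL, R, hS hR, h1, h2, fun u' a v' b => hK _ (h3 u' a v' b)⟩

lemma RS.mono {S S' : Set (Language A)} {K K' : Language A} {u v : List A} (h : RS S K u v)
    (hS : S ⊆ S') (hK : ∀ w ∈ K, w ∈ K') : RS S' K' u v := by
  obtain ⟨L, hL, R, hR, h1, h2, h3⟩ := h
  exact ⟨L, hS hL, R, hS hR, h1, h2, fun u' a v' b =>
    (h3 u' a v' b).imp fun w hw => ⟨hw.1, hK _ hw.2⟩⟩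

lemma RS.symm {S : Set (Language A)} {K : Language A} {u v : List A} (h : RS S K u v) :
    RS S K v u := by
  obtain ⟨L, hL, R, hR, h1, h2, h3⟩ := h
  exact ⟨R, hR, L, hL, h2, h1, fun v' b u' a => (h3 u' a v' b).imp fun w hw => ⟨hw.1.symm, hw.2⟩⟩

lemma Ok.mono {S S' : Set (Language A)} {K : Language A} (h : Ok S K) (hS : S ⊆ S') : Ok S' K :=
  ⟨fun u v a => (h.1 u v a).mono hS fun _ x => x,
    fun u v w a b => (h.2 u v w a b).mono hS fun _ x => x⟩

lemma Dec.final {K : Language A} (h : Dec K) : Decomposable K := by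
  obtain ⟨S, hS, hK, h⟩ := h
  refine ⟨S, hS, hK, fun L hL => ⟨?_, ?_⟩⟩
  · refine ⟨{p ∈ S ×ˢ S | ∀ u ∈ p.1, ∀ v ∈ p.2, u ++ v ∈ L},
      (hS.prod hS).subset (Set.sep_subset _ _), fun p hp => hp.1, fun u v => ⟨fun huv => ?_, ?_⟩⟩
    · obtain ⟨L1, h1, L2, h2, a, b, c⟩ := (h L hL).1 u v huv
      exact ⟨(L1, L2), ⟨⟨h1, h2⟩, c⟩, a, b⟩
    · rintro ⟨p, hp, a, b⟩
      exact hp.2 u a v b
  · refine ⟨{p ∈ S ×ˢ S | ∀ u ∈ p.1, ∀ v ∈ p.2, ∃ w, Sh u v w ∧ w ∈ L},
      (hS.prod hS).subset (Set.sep_subset _ _), fun p hp => hp.1, fun u v => ⟨?_, ?_⟩⟩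
    · rintro ⟨w, hw, hs⟩
      obtain ⟨L1, h1, L2, h2, a, b, c⟩ := (h L hL).2 u v w (sh_iff.1 hs) hw
      exact ⟨(L1, L2), ⟨⟨h1, h2⟩, c⟩, a, b⟩
    · rintro ⟨p, hp, a, b⟩
      obtain ⟨w, h1, h2⟩ := hp.2 u a v b
      exact ⟨w, h2, sh_iff.2 h1⟩

lemma sys_of {D : Set (Language A)} (hD : D.Finite) (h : ∀ L ∈ D, Dec L) :
    ∃ S : Set (Language A), S.Finite ∧ D ⊆ S ∧ ∀ L ∈ S, Ok S L := by
  induction D, hD using Set.Finite.induction_on with
  | empty => exact ⟨∅, Set.finite_empty, le_rfl, by simp⟩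
  | @insert K D _ _ ih =>
    obtain ⟨S, h1, h2, h3⟩ := ih fun L hL => h L (Or.inr hL)
    obtain ⟨S', h4, h5, h6⟩ := h K (Or.inl rfl)
    refine ⟨S ∪ S', h1.union h4, Set.insert_subset (Or.inr h5) (h2.trans Set.subset_union_left),
      ?_⟩
    rintro L (hL | hL)
    · exact (h3 L hL).mono Set.subset_union_left
    · exact (h6 L hL).mono Set.subset_union_right

/-- bootstrapping: a finite family decomposing over itself and decomposable languages -/
lemma boot {D F : Set (Language A)} (hD : D.Finite) (h : ∀ L ∈ D, Dec L) (hF : F.Finite)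
    (hok : ∀ S, D ⊆ S → F ⊆ S → (∀ L ∈ D, Ok S L) → ∀ L ∈ F, Ok S L) : ∀ L ∈ F, Dec L := by
  obtain ⟨S, h1, h2, h3⟩ := sys_of hD h
  intro L hL
  refine ⟨S ∪ F, h1.union hF, Or.inr hL, ?_⟩
  rintro K (hK | hK)
  · exact (h3 K hK).mono Set.subset_union_left
  · exact hok _ (h2.trans Set.subset_union_left) Set.subset_union_right
      (fun L hL => (h3 L (h2 hL)).mono Set.subset_union_left) K hK

lemma dec_union {T : Set (Language A)} (hT : T.Finite) (h : ∀ L ∈ T, Dec L) {K : Language A}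
    (hK : ∀ w, w ∈ K ↔ ∃ P ∈ T, w ∈ P) : Dec K := by
  refine boot hT h (Set.finite_singleton K) ?_ K rfl
  rintro S - - hS _ rfl
  refine ⟨fun u v a => ?_, fun u v w a b => ?_⟩
  · obtain ⟨P, hP, c⟩ := (hK _).1 a
    exact ((hS P hP).1 u v c).mono le_rfl fun w hw => (hK w).2 ⟨P, hP, hw⟩
  · obtain ⟨P, hP, c⟩ := (hK _).1 b
    exact ((hS P hP).2 u v w a c).mono le_rfl fun w hw => (hK w).2 ⟨P, hP, hw⟩

lemma Dec.mul {K K' : Language A} (h : Dec K) (h' : Dec K') : Dec (K * K') := by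
  obtain ⟨S, h1, h2, h3⟩ := sys_of ((Set.finite_singleton K').insert K)
    (by rintro L (rfl | rfl) <;> assumption)
  refine ⟨S ∪ Set.image2 (· * ·) S S, h1.union (h1.image2 _ h1),
    Or.inr ⟨K, h2 (by simp), K', h2 (by simp), rfl⟩, ?_⟩
  rintro _ (hL | ⟨L, hL, R, hR, rfl⟩)
  · exact (h3 _ hL).mono Set.subset_union_left
  refine ⟨fun u v a => ?_, fun u v w a b => ?_⟩
  · obtain ⟨x, hx, y, hy, e⟩ := Language.mem_mul.1 a
    rcases append_eq_append_iff.1 e with ⟨c, rfl, rfl⟩ | ⟨c, rfl, rfl⟩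
    · obtain ⟨L1, a1, L2, a2, b1, b2, b3⟩ := (h3 R hR).1 _ _ hy
      refine ⟨_, Or.inr ⟨L, hL, L1, a1, rfl⟩, L2, Or.inl a2, Language.append_mem_mul hx b1, b2, ?_⟩
      intro u' hu v' hv
      obtain ⟨x', hx', y', hy', rfl⟩ := Language.mem_mul.1 hu
      rw [append_assoc]
      exact Language.append_mem_mul hx' (b3 _ hy' _ hv)
    · obtain ⟨L1, a1, L2, a2, b1, b2, b3⟩ := (h3 L hL).1 _ _ hx
      refine ⟨L1, Or.inl a1, _, Or.inr ⟨L2, a2, R, hR, rfl⟩, b1, Language.append_mem_mul b2 hy, ?_⟩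
      intro u' hu v' hv
      obtain ⟨x', hx', y', hy', rfl⟩ := Language.mem_mul.1 hv
      rw [← append_assoc]
      exact Language.append_mem_mul (b3 _ hu _ hx') hy'
  · obtain ⟨x, hx, y, hy, rfl⟩ := Language.mem_mul.1 b
    obtain ⟨u1, u2, v1, v2, rfl, rfl, s1, s2⟩ := a.split
    obtain ⟨L1, a1, L2, a2, b1, b2, b3⟩ := (h3 L hL).2 _ _ _ s1 hx
    obtain ⟨R1, c1, R2, c2, d1, d2, d3⟩ := (h3 R hR).2 _ _ _ s2 hy
    refine ⟨_, Or.inr ⟨L1, a1, R1, c1, rfl⟩, _, Or.inr ⟨L2, a2, R2, c2, rfl⟩,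
      Language.append_mem_mul b1 d1, Language.append_mem_mul b2 d2, ?_⟩
    intro u' hu v' hv
    obtain ⟨x1, hx1, y1, hy1, rfl⟩ := Language.mem_mul.1 hu
    obtain ⟨x2, hx2, y2, hy2, rfl⟩ := Language.mem_mul.1 hv
    obtain ⟨w1, e1, f1⟩ := b3 _ hx1 _ hx2
    obtain ⟨w2, e2, f2⟩ := d3 _ hy1 _ hy2
    exact ⟨_, e1.append e2, Language.append_mem_mul f1 f2⟩

lemma dec_single (y : List A) : Dec ({y} : Language A) := by
  refine ⟨(fun s => ({s} : Language A)) '' {s | s <+ y},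
    ((finite_toSet y.sublists).subset fun s hs => mem_sublists.2 hs).image _,
    ⟨y, Sublist.refl _, rfl⟩, ?_⟩
  rintro _ ⟨s, hs, rfl⟩
  refine ⟨fun u v a => ?_, fun u v w a b => ?_⟩
  · have e : u ++ v = s := a
    refine ⟨_, ⟨u, (e ▸ sublist_append_left u v).trans hs, rfl⟩, _,
      ⟨v, (e ▸ sublist_append_right u v).trans hs, rfl⟩, rfl, rfl, ?_⟩
    rintro _ rfl _ rfl; exact a
  · have e : w = s := b
    refine ⟨_, ⟨u, (e ▸ a.sub).trans hs, rfl⟩, _, ⟨v, (e ▸ a.symm.sub).trans hs, rfl⟩, rfl, rfl, ?_⟩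
    rintro _ rfl _ rfl; exact ⟨w, a, b⟩

/-- products of at most `n` members of `s` -/
inductive PL (s : Set (Language A)) : ℕ → Language A → Prop
  | one (n : ℕ) : PL s n 1
  | mul {x P : Language A} {n : ℕ} : x ∈ s → PL s n P → PL s (n + 1) (x * P)

lemma PL.mono {s : Set (Language A)} {n : ℕ} {P : Language A} (h : PL s n P) :
    ∀ {m}, n ≤ m → PL s m P := by
  induction h with
  | one n => exact fun _ => .one _
  | mul hx _ ih =>
    intro m hm
    obtain ⟨k, rfl⟩ : ∃ k, m = k + 1 := ⟨m - 1, by omega⟩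
    exact .mul hx (ih (by omega))

lemma PL.app {s : Set (Language A)} {n m : ℕ} {P Q : Language A} (h : PL s n P) (h' : PL s m Q) :
    PL s (n + m) (P * Q) := by
  induction h with
  | one n => rw [one_mul]; exact h'.mono (by omega)
  | mul hx _ ih => rw [mul_assoc, Nat.add_right_comm]; exact .mul hx ih

lemma PL.single {s : Set (Language A)} {x : Language A} (h : x ∈ s) : PL s 1 x := by
  simpa using PL.mul h (PL.one 0)

lemma PL.fin {s : Set (Language A)} (hs : s.Finite) : ∀ n, {P | PL s n P}.Finite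
  | 0 => (Set.finite_singleton 1).subset fun P hP => by cases hP; rfl
  | n + 1 => ((hs.image2 (· * ·) (PL.fin hs n)).insert 1).subset fun P hP => by
      cases hP with
      | one => exact Or.inl rfl
      | mul hx h => exact Or.inr ⟨_, hx, _, h, rfl⟩

lemma PL.dec {s : Set (Language A)} (hs : ∀ x ∈ s, Dec x) {n : ℕ} {P : Language A}
    (h : PL s n P) : Dec P := by
  induction h with
  | one n => exact dec_single []
  | mul hx _ ih => exact (hs _ hx).mul ih

end Pool.Agent.H37.Gl
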