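import Pool.Agent.H37.Gl1

set_option autoImplicit false

namespace Pool.Agent.H37.Gl

open List

variable {A X G : Type} [Group G]

/-- value of a word -/
def vl (ν : X → G) (u : List X) : G := (u.map ν).prod

@[simp] lemma vl_nil (ν : X → G) : vl ν [] = 1 := rfl
@[simp] lemma vl_cons (ν : X → G) (a : X) (u : List X) : vl ν (a :: u) = ν a * vl ν u := by
  simp [vl]
@[simp] lemma vl_app (ν : X → G) (u v : List X) : vl ν (u ++ v) = vl ν u * vl ν v := by
  simp [vl]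
@[simp] lemma vl_inl (π : A → G) (u : List A) :
    vl (Sum.elim π id) (u.map Sum.inl) = vl π u := by
  induction u <;> simp [*]
@[simp] lemma vl_inr (π : A → G) (k : List G) :
    vl (Sum.elim π id) (k.map Sum.inr) = k.prod := by
  induction k <;> simp [*]

/-- bound on the number of alternations -/
noncomputable def CC (G : Type) : ℕ := 2 * Nat.card (G × G × G)

def tr (ν : X → G) (l : List (List X × List X)) : G × G × G :=
  (vl ν (l.map Prod.fst).flatten, vl ν (l.map Prod.snd).flatten,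
    vl ν (l.map fun p => p.1 ++ p.2).flatten)

lemma tr_app (ν : X → G) (l l' : List (List X × List X)) : tr ν (l ++ l') = tr ν l * tr ν l' := by
  simp [tr]

lemma alt_pairs [Finite G] (ν : X → G) : ∀ (n : ℕ) (l : List (List X × List X)), l.length = n →
    ∃ l' : List (List X × List X), l'.length ≤ CC G ∧
      (l'.map Prod.fst).flatten = (l.map Prod.fst).flatten ∧
      (l'.map Prod.snd).flatten = (l.map Prod.snd).flatten ∧
      vl ν (l'.map fun p => p.1 ++ p.2).flatten = vl ν (l.map fun p => p.1 ++ p.2).flatten := by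
  intro n
  induction n using Nat.strong_induction_on with
  | _ n ih =>
  intro l hl
  by_cases hc : l.length ≤ CC G
  · exact ⟨l, hc, rfl, rfl, rfl⟩
  obtain ⟨i, j, hij, hj, e⟩ : ∃ i j : ℕ, i < j ∧ j ≤ Nat.card (G × G × G) ∧
      tr ν (l.take (2 * i)) = tr ν (l.take (2 * j)) := by
    haveI := Fintype.ofFinite (G × G × G)
    obtain ⟨i, j, h1, h2⟩ := Fintype.exists_ne_map_eq_of_card_lt
      (fun i : Fin (Nat.card (G × G × G) + 1) => tr ν (l.take (2 * i)))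
      (by simp only [Fintype.card_fin, Nat.card_eq_fintype_card]; omega)
    rcases lt_or_gt_of_ne h1 with h | h
    · exact ⟨i, j, h, Nat.le_of_lt_succ j.2, h2⟩
    · exact ⟨j, i, h, Nat.le_of_lt_succ i.2, h2.symm⟩
  obtain ⟨p, m, s, rfl, hp, hm⟩ : ∃ p m s, l = p ++ m ++ s ∧ tr ν m = 1 ∧ 2 ≤ m.length := by
    have e1 : l.take (2 * j) = l.take (2 * i) ++ (l.take (2 * j)).drop (2 * i) := by
      conv_lhs => rw [← take_append_drop (2 * i) (l.take (2 * j)), take_take,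
        min_eq_left (by omega)]
    refine ⟨l.take (2 * i), (l.take (2 * j)).drop (2 * i), l.drop (2 * j), ?_, ?_, ?_⟩
    · rw [← e1, take_append_drop]
    · rw [e1, tr_app] at e
      exact (left_eq_mul.1 e)
    · unfold CC at hc
      simp only [length_drop, length_take]; omega
  obtain ⟨l', a1, a2, a3, a4⟩ := ih _ (by rw [← hl]; simp; omega)
    (p ++ [((m.map Prod.fst).flatten, (m.map Prod.snd).flatten)] ++ s) rfl
  simp only [tr, Prod.mk_eq_one] at hp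
  refine ⟨l', a1, by simpa using a2, by simpa using a3, ?_⟩
  rw [a4]
  simp only [map_append, flatten_append, vl_app, hp.2.2, map_cons, map_nil, flatten_cons,
    flatten_nil, hp.1, hp.2.1, vl_nil, mul_one]

lemma alt [Finite G] (ν : X → G) (ι : G → X) (hι : ∀ g, ν (ι g) = g) {a r t : List X}
    (h : Sh a r t) : ∃ bs : List (List X), bs.length ≤ CC G ∧ bs.flatten = r ∧
      ∃ t', Sh a ((bs.map (vl ν)).map ι) t' ∧ vl ν t' = vl ν t := by
  obtain ⟨l, rfl, rfl, rfl⟩ := sh_iff.2 h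
  obtain ⟨l', a1, a2, a3, a4⟩ := alt_pairs ν _ l rfl
  refine ⟨l'.map Prod.snd, by simpa using a1, a3, ?_⟩
  rw [← a2, ← a4]
  clear a1 a2 a3 a4 h
  induction l' with
  | nil => exact ⟨[], .nil, rfl⟩
  | cons p l' ih =>
    obtain ⟨t', h1, h2⟩ := ih
    exact ⟨_, (sh_app p.1 [ι (vl ν p.2)]).append h1, by simp [h2, hι, mul_assoc]⟩

lemma expand (ν : X → G) (ι : G → X) (hι : ∀ g, ν (ι g) = g) {a r t : List X} (h : Sh a r t) :
    ∀ bs : List (List X), r = (bs.map (vl ν)).map ι →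
      ∃ t', Sh a bs.flatten t' ∧ vl ν t' = vl ν t := by
  induction h with
  | nil => intro bs h; cases bs <;> simp at h; exact ⟨[], .nil, rfl⟩
  | left x _ ih =>
    intro bs h
    obtain ⟨t', h1, h2⟩ := ih bs h
    exact ⟨_, .left x h1, by simp [h2]⟩
  | right x _ ih =>
    intro bs h
    cases bs with
    | nil => simp at h
    | cons b bs =>
      simp only [map_cons, cons.injEq] at h
      obtain ⟨t', h1, h2⟩ := ih bs h.2
      exact ⟨_, (sh_r b).append h1, by simp [h2, h.1, hι]⟩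

lemma Sh.split_left {u v w : List X} (h : Sh u v w) : ∀ x y, u = x ++ y →
    ∃ v1 v2 w1 w2, v = v1 ++ v2 ∧ w = w1 ++ w2 ∧ Sh x v1 w1 ∧ Sh y v2 w2 := by
  induction h with
  | nil =>
    intro x y h
    obtain ⟨rfl, rfl⟩ := nil_eq_append_iff.1 h
    exact ⟨[], [], [], [], rfl, rfl, .nil, .nil⟩
  | left a h ih =>
    intro x y e
    cases x with
    | nil => obtain rfl : _ = y := e; exact ⟨[], _, [], _, rfl, rfl, .nil, .left a h⟩
    | cons b x =>
      obtain ⟨rfl, e'⟩ := cons.inj e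
      obtain ⟨v1, v2, w1, w2, rfl, rfl, h1, h2⟩ := ih x y e'
      exact ⟨v1, v2, a :: w1, w2, rfl, rfl, .left a h1, h2⟩
  | right a _ ih =>
    intro x y e
    obtain ⟨v1, v2, w1, w2, rfl, rfl, h1, h2⟩ := ih x y e
    exact ⟨a :: v1, v2, a :: w1, w2, rfl, rfl, .right a h1, h2⟩

lemma Sh.first {u v w : List X} (h : Sh u v w) : ∀ c v', v = c :: v' →
    ∃ u0 u1 w1, u = u0 ++ u1 ∧ w = u0 ++ c :: w1 ∧ Sh u1 v' w1 := by
  induction h with
  | nil => intro c v' h; simp at h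
  | left a _ ih =>
    intro c v' e
    obtain ⟨u0, u1, w1, rfl, rfl, h⟩ := ih c v' e
    exact ⟨a :: u0, u1, w1, rfl, rfl, h⟩
  | right a h _ =>
    intro c v' e
    obtain ⟨rfl, rfl⟩ := cons.inj e
    exact ⟨[], _, _, rfl, rfl, h⟩

/-- words over `B` -/
def In (B : Finset A) (u : List A) : Prop := ∀ a ∈ u, a ∈ B

@[simp] lemma in_app {B : Finset A} {u v : List A} : In B (u ++ v) ↔ In B u ∧ In B v := by
  simp [In, or_imp, forall_and]

lemma in_nil (B : Finset A) : In B [] := by simp [In]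

lemma Sh.in_iff {B : Finset A} {u v w : List A} (h : Sh u v w) : In B w ↔ In B u ∧ In B v := by
  rw [← in_app]; simp only [In, h.perm.mem_iff]

variable (π : A → G) (B : Finset A)

def K (g : G) : Language A := {u | In B u ∧ vl π u = g}

def F (g : G) (k : List G) : Language A :=
  {u | In B u ∧ ∃ t, Sh (u.map Sum.inl) (k.map Sum.inr) t ∧ vl (Sum.elim π id) t = g}

def Items : Set (Language A) := {L | ∃ g k, k.length ≤ CC G ∧ L = F π B g k}

lemma items_fin [Finite G] : (Items π B).Finite :=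
  (((Set.finite_univ (α := G)).prod (finite_length_le G (CC G))).image
    fun p => F π B p.1 p.2).subset (by
      rintro _ ⟨g, k, h, rfl⟩; exact ⟨(g, k), ⟨trivial, h⟩, rfl⟩)

lemma F_nil (g : G) : F π B g [] = K π B g := by
  ext u
  refine and_congr_right fun _ => ⟨?_, fun h => ⟨_, sh_l _, by simpa using h⟩⟩
  rintro ⟨t, h1, h2⟩
  rw [h1.eq_of_nil rfl] at h2
  simpa using h2

variable {π B}

lemma blocks : ∀ (bs : List (List (A ⊕ G))) (y : List A) (k : List G), In B y →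
    k.length ≤ CC G → Sh (y.map Sum.inl) (k.map Sum.inr) bs.flatten →
    ∃ P, PL (Items π B) bs.length P ∧ y ∈ P ∧ ∀ y' ∈ P, In B y' ∧
      ∃ bs' : List (List (A ⊕ G)), bs'.map (vl (Sum.elim π id)) = bs.map (vl (Sum.elim π id)) ∧
        Sh (y'.map Sum.inl) (k.map Sum.inr) bs'.flatten
  | [], y, k, _, _, h => by
    have h1 : y = [] := by simpa using h.sub
    have h2 : k = [] := by simpa using h.symm.sub
    subst h1 h2
    refine ⟨1, .one _, rfl, ?_⟩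
    rintro _ rfl
    exact ⟨in_nil B, [], rfl, .nil⟩
  | b :: bs, y, k, hy, hk, h => by
    obtain ⟨u1, u2, v1, v2, e1, e2, h1, h2⟩ := Sh.split (x := b) h
    obtain ⟨y1, y2, rfl, rfl, rfl⟩ := map_eq_append_iff.1 e1
    obtain ⟨k1, k2, rfl, rfl, rfl⟩ := map_eq_append_iff.1 e2
    simp only [in_app, length_append] at hy hk
    obtain ⟨P, a1, a2, a3⟩ := blocks bs y2 k2 hy.2 (by omega) h2
    refine ⟨F π B (vl (Sum.elim π id) b) k1 * P, .mul ⟨_, _, by omega, rfl⟩ a1,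
      Language.append_mem_mul ⟨hy.1, b, h1, rfl⟩ a2, fun y' hy' => ?_⟩
    obtain ⟨z1, ⟨i1, b', c1, c2⟩, z2, hz, rfl⟩ := Language.mem_mul.1 hy'
    obtain ⟨i2, bs', d1, d2⟩ := a3 z2 hz
    exact ⟨in_app.2 ⟨i1, i2⟩, b' :: bs', by simp [c2, d1], by simpa using c1.append d2⟩

lemma par1 [Finite G] {L : Language A} (hL : L ∈ Items π B) {u v w : List A} (hw : w ∈ L)
    (h : Sh u v w) : ∃ L' ∈ Items π B, ∃ P, PL (Items π B) (CC G) P ∧ u ∈ L' ∧ v ∈ P ∧
      ∀ u' ∈ L', ∀ v' ∈ P, ∃ w', Sh u' v' w' ∧ w' ∈ L := by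
  obtain ⟨g, k, hk, rfl⟩ := hL
  obtain ⟨iw, t, h1, h2⟩ := hw
  obtain ⟨r, h3, h4⟩ := h1.assoc (h.map Sum.inl)
  obtain ⟨bs, a1, rfl, t', a2, a3⟩ := alt (Sum.elim π id) Sum.inr (fun _ => rfl) h4
  obtain ⟨iu, iv⟩ := h.in_iff.1 iw
  obtain ⟨P, b1, b2, b3⟩ := blocks (π := π) bs v k iv hk h3
  refine ⟨F π B g (bs.map (vl (Sum.elim π id))), ⟨_, _, by simpa using a1, rfl⟩, P, b1.mono a1,
    ⟨iu, t', a2, a3.trans h2⟩, b2, ?_⟩
  rintro u' ⟨iu', s, c1, c2⟩ v' hv'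
  obtain ⟨iv', bs', d1, d2⟩ := b3 v' hv'
  obtain ⟨s', e1, e2⟩ := expand (Sum.elim π id) Sum.inr (fun _ => rfl) c1 bs' (by rw [d1])
  obtain ⟨w', f1, f2⟩ := d2.assoc' e1
  obtain ⟨w', rfl, f3⟩ := f1.of_map Sum.inl rfl rfl
  exact ⟨w', f3, f3.in_iff.2 ⟨iu', iv'⟩, s', f2, e2.trans c2⟩

lemma seq1 {L : Language A} (hL : L ∈ Items π B) {x y : List A} (h : x ++ y ∈ L) :
    ∃ L1 ∈ Items π B, ∃ L2 ∈ Items π B, x ∈ L1 ∧ y ∈ L2 ∧ ∀ x' ∈ L1, ∀ y' ∈ L2, x' ++ y' ∈ L := by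
  obtain ⟨g, k, hk, rfl⟩ := hL
  obtain ⟨iw, t, h1, h2⟩ := h
  obtain ⟨v1, v2, t1, t2, e, rfl, a1, a2⟩ := h1.split_left _ _ map_append
  obtain ⟨k1, k2, rfl, rfl, rfl⟩ := map_eq_append_iff.1 e
  simp only [in_app, length_append] at iw hk
  refine ⟨_, ⟨_, k1, by omega, rfl⟩, _, ⟨_, k2, by omega, rfl⟩, ⟨iw.1, t1, a1, rfl⟩,
    ⟨iw.2, t2, a2, rfl⟩, ?_⟩
  rintro x' ⟨i1, s1, b1, b2⟩ y' ⟨i2, s2, c1, c2⟩
  exact ⟨in_app.2 ⟨i1, i2⟩, s1 ++ s2, by simpa using b1.append c1, by simp [← h2, b2, c2]⟩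

lemma par [Finite G] {n : ℕ} {P : Language A} (hP : PL (Items π B) n P) :
    ∀ {u v w : List A}, w ∈ P → Sh u v w →
    ∃ P1 P2, PL (Items π B) n P1 ∧ PL (Items π B) (n * CC G) P2 ∧ u ∈ P1 ∧ v ∈ P2 ∧
      ∀ u' ∈ P1, ∀ v' ∈ P2, ∃ w', Sh u' v' w' ∧ w' ∈ P := by
  induction hP with
  | one n =>
    rintro u v _ rfl h
    cases h
    refine ⟨1, 1, .one _, .one _, rfl, rfl, ?_⟩
    rintro _ rfl _ rfl
    exact ⟨[], .nil, rfl⟩
  | mul hx _ ih =>
    intro u v w hw h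
    obtain ⟨w1, h1, w2, h2, rfl⟩ := Language.mem_mul.1 hw
    obtain ⟨u1, u2, v1, v2, rfl, rfl, s1, s2⟩ := h.split
    obtain ⟨L', a1, Q, a2, a3, a4, a5⟩ := par1 hx h1 s1
    obtain ⟨P1, P2, b1, b2, b3, b4, b5⟩ := ih h2 s2
    refine ⟨L' * P1, Q * P2, .mul a1 b1, (a2.app b2).mono (by rw [add_mul]; omega),
      Language.append_mem_mul a3 b3, Language.append_mem_mul a4 b4, fun u' hu v' hv => ?_⟩
    obtain ⟨x1, hx1, y1, hy1, rfl⟩ := Language.mem_mul.1 hu
    obtain ⟨x2, hx2, y2, hy2, rfl⟩ := Language.mem_mul.1 hv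
    obtain ⟨w1, e1, f1⟩ := a5 _ hx1 _ hx2
    obtain ⟨w2, e2, f2⟩ := b5 _ hy1 _ hy2
    exact ⟨_, e1.append e2, Language.append_mem_mul f1 f2⟩

lemma seq {n : ℕ} {P : Language A} (hP : PL (Items π B) n P) : ∀ {x y : List A}, x ++ y ∈ P →
    ∃ P1 P2, PL (Items π B) n P1 ∧ PL (Items π B) n P2 ∧ x ∈ P1 ∧ y ∈ P2 ∧
      ∀ x' ∈ P1, ∀ y' ∈ P2, x' ++ y' ∈ P := by
  induction hP with
  | one n =>
    intro x y h
    obtain ⟨rfl, rfl⟩ := append_eq_nil_iff.1 h
    refine ⟨1, 1, .one _, .one _, rfl, rfl, ?_⟩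
    rintro _ rfl _ rfl
    rfl
  | @mul L P n hx hP ih =>
    intro x y hw
    obtain ⟨w1, h1, w2, h2, e⟩ := Language.mem_mul.1 hw
    rcases append_eq_append_iff.1 e with ⟨c, rfl, rfl⟩ | ⟨c, rfl, rfl⟩
    · obtain ⟨P1, P2, b1, b2, b3, b4, b5⟩ := ih h2
      refine ⟨L * P1, P2, .mul hx b1, b2.mono (by omega), Language.append_mem_mul h1 b3, b4, ?_⟩
      intro u' hu v' hv
      obtain ⟨x', hx', y', hy', rfl⟩ := Language.mem_mul.1 hu
      rw [append_assoc]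
      exact Language.append_mem_mul hx' (b5 _ hy' _ hv)
    · obtain ⟨L1, a1, L2, a2, b1, b2, b3⟩ := seq1 hx h1
      refine ⟨L1, L2 * P, (PL.single a1).mono (by omega), .mul a2 hP, b1,
        Language.append_mem_mul b2 h2, ?_⟩
      intro u' hu v' hv
      obtain ⟨x', hx', y', hy', rfl⟩ := Language.mem_mul.1 hv
      rw [← append_assoc]
      exact Language.append_mem_mul (b3 _ hu _ hx') hy'

variable {Q : Type} [CommGroup Q] (q : G →* Q)

lemma Sh.q_vl (ν : X → G) {u v w : List X} (h : Sh u v w) :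
    q (vl ν w) = q (vl ν u) * q (vl ν v) := by
  induction h with
  | nil => simp
  | left a _ ih => simp [ih, mul_assoc]
  | right a _ ih => simp [ih, mul_left_comm]

lemma F_q {g : G} {k : List G} {u : List A} (h : u ∈ F π B g k) :
    q (vl π u) = q g / q k.prod := by
  obtain ⟨-, t, h1, rfl⟩ := h
  rw [h1.q_vl q]; simp

lemma hom {n : ℕ} {P : Language A} (hP : PL (Items π B) n P) :
    ∀ u ∈ P, In B u ∧ ∀ u' ∈ P, q (vl π u') = q (vl π u) := by
  induction hP with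
  | one n => rintro _ rfl; exact ⟨in_nil B, by rintro _ rfl; rfl⟩
  | mul hx _ ih =>
    intro u hu
    obtain ⟨g, k, -, rfl⟩ := hx
    obtain ⟨x, hx, y, hy, rfl⟩ := Language.mem_mul.1 hu
    refine ⟨in_app.2 ⟨hx.1, (ih y hy).1⟩, fun u' hu' => ?_⟩
    obtain ⟨x', hx', y', hy', rfl⟩ := Language.mem_mul.1 hu'
    simp [F_q q hx, F_q q hx', (ih y hy).2 y' hy']

end Pool.Agent.H37.Gl
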