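import Pool.Agent.H37.Gl2

set_option autoImplicit false

namespace Pool.Agent.H37.Gl

open List

variable {A G : Type} [Group G]

/-- `n` rounds, each a word using all letters of `B` followed by the factor `z` -/
def Fr (B : Finset A) (z : List A) : ℕ → List A → Prop
  | 0, w => In B w
  | n + 1, w => ∃ d w', w = d ++ z ++ w' ∧ In B d ∧ (∀ a ∈ B, a ∈ d) ∧ Fr B z n w'

variable {π : A → G} {B : Finset A}

lemma Fr.in {z : List A} (hz : In B z) : ∀ {n w}, Fr B z n w → In B w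
  | 0, _, h => h
  | _ + 1, _, ⟨_, _, e, h1, _, h2⟩ => by simp [e, h1, hz, h2.in hz]

lemma Fr.app_r {z v : List A} (hv : In B v) : ∀ {n w}, Fr B z n w → Fr B z n (w ++ v)
  | 0, _, h => in_app.2 ⟨h, hv⟩
  | _ + 1, _, ⟨d, w', e, h1, h2, h3⟩ => ⟨d, w' ++ v, by simp [e], h1, h2, h3.app_r hv⟩

lemma Fr.app_l {z v : List A} (hv : In B v) : ∀ {n w}, Fr B z n w → Fr B z n (v ++ w)
  | 0, _, h => in_app.2 ⟨hv, h⟩
  | _ + 1, _, ⟨d, w', e, h1, h2, h3⟩ => ⟨v ++ d, w', by simp [e], in_app.2 ⟨hv, h1⟩,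
      fun a ha => mem_append_right _ (h2 a ha), h3⟩

lemma Fr.ar {z : List A} (hz : In B z) : ∀ {n w}, Fr B z n w → Fr B [] n w
  | 0, _, h => h
  | _ + 1, _, ⟨d, w', e, h1, h2, h3⟩ => ⟨d, z ++ w', by simp [e], h1, h2, (h3.ar hz).app_l hz⟩

lemma Fr.up : ∀ {n} {u w : List A}, Fr B [] n u → u <+ w → In B w → Fr B [] n w
  | 0, _, _, _, _, h => h
  | _ + 1, _, _, ⟨d, u', e, _, h2, h3⟩, hs, hw => by
    rw [e, append_nil] at hs
    obtain ⟨w1, w2, rfl, s1, s2⟩ := append_sublist_iff.1 hs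
    exact ⟨w1, w2, by simp, (in_app.1 hw).1, fun a ha => s1.subset (h2 a ha),
      h3.up s2 (in_app.1 hw).2⟩

lemma Fr.wit : ∀ {n} {u : List A}, Fr B [] n u →
    ∃ s, s <+ u ∧ s.length ≤ n * B.card ∧ Fr B [] n s
  | 0, _, _ => ⟨[], nil_sublist _, by simp, in_nil B⟩
  | n + 1, _, ⟨d, u', e, h1, h2, h3⟩ => by
    classical
    obtain ⟨s, a1, a2, a3⟩ := h3.wit
    have : d.dedup.length ≤ B.card := by
      rw [← toFinset_card_of_nodup (nodup_dedup d)]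
      exact Finset.card_le_card fun a ha => h1 a (by simpa using ha)
    refine ⟨d.dedup ++ s, by simpa [e] using (dedup_sublist d).append a1,
      by rw [length_append, add_mul]; omega, d.dedup, s, by simp,
      fun a ha => h1 a (mem_dedup.1 ha), fun a ha => mem_dedup.2 (h2 a ha), a3⟩

lemma Fr.step {z : List A} {c : A} (hc : c ∈ B) : ∀ {n} {u v : List A}, Fr B z n u →
    Fr B [] n v → ∃ w, Sh u v w ∧ Fr B (z ++ [c]) n w
  | 0, u, v, h1, h2 => ⟨_, sh_app u v, in_app.2 ⟨h1, h2⟩⟩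
  | _ + 1, _, _, ⟨d, u', e, h1, h2, h3⟩, ⟨d', v', e', i1, i2, i3⟩ => by
    obtain ⟨p, p', rfl⟩ := append_of_mem (i2 c hc)
    obtain ⟨w, a1, a2⟩ := h3.step hc i3
    have i4 : In B p ∧ In B p' := ⟨(in_app.1 i1).1, fun a ha => i1 a (by simp [ha])⟩
    refine ⟨p ++ (d ++ z ++ (c :: p' ++ w)), ?_, p ++ d, p' ++ w, by simp,
      in_app.2 ⟨i4.1, h1⟩, fun a ha => mem_append_right _ (h2 a ha), a2.app_l i4.2⟩
    have := (sh_r p).append ((sh_l (d ++ z)).append ((sh_r (c :: p')).append a1))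
    simpa [e, e'] using this

variable (π B) in
/-- group languages over smaller alphabets, and letters -/
def Low : Set (Language A) :=
  {L | (∃ B' g, B' ⊂ B ∧ L = K π B' g) ∨ ∃ a ∈ B, L = {[a]}}

lemma low_fin [Finite G] : (Low π B).Finite := by
  classical
  refine ((((B.powerset.finite_toSet.prod (Set.finite_univ (α := G))).image
    fun p => K π p.1 p.2)).union (B.finite_toSet.image fun a => ({[a]} : Language A))).subset ?_
  rintro _ (⟨B', g, h, rfl⟩ | ⟨a, h, rfl⟩)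
  · exact Or.inl ⟨(B', g), ⟨by simpa using h.1, trivial⟩, rfl⟩
  · exact Or.inr ⟨a, h, rfl⟩

lemma first_pre {P : List A → Prop} (h0 : ¬ P []) (y : List A) : P y →
    ∃ p a y', y = p ++ a :: y' ∧ ¬ P p ∧ P (p ++ [a]) := by
  induction y using List.reverseRecOn with
  | nil => exact fun h => (h0 h).elim
  | append_singleton y a ih =>
    intro h
    by_cases hy : P y
    · obtain ⟨p, b, y', rfl, h1, h2⟩ := ih hy
      exact ⟨p, b, y' ++ [a], by simp, h1, h2⟩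
    · exact ⟨y, a, [], rfl, hy, h⟩

lemma low_K {y : List A} (hy : In B y) (h : ¬ ∀ a ∈ B, a ∈ y) :
    ∃ L ∈ Low π B, y ∈ L ∧ ∀ y' ∈ L, In B y' ∧ vl π y' = vl π y := by
  classical
  have s : y.toFinset ⊆ B := fun a ha => hy a (by simpa using ha)
  exact ⟨K π y.toFinset (vl π y), Or.inl ⟨_, _, ⟨s, fun h' => h fun a ha => by
    simpa using h' ha⟩, rfl⟩, ⟨fun a ha => by simpa using ha, rfl⟩,
    fun y' h' => ⟨fun a ha => s (h'.1 a ha), h'.2⟩⟩

lemma low0 (hB : B.Nonempty) : ∀ (n : ℕ) (y : List A), In B y → ¬ Fr B [] n y →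
    ∃ R, PL (Low π B) (2 * n) R ∧ y ∈ R ∧ ∀ y' ∈ R, In B y' ∧ vl π y' = vl π y
  | 0, _, h, h' => (h' h).elim
  | n + 1, y, h, h' => by
    by_cases hy : ∀ a ∈ B, a ∈ y
    · obtain ⟨p, a, y', rfl, h1, h2⟩ := first_pre (P := fun y => ∀ a ∈ B, a ∈ y)
        (by obtain ⟨b, hb⟩ := hB; intro h; simpa using h b hb) y hy
      have ha : a ∈ B := h a (by simp)
      have i1 : In B p := (in_app.1 h).1
      have i2 : In B y' := fun b hb => h b (by simp [hb])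
      obtain ⟨L, a1, a2, a3⟩ := low_K (π := π) i1 h1
      obtain ⟨R, b1, b2, b3⟩ := low0 hB n y' i2 fun hf => h' ⟨p ++ [a], y', by simp,
        in_app.2 ⟨i1, by simpa [In] using ha⟩, h2, hf⟩
      refine ⟨L * ({[a]} * R), .mul a1 (.mul (Or.inr ⟨a, ha, rfl⟩) b1),
        Language.append_mem_mul a2 (Language.append_mem_mul (a := [a]) rfl b2), fun z hz => ?_⟩
      obtain ⟨z1, c1, z2, c2, rfl⟩ := Language.mem_mul.1 hz
      obtain ⟨_, rfl, z3, c3, rfl⟩ := Language.mem_mul.1 c2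
      exact ⟨in_app.2 ⟨(a3 _ c1).1, in_app.2 ⟨by simpa [In] using ha, (b3 _ c3).1⟩⟩,
        by simp [(a3 _ c1).2, (b3 _ c3).2]⟩
    · obtain ⟨L, a1, a2, a3⟩ := low_K (π := π) h hy
      exact ⟨L, (PL.single a1).mono (by omega), a2, a3⟩

lemma low1 (hB : B.Nonempty) (n : ℕ) : ∀ (k : List G) (g : G) (y : List A), y ∈ F π B g k →
    ¬ Fr B [] n y → ∃ R, PL (Low π B) ((k.length + 1) * (2 * n)) R ∧ y ∈ R ∧
      ∀ y' ∈ R, y' ∈ F π B g k
  | [], g, y, h, h' => by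
    rw [F_nil] at h ⊢
    obtain ⟨R, a1, a2, a3⟩ := low0 (π := π) hB n y h.1 h'
    exact ⟨R, by simpa using a1, a2, fun y' hy => ⟨(a3 _ hy).1, (a3 _ hy).2.trans h.2⟩⟩
  | c :: k, g, y, ⟨iy, t, h1, h2⟩, h' => by
    obtain ⟨u0, u1, t1, e, rfl, h3⟩ := h1.first _ _ map_cons
    obtain ⟨y0, y1, rfl, rfl, rfl⟩ := map_eq_append_iff.1 e
    obtain ⟨R0, a1, a2, a3⟩ := low0 (π := π) hB n y0 (in_app.1 iy).1
      fun hf => h' (hf.up (sublist_append_left _ _) iy)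
    obtain ⟨R1, b1, b2, b3⟩ := low1 hB n k _ y1 ⟨(in_app.1 iy).2, t1, h3, rfl⟩
      fun hf => h' (hf.up (sublist_append_right _ _) iy)
    refine ⟨R0 * R1, (a1.app b1).mono (by simp only [length_cons, add_mul]; omega),
      Language.append_mem_mul a2 b2, fun z hz => ?_⟩
    obtain ⟨z0, c0, z1, c1, rfl⟩ := Language.mem_mul.1 hz
    obtain ⟨i1, s, d1, d2⟩ := b3 _ c1
    refine ⟨in_app.2 ⟨(a3 _ c0).1, i1⟩, z0.map Sum.inl ++ Sum.inr c :: s, ?_, ?_⟩
    · simpa using (sh_l (z0.map Sum.inl)).append (Sh.right (Sum.inr c) d1)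
    · simp [← h2, d2, (a3 _ c0).2]

lemma low2 (hB : B.Nonempty) (n : ℕ) {m : ℕ} {P : Language A} (hP : PL (Items π B) m P) :
    ∀ y ∈ P, ¬ Fr B [] n y → ∃ R, PL (Low π B) (m * ((CC G + 1) * (2 * n))) R ∧ y ∈ R ∧
      ∀ y' ∈ R, y' ∈ P := by
  induction hP with
  | one n => exact fun y hy _ => ⟨1, .one _, hy, fun _ h => h⟩
  | @mul L P m hx hP ih =>
    intro y hy h'
    have iy := (hom (1 : G →* PUnit) (hP.mul hx) y hy).1
    obtain ⟨g, k, hk, rfl⟩ := hx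
    obtain ⟨y0, h0, y1, h1, rfl⟩ := Language.mem_mul.1 hy
    obtain ⟨R0, a1, a2, a3⟩ := low1 hB n k g y0 h0
      fun hf => h' (hf.up (sublist_append_left _ _) iy)
    obtain ⟨R1, b1, b2, b3⟩ := ih y1 h1 fun hf => h' (hf.up (sublist_append_right _ _) iy)
    refine ⟨R0 * R1, ((a1.mono (Nat.mul_le_mul_right _ (Nat.add_le_add_right hk 1))).app b1).mono
      (by rw [add_mul m]; omega), Language.append_mem_mul a2 b2, fun z hz => ?_⟩
    obtain ⟨z0, c0, z1, c1, rfl⟩ := Language.mem_mul.1 hz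
    exact Language.append_mem_mul (a3 _ c0) (b3 _ c1)

lemma neither0 [Finite G] (hB : B.Nonempty) (n m : ℕ) {P : Language A}
    (hP : PL (Items π B) m P) {u v w : List A} (hw : w ∈ P) (h : Sh u v w) (hu : ¬ Fr B [] n u)
    (hv : ¬ Fr B [] n v) : ∃ R1 R2,
      PL (Low π B) (m * (CC G + 1) * ((CC G + 1) * (2 * n))) R1 ∧
      PL (Low π B) (m * (CC G + 1) * ((CC G + 1) * (2 * n))) R2 ∧
      u ∈ R1 ∧ v ∈ R2 ∧ ∀ u' ∈ R1, ∀ v' ∈ R2, ∃ w', Sh u' v' w' ∧ w' ∈ P := by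
  obtain ⟨P1, P2, a1, a2, a3, a4, a5⟩ := par hP hw h
  obtain ⟨R1, b1, b2, b3⟩ := low2 hB n (a1.mono (Nat.le_mul_of_pos_right m (Nat.succ_pos (CC G))))
    u a3 hu
  obtain ⟨R2, c1, c2, c3⟩ := low2 hB n (a2.mono (Nat.mul_le_mul_left m (Nat.le_succ (CC G))))
    v a4 hv
  exact ⟨R1, R2, b1, c1, b2, c2, fun u' hu' v' hv' => a5 _ (b3 _ hu') _ (c3 _ hv')⟩

/-- neither word is rich: explicit descriptions keeping a scattered subword -/
lemma neither [Finite G] (hB : B.Nonempty) (n m : ℕ) (s : List A) : ∀ {P : Language A},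
    PL (Items π B) m P → ∀ {u v w : List A}, w ∈ P → s <+ w → Sh u v w → ¬ Fr B [] n u →
    ¬ Fr B [] n v → ∃ R1 R2,
      PL (Low π B) ((s.length + 1) * (m * (CC G + 1) * ((CC G + 1) * (2 * n)) + 1)) R1 ∧
      PL (Low π B) ((s.length + 1) * (m * (CC G + 1) * ((CC G + 1) * (2 * n)) + 1)) R2 ∧
      u ∈ R1 ∧ v ∈ R2 ∧ ∀ u' ∈ R1, ∀ v' ∈ R2, ∃ w', Sh u' v' w' ∧ w' ∈ P ∧ s <+ w' := by
  induction s with
  | nil =>
    intro P hP u v w hw _ h hu hv
    obtain ⟨R1, R2, c1, c2, c3, c4, c5⟩ := neither0 hB n m hP hw h hu hv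
    exact ⟨R1, R2, c1.mono (by simp), c2.mono (by simp), c3, c4, fun u' hu' v' hv' =>
      (c5 u' hu' v' hv').imp fun w' h' => ⟨h'.1, h'.2, nil_sublist _⟩⟩
  | cons a s ih =>
    intro P hP u v w hw hs h hu hv
    obtain ⟨x, y, rfl, hy⟩ : ∃ x y, w = x ++ a :: y ∧ s <+ y := by
      obtain ⟨r1, r2, rfl, h1, h2⟩ := cons_sublist_iff.1 hs
      obtain ⟨p, p', rfl⟩ := append_of_mem h1
      exact ⟨p, p' ++ r2, by simp, h2.trans (sublist_append_right _ _)⟩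
    have iw := (hom (1 : G →* PUnit) hP _ hw).1
    have ha : a ∈ B := iw a (by simp)
    obtain ⟨iu, iv⟩ := h.in_iff.1 iw
    obtain ⟨P1, P', a1, a2, a3, a4, a5⟩ := seq hP hw
    obtain ⟨P2, P3, -, b2, b3, b4, b5⟩ := seq a2 (x := [a]) a4
    obtain ⟨u1, u2, v1, v2, rfl, rfl, s1, s2⟩ := h.split
    obtain ⟨R1, R2, c1, c2, c3, c4, c5⟩ := neither0 hB n m a1 a3 s1
      (fun hf => hu (hf.up (sublist_append_left _ _) iu))
      (fun hf => hv (hf.up (sublist_append_left _ _) iv))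
    have hl : ({[a]} : Language A) ∈ Low π B := Or.inr ⟨a, ha, rfl⟩
    have key := fun {u3 v3 : List A} (s3 : Sh u3 v3 y) (e1 : u3 <+ u2) (e2 : v3 <+ v2) =>
      ih b2 b4 hy s3 (fun hf => hu (hf.up (e1.trans (sublist_append_right _ _)) iu))
        (fun hf => hv (hf.up (e2.trans (sublist_append_right _ _)) iv))
    generalize m * (CC G + 1) * ((CC G + 1) * (2 * n)) = c at *
    have fin : ∀ x' ∈ P1, ∀ y' ∈ P3, s <+ y' → x' ++ a :: y' ∈ P ∧ a :: s <+ x' ++ a :: y' :=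
      fun x' hx y' hy' hs' => ⟨a5 _ hx _ (b5 _ b3 _ hy'),
        (hs'.cons_cons a).trans (sublist_append_right _ _)⟩
    cases s2 with
    | left _ s3 =>
      obtain ⟨T1, T2, d1, d2, d3, d4, d5⟩ := key s3 (sublist_cons_self _ _) (Sublist.refl _)
      refine ⟨R1 * ({[a]} * T1), R2 * T2, (c1.app (.mul hl d1)).mono
        (by simp only [length_cons, add_mul]; omega), (c2.app d2).mono
        (by simp only [length_cons, add_mul]; omega),
        Language.append_mem_mul c3 (Language.append_mem_mul (a := [a]) rfl d3),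
        Language.append_mem_mul c4 d4, fun u' hu' v' hv' => ?_⟩
      obtain ⟨x1, e1, z, e2, rfl⟩ := Language.mem_mul.1 hu'
      obtain ⟨_, rfl, y1, e3, rfl⟩ := Language.mem_mul.1 e2
      obtain ⟨x2, e4, y2, e5, rfl⟩ := Language.mem_mul.1 hv'
      obtain ⟨x', f1, f2⟩ := c5 _ e1 _ e4
      obtain ⟨y', g1, g2, g3⟩ := d5 _ e3 _ e5
      exact ⟨_, f1.append (.left a g1), fin _ f2 _ g2 g3⟩
    | right _ s3 =>
      obtain ⟨T1, T2, d1, d2, d3, d4, d5⟩ := key s3 (Sublist.refl _) (sublist_cons_self _ _)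
      refine ⟨R1 * T1, R2 * ({[a]} * T2), (c1.app d1).mono
        (by simp only [length_cons, add_mul]; omega), (c2.app (.mul hl d2)).mono
        (by simp only [length_cons, add_mul]; omega), Language.append_mem_mul c3 d3,
        Language.append_mem_mul c4 (Language.append_mem_mul (a := [a]) rfl d4),
        fun u' hu' v' hv' => ?_⟩
      obtain ⟨x2, e1, z, e2, rfl⟩ := Language.mem_mul.1 hv'
      obtain ⟨_, rfl, y2, e3, rfl⟩ := Language.mem_mul.1 e2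
      obtain ⟨x1, e4, y1, e5, rfl⟩ := Language.mem_mul.1 hu'
      obtain ⟨x', f1, f2⟩ := c5 _ e4 _ e1
      obtain ⟨y', g1, g2, g3⟩ := d5 _ e5 _ e3
      exact ⟨_, f1.append (.right a g1), fin _ f2 _ g2 g3⟩

variable {Q : Type} [CommGroup Q] (q : G →* Q)

variable (π) in
/-- abelian slice -/
def Sl (L : Language A) (g : Q) : Language A := {u | u ∈ L ∧ q (vl π u) = g}

variable (π) in
/-- all abelian slices are decomposable -/
def DA (L : Language A) : Prop := ∀ g : Q, Dec (Sl π q L g)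

def FrL (B : Finset A) (z : List A) (n : ℕ) : Language A := {u | Fr B z n u}

def DL (B B' : Finset A) : Language A := {u | In B u ∧ ∀ a ∈ B', a ∈ u}

lemma DA.mul [Finite Q] {L R : Language A} (h : DA π q L) (h' : DA π q R) : DA π q (L * R) := by
  intro g
  refine dec_union (T := Set.range fun g1 : Q => Sl π q L g1 * Sl π q R (g1⁻¹ * g))
    (Set.finite_range _) ?_ fun w => ⟨?_, ?_⟩
  · rintro _ ⟨g1, rfl⟩; exact (h _).mul (h' _)
  · rintro ⟨hw, rfl⟩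
    obtain ⟨x, hx, y, hy, rfl⟩ := Language.mem_mul.1 hw
    exact ⟨_, ⟨q (vl π x), rfl⟩, Language.append_mem_mul ⟨hx, rfl⟩ ⟨hy, by simp⟩⟩
  · rintro ⟨_, ⟨g1, rfl⟩, hw⟩
    obtain ⟨x, hx, y, hy, rfl⟩ := Language.mem_mul.1 hw
    exact ⟨Language.append_mem_mul hx.1 hy.1, by simp [hx.2, hy.2]⟩

lemma da_single (y : List A) : DA π q {y} := by
  intro g
  refine dec_union (T := {L | L = ({y} : Language A) ∧ q (vl π y) = g})
    ((Set.finite_singleton _).subset fun L h => h.1) (by rintro _ ⟨rfl, -⟩; exact dec_single y)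
    fun w => ⟨?_, ?_⟩
  · rintro ⟨rfl, h⟩; exact ⟨_, ⟨rfl, h⟩, rfl⟩
  · rintro ⟨_, ⟨rfl, h⟩, rfl⟩; exact ⟨rfl, h⟩

lemma da_comm [Finite Q] (B' : Finset A) (hB' : B' ⊆ B) :
    DA π q (DL B B') := by
  classical
  intro g
  let f : Finset A × Q → Language A := fun p => Sl π q (DL B p.1) p.2
  refine ⟨f '' (B.powerset ×ˢ Set.univ),
    (B.powerset.finite_toSet.prod Set.finite_univ).image _,
    ⟨(B', g), ⟨by simpa using hB', trivial⟩, rfl⟩, ?_⟩
  rintro _ ⟨⟨B1, g1⟩, -, rfl⟩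
  have key : ∀ u v w, Sh u v w → w ∈ f (B1, g1) →
      RC (f '' (B.powerset ×ˢ Set.univ)) (f (B1, g1)) u v := by
    rintro u v w h ⟨⟨i1, i2⟩, i3⟩
    obtain ⟨iu, iv⟩ := h.in_iff.1 i1
    have mem : ∀ u, In B u → f (u.toFinset, q (vl π u)) ∈ f '' (B.powerset ×ˢ Set.univ) ∧
        u ∈ f (u.toFinset, q (vl π u)) := fun u hu =>
      ⟨⟨_, ⟨Finset.mem_coe.2 (Finset.mem_powerset.2 fun a ha => hu a (by simpa using ha)),
        trivial⟩, rfl⟩,
        ⟨hu, fun a ha => by simpa using ha⟩, rfl⟩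
    refine ⟨_, (mem u iu).1, _, (mem v iv).1, (mem u iu).2, (mem v iv).2, ?_⟩
    rintro u' ⟨⟨a1, a2⟩, a3⟩ v' ⟨⟨b1, b2⟩, b3⟩
    refine ⟨⟨in_app.2 ⟨a1, b1⟩, fun a ha => ?_⟩, ?_⟩
    · rcases mem_append.1 (h.perm.mem_iff.1 (i2 a ha)) with h' | h'
      · exact mem_append_left _ (a2 a (by simpa using h'))
      · exact mem_append_right _ (b2 a (by simpa using h'))
    · simp only at a3 b3 i3 ⊢
      rw [vl_app, map_mul, a3, b3, ← h.q_vl q, i3]
  refine ⟨fun u v h => key u v _ (sh_app u v) h, fun u v w h h' => ?_⟩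
  obtain ⟨L, a1, R, a2, a3, a4, a5⟩ := key u v w h h'
  exact ⟨L, a1, R, a2, a3, a4, fun u' hu v' hv => ⟨_, sh_app u' v', a5 u' hu v' hv⟩⟩

lemma da_fr [Finite Q] (z : List A) : ∀ n, DA π q (FrL B z n)
  | 0 => by
    convert da_comm q (π := π) (B := B) ∅ (by simp)
    ext w
    exact ⟨fun h => ⟨h, by simp⟩, fun h => h.1⟩
  | n + 1 => by
    have := ((da_comm q (π := π) B le_rfl).mul q (da_single q z)).mul q (da_fr z n)
    convert this
    ext w
    simp only [Language.mem_mul]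
    constructor
    · rintro ⟨d, w', rfl, h1, h2, h3⟩
      exact ⟨_, ⟨d, ⟨h1, h2⟩, z, rfl, rfl⟩, w', h3, rfl⟩
    · rintro ⟨_, ⟨d, ⟨h1, h2⟩, _, rfl, rfl⟩, w', h3, rfl⟩
      exact ⟨d, w', rfl, h1, h2, h3⟩

end Pool.Agent.H37.Gl
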