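import Pool.Agent.H37.Gl3

set_option autoImplicit false

namespace Pool.Agent.H37.Gl

open List

variable {A G : Type} [Group G] {π : A → G} {B : Finset A}

lemma inv_fin [Finite G] (M : Submonoid G) {x : G} (h : x ∈ M) : x⁻¹ ∈ M :=
  (Submonoid.powers_le.2 h) ((isOfFinOrder_of_finite x).mem_powers_iff_mem_zpowers.2
    (inv_mem (Subgroup.mem_zpowers x)))

lemma surj [Finite G] (hG : Subgroup.closure (π '' B) = ⊤) (h : G) :
    ∃ y, In B y ∧ vl π y = h := by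
  let M : Submonoid G := ⟨⟨{x | ∃ y, In B y ∧ vl π y = x}, by
    rintro _ _ ⟨y, a, rfl⟩ ⟨y', b, rfl⟩
    exact ⟨y ++ y', in_app.2 ⟨a, b⟩, by simp⟩⟩, ⟨[], in_nil B, rfl⟩⟩
  have : h ∈ Subgroup.closure (π '' B) := hG ▸ Subgroup.mem_top h
  show h ∈ M
  induction this using Subgroup.closure_induction with
  | mem x hx =>
    obtain ⟨a, ha, rfl⟩ := hx
    exact ⟨[a], by simpa [In] using ha, by simp⟩
  | one => exact M.one_mem
  | mul x y _ _ a b => exact M.mul_mem a b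
  | inv x _ a => exact inv_fin M a

lemma tour [Finite G] (hG : Subgroup.closure (π '' B) = ⊤) : ∃ z, In B z ∧
    ∀ h, ∀ a ∈ B, ∃ z1 z2, z = z1 ++ a :: z2 ∧ vl π z2 = h := by
  haveI := Fintype.ofFinite G
  have : ∀ l : List (G × A), (∀ p ∈ l, p.2 ∈ B) → ∃ z, In B z ∧
      ∀ p ∈ l, ∃ z1 z2, z = z1 ++ p.2 :: z2 ∧ vl π z2 = p.1 := by
    intro l
    induction l with
    | nil => exact fun _ => ⟨[], in_nil B, by simp⟩
    | cons p l ih =>
      intro hl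
      obtain ⟨z, h1, h2⟩ := ih fun p hp => hl p (mem_cons_of_mem _ hp)
      obtain ⟨y, h3, h4⟩ := surj hG (p.1 * (vl π z)⁻¹)
      refine ⟨[p.2] ++ (y ++ z), in_app.2 ⟨by simpa [In] using hl p mem_cons_self,
        in_app.2 ⟨h3, h1⟩⟩, fun p' hp => ?_⟩
      rcases mem_cons.1 hp with rfl | hp
      · exact ⟨[], y ++ z, rfl, by simp [h4]⟩
      · obtain ⟨z1, z2, rfl, e⟩ := h2 p' hp
        exact ⟨p.2 :: y ++ z1, z2, by simp, e⟩
  obtain ⟨z, h1, h2⟩ := this ((Finset.univ : Finset G) ×ˢ B).toList (by simp)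
  exact ⟨z, h1, fun h a ha => h2 (h, a) (by simpa using ha)⟩

variable (π B) in
def Clo (X : Set G) : Prop :=
  ∀ a ∈ B, ∀ b ∈ B, ∀ h, ∀ x ∈ X, h⁻¹ * ((π a * π b)⁻¹ * (π b * π a)) * h * x ∈ X

lemma grow [Finite G] {z : List A}
    (hz : ∀ h, ∀ a ∈ B, ∃ z1 z2, z = z1 ++ a :: z2 ∧ vl π z2 = h) : ∀ {n} {u v : List A},
    Fr B z n u → Fr B [] n v → ∃ X : Set G, (∀ x ∈ X, ∃ w, Sh u v w ∧ vl π w = x) ∧ X.Nonempty ∧
      (n < X.ncard ∨ Clo π B X)
  | 0, u, v, _, _ => ⟨{vl π (u ++ v)}, by rintro _ rfl; exact ⟨_, sh_app u v, rfl⟩,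
      Set.singleton_nonempty _, Or.inl (by simp)⟩
  | n + 1, u, v, ⟨d, u', e, _, _, h3⟩, ⟨d', v', e', _, i2, i3⟩ => by
    obtain ⟨X, a1, a2, a3⟩ := grow hz h3 i3
    by_cases hc : Clo π B X
    · refine ⟨(fun x => vl π (d ++ z ++ d') * x) '' X, ?_, a2.image _, Or.inr ?_⟩
      · rintro _ ⟨x, hx, rfl⟩
        obtain ⟨w, b1, rfl⟩ := a1 x hx
        exact ⟨d ++ z ++ d' ++ w, by simpa [e, e'] using (sh_app (d ++ z) d').append b1, by
          simp [mul_assoc]⟩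
      · rintro a ha b hb h _ ⟨x, hx, rfl⟩
        exact ⟨_, hc a ha b hb (h * vl π (d ++ z ++ d')) x hx, by group⟩
    · have hn := a3.resolve_right hc
      simp only [Clo, not_forall] at hc
      obtain ⟨a, ha, b, hb, h, x, hx, hc⟩ := hc
      obtain ⟨p, p', rfl⟩ := append_of_mem (i2 b hb)
      obtain ⟨z1, z2, rfl, ez⟩ := hz (h * (vl π p')⁻¹) a ha
      refine ⟨(fun x => vl π (p ++ d ++ z1) * π a * π b * h * x) ''
        insert (h⁻¹ * ((π a * π b)⁻¹ * (π b * π a)) * h * x) X, ?_,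
        (Set.insert_nonempty _ _).image _, Or.inl ?_⟩
      rotate_left
      · rw [Set.ncard_image_of_injective _ (mul_right_injective _), Set.ncard_insert_of_notMem hc]
        omega
      · rintro _ ⟨y, rfl | hy, rfl⟩
        · obtain ⟨w, b1, rfl⟩ := a1 x hx
          refine ⟨p ++ ((d ++ z1) ++ b :: a :: (z2 ++ p' ++ w)), ?_, by simp [ez]; group⟩
          simpa [e, e'] using (sh_r p).append ((sh_l (d ++ z1)).append
            (Sh.right b (.left a ((sh_app z2 p').append b1))))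
        · obtain ⟨w, b1, rfl⟩ := a1 y hy
          refine ⟨p ++ ((d ++ z1) ++ a :: b :: (z2 ++ p' ++ w)), ?_, by simp [ez]; group⟩
          simpa [e, e'] using (sh_r p).append ((sh_l (d ++ z1)).append
            (Sh.left a (.right b ((sh_app z2 p').append b1))))

lemma clo_comm [Finite G] (hG : Subgroup.closure (π '' B) = ⊤) {X : Set G} (hX : Clo π B X)
    {c : G} (hc : c ∈ commutator G) : ∀ x ∈ X, c * x ∈ X := by
  let M : Submonoid G := ⟨⟨{c | ∀ h, ∀ x ∈ X, h⁻¹ * c * h * x ∈ X}, fun {a b} ha hb h x hx => by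
    have := ha h _ (hb h x hx)
    convert this using 1; group⟩, fun h x hx => by simpa using hx⟩
  let W : Subgroup G := { M with inv_mem' := fun h => inv_fin M h }
  haveI : W.Normal := ⟨fun c hc g h x hx => by
    have := hc (g⁻¹ * h) x hx
    convert this using 1; group⟩
  have top : ∀ x : G, x ∈ Subgroup.closure (π '' B) := fun x => hG ▸ Subgroup.mem_top x
  have c1 : ∀ y : G, (∀ a ∈ B, Commute (π a : G ⧸ W) y) → ∀ x : G, Commute (x : G ⧸ W) y := by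
    intro y hy x
    induction top x using Subgroup.closure_induction with
    | mem x hx => obtain ⟨a, ha, rfl⟩ := hx; exact hy a ha
    | one => exact Commute.one_left _
    | mul x y _ _ a b => exact a.mul_left b
    | inv x _ a => exact a.inv_left
  have c2 : ∀ x y : G, Commute (x : G ⧸ W) y := fun x y =>
    c1 y (fun a ha => (c1 (π a) (fun b hb => QuotientGroup.eq.2 (hX b hb a ha)) y).symm) x
  have : commutator G ≤ W := Subgroup.commutator_le.2 fun x _ y _ =>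
    (QuotientGroup.eq_one_iff _).1 (by
      have := commutatorElement_eq_one_iff_commute.2 (c2 x y)
      rwa [← QuotientGroup.mk'_apply, map_commutatorElement])
  intro x hx
  simpa using this hc 1 x hx

lemma flex [Finite G] (hG : Subgroup.closure (π '' B) = ⊤) {z : List A}
    (hz : ∀ h, ∀ a ∈ B, ∃ z1 z2, z = z1 ++ a :: z2 ∧ vl π z2 = h) {n : ℕ} (hn : Nat.card G ≤ n)
    {u v : List A} (hu : Fr B z n u) (hv : Fr B [] n v) {g : G}
    (hg : Abelianization.of g = Abelianization.of (vl π u) * Abelianization.of (vl π v)) :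
    ∃ w, Sh u v w ∧ vl π w = g := by
  obtain ⟨X, a1, ⟨x, hx⟩, a3⟩ := grow hz hu hv
  have hc := a3.resolve_left (not_lt.2 ((Set.ncard_le_card X).trans hn))
  obtain ⟨w, b1, b2⟩ := a1 x hx
  have : g * x⁻¹ ∈ commutator G := by
    rw [← Abelianization.ker_of, MonoidHom.mem_ker, map_mul, map_inv, hg, ← b2,
      b1.q_vl Abelianization.of, mul_inv_cancel]
  simpa using a1 _ (clo_comm hG hc this x hx)

variable {Q : Type} [CommGroup Q] (q : G →* Q)

variable (B) in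
def XL (n : ℕ) (P : Language A) (s : List A) (Φ : Language A) : Language A :=
  {w | (w ∈ P ∧ (Fr B [] n w ∨ s <+ w)) ∨ w ∈ Φ}

variable (B) in
def YL (n : ℕ) (P : Language A) (Φ : Language A) : Language A :=
  {w | (w ∈ P ∧ Fr B [] n w) ∨ w ∈ Φ}

lemma step [Finite A] [Finite G] [Finite Q] (hB : B.Nonempty) (n m : ℕ)
    (hlow : ∀ x ∈ Low π B, Dec x) (Φ Ψ : Q → Language A) (hΦ : ∀ g, Dec (Φ g))
    (hΦ1 : ∀ g, ∀ u ∈ Φ g, In B u ∧ q (vl π u) = g)
    (hΦ2 : ∀ g, ∀ u ∈ Φ g, ∀ v, In B v →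
      u ++ v ∈ Φ (g * q (vl π v)) ∧ v ++ u ∈ Φ (q (vl π v) * g))
    (hΨ : ∀ g, ∀ u ∈ Ψ g, Fr B [] n u ∧ q (vl π u) = g)
    (hY : ∀ k P g, PL (Items π B) k P → (∀ u ∈ P, q (vl π u) = g) → Dec (YL B n P (Ψ g)))
    (star : ∀ P, PL (Items π B) m P → ∀ w ∈ P, Fr B [] n w → ∀ g, ∀ u ∈ Ψ g, ∀ v, Fr B [] n v →
      g * q (vl π v) = q (vl π w) → ∃ w', Sh u v w' ∧ (w' ∈ P ∨ w' ∈ Φ (q (vl π w))))
    {P : Language A} {s : List A} {g : Q} (hP : PL (Items π B) m P) (hs : s.length ≤ n * B.card)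
    (hg : ∀ u ∈ P, q (vl π u) = g) : Dec (XL B n P s (Φ g)) := by
  set c := (n * B.card + 1) * (m * (CC G + 1) * ((CC G + 1) * (2 * n)) + 1) with hc
  refine boot (D := Set.range Φ ∪ {R | PL (Low π B) c R} ∪
      {L | ∃ P g, PL (Items π B) (m * (CC G + 1)) P ∧ (∀ u ∈ P, q (vl π u) = g) ∧
        L = YL B n P (Ψ g)})
    (F := {L | ∃ P s g, PL (Items π B) m P ∧ s.length ≤ n * B.card ∧
      (∀ u ∈ P, q (vl π u) = g) ∧ L = XL B n P s (Φ g)}) ?_ ?_ ?_ ?_ _ ⟨P, s, g, hP, hs, hg, rfl⟩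
  · refine ((Set.finite_range _).union (PL.fin low_fin c)).union
      ((((PL.fin (items_fin π B) (m * (CC G + 1))).prod (Set.finite_univ (α := Q))).image
        fun p => YL B n p.1 (Ψ p.2)).subset ?_)
    rintro _ ⟨P, g, h, -, rfl⟩
    exact ⟨(P, g), ⟨h, trivial⟩, rfl⟩
  · rintro _ ((⟨g, rfl⟩ | h) | ⟨P, g, h1, h2, rfl⟩)
    · exact hΦ g
    · exact h.dec hlow
    · exact hY _ P g h1 h2
  · refine (((PL.fin (items_fin π B) m).prod ((finite_length_le A (n * B.card)).prod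
      (Set.finite_univ (α := Q)))).image fun p => XL B n p.1 p.2.1 (Φ p.2.2)).subset ?_
    rintro _ ⟨P, s, g, h1, h2, -, rfl⟩
    exact ⟨(P, s, g), ⟨h1, h2, trivial⟩, rfl⟩
  clear hP hs hg P s g
  rintro S hD hF hok _ ⟨P, s, g, hP, hs, hg, rfl⟩
  have okΦ := hok (Φ g) (Or.inl (Or.inl ⟨g, rfl⟩))
  have wit : ∀ w, Fr B [] n w ∨ s <+ w → ∃ s', s' <+ w ∧ s'.length ≤ n * B.card ∧
      ∀ w', In B w' → s' <+ w' → Fr B [] n w' ∨ s <+ w' := by
    rintro w (h | h)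
    · obtain ⟨s', a1, a2, a3⟩ := h.wit
      exact ⟨s', a1, a2, fun w' i h' => Or.inl (a3.up h' i)⟩
    · exact ⟨s, h, hs, fun _ _ h' => Or.inr h'⟩
  have memX : ∀ {P1 u} (s1 : List A), PL (Items π B) m P1 → s1.length ≤ n * B.card → u ∈ P1 →
      XL B n P1 s1 (Φ (q (vl π u))) ∈ S := fun s1 h1 h2 h3 =>
    hF ⟨_, s1, _, h1, h2, (hom q h1 _ h3).2, rfl⟩
  have inX : ∀ {k P1 u s1 u'}, PL (Items π B) k P1 → u ∈ P1 →
      u' ∈ XL B n P1 s1 (Φ (q (vl π u))) → In B u' ∧ q (vl π u') = q (vl π u) := by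
    rintro k P1 u s1 u' h1 h2 (h3 | h3)
    · exact ⟨(hom q h1 _ h3.1).1, (hom q h1 _ h2).2 _ h3.1⟩
    · exact hΦ1 _ _ h3
  refine ⟨?_, ?_⟩
  · rintro x y (⟨h1, h2⟩ | h)
    swap
    · exact (okΦ.1 x y h).mono le_rfl fun w hw => Or.inr hw
    obtain ⟨s', a1, a2, a3⟩ := wit _ h2
    obtain ⟨s1, s2, rfl, b1, b2⟩ := sublist_append_iff.1 a1
    obtain ⟨P1, P2, c1, c2, c3, c4, c5⟩ := seq hP h1
    rw [length_append] at a2
    have e : q (vl π x) * q (vl π y) = g := by rw [← hg _ h1]; simp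
    refine ⟨_, memX s1 c1 (by omega) c3, _, memX s2 c2 (by omega) c4, Or.inl ⟨c3, Or.inr b1⟩,
      Or.inl ⟨c4, Or.inr b2⟩, fun x' hx y' hy => ?_⟩
    obtain ⟨i1, e1⟩ := inX c1 c3 hx
    obtain ⟨i2, e2⟩ := inX c2 c4 hy
    rcases hx with ⟨d1, d2⟩ | hx
    swap
    · exact Or.inr (by rw [← e, ← e2]; exact (hΦ2 _ _ hx _ i2).1)
    rcases hy with ⟨d3, d4⟩ | hy
    swap
    · exact Or.inr (by rw [← e, ← e1]; exact (hΦ2 _ _ hy _ i1).2)
    refine Or.inl ⟨c5 _ d1 _ d3, ?_⟩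
    rcases d2 with d2 | d2
    · exact Or.inl (d2.up (sublist_append_left _ _) (in_app.2 ⟨i1, i2⟩))
    rcases d4 with d4 | d4
    · exact Or.inl (d4.up (sublist_append_right _ _) (in_app.2 ⟨i1, i2⟩))
    exact a3 _ (in_app.2 ⟨i1, i2⟩) (d2.append d4)
  have one : ∀ u v w, Sh u v w → w ∈ P → Fr B [] n u → ¬ Fr B [] n v →
      RS S (XL B n P s (Φ g)) u v := by
    intro u v w h hw hu hv
    obtain ⟨P1, P2, c1, c2, c3, c4, c5⟩ := par hP hw h
    obtain ⟨R, b1, b2, b3⟩ := low2 hB n (c2.mono (Nat.mul_le_mul_left m (Nat.le_succ (CC G))))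
      v c4 hv
    obtain ⟨s', a1, a2, a3⟩ := hu.wit
    refine ⟨_, memX s' c1 a2 c3, R, hD (Or.inl (Or.inr (b1.mono ?_))), Or.inl ⟨c3, Or.inl hu⟩, b2,
      fun u' hu' v' hv' => ?_⟩
    · exact (Nat.le_succ _).trans (Nat.le_mul_of_pos_left _ (Nat.succ_pos _))
    obtain ⟨i1, -⟩ := inX c1 c3 hu'
    rcases hu' with ⟨d1, d2⟩ | hu'
    · obtain ⟨w', e1, e2⟩ := c5 _ d1 _ (b3 _ hv')
      exact ⟨w', e1, Or.inl ⟨e2, Or.inl ((d2.elim id fun d => a3.up d i1).up e1.sub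
        (hom q hP _ e2).1)⟩⟩
    · refine ⟨_, sh_app u' v', Or.inr ?_⟩
      rw [← hg _ hw, h.q_vl q, ← (hom q c2 _ c4).2 _ (b3 _ hv')]
      exact (hΦ2 _ _ hu' _ (hom q c2 _ (b3 _ hv')).1).1
  rintro u v w h (⟨h1, h2⟩ | hw)
  swap
  · exact (okΦ.2 u v w h hw).mono le_rfl fun w hw => Or.inr hw
  by_cases hu : Fr B [] n u <;> by_cases hv : Fr B [] n v
  · obtain ⟨P1, P2, c1, c2, c3, c4, c5⟩ := par hP h1 h
    have rw' := hu.up h.sub (hom q hP _ h1).1
    have inY : ∀ {k P1 u u'}, PL (Items π B) k P1 → u ∈ P1 →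
        u' ∈ YL B n P1 (Ψ (q (vl π u))) → Fr B [] n u' ∧ q (vl π u') = q (vl π u) := by
      rintro k P1 u u' h1 h2 (h3 | h3)
      · exact ⟨h3.2, (hom q h1 _ h2).2 _ h3.1⟩
      · exact hΨ _ _ h3
    have fin : ∀ u' v' w', Sh u' v' w' → Fr B [] n u' → Fr B [] n v' →
        w' ∈ P ∨ w' ∈ Φ (q (vl π w)) → w' ∈ XL B n P s (Φ g) := by
      rintro u' v' w' e1 e2 e3 (e4 | e4)
      · exact Or.inl ⟨e4, Or.inl (e2.up e1.sub (hom q hP _ e4).1)⟩
      · exact Or.inr (hg _ h1 ▸ e4)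
    refine ⟨YL B n P1 (Ψ (q (vl π u))), hD (Or.inr ⟨P1, _,
      c1.mono (Nat.le_mul_of_pos_right m (Nat.succ_pos _)), (hom q c1 _ c3).2, rfl⟩),
      YL B n P2 (Ψ (q (vl π v))), hD (Or.inr ⟨P2, _,
      c2.mono (Nat.mul_le_mul_left m (Nat.le_succ _)), (hom q c2 _ c4).2, rfl⟩),
      Or.inl ⟨c3, hu⟩, Or.inl ⟨c4, hv⟩, fun u' hu' v' hv' => ?_⟩
    obtain ⟨r1, e1⟩ := inY c1 c3 hu'
    obtain ⟨r2, e2⟩ := inY c2 c4 hv'
    rcases hu' with ⟨d1, -⟩ | hu'
    swap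
    · obtain ⟨w', f1, f2⟩ := star P hP w h1 rw' _ _ hu' v' r2 (by rw [e2, h.q_vl q])
      exact ⟨w', f1, fin _ _ _ f1 r1 r2 f2⟩
    rcases hv' with ⟨d2, -⟩ | hv'
    swap
    · obtain ⟨w', f1, f2⟩ := star P hP w h1 rw' _ _ hv' u' r1 (by rw [e1, h.q_vl q, mul_comm])
      exact ⟨w', f1.symm, fin _ _ _ f1 r2 r1 f2⟩
    obtain ⟨w', f1, f2⟩ := c5 _ d1 _ d2
    exact ⟨w', f1, fin _ _ _ f1 r1 r2 (Or.inl f2)⟩
  · exact one u v w h h1 hu hv
  · exact (one v u w h.symm h1 hv hu).symm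
  · obtain ⟨s', a1, a2, a3⟩ := wit _ h2
    obtain ⟨R1, R2, c1, c2, c3, c4, c5⟩ := neither hB n m s' hP h1 a1 h hu hv
    have le : (s'.length + 1) * (m * (CC G + 1) * ((CC G + 1) * (2 * n)) + 1) ≤ c :=
      Nat.mul_le_mul_right _ (by omega)
    refine ⟨R1, hD (Or.inl (Or.inr (c1.mono le))), R2, hD (Or.inl (Or.inr (c2.mono le))), c3, c4,
      fun u' hu' v' hv' => ?_⟩
    obtain ⟨w', f1, f2, f3⟩ := c5 _ hu' _ hv'
    exact ⟨w', f1, Or.inl ⟨f2, a3 _ (hom q hP _ f2).1 f3⟩⟩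

lemma rich_ex (B : Finset A) : ∀ n, ∃ u, Fr B [] n u
  | 0 => ⟨[], in_nil B⟩
  | n + 1 => by
    obtain ⟨u, h⟩ := rich_ex B n
    exact ⟨_, B.toList, u, rfl, fun a ha => by simpa using ha, fun a ha => by simpa using ha, h⟩

lemma sl_abs {z : List A} {n : ℕ} (g : Q) (u : List A) (hu : u ∈ Sl π q (FrL B z n) g)
    (v : List A) (hv : In B v) : u ++ v ∈ Sl π q (FrL B z n) (g * q (vl π v)) ∧
      v ++ u ∈ Sl π q (FrL B z n) (q (vl π v) * g) :=
  ⟨⟨Fr.app_r hv hu.1, by simp [hu.2]⟩, ⟨Fr.app_l hv hu.1, by simp [hu.2]⟩⟩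

lemma levels [Finite A] [Finite G] [Finite Q] (hB : B.Nonempty) (n : ℕ)
    (hlow : ∀ x ∈ Low π B, Dec x) (z : List A) : In B z → ∀ k P g, PL (Items π B) k P →
      (∀ u ∈ P, q (vl π u) = g) → Dec (YL B n P (Sl π q (FrL B z n) g)) := by
  induction z using List.reverseRecOn with
  | nil =>
    intro _ k P g _ hg
    convert da_fr q (π := π) (B := B) [] n g
    ext w
    exact ⟨fun h => h.elim (fun h => ⟨h.2, hg _ h.1⟩) id, Or.inr⟩
  | append_singleton z c ih =>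
    intro hz k P g hP hg
    have hz1 := (in_app.1 hz).1
    have hc : c ∈ B := hz c (by simp)
    obtain ⟨u, hu⟩ := rich_ex B n
    obtain ⟨s, -, a2, a3⟩ := hu.wit
    convert step q hB n k hlow (Sl π q (FrL B (z ++ [c]) n)) (Sl π q (FrL B z n))
      (da_fr q _ n) (fun g u h => ⟨Fr.in hz h.1, h.2⟩) (sl_abs q)
      (fun g u h => ⟨Fr.ar hz1 h.1, h.2⟩) (ih hz1) ?_ hP a2 hg
    · ext w
      refine or_congr_left (and_congr_right fun h => ⟨Or.inl, fun h' => h'.elim id fun h' => ?_⟩)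
      exact a3.up h' (hom q hP _ h).1
    · intro P _ w _ _ g u hu v hv e
      obtain ⟨w', b1, b2⟩ := Fr.step hc hu.1 hv
      exact ⟨w', b1, Or.inr ⟨b2, by rw [b1.q_vl q, hu.2, e]⟩⟩

lemma gen [Finite A] [Finite G] (hB : B.Nonempty) (hG : Subgroup.closure (π '' B) = ⊤)
    (hlow : ∀ x ∈ Low π B, Dec x) (g : G) : Dec (K π B g) := by
  obtain ⟨z, hz, hz'⟩ := tour hG
  have h0 : Dec (0 : Language A) := dec_union Set.finite_empty (by simp) (by simp)
  have hP : PL (Items π B) 1 (K π B g) := PL.single ⟨g, [], by simp, (F_nil π B g).symm⟩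
  convert step (Abelianization.of : G →* _) hB (Nat.card G + 1) 1 hlow (fun _ => 0)
    (Sl π Abelianization.of (FrL B z (Nat.card G + 1))) (fun _ => h0) (by simp) (by simp)
    (fun g u h => ⟨Fr.ar hz h.1, h.2⟩) (levels _ hB _ hlow z hz) ?_ hP (s := []) (by simp)
    (g := Abelianization.of g) (fun u h => by rw [h.2])
  · ext w
    exact ⟨fun h => Or.inl ⟨h, Or.inr (nil_sublist _)⟩, fun h => h.elim (·.1) fun h => h.elim⟩
  · intro P hP w hw hr g' u hu v hv e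
    cases hP with
    | one =>
      obtain ⟨d, w', e, -, h, -⟩ := hr
      obtain ⟨b, hb⟩ := hB
      obtain rfl : w = [] := hw
      have := h b hb
      simp at e
      simp [e.1] at this
    | mul hx hP =>
      cases hP
      obtain ⟨g0, k, -, rfl⟩ := hx
      rw [mul_one] at hw ⊢
      obtain ⟨w', b1, b2⟩ := flex hG hz' (Nat.le_succ _) hu.1 hv (g := k.prod⁻¹ * g0) (by
        rw [hu.2, e, F_q _ hw, map_mul, map_inv, div_eq_mul_inv, mul_comm])
      refine ⟨w', b1, Or.inl ⟨b1.in_iff.2 ⟨Fr.in hz hu.1, Fr.in (in_nil B) hv⟩, _,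
        (sh_app _ _).symm, by simp [b2]⟩⟩

lemma dec_K [Finite A] (B : Finset A) : ∀ (G : Type) [Group G] [Finite G] (π : A → G) (g : G),
    Dec (K π B g) := by
  classical
  induction B using Finset.strongInduction with
  | H B ih =>
  intro G _ _ π g
  rcases B.eq_empty_or_nonempty with rfl | hB
  · refine dec_union (T := {L | L = ({[]} : Language A) ∧ g = 1})
      ((Set.finite_singleton _).subset fun L h => h.1) (by rintro _ ⟨rfl, -⟩; exact dec_single _)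
      fun w => ⟨?_, ?_⟩
    · rintro ⟨h1, h2⟩
      obtain rfl : w = [] := eq_nil_iff_forall_not_mem.2 fun a ha => by simpa using h1 a ha
      exact ⟨_, ⟨rfl, h2.symm⟩, rfl⟩
    · rintro ⟨_, ⟨rfl, rfl⟩, rfl⟩
      exact ⟨in_nil _, rfl⟩
  let H := Subgroup.closure (π '' B)
  let π' : A → H := fun a => if h : a ∈ B then ⟨π a, Subgroup.subset_closure ⟨a, h, rfl⟩⟩ else 1
  have e : ∀ u, In B u → ((vl π' u : H) : G) = vl π u := by
    intro u
    induction u with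
    | nil => exact fun _ => rfl
    | cons a u ih =>
      intro h
      have ha : a ∈ B := h a (by simp)
      simp [ih fun b hb => h b (by simp [hb]), π', ha]
  have hG : Subgroup.closure (π' '' B) = ⊤ := by
    apply Subgroup.map_injective H.subtype_injective
    rw [MonoidHom.map_closure, ← MonoidHom.range_eq_map, Subgroup.range_subtype, Set.image_image]
    congr 1
    exact Set.image_congr fun a ha => by simp [π', Finset.mem_coe.1 ha]
  have hlow : ∀ x ∈ Low π' B, Dec x := by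
    rintro _ (⟨B', g', h, rfl⟩ | ⟨a, -, rfl⟩)
    · exact ih B' h H π' g'
    · exact dec_single _
  refine dec_union (T := (K π' B) '' {g' | (g' : G) = g}) ((Set.toFinite _).image _)
    (by rintro _ ⟨g', -, rfl⟩; exact gen hB hG hlow g') fun w => ⟨?_, ?_⟩
  · rintro ⟨h1, h2⟩
    exact ⟨_, ⟨vl π' w, (e w h1).trans h2, rfl⟩, h1, rfl⟩
  · rintro ⟨_, ⟨g', h, rfl⟩, h1, h2⟩
    exact ⟨h1, by rw [← e w h1, h2]; exact h⟩

theorem main [Finite A] {L : Language A} (h : PolG L) : Decomposable L := by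
  haveI := Fintype.ofFinite A
  have grp : ∀ L : Language A, GroupLang L → Dec L := by
    rintro L ⟨G, _, _, φ, U, h⟩
    have e : ∀ w, φ (FreeMonoid.ofList w) = vl (fun a => φ (FreeMonoid.of a)) w := by
      intro w
      induction w with
      | nil => simp
      | cons a w ih => rw [FreeMonoid.ofList_cons, map_mul, ih, vl_cons]
    refine dec_union (T := K (fun a => φ (FreeMonoid.of a)) Finset.univ '' U)
      ((Set.toFinite _).image _) (by rintro _ ⟨g, -, rfl⟩; exact dec_K _ G _ g) fun w => ?_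
    rw [h, e]
    exact ⟨fun hw => ⟨_, ⟨_, hw, rfl⟩, fun a _ => Finset.mem_univ a, rfl⟩,
      by rintro ⟨_, ⟨g, hg, rfl⟩, -, h2⟩; rwa [h2]⟩
  obtain ⟨T, h1, h2, h3⟩ := h
  refine (dec_union h1 (fun P hP => ?_) h3).final
  have := h2 P hP
  clear hP
  induction this with
  | base L h => exact grp L h
  | step P a L _ h ih => exact (ih.mul (dec_single _)).mul (grp L h)

end Pool.Agent.H37.Gl
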