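import Mathlib

set_option autoImplicit false

namespace Pool.Agent.H37.Gl

variable {A : Type}

/-- `w` lies in the shuffle of `u` and `v`: `w = u₁v₁⋯u_kv_k`, `u = u₁⋯u_k`, `v = v₁⋯v_k` -/
def Shuffle (u v w : List A) : Prop :=
  ∃ l : List (List A × List A), u = (l.map Prod.fst).flatten ∧ v = (l.map Prod.snd).flatten ∧
    w = (l.map fun p => p.1 ++ p.2).flatten

/-- the pairs `(u, v)` with `uv ∈ K` -/
def tau (K : Language A) : Set (List A × List A) := {p | p.1 ++ p.2 ∈ K}

/-- the pairs `(u, v)` whose shuffle meets `K` -/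
def sigma (K : Language A) : Set (List A × List A) := {p | ∃ w ∈ K, Shuffle p.1 p.2 w}

/-- `X` is a finite union of sets `L × R` with `L, R ∈ S` -/
def RectUnion (S : Set (Language A)) (X : Set (List A × List A)) : Prop :=
  ∃ T : Set (Language A × Language A), T.Finite ∧ (∀ p ∈ T, p.1 ∈ S ∧ p.2 ∈ S) ∧
    ∀ u v, (u, v) ∈ X ↔ ∃ p ∈ T, u ∈ p.1 ∧ v ∈ p.2

/-- member of a finite set that is both a sequential and a parallel system -/
def Decomposable (K : Language A) : Prop :=
  ∃ S : Set (Language A), S.Finite ∧ K ∈ S ∧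
    ∀ L ∈ S, RectUnion S (tau L) ∧ RectUnion S (sigma L)

/-- preimage of a subset of a finite group under a monoid morphism from the free monoid -/
def GroupLang (L : Language A) : Prop :=
  ∃ (G : Type) (_ : Group G) (_ : Finite G) (φ : FreeMonoid A →* G) (U : Set G),
    ∀ w, w ∈ L ↔ φ (FreeMonoid.ofList w) ∈ U

/-- the languages `L₀a₁L₁⋯a_nL_n` with group languages `L_i` -/
inductive Monomial : Language A → Prop
  | base (L : Language A) : GroupLang L → Monomial L
  | step (P : Language A) (a : A) (L : Language A) :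
      Monomial P → GroupLang L → Monomial (P * {[a]} * L)

/-- finite unions of monomials -/
def PolG (K : Language A) : Prop :=
  ∃ T : Set (Language A), T.Finite ∧ (∀ P ∈ T, Monomial P) ∧ ∀ w, w ∈ K ↔ ∃ P ∈ T, w ∈ P

end Pool.Agent.H37.Gl
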