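import Pool.Agent.H37.Hd1

/-! A chain of three random degrees; the middle one is near every degree near both ends. -/

set_option autoImplicit false

namespace Pool.Agent.H37.Hd

open MeasureTheory Filter Rnd Defc Classical
open scoped ENNReal

/-- randomness, in the form of counting tests -/
def R1 (X : ℕ → Bool) : Prop := ¬ ∃ f : ℕ → ℕ → Option (List Bool), Computable₂ f ∧
  (∀ n M L : ℕ,
    ((Finset.univ : Finset (Fin L → Bool)).filter (fun τ =>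
      ∃ j < M, ∃ σ : List Bool, f n j = some σ ∧ σ.length ≤ L ∧
        ∀ i : Fin L, (i : ℕ) < σ.length → σ.getD i false = τ i)).card * 2 ^ n ≤ 2 ^ L) ∧
  ∀ n : ℕ, ∃ j : ℕ, ∃ σ : List Bool, f n j = some σ ∧ σ = (List.range σ.length).map X

theorem ae_R1 : ∀ᵐ X ∂P, R1 X := by
  have hc : {f : ℕ → ℕ → Option (List Bool) | Computable₂ f}.Countable :=
    (countable_comp (α := ℕ × ℕ) (β := Option (List Bool))).preimage_of_injOn
      (f := fun (f : ℕ → ℕ → Option (List Bool)) (p : ℕ × ℕ) => f p.1 p.2)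
      fun f _ g _ h => funext₂ fun a b => congrFun h (a, b)
  simp only [R1, not_exists, not_and]
  refine (ae_ball_iff hc).2 fun f _ => eventually_imp_distrib_left.2 fun hf => ?_
  refine measure_eq_zero_iff_ae_notMem.1 (null_of_le fun n => ?_)
  refine le_trans (measure_mono fun X hX => ?_) (P_mono_le (S := fun M =>
    {X | ∃ j < M, ∃ σ, f n j = some σ ∧ σ.length ≤ M ∧ σ = pre X σ.length}) ?_ fun M => ?_)
  · obtain ⟨j, σ, h1, h2⟩ := hX n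
    exact Set.mem_iUnion.2 ⟨j + 1 + σ.length, j, by omega, σ, h1, by omega, h2⟩
  · rintro M M' h X ⟨j, h1, σ, h2, h3, h4⟩
    exact ⟨j, by omega, σ, h2, by omega, h4⟩
  · refine le_trans (measure_mono ?_) ((P_fin M _).trans ((cnt_le _ _ _).2 (hf n M M)))
    rintro X ⟨j, h1, σ, h2, h3, h4⟩
    simp only [Set.mem_setOf_eq, Finset.mem_filter, Finset.mem_univ, true_and]
    exact ⟨j, h1, σ, h2, h3, fun i hi => by rw [h4, getD_pre _ hi]⟩

theorem exists_chain : ∃ a b c, R1 a ∧ R1 b ∧ R1 c ∧ LE a b ∧ LE b c ∧ ¬ LE b a ∧ ¬ LE c b := by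
  obtain ⟨a, ha, h⟩ := (ae_R1.and (ae_join (ae_R1.and (ae_join ae_R1)))).exists
  obtain ⟨Y, ⟨hb, h⟩, hY⟩ := (h.and (ae_not_le a)).exists
  obtain ⟨Z, hc, hZ⟩ := (h.and (ae_not_le (join a Y))).exists
  exact ⟨a, _, _, ha, hb, hc, le_join_l _ _, le_join_l _ _, fun h => hY ((le_join_r _ _).trans h),
    fun h => hZ ((le_join_r _ _).trans h)⟩

/-- Turing equivalence -/
def EQ (X Y : ℕ → Bool) : Prop := LE X Y ∧ LE Y X

/-- distance from a set to a degree -/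
noncomputable def dd (X Y : ℕ → Bool) : ℝ := sInf {s | ∃ Y', EQ Y' Y ∧ s = dl X Y'}

/-- one-sided distance between degrees -/
noncomputable def ds (X Y : ℕ → Bool) : ℝ := sSup {r | ∃ X', EQ X' X ∧ r = dd X' Y}

theorem dd_le {X Y Y' : ℕ → Bool} (h : EQ Y' Y) : dd X Y ≤ dl X Y' :=
  csInf_le ⟨0, by rintro _ ⟨_, -, rfl⟩; exact dl_nonneg _ _⟩ ⟨_, h, rfl⟩

theorem le_ds {X X' Y : ℕ → Bool} (h : EQ X' X) : dd X' Y ≤ ds X Y :=
  le_csSup ⟨1, by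
    rintro _ ⟨_, -, rfl⟩; exact (dd_le ⟨.refl _, .refl _⟩).trans (dl_le_one _ _)⟩ ⟨_, h, rfl⟩

theorem ds_le {X Y : ℕ → Bool} {c : ℝ} (h : ∀ X', EQ X' X → ∃ Y', EQ Y' Y ∧ dl X' Y' ≤ c) :
    ds X Y ≤ c :=
  csSup_le ⟨_, X, ⟨.refl _, .refl _⟩, rfl⟩ (by
    rintro _ ⟨X', h1, rfl⟩
    obtain ⟨Y', h2, h3⟩ := h X' h1
    exact (dd_le h2).trans h3)

theorem of_ds {X X' Y : ℕ → Bool} {c : ℝ} (h : ds X Y < c) (h' : EQ X' X) :
    ∃ Y', EQ Y' Y ∧ dl X' Y' < c := by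
  obtain ⟨_, ⟨Y', h1, rfl⟩, h2⟩ := exists_lt_of_csInf_lt (s := {s | ∃ Y', EQ Y' Y ∧ s = dl X' Y'})
    ⟨_, Y, ⟨.refl _, .refl _⟩, rfl⟩ ((le_ds h').trans_lt h)
  exact ⟨Y', h1, h2⟩

theorem mid {a b c d : ℕ → Bool} (h1 : LE a b) (h2 : LE b c) (h3 : ds d a ≤ 1 / 2)
    (h4 : ds c d ≤ 1 / 2) : max (ds b d) (ds d b) < 1 := by
  refine max_lt ((ds_le (c := 7 / 8) fun X hX => ?_).trans_lt (by norm_num))
    ((ds_le (c := 7 / 8) fun X hX => ?_).trans_lt (by norm_num))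
  · obtain ⟨Y, h5, h6⟩ := of_ds (c := 5 / 8) (h4.trans_lt (by norm_num))
      ⟨code_le (N := 3) (hX.1.trans h2), le_code 3 c X⟩
    have := dl_code' 3 c X Y
    exact ⟨Y, h5, by norm_num at this; linarith⟩
  · obtain ⟨Y, h5, h6⟩ := of_ds (c := 5 / 8) (h3.trans_lt (by norm_num)) hX
    have := dl_code 3 b Y X
    refine ⟨_, ⟨code_le (N := 3) (h5.1.trans h1), le_code 3 b Y⟩, ?_⟩
    rw [dl_comm] at h6 ⊢
    norm_num at this; linarith

theorem no_ext {H : (ℕ → Bool) → (ℕ → Bool) → ℝ} (hH : ∀ X Y, H X Y = max (ds X Y) (ds Y X)) :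
    ¬ ∀ (m k : ℕ) (a : Fin m → ℕ → Bool) (b : Fin k → ℕ → Bool),
      (∀ i, R1 (a i)) → (∀ j, R1 (b j)) → (∀ i j, ¬ EQ (a i) (b j)) →
      ∃ c : ℕ → Bool, R1 c ∧ (∀ i, H (a i) c = 1 / 2) ∧ (∀ j, H (b j) c = 1) := by
  intro h
  obtain ⟨a, b, c, ha, hb, hc, h1, h2, h3, h4⟩ := exists_chain
  obtain ⟨d, -, h5, h6⟩ := h 2 1 ![a, c] ![b] (by simp [Fin.forall_fin_two, ha, hc])
    (by simp [hb]) (by simpa [Fin.forall_fin_two] using ⟨fun h => h3 h.2, fun h => h4 h.1⟩)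
  have h7 := h5 0
  have h8 := h5 1
  have h9 := h6 0
  simp only [hH, Matrix.cons_val_zero, Matrix.cons_val_one] at h7 h8 h9
  exact (mid h1 h2 ((le_max_right _ _).trans h7.le) ((le_max_left _ _).trans h8.le)).ne h9

end Pool.Agent.H37.Hd
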