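import Pool.Agent.H37.Hd1

/-! Hyperimmune-free basis theorem, the fireworks function, a large deviation test. -/

set_option autoImplicit false

namespace Pool.Agent.H37.Hd

open MeasureTheory Filter Rnd Defc Encodable
open scoped ENNReal

theorem chain_path {s : ℕ → List Bool → Prop} (h : ∀ n, ∃ x, ∀ j, s n (pre x j))
    (hm : ∀ n m, n ≤ m → ∀ x, (∀ j, s m (pre x j)) → ∀ j, s n (pre x j)) :
    ∃ x, ∀ n j, s n (pre x j) := by
  obtain ⟨x, hx⟩ := exists_path (T := fun σ => ∀ n ≤ σ.length, ∀ j ≤ σ.length, s n (σ.take j))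
    fun k => (h k).imp fun x hx i hi n hn j hj => by
      rw [length_pre] at hn hj
      rw [take_pre x hj]; exact hm _ _ (hn.trans hi) x hx j
  refine ⟨x, fun n j => ?_⟩
  have := hx (max n j) n (by simp) j (by simp)
  rwa [take_pre x (le_max_right n j)] at this

theorem stage {T : List Bool → Prop} (h : ¬ ∃ x, ∀ j, T (pre x j)) :
    ∃ k, ∀ σ ∈ W k, ∃ j ≤ k, ¬ T (σ.take j) := by
  by_contra hn
  push Not at hn
  refine h (exists_path fun k => ?_)
  obtain ⟨σ, h1, h2⟩ := hn k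
  refine ⟨fun i => σ.getD i false, fun j hj => ?_⟩
  rw [← take_pre _ hj, ← mem_W.1 h1, pre_getD]
  exact h2 j hj

theorem hif_basis {T : List Bool → Bool} (hT : CI ∅ T) (h : ∃ x, ∀ j, T (pre x j) = true) :
    ∃ x, (∀ j, T (pre x j) = true) ∧
      ∀ f : ℕ → ℕ, CI (orc (bit x)) f → ∃ g, Computable g ∧ ∀ n, f n ≤ g n := by
  obtain ⟨s, h0, h1, h2, h3⟩ := chain (P := List Bool → Bool) (ι := ℕ)
    (fun q p => ∀ x, (∀ j, q (pre x j) = true) → ∀ j, p (pre x j) = true) (fun _ _ h => h)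
    (fun _ _ _ h h' x hx => h' x (h x hx)) (fun p => CI ∅ p ∧ ∃ x, ∀ j, p (pre x j) = true)
    (fun e p => (∃ n, ∀ x, (∀ j, p (pre x j) = true) → ∀ v, v ∉ app e (bit x) n) ∨
      ∃ g, Computable g ∧ ∀ x, (∀ j, p (pre x j) = true) → ∀ n, ∀ v ∈ app e (bit x) n, v ≤ g n)
    (by
      rintro e p ⟨hp, hx⟩
      by_cases hc : ∃ n x, ∀ j,
          (p (pre x j) && (U e ((pre x j).map Bool.toNat) n).isNone) = true
      · obtain ⟨n, hc⟩ := hc
        refine ⟨fun σ => p σ && (U e (σ.map Bool.toNat) n).isNone, ⟨by fun_prop, hc⟩,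
          fun x h j => (Bool.and_eq_true_iff.1 (h j)).1, Or.inl ⟨n, fun x h v hv => ?_⟩⟩
        obtain ⟨k, hk⟩ := mem_app.1 hv
        simpa [map_pre, hk] using h k
      · obtain ⟨K, hK, hK'⟩ := CI.exists_choice (O := ∅) (p := fun n k => (W k).all fun σ =>
          (List.range (k + 1)).any fun j =>
            !(p (σ.take j) && (U e ((σ.take j).map Bool.toNat) n).isNone)) (by fun_prop) fun n => by
          obtain ⟨k, hk⟩ := stage (T := fun σ =>
            (p σ && (U e (σ.map Bool.toNat) n).isNone) = true) fun h => hc ⟨n, h⟩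
          refine ⟨k, List.all_eq_true.2 fun σ hσ => ?_⟩
          obtain ⟨j, h1, h2⟩ := hk σ hσ
          exact List.any_eq_true.2 ⟨j, List.mem_range.2 (by omega), by
            rw [Bool.not_eq_true', Bool.eq_false_iff]; exact h2⟩
        refine ⟨p, ⟨hp, hx⟩, fun _ h => h, Or.inr ⟨fun n => ((W (K n)).map fun σ =>
          (U e (σ.map Bool.toNat) n).getD 0).sum, CI.computable (by fun_prop), fun x h n v hv => ?_⟩⟩
        obtain ⟨j, h1, h2⟩ := List.any_eq_true.1 (List.all_eq_true.1 (hK' n) (pre x (K n))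
          (mem_W.2 (by simp)))
        have h3 : j ≤ K n := by simpa [Nat.lt_succ_iff] using h1
        rw [take_pre x h3, h j, map_pre] at h2
        obtain ⟨w, hw⟩ : ∃ w, U e (pre (bit x) j) n = some w := by
          cases hu : U e (pre (bit x) j) n <;> simp [hu] at h2 ⊢
        obtain rfl := Part.mem_unique hv (mem_app.2 ⟨j, hw⟩)
        refine List.single_le_sum (by simp) _ (List.mem_map.2 ⟨pre x (K n), mem_W.2 (by simp), ?_⟩)
        rw [map_pre, U_mon e _ _ _ _ (pre_pf _ h3) hw]; rfl)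
    T ⟨hT, h⟩
  obtain ⟨x, hx⟩ := chain_path (s := fun n σ => s n σ = true) (fun n => (h1 n).2) h2
  refine ⟨x, h0 ▸ hx 0, fun f hf => ?_⟩
  obtain ⟨e, he⟩ := exists_app_tot hf
  obtain ⟨n, ⟨m, hn⟩ | ⟨g, hg, hn⟩⟩ := h3 e
  · exact absurd (he m) (hn x (hx n) _)
  · exact ⟨g, hg, fun m => hn x (hx n) m _ (he m)⟩

/-- current witness and number of earlier witnesses -/
def st (e : ℕ) : ℕ → ℕ × ℕ
  | 0 => (0, 0)
  | s + 1 => bif (ev e (Nat.pair e (st e s).1) s).isSome then (s + 1, (st e s).2 + 1) else st e s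

theorem ci_st : CI ∅ fun q : ℕ × ℕ => st q.1 q.2 :=
  CI.of_rec (g := fun _ => (0, 0)) (h := fun e s p =>
    bif (ev e (Nat.pair e p.1) s).isSome then (s + 1, p.2 + 1) else p) (by fun_prop) (by fun_prop)
    (fun _ => rfl) fun _ _ => rfl

theorem st_stuck {e n j : ℕ} (h : st e n = (n, j)) (hd : ∀ s, ev e (Nat.pair e n) s = none) (m : ℕ)
    (hm : n ≤ m) : st e m = (n, j) := by
  induction m, hm using Nat.le_induction with
  | base => exact h
  | succ m _ ih => simp [st, ih, hd]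

theorem st_tot {e : ℕ} (h : ∀ n, ∃ s v, ev e n s = some v) (j : ℕ) : ∃ n, st e n = (n, j) := by
  induction j with
  | zero => exact ⟨0, rfl⟩
  | succ j ih =>
    obtain ⟨n, hn⟩ := ih
    obtain ⟨s, v, hs⟩ := h (Nat.pair e n)
    by_contra hc
    have : ∀ m, st e (n + m) = (n, j) := fun m => by
      induction m with
      | zero => exact hn
      | succ m ih =>
        cases hb : (ev e (Nat.pair e n) (n + m)).isSome
        · simp [← add_assoc, st, ih, hb]
        · exact absurd ⟨n + m + 1, by simp [st, ih, hb]⟩ hc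
    exact hc ⟨n + s + 1, by simp [st, this s, ev_mono (Nat.le_add_left s n) hs]⟩

theorem fire : ∃ bad : ℕ → ℕ, ∀ (O : Set (ℕ →. ℕ)) (r : ℕ → ℕ), CI O r → (∀ e, r e ≠ bad e) →
    ∃ f : ℕ → ℕ, CI O f ∧ ∀ g, Computable g → ∃ n, g n < f n := by
  have : ∀ e, ∃ b, ∀ n j, st e n = (n, j) → j ≠ b → ∃ s, (ev e (Nat.pair e n) s).isSome = true := by
    intro e
    by_cases h : ∃ n j, st e n = (n, j) ∧ ∀ s, ev e (Nat.pair e n) s = none
    · obtain ⟨n, j, h1, h2⟩ := h
      refine ⟨j, fun n' j' h3 h4 => by_contra fun h5 => h4 ?_⟩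
      have h6 := st_stuck h3 (by simpa using h5) _ (le_max_left n' n)
      rw [st_stuck h1 h2 _ (le_max_right n' n)] at h6
      exact (congrArg Prod.snd h6).symm
    · exact ⟨0, fun n j h1 _ => by_contra fun h5 => h ⟨n, j, h1, by simpa using h5⟩⟩
  choose bad hb using this
  refine ⟨bad, fun O r hr h => ?_⟩
  obtain ⟨S, hS, eS⟩ : ∃ S : ℕ × ℕ → ℕ × ℕ, CI O S ∧ ∀ a b, st a b = S (a, b) :=
    ⟨_, ci_st.of_empty, fun _ _ => rfl⟩
  obtain ⟨t, ht, ht'⟩ := CI.exists_choice (O := O) (p := fun n s =>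
    S n.unpair != (n.unpair.2, r n.unpair.1) || (ev n.unpair.1 n s).isSome) (by fun_prop) fun n => by
    by_cases hc : S n.unpair = (n.unpair.2, r n.unpair.1)
    · obtain ⟨s, hs⟩ := hb n.unpair.1 n.unpair.2 _ ((eS _ _).trans hc) (h _)
      rw [Nat.pair_unpair] at hs
      exact ⟨s, by simp [hs]⟩
    · exact ⟨0, by simp [hc]⟩
  refine ⟨fun n => (ev n.unpair.1 n (t n)).getD 0 + 1, by fun_prop, fun g hg => ?_⟩
  obtain ⟨e, he⟩ := exists_index (CI.of_comp hg)
  obtain ⟨n, hn⟩ := st_tot (fun n => (he n).imp fun _ h => ⟨_, h⟩) (r e)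
  refine ⟨Nat.pair e n, ?_⟩
  have := ht' (Nat.pair e n)
  simp only [Nat.unpair_pair, ← eS, hn, bne_self_eq_false, Bool.false_or,
    Option.isSome_iff_exists] at this ⊢
  obtain ⟨v, hv⟩ := this
  obtain ⟨s, hs⟩ := he (Nat.pair e n)
  simp [hv, ev_unique hs hv]

/-! ### large deviations -/

theorem dis_eq (X B : ℕ → Bool) (n : ℕ) :
    dis X B n = (List.range n).countP fun i => X i != B i := by
  induction n with
  | zero => rfl
  | succ n ih =>
    rw [List.range_succ, List.countP_append, ← ih, dis, dis, Finset.range_add_one,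
      Finset.filter_insert]
    by_cases h : X n = B n <;> simp [h]

theorem dis_congr {X X' B B' : ℕ → Bool} {n : ℕ} (h : ∀ i < n, X i = X' i)
    (h' : ∀ i < n, B i = B' i) : dis X B n = dis X' B' n :=
  congrArg Finset.card (Finset.filter_congr fun i hi => by
    rw [h i (Finset.mem_range.1 hi), h' i (Finset.mem_range.1 hi)])

theorem sum_dis (B : ℕ → Bool) (n : ℕ) :
    ((W n).map fun τ => (2 : ℝ) ^ dis (fun i => τ.getD i false) B n).sum = 3 ^ n := by
  induction n with
  | zero => simp [W, dis]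
  | succ n ih =>
    rw [sum_W_succ, pow_succ, ← ih, ← List.sum_map_mul_right]
    refine congrArg List.sum (List.map_congr_left fun σ hσ => ?_)
    have e : ∀ b, dis (fun i => (σ ++ [b]).getD i false) B (n + 1) =
        dis (fun i => σ.getD i false) B n + if b = B n then 0 else 1 := fun b => by
      rw [dis_eq, List.range_succ, List.countP_append, ← dis_eq,
        dis_congr (X' := fun i => σ.getD i false) (fun i hi => ?_) fun _ _ => rfl]
      · by_cases h : b = B n <;> simp [h, ← mem_W.1 hσ]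
      · rw [List.getD_append _ _ _ _ (by rwa [mem_W.1 hσ])]
    rw [e, e]
    cases B n <;> simp [pow_succ] <;> ring

theorem P_dev (B : ℕ → Bool) (n : ℕ) :
    P {X | 7 * n ≤ 8 * dis X B n} ≤ ENNReal.ofReal ((5 / 6) ^ n) := by
  have e : {X | 7 * n ≤ 8 * dis X B n} = {X | (fun τ : List Bool =>
      decide (7 * n ≤ 8 * dis (fun i => τ.getD i false) B n)) (pre X n) = true} := by
    ext X
    simp only [Set.mem_setOf_eq, decide_eq_true_eq]
    rw [dis_congr (X := fun i => (pre X n).getD i false) (fun i hi => getD_pre X hi _) fun _ _ => rfl]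
  have h : ∀ l : List (List Bool), (l.countP fun τ : List Bool =>
      decide (7 * n ≤ 8 * dis (fun i => τ.getD i false) B n) : ℝ) * (9 / 5) ^ n ≤
      (l.map fun τ => (2 : ℝ) ^ dis (fun i => τ.getD i false) B n).sum := fun l => by
    induction l with
    | nil => simp
    | cons τ l ih =>
      rw [List.countP_cons, List.map_cons, List.sum_cons]
      split_ifs with hc
      · have : (9 / 5 : ℝ) ^ n ≤ 2 ^ dis (fun i => τ.getD i false) B n := by
          refine le_of_pow_le_pow_left₀ (n := 8) (by norm_num) (by positivity) ?_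
          calc ((9 / 5 : ℝ) ^ n) ^ 8 = ((9 / 5) ^ 8) ^ n := by rw [← pow_mul, ← pow_mul, mul_comm]
            _ ≤ (2 ^ 7) ^ n := by gcongr; norm_num
            _ ≤ _ := by
              rw [← pow_mul, ← pow_mul]
              exact pow_le_pow_right₀ one_le_two (by simpa [mul_comm] using hc)
        push_cast; linarith
      · have : (0 : ℝ) ≤ 2 ^ dis (fun i => τ.getD i false) B n := by positivity
        push_cast; linarith
  have h1 := h (W n)
  rw [sum_dis] at h1
  rw [e.trans rfl, P_pre fun τ => decide (7 * n ≤ 8 * dis (fun i => τ.getD i false) B n),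
    ← ENNReal.ofReal_natCast, show (2⁻¹ : ℝ≥0∞) = ENNReal.ofReal 2⁻¹ by simp,
    ← ENNReal.ofReal_pow (by norm_num), ← ENNReal.ofReal_mul (by positivity)]
  refine ENNReal.ofReal_le_ofReal ?_
  rw [← le_div_iff₀ (by positivity), ← div_pow] at h1
  rw [← le_div_iff₀ (by positivity), ← div_pow]
  exact h1.trans_eq (by norm_num)

theorem geo {c r : ℝ} (hc : 0 ≤ c) (h0 : 0 ≤ r) (h1 : r < 1) :
    ∑' i : ℕ, ENNReal.ofReal (c * r ^ i) = ENNReal.ofReal (c * (1 - r)⁻¹) := by
  rw [← ENNReal.ofReal_tsum_of_nonneg (fun _ => by positivity)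
    ((summable_geometric_of_lt_one h0 h1).mul_left c), tsum_mul_left, tsum_geometric_of_lt_one h0 h1]

/-- some computation from `σ` disagrees with `τ` on most of a long initial segment -/
def Bd (σ : List ℕ) (τ : List Bool) : Bool :=
  (List.range τ.length).any fun e => (List.range (τ.length + 1)).any fun n =>
    decide (4 * e + 24 ≤ n) && ((List.range n).all fun i => (U e σ i).isSome) &&
      decide (7 * n ≤ 8 * (List.range n).countP fun i => τ.getD i false != (U e σ i == some 1))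

theorem ci_Bd : CI ∅ fun q : List ℕ × List Bool => Bd q.1 q.2 := by unfold Bd; fun_prop

open Classical in
theorem Bd_iff {y : ℕ → ℕ} {X : ℕ → Bool} {s t : ℕ} : Bd (pre y s) (pre X t) = true ↔
    ∃ e n, n ≤ t ∧ 4 * e + 24 ≤ n ∧ (∀ i < n, (U e (pre y s) i).isSome = true) ∧
      7 * n ≤ 8 * dis X (fun i => decide (1 ∈ app e y i)) n := by
  have k : ∀ e n, n ≤ t → (∀ i < n, (U e (pre y s) i).isSome = true) →
      ((List.range n).countP fun i => (pre X t).getD i false != (U e (pre y s) i == some 1)) =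
        dis X (fun i => decide (1 ∈ app e y i)) n := fun e n h1 h2 => by
    rw [← dis_eq]
    refine dis_congr (fun i hi => getD_pre X (by omega) _) fun i hi => ?_
    obtain ⟨v, hv⟩ := Option.isSome_iff_exists.1 (h2 i hi)
    have := mem_app.2 ⟨s, hv⟩
    rw [hv, Bool.eq_iff_iff]
    simpa using ⟨fun h => h ▸ this, fun h => Part.mem_unique this h⟩
  simp only [Bd, List.any_eq_true, List.mem_range, length_pre, Bool.and_eq_true, decide_eq_true_eq,
    List.all_eq_true, Nat.lt_succ_iff]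
  exact ⟨fun ⟨e, _, n, h1, ⟨h2, h3⟩, h4⟩ => ⟨e, n, h1, h2, h3, k e n h1 h3 ▸ h4⟩,
    fun ⟨e, n, h1, h2, h3, h4⟩ => ⟨e, by omega, n, h1, ⟨h2, h3⟩, (k e n h1 h3).symm ▸ h4⟩⟩

theorem Bd_mono {y : ℕ → ℕ} {X : ℕ → Bool} {s t s' t' : ℕ} (hs : s ≤ s') (ht : t ≤ t')
    (h : Bd (pre y s) (pre X t) = true) : Bd (pre y s') (pre X t') = true := by
  obtain ⟨e, n, h1, h2, h3, h4⟩ := Bd_iff.1 h
  refine Bd_iff.2 ⟨e, n, h1.trans ht, h2, fun i hi => ?_, h4⟩
  obtain ⟨v, hv⟩ := Option.isSome_iff_exists.1 (h3 i hi)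
  simp [U_mon e _ _ _ _ (pre_pf y hs) hv]

theorem P_Bd (y : ℕ → ℕ) : P {X | ∃ s, Bd (pre y s) (pre X (s / 2)) = true} ≤ 2⁻¹ ^ 2 := by
  classical
  refine (measure_mono (t := ⋃ e, ⋃ i, {X | 7 * (4 * e + 24 + i) ≤
    8 * dis X (fun i => decide (1 ∈ app e y i)) (4 * e + 24 + i)}) ?_).trans
    ((measure_iUnion_le _).trans ((ENNReal.tsum_le_tsum (g := fun e => ENNReal.ofReal
      ((5 / 6) ^ 24 * 6 * ((5 / 6) ^ 4) ^ e)) fun e => (measure_iUnion_le _).trans
        ((ENNReal.tsum_le_tsum fun i => P_dev _ _).trans ?_)).trans ?_))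
  · rintro X ⟨s, hs⟩
    obtain ⟨e, n, -, h2, -, h4⟩ := Bd_iff.1 hs
    obtain ⟨i, rfl⟩ := Nat.exists_eq_add_of_le h2
    exact Set.mem_iUnion.2 ⟨e, Set.mem_iUnion.2 ⟨i, h4⟩⟩
  · simp only [pow_add]
    rw [geo (by positivity) (by norm_num) (by norm_num), pow_mul]
    exact ENNReal.ofReal_le_ofReal (le_of_eq (by ring))
  · rw [geo (by positivity) (by norm_num) (by norm_num),
      show (2⁻¹ : ℝ≥0∞) = ENNReal.ofReal 2⁻¹ by simp, ← ENNReal.ofReal_pow (by norm_num)]
    exact ENNReal.ofReal_le_ofReal (by norm_num)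

theorem dl_of_Bd {X Y B : ℕ → Bool} (h : ¬ ∃ s, Bd (pre (bit Y) s) (pre X (s / 2)) = true)
    (hB : LE B Y) : dl X B ≤ 7 / 8 := by
  classical
  obtain ⟨e, he⟩ := exists_app_tot (ci_bit.2 hB)
  refine dl_le ((eventually_ge_atTop (4 * e + 24)).mono fun n hn => ?_)
  obtain ⟨s, h1, h2⟩ := (((eventually_all_finset (Finset.range n)).2 fun i _ =>
    mem_app'.1 (he i)).and (eventually_ge_atTop (2 * n))).exists
  have h3 : 8 * dis X B n < 7 * n := by
    refine lt_of_not_ge fun hc => h ⟨s, Bd_iff.2 ⟨e, n, by omega, hn, fun i hi => by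
      simp [h1 i (Finset.mem_range.2 hi)], ?_⟩⟩
    rwa [dis_congr (X' := X) (B' := B) (fun _ _ => rfl) fun i _ => ?_]
    have : (B i).toNat ∈ _ := he i
    cases hb : B i <;> rw [hb] at this
    · simpa using fun h => zero_ne_one (Part.mem_unique this h)
    · simpa using this
  have : (8 : ℝ) * dis X B n < 7 * n := by exact_mod_cast h3
  rw [div_le_iff₀ (by have : 0 < n := by omega
                      positivity)]
  linarith

end Pool.Agent.H37.Hd
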