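import Pool.Agent.H37.Hd3
import Pool.Agent.H37.Defc2

/-! Effectively closed classes inside a class in which nonempty subclasses have large measure. -/

set_option autoImplicit false

namespace Pool.Agent.H37.Hd

open MeasureTheory Filter Rnd Defc Encodable
open scoped ENNReal

/-- the `e`-th computable tree -/
def TT (e : ℕ) (τ : List Bool) : Bool :=
  (List.range (τ.length + 1)).all fun j => (ev e (encode (τ.take j)) τ.length).isNone

@[fun_prop] theorem ci_TT {α : Type} [Primcodable α] {O : Set (ℕ →. ℕ)} {e : α → ℕ}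
    {τ : α → List Bool} (he : CI O e) (hτ : CI O τ) : CI O fun a => TT (e a) (τ a) := by
  unfold TT; fun_prop

theorem TT_mono {e : ℕ} {σ τ : List Bool} (h : σ <+: τ) (ht : TT e τ = true) : TT e σ = true := by
  simp only [TT, List.all_eq_true, List.mem_range, Option.isNone_iff_eq_none] at ht ⊢
  intro j hj
  have h1 := h.length_le
  have h2 := ht j (by omega)
  obtain ⟨ρ, rfl⟩ := h
  rw [List.take_append_of_le_length (by omega)] at h2
  cases hv : ev e (encode (σ.take j)) σ.length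
  · rfl
  · rw [ev_mono h1 hv] at h2; cases h2

/-- the `e`-th effectively closed class -/
def Q (e : ℕ) : Set (ℕ → Bool) := {ω | ∀ n, TT e (pre ω n) = true}

theorem exists_Q {D : List Bool → Prop} (hD : REPred D) : ∃ e, Q e = {ω | ∀ n, ¬ D (pre ω n)} := by
  obtain ⟨e, he⟩ := re_index hD
  refine ⟨e, Set.ext fun ω => ?_⟩
  simp only [Q, TT, Set.mem_setOf_eq, he, List.all_eq_true, List.mem_range, length_pre, not_exists,
    Option.isNone_iff_eq_none]
  refine ⟨fun h n s hs => ?_, fun h n j hj => ?_⟩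
  · obtain ⟨v, hv⟩ := Option.isSome_iff_exists.1 hs
    have := h (n + s) n (by omega)
    rw [take_pre ω (by omega), ev_mono (by omega) hv] at this
    cases this
  · rw [take_pre ω (by omega)]
    simpa using h j n

theorem Q_inter (e : ℕ) {D : List Bool → Prop} (hD : REPred D) :
    ∃ e', Q e' = Q e ∩ {ω | ∀ n, ¬ D (pre ω n)} := by
  obtain ⟨e', h⟩ := exists_Q (re_or (re_of_bool (p := fun τ => ¬ TT e τ = true) (fun τ => !TT e τ)
    (by fun_prop) (by simp)) hD)
  exact ⟨e', h.trans (Set.ext fun ω => by simp [Q, forall_and])⟩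

attribute [irreducible] TT

/-- the part of the tree compatible with `σ` -/
def T2 (e : ℕ) (σ τ : List Bool) : Bool := TT e τ && τ.take σ.length == σ.take τ.length

@[fun_prop] theorem ci_T2 {α : Type} [Primcodable α] {O : Set (ℕ →. ℕ)} {e : α → ℕ}
    {σ τ : α → List Bool} (he : CI O e) (hσ : CI O σ) (hτ : CI O τ) :
    CI O fun a => T2 (e a) (σ a) (τ a) := by
  unfold T2; fun_prop

theorem T2_mono {e s t : ℕ} {σ : List Bool} {ω : ℕ → Bool} (h : s ≤ t)
    (ht : T2 e σ (pre ω t) = true) : T2 e σ (pre ω s) = true := by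
  simp only [T2, Bool.and_eq_true, beq_iff_eq, length_pre] at ht ⊢
  refine ⟨TT_mono (pre_pf ω h) ht.1, ?_⟩
  have := congrArg (List.take s) ht.2
  rwa [List.take_take, List.take_take, min_eq_left h, min_comm, ← List.take_take, take_pre ω h]
    at this

theorem T2_all {e : ℕ} {σ : List Bool} {ω : ℕ → Bool} :
    (∀ s, T2 e σ (pre ω s) = true) ↔ ω ∈ Q e ∩ cyl σ := by
  simp only [T2, Bool.and_eq_true, beq_iff_eq, length_pre, forall_and]
  refine and_congr Iff.rfl ⟨fun h => by simpa [cyl, take_pre ω le_rfl] using h σ.length,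
    fun h s => ?_⟩
  rw [← show pre ω σ.length = σ from h, length_pre]
  rcases le_total s σ.length with h | h
  · rw [take_pre ω h, List.take_of_length_le (by simpa)]
  · rw [take_pre ω h, List.take_of_length_le (by simpa)]

attribute [irreducible] T2

theorem P_anti {p : List Bool → Bool}
    (h : ∀ s t ω, s ≤ t → p (pre ω t) = true → p (pre ω s) = true) :
    P {ω | ∀ s, p (pre ω s) = true} = ⨅ s, P {ω | p (pre ω s) = true} := by
  rw [Set.setOf_forall]
  exact Antitone.measure_iInter (fun s t hs ω => h s t ω hs)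
    (fun s => (meas_set (fun τ => p τ = true) s).nullMeasurableSet) ⟨0, by simp⟩

/-- strings in a part of a class that has become small -/
def DV (τ : List Bool) : Prop := ∃ p : ℕ × List Bool, T2 p.1 p.2 τ = true ∧
  ((W τ.length).countP fun ρ => T2 p.1 p.2 ρ) * 2 ^ (encode p + 2) ≤ 2 ^ τ.length

theorem re_DV : REPred DV :=
  re_of_exists (fun τ (p : ℕ × List Bool) => T2 p.1 p.2 τ && decide
    (((W τ.length).countP fun ρ => T2 p.1 p.2 ρ) * 2 ^ (encode p + 2) ≤ 2 ^ τ.length))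
    (by fun_prop) fun τ => by simp [DV]

/-- the ground class -/
def RR : Set (ℕ → Bool) := {ω | ∀ n, ¬ DV (pre ω n)}

theorem geo2 (k : ℕ) : ∑' i : ℕ, (2⁻¹ : ℝ≥0∞) ^ (i + (k + 1)) = 2⁻¹ ^ k := by
  simp only [pow_add]
  rw [ENNReal.tsum_mul_right, ENNReal.tsum_geometric, ENNReal.one_sub_inv_two, inv_inv, pow_one,
    mul_comm, mul_assoc, ENNReal.inv_mul_cancel (by simp) (by simp), mul_one]

theorem lt_half {m n : ℕ} (h : m < n) : (2⁻¹ : ℝ≥0∞) ^ n < 2⁻¹ ^ m := by
  rw [← ENNReal.inv_pow, ← ENNReal.inv_pow, ENNReal.inv_lt_inv]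
  exact_mod_cast Nat.pow_lt_pow_right one_lt_two h

theorem lt_34 (m : ℕ) : (2⁻¹ : ℝ≥0∞) ^ (m + 4) + 2⁻¹ ^ (m + 3) < 2⁻¹ ^ (m + 2) :=
  (ENNReal.add_lt_add_right (by simp) (lt_half (Nat.lt_succ_self _))).trans_eq (by
    rw [pow_succ, ← mul_add, ENNReal.inv_two_add_inv_two, mul_one])

theorem ne_RR (m : ℕ) : 2⁻¹ ^ (m + 2) < P RR := by
  have h : P RRᶜ ≤ 2⁻¹ ^ 1 := by
    refine (measure_mono (t := ⋃ p : ℕ × List Bool, {ω | ∃ s, T2 p.1 p.2 (pre ω s) = true ∧
      P {ω | T2 p.1 p.2 (pre ω s) = true} ≤ 2⁻¹ ^ (encode p + 2)}) fun ω hc => ?_).trans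
      ((measure_iUnion_le _).trans ((ENNReal.tsum_le_tsum (g := fun p => 2⁻¹ ^ (encode p + 2))
        fun p => ?_).trans ((ENNReal.tsum_comp_le_tsum_of_injective encode_injective
          fun i => 2⁻¹ ^ (i + 2)).trans (geo2 1).le)))
    · obtain ⟨n, p, h1, h2⟩ : ∃ n, DV (pre ω n) := by_contra fun h => hc (not_exists.1 h)
      exact Set.mem_iUnion.2 ⟨p, n, h1, by rwa [P_pre, cnt_le, ← length_pre ω n]⟩
    · classical
      by_cases h : ∃ s, P {ω | T2 p.1 p.2 (pre ω s) = true} ≤ 2⁻¹ ^ (encode p + 2)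
      · refine le_trans (measure_mono ?_) (Nat.find_spec h)
        exact fun ω ⟨s, h1, h2⟩ => T2_mono (Nat.find_min' h h2) h1
      · exact le_trans (measure_mono (t := ∅) fun ω ⟨s, _, h2⟩ => h ⟨s, h2⟩) (by simp)
  refine lt_of_not_ge fun hc => ?_
  have h1 := (measure_union_le _ _).trans_lt ((add_le_add hc h).trans_lt
    (ENNReal.add_lt_add_right (by simp) (lt_half (m := 1) (by omega))))
  simp [ENNReal.inv_two_add_inv_two] at h1

/-- `σ` has an extension in the `e`-th class -/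
def Ext (e : ℕ) (σ : List Bool) : Prop := (Q e ∩ cyl σ).Nonempty

theorem big {e : ℕ} {σ : List Bool} (h : Q e ⊆ RR) (hσ : Ext e σ) :
    2⁻¹ ^ (encode (e, σ) + 2) ≤ P (Q e ∩ cyl σ) := by
  obtain ⟨ω, hω⟩ := hσ
  rw [show Q e ∩ cyl σ = {ω | ∀ s, T2 e σ (pre ω s) = true} from Set.ext fun _ => T2_all.symm,
    P_anti fun _ _ _ => T2_mono]
  refine le_iInf fun s => le_of_not_ge fun hc => h hω.1 s ⟨(e, σ), T2_all.2 hω s, ?_⟩
  rwa [P_pre, cnt_le, ← length_pre ω s] at hc

/-- the levels -/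
def lv : ℕ → ℕ
  | 0 => 0
  | j + 1 => 2 * lv j + j + 5 +
    ((List.range (j + 1)).map fun e => ((W (lv j)).map fun σ => encode (e, σ)).sum).sum

theorem ci_lv {O : Set (ℕ →. ℕ)} : CI O lv := CI.of_rec1 (h := fun j l => 2 * l + j + 5 +
    ((List.range (j + 1)).map fun e => ((W l).map fun σ => encode (e, σ)).sum).sum)
  (by fun_prop) fun _ => rfl

theorem lv_mono : Monotone lv := monotone_nat_of_le_succ fun j => by simp only [lv]; omega

theorem lv_gap {e k j : ℕ} {σ : List Bool} (he : e ≤ k) (hσ : σ.length = lv k) (hj : k ≤ j) :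
    lv j + (j - k + (encode (e, σ) + 5)) ≤ lv (j + 1) := by
  have h : lv k + (encode (e, σ) + 5) ≤ lv (k + 1) := by
    have h1 : encode (e, σ) ≤ ((W (lv k)).map fun σ => encode (e, σ)).sum :=
      List.single_le_sum (by simp) _ (List.mem_map.2 ⟨σ, mem_W.2 hσ, rfl⟩)
    have h2 : ((W (lv k)).map fun σ => encode (e, σ)).sum ≤ ((List.range (k + 1)).map fun e =>
        ((W (lv k)).map fun σ => encode (e, σ)).sum).sum :=
      List.single_le_sum (by simp) _ (List.mem_map.2 ⟨e, List.mem_range.2 (by omega), rfl⟩)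
    simp only [lv]; omega
  rcases hj.eq_or_lt with rfl | hj
  · omega
  · have := lv_mono (show k + 1 ≤ j from hj)
    rw [show lv (j + 1) = 2 * lv j + j + 5 + _ from rfl]; omega

attribute [irreducible] lv

/-- `τ` has extensions in the tree that are `u` bits longer -/
def al (e u : ℕ) (τ : List Bool) : Bool := (W u).any fun ρ => TT e (τ ++ ρ)

theorem pre_add {ω : ℕ → Bool} {τ : List Bool} (h : ω ∈ cyl τ) (u : ℕ) :
    ∃ ρ ∈ W u, τ ++ ρ = pre ω (τ.length + u) := by
  obtain ⟨ρ, hρ⟩ := pf_of_cyl h (Nat.le_add_right _ u)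
  exact ⟨ρ, mem_W.2 (by simpa using congrArg List.length hρ), hρ⟩

theorem Ext.al {e : ℕ} {τ : List Bool} (h : Ext e τ) (u : ℕ) : al e u τ = true := by
  obtain ⟨ω, h1, h2⟩ := h
  obtain ⟨ρ, h3, h4⟩ := pre_add h2 u
  exact List.any_eq_true.2 ⟨ρ, h3, h4 ▸ h1 _⟩

theorem ev_al {e : ℕ} {τ : List Bool} (h : ¬ Ext e τ) : ∀ᶠ u in atTop, al e u τ = false := by
  obtain ⟨k, hk⟩ := stage (T := fun ρ => T2 e τ ρ = true) fun ⟨ω, hω⟩ => h ⟨ω, T2_all.1 hω⟩
  refine (eventually_ge_atTop k).mono fun u hu => Bool.eq_false_iff.2 fun hc => ?_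
  obtain ⟨ρ, h1, h2⟩ := List.any_eq_true.1 hc
  have h3 : k ≤ (τ ++ ρ).length := by simp [mem_W.1 h1]; omega
  obtain ⟨j, h4, h5⟩ := hk ((τ ++ ρ).take k) (mem_W.2 (by rw [List.length_take]; omega))
  rw [← pre_getD (τ ++ ρ) false, take_pre _ h3, take_pre _ h4] at h5
  refine h5 (T2_mono (h4.trans h3) ?_)
  rw [pre_getD]
  unfold T2
  simp [h2]

/-- comparison in the direction given by `b` -/
def cm (b : Bool) (x y : ℕ) : Bool := bif b then decide (y < x) else decide (x < y)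

/-- number of live siblings on one side at stage `u` -/
def cn (b : Bool) (e j : ℕ) (τ : List Bool) (u : ℕ) : ℕ := (W (lv (j + 1))).countP fun ρ =>
  ρ.take (lv j) == τ.take (lv j) && cm b (encode ρ) (encode τ) && al e u ρ

@[fun_prop] theorem ci_cn {α : Type} [Primcodable α] {O : Set (ℕ →. ℕ)} (b : Bool) {e j u : α → ℕ}
    {τ : α → List Bool} (he : CI O e) (hj : CI O j) (hτ : CI O τ) (hu : CI O u) :
    CI O fun a => cn b (e a) (j a) (τ a) (u a) := by
  have := @ci_lv O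
  unfold cn cm al; fun_prop

open Classical in
/-- the extendible children of `σ` -/
noncomputable def Ch (e j : ℕ) (σ : List Bool) : Finset (List Bool) :=
  (W (lv (j + 1))).toFinset.filter fun ρ => ρ.take (lv j) = σ ∧ Ext e ρ

theorem mem_Ch {e j : ℕ} {σ ρ : List Bool} :
    ρ ∈ Ch e j σ ↔ ρ.length = lv (j + 1) ∧ ρ.take (lv j) = σ ∧ Ext e ρ := by
  simp [Ch, mem_W]

/-- number of extendible siblings on one side -/
noncomputable def CN (b : Bool) (e j : ℕ) (τ : List Bool) : ℕ :=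
  ((Ch e j (τ.take (lv j))).filter fun ρ => cm b (encode ρ) (encode τ) = true).card

theorem cnt_card (p : List Bool → Bool) (L : ℕ) :
    (W L).countP p = ((W L).toFinset.filter fun ρ => p ρ = true).card := by
  rw [List.countP_eq_length_filter, ← List.toFinset_card_of_nodup ((nodup_W L).filter _),
    List.toFinset_filter]

theorem CN_le (b : Bool) (e j : ℕ) (τ : List Bool) (u : ℕ) : CN b e j τ ≤ cn b e j τ u := by
  rw [cn, cnt_card]
  refine Finset.card_le_card fun ρ h => ?_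
  simp only [Finset.mem_filter, mem_Ch, List.mem_toFinset, mem_W] at h ⊢
  simp [h.1.1, h.1.2.1, h.2, h.1.2.2.al u]

theorem ev_cn (b : Bool) (e j : ℕ) (τ : List Bool) : ∀ᶠ u in atTop, cn b e j τ u ≤ CN b e j τ := by
  refine ((eventually_all_finset (W (lv (j + 1))).toFinset).2 fun ρ _ =>
    eventually_imp_distrib_left.2 (ev_al (e := e) (τ := ρ))).mono fun u hu => ?_
  rw [cn, cnt_card]
  refine Finset.card_le_card fun ρ h => ?_
  simp only [Finset.mem_filter, mem_Ch, Bool.and_eq_true, beq_iff_eq] at h ⊢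
  exact ⟨⟨mem_W.1 (List.mem_toFinset.1 h.1), h.2.1.1, by_contra fun hc => by
    simp [hu ρ h.1 hc] at h⟩, h.2.1.2⟩

attribute [irreducible] cn

theorem card_Ch {e j : ℕ} {σ : List Bool} (h : Q e ⊆ RR) (he : e ≤ j) (hl : σ.length = lv j)
    (hσ : Ext e σ) : 4 ≤ (Ch e j σ).card := by
  have h1 := (big h hσ).trans ((measure_mono (t := ⋃ ρ ∈ Ch e j σ, cyl ρ) fun ω hω => by
    simp only [Set.mem_iUnion, mem_Ch]
    have : ω ∈ cyl (pre ω (lv (j + 1))) := by simp [cyl]
    exact ⟨_, ⟨by simp, by rw [take_pre ω (lv_mono j.le_succ), ← hl]; exact hω.2, ω, hω.1, this⟩,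
      this⟩).trans (measure_biUnion_finset_le _ _))
  rw [Finset.sum_congr rfl (g := fun _ => 2⁻¹ ^ lv (j + 1)) fun ρ h => by
    rw [P_cyl, (mem_Ch.1 h).1], Finset.sum_const, nsmul_eq_mul] at h1
  by_contra hc
  refine (h1.trans ((cnt_le _ (encode (e, σ) + 3) _).2 ?_)).not_gt (lt_half (by omega))
  have := lv_gap he hl le_rfl
  calc _ ≤ 2 ^ 2 * 2 ^ (encode (e, σ) + 3) := Nat.mul_le_mul_right _ (by omega)
    _ ≤ _ := by rw [← pow_add]; exact Nat.pow_le_pow_right two_pos (by omega)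

/-- the least extendible child -/
def Least (e j : ℕ) (τ : List Bool) : Prop := Ext e τ ∧ CN false e j τ = 0

theorem Least.uniq {e j : ℕ} {τ ρ : List Bool} (h : Least e j τ) (h' : Least e j ρ)
    (l : τ.length = lv (j + 1)) (l' : ρ.length = lv (j + 1)) (t : τ.take (lv j) = ρ.take (lv j)) :
    τ = ρ := by
  have h1 := Finset.filter_eq_empty_iff.1 (Finset.card_eq_zero.1 h.2) (mem_Ch.2 ⟨l', t.symm, h'.1⟩)
  have h2 := Finset.filter_eq_empty_iff.1 (Finset.card_eq_zero.1 h'.2) (mem_Ch.2 ⟨l, t, h.1⟩)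
  simp only [cm, cond_false, decide_eq_true_eq] at h1 h2
  exact encode_injective (by omega)

theorem exists_least {e j : ℕ} {σ : List Bool} (h : (Ch e j σ).Nonempty) :
    ∃ τ ∈ Ch e j σ, CN false e j τ = 0 := by
  obtain ⟨τ, h1, h2⟩ := (Ch e j σ).exists_min_image encode h
  refine ⟨τ, h1, Finset.card_eq_zero.2 (Finset.filter_eq_empty_iff.2 fun ρ hρ => ?_)⟩
  rw [(mem_Ch.1 h1).2.1] at hρ
  simpa [cm] using h2 ρ hρ

theorem exists_child {e j : ℕ} {σ : List Bool} (h : 4 ≤ (Ch e j σ).card) (e' : ℕ) (b : Bool) :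
    ∃ τ ∈ Ch e j σ, ¬ Least e' j τ ∧ CN b e j τ ≤ 1 ∧ 2 ≤ CN (!b) e j τ := by
  let f : List Bool → ℤ := fun ρ => bif b then -(encode ρ : ℤ) else encode ρ
  have hf : ∀ ρ τ, cm b (encode ρ) (encode τ) = true ↔ f ρ < f τ := fun ρ τ => by
    cases b <;> simp [cm, f]
  suffices H : ∃ τ ∈ Ch e j σ, ¬ Least e' j τ ∧ CN b e j τ ≤ 1 by
    obtain ⟨τ, h1, h2, h3⟩ := H
    refine ⟨τ, h1, h2, h3, ?_⟩
    have := (Finset.card_le_card (show Ch e j σ ⊆ insert τ
      (((Ch e j σ).filter fun ρ => cm b (encode ρ) (encode τ) = true) ∪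
        (Ch e j σ).filter fun ρ => cm (!b) (encode ρ) (encode τ) = true) from fun ρ hρ => by
      simp only [Finset.mem_insert, Finset.mem_union, Finset.mem_filter, hρ, true_and,
        ← encode_inj (a := ρ)]
      generalize encode ρ = x, encode τ = y
      cases b <;> simp [cm] <;> omega)).trans ((Finset.card_insert_le _ _).trans
        (Nat.succ_le_succ (Finset.card_union_le _ _)))
    rw [CN, (mem_Ch.1 h1).2.1] at h3 ⊢
    omega
  obtain ⟨a, a1, a2⟩ := (Ch e j σ).exists_min_image f (Finset.card_pos.1 (by omega))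
  obtain ⟨c, c1, c2⟩ := ((Ch e j σ).erase a).exists_min_image f (Finset.card_pos.1 (by
    rw [Finset.card_erase_of_mem a1]; omega))
  have k : ∀ τ ∈ Ch e j σ, f τ ≤ f c → CN b e j τ ≤ 1 := fun τ h1 h2 => by
    rw [CN, (mem_Ch.1 h1).2.1]
    refine (Finset.card_le_card (t := {a}) fun ρ hρ => ?_).trans (by simp)
    rw [Finset.mem_filter, hf] at hρ
    exact Finset.mem_singleton.2 (by_contra fun hc => by
      have := c2 ρ (Finset.mem_erase.2 ⟨hc, hρ.1⟩); omega)
  have c3 := Finset.mem_erase.1 c1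
  by_cases ha : Least e' j a
  · exact ⟨c, c3.2, fun hc => c3.1 (hc.uniq ha (mem_Ch.1 c3.2).1 (mem_Ch.1 a1).1
      ((mem_Ch.1 c3.2).2.1.trans (mem_Ch.1 a1).2.1.symm)), k c c3.2 le_rfl⟩
  · exact ⟨a, a1, ha, k a a1 (a2 c c3.2)⟩

/-- the sets that pass through the least child at level `j` -/
def Bad (j : ℕ) : Set (ℕ → Bool) := {ω | Least j.unpair.1 j (pre ω (lv (j + 1)))}

theorem P_Bad {j n : ℕ} (h : lv j + n ≤ lv (j + 1)) : P (Bad j) ≤ 2⁻¹ ^ n := by
  classical
  have := P_pre (fun τ => decide (Least j.unpair.1 j τ)) (lv (j + 1))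
  simp only [decide_eq_true_eq] at this
  rw [Bad, this, cnt_le, cnt_card]
  refine le_trans (Nat.mul_le_mul_right _ ?_) ((pow_add _ _ _).symm.trans_le
    (Nat.pow_le_pow_right two_pos h))
  rw [← length_W, ← List.toFinset_card_of_nodup (nodup_W _)]
  refine Finset.card_le_card_of_injOn (·.take (lv j)) (fun τ hτ => ?_) fun τ hτ ρ hρ e => ?_
  · simp only [Finset.coe_filter, List.mem_toFinset, mem_W, Set.mem_setOf_eq, Finset.mem_coe] at hτ ⊢
    rw [List.length_take]; omega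
  · simp only [Finset.coe_filter, List.mem_toFinset, mem_W, Set.mem_setOf_eq,
      decide_eq_true_eq] at hτ hρ
    exact hτ.2.uniq hρ.2 hτ.1 hρ.1 e

theorem avoid {e k : ℕ} {σ : List Bool} (he : e ≤ k) (hσ : σ.length = lv k) {S : Set (ℕ → Bool)}
    (h : 2⁻¹ ^ (encode (e, σ) + 4) < P S) : ∃ ω ∈ S, ∀ j, k ≤ j → ω ∉ Bad j := by
  by_contra hc
  push Not at hc
  refine h.not_ge ((measure_mono (t := ⋃ i, Bad (k + i)) fun ω hω => ?_).trans
    ((measure_iUnion_le _).trans ((ENNReal.tsum_le_tsum fun i => P_Bad ?_).trans (geo2 _).le)))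
  · obtain ⟨j, h1, h2⟩ := hc ω hω
    exact Set.mem_iUnion.2 ⟨j - k, by rwa [Nat.add_sub_cancel' h1]⟩
  · simpa using lv_gap he hσ (Nat.le_add_right k i)

end Pool.Agent.H37.Hd
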