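import Pool.Agent.H37.Hd5

/-! A random set that avoids a cone and computes a function infinitely often equal to every member
of a countable family. -/

set_option autoImplicit false

namespace Pool.Agent.H37.Hd

open MeasureTheory Filter Rnd Defc Encodable
open scoped ENNReal

/-- `s` is the first stage at which `ω` looks like the least child at level `j` -/
def act (j : ℕ) (ω : ℕ → Bool) (s : ℕ) : Bool :=
  cn false j.unpair.1 j (pre ω (lv (j + 1))) s == 0 &&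
    (List.range s).all fun r => cn false j.unpair.1 j (pre ω (lv (j + 1))) r != 0

/-- the decoding started at level `j` does not get stuck -/
def Good (g : ℕ → ℕ) (j : ℕ) (ω : ℕ → Bool) : Prop := ∀ s, act j ω s = true → ω ∈ Q j.unpair.1 →
  ∀ m < g (Nat.pair j s), ∃ b, CN b j.unpair.1 (j + 1 + m) (pre ω (lv (j + 1 + m + 1))) ≤ 1

theorem good_of {g : ℕ → ℕ} {j : ℕ} {ω : ℕ → Bool} (h : ω ∉ Bad j) : Good g j ω := fun s hs hQ =>
  absurd ⟨⟨ω, hQ, by simp [cyl]⟩, by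
    have := CN_le false j.unpair.1 j (pre ω (lv (j + 1))) s
    simp only [act, Bool.and_eq_true, beq_iff_eq] at hs
    omega⟩ h

theorem psi {g : ℕ → ℕ} (hg : CI ∅ g) {B : ℕ → Bool} (hB : ∀ j, Good g j B) :
    ∃ Ψ : ℕ × ℕ → Bool, CI (orc (bit B)) Ψ ∧ ∀ j s m b, act j B s = true → B ∈ Q j.unpair.1 →
      m < g (Nat.pair j s) → CN b j.unpair.1 (j + 1 + m) (pre B (lv (j + 1 + m + 1))) ≤ 1 →
      2 ≤ CN (!b) j.unpair.1 (j + 1 + m) (pre B (lv (j + 1 + m + 1))) → Ψ (Nat.pair j s, m) = b := by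
  have h1 : CI (orc (bit B)) B := LE.refl B
  have h2 := @ci_lv (orc (bit B))
  have h3 : CI (orc (bit B)) g := hg.of_empty
  obtain ⟨a, ha, ea⟩ : ∃ a : ℕ × ℕ → Bool, CI (orc (bit B)) a ∧ ∀ j s, act j B s = a (j, s) :=
    ⟨fun q => act q.1 B q.2, by unfold act; fun_prop, fun _ _ => rfl⟩
  obtain ⟨u, hu, hu'⟩ := CI.exists_choice (O := orc (bit B)) (p := fun (q : ℕ × ℕ) (u : ℕ) =>
    !a q.1.unpair || decide (g q.1 ≤ q.2) || !TT q.1.unpair.1.unpair.1 (pre B u) ||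
      decide (cn false q.1.unpair.1.unpair.1 (q.1.unpair.1 + 1 + q.2)
        (pre B (lv (q.1.unpair.1 + 1 + q.2 + 1))) u ≤ 1) ||
      decide (cn true q.1.unpair.1.unpair.1 (q.1.unpair.1 + 1 + q.2)
        (pre B (lv (q.1.unpair.1 + 1 + q.2 + 1))) u ≤ 1)) (by fun_prop) (by
    rintro ⟨t, m⟩
    obtain ⟨⟨j, s⟩, rfl⟩ := Nat.pairEquiv.surjective t
    simp only [Nat.pairEquiv_apply, Function.uncurry, Nat.unpair_pair, ← ea, Bool.or_eq_true,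
      Bool.not_eq_true', decide_eq_true_eq]
    by_contra hc
    push Not at hc
    obtain ⟨b, hb⟩ := hB j s (by simpa using (hc 0).1.1.1.1) (fun n => by simpa using (hc n).1.1.2)
      m (hc 0).1.1.1.2
    obtain ⟨u, hu⟩ := (ev_cn b j.unpair.1 (j + 1 + m) (pre B (lv (j + 1 + m + 1)))).exists
    have := hc u
    cases b <;> omega)
  refine ⟨fun q => decide (cn true q.1.unpair.1.unpair.1 (q.1.unpair.1 + 1 + q.2)
    (pre B (lv (q.1.unpair.1 + 1 + q.2 + 1))) (u q) ≤ 1), by fun_prop, fun j s m b a1 a2 a3 a4 a5 => ?_⟩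
  have h4 := hu' (Nat.pair j s, m)
  have h5 := CN_le (!b) j.unpair.1 (j + 1 + m) (pre B (lv (j + 1 + m + 1))) (u (Nat.pair j s, m))
  simp only [Nat.unpair_pair, ← ea, a1, a2 _, Bool.or_eq_true, Bool.not_true, Bool.false_eq_true,
    decide_eq_true_eq, false_or, or_false] at h4 ⊢
  cases b <;> simp only [Bool.not_true, Bool.not_false, decide_eq_true_eq, decide_eq_false_iff_not]
    at h5 a5 ⊢ <;> omega

/-- the class of a condition -/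
def CC (p : ℕ × ℕ × List Bool) : Set (ℕ → Bool) := Q p.2.1 ∩ cyl p.2.2

/-- conditions -/
def II (g : ℕ → ℕ) (p : ℕ × ℕ × List Bool) : Prop := p.2.1 ≤ p.1 ∧ p.2.2.length = lv p.1 ∧
  Q p.2.1 ⊆ RR ∧ Ext p.2.1 p.2.2 ∧ ∀ ω ∈ CC p, ∀ j < p.1, Good g j ω

theorem cyl_pre {ω x : ℕ → Bool} {n m : ℕ} (h : x ∈ cyl (pre ω n)) (hm : m ≤ n) :
    pre x m = pre ω m := by
  rw [← take_pre x hm, ← take_pre ω hm, ← show pre x (pre ω n).length = _ from h, length_pre]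

theorem shrink {g : ℕ → ℕ} {k e e' k' : ℕ} {σ : List Bool} (h : II g (k, e, σ)) (hQ : Q e' ⊆ Q e)
    (hP : 2⁻¹ ^ (encode (e, σ) + 4) < P (Q e' ∩ cyl σ)) (h1 : k ≤ k') (h2 : e' ≤ k') :
    ∃ τ, II g (k', e', τ) ∧ cyl τ ⊆ cyl σ := by
  obtain ⟨ω, a1, a2⟩ := avoid h.1 h.2.1 hP
  have hs : cyl (pre ω (lv k')) ⊆ cyl σ := fun x hx =>
    (cyl_pre hx (h.2.1.trans_le (lv_mono h1))).trans a1.2
  refine ⟨_, ⟨h2, by simp, hQ.trans h.2.2.1, ⟨ω, a1.1, by simp [cyl]⟩, fun x hx j hj => ?_⟩, hs⟩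
  rcases lt_or_ge j k with hk | hk
  · exact h.2.2.2.2 x ⟨hQ hx.1, hs hx.2⟩ j hk
  · refine good_of fun hc => a2 j hk ?_
    rwa [Bad, Set.mem_setOf_eq, cyl_pre hx.2 (lv_mono hj)] at hc

theorem step_test {g : ℕ → ℕ} {D : ℕ → List Bool → Prop} (hD : ∀ n, REPred (D n))
    (hm : ∀ n, P {ω | ∃ s, D n (pre ω s)} ≤ 2⁻¹ ^ n) {p : ℕ × ℕ × List Bool} (h : II g p) :
    ∃ q, II g q ∧ CC q ⊆ CC p ∧ ∃ n, ∀ ω ∈ CC q, ∀ s, ¬ D n (pre ω s) := by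
  obtain ⟨k, e, σ⟩ := p
  obtain ⟨e', he⟩ := Q_inter e (hD (encode (e, σ) + 3))
  have hQ : Q e' ⊆ Q e := he ▸ Set.inter_subset_left
  obtain ⟨τ, h1, h2⟩ := shrink h hQ (lt_of_not_ge fun hc => (lt_34 _).not_ge
    ((big h.2.2.1 h.2.2.2.1).trans ((measure_mono fun ω hω => by
      by_cases hd : ∃ s, D (encode (e, σ) + 3) (pre ω s)
      · exact Or.inr hd
      · exact Or.inl ⟨he ▸ ⟨hω.1, not_exists.1 hd⟩, hω.2⟩).trans
      ((measure_union_le _ _).trans (add_le_add hc (hm _)))))) (le_max_left k e') (le_max_right _ _)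
  exact ⟨_, h1, Set.inter_subset_inter hQ h2, _, fun ω hω => (he.le hω.1).2⟩

theorem step_cone {g : ℕ → ℕ} {A : ℕ → Bool} (hA : ¬ CI ∅ A) (c : ℕ) {p : ℕ × ℕ × List Bool}
    (h : II g p) : ∃ q, II g q ∧ CC q ⊆ CC p ∧ c ≤ q.1 ∧
      ∃ n, ∀ ω ∈ CC q, bit A n ∉ app c (bit ω) n := by
  obtain ⟨k, e, σ⟩ := p
  have := fun n => Q_inter e (re_of_bool (p := fun τ : List Bool =>
    U c (τ.map Bool.toNat) n = some (bit A n)) (fun τ => U c (τ.map Bool.toNat) n == some (bit A n))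
    (by fun_prop) (by simp))
  choose E hE using this
  by_cases hc : ∃ n, 2⁻¹ ^ (encode (e, σ) + 4) < P (Q (E n) ∩ cyl σ)
  · obtain ⟨n, hn⟩ := hc
    have hQ : Q (E n) ⊆ Q e := hE n ▸ Set.inter_subset_left
    obtain ⟨τ, h1, h2⟩ := shrink (k' := k + E n + c) h hQ hn (by omega) (by omega)
    refine ⟨_, h1, Set.inter_subset_inter hQ h2, by simp, n, fun ω hω hv => ?_⟩
    obtain ⟨s, hs⟩ := mem_app.1 hv
    exact ((hE n).le hω.1).2 s (by rwa [map_pre])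
  push Not at hc
  let G : ℕ → Bool → List Bool → Bool := fun n v τ =>
    T2 e σ τ && U c (τ.map Bool.toNat) n != some v.toNat
  obtain ⟨f, hf, hf'⟩ := CI.exists_choice (O := ∅) (p := fun (n : ℕ) (q : Bool × ℕ) => decide
    (((W q.2).countP fun τ => G n q.1 τ) * 2 ^ (encode (e, σ) + 3) ≤ 2 ^ q.2))
    (by simp only [G]; fun_prop) fun n => by
    have h1 := P_anti (p := G n (A n)) fun s t ω hs ht => by
      simp only [G, Bool.and_eq_true, bne_iff_ne, map_pre] at ht ⊢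
      exact ⟨T2_mono hs ht.1, fun h => ht.2 (U_mon c _ _ _ _ (pre_pf _ hs) h)⟩
    have h2 : {ω | ∀ s, G n (A n) (pre ω s) = true} ⊆ Q (E n) ∩ cyl σ := fun ω hω => by
      simp only [G, Bool.and_eq_true, bne_iff_ne, Set.mem_setOf_eq, forall_and, T2_all] at hω
      exact ⟨hE n ▸ ⟨hω.1.1, hω.2⟩, hω.1.2⟩
    obtain ⟨s, hs⟩ := iInf_lt_iff.1 (h1.symm.trans_lt (((measure_mono h2).trans (hc n)).trans_lt
      (lt_half (Nat.lt_succ_self _))))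
    exact ⟨(A n, s), decide_eq_true ((cnt_le _ _ _).1 ((P_pre _ _).symm.trans_le hs.le))⟩
  refine absurd (hf.fst.of_eq fun n => by_contra fun hn => ?_) hA
  have h1 := (P_pre _ _).trans_le ((cnt_le _ _ _).2 (of_decide_eq_true (hf' n)))
  refine (lt_34 _).not_ge ((big h.2.2.1 h.2.2.2.1).trans ((measure_mono fun ω hω => ?_).trans
    ((measure_union_le _ _).trans (add_le_add (hc n) h1))))
  by_cases hd : U c (pre (bit ω) (f n).2) n = some (f n).1.toNat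
  · refine Or.inl ⟨hE n ▸ ⟨hω.1, fun s hs => hn ?_⟩, hω.2⟩
    have := Part.mem_unique (mem_app.2 ⟨_, hd⟩) (mem_app.2 ⟨s, map_pre ω s ▸ hs⟩)
    unfold bit at this
    revert this
    cases (f n).1 <;> cases A n <;> simp
  · exact Or.inr (by simp [G, T2_all.2 hω, map_pre, hd])

theorem step_code {g : ℕ → ℕ} (F : ℕ → ℕ → Bool) (N : ℕ) {p : ℕ × ℕ × List Bool} (h : II g p) :
    ∃ q, II g q ∧ CC q ⊆ CC p ∧ ∃ j s, N ≤ j ∧ ∀ ω ∈ CC q, act j ω s = true ∧ ω ∈ Q j.unpair.1 ∧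
      ∀ m < g (Nat.pair j s),
        CN (F (Nat.pair j s) m) j.unpair.1 (j + 1 + m) (pre ω (lv (j + 1 + m + 1))) ≤ 1 ∧
        2 ≤ CN (!F (Nat.pair j s) m) j.unpair.1 (j + 1 + m) (pre ω (lv (j + 1 + m + 1))) := by
  classical
  obtain ⟨k, e, σ⟩ := p
  obtain ⟨j, hj, rfl⟩ : ∃ j, k + N ≤ j ∧ j.unpair.1 = e :=
    ⟨Nat.pair e (k + N), Nat.right_le_pair _ _, by simp⟩
  have he := Nat.unpair_left_le j
  obtain ⟨σ1, h1, h2⟩ := shrink (k' := j) h subset_rfl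
    ((lt_half (by omega)).trans_le (big h.2.2.1 h.2.2.2.1)) (by omega) he
  have hR : Q j.unpair.1 ⊆ RR := h.2.2.1
  have sub : ∀ {i ρ τ}, ρ.length = lv i → τ ∈ Ch j.unpair.1 i ρ → cyl τ ⊆ cyl ρ := fun l hτ x hx => by
    obtain ⟨a1, a2, -⟩ := mem_Ch.1 hτ
    rw [← a2, ← show pre x _ = _ from hx, a1, take_pre x (lv_mono (Nat.le_succ _))]
    simp [cyl]
  obtain ⟨τ0, a1, a2⟩ := exists_least (Finset.card_pos.1
    (lt_of_lt_of_le (by omega) (card_Ch hR he h1.2.1 h1.2.2.2.1)))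
  have ex : ∃ s, cn false j.unpair.1 j τ0 s = 0 :=
    (ev_cn false j.unpair.1 j τ0).exists.imp fun s hs => by omega
  have ac : ∀ ω ∈ cyl τ0, ∀ s, act j ω s = true ↔ s = Nat.find ex := fun ω hω s => by
    rw [eq_comm (a := s), Nat.find_eq_iff, act, ← (mem_Ch.1 a1).1, show pre ω τ0.length = τ0 from hω]
    simp
  have ind : ∀ r, ∃ τ, τ.length = lv (j + 1 + r) ∧ cyl τ ⊆ cyl τ0 ∧ Ext j.unpair.1 τ ∧
      ∀ ω ∈ cyl τ, ∀ m < r, ω ∉ Bad (j + 1 + m) ∧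
        CN (F (Nat.pair j (Nat.find ex)) m) j.unpair.1 (j + 1 + m) (pre ω (lv (j + 1 + m + 1))) ≤ 1 ∧
        2 ≤ CN (!F (Nat.pair j (Nat.find ex)) m) j.unpair.1 (j + 1 + m)
          (pre ω (lv (j + 1 + m + 1))) := fun r => by
    induction r with
    | zero => exact ⟨τ0, (mem_Ch.1 a1).1, subset_rfl, (mem_Ch.1 a1).2.2, by simp⟩
    | succ r ih =>
      obtain ⟨τ, b1, b2, b3, b4⟩ := ih
      obtain ⟨ρ, c1, c2⟩ := exists_child (card_Ch hR (by omega) b1 b3) (j + 1 + r).unpair.1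
        (F (Nat.pair j (Nat.find ex)) r)
      refine ⟨ρ, (mem_Ch.1 c1).1, (sub b1 c1).trans b2, (mem_Ch.1 c1).2.2, fun ω hω m hm => ?_⟩
      rcases Nat.lt_succ_iff_lt_or_eq.1 hm with hm | rfl
      · exact b4 ω (sub b1 c1 hω) m hm
      · rwa [Bad, Set.mem_setOf_eq, ← (mem_Ch.1 c1).1, show pre ω ρ.length = ρ from hω]
  obtain ⟨τ, b1, b2, b3, b4⟩ := ind (g (Nat.pair j (Nat.find ex)))
  have b5 := b2.trans (sub h1.2.1 a1)
  refine ⟨(_, j.unpair.1, τ), ⟨by simp only; omega, b1, hR, b3, fun ω hω i hi => ?_⟩,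
    Set.inter_subset_inter_right _ (b5.trans h2), j, Nat.find ex, by omega, fun ω hω =>
    ⟨(ac ω (b2 hω.2) _).2 rfl, hω.1, fun m hm => (b4 ω hω.2 m hm).2⟩⟩
  rcases lt_trichotomy i j with hk | rfl | hk
  · exact h1.2.2.2.2 ω ⟨hω.1, b5 hω.2⟩ i hk
  · intro s hs _ m hm
    obtain rfl := (ac ω (b2 hω.2) _).1 hs
    exact ⟨_, (b4 ω hω.2 m hm).2.1⟩
  · obtain ⟨m, rfl⟩ := Nat.exists_eq_add_of_le (show j + 1 ≤ i from hk)
    exact good_of (b4 ω hω.2 m (by simp only at hi; omega)).1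

theorem coding {g : ℕ → ℕ} (hg : CI ∅ g) {ι κ : Type} [Countable ι] [Countable κ]
    (F : ι → ℕ → ℕ → Bool) {A : ℕ → Bool} (hA : ¬ CI ∅ A) (D : κ → ℕ → List Bool → Prop)
    (hD : ∀ i n, REPred (D i n)) (hm : ∀ i n, P {ω | ∃ s, D i n (pre ω s)} ≤ 2⁻¹ ^ n) :
    ∃ B, (∀ i, ∃ n, ∀ s, ¬ D i n (pre B s)) ∧ ¬ LE A B ∧ ∃ Ψ : ℕ × ℕ → Bool, CI (orc (bit B)) Ψ ∧
      ∀ i N, ∃ t, N ≤ t ∧ ∀ m < g t, Ψ (t, m) = F i t m := by
  obtain ⟨e0, h0⟩ := exists_Q re_DV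
  have hR : Q e0 ⊆ RR := h0.le
  obtain ⟨ω1, a1, a2⟩ := avoid (e := 0) (k := 0) (σ := []) le_rfl (by unfold lv; rfl) (ne_RR _)
  obtain ⟨s, -, h1, h2, h3⟩ := chain (P := ℕ × ℕ × List Bool) (ι := κ ⊕ ℕ ⊕ ι × ℕ)
    (fun q p => CC q ⊆ CC p) (fun _ => subset_rfl) (fun _ _ _ => subset_trans) (II g)
    (fun i q => match i with
      | .inl i => ∃ n, ∀ ω ∈ CC q, ∀ s, ¬ D i n (pre ω s)
      | .inr (.inl c) => c ≤ q.1 ∧ ∃ n, ∀ ω ∈ CC q, bit A n ∉ app c (bit ω) n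
      | .inr (.inr (i, N)) => ∃ j s, N ≤ j ∧ ∀ ω ∈ CC q, act j ω s = true ∧ ω ∈ Q j.unpair.1 ∧
        ∀ m < g (Nat.pair j s),
          CN (F i (Nat.pair j s) m) j.unpair.1 (j + 1 + m) (pre ω (lv (j + 1 + m + 1))) ≤ 1 ∧
          2 ≤ CN (!F i (Nat.pair j s) m) j.unpair.1 (j + 1 + m) (pre ω (lv (j + 1 + m + 1))))
    (by
      rintro (i | c | ⟨i, N⟩) p hp
      exacts [step_test (hD i) (hm i) hp, step_cone hA c hp, step_code (F i) N hp])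
    (e0, e0, pre ω1 (lv e0)) ⟨le_rfl, by simp, hR, ⟨ω1, h0.ge a1, by simp [cyl]⟩, fun ω hω j hj =>
      good_of fun hc => a2 j j.zero_le (by rwa [Bad, Set.mem_setOf_eq, cyl_pre hω.2 (lv_mono hj)] at hc)⟩
  obtain ⟨B, hB⟩ := chain_path (s := fun n τ => T2 (s n).2.1 (s n).2.2 τ = true)
    (fun n => (h1 n).2.2.2.1.imp fun _ => T2_all.2) fun n m h x hx => T2_all.2 (h2 n m h (T2_all.1 hx))
  have hB' : ∀ n, B ∈ CC (s n) := fun n => T2_all.1 (hB n)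
  obtain ⟨Ψ, b1, b2⟩ := psi hg (B := B) fun j => by
    obtain ⟨n, hn, -⟩ := h3 (.inr (.inl (j + 1)))
    exact (h1 n).2.2.2.2 B (hB' n) j hn
  refine ⟨B, fun i => ?_, fun h => ?_, Ψ, b1, fun i N => ?_⟩
  · obtain ⟨n, m, hn⟩ := h3 (.inl i)
    exact ⟨m, hn B (hB' n)⟩
  · obtain ⟨c, hc⟩ := exists_app_tot (ci_bit.2 h)
    obtain ⟨n, -, m, hn⟩ := h3 (.inr (.inl c))
    exact hn B (hB' n) (hc m)
  · obtain ⟨n, j, r, c1, c2⟩ := h3 (.inr (.inr (i, N)))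
    obtain ⟨c3, c4, c5⟩ := c2 B (hB' n)
    exact ⟨_, c1.trans (Nat.left_le_pair j r), fun m hm =>
      b2 j r m _ c3 c4 hm (c5 m hm).1 (c5 m hm).2⟩

end Pool.Agent.H37.Hd
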