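import Pool.Agent.H37.Hd6

/-! Every random degree has an incomparable random degree at distance one. -/

set_option autoImplicit false

namespace Pool.Agent.H37.Hd

open MeasureTheory Filter Rnd Defc Encodable
open scoped ENNReal

/-- tests -/
def Tst (f : ℕ → Option (ℕ × List Bool)) : Prop := Computable f ∧
  ∀ n L : ℕ, {τ : Fin L → Bool | ∃ k : ℕ, ∃ σ : List Bool,
    f k = some (n, σ) ∧ List.IsPrefix σ (List.ofFn τ)}.ncard * 2 ^ n ≤ 2 ^ L

/-- randomness -/
def R2 (A : ℕ → Bool) : Prop := ∀ f, Tst f → ∃ n : ℕ, ∀ k : ℕ, ∀ σ : List Bool, f k = some (n, σ) →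
  List.ofFn (fun i : Fin σ.length => A i.val) ≠ σ

theorem ofFn_pre (X : ℕ → Bool) (n : ℕ) : List.ofFn (fun i : Fin n => X i) = pre X n :=
  List.ext_getElem (by simp) fun i _ _ => by simp [pre]

theorem R2.not_ci {A : ℕ → Bool} (h : R2 A) : ¬ CI ∅ A := fun hA => by
  obtain ⟨n, hn⟩ := h (fun k => some (k, pre A k)) ⟨CI.computable (by fun_prop), fun n L => by
    have h1 := P_pre (fun τ => decide (pre A n <+: τ)) L
    have h2 := P_cyl (pre A n)
    rw [length_pre] at h2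
    refine le_trans (Nat.mul_le_mul_right _ ?_) ((cnt_le _ n L).1 (h1.symm.trans_le
      ((measure_mono fun ω hω => mem_cyl (of_decide_eq_true hω)).trans h2.le)))
    rw [cnt_card, ← Set.ncard_coe_finset]
    refine Set.ncard_le_ncard_of_injOn List.ofFn ?_ List.ofFn_injective.injOn
    rintro τ ⟨k, σ, h3, h4⟩
    obtain ⟨rfl, rfl⟩ : k = n ∧ pre A k = σ := by simpa using h3
    simp [mem_W, h4]⟩
  exact hn n _ rfl (by rw [ofFn_pre, length_pre])

theorem Tst.le {f : ℕ → Option (ℕ × List Bool)} (h : Tst f) (n : ℕ) :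
    P {ω | ∃ s k, f k = some (n, pre ω s)} ≤ 2⁻¹ ^ n := by
  classical
  refine le_trans (measure_mono fun ω ⟨s, k, hk⟩ => ?_) (P_mono_le (S := fun L =>
    {ω | ∃ k σ, f k = some (n, σ) ∧ σ <+: pre ω L}) ?_ fun L => ?_)
  · exact Set.mem_iUnion.2 ⟨s, k, _, hk, List.prefix_rfl⟩
  · rintro L L' hL ω ⟨k, σ, h1, h2⟩
    exact ⟨k, σ, h1, h2.trans (pre_pf ω hL)⟩
  · have := h.2 n L
    rw [Set.ncard_eq_toFinset_card'] at this
    refine le_trans (measure_mono fun ω hω => ?_) ((P_fin L _).trans ((cnt_le _ _ _).2 this))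
    simpa [ofFn_pre] using hω

theorem main7 {A : ℕ → Bool} (hA : R2 A) : ∃ B, R2 B ∧ ¬ LE B A ∧ ¬ LE A B ∧
    ∀ ε : ℝ, 0 < ε → ∃ Y, LE Y B ∧ LE B Y ∧ ∀ X, LE X A → 1 - ε ≤ dl X Y := by
  have hg : CI ∅ Nat.factorial := CI.of_rec1 (h := fun n x => (n + 1) * x) (by fun_prop) fun _ => rfl
  have c1 : Countable {F : ℕ × ℕ → Bool // CI (orc (bit A)) F} := (countable_ci' _).to_subtype
  have c2 : Countable {f // Tst f} := (countable_comp.mono fun _ h => h.1 :
    {f | Tst f}.Countable).to_subtype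
  obtain ⟨B, h1, h2, Ψ, h3, h4⟩ := coding hg
    (fun (F : {F : ℕ × ℕ → Bool // CI (orc (bit A)) F}) t m => F.1 (t, m)) hA.not_ci
    (fun (f : {f // Tst f}) n τ => ∃ k, f.1 k = some (n, τ)) (fun f n => by
      have := CI.of_comp (O := ∅) f.2.1
      exact re_of_nat (fun τ k => decide (f.1 k = some (n, τ))) (by fun_prop) (by simp))
    fun f => f.2.le
  refine ⟨B, fun f hf => (h1 ⟨f, hf⟩).imp fun n hn k σ h5 h6 => hn σ.length
    ⟨k, by rwa [← ofFn_pre, h6]⟩, fun h => ?_, h2, fun ε hε => ?_⟩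
  · obtain ⟨t, -, h5⟩ := h4 ⟨fun q => !Ψ q, (h3.trans (ci_bit.2 h)).not⟩ 0
    simpa using h5 0 t.factorial_pos
  have ex : ∀ m, ∃ t : ℕ, decide (m < t.factorial) = true := fun m =>
    ⟨m + 1, decide_eq_true (Nat.self_le_factorial _)⟩
  have hg' : CI (orc (bit B)) Nat.factorial := hg.of_empty
  have h5 := CI.find (O := orc (bit B)) (by fun_prop) ex
  have h6 : LE (fun m => Ψ (Nat.find (ex m), m)) B := h3.comp (by fun_prop)
  obtain ⟨N, hN⟩ := exists_nat_one_div_lt (half_pos hε)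
  refine ⟨_, code_le (N := N) h6, le_code _ _ _, fun X hX => ?_⟩
  have h7 := dl_code' N B (fun m => Ψ (Nat.find (ex m), m)) X
  have h8 : 1 - ε / 2 ≤ dl (fun m => Ψ (Nat.find (ex m), m)) X := by
    refine le_dl (frequently_atTop.2 fun a => ?_)
    have hX' : CI (orc (bit A)) X := hX
    obtain ⟨t, a1, a2⟩ := h4 ⟨fun q => !X q.2, by fun_prop⟩ (a + N + 1)
    obtain ⟨t, rfl⟩ : ∃ u, t = u + 1 := ⟨t - 1, by omega⟩
    refine ⟨_, le_trans (by omega) (Nat.self_le_factorial (t + 1)), ?_⟩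
    have a3 : t * t.factorial ≤ dis (fun m => Ψ (Nat.find (ex m), m)) X (t + 1).factorial := by
      refine le_trans ?_ (Finset.card_le_card (s := Finset.Ico t.factorial (t + 1).factorial)
        fun m hm => ?_)
      · rw [Nat.card_Ico, Nat.factorial_succ, Nat.succ_mul]; omega
      · rw [Finset.mem_Ico] at hm
        have : Nat.find (ex m) = t + 1 := (Nat.find_eq_iff _).2 ⟨decide_eq_true hm.2, fun u hu => by
          have := Nat.factorial_le (Nat.le_of_lt_succ hu)
          simp only [decide_eq_true_eq]; omega⟩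
        refine Finset.mem_filter.2 ⟨Finset.mem_range.2 hm.2, ?_⟩
        show Ψ (Nat.find (ex m), m) ≠ X m
        rw [this, a2 m hm.2]
        simp
    have a4 : (0 : ℝ) < t.factorial := by exact_mod_cast t.factorial_pos
    have a5 : (t : ℝ) * t.factorial ≤ dis (fun m => Ψ (Nat.find (ex m), m)) X (t + 1).factorial := by
      exact_mod_cast a3
    have a6 : 1 / ((t : ℝ) + 1) ≤ 1 / (N + 1) := by
      gcongr; omega
    calc 1 - ε / 2 ≤ 1 - 1 / ((t : ℝ) + 1) := by linarith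
      _ = t * t.factorial / (t + 1).factorial := by
        rw [Nat.factorial_succ]; push_cast; field_simp; ring
      _ ≤ _ := by gcongr
  rw [dl_comm]
  linarith

end Pool.Agent.H37.Hd
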