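import Pool.Agent.H37.NF

/-!
A closed subset of Baire space that is not Muchnik equivalent to a closed subset of Cantor space.
-/

set_option autoImplicit false

namespace Pool.Agent.H37.Hechler

open Pool.Agent.H37 Filter

def C (c : ℕ × (ℕ → ℕ)) (x : ℕ → ℕ) : Prop := (∀ i < c.1, x i = c.2 i) ∧ ∀ i, c.2 i ≤ x i

theorem fusion (c0 : ℕ × (ℕ → ℕ)) (G : ℕ → ℕ × (ℕ → ℕ) → Prop)
    (h : ∀ e c, C c0 c.2 → ∃ c' : ℕ × (ℕ → ℕ), c.1 < c'.1 ∧ C c c'.2 ∧ G e c') (h0 : c0.1 = 0) :
    ∃ f, C c0 f ∧ ∀ e, ∃ c, G e c ∧ C c f := by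
  choose! F h1 h2 h3 using h
  let S : ℕ → ℕ × (ℕ → ℕ) := fun n => n.rec c0 F
  have hS : ∀ n, S (n + 1) = F n (S n) := fun _ => rfl
  have a0 : ∀ n, C c0 (S n).2 := by
    intro n
    induction n with
    | zero => exact ⟨fun _ _ => rfl, fun _ => le_rfl⟩
    | succ n ih => exact ⟨by simp [h0], fun i => (ih.2 i).trans ((h2 n _ ih).2 i)⟩
  have a1 : ∀ n m, n ≤ m → (S n).1 ≤ (S m).1 ∧ C (S n) (S m).2 := fun n m h => by
    induction m, h using Nat.le_induction with
    | base => exact ⟨le_rfl, fun _ _ => rfl, fun _ => le_rfl⟩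
    | succ m _ ih =>
      have b1 := h1 m _ (a0 m)
      have b2 := h2 m _ (a0 m)
      rw [← hS] at b1 b2
      exact ⟨by omega, fun i hi => (b2.1 i (by omega)).trans (ih.2.1 i hi),
        fun i => (ih.2.2 i).trans (b2.2 i)⟩
  have a2 : ∀ n, n ≤ (S n).1 := fun n => by
    induction n with
    | zero => omega
    | succ n ih => have := h1 n _ (a0 n); rw [← hS] at this; omega
  have a3 : ∀ n, C (S n) fun i => (S (i + 1)).2 i := fun n => by
    have : ∀ i, (S (i + 1)).2 i = (S (max n (i + 1))).2 i := fun i =>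
      ((a1 _ _ (le_max_right n (i + 1))).2.1 i (a2 (i + 1))).symm
    exact ⟨fun i hi => (this i).trans ((a1 _ _ (le_max_left _ _)).2.1 i hi),
      fun i => ((a1 _ _ (le_max_left _ _)).2.2 i).trans (this i).ge⟩
  exact ⟨_, a3 0, fun e => ⟨S (e + 1), h3 e _ (a0 e), a3 (e + 1)⟩⟩

def S (σ : List ℕ) (e : ℕ) (ρ : List Bool) : Prop :=
  ∀ h : ℕ → ℕ, ∃ x, pre x σ.length = σ ∧ (∀ i, σ.length ≤ i → h i ≤ x i) ∧
    ∀ i < ρ.length, (ρ.getD i false).toNat ∈ app e x i

theorem main : ∃ P : Set (ℕ → ℕ), IsClosed P ∧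
      ∀ Q : Set (ℕ → Bool), IsClosed Q →
        ¬ ((∀ x ∈ P, ∃ y ∈ Q,
              TuringReducible (PFun.lift (fun n => (y n).toNat)) (PFun.lift x)) ∧
           (∀ y ∈ Q, ∃ x ∈ P,
              TuringReducible (PFun.lift x) (PFun.lift (fun n => (y n).toNat)))) := by
  have hq : ∀ p : List ℕ × ℕ, ∃ q : ℕ → Bool, (∃ y, ∀ j, S p.1 p.2 (pre y j)) →
      ∀ j, S p.1 p.2 (pre q j) := fun p => by
    by_cases h : ∃ y, ∀ j, S p.1 p.2 (pre y j)
    · exact h.imp fun _ h _ => h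
    · exact ⟨default, fun h' => absurd h' h⟩
  choose q hq using hq
  obtain ⟨F, hF⟩ := (Set.countable_iUnion fun p =>
    countable_ci fun n => (q p n).toNat).exists_eq_range
    ⟨fun _ => 0, Set.mem_iUnion.2 ⟨default, CI.const 0⟩⟩
  refine ⟨{f | ∀ n, F n n + 1 ≤ f n}, ?_, fun Q hQ ⟨h1, h2⟩ => ?_⟩
  · rw [Set.setOf_forall]
    exact isClosed_iInter fun n => isClosed_le continuous_const (continuous_apply n)
  have key : ∀ e (c : ℕ × (ℕ → ℕ)), ∃ c' : ℕ × (ℕ → ℕ), c.1 < c'.1 ∧ C c c'.2 ∧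
      ∀ x, C c' x → ∀ y ∈ Q, ¬ ∀ n, (y n).toNat ∈ app e x n := by
    rintro e ⟨k, s⟩
    by_contra hn
    push Not at hn
    have a1 : ∃ y, ∀ j, S (pre s k) e (pre y j) := by
      refine exists_path (T := S (pre s k) e) fun n => ?_
      by_contra hc
      have : ∀ ρ : Fin n → Bool, ∃ h : ℕ → ℕ, ∀ x, pre x k = pre s k → (∀ i, k ≤ i → h i ≤ x i) →
          ¬ ∀ i : Fin n, (ρ i).toNat ∈ app e x i := fun ρ => by
        by_contra hh
        push Not at hh
        refine hc ⟨fun i => if h : i < n then ρ ⟨i, h⟩ else false, fun j hj h => ?_⟩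
        obtain ⟨x, b1, b2, b3⟩ := hh h
        refine ⟨x, by simpa using b1, by simpa using b2, fun i hi => ?_⟩
        rw [length_pre] at hi
        rw [getD_pre _ hi, dif_pos (by omega)]
        exact b3 ⟨i, by omega⟩
      choose h hh using this
      obtain ⟨x, b1, y, -, b2⟩ := hn (k + 1, fun i => if i < k then s i else s i + ∑ ρ, h ρ i)
        (by simp) ⟨fun i hi => if_pos hi, fun i => by dsimp only; split_ifs <;> omega⟩
      refine hh (fun i => y i) x (pre_congr fun i hi => (b1.1 i (by omega)).trans (if_pos hi))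
        (fun i hi => ?_) fun i => b2 i
      have b3 := b1.2 i
      have b4 : h (fun i => y i) i ≤ ∑ ρ, h ρ i :=
        Finset.single_le_sum (f := fun ρ => h ρ i) (fun _ _ => Nat.zero_le _) (Finset.mem_univ _)
      simp only [if_neg (show ¬ i < k by omega)] at b3
      omega
    have a2 : q (pre s k, e) ∈ Q := by
      refine hQ.closure_subset (mem_closure_iff_seq_limit.2 ?_)
      have : ∀ j, ∃ y ∈ Q, ∀ i < j, y i = q (pre s k, e) i := fun j => by
        obtain ⟨x, b1, b2, b3⟩ := hq (pre s k, e) a1 j s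
        simp only [length_pre] at b1 b2 b3
        have b4 : ∀ᶠ m in atTop, ∀ i ∈ Finset.range j,
            U e (pre x m) i = some (q (pre s k, e) i).toNat :=
          (eventually_all_finset _).2 fun i hi => mem_app'.1 (by
            have := b3 i (Finset.mem_range.1 hi)
            rwa [getD_pre _ (Finset.mem_range.1 hi)] at this)
        obtain ⟨m, b5, b6⟩ := (b4.and (eventually_gt_atTop k)).exists
        have b7 := pre_eq_iff.1 b1
        obtain ⟨x', c1, y, c2, c3⟩ := hn (m, x) b6 ⟨b7, fun i => by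
          by_cases hi : i < k
          · exact (b7 i hi).ge
          · exact b2 i (by omega)⟩
        refine ⟨y, c2, fun i hi => ?_⟩
        have := Part.mem_unique (c3 i) (mem_app.2 ⟨m, by
          rw [pre_congr c1.1]; exact b5 i (Finset.mem_range.2 hi)⟩)
        revert this
        cases y i <;> cases q (pre s k, e) i <;> simp
      choose y hy1 hy2 using this
      exact ⟨y, hy1, tendsto_pi_nhds.2 fun i => tendsto_const_nhds.congr'
        ((eventually_gt_atTop i).mono fun j hj => (hy2 j i hj).symm)⟩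
    obtain ⟨x, b1, b2⟩ := h2 _ a2
    obtain ⟨n, rfl⟩ : x ∈ Set.range F := hF ▸ Set.mem_iUnion.2 ⟨_, CI.of_ri b2⟩
    have := b1 n
    omega
  obtain ⟨f, b1, b2⟩ := fusion (0, fun n => F n n + 1)
    (fun e c => ∀ x, C c x → ∀ y ∈ Q, ¬ ∀ n, (y n).toNat ∈ app e x n) (fun e c _ => key e c) rfl
  obtain ⟨y, b3, b4⟩ := h1 f b1.2
  obtain ⟨e, he⟩ := exists_app_tot (CI.of_ri b4)
  obtain ⟨c, c1, c2⟩ := b2 e
  exact c1 f c2 y b3 he

end Pool.Agent.H37.Hechler
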