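import Mathlib

set_option autoImplicit false

namespace Pool.Agent.H37.Hf

open Finset

variable {Λ : Type} [DecidableEq Λ]

/-- expectation over a random subset of `R`, each point kept with probability `r` -/
noncomputable def ES (r : ℝ) (R : Finset Λ) (F : Finset Λ → ℝ) : ℝ :=
  ∑ S ∈ R.powerset, (∏ x ∈ R, if x ∈ S then r else 1 - r) * F S

lemma ES_empty (r : ℝ) (F : Finset Λ → ℝ) : ES r ∅ F = F ∅ := by simp [ES]

lemma ES_insert (r : ℝ) {R : Finset Λ} {x : Λ} (hx : x ∉ R) (F : Finset Λ → ℝ) :
    ES r (insert x R) F = r * ES r R (fun S => F (insert x S)) + (1 - r) * ES r R F := by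
  unfold ES
  rw [sum_powerset_insert hx, add_comm, mul_sum, mul_sum]
  congr 1
  · refine sum_congr rfl fun S _ => ?_
    rw [prod_insert hx, if_pos (mem_insert_self x S), mul_assoc]
    congr 2
    refine prod_congr rfl fun y hy => ?_
    have : y ≠ x := fun h => hx (h ▸ hy)
    simp [this]
  · refine sum_congr rfl fun S hS => ?_
    have : x ∉ S := fun h => hx (mem_powerset.1 hS h)
    rw [prod_insert hx, if_neg this, mul_assoc]

lemma ES_mono {r : ℝ} (h0 : 0 ≤ r) (h1 : r ≤ 1) (R : Finset Λ) {F G : Finset Λ → ℝ}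
    (h : ∀ S, F S ≤ G S) : ES r R F ≤ ES r R G := by
  unfold ES
  refine sum_le_sum fun S _ => mul_le_mul_of_nonneg_left (h S) (prod_nonneg fun x _ => ?_)
  split_ifs <;> linarith

lemma ES_const (r : ℝ) (R : Finset Λ) (c : ℝ) : ES r R (fun _ => c) = c := by
  induction R using Finset.induction_on with
  | empty => simp [ES_empty]
  | insert x R hx ih => rw [ES_insert r hx, ih]; ring

lemma ES_lin [Fintype Λ] (r : ℝ) (R : Finset Λ) (μ : Λ → ℝ) (a b : ℝ) (F : Λ → Finset Λ → ℝ)
    (G : Finset Λ → ℝ) :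
    ES r R (fun S => ∑ x, μ x * (a * F x S + b * G S)) =
      ∑ x, μ x * (a * ES r R (F x) + b * ES r R G) := by
  unfold ES
  simp only [mul_sum, ← sum_add_distrib]
  rw [sum_comm]
  refine sum_congr rfl fun x _ => sum_congr rfl fun S _ => ?_
  ring

lemma ES_union {r : ℝ} (h0 : 0 ≤ r) (h1 : r ≤ 1) (R K : Finset Λ) (hd : Disjoint K R) :
    ∀ h : Finset Λ → ℝ, (∀ S T, S ⊆ T → h T ≤ h S) →
    ES r (K ∪ R) h ≤ (1 - r ^ K.card) * ES r R h + r ^ K.card * ES r R (fun S => h (K ∪ S)) := by
  induction K using Finset.induction_on with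
  | empty => intro h _; simp
  | insert y K hy ih =>
    intro h ha
    have hd' : Disjoint K R := (disjoint_insert_left.1 hd).2
    have hyR : y ∉ R := (disjoint_insert_left.1 hd).1
    have hy' : y ∉ K ∪ R := by simp [hy, hyR]
    rw [insert_union, ES_insert r hy', card_insert_of_notMem hy]
    have e1 := ih hd' (fun S => h (insert y S))
      (fun S T hST => ha _ _ (insert_subset_insert y hST))
    have e2 := ih hd' h ha
    have e3 : ES r R (fun S => h (insert y S)) ≤ ES r R h :=
      ES_mono h0 h1 R fun S => ha _ _ (subset_insert y S)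
    have e4 : ES r R (fun S => h (K ∪ S)) ≤ ES r R h :=
      ES_mono h0 h1 R fun S => ha _ _ subset_union_right
    have p0 : 0 ≤ r ^ K.card := pow_nonneg h0 _
    have p1 : r ^ K.card ≤ 1 := pow_le_one₀ h0 h1
    simp only [insert_union]
    have e5 : ES r (K ∪ R) h ≤ ES r R h := by nlinarith
    have e6 : (1 - r ^ K.card) * ES r R (fun S => h (insert y S)) ≤
        (1 - r ^ K.card) * ES r R h := mul_le_mul_of_nonneg_left e3 (by linarith)
    have e7 := mul_le_mul_of_nonneg_left (e1.trans (add_le_add e6 le_rfl)) h0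
    have e8 := mul_le_mul_of_nonneg_left e5 (show 0 ≤ 1 - r by linarith)
    rw [pow_succ]
    nlinarith

/-- add a sample if it is labelled `true` -/
def ins (f : Λ → Bool) (x : Λ) (S : Finset Λ) : Finset Λ := if f x then insert x S else S

lemma ins_sub (f : Λ → Bool) (x : Λ) (S : Finset Λ) : S ⊆ ins f x S := by
  unfold ins; split_ifs
  · exact subset_insert _ _
  · exact Subset.rfl

lemma ins_mono (f : Λ → Bool) (x : Λ) {S T : Finset Λ} (h : S ⊆ T) : ins f x S ⊆ ins f x T := by
  unfold ins; split_ifs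
  · exact insert_subset_insert _ h
  · exact h

variable [Fintype Λ]

open Classical in
/-- probability that `S` with the positive points of `m` samples is free -/
noncomputable def Q (Fr : Finset Λ → Prop) (μ : Λ → ℝ) (f : Λ → Bool) : ℕ → Finset Λ → ℝ
  | 0, S => if Fr S then 1 else 0
  | m + 1, S => ∑ x, μ x * Q Fr μ f m (ins f x S)

open Classical in
/-- the same with each of `N` samples kept with probability `r` -/
noncomputable def U (Fr : Finset Λ → Prop) (μ : Λ → ℝ) (f : Λ → Bool) (r : ℝ) :
    ℕ → Finset Λ → ℝ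
  | 0, S => if Fr S then 1 else 0
  | N + 1, S => ∑ x, μ x * (r * U Fr μ f r N (ins f x S) + (1 - r) * U Fr μ f r N S)

section
variable {Fr : Finset Λ → Prop} {μ : Λ → ℝ} {f : Λ → Bool} {r : ℝ}
  (hm : ∀ x, 0 ≤ μ x) (hs : ∑ x, μ x = 1) (h0 : 0 ≤ r) (h1 : r ≤ 1)
  (hdown : ∀ S T, S ⊆ T → Fr T → Fr S)
include hm hs h0 h1 hdown

lemma avg_le {g : Λ → ℝ} {c : ℝ} (h : ∀ x, g x ≤ c) : ∑ x, μ x * g x ≤ c := by
  calc ∑ x, μ x * g x ≤ ∑ x, μ x * c := sum_le_sum fun x _ => mul_le_mul_of_nonneg_left (h x) (hm x)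
    _ = c := by rw [← sum_mul, hs, one_mul]

lemma U_nonneg : ∀ N S, 0 ≤ U Fr μ f r N S
  | 0, S => by unfold U; split_ifs <;> norm_num
  | N + 1, S => by
    unfold U
    exact sum_nonneg fun x _ => mul_nonneg (hm x) (add_nonneg (mul_nonneg h0 (U_nonneg N _))
      (mul_nonneg (by linarith) (U_nonneg N _)))

lemma U_anti : ∀ N S T, S ⊆ T → U Fr μ f r N T ≤ U Fr μ f r N S
  | 0, S, T, h => by
    unfold U
    by_cases hT : Fr T
    · simp [hT, hdown S T h hT]
    · simp only [hT, if_false]; split_ifs <;> norm_num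
  | N + 1, S, T, h => by
    unfold U
    exact sum_le_sum fun x _ => mul_le_mul_of_nonneg_left (add_le_add
      (mul_le_mul_of_nonneg_left (U_anti N _ _ (ins_mono f x h)) h0)
      (mul_le_mul_of_nonneg_left (U_anti N _ _ h) (by linarith))) (hm x)

lemma U_zero : ∀ N S, ¬ Fr S → U Fr μ f r N S = 0
  | 0, S, h => by unfold U; simp [h]
  | N + 1, S, h => by
    unfold U
    refine sum_eq_zero fun x _ => ?_
    rw [U_zero N S h, U_zero N _ fun h' => h (hdown _ _ (ins_sub f x S) h')]
    ring

open Classical in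
lemma Q_le : ∀ m S, Q Fr μ f m S ≤ if Fr S then 1 else 0
  | 0, S => by unfold Q; exact le_rfl
  | m + 1, S => by
    unfold Q
    refine avg_le hm hs h0 h1 hdown fun x => (Q_le m _).trans ?_
    by_cases h : Fr (ins f x S)
    · simp [h, hdown _ _ (ins_sub f x S) h]
    · simp only [h, if_false]; split_ifs <;> norm_num

lemma Q_le_U : ∀ N m S, Q Fr μ f m S ≤ U Fr μ f r N S + (1 + r) ^ N / 2 ^ (m + 1)
  | 0, m, S => by
    have := Q_le (f := f) hm hs h0 h1 hdown m S
    unfold U
    have : (0 : ℝ) ≤ (1 + r) ^ 0 / 2 ^ (m + 1) := by positivity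
    linarith
  | N + 1, m, S => by
    have e2 := Q_le_U N m S
    have hp : (1 : ℝ) ≤ (1 + r) ^ N := one_le_pow₀ (by linarith)
    have key : Q Fr μ f m S ≤ ∑ x, μ x * U Fr μ f r N (ins f x S) + (1 + r) ^ N / 2 ^ m := by
      cases m with
      | zero =>
        have a1 := Q_le (f := f) hm hs h0 h1 hdown 0 S
        have a2 : (0 : ℝ) ≤ ∑ x, μ x * U Fr μ f r N (ins f x S) :=
          sum_nonneg fun x _ => mul_nonneg (hm x) (U_nonneg hm hs h0 h1 hdown N _)
        split_ifs at a1 <;> simp only [pow_zero, div_one] <;> linarith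
      | succ m =>
        unfold Q
        calc ∑ x, μ x * Q Fr μ f m (ins f x S)
            ≤ ∑ x, μ x * (U Fr μ f r N (ins f x S) + (1 + r) ^ N / 2 ^ (m + 1)) :=
              sum_le_sum fun x _ => mul_le_mul_of_nonneg_left (Q_le_U N m _) (hm x)
          _ = _ := by simp only [mul_add, sum_add_distrib, ← sum_mul, hs, one_mul]
    have e : U Fr μ f r (N + 1) S =
        r * ∑ x, μ x * U Fr μ f r N (ins f x S) + (1 - r) * U Fr μ f r N S := by
      rw [U]
      simp only [mul_add, sum_add_distrib, ← sum_mul, hs, one_mul, mul_sum]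
      congr 1
      exact sum_congr rfl fun x _ => by ring
    rw [e]
    have k1 := mul_le_mul_of_nonneg_left key h0
    have k2 := mul_le_mul_of_nonneg_left e2 (show 0 ≤ 1 - r by linarith)
    have k3 : (1 + r) ^ (N + 1) / 2 ^ (m + 1) =
        r * ((1 + r) ^ N / 2 ^ m) + (1 - r) * ((1 + r) ^ N / 2 ^ (m + 1)) := by
      field_simp; ring
    rw [k3]; nlinarith

lemma main_pot {k d : ℕ} {ε δ : ℝ} (hδ0 : 0 ≤ δ) (hδ1 : δ ≤ 1) (hε1 : ε ≤ 1)
    (hlam : 1 - r ^ k ≤ (1 - δ) ^ k)
    (hwit : ∀ S, ¬ Fr S → ∃ K ⊆ S, K.card ≤ k ∧ ¬ Fr K)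
    (hsize : ∀ S, Fr S → S.card ≤ d)
    (hfar : ∀ R, Fr R → (∀ x ∈ R, f x = true) → ε ≤ ∑ x with (f x = true ∧ x ∉ R), μ x) :
    ∀ N R, Fr R → (∀ x ∈ R, f x = true) →
      (1 - δ) ^ d * ES r R (U Fr μ f r N) ≤ (1 - δ) ^ R.card * (1 - ε * δ) ^ N
  | 0, R, hR, _ => by
    have a1 : ES r R (U Fr μ f r 0) ≤ 1 := by
      rw [← ES_const r R 1]
      refine ES_mono h0 h1 R fun S => ?_
      unfold U; split_ifs <;> norm_num
    have a2 : (1 - δ) ^ d ≤ (1 - δ) ^ R.card :=
      pow_le_pow_of_le_one (by linarith) (by linarith) (hsize R hR)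
    have a3 : 0 ≤ (1 - δ) ^ d := pow_nonneg (by linarith) _
    nlinarith
  | N + 1, R, hR, hf => by
    have ih := main_pot hδ0 hδ1 hε1 hlam hwit hsize hfar N
    have l0 : 0 ≤ 1 - δ := by linarith
    have a3 : 0 ≤ (1 - δ) ^ d := pow_nonneg l0 _
    have hed : 0 ≤ 1 - ε * δ := by nlinarith
    have bN : 0 ≤ (1 - ε * δ) ^ N := pow_nonneg hed _
    have anti := U_anti (f := f) hm hs h0 h1 hdown N
    have e : ES r R (U Fr μ f r (N + 1)) = ∑ x, μ x * (r * ES r R (fun S => U Fr μ f r N (ins f x S))
        + (1 - r) * ES r R (U Fr μ f r N)) := by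
      rw [← ES_lin]; rfl
    set B := (1 - δ) ^ R.card * (1 - ε * δ) ^ N with hB
    have step : ∀ x, (1 - δ) ^ d * (r * ES r R (fun S => U Fr μ f r N (ins f x S))
        + (1 - r) * ES r R (U Fr μ f r N)) ≤
        B * (1 - δ * if (f x = true ∧ x ∉ R) then 1 else 0) := by
      intro x
      split_ifs with hx
      · obtain ⟨hfx, hxR⟩ := hx
        have : (fun S => U Fr μ f r N (ins f x S)) = fun S => U Fr μ f r N (insert x S) := by
          funext S; simp [ins, hfx]
        rw [this, ← ES_insert r hxR]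
        have hf' : ∀ y ∈ insert x R, f y = true := by
          intro y hy
          rcases mem_insert.1 hy with rfl | hy
          · exact hfx
          · exact hf y hy
        by_cases hF : Fr (insert x R)
        · have := ih _ hF hf'
          rw [card_insert_of_notMem hxR, pow_succ] at this
          rw [hB]; linarith
        · obtain ⟨K, hK, hKk, hKF⟩ := hwit _ hF
          have hxK : x ∈ K := by
            by_contra hxK
            exact hKF (hdown K R ((subset_insert_iff_of_notMem hxK).1 hK) hR)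
          have hsub : insert x R \ K ⊆ R := by
            intro y hy
            obtain ⟨hy1, hy2⟩ := mem_sdiff.1 hy
            rcases mem_insert.1 hy1 with rfl | hy1
            · exact absurd hxK hy2
            · exact hy1
          have i1 := ih _ (hdown _ _ hsub hR) fun y hy => hf y (hsub hy)
          have i2 := ES_union h0 h1 (insert x R \ K) K disjoint_sdiff _ anti
          rw [union_sdiff_of_subset hK] at i2
          have i3 : (fun S => U Fr μ f r N (K ∪ S)) = fun _ => 0 := by
            funext S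
            exact U_zero hm hs h0 h1 hdown N _ fun h => hKF (hdown _ _ subset_union_left h)
          rw [i3, ES_const, mul_zero, add_zero] at i2
          have i4 : 1 - r ^ K.card ≤ (1 - δ) ^ K.card := by
            have := pow_le_pow_of_le_one h0 h1 hKk
            have := pow_le_pow_of_le_one l0 (by linarith) hKk
            linarith
          have i5 : (insert x R \ K).card + K.card = R.card + 1 := by
            rw [card_sdiff_add_card_eq_card hK, card_insert_of_notMem hxR]
          have i6 : 0 ≤ ES r (insert x R \ K) (U Fr μ f r N) := by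
            rw [← ES_const r (insert x R \ K) 0]
            exact ES_mono h0 h1 _ fun S => U_nonneg hm hs h0 h1 hdown N S
          have i7 : (1 - δ) ^ (insert x R \ K).card * (1 - δ) ^ K.card =
              (1 - δ) ^ R.card * (1 - δ) := by rw [← pow_add, i5, pow_succ]
          have i8 : 0 ≤ (1 - δ) ^ K.card := pow_nonneg l0 _
          calc (1 - δ) ^ d * ES r (insert x R) (U Fr μ f r N)
              ≤ (1 - δ) ^ d * ((1 - δ) ^ K.card * ES r (insert x R \ K) (U Fr μ f r N)) :=
                mul_le_mul_of_nonneg_left (i2.trans (mul_le_mul_of_nonneg_right i4 i6)) a3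
            _ = (1 - δ) ^ K.card * ((1 - δ) ^ d * ES r (insert x R \ K) (U Fr μ f r N)) := by ring
            _ ≤ (1 - δ) ^ K.card * ((1 - δ) ^ (insert x R \ K).card * (1 - ε * δ) ^ N) :=
                mul_le_mul_of_nonneg_left i1 i8
            _ = ((1 - δ) ^ (insert x R \ K).card * (1 - δ) ^ K.card) * (1 - ε * δ) ^ N := by ring
            _ = _ := by rw [i7, hB]; ring
      · have i1 := ih R hR hf
        have i2 : ES r R (fun S => U Fr μ f r N (ins f x S)) ≤ ES r R (U Fr μ f r N) :=
          ES_mono h0 h1 R fun S => anti _ _ (ins_sub f x S)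
        have i3 := mul_le_mul_of_nonneg_left i2 h0
        have i4 : r * ES r R (fun S => U Fr μ f r N (ins f x S))
          + (1 - r) * ES r R (U Fr μ f r N) ≤ ES r R (U Fr μ f r N) := by linarith
        have := mul_le_mul_of_nonneg_left i4 a3
        rw [mul_zero, sub_zero, mul_one]
        linarith
    have hB0 : 0 ≤ B := mul_nonneg (pow_nonneg l0 _) bN
    have far := hfar R hR hf
    rw [sum_filter] at far
    rw [e, mul_sum]
    calc ∑ x, (1 - δ) ^ d * (μ x * (r * ES r R (fun S => U Fr μ f r N (ins f x S))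
          + (1 - r) * ES r R (U Fr μ f r N)))
        ≤ ∑ x, μ x * (B * (1 - δ * if (f x = true ∧ x ∉ R) then 1 else 0)) := by
          refine sum_le_sum fun x _ => ?_
          rw [mul_left_comm]
          exact mul_le_mul_of_nonneg_left (step x) (hm x)
      _ = B * (∑ x, μ x - δ * ∑ x, if (f x = true ∧ x ∉ R) then μ x else 0) := by
          rw [mul_sum, ← sum_sub_distrib, mul_sum]
          refine sum_congr rfl fun x _ => ?_
          split_ifs <;> ring
      _ ≤ B * (1 - ε * δ) := by
          rw [hs]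
          refine mul_le_mul_of_nonneg_left ?_ hB0
          nlinarith
      _ = _ := by rw [hB, pow_succ]; ring

end

end Pool.Agent.H37.Hf
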