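import Mathlib

set_option autoImplicit false

namespace Pool.Agent.H37.Hf

open Finset

/-- probability that the test with acceptance probabilities `A` accepts `m` independent
`μ`-samples labelled by `f` -/
noncomputable def accP {Λ : Type} [Fintype Λ] (m : ℕ) (A : (Fin m → Λ × Bool) → ℝ) (μ : Λ → ℝ)
    (f : Λ → Bool) : ℝ :=
  ∑ x : Fin m → Λ, (∏ i, μ (x i)) * A (fun i => (x i, f (x i)))

/-- some randomized algorithm tests the family with `m` labelled samples -/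
def Tests {Λ : Type} [Fintype Λ] (C : Set (Λ → Bool)) (ε : ℝ) (m : ℕ) : Prop :=
  ∃ A : (Fin m → Λ × Bool) → ℝ, (∀ w, 0 ≤ A w ∧ A w ≤ 1) ∧
    ∀ μ : Λ → ℝ, (∀ x, 0 ≤ μ x) → ∑ x, μ x = 1 → ∀ f : Λ → Bool,
      (f ∈ C → 2 / 3 ≤ accP m A μ f) ∧
      ((∀ g ∈ C, ε ≤ ∑ x with f x ≠ g x, μ x) → 2 / 3 ≤ 1 - accP m A μ f)

/-- the sample complexity -/
noncomputable def sam {Λ : Type} [Fintype Λ] (C : Set (Λ → Bool)) (ε : ℝ) : ℕ :=
  sInf {m | 0 < m ∧ Tests C ε m}

/-- two-element subsets of `Fin n` -/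
abbrev Pair (n : ℕ) : Type := {e : Sym2 (Fin n) // ¬ e.IsDiag}

/-- the graph whose edges are the pairs labelled `true` -/
def graphOf {n : ℕ} (f : Pair n → Bool) : SimpleGraph (Fin n) :=
  SimpleGraph.fromEdgeSet {e | ∃ h : ¬ e.IsDiag, f ⟨e, h⟩ = true}

/-- edge sets with no (not necessarily induced) subgraph isomorphic to `H` -/
def HFree (n : ℕ) {V : Type} (H : SimpleGraph V) : Set (Pair n → Bool) :=
  {f | H.Free (graphOf f)}

end Pool.Agent.H37.Hf
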