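import Pool.Agent.H37.Hf1
import Pool.Agent.H37.HfDefs

set_option autoImplicit false

namespace Pool.Agent.H37.Hf

open Finset

section
variable {Λ : Type} [DecidableEq Λ] [Fintype Λ]

/-- positive points of a labelled sample -/
def posOf {m : ℕ} (w : Fin m → Λ × Bool) : Finset Λ :=
  (univ.filter fun i => (w i).2 = true).image fun i => (w i).1

lemma mem_posOf {m : ℕ} (f : Λ → Bool) (x : Fin m → Λ) (y : Λ) :
    y ∈ posOf (fun i => (x i, f (x i))) ↔ f y = true ∧ ∃ i, x i = y := by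
  simp only [posOf, mem_image, mem_filter, mem_univ, true_and]
  constructor
  · rintro ⟨i, h, rfl⟩; exact ⟨h, i, rfl⟩
  · rintro ⟨h, i, rfl⟩; exact ⟨i, h, rfl⟩

open Classical in
lemma Q_eq (Fr : Finset Λ → Prop) (μ : Λ → ℝ) (f : Λ → Bool) : ∀ (m : ℕ) (S : Finset Λ),
    Q Fr μ f m S = ∑ x : Fin m → Λ, (∏ i, μ (x i)) *
      if Fr (S ∪ posOf (fun i => (x i, f (x i)))) then 1 else 0
  | 0, S => by simp [Q, posOf]
  | m + 1, S => by
    rw [Q, ← (Fin.consEquiv fun _ : Fin (m + 1) => Λ).sum_comp, Fintype.sum_prod_type]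
    refine sum_congr rfl fun y _ => ?_
    rw [Q_eq Fr μ f m, mul_sum]
    refine sum_congr rfl fun x _ => ?_
    have : ins f y S ∪ posOf (fun i => (x i, f (x i))) = S ∪ posOf (fun i =>
        ((Fin.consEquiv fun _ : Fin (m + 1) => Λ) (y, x) i,
          f ((Fin.consEquiv fun _ : Fin (m + 1) => Λ) (y, x) i))) := by
      ext z
      simp only [mem_union, mem_posOf, Fin.consEquiv_apply, Fin.exists_fin_succ, Fin.cons_zero,
        Fin.cons_succ, ins]
      split_ifs with h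
      · simp only [mem_insert]
        constructor
        · rintro ((rfl | h') | ⟨h1, h2⟩)
          · exact Or.inr ⟨h, Or.inl rfl⟩
          · exact Or.inl h'
          · exact Or.inr ⟨h1, Or.inr h2⟩
        · rintro (h' | ⟨h1, rfl | h2⟩)
          · exact Or.inl (Or.inr h')
          · exact Or.inl (Or.inl rfl)
          · exact Or.inr ⟨h1, h2⟩
      · constructor
        · rintro (h' | ⟨h1, h2⟩)
          · exact Or.inl h'
          · exact Or.inr ⟨h1, Or.inr h2⟩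
        · rintro (h' | ⟨h1, rfl | h2⟩)
          · exact Or.inl h'
          · exact absurd h1 h
          · exact Or.inr ⟨h1, h2⟩
    rw [this, Fin.prod_univ_succ]
    simp [Fin.consEquiv_apply, mul_assoc]

lemma numeric {k d : ℕ} (hk : 2 ≤ k) (hd : 1 ≤ d) {ε : ℝ} (hε0 : 0 < ε) (hε1 : ε < 1) :
    ∃ (r δ : ℝ) (N m : ℕ), 0 ≤ r ∧ r ≤ 1 ∧ 0 ≤ δ ∧ δ ≤ 1 ∧ 1 - r ^ k ≤ (1 - δ) ^ k ∧
      1 / 2 ≤ (1 - δ) ^ d ∧ (1 - ε * δ) ^ N ≤ 1 / 12 ∧ (1 + r) ^ N / 2 ^ (m + 1) ≤ 1 / 6 ∧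
      0 < m ∧ (m : ℝ) ≤ 9 * k / ε * (d : ℝ) ^ (1 - 1 / (k : ℝ)) := by
  have hk' : (2 : ℝ) ≤ k := by exact_mod_cast hk
  have hd' : (1 : ℝ) ≤ d := by exact_mod_cast hd
  have hd0 : (0 : ℝ) < d := by linarith
  have hk0 : (0 : ℝ) < k := by linarith
  set r : ℝ := (d : ℝ) ^ (-(1 / (k : ℝ))) with hr
  have r0 : 0 ≤ r := Real.rpow_nonneg hd0.le _
  have r1 : r ≤ 1 := Real.rpow_le_one_of_one_le_of_nonpos hd' (by
    have : 0 ≤ 1 / (k : ℝ) := by positivity
    linarith)
  have rk : r ^ k = 1 / d := by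
    rw [hr, ← Real.rpow_natCast, ← Real.rpow_mul hd0.le]
    have : -(1 / (k : ℝ)) * k = -1 := by field_simp
    rw [this, Real.rpow_neg_one, one_div]
  have dr : (d : ℝ) * r = (d : ℝ) ^ (1 - 1 / (k : ℝ)) := by
    rw [hr, sub_eq_add_neg, Real.rpow_add hd0, Real.rpow_one]
  have dr1 : 1 ≤ (d : ℝ) ^ (1 - 1 / (k : ℝ)) := Real.one_le_rpow hd' (by
    have : 1 / (k : ℝ) ≤ 1 := by rw [div_le_one hk0]; linarith
    linarith)
  set δ : ℝ := 1 / (k * d) with hδ
  have δ0 : 0 < δ := by positivity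
  have δ1 : δ ≤ 1 := by rw [hδ, div_le_one (by positivity)]; nlinarith
  set N : ℕ := ⌈3 * k * d / ε⌉₊ with hN
  have N1 : 3 * k * d / ε ≤ (N : ℝ) := Nat.le_ceil _
  have N2 : (N : ℝ) ≤ 3 * k * d / ε + 1 := (Nat.ceil_lt_add_one (by positivity)).le
  refine ⟨r, δ, N, ⌈2 * N * r + 2⌉₊, r0, r1, δ0.le, δ1, ?_, ?_, ?_, ?_, ?_, ?_⟩
  · have := one_add_mul_le_pow (show (-2 : ℝ) ≤ -δ by linarith) k
    have e : (k : ℝ) * δ = 1 / d := by rw [hδ]; field_simp
    rw [rk]; rw [← sub_eq_add_neg, mul_neg, e] at this; linarith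
  · have := one_add_mul_le_pow (show (-2 : ℝ) ≤ -δ by linarith) d
    have e : (d : ℝ) * δ = 1 / k := by rw [hδ]; field_simp
    have t2 : 1 / (k : ℝ) ≤ 1 / 2 := one_div_le_one_div_of_le (by norm_num) hk'
    rw [← sub_eq_add_neg, mul_neg, e] at this; linarith
  · have a1 : 1 - ε * δ ≤ Real.exp (-(ε * δ)) := by
      have := Real.add_one_le_exp (-(ε * δ)); linarith
    have a0 : 0 ≤ 1 - ε * δ := by nlinarith
    have a2 : (3 : ℝ) ≤ N * (ε * δ) := by
      have : 3 * k * d / ε * (ε * δ) = 3 := by rw [hδ]; field_simp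
      have h2 : 0 ≤ ε * δ := by positivity
      nlinarith
    have a3 : (12 : ℝ) ≤ Real.exp 3 := by
      have := Real.exp_one_gt_d9
      have e : Real.exp 3 = Real.exp 1 ^ 3 := by rw [← Real.exp_nat_mul]; norm_num
      rw [e]
      have : (2.7 : ℝ) ^ 3 ≤ Real.exp 1 ^ 3 := pow_le_pow_left₀ (by norm_num) (by linarith) 3
      norm_num at this ⊢; linarith
    calc (1 - ε * δ) ^ N ≤ Real.exp (-(ε * δ)) ^ N := pow_le_pow_left₀ a0 a1 N
      _ = Real.exp (-(N * (ε * δ))) := by rw [← Real.exp_nat_mul]; ring_nf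
      _ ≤ Real.exp (-3) := Real.exp_le_exp.2 (by linarith)
      _ ≤ 1 / 12 := by rw [Real.exp_neg, ← one_div]; exact one_div_le_one_div_of_le (by norm_num) a3
  · set m := ⌈2 * N * r + 2⌉₊ with hm
    have m1 : 2 * N * r + 2 ≤ (m : ℝ) := Nat.le_ceil _
    have a1 : (1 + r) ^ N ≤ Real.exp (N * r) := by
      rw [Real.exp_nat_mul]
      exact pow_le_pow_left₀ (by linarith) (by have := Real.add_one_le_exp r; linarith) N
    have l2 := Real.log_two_gt_d9
    have a2 : (2 : ℝ) ^ (m + 1) = Real.exp (((m + 1 : ℕ) : ℝ) * Real.log 2) := by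
      rw [Real.exp_nat_mul, Real.exp_log (by norm_num)]
    have Nr : 0 ≤ (N : ℝ) * r := by positivity
    have a3 : Real.exp (N * r) * 8 ≤ 2 ^ (m + 1) := by
      have e8 : (8 : ℝ) = Real.exp (3 * Real.log 2) := by
        have := Real.exp_nat_mul (Real.log 2) 3
        rw [Real.exp_log (by norm_num)] at this
        push_cast at this; rw [this]; norm_num
      rw [a2, e8, ← Real.exp_add]
      refine Real.exp_le_exp.2 ?_
      push_cast
      nlinarith
    rw [div_le_iff₀ (by positivity)]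
    have := Real.exp_pos (N * r)
    linarith
  · exact Nat.ceil_pos.2 (by positivity)
  · have m2 : (⌈2 * N * r + 2⌉₊ : ℝ) ≤ 2 * N * r + 2 + 1 :=
      (Nat.ceil_lt_add_one (by positivity)).le
    have a1 : (N : ℝ) * r ≤ (3 * k * d / ε + 1) * r := mul_le_mul_of_nonneg_right N2 r0
    rw [← dr] at dr1 ⊢
    have a2 : (3 * k * d / ε + 1) * r = 3 * (k / ε * (d * r)) + r := by ring
    have a3 : (k : ℝ) ≤ k / ε := by rw [le_div_iff₀ hε0]; nlinarith
    have a4 : (2 : ℝ) ≤ k / ε * (d * r) := by nlinarith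
    have a5 : 9 * k / ε * (d * r) = 9 * (k / ε * (d * r)) := by ring
    rw [a5]; linarith

/-- the general bound for families defined by forbidden sets of size at most `k` -/
theorem tests_of (Fr : Finset Λ → Prop) (hdown : ∀ S T, S ⊆ T → Fr T → Fr S) {k d : ℕ}
    (hk : 2 ≤ k) (hd : 1 ≤ d) (hwit : ∀ S, ¬ Fr S → ∃ K ⊆ S, K.card ≤ k ∧ ¬ Fr K)
    (hsize : ∀ S, Fr S → S.card ≤ d) (h0 : Fr ∅) (C : Set (Λ → Bool))
    (hC : ∀ f, f ∈ C ↔ Fr (univ.filter fun x => f x = true)) {ε : ℝ} (hε0 : 0 < ε) (hε1 : ε < 1) :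
    ∃ m, 0 < m ∧ Tests C ε m ∧ (m : ℝ) ≤ 9 * k / ε * (d : ℝ) ^ (1 - 1 / (k : ℝ)) := by
  classical
  obtain ⟨r, δ, N, m, r0, r1, δ0, δ1, n1, n2, n3, n4, m0, n5⟩ := numeric hk hd hε0 hε1
  refine ⟨m, m0, ⟨fun w => if Fr (posOf w) then 1 else 0, fun w => ?_, fun μ hm hs f => ⟨?_, ?_⟩⟩,
    n5⟩
  · dsimp only; split_ifs <;> norm_num
  · intro hf
    have : accP m (fun w => if Fr (posOf w) then 1 else 0) μ f = 1 := by
      unfold accP
      have e : ∀ x : Fin m → Λ, Fr (posOf fun i => (x i, f (x i))) := fun x =>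
        hdown _ _ (fun y hy => by simp [((mem_posOf f x y).1 hy).1]) ((hC f).1 hf)
      simp only [e, if_true, mul_one]
      rw [← Fintype.piFinset_univ, ← prod_univ_sum]
      simp [hs]
    rw [this]; norm_num
  · intro hf
    have e : accP m (fun w => if Fr (posOf w) then 1 else 0) μ f = Q Fr μ f m ∅ := by
      rw [Q_eq]; unfold accP
      refine sum_congr rfl fun x _ => ?_
      simp only [empty_union]
    have far : ∀ R, Fr R → (∀ x ∈ R, f x = true) →
        ε ≤ ∑ x with (f x = true ∧ x ∉ R), μ x := by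
      intro R hR hRf
      have g := hf (fun x => decide (x ∈ R)) ((hC _).2 (by simpa using hR))
      refine g.trans (le_of_eq (sum_congr ?_ fun _ _ => rfl))
      ext x
      simp only [mem_filter, mem_univ, true_and]
      by_cases hx : x ∈ R
      · simp [hx, hRf x hx]
      · simp [hx]
    have a1 := main_pot hm hs r0 r1 hdown δ0 δ1 hε1.le n1 hwit hsize far N ∅ h0 (by simp)
    rw [ES_empty, card_empty, pow_zero, one_mul] at a1
    have a2 := Q_le_U (f := f) hm hs r0 r1 hdown N m ∅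
    have a3 := U_nonneg (f := f) hm hs r0 r1 hdown N ∅
    rw [e]
    nlinarith

end

section
variable {n : ℕ} {V : Type}

/-- graph of a finite set of pairs -/
def gr (S : Finset (Pair n)) : SimpleGraph (Fin n) := graphOf fun x => decide (x ∈ S)

lemma gr_edge (S : Finset (Pair n)) (e : Sym2 (Fin n)) :
    e ∈ (gr S).edgeSet ↔ ∃ h : ¬ e.IsDiag, (⟨e, h⟩ : Pair n) ∈ S := by
  simp only [gr, graphOf, SimpleGraph.edgeSet_fromEdgeSet, Set.mem_diff, Set.mem_setOf_eq,
    decide_eq_true_eq]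
  constructor
  · exact fun h => h.1
  · rintro ⟨h, h'⟩; exact ⟨⟨h, h'⟩, h⟩

lemma gr_mono {S T : Finset (Pair n)} (h : S ⊆ T) : gr S ≤ gr T := by
  rw [← SimpleGraph.edgeSet_subset_edgeSet]
  intro e he
  obtain ⟨h1, h2⟩ := (gr_edge S e).1 he
  exact (gr_edge T e).2 ⟨h1, h h2⟩

lemma gr_ncard (S : Finset (Pair n)) : (gr S).edgeSet.ncard = S.card := by
  have : (gr S).edgeSet = ((S.map (Function.Embedding.subtype _) : Finset (Sym2 (Fin n))) : Set _) := by
    ext e
    rw [gr_edge]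
    simp
  rw [this, Set.ncard_coe_finset, card_map]

theorem main [Fintype V] (H : SimpleGraph V) (k : ℕ) (hH : H.edgeSet.ncard = k) (hk : 2 ≤ k)
    {ε : ℝ} (hε0 : 0 < ε) (hε1 : ε < 1) (hn : 2 ≤ n) :
    ∃ m, 0 < m ∧ Tests (HFree n H) ε m ∧
      (m : ℝ) ≤ 9 * k / ε * (SimpleGraph.extremalNumber n H : ℝ) ^ (1 - 1 / (k : ℝ)) := by
  classical
  have small : ∀ S : Finset (Pair n), S.card < k → H.Free (gr S) := by
    rintro S hS ⟨c⟩
    have := Set.ncard_le_ncard_of_injOn (s := H.edgeSet) (t := (gr S).edgeSet)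
      (Sym2.map c) (fun e he => (c.mapEdgeSet ⟨e, he⟩).2)
      (Sym2.map.injective c.injective).injOn (Set.toFinite _)
    rw [gr_ncard] at this
    omega
  have size : ∀ S : Finset (Pair n), H.Free (gr S) → S.card ≤ SimpleGraph.extremalNumber n H := by
    intro S hS
    have := SimpleGraph.card_edgeFinset_le_extremalNumber hS
    rw [Fintype.card_fin, ← Set.ncard_coe_finset, SimpleGraph.coe_edgeFinset, gr_ncard] at this
    exact this
  refine tests_of (fun S => H.Free (gr S)) ?_ hk ?_ ?_ size (small _ (by simp; omega)) _ ?_ hε0 hε1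
  · intro S T h hT hS
    exact hT (hS.mono_right (gr_mono h))
  · have := size {⟨s(⟨0, by omega⟩, ⟨1, by omega⟩), by simp⟩} (small _ (by simp; omega))
    simpa using this
  · intro S hS
    obtain ⟨c⟩ := SimpleGraph.not_free.1 hS
    refine ⟨S.filter fun x => x.1 ∈ Sym2.map c '' H.edgeSet, filter_subset _ _, ?_, ?_⟩
    · rw [← gr_ncard, ← hH]
      refine le_trans (Set.ncard_le_ncard ?_ (Set.toFinite _)) (Set.ncard_image_le (f := Sym2.map c)
        (Set.toFinite _))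
      intro e he
      obtain ⟨h1, h2⟩ := (gr_edge _ e).1 he
      exact (mem_filter.1 h2).2
    · refine SimpleGraph.not_free.2 ⟨⟨⟨c, fun {a b} hab => ?_⟩, c.injective⟩⟩
      have h1 : s(c a, c b) ∈ (gr S).edgeSet := c.toHom.map_adj hab
      obtain ⟨h2, h3⟩ := (gr_edge _ _).1 h1
      show s(c a, c b) ∈ (gr _).edgeSet
      exact (gr_edge _ _).2 ⟨h2, mem_filter.2 ⟨h3, s(a, b), hab, rfl⟩⟩
  · intro f
    have : gr (univ.filter fun x => f x = true) = graphOf f := by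
      unfold gr; congr 1; funext x; simp
    rw [this]; rfl

end

end Pool.Agent.H37.Hf
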