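import Pool.Agent.H37.HfO2
import Pool.Agent.H37.Attr1

/-! A function avoiding all c.e. slaloms, computably dominated and computing no random set. -/

set_option autoImplicit false

namespace Pool.Agent.H37.Hf

open Filter Io Ae Rnd Hd Defc MeasureTheory
open scoped ENNReal

theorem not_ml {l : ℕ → ℕ} {c : List ℕ → List Bool} (hl : CI ∅ l) (hc : CI ∅ c)
    (hm : StrictMono l) {R : ℕ → Bool} (h : ∀ i, ∃ τ ∈ Strs (l i), c τ = pre R (nn (l i))) :
    ¬ MLRandom R := fun hR => by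
  have := ci_nu (O := ∅)
  have := ci_Strs (O := ∅)
  obtain ⟨k, hk⟩ := hR (fun q => ∃ i, (q.2.length == nn (l (i + q.1)) &&
    ((Strs (l (i + q.1))).map c).contains q.2) = true) (re_of_nat _ (by unfold nn; fun_prop)
      fun _ => Iff.rfl) fun k => by
      refine (measure_mono (t := ⋃ i, {x | ((Strs (l (i + k))).map c).contains
        (pre x (nn (l (i + k)))) = true}) ?_).trans
        ((measure_iUnion_le _).trans ((ENNReal.tsum_le_tsum fun i => ?_).trans (geo2 k).le))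
      · rintro x ⟨n, i, h0⟩
        simp only [cut_eq, length_pre, Bool.and_eq_true, beq_iff_eq] at h0
        exact Set.mem_iUnion.2 ⟨i, h0.1 ▸ h0.2⟩
      · rw [P_pre, cnt_le, List.countP_eq_length_filter, nn, add_assoc, pow_add 2 (nu _),
          ← len_Strs, ← List.length_map c]
        exact Nat.mul_le_mul (((nodup_W _).filter _).subperm fun τ hτ => by
          simpa using (List.mem_filter.1 hτ).2).length_le
          (Nat.pow_le_pow_right two_pos (by have := hm.le_apply (x := i + k); omega))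
  obtain ⟨τ, a, b⟩ := h k
  exact hk (nn (l k)) ⟨0, by simpa [cut_eq] using ⟨τ, a, b⟩⟩

theorem exists_y (H : ℕ → ℕ × ℕ × ℕ → Bool) (hH : ∀ e, CI ∅ (H e))
    (hw : ∀ e t, ∃ l : List ℕ, l.length ≤ 8 ^ t ∧ ∀ v s, H e (t, v, s) = true → v ∈ l) :
    ∃ y : ℕ → ℕ, (∀ n, y n < hx n) ∧ (∀ e, ∀ᶠ t in atTop, ∀ s, ¬ H e (t, y t, s) = true) ∧
      (∀ f : ℕ → ℕ, CI (orc y) f → ∃ g, CI ∅ g ∧ ∀ n, f n ≤ g n) ∧
      ∀ R, CI (orc y) R → ¬ MLRandom R := by
  have hn := ci_nu (O := ∅)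
  have hS := ci_Strs (O := ∅)
  have e0 : ∀ ρ : List ℕ, ((List.range ρ.length).all fun j => decide (ρ.getD j 0 < hx j)) = true ↔
    Bd ρ := fun ρ => by simp [Bd]
  obtain ⟨s, -, h1, h2, h3⟩ := chain (ι := ℕ ⊕ ℕ ⊕ ℕ) Le Le.refl (fun _ _ _ => Le.trans) Val
    (fun i q => match i with
      | .inl L => L ≤ q.s.length
      | .inr (.inl e) => (∃ n, ∀ ρ, (∃ v, Dv e n v ρ = true) → q.B ρ = true) ∨
        ∃ (l : ℕ → ℕ) (c : List ℕ → List Bool), CI ∅ l ∧ CI ∅ c ∧ StrictMono l ∧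
          (∀ i, q.Lv (l i) = true) ∧ ∀ i ρ, q.N ρ = true → ρ.length = l (i + 1) →
            q.B ρ = true ∨ Dv e (nn (l i)) (c (ρ.take (l i))) ρ = true
      | .inr (.inr e) => ∃ J, ∀ ρ : List ℕ, (∃ j s, J ≤ j ∧ j < ρ.length ∧ s < ρ.length ∧
          H e (j, ρ.getD j 0, s) = true) → q.B ρ = true)
    (by
      rintro (L | e | e) p hp
      · obtain ⟨τ, a, b, c⟩ := longer hp L
        exact ⟨_, c, ⟨b, fun _ h => h, fun _ h => h⟩, a⟩
      · exact decide_e hp e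
      · exact avoid hp (hH e) (hw e))
    ⟨[], 0, 0, fun ρ => (List.range ρ.length).all fun j => decide (ρ.getD j 0 < hx j),
      fun _ => true, fun _ => false⟩
    ⟨by unfold hx; fun_prop, by fun_prop, by fun_prop, by simp, fun ρ a => ⟨rfl, (e0 ρ).1 a⟩,
      fun ρ l a _ _ => (e0 _).2 fun j hj => getD_pf (List.take_prefix l ρ) hj ▸
        (e0 ρ).1 a j (hj.trans_le (List.take_prefix l ρ).length_le), rfl, le_rfl,
      fun τ _ a L => by simpa only [e0, Nat.sub_zero] using base ((e0 τ).1 a) L,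
      fun _ => [], by simp, by simp [Kills]⟩
  choose M hM using fun L => h3 (.inl L)
  obtain ⟨y, a1⟩ : ∃ y : ℕ → ℕ, ∀ a, pre y (s a).s.length = (s a).s :=
    ⟨fun j => (s (M (j + 1))).s.getD j 0, fun a =>
      (pre_congr fun j hj => ((getD_pf (h2 _ _ (le_max_left _ a)).1 (hM (j + 1))).symm.trans
        (getD_pf (h2 _ _ (le_max_right _ a)).1 hj))).trans (pre_getD _ 0)⟩
  have a0 : ∀ a t, t ≤ (s (max a (M t))).s.length := fun a t =>
    (hM t).trans (h2 _ _ (le_max_right a _)).1.length_le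
  have a2 : ∀ a t, ¬ (s a).B (pre y t) = true := fun a t h =>
    (h1 (max a (M t))).small.not ⟨(h1 _).st, (h1 _).up _ _ (a1 _ ▸ pre_pf y (a0 a t))
      ((h2 _ _ (le_max_left _ _)).2.2 _ h)⟩
  have a3 : ∀ a t, (s a).Lv t = true → (s a).N (pre y t) = true := fun a t h => by
    have := (h1 a).cl _ t ((h2 _ _ (le_max_left a (M t))).2.1 _ (h1 _).st) (a0 a t) h
    rwa [← a1, take_pre y (a0 a t)] at this
  have a4 : ∀ f : ℕ → ℕ, CI (orc y) f → ∃ (e : ℕ) (l : ℕ → ℕ) (c : List ℕ → List Bool), CI ∅ l ∧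
      CI ∅ c ∧ StrictMono l ∧ ∀ i, pre y (l i) ∈ Strs (l i) ∧ c (pre y (l i)) =
        pre (fun m => f m == 1) (nn (l i)) ∧ ∀ m < nn (l i), U e (pre y (l (i + 1))) m = some (f m) :=
    fun f hf => by
    obtain ⟨e, he⟩ := exists_app_tot hf
    obtain ⟨a, ⟨n, hn⟩ | ⟨l, c, b1, b2, b3, b4, b5⟩⟩ := h3 (.inr (.inl e))
    · obtain ⟨t, ht⟩ := ((eventually_all_finset (Finset.range n)).2 fun m _ =>
        mem_app'.1 (he m)).exists
      exact absurd (hn _ ⟨pre (fun m => f m == 1) n, Dv_iff.2 ⟨by simp, fun m hm =>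
        ⟨_, ht m (Finset.mem_range.2 hm), (getD_pre (fun m => f m == 1) hm _).symm⟩⟩⟩) (a2 a t)
    refine ⟨e, l, c, b1, b2, b3, fun i => ?_⟩
    obtain ⟨b6, b7⟩ := Dv_iff.1 ((b5 i _ (a3 a _ (b4 (i + 1))) (by simp)).resolve_left (a2 a _))
    rw [take_pre y (b3.monotone i.le_succ)] at b6 b7
    have b8 : ∀ m < nn (l i), U e (pre y (l (i + 1))) m = some (f m) := fun m hm =>
      (b7 m hm).elim fun x hx => Part.mem_unique (mem_app.2 ⟨_, hx.1⟩) (he m) ▸ hx.1
    refine ⟨by simpa using mem_Strs ((h1 a).nd _ (a3 a _ (b4 i))).2, ?_, b8⟩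
    rw [← pre_getD (c _) false, b6]
    exact pre_congr fun m hm => (b7 m hm).elim fun x hx =>
      Option.some.inj (hx.1.symm.trans (b8 m hm)) ▸ hx.2.symm
  refine ⟨y, fun n => ?_, fun e => ?_, fun f hf => ?_, fun R hR => ?_⟩
  · have := ((h1 _).nd _ (h1 (M (n + 1))).st).2 n (hM (n + 1))
    rwa [← a1, getD_pre y (hM (n + 1))] at this
  · obtain ⟨a, J, hJ⟩ := h3 (.inr (.inr e))
    exact (eventually_ge_atTop J).mono fun t ht u h => a2 a (t + u + 1)
      (hJ _ ⟨t, u, ht, by simp, by simp, by rwa [getD_pre y (by omega)]⟩)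
  · obtain ⟨e, l, c, b1, b2, b3, b4⟩ := a4 f hf
    refine ⟨fun m => ((Strs (l (m + 1))).map fun ρ => (U e ρ m).getD 0).sum, by fun_prop,
      fun m => List.single_le_sum (by simp) _ (List.mem_map.2 ⟨_, (b4 _).1, ?_⟩)⟩
    rw [(b4 m).2.2 m (by have := b3.le_apply (x := m); unfold nn; omega)]; rfl
  · obtain ⟨e, l, c, b1, b2, b3, b4⟩ := a4 _ (ci_bit.2 hR)
    refine not_ml b1 b2 b3 fun i => ⟨_, (b4 i).1, (b4 i).2.1.trans (pre_congr fun m _ => ?_)⟩
    unfold bit; cases R m <;> rfl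

end Pool.Agent.H37.Hf
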