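import Pool.Agent.H37.Hf3
import Pool.Agent.H37.Gh2
import Pool.Agent.H37.Ae3

/-! Popular values, list decoding, and an attractive set of hyperimmune-free degree. -/

set_option autoImplicit false

namespace Pool.Agent.H37.Hf

open Filter Io Ae Rnd Hd Defc MeasureTheory Topology Finset Attr
open scoped ENNReal

theorem pop {R : ℕ × List Bool → List ℕ} {u : ℕ → ℕ} (hR : CI ∅ R) (hu : CI ∅ u) :
    ∃ H : ℕ → ℕ × ℕ × ℕ → Bool, (∀ e, CI ∅ (H e)) ∧
      (∀ e t, ∃ l : List ℕ, l.length ≤ 8 ^ t ∧ ∀ v s, H e (t, v, s) = true → v ∈ l) ∧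
      ∀ y : ℕ → ℕ, (∀ e, ∀ᶠ t in atTop, ∀ s, ¬ H e (t, y t, s) = true) →
        ∀ᵐ B ∂P, ∀ Y, LE Y B → ∀ᶠ t in atTop, y t ∉ (R (t, pre Y (u t))).take (4 ^ t) := by
  obtain ⟨z, hz, ez⟩ : ∃ z : ℕ × ℕ × ℕ × List Bool → Bool, CI ∅ z ∧ ∀ e t v B s,
      z (e, t, v, pre B s) = true ↔ ∃ Y : ℕ → Bool, (∀ m < u t, ∃ x, U e (pre (bit B) s) m = some x ∧
        (x == 1) = Y m) ∧ v ∈ (R (t, pre Y (u t))).take (4 ^ t) := by
    refine ⟨fun q => ((List.range (u q.2.1)).all fun m =>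
      (U q.1 (q.2.2.2.map Bool.toNat) m).isSome) && ((R (q.2.1, pre (fun m => U q.1
        (q.2.2.2.map Bool.toNat) m == some 1) (u q.2.1))).take (4 ^ q.2.1)).contains q.2.2.1,
      by fun_prop, fun e t v B s => ?_⟩
    simp only [map_pre, Bool.and_eq_true, List.all_eq_true, List.mem_range, List.contains_eq_mem,
      decide_eq_true_eq, Option.isSome_iff_exists]
    refine ⟨fun ⟨a, b⟩ => ⟨_, fun m hm => (a m hm).imp fun x hx => ⟨hx, by simp [hx]⟩, b⟩,
      fun ⟨Y, a, b⟩ => ⟨fun m hm => (a m hm).imp fun _ h => h.1, ?_⟩⟩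
    rwa [pre_congr (y := Y) fun m hm => (a m hm).elim fun x hx => by simp [hx.1, ← hx.2]]
  let Z : ℕ → ℕ → ℕ → Set (ℕ → Bool) := fun e t v => ⋃ s, {B | z (e, t, v, pre B s) = true}
  have mZ : ∀ e t v, MeasurableSet (Z e t v) := fun e t v =>
    .iUnion fun s => meas_set (fun τ => z (e, t, v, τ) = true) s
  have k : ∀ e t v, (∀ s, ¬ decide (2 ^ s < (W s).countP (fun ρ => z (e, t, v, ρ)) * 2 ^ t) = true) ↔
      P (Z e t v) ≤ 2⁻¹ ^ t := fun e t v => by
    simp only [decide_eq_true_eq, not_lt, ← cnt_le, ← P_pre]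
    refine ⟨P_mono_le fun s s' h B hB => ?_, fun h s => (measure_mono (Set.subset_iUnion
      (fun s => {B | z (e, t, v, pre B s) = true}) s)).trans h⟩
    exact (ez ..).2 (((ez ..).1 hB).imp fun Y a => ⟨fun m hm => (a.1 m hm).imp fun x b =>
      ⟨U_mon _ _ _ _ _ (pre_pf _ h) b.1, b.2⟩, a.2⟩)
  have uq : ∀ {e t v B} {Y : ℕ → Bool}, (∀ m < u t, ∃ x ∈ app e (bit B) m, (x == 1) = Y m) →
      B ∈ Z e t v → v ∈ (R (t, pre Y (u t))).take (4 ^ t) := fun a b => by
    obtain ⟨s, hs⟩ := Set.mem_iUnion.1 b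
    obtain ⟨Y', c, d⟩ := (ez ..).1 hs
    rwa [pre_congr (y := Y') fun m hm => ?_]
    obtain ⟨x, a1, a2⟩ := a m hm
    obtain ⟨x', c1, c2⟩ := c m hm
    rw [← a2, ← c2, Part.mem_unique a1 (mem_app.2 ⟨s, c1⟩)]
  refine ⟨fun e q => decide (2 ^ q.2.2 < (W q.2.2).countP (fun ρ => z (e, q.1, q.2.1, ρ)) * 2 ^ q.1),
    fun e => by fun_prop, fun e t => ?_, fun y hy => ?_⟩
  · have key : ∀ F : Finset ℕ, (∀ v ∈ F, ¬ P (Z e t v) ≤ 2⁻¹ ^ t) → F.card ≤ 8 ^ t := fun F hF => by
      classical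
      have a1 : ∑ v ∈ F, P (Z e t v) ≤ (4 ^ t : ℕ) := by
        simp only [← lintegral_indicator_one (mZ e t _)]
        rw [← lintegral_finset_sum _ fun v _ => measurable_one.indicator (mZ e t v)]
        refine (lintegral_mono fun B => ?_).trans (by rw [lintegral_const, measure_univ, mul_one])
        simp only [Set.indicator_apply, Pi.one_apply, sum_boole, Nat.cast_le]
        rcases (F.filter fun v => B ∈ Z e t v).eq_empty_or_nonempty with h | ⟨v, h⟩
        · simp [h]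
        obtain ⟨s, hs⟩ := Set.mem_iUnion.1 (mem_filter.1 h).2
        obtain ⟨Y, c, -⟩ := (ez ..).1 hs
        exact (card_le_card fun w hw => List.mem_toFinset.2 (uq (Y := Y) (fun m hm =>
          (c m hm).imp fun x b => ⟨mem_app.2 ⟨s, b.1⟩, b.2⟩) (mem_filter.1 hw).2)).trans
            ((List.toFinset_card_le _).trans (List.length_take_le _ _))
      have a2 := (card_nsmul_le_sum F _ _ fun v hv => (not_le.1 (hF v hv)).le).trans a1
      rw [nsmul_eq_mul, ← ENNReal.inv_pow, ← div_eq_mul_inv,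
        ENNReal.div_le_iff (by simp) (by simp)] at a2
      rw [show 8 = 4 * 2 from rfl, mul_pow]
      exact_mod_cast a2
    have fin : {v | ¬ P (Z e t v) ≤ 2⁻¹ ^ t}.Finite := by
      by_contra h
      obtain ⟨F, a, b⟩ := Set.Infinite.exists_subset_card_eq h (8 ^ t + 1)
      have := key F a
      omega
    exact ⟨fin.toFinset.toList, by simpa using key fin.toFinset fun v hv => fin.mem_toFinset.1 hv,
      fun v s h => mem_toList.2 (fin.mem_toFinset.2 fun a => (k e t v).2 a s h)⟩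
  have : ∀ e, ∀ᵐ B ∂P, ∀ᶠ t in atTop, B ∉ Z e t (y t) := fun e => by
    obtain ⟨T, hT⟩ := eventually_atTop.1 (hy e)
    refine (ae_eventually_notMem (s := fun t => Z e (t + T) (y (t + T))) (ne_top_of_le_ne_top
      (by simp [ENNReal.tsum_geometric]) (ENNReal.tsum_le_tsum (g := fun t => 2⁻¹ ^ t) fun t =>
        ((k ..).1 (hT _ (by omega))).trans (pow_le_pow_right_of_le_one' (by simp)
          (by omega))))).mono fun B hB => ?_
    obtain ⟨N, hN⟩ := eventually_atTop.1 hB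
    exact (eventually_ge_atTop (N + T)).mono fun t ht => by
      simpa [Nat.sub_add_cancel (show T ≤ t by omega)] using hN (t - T) (by omega)
  refine (ae_all_iff.2 this).mono fun B hB Y hY => ?_
  obtain ⟨e, he⟩ := exists_app_tot (ci_bit.2 hY)
  refine (hB e).mono fun t ht h => ht ?_
  obtain ⟨s, hs⟩ := ((eventually_all_finset (range (u t))).2 fun m _ => mem_app'.1 (he m)).exists
  exact Set.mem_iUnion.2 ⟨s, (ez ..).2 ⟨Y, fun m hm => ⟨_, hs m (mem_range.2 hm), by
    unfold bit; cases Y m <;> rfl⟩, h⟩⟩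

theorem half' : ∃ R : ℕ × List Bool → List ℕ, CI ∅ R ∧
    (∀ᶠ t in atTop, ∀ σ, (R (t, σ)).length ≤ 4 ^ t) ∧ ∀ w : ℕ → ℕ, (∀ t, w t < MM t) →
      ∃ A, CI (orc w) A ∧ ∀ Y : ℕ → Bool,
        (∀ᶠ t in atTop, w t ∉ R (t, pre Y (2 ^ 3 ^ (t + 1)))) → dl A Y ≤ 1 / 2 := by
  obtain ⟨Q, E, hQ, hE, h1, h2⟩ := exists_QE
  have l2 := ci_log (O := ∅) (b := 3) (by omega)
  have f2 := ci_fac (O := ∅)
  refine ⟨fun q => ((List.range (3 ^ (q.1 + 1))).filter fun τ => Nat.log 3 τ == q.1).flatMap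
    fun τ => (List.range (2 ^ Q τ)).flatMap fun i => (List.range (MM q.1)).filter fun r =>
      bad (Q τ) (2 ^ (τ - Q τ)) ((List.range (2 ^ (τ - Q τ))).map fun k =>
        q.2.getD (2 ^ τ + i * 2 ^ (τ - Q τ) + k) false) ((E τ).getD r []),
    by unfold bad hm MM; fun_prop, ?_, fun w a2 => ?_⟩
  · obtain ⟨T, hT⟩ := eventually_atTop.1 (h2 0)
    filter_upwards [eventually_ge_atTop (T + 1)] with t ht σ
    rw [List.length_flatMap]
    refine (List.sum_le_card_nsmul _ (4 ^ t / 3 ^ (t + 1)) (List.forall_mem_map.2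
      fun τ hτ => ?_)).trans ((Nat.mul_le_mul_right _ ?_).trans (Nat.mul_div_le _ (3 ^ (t + 1))))
    · obtain rfl : Nat.log 3 τ = t := by simpa using (List.mem_filter.1 hτ).2
      have := (hT τ (by have := Nat.log_le_self 3 τ; omega)).2
      rw [List.length_flatMap]
      refine (List.sum_le_card_nsmul _ (4 ^ Nat.log 3 τ / 3 ^ (Nat.log 3 τ + 1) / 2 ^ Q τ)
        (List.forall_mem_map.2 fun i _ => ?_)).trans
        (le_trans (by simp) (Nat.mul_div_le _ (2 ^ Q τ)))
      rw [← List.countP_eq_length_filter]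
      exact of_decide_eq_true (List.all_eq_true.1 this _ (mem_W.2 (by simp)))
    · simpa using List.length_filter_le _ (List.range (3 ^ (t + 1)))
  have l1 := ci_log (O := orc w) (b := 3) (by omega)
  have l3 := ci_log (O := orc w) one_lt_two
  have hQ' : CI (orc w) Q := hQ.of_empty
  have hE' : CI (orc w) E := hE.of_empty
  have a1 := CI.self w
  obtain ⟨A, hA, eA⟩ : ∃ A : ℕ → Bool, CI (orc w) A ∧ ∀ n, A n = ((E (Nat.log 2 n)).getD
      (w (Nat.log 3 (Nat.log 2 n))) []).getD ((n - 2 ^ Nat.log 2 n) %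
        2 ^ (Nat.log 2 n - Q (Nat.log 2 n))) false := ⟨_, by fun_prop, fun _ => rfl⟩
  refine ⟨A, hA, fun Y a3 => ?_⟩
  have e : ∀ (X Z : ℕ → Bool) n, ∑ k ∈ range n, (if X k ≠ Z k then (1 : ℝ) else -1) =
      2 * dis X Z n - n := fun X Z n => by
    rw [dis, card_filter, Nat.cast_sum, mul_sum, eq_sub_iff_add_eq, ← nsmul_one n, ← card_range n,
      ← sum_const, card_range, ← sum_add_distrib]
    exact sum_congr rfl fun k _ => by split_ifs <;> norm_num
  have := dens (fun k => if Y k ≠ A k then 1 else -1) (fun k => by split_ifs <;> simp) Q h1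
    fun q => by
      filter_upwards [h2 q, (tend_log (b := 3) (by omega)).eventually a3] with τ b1 b2
      refine ⟨b1.1, fun i hi => ?_⟩
      have c0 := Nat.lt_pow_succ_log_self (b := 3) (by omega) τ
      have c1 : (i + 1) * 2 ^ (τ - Q τ) ≤ 2 ^ τ := (Nat.mul_le_mul_right _ hi).trans_eq (by
        rw [← pow_add, Nat.add_sub_cancel' (h1 τ)])
      have c2 : ∀ k < 2 ^ (τ - Q τ), 2 ^ τ + i * 2 ^ (τ - Q τ) + k < 2 ^ (τ + 1) := fun k hk => by
        rw [Nat.succ_mul] at c1; rw [pow_succ]; omega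
      have b3 : bad (Q τ) (2 ^ (τ - Q τ)) ((List.range (2 ^ (τ - Q τ))).map fun k =>
          Y (2 ^ τ + i * 2 ^ (τ - Q τ) + k)) ((E τ).getD (w (Nat.log 3 τ)) []) = false := by
        by_contra h
        refine b2 (List.mem_flatMap.2 ⟨τ, by simpa using c0,
          List.mem_flatMap.2 ⟨i, List.mem_range.2 hi, List.mem_filter.2
            ⟨List.mem_range.2 (a2 _), ?_⟩⟩⟩)
        rwa [List.map_congr_left fun k hk => getD_pre Y ((c2 k (List.mem_range.1 hk)).trans_le
          (Nat.pow_le_pow_right two_pos c0)) false, ← Bool.not_eq_false]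
      have b4 := dis_not (fun k => Y (2 ^ τ + i * 2 ^ (τ - Q τ) + k))
        (fun k => A (2 ^ τ + i * 2 ^ (τ - Q τ) + k)) (2 ^ (τ - Q τ))
      simp only [bad, hm_eq, Bool.or_eq_false_iff, decide_eq_false_iff_not, not_le] at b3
      rw [dis_comm, dis_congr (X' := fun k => Y (2 ^ τ + i * 2 ^ (τ - Q τ) + k))
        (B' := fun k => A (2 ^ τ + i * 2 ^ (τ - Q τ) + k)) (fun k hk => by simp [hk])
        (fun k hk => by
          rw [eA, Nat.log_eq_of_pow_le_of_lt_pow (b := 2) (m := τ)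
            (n := 2 ^ τ + i * 2 ^ (τ - Q τ) + k) (by omega) (c2 k hk), add_assoc,
            Nat.add_sub_cancel_left, Nat.mul_add_mod_self_right, Nat.mod_eq_of_lt hk]),
        Nat.sub_eq_of_eq_add' b4.symm] at b3
      rw [e (fun k => Y (2 ^ τ + i * 2 ^ (τ - Q τ) + k)) fun k => A (2 ^ τ + i * 2 ^ (τ - Q τ) + k)]
      generalize dis _ _ _ = d at b3 b4
      generalize dis _ _ _ = d' at b3 b4
      obtain ⟨c1, c2⟩ := b3
      rify at c1 c2 b4
      rw [← Nat.abs_cast (Q τ), ← abs_mul, abs_le]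
      push_cast
      rw [← b4] at c1 c2 ⊢
      constructor <;> nlinarith
  rw [dl_comm]
  refine (Tendsto.limsup_eq ?_).le
  have := (this.add_const 1).div_const 2
  rw [zero_add] at this
  refine this.congr' ((eventually_ne_atTop 0).mono fun n hn => ?_)
  beta_reduce
  rw [e]
  field_simp
  ring

theorem slln (X : ℕ → Bool) : ∀ᵐ B ∂P, dl B X ≤ 1 / 2 := by
  have : ∀ q : ℕ, ∀ᵐ B ∂P, ∀ᶠ n in atTop, B ∉ {B | decide ((q + 1) * n ≤ 2 * q *
      dis (fun i => (pre B n).getD i false) X n) = true} := fun q => by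
    obtain ⟨κ, k0, k1, hk⟩ := chern q
    refine ae_eventually_notMem (ne_top_of_le_ne_top ?_ (ENNReal.tsum_le_tsum
      (g := fun n => ENNReal.ofReal (κ ^ n)) fun n => ?_))
    · rw [← ENNReal.ofReal_tsum_of_nonneg (fun _ => by positivity)
        (summable_geometric_of_lt_one k0.le k1)]
      exact ENNReal.ofReal_ne_top
    · rw [P_pre fun σ => decide ((q + 1) * n ≤ 2 * q * dis (fun i => σ.getD i false) X n),
        ← ENNReal.inv_pow, ← div_eq_mul_inv, ENNReal.div_le_iff (by simp) (by simp),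
        ← ENNReal.ofReal_natCast, ← ENNReal.ofReal_ofNat 2, ← ENNReal.ofReal_pow zero_le_two,
        ← ENNReal.ofReal_mul (by positivity), List.countP_eq_length_filter,
        ← List.toFinset_card_of_nodup ((nodup_W n).filter _), List.toFinset_filter]
      exact ENNReal.ofReal_le_ofReal (by simpa using hk n X)
  refine (ae_all_iff.2 this).mono fun B hB => le_of_forall_pos_le_add fun ε hε => ?_
  obtain ⟨q, hq⟩ := exists_nat_one_div_lt hε
  refine dl_le (((hB (q + 1)).and (eventually_gt_atTop 0)).mono fun n ⟨a, b⟩ => ?_)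
  simp only [Set.mem_setOf_eq, decide_eq_true_eq, not_le] at a
  rw [dis_congr (X' := B) (B' := X) (fun i hi => getD_pre B hi false) fun _ _ => rfl] at a
  rify at a b
  rw [div_lt_iff₀ (by positivity)] at hq
  rw [div_le_iff₀ b]
  refine le_of_mul_le_mul_left ?_ (show (0 : ℝ) < 2 * (q + 1) by positivity)
  nlinarith [mul_lt_mul_of_pos_left hq b]

theorem half_le {X B : ℕ → Bool} (h : dl B (fun i => !X i) ≤ 1 / 2) : 1 / 2 ≤ dl B X := by
  refine le_of_forall_pos_le_add fun ε hε => sub_le_iff_le_add.1 (le_dl (Eventually.frequently ?_))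
  filter_upwards [eventually_lt_of_limsup_lt (h.trans_lt (lt_add_of_pos_right _ hε)) (bd1 _ _),
    eventually_gt_atTop 0] with n a b
  have := dis_not B X n
  rify at this b
  rw [div_lt_iff₀ b] at a
  rw [le_div_iff₀ b]
  linarith

theorem hx_le (j : ℕ) : hx j ≤ MM j := by
  have : ∀ j, nu j ≤ (2 * j).factorial := fun j => by
    induction j with
    | zero => simp [nu]
    | succ j ih =>
      have := (2 * j).factorial_pos
      rw [nu, mul_add 2, mul_one, Nat.factorial_succ, Nat.factorial_succ]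
      nlinarith [Nat.mul_le_mul_left j ih, Nat.mul_le_mul_left (j * j) this,
        Nat.mul_le_mul_left j this]
  rw [hx, MM, ← pow_mul, ← pow_mul]
  exact Nat.pow_le_pow_right two_pos (((Nat.le_add_left _ _).trans ((this (j + 1)).trans
    (Nat.factorial_le (Nat.mul_le_pow (by omega) _)))).trans
      (Nat.le_mul_of_pos_right _ (by positivity)))

theorem main : ∃ A : ℕ → Bool, Attractive A ∧
    (∀ f : ℕ → ℕ, CI (orc (bit A)) f → ∃ g, CI ∅ g ∧ ∀ n, f n ≤ g n) ∧
      ∀ R, LE R A → ¬ MLRandom R := by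
  obtain ⟨R, r1, r2, r3⟩ := half'
  obtain ⟨H, p1, p2, p3⟩ := pop r1 (u := fun t => 2 ^ 3 ^ (t + 1)) (by fun_prop)
  obtain ⟨y, y1, y2, y3, y4⟩ := exists_y H p1 p2
  obtain ⟨C, c1, c2⟩ := r3 y fun t => (y1 t).trans_le (hx_le t)
  obtain ⟨A, a1, a2⟩ := exists_graph y
  refine ⟨A, ?_, fun f hf => y3 f (hf.trans a1), fun Y hY => y4 Y (CI.trans hY a1)⟩
  have c3 : LE C A := c1.trans a2
  rw [Attractive, coin_eq]
  filter_upwards [p3 y y2, (ae_ball_iff (countable_ci' (bit A))).2 fun X _ => slln X] with B b1 b2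
  have n : ∀ A, Nonempty (Deg A) := fun A => ⟨⟨A, tr_iff.2 (.refl _), tr_iff.2 (.refl _)⟩⟩
  have bb : ∀ {A} (f g : Deg A → ℕ → Bool), BddBelow (Set.range fun x => dl (f x) (g x)) :=
    fun f g => ⟨0, by rintro _ ⟨C, rfl⟩; exact dl_nonneg _ _⟩
  have := n A
  have := n B
  have u : ∀ D : Deg B, ⨅ C : Deg A, delta C.1 D.1 ≤ 1 / 2 := fun D =>
    le_of_forall_pos_le_add fun ε hε => by
      obtain ⟨N, hN⟩ := exists_nat_one_div_lt hε
      refine ciInf_le_of_le (bb _ _) ⟨_, tr_iff.2 (code_le (N := N) c3), tr_iff.2 (le_code _ _ _)⟩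
        ((dl_code N A C D.1).trans (add_le_add (c2 _ ?_) hN.le))
      filter_upwards [b1 _ (tr_iff.1 D.2.1), r2] with t h1 h2
      rwa [List.take_of_length_le (h2 _)] at h1
  refine le_antisymm (max_le (ciSup_le fun X => ciInf_le_of_le (bb _ _)
    ⟨B, tr_iff.2 (.refl _), tr_iff.2 (.refl _)⟩ ((dl_comm _ _).trans_le (b2 _ (tr_iff.1 X.2.1))))
      (ciSup_le u)) (le_max_of_le_right (le_ciSup_of_le ⟨_, Set.forall_mem_range.2 u⟩
        ⟨B, tr_iff.2 (.refl _), tr_iff.2 (.refl _)⟩ (le_ciInf fun X => ?_)))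
  have : CI (orc (bit A)) X.1 := tr_iff.1 X.2.1
  exact (half_le (b2 _ (show CI _ fun i => !X.1 i by fun_prop))).trans_eq (dl_comm _ _)

end Pool.Agent.H37.Hf
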