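import Pool.Agent.H37.Ae1

/-! Slalom forcing with trees: basic notions. -/

set_option autoImplicit false

namespace Pool.Agent.H37.Hf

open Filter Io Ae

def nu : ℕ → ℕ
  | 0 => 0
  | j + 1 => nu j + (j * (nu j + 3 * j + 2) + 1)

def bb (j : ℕ) : ℕ := 2 ^ (nu j + 3 * j + 2)
def hx (j : ℕ) : ℕ := 2 ^ (j * (nu j + 3 * j + 2) + 1)

theorem ci_nu {O : Set (ℕ →. ℕ)} : CI O nu :=
  CI.of_rec1 (h := fun j x => x + (j * (x + 3 * j + 2) + 1)) (by fun_prop) fun _ => rfl

theorem nu_mono : Monotone nu := monotone_nat_of_le_succ fun _ => Nat.le_add_right _ _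
theorem bb_mono : Monotone bb := fun i j h => Nat.pow_le_pow_right two_pos (by
  have := nu_mono h; omega)
theorem hx_mono : Monotone hx := fun i j h => Nat.pow_le_pow_right two_pos
  (Nat.succ_le_succ (Nat.mul_le_mul h (by have := nu_mono h; omega)))
theorem bb_pos (j : ℕ) : 0 < bb j := by unfold bb; positivity
theorem bb_lt (j : ℕ) : bb j ^ j < hx j := by
  rw [bb, hx, ← pow_mul, mul_comm]; exact Nat.pow_lt_pow_right one_lt_two (by omega)

def Bd (ρ : List ℕ) : Prop := ∀ j < ρ.length, ρ.getD j 0 < hx j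
def Kills (A : ℕ → List ℕ) (B : List ℕ → Prop) (σ : List ℕ) : Prop :=
  ∀ ρ, σ <+: ρ → B ρ → ¬ Av A σ.length ρ
def Sw (w : ℕ → ℕ) (B : List ℕ → Prop) (σ : List ℕ) : Prop :=
  ∃ A : ℕ → List ℕ, (∀ j, (A j).length ≤ w j) ∧ Kills A B σ
def Sm (a : ℕ) : (List ℕ → Prop) → List ℕ → Prop := Sw fun j => bb j ^ a

theorem av_trans {A : ℕ → List ℕ} {i : ℕ} {τ ρ : List ℕ} (h : Av A i τ) (h1 : τ <+: ρ)
    (h2 : Av A τ.length ρ) : Av A i ρ := fun j e f => by
  by_cases h3 : j < τ.length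
  exacts [getD_pf h1 h3 ▸ h j e h3, h2 j (by omega) f]

theorem Kills.ext {A : ℕ → List ℕ} {B : List ℕ → Prop} {σ τ : List ℕ} (h : Kills A B σ)
    (h1 : σ <+: τ) (h2 : Av A σ.length τ) : Kills A B τ := fun ρ a b c =>
  h ρ (h1.trans a) b (av_trans h2 a c)

theorem Sw.mono {w w' : ℕ → ℕ} {B C : List ℕ → Prop} {σ : List ℕ} (h : Sw w C σ)
    (hw : ∀ j, σ.length ≤ j → w j ≤ w' j) (h1 : ∀ ρ, B ρ → C ρ) : Sw w' B σ := by
  obtain ⟨A, h2, h3⟩ := h
  refine ⟨fun j => if σ.length ≤ j then A j else [], fun j => ?_,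
    fun ρ a b c => h3 ρ a (h1 ρ b) fun j d e => by simpa [d] using c j d e⟩
  beta_reduce
  split_ifs with h
  exacts [(h2 j).trans (hw j h), by simp]

theorem Sw.or {k l : ℕ → ℕ} {B C : List ℕ → Prop} {σ : List ℕ} (h : Sw k B σ)
    (h' : Sw l C σ) : Sw (fun j => k j + l j) (fun ρ => B ρ ∨ C ρ) σ := by
  obtain ⟨A, h1, h2⟩ := h
  obtain ⟨A', h3, h4⟩ := h'
  exact ⟨fun j => A j ++ A' j, fun j => by simpa using add_le_add (h1 j) (h3 j),
    fun ρ a c d => c.elim (fun c => h2 ρ a c fun j e f g => d j e f (List.mem_append_left _ g))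
      fun c => h4 ρ a c fun j e f g => d j e f (List.mem_append_right _ g)⟩

theorem sw_ex {γ : Type} {k : ℕ → ℕ} {D : γ → List ℕ → Prop} {σ : List ℕ}
    (h : ∀ c, Sw k (D c) σ) (l : List γ) :
    Sw (fun j => k j * l.length) (fun ρ => ∃ c ∈ l, D c ρ) σ := by
  induction l with
  | nil => exact ⟨fun _ => [], by simp, fun ρ _ h => by simp at h⟩
  | cons c l ih =>
    exact (ih.or (h c)).mono (fun j _ => by simp [mul_add]) fun ρ h => by simpa [or_comm] using h

theorem Sm.mono {a a' : ℕ} {B C : List ℕ → Prop} {σ : List ℕ} (h : Sm a C σ) (ha : a ≤ a')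
    (h1 : ∀ ρ, B ρ → C ρ) : Sm a' B σ :=
  Sw.mono h (fun j _ => Nat.pow_le_pow_right (bb_pos j) ha) h1

theorem Sw.not {k : ℕ → ℕ} {B : List ℕ → Prop} {σ : List ℕ} (h : Sw k B σ) : ¬ B σ :=
  fun h1 => h.elim fun _ h => h.2 σ List.prefix_rfl h1 fun j _ _ => by omega

theorem not_sm {a : ℕ} {B : List ℕ → Prop} {σ : List ℕ} : ¬ Sm a B σ ↔
    ∀ A : ℕ → List ℕ, (∀ j, (A j).length ≤ bb j ^ a) → ∃ ρ, σ <+: ρ ∧ B ρ ∧ Av A σ.length ρ := by
  simp [Sm, Sw, Kills]

def Strs : ℕ → List (List ℕ)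
  | 0 => [[]]
  | j + 1 => (Strs j).flatMap fun σ => (List.range (hx j)).map fun v => σ ++ [v]

theorem ci_Strs {O : Set (ℕ →. ℕ)} : CI O Strs := by
  have := ci_nu (O := O)
  exact CI.of_rec1 (h := fun j L => L.flatMap fun σ => (List.range (hx j)).map fun v => σ ++ [v])
    (by unfold hx; fun_prop) fun _ => rfl

theorem len_Strs (j : ℕ) : (Strs j).length = 2 ^ nu j := by
  induction j with
  | zero => rfl
  | succ j ih => simp [Strs, List.length_flatMap, ih, nu, hx, pow_add]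

theorem mem_Strs {ρ : List ℕ} (h : Bd ρ) : ρ ∈ Strs ρ.length := by
  induction ρ using List.reverseRecOn with
  | nil => simp [Strs]
  | append_singleton ρ v ih =>
    rw [List.length_append, List.length_singleton, Strs]
    exact List.mem_flatMap.2 ⟨ρ, ih fun j hj => getD_pf (List.prefix_append _ _) hj ▸
      h j (by simp; omega), List.mem_map.2 ⟨v, by simpa using h ρ.length (by simp), rfl⟩⟩

theorem base {τ : List ℕ} (h : Bd τ) (L : ℕ) :
    ¬ Sm τ.length (fun ρ => Bd ρ ∧ L ≤ ρ.length) τ := not_sm.2 fun A hA => by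
  induction L with
  | zero => exact ⟨τ, List.prefix_rfl, ⟨h, by omega⟩, fun j _ _ => by omega⟩
  | succ L ih =>
    obtain ⟨ρ, h1, ⟨h2, h3⟩, h4⟩ := ih
    obtain ⟨v, h5, h6⟩ : ∃ v < hx ρ.length, v ∉ A ρ.length := by
      by_contra! hc
      have := (List.nodup_range.subperm fun v hv => hc v (List.mem_range.1 hv)).length_le
      have := (hA _).trans_lt ((Nat.pow_le_pow_right (bb_pos _) h1.length_le).trans_lt (bb_lt _))
      simp at *; omega
    refine ⟨ρ ++ [v], h1.trans (List.prefix_append _ _), ⟨fun j hj => ?_, by simp; omega⟩,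
      av_trans h4 (List.prefix_append _ _) fun j a b => ?_⟩
    · by_cases h7 : j < ρ.length
      · exact getD_pf (List.prefix_append _ _) h7 ▸ h2 j h7
      · obtain rfl : j = ρ.length := by simp at hj; omega
        simpa using h5
    · obtain rfl : j = ρ.length := by simp at b; omega
      simpa using h6

/-- largeness seen at stage `s` -/
def lg (B : List ℕ → Bool) (a : ℕ) (σ : List ℕ) (s : ℕ) : Bool :=
  (allLists (allLists (List.range (hx s)) (bb s ^ a)) s).all fun α =>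
    ((List.range s).any fun j => decide (bb j ^ a < (α.getD j []).length)) ||
    (allLists (List.range (hx s)) s).any fun ρ => ρ.take σ.length == σ && B ρ &&
      (List.range ρ.length).all fun j => decide (j < σ.length) ||
        !(α.getD j []).contains (ρ.getD j 0)

theorem ci_lg {α : Type} [Primcodable α] {B : α → List ℕ → Bool} {k s : α → ℕ} {σ : α → List ℕ}
    (hB : CI ∅ fun q : α × List ℕ => B q.1 q.2) (hk : CI ∅ k) (hσ : CI ∅ σ) (hs : CI ∅ s) :
    CI ∅ fun a => lg (B a) (k a) (σ a) (s a) := by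
  obtain ⟨F, hF, e⟩ : ∃ F : α × List ℕ → Bool, CI ∅ F ∧ ∀ a ρ, B a ρ = F (a, ρ) :=
    ⟨_, hB, fun _ _ => rfl⟩
  have := ci_nu (O := ∅)
  simp only [lg, e, hx, bb]
  fun_prop

theorem lg_eq {B : List ℕ → Bool} {a s : ℕ} {σ : List ℕ} : lg B a σ s = true ↔
    ∀ α ∈ allLists (allLists (List.range (hx s)) (bb s ^ a)) s,
      (∀ j < s, (α.getD j []).length ≤ bb j ^ a) → ∃ ρ ∈ allLists (List.range (hx s)) s,
        σ <+: ρ ∧ B ρ = true ∧ Av (α.getD · []) σ.length ρ := by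
  simp only [lg, List.all_eq_true, List.any_eq_true, Bool.and_eq_true, beq_iff_eq,
    List.prefix_iff_eq_take, eq_comm (a := σ), and_assoc, List.mem_range, Bool.or_eq_true,
    decide_eq_true_eq, Bool.not_eq_true', List.contains_eq_mem, decide_eq_false_iff_not, Av,
    or_iff_not_imp_left, not_exists, not_and, not_lt]
  simp only [imp.swap (a := σ.length ≤ _)]

theorem of_lg {B : List ℕ → Bool} {a s : ℕ} {σ : List ℕ} (h : lg B a σ s = true)
    (A : ℕ → List ℕ) (h1 : ∀ j, (A j).length ≤ bb j ^ a) :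
    ∃ ρ, σ <+: ρ ∧ ρ.length ≤ s ∧ B ρ = true ∧ Av A σ.length ρ := by
  obtain ⟨ρ, a1, a2, a4, a5⟩ := lg_eq.1 h ((List.range s).map fun j =>
    (A j).filter (decide <| · < hx s)) (mem_allLists.2 ⟨by simp, List.forall_mem_map.2 fun j hj =>
      mem_allLists.2 ⟨(List.length_filter_le _ _).trans ((h1 j).trans (Nat.pow_le_pow_left
        (bb_mono (List.mem_range.1 hj).le) _)), by simp⟩⟩) fun j hj => by
    simpa [hj] using (List.length_filter_le _ _).trans (h1 j)
  refine ⟨ρ, a2, (mem_allLists.1 a1).1, a4, fun j b1 b2 b3 => a5 j b1 b2 ?_⟩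
  have b4 : j < s := b2.trans_le (mem_allLists.1 a1).1
  have := List.mem_range.1 ((mem_allLists.1 a1).2 _ (List.getElem_mem b2))
  rw [List.getD_eq_getElem _ _ b2] at b3
  simp [b4, b3, this, b2]

theorem lg_of {B : List ℕ → Bool} {a : ℕ} {σ : List ℕ} (hB : ∀ ρ, B ρ = true → Bd ρ)
    (h : ¬ Sm a (B · = true) σ) : ∃ s, lg B a σ s = true := by
  refine not_imp_comm.1 (fun h => ?_) h
  simp only [lg_eq] at h
  push Not at h
  choose α h1 h0 h2 using h
  have : ∀ j, ∃ c ∈ {c | c ∈ allLists (List.range (hx j)) (bb j ^ a)}, ∀ᶠ s in hyperfilter ℕ,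
      ((α s).getD j []).filter (decide <| · < hx j) = c := fun j =>
    (Ultrafilter.eventually_exists_mem_iff (List.finite_toSet _)).1
      (((eventually_gt_atTop j).filter_mono Nat.hyperfilter_le_atTop).mono fun s hs =>
        ⟨_, mem_allLists.2 ⟨(List.length_filter_le _ _).trans (h0 s j hs), by simp⟩, rfl⟩)
  choose A a1 a2 using this
  refine ⟨A, fun j => (mem_allLists.1 (a1 j)).1, fun ρ b1 b3 b4 => ?_⟩
  have b2 := hB ρ b3
  obtain ⟨s, c1, c2⟩ := (((eventually_all_finset (Finset.range ρ.length)).2 fun j _ => a2 j).and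
    (Nat.hyperfilter_le_atTop (eventually_ge_atTop ρ.length))).exists
  refine h2 s ρ (mem_allLists.2 ⟨c2, fun v hv => ?_⟩) b1 b3 fun j d1 d2 d3 => b4 j d1 d2 ?_
  · obtain ⟨j, hj, rfl⟩ := List.getElem_of_mem hv
    have := (b2 j hj).trans_le (hx_mono (hj.le.trans c2))
    rwa [List.getD_eq_getElem _ _ hj, ← List.mem_range] at this
  · rw [← c1 j (Finset.mem_range.2 d2)]
    exact List.mem_filter.2 ⟨d3, decide_eq_true (b2 j d2)⟩

end Pool.Agent.H37.Hf
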