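import Pool.Agent.H37.HfO1

/-! Slalom forcing with trees: the steps. -/

set_option autoImplicit false

namespace Pool.Agent.H37.Hf

open Filter Io Ae Rnd

structure Cd where
  s : List ℕ
  d : ℕ
  a : ℕ
  N : List ℕ → Bool
  Lv : ℕ → Bool
  B : List ℕ → Bool

structure Val (p : Cd) : Prop where
  cN : CI ∅ p.N
  cL : CI ∅ p.Lv
  cB : CI ∅ p.B
  up : ∀ ρ τ, ρ <+: τ → p.B ρ = true → p.B τ = true
  nd : ∀ ρ, p.N ρ = true → p.Lv ρ.length = true ∧ Bd ρ
  cl : ∀ ρ l, p.N ρ = true → l ≤ ρ.length → p.Lv l = true → p.N (ρ.take l) = true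
  st : p.N p.s = true
  room : p.a + p.d ≤ p.s.length
  rob : ∀ τ, p.s <+: τ → p.N τ = true → ∀ L,
    ¬ Sm (τ.length - p.d) (fun ρ => p.N ρ = true ∧ L ≤ ρ.length) τ
  small : Sm p.a (fun ρ => p.N ρ = true ∧ p.B ρ = true) p.s

def Le (q p : Cd) : Prop := p.s <+: q.s ∧ (∀ ρ, q.N ρ = true → p.N ρ = true) ∧
  ∀ ρ, p.B ρ = true → q.B ρ = true

theorem Le.refl (p : Cd) : Le p p := ⟨List.prefix_rfl, fun _ h => h, fun _ h => h⟩
theorem Le.trans {p q r : Cd} (h : Le p q) (h' : Le q r) : Le p r :=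
  ⟨h'.1.trans h.1, fun ρ a => h'.2.1 ρ (h.2.1 ρ a), fun ρ a => h.2.2 ρ (h'.2.2 ρ a)⟩

theorem Val.move {p : Cd} (h : Val p) {τ : List ℕ} {a : ℕ} {B : List ℕ → Bool} (h1 : p.s <+: τ)
    (h2 : p.N τ = true) (h3 : a + p.d ≤ τ.length) (h4 : CI ∅ B)
    (h5 : ∀ ρ τ, ρ <+: τ → B ρ = true → B τ = true)
    (h6 : Sm a (fun ρ => p.N ρ = true ∧ B ρ = true) τ) : Val { p with s := τ, a := a, B := B } :=
  ⟨h.cN, h.cL, h4, h5, h.nd, h.cl, h2, h3, fun ρ a => h.rob ρ (h1.trans a), h6⟩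

theorem longer {p : Cd} (h : Val p) (L : ℕ) :
    ∃ τ : List ℕ, L ≤ τ.length ∧ p.s <+: τ ∧ Val { p with s := τ } := by
  obtain ⟨A, h1, h2⟩ := h.small
  have := h.room
  obtain ⟨τ, a, ⟨b, c⟩, d⟩ := not_sm.1 (h.rob _ List.prefix_rfl h.st L) A fun j =>
    (h1 j).trans (Nat.pow_le_pow_right (bb_pos j) (by omega))
  exact ⟨τ, c, a, h.move a b (h.room.trans a.length_le) h.cB h.up ⟨A, h1, h2.ext a d⟩⟩

theorem avoid {p : Cd} (h : Val p) {H : ℕ × ℕ × ℕ → Bool} (hH : CI ∅ H)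
    (hw : ∀ t, ∃ l : List ℕ, l.length ≤ 8 ^ t ∧ ∀ v s, H (t, v, s) = true → v ∈ l) :
    ∃ q, Val q ∧ Le q p ∧ ∃ J, ∀ ρ : List ℕ,
      (∃ j s, J ≤ j ∧ j < ρ.length ∧ s < ρ.length ∧ H (j, ρ.getD j 0, s) = true) → q.B ρ = true := by
  obtain ⟨τ, h1, h2, h3⟩ := longer h (p.a + 1 + p.d)
  have := h.cB
  have e : ∀ ρ : List ℕ, (p.B ρ || (List.range ρ.length).any fun j => (List.range ρ.length).any
      fun s => decide (τ.length ≤ j) && H (j, ρ.getD j 0, s)) = true ↔ p.B ρ = true ∨ ∃ j s,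
        τ.length ≤ j ∧ j < ρ.length ∧ s < ρ.length ∧ H (j, ρ.getD j 0, s) = true := fun ρ => by
    simp only [Bool.or_eq_true, List.any_eq_true, List.mem_range, Bool.and_eq_true,
      decide_eq_true_eq]
    exact or_congr_right ⟨fun ⟨j, a, s, b, c, d⟩ => ⟨j, s, c, a, b, d⟩,
      fun ⟨j, s, c, a, b, d⟩ => ⟨j, a, s, b, c, d⟩⟩
  choose l l1 l2 using hw
  refine ⟨_, h.move (a := p.a + 1) (B := fun ρ => p.B ρ || (List.range ρ.length).any fun j =>
    (List.range ρ.length).any fun s => decide (τ.length ≤ j) && H (j, ρ.getD j 0, s)) h2 h3.st h1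
    (by fun_prop) (fun ρ ρ' a b => (e _).2 (((e _).1 b).imp (h.up _ _ a) fun ⟨j, s, c, d, f, g⟩ =>
      ⟨j, s, c, d.trans_le a.length_le, f.trans_le a.length_le, (getD_pf a d).symm ▸ g⟩))
    ((Sw.or h3.small (C := fun ρ => ∃ j s, τ.length ≤ j ∧ j < ρ.length ∧ s < ρ.length ∧
      H (j, ρ.getD j 0, s) = true) ⟨l, l1, fun ρ _ ⟨j, s, a, b, _, c⟩ d => d j a b (l2 _ _ _ c)⟩).mono
        (fun j _ => ?_) fun ρ a => ((e ρ).1 a.2).imp_left (⟨a.1, ·⟩)),
    ⟨h2, fun _ a => a, fun ρ a => (e _).2 (Or.inl a)⟩, _, fun ρ a => (e _).2 (Or.inr a)⟩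
  have h4 : 8 ^ j * 4 ≤ bb j := by
    rw [show 8 = 2 ^ 3 from rfl, ← pow_mul, show 4 = 2 ^ 2 from rfl, ← pow_add]
    exact Nat.pow_le_pow_right two_pos (by omega)
  have h5 : 1 ≤ bb j ^ p.a := Nat.pow_pos (bb_pos j)
  have h6 : 1 ≤ 8 ^ j := Nat.pow_pos (by omega)
  change bb j ^ p.a + 8 ^ j ≤ bb j ^ (p.a + 1)
  rw [pow_succ]; nlinarith

def nn (l : ℕ) : ℕ := nu l + l + 1

/-- the functional converges below `n` to the pattern `v` -/
def Dv (e n : ℕ) (v : List Bool) (ρ : List ℕ) : Bool := v.length == n &&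
  (List.range n).all fun m => (U e ρ m).map (fun x => x == 1) == some (v.getD m false)

theorem Dv_iff {e n : ℕ} {v : List Bool} {ρ : List ℕ} : Dv e n v ρ = true ↔ v.length = n ∧
    ∀ m < n, ∃ x, U e ρ m = some x ∧ (x == 1) = v.getD m false := by simp [Dv]

theorem Dv_up {e n : ℕ} {v : List Bool} {ρ τ : List ℕ} (h : ρ <+: τ) (h1 : Dv e n v ρ = true) :
    Dv e n v τ = true := Dv_iff.2 ((Dv_iff.1 h1).imp_right fun h2 m hm =>
  (h2 m hm).imp fun _ h3 => ⟨U_mon e _ _ _ _ h h3.1, h3.2⟩)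

theorem decide_e {p0 : Cd} (h0 : Val p0) (e : ℕ) : ∃ q, Val q ∧ Le q p0 ∧
    ((∃ n, ∀ ρ, (∃ v, Dv e n v ρ = true) → q.B ρ = true) ∨
      ∃ (l : ℕ → ℕ) (c : List ℕ → List Bool), CI ∅ l ∧ CI ∅ c ∧ StrictMono l ∧
        (∀ i, q.Lv (l i) = true) ∧ ∀ i ρ, q.N ρ = true → ρ.length = l (i + 1) →
          q.B ρ = true ∨ Dv e (nn (l i)) (c (ρ.take (l i))) ρ = true) := by
  obtain ⟨σ, s1, s2, h⟩ := longer h0 (p0.d + 1 + p0.a)
  have s3 : Le { p0 with s := σ } p0 := ⟨s2, fun _ h => h, fun _ h => h⟩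
  generalize hp : ({ p0 with s := σ } : Cd) = p at h s3
  have s4 : p.a + (p.d + 1) ≤ p.s.length := by subst hp; simpa [add_comm] using s1
  clear hp s1 s2
  have hB := h.cB
  have hN := h.cN
  have hL := h.cL
  have hn := ci_nu (O := ∅)
  have hS := ci_Strs (O := ∅)
  by_cases hc : ∃ τ, p.s <+: τ ∧ p.N τ = true ∧ Sm (τ.length - p.d) (fun ρ => p.N ρ = true ∧
      (p.B ρ = true ∨ ∃ v ∈ W (nn τ.length), Dv e (nn τ.length) v ρ = true)) τ
  · obtain ⟨τ, h1, h2, h3⟩ := hc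
    have := h1.length_le
    refine ⟨_, h.move (a := τ.length - p.d) (B := fun ρ => p.B ρ || (W (nn τ.length)).any fun v =>
      Dv e (nn τ.length) v ρ) h1 h2 (by omega) (by unfold Dv; fun_prop) (fun ρ ρ' a b => ?_)
      (by simpa using h3), Le.trans ⟨h1, fun _ a => a, fun ρ a => by simp [a]⟩ s3,
      Or.inl ⟨nn τ.length, fun ρ ⟨v, a⟩ => ?_⟩⟩
    · simp only [Bool.or_eq_true, List.any_eq_true] at b ⊢
      exact b.imp (h.up _ _ a) fun ⟨v, c, d⟩ => ⟨v, c, Dv_up a d⟩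
    · simp only [Bool.or_eq_true, List.any_eq_true]
      exact Or.inr ⟨v, mem_W.2 (Dv_iff.1 a).1, a⟩
  obtain ⟨X, hX, eX⟩ : ∃ X : ℕ × List Bool × List ℕ → Bool, CI ∅ X ∧ ∀ n v ρ, X (n, v, ρ) =
      (p.B ρ || Dv e (nn n) v ρ) := ⟨fun q => p.B q.2.2 || Dv e (nn q.1) q.2.1 q.2.2,
    by unfold Dv nn; fun_prop, fun _ _ _ => rfl⟩
  have xup : ∀ {n v ρ τ}, ρ <+: τ → X (n, v, ρ) = true → X (n, v, τ) = true := fun a b => by
    simp only [eX, Bool.or_eq_true] at b ⊢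
    exact b.imp (h.up _ _ a) (Dv_up a)
  obtain ⟨f, hf, ef⟩ := CI.exists_choice (O := ∅) (p := fun (τ : List ℕ) (q : List Bool × ℕ) =>
    !(τ.take p.s.length == p.s && p.N τ) ||
      lg (fun ρ => p.N ρ && X (τ.length, q.1, ρ)) (τ.length - (p.d + 1)) τ q.2)
    (CI.or (by fun_prop) (ci_lg (α := List ℕ × List Bool × ℕ)
      (B := fun q ρ => p.N ρ && X (q.1.length, q.2.1, ρ)) (by fun_prop) (by fun_prop) (by fun_prop)
      (by fun_prop))) fun τ => by
      by_contra! a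
      simp only [ne_eq, Bool.or_eq_true, not_or, Bool.not_eq_true', Bool.not_eq_false,
        Bool.and_eq_true, beq_iff_eq, Prod.forall] at a
      obtain ⟨⟨a1, a2⟩, -⟩ := a [] 0
      have a3 := List.prefix_iff_eq_take.2 a1.symm
      have := a3.length_le
      refine hc ⟨τ, a3, a2, (sw_ex (D := fun v ρ => (p.N ρ && X (τ.length, v, ρ)) = true)
        (fun v => not_not.1 (mt (lg_of fun ρ b => (h.nd ρ (Bool.and_eq_true_iff.1 b).1).2)
          fun ⟨s, hs⟩ => (a v s).2 hs)) (W (nn τ.length))).mono (fun j hj => ?_) fun ρ b => ?_⟩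
      · rw [show τ.length - p.d = τ.length - (p.d + 1) + 1 by omega, pow_succ,
          ← List.toFinset_card_of_nodup (nodup_W _)]
        refine Nat.mul_le_mul_left _ (le_trans ?_ (bb_mono hj))
        rw [List.toFinset_card_of_nodup (nodup_W _)]
        have : ∀ n, (W n).length = 2 ^ n := fun n => by
          induction n with
          | zero => rfl
          | succ n ih => simp [W_succ, List.length_flatMap, ih, pow_succ]
        rw [this]
        exact Nat.pow_le_pow_right two_pos (by unfold nn; omega)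
      · simp only [eX, Bool.and_eq_true, Bool.or_eq_true]
        exact b.2.elim (fun c => ⟨List.replicate (nn τ.length) false, mem_W.2 (by simp), b.1, Or.inl c⟩)
          fun ⟨v, c, d⟩ => ⟨v, c, b.1, Or.inr d⟩
  obtain ⟨nx, hx, ex⟩ := CI.exists_choice (O := ∅) (p := fun l L : ℕ => p.Lv L && decide (l < L) &&
    (Strs l).all fun τ => decide ((f τ).2 ≤ L)) (by fun_prop) fun l => by
      obtain ⟨ρ, -, ⟨a, b⟩, -⟩ := not_sm.1 (h.rob _ List.prefix_rfl h.st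
        (l + 1 + ((Strs l).map fun τ => (f τ).2).sum)) (fun _ => []) (by simp)
      refine ⟨ρ.length, ?_⟩
      simp only [Bool.and_eq_true, decide_eq_true_eq, List.all_eq_true]
      exact ⟨⟨(h.nd ρ a).1, by omega⟩, fun τ hτ => (List.single_le_sum (l := (Strs l).map fun τ =>
        (f τ).2) (by simp) _ (List.mem_map.2 ⟨τ, hτ, rfl⟩)).trans (by omega)⟩
  simp only [Bool.and_eq_true, decide_eq_true_eq, List.all_eq_true] at ex
  obtain ⟨l, hl, l0, l1⟩ : ∃ l : ℕ → ℕ, CI ∅ l ∧ l 0 = p.s.length ∧ ∀ i, l (i + 1) = nx (l i) :=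
    ⟨fun i => nx^[i] p.s.length, by fun_prop, rfl, fun i => Function.iterate_succ_apply' _ _ _⟩
  have l2 : StrictMono l := strictMono_nat_of_lt_succ fun i => l1 i ▸ (ex _).1.2
  have l3 : ∀ i, p.Lv (l i) = true := fun i => by
    cases i with
    | zero => exact l0 ▸ (h.nd _ h.st).1
    | succ i => exact l1 i ▸ (ex _).1.1
  obtain ⟨N, hN', eN⟩ : ∃ N : List ℕ → Bool, CI ∅ N ∧ ∀ ρ, N ρ = true ↔ p.N ρ = true ∧
      (∃ i, l i = ρ.length) ∧ ∀ i, l (i + 1) ≤ ρ.length →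
        X (l i, (f (ρ.take (l i))).1, ρ.take (l (i + 1))) = true := by
    refine ⟨fun ρ => p.N ρ && ((List.range (ρ.length + 1)).any fun i => l i == ρ.length) &&
      (List.range ρ.length).all fun i => decide (ρ.length < l (i + 1)) ||
        X (l i, (f (ρ.take (l i))).1, ρ.take (l (i + 1))), by fun_prop, fun ρ => ?_⟩
    simp only [Bool.and_eq_true, List.any_eq_true, List.all_eq_true, List.mem_range, beq_iff_eq,
      Bool.or_eq_true, decide_eq_true_eq, and_assoc, ← not_le, ← imp_iff_not_or]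
    exact and_congr_right fun _ => and_congr ⟨fun ⟨i, a⟩ => ⟨i, a.2⟩, fun ⟨i, a⟩ =>
      ⟨i, by have := l2.le_apply (x := i); omega, a⟩⟩ (forall_congr' fun i => ⟨fun a b => a (by
        have := l2.le_apply (x := i + 1); omega) b, fun a _ => a⟩)
  have eL : ∀ m, ((List.range (m + 1)).any fun i => l i == m) = true ↔ ∃ i, l i = m := fun m => by
    simp only [List.any_eq_true, List.mem_range, beq_iff_eq]
    exact ⟨fun ⟨i, a⟩ => ⟨i, a.2⟩, fun ⟨i, a⟩ => ⟨i, by have := l2.le_apply (x := i); omega, a⟩⟩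
  refine ⟨⟨p.s, p.d + 1, p.a, N, fun m => (List.range (m + 1)).any fun i => l i == m, p.B⟩,
    ⟨hN', by fun_prop, hB, h.up, fun ρ a => ⟨(eL _).2 ((eN _).1 a).2.1, (h.nd ρ ((eN _).1 a).1).2⟩,
      fun ρ m a b c => ?_, (eN _).2 ⟨h.st, ⟨0, l0⟩, fun i a => absurd (l0 ▸ l2 i.succ_pos) a.not_gt⟩,
      s4, fun τ a b L => not_sm.2 fun A hA => ?_,
      h.small.mono le_rfl fun ρ a => ⟨((eN _).1 a.1).1, a.2⟩⟩,
    Le.trans (q := p) ⟨List.prefix_rfl, fun ρ a => ((eN _).1 a).1, fun _ a => a⟩ s3,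
    Or.inr ⟨l, fun τ => (f τ).1, hl, by fun_prop, l2, fun i => (eL _).2 ⟨i, rfl⟩, fun i ρ a b => by
      simpa [eX, ← b] using ((eN _).1 a).2.2 i b.ge⟩⟩
  · obtain ⟨i, rfl⟩ := (eL _).1 c
    obtain ⟨a1, -, a2⟩ := (eN _).1 a
    refine (eN _).2 ⟨h.cl _ _ a1 b (l3 i), ⟨i, by simp [b]⟩, fun k hk => ?_⟩
    have : l (k + 1) ≤ l i := by simpa [b] using hk
    rw [List.take_take, List.take_take, min_eq_left this,
      min_eq_left ((l2.monotone k.le_succ).trans this)]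
    exact a2 k (this.trans b)
  · change ∃ ρ, τ <+: ρ ∧ (N ρ = true ∧ L ≤ ρ.length) ∧ _
    induction L with
    | zero => exact ⟨τ, List.prefix_rfl, ⟨b, by omega⟩, fun j _ _ => by omega⟩
    | succ L ih =>
      obtain ⟨ρ, c1, ⟨c2, c3⟩, c4⟩ := ih
      obtain ⟨c5, ⟨m, c6⟩, c7⟩ := (eN _).1 c2
      have c8 := ef ρ
      rw [← List.prefix_iff_eq_take.1 (a.trans c1), c5] at c8
      have w : ∀ {k}, τ.length - (p.d + 1) ≤ k → ∀ j, (A j).length ≤ bb j ^ k := fun hk j =>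
        (hA j).trans (Nat.pow_le_pow_right (bb_pos j) hk)
      have := c1.length_le
      obtain ⟨ρ1, d1, d2, d3, d4⟩ := of_lg (by simpa using c8) A (w (by omega))
      rw [Bool.and_eq_true] at d3
      have := d1.length_le
      obtain ⟨ρ2, d5, ⟨d6, d7⟩, d8⟩ := not_sm.1 (h.rob ρ1 ((a.trans c1).trans d1) d3.1 (l (m + 1)))
        A (w (by omega))
      have d9 : ρ1.length ≤ l (m + 1) :=
        d2.trans (l1 m ▸ (ex _).2 ρ (c6 ▸ mem_Strs (h.nd _ c5).2))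
      have d10 := List.prefix_take_iff.2 ⟨d5, d9⟩
      have d11 : (ρ2.take (l (m + 1))).length = l (m + 1) := by simp [d7]
      have d12 : l m < l (m + 1) := l2 m.lt_succ_self
      refine ⟨ρ2.take (l (m + 1)), c1.trans (d1.trans d10), ⟨(eN _).2 ⟨h.cl _ _ d6 d7 (l3 _),
        ⟨_, d11.symm⟩, fun k hk => ?_⟩, by omega⟩, fun j g1 g2 => getD_pf (List.take_prefix _ _) g2 ▸
          av_trans c4 (d1.trans d5) (av_trans d4 d5 d8) j g1 (by omega)⟩
      have g0 : ∀ {n}, n ≤ ρ.length → (ρ2.take (l (m + 1))).take n = ρ.take n := fun hn => by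
        obtain ⟨x, hx⟩ := d1.trans d10
        rw [← hx, List.take_append_of_le_length hn]
      rcases (show k ≤ m from Nat.le_of_succ_le_succ (l2.le_iff_le.1 (d11 ▸ hk))).eq_or_lt
        with rfl | g1
      · rw [g0 c6.le, c6, List.take_length, List.take_take, min_self]
        exact xup d10 d3.2
      · have := l2.monotone (show k + 1 ≤ m from g1)
        have : l k < l (k + 1) := l2 k.lt_succ_self
        rw [g0 (by omega), g0 (by omega)]
        exact c7 k (by omega)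

end Pool.Agent.H37.Hf
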