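import Pool.Agent.H37.RE

/-!
A computable copy of the finite-cofinite algebra in which finiteness is undecidable.
-/

set_option autoImplicit false

namespace Pool.Agent.H37.IntAlg

open Pool.Agent.H37

def FC : BooleanSubalgebra (Set ℕ) where
  carrier := {s | s.Finite ∨ sᶜ.Finite}
  supClosed' := by
    rintro a (ha | ha) b (hb | hb)
    · exact Or.inl (ha.union hb)
    · exact Or.inr (hb.subset fun x hx hx' => hx (Or.inr hx'))
    · exact Or.inr (ha.subset fun x hx hx' => hx (Or.inl hx'))
    · exact Or.inr (ha.subset fun x hx hx' => hx (Or.inl hx'))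
  infClosed' := by
    rintro a (ha | ha) b (hb | hb)
    · exact Or.inl (ha.subset Set.inter_subset_left)
    · exact Or.inl (ha.subset Set.inter_subset_left)
    · exact Or.inl (hb.subset Set.inter_subset_right)
    · exact Or.inr ((ha.union hb).subset fun x hx => by
        simp only [Set.inf_eq_inter, Set.mem_compl_iff, Set.mem_inter_iff, Set.mem_union] at hx ⊢
        tauto)
  compl_mem' := by
    rintro a (ha | ha)
    · exact Or.inr (by simpa using ha)
    · exact Or.inl ha
  bot_mem' := Or.inl Set.finite_empty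

theorem mem_FC {s : Set ℕ} : s ∈ FC ↔ s.Finite ∨ sᶜ.Finite := Iff.rfl

def IA : Set (Set ℕ) := {X | ∃ S : Finset ℕ, ∃ b : Bool,
  X = {x : ℕ | Xor' (b = true) (Odd (S.filter (fun s => s ≤ x)).card)}}

theorem IA_toggle {X : Set ℕ} (h : X ∈ IA) (n : ℕ) : {x | Xor' (x ∈ X) (n ≤ x)} ∈ IA := by
  obtain ⟨S, b, rfl⟩ := h
  by_cases hn : n ∈ S
  · refine ⟨S.erase n, b, Set.ext fun x => ?_⟩
    simp only [Set.mem_ofPred_eq, Finset.filter_erase]
    by_cases hx : n ≤ x
    · have h1 : n ∈ S.filter (fun s => s ≤ x) := by simp [hn, hx]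
      have h2 := Finset.card_erase_add_one h1
      rw [← h2, Nat.odd_add_one]
      simp only [hx, Xor', Xor]; tauto
    · rw [Finset.erase_eq_of_notMem (by simp [hx])]
      simp only [hx, Xor', Xor]; tauto
  · refine ⟨insert n S, b, Set.ext fun x => ?_⟩
    simp only [Set.mem_ofPred_eq, Finset.filter_insert]
    by_cases hx : n ≤ x
    · rw [if_pos hx, Finset.card_insert_of_notMem (by simp [hn]), Nat.odd_add_one]
      simp only [hx, Xor', Xor]; tauto
    · rw [if_neg hx]
      simp only [hx, Xor', Xor]; tauto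

theorem IA_fin {X : Set ℕ} (h : X.Finite) : X ∈ IA := by
  induction X, h using Set.Finite.induction_on with
  | empty => exact ⟨∅, false, by simp [Xor']⟩
  | @insert a s ha _ ih =>
    convert IA_toggle (IA_toggle ih a) (a + 1) using 1
    ext x
    simp only [Set.mem_insert_iff, Set.mem_ofPred_eq, Xor']
    rcases lt_trichotomy x a with h | rfl | h
    · have h1 : ¬ a ≤ x := by omega
      have h2 : ¬ a + 1 ≤ x := by omega
      have h3 : x ≠ a := by omega
      simp [h1, h2, h3, Xor]
    · simp [ha]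
    · have h1 : a ≤ x := by omega
      have h2 : a + 1 ≤ x := by omega
      have h3 : x ≠ a := by omega
      simp [h1, h2, h3, Xor]

theorem eventually_fin {X : Set ℕ} {p : Prop} {N : ℕ} (h : ∀ x, N ≤ x → (x ∈ X ↔ p)) :
    (p → Xᶜ.Finite) ∧ (¬ p → X.Finite) :=
  ⟨fun hp => (Set.finite_lt_nat N).subset fun x hx => by
      by_contra hc; exact hx ((h x (not_lt.1 hc)).2 hp),
    fun hp => (Set.finite_lt_nat N).subset fun x hx => by
      by_contra hc; exact hp ((h x (not_lt.1 hc)).1 hx)⟩

theorem FC_eq : Set.range (fun a : FC => (a : Set ℕ)) = IA := by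
  ext X
  constructor
  · rintro ⟨⟨a, ha | ha⟩, rfl⟩
    · exact IA_fin ha
    · convert IA_toggle (IA_fin ha) 0 using 1
      ext x; simp [Xor']
  · rintro ⟨S, b, rfl⟩
    refine ⟨⟨_, ?_⟩, rfl⟩
    have := eventually_fin (X := {x : ℕ | Xor' (b = true) (Odd (S.filter (fun s => s ≤ x)).card)})
      (p := Xor' (b = true) (Odd S.card)) (N := S.sup id) fun x hx => by
        rw [Set.mem_ofPred_eq, Finset.filter_true_of_mem (p := fun s => s ≤ x) fun s hs =>
          le_trans (Finset.le_sup (f := id) hs) hx]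
    by_cases hp : Xor' (b = true) (Odd S.card)
    · exact Or.inr (this.1 hp)
    · exact Or.inl (this.2 hp)

theorem psi_fin (ψ : FC → Set ℕ) (hi : Function.Injective ψ)
    (hs : ∀ a b, ψ (a ⊔ b) = ψ a ∪ ψ b) (hc : ∀ a, ψ aᶜ = (ψ a)ᶜ) (hr : Set.range ψ = IA)
    (a : FC) : (a : Set ℕ).Infinite ↔ (ψ a).Infinite := by
  have htop : ψ ⊤ = Set.univ := by
    rw [← sup_compl_eq_top (x := (⊤ : FC)), hs, hc]; simp
  have hbot : ψ ⊥ = ∅ := by rw [← compl_top, hc, htop]; simp
  have hle : ∀ a b, ψ a ⊆ ψ b → a ≤ b := fun a b h =>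
    sup_eq_right.1 (hi (by rw [hs, Set.union_eq_right.2 h]))
  have hsing : ∀ x, (ψ ⟨{x}, Or.inl (Set.finite_singleton x)⟩).Finite := by
    intro x
    rcases (ψ ⟨{x}, Or.inl (Set.finite_singleton x)⟩).eq_empty_or_nonempty with h | ⟨y, hy⟩
    · rw [h]; exact Set.finite_empty
    · have : ({y} : Set ℕ) ∈ Set.range ψ := hr ▸ IA_fin (Set.finite_singleton y)
      obtain ⟨a', ha'⟩ := this
      have h1 : a' ≤ ⟨{x}, Or.inl (Set.finite_singleton x)⟩ := hle _ _ (by rw [ha']; simpa using hy)
      have h2 : (a' : Set ℕ) ⊆ {x} := h1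
      rcases Set.subset_singleton_iff_eq.1 h2 with h3 | h3
      · have : a' = ⊥ := Subtype.ext h3
        rw [this, hbot] at ha'
        exact absurd ha'.symm (Set.singleton_ne_empty y)
      · have : a' = ⟨{x}, Or.inl (Set.finite_singleton x)⟩ := Subtype.ext h3
        rw [← this, ha']; exact Set.finite_singleton y
  have hfin : ∀ (X : Set ℕ) (h : X.Finite), (ψ ⟨X, Or.inl h⟩).Finite := by
    intro X h
    induction X, h using Set.Finite.induction_on with
    | empty => exact (show (ψ ⊥).Finite by rw [hbot]; exact Set.finite_empty)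
    | @insert x s _ hs' ih =>
      have : (⟨insert x s, Or.inl (hs'.insert x)⟩ : FC) =
          ⟨{x}, Or.inl (Set.finite_singleton x)⟩ ⊔ ⟨s, Or.inl hs'⟩ := Subtype.ext (by simp)
      rw [this, hs]
      exact (hsing x).union ih
  constructor
  · intro h
    have h1 : (a : Set ℕ)ᶜ.Finite := a.2.resolve_left h
    have h2 := hfin _ h1
    have h3 : (⟨(a : Set ℕ)ᶜ, Or.inl h1⟩ : FC) = aᶜ := rfl
    rw [h3, hc] at h2
    intro h4
    exact Set.infinite_univ (by simpa using h4.union h2)
  · intro h h1
    exact h (hfin _ h1)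

def u (i : ℕ) : List Bool := (List.range i.unpair.1).map fun e => Kst e (i.unpair.1 + i.unpair.2)

@[fun_prop] theorem ci_u {α : Type} [Primcodable α] {f : α → ℕ} (hf : CI ∅ f) :
    CI ∅ fun a => u (f a) := by unfold u; fun_prop

theorem u_length (i : ℕ) : (u i).length = i.unpair.1 := by simp [u]

theorem u_prefix_closed {σ : List Bool} {i : ℕ} (h : σ <+: u i) : ∃ j, u j = σ := by
  have hl := h.length_le
  rw [u_length] at hl
  refine ⟨Nat.pair σ.length (i.unpair.1 + i.unpair.2 - σ.length), ?_⟩
  rw [List.prefix_iff_eq_take.1 h]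
  simp only [u, Nat.unpair_pair, List.length_take, List.length_map, List.length_range,
    min_eq_left hl, ← List.map_take, List.take_range]
  rw [Nat.add_sub_cancel' (by omega)]

def pre (σ τ : List Bool) : Bool := σ == τ.take σ.length

theorem pre_iff {σ τ : List Bool} : pre σ τ = true ↔ σ <+: τ := by
  simp [pre, List.prefix_iff_eq_take]

def same (k : ℕ) (τ τ' : List Bool) : Bool :=
  (List.range k).all fun j => pre (u j) τ == pre (u j) τ'

theorem same_iff {k : ℕ} {τ τ' : List Bool} :
    same k τ τ' = true ↔ ∀ j < k, (u j <+: τ ↔ u j <+: τ') := by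
  simp only [same, List.all_eq_true, List.mem_range, beq_iff_eq, ← pre_iff]
  exact forall₂_congr fun j _ => Bool.eq_iff_iff

def mem (c : ℕ × List ℕ) (τ : List Bool) : Bool := c.2.any fun i => same c.1 τ (u i)

@[fun_prop] theorem ci_pre {α : Type} [Primcodable α] {f g : α → List Bool} (hf : CI ∅ f)
    (hg : CI ∅ g) : CI ∅ fun a => pre (f a) (g a) := by unfold pre; fun_prop

@[fun_prop] theorem ci_mem {α : Type} [Primcodable α] {f : α → ℕ × List ℕ} {g : α → List Bool}
    (hf : CI ∅ f) (hg : CI ∅ g) : CI ∅ fun a => mem (f a) (g a) := by unfold mem same; fun_prop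

theorem witness (k : ℕ) (τ : List Bool) : ∃ i < k + 1, same k τ (u i) = true := by
  classical
  rcases Nat.eq_zero_or_pos k with rfl | hk
  · exact ⟨0, by omega, by simp [same]⟩
  have hne : ((Finset.range k).filter fun j => u j <+: τ).Nonempty :=
    ⟨0, by simp [hk, u]⟩
  obtain ⟨m, hm, hmax⟩ := Finset.exists_max_image _ (fun j => (u j).length) hne
  simp only [Finset.mem_filter, Finset.mem_range] at hm hmax
  refine ⟨m, by omega, same_iff.2 fun j hj => ⟨fun h => ?_, fun h => h.trans hm.2⟩⟩
  exact List.prefix_of_prefix_length_le h hm.2 (hmax j ⟨hj, h⟩)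

theorem mem_congr {c : ℕ × List ℕ} {k : ℕ} {τ τ' : List Bool} (hk : c.1 ≤ k)
    (h : same k τ τ' = true) : mem c τ = mem c τ' := by
  rw [same_iff] at h
  unfold mem
  congr 1
  funext i
  rw [Bool.eq_iff_iff, same_iff, same_iff]
  exact forall₂_congr fun j hj => by rw [h j (by omega)]

def norm (k : ℕ) (p : List Bool → Bool) : ℕ × List ℕ :=
  (k, (List.range (k + 1)).filter fun i => p (u i))

theorem mem_norm {k : ℕ} {p : List Bool → Bool}
    (hp : ∀ τ τ', same k τ τ' = true → p τ = p τ') (τ : List Bool) : mem (norm k p) τ = p τ := by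
  rw [Bool.eq_iff_iff]
  simp only [mem, norm, List.any_eq_true, List.mem_filter, List.mem_range]
  constructor
  · rintro ⟨i, ⟨-, h1⟩, h2⟩; rw [hp _ _ h2, h1]
  · intro h
    obtain ⟨i, hi, hs⟩ := witness k τ
    exact ⟨i, ⟨hi, by rw [← hp _ _ hs, h]⟩, hs⟩

open Classical in
noncomputable def K (e : ℕ) : Bool := decide (∃ s, Kst e s = true)

theorem settle (n : ℕ) : ∃ s0, ∀ s, s0 ≤ s → ∀ e < n, Kst e s = K e := by
  induction n with
  | zero => exact ⟨0, by simp⟩
  | succ n ih =>
    obtain ⟨s0, h⟩ := ih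
    by_cases hn : ∃ s, Kst n s = true
    · obtain ⟨s1, h1⟩ := hn
      refine ⟨max s0 s1, fun s hs e he => ?_⟩
      rcases Nat.lt_succ_iff_lt_or_eq.1 he with he | rfl
      · exact h s (by omega) e he
      · rw [Kst_mono (by omega) h1, eq_comm]; simp only [K, decide_eq_true_eq]; exact ⟨s1, h1⟩
    · refine ⟨s0, fun s hs e he => ?_⟩
      rcases Nat.lt_succ_iff_lt_or_eq.1 he with he | rfl
      · exact h s hs e he
      · simp only [K, hn, decide_false]
        by_contra hc; exact hn ⟨s, by simpa using hc⟩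

theorem small_fin (s0 : ℕ) : {i : ℕ | i.unpair.1 + i.unpair.2 < s0}.Finite := by
  refine ((Set.finite_lt_nat s0).prod (Set.finite_lt_nat s0)).preimage
    (f := Nat.unpair) (Nat.pairEquiv.symm.injective.injOn) |>.subset fun i hi => ?_
  simp only [Set.mem_ofPred_eq, Set.mem_preimage, Set.mem_prod] at hi ⊢
  omega

theorem take_u {i n : ℕ} (h : n ≤ i.unpair.1) :
    (u i).take n = (List.range n).map fun e => Kst e (i.unpair.1 + i.unpair.2) := by
  simp [u, ← List.map_take, List.take_range, min_eq_left h]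

section
variable (h : ℕ → ℕ) (hinj : Function.Injective fun x => u (h x))
include hinj

theorem h_small (s0 : ℕ) : {x | (h x).unpair.1 + (h x).unpair.2 < s0}.Finite :=
  (small_fin s0).preimage (f := h) fun _ _ _ _ e => hinj (congrArg u e)

theorem cone_false {σ : List Bool} (hσ : σ ≠ (List.range σ.length).map K) :
    {x | σ <+: u (h x)}.Finite := by
  obtain ⟨s0, hs⟩ := settle σ.length
  refine (h_small h hinj s0).subset fun x hx => ?_
  by_contra hc
  apply hσ
  have hx' : σ <+: u (h x) := hx
  have hl := hx'.length_le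
  rw [u_length] at hl
  conv_lhs => rw [List.prefix_iff_eq_take.1 hx', take_u hl]
  exact List.map_congr_left fun e he => hs _ (not_lt.1 hc) e (List.mem_range.1 he)

theorem cone_true {σ : List Bool} (hσ : σ = (List.range σ.length).map K) :
    {x | σ <+: u (h x)}ᶜ.Finite := by
  obtain ⟨s0, hs⟩ := settle σ.length
  refine ((h_small h hinj s0).union ((List.finite_length_lt Bool σ.length).preimage
    (f := fun x => u (h x)) hinj.injOn)).subset fun x hx => ?_
  by_contra hc
  simp only [Set.mem_union, Set.mem_ofPred_eq, Set.mem_preimage, not_or, not_lt, u_length] at hc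
  apply hx
  show σ <+: u (h x)
  rw [List.prefix_iff_eq_take, take_u hc.2]
  conv_lhs => rw [hσ]
  exact List.map_congr_left fun e he => (hs _ hc.1 e (List.mem_range.1 he)).symm

theorem cone_FC (σ : List Bool) : {x | σ <+: u (h x)} ∈ FC := by
  by_cases hσ : σ = (List.range σ.length).map K
  · exact Or.inr (cone_true h hinj hσ)
  · exact Or.inl (cone_false h hinj hσ)

theorem same_FC (k : ℕ) (τ : List Bool) : {x | same k (u (h x)) τ = true} ∈ FC := by
  induction k with
  | zero => exact Or.inr (by simp [same])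
  | succ k ih =>
    by_cases hk : u k <+: τ
    · convert FC.inf_mem ih (cone_FC h hinj (u k)) using 1
      ext x; simp [same_iff, Nat.forall_lt_succ_right, hk, -Order.lt_add_one_iff]
    · convert FC.inf_mem ih (FC.compl_mem (cone_FC h hinj (u k))) using 1
      ext x; simp [same_iff, Nat.forall_lt_succ_right, hk, -Order.lt_add_one_iff]

theorem mem_FC' (c : ℕ × List ℕ) : {x | mem c (u (h x)) = true} ∈ FC := by
  obtain ⟨k, F⟩ := c
  induction F with
  | nil => exact Or.inl (by simp [mem])
  | cons i F ih =>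
    convert FC.sup_mem (same_FC h hinj k (u i)) ih using 1
    ext x; simp [mem]

end

def dec (n : ℕ) : ℕ × List ℕ := Denumerable.ofNat _ n

theorem dec_enc (c : ℕ × List ℕ) : dec (Encodable.encode c) = c := Denumerable.ofNat_encode c

theorem exists_h : ∃ h : ℕ → ℕ, (Function.Injective fun x => u (h x)) ∧ ∀ i, ∃ x, u (h x) = u i := by
  have hinf : (Set.range u).Infinite := by
    refine Set.infinite_of_injective_forall_mem (f := fun n => u (Nat.pair n 0)) ?_
      fun n => ⟨_, rfl⟩
    intro a b hab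
    have := congrArg List.length hab
    simpa [u_length] using this
  haveI := hinf.to_subtype
  obtain ⟨g⟩ : Nonempty (ℕ ≃ Set.range u) := nonempty_equiv_of_countable
  choose h hh using fun x => (g x).2
  refine ⟨h, fun a b hab => g.injective (Subtype.ext (by simpa [hh] using hab)), fun i => ?_⟩
  exact ⟨g.symm ⟨u i, i, rfl⟩, by simp [hh]⟩

def cU (c c' : ℕ × List ℕ) := norm (max c.1 c'.1) fun τ => mem c τ || mem c' τ
def cI (c c' : ℕ × List ℕ) := norm (max c.1 c'.1) fun τ => mem c τ && mem c' τ
def cC (c : ℕ × List ℕ) := norm c.1 fun τ => !mem c τ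
def cone (j : ℕ) := norm (j + 1) fun τ => pre (u j) τ

theorem mem_cU (c c' : ℕ × List ℕ) (τ : List Bool) : mem (cU c c') τ = (mem c τ || mem c' τ) :=
  mem_norm (fun _ _ h => by rw [mem_congr (le_max_left _ _) h, mem_congr (le_max_right _ _) h]) τ
theorem mem_cI (c c' : ℕ × List ℕ) (τ : List Bool) : mem (cI c c') τ = (mem c τ && mem c' τ) :=
  mem_norm (fun _ _ h => by rw [mem_congr (le_max_left _ _) h, mem_congr (le_max_right _ _) h]) τ
theorem mem_cC (c : ℕ × List ℕ) (τ : List Bool) : mem (cC c) τ = !mem c τ :=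
  mem_norm (fun _ _ h => by rw [mem_congr le_rfl h]) τ
theorem mem_cone (j : ℕ) (τ : List Bool) : mem (cone j) τ = pre (u j) τ :=
  mem_norm (fun _ _ h => by
    rw [Bool.eq_iff_iff, pre_iff, pre_iff]; exact same_iff.1 h j (by omega)) τ

theorem single (i : ℕ) : ∃ c, ∀ j, mem c (u j) = true ↔ u j = u i := by
  have : ∀ b, ∃ k, ∀ j, u i ++ [b] <+: u j → ∃ m < k, u m = u i ++ [b] := by
    intro b
    by_cases hb : ∃ m, u m = u i ++ [b]
    · obtain ⟨m, hm⟩ := hb; exact ⟨m + 1, fun _ _ => ⟨m, by omega, hm⟩⟩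
    · exact ⟨0, fun j hj => absurd (u_prefix_closed hj) hb⟩
  choose k hk using this
  refine ⟨(i + 1 + k false + k true, [i]), fun j => ?_⟩
  simp only [mem, List.any_cons, List.any_nil, Bool.or_false, same_iff]
  refine ⟨fun H => ?_, fun H m _ => by rw [H]⟩
  obtain ⟨r, hr⟩ := (H i (by omega)).2 List.prefix_rfl
  cases r with
  | nil => simpa using hr.symm
  | cons b r =>
    have hp : u i ++ [b] <+: u j := ⟨r, by simpa using hr⟩
    obtain ⟨m, hm, hm'⟩ := hk b j hp
    have := ((H m (by cases b <;> omega)).1 (hm' ▸ hp)).length_le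
    rw [hm'] at this
    simp at this

theorem main :
    ¬ (∀ (β : Type) [LinearOrder β] (l : ℕ ≃ β),
      ComputablePred (fun p : ℕ × ℕ => l p.1 ≤ l p.2) →
      ∀ (α : Type) [BooleanAlgebra α] (e : ℕ ≃ α),
        Computable₂ (fun m n : ℕ => e.symm (e m ⊔ e n)) →
        Computable₂ (fun m n : ℕ => e.symm (e m ⊓ e n)) →
        Computable (fun n : ℕ => e.symm (e n)ᶜ) →
        (∃ φ : α → Set β, Function.Injective φ ∧
            (∀ a b, φ (a ⊔ b) = φ a ∪ φ b) ∧
            (∀ a, φ aᶜ = (φ a)ᶜ) ∧
            Set.range φ = {X : Set β | ∃ S : Finset β, ∃ b : Bool,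
              X = {x : β | Xor' (b = true) (Odd (S.filter (fun s => s ≤ x)).card)}}) →
        ∃ l' : ℕ ≃ β, ComputablePred (fun p : ℕ × ℕ => l' p.1 ≤ l' p.2) ∧
          ∃ ψ : α → Set β, Function.Injective ψ ∧
            (∀ a b, ψ (a ⊔ b) = ψ a ∪ ψ b) ∧
            (∀ a, ψ aᶜ = (ψ a)ᶜ) ∧
            Set.range ψ = {X : Set β | ∃ S : Finset β, ∃ b : Bool,
              X = {x : β | Xor' (b = true) (Odd (S.filter (fun s => s ≤ x)).card)}} ∧
            ∃ c : ℕ → List ℕ × Bool, Computable c ∧
              ∀ n : ℕ, ψ (e n) = {x : β | Xor' ((c n).2 = true)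
                (Odd ((c n).1.filter (fun s => decide (l' s ≤ x))).length)}) := by
  intro H
  obtain ⟨h, hinj, hsurj⟩ := exists_h
  let μ : ℕ × List ℕ → FC := fun c => ⟨_, mem_FC' h hinj c⟩
  have μU : ∀ c c', μ (cU c c') = μ c ⊔ μ c' := fun c c' => Subtype.ext (Set.ext fun x => by
    simp [μ, mem_cU])
  have μI : ∀ c c', μ (cI c c') = μ c ⊓ μ c' := fun c c' => Subtype.ext (Set.ext fun x => by
    simp [μ, mem_cI])
  have μC : ∀ c, μ (cC c) = (μ c)ᶜ := fun c => Subtype.ext (Set.ext fun x => by
    simp [μ, mem_cC])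
  have μfin : ∀ (X : Set ℕ), X.Finite → ∃ c, (μ c : Set ℕ) = X := by
    intro X hX
    induction X, hX using Set.Finite.induction_on with
    | empty => exact ⟨(0, []), by simp [μ, mem]⟩
    | @insert x s _ _ ih =>
      obtain ⟨c, hc⟩ := ih
      obtain ⟨c', hc'⟩ := single (h x)
      refine ⟨cU c' c, ?_⟩
      rw [μU, BooleanSubalgebra.val_sup, hc]
      ext y
      simp only [μ, Set.sup_eq_union, Set.mem_union, Set.mem_ofPred_eq, hc', Set.mem_insert_iff]
      exact or_congr_left hinj.eq_iff
  have μsurj : Function.Surjective fun n => μ (dec n) := by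
    rintro ⟨X, hX | hX⟩
    · obtain ⟨c, hc⟩ := μfin X hX
      exact ⟨Encodable.encode c, Subtype.ext (by simpa only [dec_enc] using hc)⟩
    · obtain ⟨c, hc⟩ := μfin _ hX
      refine ⟨Encodable.encode (cC c), Subtype.ext ?_⟩
      simp only [dec_enc, μC, BooleanSubalgebra.val_compl, hc, compl_compl]
  haveI : Infinite FC := Infinite.of_injective
    (fun x : ℕ => (⟨{x}, Or.inl (Set.finite_singleton x)⟩ : FC)) fun a b hab => by simpa using hab
  have hdec : CI ∅ dec := by unfold dec; fun_prop
  obtain ⟨e, r, s, hr, hs, hre, hes⟩ := exists_equiv_of_numbering _ μsurj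
    (fun a b => (List.range (max (dec a).1 (dec b).1 + 1)).all fun i =>
      mem (dec a) (u i) == mem (dec b) (u i)) (by fun_prop) fun a b => by
      simp only [List.all_eq_true, List.mem_range, beq_iff_eq]
      constructor
      · intro H
        refine Subtype.ext (Set.ext fun x => ?_)
        obtain ⟨i, hi, hs⟩ := witness (max (dec a).1 (dec b).1) (u (h x))
        simp only [μ, Set.mem_ofPred_eq]
        rw [mem_congr (le_max_left _ _) hs, mem_congr (le_max_right _ _) hs, H i hi]
      · intro H i _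
        obtain ⟨x, hx⟩ := hsurj i
        have := Set.ext_iff.1 (congrArg Subtype.val H) x
        simp only [μ, Set.mem_ofPred_eq, hx] at this
        exact Bool.eq_iff_iff.2 this
  have hes' : ∀ c, e (s (Encodable.encode c)) = μ c := fun c => by rw [hes, dec_enc]
  obtain ⟨l', -, ψ, hi, hψs, hψc, hψr, c, hc, hce⟩ := H ℕ (Equiv.refl ℕ)
    (computablePred_of (fun p => decide (p.1 ≤ p.2)) (by fun_prop) (by simp)) FC e
    (CI.computable (CI.of_eq (f := fun p : ℕ × ℕ =>
        s (Encodable.encode (cU (dec (r p.1)) (dec (r p.2))))) (by unfold cU norm; fun_prop)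
      fun p => by rw [Equiv.eq_symm_apply, hes', μU, hre, hre]))
    (CI.computable (CI.of_eq (f := fun p : ℕ × ℕ =>
        s (Encodable.encode (cI (dec (r p.1)) (dec (r p.2))))) (by unfold cI norm; fun_prop)
      fun p => by rw [Equiv.eq_symm_apply, hes', μI, hre, hre]))
    (CI.computable (CI.of_eq (f := fun p : ℕ =>
        s (Encodable.encode (cC (dec (r p))))) (by unfold cC norm; fun_prop)
      fun p => by rw [Equiv.eq_symm_apply, hes', μC, hre]))
    ⟨Subtype.val, Subtype.val_injective, fun _ _ => rfl, fun _ => rfl, FC_eq⟩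
  have hc' : CI ∅ c := CI.of_comp hc
  let inf : ℕ → Bool := fun n => xor (c n).2 ((c n).1.length % 2 == 1)
  have hinf : ∀ n, inf n = true ↔ (e n : Set ℕ).Infinite := by
    intro n
    rw [psi_fin ψ hi hψs hψc hψr]
    have := eventually_fin (X := ψ (e n)) (p := inf n = true)
      (N := ((c n).1.map l').sum) fun x hx => by
        rw [hce, Set.mem_ofPred_eq, List.filter_eq_self.2 fun a ha => decide_eq_true
          (le_trans (List.single_le_sum (by simp) _ (List.mem_map_of_mem ha)) hx), Nat.odd_iff]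
        simp only [inf]
        cases (c n).2 <;> simp [Xor']
    exact ⟨fun hp hf => Set.infinite_univ (by simpa using hf.union (this.1 hp)),
      fun hp => by by_contra hc; exact hp (this.2 hc)⟩
  let tr : ℕ → Bool := fun j => inf (s (Encodable.encode (cone j)))
  have htr : ∀ j, tr j = true ↔ u j = (List.range (u j).length).map K := by
    intro j
    simp only [tr, hinf, hes', μ, mem_cone, pre_iff]
    exact ⟨fun hp => by by_contra hc; exact hp (cone_false h hinj hc),
      fun hp hf => Set.infinite_univ (by simpa using hf.union (cone_true h hinj hp))⟩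
  have htrc : CI ∅ tr := by simp only [tr, inf]; unfold cone norm; fun_prop
  obtain ⟨t, ht, ht'⟩ := CI.exists_choice (O := ∅) (p := fun n t => tr (Nat.pair (n + 1) t))
    (by fun_prop) fun n => by
      obtain ⟨s0, hs0⟩ := settle (n + 1)
      refine ⟨s0, (htr _).2 ?_⟩
      simp only [u, Nat.unpair_pair, List.length_map, List.length_range]
      exact List.map_congr_left fun e he => hs0 _ (by omega) e (List.mem_range.1 he)
  refine K_not_computable (fun n => Kst n (n + 1 + t n)) (by fun_prop) fun n => ?_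
  have := (htr _).1 (ht' n)
  simp only [u, Nat.unpair_pair, List.length_map, List.length_range] at this
  have := List.map_inj_left.1 this n (by simp)
  simp only [this, K, decide_eq_true_eq]

end Pool.Agent.H37.IntAlg
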