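import Pool.Agent.H37.Hd3

/-! Bounded infinitely often equal functions: boosting the bound. -/

set_option autoImplicit false

namespace Pool.Agent.H37.Io

open Filter Rnd Hd

variable {O : Set (ℕ →. ℕ)}

theorem ci_log {b : ℕ} (hb : 1 < b) : CI O (Nat.log b) := by
  have ex : ∀ n, ∃ k, decide (n < b ^ (k + 1)) = true := fun n =>
    ⟨_, decide_eq_true (Nat.lt_pow_succ_log_self hb n)⟩
  refine (CI.find (by fun_prop) ex).of_eq fun n => (Nat.find_eq_iff _).2
    ⟨decide_eq_true (Nat.lt_pow_succ_log_self hb n), fun k hk => ?_⟩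
  simpa using Nat.pow_le_of_le_log (by rintro rfl; simp at hk) (Nat.succ_le_of_lt hk)

theorem ci_fac : CI O Nat.factorial :=
  CI.of_rec1 (h := fun n x => (n + 1) * x) (by fun_prop) fun _ => rfl

theorem tend_log {b : ℕ} (hb : 1 < b) : Tendsto (Nat.log b) atTop atTop :=
  tendsto_atTop_atTop.2 fun k => ⟨b ^ k, fun _ hn => Nat.le_log_of_pow_le hb hn⟩

/-- `x` is infinitely often equal to every computable function below `h` -/
def IO (h x : ℕ → ℕ) : Prop := ∀ y, CI ∅ y → (∀ n, y n < h n) → ∃ᶠ n in atTop, x n = y n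

theorem IO.ev {h x y : ℕ → ℕ} (hx : IO h x) (hp : ∀ n, 0 < h n) (hy : CI ∅ y)
    (hb : ∀ᶠ n in atTop, y n < h n) : ∃ᶠ n in atTop, x n = y n := by
  obtain ⟨N, hN⟩ := eventually_atTop.1 hb
  refine ((hx (fun n => cond (decide (n < N)) 0 (y n)) (by fun_prop) fun n => ?_).and_eventually
    (eventually_ge_atTop N)).mono fun n h => by simpa [h.2.not_gt] using h.1
  by_cases h : n < N
  · simpa [h] using hp n
  · simpa [h] using hN n (by omega)

def enc (H : ℕ) (l : List ℕ) : ℕ := l.foldr (fun a b => a + H * b) 0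

theorem enc_spec {H : ℕ} {l : List ℕ} (h : ∀ a ∈ l, a < H) :
    enc H l < H ^ l.length ∧ ∀ r < l.length, enc H l / H ^ r % H = l.getD r 0 := by
  induction l with
  | nil => simp [enc]
  | cons a l ih =>
    obtain ⟨h1, h2⟩ := ih fun b hb => h b (by simp [hb])
    have h3 := h a (by simp)
    change a + H * enc H l < _ ∧ ∀ r < _, (a + H * enc H l) / _ % H = _
    refine ⟨by rw [List.length_cons, pow_succ]; nlinarith, fun r hr => ?_⟩
    cases r with
    | zero => simp [Nat.mod_eq_of_lt h3]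
    | succ r =>
      rw [pow_succ', ← Nat.div_div_eq_div_mul, Nat.add_mul_div_left _ _ (by omega),
        Nat.div_eq_of_lt h3, zero_add, h2 r (by simpa using hr)]
      rfl

theorem trace {h H : ℕ → ℕ} (hH : CI ∅ H) (h1 : ∀ t j, j < 2 ^ (t + 1) → h j ≤ H t)
    (hn : ¬ ∃ x, CI O x ∧ IO h x) {L : ℕ → List ℕ} (hL : CI O L)
    (hl : ∀ᶠ t in atTop, (L t).length ≤ 2 ^ t) :
    ∃ y, CI ∅ y ∧ (∀ t, y t < H t ^ 2 ^ t) ∧ ∀ᶠ t in atTop, y t ∉ L t := by
  have hg := ci_log (O := O) one_lt_two
  have hH' : CI O H := hH.of_empty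
  have : ¬ IO h fun j => (L (Nat.log 2 j)).getD (j - 2 ^ Nat.log 2 j) 0 /
    H (Nat.log 2 j) ^ (j - 2 ^ Nat.log 2 j) % H (Nat.log 2 j) := fun h => hn ⟨_, by fun_prop, h⟩
  simp only [IO, not_forall, not_frequently] at this
  obtain ⟨y, a1, a2, a3⟩ := this
  have e := fun t => enc_spec (H := H t) (l := (List.range (2 ^ t)).map fun r => y (2 ^ t + r))
    fun a ha => by
      obtain ⟨r, hr, rfl⟩ := List.mem_map.1 ha
      exact (a2 _).trans_le (h1 _ _ (by rw [pow_succ]; simp at hr; omega))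
  simp only [List.length_map, List.length_range] at e
  refine ⟨fun t => enc (H t) ((List.range (2 ^ t)).map fun r => y (2 ^ t + r)),
    by unfold enc; fun_prop, fun t => (e t).1, ?_⟩
  obtain ⟨N, hN⟩ := eventually_atTop.1 a3
  filter_upwards [hl, eventually_ge_atTop N] with t b1 b2 b3
  obtain ⟨r, b4, b5⟩ := List.getElem_of_mem b3
  have b6 : Nat.log 2 (2 ^ t + r) = t := Nat.log_eq_of_pow_le_of_lt_pow (by omega)
    (by rw [pow_succ]; omega)
  refine hN (2 ^ t + r) (by have := @Nat.lt_two_pow_self t; omega) ?_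
  rw [b6, Nat.add_sub_cancel_left, List.getD_eq_getElem _ _ b4, b5, (e t).2 r (by omega)]
  simp [show r < 2 ^ t by omega]

theorem popular (R : List ℕ) (c : ℕ → ℕ) (s M : ℕ) (hs : 0 < s) (h : R.length ≤ s * s) :
    ((List.range M).filter fun u => decide (s ≤ R.countP fun n => c n == u)).length ≤ s := by
  have : ∀ P : List ℕ, P.Nodup → (P.map fun u => R.countP fun n => c n == u).sum ≤ R.length := by
    intro P hP
    clear h
    induction R with
    | nil => simp
    | cons a R ih =>
      have : (P.map fun u => if c a == u then 1 else 0).sum ≤ 1 := by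
        have := List.nodup_iff_count_le_one.1 hP (c a)
        rw [List.count, List.countP_eq_length_filter] at this
        refine le_trans (le_of_eq ?_) this
        clear this ih hP
        induction P with
        | nil => rfl
        | cons u P ih =>
          rw [List.map_cons, List.sum_cons, ih, List.filter_cons, Bool.beq_comm]
          split_ifs <;> simp [add_comm]
      simp only [List.countP_cons, List.sum_map_add, List.length_cons]
      omega
  have h1 := this _ ((List.nodup_range (n := M)).filter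
    fun u => decide (s ≤ R.countP fun n => c n == u))
  have h2 := List.card_nsmul_le_sum (((List.range M).filter fun u =>
    decide (s ≤ R.countP fun n => c n == u)).map fun u => R.countP fun n => c n == u) s
    (List.forall_mem_map.2 fun u hu => of_decide_eq_true (List.mem_filter.1 hu).2)
  rw [List.length_map, smul_eq_mul] at h2
  exact Nat.le_of_mul_le_mul_right (by omega) hs

theorem boost {g h H : ℕ → ℕ} (hH : CI ∅ H) (h1 : ∀ t j, j < 2 ^ (t + 1) → h j ≤ H t)
    (hp : ∀ n, 0 < g n)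
    (h2 : ∀ᶠ n in atTop, (H (Nat.log 4 n + 1) ^ 2 ^ (Nat.log 4 n + 1)) ^ 2 ≤ g n)
    {x : ℕ → ℕ} (hx : CI O x) (hi : IO g x) : ∃ z, CI O z ∧ IO h z := by
  by_contra hn
  have hg := ci_log (O := O) (b := 4) (by omega)
  have hg' := ci_log (O := ∅) (b := 4) (by omega)
  have hH' : CI O H := hH.of_empty
  obtain ⟨R, hR, eR⟩ : ∃ R : ℕ → List ℕ, CI O R ∧
    ∀ t, R t = (List.range (4 ^ t)).filter fun n => Nat.log 4 n + 1 == t := ⟨_, by fun_prop, fun _ => rfl⟩
  obtain ⟨u, a1, a2, a3⟩ := trace hH h1 hn (L := fun t => (List.range (H t ^ 2 ^ t)).filter fun u =>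
    decide (2 ^ t ≤ (R t).countP fun n => x n % H t ^ 2 ^ t == u)) (by fun_prop)
    (.of_forall fun t => popular _ _ _ _ (by positivity) (by
      rw [eR, ← mul_pow]; simpa using List.length_filter_le _ (List.range (4 ^ t))))
  have a1' : CI O u := a1.of_empty
  obtain ⟨v, b1, b2, b3⟩ := trace hH h1 hn (L := fun t => ((R t).filter fun n =>
    x n % H t ^ 2 ^ t == u t).map fun n => x n / H t ^ 2 ^ t) (by fun_prop) (a3.mono fun t ht => by
      simp only [List.mem_filter, List.mem_range, a2, true_and, decide_eq_true_eq, not_le] at ht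
      rw [List.length_map, ← List.countP_eq_length_filter]
      exact ht.le)
  obtain ⟨n, c1, c2⟩ := ((hi.ev hp (y := fun n => u (Nat.log 4 n + 1) + H (Nat.log 4 n + 1) ^
    2 ^ (Nat.log 4 n + 1) * v (Nat.log 4 n + 1)) (by fun_prop) (h2.mono fun n hn => by
      have := a2 (Nat.log 4 n + 1)
      have := b2 (Nat.log 4 n + 1)
      nlinarith)).and_eventually (((tendsto_add_atTop_nat 1).comp
        (tend_log (b := 4) (by omega))).eventually b3)).exists
  refine c2 (List.mem_map.2 ⟨n, List.mem_filter.2 ⟨?_, ?_⟩, ?_⟩)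
  · simpa [eR] using Nat.lt_pow_succ_log_self (by omega) n
  · simp [c1, Nat.mod_eq_of_lt (a2 _)]
  · simp only [c1, Function.comp]
    rw [Nat.add_mul_div_left _ _ (lt_of_le_of_lt (Nat.zero_le _) (a2 _)), Nat.div_eq_of_lt (a2 _),
      zero_add]

theorem boost_fac {x : ℕ → ℕ} (hx : CI O x) (hi : IO (fun n => 2 ^ 2 ^ n) x) :
    ∃ z, CI O z ∧ IO (fun n => 2 ^ n.factorial) z := by
  have := ci_fac (O := ∅)
  refine boost (H := fun t => 2 ^ (2 ^ (t + 1)).factorial) (by fun_prop)
    (fun t j hj => Nat.pow_le_pow_right two_pos (Nat.factorial_le hj.le)) (fun _ => by positivity)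
    ?_ hx hi
  filter_upwards [(tend_log (b := 4) (by omega)).eventually_ge_atTop 6, eventually_ne_atTop 0]
    with n h1 h2
  have h3 := Nat.pow_log_le_self 4 h2
  generalize Nat.log 4 n = t at *
  rw [← pow_mul, ← pow_mul]
  refine Nat.pow_le_pow_right two_pos ?_
  have h4 : 8 * (t + 2) ≤ 2 ^ t := by
    clear h3
    induction t, h1 using Nat.le_induction with
    | base => norm_num
    | succ t _ ih => rw [pow_succ]; omega
  calc _ ≤ (2 ^ (t + 1 + 1)) ^ 2 ^ (t + 1 + 1) * 2 ^ (t + 1 + 1) :=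
        Nat.mul_le_mul (Nat.factorial_le_pow _) (pow_succ 2 (t + 1)).ge
    _ = 2 ^ ((t + 2) * (2 ^ (t + 2) + 1)) := by rw [← pow_mul, ← pow_add]; ring_nf
    _ ≤ _ := Nat.pow_le_pow_right two_pos (le_trans ?_ h3)
  rw [show 4 ^ t = 2 ^ t * 2 ^ t from mul_pow 2 2 t, pow_add]
  have := Nat.one_le_two_pow (n := t)
  nlinarith

theorem unboost {x : ℕ → ℕ} (hi : IO (fun n => 2 ^ n.factorial) x) : IO (fun n => 2 ^ 2 ^ n) x :=
  fun y hy hb => hi.ev (fun _ => by positivity) hy
    ((Nat.eventually_pow_lt_factorial_sub 2 0).mono fun n hn =>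
      (hb n).trans (Nat.pow_lt_pow_right one_lt_two hn))

end Pool.Agent.H37.Io
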