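import Pool.Agent.H37.Io1

/-! Agreement density and bounded infinitely often equal functions. -/

set_option autoImplicit false

namespace Pool.Agent.H37.Io

open Filter Rnd Hd

variable {O : Set (ℕ →. ℕ)}

/-- lower density of agreement -/
noncomputable def ag (Y C : ℕ → Bool) : ℝ :=
  liminf (fun n : ℕ => (((Finset.range n).filter fun k => Y k = C k).card : ℝ) / n) atTop

theorem ag_le (Y C : ℕ → Bool) (n : ℕ) :
    (((Finset.range n).filter fun k => Y k = C k).card : ℝ) / n ≤ 1 :=
  div_le_one_of_le₀ (by exact_mod_cast (Finset.card_filter_le _ _).trans (by simp)) (by positivity)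

theorem ag_nonneg (Y C : ℕ → Bool) : 0 ≤ ag Y C :=
  le_liminf_of_le (isCoboundedUnder_ge_of_le atTop (ag_le Y C)) (.of_forall fun _ => by positivity)

theorem zero_of {z : ℕ → ℕ} (hz : CI O z) (hi : IO (fun n => 2 ^ n.factorial) z) :
    ∃ Y, CI O Y ∧ ∀ C, CI ∅ C → ag Y C = 0 := by
  have hg := ci_fac (O := O)
  have hg' := ci_fac (O := ∅)
  have ex : ∀ m, ∃ t : ℕ, decide (m < t.factorial) = true := fun m =>
    ⟨m + 1, decide_eq_true (Nat.self_le_factorial _)⟩
  have h5 := CI.find (O := O) (by fun_prop) ex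
  refine ⟨fun m => z (Nat.find (ex m)) / 2 ^ m % 2 == 0, by fun_prop, fun C hC =>
    le_antisymm (le_of_forall_pos_le_add fun ε hε => liminf_le_of_frequently_le
      (frequently_atTop.2 fun a => ?_) (isBoundedUnder_of ⟨0, fun _ => by positivity⟩))
      (ag_nonneg _ _)⟩
  have e := fun t : ℕ => enc_spec (H := 2) (l := (List.range t.factorial).map fun k => (C k).toNat)
    fun a ha => by
      obtain ⟨k, -, rfl⟩ := List.mem_map.1 ha
      exact Bool.toNat_lt _
  simp only [List.length_map, List.length_range] at e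
  obtain ⟨M, hM⟩ := exists_nat_one_div_lt hε
  obtain ⟨t, a1, a2⟩ := frequently_atTop.1 (hi (fun t => enc 2 ((List.range t.factorial).map
    fun k => (C k).toNat)) (by unfold enc; fun_prop) fun t => (e t).1) (a + M + 1)
  obtain ⟨t, rfl⟩ : ∃ u, t = u + 1 := ⟨t - 1, by omega⟩
  refine ⟨_, le_trans (by omega) (Nat.self_le_factorial (t + 1)), ?_⟩
  have a3 : ((Finset.range (t + 1).factorial).filter fun m =>
      (z (Nat.find (ex m)) / 2 ^ m % 2 == 0) = C m).card ≤ t.factorial := by
    refine (Finset.card_le_card fun m hm => ?_).trans (Finset.card_range _).le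
    rw [Finset.mem_filter, Finset.mem_range] at hm
    rw [Finset.mem_range]
    by_contra h
    have : Nat.find (ex m) = t + 1 := (Nat.find_eq_iff _).2 ⟨decide_eq_true hm.1, fun u hu => by
      have := Nat.factorial_le (Nat.le_of_lt_succ hu)
      simp only [decide_eq_true_eq]; omega⟩
    rw [this, a2, (e _).2 m hm.1] at hm
    cases h : C m <;> simp [h, hm.1] at hm
  have a4 : (0 : ℝ) < t.factorial := by exact_mod_cast t.factorial_pos
  refine (div_le_div_of_nonneg_right (Nat.cast_le.2 a3) (by positivity)).trans ?_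
  rw [Nat.factorial_succ, Nat.cast_mul, div_mul_cancel_right₀ a4.ne', zero_add, ← one_div]
  refine le_trans (one_div_le_one_div_of_le (by positivity) ?_) hM.le
  exact_mod_cast (by omega : M + 1 ≤ t + 1)

/-- Hamming distance of strings -/
def hm (n : ℕ) (σ τ : List Bool) : ℕ := (List.range n).countP fun i => σ.getD i false != τ.getD i false

theorem hm_eq (n : ℕ) (σ τ : List Bool) :
    hm n σ τ = dis (fun i => σ.getD i false) (fun i => τ.getD i false) n := (dis_eq _ _ _).symm

theorem dis_tri (X Y Z : ℕ → Bool) (n : ℕ) : dis Y Z n ≤ dis X Y n + dis X Z n :=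
  (Finset.card_le_card fun k => by
    simp only [Finset.mem_filter, Finset.mem_union]
    cases X k <;> cases Y k <;> cases Z k <;> simp).trans (Finset.card_union_le _ _)

theorem dis_not (X Y : ℕ → Bool) (n : ℕ) : dis X Y n + dis X (fun i => !Y i) n = n := by
  have := Finset.card_filter_add_card_filter_not (s := Finset.range n) fun k => X k ≠ Y k
  rw [Finset.card_range] at this
  refine Eq.trans (congrArg (dis X Y n + Finset.card ·) (Finset.filter_congr fun k _ => ?_)) this
  beta_reduce
  cases X k <;> cases Y k <;> simp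

theorem gv (n r : ℕ) (hr : (r : ℝ) ≤ (6 / 5) ^ n) :
    ∃ E : List (List Bool), E.length = r ∧ E.Pairwise fun σ τ => n < 8 * hm n σ τ := by
  induction r with
  | zero => exact ⟨[], rfl, .nil⟩
  | succ r ih =>
    obtain ⟨E, rfl, h2⟩ := ih (le_trans (by simp) hr)
    by_contra hc
    have h3 : ∀ τ ∈ W n, (9 / 5 : ℝ) ^ n ≤
        (E.map fun σ => (2 : ℝ) ^ dis (fun i => τ.getD i false) (fun i => !σ.getD i false) n).sum := by
      intro τ _
      obtain ⟨σ, h3, h4⟩ : ∃ σ ∈ E, 8 * hm n τ σ ≤ n := by
        by_contra! h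
        exact hc ⟨τ :: E, rfl, .cons h h2⟩
      refine le_trans ?_ (List.single_le_sum (by simp) _
        (List.mem_map.2 ⟨σ, h3, rfl⟩))
      have := dis_not (fun i => τ.getD i false) (fun i => σ.getD i false) n
      rw [hm_eq] at h4
      refine le_of_pow_le_pow_left₀ (n := 8) (by norm_num) (by positivity) ?_
      calc ((9 / 5 : ℝ) ^ n) ^ 8 = ((9 / 5) ^ 8) ^ n := by rw [← pow_mul, ← pow_mul, mul_comm]
        _ ≤ (2 ^ 7) ^ n := by gcongr; norm_num
        _ ≤ _ := by
          rw [← pow_mul, ← pow_mul]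
          exact pow_le_pow_right₀ one_le_two (by omega)
    have h4 : ((W n).map fun τ => (E.map fun σ => (2 : ℝ) ^ dis (fun i => τ.getD i false)
        (fun i => !σ.getD i false) n).sum).sum = E.length * 3 ^ n := by
      clear h3 hc h2 hr ih
      induction E with
      | nil => simp
      | cons σ E ih =>
        simp only [List.map_cons, List.sum_cons, List.sum_map_add, ih, sum_dis, List.length_cons]
        push_cast; ring
    have h5 := List.card_nsmul_le_sum _ _ (List.forall_mem_map.2 h3)
    have h6 : (W n).length = 2 ^ n := by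
      clear * -
      induction n with
      | zero => rfl
      | succ n ih => simp [W_succ, List.length_flatMap, ih, pow_succ]
    rw [h4, List.length_map, h6, nsmul_eq_mul] at h5
    push_cast at h5 hr
    rw [← mul_pow, show (2 * (9 / 5) : ℝ) = 6 / 5 * 3 by norm_num, mul_pow] at h5
    have := le_of_mul_le_mul_right h5 (by positivity)
    linarith

theorem of_small {Y : ℕ → Bool} (hY : CI O Y) (h : ∀ C, CI ∅ C → ag Y C ≤ 1 / 128) :
    ∃ x, CI O x ∧ IO (fun n => 2 ^ 2 ^ n) x := by
  obtain ⟨E, hE, eE⟩ := CI.exists_choice (O := ∅) (p := fun (m : ℕ) (E : List (List Bool)) =>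
    (List.range (2 ^ 2 ^ m)).all fun j => (List.range j).all fun i =>
      decide (2 ^ (m + 2) < 8 * hm (2 ^ (m + 2)) (E.getD i []) (E.getD j [])))
    (by unfold hm; fun_prop) fun m => by
      obtain ⟨E, h1, h2⟩ := gv (2 ^ (m + 2)) (2 ^ 2 ^ m) (by
        rw [pow_add, mul_comm, pow_mul]
        push_cast
        gcongr; norm_num)
      refine ⟨E, ?_⟩
      simp only [List.all_eq_true, List.mem_range, decide_eq_true_eq]
      intro j hj i hi
      rw [List.getD_eq_getElem _ _ (by omega), List.getD_eq_getElem _ _ (by omega)]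
      exact List.pairwise_iff_getElem.1 h2 _ _ _ _ hi
  simp only [List.all_eq_true, List.mem_range, decide_eq_true_eq] at eE
  have hE' : CI O E := hE.of_empty
  have hg := ci_log (O := ∅) one_lt_two
  refine ⟨fun m => ((List.range (2 ^ 2 ^ m)).find? fun i => decide (16 * hm (2 ^ (m + 2))
    ((List.range (2 ^ (m + 2))).map fun k => Y (2 ^ (m + 2) + k)) ((E m).getD i []) ≤
      2 ^ (m + 2))).getD 0, by unfold hm; fun_prop, fun y hy hb => frequently_atTop.2 fun a => ?_⟩
  obtain ⟨N, a1, a2⟩ := frequently_atTop.1 (frequently_lt_of_liminf_lt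
    (isCoboundedUnder_ge_of_le atTop (ag_le _ _)) ((h (fun k => !((E (Nat.log 2 k - 2)).getD
      (y (Nat.log 2 k - 2)) []).getD (k - 2 ^ Nat.log 2 k) false) (by fun_prop)).trans_lt
        (show _ < (1 / 64 : ℝ) by norm_num))) (2 ^ (a + 3))
  have a3 := Nat.le_log_of_pow_le one_lt_two a1
  have a0 : N ≠ 0 := by rintro rfl; simp at a1
  have a4 := Nat.pow_log_le_self 2 a0
  have a5 := Nat.lt_pow_succ_log_self one_lt_two N
  obtain ⟨m, em⟩ : ∃ m, Nat.log 2 N = m + 2 + 1 := ⟨Nat.log 2 N - 3, by omega⟩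
  rw [em] at a3 a4 a5
  refine ⟨m, by omega, ?_⟩
  rw [div_lt_div_iff₀ (by positivity) (by norm_num), one_mul] at a2
  have a6 : 16 * hm (2 ^ (m + 2)) ((List.range (2 ^ (m + 2))).map fun k => Y (2 ^ (m + 2) + k))
      ((E m).getD (y m) []) ≤ 2 ^ (m + 2) := by
    have a7 := Finset.card_le_card_of_injOn (s := (Finset.range (2 ^ (m + 2))).filter fun k =>
      ((List.range (2 ^ (m + 2))).map fun k => Y (2 ^ (m + 2) + k)).getD k false ≠
        ((E m).getD (y m) []).getD k false) (t := (Finset.range N).filter fun k => Y k =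
          !((E (Nat.log 2 k - 2)).getD (y (Nat.log 2 k - 2)) []).getD (k - 2 ^ Nat.log 2 k) false)
      (fun k => 2 ^ (m + 2) + k) (fun k hk => by
        simp only [Finset.coe_filter, Finset.mem_range, Set.mem_setOf_eq] at hk ⊢
        rw [Nat.log_eq_of_pow_le_of_lt_pow (m := m + 2) (by omega) (by rw [pow_succ 2 (m + 2)]; omega),
          Nat.add_sub_cancel, Nat.add_sub_cancel_left]
        refine ⟨by rw [pow_succ] at a4; omega, Bool.eq_not_of_ne ?_⟩
        simpa [hk.1] using hk.2) fun _ _ _ _ h => by simpa using h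
    norm_cast at a2
    rw [hm_eq, dis]
    rw [Nat.succ_eq_add_one, pow_succ, pow_succ] at a5
    omega
  obtain ⟨i, hi⟩ := Option.isSome_iff_exists.1 (List.find?_isSome.2 ⟨y m, List.mem_range.2 (hb m),
    decide_eq_true a6⟩ : ((List.range (2 ^ 2 ^ m)).find? fun i => decide (16 * hm (2 ^ (m + 2))
      ((List.range (2 ^ (m + 2))).map fun k => Y (2 ^ (m + 2) + k)) ((E m).getD i []) ≤
        2 ^ (m + 2))).isSome = true)
  beta_reduce
  rw [hi, Option.getD_some]
  obtain ⟨b1, -, b2⟩ := List.find?_range_eq_some.1 hi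
  by_contra b3
  rcases lt_or_gt_of_ne b3 with b4 | b4
  · have := eE m _ (hb m) i b4
    have b5 := of_decide_eq_true b1
    simp only [hm_eq] at this b5 a6
    have := dis_tri (fun i => ((List.range (2 ^ (m + 2))).map fun k => Y (2 ^ (m + 2) + k)).getD i
      false) (fun j => ((E m).getD i []).getD j false) (fun j => ((E m).getD (y m) []).getD j false)
      (2 ^ (m + 2))
    omega
  · have := b2 _ b4
    rw [decide_eq_true a6] at this
    simp at this

theorem attained {Y : ℕ → Bool} (hY : CI O Y) (h : ∀ C, CI ∅ C → ag Y C ≤ 1 / 128) :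
    ∃ Y, CI O Y ∧ ∀ C, CI ∅ C → ag Y C = 0 := by
  obtain ⟨x, h1, h2⟩ := of_small hY h
  obtain ⟨z, h3, h4⟩ := boost_fac h1 h2
  exact zero_of h3 h4

end Pool.Agent.H37.Io
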