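import Mathlib

/-! Highness classes given by bounded equality and by agreement density. -/

set_option autoImplicit false

namespace Pool.Agent.H37.IoD

open Filter

/-- Turing reducibility of total functions -/
def Red (f g : ℕ → ℕ) : Prop := TuringReducible (fun n => Part.some (f n)) fun n => Part.some (g n)

/-- characteristic function -/
def chi (A : ℕ → Bool) (n : ℕ) : ℕ := (A n).toNat

/-- infinitely often equal to every computable function below `h` -/
def IOE (h : ℕ → ℕ) : Set (ℕ → ℕ) :=
  {x | ∀ y : ℕ → ℕ, Computable y → (∀ n, y n < h n) → {n | x n = y n}.Infinite}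

/-- below `h` and almost everywhere different from every computable function -/
def AED (h : ℕ → ℕ) : Set (ℕ → ℕ) :=
  {y | (∀ n, y n < h n) ∧ ∀ x : ℕ → ℕ, Computable x → {n | x n = y n}.Finite}

/-- the oracles computing a member of `S` -/
def Comp (S : Set (ℕ → ℕ)) : Set (ℕ → Bool) := {A | ∃ x ∈ S, Red x (chi A)}

/-- Muchnik reducibility -/
def Much (B C : Set (ℕ → ℕ)) : Prop := ∀ g ∈ C, ∃ f ∈ B, Red f g

end Pool.Agent.H37.IoD
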