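import Pool.Agent.H37.Io2
import Pool.Agent.H37.IoDefs

set_option autoImplicit false

namespace Pool.Agent.H37.IoD

open Filter Io

theorem ioe_iff {h x : ℕ → ℕ} : x ∈ IOE h ↔ IO h x :=
  forall_congr' fun _ => imp_congr ci_iff.symm (imp_congr_right fun _ => by
    rw [← Nat.cofinite_eq_atTop, frequently_cofinite_iff_infinite])

theorem red_iff {f g : ℕ → ℕ} : Red f g ↔ CI (orc g) f := ⟨fun h => CI.of_ri h, fun h => h.ri⟩

theorem much1 : Much (IOE fun n => 2 ^ n.factorial) (IOE fun n => 2 ^ 2 ^ n) := fun g hg =>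
  (boost_fac (CI.self g) (ioe_iff.1 hg)).imp fun _ h => ⟨ioe_iff.2 h.2, red_iff.2 h.1⟩

theorem much2 : Much (IOE fun n => 2 ^ 2 ^ n) (IOE fun n => 2 ^ n.factorial) := fun g hg =>
  ⟨g, ioe_iff.2 (unboost (ioe_iff.1 hg)), red_iff.2 (CI.self g)⟩

theorem Much.comp {B C : Set (ℕ → ℕ)} (h : Much B C) : Comp C ⊆ Comp B := fun _ ⟨x, h1, h2⟩ =>
  (h x h1).imp fun _ h => ⟨h.1, red_iff.2 ((red_iff.1 h.2).trans (red_iff.1 h2))⟩

theorem comp_eq : Comp (IOE fun n => 2 ^ n.factorial) = Comp (IOE fun n => 2 ^ 2 ^ n) :=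
  much2.comp.antisymm much1.comp

theorem exists_f : ∃ f : ℕ → ℕ, Computable f ∧ (∀ a : ℕ, ∀ᶠ n in atTop, 2 ^ a ^ n < f n) ∧
    Much (IOE fun n => 2 ^ 2 ^ n) (IOE f) ∧ Much (IOE f) (IOE fun n => 2 ^ 2 ^ n) := by
  have := ci_fac (O := ∅)
  exact ⟨_, CI.computable (by fun_prop), fun a => (Nat.eventually_pow_lt_factorial_sub a 0).mono
    fun n hn => Nat.pow_lt_pow_right one_lt_two hn, much2, much1⟩

end Pool.Agent.H37.IoD
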