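import Pool.Agent.H37.DC

/-!
A computable left-invariant metric on a group with co-c.e. word problem.
-/

set_option autoImplicit false

namespace Pool.Agent.H37.IsoEmb

open Pool.Agent.H37

section theory

variable {G : Type} [Group G] (x : ℕ → G)

def val (c : List (ℕ × Bool)) : G := (c.map fun p => cond p.2 (x p.1) (x p.1)⁻¹).prod

noncomputable def wt (q : ℕ → ℕ) (c : List (ℕ × Bool)) : ℝ :=
  (c.map fun p => ((q p.1 : ℝ) + 1) / 2 ^ p.1).sum

def wn (q : ℕ → ℕ) (m : ℕ) (c : List (ℕ × Bool)) : ℕ :=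
  (c.map fun p => (q p.1 + 1) * 2 ^ (m - p.1)).sum

def cinv (c : List (ℕ × Bool)) : List (ℕ × Bool) := (c.map fun p => (p.1, !p.2)).reverse

@[simp] theorem val_nil : val x [] = 1 := rfl
theorem val_cons (p : ℕ × Bool) (c : List (ℕ × Bool)) :
    val x (p :: c) = cond p.2 (x p.1) (x p.1)⁻¹ * val x c := by simp [val]
theorem val_append (c d : List (ℕ × Bool)) : val x (c ++ d) = val x c * val x d := by simp [val]
theorem val_cinv (c : List (ℕ × Bool)) : val x (cinv c) = (val x c)⁻¹ := by
  induction c with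
  | nil => simp [cinv]
  | cons p c ih =>
    have : cinv (p :: c) = cinv c ++ [(p.1, !p.2)] := by simp [cinv]
    rw [this, val_append, ih, val_cons, val_cons]
    obtain ⟨j, b⟩ := p
    cases b <;> simp

@[simp] theorem wt_nil (q : ℕ → ℕ) : wt q [] = 0 := rfl
theorem wt_cons (q : ℕ → ℕ) (p : ℕ × Bool) (c : List (ℕ × Bool)) :
    wt q (p :: c) = ((q p.1 : ℝ) + 1) / 2 ^ p.1 + wt q c := by simp [wt]
theorem wt_append (q : ℕ → ℕ) (c d : List (ℕ × Bool)) : wt q (c ++ d) = wt q c + wt q d := by
  simp [wt]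
theorem wt_cinv (q : ℕ → ℕ) (c : List (ℕ × Bool)) : wt q (cinv c) = wt q c := by
  simp [wt, cinv, List.sum_reverse, Function.comp_def]
theorem wt_nonneg (q : ℕ → ℕ) (c : List (ℕ × Bool)) : 0 ≤ wt q c := by
  induction c with
  | nil => simp
  | cons p c ih => rw [wt_cons]; positivity
theorem wt_congr {q q' : ℕ → ℕ} {c : List (ℕ × Bool)} (h : ∀ p ∈ c, q p.1 = q' p.1) :
    wt q c = wt q' c := by
  unfold wt; rw [List.map_congr_left fun p hp => by rw [h p hp]]

theorem wn_eq (q : ℕ → ℕ) (m : ℕ) (c : List (ℕ × Bool)) (h : ∀ p ∈ c, p.1 ≤ m) :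
    (wn q m c : ℝ) = 2 ^ m * wt q c := by
  induction c with
  | nil => simp [wn]
  | cons p c ih =>
    have h1 : wn q m (p :: c) = (q p.1 + 1) * 2 ^ (m - p.1) + wn q m c := by simp [wn]
    rw [h1, wt_cons, Nat.cast_add, ih fun p hp => h p (List.mem_cons_of_mem _ hp)]
    obtain ⟨d, hd⟩ := Nat.exists_eq_add_of_le (h p List.mem_cons_self)
    rw [hd, Nat.add_sub_cancel_left]
    push_cast; field_simp; ring

theorem length_le_wn (q : ℕ → ℕ) (m : ℕ) (c : List (ℕ × Bool)) : c.length ≤ wn q m c := by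
  induction c with
  | nil => simp
  | cons p c ih =>
    have h1 : wn q m (p :: c) = (q p.1 + 1) * 2 ^ (m - p.1) + wn q m c := by simp [wn]
    have : 1 ≤ (q p.1 + 1) * 2 ^ (m - p.1) := Nat.pos_of_ne_zero (by positivity)
    rw [h1, List.length_cons]; omega

def Con (q : ℕ → ℕ) (m : ℕ) : Prop :=
  ∀ j < m, ∀ c : List (ℕ × Bool), (∀ p ∈ c, p.1 < m) → val x c = x j → (q j : ℝ) / 2 ^ j ≤ wt q c

theorem Con.congr {q q' : ℕ → ℕ} {m : ℕ} (h : Con x q m) (e : ∀ j < m, q j = q' j) :
    Con x q' m := fun j hj c hc hv => by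
  rw [← e j hj, ← wt_congr fun p hp => e _ (hc p hp)]; exact h j hj c hc hv

theorem con_step {q : ℕ → ℕ} {m : ℕ} (h : Con x q m) :
    ∃ v, Con x (Function.update q m v) (m + 1) ∧ (x m ≠ 1 → 1 ≤ v) := by
  classical
  by_cases hA : ∃ k, ∃ c : List (ℕ × Bool), (∀ p ∈ c, p.1 < m) ∧ val x c = x m ∧ wn q m c = k
  · obtain ⟨c0, h1, h2, h3⟩ := Nat.find_spec hA
    set v := Nat.find hA with hv
    have hw0 : wt q c0 = v / 2 ^ m := by
      rw [← h3, wn_eq q m c0 fun p hp => (h1 p hp).le]; field_simp
    have sub : ∀ c : List (ℕ × Bool), (∀ p ∈ c, p.1 < m + 1) → ∃ c' : List (ℕ × Bool),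
        (∀ p ∈ c', p.1 < m) ∧ val x c' = val x c ∧ wt q c' ≤ wt (Function.update q m v) c := by
      intro c
      induction c with
      | nil => exact fun _ => ⟨[], by simp, rfl, le_rfl⟩
      | cons p c ih =>
        intro hc
        obtain ⟨c', a1, a2, a3⟩ := ih fun p hp => hc p (List.mem_cons_of_mem _ hp)
        rcases Nat.lt_succ_iff_lt_or_eq.1 (hc p List.mem_cons_self) with hp | hp
        · refine ⟨p :: c', by simpa [hp] using a1, by rw [val_cons, val_cons, a2], ?_⟩
          rw [wt_cons, wt_cons, Function.update_of_ne hp.ne]; linarith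
        · have hle : (v : ℝ) / 2 ^ m ≤ ((v : ℝ) + 1) / 2 ^ m := by gcongr; linarith
          refine ⟨cond p.2 c0 (cinv c0) ++ c', ?_, ?_, ?_⟩
          · intro r hr
            rcases List.mem_append.1 hr with hr | hr
            · cases hb : p.2 <;> simp only [hb, cond] at hr
              · simp only [cinv, List.mem_reverse, List.mem_map] at hr
                obtain ⟨r', hr', rfl⟩ := hr
                exact h1 r' hr'
              · exact h1 r hr
            · exact a1 r hr
          · rw [val_append, val_cons, a2, hp]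
            cases p.2 <;> simp [val_cinv, h2]
          · rw [wt_append, wt_cons, hp, Function.update_self]
            cases p.2 <;> simp only [cond, wt_cinv, hw0] <;> linarith
    refine ⟨v, fun j hj c hc hval => ?_, fun hx => ?_⟩
    · obtain ⟨c', a1, a2, a3⟩ := sub c hc
      refine le_trans ?_ a3
      rcases Nat.lt_succ_iff_lt_or_eq.1 hj with hj | rfl
      · rw [Function.update_of_ne hj.ne]; exact h j hj c' a1 (a2.trans hval)
      · rw [Function.update_self]
        have : v ≤ wn q j c' := Nat.find_min' hA ⟨c', a1, a2.trans hval, rfl⟩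
        have h5 : (v : ℝ) ≤ 2 ^ j * wt q c' := by
          rw [← wn_eq q j c' fun p hp => (a1 p hp).le]; exact_mod_cast this
        rw [div_le_iff₀ (by positivity)]; linarith
    · have := length_le_wn q m c0
      cases c0 with
      | nil => exact absurd h2.symm hx
      | cons p c => rw [h3, List.length_cons] at this; omega
  · let v := (∑ j ∈ Finset.range m, q j + 1) * 2 ^ m
    have hv1 : 1 ≤ v := Nat.pos_of_ne_zero (by positivity)
    refine ⟨v, fun j hj c hc hval => ?_, fun _ => hv1⟩
    by_cases hm : ∀ p ∈ c, p.1 < m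
    · rcases Nat.lt_succ_iff_lt_or_eq.1 hj with hj | rfl
      · rw [Function.update_of_ne hj.ne, wt_congr (q' := q) fun p hp =>
          Function.update_of_ne (hm p hp).ne _ _]
        exact h j hj c hm hval
      · exact absurd ⟨_, c, hm, hval, rfl⟩ hA
    · push Not at hm
      obtain ⟨p, hp, hpm⟩ := hm
      have hpm' : p.1 = m := by have := hc p hp; omega
      obtain ⟨c1, c2, rfl⟩ := List.append_of_mem hp
      rw [wt_append, wt_cons, hpm', Function.update_self]
      have e1 := wt_nonneg (Function.update q m v) c1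
      have e2 := wt_nonneg (Function.update q m v) c2
      have e3 : ((Function.update q m v j : ℕ) : ℝ) / 2 ^ j ≤ ((v : ℝ) + 1) / 2 ^ m := by
        rcases Nat.lt_succ_iff_lt_or_eq.1 hj with hj | rfl
        · rw [Function.update_of_ne hj.ne]
          have e4 : q j ≤ ∑ j ∈ Finset.range m, q j :=
            Finset.single_le_sum (fun _ _ => Nat.zero_le _) (Finset.mem_range.2 hj)
          have e5 : (q j : ℝ) * 2 ^ m ≤ v := by
            have : q j * 2 ^ m ≤ v := Nat.mul_le_mul_right _ (by omega)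
            exact_mod_cast this
          calc (q j : ℝ) / 2 ^ j ≤ q j := div_le_self (by positivity) (one_le_pow₀ (by norm_num))
            _ ≤ _ := by rw [le_div_iff₀ (by positivity)]; linarith
        · rw [Function.update_self]; gcongr; linarith
      linarith

noncomputable def ell (q : ℕ → ℕ) (g : G) : ℝ := sInf {r | ∃ c, val x c = g ∧ wt q c = r}

theorem ell_le (q : ℕ → ℕ) (c : List (ℕ × Bool)) : ell x q (val x c) ≤ wt q c :=
  csInf_le ⟨0, by rintro r ⟨c, -, rfl⟩; exact wt_nonneg q c⟩ ⟨c, rfl, rfl⟩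

variable (hx : Function.Surjective x)
include hx

theorem le_ell (q : ℕ → ℕ) {g : G} {r : ℝ} (h : ∀ c, val x c = g → r ≤ wt q c) :
    r ≤ ell x q g := by
  obtain ⟨j, rfl⟩ := hx g
  refine le_csInf ⟨_, [(j, true)], by simp [val], rfl⟩ ?_
  rintro _ ⟨c, hc, rfl⟩; exact h c hc

theorem ell_nonneg (q : ℕ → ℕ) (g : G) : 0 ≤ ell x q g := le_ell x hx q fun c _ => wt_nonneg q c

theorem ell_one (q : ℕ → ℕ) : ell x q 1 = 0 :=
  le_antisymm (by simpa using ell_le x q []) (ell_nonneg x hx q 1)

theorem ell_inv_le (q : ℕ → ℕ) (g : G) : ell x q g⁻¹ ≤ ell x q g :=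
  le_ell x hx q fun c hc => by rw [← hc, ← val_cinv, ← wt_cinv]; exact ell_le x q _

theorem ell_mul (q : ℕ → ℕ) (g h : G) : ell x q (g * h) ≤ ell x q g + ell x q h := by
  have : ∀ c, val x c = g → ell x q (g * h) - wt q c ≤ ell x q h := fun c hc =>
    le_ell x hx q fun d hd => by
      have := ell_le x q (c ++ d)
      rw [val_append, wt_append, hc, hd] at this
      linarith
  have h2 : ell x q (g * h) - ell x q h ≤ ell x q g := le_ell x hx q fun c hc => by
    have := this c hc; linarith
  linarith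

theorem ell_bounds {q : ℕ → ℕ} (h : ∀ m, Con x q m) (j : ℕ) :
    (q j : ℝ) / 2 ^ j ≤ ell x q (x j) ∧ ell x q (x j) ≤ ((q j : ℝ) + 1) / 2 ^ j := by
  refine ⟨le_ell x hx q fun c hc => h (j + 1 + (c.map Prod.fst).sum) j (by omega) c
    (fun p hp => ?_) hc, by simpa [val, wt] using ell_le x q [(j, true)]⟩
  have := List.single_le_sum (l := c.map Prod.fst) (by simp) _ (List.mem_map_of_mem hp)
  omega

end theory

theorem space {G : Type} [Group G] (l : G → ℝ) (h1 : l 1 = 0) (h2 : ∀ g, l g⁻¹ ≤ l g)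
    (h3 : ∀ g h, l (g * h) ≤ l g + l h) (h4 : ∀ g, l g = 0 → g = 1) :
    ∃ (X : Type) (_ : MetricSpace X) (_ : CompleteSpace X) (ι : G → X), DenseRange ι ∧
      (∀ g h, dist (ι g) (ι h) = l (g⁻¹ * h)) ∧
      ∃ φ : G →* (X ≃ᵢ X), Function.Injective φ ∧ ∀ g h, φ g (ι h) = ι (g * h) := by
  letI : PseudoMetricSpace G :=
    { dist := fun g h => l (g⁻¹ * h)
      dist_self := fun g => by simp [h1]
      dist_comm := fun g h => le_antisymm (by simpa using h2 (h⁻¹ * g)) (by simpa using h2 (g⁻¹ * h))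
      dist_triangle := fun a b c => by simpa [mul_assoc] using h3 (a⁻¹ * b) (b⁻¹ * c) }
  have hd : ∀ g h : G, dist g h = l (g⁻¹ * h) := fun _ _ => rfl
  have hi : ∀ g : G, Isometry fun h : G => g * h := fun g =>
    Isometry.of_dist_eq fun a b => by simp [hd, mul_assoc]
  let M : G → UniformSpace.Completion G → UniformSpace.Completion G := fun g =>
    UniformSpace.Completion.map fun h => g * h
  have hM : ∀ g (h : G), M g h = ((g * h : G) : UniformSpace.Completion G) := fun g h =>
    UniformSpace.Completion.map_coe (hi g).uniformContinuous h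
  have hc : ∀ g, Continuous (M g) := fun g => UniformSpace.Completion.continuous_map
  have hmul : ∀ g h z, M g (M h z) = M (g * h) z := fun g h z => by
    induction z using UniformSpace.Completion.induction_on with
    | hp => exact isClosed_eq ((hc g).comp (hc h)) (hc _)
    | ih a => simp [hM, mul_assoc]
  have hone : ∀ z, M 1 z = z := fun z => by
    induction z using UniformSpace.Completion.induction_on with
    | hp => exact isClosed_eq (hc 1) continuous_id
    | ih a => simp [hM]
  let E : G → (UniformSpace.Completion G ≃ᵢ UniformSpace.Completion G) := fun g =>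
    { toFun := M g
      invFun := M g⁻¹
      left_inv := fun z => by rw [hmul, inv_mul_cancel, hone]
      right_inv := fun z => by rw [hmul, mul_inv_cancel, hone]
      isometry_toFun := (hi g).completion_map }
  let φ : G →* (UniformSpace.Completion G ≃ᵢ UniformSpace.Completion G) :=
    MonoidHom.mk' E fun g h => IsometryEquiv.ext fun z => (hmul g h z).symm
  refine ⟨UniformSpace.Completion G, inferInstance, inferInstance, (↑),
    UniformSpace.Completion.denseRange_coe, fun g h => UniformSpace.Completion.dist_eq g h,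
    φ, (injective_iff_map_eq_one φ).2 fun g hg => h4 g ?_, hM⟩
  have : M g ((1 : G) : UniformSpace.Completion G) = (1 : G) := by
    change φ g _ = _; rw [hg]; rfl
  rw [hM, mul_one] at this
  have h5 := UniformSpace.Completion.dist_eq (1 : G) g
  rw [this, dist_self, hd] at h5
  simpa using h5.symm

abbrev Wd (n : ℕ) := List (Fin n × Bool)

def wd (n i : ℕ) : Wd n := (Encodable.decode i).getD []

theorem wd_enc {n : ℕ} (w : Wd n) : wd n (Encodable.encode w) = w := by simp [wd]

@[fun_prop] theorem ci_wd {α : Type} [Primcodable α] {n : ℕ} {f : α → ℕ} (hf : CI ∅ f) :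
    CI ∅ fun a => wd n (f a) := by unfold wd; fun_prop

@[fun_prop] theorem ci_invRev {α : Type} [Primcodable α] {n : ℕ} {f : α → Wd n} (hf : CI ∅ f) :
    CI ∅ fun a => FreeGroup.invRev (f a) := by unfold FreeGroup.invRev; fun_prop

def cw (n : ℕ) (c : List (ℕ × Bool)) : Wd n :=
  c.flatMap fun p => cond p.2 (wd n p.1.unpair.1) (FreeGroup.invRev (wd n p.1.unpair.1))

theorem main (n : ℕ) (N : Subgroup (FreeGroup (Fin n))) (hN : N.Normal)
    (hre : REPred (fun w : List (Fin n × Bool) => FreeGroup.mk w ∉ N)) :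
      ∃ (X : Type) (_ : MetricSpace X) (_ : CompleteSpace X) (s : ℕ → X),
        DenseRange s ∧
        (∃ q : ℕ × ℕ × ℕ → ℕ, Computable q ∧
          ∀ i j k : ℕ, |dist (s i) (s j) - (q (i, j, k) : ℝ) / 2 ^ k| ≤ 1 / 2 ^ k) ∧
        ∃ φ : FreeGroup (Fin n) →* (X ≃ᵢ X), φ.ker = N ∧
          ∀ g : FreeGroup (Fin n), ∃ h : ℕ × ℕ → ℕ, Computable h ∧
            ∀ i k : ℕ, dist (φ g (s i)) (s (h (i, k))) ≤ 1 / 2 ^ k := by
  let π : FreeGroup (Fin n) →* FreeGroup (Fin n) ⧸ N := QuotientGroup.mk' N
  let y : ℕ → FreeGroup (Fin n) ⧸ N := fun i => π (FreeGroup.mk (wd n i))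
  let x : ℕ → FreeGroup (Fin n) ⧸ N := fun j => y j.unpair.1
  have hy : Function.Surjective y := by
    intro g
    obtain ⟨g, rfl⟩ := QuotientGroup.mk'_surjective N g
    obtain ⟨w, rfl⟩ := Quot.exists_rep g
    exact ⟨Encodable.encode w, by simp only [y, wd_enc]; rfl⟩
  have hx : Function.Surjective x := fun g => by
    obtain ⟨i, hi⟩ := hy g
    exact ⟨Nat.pair i 0, by simpa [x] using hi⟩
  have hone : ∀ g, π g = 1 ↔ g ∈ N := fun g => QuotientGroup.eq_one_iff g
  have hcw : ∀ c, π (FreeGroup.mk (cw n c)) = val x c := by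
    intro c
    induction c with
    | nil => exact map_one π
    | cons p c ih =>
      rw [val_cons, ← ih, cw, List.flatMap_cons, ← FreeGroup.mul_mk, map_mul]
      congr 1
      cases p.2
      · simp only [cond, ← FreeGroup.inv_mk, map_inv]; rfl
      · rfl
  obtain ⟨D, hD, hDm, hDs⟩ := re_stage hre
  have hcon : REPred fun L : List ℕ => Con x (fun j => L.getD j 0) L.length := by
    have a1 : REPred fun p : (List ℕ × ℕ) × List (ℕ × Bool) =>
        p.1.1.getD p.1.2 0 * 2 ^ (p.1.1.length - p.1.2) ≤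
          wn (fun j => p.1.1.getD j 0) p.1.1.length p.2 ∨
        FreeGroup.mk (FreeGroup.invRev (cw n p.2) ++ wd n p.1.2.unpair.1) ∉ N :=
      re_or (re_of_bool (fun p => decide (p.1.1.getD p.1.2 0 * 2 ^ (p.1.1.length - p.1.2) ≤
          wn (fun j => p.1.1.getD j 0) p.1.1.length p.2)) (by unfold wn; fun_prop) (by simp))
        (REPred.comp' hre (by unfold cw; fun_prop))
    have a2 := re_forall_mem (p := fun (a : List ℕ × ℕ) (c : List (ℕ × Bool)) =>
        a.1.getD a.2 0 * 2 ^ (a.1.length - a.2) ≤ wn (fun j => a.1.getD j 0) a.1.length c ∨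
        FreeGroup.mk (FreeGroup.invRev (cw n c) ++ wd n a.2.unpair.1) ∉ N) a1
      (l := fun a => allLists ((List.range a.1.length).flatMap fun i => [(i, true), (i, false)])
        (a.1.getD a.2 0 * 2 ^ (a.1.length - a.2))) (by fun_prop)
    have a3 := re_forall_mem (p := fun (L : List ℕ) (j : ℕ) =>
        ∀ c ∈ allLists ((List.range L.length).flatMap fun i => [(i, true), (i, false)])
          (L.getD j 0 * 2 ^ (L.length - j)),
        L.getD j 0 * 2 ^ (L.length - j) ≤ wn (fun j => L.getD j 0) L.length c ∨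
        FreeGroup.mk (FreeGroup.invRev (cw n c) ++ wd n j.unpair.1) ∉ N) a2
      (l := fun L => List.range L.length) (by fun_prop)
    refine a3.of_eq fun L => ?_
    have key : ∀ j < L.length, ∀ c : List (ℕ × Bool), (∀ p ∈ c, p.1 < L.length) →
        ((L.getD j 0 * 2 ^ (L.length - j) ≤ wn (fun j => L.getD j 0) L.length c) ↔
          ((L.getD j 0 : ℕ) : ℝ) / 2 ^ j ≤ wt (fun j => L.getD j 0) c) := by
      intro j hj c hc
      rw [← Nat.cast_le (α := ℝ), wn_eq _ _ _ fun p hp => (hc p hp).le]
      obtain ⟨d, hd⟩ := Nat.exists_eq_add_of_le hj.le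
      rw [hd, Nat.add_sub_cancel_left, div_le_iff₀ (by positivity), pow_add]
      push_cast
      have : (0 : ℝ) < 2 ^ d := by positivity
      constructor <;> intro h <;> nlinarith
    have key2 : ∀ j c, FreeGroup.mk (FreeGroup.invRev (cw n c) ++ wd n j.unpair.1) ∉ N ↔
        val x c ≠ x j := by
      intro j c
      rw [← hone, ← FreeGroup.mul_mk, ← FreeGroup.inv_mk, map_mul, map_inv, hcw, inv_mul_eq_one]
    have key3 : ∀ p : ℕ × Bool, p ∈ ((List.range L.length).flatMap fun i =>
        [(i, true), (i, false)]) ↔ p.1 < L.length := by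
      rintro ⟨i, b⟩; cases b <;> simp
    simp only [List.mem_range, mem_allLists, key2, key3, Con]
    constructor
    · intro H j hj c hc hv
      rw [← key j hj c hc]
      by_contra hlt
      have := length_le_wn (fun j => L.getD j 0) L.length c
      exact (H j hj c ⟨by omega, hc⟩).elim hlt fun h => h hv
    · intro H j hj c hc
      by_cases hv : val x c = x j
      · exact Or.inl ((key j hj c hc.2).2 (H j hj c hc.2 hv))
      · exact Or.inr hv
  obtain ⟨S, hS, hS0, hSs⟩ := re_dc (R := fun L L' : List ℕ =>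
      (L' = L ++ [L'.getD L.length 0] ∧
        (D (wd n L.length.unpair.1) L.length = true → 1 ≤ L'.getD L.length 0)) ∧
      Con x (fun j => L'.getD j 0) L'.length)
    (re_and (re_of_bool (fun p => p.2 == p.1 ++ [p.2.getD p.1.length 0] &&
        (!D (wd n p.1.length.unpair.1) p.1.length || decide (1 ≤ p.2.getD p.1.length 0)))
        (by fun_prop) fun p => by
          cases D (wd n p.1.length.unpair.1) p.1.length <;> simp [-List.getD_eq_getElem?_getD])
      (REPred.comp' hcon (g := fun p : List ℕ × List ℕ => p.2) (by fun_prop)))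
    (fun L => Con x (fun j => L.getD j 0) L.length) [] (fun j hj => by simp at hj)
    (fun L hL => by
      obtain ⟨v, h1, h2⟩ := con_step x hL
      refine ⟨L ++ [v], ⟨by simp, fun hd => ?_⟩, ?_⟩
      · have : x L.length ≠ 1 := fun h => (hDs _).2 ⟨_, hd⟩ ((hone _).1 h)
        simpa using h2 this
      · rw [List.length_append, List.length_singleton]
        refine h1.congr x fun j hj => ?_
        rcases Nat.lt_succ_iff_lt_or_eq.1 hj with hj | rfl
        · simp [Function.update_of_ne hj.ne, List.getElem?_append_left hj]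
        · simp)
    fun L L' _ h => h.2
  have hlen : ∀ m, (S m).length = m := by
    intro m
    induction m with
    | zero => simp [hS0]
    | succ m ih => rw [(hSs m).2.1.1]; simp [ih]
  let q : ℕ → ℕ := fun j => (S (j + 1)).getD j 0
  have hq : CI ∅ q := by fun_prop
  have hSq : ∀ m, ∀ j < m, (S m).getD j 0 = q j := by
    intro m
    induction m with
    | zero => simp
    | succ m ih =>
      intro j hj
      rcases Nat.lt_succ_iff_lt_or_eq.1 hj with hj | rfl
      · rw [(hSs m).2.1.1, ← ih j hj]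
        simp [List.getElem?_append_left (by rw [hlen]; exact hj : j < (S m).length)]
      · rfl
  have hcq : ∀ m, Con x q m := fun m => by
    have := (hSs m).1
    rw [hlen] at this
    exact this.congr x (hSq m)
  have hb := ell_bounds x hx hcq
  obtain ⟨X, iX, cX, ι, hι, hdist, φ, hφ, hφι⟩ := space (ell x q) (ell_one x hx q)
    (ell_inv_le x hx q) (ell_mul x hx q) fun g hg => by
      by_contra hne
      obtain ⟨i, rfl⟩ := hy g
      obtain ⟨s, hs⟩ := (hDs _).1 fun h => hne ((hone _).2 h)
      have h1 := (hSs (Nat.pair i s)).2.1.2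
      rw [hlen, Nat.unpair_pair] at h1
      have h2 : 1 ≤ q (Nat.pair i s) := h1 (hDm _ _ _ (Nat.right_le_pair i s) hs)
      have h3 := (hb (Nat.pair i s)).1
      simp only [x, Nat.unpair_pair, hg] at h3
      have : (0 : ℝ) < (q (Nat.pair i s) : ℝ) / 2 ^ Nat.pair i s := by positivity
      linarith
  refine ⟨X, iX, cX, fun i => ι (y i), by
    change Dense (Set.range (ι ∘ y)); rw [hy.range_comp ι]; exact hι, ?_, φ.comp π, ?_, ?_⟩
  · let M : ℕ × ℕ × ℕ → ℕ := fun p =>
      Nat.pair (Encodable.encode (FreeGroup.invRev (wd n p.1) ++ wd n p.2.1)) p.2.2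
    refine ⟨fun p => q (M p) / 2 ^ (M p - p.2.2), CI.computable (by simp only [M]; fun_prop),
      fun i j k => ?_⟩
    have hx' : x (M (i, j, k)) = (y i)⁻¹ * y j := by
      simp only [x, y, M, Nat.unpair_pair, wd_enc, ← FreeGroup.mul_mk, ← FreeGroup.inv_mk, map_mul,
        map_inv]
    have hk : k ≤ M (i, j, k) := Nat.right_le_pair _ _
    obtain ⟨b1, b2⟩ := hb (M (i, j, k))
    rw [hdist, ← hx']
    obtain ⟨d, hd⟩ := Nat.exists_eq_add_of_le hk
    simp only
    generalize ell x q (x (M (i, j, k))) = r at b1 b2 ⊢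
    generalize q (M (i, j, k)) = a at b1 b2 ⊢
    rw [hd, Nat.add_sub_cancel_left]
    rw [hd, pow_add] at b1 b2
    have c1 : ((a / 2 ^ d : ℕ) : ℝ) * 2 ^ d ≤ a := by exact_mod_cast Nat.div_mul_le_self a (2 ^ d)
    have c2 : (a : ℝ) + 1 ≤ ((a / 2 ^ d : ℕ) + 1) * 2 ^ d := by
      have := Nat.lt_mul_div_succ a (show 0 < 2 ^ d by positivity)
      rw [mul_comm] at this
      exact_mod_cast this
    have p1 : (0 : ℝ) < 2 ^ d := by positivity
    have p2 : (0 : ℝ) < 2 ^ k := by positivity
    have d1 : ((a / 2 ^ d : ℕ) : ℝ) / 2 ^ k ≤ a / (2 ^ k * 2 ^ d) := by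
      rw [div_le_div_iff₀ p2 (by positivity)]; nlinarith
    have d2 : ((a : ℝ) + 1) / (2 ^ k * 2 ^ d) ≤ ((a / 2 ^ d : ℕ) : ℝ) / 2 ^ k + 1 / 2 ^ k := by
      rw [← add_div, div_le_div_iff₀ (by positivity) p2]; nlinarith
    have d3 : (0 : ℝ) < 1 / 2 ^ k := by positivity
    rw [abs_le]; constructor <;> linarith
  · ext g
    rw [MonoidHom.mem_ker, MonoidHom.comp_apply, ← hone]
    exact ⟨fun h => hφ (by rw [h, map_one]), fun h => by rw [h, map_one]⟩
  · intro g
    obtain ⟨w, rfl⟩ := Quot.exists_rep g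
    refine ⟨fun p => Encodable.encode (w ++ wd n p.1), CI.computable (by fun_prop), fun i k => ?_⟩
    rw [MonoidHom.comp_apply, hφι]
    simp only [y, wd_enc, ← FreeGroup.mul_mk, map_mul]
    erw [dist_self]
    positivity

end Pool.Agent.H37.IsoEmb
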