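import Pool.Agent.H37.Rnd1

/-!
A covering theorem: for uniformly c.e. sets `A n` of strings of length `n` of small density there
is a `Σ₂` test covering one of any two sequences whose prefixes eventually always meet `A n`.
-/

set_option autoImplicit false

namespace Pool.Agent.H37.Rnd

open Encodable Classical Filter

/-- index, level, denominator, table of numerators, block -/
abbrev St := ℕ × ℕ × ℕ × List ℕ × List ℕ

def val (s : St) (σ : List Bool) : ℕ :=
  min s.2.2.1 (s.2.2.2.1.getD (encode (σ.take s.2.1)) 0)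

theorem ci_val : CI ∅ fun q : St × List Bool => val q.1 q.2 := by unfold val; fun_prop

theorem val_le (s : St) (σ : List Bool) : val s σ ≤ s.2.2.1 := min_le_left _ _

noncomputable def uu (s : St) (σ : List Bool) : ℝ := val s σ / s.2.2.1

theorem dep_uu (s : St) : Dep s.2.1 (uu s) := fun σ τ e => by simp only [uu, val, e]

variable (p : ℕ × List Bool → Prop)

noncomputable def chi (d n : ℕ) (σ : List Bool) : ℝ := if p (d, σ.take n) then 1 else 0

noncomputable def thr (d i : ℕ) : ℝ := (2 * i + 1) / (2 ^ d * (i + 1))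

def Inv (d : ℕ) (s : St) : Prop :=
  ∀ n, s.1 ≤ n → E (s.2.1 + n) (fun σ => ph (uu s σ) (chi p d n σ)) ≤ thr d s.1

def Rel (d : ℕ) (s s' : St) : Prop :=
  (s'.1 = s.1 + 1 ∧ s.2.1 ≤ s'.2.1 ∧ 0 < s'.2.2.1 ∧ s'.2.2.2.2 ≠ [] ∧
    (∀ n ∈ s'.2.2.2.2, s'.1 ≤ n ∧ n ≤ s'.2.1) ∧
    ∀ σ ∈ W s'.2.1, val s σ * s'.2.2.1 ≤ val s' σ * s.2.2.1) ∧
  (∀ σ ∈ W s'.2.1, (s'.2.2.2.2.map fun n => if p (d, σ.take n) then s'.2.2.1 else 0).sum ≤
    val s' σ * s'.2.2.2.2.length) ∧ Inv p d s'

theorem inv_iff {d n : ℕ} {s : St} (hD : 0 < s.2.2.1) :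
    E (s.2.1 + n) (fun σ => ph (uu s σ) (chi p d n σ)) ≤ thr d s.1 ↔
    ¬ (2 * s.1 + 1) * (2 * s.2.2.1 ^ 2 * 2 ^ (s.2.1 + n)) <
      ((W (s.2.1 + n)).map fun σ => if p (d, σ.take n) then
        2 ^ d * (s.1 + 1) * (val s σ ^ 2 + 2 * s.2.2.1 * (s.2.2.1 - val s σ)) else
        2 ^ d * (s.1 + 1) * val s σ ^ 2).sum := by
  have hD' : (0 : ℝ) < s.2.2.1 := by exact_mod_cast hD
  rw [not_lt, ← Nat.cast_le (α := ℝ), Nat.cast_list_sum, List.map_map]
  have : ((Nat.cast : ℕ → ℝ) ∘ fun σ => if p (d, σ.take n) then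
      2 ^ d * (s.1 + 1) * (val s σ ^ 2 + 2 * s.2.2.1 * (s.2.2.1 - val s σ)) else
      2 ^ d * (s.1 + 1) * val s σ ^ 2) = fun σ =>
        (2 ^ d * (s.1 + 1) * (2 * (s.2.2.1 : ℝ) ^ 2)) * ph (uu s σ) (chi p d n σ) := by
    funext σ
    simp only [Function.comp, ph, uu, chi]
    split_ifs
    · push_cast [Nat.cast_sub (val_le s σ)]; field_simp
    · push_cast; field_simp; ring
  rw [this, List.sum_map_mul_left, E, thr, div_le_div_iff₀ (by positivity) (by positivity)]
  push_cast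
  have : (0 : ℝ) < 2 * (s.2.2.1 : ℝ) ^ 2 := by positivity
  constructor <;> intro h <;> nlinarith

theorem re_ex {α β : Type} [Primcodable α] [Primcodable β] {r : α × β → Prop} (h : REPred r) :
    REPred fun a => ∃ b, r (a, b) := re_exists (p := fun a b => r (a, b)) h

theorem re_cnt (hp : REPred p) : REPred fun q : ℕ × St => ¬ ∀ σ ∈ W q.2.2.1,
    (q.2.2.2.2.2.map fun n => if p (q.1, σ.take n) then q.2.2.2.1 else 0).sum ≤
      val q.2 σ * q.2.2.2.2.2.length := by
  obtain ⟨v, hv, ev⟩ : ∃ v : St × List Bool → ℕ, CI ∅ v ∧ ∀ s σ, val s σ = v (s, σ) :=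
    ⟨_, ci_val, fun _ _ => rfl⟩
  have r1 := re_wsum hp (α := (ℕ × St) × List Bool) (γ := ℕ)
    (k := fun q => v (q.1.2, q.2) * q.1.2.2.2.2.2.length) (l := fun q => q.1.2.2.2.2.2)
    (g := fun r => (r.1.1.1, r.1.2.take r.2)) (c1 := fun r => r.1.1.2.2.2.1) (c0 := fun _ => 0)
    (by fun_prop) (by fun_prop) (by fun_prop) (by fun_prop) (by fun_prop) (by simp)
  have r2 : REPred fun q : (ℕ × St) × List Bool => q.2.length = q.1.2.2.1 :=
    re_of_bool (fun q => q.2.length == q.1.2.2.1) (by fun_prop) (by simp)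
  refine (re_ex (re_and r2 r1)).of_eq fun q => ?_
  simp only [mem_W, ev, not_forall, not_le, exists_prop]

theorem re_inv (hp : REPred p) : REPred fun q : ℕ × St => 0 < q.2.2.2.1 ∧ ¬ Inv p q.1 q.2 := by
  obtain ⟨v, hv, ev⟩ : ∃ v : St × List Bool → ℕ, CI ∅ v ∧ ∀ s σ, val s σ = v (s, σ) :=
    ⟨_, ci_val, fun _ _ => rfl⟩
  have r1 := re_wsum hp (α := (ℕ × St) × ℕ) (γ := List Bool)
    (k := fun q => (2 * q.1.2.1 + 1) * (2 * q.1.2.2.2.1 ^ 2 * 2 ^ (q.1.2.2.1 + q.2)))
    (l := fun q => W (q.1.2.2.1 + q.2)) (g := fun r => (r.1.1.1, r.2.take r.1.2))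
    (c1 := fun r => 2 ^ r.1.1.1 * (r.1.1.2.1 + 1) * (v (r.1.1.2, r.2) ^ 2 +
      2 * r.1.1.2.2.2.1 * (r.1.1.2.2.2.1 - v (r.1.1.2, r.2))))
    (c0 := fun r => 2 ^ r.1.1.1 * (r.1.1.2.1 + 1) * v (r.1.1.2, r.2) ^ 2) (by fun_prop)
    (by fun_prop) (by fun_prop) (by fun_prop) (by fun_prop)
    fun _ => Nat.mul_le_mul_left _ (Nat.le_add_right _ _)
  have r2 : REPred fun q : (ℕ × St) × ℕ => 0 < q.1.2.2.2.1 ∧ q.1.2.1 ≤ q.2 :=
    re_of_bool (fun q => decide (0 < q.1.2.2.2.1) && decide (q.1.2.1 ≤ q.2)) (by fun_prop) (by simp)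
  refine (re_ex (re_and r2 r1)).of_eq fun q => ?_
  simp only [← ev, Inv, not_forall, exists_prop]
  constructor
  · rintro ⟨n, ⟨h1, h2⟩, h3⟩
    exact ⟨h1, n, h2, fun h => (inv_iff p h1).1 h h3⟩
  · rintro ⟨h1, n, h2, h3⟩
    exact ⟨n, ⟨h1, h2⟩, not_not.1 fun h => h3 ((inv_iff p h1).2 h)⟩

theorem dec_rel (hp : REPred p) : ∃ B : ℕ × St × St → Bool, CI (orc Kf) B ∧
    ∀ d s s', Rel p d s s' ↔ B (d, s, s') = true := by
  obtain ⟨v, hv, ev⟩ : ∃ v : St × List Bool → ℕ, CI (orc Kf) v ∧ ∀ s σ, val s σ = v (s, σ) :=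
    ⟨_, ci_val.of_empty, fun _ _ => rfl⟩
  obtain ⟨b1, hb1, e1⟩ := ci_K (re_cnt p hp)
  obtain ⟨b2, hb2, e2⟩ := ci_K (re_inv p hp)
  have c1 : CI (orc Kf) fun q : St × St => q.2.1 == q.1.1 + 1 && decide (q.1.2.1 ≤ q.2.2.1) &&
      decide (0 < q.2.2.2.1) && !q.2.2.2.2.2.isEmpty := by fun_prop
  have c2 : CI (orc Kf) fun q : St =>
      q.2.2.2.2.all fun n => decide (q.1 ≤ n) && decide (n ≤ q.2.1) := by fun_prop
  have c3 : CI (orc Kf) fun q : St × St => (W q.2.2.1).all fun σ =>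
      decide (v (q.1, σ) * q.2.2.2.1 ≤ v (q.2, σ) * q.1.2.2.1) := by fun_prop
  have g1 : CI (orc Kf) fun q : ℕ × St × St => q.2 := by fun_prop
  have g2 : CI (orc Kf) fun q : ℕ × St × St => q.2.2 := by fun_prop
  have g3 : CI (orc Kf) fun q : ℕ × St × St => (q.1, q.2.2) := by fun_prop
  refine ⟨_, ((((c1.comp g1).and (c2.comp g2)).and (c3.comp g1)).and (hb1.comp g3).not).and
    (hb2.comp g3).not, fun d s s' => ?_⟩
  simp only [Bool.and_eq_true, beq_iff_eq, decide_eq_true_eq, Bool.not_eq_true', List.all_eq_true,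
    List.isEmpty_eq_false_iff, ← Bool.not_eq_true, ← e1, ← e2, ← ev, Rel, and_assoc, not_not]
  refine and_congr_right fun _ => and_congr_right fun _ => and_congr_right fun hD => ?_
  simp [hD]

theorem table (N : ℕ) (f : List Bool → ℕ) :
    ∃ w : List ℕ, ∀ τ : List Bool, τ.length = N → w.getD (encode τ) 0 = f τ := by
  refine ⟨(List.range (((W N).map encode).sum + 1)).map fun j =>
    (decode (α := List Bool) j).elim 0 f, fun τ hτ => ?_⟩
  have : encode τ < ((W N).map encode).sum + 1 :=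
    Nat.lt_succ_of_le (List.le_sum_of_mem (List.mem_map_of_mem (mem_W.2 hτ)))
  simp [List.getD_eq_getElem?_getD, this]

theorem sum_ite (L : List ℕ) (P : ℕ → Prop) (c : ℕ) :
    (((L.map fun n => if P n then c else 0).sum : ℕ) : ℝ) =
      c * (L.map fun n => if P n then (1 : ℝ) else 0).sum := by
  induction L with
  | nil => simp
  | cons a L ih => simp only [List.map_cons, List.sum_cons, Nat.cast_add, ih]; split_ifs <;> simp [mul_add]

theorem exists_rel {d : ℕ} {s : St} (hD : 0 < s.2.2.1) (h : Inv p d s) : ∃ s', Rel p d s s' := by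
  obtain ⟨i, M, D, w, L0⟩ := s
  simp only at hD
  set s : St := (i, M, D, w, L0) with hs
  have hχ : ∀ n σ, chi p d n σ = 0 ∨ chi p d n σ = 1 := fun n σ => by
    unfold chi; split_ifs <;> simp
  have hd : ∀ n, Dep n (chi p d n) := fun n σ τ e => by simp only [chi, e]
  obtain ⟨L, h1, h2, h3⟩ := step hχ hd (dep_uu s) (fun σ => by unfold uu; positivity)
    (k := i + 1) (2 ^ d * (i + 1) * (i + 2) - 1) fun n hn => h n (by simp only [s]; omega)
  have hl : 0 < L.length := List.length_pos_iff.2 h1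
  let cn : List Bool → ℕ := fun σ => (L.map fun n => if p (d, σ.take n) then 1 else 0).sum
  have cn1 : ∀ σ, cn σ ≤ L.length := fun σ => by
    have := List.sum_le_card_nsmul (L.map fun n => if p (d, σ.take n) then 1 else 0) 1
      fun x hx => by
        obtain ⟨n, -, rfl⟩ := List.mem_map.1 hx
        split_ifs <;> simp
    simpa using this
  obtain ⟨w', hw'⟩ := table (M + L.sum) fun τ => max (val s τ * L.length) (cn τ * D)
  let s' : St := (i + 1, M + L.sum, D * L.length, w', L)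
  have hv : ∀ σ : List Bool, M + L.sum ≤ σ.length →
      val s' σ = max (val s σ * L.length) (cn σ * D) := fun σ hσ => by
    have e1 : val s (σ.take (M + L.sum)) = val s σ := by
      simp [val, s, List.take_take]
    have e2 : cn (σ.take (M + L.sum)) = cn σ := by
      simp only [cn]
      congr 1
      refine List.map_congr_left fun n hn => ?_
      have := List.le_sum_of_mem hn
      rw [List.take_take, min_eq_left (by omega)]
    simp only [val, s']
    rw [hw' _ (by simp [hσ]), e1, e2]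
    refine min_eq_right (max_le (Nat.mul_le_mul_right _ (val_le s σ)) ?_)
    rw [mul_comm]; exact Nat.mul_le_mul_left _ (cn1 σ)
  have hD' : (0 : ℝ) < D := by exact_mod_cast hD
  have hl' : (0 : ℝ) < L.length := by exact_mod_cast hl
  have hu : ∀ σ : List Bool, M + L.sum ≤ σ.length →
      uu s' σ = max (uu s σ) (fr (chi p d) L σ) := fun σ hσ => by
    have : (cn σ : ℝ) = (L.map fun n => chi p d n σ).sum := by
      simp only [cn]; rw [sum_ite]; simp [chi]
    simp only [uu, fr, hv σ hσ, ← this]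
    simp only [s', s]
    push_cast
    rw [← max_div_div_right (by positivity)]
    congr 1 <;> field_simp
  refine ⟨s', ⟨rfl, Nat.le_add_right _ _, Nat.mul_pos hD hl, h1, fun n hn => ⟨h2 n hn, ?_⟩,
    fun σ hσ => ?_⟩, fun σ hσ => ?_, fun n hn => ?_⟩
  · exact le_trans (List.le_sum_of_mem hn) (Nat.le_add_left _ _)
  · rw [hv σ (mem_W.1 hσ).ge]
    simp only [s', s]
    nlinarith [Nat.mul_le_mul_right D (le_max_left (val s σ * L.length) (cn σ * D))]
  · rw [hv σ (mem_W.1 hσ).ge]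
    have : (L.map fun n => if p (d, σ.take n) then D * L.length else 0).sum =
        D * L.length * cn σ := by
      rw [← Nat.cast_inj (R := ℝ), sum_ite, Nat.cast_mul _ (cn σ)]; simp only [cn]
      rw [sum_ite]; simp
    simp only [s', this]
    nlinarith [Nat.mul_le_mul_right L.length (le_max_right (val s σ * L.length) (cn σ * D))]
  · have := h3 n hn
    rw [E_congr (h := fun σ => ph (max (uu s σ) (fr (chi p d) L σ)) (chi p d n σ))
      fun σ hσ => by rw [hu σ (by simp only [s'] at hσ; omega)]]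
    refine le_trans this (le_of_eq ?_)
    have : 1 ≤ 2 ^ d * (i + 1) * (i + 2) := Nat.succ_le_of_lt (by positivity)
    simp only [thr, s, s', Nat.cast_sub this]
    push_cast
    field_simp
    ring

/-- the heavy strings of a state -/
def Hv (s : St) (σ : List Bool) : Prop := s.2.2.1 ≤ 2 * val s σ

noncomputable def ms (s : St) : ℝ := E s.2.1 fun σ => if Hv s σ then 1 else 0

theorem dep_hv (s : St) : Dep s.2.1 fun σ => if Hv s σ then (1 : ℝ) else 0 := fun σ τ e => by
  have : Hv s σ = Hv s τ := by simp only [Hv, val, e]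
  simp only [this]

theorem ms_le {d : ℕ} {s : St} (hD : 0 < s.2.2.1) (h : Inv p d s) : ms s ≤ 16 / 2 ^ d := by
  have hD' : (0 : ℝ) < s.2.2.1 := by exact_mod_cast hD
  have h1 := h s.1 le_rfl
  have h2 : thr d s.1 ≤ 2 / 2 ^ d := by
    rw [thr, div_le_div_iff₀ (by positivity) (by positivity)]
    nlinarith [pow_pos (two_pos (α := ℝ)) d]
  have h3 : ms s ≤ E (s.2.1 + s.1) fun σ => 8 * ph (uu s σ) (chi p d s.1 σ) := by
    rw [ms, ← E_dep (dep_hv s) (Nat.le_add_right _ s.1)]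
    refine E_mono fun σ _ => ?_
    have a1 : uu s σ ≤ 1 := div_le_one_of_le₀ (by exact_mod_cast val_le s σ) hD'.le
    have a2 : 0 ≤ chi p d s.1 σ := by unfold chi; split_ifs <;> simp
    have a3 := mul_nonneg a2 (sub_nonneg.2 a1)
    unfold ph
    split_ifs with hv
    · have : 1 / 2 ≤ uu s σ := by
        rw [uu, div_le_div_iff₀ (by positivity) hD']
        have : (s.2.2.1 : ℝ) ≤ 2 * val s σ := by exact_mod_cast hv
        linarith
      nlinarith
    · nlinarith [sq_nonneg (uu s σ)]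
  rw [E_mul] at h3
  have : (16 : ℝ) / 2 ^ d = 8 * (2 / 2 ^ d) := by ring
  linarith

theorem sum_new {d : ℕ} {s s' : St} (hD : 0 < s.2.2.1) (h : Rel p d s s')
    (S : Finset (List Bool)) :
    ∑ σ ∈ S, (if σ.length = s'.2.1 ∧ Hv s' σ ∧ ¬ Hv s σ then ((1 : ℝ) / 2) ^ σ.length else 0) ≤
      ms s' - ms s := by
  obtain ⟨⟨-, h1, h2, -, -, h3⟩, -⟩ := h
  rw [ms, ms, ← E_dep (dep_hv s) h1, ← E_sub]
  have hm : ∀ σ, σ.length = s'.2.1 → Hv s σ → Hv s' σ := fun σ hσ hv => by
    have := h3 σ (mem_W.2 hσ)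
    unfold Hv at *
    by_contra hc
    nlinarith
  rw [E_congr (h := fun σ => if Hv s' σ ∧ ¬ Hv s σ then 1 else 0) fun σ hσ => by
    have := hm σ hσ
    by_cases a : Hv s σ <;> by_cases b : Hv s' σ <;> simp_all]
  rw [E, ← List.sum_toFinset _ (nodup_W _), Finset.sum_div, ← Finset.sum_filter]
  refine le_trans (Finset.sum_le_sum_of_subset_of_nonneg
    (t := (W s'.2.1).toFinset.filter fun σ => Hv s' σ ∧ ¬ Hv s σ) (fun σ hσ => ?_)
    fun _ _ _ => by positivity) (le_of_eq ?_)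
  · simp only [Finset.mem_filter, List.mem_toFinset, mem_W] at hσ ⊢
    exact hσ.2
  · rw [Finset.sum_filter]
    refine Finset.sum_congr rfl fun σ hσ => ?_
    rw [mem_W.1 (List.mem_toFinset.1 hσ)]
    split_ifs <;> simp

theorem cover (hp : REPred p) (hs : ∀ d n, E n (chi p d n) ≤ 1 / 2 ^ d) :
    ∃ R : ℕ × List Bool × ℕ × ℕ → Bool, Computable R ∧
      (∀ k : ℕ, ∀ S : Finset (List Bool), (∀ σ ∈ S, ∃ a : ℕ, ∀ b : ℕ, R (k, σ, a, b) = true) →
        ∑ σ ∈ S, ((1:ℝ)/2) ^ σ.length ≤ ((1:ℝ)/2) ^ k) ∧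
      ∀ X Y : ℕ → Bool, (∀ d, ∀ᶠ n in atTop, p (d, pre X n) ∨ p (d, pre Y n)) →
        (∀ k, ∃ n a, ∀ b, R (k, pre X n, a, b) = true) ∨
        (∀ k, ∃ n a, ∀ b, R (k, pre Y n, a, b) = true) := by
  obtain ⟨B, hB, eB⟩ := dec_rel p hp
  obtain ⟨S, hS, S0, hI⟩ := CI.dc_param (O := orc Kf) (α := ℕ) (σ := St)
    (D := fun d s s' _ => B (d, s, s')) (by fun_prop) (fun d s => 0 < s.2.2.1 ∧ Inv p d s)
    (s0 := fun _ => (0, 0, 1, [], [])) (by fun_prop)
    (fun d => ⟨one_pos, fun n _ => by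
      have := hs d n
      simpa [thr, ph, uu, val] using this⟩)
    (fun d s h => by
      obtain ⟨s', hs'⟩ := exists_rel p h.1 h.2
      exact ⟨s', 0, (eB _ _ _).1 hs'⟩)
    (fun d s s' _ _ h => ⟨((eB _ _ _).2 h).1.2.2.1, ((eB _ _ _).2 h).2.2⟩)
  have hR : ∀ d i, Rel p d (S d i) (S d (i + 1)) := fun d i =>
    (eB _ _ _).2 (hI d i).2.choose_spec
  let T : ℕ → ℕ → List Bool → Prop := fun d i σ =>
    σ.length = (S d (i + 1)).2.1 ∧ Hv (S d (i + 1)) σ ∧ ¬ Hv (S d i) σ
  obtain ⟨v, hv, ev⟩ : ∃ v : St × List Bool → ℕ, CI (orc Kf) v ∧ ∀ s σ, val s σ = v (s, σ) :=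
    ⟨_, ci_val.of_empty, fun _ _ => rfl⟩
  obtain ⟨S', hS', eS⟩ : ∃ S' : ℕ × ℕ → St, CI (orc Kf) S' ∧ ∀ d i, S d i = S' (d, i) :=
    ⟨_, hS, fun _ _ => rfl⟩
  obtain ⟨R, hRc, eR⟩ := post (p := fun q : ℕ × List Bool => ∃ d i, T (q.1 + 5 + d) i q.2)
    (fun q t => q.2.length == (S' (q.1 + 5 + t.unpair.1, t.unpair.2 + 1)).2.1 &&
      decide ((S' (q.1 + 5 + t.unpair.1, t.unpair.2 + 1)).2.2.1 ≤
        2 * v (S' (q.1 + 5 + t.unpair.1, t.unpair.2 + 1), q.2)) &&
      !decide ((S' (q.1 + 5 + t.unpair.1, t.unpair.2)).2.2.1 ≤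
        2 * v (S' (q.1 + 5 + t.unpair.1, t.unpair.2), q.2))) (by fun_prop) fun q => by
      simp only [Bool.and_eq_true, beq_iff_eq, decide_eq_true_eq, Bool.not_eq_true',
        decide_eq_false_iff_not, ← eS, ← ev, T, Hv, and_assoc]
      exact ⟨fun ⟨d, i, h⟩ => ⟨Nat.pair d i, by simpa using h⟩, fun ⟨t, h⟩ => ⟨_, _, h⟩⟩
  refine ⟨fun q => R ((q.1, q.2.1), q.2.2), CI.computable (by fun_prop), fun k A hA => ?_,
    fun X Y hXY => ?_⟩
  · choose! f g hfg using fun σ hσ => (eR (k, σ)).2 (hA σ hσ)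
    let N := A.sup f + A.sup g + 1
    calc _ ≤ ∑ σ ∈ A, ∑ d ∈ Finset.range N, ∑ i ∈ Finset.range N,
          if T (k + 5 + d) i σ then ((1 : ℝ) / 2) ^ σ.length else 0 := by
          refine Finset.sum_le_sum fun σ hσ => ?_
          have a1 : f σ ≤ A.sup f := Finset.le_sup hσ
          have a2 : g σ ≤ A.sup g := Finset.le_sup hσ
          refine le_trans ?_ (Finset.single_le_sum (a := f σ) (fun d _ =>
            Finset.sum_nonneg fun i _ => by positivity) (by simp only [Finset.mem_range]; omega))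
          refine le_trans ?_ (Finset.single_le_sum (a := g σ) (fun d _ => by positivity)
            (by simp only [Finset.mem_range]; omega))
          rw [if_pos (hfg σ hσ)]
      _ ≤ ∑ d ∈ Finset.range N, (1 / 2) ^ k / 2 * ((1 : ℝ) / 2) ^ d := by
          rw [Finset.sum_comm]
          refine Finset.sum_le_sum fun d _ => ?_
          rw [Finset.sum_comm]
          refine le_trans (Finset.sum_le_sum fun i _ =>
            sum_new p (hI _ i).1.1 (hR (k + 5 + d) i) A) ?_
          rw [Finset.sum_range_sub fun i => ms (S (k + 5 + d) i)]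
          have a1 := ms_le p (hI (k + 5 + d) N).1.1 (hI _ N).1.2
          have a2 : ms (S (k + 5 + d) 0) = 0 := by simp [S0, ms, Hv, val, E_const]
          rw [a2, sub_zero]
          refine le_trans a1 (le_of_eq ?_)
          simp only [pow_add, one_div, inv_pow]
          field_simp
          norm_num
      _ ≤ _ := by
          rw [← Finset.mul_sum]
          have := sum_geometric_two_le N
          have a : (0 : ℝ) < (1 / 2) ^ k := by positivity
          nlinarith
  · have lev : ∀ d i, (S d i).1 = i := fun d i => by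
      induction i with
      | zero => simp [S0]
      | succ i ih => rw [(hR d i).1.1, ih]
    have vp : ∀ (s : St) (Z : ℕ → Bool) n, s.2.1 ≤ n → (Hv s (pre Z n) ↔ Hv s (pre Z s.2.1)) :=
      fun s Z n hn => by simp only [Hv, val, take_pre _ hn, take_pre _ le_rfl]
    have first : ∀ (Z : ℕ → Bool) d i, Hv (S d i) (pre Z (S d i).2.1) →
        ∃ n j, T d j (pre Z n) := by
      intro Z d i
      induction i with
      | zero => simp [S0, Hv, val]
      | succ i ih =>
        intro h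
        by_cases h' : Hv (S d i) (pre Z (S d i).2.1)
        · exact ih h'
        · exact ⟨_, i, by simp, h, by rwa [vp _ _ _ (hR d i).1.2.1]⟩
    have one : ∀ d, (∃ n j, T d j (pre X n)) ∨ ∃ n j, T d j (pre Y n) := by
      intro d
      obtain ⟨N, hN⟩ := eventually_atTop.1 (hXY d)
      obtain ⟨⟨-, -, h1, h2, h3, -⟩, h4, -⟩ := hR d N
      set s := S d (N + 1) with hs
      have a1 := h4 (pre X s.2.1) (mem_W.2 (by simp))
      have a2 := h4 (pre Y s.2.1) (mem_W.2 (by simp))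
      have a3 := List.card_nsmul_le_sum (s.2.2.2.2.map fun n =>
          (if p (d, (pre X s.2.1).take n) then s.2.2.1 else 0) +
          if p (d, (pre Y s.2.1).take n) then s.2.2.1 else 0) s.2.2.1 fun x hx => by
        obtain ⟨n, hn, rfl⟩ := List.mem_map.1 hx
        obtain ⟨b1, b2⟩ := h3 n hn
        rw [hs, lev] at b1
        rw [take_pre _ b2, take_pre _ b2]
        rcases hN n (by omega) with h | h <;> simp [h]
      rw [List.sum_map_add, smul_eq_mul, List.length_map] at a3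
      have hl := List.length_pos_iff.2 h2
      by_cases hx : Hv s (pre X s.2.1)
      · exact Or.inl (first X d _ hx)
      · refine Or.inr (first Y d (N + 1) ?_)
        rw [← hs]
        unfold Hv at *
        by_contra hy
        nlinarith
    have fin : ∀ Z : ℕ → Bool, (∃ᶠ d in atTop, ∃ n j, T d j (pre Z n)) →
        ∀ k, ∃ n a, ∀ b, R ((k, pre Z n), a, b) = true := fun Z h k => by
      obtain ⟨d, hd, n, j, hj⟩ := frequently_atTop.1 h (k + 5)
      obtain ⟨d, rfl⟩ := Nat.exists_eq_add_of_le hd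
      exact ⟨n, (eR (k, pre Z n)).1 ⟨d, j, hj⟩⟩
    exact (frequently_or_distrib.1 (Frequently.of_forall one)).imp (fin X) (fin Y)

theorem small {U : List Bool →. List Bool} (d n : ℕ) :
    E n (chi (fun q => ∃ c, q.2 ∈ U c ∧ c.length + q.1 < q.2.length) d n) ≤ 1 / 2 ^ d := by
  let A := (W n).toFinset.filter fun σ => ∃ c, σ ∈ U c ∧ c.length + d < σ.length
  have h1 : E n (chi (fun q => ∃ c, q.2 ∈ U c ∧ c.length + q.1 < q.2.length) d n) =
      A.card / 2 ^ n := by
    rw [E_congr (h := fun σ => if ∃ c, σ ∈ U c ∧ c.length + d < σ.length then 1 else 0)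
      fun σ hσ => by simp only [chi, List.take_of_length_le hσ.le]]
    rw [E, ← List.sum_toFinset _ (nodup_W _), Finset.sum_boole]
  have lenW : ∀ j, (W j).length = 2 ^ j := fun j => by
    have := E_const j 1
    rw [E, div_eq_iff (by positivity)] at this
    simp only [List.map_const', List.sum_replicate, nsmul_eq_mul, mul_one, one_mul] at this
    exact_mod_cast this
  have h2 : A.card ≤ ((Finset.range (n - d)).biUnion fun j => (W j).toFinset).card := by
    have : ∀ σ ∈ A, ∃ c, σ ∈ U c ∧ c.length + d < n := fun σ hσ => by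
      simp only [A, Finset.mem_filter, List.mem_toFinset, mem_W] at hσ
      rw [← hσ.1]; exact hσ.2
    choose! f hf using this
    refine Finset.card_le_card_of_injOn f (fun σ hσ => ?_) fun σ hσ τ hτ e => ?_
    · have := (hf σ hσ).2
      simp only [Finset.coe_biUnion, Finset.coe_range, Set.mem_iUnion, Finset.mem_coe,
        List.mem_toFinset, mem_W, Set.mem_Iio]
      exact ⟨_, by omega, rfl⟩
    · exact Part.mem_unique (hf σ hσ).1 (e ▸ (hf τ hτ).1)
  have h3 : ((Finset.range (n - d)).biUnion fun j => (W j).toFinset).card ≤ 2 ^ (n - d) - 1 := by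
    refine le_trans Finset.card_biUnion_le (le_trans (Finset.sum_le_sum fun j _ =>
      (List.toFinset_card_le _).trans (lenW j).le) ?_)
    rw [Nat.geomSum_eq le_rfl]; simp
  rw [h1, div_le_div_iff₀ (by positivity) (by positivity), one_mul]
  have : A.card * 2 ^ d ≤ 2 ^ n := by
    rcases le_total n d with h | h
    · rw [Nat.sub_eq_zero_of_le h] at h2 h3
      have : A.card = 0 := by omega
      simp [this]
    · obtain ⟨m, rfl⟩ := Nat.exists_eq_add_of_le h
      rw [Nat.add_sub_cancel_left] at h2 h3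
      rw [pow_add, mul_comm]
      exact Nat.mul_le_mul_left _ (h2.trans (h3.trans (Nat.sub_le _ _)))
  exact_mod_cast this

theorem ofFn_eq (X : ℕ → Bool) (n : ℕ) : List.ofFn (fun i : Fin n => X i) = pre X n :=
  List.ext_getElem (by simp) fun i _ _ => by simp [pre]

theorem common {U : List Bool →. List Bool} (hU : Partrec U) :
    ∃ R : ℕ × List Bool × ℕ × ℕ → Bool, Computable R ∧
      (∀ k : ℕ, ∀ S : Finset (List Bool), (∀ σ ∈ S, ∃ a : ℕ, ∀ b : ℕ, R (k, σ, a, b) = true) →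
        ∑ σ ∈ S, ((1:ℝ)/2) ^ σ.length ≤ ((1:ℝ)/2) ^ k) ∧
      ∀ X Y : ℕ → Bool, (¬ ∀ k, ∃ n a, ∀ b, R (k, pre X n, a, b) = true) →
        (¬ ∀ k, ∃ n a, ∀ b, R (k, pre Y n, a, b) = true) → ∃ d : ℕ, ∃ᶠ n in atTop,
        (∀ q : List Bool, pre X n ∈ U q → n ≤ q.length + d) ∧
        (∀ q : List Bool, pre Y n ∈ U q → n ≤ q.length + d) := by
  obtain ⟨F, hF, -, eF⟩ := partrec_stage hU
  obtain ⟨G, hG, eG⟩ : ∃ G : List Bool × ℕ → Option (List Bool), CI ∅ G ∧
    ∀ a t, F a t = G (a, t) := ⟨_, hF, fun _ _ => rfl⟩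
  have hp : REPred fun q : ℕ × List Bool => ∃ c, q.2 ∈ U c ∧ c.length + q.1 < q.2.length :=
    re_of_exists (fun q (r : List Bool × ℕ) => G r == some q.2 &&
      decide (r.1.length + q.1 < q.2.length)) (by fun_prop) fun q => by
        simp only [eF, eG, Bool.and_eq_true, beq_iff_eq, decide_eq_true_eq, Prod.exists]
        exact exists_congr fun c => exists_and_right.symm
  obtain ⟨R, h1, h2, h3⟩ := cover _ hp small
  refine ⟨R, h1, h2, fun X Y hX hY => ?_⟩
  by_contra hc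
  refine (h3 X Y fun d => ?_).elim hX hY
  have := not_frequently.1 (not_exists.1 hc d)
  refine this.mono fun n hn => ?_
  simp only [length_pre]
  by_contra h
  push Not at h
  exact hn ⟨h.1, h.2⟩

end Pool.Agent.H37.Rnd
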