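import Pool.Agent.H37.Defc2
import Pool.Agent.H37.Rnd2

/-! Building plain and self-delimiting machines from c.e. sets of requests. -/

set_option autoImplicit false

namespace Pool.Agent.H37.Kc

open Encodable Rnd Defc Finset

variable {α β γ : Type} [Primcodable α] [Primcodable β] [Primcodable γ]

theorem enum_re {p : β → Prop} (hp : REPred p) : ∃ ρ : ℕ → Option β, CI ∅ ρ ∧
    (∀ q, p q ↔ ∃ i, ρ i = some q) ∧ ∀ i j q, ρ i = some q → ρ j = some q → i = j := by
  classical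
  obtain ⟨D, hD, hm, h⟩ := re_stage hp
  obtain ⟨F, hF, eF⟩ : ∃ F : β × ℕ → Bool, CI ∅ F ∧ ∀ a t, D a t = F (a, t) :=
    ⟨_, hD, fun _ _ => rfl⟩
  let ρ : ℕ → Option β := fun i => (decode (α := β) i.unpair.1).bind fun q =>
    bif encode q == i.unpair.1 && F (q, i.unpair.2) &&
      (List.range i.unpair.2).all fun s => !F (q, s) then some q else none
  have key : ∀ i q, ρ i = some q ↔ encode q = i.unpair.1 ∧ D q i.unpair.2 = true ∧
      ∀ s < i.unpair.2, D q s = false := fun i q => by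
    simp only [ρ, Option.bind_eq_some_iff, Bool.cond_eq_ite, Option.ite_none_right_eq_some,
      Bool.and_eq_true, beq_iff_eq, List.all_eq_true, List.mem_range, Bool.not_eq_true', ← eF,
      Option.some.injEq, and_assoc]
    constructor
    · rintro ⟨q', -, h1, h2, h3, rfl⟩; exact ⟨h1, h2, h3⟩
    · rintro ⟨h1, h2, h3⟩; exact ⟨q, by rw [← h1, encodek], h1, h2, h3, rfl⟩
  refine ⟨ρ, by simp only [ρ]; fun_prop, fun q => ?_, fun i j q hi hj => ?_⟩
  · rw [h]
    constructor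
    · intro hs
      refine ⟨Nat.pair (encode q) (Nat.find hs), (key _ _).2 ?_⟩
      simp only [Nat.unpair_pair, true_and]
      exact ⟨Nat.find_spec hs, fun s h => by simpa using Nat.find_min hs h⟩
    · rintro ⟨i, hi⟩; exact ⟨_, ((key _ _).1 hi).2.1⟩
  · obtain ⟨a1, a2, a3⟩ := (key _ _).1 hi
    obtain ⟨b1, b2, b3⟩ := (key _ _).1 hj
    rw [← Nat.pair_unpair i, ← Nat.pair_unpair j, ← a1, ← b1]
    congr 1
    rcases lt_trichotomy i.unpair.2 j.unpair.2 with h | h | h
    · rw [b3 _ h] at a2; cases a2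
    · exact h
    · rw [a3 _ h] at b2; cases b2

theorem search {F : α × ℕ → Option β} (hF : CI ∅ F)
    (u : ∀ a i j z z', F (a, i) = some z → F (a, j) = some z' → z = z') :
    ∃ M : α →. β, Partrec M ∧ ∀ a z, z ∈ M a ↔ ∃ i, F (a, i) = some z := by
  refine ⟨fun a => Nat.rfindOpt fun i => F (a, i),
    partrec_of_ri (RI.rfindOpt (f := fun a i => F (a, i)) hF), fun a z => ⟨Nat.rfindOpt_spec, ?_⟩⟩
  rintro ⟨i, hi⟩
  obtain ⟨z', hz⟩ := Part.dom_iff_mem.1 ((Nat.rfindOpt_dom (f := fun i => F (a, i))).2 ⟨i, z, hi⟩)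
  obtain ⟨j, hj⟩ := Nat.rfindOpt_spec hz
  rwa [u a i j z z' hi hj]

/-- binary value -/
def bv (p : List Bool) : ℕ := p.foldl (fun a b => 2 * a + b.toNat) 0

theorem ci_bv : CI ∅ bv := by unfold bv; fun_prop

theorem bv_concat (p : List Bool) (b : Bool) : bv (p ++ [b]) = 2 * bv p + b.toNat := by
  simp [bv, List.foldl_append]

theorem bv_surj (k n : ℕ) (h : n < 2 ^ k) : ∃ p : List Bool, p.length = k ∧ bv p = n := by
  induction k generalizing n with
  | zero => exact ⟨[], rfl, by simp [bv]; omega⟩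
  | succ k ih =>
    obtain ⟨p, h1, h2⟩ := ih (n / 2) (by omega)
    refine ⟨p ++ [n % 2 == 1], by simp [h1], ?_⟩
    rw [bv_concat, h2]
    rcases Nat.mod_two_eq_zero_or_one n with h | h <;> simp [h] <;> omega

theorem bv_app (p t : List Bool) : (bv p : ℝ) * (1 / 2) ^ p.length ≤
      bv (p ++ t) * (1 / 2) ^ (p ++ t).length ∧
    ((bv (p ++ t) : ℝ) + 1) * (1 / 2) ^ (p ++ t).length ≤ (bv p + 1) * (1 / 2) ^ p.length := by
  induction t using List.reverseRecOn with
  | nil => simp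
  | append_singleton t b ih =>
    rw [← List.append_assoc, bv_concat, List.length_append, List.length_singleton, pow_succ]
    have : (0 : ℝ) < (1 / 2) ^ (p ++ t).length := by positivity
    cases b <;> simp only [Bool.toNat_false, Bool.toNat_true] <;> push_cast <;>
      constructor <;> nlinarith [ih.1, ih.2]

theorem plain_machine {R : ℕ × List Bool → Prop} (hR : REPred R)
    (hb : ∀ n (S : Finset (List Bool)), (∀ x ∈ S, R (n, x)) → S.card ≤ 2 ^ n) :
    ∃ M : List Bool →. List Bool, Partrec M ∧ ∀ n x, R (n, x) →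
      ∃ p : List Bool, p.length = n ∧ x ∈ M p := by
  obtain ⟨ρ, hρ, e, inj⟩ := enum_re hR
  have := ci_bv
  let cn : ℕ → ℕ → ℕ := fun n i => (List.range i).countP fun j => (ρ j).map Prod.fst == some n
  have cs : ∀ n i x, ρ i = some (n, x) → cn n (i + 1) = cn n i + 1 := fun n i x h => by
    simp [cn, List.range_succ, h]
  have cm : ∀ n, Monotone (cn n) := fun n => monotone_nat_of_le_succ fun i => by
    simp [cn, List.range_succ]
  obtain ⟨M, hM, eM⟩ := search (F := fun q : List Bool × ℕ => (ρ q.2).bind fun r =>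
      bif r.1 == q.1.length && cn q.1.length q.2 == bv q.1 then some r.2 else none)
    (by simp only [cn]; fun_prop) fun p i j z z' hi hj => by
      simp only [Option.bind_eq_some_iff, Bool.cond_eq_ite, Option.ite_none_right_eq_some,
        Bool.and_eq_true, beq_iff_eq, Option.some.injEq, Prod.exists] at hi hj
      obtain ⟨_, _, a1, ⟨rfl, a2⟩, rfl⟩ := hi
      obtain ⟨_, _, b1, ⟨rfl, b2⟩, rfl⟩ := hj
      rcases lt_trichotomy i j with h | rfl | h
      · have := cm p.length (Nat.succ_le_of_lt h); rw [cs _ _ _ a1] at this; omega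
      · simpa [a1] using b1
      · have := cm p.length (Nat.succ_le_of_lt h); rw [cs _ _ _ b1] at this; omega
  refine ⟨M, hM, fun n x h => ?_⟩
  obtain ⟨i, hi⟩ := (e _).1 h
  have lt : cn n (i + 1) ≤ 2 ^ n := by
    let S := (range (i + 1)).filter fun j => (ρ j).map Prod.fst == some n
    have h1 : cn n (i + 1) = S.card := by
      simp only [cn, S, List.countP_eq_length_filter]
      rw [← List.toFinset_card_of_nodup (List.nodup_range.filter _), List.toFinset_filter,
        List.toFinset_range]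
    have h2 : ∀ j ∈ S, ρ j = some (n, ((ρ j).map Prod.snd).getD []) := fun j hj => by
      have := (mem_filter.1 hj).2
      cases hr : ρ j <;> simp_all [Prod.ext_iff]
    rw [h1, ← card_image_of_injOn (f := fun j => ((ρ j).map Prod.snd).getD [])
      fun a ha b hb hab => inj a b _ (h2 a ha) (by rw [h2 b hb]; exact congrArg (fun z => some (n, z)) hab.symm)]
    refine hb n _ fun x hx => ?_
    obtain ⟨j, hj, rfl⟩ := mem_image.1 hx
    exact (e _).2 ⟨j, h2 j hj⟩
  obtain ⟨p, h1, h2⟩ := bv_surj n (cn n i) (by rw [cs _ _ _ hi] at lt; omega)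
  exact ⟨p, h1, (eM _ _).2 ⟨i, by simp [hi, h1, h2]⟩⟩

/-- Kraft-Chaitin, with one extra bit -/
theorem kc {R : ℕ × List Bool → Prop} (hR : REPred R)
    (hb : ∀ S : Finset (ℕ × List Bool), (∀ q ∈ S, R q) → ∑ q ∈ S, ((1 : ℝ) / 2) ^ q.1 ≤ 1) :
    ∃ M : List Bool →. List Bool, Partrec M ∧
      (∀ p q : List Bool, (M p).Dom → (M q).Dom → p <+: q → p = q) ∧
      ∀ k x, R (k, x) → ∃ p : List Bool, p.length = k + 1 ∧ x ∈ M p := by
  obtain ⟨ρ, hρ, e, inj⟩ := enum_re hR
  have := ci_bv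
  let kk : ℕ → ℕ := fun i => ((ρ i).map Prod.fst).getD 0
  let B : ℕ → ℕ := fun i => ((List.range (i + 1)).map kk).sum + 1
  let a : ℕ → ℕ := fun i => ((List.range i).map fun j =>
    bif (ρ j).isSome then 2 ^ (B i - kk j) else 0).sum
  let cd : ℕ → ℕ := fun i => a i / 2 ^ (B i - kk i - 1) + 1
  let S : ℕ → ℝ := fun i => ∑ j ∈ range i, if (ρ j).isSome then ((1 : ℝ) / 2) ^ kk j else 0
  have hB : ∀ i j, j ≤ i → kk j + 1 ≤ B i := fun i j h => Nat.succ_le_succ
    (List.le_sum_of_mem (List.mem_map_of_mem (List.mem_range.2 (by omega))))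
  have ha : ∀ i, (a i : ℝ) = S i * 2 ^ B i := fun i => by
    simp only [a, S, sum_mul]
    rw [← List.sum_toFinset _ List.nodup_range, List.toFinset_range, Nat.cast_sum]
    refine sum_congr rfl fun j hj => ?_
    cases (ρ j).isSome
    · simp
    · obtain ⟨d, hd⟩ := Nat.exists_eq_add_of_le (Nat.le_of_succ_le (hB i j (mem_range.1 hj).le))
      simp [hd, pow_add]
  have Sm : Monotone S := monotone_nat_of_le_succ fun i => by
    simp only [S, sum_range_succ]; split_ifs <;> simp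
  have S1 : ∀ i, S i ≤ 1 := fun i => by
    let T := (range i).filter fun j => (ρ j).isSome
    have h2 : ∀ j ∈ T, ρ j = some ((ρ j).getD (0, [])) := fun j hj => by
      have := (mem_filter.1 hj).2
      cases hr : ρ j <;> simp_all
    have := hb (T.image fun j => (ρ j).getD (0, [])) fun q hq => by
      obtain ⟨j, hj, rfl⟩ := mem_image.1 hq
      exact (e _).2 ⟨j, h2 j hj⟩
    rw [sum_image fun a ha b hb hab => inj a b _ (h2 a ha) (by rw [h2 b hb]; exact congrArg some hab.symm)] at this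
    refine le_trans (le_of_eq ?_) this
    simp only [S, T, sum_filter]
    refine sum_congr rfl fun j _ => ?_
    cases hr : ρ j <;> simp [kk, hr]
  have hc : ∀ i k x, ρ i = some (k, x) → S i < cd i * (1 / 2) ^ (k + 1) ∧
      ((cd i : ℝ) + 1) * (1 / 2) ^ (k + 1) ≤ S (i + 1) := fun i k x h => by
    have hk : kk i = k := by simp [kk, h]
    obtain ⟨d, hd⟩ := Nat.exists_eq_add_of_le (hB i i le_rfl)
    have h1 : cd i = a i / 2 ^ d + 1 := by simp only [cd]; rw [hd]; congr 3; omega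
    have h2 : (a i : ℝ) < (a i / 2 ^ d + 1 : ℕ) * 2 ^ d := by
      exact_mod_cast (mul_comm _ _).trans_gt (Nat.lt_mul_div_succ (a i) (Nat.two_pow_pos d))
    have h3 : ((a i / 2 ^ d : ℕ) : ℝ) * 2 ^ d ≤ a i := by exact_mod_cast Nat.div_mul_le_self _ _
    have h4 : S (i + 1) = S i + (1 / 2) ^ k := by simp [S, sum_range_succ, h, hk]
    have h5 := ha i
    rw [hd, hk, pow_add] at h5
    rw [h4, h1, one_div, inv_pow, inv_pow, ← div_eq_mul_inv, ← div_eq_mul_inv,
      lt_div_iff₀ (by positivity), div_le_iff₀ (by positivity), add_mul, pow_succ,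
      ← mul_assoc _ (2 ^ k) 2, ← mul_assoc _ (2 ^ k) 2, inv_mul_cancel₀ (by positivity)]
    rw [pow_succ] at h5
    push_cast at h2 ⊢
    have : (0 : ℝ) < 2 ^ d := by positivity
    constructor <;> nlinarith
  have sep : ∀ (p q : List Bool) i j x y, ρ i = some (p.length - 1, x) → 0 < p.length →
      cd i = bv p → ρ j = some (q.length - 1, y) → 0 < q.length → cd j = bv q → p <+: q →
      i = j := by
    rintro p _ i j x y a1 a2 a3 b1 b2 b3 ⟨t, rfl⟩
    have c1 := hc _ _ _ a1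
    have c2 := hc _ _ _ b1
    have c3 := bv_app p t
    rw [Nat.sub_add_cancel a2, a3] at c1
    rw [Nat.sub_add_cancel b2, b3] at c2
    have : (0 : ℝ) < (1 / 2) ^ (p ++ t).length := by positivity
    rcases lt_trichotomy i j with h | h | h
    · have := Sm (Nat.succ_le_of_lt h); nlinarith [c1.2, c2.1, c3.2]
    · exact h
    · have := Sm (Nat.succ_le_of_lt h); nlinarith [c1.1, c2.2, c3.1]
  have key : ∀ (p : List Bool) i z, ((ρ i).bind fun r =>
      bif r.1 + 1 == p.length && cd i == bv p then some r.2 else none) = some z ↔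
      ρ i = some (p.length - 1, z) ∧ 0 < p.length ∧ cd i = bv p := fun p i z => by
    simp only [Option.bind_eq_some_iff, Bool.cond_eq_ite, Option.ite_none_right_eq_some,
      Bool.and_eq_true, beq_iff_eq, Option.some.injEq, Prod.exists]
    constructor
    · rintro ⟨k, _, a1, ⟨a2, a3⟩, rfl⟩; exact ⟨by rw [a1, ← a2]; rfl, by omega, a3⟩
    · rintro ⟨a1, a2, a3⟩; exact ⟨_, _, a1, ⟨by omega, a3⟩, rfl⟩
  obtain ⟨M, hM, eM⟩ := search (F := fun q : List Bool × ℕ => (ρ q.2).bind fun r =>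
      bif r.1 + 1 == q.1.length && cd q.2 == bv q.1 then some r.2 else none)
    (by simp only [cd, a, B, kk]; fun_prop) fun p i j z z' hi hj => by
      obtain ⟨a1, a2, a3⟩ := (key _ _ _).1 hi
      obtain ⟨b1, b2, b3⟩ := (key _ _ _).1 hj
      obtain rfl := sep p p i j _ _ a1 a2 a3 b1 b2 b3 List.prefix_rfl
      simpa [a1] using b1
  refine ⟨M, hM, fun p q hp hq h => ?_, fun k x h => ?_⟩
  · obtain ⟨i, hi⟩ := (eM _ _).1 (Part.get_mem hp)
    obtain ⟨j, hj⟩ := (eM _ _).1 (Part.get_mem hq)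
    obtain ⟨a1, a2, a3⟩ := (key _ _ _).1 hi
    obtain ⟨b1, b2, b3⟩ := (key _ _ _).1 hj
    obtain rfl := sep p q i j _ _ a1 a2 a3 b1 b2 b3 h
    rw [a1, Option.some.injEq, Prod.mk.injEq] at b1
    simp only at a2 b1 b2
    exact h.eq_of_length (by omega)
  · obtain ⟨i, hi⟩ := (e _).1 h
    have h1 := (hc _ _ _ hi).2.trans (S1 _)
    rw [one_div, inv_pow, ← div_eq_mul_inv, div_le_one (by positivity)] at h1
    obtain ⟨p, h2, h3⟩ := bv_surj (k + 1) (cd i) (by exact_mod_cast h1)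
    exact ⟨p, h2, (eM _ _).2 ⟨i, (key _ _ _).2 ⟨by simpa [h2] using hi, by simp [h2], h3.symm⟩⟩⟩

theorem kraft (S : Finset (List Bool)) (h : ∀ p ∈ S, ∀ q ∈ S, p <+: q → p = q) :
    ∑ p ∈ S, ((1 : ℝ) / 2) ^ p.length ≤ 1 := by
  have h1 : P (⋃ p ∈ S, cyl p) ≤ 1 := MeasureTheory.prob_le_one
  rw [MeasureTheory.measure_biUnion_finset (fun a ha b hb hab => disj_cyl
    (fun e => hab (h a ha b hb e)) fun e => hab (h b hb a ha e).symm) fun _ _ => meas_cyl _] at h1
  have := ENNReal.toReal_mono (by simp) h1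
  rw [ENNReal.toReal_sum fun _ _ => by simp] at this
  simpa [P_cyl] using this

theorem share {ι : Type} {R : ℕ → ι → Prop} {w : ι → ℝ} (hw : ∀ q, 0 ≤ w q)
    (h : ∀ c (S : Finset ι), (∀ q ∈ S, R c q) → ∑ q ∈ S, w q ≤ (1 / 2) ^ (c + 1))
    (S : Finset ι) (hS : ∀ q ∈ S, ∃ c, R c q) : ∑ q ∈ S, w q ≤ 1 := by
  choose! f hf using hS
  rw [← sum_fiberwise_of_maps_to (g := f) (t := range (S.sup f + 1))
    fun q hq => mem_range.2 (Nat.lt_succ_of_le (le_sup hq))]
  refine le_trans (sum_le_sum fun c _ => h c _ fun q hq => ?_) ?_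
  · obtain ⟨h1, rfl⟩ := mem_filter.1 hq; exact hf q h1
  · simp only [pow_succ, ← sum_mul]
    linarith [sum_geometric_two_le (S.sup f + 1)]

theorem process {σ : Type} [Primcodable σ] {X Y : ℕ × σ → Prop} (hX : REPred X) (hY : REPred Y)
    {f g : ℕ × σ → σ} (hf : CI ∅ f) (hg : CI ∅ g) (i0 : σ) (nf : ∀ q, f q ≠ q.2)
    (ng : ∀ q, g q ≠ q.2) : ∃ st : ℕ × ℕ → σ, CI ∅ st ∧ (∀ c, st (c, 0) = i0) ∧
      (∀ c s, (X (c, st (c, s)) ∧ st (c, s + 1) = f (c, st (c, s))) ∨
        (Y (c, st (c, s)) ∧ st (c, s + 1) = g (c, st (c, s))) ∨ st (c, s + 1) = st (c, s)) ∧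
      ∀ c s0, (∀ s, s0 ≤ s → st (c, s) = st (c, s0)) →
        ¬ X (c, st (c, s0)) ∧ ¬ Y (c, st (c, s0)) := by
  obtain ⟨D, hD, mD, eD⟩ := re_stage hX
  obtain ⟨D', hD', mD', eD'⟩ := re_stage hY
  obtain ⟨F, hF, eF⟩ : ∃ F : (ℕ × σ) × ℕ → Bool, CI ∅ F ∧ ∀ a t, D a t = F (a, t) :=
    ⟨_, hD, fun _ _ => rfl⟩
  obtain ⟨F', hF', eF'⟩ : ∃ F : (ℕ × σ) × ℕ → Bool, CI ∅ F ∧ ∀ a t, D' a t = F (a, t) :=
    ⟨_, hD', fun _ _ => rfl⟩
  let h : ℕ → ℕ → σ → σ := fun c s p =>
    bif F ((c, p), s) then f (c, p) else bif F' ((c, p), s) then g (c, p) else p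
  let st : ℕ → ℕ → σ := fun c s => Nat.rec i0 (h c) s
  have hs : ∀ c s, st c (s + 1) = h c s (st c s) := fun _ _ => rfl
  refine ⟨fun q => st q.1 q.2, CI.of_rec (g := fun _ => i0) (h := h) (by fun_prop)
    (by simp only [h]; fun_prop) (fun _ => rfl) hs, fun _ => rfl, fun c s => ?_,
    fun c s0 hc => ?_⟩
  · simp only [hs, h, ← eF, ← eF']
    cases a : D (c, st c s) s
    · cases b : D' (c, st c s) s
      · simp
      · exact Or.inr (Or.inl ⟨(eD' _).2 ⟨s, b⟩, rfl⟩)
    · exact Or.inl ⟨(eD _).2 ⟨s, a⟩, rfl⟩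
  · simp only at hc ⊢
    have k : ∀ s, s0 ≤ s → D (c, st c s0) s = false ∧ D' (c, st c s0) s = false := fun s h1 => by
      have := hc (s + 1) (by omega)
      simp only [hs, hc s h1, h, ← eF, ← eF'] at this
      cases a : D (c, st c s0) s
      · cases b : D' (c, st c s0) s
        · simp
        · exact absurd (by simpa [a, b] using this) (ng (c, st c s0))
      · exact absurd (by simpa [a] using this) (nf (c, st c s0))
    constructor
    · intro hx
      obtain ⟨s, h1⟩ := (eD _).1 hx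
      simpa [mD _ _ _ (le_max_right s0 s) h1] using (k _ (le_max_left s0 s)).1
    · intro hx
      obtain ⟨s, h1⟩ := (eD' _).1 hx
      simpa [mD' _ _ _ (le_max_right s0 s) h1] using (k _ (le_max_left s0 s)).2

theorem stuck {σ : Type} {st : ℕ → σ} {rk : σ → ℕ} {b : ℕ} (hb : ∀ s, rk (st s) ≤ b)
    (h : ∀ s, rk (st s) < rk (st (s + 1)) ∨ st (s + 1) = st s) :
    ∃ s0, ∀ s, s0 ≤ s → st s = st s0 := by
  obtain ⟨s0, hs0⟩ := (Set.range_nonempty fun s => rk (st s)).csSup_mem
    ((Set.finite_Iic _).subset (Set.range_subset_iff.2 hb))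
  have hm : ∀ s, rk (st s) ≤ rk (st s0) := fun s =>
    le_of_le_of_eq (le_csSup ⟨_, Set.forall_mem_range.2 hb⟩ ⟨s, rfl⟩) hs0.symm
  refine ⟨s0, fun s hs => ?_⟩
  induction s, hs using Nat.le_induction with
  | base => rfl
  | succ s hs ih =>
    rcases h s with h | h
    · rw [ih] at h; exact absurd (hm _) (not_le.2 h)
    · rw [h, ih]

end Pool.Agent.H37.Kc
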