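import Pool.Agent.H37.KiDefs

/-! Submodularity of entropy and the Zhang-Yeung inequality. -/

set_option autoImplicit false

namespace Pool.Agent.H37.Ki

open Finset Classical

variable {Ω ι β : Type} [Fintype Ω]

/-- agreement on `S` -/
def Ag (ξ : Ω → ι → β) (S : Finset ι) (a b : Ω) : Prop := ∀ i ∈ S, ξ a i = ξ b i

noncomputable def ms (p : Ω → ℝ) (ξ : Ω → ι → β) (S : Finset ι) (a : Ω) : ℝ :=
  ∑ b, if Ag ξ S b a then p b else 0

noncomputable def HH (p : Ω → ℝ) (ξ : Ω → ι → β) (S : Finset ι) : ℝ :=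
  -∑ a, p a * Real.log (ms p ξ S a)

variable {p : Ω → ℝ} {ξ : Ω → ι → β}

omit [Fintype Ω] in
theorem Ag.symm {S : Finset ι} {a b : Ω} (h : Ag ξ S a b) : Ag ξ S b a :=
  fun i hi => (h i hi).symm

omit [Fintype Ω] in
theorem Ag.trans {S : Finset ι} {a b c : Ω} (h : Ag ξ S a b) (h' : Ag ξ S b c) : Ag ξ S a c :=
  fun i hi => (h i hi).trans (h' i hi)

theorem ms_congr {S : Finset ι} {a b : Ω} (h : Ag ξ S a b) : ms p ξ S a = ms p ξ S b :=
  sum_congr rfl fun _ _ => if_congr ⟨fun e => e.trans h, fun e => e.trans h.symm⟩ rfl rfl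

theorem le_ms (hp : ∀ a, 0 ≤ p a) (S : Finset ι) (a : Ω) : p a ≤ ms p ξ S a := by
  refine le_trans (le_of_eq ?_) (single_le_sum (f := fun b => if Ag ξ S b a then p b else 0)
    (fun b _ => by split_ifs <;> simp [hp]) (mem_univ a))
  exact (if_pos fun _ _ => rfl).symm

theorem ms_nonneg (hp : ∀ a, 0 ≤ p a) (S : Finset ι) (a : Ω) : 0 ≤ ms p ξ S a :=
  (hp a).trans (le_ms hp S a)

theorem cls (hp : ∀ a, 0 ≤ p a) (S : Finset ι) (Q : Ω → Prop) [DecidablePred Q]
    (hQ : ∀ a b, Q a → Q b → Ag ξ S a b) : ∑ a, (if Q a then p a / ms p ξ S a else 0) ≤ 1 := by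
  by_cases h : ∃ a, Q a
  · obtain ⟨a0, h0⟩ := h
    refine le_trans (sum_le_sum (g := fun a => (if Ag ξ S a a0 then p a else 0) / ms p ξ S a0)
      fun a _ => ?_) ?_
    · split_ifs with h1 h2 h3
      · rw [ms_congr h2]
      · exact absurd (hQ a a0 h1 h0) h2
      · exact div_nonneg (hp a) (ms_nonneg hp _ _)
      · simp
    · rw [← sum_div]; exact div_self_le_one _
  · push Not at h; simp [h]

theorem submod [DecidableEq ι] (hp : ∀ a, 0 ≤ p a) (h1 : ∑ a, p a = 1) (S T U V : Finset ι)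
    (hU : U = S ∪ T) (hV : V = S ∩ T) : HH p ξ U + HH p ξ V ≤ HH p ξ S + HH p ξ T := by
  have key : ∑ w, p w * (ms p ξ S w * ms p ξ T w / (ms p ξ U w * ms p ξ V w)) ≤ 1 := by
    calc _ = ∑ w, ∑ a, ∑ b, (if Ag ξ V b a then p a * p b / ms p ξ V a else 0) *
          if Ag ξ S a w ∧ Ag ξ T b w then p w / ms p ξ U w else 0 := by
          refine sum_congr rfl fun w _ => ?_
          rw [ms, ms, sum_mul_sum, sum_div, mul_sum]
          refine sum_congr rfl fun a _ => ?_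
          rw [sum_div, mul_sum]
          refine sum_congr rfl fun b _ => ?_
          by_cases ha : Ag ξ S a w
          · by_cases hb : Ag ξ T b w
            · have e1 : Ag ξ V a w := fun i hi => ha i (mem_inter.1 (hV ▸ hi)).1
              have e2 : Ag ξ V b w := fun i hi => hb i (mem_inter.1 (hV ▸ hi)).2
              simp only [ha, hb, e2.trans e1.symm, if_true, and_self, ms_congr e1]
              ring
            · simp [hb]
          · simp [ha]
      _ = ∑ a, ∑ b, (if Ag ξ V b a then p a * p b / ms p ξ V a else 0) *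
          ∑ w, if Ag ξ S a w ∧ Ag ξ T b w then p w / ms p ξ U w else 0 := by
          rw [sum_comm]
          refine sum_congr rfl fun a _ => ?_
          rw [sum_comm]
          simp only [mul_sum]
      _ ≤ ∑ a, ∑ b, (if Ag ξ V b a then p a * p b / ms p ξ V a else 0) := by
          refine sum_le_sum fun a _ => sum_le_sum fun b _ => mul_le_of_le_one_right ?_
            (cls hp U _ fun w w' h h' i hi => ?_)
          · split_ifs
            · exact div_nonneg (mul_nonneg (hp a) (hp b)) (ms_nonneg hp _ _)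
            · exact le_rfl
          · rcases mem_union.1 (hU ▸ hi) with hi | hi
            · exact (h.1.symm.trans h'.1) i hi
            · exact (h.2.symm.trans h'.2) i hi
      _ ≤ ∑ a, p a := by
          refine sum_le_sum fun a _ => ?_
          have : ∑ b, (if Ag ξ V b a then p a * p b / ms p ξ V a else 0) =
              p a * (ms p ξ V a / ms p ξ V a) := by
            conv_rhs => rw [div_eq_mul_inv]; enter [2, 1]; rw [ms]
            rw [sum_mul, mul_sum]
            refine sum_congr rfl fun b _ => ?_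
            split_ifs <;> ring
          rw [this]
          exact mul_le_of_le_one_right (hp a) (div_self_le_one _)
      _ = 1 := h1
  have : ∑ w, (p w * Real.log (ms p ξ S w) + p w * Real.log (ms p ξ T w) -
      p w * Real.log (ms p ξ U w) - p w * Real.log (ms p ξ V w)) ≤
      ∑ w, (p w * (ms p ξ S w * ms p ξ T w / (ms p ξ U w * ms p ξ V w)) - p w) := by
    refine sum_le_sum fun w _ => ?_
    rcases (hp w).eq_or_lt with h | h
    · simp [← h]
    have pos : ∀ A, 0 < ms p ξ A w := fun A => h.trans_le (le_ms hp A w)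
    have := Real.log_le_sub_one_of_pos
      (div_pos (mul_pos (pos S) (pos T)) (mul_pos (pos U) (pos V)))
    rw [Real.log_div (mul_pos (pos S) (pos T)).ne' (mul_pos (pos U) (pos V)).ne',
      Real.log_mul (pos S).ne' (pos T).ne', Real.log_mul (pos U).ne' (pos V).ne'] at this
    nlinarith
  simp only [sum_sub_distrib, sum_add_distrib] at this
  unfold HH
  linarith

section copy

variable (p) (ξ : Ω → Fin 4 → β)

/-- conditionally independent coupling over the last two variables -/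
noncomputable def cp (z : Ω × Ω) : ℝ :=
  if Ag ξ {2, 3} z.2 z.1 then p z.1 * p z.2 / ms p ξ {2, 3} z.1 else 0

def cv (z : Ω × Ω) : Fin 5 → β := ![ξ z.1 0, ξ z.1 1, ξ z.1 2, ξ z.1 3, ξ z.2 0]

variable {p}

theorem cp_nonneg (hp : ∀ a, 0 ≤ p a) (z : Ω × Ω) : 0 ≤ cp p ξ z := by
  unfold cp; split_ifs
  · exact div_nonneg (mul_nonneg (hp _) (hp _)) (ms_nonneg hp _ _)
  · exact le_rfl

theorem cp_symm (a b : Ω) : cp p ξ (a, b) = cp p ξ (b, a) := by
  unfold cp
  by_cases h : Ag ξ {2, 3} b a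
  · simp only [h, h.symm, if_true, ms_congr h, mul_comm]
  · rw [if_neg h, if_neg fun h' => h h'.symm]

theorem cp_fst (hp : ∀ a, 0 ≤ p a) (a : Ω) : ∑ b, cp p ξ (a, b) = p a := by
  have : ∑ b, cp p ξ (a, b) = p a * (ms p ξ {2, 3} a / ms p ξ {2, 3} a) := by
    conv_rhs => rw [div_eq_mul_inv]; enter [2, 1]; rw [ms]
    rw [sum_mul, mul_sum]
    refine sum_congr rfl fun b _ => ?_
    unfold cp
    split_ifs <;> ring
  rw [this]
  rcases (hp a).eq_or_lt with h | h
  · simp [← h]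
  · rw [div_self (h.trans_le (le_ms hp _ a)).ne', mul_one]

theorem sum_fst (hp : ∀ a, 0 ≤ p a) (g : Ω → ℝ) :
    ∑ z : Ω × Ω, cp p ξ z * g z.1 = ∑ a, p a * g a := by
  simp only [Fintype.sum_prod_type, ← sum_mul, cp_fst ξ hp]

theorem sum_snd (hp : ∀ a, 0 ≤ p a) (g : Ω → ℝ) :
    ∑ z : Ω × Ω, cp p ξ z * g z.2 = ∑ a, p a * g a := by
  rw [← sum_fst ξ hp, Fintype.sum_prod_type, Fintype.sum_prod_type, sum_comm]
  exact sum_congr rfl fun a _ => sum_congr rfl fun b _ => by rw [cp_symm]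

theorem HH_fst (hp : ∀ a, 0 ≤ p a) (S : Finset (Fin 4)) (S' : Finset (Fin 5))
    (h : ∀ z z', Ag (cv ξ) S' z z' ↔ Ag ξ S z.1 z'.1) : HH (cp p ξ) (cv ξ) S' = HH p ξ S := by
  rw [HH, HH, ← sum_fst ξ hp]
  congr 1
  refine sum_congr rfl fun z _ => ?_
  have := sum_fst ξ hp fun a => if Ag ξ S a z.1 then 1 else 0
  simp only [mul_ite, mul_one, mul_zero] at this
  simp only [ms, h, this]

theorem HH_snd (hp : ∀ a, 0 ≤ p a) (S : Finset (Fin 4)) (S' : Finset (Fin 5))
    (h : ∀ z z' : Ω × Ω, Ag ξ {2, 3} z.2 z.1 → Ag ξ {2, 3} z'.2 z'.1 →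
      (Ag (cv ξ) S' z z' ↔ Ag ξ S z.2 z'.2)) : HH (cp p ξ) (cv ξ) S' = HH p ξ S := by
  rw [HH, HH, ← sum_snd ξ hp]
  congr 1
  refine sum_congr rfl fun z _ => ?_
  by_cases hz : Ag ξ {2, 3} z.2 z.1
  · have := sum_snd ξ hp fun a => if Ag ξ S a z.2 then 1 else 0
    simp only [mul_ite, mul_one, mul_zero] at this
    simp only [ms, ← this]
    congr 2
    refine sum_congr rfl fun z' _ => ?_
    by_cases hz' : Ag ξ {2, 3} z'.2 z'.1
    · simp only [h z' z hz' hz]
    · simp [cp, hz']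
  · simp [cp, hz]

theorem HH_all (hp : ∀ a, 0 ≤ p a) : HH (cp p ξ) (cv ξ) {0, 1, 2, 3, 4} =
    HH p ξ {0, 1, 2, 3} + HH p ξ {0, 2, 3} - HH p ξ {2, 3} := by
  simp only [HH]
  rw [← sum_fst ξ hp, ← sum_snd ξ hp, ← sum_fst ξ hp fun a => Real.log (ms p ξ {2, 3} a)]
  have : ∀ z : Ω × Ω, cp p ξ z * Real.log (ms (cp p ξ) (cv ξ) {0, 1, 2, 3, 4} z) =
      cp p ξ z * Real.log (ms p ξ {0, 1, 2, 3} z.1) + cp p ξ z * Real.log (ms p ξ {0, 2, 3} z.2) -
        cp p ξ z * Real.log (ms p ξ {2, 3} z.1) := fun z => by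
    by_cases h0 : cp p ξ z = 0
    · simp [h0]
    have hz : Ag ξ {2, 3} z.2 z.1 := by by_contra h; simp [cp, h] at h0
    simp only [cp, hz, if_true, div_eq_zero_iff, mul_eq_zero, not_or] at h0
    have p1 : ∀ A, ms p ξ A z.1 ≠ 0 := fun A =>
      (((hp _).lt_of_ne' h0.1.1).trans_le (le_ms hp A _)).ne'
    have p2 : ∀ A, ms p ξ A z.2 ≠ 0 := fun A =>
      (((hp _).lt_of_ne' h0.1.2).trans_le (le_ms hp A _)).ne'
    have : ms (cp p ξ) (cv ξ) {0, 1, 2, 3, 4} z =
        ms p ξ {0, 1, 2, 3} z.1 * ms p ξ {0, 2, 3} z.2 / ms p ξ {2, 3} z.1 := by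
      rw [ms, ms, ms, sum_mul_sum, sum_div, Fintype.sum_prod_type]
      refine sum_congr rfl fun a _ => ?_
      rw [sum_div]
      refine sum_congr rfl fun b _ => ?_
      by_cases ha : Ag ξ {0, 1, 2, 3} a z.1
      · have e : Ag ξ {2, 3} a z.1 := fun i hi => ha i (by revert i; decide)
        simp only [cp, ms_congr e, ha, if_true]
        simp only [Ag, cv, mem_insert, mem_singleton, forall_eq_or_imp, forall_eq] at *
        by_cases h1 : ξ b 0 = ξ z.2 0 <;> by_cases h2 : ξ b 2 = ξ z.2 2 <;>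
          by_cases h3 : ξ b 3 = ξ z.2 3 <;> simp_all
      · rw [if_neg ha, if_neg]
        · simp
        · simp only [Ag, cv, mem_insert, mem_singleton, forall_eq_or_imp, forall_eq] at *
          simp; tauto
    rw [this, Real.log_div (mul_ne_zero (p1 _) (p2 _)) (p1 _), Real.log_mul (p1 _) (p2 _)]
    ring
  simp only [this, sum_sub_distrib, sum_add_distrib]
  ring

theorem zy (hp : ∀ a, 0 ≤ p a) (h1 : ∑ a, p a = 1) :
    HH p ξ {0} + 2 * HH p ξ {2} + 2 * HH p ξ {3} + HH p ξ {0, 1} + 4 * HH p ξ {0, 2, 3} +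
      HH p ξ {1, 2, 3} ≤ 3 * HH p ξ {2, 3} + 3 * HH p ξ {0, 2} + 3 * HH p ξ {0, 3} +
      HH p ξ {1, 2} + HH p ξ {1, 3} := by
  have h2 : ∑ z, cp p ξ z = 1 := by simpa [h1] using sum_fst ξ hp fun _ => 1
  have s := submod (ξ := cv ξ) (cp_nonneg ξ hp) h2
  have s1 := s {0, 1, 3, 2} {0, 1, 3, 4} {0, 1, 2, 3, 4} {0, 1, 3} (by decide) (by decide)
  have s2 := s {0, 1, 2, 3} {1, 2, 3, 4} {0, 1, 2, 3, 4} {1, 2, 3} (by decide) (by decide)
  have s3 := s {1, 2, 4} {1, 3, 4} {1, 2, 3, 4} {1, 4} (by decide) (by decide)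
  have s4 := s {0, 1, 2, 3} {0, 2, 3, 4} {0, 1, 2, 3, 4} {0, 2, 3} (by decide) (by decide)
  have s5 := s {0, 3} {3, 4} {0, 3, 4} {3} (by decide) (by decide)
  have s6 := s {0, 2, 4} {0, 3, 4} {0, 2, 3, 4} {0, 4} (by decide) (by decide)
  have s7 := s {0, 2} {2, 4} {0, 2, 4} {2} (by decide) (by decide)
  have s8 := s {0, 1, 3} {0, 1, 4} {0, 1, 3, 4} {0, 1} (by decide) (by decide)
  have s9 := s {1, 2} {2, 4} {1, 2, 4} {2} (by decide) (by decide)
  have s10 := s {1, 3} {3, 4} {1, 3, 4} {3} (by decide) (by decide)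
  have s11 := s {0, 4} {1, 4} {0, 1, 4} {4} (by decide) (by decide)
  rw [show ({0, 1, 3, 2} : Finset (Fin 5)) = {0, 1, 2, 3} by decide] at s1
  have e0 := HH_all ξ hp
  have e1 := HH_snd ξ hp {0} {4} (by simp [Ag, cv])
  have e2 := HH_snd ξ hp {0, 2} {2, 4} (by simp +contextual [Ag, cv, and_comm, ← eq_comm])
  have e3 := HH_snd ξ hp {0, 3} {3, 4} (by simp +contextual [Ag, cv, and_comm, ← eq_comm])
  have f1 := HH_fst ξ hp {0, 1, 2, 3} {0, 1, 2, 3} (by simp [Ag, cv])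
  have f2 := HH_fst ξ hp {1, 2, 3} {1, 2, 3} (by simp [Ag, cv])
  have f3 := HH_fst ξ hp {0, 2, 3} {0, 2, 3} (by simp [Ag, cv])
  have f4 := HH_fst ξ hp {0, 3} {0, 3} (by simp [Ag, cv])
  have f5 := HH_fst ξ hp {0, 2} {0, 2} (by simp [Ag, cv])
  have f6 := HH_fst ξ hp {1, 3} {1, 3} (by simp [Ag, cv])
  have f7 := HH_fst ξ hp {1, 2} {1, 2} (by simp [Ag, cv])
  have f8 := HH_fst ξ hp {0, 1} {0, 1} (by simp [Ag, cv])
  have f9 := HH_fst ξ hp {2} {2} (by simp [Ag, cv])
  have f10 := HH_fst ξ hp {3} {3} (by simp [Ag, cv])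
  linarith

end copy

theorem sub_eq {n : ℕ} {x y : Fin n → β} {S : Finset (Fin n)} :
    sub x S = sub y S ↔ ∀ i ∈ S, x i = y i := by
  simp [sub, List.map_inj_left]

theorem ent_eq {m n : ℕ} (p : Fin m → ℝ) (ξ : Fin m → Fin n → ℕ) (S : Finset (Fin n)) :
    ent p ξ S = HH p ξ S := by
  rw [ent, HH, ← sum_neg_distrib, ← sum_fiberwise_of_maps_to (s := univ)
    (g := fun ω => sub (ξ ω) S) fun ω _ => mem_image_of_mem _ (mem_univ ω)]
  refine sum_congr rfl fun y _ => ?_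
  rw [Real.negMulLog, neg_mul, sum_mul, ← sum_neg_distrib, sum_filter]
  refine sum_congr rfl fun ω _ => ?_
  split_ifs with h
  · subst h
    simp only [ms, Ag, sub_eq]
    congr!
  · simp

end Pool.Agent.H37.Ki
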