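import Pool.Agent.H37.Kc2
import Pool.Agent.H37.Ki1

/-! An online covering strategy: entropy inequalities transfer to prefix complexity with constant
precision. -/

set_option autoImplicit false

namespace Pool.Agent.H37.Ki

open Encodable Rnd Kc Classical

variable {X : Type} [Primcodable X]

theorem sum_swap {α β : Type} (l : List α) (m : List β) (g : α → β → ℝ) :
    (l.map fun a => (m.map fun b => g a b).sum).sum =
      (m.map fun b => (l.map fun a => g a b).sum).sum := by
  induction l with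
  | nil => simp
  | cons a l ih => simp [ih, List.sum_map_add]

theorem total {V : List Bool →. List Bool} (hV : Opt V) (v : List Bool) : ∃ n, LeC V v n := by
  obtain ⟨M, h1, h2, h3⟩ := kc (R := fun q => q.1 = encode q.2 + 1)
    (re_of_bool (fun q => q.1 == encode q.2 + 1) (by fun_prop) (by simp)) fun S hS => by
      have := Finset.sum_le_sum_of_subset_of_nonneg (s := S.image fun q => encode q.2)
        (t := Finset.range ((S.image fun q => encode q.2).sup id + 1))
        (f := fun i => ((1 : ℝ) / 2) ^ i)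
        (fun i hi => Finset.mem_range.2 (Nat.lt_succ_of_le (Finset.le_sup (f := id) hi)))
        fun _ _ _ => by positivity
      rw [Finset.sum_image fun a ha b hb e => Prod.ext (by rw [hS a ha, hS b hb, e])
        (encode_injective e)] at this
      rw [Finset.sum_congr rfl fun q hq => by rw [hS q hq, pow_succ], ← Finset.sum_mul]
      linarith [sum_geometric_two_le ((S.image fun q => encode q.2).sup id + 1)]
  obtain ⟨c, hc⟩ := hV.2.2 M h1 h2
  obtain ⟨p, -, hp⟩ := h3 (encode v + 1) v rfl
  exact ⟨_, hc p v hp⟩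

theorem re_sum {V : List Bool →. List Bool} (hV : Opt V) {f : ℕ × X → List Bool} (hf : CI ∅ f)
    (L : List ℕ) : REPred fun q : X × ℕ => (L.map fun S => cx V (f (S, q.1))).sum ≤ q.2 := by
  induction L with
  | nil => exact re_of_bool (fun _ => true) (by fun_prop) (by simp)
  | cons S L ih =>
    have a1 := REPred.comp' (re_LeC hV.1) (g := fun z : (X × ℕ) × ℕ => (f (S, z.1.1), z.2))
      (by fun_prop)
    have a2 := REPred.comp' ih (g := fun z : (X × ℕ) × ℕ => (z.1.1, z.1.2 - z.2)) (by fun_prop)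
    have a3 : REPred fun z : (X × ℕ) × ℕ => z.2 ≤ z.1.2 :=
      re_of_bool (fun z => decide (z.2 ≤ z.1.2)) (by fun_prop) (by simp)
    refine (re_ex (re_and a1 (re_and a2 a3))).of_eq fun q => ?_
    simp only [List.map_cons, List.sum_cons]
    constructor
    · rintro ⟨n, h1, h2, h3⟩; have := h1.le; omega
    · intro h
      obtain ⟨y, y1, y2⟩ := (total hV (f (S, q.1))).choose_spec.ex
      exact ⟨cx V (f (S, q.1)), ⟨y, y1.le, y2⟩, by omega, by omega⟩

theorem geo (A : Finset ℕ) (g : ℝ) (h0 : 0 ≤ g) (h : ∀ k ∈ A, ((1 : ℝ) / 2) ^ k ≤ g) :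
    ∑ k ∈ A, ((1 : ℝ) / 2) ^ k ≤ 2 * g := by
  rcases A.eq_empty_or_nonempty with rfl | hA
  · simpa using h0
  have h1 : ∀ k ∈ A, A.min' hA ≤ k := fun k hk => A.min'_le k hk
  refine le_trans (Finset.sum_le_sum_of_subset_of_nonneg
    (t := Finset.Ico (A.min' hA) (A.min' hA + (A.sup id + 1))) (fun k hk => Finset.mem_Ico.2
      ⟨h1 k hk, by have : k ≤ A.sup id := Finset.le_sup (f := id) hk; omega⟩)
    fun _ _ _ => by positivity) ?_
  rw [Finset.sum_Ico_eq_sum_range, Nat.add_sub_cancel_left]
  simp only [pow_add, ← Finset.mul_sum]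
  nlinarith [sum_geometric_two_le (A.sup id + 1), h _ (A.min'_mem hA),
    pow_pos (show (0 : ℝ) < 1 / 2 by norm_num) (A.min' hA)]

section strat
variable (f : ℕ × X → List Bool)

noncomputable def wt (e : X × ℕ) : ℝ := (1 / 2) ^ e.2

theorem wt_pos (e : X × ℕ) : 0 < wt e := by unfold wt; positivity

noncomputable def YY (h : List (X × ℕ)) : ℝ := (h.map wt).sum

noncomputable def Ml (h : List (X × ℕ)) (T : ℕ) (v : List Bool) : ℝ :=
  (h.map fun e => if f (T, e.1) = v then wt e else 0).sum

noncomputable def SL (h : List (X × ℕ)) (T : ℕ) : ℝ :=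
  (h.map fun e => wt e * Real.log (Ml f h T (f (T, e.1)))).sum

theorem Ml_nonneg (h : List (X × ℕ)) (T : ℕ) (v : List Bool) : 0 ≤ Ml f h T v :=
  List.sum_nonneg fun x hx => by
    obtain ⟨e, -, rfl⟩ := List.mem_map.1 hx
    split_ifs <;> simp [(wt_pos e).le]

theorem Ml_le (h : List (X × ℕ)) (T : ℕ) (v : List Bool) : Ml f h T v ≤ YY h :=
  List.sum_le_sum fun e _ => by split_ifs <;> simp [(wt_pos e).le]

theorem Ml_cons (e : X × ℕ) (h : List (X × ℕ)) (T : ℕ) (v : List Bool) :
    Ml f (e :: h) T v = (if f (T, e.1) = v then wt e else 0) + Ml f h T v := by simp [Ml]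

theorem Ml_pos {h : List (X × ℕ)} {e : X × ℕ} (he : e ∈ h) (T : ℕ) :
    0 < Ml f h T (f (T, e.1)) := by
  refine (wt_pos e).trans_le (le_of_eq_of_le (if_pos rfl).symm (List.single_le_sum ?_ _
    (List.mem_map_of_mem (f := fun e' => if f (T, e'.1) = f (T, e.1) then wt e' else 0) he)))
  intro x hx
  obtain ⟨e, -, rfl⟩ := List.mem_map.1 hx
  split_ifs <;> simp [(wt_pos e).le]

theorem SL_cons (e : X × ℕ) (h : List (X × ℕ)) (T : ℕ) : SL f (e :: h) T ≤
    SL f h T + wt e * Real.log (Ml f h T (f (T, e.1)) + wt e) + wt e := by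
  have h1 : (h.map fun e' => wt e' * Real.log (Ml f (e :: h) T (f (T, e'.1)))).sum ≤
      (h.map fun e' => wt e' * Real.log (Ml f h T (f (T, e'.1))) +
        (wt e / Ml f h T (f (T, e.1))) * if f (T, e'.1) = f (T, e.1) then wt e' else 0).sum :=
    List.sum_le_sum fun e' he' => by
      rw [Ml_cons]
      by_cases hc : f (T, e'.1) = f (T, e.1)
      · have h0 := Ml_pos f he' T
        simp only [hc, if_true] at h0 ⊢
        have := Real.log_le_sub_one_of_pos (div_pos (add_pos (wt_pos e) h0) h0)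
        rw [Real.log_div (add_pos (wt_pos e) h0).ne' h0.ne', add_div, div_self h0.ne'] at this
        nlinarith [wt_pos e']
      · simp [hc, Ne.symm hc]
  rw [List.sum_map_add, List.sum_map_mul_left] at h1
  have h2 : wt e / Ml f h T (f (T, e.1)) * Ml f h T (f (T, e.1)) ≤ wt e := by
    rw [div_mul_comm]; exact mul_le_of_le_one_left (wt_pos e).le (div_self_le_one _)
  simp only [SL, List.map_cons, List.sum_cons]
  rw [Ml_cons f e h T (f (T, e.1)), if_pos rfl, add_comm (wt e)]
  unfold Ml at *
  linarith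

theorem sum_Ml (h : List (X × ℕ)) (T : ℕ) (A : Finset (List Bool)) (g : List Bool → ℝ) :
    ∑ v ∈ A, Ml f h T v * g v =
      (h.map fun e => if f (T, e.1) ∈ A then wt e * g (f (T, e.1)) else 0).sum := by
  induction h with
  | nil => simp [Ml]
  | cons e h ih =>
    simp only [Ml_cons, add_mul, Finset.sum_add_distrib, ih, List.map_cons, List.sum_cons, ite_mul,
      zero_mul, Finset.sum_ite_eq]

theorem gibbs {m : List Bool → ℝ} (m0 : ∀ v, 0 < m v) (m1 : ∀ A : Finset _, ∑ v ∈ A, m v ≤ 1)
    {h : List (X × ℕ)} (hY : 0 < YY h) (S : ℕ) :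
    (h.map fun e => wt e * Real.log (m (f (S, e.1)))).sum ≤ SL f h S - YY h * Real.log (YY h) := by
  let A := (h.map fun e => f (S, e.1)).toFinset
  have h1 := sum_Ml f h S A fun v => m v / Ml f h S v
  rw [List.map_congr_left fun e he => if_pos (List.mem_toFinset.2
    (List.mem_map_of_mem (f := fun e => f (S, e.1)) he))] at h1
  have h2 : ∑ v ∈ A, Ml f h S v * (m v / Ml f h S v) ≤ 1 :=
    le_trans (Finset.sum_le_sum fun v _ => by
      rw [mul_div_left_comm]; exact mul_le_of_le_one_right (m0 v).le (div_self_le_one _)) (m1 A)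
  have h3 : (h.map fun e => wt e * Real.log (m (f (S, e.1)))).sum ≤ (h.map fun e =>
      wt e * Real.log (Ml f h S (f (S, e.1))) + (-(Real.log (YY h) + 1) * wt e +
        YY h * (wt e * (m (f (S, e.1)) / Ml f h S (f (S, e.1)))))).sum :=
    List.sum_le_sum fun e he => by
      have h0 := Ml_pos f he S
      have := Real.log_le_sub_one_of_pos (mul_pos hY (div_pos (m0 (f (S, e.1))) h0))
      rw [Real.log_mul hY.ne' (div_pos (m0 _) h0).ne', Real.log_div (m0 _).ne' h0.ne'] at this
      nlinarith [wt_pos e]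
  rw [List.sum_map_add, List.sum_map_add, List.sum_map_mul_left, List.sum_map_mul_left, ← h1] at h3
  unfold SL
  have : (h.map wt).sum = YY h := rfl
  rw [this] at h3
  nlinarith

/-- integer form of the masses -/
def Nn (h : List (X × ℕ)) (D T : ℕ) (v : List Bool) : ℕ :=
  (h.map fun e => bif f (T, e.1) == v then 2 ^ (D - e.2) else 0).sum

theorem Nn_eq {h : List (X × ℕ)} {D : ℕ} (hD : (h.map Prod.snd).sum ≤ D) (T : ℕ) (v : List Bool) :
    (Nn f h D T v : ℝ) = 2 ^ D * Ml f h T v := by
  rw [Nn, Ml, Nat.cast_list_sum, List.map_map, ← List.sum_map_mul_left]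
  congr 1
  refine List.map_congr_left fun e he => ?_
  obtain ⟨d, rfl⟩ := Nat.exists_eq_add_of_le
    ((List.le_sum_of_mem (List.mem_map_of_mem he)).trans hD)
  by_cases hc : f (T, e.1) = v
  · simp only [Function.comp, hc, beq_self_eq_true, cond_true, if_true, wt, pow_add,
      Nat.add_sub_cancel_left, one_div, inv_pow]
    push_cast; field_simp
  · simp [hc, beq_eq_false_iff_ne.2 hc]

def ok (LN : List ℕ) (h : List (X × ℕ)) (x : X) (a : ℕ) : Bool :=
  decide ((LN.map fun T => Nn f h ((h.map Prod.snd).sum + (3 * LN.length + 1 + a)) T (f (T, x)) +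
    2 ^ (h.map Prod.snd).sum).foldr (· * ·) 1 * 2 ^ (2 * LN.length + 1 + a) ≤
    2 ^ (((h.map Prod.snd).sum + (3 * LN.length + 1 + a)) * LN.length))

theorem ok_iff (LN : List ℕ) (h : List (X × ℕ)) (x : X) (a : ℕ) : ok f LN h x a = true ↔
    (LN.map fun T => Real.log (Ml f h T (f (T, x)) + wt (x, 3 * LN.length + 1 + a))).sum ≤
      -((2 * LN.length + 1 + a) * Real.log 2) := by
  generalize hj : 3 * LN.length + 1 + a = j
  have pos : ∀ T, 0 < Ml f h T (f (T, x)) + wt (x, j) := fun T =>
    add_pos_of_nonneg_of_pos (Ml_nonneg _ _ _ _) (wt_pos _)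
  have key : ∀ L : List ℕ, (((L.map fun T => Nn f h ((h.map Prod.snd).sum + j) T (f (T, x)) +
      2 ^ (h.map Prod.snd).sum).foldr (· * ·) 1 : ℕ) : ℝ) =
      2 ^ (((h.map Prod.snd).sum + j) * L.length) *
        Real.exp (L.map fun T => Real.log (Ml f h T (f (T, x)) + wt (x, j))).sum := fun L => by
    induction L with
    | nil => simp
    | cons T L ih =>
      simp only [List.map_cons, List.foldr_cons, Nat.cast_mul, ih, List.sum_cons, Real.exp_add,
        Real.exp_log (pos T), Nat.cast_add, Nn_eq f (Nat.le_add_right _ j), List.length_cons]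
      simp only [wt, one_div, inv_pow, mul_add, pow_add, mul_one]
      push_cast
      field_simp
  rw [ok, hj, decide_eq_true_eq, ← Nat.cast_le (α := ℝ), Nat.cast_mul, key]
  push_cast
  rw [mul_assoc, mul_le_iff_le_one_right (by positivity), ← Real.exp_log
    (show (0 : ℝ) < 2 ^ (2 * LN.length + 1 + a) by positivity), ← Real.exp_add,
    Real.exp_le_one_iff, Real.log_pow]
  push_cast
  constructor <;> intro <;> linarith

theorem ci_Nn (hf : CI ∅ f) :
    CI ∅ fun q : List (X × ℕ) × ℕ × ℕ × List Bool => Nn f q.1 q.2.1 q.2.2.1 q.2.2.2 := by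
  unfold Nn; fun_prop

theorem online {V : List Bool →. List Bool} (hV : Opt V) (hf : CI ∅ f) (LN LP : List ℕ)
    (hyp : ∀ h : List (X × ℕ), 0 < YY h →
      (LP.map fun S => SL f h S - YY h * Real.log (YY h)).sum ≤
      (LN.map fun T => SL f h T - YY h * Real.log (YY h)).sum) :
    ∃ c : ℕ, ∀ x, (LN.map fun T => cx V (f (T, x))).sum ≤
      (LP.map fun S => cx V (f (S, x))).sum + c := by
  rcases isEmpty_or_nonempty X with hX | ⟨⟨x0⟩⟩
  · exact ⟨0, fun x => isEmptyElim x⟩
  obtain ⟨D, hD, mD, eD⟩ := re_stage (re_sum hV hf LP)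
  obtain ⟨F, hF, eF⟩ : ∃ F : (X × ℕ) × ℕ → Bool, CI ∅ F ∧ ∀ a t, D a t = F (a, t) :=
    ⟨_, hD, fun _ _ => rfl⟩
  obtain ⟨N, hN, eN⟩ : ∃ N : List (X × ℕ) × ℕ × ℕ × List Bool → ℕ, CI ∅ N ∧
    ∀ a b c d, Nn f a b c d = N (a, b, c, d) := ⟨_, ci_Nn f hf, fun _ _ _ _ => rfl⟩
  obtain ⟨O, hO, eO⟩ : ∃ O : List (X × ℕ) × X × ℕ → Bool, CI ∅ O ∧
      ∀ a b c, ok f LN a b c = O (a, b, c) :=
    ⟨fun q => ok f LN q.1 q.2.1 q.2.2, by simp only [ok, eN]; fun_prop, fun _ _ _ => rfl⟩
  obtain ⟨dc, hdc, edc⟩ : ∃ dc : ℕ → X × ℕ, CI ∅ dc ∧ ∀ q r, dc (Nat.pair (encode q) r) = q :=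
    ⟨fun s => (decode (α := X × ℕ) s.unpair.1).getD (x0, 0), by fun_prop, by simp⟩
  set b := LN.length with hb
  let stp : ℕ → List (X × ℕ) → List (X × ℕ) := fun s h =>
    bif F (dc s, s) && O (h, dc s) then ((dc s).1, 3 * b + 1 + (dc s).2) :: h else h
  let hs : ℕ → List (X × ℕ) := fun s => Nat.rec [] stp s
  have hsucc : ∀ s, hs (s + 1) = stp s (hs s) := fun _ => rfl
  have chs : CI ∅ hs := CI.of_rec1 (h := stp) (by simp only [stp]; fun_prop) hsucc
  let m : List Bool → ℝ := fun v => (1 / 2) ^ cx V v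
  have L0 : 0 < Real.log 2 := Real.log_pos one_lt_two
  have lm : ∀ v, Real.log (m v) = -(cx V v * Real.log 2) := fun v => by simp [m]
  have inv : ∀ s, (LN.map fun T => SL f (hs s) T - YY (hs s)).sum ≤
      -((2 * b + 1) * Real.log 2) * YY (hs s) +
      (LP.map fun S => ((hs s).map fun e => wt e * Real.log (m (f (S, e.1)))).sum).sum := by
    intro s
    induction s with
    | zero => simp [hs, SL, YY]
    | succ s ih =>
      rw [hsucc]
      simp only [stp]
      cases hc : F (dc s, s) && O (hs s, dc s)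
      · exact ih
      simp only [Bool.and_eq_true, ← eF] at hc
      have a1 := (eD _).2 ⟨s, hc.1⟩
      have a2 := (ok_iff f LN _ _ _).1 ((eO _ _ _).trans hc.2)
      generalize dc s = q at a1 a2
      obtain ⟨x, a⟩ := q
      simp only [cond_true, ← hb] at a1 a2 ⊢
      generalize 3 * b + 1 + a = j at a2 ⊢
      have a3 : (LN.map fun T => SL f ((x, j) :: hs s) T - YY ((x, j) :: hs s)).sum ≤
          (LN.map fun T => (SL f (hs s) T - YY (hs s)) +
            wt (x, j) * Real.log (Ml f (hs s) T (f (T, x)) + wt (x, j))).sum :=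
        List.sum_le_sum fun T _ => by
          have := SL_cons f (x, j) (hs s) T
          simp only [YY, List.map_cons, List.sum_cons] at this ⊢
          linarith
      rw [List.sum_map_add, List.sum_map_mul_left] at a3
      have a4 : (LP.map fun S => Real.log (m (f (S, x)))).sum =
          -(((LP.map fun S => cx V (f (S, x))).sum : ℕ) * Real.log 2) := by
        simp only [lm, ← neg_mul, Nat.cast_list_sum, List.map_map, List.sum_map_mul_right]
        rw [List.sum_neg]; simp [Function.comp_def]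
      have a5 : (((LP.map fun S => cx V (f (S, x))).sum : ℕ) : ℝ) ≤ a := by exact_mod_cast a1
      simp only [List.map_cons, List.sum_cons, List.sum_map_add, List.sum_map_mul_left, a4,
        show YY ((x, j) :: hs s) = wt (x, j) + YY (hs s) by simp [YY]] at a3 ⊢
      nlinarith [mul_le_mul_of_nonneg_left a2 (wt_pos (x, j)).le,
        mul_le_mul_of_nonneg_left (mul_le_mul_of_nonneg_right a5 L0.le) (wt_pos (x, j)).le]
  have Y1 : ∀ s, YY (hs s) ≤ 1 := fun s => by
    by_contra hc
    push Not at hc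
    have Y0 := one_pos.trans hc
    have a1 := (inv s).trans (add_le_add le_rfl ((List.sum_le_sum fun S _ =>
      gibbs f (m := m) (fun _ => by positivity) (fun A => wt_le hV.2.1 A fun x _ => total hV x)
        Y0 S).trans (hyp _ Y0)))
    simp only [sub_eq_add_neg, List.sum_map_add, List.map_const', List.sum_replicate, ← hb,
      nsmul_eq_mul] at a1
    have a2 := Real.log_pos hc
    have a3 := Real.log_two_gt_d9
    have a4 : (0 : ℝ) ≤ b := by positivity
    nlinarith [mul_nonneg a4 (mul_pos Y0 a2).le, mul_nonneg a4 Y0.le]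
  have mM : ∀ T v, Monotone fun s => Ml f (hs s) T v := fun T v =>
    monotone_nat_of_le_succ fun s => by
      simp only [hsucc, stp]
      cases F (dc s, s) && O (hs s, dc s)
      · exact le_rfl
      · simp only [cond_true, Ml_cons]; split_ifs <;> simp [(wt_pos _).le]
  have mY : Monotone fun s => YY (hs s) := monotone_nat_of_le_succ fun s => by
    simp only [hsucc, stp]
    cases F (dc s, s) && O (hs s, dc s)
    · exact le_rfl
    · simp [YY, (wt_pos _).le]
  let G : ℕ → List Bool → ℝ := fun s v => (LN.map fun T => Ml f (hs s) T v).sum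
  obtain ⟨M, m1, m2, m3⟩ := kc (R := fun q => ∃ s, 2 ^ (b + 1) * (1 / 2) ^ q.1 ≤ G s q.2)
    (re_of_nat (fun q s => decide (2 ^ (b + 1) * 2 ^ ((hs s).map Prod.snd).sum ≤
      2 ^ q.1 * (LN.map fun T => N (hs s, ((hs s).map Prod.snd).sum, T, q.2)).sum))
      (by fun_prop) fun q => exists_congr fun s => by
        rw [decide_eq_true_eq, ← Nat.cast_le (α := ℝ)]
        simp only [← eN, Nat.cast_mul, Nat.cast_list_sum, List.map_map, Function.comp_def,
          Nn_eq f le_rfl, List.sum_map_mul_left, G]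
        push_cast
        rw [one_div, inv_pow, ← div_eq_mul_inv, div_le_iff₀ (by positivity), mul_left_comm,
          mul_comm (2 ^ (b + 1)), mul_le_mul_iff_right₀ (by positivity), mul_comm (2 ^ q.1)])
    fun S hS => by
      choose! g hg using hS
      have h1 : ∀ q ∈ S, ((1 : ℝ) / 2) ^ q.1 ≤ G (S.sup g) q.2 / 2 ^ (b + 1) := fun q hq => by
        rw [le_div_iff₀' (by positivity)]
        exact (hg q hq).trans (List.sum_le_sum fun T _ => mM T _ (Finset.le_sup hq))
      rw [← Finset.sum_fiberwise_of_maps_to (g := Prod.snd) (t := S.image Prod.snd)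
        fun q hq => Finset.mem_image_of_mem _ hq]
      refine le_trans (Finset.sum_le_sum (g := fun v => 2 * (G (S.sup g) v / 2 ^ (b + 1)))
        fun v _ => ?_) ?_
      · rw [← Finset.sum_image (g := Prod.fst) (f := fun k => ((1 : ℝ) / 2) ^ k) fun a ha b hb e =>
          Prod.ext e ((Finset.mem_filter.1 ha).2.trans (Finset.mem_filter.1 hb).2.symm)]
        refine geo _ _ (div_nonneg (List.sum_nonneg fun x hx => ?_) (by positivity)) fun k hk => ?_
        · obtain ⟨T, -, rfl⟩ := List.mem_map.1 hx; exact Ml_nonneg _ _ _ _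
        · obtain ⟨q, hq, rfl⟩ := Finset.mem_image.1 hk
          obtain ⟨h2, rfl⟩ := Finset.mem_filter.1 hq
          exact h1 q h2
      · have h2 : ∀ L : List ℕ, ∑ v ∈ S.image Prod.snd,
            (L.map fun T => Ml f (hs (S.sup g)) T v).sum ≤ L.length := fun L => by
          induction L with
          | nil => simp
          | cons T L ih =>
            have := sum_Ml f (hs (S.sup g)) T (S.image Prod.snd) fun _ => 1
            simp only [mul_one] at this
            have h3 := (le_of_eq this).trans ((List.sum_le_sum (g := wt) fun e _ => by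
              split_ifs <;> simp [(wt_pos e).le]).trans (Y1 _))
            simp only [List.map_cons, List.sum_cons, Finset.sum_add_distrib, List.length_cons]
            push_cast
            linarith
        rw [← Finset.mul_sum, ← Finset.sum_div, pow_succ, mul_div_assoc', mul_comm,
          mul_div_mul_right _ _ two_ne_zero, div_le_one (by positivity)]
        exact (h2 LN).trans (by exact_mod_cast (Nat.lt_two_pow_self (n := b)).le)
  obtain ⟨c, hc⟩ := hV.2.2 M m1 m2
  refine ⟨b * (b + 4 + c) + (2 * b + 1), fun x => ?_⟩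
  generalize ha : (LP.map fun S => cx V (f (S, x))).sum = a
  obtain ⟨r0, hr0⟩ := (eD (x, a)).1 ha.le
  obtain ⟨s, hs'⟩ : ∃ s, ¬ ok f LN (hs s) x a = true := by
    by_contra hall
    push Not at hall
    have e : ∀ n, YY (hs (Nat.pair (encode (x, a)) (r0 + n) + 1)) = wt (x, 3 * b + 1 + a) +
        YY (hs (Nat.pair (encode (x, a)) (r0 + n))) := fun n => by
      simp only [hsucc, stp, edc, ← eF, ← eO, hall,
        mD _ _ _ ((Nat.le_add_right r0 n).trans (Nat.right_le_pair _ _)) hr0]
      simp [YY]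
    have : ∀ n : ℕ, (n + 1) * wt (x, 3 * b + 1 + a) ≤
        YY (hs (Nat.pair (encode (x, a)) (r0 + n) + 1)) := fun n => by
      induction n with
      | zero =>
        have := mY (Nat.zero_le (Nat.pair (encode (x, a)) (r0 + 0)))
        rw [e]; simpa [hs, YY] using this
      | succ n ih =>
        have := mY (Nat.succ_le_of_lt (Nat.pair_lt_pair_right (encode (x, a))
          (show r0 + n < r0 + (n + 1) by omega)))
        rw [e]; push_cast; linarith
    obtain ⟨n, hn⟩ := exists_nat_gt (1 / wt (x, 3 * b + 1 + a))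
    rw [div_lt_iff₀ (wt_pos _)] at hn
    nlinarith [this n, Y1 (Nat.pair (encode (x, a)) (r0 + n) + 1), wt_pos (x, 3 * b + 1 + a)]
  rw [ok_iff, not_le, ← hb] at hs'
  set δ := wt (x, 3 * b + 1 + a) with hδ
  have δ0 : 0 < δ := wt_pos _
  have pos : ∀ T, 0 < Ml f (hs s) T (f (T, x)) + δ := fun T =>
    add_pos_of_nonneg_of_pos (Ml_nonneg _ _ _ _) δ0
  have u1 : ∀ T, Ml f (hs s) T (f (T, x)) ≤ 1 := fun T => (Ml_le _ _ _ _).trans (Y1 s)
  have key : ∀ T ∈ LN, (cx V (f (T, x)) : ℝ) * Real.log 2 ≤
      (b + 4 + c) * Real.log 2 + -Real.log (Ml f (hs s) T (f (T, x)) + δ) := fun T hT => by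
    have a1 := List.single_le_sum (l := LN.map fun T =>
      Real.log 2 + -Real.log (Ml f (hs s) T (f (T, x)) + δ)) (fun y hy => by
        obtain ⟨T, -, rfl⟩ := List.mem_map.1 hy
        have : δ ≤ 1 := pow_le_one₀ (by norm_num) (by norm_num)
        linarith [Real.log_le_log (pos T) (show _ ≤ (2 : ℝ) by linarith [u1 T])]) _
      (List.mem_map_of_mem hT)
    have a2 : Real.log (2 * δ) = Real.log 2 - (3 * b + 1 + a) * Real.log 2 := by
      rw [Real.log_mul two_ne_zero δ0.ne', hδ]; simp [wt, sub_eq_add_neg]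
    have a3 := List.sum_neg (LN.map fun T => Real.log (Ml f (hs s) T (f (T, x)) + δ))
    simp only [List.sum_map_add, List.map_const', List.sum_replicate, ← hb, nsmul_eq_mul,
      List.map_map, Function.comp_def] at a1 a3
    have a4 : 2 * δ < Ml f (hs s) T (f (T, x)) + δ :=
      (Real.log_lt_log_iff (by positivity) (pos T)).1 (by linarith)
    obtain ⟨i, i1, i2⟩ := exists_nat_pow_near_of_lt_one (show 0 < Ml f (hs s) T (f (T, x)) by
      linarith) (u1 T) (show (0 : ℝ) < 1 / 2 by norm_num) (by norm_num)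
    obtain ⟨p, p1, p2⟩ := m3 (i + 1 + (b + 1)) (f (T, x)) ⟨s, le_trans (le_of_eq (by
      simp only [one_div, inv_pow, pow_add]; field_simp)) (i1.le.trans (List.single_le_sum
        (fun y hy => by obtain ⟨T, -, rfl⟩ := List.mem_map.1 hy; exact Ml_nonneg _ _ _ _) _
        (List.mem_map_of_mem (f := fun T' => Ml f (hs s) T' (f (T, x))) hT)))⟩
    have a5 := LeC.le (hc p _ p2)
    have a6 : (cx V (f (T, x)) : ℝ) ≤ i + 1 + (b + 1) + 1 + c := by rw [p1] at a5; exact_mod_cast a5
    have a7 := Real.log_le_log (pos T) (show _ ≤ 2 * ((1 : ℝ) / 2) ^ i by linarith)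
    rw [Real.log_mul two_ne_zero (by positivity), Real.log_pow, one_div, Real.log_inv] at a7
    nlinarith
  have a1 := List.sum_le_sum key
  have a3 := List.sum_neg (LN.map fun T => Real.log (Ml f (hs s) T (f (T, x)) + δ))
  simp only [List.sum_map_add, List.map_const', List.sum_replicate, ← hb, nsmul_eq_mul,
    List.map_map, Function.comp_def, List.sum_map_mul_right] at a1 a3
  rw [← Nat.cast_le (α := ℝ), Nat.cast_list_sum, List.map_map]
  refine le_of_mul_le_mul_right ?_ L0
  simp only [Function.comp_def]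
  push_cast
  nlinarith

end strat

end Pool.Agent.H37.Ki
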