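import Pool.Agent.H37.Ki2

/-! Rational information inequalities and the Zhang-Yeung inequality for prefix complexity. -/

set_option autoImplicit false

namespace Pool.Agent.H37.Ki

open Encodable Rnd Kc Classical

theorem bridge {V : List Bool →. List Bool} (hV : Opt V) {enc : List (List Bool) → List Bool}
    (he : Computable enc) (hi : Function.Injective enc) {n : ℕ} (NN PP : List (Finset (Fin n)))
    (H : ∀ (m : ℕ) (p : Fin m → ℝ) (ξ : Fin m → Fin n → ℕ), (∀ a, 0 ≤ p a) → ∑ a, p a = 1 →
      (NN.map (HH p ξ)).sum ≤ (PP.map (HH p ξ)).sum) :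
    ∃ c : ℕ, ∀ x : Fin n → List Bool, (NN.map fun T => KP V (enc (sub x T))).sum ≤
      (PP.map fun S => KP V (enc (sub x S))).sum + c := by
  have he' := CI.of_comp (O := ∅) he
  let f : ℕ × List (List Bool) → List Bool := fun q =>
    enc (((decode (α := List ℕ) q.1).getD []).map fun i => q.2.getD i [])
  let ix : Finset (Fin n) → ℕ := fun T => encode (sub Fin.val T)
  have ef : ∀ T l, f (ix T, l) = enc (sub (fun i : Fin n => l.getD i []) T) := fun T l => by
    simp [f, ix, sub, Function.comp_def]
  obtain ⟨c, hc⟩ := online f hV (by simp only [f]; fun_prop) (NN.map ix) (PP.map ix) fun h hY => by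
    let p : Fin h.length → ℝ := fun a => wt h[a.1] / YY h
    let ξ : Fin h.length → Fin n → ℕ := fun a i => encode (h[a.1].1.getD i [])
    have := H h.length p ξ (fun a => div_nonneg (wt_pos _).le hY.le) (by
      simp only [p]
      rw [← Finset.sum_div, Fin.sum_univ_fun_getElem h wt]
      exact div_self hY.ne')
    have e : ∀ T, SL f h (ix T) - YY h * Real.log (YY h) = -YY h * HH p ξ T := fun T => by
      have e1 : ∀ a, ms p ξ T a = Ml f h (ix T) (f (ix T, h[a.1].1)) / YY h := fun a => by
        rw [Ml, ← Fin.sum_univ_fun_getElem, Finset.sum_div, ms]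
        refine Finset.sum_congr rfl fun b _ => ?_
        simp only [ef, hi.eq_iff, sub_eq, Ag, ξ, encode_inj, p]
        split_ifs <;> simp
      rw [HH, neg_mul_neg, Finset.mul_sum, SL, ← Fin.sum_univ_fun_getElem]
      conv_lhs => enter [2, 1]; rw [YY, ← Fin.sum_univ_fun_getElem]
      rw [Finset.sum_mul, ← Finset.sum_sub_distrib]
      refine Finset.sum_congr rfl fun a _ => ?_
      rw [e1, Real.log_div (Ml_pos f (List.getElem_mem _) _).ne' hY.ne']
      simp only [p]
      field_simp
    simp only [List.map_map, Function.comp_def, e, List.sum_map_mul_left]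
    nlinarith
  refine ⟨c, fun x => ?_⟩
  have := hc (List.ofFn x)
  simp only [List.map_map, Function.comp_def, ef] at this
  have e : (fun i : Fin n => (List.ofFn x).getD i []) = x := funext fun i => by simp
  rw [e] at this
  exact this

theorem rational {V : List Bool →. List Bool} (hV : Opt V) {enc : List (List Bool) → List Bool}
    (he : Computable enc) (hi : Function.Injective enc) {n : ℕ} (lam : Finset (Fin n) → ℚ)
    (h : Valid fun S => (lam S : ℝ)) : ∃ c : ℝ, ∀ x : Fin n → List Bool,
      -c ≤ ∑ S, (lam S : ℝ) * KP V (enc (sub x S)) := by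
  obtain ⟨d, d0, z, hz⟩ : ∃ d : ℕ, 0 < d ∧ ∃ z : Finset (Fin n) → ℤ,
      ∀ S, (z S : ℝ) = d * lam S := by
    have : ∀ S, ∃ z : ℤ, (z : ℝ) = (∏ S, (lam S).den : ℕ) * lam S := fun S => by
      obtain ⟨k, hk⟩ := Finset.dvd_prod_of_mem (fun S => (lam S).den) (Finset.mem_univ S)
      refine ⟨k * (lam S).num, ?_⟩
      have : ((lam S).num : ℝ) = (lam S).den * lam S := by exact_mod_cast (Rat.den_mul_eq_num _).symm
      rw [hk]; push_cast; rw [this]; ring
    choose z hz using this
    exact ⟨_, Finset.prod_pos fun S _ => (lam S).den_pos, z, hz⟩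
  have d0' : (0 : ℝ) < d := by exact_mod_cast d0
  let L : (Finset (Fin n) → ℤ) → List (Finset (Fin n)) := fun w =>
    Finset.univ.toList.flatMap fun S => List.replicate (w S).toNat S
  have e : ∀ g : Finset (Fin n) → ℝ, d * ∑ S, lam S * g S =
      ((L z).map g).sum - ((L (-z)).map g).sum := fun g => by
    have : ∀ w, ((L w).map g).sum = ∑ S, (w S).toNat * g S := fun w => by
      rw [← Finset.sum_map_toList]
      simp only [L]
      induction (Finset.univ : Finset (Finset (Fin n))).toList <;> simp_all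
    rw [this, this, ← Finset.sum_sub_distrib, Finset.mul_sum]
    refine Finset.sum_congr rfl fun S _ => ?_
    have : (((z S).toNat : ℝ) - ((-z S).toNat : ℝ)) = z S := by
      rw [← Int.cast_natCast, ← Int.cast_natCast (-z S).toNat, ← Int.cast_sub,
        Int.toNat_sub_toNat_neg]
    rw [← mul_assoc, ← hz, ← this, sub_mul]; rfl
  obtain ⟨c, hc⟩ := bridge hV he hi (L (-z)) (L z) fun m p ξ h0 h1 => by
    have := mul_nonneg d0'.le (h m p ξ h0 h1)
    simp only [ent_eq] at this
    linarith [e (HH p ξ)]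
  refine ⟨c / d, fun x => ?_⟩
  have := (Nat.cast_le (α := ℝ)).2 (hc x)
  simp only [Nat.cast_add, Nat.cast_list_sum, List.map_map, Function.comp_def] at this
  rw [← neg_div, div_le_iff₀' d0', e]
  linarith

theorem zy_kp {V : List Bool →. List Bool} (hV : Opt V) {enc : List (List Bool) → List Bool}
    (he : Computable enc) (hi : Function.Injective enc) : ∃ c : ℕ, ∀ a b x y : List Bool,
      KP V (enc [a]) + 2 * KP V (enc [x]) + 2 * KP V (enc [y]) + KP V (enc [a, b]) +
        4 * KP V (enc [a, x, y]) + KP V (enc [b, x, y]) ≤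
      3 * KP V (enc [x, y]) + 3 * KP V (enc [a, x]) + 3 * KP V (enc [a, y]) +
        KP V (enc [b, x]) + KP V (enc [b, y]) + c := by
  obtain ⟨c, hc⟩ := bridge hV he hi (n := 4)
    [{0}, {2}, {2}, {3}, {3}, {0, 1}, {0, 2, 3}, {0, 2, 3}, {0, 2, 3}, {0, 2, 3}, {1, 2, 3}]
    [{2, 3}, {2, 3}, {2, 3}, {0, 2}, {0, 2}, {0, 2}, {0, 3}, {0, 3}, {0, 3}, {1, 2}, {1, 3}]
    fun m p ξ h0 h1 => by
      have := zy ξ h0 h1
      simp only [List.map_cons, List.map_nil, List.sum_cons, List.sum_nil]
      linarith
  refine ⟨c, fun a b x y => ?_⟩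
  have := hc ![a, b, x, y]
  simp [sub, List.finRange_succ] at this
  omega

end Pool.Agent.H37.Ki
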