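import Mathlib

/-! Prefix complexity of tuples and linear information inequalities. -/

set_option autoImplicit false

namespace Pool.Agent.H37.Ki

open Finset

/-- the domain of `M` is an antichain for the initial segment order -/
def PF (M : List Bool →. List Bool) : Prop :=
  ∀ p q : List Bool, (M p).Dom → (M q).Dom → p <+: q → p = q

/-- optimal self-delimiting machine -/
def Opt (V : List Bool →. List Bool) : Prop :=
  Partrec V ∧ PF V ∧ ∀ M : List Bool →. List Bool, Partrec M → PF M →
    ∃ c : ℕ, ∀ p z : List Bool, z ∈ M p → ∃ q : List Bool, q.length ≤ p.length + c ∧ z ∈ V q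

/-- length of a shortest program -/
noncomputable def KP (V : List Bool →. List Bool) (x : List Bool) : ℕ :=
  sInf {m : ℕ | ∃ q : List Bool, q.length = m ∧ x ∈ V q}

/-- the subtuple indexed by `S`, in increasing order -/
def sub {n : ℕ} {β : Type} (x : Fin n → β) (S : Finset (Fin n)) : List β :=
  ((List.finRange n).filter fun i => decide (i ∈ S)).map x

/-- Shannon entropy of the variables indexed by `S`, on the probability space `(Fin m, p)` -/
noncomputable def ent {m n : ℕ} (p : Fin m → ℝ) (ξ : Fin m → Fin n → ℕ) (S : Finset (Fin n)) : ℝ :=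
  ∑ y ∈ univ.image fun ω => sub (ξ ω) S,
    Real.negMulLog (∑ ω, if sub (ξ ω) S = y then p ω else 0)

/-- linear information inequality -/
def Valid {n : ℕ} (lam : Finset (Fin n) → ℝ) : Prop :=
  ∀ (m : ℕ) (p : Fin m → ℝ) (ξ : Fin m → Fin n → ℕ), (∀ ω, 0 ≤ p ω) → ∑ ω, p ω = 1 →
    0 ≤ ∑ S, lam S * ent p ξ S

end Pool.Agent.H37.Ki
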