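import Mathlib

set_option autoImplicit false

namespace Pool.Agent.H37.LRC

open Relation List Classical

noncomputable section

abbrev Rl (T N : Type) := N × List (Symbol T N) × Finset N × Finset N

def Step {T N : Type} (PL PR : Finset (Rl T N)) (α β : List (Symbol T N)) : Prop :=
  ∃ (u v : List (Symbol T N)) (A : N) (x : List (Symbol T N)) (U W : Finset N),
    α = u ++ [Symbol.nonterminal A] ++ v ∧ β = u ++ x ++ v ∧
    (((A, x, U, W) ∈ PL ∧ (∀ B ∈ U, Symbol.nonterminal B ∈ u) ∧
        (∀ B ∈ W, Symbol.nonterminal B ∉ u)) ∨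
     ((A, x, U, W) ∈ PR ∧ (∀ B ∈ U, Symbol.nonterminal B ∈ v) ∧
        (∀ B ∈ W, Symbol.nonterminal B ∉ v)))

inductive NT (N R : Type) : Type
  | pl (B : N) | br (B : N) | mk (r : R) | st | x | c1 | c2 | y | d
  deriving Fintype

inductive RI (N L R : Type) : Type
  | left (r : L) | bar (B : N) | mark (r : R) | unbar (B : N) | app (r : R) | s1 | s2
  | x | c1 | c2 | obs (r : R) | d
  deriving Fintype

open NT Symbol

variable {T N : Type} [Fintype N] (S : N)
  (PL PR : Finset (Rl T N))

abbrev Sy := Symbol T (NT N PR)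

def pls : Symbol T N → Sy PR
  | terminal t => terminal t
  | nonterminal B => nonterminal (pl B)

def brs : Symbol T N → Sy PR
  | terminal t => terminal t
  | nonterminal B => nonterminal (br B)

def rule : RI N PL PR → Rl T (NT N PR)
  | .left r => (pl r.1.1, r.1.2.1.map (pls PR), r.1.2.2.1.image pl,
      r.1.2.2.2.image pl ∪ {c1, c2})
  | .bar B => (pl B, [nonterminal (br B)], {c1}, Finset.univ.image pl ∪ Finset.univ.image mk)
  | .mark r => (pl r.1.1, [nonterminal (mk r)], {c1}, Finset.univ.image pl ∪ Finset.univ.image mk)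
  | .unbar B => (br B, [nonterminal (pl B)], {c2}, ∅)
  | .app r => (mk r, r.1.2.1.map (pls PR), {c2}, ∅)
  | .s1 => (st, [nonterminal x, nonterminal st, nonterminal y], ∅, ∅)
  | .s2 => (st, [nonterminal (pl S)], ∅, ∅)
  | .x => (x, [nonterminal c1], ∅, {x, c1, c2})
  | .c1 => (c1, [nonterminal c2], ∅, ∅)
  | .c2 => (c2, [], ∅, ∅)
  | .obs r => (y, [nonterminal d], {c1, mk r} ∪ r.1.2.2.1.image pl, {y, d} ∪ r.1.2.2.2.image pl)
  | .d => (d, [], {c2}, Finset.univ.image br ∪ Finset.univ.image mk)

def PL' : Finset (Rl T (NT N PR)) := Finset.univ.image (rule S PL PR)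

abbrev HS := Step (PL' S PL PR) ∅

variable {S PL PR}

theorem hs_iff {α β : List (Sy PR)} : HS S PL PR α β ↔ ∃ u v i,
    α = u ++ nonterminal (rule S PL PR i).1 :: v ∧ β = u ++ (rule S PL PR i).2.1 ++ v ∧
    (∀ B ∈ (rule S PL PR i).2.2.1, nonterminal B ∈ u) ∧
    (∀ B ∈ (rule S PL PR i).2.2.2, nonterminal B ∉ u) := by
  constructor
  · rintro ⟨u, v, A, x, U, W, h1, h2, ⟨h3, h4, h5⟩ | ⟨h3, -⟩⟩
    · obtain ⟨i, -, e⟩ := Finset.mem_image.1 h3
      exact ⟨u, v, i, by simp [e, h1], by simp [e, h2], by simpa [e] using h4, by simpa [e] using h5⟩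
    · simp at h3
  · rintro ⟨u, v, i, h1, h2, h3, h4⟩
    exact ⟨u, v, _, _, _, _, by rw [h1, append_assoc]; rfl, h2,
      .inl ⟨Finset.mem_image_of_mem _ (Finset.mem_univ i), h3, h4⟩⟩

theorem hs_mk (u v : List (Sy PR)) (i : RI N PL PR) {α β : List (Sy PR)}
    (h1 : α = u ++ nonterminal (rule S PL PR i).1 :: v)
    (h2 : β = u ++ (rule S PL PR i).2.1 ++ v)
    (h3 : ∀ B ∈ (rule S PL PR i).2.2.1, nonterminal B ∈ u)
    (h4 : ∀ B ∈ (rule S PL PR i).2.2.2, nonterminal B ∉ u) : HS S PL PR α β :=
  hs_iff.2 ⟨u, v, i, h1, h2, h3, h4⟩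

omit [Fintype N] in
@[simp] theorem mem_pls {α : List (Symbol T N)} {B : NT N PR} :
    nonterminal B ∈ α.map (pls PR) ↔ ∃ A, B = pl A ∧ nonterminal A ∈ α := by
  simp only [mem_map]
  constructor
  · rintro ⟨_ | A, h, e⟩
    · simp [pls] at e
    · exact ⟨A, by simpa [pls, eq_comm] using e, h⟩
  · rintro ⟨A, rfl, h⟩; exact ⟨_, h, rfl⟩

omit [Fintype N] in
@[simp] theorem mem_brs {α : List (Symbol T N)} {B : NT N PR} :
    nonterminal B ∈ α.map (brs PR) ↔ ∃ A, B = br A ∧ nonterminal A ∈ α := by
  simp only [mem_map]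
  constructor
  · rintro ⟨_ | A, h, e⟩
    · simp [brs] at e
    · exact ⟨A, by simpa [brs, eq_comm] using e, h⟩
  · rintro ⟨A, rfl, h⟩; exact ⟨_, h, rfl⟩

/-! ### completeness -/

theorem bar_all (p q : List (Sy PR)) (h1 : nonterminal c1 ∈ p) (h2 : ∀ B, nonterminal (pl B) ∉ p)
    (h3 : ∀ r, nonterminal (mk r) ∉ p) (u : List (Symbol T N)) :
    ReflTransGen (HS S PL PR) (p ++ u.map (pls PR) ++ q) (p ++ u.map (brs PR) ++ q) := by
  induction u generalizing p with
  | nil => exact .refl
  | cons s u ih =>
    have := ih (p ++ [brs PR s]) (by simp [h1]) (by cases s <;> simp [h2, brs])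
      (by cases s <;> simp [h3, brs])
    simp only [append_assoc, map_cons, cons_append, nil_append] at this ⊢
    cases s with
    | terminal t => exact this
    | nonterminal B =>
      refine .head (hs_mk p (u.map (pls PR) ++ q) (.bar B) rfl (by simp [rule, brs]) ?_ ?_) this
      · simpa [rule] using h1
      · simp only [rule, Finset.mem_union, Finset.mem_image, Finset.mem_univ, true_and]
        rintro _ (⟨a, rfl⟩ | ⟨a, rfl⟩)
        exacts [h2 a, h3 a]

theorem unbar_all (p q : List (Sy PR)) (h1 : nonterminal c2 ∈ p) (u : List (Symbol T N)) :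
    ReflTransGen (HS S PL PR) (p ++ u.map (brs PR) ++ q) (p ++ u.map (pls PR) ++ q) := by
  induction u generalizing p with
  | nil => exact .refl
  | cons s u ih =>
    have := ih (p ++ [pls PR s]) (by simp [h1])
    simp only [append_assoc, map_cons, cons_append, nil_append] at this ⊢
    cases s with
    | terminal t => exact this
    | nonterminal B =>
      exact .head (hs_mk p (u.map (brs PR) ++ q) (.unbar B) rfl (by simp [rule, pls])
        (by simpa [rule] using h1) (by simp [rule])) this

theorem sim {α : List (Symbol T N)} {w : List T}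
    (h : ReflTransGen (Step PL PR) α (w.map terminal)) : ∃ n, ReflTransGen (HS S PL PR)
      (replicate n (nonterminal x) ++ α.map (pls PR) ++ replicate n (nonterminal y))
      (w.map terminal) := by
  induction h using ReflTransGen.head_induction_on with
  | refl => exact ⟨0, by simpa [Function.comp_def, pls] using .refl⟩
  | head h _ ih =>
    obtain ⟨n, ih⟩ := ih
    obtain ⟨u, v, A, z, U, W, rfl, rfl, ⟨h1, h2, h3⟩ | ⟨h1, h2, h3⟩⟩ := h
    · refine ⟨n, .head (hs_mk (replicate n (nonterminal x) ++ u.map (pls PR))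
        (v.map (pls PR) ++ replicate n (nonterminal y)) (.left ⟨_, h1⟩) (by simp [rule, pls])
        (by simp [rule]) ?_ ?_) ih⟩
      · simp only [rule, Finset.forall_mem_image, mem_append, mem_pls]
        exact fun B hB => .inr ⟨B, rfl, h2 B hB⟩
      · simp only [rule, Finset.mem_union, Finset.mem_image]
        rintro _ (⟨B, hB, rfl⟩ | h)
        · simpa using h3 B hB
        · simp only [Finset.mem_insert, Finset.mem_singleton] at h
          rcases h with rfl | rfl <;> simp
    · refine ⟨n + 1, ?_⟩
      set X : List (Sy PR) := replicate n (nonterminal x) with hX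
      set Y : List (Sy PR) := replicate n (nonterminal y) with hY
      have hx : ∀ B, nonterminal B ∈ X → B = x := fun B h => by simpa using eq_of_mem_replicate h
      refine .head (hs_mk [] (X ++ (u ++ [nonterminal A] ++ v).map (pls PR) ++ nonterminal y :: Y)
        .x (by simp [rule, replicate_succ, hX, hY]) rfl (by simp [rule]) (by simp)) ?_
      have b := bar_all (S := S) (PL := PL) (nonterminal c1 :: X)
        (nonterminal (pl A) :: v.map (pls PR) ++ nonterminal y :: Y) (by simp)
        (fun B => by simpa using fun h => by simpa using hx _ h)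
        (fun B => by simpa using fun h => by simpa using hx _ h) u
      refine .trans (by simpa [rule, pls] using b) ?_
      refine .head (hs_mk (nonterminal c1 :: X ++ u.map (brs PR))
        (v.map (pls PR) ++ nonterminal y :: Y) (.mark ⟨_, h1⟩) (by simp [rule]) rfl
        (by simp [rule]) ?_) ?_
      · simp only [rule, Finset.mem_union, Finset.mem_image, Finset.mem_univ, true_and]
        rintro _ (⟨a, rfl⟩ | ⟨a, rfl⟩) <;> simpa using fun h => by simpa using hx _ h
      refine .head (hs_mk (nonterminal c1 :: X ++ u.map (brs PR) ++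
        nonterminal (mk ⟨_, h1⟩) :: v.map (pls PR)) Y (.obs ⟨_, h1⟩) (by simp [rule]) rfl ?_ ?_) ?_
      · simp only [rule, Finset.mem_union, Finset.mem_image, Finset.mem_insert,
          Finset.mem_singleton]
        rintro _ ((rfl | rfl) | ⟨B, hB, rfl⟩)
        · simp
        · simp
        · simp [h2 B hB]
      · simp only [rule, Finset.mem_union, Finset.mem_image, Finset.mem_insert,
          Finset.mem_singleton]
        rintro _ ((rfl | rfl) | ⟨B, hB, rfl⟩)
        · simpa using fun h => by simpa using hx _ h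
        · simpa using fun h => by simpa using hx _ h
        · simpa [h3 B hB] using fun h => by simpa using hx _ h
      refine .head (hs_mk [] (X ++ u.map (brs PR) ++
        nonterminal (mk ⟨_, h1⟩) :: v.map (pls PR) ++ nonterminal d :: Y) .c1 (by simp [rule]) rfl
        (by simp [rule]) (by simp)) ?_
      refine .head (hs_mk (nonterminal c2 :: X ++ u.map (brs PR))
        (v.map (pls PR) ++ nonterminal d :: Y) (.app ⟨_, h1⟩) (by simp [rule]) rfl
        (by simp [rule]) (by simp [rule])) ?_
      have b := unbar_all (S := S) (PL := PL) (nonterminal c2 :: X)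
        (z.map (pls PR) ++ v.map (pls PR) ++ nonterminal d :: Y) (by simp) u
      refine .trans (by simpa [rule] using b) ?_
      refine .head (hs_mk (nonterminal c2 :: X ++ (u ++ z ++ v).map (pls PR)) Y .d
        (by simp [rule]) rfl (by simp [rule]) ?_) ?_
      · simp only [rule, Finset.mem_union, Finset.mem_image, Finset.mem_univ, true_and]
        rintro _ (⟨a, rfl⟩ | ⟨a, rfl⟩) <;> simpa using fun h => by simpa using hx _ h
      exact .head (hs_mk [] (X ++ (u ++ z ++ v).map (pls PR) ++ Y) .c2 (by simp [rule]) rfl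
        (by simp [rule]) (by simp)) (by simpa [rule] using ih)

theorem init (n : ℕ) : ReflTransGen (HS S PL PR) [nonterminal st]
    (replicate n (nonterminal x) ++ [nonterminal st] ++ replicate n (nonterminal y)) := by
  induction n with
  | zero => exact .refl
  | succ n ih =>
    refine ih.tail (hs_mk (replicate n (nonterminal x)) (replicate n (nonterminal y)) .s1
      (by simp [rule]) ?_ (by simp [rule]) (by simp [rule]))
    rw [replicate_succ', replicate_succ]
    simp [rule]

theorem complete {w : List T} (h : ReflTransGen (Step PL PR) [nonterminal S] (w.map terminal)) :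
    ReflTransGen (HS S PL PR) [nonterminal st] (w.map terminal) := by
  obtain ⟨n, h⟩ := sim (S := S) h
  exact ((init n).tail (hs_mk (replicate n (nonterminal x)) (replicate n (nonterminal y)) .s2
    (by simp [rule]) (by simp [rule, pls]) (by simp [rule]) (by simp [rule]))).trans h

end

end Pool.Agent.H37.LRC
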