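import Pool.Agent.H37.LRC

set_option autoImplicit false

namespace Pool.Agent.H37.LRC

open Relation List Classical NT Symbol

noncomputable section

theorem split {α : Type} {l1 l2 u v : List α} {A : α} (h : l1 ++ l2 = u ++ A :: v) :
    (∃ v', l1 = u ++ A :: v' ∧ v = v' ++ l2) ∨ (∃ u', u = l1 ++ u' ∧ l2 = u' ++ A :: v) := by
  rcases append_eq_append_iff.1 h with ⟨a, h1, h2⟩ | ⟨c, h1, h2⟩
  · exact .inr ⟨a, h1, h2⟩
  · cases c with
    | nil => exact .inr ⟨[], by simpa using h1.symm, by simpa using h2.symm⟩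
    | cons s c =>
      simp only [cons_append, cons.injEq] at h2
      exact .inl ⟨c, by rw [h1, h2.1], h2.2⟩

theorem headC {α : Type} {C u v : List α} {a : ℕ} {x A : α} (hC : C.length ≤ 1)
    (h : C ++ replicate a x = u ++ A :: v) (hA : A ≠ x) :
    u = [] ∧ C = [A] ∧ v = replicate a x := by
  rcases split h with ⟨v', h1, h2⟩ | ⟨u', -, h2⟩
  · subst h1
    simp only [length_append, length_cons] at hC
    obtain rfl : u = [] := length_eq_zero_iff.1 (by omega)
    obtain rfl : v' = [] := length_eq_zero_iff.1 (by omega)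
    simp [h2]
  · exact absurd (eq_of_mem_replicate (h2 ▸ by simp : A ∈ replicate a x)) hA

theorem headX {α : Type} {C u v : List α} {a : ℕ} {x : α} (hC : x ∉ C)
    (h : C ++ replicate a x = u ++ x :: v) (h1 : x ∉ u) (h2 : ∀ c ∈ C, c ∉ u) :
    u = [] ∧ C = [] ∧ ∃ a', a = a' + 1 ∧ v = replicate a' x := by
  rcases split h with ⟨v', h3, -⟩ | ⟨u', h3, h4⟩
  · exact absurd (h3 ▸ by simp) hC
  · subst h3
    obtain rfl : C = [] := eq_nil_iff_forall_not_mem.2 fun c hc => h2 c hc (by simp [hc])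
    obtain rfl : u' = [] := eq_nil_iff_forall_not_mem.2 fun c hc => h1 (by
      have : c = x := eq_of_mem_replicate (h4 ▸ by simp [hc] : c ∈ replicate a x)
      simpa [← this] using hc)
    cases a with
    | zero => simp at h4
    | succ a => exact ⟨rfl, rfl, a, rfl, by simpa [replicate_succ, eq_comm] using h4⟩

variable {T N : Type} [Fintype N] {S : N} {PL PR : Finset (Rl T N)}

def Mid (M : List (Sy PR)) : Prop :=
  ∀ B, nonterminal B ∈ M → (∃ A, B = pl A) ∨ (∃ A, B = br A) ∨ ∃ r, B = mk r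

theorem step_cases {C M D β : List (Sy PR)} {a b : ℕ}
    (hC : C = [] ∨ C = [nonterminal c1] ∨ C = [nonterminal c2])
    (hD : D = [] ∨ D = [nonterminal d]) (hM : M = [nonterminal st] ∨ Mid M)
    (h : HS S PL PR (C ++ replicate a (nonterminal x) ++ (M ++ (D ++ replicate b (nonterminal y))))
      β) :
    (C = [] ∧ ∃ a', a = a' + 1 ∧ β = [nonterminal c1] ++ replicate a' (nonterminal x) ++
      (M ++ (D ++ replicate b (nonterminal y)))) ∨
    (C = [nonterminal c1] ∧ β = [nonterminal c2] ++ replicate a (nonterminal x) ++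
      (M ++ (D ++ replicate b (nonterminal y)))) ∨
    (C = [nonterminal c2] ∧ β = [] ++ replicate a (nonterminal x) ++
      (M ++ (D ++ replicate b (nonterminal y)))) ∨
    (∃ m1 m2 i, M = m1 ++ nonterminal (rule S PL PR i).1 :: m2 ∧
      β = C ++ replicate a (nonterminal x) ++
        ((m1 ++ (rule S PL PR i).2.1 ++ m2) ++ (D ++ replicate b (nonterminal y))) ∧
      (∀ B ∈ (rule S PL PR i).2.2.1, nonterminal B ∈ C ++ replicate a (nonterminal x) ++ m1) ∧
      (∀ B ∈ (rule S PL PR i).2.2.2, nonterminal B ∉ C ++ replicate a (nonterminal x) ++ m1)) ∨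
    (D = [] ∧ C = [nonterminal c1] ∧ ∃ b' r, b = b' + 1 ∧ β = C ++ replicate a (nonterminal x) ++
      (M ++ ([nonterminal d] ++ replicate b' (nonterminal y))) ∧ nonterminal (mk r) ∈ M ∧
      (∀ B ∈ r.1.2.2.1, nonterminal (pl B) ∈ M) ∧ ∀ B ∈ r.1.2.2.2, nonterminal (pl B) ∉ M) ∨
    (D = [nonterminal d] ∧ C = [nonterminal c2] ∧ β = C ++ replicate a (nonterminal x) ++
      (M ++ ([] ++ replicate b (nonterminal y))) ∧ (∀ B, nonterminal (br B) ∉ M) ∧
      ∀ r, nonterminal (mk r) ∉ M) := by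
  obtain ⟨u, v, i, h1, rfl, h3, h4⟩ := hs_iff.1 h
  have hCl : C.length ≤ 1 := by rcases hC with rfl | rfl | rfl <;> simp
  have hDl : D.length ≤ 1 := by rcases hD with rfl | rfl <;> simp
  have hMc : ∀ B, (B = c1 ∨ B = c2) → nonterminal B ∉ M := by
    rintro B hB hm
    rcases hM with rfl | hM
    · rcases hB with rfl | rfl <;> simp at hm
    · rcases hB with rfl | rfl <;> simpa using hM _ hm
  rcases split h1 with ⟨v', e1, rfl⟩ | ⟨u', rfl, e1⟩
  · by_cases hx : (rule S PL PR i).1 = x
    · obtain rfl : i = .x := by cases i <;> simp [rule] at hx ⊢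
      obtain ⟨rfl, rfl, a', rfl, rfl⟩ := headX (by rcases hC with rfl | rfl | rfl <;> simp) e1
        (h4 _ (by simp [rule])) (by
          rcases hC with rfl | rfl | rfl <;> simp <;> exact h4 _ (by simp [rule]))
      exact .inl ⟨rfl, a', rfl, by simp [rule]⟩
    · obtain ⟨rfl, e2, rfl⟩ := headC hCl e1 (by simpa using hx)
      rcases hC with rfl | rfl | rfl
      · simp at e2
      · obtain rfl : i = .c1 := by cases i <;> simp [rule] at e2 ⊢
        exact .inr (.inl ⟨rfl, by simp [rule]⟩)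
      · obtain rfl : i = .c2 := by cases i <;> simp [rule] at e2 ⊢
        exact .inr (.inr (.inl ⟨rfl, by simp [rule]⟩))
  rcases split e1 with ⟨v', e2, rfl⟩ | ⟨u'', rfl, e2⟩
  · exact .inr (.inr (.inr (.inl ⟨u', v', i, e2, by simp, h3, h4⟩)))
  refine .inr (.inr (.inr (.inr ?_)))
  by_cases hy : (rule S PL PR i).1 = y
  · obtain ⟨r, rfl⟩ : ∃ r, i = .obs r := by cases i <;> simp [rule] at hy ⊢
    obtain ⟨rfl, rfl, b', rfl, rfl⟩ := headX (by rcases hD with rfl | rfl <;> simp) e2
      (fun h => h4 y (by simp [rule]) (by simp [h])) (by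
        rcases hD with rfl | rfl <;> simp
        exact fun h => h4 d (by simp [rule]) (by simp [h]))
    have k1 := h3 c1 (by simp [rule])
    have k2 := h3 (mk r) (by simp [rule])
    have k0 := hMc c1 (by simp)
    refine .inl ⟨rfl, ?_, b', r, rfl, by simp [rule], ?_, fun B hB => ?_, fun B hB h => ?_⟩
    · rcases hC with rfl | rfl | rfl <;> simp [k0] at k1 ⊢
    · rcases hC with rfl | rfl | rfl <;> simpa using k2
    · have := h3 (pl B) (by simp [rule, hB])
      rcases hC with rfl | rfl | rfl <;> simpa using this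
    · exact h4 (pl B) (by simp [rule, hB]) (by simp [h])
  · obtain ⟨rfl, e3, rfl⟩ := headC hDl e2 (by simpa using hy)
    rcases hD with rfl | rfl
    · simp at e3
    obtain rfl : i = .d := by cases i <;> simp [rule] at e3 ⊢
    have k1 := h3 c2 (by simp [rule])
    have k0 := hMc c2 (by simp)
    refine .inr ⟨rfl, ?_, by simp [rule], fun B h => h4 (br B) (by simp [rule]) (by simp [h]),
      fun B h => h4 (mk B) (by simp [rule]) (by simp [h])⟩
    rcases hC with rfl | rfl | rfl <;> simp [k0] at k1 ⊢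

def er : Sy PR → List (Symbol T N)
  | terminal t => [terminal t]
  | nonterminal (pl B) => [nonterminal B]
  | nonterminal (br B) => [nonterminal B]
  | nonterminal (mk r) => r.1.2.1
  | nonterminal _ => []

omit [Fintype N] in
@[simp] theorem er_pls (α : List (Symbol T N)) : (α.map (pls PR)).flatMap er = α := by
  induction α with
  | nil => rfl
  | cons s α ih => cases s <;> simp [pls, er] <;> simpa using ih

omit [Fintype N] in
@[simp] theorem er_brs (α : List (Symbol T N)) : (α.map (brs PR)).flatMap er = α := by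
  induction α with
  | nil => rfl
  | cons s α ih => cases s <;> simp [brs, er] <;> simpa using ih

omit [Fintype N] in
theorem pls_er {M : List (Sy PR)} (h : Mid M) (h1 : ∀ B, nonterminal (br B) ∉ M)
    (h2 : ∀ r, nonterminal (mk r) ∉ M) : M = (M.flatMap er).map (pls PR) := by
  induction M with
  | nil => rfl
  | cons s M ih =>
    have := ih (fun B hB => h B (by simp [hB])) (fun B hB => h1 B (by simp [hB]))
      (fun B hB => h2 B (by simp [hB]))
    rw [flatMap_cons, map_append, ← this]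
    cases s with
    | terminal t => rfl
    | nonterminal B =>
      rcases h B (by simp) with ⟨A, rfl⟩ | ⟨A, rfl⟩ | ⟨A, rfl⟩
      · rfl
      · exact absurd (by simp) (h1 A)
      · exact absurd (by simp) (h2 A)

omit [Fintype N] in
theorem pls_split {v : List (Symbol T N)} {m1 m2 : List (Sy PR)} {B : N}
    (h : v.map (pls PR) = m1 ++ nonterminal (pl B) :: m2) :
    ∃ v1 v2, v = v1 ++ nonterminal B :: v2 ∧ m1 = v1.map (pls PR) ∧ m2 = v2.map (pls PR) := by
  obtain ⟨v1, v', rfl, rfl, h'⟩ := map_eq_append_iff.1 h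
  obtain ⟨s, v2, rfl, h1, rfl⟩ := map_eq_cons_iff.1 h'
  cases s with
  | terminal t => simp [pls] at h1
  | nonterminal A =>
    obtain rfl : A = B := by simpa [pls] using h1
    exact ⟨v1, v2, rfl, rfl, rfl⟩

omit [Fintype N] in
theorem bp_split {u v : List (Symbol T N)} {m1 m2 : List (Sy PR)} {B : N}
    (h : u.map (brs PR) ++ v.map (pls PR) = m1 ++ nonterminal (pl B) :: m2)
    (h1 : ∀ A, nonterminal (pl A) ∉ m1) :
    ∃ u' v', u ++ v = u' ++ nonterminal B :: v' ∧ m1 = u'.map (brs PR) ∧ m2 = v'.map (pls PR) := by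
  rcases split h with ⟨v', h2, -⟩ | ⟨u', rfl, h2⟩
  · have : nonterminal (pl B) ∈ u.map (brs PR) := h2 ▸ by simp
    simp at this
  · obtain ⟨v1, v2, rfl, rfl, rfl⟩ := pls_split h2
    refine ⟨u ++ v1, v2, by simp, ?_, rfl⟩
    rw [map_append]
    congr 1
    refine map_congr_left fun s hs => ?_
    cases s with
    | terminal t => rfl
    | nonterminal A => exact absurd (by simp [hs]) (h1 A)

omit [Fintype N] in
theorem mk_split {u v : List (Symbol T N)} {m1 m2 : List (Sy PR)} {B : N} {r : PR}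
    (h : u.map (brs PR) ++ nonterminal (mk r) :: v.map (pls PR) = m1 ++ nonterminal (pl B) :: m2) :
    nonterminal (mk r) ∈ m1 := by
  rcases split h with ⟨v', h2, -⟩ | ⟨u', rfl, h2⟩
  · have : nonterminal (pl B) ∈ u.map (brs PR) := h2 ▸ by simp
    simp at this
  · cases u' with
    | nil => simp at h2
    | cons s u' => simp only [cons_append, cons.injEq] at h2; simp [h2.1]

variable (S PL PR) in
def Der (α : List (Symbol T N)) : Prop := ReflTransGen (Step PL PR) [nonterminal S] α

variable (S PL) in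
def Inv (β : List (Sy PR)) : Prop := ∃ (C M D : List (Sy PR)) (a b c e : ℕ),
  β = C ++ replicate a (nonterminal x) ++ (M ++ (D ++ replicate b (nonterminal y))) ∧
  ((C = [] ∧ c = 0) ∨ (C = [nonterminal c1] ∧ c = 2) ∨ (C = [nonterminal c2] ∧ c = 1)) ∧
  ((D = [] ∧ e = 0) ∨ (D = [nonterminal d] ∧ e = 1)) ∧
  ((M = [nonterminal st] ∧ e = 0) ∨ Mid M) ∧
  (2 * a + c < 2 * b + e ∨
   (c ≤ 1 ∧ e = 0 ∧ a = b ∧ (M = [nonterminal st] ∨ ∃ α, Der S PL PR α ∧ M = α.map (pls PR))) ∨
   (c = 2 ∧ e = 0 ∧ b = a + 1 ∧ (M = [nonterminal st] ∨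
      (∃ u v, Der S PL PR (u ++ v) ∧ M = u.map (brs PR) ++ v.map (pls PR)) ∨
      ∃ u v, ∃ r : PR, Der S PL PR (u ++ nonterminal r.1.1 :: v) ∧
        M = u.map (brs PR) ++ nonterminal (mk r) :: v.map (pls PR))) ∨
   (c = 2 ∧ e = 1 ∧ a = b ∧ Der S PL PR (M.flatMap er) ∧ ∃ u v : List (Symbol T N), ∃ r : PR,
        M = u.map (brs PR) ++ nonterminal (mk r) :: v.map (pls PR)) ∨
   (c = 1 ∧ e = 1 ∧ a = b ∧ Der S PL PR (M.flatMap er)))

theorem inv_step {α β : List (Sy PR)} (h : Inv S PL α) (hs : HS S PL PR α β) : Inv S PL β := by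
  obtain ⟨C, M, D, a, b, c, e, rfl, hC, hD, hM, h⟩ := h
  rcases step_cases (by tauto) (by tauto) (by tauto) hs with ⟨rfl, a, rfl, rfl⟩ | ⟨rfl, rfl⟩ |
    ⟨rfl, rfl⟩ | ⟨m1, m2, i, e1, rfl, h3, h4⟩ | ⟨rfl, rfl, b, r, rfl, rfl, h1, h2, h3⟩ |
    ⟨rfl, rfl, rfl, h1, h2⟩
  · obtain rfl : c = 0 := by simpa using hC
    refine ⟨_, M, D, a, b, 2, e, rfl, by simp, hD, hM, ?_⟩
    rcases h with h | ⟨-, h1, h2, h⟩ | h | h | h
    · exact .inl (by omega)
    · refine .inr (.inr (.inl ⟨rfl, h1, h2.symm, h.imp id fun ⟨α, h, h'⟩ =>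
        .inl ⟨[], α, h, by simpa using h'⟩⟩))
    all_goals omega
  · obtain rfl : c = 2 := by simpa using hC
    refine ⟨_, M, D, a, b, 1, e, rfl, by simp, hD, hM, ?_⟩
    rcases h with h | h | h | ⟨-, h1, h2, h, -⟩ | h
    · exact .inl (by omega)
    · omega
    · exact .inl (by omega)
    · exact .inr (.inr (.inr (.inr ⟨rfl, h1, h2, h⟩)))
    · omega
  · obtain rfl : c = 1 := by simpa using hC
    refine ⟨_, M, D, a, b, 0, e, rfl, by simp, hD, hM, ?_⟩
    rcases h with h | ⟨-, h⟩ | h | h | h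
    · exact .inl (by omega)
    · exact .inr (.inl ⟨by omega, h⟩)
    · omega
    · omega
    · exact .inl (by omega)
  · rcases hM with ⟨rfl, rfl⟩ | hM
    · obtain rfl : D = [] := by simpa using hD
      obtain ⟨rfl, rfl, e2⟩ : m1 = [] ∧ m2 = [] ∧ (rule S PL PR i).1 = st := by
        cases m1 with
        | nil => simpa [eq_comm, and_comm] using e1
        | cons s m => simp at e1
      obtain rfl | rfl : i = .s1 ∨ i = .s2 := by cases i <;> simp [rule] at e2 ⊢
      · refine ⟨C, [nonterminal st], [], a + 1, b + 1, c, 0, ?_, hC, hD, by simp, ?_⟩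
        · rw [replicate_succ', replicate_succ]; simp [rule]
        · rcases h with h | h | h | h | h
          · exact .inl (by omega)
          · exact .inr (.inl ⟨h.1, rfl, by omega, .inl rfl⟩)
          · exact .inr (.inr (.inl ⟨h.1, rfl, by omega, .inl rfl⟩))
          all_goals omega
      · refine ⟨C, [nonterminal (pl S)], [], a, b, c, 0, by simp [rule], hC, hD,
          .inr (by simp [Mid]), ?_⟩
        rcases h with h | h | h | h | h
        · exact .inl h
        · exact .inr (.inl ⟨h.1, rfl, h.2.2.1, .inr ⟨_, .refl, rfl⟩⟩)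
        · exact .inr (.inr (.inl ⟨h.1, rfl, h.2.2.1, .inr (.inl ⟨[], _, .refl, rfl⟩)⟩))
        all_goals omega
    have hst : M ≠ [nonterminal st] := by rintro rfl; simpa using hM st
    have hA := hM _ (e1 ▸ by simp : nonterminal (rule S PL PR i).1 ∈ M)
    have hm1 : ∀ B, (B = c1 ∨ B = c2) → nonterminal B ∉ m1 := by
      rintro B hB hm
      have := hM B (e1 ▸ by simp [hm])
      rcases hB with rfl | rfl <;> simp at this
    have k1 : nonterminal c1 ∈ C ++ replicate a (nonterminal x) ++ m1 ↔ c = 2 := by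
      have := hm1 c1 (by simp)
      rcases hC with ⟨rfl, rfl⟩ | ⟨rfl, rfl⟩ | ⟨rfl, rfl⟩ <;> simp [this]
    have k2 : nonterminal c2 ∈ C ++ replicate a (nonterminal x) ++ m1 ↔ c = 1 := by
      have := hm1 c2 (by simp)
      rcases hC with ⟨rfl, rfl⟩ | ⟨rfl, rfl⟩ | ⟨rfl, rfl⟩ <;> simp [this]
    have k3 : ∀ B, nonterminal (pl B) ∈ C ++ replicate a (nonterminal x) ++ m1 ↔
        nonterminal (pl B) ∈ m1 := fun B => by
      rcases hC with ⟨rfl, rfl⟩ | ⟨rfl, rfl⟩ | ⟨rfl, rfl⟩ <;> simp
    refine ⟨C, _, D, a, b, c, e, rfl, hC, hD, .inr ?_, ?_⟩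
    · intro B hB
      simp only [mem_append] at hB
      rcases hB with (hB | hB) | hB
      · exact hM B (e1 ▸ by simp [hB])
      · cases i <;> simp [rule] at hA hB <;> first | (subst hB; simp) | (obtain ⟨_, rfl, -⟩ := hB; simp)
      · exact hM B (e1 ▸ by simp [hB])
    rcases h with h | h
    · exact .inl h
    right
    cases i with
    | left r =>
      have a1 : c ≠ 2 := fun h => h4 c1 (by simp [rule]) (k1.2 h)
      have a2 : c ≠ 1 := fun h => h4 c2 (by simp [rule]) (k2.2 h)
      rcases h with ⟨h0, h1, h2, h | ⟨α, h, rfl⟩⟩ | h | h | h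
      · exact absurd h hst
      · obtain ⟨v1, v2, rfl, rfl, rfl⟩ := pls_split e1
        refine .inl ⟨h0, h1, h2, .inr ⟨v1 ++ r.1.2.1 ++ v2,
          h.tail ⟨v1, v2, r.1.1, r.1.2.1, r.1.2.2.1, r.1.2.2.2, by simp, rfl,
            .inl ⟨r.2, fun B hB => ?_, fun B hB hb => ?_⟩⟩, by simp [rule]⟩⟩
        · simpa using (k3 B).1 (h3 (pl B) (by simp [rule, hB]))
        · exact h4 (pl B) (by simp [rule, hB]) ((k3 B).2 (by simp [hb]))
      all_goals omega
    | bar B =>
      have a1 := k1.1 (h3 c1 (by simp [rule]))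
      have a2 : ∀ A, nonterminal (pl A) ∉ m1 := fun A h => h4 (pl A) (by simp [rule]) (by simp [h])
      have a3 : ∀ A, nonterminal (mk A) ∉ m1 := fun A h => h4 (mk A) (by simp [rule]) (by simp [h])
      rcases h with h | ⟨h0, h1, h2, h | ⟨u, v, h, rfl⟩ | ⟨u, v, r, h, rfl⟩⟩ |
        ⟨-, -, -, -, u, v, r, rfl⟩ | h
      · omega
      · exact absurd h hst
      · obtain ⟨u', v', e2, rfl, rfl⟩ := bp_split e1 a2
        exact .inr (.inl ⟨h0, h1, h2, .inr (.inl ⟨u' ++ [nonterminal B], v', by simpa [e2] using h,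
          by simp [rule, brs]⟩)⟩)
      · exact absurd (mk_split e1) (a3 r)
      · exact absurd (mk_split e1) (a3 r)
      · omega
    | mark r' =>
      have a1 := k1.1 (h3 c1 (by simp [rule]))
      have a2 : ∀ A, nonterminal (pl A) ∉ m1 := fun A h => h4 (pl A) (by simp [rule]) (by simp [h])
      have a3 : ∀ A, nonterminal (mk A) ∉ m1 := fun A h => h4 (mk A) (by simp [rule]) (by simp [h])
      rcases h with h | ⟨h0, h1, h2, h | ⟨u, v, h, rfl⟩ | ⟨u, v, r, h, rfl⟩⟩ |
        ⟨-, -, -, -, u, v, r, rfl⟩ | h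
      · omega
      · exact absurd h hst
      · obtain ⟨u', v', e2, rfl, rfl⟩ := bp_split e1 a2
        exact .inr (.inl ⟨h0, h1, h2, .inr (.inr ⟨u', v', r', by simpa [e2] using h,
          by simp [rule]⟩)⟩)
      · exact absurd (mk_split e1) (a3 r)
      · exact absurd (mk_split e1) (a3 r)
      · omega
    | unbar B =>
      have a1 := k2.1 (h3 c2 (by simp [rule]))
      rcases h with ⟨h0, h1, h2, h | ⟨α, h, rfl⟩⟩ | h | h | ⟨h0, h1, h2, h⟩
      · exact absurd h hst
      · have : nonterminal (br B) ∈ α.map (pls PR) := e1 ▸ by simp [rule]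
        simp at this
      · omega
      · omega
      · exact .inr (.inr (.inr ⟨h0, h1, h2, by simpa [e1, rule, er] using h⟩))
    | app r =>
      have a1 := k2.1 (h3 c2 (by simp [rule]))
      rcases h with ⟨h0, h1, h2, h | ⟨α, h, rfl⟩⟩ | h | h | ⟨h0, h1, h2, h⟩
      · exact absurd h hst
      · have : nonterminal (mk r) ∈ α.map (pls PR) := e1 ▸ by simp [rule]
        simp at this
      · omega
      · omega
      · refine .inr (.inr (.inr ⟨h0, h1, h2, ?_⟩))
        simp only [e1, rule, flatMap_append, er_pls, flatMap_cons, er, append_assoc] at h ⊢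
        exact h
    | _ => simp [rule] at hA
  · obtain rfl : c = 2 := by simpa using hC
    obtain rfl : e = 0 := by simpa using hD
    have hM : Mid M := by
      rcases hM with ⟨rfl, -⟩ | hM
      · simp at h1
      · exact hM
    refine ⟨_, M, _, a, b, 2, 1, rfl, by simp, by simp, .inr hM, ?_⟩
    rcases h with h | h | ⟨-, -, h0, rfl | ⟨u, v, h, rfl⟩ | ⟨u, v, r', h, rfl⟩⟩ | h | h
    · exact .inl (by omega)
    · omega
    · simp at h1
    · simp at h1
    · obtain rfl : r = r' := by simpa using h1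
      refine .inr (.inr (.inr (.inl ⟨rfl, rfl, by omega, ?_, u, v, r, rfl⟩)))
      simp only [flatMap_append, er_pls, er_brs, flatMap_cons, er]
      exact h.tail ⟨u, v, r.1.1, r.1.2.1, r.1.2.2.1, r.1.2.2.2, by simp, by simp,
        .inr ⟨r.2, fun B hB => by simpa using h2 B hB, fun B hB => by simpa using h3 B hB⟩⟩
    all_goals omega
  · obtain rfl : c = 1 := by simpa using hC
    obtain rfl : e = 1 := by simpa using hD
    have hM : Mid M := by simpa using hM
    refine ⟨_, M, _, a, b, 1, 0, rfl, by simp, by simp, .inr hM, ?_⟩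
    rcases h with h | h | h | h | ⟨-, -, h0, h⟩
    · exact .inl (by omega)
    · omega
    · omega
    · omega
    · exact .inr (.inl ⟨le_rfl, rfl, h0, .inr ⟨_, h, pls_er hM h1 h2⟩⟩)

theorem sound {w : List T} (h : ReflTransGen (HS S PL PR) [nonterminal st] (w.map terminal)) :
    ReflTransGen (Step PL PR) [nonterminal S] (w.map terminal) := by
  have : ∀ β, ReflTransGen (HS S PL PR) [nonterminal st] β → Inv S PL β := by
    intro β h
    induction h with
    | refl => exact ⟨[], [nonterminal st], [], 0, 0, 0, 0, rfl, by simp, by simp, by simp, by simp⟩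
    | tail _ h ih => exact inv_step ih h
  obtain ⟨C, M, D, a, b, c, e, e1, hC, hD, hM, h⟩ := this _ h
  have k : ∀ B, nonterminal B ∉ C ++ replicate a (nonterminal x) ++
      (M ++ (D ++ replicate b (nonterminal y))) := fun B => by rw [← e1]; simp
  have ha : a = 0 := by by_contra h; exact k x (by simp [h])
  have hb : b = 0 := by by_contra h; exact k y (by simp [h])
  subst ha hb
  obtain ⟨rfl, rfl⟩ : C = [] ∧ c = 0 := by
    rcases hC with h | ⟨rfl, -⟩ | ⟨rfl, -⟩
    exacts [h, absurd (by simp) (k c1), absurd (by simp) (k c2)]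
  obtain ⟨rfl, rfl⟩ : D = [] ∧ e = 0 := by
    rcases hD with h | ⟨rfl, -⟩
    exacts [h, absurd (by simp) (k d)]
  rcases h with h | ⟨-, -, -, rfl | ⟨α, h, rfl⟩⟩ | h | h | h
  · omega
  · exact absurd (by simp) (k st)
  · have := congrArg (flatMap er) e1
    simp only [replicate_zero, append_nil, nil_append, er_pls] at this
    have e2 : ∀ w : List T, (w.map (terminal : T → Sy PR)).flatMap er = w.map terminal := by
      intro w
      induction w with
      | nil => rfl
      | cons t w ih => simpa [er] using ih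
    rw [← this, e2] at h
    exact h
  all_goals omega

theorem main (T N : Type) (_ : Finite T) (_ : Finite N) (S : N) (PL PR : Finset (Rl T N)) :
    ∃ (N' : Type), Finite N' ∧ ∃ (S' : N') (PL' PR' : Finset (Rl T N')),
      (∀ (A : N') (x : List (Symbol T N')) (U W : Finset N'),
          (A, x, U, W) ∈ PR' → U = ∅ ∧ W = ∅) ∧
      ∀ w : List T, ReflTransGen (Step PL PR) [nonterminal S] (w.map terminal) ↔
        ReflTransGen (Step PL' PR') [nonterminal S'] (w.map terminal) := by
  haveI := Fintype.ofFinite N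
  exact ⟨NT N PR, inferInstance, st, PL' S PL PR, ∅, by simp, fun w => ⟨complete, sound⟩⟩

end

end Pool.Agent.H37.LRC
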