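import Pool.Agent.H37.RE

/-! A highly recursive graph of maximum degree five without recursive (1,3)-partition. -/

set_option autoImplicit false

namespace Pool.Agent.H37.Lov

open Encodable

abbrev X := ℕ × List ℕ × ℕ

/-- an eleven vertex graph in which vertex `0` is never on the sparse side -/
def gad (j : ℕ) : List ℕ :=
  [[1, 4, 6, 8], [0, 2, 4, 6, 7], [1, 3, 5, 9, 10], [2, 4, 6, 7, 10], [0, 1, 3, 5, 8],
    [2, 4, 7, 9, 10], [0, 1, 3, 8, 9], [1, 3, 5, 8, 9], [0, 4, 6, 7, 10], [2, 5, 6, 7, 10],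
    [2, 3, 5, 8, 9]].getD j []

theorem gad_ok : ∀ j < 11, (gad j).Nodup ∧ ∀ k ∈ gad j, j ∈ gad k ∧ j ≠ k ∧ k < 11 := by decide

theorem gad_len (j : ℕ) : (gad j).length ≤ 5 := by
  by_cases h : j < 11
  · revert j; decide
  · rw [gad, List.getD_eq_default _ _ (by simpa using h)]; simp

theorem force' : ∀ a b c d e f g h i j k : Bool, ((List.range 11).all fun v =>
    decide (((gad v).filter fun u => [a, b, c, d, e, f, g, h, i, j, k].getD u false ==
      [a, b, c, d, e, f, g, h, i, j, k].getD v false).length ≤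
        cond ([a, b, c, d, e, f, g, h, i, j, k].getD v false) 1 3)) = true → a = false := by
  decide +kernel

theorem force (f : ℕ → Bool)
    (h : ∀ v < 11, ((gad v).filter fun u => f u == f v).length ≤ cond (f v) 1 3) :
    f 0 = false := by
  have e : ∀ u < 11, [f 0, f 1, f 2, f 3, f 4, f 5, f 6, f 7, f 8, f 9, f 10].getD u false = f u :=
    fun u hu => by interval_cases u <;> rfl
  refine force' (f 0) (f 1) (f 2) (f 3) (f 4) (f 5) (f 6) (f 7) (f 8) (f 9) (f 10)
    (List.all_eq_true.2 fun v hv => decide_eq_true ?_)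
  have hv := List.mem_range.1 hv
  rw [e v hv, List.filter_congr fun u hu => by rw [e u ((gad_ok v hv).2 u hu).2.2]]
  exact h v hv

def stop (e d : ℕ) : Bool := ev e (encode ((e, [], 0) : X)) d == some ((d + 1) % 2)

def nb (x : X) : List X :=
  cond (x.2.2 == 0) ((x.1, x.2.1.tail, 0) :: cond (stop x.1 x.2.1.length)
    ((gad 0).map fun k => (x.1, x.2.1, k)) ((List.range 4).map fun i => (x.1, i :: x.2.1, 0)))
    ((gad x.2.2).map fun k => (x.1, x.2.1, k))

def adj (x y : X) : Bool := (nb x).contains y && ((nb y).contains x && x != y)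

theorem nb_len (x : X) : (nb x).length ≤ 5 := by
  unfold nb
  cases x.2.2 == 0
  · simpa using gad_len _
  · cases stop x.1 x.2.1.length <;> simp [gad]

theorem ci_nb : CI ∅ nb := by unfold nb stop gad; fun_prop

def G : SimpleGraph ℕ where
  Adj a b := adj (Denumerable.ofNat X a) (Denumerable.ofNat X b) = true
  symm := ⟨fun a b h => by
    simp only [adj, Bool.and_eq_true, bne_iff_ne] at h ⊢
    exact ⟨h.2.1, h.1, h.2.2.symm⟩⟩
  loopless := ⟨fun a h => by simp [adj] at h⟩

theorem sub (a : ℕ) :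
    G.neighborSet a ⊆ ↑((nb (Denumerable.ofNat X a)).map encode).toFinset := fun b hb => by
  have : adj (Denumerable.ofNat X a) (Denumerable.ofNat X b) = true := hb
  simp only [adj, Bool.and_eq_true, List.contains_iff_mem] at this
  exact List.mem_toFinset.2 (List.mem_map.2 ⟨_, this.1, Denumerable.encode_ofNat b⟩)

theorem fin (a : ℕ) : (G.neighborSet a).Finite := (Finset.finite_toSet _).subset (sub a)

theorem deg_le (a : ℕ) : (G.neighborSet a).ncard ≤ 5 :=
  (Set.ncard_le_ncard (sub a)).trans (by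
    rw [Set.ncard_coe_finset]
    exact (List.toFinset_card_le _).trans (by simpa using nb_len _))

theorem len_le {x : X} {l : List X} {S : Set ℕ} (h1 : l.Nodup)
    (h2 : ∀ y ∈ l, adj x y = true ∧ encode y ∈ S) :
    l.length ≤ (G.neighborSet (encode x) ∩ S).ncard := by
  rw [← List.length_map (f := encode), ← List.toFinset_card_of_nodup (h1.map encode_injective),
    ← Set.ncard_coe_finset]
  refine Set.ncard_le_ncard (fun b hb => ?_) ((fin _).inter_of_left _)
  obtain ⟨y, hy, rfl⟩ := List.mem_map.1 (List.mem_toFinset.1 hb)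
  exact ⟨by simpa only [G, SimpleGraph.mem_neighborSet, Denumerable.ofNat_encode] using (h2 y hy).1,
    (h2 y hy).2⟩

theorem adj_gad {e j k : ℕ} {σ : List ℕ} (h : stop e σ.length = true ∨ (j ≠ 0 ∧ k ≠ 0))
    (hj : j < 11) (hk : k ∈ gad j) : adj (e, σ, j) (e, σ, k) = true := by
  have : ∀ j k, (stop e σ.length = true ∨ j ≠ 0) → k ∈ gad j → (e, σ, k) ∈ nb (e, σ, j) := by
    intro j k h hk
    by_cases h0 : j = 0
    · subst h0; simp [nb, h.resolve_right (by simp), hk]
    · simp [nb, beq_eq_false_iff_ne.2 h0, hk]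
  have h1 := (gad_ok j hj).2 k hk
  simp [adj, this j k (h.imp_right And.left) hk, this k j (h.imp_right And.right) h1.1, h1.2.1]

theorem main : ¬ ∃ V₁ V₂ : Set ℕ, ComputablePred (fun x : ℕ => x ∈ V₁) ∧ V₁ ∪ V₂ = Set.univ ∧
    (∀ x ∈ V₁, (G.neighborSet x ∩ V₁).ncard ≤ 1) ∧
    ∀ x ∈ V₂, (G.neighborSet x ∩ V₂).ncard ≤ 3 := by
  rintro ⟨V₁, V₂, h1, h2, h3, h4⟩
  obtain ⟨f, f1, f2⟩ := computablePred_iff.1 h1
  obtain ⟨e, he⟩ := exists_index f1.toNat
  have key : ∀ (x : X) (l : List X), l.Nodup → (∀ y ∈ l, adj x y = true ∧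
      f (encode y) = f (encode x)) → l.length ≤ cond (f (encode x)) 1 3 := fun x l a1 a2 => by
    have b : ∀ n, f n = false → n ∈ V₂ := fun n hn =>
      (show n ∈ V₁ ∪ V₂ by simp [h2]).resolve_left (by simp [f2, hn])
    cases hx : f (encode x)
    · exact (len_le a1 fun y hy => ⟨(a2 y hy).1, b _ ((a2 y hy).2.trans hx)⟩).trans
        (h4 _ (b _ hx))
    · exact (len_le a1 fun y hy => ⟨(a2 y hy).1, (f2 _).2 ((a2 y hy).2.trans hx)⟩).trans
        (h3 _ ((f2 _).2 hx))
  obtain ⟨s, hs⟩ := he (encode ((e, [], 0) : X))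
  have ex : ∃ d, stop e d = true := ⟨2 * s + 1 + (f (encode ((e, [], 0) : X))).toNat, by
    rw [stop, ev_mono (by omega) hs]
    cases f (encode ((e, [], 0) : X)) <;> simp <;> omega⟩
  have ind : ∀ k (σ : List ℕ), σ.length + k = Nat.find ex →
      (f (encode ((e, σ, 0) : X))).toNat = k % 2 := fun k => by
    induction k with
    | zero =>
      intro σ hσ
      rw [force (fun j => f (encode ((e, σ, j) : X))) fun v hv => ?_]
      · rfl
      rw [← List.length_map (f := fun k => ((e, σ, k) : X))]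
      refine key (e, σ, v) _ (((gad_ok v hv).1.filter _).map fun a b h => by simpa using h)
        fun y hy => ?_
      obtain ⟨u, hu, rfl⟩ := List.mem_map.1 hy
      exact ⟨adj_gad (Or.inl (by simpa [← hσ] using Nat.find_spec ex)) hv (List.mem_filter.1 hu).1,
        by simpa using (List.mem_filter.1 hu).2⟩
    | succ k ih =>
      intro σ hσ
      by_contra hc
      have a1 : stop e σ.length = false := by simpa using Nat.find_min ex (by omega)
      have := key (e, σ, 0) ((List.range 4).map fun i => (e, i :: σ, 0))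
        (List.nodup_range.map fun a b h => by simpa using h) fun y hy => by
          obtain ⟨i, hi, rfl⟩ := List.mem_map.1 hy
          have a2 := ih (i :: σ) (by simp; omega)
          refine ⟨by simp [adj, nb, a1, List.mem_range.1 hi], ?_⟩
          revert hc a2
          cases f (encode ((e, σ, 0) : X)) <;> cases f (encode ((e, i :: σ, 0) : X)) <;> simp <;>
            omega
      revert this
      cases f (encode ((e, σ, 0) : X)) <;> simp
  have a1 := ind _ [] (zero_add _)
  have a2 := ev_unique hs (beq_iff_eq.1 (Nat.find_spec ex))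
  omega

theorem ci_adj : CI ∅ fun p : ℕ × ℕ => adj (Denumerable.ofNat X p.1) (Denumerable.ofNat X p.2) := by
  have := ci_nb
  unfold adj; fun_prop

theorem deg_comp : ∃ d : ℕ → ℕ, Computable d ∧ ∀ x, (G.neighborSet x).ncard = d x := by
  have := ci_nb
  obtain ⟨a, a1, a2⟩ : ∃ a : ℕ × ℕ → Bool, CI ∅ a ∧ ∀ x y, G.Adj x y ↔ a (x, y) = true :=
    ⟨_, ci_adj, fun _ _ => Iff.rfl⟩
  refine ⟨fun x => ((List.range (((nb (Denumerable.ofNat X x)).map encode).sum + 1)).filter
    fun y => a (x, y)).length, CI.computable (by fun_prop), fun x => ?_⟩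
  beta_reduce
  rw [← List.toFinset_card_of_nodup (List.nodup_range.filter _), ← Set.ncard_coe_finset]
  congr 1
  ext y
  simp only [SimpleGraph.mem_neighborSet, List.coe_toFinset, List.mem_filter, List.mem_range,
    Set.mem_setOf_eq, ← a2, iff_and_self]
  exact fun h => Nat.lt_succ_of_le (List.single_le_sum (by simp) _ (List.mem_toFinset.1 (sub x h)))

theorem deg_five : ∃ x, (G.neighborSet x).ncard = 5 :=
  ⟨encode ((0, [], 2) : X), (deg_le _).antisymm (by
    simpa [gad] using len_le (x := (0, [], 2)) (l := (gad 2).map fun k => (0, [], k)) (S := .univ)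
      (by decide) fun y hy => by
        obtain ⟨u, hu, rfl⟩ := List.mem_map.1 hy
        exact ⟨adj_gad (Or.inr ⟨by simp, by rintro rfl; simp [gad] at hu⟩) (by simp) hu, trivial⟩)⟩

end Pool.Agent.H37.Lov
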