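import Mathlib

set_option autoImplicit false

namespace Pool.Agent.H37

open Classical in
/-- the characteristic function of a set of naturals, as an oracle -/
noncomputable def chi (X : Set ℕ) : ℕ →. ℕ := fun n => Part.some (if n ∈ X then 1 else 0)

/-- the halting set -/
def halt : Set ℕ :=
  {e | (Nat.Partrec.Code.eval (Denumerable.ofNat Nat.Partrec.Code e) e).Dom}

/-- `X` is low: every set c.e. in `X` (equivalently the jump of `X`) is computable in the
halting set -/
def Low (X : Set ℕ) : Prop :=
  ∀ f : ℕ →. ℕ, TuringReducible f (chi X) → TuringReducible (chi f.Dom) (chi halt)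

end Pool.Agent.H37
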