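import Pool.Agent.H37.RE

/-!
A computable subfield of the reals none of whose computable copies has a computable ordering.
-/

set_option autoImplicit false

namespace Pool.Agent.H37.RealFld

open Pool.Agent.H37

abbrev Pl := List (Bool × List ℕ)

noncomputable def evl (y : ℕ → ℝ) (p : Pl) : ℝ :=
  (p.map fun m => cond m.1 1 (-1) * (m.2.map y).prod).sum

def mul (p q : Pl) : Pl := p.flatMap fun a => q.map fun b => (a.1 == b.1, a.2 ++ b.2)
def neg (p : Pl) : Pl := p.map fun a => (!a.1, a.2)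
def pw (p : Pl) (k : ℕ) : Pl := (fun q => mul p q)^[k] [(true, [])]

@[simp] theorem evl_nil (y : ℕ → ℝ) : evl y [] = 0 := rfl
theorem evl_cons (y : ℕ → ℝ) (m : Bool × List ℕ) (p : Pl) :
    evl y (m :: p) = cond m.1 1 (-1) * (m.2.map y).prod + evl y p := by simp [evl]
@[simp] theorem evl_append (y : ℕ → ℝ) (p q : Pl) : evl y (p ++ q) = evl y p + evl y q := by
  simp [evl]
@[simp] theorem evl_neg (y : ℕ → ℝ) (p : Pl) : evl y (neg p) = - evl y p := by
  induction p with
  | nil => simp [neg]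
  | cons m p ih =>
    change evl y (_ :: neg p) = _
    rw [evl_cons, evl_cons, ih]
    obtain ⟨b, l⟩ := m
    cases b <;> simp <;> ring
@[simp] theorem evl_mul (y : ℕ → ℝ) (p q : Pl) : evl y (mul p q) = evl y p * evl y q := by
  induction p with
  | nil => simp [mul]
  | cons a p ih =>
    have : mul (a :: p) q = (q.map fun b => (a.1 == b.1, a.2 ++ b.2)) ++ mul p q := by simp [mul]
    rw [this, evl_append, ih, evl_cons, add_mul]
    congr 1
    clear this ih
    induction q with
    | nil => simp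
    | cons b q ih =>
      rw [List.map_cons, evl_cons, ih, evl_cons]
      cases a.1 <;> cases b.1 <;> simp <;> ring
@[simp] theorem evl_pw (y : ℕ → ℝ) (p : Pl) (k : ℕ) : evl y (pw p k) = evl y p ^ k := by
  induction k with
  | zero => simp [pw, evl]
  | succ k ih => rw [pw, Function.iterate_succ_apply', evl_mul, pow_succ']; exact congrArg _ ih
@[simp] theorem evl_rep (y : ℕ → ℝ) (k : ℕ) : evl y (List.replicate k (false, [])) = -k := by
  simp [evl]
@[simp] theorem evl_var (y : ℕ → ℝ) (b : Bool) (v : ℕ) : evl y [(b, [v])] = cond b 1 (-1) * y v := by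
  simp [evl]

def In (N : ℕ) (p : Pl) : Prop := ∀ m ∈ p, ∀ v ∈ m.2, v ≤ N

theorem In.append {N : ℕ} {p q : Pl} (hp : In N p) (hq : In N q) : In N (p ++ q) := fun m hm =>
  (List.mem_append.1 hm).elim (hp m) (hq m)
theorem In.neg {N : ℕ} {p : Pl} (hp : In N p) : In N (neg p) := fun m hm => by
  obtain ⟨a, ha, rfl⟩ := List.mem_map.1 hm
  exact hp a ha
theorem In.mul {N : ℕ} {p q : Pl} (hp : In N p) (hq : In N q) : In N (mul p q) := fun m hm => by
  obtain ⟨a, ha, hm⟩ := List.mem_flatMap.1 hm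
  obtain ⟨b, hb, rfl⟩ := List.mem_map.1 hm
  exact fun v hv => (List.mem_append.1 hv).elim (hp a ha v) (hq b hb v)
theorem In.pw {N : ℕ} {p : Pl} (hp : In N p) (k : ℕ) : In N (pw p k) := by
  induction k with
  | zero => simp [RealFld.pw, In]
  | succ k ih => rw [RealFld.pw, Function.iterate_succ_apply']; exact hp.mul ih

def xx (i : ℕ) : Pl := [(true, [0])] ++ List.replicate (6 * i) (false, [])

def evt (i s : ℕ) : Bool := (ev i i s).isNone && (ev i i (s + 1)).isSome

def rd (n : ℕ) : Pl :=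
  if n.unpair.2 = 0 then mul (xx n.unpair.1) (xx n.unpair.1) ++ List.replicate 1 (false, [])
  else if n.unpair.2 = 1 then
    mul (xx n.unpair.1) (xx n.unpair.1) ++ mul (xx n.unpair.1) (xx n.unpair.1) ++
      List.replicate 8 (false, []) ++ mul (xx n.unpair.1) [(true, [Nat.pair n.unpair.1 0 + 1])]
  else cond (evt n.unpair.1 (n.unpair.2 - 2))
    [(ev n.unpair.1 n.unpair.1 (n.unpair.2 - 1) == some 0, [Nat.pair n.unpair.1 0 + 1])] []

def part (n b : ℕ) (p : Pl) : Pl :=
  (p.filter fun m => decide (m.2.countP (· == n + 1) % 2 = b)).flatMap fun m =>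
    mul [(m.1, m.2.filter fun v => !(v == n + 1))] (pw (rd n) (m.2.countP (· == n + 1) / 2))

def step (n : ℕ) (L : List Pl) : List Pl :=
  L.flatMap fun p => cond (rd n).isEmpty [part n 0 p] [part n 0 p, part n 1 p]

def Z0 (p : Pl) : Bool := p.all fun m =>
  p.countP (fun a => a.1 && a.2.length == m.2.length) ==
    p.countP (fun a => !a.1 && a.2.length == m.2.length)

def ZL (N : ℕ) (L : List Pl) : Bool := ((List.range N).foldr step L).all Z0

def Z (p : Pl) : Bool := ZL (p.flatMap fun m => m.2).sum [p]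

section comp
variable {α : Type} [Primcodable α]

@[fun_prop] theorem ci_mul {f g : α → Pl} (hf : CI ∅ f) (hg : CI ∅ g) :
    CI ∅ fun a => mul (f a) (g a) := by unfold mul; fun_prop
@[fun_prop] theorem ci_neg {f : α → Pl} (hf : CI ∅ f) : CI ∅ fun a => neg (f a) := by
  unfold neg; fun_prop
@[fun_prop] theorem ci_pw {f : α → Pl} {g : α → ℕ} (hf : CI ∅ f) (hg : CI ∅ g) :
    CI ∅ fun a => pw (f a) (g a) := by unfold pw; fun_prop
@[fun_prop] theorem ci_rd {f : α → ℕ} (hf : CI ∅ f) : CI ∅ fun a => rd (f a) := by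
  unfold rd xx evt; fun_prop
@[fun_prop] theorem ci_part {f : α → ℕ} (b : ℕ) {g : α → Pl} (hf : CI ∅ f) (hg : CI ∅ g) :
    CI ∅ fun a => part (f a) b (g a) := by unfold part; fun_prop
@[fun_prop] theorem ci_step {f : α → ℕ} {g : α → List Pl} (hf : CI ∅ f) (hg : CI ∅ g) :
    CI ∅ fun a => step (f a) (g a) := by unfold step; fun_prop
@[fun_prop] theorem ci_Z0 {g : α → Pl} (hg : CI ∅ g) : CI ∅ fun a => Z0 (g a) := by
  unfold Z0; fun_prop
@[fun_prop] theorem ci_Z {g : α → Pl} (hg : CI ∅ g) : CI ∅ fun a => Z (g a) := by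
  unfold Z ZL; fun_prop
end comp

theorem in_rd (n : ℕ) : In n (rd n) := by
  have hx : ∀ i, In n (xx i) := fun i m hm => by
    simp only [xx, List.mem_append, List.mem_singleton, List.mem_replicate] at hm
    rcases hm with rfl | ⟨-, rfl⟩ <;> simp
  have hr : ∀ k, In n (List.replicate k (false, [])) := fun k m hm => by
    obtain ⟨-, rfl⟩ := List.mem_replicate.1 hm; simp
  have hv : n.unpair.2 ≠ 0 → ∀ b, In n [(b, [Nat.pair n.unpair.1 0 + 1])] := fun h b m hm => by
    obtain rfl := List.mem_singleton.1 hm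
    have := Nat.pair_lt_pair_right n.unpair.1 (Nat.pos_of_ne_zero h)
    rw [Nat.pair_unpair] at this
    simpa using this
  unfold rd
  split_ifs with h1 h2
  · exact ((hx _).mul (hx _)).append (hr _)
  · exact ((((hx _).mul (hx _)).append ((hx _).mul (hx _))).append (hr _)).append
      ((hx _).mul (hv h1 _))
  · cases evt n.unpair.1 (n.unpair.2 - 2)
    · intro m hm; simp at hm
    · exact hv h1 _

theorem in_part {n : ℕ} (b : ℕ) {p : Pl} (hp : In (n + 1) p) : In n (part n b p) := by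
  intro m hm
  obtain ⟨a, ha, hm⟩ := List.mem_flatMap.1 hm
  refine In.mul (fun a' ha' v hv => ?_) ((in_rd n).pw _) m hm
  obtain rfl := List.mem_singleton.1 ha'
  obtain ⟨h1, h2⟩ := List.mem_filter.1 hv
  have := hp a (List.mem_filter.1 ha).1 v h1
  simp at h2; omega

theorem prod_split (y : ℕ → ℝ) (k : ℕ) (l : List ℕ) :
    (l.map y).prod = ((l.filter fun v => !(v == k)).map y).prod * y k ^ l.countP (· == k) := by
  induction l with
  | nil => simp
  | cons v l ih =>
    by_cases h : v = k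
    · subst h; simp [ih, pow_succ]; ring
    · simp [ih, h, mul_assoc]

theorem evl_part {y : ℕ → ℝ} {n : ℕ} (h : y (n + 1) ^ 2 = evl y (rd n)) (p : Pl) :
    evl y p = evl y (part n 0 p) + evl y (part n 1 p) * y (n + 1) := by
  induction p with
  | nil => simp [part]
  | cons m p ih =>
    have e : ∀ b, evl y (part n b (m :: p)) = (if m.2.countP (· == n + 1) % 2 = b then
        cond m.1 1 (-1) * ((m.2.filter fun v => !(v == n + 1)).map y).prod *
          (y (n + 1) ^ 2) ^ (m.2.countP (· == n + 1) / 2) else 0) + evl y (part n b p) := by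
      intro b
      unfold part
      split_ifs with hb
      · rw [List.filter_cons_of_pos (by simpa using hb), List.flatMap_cons, evl_append, evl_mul,
          evl_pw, h, evl_cons]
        simp
      · rw [List.filter_cons_of_neg (by simpa using hb), zero_add]
    rw [evl_cons, e, e, ih, prod_split y (n + 1)]
    generalize m.2.countP (· == n + 1) = k
    obtain ⟨j, rfl | rfl⟩ := Nat.even_or_odd' k
    · rw [if_pos (by omega), if_neg (by omega), show 2 * j / 2 = j by omega]; ring
    · rw [if_neg (by omega), if_pos (by omega), show (2 * j + 1) / 2 = j by omega]; ring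

open Polynomial in
theorem Z0_iff {y : ℕ → ℝ} (hy : Transcendental ℤ (y 0)) {p : Pl} (hp : In 0 p) :
    Z0 p = true ↔ evl y p = 0 := by
  let P : Pl → ℤ[X] := fun p => (p.map fun m => cond m.1 1 (-1) * X ^ m.2.length).sum
  have h1 : evl y p = aeval (y 0) (P p) := by
    induction p with
    | nil => simp [P]
    | cons m p ih =>
      rw [evl_cons, ih fun a ha => hp a (List.mem_cons_of_mem _ ha)]
      have : m.2.map y = List.replicate m.2.length (y 0) := by
        rw [List.eq_replicate_iff]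
        refine ⟨by simp, fun b hb => ?_⟩
        obtain ⟨v, hv, rfl⟩ := List.mem_map.1 hb
        rw [Nat.le_zero.1 (hp m List.mem_cons_self v hv)]
      rw [this]
      simp only [P, List.map_cons, List.sum_cons, map_add, map_mul, map_pow, aeval_X,
        List.prod_replicate]
      cases m.1 <;> simp
  have h2 : ∀ d, (P p).coeff d = (p.countP (fun a => a.1 && a.2.length == d) : ℤ) -
      p.countP (fun a => !a.1 && a.2.length == d) := by
    intro d
    clear h1 hp
    induction p with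
    | nil => simp [P]
    | cons m p ih =>
      have : P (m :: p) = cond m.1 1 (-1) * X ^ m.2.length + P p := by simp [P]
      rw [this, coeff_add, ih, List.countP_cons, List.countP_cons]
      by_cases hd : m.2.length = d
      · cases m.1 <;> simp [hd] <;> ring
      · cases m.1 <;> simp [hd, coeff_X_pow, Ne.symm hd]
  rw [h1]
  constructor
  · intro h
    have : P p = 0 := by
      ext d
      rw [h2, coeff_zero, sub_eq_zero, Nat.cast_inj]
      by_cases hd : ∃ m ∈ p, m.2.length = d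
      · obtain ⟨m, hm, rfl⟩ := hd
        simpa using List.all_eq_true.1 h m hm
      · push Not at hd
        rw [List.countP_eq_zero.2 fun a ha => by simp [hd a ha],
          List.countP_eq_zero.2 fun a ha => by simp [hd a ha]]
    simp [this]
  · intro h
    have := transcendental_iff.1 hy _ h
    refine List.all_eq_true.2 fun m _ => ?_
    have h3 := h2 m.2.length
    rw [this, coeff_zero] at h3
    simp only [beq_iff_eq]; omega

def Val (N : ℕ) (y : ℕ → ℝ) : Prop :=
  Transcendental ℤ (y 0) ∧ ∀ n < N, y (n + 1) ^ 2 = evl y (rd n)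

theorem ZL_iff (W : ∀ n, rd n ≠ [] → ∃ y, Val n y ∧ evl y (rd n) < 0) (N : ℕ) :
    ∀ y, Val N y → ∀ L : List Pl, (∀ p ∈ L, In N p) →
      (ZL N L = true ↔ ∀ p ∈ L, evl y p = 0) := by
  induction N with
  | zero =>
    intro y hy L hL
    simp only [ZL, List.range_zero, List.foldr_nil, List.all_eq_true]
    exact forall₂_congr fun p hp => Z0_iff hy.1 (hL p hp)
  | succ N ih =>
    intro y hy L hL
    have hy' : Val N y := ⟨hy.1, fun n hn => hy.2 n (by omega)⟩
    have e : ZL (N + 1) L = ZL N (step N L) := by simp [ZL, List.range_succ]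
    have hst : ∀ q, q ∈ step N L ↔ ∃ p ∈ L, q = part N 0 p ∨ (rd N ≠ [] ∧ q = part N 1 p) := by
      intro q
      unfold step
      cases rd N <;> simp [List.mem_flatMap]
    rw [e, ih y hy' _ fun q hq => by
      obtain ⟨p, hp, rfl | ⟨-, rfl⟩⟩ := (hst q).1 hq <;> exact in_part _ (hL p hp)]
    have hr := hy.2 N (by omega)
    constructor
    · intro H p hp
      rw [evl_part hr, H _ ((hst _).2 ⟨p, hp, Or.inl rfl⟩)]
      by_cases hd : rd N = []
      · rw [hd] at hr; simp [pow_eq_zero_iff] at hr; simp [hr]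
      · simp [H _ ((hst _).2 ⟨p, hp, Or.inr ⟨hd, rfl⟩⟩)]
    · intro H q hq
      obtain ⟨p, hp, hq⟩ := (hst q).1 hq
      have h0 := H p hp
      rw [evl_part hr] at h0
      by_cases hd : rd N = []
      · rw [hd] at hr; simp [pow_eq_zero_iff] at hr
        rcases hq with rfl | ⟨h, -⟩
        · simpa [hr] using h0
        · exact absurd hd h
      · obtain ⟨z, hz, hneg⟩ := W N hd
        have T : ∀ q, In N q → (evl y q = 0 ↔ evl z q = 0) := fun q hq => by
          have a := ih y hy' [q] (by simpa)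
          have b := ih z hz [q] (by simpa)
          simpa using a.symm.trans b
        have u := in_part 0 (hL p hp)
        have v := in_part 1 (hL p hp)
        have w := (T _ ((u.mul u).append ((v.mul v).mul (in_rd N)).neg)).1 (by
          simp only [evl_append, evl_mul, evl_neg, ← hr]
          linear_combination (evl y (part N 0 p) - evl y (part N 1 p) * y (N + 1)) * h0)
        simp only [evl_append, evl_mul, evl_neg] at w
        have w1 : evl z (part N 1 p) = 0 := by
          by_contra hne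
          nlinarith [mul_self_pos.2 hne, mul_self_nonneg (evl z (part N 0 p))]
        have w0 : evl z (part N 0 p) = 0 := by simpa [w1] using w
        rcases hq with rfl | ⟨-, rfl⟩
        · exact (T _ u).2 w0
        · exact (T _ v).2 w1

/-! ### the real points -/

noncomputable def cf (i s : ℕ) : ℝ := cond (evt i s) (cond (ev i i (s + 1) == some 0) 1 (-1)) 0

noncomputable def rr (τ : ℝ) (ε : ℕ → ℝ) (i : ℕ) : ℝ := ε i * √((τ - 6 * i) ^ 2 - 1)

noncomputable def rad (τ : ℝ) (ε : ℕ → ℝ) (i : ℕ) : ℕ → ℝ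
  | 0 => (τ - 6 * i) ^ 2 - 1
  | 1 => 2 * (τ - 6 * i) ^ 2 - 8 + (τ - 6 * i) * rr τ ε i
  | s + 2 => cf i s * rr τ ε i

noncomputable def Y (τ : ℝ) (ε : ℕ → ℝ) : ℕ → ℝ
  | 0 => τ
  | n + 1 => if n.unpair.2 = 0 then rr τ ε n.unpair.1 else √(rad τ ε n.unpair.1 n.unpair.2)

theorem Y_r (τ : ℝ) (ε : ℕ → ℝ) (i : ℕ) : Y τ ε (Nat.pair i 0 + 1) = rr τ ε i := by simp [Y]

theorem evl_xx (τ : ℝ) (ε : ℕ → ℝ) (i : ℕ) : evl (Y τ ε) (xx i) = τ - 6 * i := by
  simp only [xx, evl_append, evl_var, evl_rep, Y]; simp [sub_eq_add_neg]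

theorem evl_rd (τ : ℝ) (ε : ℕ → ℝ) (i k : ℕ) :
    evl (Y τ ε) (rd (Nat.pair i k)) = rad τ ε i k := by
  rcases k with _ | _ | s
  · simp only [rd, Nat.unpair_pair, if_true, evl_append, evl_mul, evl_rep, evl_xx, rad]
    push_cast; ring
  · simp only [rd, Nat.unpair_pair, zero_add, one_ne_zero, if_true, if_false, evl_append, evl_mul,
      evl_rep, evl_xx, rad, evl_var, Y_r, cond]
    push_cast; ring
  · simp only [rd, Nat.unpair_pair, rad, cf]
    rw [if_neg (by omega), if_neg (by omega), show s + 1 + 1 - 2 = s by omega,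
      show s + 1 + 1 - 1 = s + 1 by omega]
    cases evt i s <;> simp [Y_r]

theorem val_Y {τ : ℝ} {ε : ℕ → ℝ} (hτ : Transcendental ℤ τ) (hε : ∀ i, ε i ^ 2 = 1) {N : ℕ}
    (h : ∀ i k, Nat.pair i k < N → 0 ≤ rad τ ε i k) : Val N (Y τ ε) := by
  refine ⟨hτ, fun n hn => ?_⟩
  obtain ⟨i, k, rfl⟩ : ∃ i k, n = Nat.pair i k := ⟨_, _, (Nat.pair_unpair n).symm⟩
  rw [evl_rd]
  have := h i k hn
  rcases k with _ | k
  · rw [Y_r, rr, mul_pow, hε, one_mul]; exact Real.sq_sqrt this
  · simp only [Y, Nat.unpair_pair]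
    rw [if_neg (by omega), Real.sq_sqrt this]

theorem exists_tr {a b : ℝ} (h : a < b) : ∃ τ, Transcendental ℤ τ ∧ a < τ ∧ τ < b := by
  obtain ⟨τ, h1, h2⟩ := ((Algebraic.countable ℤ ℝ).dense_compl ℝ).exists_mem_open isOpen_Ioo
    (Set.nonempty_Ioo.2 h)
  exact ⟨τ, h1, h2⟩

open Classical in
noncomputable def e0 (i : ℕ) : ℝ := if ∃ s, cf i s = -1 then -1 else 1

theorem e0_sq (i : ℕ) : e0 i ^ 2 = 1 := by unfold e0; split_ifs <;> simp

theorem evt_unique {i s t : ℕ} (hs : evt i s = true) (ht : evt i t = true) : s = t := by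
  have key : ∀ s t, evt i s = true → evt i t = true → ¬ s < t := fun s t hs ht h => by
    simp only [evt, Bool.and_eq_true, Option.isNone_iff_eq_none, Option.isSome_iff_exists] at hs ht
    obtain ⟨v, hv⟩ := hs.2
    have := ev_mono (show s + 1 ≤ t from h) hv
    rw [ht.1] at this; cases this
  exact le_antisymm (not_lt.1 (key t s ht hs)) (not_lt.1 (key s t hs ht))

theorem cf_e0 (i s : ℕ) : 0 ≤ cf i s * e0 i := by
  unfold e0
  split_ifs with h
  · obtain ⟨t, ht⟩ := h
    by_cases hs : evt i s = true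
    · have : evt i t = true := by
        by_contra h'
        rw [Bool.not_eq_true] at h'
        simp [cf, h'] at ht
      rw [evt_unique hs this, ht]; simp
    · simp [cf, hs]
  · have : cf i s ≠ -1 := fun h' => h ⟨s, h'⟩
    unfold cf at this ⊢
    generalize evt i s = b at this ⊢
    generalize (ev i i (s + 1) == some 0) = b' at this ⊢
    cases b <;> cases b' <;> simp_all

theorem rr_sq {τ : ℝ} {ε : ℕ → ℝ} {i : ℕ} (hε : ε i ^ 2 = 1) (h : 1 ≤ (τ - 6 * i) ^ 2) :
    rr τ ε i ^ 2 = (τ - 6 * i) ^ 2 - 1 := by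
  rw [rr, mul_pow, hε, one_mul, Real.sq_sqrt (by linarith)]

theorem rad_good {τ : ℝ} {ε : ℕ → ℝ} {i : ℕ} (hε : ε i ^ 2 = 1) (h : 9 ≤ (τ - 6 * i) ^ 2) (k : ℕ)
    (hk : ∀ s, k = s + 2 → 0 ≤ cf i s * ε i) : 0 ≤ rad τ ε i k := by
  rcases k with _ | _ | s
  · simp only [rad]; linarith
  · have := rr_sq (τ := τ) hε (by linarith)
    simp only [zero_add, rad]
    nlinarith [sq_nonneg (τ - 6 * i + rr τ ε i)]
  · simp only [rad, rr, ← mul_assoc]
    exact mul_nonneg (hk s rfl) (Real.sqrt_nonneg _)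

theorem far {τ : ℝ} {i j : ℕ} (h1 : 6 * i - 3 < τ) (h2 : τ < 6 * i + 3) (hij : j ≠ i) :
    9 ≤ (τ - 6 * j) ^ 2 := by
  rcases lt_or_gt_of_ne hij with h | h
  · have : (j : ℝ) + 1 ≤ i := by exact_mod_cast h
    nlinarith
  · have : (i : ℝ) + 1 ≤ j := by exact_mod_cast h
    nlinarith

theorem far0 {τ : ℝ} (h : τ < -3) (j : ℕ) : 9 ≤ (τ - 6 * j) ^ 2 := by
  have : (0 : ℝ) ≤ j := Nat.cast_nonneg j
  nlinarith

theorem near {x : ℝ} (h1 : 2 < x) (h2 : x < 21 / 10) : 2 * x ^ 2 - 8 < x * √(x ^ 2 - 1) := by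
  have : 1 ≤ √(x ^ 2 - 1) := Real.one_le_sqrt.2 (by nlinarith)
  nlinarith

theorem wit (n : ℕ) (hn : rd n ≠ []) : ∃ y, Val n y ∧ evl y (rd n) < 0 := by
  obtain ⟨i, k, rfl⟩ : ∃ i k, n = Nat.pair i k := ⟨_, _, (Nat.pair_unpair n).symm⟩
  have hlt : ∀ k', Nat.pair i k' < Nat.pair i k → k' < k := fun k' h => by
    by_contra h'
    rcases (not_lt.1 h').eq_or_lt with rfl | h'
    · omega
    · have := Nat.pair_lt_pair_right i h'; omega
  have upd : ∀ c : ℝ, c ^ 2 = 1 → ∀ j, Function.update e0 i c j ^ 2 = 1 := fun c hc j => by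
    by_cases h : j = i
    · simp [h, hc]
    · simp [h, e0_sq]
  rcases k with _ | _ | s
  · obtain ⟨τ, h1, h2, h3⟩ := exists_tr (show (6 * i - 1 : ℝ) < 6 * i + 1 by linarith)
    refine ⟨Y τ e0, val_Y h1 e0_sq fun j k h => rad_good (e0_sq j)
      (far (i := i) (by linarith) (by linarith) ?_) k fun s _ => cf_e0 j s, ?_⟩
    · rintro rfl; exact absurd (hlt k h) (by omega)
    · rw [evl_rd]; simp only [rad]; nlinarith
  · obtain ⟨τ, h1, h2, h3⟩ := exists_tr (show (6 * i + 2 : ℝ) < 6 * i + 21 / 10 by linarith)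
    refine ⟨Y τ (Function.update e0 i (-1)), val_Y h1 (upd _ (by simp)) fun j k h => ?_, ?_⟩
    · by_cases hj : j = i
      · subst hj
        obtain rfl : k = 0 := by have := hlt k h; omega
        simp only [rad]; nlinarith
      · exact rad_good (upd _ (by simp) j) (far (i := i) (by linarith) (by linarith) hj) k
          fun s _ => by simpa [hj] using cf_e0 j s
    · rw [evl_rd]
      have := near (x := τ - 6 * i) (by linarith) (by linarith)
      simp only [zero_add, rad, rr, Function.update_self]; linarith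
  · obtain ⟨τ, h1, -, h3⟩ := exists_tr (show (-4 : ℝ) < -3 by linarith)
    have he : evt i s = true := by
      by_contra h
      rw [Bool.not_eq_true] at h
      apply hn
      simp only [rd, Nat.unpair_pair]
      rw [if_neg (by omega), if_neg (by omega), show s + 1 + 1 - 2 = s by omega]
      simp [h]
    have hc : (-cf i s) ^ 2 = 1 := by
      unfold cf; cases ev i i (s + 1) == some 0 <;> simp [he]
    refine ⟨Y τ (Function.update e0 i (-cf i s)), val_Y h1 (upd _ hc) fun j k h =>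
      rad_good (upd _ hc j) (far0 h3 j) k fun s' hs' => ?_, ?_⟩
    · by_cases hj : j = i
      · subst hj
        have h4 := hlt k h
        have : evt j s' ≠ true := fun h' => by have := evt_unique he h'; omega
        simp [cf, this]
      · simpa [hj] using cf_e0 j s'
    · rw [evl_rd]
      have h4 : 0 < √((τ - 6 * i) ^ 2 - 1) := Real.sqrt_pos.2 (by have := far0 h3 i; linarith)
      simp only [rad, rr, Function.update_self]
      nlinarith

theorem Z_iff {y : ℕ → ℝ} (hy : ∀ N, Val N y) (p : Pl) : Z p = true ↔ evl y p = 0 := by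
  have := ZL_iff wit (p.flatMap fun m => m.2).sum y (hy _) [p] (by
    simp only [List.mem_singleton, forall_eq]
    exact fun m hm v hv => List.single_le_sum (by simp) _ (List.mem_flatMap.2 ⟨m, hm, hv⟩))
  simpa [Z] using this

noncomputable def t0 : ℝ := (exists_tr (show (-4 : ℝ) < -3 by linarith)).choose
theorem t0_spec : Transcendental ℤ t0 ∧ -4 < t0 ∧ t0 < -3 :=
  (exists_tr (show (-4 : ℝ) < -3 by linarith)).choose_spec

noncomputable def y0 : ℕ → ℝ := Y t0 e0

theorem val0 (N : ℕ) : Val N y0 := val_Y t0_spec.1 e0_sq fun j k _ =>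
  rad_good (e0_sq j) (far0 t0_spec.2.2 j) k fun s _ => cf_e0 j s

/-- the field -/
def F : Subfield ℝ where
  carrier := {z | ∃ p q, evl y0 q ≠ 0 ∧ z = evl y0 p / evl y0 q}
  one_mem' := ⟨[(true, [])], [(true, [])], by simp [evl], by simp [evl]⟩
  zero_mem' := ⟨[], [(true, [])], by simp [evl], by simp⟩
  mul_mem' := by
    rintro _ _ ⟨p, q, h, rfl⟩ ⟨p', q', h', rfl⟩
    exact ⟨mul p p', mul q q', by simp [h, h'], by simp [div_mul_div_comm]⟩
  add_mem' := by
    rintro _ _ ⟨p, q, h, rfl⟩ ⟨p', q', h', rfl⟩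
    exact ⟨mul p q' ++ mul q p', mul q q', by simp [h, h'], by simp [div_add_div _ _ h h']⟩
  neg_mem' := by
    rintro _ ⟨p, q, h, rfl⟩
    exact ⟨neg p, q, h, by simp [neg_div]⟩
  inv_mem' := by
    rintro _ ⟨p, q, h, rfl⟩
    by_cases h' : evl y0 p = 0
    · exact ⟨[], q, h, by simp [h']⟩
    · exact ⟨q, p, h', by simp⟩

theorem div_mem (p q : Pl) : evl y0 p / evl y0 q ∈ F := by
  by_cases h : evl y0 q = 0
  · rw [h, div_zero]; exact F.zero_mem
  · exact ⟨p, q, h, rfl⟩

noncomputable def gen (n : ℕ) : F := ⟨y0 n, [(true, [n])], [(true, [])], by simp [evl], by simp [evl]⟩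

theorem nonsq (i : ℕ) (z : F) :
    (z : ℝ) ^ 2 ≠ 2 * (t0 - 6 * i) ^ 2 - 8 - (t0 - 6 * i) * rr t0 e0 i := by
  obtain ⟨_, p, q, hq, rfl⟩ := z
  intro h
  obtain ⟨τ, h1, h2, h3⟩ : ∃ τ, Transcendental ℤ τ ∧ 2 < e0 i * (τ - 6 * i) ∧
      e0 i * (τ - 6 * i) < 21 / 10 := by
    unfold e0
    split_ifs
    · obtain ⟨τ, h1, h2, h3⟩ := exists_tr (show (6 * i - 21 / 10 : ℝ) < 6 * i - 2 by linarith)
      exact ⟨τ, h1, by linarith, by linarith⟩
    · obtain ⟨τ, h1, h2, h3⟩ := exists_tr (show (6 * i + 2 : ℝ) < 6 * i + 21 / 10 by linarith)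
      exact ⟨τ, h1, by linarith, by linarith⟩
  have hs : (e0 i * (τ - 6 * i)) ^ 2 = (τ - 6 * i) ^ 2 := by rw [mul_pow, e0_sq, one_mul]
  have hn := near h2 h3
  rw [hs] at hn
  have hr : (τ - 6 * i) * rr τ e0 i = e0 i * (τ - 6 * i) * √((τ - 6 * i) ^ 2 - 1) := by
    rw [rr]; ring
  have hv : ∀ N, Val N (Y τ e0) := fun N => val_Y h1 e0_sq fun j k _ => by
    by_cases hj : j = i
    · subst hj
      rcases k with _ | _ | s
      · simp only [rad]; nlinarith
      · simp only [zero_add, rad, hr]; nlinarith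
      · simp only [rad, rr, ← mul_assoc]
        exact mul_nonneg (cf_e0 j s) (Real.sqrt_nonneg _)
    · have : (τ - 6 * i) ^ 2 < 9 := by nlinarith
      exact rad_good (e0_sq j) (far (i := i) (by nlinarith) (by nlinarith) hj) k
        fun s _ => cf_e0 j s
  let w : Pl := mul (xx i) (xx i) ++ mul (xx i) (xx i) ++ List.replicate 8 (false, []) ++
    mul (xx i) [(false, [Nat.pair i 0 + 1])]
  have hw : ∀ τ, evl (Y τ e0) w = 2 * (τ - 6 * i) ^ 2 - 8 - (τ - 6 * i) * rr τ e0 i := fun τ => by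
    simp only [w, evl_append, evl_mul, evl_rep, evl_xx, evl_var, Y_r, cond]
    push_cast; ring
  have h4 := (Z_iff hv _).1 ((Z_iff val0 (mul p p ++ neg (mul (mul q q) w))).2 (by
    simp only [evl_append, evl_mul, evl_neg]
    rw [y0, hw, ← h]; unfold y0 at hq ⊢; field_simp; ring))
  simp only [evl_append, evl_mul, evl_neg, hw, hr] at h4
  refine hq ((Z_iff val0 q).1 ((Z_iff hv q).2 ?_))
  by_contra hne
  nlinarith [mul_self_pos.2 hne, mul_self_nonneg (evl (Y τ e0) p)]

theorem noOrd (j : F → ℕ) (hj : Function.Injective j) (D : ℕ → Bool) (hD : CI ∅ D)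
    (hDj : ∀ n, D n = true ↔ ∃ a, j a = n) (A M : ℕ × ℕ → ℕ) (hA : CI ∅ A) (hM : CI ∅ M)
    (hAj : ∀ a b, A (j a, j b) = j (a + b)) (hMj : ∀ a b, M (j a, j b) = j (a * b))
    (P : ℕ → Bool) (hP : CI ∅ P) (h1 : ∀ w : F, w ≠ 0 → P (j (w * w)) = true)
    (h2 : ∀ w : F, w ≠ 0 → P (j (-(w * w))) = false) : False := by
  let x : ℕ → F := fun i => gen 0 - 6 * i
  let c : ℕ → ℕ := fun i => (fun z => A (z, j (-6)))^[i] (j (gen 0))
  have hc : CI ∅ c := by fun_prop
  have hcx : ∀ i, c i = j (x i) := by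
    intro i
    induction i with
    | zero => simp [c, x]
    | succ i ih =>
      simp only [c, Function.iterate_succ_apply'] at ih ⊢
      rw [ih, hAj]; congr 1; simp only [x]; push_cast; ring
  have hx : ∀ i, (x i : ℝ) = t0 - 6 * i := fun i => by
    simp only [x]; push_cast; rfl
  have hr : ∀ i, (gen (Nat.pair i 0 + 1) : ℝ) = rr t0 e0 i := fun i => Y_r _ _ _
  have hv : ∀ i k, (gen (Nat.pair i k + 1) : ℝ) ^ 2 = rad t0 e0 i k := fun i k => by
    rw [← evl_rd]; exact (val0 (Nat.pair i k + 1)).2 _ (by omega)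
  obtain ⟨f, hf, H⟩ := CI.exists_choice (O := ∅) (p := fun i (q : ℕ × ℕ) => D q.1 && D q.2 &&
      A (M (q.1, q.1), j 1) == M (c i, c i) &&
      A (M (q.2, q.2), j 8) == A (A (M (c i, c i), M (c i, c i)), M (c i, q.1))) (by fun_prop)
    fun i => ⟨(j (gen (Nat.pair i 0 + 1)), j (gen (Nat.pair i 1 + 1))), by
      simp only [hcx, hAj, hMj, Bool.and_eq_true, hDj, beq_iff_eq, hj.eq_iff]
      refine ⟨⟨⟨⟨_, rfl⟩, _, rfl⟩, Subtype.ext ?_⟩, Subtype.ext ?_⟩
      · have := hv i 0
        push_cast [hx]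
        simp only [rad] at this
        linear_combination this
      · have := hv i 1
        have h8 : ((8 : F) : ℝ) = 8 := rfl
        push_cast [hx, h8]
        simp only [rad, ← hr] at this
        linear_combination this⟩
  have hfr : ∀ i, (f i).1 = j (gen (Nat.pair i 0 + 1)) := by
    intro i
    have := H i
    simp only [Bool.and_eq_true, hDj, beq_iff_eq] at this
    obtain ⟨⟨⟨⟨a, ha⟩, b, hb⟩, h3⟩, h4⟩ := this
    rw [← ha] at h3 h4 ⊢
    rw [← hb] at h4
    simp only [hcx, hAj, hMj, hj.eq_iff] at h3 h4 ⊢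
    have h5 := congrArg Subtype.val h3
    have h6 := congrArg Subtype.val h4
    have h8 : ((8 : F) : ℝ) = 8 := rfl
    push_cast [hx, h8] at h5 h6
    have h7 := hv i 0
    simp only [rad, hr] at h7
    have h9 : ((a : ℝ) - rr t0 e0 i) * (a + rr t0 e0 i) = 0 := by linear_combination h5 - h7
    rcases mul_eq_zero.1 h9 with h | h
    · exact Subtype.ext (by rw [hr]; linarith)
    · exact absurd (by linear_combination h6 + (t0 - 6 * i) * h) (nonsq i b)
  obtain ⟨e, he⟩ := exists_index (f := fun i => cond (P (f i).1) 1 0) (by fun_prop)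
  have hex := he e
  have hs0 : Nat.find hex ≠ 0 := fun h => by
    have := Nat.find_spec hex
    rw [h] at this
    simp [ev, Nat.Partrec.Code.evaln] at this
  obtain ⟨s, hs⟩ := Nat.exists_eq_succ_of_ne_zero hs0
  have h3 := Nat.find_spec hex
  rw [hs] at h3
  have h4 : evt e s = true := by
    have := Nat.find_min hex (show s < Nat.find hex by omega)
    simp only [evt, Bool.and_eq_true, Option.isNone_iff_eq_none]
    refine ⟨?_, by rw [h3]; rfl⟩
    cases h5 : ev e e s with
    | none => rfl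
    | some v => rw [h5, ev_unique h5 h3] at this; exact absurd rfl this
  have h5 := hv e (s + 2)
  have h6 : rr t0 e0 e ≠ 0 := fun h => by
    have a := rr_sq (τ := t0) (e0_sq e) (by have := far0 t0_spec.2.2 e; linarith)
    have := far0 t0_spec.2.2 e
    rw [h] at a; nlinarith
  simp only [rad, cf, h4, h3, cond_true, hfr] at h5
  have h7 : gen (Nat.pair e (s + 2) + 1) ≠ 0 := fun h => by
    rw [h] at h5
    cases hb : P (j (gen (Nat.pair e 0 + 1))) <;> simp [hb, h6, h6.symm] at h5
  cases hb : P (j (gen (Nat.pair e 0 + 1)))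
  · have := h1 _ h7
    rw [show gen (Nat.pair e (s + 2) + 1) * gen (Nat.pair e (s + 2) + 1) = gen (Nat.pair e 0 + 1)
      from Subtype.ext (by push_cast; rw [hr, ← sq, h5]; simp [hb]), hb] at this
    cases this
  · have := h2 _ h7
    rw [show -(gen (Nat.pair e (s + 2) + 1) * gen (Nat.pair e (s + 2) + 1)) = gen (Nat.pair e 0 + 1)
      from Subtype.ext (by push_cast; rw [hr, ← sq, h5]; simp [hb]), hb] at this
    cases this

theorem pres : ∃ e : ℕ ≃ F,
    Computable₂ (fun a b : ℕ => e.symm (e a + e b)) ∧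
    Computable₂ (fun a b : ℕ => e.symm (e a * e b)) ∧
    Computable (fun a : ℕ => e.symm (-(e a))) ∧
    Computable (fun a : ℕ => e.symm ((e a)⁻¹)) := by
  let dc : ℕ → Pl × Pl := fun n => (Encodable.decode n).getD ([], [])
  have hdc : CI ∅ dc := by fun_prop
  let μ : Pl × Pl → F := fun a => ⟨_, div_mem a.1 a.2⟩
  let ad : (Pl × Pl) × (Pl × Pl) → Pl × Pl := fun a => cond (Z a.1.2) a.2 (cond (Z a.2.2) a.1
    (mul a.1.1 a.2.2 ++ mul a.1.2 a.2.1, mul a.1.2 a.2.2))
  have had : CI ∅ ad := by fun_prop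
  have hadμ : ∀ a b, μ (ad (a, b)) = μ a + μ b := fun a b => Subtype.ext (by
    simp only [ad, μ]
    cases h1 : Z a.2
    · cases h2 : Z b.2
      · have h3 : evl y0 a.2 ≠ 0 := fun h => by simp [(Z_iff val0 _).2 h] at h1
        have h4 : evl y0 b.2 ≠ 0 := fun h => by simp [(Z_iff val0 _).2 h] at h2
        simp [div_add_div _ _ h3 h4]
      · simp [(Z_iff val0 _).1 h2]
    · simp [(Z_iff val0 _).1 h1])
  have hng : ∀ a : Pl × Pl, μ (neg a.1, a.2) = - μ a := fun a => Subtype.ext (by simp [μ, neg_div])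
  have henc : ∀ a, dc (Encodable.encode a) = a := fun a => by
    simp only [dc, Encodable.encodek, Option.getD_some]
  obtain ⟨e, r, s, hr, hs, h1, h2⟩ := exists_equiv_of_numbering (fun n => μ (dc n))
    (by
      rintro ⟨_, p, q, hq, rfl⟩
      exact ⟨Encodable.encode (p, q), by simp only [henc]; rfl⟩)
    (fun a b => Z (ad (dc a, neg (dc b).1, (dc b).2)).1 || Z (ad (dc a, neg (dc b).1, (dc b).2)).2)
    (by fun_prop) fun a b => by
      rw [← sub_eq_zero (a := μ _), sub_eq_add_neg, ← hng, ← hadμ, Subtype.ext_iff]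
      simp [μ, Z_iff val0]
  refine ⟨e, CI.computable (CI.of_eq (f := fun q : ℕ × ℕ =>
      s (Encodable.encode (ad (dc (r q.1), dc (r q.2))))) (by fun_prop) fun q => ?_),
    CI.computable (CI.of_eq (f := fun q : ℕ × ℕ => s (Encodable.encode
      (mul (dc (r q.1)).1 (dc (r q.2)).1, mul (dc (r q.1)).2 (dc (r q.2)).2))) (by fun_prop)
      fun q => ?_),
    CI.computable (CI.of_eq (f := fun a : ℕ =>
      s (Encodable.encode (neg (dc (r a)).1, (dc (r a)).2))) (by fun_prop) fun q => ?_),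
    CI.computable (CI.of_eq (f := fun a : ℕ =>
      s (Encodable.encode ((dc (r a)).2, (dc (r a)).1))) (by fun_prop) fun q => ?_)⟩ <;>
    rw [Equiv.eq_symm_apply, h2, henc]
  · rw [hadμ, h1, h1]
  · rw [← h1, ← h1]; exact Subtype.ext (by simp [μ, div_mul_div_comm])
  · rw [hng, h1]
  · rw [← h1]; exact Subtype.ext (by simp [μ])

theorem freal (n : ℕ) (c : Fin n → F) (h : ∑ i, c i ^ 2 = 0) (i : Fin n) : c i = 0 :=
  pow_eq_zero_iff (two_ne_zero) |>.1
    ((Finset.sum_eq_zero_iff_of_nonneg fun _ _ => sq_nonneg _).1 h i (Finset.mem_univ i))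

theorem main : ¬ ∃ e : ℕ ≃ F,
    Computable₂ (fun a b : ℕ => e.symm (e a + e b)) ∧
    Computable₂ (fun a b : ℕ => e.symm (e a * e b)) ∧
    Computable (fun a : ℕ => e.symm (-(e a))) ∧
    Computable (fun a : ℕ => e.symm ((e a)⁻¹)) ∧
    ∃ P : Set F,
      ComputablePred (fun a : ℕ => e a ∈ P) ∧
      (0 : F) ∉ P ∧
      (∀ x y : F, x ∈ P → y ∈ P → x + y ∈ P) ∧
      (∀ x y : F, x ∈ P → y ∈ P → x * y ∈ P) ∧
      (∀ x : F, x ≠ 0 → x ∈ P ∨ -x ∈ P) := by
  rintro ⟨e, hA, hM, -, -, P, hP, h0, h1, h2, h3⟩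
  obtain ⟨f, hf, hfP⟩ := computablePred_iff.1 hP
  have hsq : ∀ w : F, w ≠ 0 → w * w ∈ P := fun w hw => (h3 w hw).elim (fun h => h2 _ _ h h)
    fun h => by simpa using h2 _ _ h h
  refine noOrd e.symm e.symm.injective (fun _ => true) (by fun_prop)
    (fun n => by simpa using e.symm.surjective n) _ _ (CI.of_comp hA) (CI.of_comp hM) (by simp)
    (by simp) f hf (fun w hw => (hfP _).1 (by simpa using hsq w hw)) fun w hw => ?_
  by_contra h
  have := (hfP _).2 (Bool.eq_true_of_not_eq_false h)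
  rw [Equiv.apply_symm_apply] at this
  exact h0 (by simpa using h1 _ _ (hsq w hw) this)

end Pool.Agent.H37.RealFld
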