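import Pool.Agent.H37.NF
import Pool.Agent.H37.RealFld
import Pool.Agent.H37.LowDefs

set_option autoImplicit false

namespace Pool.Agent.H37

theorem chi_halt : chi halt = fun n => Part.some (Kf n) := by
  funext n
  simp only [chi, Kf, halt, Set.mem_setOf_eq]
  congr

theorem low_of {x : ℕ → Bool} {b : ℕ × ℕ → Bool} (hb : CI (orc Kf) b)
    (h : ∀ e n, (app e (fun i => (x i).toNat) n).Dom ↔ b (e, n) = true) {X : Set ℕ} {g : ℕ → ℕ}
    (hg : CI ∅ g) (hX : ∀ n, n ∈ X ↔ x (g n) = true) : Low X := by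
  intro f hf
  have h1 := CI.self fun i => (x i).toNat
  have h2 : CI (orc fun i => (x i).toNat) fun n => (x (g n)).toNat := h1.comp hg.of_empty
  obtain ⟨e, rfl⟩ := exists_app (x := fun i => (x i).toNat) (RecursiveIn.subst hf fun k hk => by
    obtain rfl : k = _ := hk
    refine h2.ri.of_eq fun n => ?_
    simp only [chi, hX]
    cases x (g n) <;> simp)
  unfold TuringReducible
  rw [chi_halt]
  refine (show CI (orc Kf) fun n => cond (b (e, n)) 1 0 by fun_prop).ri.of_eq fun n => ?_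
  have : n ∈ (app e fun i => (x i).toNat).Dom ↔ b (e, n) = true := h e n
  simp only [chi, this]
  cases b (e, n) <;> simp

theorem totalize {σ : Type} [Primcodable σ] {f : ℕ → ℕ →. σ} (hf : Partrec₂ f) {D : ℕ → Bool}
    (hD : CI ∅ D) (d : σ) (h : ∀ a b, D a = true → D b = true → (f a b).Dom) :
    ∃ g : ℕ × ℕ → σ, CI ∅ g ∧ ∀ a b, D a = true → D b = true → g (a, b) ∈ f a b := by
  have h1 : Partrec fun q : ℕ × ℕ => cond (D q.1 && D q.2) (f q.1 q.2) (Part.some d) :=
    Partrec.cond (CI.computable (by fun_prop)) hf (Computable.const d)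
  have h2 : ∀ q : ℕ × ℕ, (cond (D q.1 && D q.2) (f q.1 q.2) (Part.some d)).Dom := fun q => by
    cases h1 : D q.1
    · trivial
    · cases h2 : D q.2
      · trivial
      · exact h _ _ h1 h2
  refine ⟨fun q => Part.get _ (h2 q), RI.ci_of_tot h1.recursiveIn fun q => Part.get_mem _,
    fun a b ha hb => ?_⟩
  have := Part.get_mem (h2 (a, b))
  beta_reduce
  generalize Part.get _ (h2 (a, b)) = v at this ⊢
  simpa [ha, hb] using this

theorem order_of_cone {K : Type} [Field K] (P : K → Prop) (h0 : ¬ P 0)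
    (h1 : ∀ a b, P a → P b → P (a + b)) (h3 : ∀ a, a ≠ 0 → P a ∨ P (-a)) :
    ∃ o : LinearOrder K, ∀ a b, o.lt a b ↔ P (b - a) := by
  classical
  haveI : IsStrictTotalOrder K fun a b => P (b - a) :=
    { trichotomous := fun a b hab hba => by
        by_contra h
        rcases h3 (b - a) (sub_ne_zero.2 (Ne.symm h)) with h' | h'
        · exact hab h'
        · exact hba (by simpa using h')
      irrefl := fun a => by simpa using h0
      trans := fun a b c hab hbc => by simpa using h1 _ _ hbc hab }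
  exact ⟨linearOrderOfSTO fun a b => P (b - a), fun _ _ => Iff.rfl⟩

open RealFld in
theorem low_ord : ∃ (K : Type) (_ : Field K) (_ : LinearOrder K) (e : ℕ ≃ K),
    (∀ a b c : K, a < b → a + c < b + c) ∧ (∀ a b : K, 0 < a → 0 < b → 0 < a * b) ∧
    Computable₂ (fun a b : ℕ => e.symm (e a + e b)) ∧
    Computable₂ (fun a b : ℕ => e.symm (e a * e b)) ∧
    Low {n : ℕ | e n.unpair.1 < e n.unpair.2} ∧
    ¬ ∃ (j : K → ℕ) (A M : ℕ → ℕ →. ℕ) (L : ℕ → ℕ →. Bool),
      Function.Injective j ∧ ComputablePred (fun n => n ∈ Set.range j) ∧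
      Partrec₂ A ∧ Partrec₂ M ∧ Partrec₂ L ∧
      ∀ a b : K, j (a + b) ∈ A (j a) (j b) ∧ j (a * b) ∈ M (j a) (j b) ∧
        decide (a < b) ∈ L (j a) (j b) := by
  obtain ⟨e, hA, hM, hN, -⟩ := pres
  obtain ⟨A, eA⟩ : ∃ A : ℕ × ℕ → ℕ, ∀ a b, A (a, b) = e.symm (e a + e b) :=
    ⟨fun q => e.symm (e q.1 + e q.2), fun _ _ => rfl⟩
  obtain ⟨M, eM⟩ : ∃ M : ℕ × ℕ → ℕ, ∀ a b, M (a, b) = e.symm (e a * e b) :=
    ⟨fun q => e.symm (e q.1 * e q.2), fun _ _ => rfl⟩
  obtain ⟨N, eN⟩ : ∃ N : ℕ → ℕ, ∀ a, N a = e.symm (-e a) := ⟨_, fun _ => rfl⟩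
  have cA : CI ∅ A := (CI.of_comp hA).of_eq fun q => (eA _ _).symm
  have cM : CI ∅ M := (CI.of_comp hM).of_eq fun q => (eM _ _).symm
  have cN : CI ∅ N := (CI.of_comp hN).of_eq fun q => (eN _).symm
  let T : List Bool → Bool := fun σ => !σ.getD (e.symm 0) false &&
    (List.range σ.length).all fun a =>
      (a == e.symm 0 || σ.getD a true || σ.getD (N a) true) &&
      (List.range σ.length).all fun b => !σ.getD a false || !σ.getD b false ||
        (σ.getD (A (a, b)) true && σ.getD (M (a, b)) true)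
  have hg : ∀ (x : ℕ → Bool) k i d, (pre x k).getD i d = if i < k then x i else d := by
    intro x k i d
    split_ifs with h
    · exact getD_pre x h d
    · exact List.getD_eq_default _ _ (by simpa using h)
  have hT : ∀ x : ℕ → Bool, (∀ j, T (pre x j) = true) ↔ x (e.symm 0) = false ∧
      (∀ a, a = e.symm 0 ∨ x a = true ∨ x (N a) = true) ∧
      ∀ a b, x a = true → x b = true → x (A (a, b)) = true ∧ x (M (a, b)) = true := by
    intro x
    simp only [T, hg, Bool.and_eq_true, List.all_eq_true, List.mem_range, length_pre,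
      Bool.or_eq_true, beq_iff_eq, Bool.not_eq_true']
    constructor
    · intro h
      refine ⟨by simpa using (h (e.symm 0 + 1)).1, fun a => ?_, fun a b ha hb => ?_⟩
      · have := ((h (a + N a + 1)).2 a (by omega)).1
        rwa [if_pos (by omega), if_pos (by omega), or_assoc] at this
      · have := ((h (a + b + A (a, b) + M (a, b) + 1)).2 a (by omega)).2 b (by omega)
        rw [if_pos (by omega), if_pos (by omega), if_pos (by omega), if_pos (by omega)] at this
        simpa [ha, hb] using this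
    · rintro ⟨h1, h2, h3⟩ j
      refine ⟨by simp [h1], fun a ha => ⟨?_, fun b hb => ?_⟩⟩
      · rcases h2 a with h | h | h <;> simp [h]
      · rw [if_pos ha, if_pos hb]
        cases h4 : x a
        · simp
        · cases h5 : x b
          · simp
          · simp [h3 a b h4 h5]
  obtain ⟨x, hx, b, hb, hxb⟩ := low_basis (T := T) (by fun_prop)
    ⟨fun n => decide (0 < e n), (hT _).2 ⟨by simp, fun a => by
      simp only [eN, decide_eq_true_eq, Equiv.apply_symm_apply, Equiv.eq_symm_apply]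
      rcases lt_trichotomy (e a) 0 with h | h | h <;> simp [h], fun a b ha hb => by
      simp only [eA, eM, decide_eq_true_eq, Equiv.apply_symm_apply] at ha hb ⊢
      exact ⟨add_pos ha hb, mul_pos ha hb⟩⟩⟩
  obtain ⟨h1, h2, h3⟩ := (hT x).1 hx
  have h4 : ∀ a b : F, x (e.symm a) = true → x (e.symm b) = true →
      x (e.symm (a + b)) = true ∧ x (e.symm (a * b)) = true := fun a b ha hb => by
    simpa [eA, eM] using h3 _ _ ha hb
  have h5 : ∀ a : F, a ≠ 0 → x (e.symm a) = true ∨ x (e.symm (-a)) = true := fun a ha => by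
    simpa [eN, ha] using h2 (e.symm a)
  obtain ⟨o, ho⟩ := order_of_cone (fun a : F => x (e.symm a) = true) (by simp [h1])
    (fun a b ha hb => (h4 a b ha hb).1) h5
  refine ⟨F, inferInstance, o, e, fun a b c h => (ho _ _).2 (by simpa using (ho _ _).1 h),
    fun a b ha hb => (ho _ _).2 (by
      simpa using (h4 a b (by simpa using (ho _ _).1 ha) (by simpa using (ho _ _).1 hb)).2),
    hA, hM, low_of hb hxb (g := fun n => A (n.unpair.2, N n.unpair.1)) (by fun_prop) fun n =>
      (ho _ _).trans (by simp [eA, eN, sub_eq_add_neg]), ?_⟩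
  rintro ⟨j, A', M', L', hj, hD, hA', hM', hL', H⟩
  obtain ⟨D, hD1, hD2⟩ := computablePred_iff.1 hD
  have hD3 : ∀ a, D (j a) = true := fun a => (hD2 _).1 ⟨a, rfl⟩
  have dom : ∀ {σ : Type} (f : ℕ → ℕ →. σ), (∀ a b, (f (j a) (j b)).Dom) →
      ∀ a b, D a = true → D b = true → (f a b).Dom := fun f h a b ha hb => by
    obtain ⟨a, rfl⟩ := (hD2 a).2 ha
    obtain ⟨b, rfl⟩ := (hD2 b).2 hb
    exact h a b
  obtain ⟨A1, a1, a2⟩ := totalize hA' hD1 0 (dom _ fun a b => (H a b).1.1)
  obtain ⟨M1, m1, m2⟩ := totalize hM' hD1 0 (dom _ fun a b => (H a b).2.1.1)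
  obtain ⟨L1, l1, l2⟩ := totalize hL' hD1 true (dom _ fun a b => (H a b).2.2.1)
  have l3 : ∀ a, L1 (j 0, j a) = x (e.symm a) := fun a => by
    rw [Part.mem_unique (l2 _ _ (hD3 0) (hD3 a)) (H 0 a).2.2, Bool.eq_iff_iff, decide_eq_true_eq]
    exact (ho _ _).trans (by simp)
  have hsq : ∀ w : F, w ≠ 0 → x (e.symm (w * w)) = true := fun w hw => (h5 w hw).elim
    (fun h => (h4 _ _ h h).2) fun h => by simpa using (h4 _ _ h h).2
  refine noOrd j hj D hD1 (fun n => (hD2 n).symm) A1 M1 a1 m1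
    (fun a b => Part.mem_unique (a2 _ _ (hD3 a) (hD3 b)) (H a b).1)
    (fun a b => Part.mem_unique (m2 _ _ (hD3 a) (hD3 b)) (H a b).2.1) (fun n => L1 (j 0, n))
    (by fun_prop) (fun w hw => by rw [l3, hsq w hw]) fun w hw => ?_
  rw [l3]
  by_contra h
  have := (h4 _ _ (hsq w hw) (Bool.eq_true_of_not_eq_false h)).1
  simp [h1] at this

end Pool.Agent.H37
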