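import Pool.Agent.H37.Attr1

/-! High degrees and dominant functions; permitting by a high c.e. set. -/

set_option autoImplicit false

namespace Pool.Agent.H37.Lq

open Filter Rnd Encodable Hd Attr

/-- computes a function dominating all computable functions -/
def Dom (A : ℕ → Bool) : Prop :=
  ∃ g : ℕ → ℕ, CI (orc (bit A)) g ∧ ∀ f, CI ∅ f → ∀ᶠ n in atTop, f n ≤ g n

theorem high_of_dom {A : ℕ → Bool} (hA : Dom A) : LE (jump (jump fun _ => false)) (jump A) := by
  obtain ⟨D0, a1, a2⟩ := jump_ce fun _ => false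
  obtain ⟨b, b1, b2⟩ := ci_K (re_of_nat (fun p t => D0 (p, t))
    (a1.trans (O := ∅) (by unfold bit; fun_prop)) a2)
  obtain ⟨D, d1, d2⟩ := jump_ce (jump fun _ => false)
  obtain ⟨R, r1, r2⟩ := post (fun p t => D (p, t)) (d1.trans (ci_bit.2 (b1.of_eq fun p =>
    Bool.eq_iff_iff.2 (b2 p).symm))) d2
  obtain ⟨g, g1, g2⟩ := hA
  have r1' : CI (orc (bit A)) R := r1.of_empty
  refine limit (a := fun q => (List.range (q.2 + 1)).any fun c => (List.range (g q.2)).all fun b =>
    R (q.1, c, b)) (by fun_prop) fun e => ?_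
  by_cases h : ∃ c, ∀ b, R (e, c, b) = true
  · obtain ⟨c, hc⟩ := h
    refine (eventually_ge_atTop c).mono fun s hs => ?_
    rw [(r2 e).2 ⟨c, hc⟩, List.any_eq_true]
    exact ⟨c, List.mem_range.2 (by omega), by simp [hc]⟩
  · obtain ⟨f, f1, f2⟩ := CI.exists_choice (O := ∅) (p := fun s t => (List.range (s + 1)).all
      fun c => (List.range t).any fun b => !R (e, c, b)) (by fun_prop) fun s =>
        (exists_stage_all (List.range (s + 1)) (fun c t => (List.range t).any fun b => !R (e, c, b))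
          (fun c t t' ht h => by
            simp only [List.any_eq_true, List.mem_range] at h ⊢
            exact h.imp fun b hb => ⟨by omega, hb.2⟩) fun c _ => by
            obtain ⟨b, hb⟩ := not_forall.1 (not_exists.1 h c)
            exact ⟨b + 1, by simpa using ⟨b, le_rfl, by simpa using hb⟩⟩).imp fun t ht =>
          List.all_eq_true.2 (ht t le_rfl)
    refine (g2 f f1).mono fun s hs => ?_
    rw [Bool.eq_false_iff.2 (mt (r2 e).1 h), List.any_eq_false]
    intro c hc hb
    obtain ⟨b, h1, h2⟩ := List.any_eq_true.1 (List.all_eq_true.1 (f2 s) c hc)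
    have := List.all_eq_true.1 hb b (List.mem_range.2 ((List.mem_range.1 h1).trans_le hs))
    simp [this] at h2

theorem ev_pre {γ : Type} {F : ℕ → ℕ → γ} {x : ℕ → γ} (h : ∀ n, ∀ᶠ s in atTop, F s n = x n) (u : ℕ) :
    ∀ᶠ s in atTop, pre (F s) u = pre x u :=
  ((eventually_all_finset (Finset.range u)).2 fun n _ => h n).mono fun _ hs =>
    pre_congr fun i hi => hs i (Finset.mem_range.2 hi)

theorem ev_U {F : ℕ → ℕ → ℕ} {x : ℕ → ℕ} (h : ∀ n, ∀ᶠ s in atTop, F s n = x n) {e n v : ℕ}
    (hv : v ∈ app e x n) : ∀ᶠ s in atTop, U e (pre (F s) s) n = some v := by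
  obtain ⟨u, hu⟩ := mem_app.1 hv
  filter_upwards [ev_pre h u, eventually_ge_atTop u] with s h1 h2
  exact U_mon e _ _ _ _ (pre_pf _ h2) (h1 ▸ hu)

theorem lim_of {A S : ℕ → Bool} (h : LE S (jump A)) :
    ∃ a : ℕ × ℕ → Bool, CI (orc (bit A)) a ∧ ∀ e, ∀ᶠ s in atTop, a (e, s) = S e := by
  obtain ⟨i, hi⟩ := exists_app_tot (ci_bit.2 h)
  obtain ⟨D, d1, d2⟩ := jump_ce A
  refine ⟨fun q => U i (pre (fun p => ((List.range q.2).any fun t => D (p, t)).toNat) q.2) q.1 ==
    some 1, by fun_prop, fun e => (ev_U (F := fun s p =>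
      ((List.range s).any fun t => D (p, t)).toNat) (fun p => ?_) (hi e)).mono fun s hs => ?_⟩
  · by_cases hp : jump A p = true
    · obtain ⟨t, ht⟩ := (d2 p).1 hp
      refine (eventually_gt_atTop t).mono fun s hs => ?_
      rw [bit, hp, List.any_eq_true.2 ⟨t, List.mem_range.2 hs, ht⟩]
    · refine .of_forall fun s => ?_
      rw [bit, Bool.eq_false_iff.2 hp, List.any_eq_false.2 fun t _ ht => hp ((d2 p).2 ⟨t, ht⟩)]
  · simp only [hs, bit]
    cases S e <;> rfl

theorem dom_of_high {A : ℕ → Bool} (hA : LE (jump (jump fun _ => false)) (jump A)) : Dom A := by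
  obtain ⟨b, b1, b2⟩ := jump_dec (X := fun _ => false) (α := ℕ × ℕ)
    (D := fun q => (ev q.1.1 q.1.2 q.2).isSome) (by fun_prop)
  obtain ⟨c, c1, c2⟩ := jump_dec (X := jump fun _ => false) (α := ℕ) (D := fun q => !b q)
    (by fun_prop)
  obtain ⟨a, a1, a2⟩ := lim_of (LE.trans c1 hA)
  obtain ⟨T, t1, t2⟩ := CI.exists_choice (O := orc (bit A)) (p := fun (q : ℕ × ℕ) t =>
    (ev q.1 q.2 (q.2 + t)).isSome || a (q.1, q.2 + t)) (by fun_prop) fun q => by
      by_cases h : c q.1 = true
      · obtain ⟨s, hs⟩ := eventually_atTop.1 (a2 q.1)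
        exact ⟨s, by simp [hs (q.2 + s) (by omega), h]⟩
      · have : b q = true := by simpa using not_exists.1 (mt (c2 q.1).2 h) q.2
        obtain ⟨t, ht⟩ := (b2 q).1 this
        obtain ⟨v, hv⟩ := Option.isSome_iff_exists.1 ht
        exact ⟨t, by simp [ev_mono (Nat.le_add_left t q.2) hv]⟩
  refine ⟨fun n => ((List.range (n + 1)).map fun e => (ev e n (n + T (e, n))).getD 0).sum,
    by fun_prop, fun f hf => ?_⟩
  obtain ⟨e, he⟩ := exists_index hf
  have : c e = false := Bool.eq_false_iff.2 fun h => by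
    obtain ⟨n, hn⟩ := (c2 e).1 h
    obtain ⟨s, hs⟩ := he n
    simp [(b2 (e, n)).2 ⟨s, by simp [hs]⟩] at hn
  obtain ⟨s, hs⟩ := eventually_atTop.1 (a2 e)
  filter_upwards [eventually_ge_atTop s, eventually_ge_atTop e] with n h1 h2
  have h3 := t2 (e, n)
  simp only [hs (n + T (e, n)) (by omega), this, Bool.or_false, Option.isSome_iff_exists] at h3
  obtain ⟨v, hv⟩ := h3
  obtain ⟨t, ht⟩ := he n
  refine List.single_le_sum (by simp) _ (List.mem_map.2 ⟨e, List.mem_range.2 (by omega), ?_⟩)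
  simp [hv, ev_unique hv ht]

/-- permitting data -/
structure Pm (A : ℕ → Bool) (pm en : ℕ × ℕ → Bool) : Prop where
  c1 : CI ∅ pm
  c2 : CI ∅ en
  mono : ∀ x y s, x ≤ y → pm (x, s) = true → pm (y, s) = true
  md : ∃ μ : ℕ → ℕ, CI (orc (bit A)) μ ∧ ∀ x s, μ x ≤ s → pm (x, s) = false
  dom : ∀ h, CI ∅ h → ∀ᶠ x in atTop, ∃ s, h x ≤ s ∧ pm (x, s) = true
  en_pm : ∀ q, en q = true → pm q = true
  cod : ∀ (O : Set (ℕ →. ℕ)) (m : ℕ → ℕ), CI O m → (∀ k s, en (k, s) = true → s ≤ m k) → CI O A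

theorem exists_pm {A : ℕ → Bool} (h1 : REPred fun n => A n = true) (h2 : Dom A) :
    ∃ pm en, Pm A pm en := by
  obtain ⟨g, g1, g2⟩ := h2
  obtain ⟨i, hi⟩ := exists_app_tot g1
  obtain ⟨D', hD, mono, eD⟩ := re_stage h1
  obtain ⟨D, hD, mono, eD⟩ : ∃ D : ℕ × ℕ → Bool, CI ∅ D ∧ (∀ a s t, s ≤ t → D (a, s) = true →
      D (a, t) = true) ∧ ∀ a, A a = true ↔ ∃ s, D (a, s) = true := ⟨_, hD, mono, eD⟩
  have st : ∀ n s t, D (n, s) = A n → s ≤ t → D (n, t) = A n := fun n s t h ht => by
    cases hn : A n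
    · exact Bool.eq_false_iff.2 fun h' => by simp [(eD n).2 ⟨t, h'⟩] at hn
    · exact mono _ _ _ ht (h.trans hn)
  have lim : ∀ n, ∀ᶠ s in atTop, D (n, s) = A n := fun n => by
    cases hn : A n
    · exact .of_forall fun s => Bool.eq_false_iff.2 fun h' => by simp [(eD n).2 ⟨s, h'⟩] at hn
    · obtain ⟨s, hs⟩ := (eD n).1 hn
      exact (eventually_ge_atTop s).mono fun t ht => mono _ _ _ ht hs
  obtain ⟨V, hV, eV⟩ : ∃ V : ℕ × ℕ → Option ℕ, CI ∅ V ∧
      ∀ j s, V (j, s) = U i (pre (fun n => (D (n, s)).toNat) s) j :=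
    ⟨fun q => U i (pre (fun n => (D (n, q.2)).toNat) q.2) q.1, by fun_prop, fun _ _ => rfl⟩
  have limV : ∀ j, ∀ᶠ s in atTop, V (j, s) = some (g j) := fun j => by
    simpa only [eV] using ev_U (F := fun s n => (D (n, s)).toNat)
      (fun n => (lim n).mono fun s hs => by rw [hs, bit]) (hi j)
  have hA : CI (orc (bit A)) A := LE.refl A
  have hD' : CI (orc (bit A)) D := hD.of_empty
  refine ⟨fun q => (List.range (q.1 + 1)).any fun j => (!D (j, q.2) && D (j, q.2 + 1)) ||
    (V (j, q.2) != V (j, q.2 + 1) || decide (q.2 ≤ (V (j, q.2)).getD q.2)),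
    fun q => !D q && D (q.1, q.2 + 1), by fun_prop, by fun_prop, fun x y s hxy h => ?_, ?_,
    fun h hh => (g2 h hh).mono fun x hx => ?_, fun q h => ?_, fun O m hm h => ?_⟩
  · simp only [List.any_eq_true, List.mem_range] at h ⊢
    exact h.imp fun j hj => ⟨by omega, hj.2⟩
  · obtain ⟨μ, m1, m2⟩ := CI.exists_choice (O := orc (bit A)) (p := fun j (r : ℕ × ℕ) =>
      U i (pre (bit A) r.1) j == some (g j) && (decide (r.1 + j + g j < r.2) &&
        (List.range (r.1 + j + 1)).all fun n => D (n, r.2) == A n))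
      (by unfold bit; fun_prop) fun j => by
        obtain ⟨u, hu⟩ := mem_app.1 (hi j)
        obtain ⟨s, h1, h2⟩ := ((eventually_gt_atTop (u + j + g j)).and ((eventually_all_finset
          (Finset.range (u + j + 1))).2 fun n _ => lim n)).exists
        exact ⟨(u, s), by simpa [hu, h1] using h2⟩
    refine ⟨fun x => ((List.range (x + 1)).map fun j => (μ j).2).sum, by fun_prop,
      fun x s hs => List.any_eq_false.2 fun j hj => ?_⟩
    have h1 : (μ j).2 ≤ s :=
      (List.single_le_sum (by simp) _ (List.mem_map.2 ⟨j, hj, rfl⟩)).trans hs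
    have h2 := m2 j
    simp only [Bool.and_eq_true, beq_iff_eq, decide_eq_true_eq, List.all_eq_true,
      List.mem_range] at h2
    have h3 : ∀ t, s ≤ t → V (j, t) = some (g j) := fun t ht => by
      rw [eV]
      refine U_mon i _ _ _ _ (pre_pf _ (show (μ j).1 ≤ t by omega)) ?_
      rw [← h2.1]
      exact congrArg (U i · j) (pre_congr fun n hn => by
        rw [st n _ t (h2.2.2 n (by omega)) (by omega), bit])
    simp [h3 s le_rfl, h3 (s + 1) (by omega), st j _ s (h2.2.2 j (by omega)) h1,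
      st j _ (s + 1) (h2.2.2 j (by omega)) (by omega)]
    omega
  · by_contra hc
    simp only [not_exists, not_and, Bool.not_eq_true, List.any_eq_false, List.mem_range,
      Bool.or_eq_true, not_or, bne_iff_ne, ne_eq, not_not, decide_eq_true_eq, not_le] at hc
    have : ∀ t, h x ≤ t → V (x, t) = V (x, h x) := fun t ht => by
      induction t, ht using Nat.le_induction with
      | base => rfl
      | succ t ht ih => rw [← (hc t ht x (by omega)).2.1, ih]
    obtain ⟨t, h1, h2⟩ := ((limV x).and (eventually_ge_atTop (h x))).exists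
    have h3 := (hc (h x) le_rfl x (by omega)).2.2
    rw [← this t h2, h1] at h3
    simp at h3
    omega
  · exact List.any_eq_true.2 ⟨q.1, by simp, by simp [show (!D (q.1, q.2) && D (q.1, q.2 + 1)) = true
      from h]⟩
  · have hD'' : CI O D := hD.of_empty
    refine (show CI O fun k => D (k, m k + 1) by fun_prop).of_eq fun k => ?_
    obtain ⟨t, h1, h2⟩ := ((lim k).and (eventually_ge_atTop (m k + 1))).exists
    rw [← h1]
    clear h1
    induction t, h2 using Nat.le_induction with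
    | base => rfl
    | succ t ht ih =>
      rw [ih]
      cases h3 : D (k, t)
      · exact (Bool.eq_false_iff.2 fun h4 => by linarith [h k t (by simp [h3, h4])]).symm
      · exact (mono _ _ _ (by omega) h3).symm

end Pool.Agent.H37.Lq
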