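import Pool.Agent.H37.AttrDefs

/-! Lattices of effectively closed subclasses modulo finite difference. -/

set_option autoImplicit false

namespace Pool.Agent.H37.Lq

/-- the paths through a computable binary tree -/
def Pi01 (P : Set (ℕ → Bool)) : Prop :=
  ∃ T : Set (List Bool), ComputablePred (fun σ => σ ∈ T) ∧ (∀ σ τ, σ <+: τ → τ ∈ T → σ ∈ T) ∧
    P = {x | ∀ n, (List.range n).map x ∈ T}

/-- the effectively closed subclasses of `P` -/
def Sub (P : Set (ℕ → Bool)) : Type := {X : Set (ℕ → Bool) // Pi01 X ∧ X ⊆ P}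

/-- finitely many subclasses modulo finite difference -/
def FinQ (P : Set (ℕ → Bool)) : Prop :=
  Finite (Quot fun X Y : Sub P => (symmDiff X.1 Y.1).Finite)

/-- the quotient lattice is complemented -/
def BoolQ (P : Set (ℕ → Bool)) : Prop :=
  ∀ X : Sub P, ∃ Y : Sub P, (X.1 ∩ Y.1).Finite ∧ (P \ (X.1 ∪ Y.1)).Finite

open Classical in
/-- the codes of the extendible nodes -/
noncomputable def ext (P : Set (ℕ → Bool)) (n : ℕ) : Bool :=
  decide (∃ x ∈ P, ∃ k, n = Encodable.encode ((List.range k).map x))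

end Pool.Agent.H37.Lq
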