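import Pool.Agent.H37.Lq1
import Pool.Agent.H37.LqDefs

/-! A finite non-Boolean quotient lattice forces a dominant function. -/

set_option autoImplicit false

namespace Pool.Agent.H37.Lq

open Filter Rnd Encodable Hd Attr

theorem pi01_iff {X : Set (ℕ → Bool)} :
    Pi01 X ↔ ∃ D : List Bool → Prop, REPred D ∧ X = {x | ∀ n, ¬ D (pre x n)} := by
  constructor
  · rintro ⟨T, h1, -, rfl⟩
    obtain ⟨t, t1, t2⟩ := computablePred_iff.1 h1
    exact ⟨fun σ => σ ∉ T, re_of_bool (fun σ => !t σ) (by fun_prop) fun σ => by simp [t2],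
      by simp [pre]⟩
  · rintro ⟨D, h1, rfl⟩
    obtain ⟨d', hd, mono, e⟩ := re_stage h1
    obtain ⟨d, hd, mono, e⟩ : ∃ d : List Bool × ℕ → Bool, CI ∅ d ∧ (∀ a s t, s ≤ t →
      d (a, s) = true → d (a, t) = true) ∧ ∀ a, D a ↔ ∃ s, d (a, s) = true := ⟨_, hd, mono, e⟩
    refine ⟨{σ | ∀ j ≤ σ.length, d (σ.take j, σ.length) = false}, computablePred_of
      (fun σ => (List.range (σ.length + 1)).all fun j => !d (σ.take j, σ.length)) (by fun_prop)
      fun σ => by simp [Nat.lt_succ_iff], ?_, Set.ext fun x => ?_⟩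
    · rintro σ _ ⟨ρ, rfl⟩ h j hj
      have := h j (by simp; omega)
      rw [List.take_append_of_le_length hj] at this
      exact Bool.eq_false_iff.2 fun h' => by
        rw [mono _ _ (σ ++ ρ).length (by simp) h'] at this; cases this
    · change _ ↔ ∀ n, ∀ j ≤ (pre x n).length, d ((pre x n).take j, (pre x n).length) = false
      simp only [Set.mem_setOf_eq, e, length_pre, not_exists, Bool.not_eq_true]
      refine ⟨fun h n j hj => by rw [take_pre _ hj, h], fun h n s => Bool.eq_false_iff.2 fun h' => ?_⟩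
      have := h (n + s) n (by omega)
      rw [take_pre _ (by omega), mono _ _ _ (by omega) h'] at this
      cases this

theorem Pi01.tree {X : Set (ℕ → Bool)} (h : Pi01 X) : ∃ t : List Bool → Bool, CI ∅ t ∧
    (∀ x n m, n ≤ m → t (pre x m) = true → t (pre x n) = true) ∧
      ∀ x, x ∈ X ↔ ∀ n, t (pre x n) = true := by
  obtain ⟨T, h1, h2, rfl⟩ := h
  obtain ⟨t, t1, t2⟩ := computablePred_iff.1 h1
  exact ⟨t, t1, fun x n m h h' => (t2 _).1 (h2 _ _ (pre_pf x h) ((t2 _).2 h')),
    fun x => forall_congr' fun n => t2 _⟩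

theorem ext_iff {P : Set (ℕ → Bool)} {n : ℕ} :
    ext P n = true ↔ ∃ x ∈ P, ∃ k, n = encode (pre x k) := by simp [ext, pre]

theorem ext_enc {P : Set (ℕ → Bool)} {σ : List Bool} :
    ext P (encode σ) = true ↔ ∃ x ∈ P, pre x σ.length = σ := by
  simp only [ext_iff, encode_inj]
  exact exists_congr fun x => and_congr_right fun _ =>
    ⟨fun ⟨k, h⟩ => by simp [h], fun h => ⟨_, h.symm⟩⟩

theorem re_ext {P : Set (ℕ → Bool)} (h : Pi01 P) : REPred fun n => ext P n = false := by
  obtain ⟨t, t1, -, t3⟩ := h.tree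
  refine (re_empty (T := fun (n : ℕ) σ => t σ && (decide (encode ((decode (α := List Bool) n).getD [])
    = n) && (σ.length != ((decode (α := List Bool) n).getD []).length ||
      σ == (decode (α := List Bool) n).getD []))) (by fun_prop)).of_eq fun n => ?_
  rw [← Bool.not_eq_true, ext_iff]
  refine not_congr (exists_congr fun x => ?_)
  simp only [t3, Bool.and_eq_true, decide_eq_true_eq, Bool.or_eq_true, bne_iff_ne, beq_iff_eq,
    length_pre, forall_and]
  refine and_congr_right fun _ => ⟨fun h => ⟨_, (h.1 0).symm.trans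
    (congrArg _ ((h.2 _).resolve_left fun h => h rfl).symm)⟩, ?_⟩
  rintro ⟨k, rfl⟩
  simpa [or_iff_not_imp_left] using fun j h => by rw [h]

def cnt (p : ℕ → Bool) (u v : ℕ) : ℕ := (List.range v).countP fun i => decide (u ≤ i) && p i

theorem cnt_succ (p : ℕ → Bool) (u v : ℕ) :
    cnt p u (v + 1) = cnt p u v + if u ≤ v ∧ p v = true then 1 else 0 := by
  simp [cnt, List.range_succ, List.countP_singleton]

theorem cnt_le {p q : ℕ → Bool} {u u' : ℕ} (v : ℕ) (h : u' ≤ u) (h' : ∀ i < v, p i = true → q i = true) :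
    cnt p u v ≤ cnt q u' v := List.countP_mono_left fun i hi => by
  simp only [Bool.and_eq_true, decide_eq_true_eq]
  exact fun h1 => ⟨h.trans h1.1, h' i (List.mem_range.1 hi) h1.2⟩

theorem cnt_add (p : ℕ → Bool) {u v : ℕ} (h : u ≤ v) : cnt p 0 v = cnt p 0 u + cnt p u v := by
  induction v, h using Nat.le_induction with
  | base => simp [cnt]; omega
  | succ v h ih => simp [cnt_succ, ih, h, add_assoc]

theorem cnt_ivt {p : ℕ → Bool} {u v j : ℕ} (h : j < cnt p u v) :
    ∃ i < v, u ≤ i ∧ p i = true ∧ cnt p u i = j := by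
  induction v with
  | zero => simp [cnt] at h
  | succ v ih =>
    by_cases h1 : j < cnt p u v
    · exact (ih h1).imp fun i hi => ⟨by omega, hi.2⟩
    · rw [cnt_succ] at h
      split_ifs at h with h2
      exacts [⟨v, by omega, h2.1, h2.2, by omega⟩, by omega]

theorem cnt_mono (p : ℕ → Bool) (u : ℕ) : Monotone (cnt p u) :=
  monotone_nat_of_le_succ fun v => by rw [cnt_succ]; omega

theorem cnt_unb {p : ℕ → Bool} (h : ∀ m, ∃ i, m ≤ i ∧ p i = true) (c : ℕ) : ∃ m, c ≤ cnt p 0 m := by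
  induction c with
  | zero => exact ⟨0, by simp⟩
  | succ c ih =>
    obtain ⟨m, hm⟩ := ih
    obtain ⟨i, h1, h2⟩ := h m
    exact ⟨i + 1, by simp [cnt_succ, h2, hm.trans (cnt_mono p 0 h1)]⟩

theorem quot_eq {P : Set (ℕ → Bool)} (h : FinQ P) (R : ℕ → Sub P) :
    ∃ j j', j < j' ∧ (symmDiff (R j).1 (R j').1).Finite := by
  have e : Equivalence fun X Y : Sub P => (symmDiff X.1 Y.1).Finite :=
    ⟨fun X => by simp, fun h => by rwa [symmDiff_comm],
      fun h h' => (h.union h').subset (symmDiff_triangle _ _ _)⟩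
  have := h
  unfold FinQ at this
  obtain ⟨j, j', h1, h2⟩ := Finite.exists_ne_map_eq_of_infinite fun j =>
    Quot.mk (fun X Y : Sub P => (symmDiff X.1 Y.1).Finite) (R j)
  have h3 := e.eqvGen_iff.1 (Quot.eqvGen_exact h2)
  rcases h1.lt_or_gt with h | h
  exacts [⟨j, j', h, h3⟩, ⟨j', j, h, e.symm h3⟩]

theorem dom_ext {P : Set (ℕ → Bool)} (hP : Pi01 P) (h1 : FinQ P) (h2 : ¬ BoolQ P) : Dom (ext P) := by
  obtain ⟨⟨Q, hQ, hQP⟩, hc⟩ := not_forall.1 h2
  obtain ⟨p, p1, -, p3⟩ := hP.tree
  obtain ⟨q, q1, q2, q3⟩ := hQ.tree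
  obtain ⟨mn, m1, m2⟩ : ∃ mn : ℕ → Bool, CI ∅ mn ∧ ∀ x n, mn (encode (pre x n)) = true ↔
      q (pre x n) = false ∧ ∀ j < n, q (pre x j) = true := by
    refine ⟨fun i => (decode (α := List Bool) i).elim false fun σ => !q σ &&
      (List.range σ.length).all fun j => q (σ.take j), by fun_prop, fun x n => ?_⟩
    simp only [encodek, Option.elim_some, length_pre, Bool.and_eq_true, Bool.not_eq_true',
      List.all_eq_true, List.mem_range]
    exact and_congr_right fun _ => forall₂_congr fun j hj => by rw [take_pre _ hj.le]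
  have uq : ∀ x n n', mn (encode (pre x n)) = true → mn (encode (pre x n')) = true → n = n' :=
    fun x n n' h h' => by
      rw [m2] at h h'
      rcases lt_trichotomy n n' with e | e | e
      exacts [by simpa [h.1] using h'.2 n e, e, by simpa [h'.1] using h.2 n' e]
  let I : ℕ → Bool := fun i => ext P i && mn i
  have inf : ∀ m, ∃ i, m ≤ i ∧ I i = true := fun m => by
    by_contra hm
    push Not at hm
    obtain ⟨L, hL⟩ := ((Set.finite_lt_nat m).image fun i =>
      ((decode (α := List Bool) i).getD []).length).bddAbove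
    refine hc ⟨⟨{x | ∀ n, ¬ ((!p (pre x n) || ((pre x n).length == L && q (pre x n))) = true)},
      pi01_iff.2 ⟨fun σ => (!p σ || (σ.length == L && q σ)) = true, re_of_bool _ (by fun_prop)
        fun _ => Iff.rfl, rfl⟩, fun x hx => (p3 x).2 fun n => by
          have := hx n; simp at this; exact this.1⟩,
      Set.finite_empty.subset fun x hx => hx.2 L (by simp [(q3 x).1 hx.1 L]),
      Set.finite_empty.subset fun x ⟨h3, h4⟩ => ?_⟩
    simp only [Set.mem_union, q3, not_or, not_forall, Set.mem_setOf_eq, not_not, (p3 x).1 h3,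
      length_pre, Bool.not_true, Bool.false_or, Bool.and_eq_true, beq_iff_eq] at h4
    obtain ⟨h4, _, rfl, h5⟩ := h4
    classical
    have h6 := Nat.find_spec h4
    have h7 : I (encode (pre x (Nat.find h4))) = true := by
      simp only [I, Bool.and_eq_true, m2, ext_iff]
      exact ⟨⟨x, h3, _, rfl⟩, by simpa using h6, fun j hj => by simpa using Nat.find_min h4 hj⟩
    have := hL ⟨_, not_le.1 fun h => hm _ h h7, rfl⟩
    simp only [encodek, Option.getD_some, length_pre] at this
    exact h6 (q2 x _ _ this h5)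
  have hE : CI (orc (bit (ext P))) (ext P) := LE.refl _
  have m1' : CI (orc (bit (ext P))) mn := m1.of_empty
  obtain ⟨g, g1, g2⟩ := CI.exists_choice (O := orc (bit (ext P))) (p := fun k m : ℕ =>
    decide (k * k + 1 ≤ cnt I 0 m)) (by simp only [cnt, I]; fun_prop) fun k => by
      simpa using cnt_unb inf (k * k + 1)
  refine ⟨g, g1, fun f hf => ?_⟩
  obtain ⟨b, eb⟩ : ∃ b : ℕ → ℕ, ∀ k, b (k + 1) = b k + f (k + 1) + 1 :=
    ⟨fun k => k.rec 0 fun k v => v + f (k + 1) + 1, fun _ => rfl⟩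
  have hb : CI ∅ b := CI.of_rec1 (h := fun k v => v + f (k + 1) + 1) (by fun_prop) eb
  have bs : StrictMono b := strictMono_nat_of_lt_succ fun k => by rw [eb]; omega
  obtain ⟨d', hd, mono, ed⟩ := re_stage (re_ext hP)
  obtain ⟨d, hd, mono, ed⟩ : ∃ d : ℕ × ℕ → Bool, CI ∅ d ∧ (∀ a s t, s ≤ t →
      d (a, s) = true → d (a, t) = true) ∧ ∀ a, ext P a = false ↔ ∃ s, d (a, s) = true :=
    ⟨_, hd, mono, ed⟩
  let K : ℕ → ℕ → Prop := fun j i => ∃ k, b k ≤ i ∧ cnt I (b k) i < j
  have hK : ∀ j, REPred (K j) := fun j => re_of_exists (fun i (r : ℕ × ℕ) => decide (b r.1 ≤ i) &&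
    decide (cnt (fun i => !d (i, r.2) && mn i) (b r.1) i < j))
    (by simp only [cnt]; fun_prop) fun i => by
      simp only [Bool.and_eq_true, decide_eq_true_eq, Prod.exists, exists_and_left]
      refine exists_congr fun k => and_congr_right fun _ => ⟨fun h => ?_, fun ⟨s, h⟩ =>
        lt_of_le_of_lt (cnt_le i le_rfl fun i _ h => ?_) h⟩
      · obtain ⟨s, hs⟩ := exists_stage_all (List.range i) (fun i s => ext P i || d (i, s))
          (fun i s t h => by simpa using Or.imp_right (mono i s t h)) fun i _ => by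
            cases h : ext P i
            exacts [by simpa using (ed i).1 h, by simp]
        refine ⟨s, lt_of_le_of_lt (cnt_le i le_rfl fun i hi h => ?_) h⟩
        have := hs s le_rfl i (List.mem_range.2 hi)
        simp only [I, Bool.and_eq_true, Bool.not_eq_true', Bool.or_eq_true] at h this ⊢
        exact ⟨this.resolve_right (by simp [h.1]), h.2⟩
      · simp only [I, Bool.and_eq_true, Bool.not_eq_true'] at h ⊢
        exact ⟨Bool.eq_false_iff.2 fun h' => by simp [(ed i).2 ⟨s, h'⟩] at h, h.2⟩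
  obtain ⟨j, j', hj, hf⟩ := quot_eq h1 fun j => ⟨{x | ∀ n, ¬ (p (pre x n) = false ∨
    mn (encode (pre x n)) = true ∧ K j (encode (pre x n)))}, pi01_iff.2 ⟨fun σ => p σ = false ∨
      mn (encode σ) = true ∧ K j (encode σ), re_or (re_of_bool (fun σ => !p σ) (by fun_prop)
      (by simp)) (re_and (re_of_bool (fun σ => mn (encode σ)) (by fun_prop) fun _ => Iff.rfl)
      (REPred.comp' (hK j) (by fun_prop))), rfl⟩,
      fun x hx => (p3 x).2 fun n => by simpa using (not_or.1 (hx n)).1⟩
  obtain ⟨M, hM⟩ := ((hf.biUnion (t := fun x => {i | ∃ n, i = encode (pre x n) ∧ mn i = true})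
    fun x _ => Set.Subsingleton.finite (by
      rintro _ ⟨n, rfl, h⟩ _ ⟨n', rfl, h'⟩; rw [uq x n n' h h']))).bddAbove
  have bl : ∀ k, M < k → cnt I (b k) (b (k + 1)) ≤ j := fun k hk => by
    by_contra hc
    obtain ⟨i, h3, h4, h5, h6⟩ := cnt_ivt (not_le.1 hc)
    simp only [I, Bool.and_eq_true, ext_iff] at h5
    obtain ⟨⟨x, hx, n, rfl⟩, h5⟩ := h5
    have := hM (Set.mem_biUnion (x := x) (Or.inl ⟨fun n' h => ?_, fun h => h n (Or.inr
      ⟨h5, k, h4, by omega⟩)⟩) ⟨n, rfl, h5⟩)
    · linarith [bs.le_apply (x := k)]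
    · rcases h with h | ⟨h, k', h7, h8⟩
      · simp [(p3 x).1 hx] at h
      · obtain rfl := uq x n n' h5 h
        have : k' ≤ k := Nat.lt_succ_iff.1 (bs.lt_iff_lt.1 (h7.trans_lt h3))
        linarith [cnt_le (p := I) (encode (pre x n)) (bs.monotone this) fun _ _ h => h]
  have tot : ∀ k, M + 1 ≤ k → cnt I 0 (b k) ≤ cnt I 0 (b (M + 1)) + j * k := fun k hk => by
    induction k, hk using Nat.le_induction with
    | base => omega
    | succ k hk ih =>
      rw [cnt_add I (bs.monotone (Nat.le_succ k))]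
      nlinarith [bl k hk]
  filter_upwards [eventually_ge_atTop (M + 1), eventually_ge_atTop (cnt I 0 (b (M + 1)) + j)]
    with k h3 h4
  obtain ⟨k, rfl⟩ : ∃ l, k = l + 1 := ⟨k - 1, by omega⟩
  by_contra hc
  have h5 := cnt_mono I 0 (show g (k + 1) ≤ b (k + 1) by rw [eb]; omega)
  have h6 := g2 (k + 1)
  simp only [decide_eq_true_eq] at h6
  nlinarith [tot _ h3]

end Pool.Agent.H37.Lq
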