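import Pool.Agent.H37.Lq2

/-! The construction with high permitting. -/

set_option autoImplicit false

namespace Pool.Agent.H37.Lq

open Filter Rnd Encodable Hd Attr

abbrev Cf := List (ℕ × ℕ) × List ℕ

def inW (e n s : ℕ) : Bool := (ev e n s).elim false fun v => decide (v ≤ s)

def S (e x s : ℕ) : ℕ :=
  (List.range e).foldl (fun a j => 2 * a + (x % 2 == 1 && inW j x s).toNat) 0

def cls (N : List ℕ) (π e ρ s b : ℕ) : ℕ :=
  cnt (fun y => N.contains y && (y % 2 == π && decide (ρ ≤ S e y s))) 0 b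

def prot (N : List ℕ) (e x s : ℕ) : Bool := decide (e ≤ cls N (x % 2) e (S e x s) s x)

def G (H : List Cf) (e x s : ℕ) : Bool := (List.range (s + 1)).any fun t =>
  decide (x ≤ cls (H.getD t ([], [])).2 (x % 2) e (S e x s + 1) t t)

section
variable (pm en : ℕ × ℕ → Bool)

def el (c : Cf) (s e n : ℕ) : Bool := n % 2 == 0 && (inW e n s && (pm (n, s) &&
  ((c.1.all fun p => p.2 != e && (decide (e < p.2) || decide (p.1 < n))) &&
    c.2.all fun x => decide (x < n) || prot c.2 e x s)))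

def act (c : Cf) (s : ℕ) : Option (ℕ × ℕ) :=
  ((List.range s).flatMap fun e => (c.2.filter (el pm c s e)).map fun n => (n, e)).head?

def kill (H : List Cf) (c : Cf) (s x : ℕ) : Bool :=
  (pm (x, s) && (List.range s).any fun e => prot c.2 e x s &&
    (G H e x s || (x % 2 == 0 && en (e, s)))) || (act pm c s).elim false fun p => decide (p.1 ≤ x)

def nxt (H : List Cf) (s : ℕ) : Cf :=
  ((act pm (H.getD s ([], [])) s).elim (H.getD s ([], [])).1 fun p =>
    p :: (H.getD s ([], [])).1.filter fun q => decide (q.1 < p.1),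
    s :: (H.getD s ([], [])).2.filter fun x => !kill pm en H (H.getD s ([], [])) s x)

def Hs : ℕ → List Cf
  | 0 => [([], [])]
  | s + 1 => Hs s ++ [nxt pm en (Hs s) s]

def cf (s : ℕ) : Cf := (Hs pm en s).getD s ([], [])

theorem Hs_eq (s : ℕ) : Hs pm en s = pre (cf pm en) (s + 1) := by
  induction s with
  | zero => rfl
  | succ s ih =>
    rw [pre_succ, ← ih, cf, Hs, List.getD_append_right _ _ _ _ (by simp [ih])]
    simp [ih]

theorem cf_succ (s : ℕ) : cf pm en (s + 1) = nxt pm en (pre (cf pm en) (s + 1)) s := by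
  rw [cf, Hs, Hs_eq, List.getD_append_right _ _ _ _ (by simp)]
  simp

end

section
variable {α : Type} [Primcodable α] {O : Set (ℕ →. ℕ)}

@[fun_prop] theorem ci_inW {e n s : α → ℕ} (h1 : CI O e) (h2 : CI O n) (h3 : CI O s) :
    CI O fun a => inW (e a) (n a) (s a) := by unfold inW; fun_prop
@[fun_prop] theorem ci_S {e n s : α → ℕ} (h1 : CI O e) (h2 : CI O n) (h3 : CI O s) :
    CI O fun a => S (e a) (n a) (s a) := by unfold S; fun_prop
@[fun_prop] theorem ci_cls {N : α → List ℕ} {π e ρ s b : α → ℕ} (h0 : CI O N) (h1 : CI O π)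
    (h2 : CI O e) (h3 : CI O ρ) (h4 : CI O s) (h5 : CI O b) :
    CI O fun a => cls (N a) (π a) (e a) (ρ a) (s a) (b a) := by
  simp only [cls, cnt]; fun_prop
@[fun_prop] theorem ci_prot {N : α → List ℕ} {e x s : α → ℕ} (h0 : CI O N) (h1 : CI O e)
    (h2 : CI O x) (h3 : CI O s) : CI O fun a => prot (N a) (e a) (x a) (s a) := by
  unfold prot; fun_prop
@[fun_prop] theorem ci_G {H : α → List Cf} {e x s : α → ℕ} (h0 : CI O H) (h1 : CI O e)
    (h2 : CI O x) (h3 : CI O s) : CI O fun a => G (H a) (e a) (x a) (s a) := by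
  unfold G; fun_prop
end

theorem ci_cf {pm en : ℕ × ℕ → Bool} (h1 : CI ∅ pm) (h2 : CI ∅ en) : CI ∅ (cf pm en) := by
  have a : CI ∅ fun q : Cf × ℕ => act pm q.1 q.2 := by unfold act el; fun_prop
  obtain ⟨F, hF, eF⟩ : ∃ F : Cf × ℕ → Option (ℕ × ℕ), CI ∅ F ∧ ∀ c s, act pm c s = F (c, s) :=
    ⟨_, a, fun _ _ => rfl⟩
  have : CI ∅ (Hs pm en) := CI.of_rec1 (h := fun s H => H ++ [nxt pm en H s])
    (by simp only [nxt, kill, eF]; fun_prop) fun _ => rfl
  unfold cf; fun_prop

theorem inW_iff {e n s : ℕ} : inW e n s = true ↔ ∃ v ≤ s, ev e n s = some v := by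
  unfold inW; cases ev e n s <;> simp

theorem inW_mono {e n s t : ℕ} (h : s ≤ t) (h' : inW e n s = true) : inW e n t = true :=
  let ⟨v, h1, h2⟩ := inW_iff.1 h'; inW_iff.2 ⟨v, h1.trans h, ev_mono h h2⟩

theorem S_succ (e x s : ℕ) : S (e + 1) x s = 2 * S e x s + (x % 2 == 1 && inW e x s).toNat := by
  simp [S, List.range_succ]

theorem S_mono (e x : ℕ) {s t : ℕ} (h : s ≤ t) : S e x s ≤ S e x t := by
  induction e with
  | zero => rfl
  | succ e ih =>
    rw [S_succ, S_succ]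
    cases h1 : inW e x s
    · simp; omega
    · rw [inW_mono h h1]; omega

theorem S_lt (e x s : ℕ) : S e x s < 2 ^ e := by
  induction e with
  | zero => simp [S]
  | succ e ih => rw [S_succ, pow_succ]; cases (x % 2 == 1 && inW e x s) <;> simp <;> omega

theorem S_div (e d x s : ℕ) : S (e + d) x s / 2 ^ d = S e x s := by
  induction d with
  | zero => simp
  | succ d ih =>
    rw [← add_assoc, S_succ, pow_succ', ← Nat.div_div_eq_div_mul, ← ih]
    congr 1
    cases (x % 2 == 1 && inW (e + d) x s) <;> simp <;> omega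

theorem S_ev {x : ℕ} (h : x % 2 = 0) (e s : ℕ) : S e x s = 0 := by
  induction e with
  | zero => rfl
  | succ e ih => simp [S_succ, ih, h]

theorem hd_flat {γ : Type} (f : ℕ → List γ) {s e : ℕ} (h : e < s) (hne : f e ≠ []) :
    ∃ e' ≤ e, ∃ p ∈ f e', ((List.range s).flatMap f).head? = some p := by
  induction s generalizing e with
  | zero => omega
  | succ s ih =>
    rw [List.range_succ, List.flatMap_append, List.head?_append]
    by_cases h1 : ∃ e' < s, e' ≤ e ∧ f e' ≠ []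
    · obtain ⟨e', h2, h3, h4⟩ := h1
      obtain ⟨e'', h5, p, h6, h7⟩ := ih h2 h4
      exact ⟨e'', by omega, p, h6, by simp [h7]⟩
    · push Not at h1
      obtain rfl : e = s := by_contra fun h2 => hne (h1 e (by omega) le_rfl)
      rw [List.flatMap_eq_nil_iff.2 fun e' he' =>
        h1 e' (List.mem_range.1 he') (List.mem_range.1 he').le]
      exact ⟨e, le_rfl, _, List.head_mem hne, by simp [List.head?_eq_some_head hne]⟩

theorem cnt_min (p q : ℕ → Bool) (e : ℕ) (h : ∀ x, p x = true → cnt p 0 x < e → q x = true)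
    (b : ℕ) : min e (cnt p 0 b) ≤ cnt q 0 b := by
  induction b with
  | zero => simp [cnt]
  | succ b ih =>
    simp only [cnt_succ, zero_le, true_and]
    by_cases h1 : p b = true
    · by_cases h2 : cnt p 0 b < e
      · simp only [h1, h b h1 h2, if_true]; omega
      · omega
    · rw [if_neg h1]; omega

section
variable (pm en : ℕ × ℕ → Bool)

def al (x s : ℕ) : Prop := x ∈ (cf pm en s).2
def C (π e ρ s b : ℕ) : ℕ := cls (cf pm en s).2 π e ρ s b
def Ac (s : ℕ) : Option (ℕ × ℕ) := act pm (cf pm en s) s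
def Pr (e x s : ℕ) : Prop := e ≤ C pm en (x % 2) e (S e x s) s x
def K (x s : ℕ) : Prop := (pm (x, s) = true ∧ ∃ e < s, Pr pm en e x s ∧
  ((∃ t ≤ s, x ≤ C pm en (x % 2) e (S e x s + 1) t t) ∨ (x % 2 = 0 ∧ en (e, s) = true))) ∨
    ∃ p, Ac pm en s = some p ∧ p.1 ≤ x
def El (s e n : ℕ) : Prop := al pm en n s ∧ n % 2 = 0 ∧ inW e n s = true ∧ pm (n, s) = true ∧
  (∀ p ∈ (cf pm en s).1, p.2 ≠ e ∧ (e < p.2 ∨ p.1 < n)) ∧
    ∀ x, al pm en x s → x < n ∨ Pr pm en e x s
def Tot (π e ρ : ℕ) : Prop := ∀ n, ∃ t, n ≤ C pm en π e ρ t t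
noncomputable def τ (π e : ℕ) : ℕ := sSup {ρ | Tot pm en π e ρ}
end

variable {A : ℕ → Bool} {pm en : ℕ × ℕ → Bool}

theorem al_succ {x s : ℕ} :
    al pm en x (s + 1) ↔ x = s ∨ (al pm en x s ∧ ¬ K pm en x s) := by
  have e : ∀ t ≤ s, (pre (cf pm en) (s + 1)).getD t ([], []) = cf pm en t := fun t ht =>
    getD_pre _ (by omega) _
  have : kill pm en (pre (cf pm en) (s + 1)) (cf pm en s) s x = true ↔ K pm en x s := by
    simp only [kill, K, Pr, C, Ac, prot, G, Bool.or_eq_true, Bool.and_eq_true, List.any_eq_true,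
      List.mem_range, decide_eq_true_eq, beq_iff_eq, Nat.lt_succ_iff]
    refine or_congr (and_congr_right fun _ => exists_congr fun _ => and_congr_right fun _ =>
      and_congr_right fun _ => or_congr_left (exists_congr fun t => and_congr_right fun ht => by
        rw [e t ht])) ?_
    cases act pm (cf pm en s) s <;> simp
  simp only [al, cf_succ, nxt, e s le_rfl, List.mem_cons, List.mem_filter, ← this,
    Bool.not_eq_true', Bool.not_eq_true]

theorem D_succ (s : ℕ) : (cf pm en (s + 1)).1 = (Ac pm en s).elim (cf pm en s).1 fun p =>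
    p :: (cf pm en s).1.filter fun q => decide (q.1 < p.1) := by
  simp only [cf_succ, nxt, getD_pre (cf pm en) (Nat.lt_succ_self s), Ac]

theorem el_iff {s e n : ℕ} : n ∈ (cf pm en s).2.filter (el pm (cf pm en s) s e) ↔ El pm en s e n := by
  simp [El, el, al, Pr, C, prot]

theorem Ac_el {s : ℕ} {p : ℕ × ℕ} (h : Ac pm en s = some p) : El pm en s p.2 p.1 := by
  obtain ⟨e, -, h⟩ := List.mem_flatMap.1 (List.mem_of_mem_head? h)
  obtain ⟨n, h', rfl⟩ := List.mem_map.1 h
  exact el_iff.1 h'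

theorem El.ac {s e n : ℕ} (h : El pm en s e n) (he : e < s) : ∃ p, Ac pm en s = some p ∧ p.2 ≤ e := by
  obtain ⟨e', h1, p, h2, h3⟩ := hd_flat (fun e => ((cf pm en s).2.filter
    (el pm (cf pm en s) s e)).map fun n => (n, e)) he
    (List.ne_nil_of_mem (List.mem_map_of_mem (el_iff.2 h)))
  obtain ⟨n, -, rfl⟩ := List.mem_map.1 h2
  exact ⟨_, h3, h1⟩

theorem al_lt {x s : ℕ} (h : al pm en x s) : x < s := by
  induction s with
  | zero => simp [al, cf, Hs] at h
  | succ s ih => rcases al_succ.1 h with h | h <;> [omega; linarith [ih h.1]]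

theorem al_down {x s t : ℕ} (h : al pm en x t) (h1 : x < s) (h2 : s ≤ t) : al pm en x s := by
  induction t, h2 using Nat.le_induction with
  | base => exact h
  | succ t h2 ih => exact ih ((al_succ.1 h).resolve_left (by omega)).1

theorem K_pm (h : Pm A pm en) {x s : ℕ} (h1 : K pm en x s) : pm (x, s) = true :=
  h1.elim And.left fun ⟨_, h2, h3⟩ => h.mono _ _ _ h3 (Ac_el h2).2.2.2.1

theorem keep {p : ℕ × ℕ} {t : ℕ} (h : p ∈ (cf pm en t).1) (h' : ∀ q, Ac pm en t = some q → p.2 ≤ q.2) :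
    p ∈ (cf pm en (t + 1)).1 := by
  rw [D_succ]
  cases e : Ac pm en t with
  | none => exact h
  | some q =>
    have := ((Ac_el e).2.2.2.2.1 p h).2
    have := h' q e
    simp [h]; right; omega

theorem keep' {p : ℕ × ℕ} {s t : ℕ} (h : p ∈ (cf pm en s).1) (ht : s ≤ t)
    (h' : ∀ t, s ≤ t → ∀ q, Ac pm en t = some q → p.2 ≤ q.2) : p ∈ (cf pm en t).1 := by
  induction t, ht using Nat.le_induction with
  | base => exact h
  | succ t ht ih => exact keep ih (h' t ht)

theorem fin_act (e : ℕ) : ∀ᶠ s in atTop, ∀ p, Ac pm en s = some p → e ≤ p.2 := by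
  induction e with
  | zero => simp
  | succ e ih =>
    obtain ⟨s, hs⟩ := eventually_atTop.1 ih
    by_contra hc
    obtain ⟨t, h1, h2⟩ := ((not_eventually.1 hc).and_eventually (eventually_ge_atTop s)).exists
    push Not at h1
    obtain ⟨p, h1, h3⟩ := h1
    have h4 : p.2 = e := by linarith [hs t h2 p h1]
    refine hc ((eventually_ge_atTop (t + 1)).mono fun u hu q hq => ?_)
    have := keep' (p := p) (s := t + 1) (by simp [D_succ, h1]) hu fun v hv q hq =>
      h4 ▸ hs v (by omega) q hq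
    have := ((Ac_el hq).2.2.2.2.1 p this).1
    have := hs u (by omega) q hq
    omega

theorem C_le {π e e' ρ ρ' s s' b b' : ℕ} (hb : b ≤ b') (h : ∀ y < b, y % 2 = π → al pm en y s →
    ρ ≤ S e y s → al pm en y s' ∧ ρ' ≤ S e' y s') : C pm en π e ρ s b ≤ C pm en π e' ρ' s' b' :=
  (cnt_le b le_rfl fun y hy => by
    simp only [Bool.and_eq_true, List.contains_iff_mem, beq_iff_eq, decide_eq_true_eq]
    exact fun h1 => ⟨(h y hy h1.2.1 h1.1 h1.2.2).1, h1.2.1, (h y hy h1.2.1 h1.1 h1.2.2).2⟩).trans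
    (cnt_mono _ 0 hb)

theorem C_succ {π e ρ s b : ℕ} (h1 : al pm en b s) (h2 : b % 2 = π) (h3 : ρ ≤ S e b s) :
    C pm en π e ρ s (b + 1) = C pm en π e ρ s b + 1 := by
  simp only [C, cls, cnt_succ]
  simpa [h2, h3, al] using h1

theorem C_bd (π e ρ s b : ℕ) : C pm en π e ρ s b ≤ b := by
  simpa [C, cls, cnt] using List.countP_le_length (l := List.range b)

theorem Tot.lt {π e ρ : ℕ} (h : Tot pm en π e ρ) : ρ < 2 ^ e := by
  obtain ⟨t, ht⟩ := h 1
  obtain ⟨i, -, -, h, -⟩ := cnt_ivt (j := 0) ht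
  simp only [Bool.and_eq_true, decide_eq_true_eq] at h
  exact h.2.2.trans_lt (S_lt _ _ _)

theorem Tot.le {π e ρ : ℕ} (h : Tot pm en π e ρ) : ρ ≤ τ pm en π e :=
  le_csSup ⟨2 ^ e, fun _ h => h.lt.le⟩ h

theorem tot_or (π e : ℕ) : Tot pm en π e (τ pm en π e) ∨ τ pm en π e = 0 := by
  rcases Set.eq_empty_or_nonempty {ρ | Tot pm en π e ρ} with h | h
  · right; simp [τ, h]
  · exact Or.inl (Nat.sSup_mem h ⟨2 ^ e, fun _ h => h.lt.le⟩)

theorem τ_down {π e e' x s : ℕ} (he : e' ≤ e) (h : τ pm en π e ≤ S e x s) :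
    τ pm en π e' ≤ S e' x s := by
  obtain ⟨d, rfl⟩ := Nat.exists_eq_add_of_le he
  rcases tot_or (pm := pm) (en := en) π e' with h1 | h1
  · rw [← S_div e' d, Nat.le_div_iff_mul_le (by positivity)]
    refine le_trans (Tot.le fun n => (h1 n).imp fun t ht => ht.trans (C_le le_rfl
      fun y _ _ h2 h3 => ⟨h2, ?_⟩)) h
    rwa [← S_div e' d, Nat.le_div_iff_mul_le (by positivity)] at h3
  · omega

theorem fin_pm (h : Pm A pm en) (b : ℕ) : ∀ᶠ s in atTop, ∀ x ≤ b, pm (x, s) = false := by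
  obtain ⟨μ, -, hμ⟩ := h.md
  exact (eventually_ge_atTop (μ b)).mono fun s hs x hx => Bool.eq_false_iff.2 fun h1 => by
    simpa [hμ b s hs] using h.mono _ _ _ hx h1

theorem pers (h : Pm A pm en) (π e : ℕ) : ∃ s, ∀ ρ, τ pm en π e ≤ ρ → ∀ t t', s ≤ t → t ≤ t' →
    ∀ b, min e (C pm en π e ρ t b) ≤ C pm en π e ρ t' b := by
  have : ∀ e', ∃ n, ∀ t, C pm en π e' (τ pm en π e' + 1) t t < n := fun e' => by
    by_contra hc
    push Not at hc
    linarith [Tot.le hc]
  choose n hn using this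
  obtain ⟨s, hs⟩ := eventually_atTop.1 ((fin_act (pm := pm) (en := en) e).and
    (fin_pm h (e + ∑ i ∈ Finset.range e, n i)))
  refine ⟨s, fun ρ hρ t t' h1 h2 b => ?_⟩
  induction t', h2 using Nat.le_induction with
  | base => exact min_le_right _ _
  | succ u hu ih =>
    refine le_trans (le_min (min_le_left _ _) ih) (cnt_min _ _ e (fun x h3 h4 => ?_) b)
    simp only [Bool.and_eq_true, List.contains_iff_mem, beq_iff_eq, decide_eq_true_eq] at h3 ⊢
    obtain ⟨h3, rfl, h5⟩ := h3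
    refine ⟨al_succ.2 (Or.inr ⟨h3, fun hK => ?_⟩), rfl, h5.trans (S_mono _ _ (by omega))⟩
    obtain ⟨h6, h7⟩ := hs u (by omega)
    have h8 : e + ∑ i ∈ Finset.range e, n i < x := by
      by_contra hc
      simpa [h7 x (by omega)] using K_pm h hK
    have h9 : ∀ e', e ≤ e' → ¬ Pr pm en e' x u := fun e' he' hp => by
      obtain ⟨d, rfl⟩ := Nat.exists_eq_add_of_le he'
      refine absurd (he'.trans (hp.trans (C_le le_rfl fun y _ _ h2 h3 => ⟨h2, h5.trans ?_⟩)))
        (not_le.2 h4)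
      rw [← S_div e d, ← S_div e d]
      exact Nat.div_le_div_right h3
    rcases hK with ⟨-, e', -, hp, hK⟩ | ⟨p, hp, hK⟩
    · have he : e' < e := not_le.1 fun h => h9 e' h hp
      rcases hK with ⟨v, -, hK⟩ | ⟨-, hK⟩
      · have := Finset.single_le_sum (f := n) (by simp) (Finset.mem_range.2 he)
        have := τ_down he.le (hρ.trans h5)
        linarith [hn e' v, C_le (pm := pm) (en := en) (π := x % 2) (e := e') (e' := e') (ρ := S e' x u + 1)
          (ρ' := τ pm en (x % 2) e' + 1) (s := v) (le_refl v) fun y _ _ h2 h3 => ⟨h2, by omega⟩]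
      · simpa [h7 e' (by omega)] using h.en_pm _ hK
    · exact h9 _ (h6 p hp) (((Ac_el hp).2.2.2.2.2 x h3).resolve_left (by omega))

theorem tot (h : Pm A pm en) {π : ℕ} (hπ : π < 2) (e : ℕ) : Tot pm en π e (τ pm en π e) := by
  have : Tot pm en π 0 0 := by
    by_contra hc
    refine hc fun n => ?_
    have h0 : τ pm en π n = 0 := (tot_or π n).resolve_left fun h => hc fun m => (h m).imp
      fun t ht => ht.trans (C_le le_rfl fun y _ _ h _ => ⟨h, zero_le⟩)
    obtain ⟨s, hs⟩ := pers h π n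
    have : ∀ k ≤ n, ∃ t, s ≤ t ∧ k ≤ C pm en π n 0 t t := fun k hk => by
      induction k with
      | zero => exact ⟨s, le_rfl, zero_le⟩
      | succ k ih =>
        obtain ⟨t, h1, h2⟩ := ih (by omega)
        refine ⟨2 * t + π + 1, by omega, ?_⟩
        rw [C_succ (al_succ.2 (Or.inl rfl)) (by omega) zero_le]
        have := hs 0 h0.le t (2 * t + π + 1) h1 (by omega) t
        have := C_le (pm := pm) (en := en) (π := π) (e := n) (ρ := 0) (s := 2 * t + π + 1)
          (show t ≤ 2 * t + π by omega) fun y _ _ h2 h3 => ⟨h2, h3⟩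
        omega
    obtain ⟨t, -, ht⟩ := this n le_rfl
    exact ⟨t, ht.trans (C_le le_rfl fun y _ _ h _ => ⟨h, zero_le⟩)⟩
  refine (tot_or π e).elim id fun h0 n => (this n).imp fun t ht => ?_
  exact ht.trans (C_le le_rfl fun y _ _ h _ => ⟨h, h0.le.trans zero_le⟩)

theorem supply (h : Pm A pm en) {π : ℕ} (hπ : π < 2) (e : ℕ) :
    ∃ b, ∀ᶠ t in atTop, e ≤ C pm en π e (τ pm en π e) t b := by
  obtain ⟨s, hs⟩ := pers h π e
  obtain ⟨t, ht⟩ := tot h hπ e (e + s)
  refine ⟨t, (eventually_ge_atTop t).mono fun u hu => ?_⟩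
  have := hs _ le_rfl t u (by linarith [C_bd (pm := pm) (en := en) π e (τ pm en π e) t t]) hu t
  omega

theorem unblock (h : Pm A pm en) (e : ℕ) :
    ∃ b, ∀ᶠ t in atTop, ∀ x, b ≤ x → al pm en x t → Pr pm en e x t := by
  have : ∀ π ρ, ∃ b, π < 2 → ∀ᶠ t in atTop, ∀ x, b ≤ x → al pm en x t → x % 2 = π →
      ρ ≤ S e x t → e ≤ C pm en π e ρ t x := fun π ρ => by
    by_cases hπ : π < 2
    swap
    · exact ⟨0, fun h => absurd h hπ⟩
    rcases le_total ρ (τ pm en π e) with h1 | h1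
    · obtain ⟨b, hb⟩ := supply h hπ e
      exact ⟨b, fun _ => hb.mono fun t ht x hx _ _ _ => ht.trans
        (C_le hx fun y _ _ h2 h3 => ⟨h2, h1.trans h3⟩)⟩
    · obtain ⟨s, hs⟩ := pers h π e
      have fin : {m | ∃ t, s ≤ t ∧ m = min e (C pm en π e ρ t t)}.Finite :=
        (Set.finite_le_nat e).subset (by rintro _ ⟨t, -, rfl⟩; exact min_le_left e _)
      obtain ⟨_, ⟨t, h2, rfl⟩, h3⟩ := fin.exists_maximal ⟨_, s, le_rfl, rfl⟩
      refine ⟨t, fun _ => (eventually_ge_atTop t).mono fun u hu x h4 h5 h6 h7 => ?_⟩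
      have h8 := hs ρ h1 t u h2 hu t
      have h9 := C_le (pm := pm) (en := en) (π := π) (e := e) (ρ := ρ) (s := u) h4
        fun y _ _ h2 h3 => ⟨h2, h3⟩
      have h10 := C_le (pm := pm) (en := en) (π := π) (e := e) (ρ := ρ) (s := u)
        (Nat.succ_le_of_lt (al_lt h5)) fun y _ _ h2 h3 => ⟨h2, h3⟩
      rw [C_succ h5 h6 h7] at h10
      have := @h3 (min e (C pm en π e ρ u u)) ⟨u, by omega, rfl⟩
      omega
  choose b hb using this
  refine ⟨∑ ρ ∈ Finset.range (2 ^ e), (b 0 ρ + b 1 ρ), ?_⟩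
  filter_upwards [(eventually_all_finset (Finset.range (2 ^ e))).2 fun ρ _ =>
    (hb 0 ρ (by omega)).and (hb 1 ρ (by omega))] with t ht x h1 h2
  have h3 := Finset.mem_range.2 (S_lt e x t)
  have := Finset.single_le_sum (f := fun ρ => b 0 ρ + b 1 ρ) (by simp) h3
  beta_reduce at this
  unfold Pr
  rcases Nat.mod_two_eq_zero_or_one x with h4 | h4 <;> rw [h4]
  exacts [(ht _ h3).1 x (by omega) h2 h4 le_rfl, (ht _ h3).2 x (by omega) h2 h4 le_rfl]

end Pool.Agent.H37.Lq
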