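import Pool.Agent.H37.Lq3

/-! Verification of the construction: survivors, states, the limit point. -/

set_option autoImplicit false

namespace Pool.Agent.H37.Lq

open Filter Rnd Encodable Hd Attr

section
variable (pm en : ℕ × ℕ → Bool)
def NN (x : ℕ) : Prop := ∀ s, x < s → al pm en x s
def a (s i : ℕ) : Bool := (cf pm en s).1.any fun p => p.1 == i
end

def pt (a : ℕ → Bool) (n i : ℕ) : Bool := if i < n then a i else i == n

variable {A : ℕ → Bool} {pm en : ℕ × ℕ → Bool}

theorem dead {x : ℕ} (h : ¬ NN pm en x) : ∀ᶠ s in atTop, ¬ al pm en x s := by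
  simp only [NN, not_forall] at h
  obtain ⟨s, h1, h2⟩ := h
  exact (eventually_ge_atTop s).mono fun t ht h => h2 (al_down h h1 ht)

theorem NN.not_K {x s : ℕ} (h : NN pm en x) (hs : x < s) : ¬ K pm en x s :=
  ((al_succ.1 (h (s + 1) (by omega))).resolve_left (by omega)).2

theorem stay (h : Pm A pm en) {x s t : ℕ} (h1 : al pm en x s) (ht : s ≤ t)
    (h2 : ∀ u, s ≤ u → u < t → pm (x, u) = false) : al pm en x t := by
  induction t, ht using Nat.le_induction with
  | base => exact h1
  | succ t ht ih => exact al_succ.2 (Or.inr ⟨ih fun u h3 h4 => h2 u h3 (by omega), fun hK => by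
      simpa [h2 t ht (by omega)] using K_pm h hK⟩)

theorem cnt_bd (p : ℕ → Bool) (u b : ℕ) : cnt p u b ≤ b := by
  simpa [cnt] using List.countP_le_length (l := List.range b)

theorem inf_NN (h : Pm A pm en) {π : ℕ} (hπ : π < 2) (m : ℕ) :
    ∃ x, m ≤ x ∧ NN pm en x ∧ x % 2 = π := by
  obtain ⟨b, hb⟩ := supply h hπ (m + 1)
  obtain ⟨t, h1, h2⟩ := (hb.and ((eventually_all_finset (Finset.range b)).2 fun x _ =>
    show ∀ᶠ t in atTop, al pm en x t → NN pm en x by
      by_cases hx : NN pm en x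
      exacts [.of_forall fun _ _ => hx, (dead hx).mono fun _ h h' => absurd h' h])).exists
  obtain ⟨x, h3, -, h4, h5⟩ := cnt_ivt (j := m) h1
  simp only [Bool.and_eq_true, List.contains_iff_mem, beq_iff_eq] at h4
  exact ⟨x, h5 ▸ cnt_bd _ _ _, h2 x (Finset.mem_range.2 h3) h4.1, h4.2.1⟩

theorem upper (π e : ℕ) :
    ∀ᶠ x in atTop, NN pm en x → x % 2 = π → ∀ t, S e x t ≤ τ pm en π e := by
  by_contra hc
  have : ∀ n, ∃ b, ∀ᶠ t in atTop, n ≤ C pm en π e (τ pm en π e + 1) t b := fun n => by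
    induction n with
    | zero => simp
    | succ n ih =>
      obtain ⟨b, hb⟩ := ih
      obtain ⟨x, h1, h2⟩ := ((not_eventually.1 hc).and_eventually (eventually_ge_atTop b)).exists
      push Not at h1
      obtain ⟨h3, h4, t, h5⟩ := h1
      refine ⟨x + 1, ?_⟩
      filter_upwards [hb, eventually_gt_atTop x, eventually_ge_atTop t] with u h6 h7 h8
      rw [C_succ (h3 u h7) h4 (h5.trans_le (S_mono e x h8))]
      exact Nat.succ_le_succ (h6.trans (C_le h2 fun y _ _ h2 h3 => ⟨h2, h3⟩))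
  have : Tot pm en π e (τ pm en π e + 1) := fun n => by
    obtain ⟨b, hb⟩ := this n
    obtain ⟨t, h1, h2⟩ := (hb.and (eventually_ge_atTop b)).exists
    exact ⟨t, h1.trans (C_le h2 fun y _ _ h2 h3 => ⟨h2, h3⟩)⟩
  linarith [this.le]

theorem lower (h : Pm A pm en) {π : ℕ} (hπ : π < 2) (e : ℕ) :
    ∀ᶠ x in atTop, NN pm en x → x % 2 = π → ∃ t, τ pm en π e ≤ S e x t := by
  have hc := ci_cf h.c1 h.c2
  obtain ⟨f, f1, f2⟩ := CI.exists_choice (O := ∅) (p := fun x t : ℕ =>
    decide (x ≤ C pm en π e (τ pm en π e) t t)) (by unfold C; fun_prop) fun x => by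
      simpa using tot h hπ e x
  obtain ⟨b, hb⟩ := supply h hπ e
  obtain ⟨s, hs⟩ := eventually_atTop.1 hb
  filter_upwards [h.dom (fun x => f x + s + e + x + 1) (by fun_prop), eventually_ge_atTop b]
    with x ⟨u, h1, h2⟩ h3 h4 h5
  by_contra h6
  push Not at h6
  subst h5
  refine h4.not_K (s := u) (by omega) (Or.inl ⟨h2, e, by omega, (hs u (by omega)).trans
    (C_le h3 fun y _ _ h2 h3 => ⟨h2, (h6 u).le.trans h3⟩), Or.inl ⟨f x, by omega,
      (of_decide_eq_true (f2 x)).trans (C_le le_rfl fun y _ _ h2 h3 => ⟨h2, (h6 u).trans_le h3⟩)⟩⟩)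

theorem coh (h : Pm A pm en) (e : ℕ) : ∃ b : Bool, ∀ᶠ x in atTop, NN pm en x → x % 2 = 1 →
    ((∃ t, inW e x t = true) ↔ b = true) := by
  refine ⟨τ pm en 1 (e + 1) % 2 == 1, ?_⟩
  filter_upwards [upper (pm := pm) (en := en) 1 (e + 1), lower h one_lt_two (e + 1)]
    with x h1 h2 h3 h4
  obtain ⟨t, ht⟩ := h2 h3 h4
  have : ∀ u, t ≤ u → τ pm en 1 (e + 1) % 2 = (inW e x u).toNat := fun u hu => by
    rw [← (h1 h3 h4 u).antisymm (ht.trans (S_mono _ _ hu)), S_succ]
    cases inW e x u <;> simp [h4]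
  refine ⟨fun ⟨u, hu⟩ => ?_, fun h5 => ⟨t, ?_⟩⟩
  · simp [this (max t u) (le_max_left _ _), inW_mono (le_max_right t u) hu]
  · rw [this t le_rfl] at h5
    revert h5; cases inW e x t <;> simp

theorem D_inv {s : ℕ} {p : ℕ × ℕ} (h : p ∈ (cf pm en s).1) :
    p.1 % 2 = 0 ∧ p.1 < s ∧ ¬ al pm en p.1 s ∧ ∃ u < s, Ac pm en u = some p ∧
      ∀ t, u < t → t ≤ s → p ∈ (cf pm en t).1 := by
  induction s with
  | zero => simp [cf, Hs] at h
  | succ s ih =>
    have old : p ∈ (cf pm en s).1 → p.1 % 2 = 0 ∧ p.1 < s + 1 ∧ ¬ al pm en p.1 (s + 1) ∧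
        ∃ u < s + 1, Ac pm en u = some p ∧
          ∀ t, u < t → t ≤ s + 1 → p ∈ (cf pm en t).1 := fun h' => by
      obtain ⟨h1, h2, h3, u, h4, h5, h6⟩ := ih h'
      exact ⟨h1, by omega, fun h7 =>
        h3 (al_down h7 h2 (by omega)), u, by omega, h5, fun t h7 h8 => by
          rcases h8.lt_or_eq with h8 | rfl
          exacts [h6 t h7 (by omega), h]⟩
    have h' := h
    rw [D_succ] at h'
    cases e : Ac pm en s with
    | none => exact old (by simpa [e] using h')
    | some q =>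
      simp only [e, Option.elim_some, List.mem_cons, List.mem_filter] at h'
      rcases h' with rfl | h'
      · have := al_lt (Ac_el e).1
        exact ⟨(Ac_el e).2.1, by omega, fun h1 => ((al_succ.1 h1).resolve_left (by omega)).2
          (Or.inr ⟨p, e, le_rfl⟩), s, by omega, e, fun t h1 h2 => by
            obtain rfl : t = s + 1 := by omega
            exact h⟩
      · exact old h'.1

theorem thin (h : Pm A pm en) (e : ℕ) : (∀ᶠ x in atTop, NN pm en x → x % 2 = 0 →
    ∀ t, inW e x t = false) ∨ ∃ n s, Ac pm en s = some (n, e) ∧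
      ∀ t, s < t → (n, e) ∈ (cf pm en t).1 := by
  rw [or_iff_not_imp_left]
  intro hc
  by_contra hn
  obtain ⟨b, hb⟩ := unblock h e
  obtain ⟨s, hs⟩ := eventually_atTop.1 (((fin_act (pm := pm) (en := en) (e + 1)).and hb).and
    (eventually_gt_atTop e))
  have h1 : ∀ t, s ≤ t → ∀ p ∈ (cf pm en t).1, p.2 ≠ e ∧ (e < p.2 ∨ p.1 < s) := fun t ht p hp => by
    obtain ⟨-, h2, -, u, h3, h4, h5⟩ := D_inv hp
    refine ⟨fun h6 => hn ⟨p.1, u, h6 ▸ h4, fun v hv => ?_⟩, ?_⟩
    · rw [← h6]
      rcases le_total v t with h7 | h7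
      exacts [h5 v hv h7, keep' hp h7 fun w hw q hq => by linarith [(hs w (by omega)).1.1 q hq]]
    · rcases le_or_gt s u with h6 | h6
      exacts [Or.inl ((hs u h6).1.1 p h4), Or.inr ((al_lt (Ac_el h4).1).trans h6)]
  have h2 : ∀ t n, s ≤ t → s + b ≤ n → al pm en n t → n % 2 = 0 → inW e n t = true →
      pm (n, t) = false := fun t n ht hn h3 h4 h5 => Bool.eq_false_iff.2 fun h6 => by
    obtain ⟨p, h7, h8⟩ := El.ac ⟨h3, h4, h5, h6, fun p hp => ⟨(h1 t ht p hp).1,
      (h1 t ht p hp).2.imp_right fun _ => by omega⟩, fun x hx => (lt_or_ge x n).imp_right fun _ =>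
        (hs t ht).1.2 x (by omega) hx⟩ (hs t ht).2
    linarith [(hs t ht).1.1 p h7]
  have hc' := ci_cf h.c1 h.c2
  obtain ⟨f, f1, f2⟩ := CI.exists_choice (O := ∅) (p := fun (x : ℕ) (q : ℕ × ℕ) =>
    decide (s + b + x ≤ q.1) && ((cf pm en q.2).2.contains q.1 && (q.1 % 2 == 0 && inW e q.1 q.2)))
    (by fun_prop) fun x => by
      obtain ⟨n, h3, h4⟩ := ((not_eventually.1 hc).and_eventually
        (eventually_ge_atTop (s + b + x))).exists
      push Not at h3
      obtain ⟨h5, h6, t, h7⟩ := h3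
      exact ⟨(n, n + t + 1), by
        simpa [h4, h6, inW_mono (show t ≤ n + t + 1 by omega) (by simpa using h7), al] using
          h5 (n + t + 1) (by omega)⟩
  obtain ⟨x, u, h3, h4⟩ := (h.dom (fun x => (f x).2) (by fun_prop)).exists
  have h5 := f2 x
  simp only [Bool.and_eq_true, decide_eq_true_eq, List.contains_iff_mem, beq_iff_eq] at h5
  have h6 := al_lt h5.2.1
  have : ∀ v, (f x).2 ≤ v → pm ((f x).1, v) = false := fun v => by
    induction v using Nat.strong_induction_on with
    | _ v ih => exact fun hv => h2 v _ (by omega) (by omega) (stay h h5.2.1 hv fun w h7 h8 =>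
        ih w h8 h7) h5.2.2.1 (inW_mono hv h5.2.2.2)
  simpa [this u h3] using h.mono x (f x).1 u (by omega) h4

theorem a_none {s : ℕ} (h : Ac pm en s = none) : a pm en (s + 1) = a pm en s :=
  funext fun i => by simp [a, D_succ, h]

theorem a_some {s : ℕ} {p : ℕ × ℕ} (h : Ac pm en s = some p) :
    a pm en (s + 1) = pt (a pm en s) p.1 := funext fun i => by
  rw [Bool.eq_iff_iff]
  simp only [a, D_succ, h, Option.elim_some, List.any_cons, pt, Bool.or_eq_true, beq_iff_eq,
    List.any_eq_true, List.mem_filter, decide_eq_true_eq]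
  split_ifs with hi
  · simp only [List.any_eq_true, beq_iff_eq]
    exact ⟨fun h => h.elim (fun _ => by omega) fun ⟨q, h1, h2⟩ => ⟨q, h1.1, h2⟩,
      fun ⟨q, h1, h2⟩ => Or.inr ⟨q, ⟨h1, by omega⟩, h2⟩⟩
  · simp only [beq_iff_eq]
    exact ⟨fun h => h.elim Eq.symm fun ⟨q, h1, h2⟩ => by omega, fun h => Or.inl h.symm⟩

theorem a_false {s i : ℕ} (h : al pm en i s ∨ i % 2 = 1) : a pm en s i = false :=
  List.any_eq_false.2 fun p hp e => by
    obtain rfl : p.1 = i := by simpa using e
    exact h.elim (D_inv hp).2.2.1 fun _ => by linarith [(D_inv hp).1]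

theorem a_stab {s t i : ℕ} (ht : s ≤ t) (h : ∀ u, s ≤ u → u < t → ∀ p, Ac pm en u = some p → i < p.1) :
    a pm en t i = a pm en s i := by
  induction t, ht using Nat.le_induction with
  | base => rfl
  | succ t ht ih =>
    rw [← ih fun u h1 h2 => h u h1 (by omega)]
    cases e : Ac pm en t with
    | none => rw [a_none e]
    | some p => rw [a_some e, pt, if_pos (h t ht (by omega) p e)]

theorem a_al {s t n i : ℕ} (h : al pm en n t) (hs : n < s) (ht : s ≤ t) (hi : i ≤ n) :
    a pm en t i = a pm en s i := a_stab ht fun u h1 h2 p hp => by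
  by_contra hc
  exact ((al_succ.1 (al_down h (show n < u + 1 by omega) h2)).resolve_left (by omega)).2
    (Or.inr ⟨p, hp, by omega⟩)

theorem exists_aa (h : Pm A pm en) : ∃ aa : ℕ → Bool, ∀ x, NN pm en x → ∀ s, x < s → ∀ i ≤ x,
    a pm en s i = aa i := by
  choose X h1 h2 _ using inf_NN h one_lt_two
  refine ⟨fun i => a pm en (X i + 1) i, fun x hx s hs i hi => ?_⟩
  rw [← a_al (hx (s + X i + 1) (by omega)) hs (by omega) hi]
  exact a_al (h2 i (s + X i + 1) (by omega)) (Nat.lt_succ_self _) (by omega) (h1 i)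

def Qs (pm en : ℕ × ℕ → Bool) (s : ℕ) (z : ℕ → Bool) : Prop :=
  (∀ i < s, z i = a pm en s i) ∨ ∃ n, al pm en n s ∧ ∀ i < s, z i = pt (a pm en s) n i

theorem Qs_down {s t : ℕ} {z : ℕ → Bool} (ht : s ≤ t) (h : Qs pm en t z) : Qs pm en s z := by
  induction t, ht using Nat.le_induction with
  | base => exact h
  | succ t ht ih =>
    refine ih ?_
    have : (∀ i < t, z i = a pm en (t + 1) i) → Qs pm en t z := fun h => by
      cases e : Ac pm en t with
      | none => exact Or.inl (a_none e ▸ h)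
      | some p => exact Or.inr ⟨p.1, (Ac_el e).1, a_some e ▸ h⟩
    rcases h with h | ⟨n, h1, h⟩
    · exact this fun i hi => h i (by omega)
    · rcases al_succ.1 h1 with rfl | ⟨h2, -⟩
      · exact this fun i hi => by rw [h i (by omega), pt, if_pos hi]
      · refine Or.inr ⟨n, h2, fun i hi => ?_⟩
        rw [h i (by omega), pt, pt]
        split_ifs with h3
        exacts [a_al h1 (al_lt h2) (by omega) h3.le, rfl]

theorem pi_Qs (h : Pm A pm en) : Pi01 {z | ∀ s, Qs pm en s z} := by
  have hc := ci_cf h.c1 h.c2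
  refine pi01_iff.2 ⟨fun σ => (!(((List.range σ.length).all fun i => σ.getD i false ==
    a pm en σ.length i) || (cf pm en σ.length).2.any fun n => (List.range σ.length).all fun i =>
      σ.getD i false == pt (a pm en σ.length) n i)) = true,
    re_of_bool _ (by simp only [a, pt]; fun_prop) fun _ => Iff.rfl,
    Set.ext fun z => forall_congr' fun s => ?_⟩
  simp only [Qs, al, length_pre, Bool.not_eq_true', Bool.not_eq_false, Bool.or_eq_true,
    List.all_eq_true, List.any_eq_true, List.mem_range, beq_iff_eq]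
  have : ∀ q : ℕ → Bool, (∀ i < s, z i = q i) ↔ ∀ i < s, (pre z s).getD i false = q i := fun q =>
    forall₂_congr fun i hi => by rw [getD_pre _ hi]
  simp only [this]

theorem mem_Qs (h : Pm A pm en) {aa : ℕ → Bool} (ha : ∀ x, NN pm en x → ∀ s, x < s → ∀ i ≤ x,
    a pm en s i = aa i) {z : ℕ → Bool} :
    (∀ s, Qs pm en s z) ↔ z = aa ∨ ∃ n, NN pm en n ∧ z = pt aa n := by
  have e : ∀ n s, NN pm en n → n < s → pt (a pm en s) n = pt aa n := fun n s h1 h2 =>
    funext fun i => by
      unfold pt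
      split_ifs with h3
      exacts [ha n h1 s h2 i h3.le, rfl]
  constructor
  · intro H
    rw [or_iff_not_imp_left, funext_iff, not_forall]
    intro hz
    classical
    obtain ⟨x, h1, h2, -⟩ := inf_NN h one_lt_two (Nat.find hz)
    have : ∀ s, x < s → al pm en (Nat.find hz) s ∧ ∀ i < s, z i = pt (a pm en s) (Nat.find hz) i :=
      fun s hs => by
        obtain h3 | ⟨n, h3, h4⟩ := H s
        · exact absurd ((h3 _ (by omega)).trans (ha x h2 s hs _ h1)) (Nat.find_spec hz)
        · obtain h5 | rfl | h5 := lt_trichotomy n (Nat.find hz)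
          · have := h4 n (al_lt h3)
            rw [not_not.1 (Nat.find_min hz h5), ← ha x h2 s hs n (by omega),
              a_false (Or.inl h3)] at this
            simp [pt] at this
          · exact ⟨h3, h4⟩
          · have := h4 _ (show Nat.find hz < s by omega)
            rw [pt, if_pos h5, ha x h2 s hs _ h1] at this
            exact absurd this (Nat.find_spec hz)
    have h3 : NN pm en (Nat.find hz) := fun s hs =>
      al_down (this (s + x + 1) (by omega)).1 hs (by omega)
    exact ⟨_, h3, funext fun i => by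
      rw [(this (i + x + 1) (by omega)).2 i (by omega), e _ _ h3 (by omega)]⟩
  · rintro (rfl | ⟨n, h1, rfl⟩) s
    · obtain ⟨x, h1, h2, -⟩ := inf_NN h one_lt_two s
      exact Qs_down (show s ≤ x + 1 by omega)
        (Or.inl fun i hi => (ha x h2 _ (by omega) i (by omega)).symm)
    · exact Qs_down (show s ≤ s + n + 1 by omega)
        (Or.inr ⟨n, h1 _ (by omega), fun i _ => by rw [e _ _ h1 (by omega)]⟩)

end Pool.Agent.H37.Lq
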