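import Pool.Agent.H37.Lq4

/-! The class built from a high c.e. set has a three element quotient lattice. -/

set_option autoImplicit false

namespace Pool.Agent.H37.Lq

open Filter Rnd Encodable Hd Attr

variable {A : ℕ → Bool} {pm en : ℕ × ℕ → Bool}

theorem pt_self (aa : ℕ → Bool) (n : ℕ) : pt aa n n = true := by simp [pt]
theorem pt_lt (aa : ℕ → Bool) {n i : ℕ} (h : i < n) : pt aa n i = aa i := if_pos h
theorem pt_gt (aa : ℕ → Bool) {n i : ℕ} (h : n < i) : pt aa n i = false := by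
  simp [pt, h.not_gt, h.ne']

theorem build (h : Pm A pm en) :
    ∃ P, Pi01 P ∧ FinQ P ∧ ¬ BoolQ P ∧ LE (ext P) A ∧ LE A (ext P) := by
  classical
  obtain ⟨aa, ha⟩ := exists_aa h
  obtain ⟨P, hP, mem⟩ : ∃ P, Pi01 P ∧ ∀ z, z ∈ P ↔ z = aa ∨ ∃ n, NN pm en n ∧ z = pt aa n :=
    ⟨_, pi_Qs h, fun z => mem_Qs h ha⟩
  have hc := ci_cf h.c1 h.c2
  have a0 : ∀ n, NN pm en n → aa n = false := fun n hn => by
    rw [← ha n hn (n + 1) (by omega) n le_rfl, a_false (Or.inl (hn _ (by omega)))]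
  have a1 : ∀ n, n % 2 = 1 → aa n = false := fun n hn => by
    obtain ⟨x, h1, h2, -⟩ := inf_NN h one_lt_two n
    rw [← ha x h2 (x + 1) (by omega) n h1, a_false (Or.inr hn)]
  have ep : ∀ n s, NN pm en n → n < s → pt (a pm en s) n = pt aa n := fun n s h1 h2 =>
    funext fun i => by
      unfold pt
      split_ifs with h3
      exacts [ha n h1 s h2 i h3.le, rfl]
  have inj : ∀ n m, NN pm en m → n < m → NN pm en n → pt aa n ≠ pt aa m := fun n m _ h1 h2 e => by
    simpa [pt_self, pt_lt aa h1, a0 n h2] using congrFun e n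
  have fin : ∀ X : Set (ℕ → Bool), X ⊆ P →
      (X.Finite ↔ ∀ᶠ n in atTop, NN pm en n → pt aa n ∉ X) := fun X hX => by
    rw [← Nat.cofinite_eq_atTop, eventually_cofinite]
    refine ⟨fun hf => Set.Finite.of_finite_image (f := pt aa) (hf.subset ?_) fun n hn m hm e => ?_,
      fun hf => ((hf.image (pt aa)).insert aa).subset fun z hz => ?_⟩
    · rintro _ ⟨n, hn, rfl⟩
      exact not_not.1 (Classical.not_imp.1 hn).2
    · by_contra hne
      rcases lt_or_gt_of_ne hne with h1 | h1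
      exacts [inj n m (Classical.not_imp.1 hm).1 h1 (Classical.not_imp.1 hn).1 e,
        inj m n (Classical.not_imp.1 hn).1 h1 (Classical.not_imp.1 hm).1 e.symm]
    · rcases (mem z).1 (hX hz) with rfl | ⟨n, hn, rfl⟩
      exacts [Or.inl rfl, Or.inr ⟨n, fun h => h hn hz, rfl⟩]
  obtain ⟨p, p1, -, p3⟩ := hP.tree
  let Q : Sub P := ⟨{z | ∀ n, ¬ (!p (pre z n) || (List.range (pre z n).length).any fun i =>
    i % 2 == 1 && (pre z n).getD i false) = true}, pi01_iff.2 ⟨fun σ => (!p σ ||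
      (List.range σ.length).any fun i => i % 2 == 1 && σ.getD i false) = true,
      re_of_bool _ (by fun_prop) fun _ => Iff.rfl, rfl⟩, fun z hz => (p3 z).2 fun n => by
        have := hz n
        simp only [Bool.or_eq_true, not_or] at this
        simpa using this.1⟩
  have mQ : ∀ n, NN pm en n → (pt aa n ∈ Q.1 ↔ n % 2 = 0) := fun n hn => by
    simp only [Q, Set.mem_setOf_eq, (p3 _).1 ((mem _).2 (Or.inr ⟨n, hn, rfl⟩)), length_pre,
      Bool.not_true, Bool.false_or, List.any_eq_true, List.mem_range, Bool.and_eq_true, beq_iff_eq,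
      not_exists, not_and]
    refine ⟨fun H => by_contra fun h1 => H (n + 1) n (by omega) (by omega)
      (by rw [getD_pre _ (by omega), pt_self]), fun h1 m i hi h2 => ?_⟩
    rw [getD_pre _ hi]
    rcases lt_or_gt_of_ne (show i ≠ n by omega) with h3 | h3
    exacts [by simp [pt_lt aa h3, a1 i h2], by simp [pt_gt aa h3]]
  have tri : ∀ R : Sub P, (∀ᶠ n in atTop, NN pm en n → pt aa n ∉ R.1) ∨
      (∀ᶠ n in atTop, NN pm en n → (pt aa n ∈ R.1 ↔ n % 2 = 0)) ∨
      ∀ᶠ n in atTop, NN pm en n → pt aa n ∈ R.1 := fun R => by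
    obtain ⟨t, t1, t2, t3⟩ := R.2.1.tree
    obtain ⟨D, d1, d2⟩ : ∃ D : ℕ × ℕ → Bool, CI ∅ D ∧ ∀ n s, D (n, s) = true ↔
        al pm en n s ∧ t (pre (pt (a pm en s) n) s) = false :=
      ⟨fun q => (cf pm en q.2).2.contains q.1 && !t (pre (pt (a pm en q.2) q.1) q.2),
        by unfold pt a; fun_prop, fun n s => by simp [al]⟩
    obtain ⟨e, he⟩ := exists_index_part (partrec_of_ri
      (RI.rfind (p := fun n s => Part.some (D (n, s))) d1.ri))
    have w1 : ∀ n s, inW e n s = true → ∃ v ≤ s, al pm en n v ∧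
        t (pre (pt (a pm en v) n) v) = false := fun n s h1 => by
      obtain ⟨v, h2, h3⟩ := inW_iff.1 h1
      exact ⟨v, h2, (d2 n v).1 (by simpa using Nat.rfind_spec ((he n v).2 ⟨s, h3⟩))⟩
    have w2 : ∀ n, NN pm en n → ((∃ s, inW e n s = true) ↔ pt aa n ∉ R.1) := fun n hn => by
      refine ⟨fun ⟨s, hs⟩ h1 => ?_, fun h1 => ?_⟩
      · obtain ⟨v, -, h2, h3⟩ := w1 n s hs
        simp [ep n v hn (al_lt h2), (t3 _).1 h1] at h3
      · obtain ⟨j, hj⟩ := not_forall.1 (mt (t3 _).2 h1)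
        have : (Nat.rfind fun s => Part.some (D (n, s))).Dom := Nat.rfind_dom.2 ⟨j + n + 1, by
          simp only [Part.mem_some_iff]
          refine ((d2 _ _).2 ⟨hn _ (by omega), Bool.eq_false_iff.2 fun h2 => ?_⟩).symm
          rw [ep n _ hn (by omega)] at h2
          exact hj (t2 _ _ _ (by omega) h2), fun _ => trivial⟩
        obtain ⟨s, hs⟩ := (he n _).1 (Part.get_mem this)
        exact ⟨_, inW_iff.2 ⟨_, le_max_left _ s, ev_mono (le_max_right _ _) hs⟩⟩
    rcases thin h e with h1 | ⟨n, s, h1, h2⟩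
    · right
      have h3 : ∀ᶠ n in atTop, NN pm en n → n % 2 = 0 → pt aa n ∈ R.1 := h1.mono fun n h2 h3 h4 =>
        by_contra fun h5 => by simpa [h2 h3 h4] using (w2 n h3).2 h5
      obtain ⟨_ | _, hb⟩ := coh h e
      · right
        filter_upwards [h3, hb] with n h4 h5 h6
        rcases Nat.mod_two_eq_zero_or_one n with h7 | h7
        exacts [h4 h6 h7, by simpa [w2 n h6] using h5 h6 h7]
      · left
        filter_upwards [h3, hb] with n h4 h5 h6
        rcases Nat.mod_two_eq_zero_or_one n with h7 | h7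
        exacts [by simp [h4 h6 h7, h7], by simpa [w2 n h6, h7] using h5 h6 h7]
    · left
      obtain ⟨h3, -, h4, -⟩ := Ac_el h1
      obtain ⟨v, h5, h6, h7⟩ := w1 n s h4
      refine (eventually_gt_atTop s).mono fun m hm h8 h9 => ?_
      have : pre (pt aa m) v = pre (pt (a pm en v) n) v := pre_congr fun i hi => by
        rw [pt_lt aa (show i < m by omega), ← ha m h8 (m + 1) (by omega) i (by omega),
          a_stab (show s + 1 ≤ m + 1 by omega), a_some h1]
        · unfold pt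
          split_ifs with h10
          exacts [a_al h3 (al_lt h6) h5 h10.le, rfl]
        · intro u u1 u2 q hq
          have k1 := h2 (u + 1) (by omega)
          have k2 := (Ac_el hq).1
          rw [D_succ, hq] at k1
          simp only [Option.elim_some, List.mem_cons, List.mem_filter, decide_eq_true_eq] at k1
          have k3 : n < q.1 := k1.elim (fun e => absurd k2 (by
            rw [← e]; exact (D_inv (h2 u (by omega))).2.2.1)) And.right
          by_contra k4
          exact ((al_succ.1 (al_down k2 (show q.1 < s + 1 by omega) u1)).resolve_left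
            (by omega)).2 (Or.inr ⟨_, h1, k3.le⟩)
      simp [← this, (t3 _).1 h9] at h7
  have sd : ∀ R R' : Sub P, (∀ᶠ n in atTop, NN pm en n → (pt aa n ∈ R.1 ↔ pt aa n ∈ R'.1)) →
      (symmDiff R.1 R'.1).Finite := fun R R' h1 =>
    (fin _ fun z hz => hz.elim (fun h => R.2.2 h.1) fun h => R'.2.2 h.1).2 (h1.mono
      fun n h2 h3 h4 => h4.elim (fun h => h.2 ((h2 h3).1 h.1)) fun h => h.2 ((h2 h3).2 h.1))
  have ex : ∀ {π : ℕ} {q : ℕ → Prop}, π < 2 → (∀ᶠ n in atTop, q n) →
      ∃ n, NN pm en n ∧ n % 2 = π ∧ q n := fun hπ hq => by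
    obtain ⟨m, hm⟩ := eventually_atTop.1 hq
    obtain ⟨n, h1, h2, h3⟩ := inf_NN h hπ m
    exact ⟨n, h2, h3, hm n h1⟩
  refine ⟨P, hP, ?_, fun hB => ?_, ?_, ?_⟩
  · let E : Sub P := ⟨∅, pi01_iff.2 ⟨fun _ => True, re_of_bool (fun _ => true) (by fun_prop)
      (by simp), by simp⟩, Set.empty_subset _⟩
    refine Finite.of_surjective (fun i : Fin 3 => Quot.mk _ (![E, Q, ⟨P, hP, subset_rfl⟩] i)) ?_
    rintro ⟨R⟩
    rcases tri R with h1 | h1 | h1
    · exact ⟨0, Quot.sound (sd _ _ (h1.mono fun n h2 h3 => by simpa [E] using h2 h3))⟩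
    · exact ⟨1, Quot.sound (sd _ _ (h1.mono fun n h2 h3 => (mQ n h3).trans (h2 h3).symm))⟩
    · exact ⟨2, Quot.sound (sd _ _ (h1.mono fun n h2 h3 =>
        iff_of_true (R.2.2 (h2 h3)) (h2 h3)))⟩
  · obtain ⟨R, h1, h2⟩ := hB Q
    rw [fin _ fun z hz => Q.2.2 hz.1] at h1
    rw [fin _ Set.diff_subset] at h2
    rcases tri R with h3 | h3 | h3
    · obtain ⟨n, h4, h5, h6, h7⟩ := ex one_lt_two (h2.and h3)
      exact h6 h4 ⟨(mem _).2 (Or.inr ⟨n, h4, rfl⟩), fun h8 => h8.elim
        (fun h9 => by linarith [(mQ n h4).1 h9]) (h7 h4)⟩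
    · obtain ⟨n, h4, h5, h6, h7⟩ := ex two_pos (h1.and h3)
      exact h6 h4 ⟨(mQ n h4).2 h5, (h7 h4).2 h5⟩
    · obtain ⟨n, h4, h5, h6, h7⟩ := ex two_pos (h1.and h3)
      exact h6 h4 ⟨(mQ n h4).2 h5, h7 h4⟩
  · obtain ⟨μ, m1, m2⟩ := h.md
    have hc' : CI (orc (bit A)) (cf pm en) := hc.of_empty
    have c1 : CI (orc (bit A)) aa := (show CI _ fun i => a pm en (μ i) i by
      unfold a; fun_prop).of_eq fun i => by
        obtain ⟨x, h1, h2, -⟩ := inf_NN h one_lt_two (μ i + i)
        rw [← ha x h2 (x + 1) (by omega) i (by omega), a_stab (show μ i ≤ x + 1 by omega)]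
        intro u u1 _ q hq
        by_contra k
        simpa [m2 i u u1] using h.mono _ i _ (by omega) (Ac_el hq).2.2.2.1
    have c2 : ∀ n, NN pm en n ↔ n ∈ (cf pm en (μ n + n + 1)).2 := fun n =>
      ⟨fun h1 => h1 _ (by omega), fun h1 s hs => (le_total s (μ n + n + 1)).elim (al_down h1 hs)
        fun h2 => stay h h1 h2 fun u u1 _ => m2 n u (by omega)⟩
    refine (show CI _ fun m => (decode (α := List Bool) m).elim false fun σ =>
      encode σ == m && (σ == pre aa σ.length || (List.range σ.length).any fun n =>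
        (cf pm en (μ n + n + 1)).2.contains n && σ == pre (pt aa n) σ.length) by
          unfold pt; fun_prop).of_eq fun m => ?_
    rw [Bool.eq_iff_iff, ext_iff]
    constructor
    · cases decode (α := List Bool) m with
      | none => simp
      | some σ =>
        simp only [Option.elim_some, Bool.and_eq_true, beq_iff_eq, Bool.or_eq_true,
          List.any_eq_true, List.contains_iff_mem, ← c2]
        rintro ⟨rfl, h1 | ⟨n, -, h1, h2⟩⟩
        exacts [⟨_, (mem _).2 (Or.inl rfl), _, congrArg _ h1⟩,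
          ⟨_, (mem _).2 (Or.inr ⟨n, h1, rfl⟩), _, congrArg _ h2⟩]
    · rintro ⟨z, hz, k, rfl⟩
      simp only [encodek, Option.elim_some, Bool.and_eq_true, beq_iff_eq, Bool.or_eq_true,
        List.any_eq_true, List.contains_iff_mem, ← c2, length_pre, List.mem_range, true_and]
      rcases (mem z).1 hz with rfl | ⟨n, h1, rfl⟩
      · exact Or.inl rfl
      · exact (le_or_gt k n).imp (fun h2 => pre_congr fun i hi => pt_lt aa (by omega))
          fun h2 => ⟨n, h2, h1, rfl⟩
  · have hE : CI (orc (bit (ext P))) (ext P) := LE.refl _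
    have e1 : ∀ (τ : List Bool) (b : Bool), ext P (encode (τ ++ [b])) = true ↔
        ∃ z ∈ P, pre z τ.length = τ ∧ z τ.length = b := fun τ b => by
      simp only [ext_enc, List.length_append, List.length_singleton, pre_succ]
      exact exists_congr fun z => and_congr_right fun _ => ⟨fun h => by
        simpa using List.append_inj h (by simp), fun h => by rw [h.1, h.2]⟩
    obtain ⟨f, f1, f2⟩ := CI.exists_choice (O := orc (bit (ext P))) (p := fun (i : ℕ)
      (τ : List Bool) => decide (i < τ.length) && (ext P (encode (τ ++ [false])) &&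
        ext P (encode (τ ++ [true])))) (by fun_prop) fun i => by
          obtain ⟨n, h1, h2, -⟩ := inf_NN h one_lt_two (i + 1)
          refine ⟨pre aa n, ?_⟩
          simp only [Bool.and_eq_true, e1, length_pre, decide_eq_true_eq]
          exact ⟨h1, ⟨aa, (mem _).2 (Or.inl rfl), rfl, a0 n h2⟩, pt aa n,
            (mem _).2 (Or.inr ⟨n, h2, rfl⟩), pre_congr fun i hi => pt_lt aa hi, pt_self _ _⟩
    have c1 : CI (orc (bit (ext P))) aa :=
      (show CI _ fun i => (f i).getD i false by fun_prop).of_eq fun i => by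
        have := f2 i
        simp only [Bool.and_eq_true, e1, decide_eq_true_eq] at this
        obtain ⟨h1, ⟨z, z1, z2, z3⟩, w, w1, w2, w3⟩ := this
        have k := pre_eq_iff.1 (z2.trans w2.symm)
        rw [← z2, getD_pre _ h1]
        rcases (mem z).1 z1 with rfl | ⟨n, n1, rfl⟩
        · rfl
        rcases (mem w).1 w1 with rfl | ⟨m, m1, rfl⟩
        · exact k i h1
        have : (f i).length ≤ m := not_lt.1 fun h2 => by simp [pt_gt aa h2] at w3
        rw [k i h1, pt_lt aa (by omega)]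
    have c2 : ∀ n, NN pm en n ↔ (!aa n && ext P (encode (pre aa n ++ [true]))) = true := fun n => by
      simp only [Bool.and_eq_true, Bool.not_eq_true', e1, length_pre]
      refine ⟨fun h1 => ⟨a0 n h1, pt aa n, (mem _).2 (Or.inr ⟨n, h1, rfl⟩),
        pre_congr fun i hi => pt_lt aa hi, pt_self _ _⟩, fun ⟨h1, z, z1, z2, z3⟩ => ?_⟩
      rcases (mem z).1 z1 with rfl | ⟨m, m1, rfl⟩
      · simp [h1] at z3
      · rcases lt_trichotomy m n with h2 | rfl | h2
        exacts [by simp [pt_gt aa h2] at z3, m1, by simp [pt_lt aa h2, h1] at z3]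
    obtain ⟨I, i1, i2⟩ : ∃ I : ℕ → Bool, CI (orc (bit (ext P))) I ∧
        ∀ n, I n = true ↔ NN pm en n ∧ n % 2 = 0 :=
      ⟨fun n => (!aa n && ext P (encode (pre aa n ++ [true]))) && n % 2 == 0, by fun_prop,
        fun n => by rw [c2]; simp⟩
    obtain ⟨g, g1, g2⟩ := CI.exists_choice (O := orc (bit (ext P))) (p := fun k m : ℕ =>
      decide (k + 1 ≤ cnt I 0 m)) (by simp only [cnt]; fun_prop) fun k => by
        simpa using cnt_unb (fun m => (inf_NN h two_pos m).imp fun x hx =>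
          ⟨hx.1, (i2 x).2 hx.2⟩) (k + 1)
    refine h.cod _ (fun k => g k + k) (by fun_prop) fun k s hk => ?_
    by_contra k1
    obtain ⟨x, x1, -, x2, x3⟩ := cnt_ivt (j := k)
      ((of_decide_eq_true (g2 k)).trans (cnt_mono I 0 (show g k ≤ s by omega)))
    obtain ⟨x4, x5⟩ := (i2 x).1 x2
    refine x4.not_K x1 (Or.inl ⟨h.mono k x s (x3 ▸ cnt_bd _ _ _) (h.en_pm _ hk), k, by omega,
      x3.ge.trans (cnt_le x le_rfl fun y hy h1 => ?_), Or.inr ⟨x5, hk⟩⟩)
    simpa [x5, S_ev x5, ((i2 y).1 h1).2, al] using ((i2 y).1 h1).1 s (by omega)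

theorem main (A : ℕ → Bool) :
    (∃ P, Pi01 P ∧ FinQ P ∧ ¬ BoolQ P ∧ TuringEquivalent (ora (ext P)) (ora A)) ↔
      CEDeg A ∧ TuringEquivalent (ora (jump A)) (ora (jump (jump fun _ => false))) := by
  constructor
  · rintro ⟨P, h1, h2, h3, h4, h5⟩
    have e1 : LE (fun n => !ext P n) (ext P) := (LE.refl (ext P)).not
    have e2 : LE (ext P) fun n => !ext P n := (LE.refl fun n => !ext P n).not.of_eq (by simp)
    have re : REPred fun n => (!ext P n) = true := by simpa using re_ext h1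
    refine ⟨⟨_, re, tr_iff.2 (e1.trans (tr_iff.1 h4)), tr_iff.2 ((tr_iff.1 h5).trans e2)⟩,
      tr_iff.2 (jump_mono ?_),
      tr_iff.2 ((high_of_dom (dom_ext h1 h2 h3)).trans (jump_mono (tr_iff.1 h4)))⟩
    obtain ⟨D, hD, -, eD⟩ := re_stage re
    obtain ⟨b, b1, b2⟩ := jump_dec (X := fun _ => false) hD.of_empty
    exact ((tr_iff.1 h5).trans e2).trans
      (b1.of_eq fun n => Bool.eq_iff_iff.2 ((b2 n).trans (eD n).symm))
  · rintro ⟨⟨C, h1, h2, h3⟩, -, h4⟩
    obtain ⟨pm, en, h⟩ := exists_pm h1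
      (dom_of_high ((tr_iff.1 h4).trans (jump_mono (tr_iff.1 h3))))
    obtain ⟨P, p1, p2, p3, p4, p5⟩ := build h
    exact ⟨P, p1, p2, p3, tr_iff.2 (p4.trans (tr_iff.1 h2)), tr_iff.2 ((tr_iff.1 h3).trans p5)⟩

end Pool.Agent.H37.Lq
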