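import Pool.Agent.H37.Vl1
import Pool.Agent.H37.Hd5

/-! Weights, integral tests relative to an oracle, and covering of c.e. sets of finite weight. -/

set_option autoImplicit false

namespace Pool.Agent.H37.Lr

open MeasureTheory ProbabilityTheory Filter Rnd Defc Encodable Hd Vl
open scoped ENNReal

noncomputable def ws (l : List ℕ) : ℝ≥0∞ := (l.map fun k => 2⁻¹ ^ k).sum

def cmp (a b : ℕ) (l : List ℕ) : Bool :=
  decide (a * 2 ^ l.sum < (l.map fun k => 2 ^ (l.sum + b - k)).sum)

@[fun_prop] theorem ci_cmp {α : Type} [Primcodable α] {O : Set (ℕ →. ℕ)} {a b : α → ℕ}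
    {l : α → List ℕ} (ha : CI O a) (hb : CI O b) (hl : CI O l) :
    CI O fun x => cmp (a x) (b x) (l x) := by unfold cmp; fun_prop

theorem hp (k : ℕ) (x : ℝ≥0∞) : 2⁻¹ ^ k * (2 ^ k * x) = x := by
  rw [← mul_assoc, ← mul_pow, ENNReal.inv_mul_cancel (by simp) (by simp), one_pow, one_mul]

theorem cmp_iff {a b : ℕ} {l : List ℕ} : cmp a b l = true ↔ a * 2⁻¹ ^ b < ws l := by
  have : ∀ N, (∀ k ∈ l, k ≤ N) → ((l.map fun k => 2 ^ (N - k)).sum : ℕ) = ws l * 2 ^ N :=
    fun N h => by
    induction l with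
    | nil => simp [ws]
    | cons k l ih =>
      obtain ⟨m, rfl⟩ := Nat.exists_eq_add_of_le' (h k (by simp))
      have := ih fun j hj => h j (by simp [hj])
      simp only [ws, List.map_cons, List.sum_cons, Nat.cast_add, add_mul] at this ⊢
      rw [this, Nat.add_sub_cancel, pow_add (2 : ℝ≥0∞) m k, mul_comm (2 ^ m), hp]
      simp
  rw [cmp, decide_eq_true_eq, ← Nat.cast_lt (α := ℝ≥0∞), this _ fun k hk =>
    (List.single_le_sum (by simp) _ hk).trans (Nat.le_add_right _ _),
    ← ENNReal.mul_lt_mul_iff_left (a := a * 2⁻¹ ^ b) (c := 2 ^ (l.sum + b)) (by simp) (by simp),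
    mul_assoc, pow_add, mul_comm (2 ^ l.sum : ℝ≥0∞), hp]
  simp

attribute [irreducible] cmp

noncomputable def wm (κ : ℕ → ℕ) : Measure ℕ :=
  Measure.sum fun i => (2⁻¹ : ℝ≥0∞) ^ κ i • Measure.dirac i

theorem wm_apply (κ : ℕ → ℕ) (S : Set ℕ) :
    wm κ S = ∑' i, S.indicator (fun i => 2⁻¹ ^ κ i) i := by
  rw [wm, Measure.sum_apply_of_countable]
  exact tsum_congr fun i => by by_cases h : i ∈ S <;> simp [h]

theorem wm_list (κ : ℕ → ℕ) (p : ℕ → Bool) (n : ℕ) :
    wm κ {i | i < n ∧ p i = true} = ws (((List.range n).filter p).map κ) := by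
  rw [wm_apply, tsum_eq_sum (s := Finset.range n) fun i hi => Set.indicator_of_notMem
    (fun h => hi (Finset.mem_range.2 h.1)) _, Finset.sum_congr rfl
      (g := fun i => if p i then 2⁻¹ ^ κ i else 0) fun i hi => by
        simp [Set.indicator_apply, Finset.mem_range.1 hi]]
  induction n with
  | zero => simp [ws]
  | succ n ih =>
    rw [Finset.sum_range_succ, ih, List.range_succ]
    cases h : p n <;> simp [ws, h]

theorem good {α : Type} [MeasurableSpace α] (μ : Measure α) {S : ℕ → Set α} (h : Monotone S)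
    (p : ℕ → Prop) {c : ℝ≥0∞} (hc : ∀ t, p t → μ (S t) ≤ c) : μ {y | ∃ t, p t ∧ y ∈ S t} ≤ c := by
  rw [show {y | ∃ t, p t ∧ y ∈ S t} = ⋃ t : {t // p t}, S t by ext; simp]
  exact (h.comp (Subtype.mono_coe p)).directed_le.measure_iUnion.le.trans
    (iSup_le fun t => hc t t.2)

theorem good' (w : ℕ → ℝ≥0∞) {S : ℕ → ℕ → Set (ℕ → Bool)} (h : ∀ j, Monotone (S j))
    (p : ℕ → Prop) {c : ℝ≥0∞} (hc : ∀ t, p t → ∑' j, w j * P (S j t) ≤ c) :
    ∑' j, w j * P {y | ∃ t, p t ∧ y ∈ S j t} ≤ c := by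
  have e : ∀ T : Set (ℕ × (ℕ → Bool)), (Measure.sum fun j => w j • P.map (Prod.mk j)) T =
      ∑' j, w j * P (Prod.mk j ⁻¹' T) := fun T => by
    simp only [Measure.sum_apply_of_countable, Measure.smul_apply, smul_eq_mul,
      (measurableEmbedding_prodMk_left _).map_apply]
  exact (e {y | ∃ t, p t ∧ y ∈ {y : ℕ × _ | y.2 ∈ S y.1 t}}).ge.trans
    (good _ (S := fun t => {y : ℕ × _ | y.2 ∈ S y.1 t}) (fun s t hs y a => h y.1 hs a) p
      fun t ht => (e _).le.trans (hc t ht))

theorem tonelli (κ : ℕ → ℕ) {S : ℕ → Set (ℕ → Bool)} (h : ∀ i, MeasurableSet (S i)) :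
    (Measurable fun Z => wm κ {i | Z ∈ S i}) ∧
      ∫⁻ Z, wm κ {i | Z ∈ S i} ∂P = ∑' i, 2⁻¹ ^ κ i * P (S i) := by
  have e : ∀ Z, wm κ {i | Z ∈ S i} = ∑' i, (S i).indicator (fun _ => 2⁻¹ ^ κ i) Z := fun Z =>
    (wm_apply _ _).trans (tsum_congr fun i => by by_cases h : Z ∈ S i <;> simp [h])
  simp only [e]
  refine ⟨Measurable.ennreal_tsum fun i => measurable_const.indicator (h i), ?_⟩
  rw [lintegral_tsum fun i => (measurable_const.indicator (h i)).aemeasurable]
  exact tsum_congr fun i => lintegral_indicator_const (h i) _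

theorem fin {A B : ℕ → Bool} (hB : Rd A B) {κ : ℕ → ℕ} {D : ℕ × List Bool → Bool}
    (hκ : CI (orc (bit A)) κ) (hD : CI (orc (bit A)) D)
    (h : ∑' i, 2⁻¹ ^ κ i * P {Z | ∃ n, D (i, pre Z n) = true} ≠ ∞) :
    wm κ {i | ∃ n, D (i, pre B n) = true} ≠ ∞ := fun h0 => by
  obtain ⟨m, hm⟩ := ENNReal.exists_nat_gt h
  obtain ⟨t1, t2⟩ := tonelli κ fun i => meas_test fun τ => D (i, τ)
  have e : ∀ a Z n, cmp a 0 (((List.range (pre Z n).length).filter fun i =>
      (List.range ((pre Z n).length + 1)).any fun j => D (i, (pre Z n).take j)).map κ) = true ↔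
      a < wm κ {i | i < n ∧ ∃ j ≤ n, D (i, pre Z j) = true} := fun a Z n => by
    rw [cmp_iff, ← wm_list, pow_zero, mul_one, length_pre]
    refine iff_of_eq (congrArg _ (congrArg _ (Set.ext fun i => and_congr_right fun _ => ?_)))
    simp only [List.any_eq_true, List.mem_range, Nat.lt_succ_iff]
    exact exists_congr fun j => and_congr_right fun hj => by rw [take_pre _ hj]
  obtain ⟨k, hk⟩ := hB (fun q => cmp ((m + 1) * 2 ^ q.1) 0 (((List.range q.2.length).filter
    fun i => (List.range (q.2.length + 1)).any fun j => D (i, q.2.take j)).map κ)) (by fun_prop)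
    fun k => by
      simp only [e]
      refine le_trans (measure_mono fun Z ⟨n, hn⟩ => hn.le.trans (measure_mono fun i a =>
        a.2.imp fun _ b => b.2)) ((meas_ge_le_lintegral_div (ε := ((m + 1) * 2 ^ k : ℕ))
          t1.aemeasurable (by simp) (ENNReal.natCast_ne_top _)).trans
            (ENNReal.div_le_of_le_mul (t2.le.trans (hm.le.trans ?_))))
      rw [Nat.cast_mul, mul_comm ((m + 1 : ℕ) : ℝ≥0∞), Nat.cast_pow, Nat.cast_ofNat, hp]
      simp
  simp only [← Bool.not_eq_true, e, not_lt] at hk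
  exact (le_trans (measure_mono (s := {i | ∃ n, D (i, pre B n) = true})
    (by exact fun i ⟨n, hn⟩ => ⟨i + n + 1, trivial, by omega, n, by omega, hn⟩)) (good (wm κ) (S := fun n => {i | i < n ∧ ∃ j ≤ n, D (i, pre B j) = true})
      (fun s t hs i a => ⟨a.1.trans_le hs, a.2.imp fun _ b => ⟨b.1.trans hs, b.2⟩⟩) (fun _ => True)
        fun t _ => hk t)).not_gt (h0 ▸ ENNReal.natCast_lt_top _)

theorem univ (Y : ℕ → Bool) : ∃ T : List Bool → Bool, CI (orc (bit Y)) T ∧
    (∃ z, ∀ n, T (pre z n) = true) ∧ ∀ z, (∀ n, T (pre z n) = true) → Rd Y z := by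
  have hY := CI.self (bit Y)
  obtain ⟨G, hG, eG⟩ : ∃ G : ℕ × List Bool → Bool, CI (orc (bit Y)) G ∧ ∀ e z t,
      G (e, pre z t) = true ↔ ∃ j ≤ t, U e (pre (bit Y) t) (encode (e + 2, pre z j)) = some 1 := by
    refine ⟨fun q => (List.range (q.2.length + 1)).any fun j => U q.1 (pre (bit Y) q.2.length)
      (encode (q.1 + 2, q.2.take j)) == some 1, by fun_prop, fun e z t => ?_⟩
    simp only [length_pre, List.any_eq_true, List.mem_range, beq_iff_eq, Nat.lt_succ_iff]
    exact exists_congr fun j => and_congr_right fun hj => by rw [take_pre _ hj]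
  have e : ∀ z n, ((List.range (pre z n).length).all fun e => !(G (e, pre z n) &&
      decide ((W (pre z n).length).countP (fun τ => G (e, τ)) * 2 ^ (e + 2) ≤
        2 ^ (pre z n).length))) = true ↔ ∀ e < n, ¬ (P {x | G (e, pre x n) = true} ≤ 2⁻¹ ^ (e + 2) ∧
          G (e, pre z n) = true) := fun z n => by
    simp only [length_pre, List.all_eq_true, List.mem_range, Bool.not_eq_true', ← P_pre,
      ← cnt_le, ← Bool.not_eq_true, Bool.and_eq_true, decide_eq_true_eq, and_comm]
  refine ⟨fun τ => (List.range τ.length).all fun e => !(G (e, τ) && decide ((W τ.length).countP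
    (fun τ => G (e, τ)) * 2 ^ (e + 2) ≤ 2 ^ τ.length)), by fun_prop, ?_, fun z hz D hD hm => ?_⟩
  · by_contra! h
    have : P Set.univ ≤ 2⁻¹ ^ 1 := (measure_mono fun z _ => ?_).trans ((measure_iUnion_le _).trans
      ((ENNReal.tsum_le_tsum fun e => good P (S := fun t => {x | G (e, pre x t) = true})
        (fun s t hs x a => (eG ..).2 (((eG ..).1 a).imp fun j b =>
          ⟨b.1.trans hs, U_mon _ _ _ _ _ (pre_pf _ hs) b.2⟩)) _ fun t a => a).trans (geo2 1).le))
    · simp at this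
    · obtain ⟨n, hn⟩ := h z
      simp only [ne_eq, e, not_forall, not_not] at hn
      obtain ⟨e, -, a⟩ := hn
      exact Set.mem_iUnion.2 ⟨e, n, a⟩
  obtain ⟨c, he⟩ := exists_app_tot (x := bit Y)
    (f := fun n => ((decode (α := ℕ × List Bool) n).map D == some true).toNat) (by fun_prop)
  refine ⟨c + 2, fun n => by_contra fun hn => ?_⟩
  obtain ⟨s, hs⟩ := mem_app.1 (he (encode (c + 2, pre z n)))
  refine (e ..).1 (hz (c + n + s + 1)) c (by omega) ⟨(measure_mono fun x h => ?_).trans (hm _),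
    (eG ..).2 ⟨n, by omega, U_mon _ _ _ _ _ (pre_pf (k := s) _ (by omega))
      (by simpa [hn] using hs)⟩⟩
  obtain ⟨j, -, h⟩ := (eG ..).1 h
  have := Part.mem_unique (mem_app.2 ⟨_, h⟩) (he _)
  refine ⟨j, by_contra fun a => ?_⟩
  simp [a] at this

theorem pos {Y z : ℕ → Bool} {T : List Bool → Bool} (hT : CI (orc (bit Y)) T) (hz : Rd Y z)
    (h : ∀ n, T (pre z n) = true) : P {x | ∀ n, T (pre x n) = true} ≠ 0 := fun h0 => by
  obtain ⟨G, hG, eG⟩ : ∃ G : List Bool → Bool, CI (orc (bit Y)) G ∧ ∀ x t,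
      G (pre x t) = true ↔ ∀ j ≤ t, T (pre x j) = true := by
    refine ⟨fun τ => (List.range (τ.length + 1)).all fun j => T (τ.take j), by fun_prop,
      fun x t => ?_⟩
    simp only [length_pre, List.all_eq_true, List.mem_range, Nat.lt_succ_iff]
    exact forall₂_congr fun j hj => by rw [take_pre _ hj]
  have h1 := P_anti (p := G) fun s t x hs a => (eG ..).2 fun j hj => (eG ..).1 a j (hj.trans hs)
  rw [measure_mono_null (s := {x | ∀ s, G (pre x s) = true})
    (fun x a n => (eG ..).1 (a n) n le_rfl) h0] at h1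
  obtain ⟨f, hf, ef⟩ := CI.exists_choice (O := orc (bit Y))
    (p := fun k s : ℕ => decide ((W s).countP G * 2 ^ k ≤ 2 ^ s)) (by fun_prop) fun k => by
      obtain ⟨s, hs⟩ := iInf_lt_iff.1 (h1.ge.trans_lt (ENNReal.pow_pos (a := 2⁻¹) (by simp) k))
      exact ⟨s, by rw [decide_eq_true_eq, ← cnt_le, ← P_pre]; exact hs.le⟩
  obtain ⟨k, hk⟩ := hz (fun q => q.2.length == f q.1 && G q.2) (by fun_prop) fun k => by
    have := ef k
    rw [decide_eq_true_eq, ← cnt_le, ← P_pre] at this
    refine le_trans (measure_mono fun x ⟨n, a⟩ => ?_) this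
    simp only [length_pre, Bool.and_eq_true, beq_iff_eq] at a
    exact a.1 ▸ a.2
  simpa [(eG z _).2 fun j _ => h j] using hk (f k)

def Bz (κ : ℕ → ℕ) (i : ℕ) : Set (ℕ → Bool) := {z | ∀ m < κ i, z (Nat.pair i m) = false}

theorem P_Bz (κ : ℕ → ℕ) (s : Finset ℕ) : P (⋂ i ∈ s, Bz κ i) = ∏ i ∈ s, 2⁻¹ ^ κ i := by
  have : ⋂ i ∈ s, Bz κ i = Set.pi ((s.sigma fun i => Finset.range (κ i)).image fun q =>
      Nat.pair q.1 q.2) fun _ => {false} := by
    ext ω; simp only [Bz, Set.mem_iInter, Set.mem_setOf_eq, Set.mem_pi, Finset.coe_image,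
      Set.forall_mem_image, Finset.mem_coe, Finset.mem_sigma, Finset.mem_range, Sigma.forall,
      Set.mem_singleton_iff]
    tauto
  rw [this, P, Measure.infinitePi_pi _ fun _ _ => measurableSet_singleton _]
  simp only [uniformOn_univ]
  rw [Finset.prod_image fun a _ b _ h => by
    simp only [Nat.pair_eq_pair] at h
    exact Sigma.ext h.1 (heq_of_eq h.2), Finset.prod_sigma]
  simp

theorem null_Bz (κ : ℕ → ℕ) {J : Set ℕ} (h : wm κ J = ∞) : P {z | ∀ i ∈ J, z ∉ Bz κ i} = 0 := by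
  classical
  have hm : ∀ i, MeasurableSet (if i ∈ J then Bz κ i else ∅) := fun i => by
    unfold Bz; split_ifs <;> measurability
  have e : ∀ i, P (if i ∈ J then Bz κ i else ∅) = J.indicator (fun i => 2⁻¹ ^ κ i) i := fun i => by
    have := P_Bz κ {i}
    by_cases h : i ∈ J <;> simp_all
  have h := measure_limsup_eq_one (μ := P) hm ((iIndepSet_iff_meas_biInter hm).2 fun s => by
      by_cases hs : ∀ i ∈ s, i ∈ J
      · rw [Set.iInter₂_congr fun i hi => if_pos (hs i hi), P_Bz]
        exact Finset.prod_congr rfl fun i hi => by rw [e, Set.indicator_of_mem (hs i hi)]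
      · push Not at hs
        obtain ⟨i, a, b⟩ := hs
        rw [Finset.prod_eq_zero a (by simp [b])]
        exact measure_mono_null (Set.biInter_subset_of_mem a) (by simp [b]))
    (by simpa only [e, ← wm_apply])
  refine measure_mono_null ?_ ((prob_compl_eq_zero_iff
    (MeasurableSet.measurableSet_limsup hm)).2 h)
  intro ω hω hc
  obtain ⟨n, hn⟩ := (mem_limsup_iff_frequently_mem.1 hc).exists
  split_ifs at hn with a
  exacts [hω n a hn, hn]

theorem cover {X Y : ℕ → Bool} (h : ∀ Z, Rd Y Z → Rd X Z) {κ φ : ℕ → ℕ} (hκ : CI ∅ κ)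
    {D : ℕ × ℕ → Bool} (hD : CI (orc (bit X)) D) (hφ : CI (orc (bit X)) φ)
    (hf : wm (fun i => κ (φ i)) {i | ∃ s, D (i, s) = true} ≠ ∞) :
    ∃ E : ℕ × ℕ → Bool, CI (orc (bit Y)) E ∧ (∀ i s, D (i, s) = true → ∃ t, E (φ i, t) = true) ∧
      wm κ {i | ∃ t, E (i, t) = true} ≠ ∞ := by
  by_contra! hc
  obtain ⟨T, hT, ⟨z0, h0⟩, hR⟩ := univ Y
  have k1 : CI (orc (bit Y)) κ := hκ.of_empty
  have k2 : CI (orc (bit X)) κ := hκ.of_empty
  obtain ⟨s, -, h1, h2, h3⟩ := chain (ι := ℕ) (fun q p : List Bool => p <+: q)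
    (fun _ => List.prefix_rfl) (fun _ _ _ a b => b.trans a)
    (fun σ => ∃ z, pre z σ.length = σ ∧ ∀ n, T (pre z n) = true)
    (fun N τ => N ≤ τ.length ∧ ∃ i s, D (i, s) = true ∧ N ≤ φ i ∧ ∀ m < κ (φ i),
      Nat.pair (φ i) m < τ.length ∧ τ.getD (Nat.pair (φ i) m) false = false)
    (fun N σ ⟨z, a1, a2⟩ => by
      obtain ⟨G, hG, eG⟩ : ∃ G : List Bool → Bool, CI (orc (bit Y)) G ∧ ∀ x,
          (∀ n, G (pre x n) = true) ↔ pre x σ.length = σ ∧ ∀ n, T (pre x n) = true :=
        ⟨fun τ => T τ && (τ.length != σ.length || τ == σ), by fun_prop, fun x => by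
          simp [forall_and, and_comm, or_iff_not_imp_left]⟩
      obtain ⟨F, hF, eF⟩ : ∃ F : ℕ × List Bool → Bool, CI (orc (bit Y)) F ∧ ∀ i x,
          (∀ n, F (i, pre x n) = true) ↔ (∀ n, G (pre x n) = true) ∧ x ∈ Bz κ i := by
        refine ⟨fun q => G q.2 && (List.range (κ q.1)).all fun m =>
          !q.2.getD (Nat.pair q.1 m) false, by fun_prop, fun i x => ?_⟩
        simp only [Bool.and_eq_true, forall_and, List.all_eq_true, List.mem_range,
          Bool.not_eq_true']
        refine and_congr_right fun _ => ⟨fun a m hm => getD_pre x (Nat.lt_succ_self _) false ▸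
          a _ m hm, fun a n m hm => ?_⟩
        by_cases b : Nat.pair i m < n
        · exact (getD_pre x b _).trans (a m hm)
        · exact List.getD_eq_default _ _ (by simpa using b)
      have e : ∀ i, (∃ t, ((W t).all fun ρ => (List.range (t + 1)).any fun j =>
          !F (i, ρ.take j)) = true) ↔ ¬ ∃ x, ∀ n, F (i, pre x n) = true := fun i => by
        simp only [List.all_eq_true, List.any_eq_true, List.mem_range, Nat.lt_succ_iff,
          Bool.not_eq_true', ← Bool.not_eq_true]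
        refine ⟨fun ⟨t, a⟩ ⟨x, b⟩ => ?_, stage (T := fun ρ => F (i, ρ) = true)⟩
        obtain ⟨j, c, d⟩ := a (pre x t) (mem_W.2 (by simp))
        exact d (take_pre x c ▸ b j)
      obtain ⟨i, u, b1, b2⟩ : ∃ i s, D (i, s) = true ∧ ¬ ∃ t, (decide (φ i < N) ||
          (W t).all fun ρ => (List.range (t + 1)).any fun j => !F (φ i, ρ.take j)) = true := by
        by_contra! b
        have := hc (fun q => decide (q.1 < N) || (W q.2).all fun ρ => (List.range (q.2 + 1)).any
          fun j => !F (q.1, ρ.take j)) (by fun_prop) b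
        simp only [Bool.or_eq_true, exists_or, e, Set.setOf_or] at this
        have := this.ge.trans (measure_union_le _ _)
        rw [top_le_iff, ENNReal.add_eq_top] at this
        rcases this with c | c
        · rw [wm_apply, tsum_eq_sum (s := Finset.range N) fun i hi =>
            Set.indicator_of_notMem (by simpa using hi) _] at c
          exact absurd c (ENNReal.sum_ne_top.2 fun i _ =>
            ne_top_of_le_ne_top (by simp) (Set.indicator_le_self _ _ i))
        · exact pos hG (hR z a2) ((eG z).2 ⟨a1, a2⟩) (measure_mono_null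
            (by exact fun x a i b c => b ⟨x, (eF i x).2 ⟨a, c⟩⟩) (null_Bz κ c))
      simp only [Bool.or_eq_true, exists_or, e, not_or, not_not] at b2
      obtain ⟨b2, x, b3⟩ := b2
      obtain ⟨b4, b5⟩ := (eF _ x).1 b3
      obtain ⟨b6, b7⟩ := (eG x).1 b4
      have b8 : ∀ m, m < κ (φ i) → Nat.pair (φ i) m < σ.length + N + Nat.pair (φ i) (κ (φ i)) :=
        fun m hm => (Nat.pair_lt_pair_right _ hm).trans_le (by omega)
      exact ⟨pre x (σ.length + N + Nat.pair (φ i) (κ (φ i))), ⟨x, by simp, b7⟩,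
        b6 ▸ pre_pf x (by simp; omega), by simp; omega, i, u, b1, by simpa using b2, fun m hm =>
          ⟨by simpa using b8 m hm, (getD_pre x (b8 m hm) _).trans (b5 m hm)⟩⟩) [] ⟨z0, rfl, h0⟩
  choose M hM using h3
  have g : ∀ {σ τ : List Bool}, σ <+: τ → ∀ {j}, j < σ.length → τ.getD j false = σ.getD j false :=
    fun ⟨_, e⟩ _ hj => e ▸ List.getD_append _ _ _ _ hj
  obtain ⟨Z, a1⟩ : ∃ y : ℕ → Bool, ∀ a, pre y (s a).length = s a :=
    ⟨fun j => (s (M (j + 1))).getD j false, fun a =>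
      (pre_congr fun j hj => ((g (h2 _ _ (le_max_left _ a)) (hM (j + 1)).1).symm.trans
        (g (h2 _ _ (le_max_right _ a)) hj))).trans (pre_getD _ false)⟩
  have a2 := h Z (hR Z fun n => by
    obtain ⟨z, b1, b2⟩ := h1 (M n)
    rw [← take_pre Z (hM n).1, a1, ← b1, take_pre z (hM n).1]
    exact b2 n)
  have a3 := fin a2 (κ := fun _ => 0) (D := fun q => ((List.range q.2.length).any fun s =>
    D (q.1, s)) && (List.range (κ (φ q.1))).all fun m => decide (Nat.pair (φ q.1) m < q.2.length) &&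
      !q.2.getD (Nat.pair (φ q.1) m) false) (by fun_prop) (by fun_prop)
    (ne_top_of_le_ne_top hf ((ENNReal.tsum_le_tsum fun i => ?_).trans (wm_apply _ _).ge))
  · rw [wm_apply] at a3
    obtain ⟨N, hN⟩ := ((ENNReal.finite_const_le_of_tsum_ne_top a3 one_ne_zero).image φ).bddAbove
    obtain ⟨-, i, u, b1, b2, b3⟩ := hM (N + 1)
    refine (hN ⟨i, ?_, rfl⟩).not_gt b2
    rw [Set.mem_setOf_eq, Set.indicator_of_mem, pow_zero]
    refine ⟨(s (M (N + 1))).length + u + 1, ?_⟩
    simp only [length_pre, Bool.and_eq_true, List.any_eq_true, List.all_eq_true, List.mem_range,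
      decide_eq_true_eq, Bool.not_eq_true']
    exact ⟨⟨u, by omega, b1⟩, fun m hm => ⟨by have := (b3 m hm).1; omega,
      (g (a1 _ ▸ pre_pf Z (by simp; omega)) (b3 m hm).1).trans (b3 m hm).2⟩⟩
  · rw [pow_zero, one_mul]
    by_cases b : ∃ s, D (i, s) = true
    · rw [Set.indicator_of_mem (s := {i | ∃ s, D (i, s) = true}) b]
      refine le_trans (measure_mono fun x ⟨n, a⟩ => ?_) (by simpa using (P_Bz κ {φ i}).le)
      simp only [length_pre, Bool.and_eq_true, List.all_eq_true, List.mem_range,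
        decide_eq_true_eq, Bool.not_eq_true'] at a
      exact fun m hm => getD_pre x (a.2 m hm).1 false ▸ (a.2 m hm).2
    · simp [not_exists.1 b]

end Pool.Agent.H37.Lr
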