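import Pool.Agent.H37.Lr1
import Pool.Agent.H37.Ki2

/-! If `A ⊕ B` is LR-below `B` and `B` is random relative to `A`, then `A` is K-trivial. -/

set_option autoImplicit false

namespace Pool.Agent.H37.Lr

open MeasureTheory Filter Rnd Defc Encodable Hd Vl Kc Ki
open scoped ENNReal

theorem trim {κ : ℕ → ℕ} (hκ : CI ∅ κ) : ∃ T : ℕ × ℕ × List Bool → Bool, CI ∅ T ∧
    (∀ c i, Monotone fun s => {Z | T (c, i, pre Z s) = true}) ∧
    (∀ c i Z s, T (c, i, pre Z s) = true → i < s) ∧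
    (∀ c Z, wm κ {i | ∃ s, T (c, i, pre Z s) = true} ≤ c) ∧
    ∀ (B : ℕ → Bool) (E : ℕ × ℕ → Bool), CI (orc (bit B)) E →
      wm κ {i | ∃ t, E (i, t) = true} ≠ ∞ →
        ∃ c, ∀ i t, E (i, t) = true → ∀ᶠ s in atTop, T (c, i, pre B s) = true := by
  obtain ⟨G, hG, eG⟩ : ∃ G : ℕ × ℕ × List Bool → Bool, CI ∅ G ∧ ∀ e i Z t,
      G (e, i, pre Z t) = true ↔ ∃ u < t, U e (pre (bit Z) t) (Nat.pair i u) = some 1 :=
    ⟨fun q => (List.range q.2.2.length).any fun u => U q.1 (q.2.2.map Bool.toNat)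
      (Nat.pair q.2.1 u) == some 1, by fun_prop, fun e i Z t => by simp [map_pre]⟩
  have mG : ∀ e Z, Monotone fun t => {i | i < t ∧ G (e, i, pre Z t) = true} :=
    fun e Z s t h i a => ⟨a.1.trans_le h, (eG ..).2 (((eG ..).1 a.2).imp fun u b =>
      ⟨b.1.trans_le h, U_mon _ _ _ _ _ (pre_pf _ h) b.2⟩)⟩
  obtain ⟨T, hT, eT⟩ : ∃ T : ℕ × ℕ × List Bool → Bool, CI ∅ T ∧ ∀ c i Z s,
      T (c, i, pre Z s) = true ↔ ∃ t ≤ s, wm κ {i | i < t ∧ G (c.unpair.1, i, pre Z t) = true} ≤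
        c.unpair.2 ∧ i < t ∧ G (c.unpair.1, i, pre Z t) = true := by
    refine ⟨fun q => (List.range (q.2.2.length + 1)).any fun t => !cmp q.1.unpair.2 0
      (((List.range t).filter fun i => G (q.1.unpair.1, i, q.2.2.take t)).map κ) &&
        (decide (q.2.1 < t) && G (q.1.unpair.1, q.2.1, q.2.2.take t)), by fun_prop,
      fun c i Z s => ?_⟩
    simp only [length_pre, List.any_eq_true, List.mem_range, Nat.lt_succ_iff, Bool.and_eq_true,
      Bool.not_eq_true', ← Bool.not_eq_true, cmp_iff, ← wm_list, pow_zero, mul_one, not_lt,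
      decide_eq_true_eq]
    exact exists_congr fun t => and_congr_right fun ht => by rw [take_pre _ ht]
  refine ⟨T, hT, fun c i s t h Z a => (eT ..).2 (((eT ..).1 a).imp fun u b => ⟨b.1.trans h, b.2⟩),
    fun c i Z s a => ((eT ..).1 a).elim fun t b => b.2.2.1.trans_le b.1, fun c Z => le_trans
      (measure_mono fun i ⟨s, a⟩ => ((eT ..).1 a).imp fun t b => b.2) ((good _ (mG _ Z) _
        fun t a => a).trans (Nat.cast_le.2 (Nat.unpair_right_le c))), fun B E hE h => ?_⟩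
  obtain ⟨M, hM⟩ := ENNReal.exists_nat_gt h
  obtain ⟨e, he⟩ := exists_app_tot (x := bit B) (f := fun n => (E n.unpair).toNat) (by fun_prop)
  refine ⟨Nat.pair e M, fun i t a => ?_⟩
  filter_upwards [mem_app'.1 (he (Nat.pair i t)), eventually_gt_atTop (i + t)] with s b c
  simp only [eT, Nat.unpair_pair]
  refine ⟨s, le_rfl, le_trans (measure_mono fun j d => ?_) hM.le, by omega,
    (eG ..).2 ⟨t, by omega, by simpa [a] using b⟩⟩
  obtain ⟨u, -, f⟩ := (eG ..).1 d.2
  have := Part.mem_unique (mem_app.2 ⟨_, f⟩) (he _)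
  refine ⟨u, by_contra fun g => ?_⟩
  simp [g] at this

theorem geoE (S : Set ℕ) {g : ℝ≥0∞} (h : ∀ k ∈ S, 2⁻¹ ^ k ≤ g) :
    ∑' k, S.indicator (fun k => (2⁻¹ : ℝ≥0∞) ^ k) k ≤ 2 * g := by
  rcases S.eq_empty_or_nonempty with rfl | hS
  · simp
  rw [← (add_left_injective (sInf S)).tsum_eq fun k hk => ⟨k - sInf S, Nat.sub_add_cancel
    (Nat.sInf_le (Set.mem_of_indicator_ne_zero hk))⟩]
  refine (ENNReal.tsum_le_tsum fun k => Set.indicator_le_self _ _ _).trans ?_
  simp only [pow_add, ENNReal.tsum_mul_right, ENNReal.tsum_geometric_two]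
  exact mul_le_mul_right (h _ (Nat.sInf_mem hS)) _

theorem omega_le {V : List Bool →. List Bool} (hV : Opt V) {nm : ℕ → List Bool}
    (h : Function.Injective nm) : ∑' n, (2⁻¹ : ℝ≥0∞) ^ cx V (nm n) ≤ 1 := by
  rw [ENNReal.tsum_eq_iSup_sum]
  refine iSup_le fun F => (ENNReal.toReal_le_toReal (ENNReal.sum_ne_top.2 (by simp))
    (by simp)).1 ?_
  have := wt_le hV.2.1 (F.image nm) fun x _ => total hV x
  rw [Finset.sum_image fun _ _ _ _ e => h e] at this
  rw [ENNReal.toReal_sum (by simp)]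
  simpa using this

theorem main {V : List Bool →. List Bool} (hV : Opt V) {nm : ℕ → List Bool} (h1 : CI ∅ nm)
    (h2 : Function.Injective nm) {A B : ℕ → Bool} (h : ∀ Z, Rd B Z → Rd (Hd.join A B) Z)
    (hB : Rd A B) : ∃ c, ∀ n, cx V (pre A n) ≤ cx V (nm n) + c := by
  obtain ⟨T, hT, t1, t2, t3, t4⟩ := trim (κ := fun i => i.unpair.1 - i.unpair.2 + 1) (by fun_prop)
  let q : ℕ → ℕ → ℝ≥0∞ := fun b s =>
    ∑' j, 2⁻¹ ^ (b - j + 1) * P {Z | T (b.unpair.1, Nat.pair b j, pre Z s) = true}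
  obtain ⟨C, hC, eC⟩ : ∃ C : ℕ × ℕ × ℕ × ℕ → Bool, CI ∅ C ∧ ∀ x k b s,
      C (x, k, b, s) = true ↔ x * 2⁻¹ ^ k < q b s := by
    refine ⟨fun z => cmp z.1 z.2.1 ((List.range z.2.2.2).flatMap fun j => List.replicate
      ((W z.2.2.2).countP fun τ => T (z.2.2.1.unpair.1, Nat.pair z.2.2.1 j, τ))
        (z.2.2.1 - j + 1 + z.2.2.2)), by fun_prop, fun x k b s => cmp_iff.trans
          (iff_of_eq (congrArg _ ?_))⟩
    simp only [q]
    rw [tsum_eq_sum (s := Finset.range s) fun j hj => by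
      exact mul_eq_zero_of_right _ (measure_mono_null (t := ∅) (fun Z a => hj (Finset.mem_range.2
        ((Nat.right_le_pair _ _).trans_lt (t2 _ _ _ _ a)))) measure_empty),
      Finset.sum_congr rfl fun j _ => congrArg _ (P_pre (fun τ => T (_, Nat.pair b j, τ)) s)]
    generalize hs : List.range s = l
    rw [← List.toFinset_range, List.sum_toFinset _ List.nodup_range, hs]
    simp only [ws, List.flatMap, List.map_flatten, List.sum_flatten, List.map_map,
      Function.comp_def, List.map_replicate, List.sum_replicate, nsmul_eq_mul, pow_add _ _ s,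
      mul_left_comm]
  obtain ⟨D0, d1, d2, d3⟩ := re_stage (re_LeC hV.1)
  obtain ⟨F, hF, eF⟩ : ∃ F : (List Bool × ℕ) × ℕ → Bool, CI ∅ F ∧ ∀ a t, D0 a t = F (a, t) :=
    ⟨_, d1, fun _ _ => rfl⟩
  have hA : CI (orc (bit A)) A := LE.refl A
  obtain ⟨β, hβ, eβ⟩ : ∃ β : ℕ → ℕ, CI (orc (bit A)) β ∧
    ∀ m, β m = Nat.pair m.unpair.1 (encode (pre A m.unpair.2)) := ⟨_, by fun_prop, fun _ => rfl⟩
  have a1 : CI (orc (bit A)) T := hT.of_empty
  have a2 : CI (orc (bit A)) C := hC.of_empty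
  have a3 : CI (orc (bit A)) F := hF.of_empty
  have a4 : CI (orc (bit A)) nm := h1.of_empty
  obtain ⟨D, hD, eD⟩ : ∃ D : ℕ × List Bool → Bool, CI (orc (bit A)) D ∧ ∀ m j Z s,
      D (Nat.pair m j, pre Z s) = true ↔ j = 0 ∨ (∃ k < s, D0 (nm m.unpair.2, k) s = true ∧
        q (β m) s ≤ 2⁻¹ ^ (m.unpair.1 + k)) ∧
          T ((β m).unpair.1, Nat.pair (β m) (j - 1), pre Z s) = true :=
    ⟨fun z => z.1.unpair.2 == 0 || (((List.range z.2.length).any fun k =>
      F ((nm z.1.unpair.1.unpair.2, k), z.2.length) &&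
        !C (1, z.1.unpair.1.unpair.1 + k, β z.1.unpair.1, z.2.length)) &&
      T ((β z.1.unpair.1).unpair.1, Nat.pair (β z.1.unpair.1) (z.1.unpair.2 - 1), z.2)),
      by fun_prop, fun m j Z s => by simp [← Bool.not_eq_true, eC, eF]⟩
  have pr : ∀ f : ℕ → ℝ≥0∞, ∑' i, f i = ∑' a, ∑' b, f (Nat.pair a b) := fun f => by
    rw [← Nat.pairEquiv.tsum_eq, ENNReal.tsum_prod']; rfl
  have a5 := fin hB (κ := fun i => β i.unpair.1 - i.unpair.2 + 1) (by fun_prop) hD (by
    rw [pr]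
    refine ne_top_of_le_ne_top ?_ (ENNReal.tsum_le_tsum (g := fun m => 2⁻¹ ^ β m +
      2 * 2⁻¹ ^ (m.unpair.1 + cx V (nm m.unpair.2))) fun m => ?_)
    · rw [ENNReal.tsum_add, ENNReal.tsum_mul_left, pr fun m => 2⁻¹ ^ (m.unpair.1 + _)]
      simp only [Nat.unpair_pair, pow_add, ENNReal.tsum_mul_left, ENNReal.tsum_mul_right,
        ENNReal.tsum_geometric_two]
      refine ENNReal.add_ne_top.2 ⟨ne_top_of_le_ne_top (by simp [ENNReal.tsum_geometric])
        (ENNReal.tsum_comp_le_tsum_of_injective (fun a b e => ?_) fun i => 2⁻¹ ^ i),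
        ENNReal.mul_ne_top (by simp) (ENNReal.mul_ne_top (by simp)
          (ne_top_of_le_ne_top (by simp) (omega_le hV h2)))⟩
      simp only [eβ, Nat.pair_eq_pair, encode_inj] at e
      rw [← a.pair_unpair, e.1, show a.unpair.2 = b.unpair.2 by
        simpa using congrArg List.length e.2, b.pair_unpair]
    rw [tsum_eq_zero_add' ENNReal.summable]
    simp only [Nat.unpair_pair, eD, Nat.add_sub_cancel, Nat.add_eq_zero_iff, one_ne_zero, and_false,
      false_or]
    refine add_le_add ((mul_le_of_le_one_right' prob_le_one).trans (pow_le_pow_right_of_le_one'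
      (by simp) (by omega))) (le_trans ?_ (mul_le_mul_right (good' (fun j => 2⁻¹ ^ (β m - j + 1))
        (fun j => t1 (β m).unpair.1 (Nat.pair (β m) j)) (fun s => ∃ k < s,
          D0 (nm m.unpair.2, k) s = true ∧ q (β m) s ≤ 2⁻¹ ^ (m.unpair.1 + k))
        fun s ⟨k, _, a, b⟩ => b.trans
          (pow_le_pow_right_of_le_one' (by simp) (Nat.add_le_add_left
            (LeC.le ((d3 _).2 ⟨_, a⟩)) _))) 2))
    rw [← ENNReal.tsum_mul_left]
    refine ENNReal.tsum_le_tsum fun j => (mul_le_mul_left ?_ _).trans_eq (mul_assoc ..)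
    rw [pow_succ' _ (β m - j), ← mul_assoc, ENNReal.mul_inv_cancel (by simp) (by simp), one_mul]
    exact pow_le_pow_right_of_le_one' (by simp) (by omega))
  have b1 : CI (orc (bit (Hd.join A B))) B := le_join_r A B
  have b2 : CI (orc (bit (Hd.join A B))) D := hD.trans (ci_bit.2 (le_join_l A B))
  have b3 : CI (orc (bit (Hd.join A B))) β := hβ.trans (ci_bit.2 (le_join_l A B))
  obtain ⟨E, e1, e2, e3⟩ := cover h (κ := fun i => i.unpair.1 - i.unpair.2 + 1)
    (φ := fun i => Nat.pair (β i.unpair.1) i.unpair.2) (by fun_prop)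
    (D := fun z => D (z.1, pre B z.2)) (by fun_prop) (by fun_prop) (by simpa using a5)
  obtain ⟨c, hc⟩ := t4 B E e1 e3
  have key : ∀ n, ∃ s, 2⁻¹ ^ (c + cx V (nm n)) < q (Nat.pair c (encode (pre A n))) s := fun n => by
    by_contra! h0
    have b : β (Nat.pair c n) = Nat.pair c (encode (pre A n)) := by simp [eβ]
    have : ∀ j, ∃ s, D (Nat.pair (Nat.pair c n) j, pre B s) = true := fun j => by
      induction j with
      | zero => exact ⟨0, (eD ..).2 (Or.inl rfl)⟩
      | succ j ih =>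
        obtain ⟨s, hs⟩ := ih
        obtain ⟨t, ht⟩ := e2 (Nat.pair (Nat.pair c n) j) s hs
        simp only [Nat.unpair_pair] at ht
        obtain ⟨y, y1, y2⟩ := (total hV (nm n)).choose_spec.ex
        obtain ⟨u, hu⟩ := (d3 (nm n, cx V (nm n))).1 ⟨y, y1.le, y2⟩
        obtain ⟨v, v1, v2⟩ := ((hc _ t ht).and (eventually_gt_atTop (u + cx V (nm n)))).exists
        refine ⟨v, (eD ..).2 (Or.inr ⟨⟨cx V (nm n), by omega, ?_, ?_⟩, ?_⟩)⟩
        · simpa using d2 _ _ _ (by omega) hu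
        · simpa [b] using h0 v
        · simpa [b] using v1
    rw [wm_apply] at a5
    refine Set.infinite_of_injective_forall_mem (f := Nat.pair (Nat.pair c n))
      (fun a b e => (Nat.pair_eq_pair.1 e).2) (fun j => ?_) (ENNReal.finite_const_le_of_tsum_ne_top
        a5 (ε := 2⁻¹ ^ (β (Nat.pair c n) + 1)) (by simp))
    rw [Set.mem_setOf_eq, Set.indicator_of_mem (by exact this j), Nat.unpair_pair]
    exact pow_le_pow_right_of_le_one' (by simp) (by simp)
  obtain ⟨M, m1, m2, m3⟩ := kc (R := fun z => ∃ s, C (1, z.1 - (c + 1), Nat.pair c (encode z.2), s) &&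
    decide (c + 1 ≤ z.1)) (re_of_nat _ (by fun_prop) fun _ => Iff.rfl) fun S hS => by
      let Q : List Bool → ℝ≥0∞ := fun σ => ∑' j, 2⁻¹ ^ (Nat.pair c (encode σ) - j + 1) *
        P {Z | ∃ s, T (c, Nat.pair (Nat.pair c (encode σ)) j, pre Z s) = true}
      have f1 : ∑' σ, Q σ ≤ c := by
        refine le_trans ?_ ((tonelli _ fun i => meas_test fun τ => T (c, i, τ)).2.ge.trans
          ((lintegral_mono (t3 c)).trans (by simp)))
        rw [pr]
        simpa using ENNReal.tsum_comp_le_tsum_of_injective (f := fun σ : List Bool =>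
          Nat.pair c (encode σ)) (fun a b e => by simpa using e) fun b => ∑' j, 2⁻¹ ^ (b - j + 1) *
            P {Z | ∃ s, T (c, Nat.pair b j, pre Z s) = true}
      have f2 : ∑ z ∈ S, (2⁻¹ : ℝ≥0∞) ^ z.1 ≤ 1 := by
        rw [sum_eq_tsum_indicator, ENNReal.tsum_prod', ENNReal.tsum_comm]
        refine (ENNReal.tsum_le_tsum fun σ => geoE {k | (k, σ) ∈ S} (g := 2⁻¹ ^ (c + 1) * Q σ)
          fun k hk => ?_).trans ?_
        · obtain ⟨s, hs⟩ := hS _ hk
          simp only [Bool.and_eq_true, eC, decide_eq_true_eq, Nat.cast_one, one_mul] at hs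
          rw [← Nat.add_sub_cancel' hs.2, pow_add]
          refine mul_le_mul_right (hs.1.le.trans (ENNReal.tsum_le_tsum fun j =>
            mul_le_mul_right (measure_mono fun Z a => ?_) _)) _
          exact ⟨s, by simpa using a⟩
        · rw [ENNReal.tsum_mul_left, ENNReal.tsum_mul_left, pow_succ', mul_assoc, ← mul_assoc 2,
            ENNReal.mul_inv_cancel (by simp) (by simp), one_mul, ← hp c 1, mul_one]
          exact mul_le_mul_right (f1.trans (by exact_mod_cast c.lt_two_pow_self.le)) _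
      have := ENNReal.toReal_mono (by simp) f2
      rw [ENNReal.toReal_sum (by simp)] at this
      simpa using this
  obtain ⟨d, hd⟩ := hV.2.2 M m1 m2
  refine ⟨2 * c + 2 + d, fun n => ?_⟩
  obtain ⟨s, hs⟩ := key n
  obtain ⟨p, p1, p2⟩ := m3 (c + cx V (nm n) + (c + 1)) (pre A n) ⟨s, by simp [eC, hs]⟩
  exact (LeC.le (hd p _ p2)).trans (by omega)

end Pool.Agent.H37.Lr
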