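import Mathlib

/-! Fourier analysis on the Boolean cube: averages, characters, Parseval, moments. -/

open scoped BigOperators
open Finset

namespace Pool.Agent.H37.Lt

section gen
variable {α β : Type} [Fintype α] [Fintype β]

lemma E_mono {F G : α → ℝ} (h : ∀ x, F x ≤ G x) : 𝔼 x, F x ≤ 𝔼 x, G x :=
  expect_le_expect fun x _ => h x

lemma E_nonneg {F : α → ℝ} (h : ∀ x, 0 ≤ F x) : 0 ≤ 𝔼 x, F x :=
  expect_nonneg fun x _ => h x

lemma E_congr {F G : α → ℝ} (h : ∀ x, F x = G x) : 𝔼 x, F x = 𝔼 x, G x := by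
  rw [show F = G from funext h]

lemma E_add (F G : α → ℝ) : 𝔼 x, (F x + G x) = (𝔼 x, F x) + 𝔼 x, G x :=
  expect_add_distrib _ _ _

lemma E_sub (F G : α → ℝ) : 𝔼 x, (F x - G x) = (𝔼 x, F x) - 𝔼 x, G x :=
  expect_sub_distrib _ _ _

lemma E_cmul (c : ℝ) (F : α → ℝ) : 𝔼 x, c * F x = c * 𝔼 x, F x :=
  (mul_expect _ _ _).symm

lemma E_mulc (c : ℝ) (F : α → ℝ) : 𝔼 x, F x * c = (𝔼 x, F x) * c :=
  (expect_mul _ _ _).symm

lemma E_div (c : ℝ) (F : α → ℝ) : 𝔼 x, F x / c = (𝔼 x, F x) / c :=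
  (expect_div _ _ _).symm

lemma E_const [Nonempty α] (c : ℝ) : 𝔼 _x : α, c = c := Fintype.expect_const c

lemma E_sum {κ : Type} (s : Finset κ) (F : α → κ → ℝ) :
    𝔼 x, ∑ j ∈ s, F x j = ∑ j ∈ s, 𝔼 x, F x j := expect_sum_comm _ _ _

lemma E_comm (F : α → β → ℝ) : 𝔼 x, 𝔼 y, F x y = 𝔼 y, 𝔼 x, F x y := expect_comm _ _ _

lemma E_prod (F : α × β → ℝ) : 𝔼 p, F p = 𝔼 x, 𝔼 y, F (x, y) := by
  rw [← univ_product_univ, expect_product]

lemma E_invol (e : α → α) (he : ∀ x, e (e x) = x) (F : α → ℝ) : 𝔼 x, F (e x) = 𝔼 x, F x :=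
  Fintype.expect_bijective e (Function.Involutive.bijective he) _ _ fun _ => rfl

lemma E_le [Nonempty α] {F : α → ℝ} {c : ℝ} (h : ∀ x, F x ≤ c) : 𝔼 x, F x ≤ c :=
  expect_le univ_nonempty fun x _ => h x

lemma E_abs (F : α → ℝ) : |𝔼 x, F x| ≤ 𝔼 x, |F x| := abs_expect_le _ _

/-- Cauchy-Schwarz against a bounded function. -/
lemma E_cs [Nonempty α] (F G : α → ℝ) (B m : ℝ) (hB : 0 ≤ B) (hm : 0 ≤ m) (hG : ∀ x, |G x| ≤ B)
    (hF : 𝔼 x, F x ^ 2 ≤ m ^ 2) : |𝔼 x, F x * G x| ≤ B * m := by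
  have h1 := expect_mul_sq_le_sq_mul_sq univ F G
  have h2 : 𝔼 x, G x ^ 2 ≤ B ^ 2 := E_le fun x => by
    have := hG x
    rw [← sq_abs]; exact pow_le_pow_left₀ (abs_nonneg _) this 2
  have h3 : 0 ≤ 𝔼 x, G x ^ 2 := E_nonneg fun x => sq_nonneg _
  have h4 : (𝔼 x, F x * G x) ^ 2 ≤ (B * m) ^ 2 := by
    calc _ ≤ _ := h1
      _ ≤ m ^ 2 * B ^ 2 := mul_le_mul hF h2 h3 (sq_nonneg _)
      _ = _ := by ring
  exact abs_le_of_sq_le_sq' h4 (mul_nonneg hB hm) |> abs_le.mpr

end gen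

def sg (b : Bool) : ℝ := if b then 1 else -1

@[simp] lemma sg_mul_self (b : Bool) : sg b * sg b = 1 := by cases b <;> simp [sg]
@[simp] lemma sg_sq (b : Bool) : sg b ^ 2 = 1 := by rw [sq, sg_mul_self]
@[simp] lemma abs_sg (b : Bool) : |sg b| = 1 := by cases b <;> simp [sg]
@[simp] lemma sg_not (b : Bool) : sg (!b) = - sg b := by cases b <;> simp [sg]
lemma sg_beq (a b : Bool) : sg (a == b) = sg a * sg b := by cases a <;> cases b <;> simp [sg]

variable {ι : Type} [Fintype ι] [DecidableEq ι]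

def chi (S : Finset ι) (x : ι → Bool) : ℝ := ∏ i ∈ S, sg (x i)

def lin (w : ι → ℝ) (x : ι → Bool) : ℝ := ∑ i, w i * sg (x i)

def fl (i : ι) (x : ι → Bool) : ι → Bool := Function.update x i (!x i)

omit [Fintype ι] in
lemma fl_fl (i : ι) (x : ι → Bool) : fl i (fl i x) = x := by
  funext j; by_cases h : j = i
  · subst h; simp [fl]
  · simp [fl, h]

omit [Fintype ι] in
@[simp] lemma fl_self (i : ι) (x : ι → Bool) : fl i x i = !x i := by simp [fl]

omit [Fintype ι] in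
lemma fl_ne {i j : ι} (h : j ≠ i) (x : ι → Bool) : fl i x j = x j := by simp [fl, h]

lemma E_fl (i : ι) (H : (ι → Bool) → ℝ) : 𝔼 x, H (fl i x) = 𝔼 x, H x := E_invol _ (fl_fl i) H

lemma E_odd (i : ι) (H : (ι → Bool) → ℝ) (h : ∀ x, H (fl i x) = H x) :
    𝔼 x, H x * sg (x i) = 0 := by
  have h1 := E_fl i (fun x => H x * sg (x i))
  simp only [h, fl_self, sg_not, mul_neg] at h1
  rw [expect_neg_distrib] at h1
  linarith

omit [Fintype ι] in
lemma chi_fl (S : Finset ι) (i : ι) (x : ι → Bool) :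
    chi S (fl i x) = if i ∈ S then - chi S x else chi S x := by
  unfold chi
  split_ifs with h
  · rw [← mul_prod_erase S _ h, ← mul_prod_erase S _ h, fl_self, sg_not,
      prod_congr rfl fun j hj => by rw [fl_ne (ne_of_mem_erase hj)]]
    ring
  · exact prod_congr rfl fun j hj => by rw [fl_ne (ne_of_mem_of_not_mem hj h)]

omit [Fintype ι] [DecidableEq ι] in
@[simp] lemma chi_sq (S : Finset ι) (x : ι → Bool) : chi S x ^ 2 = 1 := by
  unfold chi; rw [← prod_pow]; simp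

omit [Fintype ι] [DecidableEq ι] in
@[simp] lemma chi_empty (x : ι → Bool) : chi ∅ x = 1 := by simp [chi]

omit [Fintype ι] [DecidableEq ι] in
@[simp] lemma chi_single (i : ι) (x : ι → Bool) : chi {i} x = sg (x i) := by simp [chi]

lemma orth (S T : Finset ι) : 𝔼 x, chi S x * chi T x = if S = T then 1 else 0 := by
  split_ifs with h
  · subst h
    simp only [← sq, chi_sq]; exact E_const 1
  · have : ∃ i, ¬ (i ∈ S ↔ i ∈ T) := by
      by_contra hc; push Not at hc; exact h (Finset.ext hc)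
    obtain ⟨i, hi⟩ := this
    have h1 := E_fl i (fun x => chi S x * chi T x)
    have h2 : ∀ x, chi S (fl i x) * chi T (fl i x) = - (chi S x * chi T x) := by
      intro x; rw [chi_fl, chi_fl]
      by_cases a : i ∈ S <;> by_cases b : i ∈ T <;> simp_all
    simp only [h2] at h1
    rw [expect_neg_distrib] at h1
    linarith

lemma E_chi (S : Finset ι) : 𝔼 x, chi S x = if S = ∅ then 1 else 0 := by
  rw [← orth S ∅]; simp

noncomputable def co (f : (ι → Bool) → ℝ) (S : Finset ι) : ℝ := 𝔼 x, f x * chi S x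

lemma kern (x z : ι → Bool) :
    ∑ S : Finset ι, chi S z * chi S x = if z = x then (Fintype.card (ι → Bool) : ℝ) else 0 := by
  have h1 : ∑ S : Finset ι, chi S z * chi S x = ∏ i, (1 + sg (z i) * sg (x i)) := by
    rw [prod_one_add, powerset_univ]
    exact sum_congr rfl fun S _ => by simp [chi, prod_mul_distrib]
  rw [h1]
  split_ifs with h
  · subst h; simp; norm_num
  · obtain ⟨i, hi⟩ := Function.ne_iff.mp h
    refine prod_eq_zero (mem_univ i) ?_
    cases hz : z i <;> cases hx : x i <;> simp_all [sg]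

lemma expand (f : (ι → Bool) → ℝ) (x : ι → Bool) : f x = ∑ S, co f S * chi S x := by
  unfold co
  simp only [← E_mulc]
  rw [← E_sum]
  simp only [mul_assoc, ← mul_sum, kern]
  rw [Fintype.expect_eq_sum_div_card]
  simp only [mul_ite, mul_zero, sum_ite_eq', mem_univ, if_true]
  have : (Fintype.card (ι → Bool) : ℝ) ≠ 0 := by exact_mod_cast Fintype.card_ne_zero
  field_simp

lemma pars (d : Finset ι → ℝ) : 𝔼 x, (∑ S, d S * chi S x) ^ 2 = ∑ S, d S ^ 2 := by
  have h : ∀ x : ι → Bool, (∑ S, d S * chi S x) ^ 2 =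
      ∑ S, ∑ T, (d S * d T) * (chi S x * chi T x) := by
    intro x; rw [sq, sum_mul_sum]
    exact sum_congr rfl fun S _ => sum_congr rfl fun T _ => by ring
  simp only [h, E_sum, E_cmul, orth, mul_ite, mul_one, mul_zero, sum_ite_eq, mem_univ, if_true, sq]

lemma pars' (f : (ι → Bool) → ℝ) : ∑ S, co f S ^ 2 = 𝔼 x, f x ^ 2 := by
  rw [← pars]; exact E_congr fun x => by rw [← expand]

lemma co_fl (f : (ι → Bool) → ℝ) (i : ι) (S : Finset ι) :
    co (fun x => f x - f (fl i x)) S = if i ∈ S then 2 * co f S else 0 := by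
  unfold co
  simp only [sub_mul, E_sub]
  have h := E_fl i (fun x => f (fl i x) * chi S x)
  simp only [fl_fl, chi_fl] at h
  rw [← h]
  split_ifs
  · simp only [mul_neg]; rw [expect_neg_distrib]; ring
  · ring

/-- Poincare inequality on the cube. -/
lemma poincare (f : (ι → Bool) → ℝ) :
    4 * ((𝔼 x, f x ^ 2) - (𝔼 x, f x) ^ 2) ≤ ∑ i, 𝔼 x, (f x - f (fl i x)) ^ 2 := by
  have h1 : ∀ i, 𝔼 x, (f x - f (fl i x)) ^ 2 = ∑ S, if i ∈ S then 4 * co f S ^ 2 else 0 := by
    intro i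
    rw [← pars' (fun x => f x - f (fl i x))]
    refine sum_congr rfl fun S _ => ?_
    rw [co_fl]; split_ifs <;> ring
  simp only [h1]
  rw [sum_comm, ← pars']
  have h0 : 𝔼 x, f x = co f ∅ := by simp [co]
  rw [h0, ← add_sum_erase _ _ (mem_univ ∅), add_sub_cancel_left, mul_sum,
    ← add_sum_erase _ _ (mem_univ (∅ : Finset ι))]
  simp only [notMem_empty, if_false, sum_const_zero, zero_add]
  refine sum_le_sum fun S hS => ?_
  obtain ⟨i, hi⟩ := nonempty_iff_ne_empty.mpr (ne_of_mem_erase hS)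
  refine le_trans ?_ (single_le_sum (f := fun i => if i ∈ S then 4 * co f S ^ 2 else 0)
    (fun j _ => by split_ifs <;> positivity) (mem_univ i))
  simp [hi]

lemma swap (A : Finset ι) (H : (ι → Bool) → ℝ) :
    𝔼 y, 𝔼 y', H (A.piecewise y y') = 𝔼 y, H y := by
  have h := E_invol (α := (ι → Bool) × (ι → Bool))
    (fun p => (A.piecewise p.1 p.2, A.piecewise p.2 p.1)) (by
      rintro ⟨a, b⟩
      ext j <;> by_cases hj : j ∈ A <;> simp [piecewise, hj]) (fun p => H p.1)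
  rw [E_prod, E_prod] at h
  simp only [E_const] at h
  exact h

lemma E_chi_pw (A T : Finset ι) (y : ι → Bool) :
    𝔼 y', chi T (A.piecewise y y') = if T ⊆ A then chi T y else 0 := by
  split_ifs with h
  · have : ∀ y', chi T (A.piecewise y y') = chi T y := fun y' =>
      prod_congr rfl fun j hj => by simp [piecewise, h hj]
    simp only [this]; exact E_const _
  · obtain ⟨i, hi, hA⟩ := not_subset.mp h
    have h1 := E_fl i (fun y' => chi T (A.piecewise y y'))
    have h2 : ∀ y', A.piecewise y (fl i y') = fl i (A.piecewise y y') := by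
      intro y'; funext j
      by_cases hj : j = i
      · subst hj; simp [piecewise, hA]
      · simp [piecewise, fl_ne hj]
    simp only [h2, chi_fl, hi, if_true] at h1
    rw [expect_neg_distrib] at h1
    linarith

lemma E_lin_mul (f : (ι → Bool) → ℝ) (w : ι → ℝ) :
    𝔼 x, f x * lin w x = ∑ i, w i * co f {i} := by
  unfold lin co
  simp only [mul_sum, E_sum, chi_single, ← E_cmul]
  exact sum_congr rfl fun i _ => E_congr fun x => by ring

omit [Fintype ι] in
lemma part_fl (T : Finset ι) {i : ι} (hi : i ∉ T) (w : ι → ℝ) (x : ι → Bool) :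
    ∑ j ∈ T, w j * sg (fl i x j) = ∑ j ∈ T, w j * sg (x j) :=
  sum_congr rfl fun j hj => by rw [fl_ne (ne_of_mem_of_not_mem hj hi)]

lemma mom2 (a b : ι → ℝ) (T : Finset ι) :
    𝔼 x : ι → Bool, (∑ j ∈ T, a j * sg (x j)) * (∑ j ∈ T, b j * sg (x j)) = ∑ j ∈ T, a j * b j := by
  have h : ∀ x : ι → Bool, (∑ j ∈ T, a j * sg (x j)) * (∑ j ∈ T, b j * sg (x j)) =
      ∑ i ∈ T, ∑ j ∈ T, (a i * b j) * (chi {i} x * chi {j} x) := by
    intro x; rw [sum_mul_sum]
    exact sum_congr rfl fun S _ => sum_congr rfl fun T _ => by simp only [chi_single]; ring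
  simp only [h, E_sum, E_cmul, orth, singleton_inj, mul_ite, mul_one, mul_zero]
  exact sum_congr rfl fun i hi => by rw [sum_ite_eq]; simp [hi]

lemma E_lin_sq (a : ι → ℝ) : 𝔼 x, lin a x ^ 2 = ∑ j, a j ^ 2 := by
  simp only [sq]; exact mom2 a a univ

lemma E_lin (a : ι → ℝ) : 𝔼 x, lin a x = 0 := by
  have := E_lin_mul (fun _ => 1) a
  simp only [one_mul, co, E_chi] at this
  simpa using this

lemma mom4 (a b : ι → ℝ) (T : Finset ι) :
    𝔼 x : ι → Bool, (∑ j ∈ T, a j * sg (x j)) ^ 2 * (∑ j ∈ T, b j * sg (x j)) ^ 2 ≤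
      (∑ j ∈ T, a j ^ 2) * (∑ j ∈ T, b j ^ 2) + 2 * (∑ j ∈ T, a j * b j) ^ 2 := by
  induction T using Finset.induction_on with
  | empty => simp
  | insert i T hi ih =>
    simp only [sum_insert hi]
    set A : (ι → Bool) → ℝ := fun x => ∑ j ∈ T, a j * sg (x j) with hA
    set B : (ι → Bool) → ℝ := fun x => ∑ j ∈ T, b j * sg (x j) with hB
    have h1 : ∀ x : ι → Bool, (a i * sg (x i) + A x) ^ 2 * (b i * sg (x i) + B x) ^ 2 =
        A x ^ 2 * B x ^ 2 + a i ^ 2 * (B x * B x) + b i ^ 2 * (A x * A x) + a i ^ 2 * b i ^ 2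
          + 4 * a i * b i * (A x * B x)
          + (2 * A x * a i * (B x ^ 2 + b i ^ 2) + 2 * B x * b i * (A x ^ 2 + a i ^ 2)) * sg (x i) := by
      intro x; cases x i <;> simp [sg] <;> ring
    have h2 := E_odd i (fun x => 2 * A x * a i * (B x ^ 2 + b i ^ 2) + 2 * B x * b i * (A x ^ 2 + a i ^ 2))
      (fun x => by simp only [hA, hB, part_fl T hi])
    have e1 := mom2 a a T
    have e2 := mom2 b b T
    have e3 := mom2 a b T
    change 𝔼 x, (a i * sg (x i) + A x) ^ 2 * (b i * sg (x i) + B x) ^ 2 ≤ _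
    simp only [h1, E_add, E_cmul, E_const]
    change 𝔼 x, A x * A x = _ at e1
    change 𝔼 x, B x * B x = _ at e2
    change 𝔼 x, A x * B x = _ at e3
    change 𝔼 x, A x ^ 2 * B x ^ 2 ≤ _ at ih
    rw [h2, e1, e2, e3]
    simp only [← sq]
    nlinarith [sq_nonneg (a i * b i)]

end Pool.Agent.H37.Lt
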