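import Pool.Agent.H37.Lt1

/-! Universality and anti-concentration for regular linear forms in random signs. -/

open scoped BigOperators
open Finset Real

namespace Pool.Agent.H37.Lt

section
variable {ι : Type} [Fintype ι] [DecidableEq ι]

lemma E_cos_part (w : ι → ℝ) (φ : ℝ) (T : Finset ι) :
    𝔼 x : ι → Bool, cos (∑ j ∈ T, w j * sg (x j) - φ) = cos φ * ∏ j ∈ T, cos (w j) := by
  induction T using Finset.induction_on with
  | empty => simp
  | insert i T hi ih =>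
    simp only [sum_insert hi, prod_insert hi]
    have h1 : ∀ x : ι → Bool, cos (w i * sg (x i) + ∑ j ∈ T, w j * sg (x j) - φ) =
        cos (w i) * cos (∑ j ∈ T, w j * sg (x j) - φ) -
          (sin (w i) * sin (∑ j ∈ T, w j * sg (x j) - φ)) * sg (x i) := by
      intro x
      rw [add_sub_assoc, cos_add]
      cases x i <;> simp [sg]
    have h2 := E_odd i (fun x => sin (w i) * sin (∑ j ∈ T, w j * sg (x j) - φ))
      (fun x => by simp only [part_fl T hi])
    simp only [h1, E_sub, E_cmul (cos (w i))]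
    rw [h2, ih]; ring

lemma E_cos (w : ι → ℝ) (u θ : ℝ) :
    𝔼 x : ι → Bool, cos (u * (lin w x - θ)) = cos (u * θ) * ∏ j, cos (u * w j) := by
  rw [← E_cos_part (fun j => u * w j) (u * θ) univ]
  refine E_congr fun x => ?_
  congr 1
  simp only [lin, mul_sub, mul_sum, mul_assoc]

omit [Fintype ι] in
lemma prod_sub (T : Finset ι) (a b : ι → ℝ) (ha : ∀ i, |a i| ≤ 1) (hb : ∀ i, |b i| ≤ 1) :
    |∏ i ∈ T, a i - ∏ i ∈ T, b i| ≤ ∑ i ∈ T, |a i - b i| := by
  induction T using Finset.induction_on with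
  | empty => simp
  | insert i T hi ih =>
    simp only [sum_insert hi, prod_insert hi]
    have hB : |∏ j ∈ T, b j| ≤ 1 := by
      rw [abs_prod]; exact prod_le_one (fun _ _ => abs_nonneg _) fun j _ => hb j
    have e : a i * ∏ j ∈ T, a j - b i * ∏ j ∈ T, b j =
        (a i - b i) * ∏ j ∈ T, b j + a i * (∏ j ∈ T, a j - ∏ j ∈ T, b j) := by ring
    rw [e]
    refine (abs_add_le _ _).trans (add_le_add ?_ ?_)
    · rw [abs_mul]; exact mul_le_of_le_one_right (abs_nonneg _) hB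
    · rw [abs_mul]; exact (mul_le_of_le_one_left (abs_nonneg _) (ha i)).trans ih

def Reg (τ : ℝ) (w : ι → ℝ) : Prop := ∑ i, w i ^ 2 = 1 ∧ ∀ i, |w i| ≤ τ

omit [DecidableEq ι] in
lemma Reg.mono {τ τ' : ℝ} {w : ι → ℝ} (h : Reg τ w) (h' : τ ≤ τ') : Reg τ' w :=
  ⟨h.1, fun i => (h.2 i).trans h'⟩

lemma cos_exp (x : ℝ) (hx : |x| ≤ 1) : |cos x - exp (-(x ^ 2 / 2))| ≤ x ^ 4 := by
  have h1 := cos_bound hx
  have hx2 : x ^ 2 ≤ 1 := by rw [← sq_abs]; exact pow_le_one₀ (abs_nonneg _) hx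
  have h2 := abs_exp_sub_one_sub_id_le (x := -(x ^ 2 / 2)) (by
    rw [abs_neg, abs_of_nonneg (by positivity)]; linarith)
  have h3 : |x| ^ 4 = x ^ 4 := by
    rw [show (4 : ℕ) = 2 * 2 from rfl, pow_mul, pow_mul, sq_abs]
  rw [h3] at h1
  have h4 : 0 ≤ x ^ 4 := by positivity
  rw [abs_le] at h1 h2 ⊢
  constructor <;> nlinarith [h1.1, h1.2, h2.1, h2.2]

lemma cos_prod (u τ : ℝ) (w : ι → ℝ) (h : |u| * τ ≤ 1) (hw : Reg τ w) :
    |∏ j, cos (u * w j) - exp (-(u ^ 2 / 2))| ≤ u ^ 4 * τ ^ 2 := by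
  have e : exp (-(u ^ 2 / 2)) = ∏ j, exp (-((u * w j) ^ 2 / 2)) := by
    rw [← exp_sum]; congr 1
    simp only [mul_pow, sum_neg_distrib, ← sum_div, ← mul_sum, hw.1, mul_one]
  rw [e]
  refine (prod_sub univ _ _ (fun j => abs_cos_le_one _) (fun j => ?_)).trans ?_
  · rw [abs_of_pos (exp_pos _), exp_le_one_iff]
    have := sq_nonneg (u * w j); linarith
  · calc _ ≤ ∑ j, u ^ 4 * τ ^ 2 * w j ^ 2 := sum_le_sum fun j _ => by
          refine (cos_exp _ ?_).trans ?_
          · rw [abs_mul]; exact (mul_le_mul_of_nonneg_left (hw.2 j) (abs_nonneg _)).trans h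
          · have : w j ^ 2 ≤ τ ^ 2 := by
              rw [← sq_abs]; exact pow_le_pow_left₀ (abs_nonneg _) (hw.2 j) 2
            have h5 : (u * w j) ^ 4 = u ^ 4 * w j ^ 2 * w j ^ 2 := by ring
            rw [h5]; gcongr
      _ = _ := by rw [← mul_sum, hw.1, mul_one]

lemma E_sq (w : ι → ℝ) (θ : ℝ) (hw : ∑ i, w i ^ 2 = 1) :
    𝔼 x, (lin w x - θ) ^ 2 = 1 + θ ^ 2 := by
  have : ∀ x, (lin w x - θ) ^ 2 = lin w x ^ 2 - 2 * θ * lin w x + θ ^ 2 := fun x => by ring
  simp only [this, E_add, E_sub, E_cmul, E_const, E_lin, E_lin_sq, hw]; ring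

end

/-- Test functions whose average over a regular linear form is asymptotically universal. -/
def Un (h : ℝ → ℝ) : Prop := ∃ ψ : ℝ → ℝ, ∀ η > 0, ∃ τ > 0, ∀ (ι : Type) [Fintype ι]
  [DecidableEq ι] (w : ι → ℝ), Reg τ w → ∀ θ, |𝔼 x, h (lin w x - θ) - ψ θ| ≤ η

lemma small (u η : ℝ) (hη : 0 < η) : ∃ τ > 0, |u| * τ ≤ 1 ∧ u ^ 4 * τ ^ 2 ≤ η := by
  have hc : ContinuousAt (fun τ : ℝ => |u| * τ) 0 := by fun_prop
  have hd : ContinuousAt (fun τ : ℝ => u ^ 4 * τ ^ 2) 0 := by fun_prop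
  have h1 := hc.eventually (gt_mem_nhds (show |u| * 0 < 1 by simp))
  have h2 := hd.eventually (gt_mem_nhds (show u ^ 4 * 0 ^ 2 < η by simpa using hη))
  obtain ⟨τ, ⟨a, b⟩, c⟩ := (((h1.and h2).filter_mono (nhdsWithin_le_nhds (s := Set.Ioi 0))).and
    self_mem_nhdsWithin).exists
  exact ⟨τ, c, a.le, b.le⟩

lemma Un_cos (u : ℝ) : Un fun t => cos (u * t) := by
  refine ⟨fun θ => cos (u * θ) * exp (-(u ^ 2 / 2)), fun η hη => ?_⟩
  obtain ⟨τ, h0, h1, h2⟩ := small u η hη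
  refine ⟨τ, h0, fun ι _ _ w hw θ => ?_⟩
  rw [E_cos, ← mul_sub, abs_mul]
  exact (mul_le_of_le_one_left (abs_nonneg _) (abs_cos_le_one _)).trans
    ((cos_prod u τ w h1 hw).trans h2)

lemma Un.add {g h : ℝ → ℝ} (hg : Un g) (hh : Un h) : Un fun t => g t + h t := by
  obtain ⟨a, ha⟩ := hg
  obtain ⟨b, hb⟩ := hh
  refine ⟨fun θ => a θ + b θ, fun η hη => ?_⟩
  obtain ⟨τ, h0, h1⟩ := ha (η / 2) (by positivity)
  obtain ⟨σ, h2, h3⟩ := hb (η / 2) (by positivity)
  refine ⟨min τ σ, lt_min h0 h2, fun ι _ _ w hw θ => ?_⟩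
  have e1 := abs_le.mp (h1 ι w (hw.mono (min_le_left _ _)) θ)
  have e2 := abs_le.mp (h3 ι w (hw.mono (min_le_right _ _)) θ)
  rw [E_add, abs_le]
  constructor <;> linarith [e1.1, e1.2, e2.1, e2.2]

lemma Un.smul {g : ℝ → ℝ} (hg : Un g) (c : ℝ) : Un fun t => c * g t := by
  obtain ⟨a, ha⟩ := hg
  refine ⟨fun θ => c * a θ, fun η hη => ?_⟩
  obtain ⟨τ, h0, h1⟩ := ha (η / (|c| + 1)) (by positivity)
  refine ⟨τ, h0, fun ι _ _ w hw θ => ?_⟩
  rw [E_cmul, ← mul_sub, abs_mul]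
  have := h1 ι w hw θ
  have h2 : 0 < |c| + 1 := by positivity
  calc _ ≤ (|c| + 1) * (η / (|c| + 1)) := mul_le_mul (by linarith) this (abs_nonneg _) h2.le
    _ = η := by field_simp

lemma Un_pow (β : ℝ) (k : ℕ) : ∀ u : ℝ, Un fun t => cos (β * t) ^ k * cos (u * t) := by
  induction k with
  | zero => intro u; simpa using Un_cos u
  | succ k ih =>
    intro u
    have := ((ih (u + β)).add (ih (u - β))).smul (1 / 2)
    convert this using 2 with t
    rw [add_mul, sub_mul, cos_add, cos_sub]; ring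

lemma Un_poly (β : ℝ) (p : Polynomial ℝ) : Un fun t => p.eval (cos (β * t)) := by
  induction p using Polynomial.induction_on' with
  | add p q hp hq => simpa using hp.add hq
  | monomial k a => simpa using (Un_pow β k 0).smul a

lemma tri (R t : ℝ) (hR : 0 < R) :
    |(|t| - R / π * arccos (cos (π / R * t)))| ≤ t ^ 2 / R := by
  have hp := pi_pos
  by_cases h : |t| ≤ R
  · have : arccos (cos (π / R * t)) = π / R * |t| := by
      rw [← cos_abs, abs_mul, abs_of_pos (by positivity : 0 < π / R)]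
      refine arccos_cos (by positivity) ?_
      rw [div_mul_eq_mul_div, div_le_iff₀ hR]; gcongr
    rw [this]
    have e : |t| - R / π * (π / R * |t|) = 0 := by field_simp; ring
    rw [e, abs_zero]; positivity
  · push Not at h
    have h1 := arccos_nonneg (cos (π / R * t))
    have h2 := arccos_le_pi (cos (π / R * t))
    have h3 : R / π * arccos (cos (π / R * t)) ≤ R := by
      calc _ ≤ R / π * π := by gcongr
        _ = R := by field_simp
    have h4 : 0 ≤ R / π * arccos (cos (π / R * t)) := by positivity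
    have h5 : |t| ≤ t ^ 2 / R := by
      rw [le_div_iff₀ hR, ← sq_abs, sq]; gcongr
    rw [abs_le]; constructor <;> linarith

/-- Universality of the mean absolute deviation. -/
lemma universal (η Θ : ℝ) (hη : 0 < η) : ∃ τ > 0, ∀ (ι κ : Type) [Fintype ι] [DecidableEq ι]
    [Fintype κ] [DecidableEq κ] (w : ι → ℝ) (v : κ → ℝ), Reg τ w → Reg τ v → ∀ θ, |θ| ≤ Θ →
    𝔼 x, |lin w x - θ| ≤ 𝔼 x, |lin v x - θ| + η := by
  have hp := pi_pos
  set R : ℝ := 6 * (1 + Θ ^ 2) / η with hR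
  have hR0 : 0 < R := by positivity
  obtain ⟨p, hp1⟩ := exists_polynomial_near_of_continuousOn (-1) 1 arccos
    continuous_arccos.continuousOn (η / 6 * (π / R)) (by positivity)
  obtain ⟨ψ, hψ⟩ := (Un_poly (π / R) p).smul (R / π)
  obtain ⟨τ, h0, h1⟩ := hψ (η / 6) (by positivity)
  have key : ∀ t : ℝ, |(|t| - R / π * p.eval (cos (π / R * t)))| ≤ t ^ 2 / R + η / 6 := by
    intro t
    have a1 := tri R t hR0
    have a2 := hp1 (cos (π / R * t)) ⟨neg_one_le_cos _, cos_le_one _⟩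
    have a3 : |R / π * p.eval (cos (π / R * t)) - R / π * arccos (cos (π / R * t))| ≤ η / 6 := by
      rw [← mul_sub, abs_mul, abs_of_pos (by positivity : 0 < R / π)]
      calc _ ≤ R / π * (η / 6 * (π / R)) := by gcongr
        _ = _ := by field_simp
    rw [abs_le] at a1 a3 ⊢
    constructor <;> linarith [a1.1, a1.2, a3.1, a3.2]
  have key2 : ∀ (ι : Type) [Fintype ι] [DecidableEq ι] (w : ι → ℝ), Reg τ w → ∀ θ, |θ| ≤ Θ →
      |𝔼 x, |lin w x - θ| - ψ θ| ≤ η / 2 := by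
    intro ι _ _ w hw θ hθ
    have a1 := abs_le.mp (h1 ι w hw θ)
    have a2 : |𝔼 x, (|lin w x - θ| - R / π * p.eval (cos (π / R * (lin w x - θ))))| ≤ η / 3 := by
      refine (E_abs _).trans ((E_mono fun x => key _).trans ?_)
      rw [E_add, E_div, E_sq w θ hw.1, E_const]
      have : θ ^ 2 ≤ Θ ^ 2 := by rw [← sq_abs]; exact pow_le_pow_left₀ (abs_nonneg _) hθ 2
      have h2 : (1 + θ ^ 2) / R ≤ η / 6 := by
        rw [div_le_iff₀ hR0, hR]
        have : η / 6 * (6 * (1 + Θ ^ 2) / η) = 1 + Θ ^ 2 := by field_simp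
        linarith
      linarith
    rw [E_sub, abs_le] at a2
    rw [abs_le]
    constructor <;> linarith [a1.1, a1.2, a2.1, a2.2]
  refine ⟨τ, h0, fun ι κ _ _ _ _ w v hw hv θ hθ => ?_⟩
  have b1 := abs_le.mp (key2 ι w hw θ hθ)
  have b2 := abs_le.mp (key2 κ v hv θ hθ)
  linarith [b1.2, b2.1]

lemma fejer (L : ℕ) (hL : 0 < L) (t : ℝ) :
    (if |t| ≤ 1 / (L : ℝ) ^ 2 then (1 : ℝ) else 0) ≤
      4 / (L : ℝ) ^ 2 * ∑ r ∈ range L, ∑ r' ∈ range L, cos (((r : ℝ) - r') * L * t) := by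
  have hL' : (0 : ℝ) < L := by exact_mod_cast hL
  have e : ∑ r ∈ range L, ∑ r' ∈ range L, cos (((r : ℝ) - r') * L * t) =
      (∑ r ∈ range L, cos (r * L * t)) ^ 2 + (∑ r ∈ range L, sin (r * L * t)) ^ 2 := by
    rw [sq, sq, sum_mul_sum, sum_mul_sum, ← sum_add_distrib]
    refine sum_congr rfl fun r _ => ?_
    rw [← sum_add_distrib]
    refine sum_congr rfl fun r' _ => ?_
    rw [← cos_sub]; congr 1; ring
  rw [e]
  split_ifs with h
  · have h1 : (L : ℝ) / 2 ≤ ∑ r ∈ range L, cos (r * L * t) := by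
      calc (L : ℝ) / 2 = ∑ r ∈ range L, (1 / 2 : ℝ) := by simp; ring
        _ ≤ _ := sum_le_sum fun r hr => by
          have hr' : (r : ℝ) ≤ L := by exact_mod_cast (mem_range.mp hr).le
          have a1 : |(r : ℝ) * L * t| ≤ 1 := by
            rw [abs_mul, abs_of_nonneg (by positivity)]
            calc _ ≤ (L : ℝ) * L * (1 / L ^ 2) := by gcongr
              _ = 1 := by field_simp
          have a2 : ((r : ℝ) * L * t) ^ 2 ≤ 1 := by
            rw [← sq_abs]; exact pow_le_one₀ (abs_nonneg _) a1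
          have := one_sub_sq_div_two_le_cos (x := (r : ℝ) * L * t)
          linarith
    have h2 : ((L : ℝ) / 2) ^ 2 ≤ (∑ r ∈ range L, cos (r * L * t)) ^ 2 := by gcongr
    calc (1 : ℝ) = 4 / (L : ℝ) ^ 2 * ((L : ℝ) / 2) ^ 2 := by field_simp; ring
      _ ≤ _ := by
        refine mul_le_mul_of_nonneg_left ?_ (by positivity)
        linarith [sq_nonneg (∑ r ∈ range L, sin (r * L * t))]
  · positivity

/-- Anti-concentration. -/
lemma anti (η : ℝ) (hη : 0 < η) : ∃ s > 0, ∃ τ > 0, ∀ (ι : Type) [Fintype ι] [DecidableEq ι]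
    (w : ι → ℝ), Reg τ w → ∀ θ : ℝ,
    𝔼 x, (if |lin w x - θ| ≤ s then (1 : ℝ) else 0) ≤ η := by
  obtain ⟨L, hL⟩ := exists_nat_gt (max 1 (24 / η))
  have hL1 : (1 : ℝ) < L := (le_max_left _ _).trans_lt hL
  have hL2 : 24 / η < L := (le_max_right _ _).trans_lt hL
  have hL0 : (0 : ℝ) < L := by linarith
  obtain ⟨τ, h0, h1, h2⟩ := small ((L : ℝ) ^ 2) (η / 8) (by positivity)
  refine ⟨1 / (L : ℝ) ^ 2, by positivity, τ, h0, fun ι _ _ w hw θ => ?_⟩
  refine (E_mono fun x => fejer L (by exact_mod_cast hL0) _).trans ?_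
  simp only [E_cmul, E_sum, E_cos]
  have key : ∀ r ∈ range L, ∀ r' ∈ range L,
      cos (((r : ℝ) - r') * L * θ) * ∏ j, cos (((r : ℝ) - r') * L * w j) ≤
        (if r = r' then 1 else 0) + (2 / (L : ℝ) ^ 2 + η / 8) := by
    intro r hr r' hr'
    have a1 : (r : ℝ) < L := by exact_mod_cast mem_range.mp hr
    have a2 : (r' : ℝ) < L := by exact_mod_cast mem_range.mp hr'
    have a3 : |((r : ℝ) - r') * L| ≤ |(L : ℝ) ^ 2| := by
      rw [abs_mul, abs_of_pos hL0, abs_of_pos (by positivity : (0 : ℝ) < L ^ 2), sq]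
      have : |(r : ℝ) - r'| ≤ L := by
        rw [abs_le]; constructor <;> linarith [Nat.cast_nonneg (α := ℝ) r, Nat.cast_nonneg (α := ℝ) r']
      gcongr
    set u := ((r : ℝ) - r') * L with hu
    have a4 := cos_prod u τ w ((mul_le_mul_of_nonneg_right a3 h0.le).trans h1) hw
    have a5 : u ^ 4 ≤ ((L : ℝ) ^ 2) ^ 4 := by
      have : ∀ y : ℝ, y ^ 4 = |y| ^ 4 := fun y => by
        rw [show (4 : ℕ) = 2 * 2 from rfl, pow_mul, pow_mul, sq_abs]
      rw [this u, this ((L : ℝ) ^ 2)]; gcongr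
    have a6 : u ^ 4 * τ ^ 2 ≤ η / 8 := le_trans (by gcongr) h2
    have a7 : exp (-(u ^ 2 / 2)) ≤ (if r = r' then 1 else 0) + 2 / (L : ℝ) ^ 2 := by
      split_ifs with h
      · have : exp (-(u ^ 2 / 2)) ≤ 1 := by
          rw [exp_le_one_iff]; have := sq_nonneg u; linarith
        have : 0 ≤ 2 / (L : ℝ) ^ 2 := by positivity
        linarith
      · have b1 : (1 : ℝ) ≤ ((r : ℝ) - r') ^ 2 := by
          have : (1 : ℤ) ≤ ((r : ℤ) - r') ^ 2 := by
            have : (r : ℤ) - r' ≠ 0 := sub_ne_zero.mpr (by exact_mod_cast h)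
            exact (one_le_sq_iff_one_le_abs _).mpr (Int.one_le_abs this)
          exact_mod_cast this
        have b2 : (L : ℝ) ^ 2 ≤ u ^ 2 := by
          rw [hu, mul_pow]; exact le_mul_of_one_le_left (by positivity) b1
        have b3 := add_one_le_exp (u ^ 2 / 2)
        rw [exp_neg, zero_add, inv_le_comm₀ (exp_pos _) (by positivity), inv_div]
        linarith
    have a8 : |∏ j, cos (u * w j)| ≤ exp (-(u ^ 2 / 2)) + η / 8 := by
      have := abs_sub_abs_le_abs_sub (∏ j, cos (u * w j)) (exp (-(u ^ 2 / 2)))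
      rw [abs_of_pos (exp_pos _)] at this
      linarith
    have a9 : cos (u * θ) * ∏ j, cos (u * w j) ≤ |∏ j, cos (u * w j)| := by
      refine (le_abs_self _).trans ?_
      rw [abs_mul]; exact mul_le_of_le_one_left (abs_nonneg _) (abs_cos_le_one _)
    linarith
  have hs : ∑ r ∈ range L, ∑ r' ∈ range L,
      cos (((r : ℝ) - r') * L * θ) * ∏ j, cos (((r : ℝ) - r') * L * w j) ≤
        L + L ^ 2 * (2 / (L : ℝ) ^ 2 + η / 8) := by
    refine (sum_le_sum fun r hr => sum_le_sum fun r' hr' => key r hr r' hr').trans ?_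
    have : ∀ r ∈ range L, ∑ r' ∈ range L, ((if r = r' then (1 : ℝ) else 0) +
        (2 / (L : ℝ) ^ 2 + η / 8)) = 1 + L * (2 / (L : ℝ) ^ 2 + η / 8) := by
      intro r hr
      rw [sum_add_distrib, sum_ite_eq]; simp [hr]; ring
    rw [sum_congr rfl this]; simp; ring_nf; rfl
  refine (mul_le_mul_of_nonneg_left hs (by positivity)).trans ?_
  have e : 4 / (L : ℝ) ^ 2 * (L + L ^ 2 * (2 / (L : ℝ) ^ 2 + η / 8)) =
      4 / L + 8 / L / L + η / 2 := by field_simp; ring
  rw [e]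
  have c1 : 8 / (L : ℝ) / L ≤ 8 / L := div_le_self (by positivity) hL1.le
  have c2 : 12 / (L : ℝ) ≤ η / 2 := by
    rw [div_lt_iff₀ hη] at hL2
    rw [div_le_iff₀ hL0]; linarith
  have c3 : 12 / (L : ℝ) = 4 / L + 8 / L := by ring
  linarith

end Pool.Agent.H37.Lt
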