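import Pool.Agent.H37.Lt1

/-! Influence of the heaviest coordinate of a halfspace; random block cubes. -/

open scoped BigOperators symmDiff
open Finset

namespace Pool.Agent.H37.Lt

section
variable {ι : Type} [Fintype ι] [DecidableEq ι]

lemma lin_fl (w : ι → ℝ) (j : ι) (y : ι → Bool) :
    lin w (fl j y) = lin w y - 2 * w j * sg (y j) := by
  unfold lin
  rw [← add_sum_erase _ _ (mem_univ j), ← add_sum_erase _ (fun i => w i * sg (y i)) (mem_univ j),
    part_fl _ (notMem_erase j univ), fl_self, sg_not]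
  ring

noncomputable def ramp (θ δ t : ℝ) : ℝ := max (-1) (min 1 ((t - θ) / δ))

noncomputable def win (θ δ t : ℝ) : ℝ := if θ - δ ≤ t ∧ t < θ + δ then 1 else 0

lemma win_nonneg (θ δ t : ℝ) : 0 ≤ win θ δ t := by unfold win; split_ifs <;> norm_num

lemma ramp_hi {θ δ t : ℝ} (hδ : 0 < δ) (h : θ + δ ≤ t) : ramp θ δ t = 1 := by
  have : 1 ≤ (t - θ) / δ := by rw [le_div_iff₀ hδ]; linarith
  unfold ramp; rw [min_eq_left this]; norm_num

lemma ramp_lo {θ δ t : ℝ} (hδ : 0 < δ) (h : t ≤ θ - δ) : ramp θ δ t = -1 := by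
  have : (t - θ) / δ ≤ -1 := by rw [div_le_iff₀ hδ]; linarith
  unfold ramp; exact max_eq_left ((min_le_right _ _).trans this)

lemma ramp_abs (θ δ t : ℝ) : |ramp θ δ t| ≤ 1 :=
  abs_le.mpr ⟨le_max_left _ _, max_le (by norm_num) (min_le_left _ _)⟩

lemma ramp_lip {θ δ a b : ℝ} (hδ : 0 < δ) (h : |a - b| ≤ 2 * δ) :
    (ramp θ δ a - ramp θ δ b) ^ 2 ≤ (a - b) ^ 2 / δ ^ 2 * (win θ δ a + win θ δ b) := by
  have h1 : |ramp θ δ a - ramp θ δ b| ≤ |(a - b) / δ| := by
    unfold ramp
    refine (abs_max_sub_max_le_max _ _ _ _).trans (max_le (by simp) ?_)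
    refine (abs_min_sub_min_le_max _ _ _ _).trans (max_le (by simp) ?_)
    rw [← sub_div]; simp
  have h2 : (ramp θ δ a - ramp θ δ b) ^ 2 ≤ (a - b) ^ 2 / δ ^ 2 := by
    rw [← div_pow, ← sq_abs, ← sq_abs ((a - b) / δ)]; gcongr
  have h3 : 0 ≤ (a - b) ^ 2 / δ ^ 2 := by positivity
  have wa := win_nonneg θ δ a
  have wb := win_nonneg θ δ b
  by_cases ha : θ - δ ≤ a ∧ a < θ + δ
  · have : win θ δ a = 1 := if_pos ha
    nlinarith
  by_cases hb : θ - δ ≤ b ∧ b < θ + δ
  · have : win θ δ b = 1 := if_pos hb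
    nlinarith
  have : ramp θ δ a = ramp θ δ b := by
    rw [abs_le] at h
    rw [not_and_or, not_le, not_lt] at ha hb
    rcases ha with ha | ha <;> rcases hb with hb | hb
    · rw [ramp_lo hδ ha.le, ramp_lo hδ hb.le]
    · linarith [h.1]
    · linarith [h.2]
    · rw [ramp_hi hδ ha, ramp_hi hδ hb]
  rw [this, sub_self, zero_pow two_ne_zero]; exact mul_nonneg h3 (add_nonneg wa wb)

/-- A halfspace is nearly constant unless its heaviest coordinate is influential. -/
lemma heavy (w : ι → ℝ) (θ : ℝ) (j : ι) (hj : 0 < |w j|) (hw : ∀ i, |w i| ≤ |w j|) :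
    1 - (𝔼 y, sg (decide (θ ≤ lin w y))) ^ 2 ≤ (4 * (∑ i, w i ^ 2) / |w j| ^ 2 + 8) *
      𝔼 y, sg (decide (θ ≤ lin w y)) * (w j / |w j| * sg (y j)) := by
  set δ := |w j| with hδ
  set v : ι → ℝ := Function.update w j 0 with hv
  have hl : ∀ y, lin w y = lin v y + w j * sg (y j) := by
    intro y
    unfold lin
    rw [← add_sum_erase _ _ (mem_univ j), ← add_sum_erase _ (fun i => v i * sg (y i)) (mem_univ j),
      sum_congr rfl (fun i hi => by rw [hv, Function.update_of_ne (ne_of_mem_erase hi)] :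
        ∀ i ∈ univ.erase j, v i * sg (y i) = w i * sg (y i))]
    simp [hv, add_comm]
  have hvj : ∀ y, lin v (fl j y) = lin v y := by intro y; rw [lin_fl]; simp [hv]
  have hvle : ∀ i, |v i| ≤ |w i| := by
    intro i; by_cases h : i = j
    · subst h; simp [hv]
    · simp [hv, h]
  have hε : ∀ y : ι → Bool, (w j * sg (y j) = δ ∧ w j / δ * sg (y j) = 1) ∨
      (w j * sg (y j) = -δ ∧ w j / δ * sg (y j) = -1) := by
    intro y
    have : |w j * sg (y j)| = δ := by rw [abs_mul, abs_sg, mul_one]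
    rcases (abs_eq hj.le).mp this with h | h
    · left; refine ⟨h, ?_⟩; rw [div_mul_eq_mul_div, h, div_self hj.ne']
    · right; refine ⟨h, ?_⟩; rw [div_mul_eq_mul_div, h, neg_div, div_self hj.ne']
  set P := 𝔼 y, win θ δ (lin v y) with hP
  have hP0 : 0 ≤ P := E_nonneg fun y => win_nonneg _ _ _
  have h1 : 𝔼 y, sg (decide (θ ≤ lin w y)) * (w j / δ * sg (y j)) = P := by
    have e1 := E_fl j (fun y => sg (decide (θ ≤ lin w y)) * (w j / δ * sg (y j)))
    have e2 : ∀ y, sg (decide (θ ≤ lin w (fl j y))) * (w j / δ * sg (fl j y j)) =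
        2 * win θ δ (lin v y) - sg (decide (θ ≤ lin w y)) * (w j / δ * sg (y j)) := by
      intro y
      rw [hl, hl y, hvj, fl_self, sg_not, mul_neg, mul_neg]
      unfold win sg
      rcases hε y with ⟨a, b⟩ | ⟨a, b⟩ <;> unfold sg at a b <;> rw [a, b] <;>
        simp only [decide_eq_true_eq] <;> split_ifs <;> first | (norm_num; done) | (exfalso; grind)
    simp only [e2, E_sub, E_cmul] at e1
    linarith
  have h2 := poincare (fun y => ramp θ δ (lin v y))
  have h3 : ∑ i, 𝔼 y, (ramp θ δ (lin v y) - ramp θ δ (lin v (fl i y))) ^ 2 ≤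
      8 * (∑ i, w i ^ 2) / δ ^ 2 * P := by
    rw [mul_sum, sum_div, sum_mul]
    refine sum_le_sum fun i _ => ?_
    have e1 : ∀ y, (ramp θ δ (lin v y) - ramp θ δ (lin v (fl i y))) ^ 2 ≤
        4 * w i ^ 2 / δ ^ 2 * (win θ δ (lin v y) + win θ δ (lin v (fl i y))) := by
      intro y
      have a1 : |lin v y - lin v (fl i y)| = 2 * |v i| := by
        rw [lin_fl, sub_sub_cancel, abs_mul, abs_mul, abs_sg]; simp
      refine (ramp_lip hj (by rw [a1]; linarith [hvle i, hw i])).trans ?_
      refine mul_le_mul_of_nonneg_right ?_ (add_nonneg (win_nonneg _ _ _) (win_nonneg _ _ _))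
      rw [← sq_abs (lin v y - _), a1, mul_pow, ← sq_abs (w i)]
      have := hvle i
      gcongr; norm_num
    refine (E_mono e1).trans ?_
    rw [E_cmul, E_add, E_fl i (fun y => win θ δ (lin v y))]
    exact le_of_eq (by rw [← hP]; ring)
  have h4 : ∀ y, (sg (decide (θ ≤ lin w y)) - ramp θ δ (lin v y)) ^ 2 ≤ 4 * win θ δ (lin v y) := by
    intro y
    by_cases ha : θ - δ ≤ lin v y ∧ lin v y < θ + δ
    · have : win θ δ (lin v y) = 1 := if_pos ha
      have a1 := abs_le.mp (ramp_abs θ δ (lin v y))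
      have a2 := abs_le.mp (abs_sg (decide (θ ≤ lin w y))).le
      rw [this]; nlinarith [a1.1, a1.2, a2.1, a2.2]
    · have : win θ δ (lin v y) = 0 := if_neg ha
      rw [this]
      rw [not_and_or, not_le, not_lt] at ha
      have a3 := hl y
      rcases ha with ha | ha
      · have : ¬ θ ≤ lin w y := by rcases hε y with ⟨a, -⟩ | ⟨a, -⟩ <;> linarith
        rw [ramp_lo hj ha.le]; simp [sg, this]
      · have : θ ≤ lin w y := by rcases hε y with ⟨a, -⟩ | ⟨a, -⟩ <;> linarith
        rw [ramp_hi hj ha]; simp [sg, this]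
  set c := 𝔼 y, ramp θ δ (lin v y) with hc
  have h5 : ∀ y, 1 - 2 * c * sg (decide (θ ≤ lin w y)) + c ^ 2 ≤
      8 * win θ δ (lin v y) + 2 * (ramp θ δ (lin v y) ^ 2 - 2 * c * ramp θ δ (lin v y) + c ^ 2) := by
    intro y
    have a1 := h4 y
    have a2 := sg_sq (decide (θ ≤ lin w y))
    nlinarith [sq_nonneg (sg (decide (θ ≤ lin w y)) - 2 * ramp θ δ (lin v y) + c)]
  have h6 := E_mono h5
  simp only [E_add, E_sub, E_cmul, E_const] at h6
  rw [h1]
  rw [← hc, ← hP] at h6
  have e : (4 * (∑ i, w i ^ 2) / δ ^ 2 + 8) * P = 8 * (∑ i, w i ^ 2) / δ ^ 2 * P / 2 + 8 * P := by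
    ring
  rw [e]
  nlinarith [sq_nonneg (c - 𝔼 y, sg (decide (θ ≤ lin w y)))]

end

variable {ι κ : Type} [Fintype ι] [DecidableEq ι] [Fintype κ] [DecidableEq κ]

def pt (x : ι → Bool) (π : ι → κ) (y : κ → Bool) : ι → Bool := fun i => x i == y (π i)

def pat (π : ι → κ) (S : Finset ι) : Finset κ := S.fold (· ∆ ·) ∅ fun i => {π i}

omit [Fintype ι] in
lemma pat_insert (π : ι → κ) {S : Finset ι} {i : ι} (hi : i ∉ S) :
    pat π (insert i S) = {π i} ∆ pat π S := fold_insert hi

omit [Fintype ι] [DecidableEq ι] in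
@[simp] lemma pat_empty (π : ι → κ) : pat π ∅ = ∅ := rfl

omit [Fintype ι] [DecidableEq ι] in
@[simp] lemma pat_single (π : ι → κ) (i : ι) : pat π {i} = {π i} := by
  simp [pat, symmDiff_def]

omit [Fintype ι] in
lemma pat_update (π : ι → κ) {S : Finset ι} {i : ι} (hi : i ∉ S) (b : κ) :
    pat (Function.update π i b) S = pat π S :=
  fold_congr fun j hj => by rw [Function.update_of_ne (ne_of_mem_of_not_mem hj hi)]

omit [Fintype κ] in
lemma chi_symm (T : Finset κ) (j : κ) (y : κ → Bool) : chi ({j} ∆ T) y = sg (y j) * chi T y := by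
  unfold chi
  by_cases h : j ∈ T
  · have : {j} ∆ T = T.erase j := by
      ext a; simp only [mem_symmDiff, mem_singleton, mem_erase]
      constructor
      · rintro (⟨rfl, b⟩ | ⟨a, b⟩); exact absurd h b; exact ⟨b, a⟩
      · rintro ⟨a, b⟩; exact Or.inr ⟨b, a⟩
    rw [this, ← mul_prod_erase T _ h, ← mul_assoc, sg_mul_self, one_mul]
  · have : {j} ∆ T = insert j T := by
      ext a; simp only [mem_symmDiff, mem_singleton, mem_insert]
      constructor
      · rintro (⟨rfl, b⟩ | ⟨a, b⟩); exact Or.inl rfl; exact Or.inr a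
      · rintro (rfl | b); exact Or.inl ⟨rfl, h⟩; exact Or.inr ⟨b, fun e => h (e ▸ b)⟩
    rw [this, prod_insert h]

omit [Fintype ι] in
lemma chi_pt (x : ι → Bool) (π : ι → κ) (y : κ → Bool) (S : Finset ι) :
    chi S (pt x π y) = chi S x * chi (pat π S) y := by
  induction S using Finset.induction_on with
  | empty => simp
  | insert i S hi ih =>
    rw [pat_insert π hi, chi_symm]
    unfold chi at ih ⊢
    rw [prod_insert hi, prod_insert hi, ih, pt, sg_beq]; ring

omit [Fintype ι] in
lemma pat_sub (π : ι → κ) (S : Finset ι) : pat π S ⊆ S.image π := by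
  induction S using Finset.induction_on with
  | empty => simp
  | insert i S hi ih =>
    rw [pat_insert π hi, image_insert]
    intro a ha
    rcases mem_symmDiff.mp ha with ⟨h, -⟩ | ⟨h, -⟩
    · rw [mem_singleton.mp h]; exact mem_insert_self _ _
    · exact mem_insert_of_mem (ih h)

omit [Fintype ι] in
lemma pat_inj (π : ι → κ) (S : Finset ι) (h : Set.InjOn π S) (hS : pat π S = ∅) : S = ∅ := by
  by_contra hne
  obtain ⟨i, hi⟩ := nonempty_iff_ne_empty.mpr hne
  rw [← insert_erase hi, pat_insert π (notMem_erase i S)] at hS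
  have : π i ∈ ({π i} : Finset κ) ∆ pat π (S.erase i) := by
    refine mem_symmDiff.mpr (Or.inl ⟨mem_singleton_self _, fun hc => ?_⟩)
    obtain ⟨j, hj, e⟩ := mem_image.mp (pat_sub π _ hc)
    exact ne_of_mem_erase hj (h (mem_of_mem_erase hj) hi e)
  rw [hS] at this; exact notMem_empty _ this

lemma resample [Nonempty κ] (i : ι) (H : (ι → κ) → ℝ) :
    𝔼 π, 𝔼 b, H (Function.update π i b) = 𝔼 π, H π := by
  have h := E_invol (α := (ι → κ) × κ) (fun p => (Function.update p.1 i p.2, p.1 i)) (by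
      rintro ⟨a, b⟩; simp) (fun p => H p.1)
  rw [E_prod, E_prod] at h
  simp only [E_const] at h
  exact h

lemma hit [Nonempty κ] (i : ι) (B : (ι → κ) → Finset κ) (m : ℝ)
    (hB : ∀ π b, B (Function.update π i b) = B π) (hm : ∀ π, ((B π).card : ℝ) ≤ m) :
    𝔼 π, (if π i ∈ B π then (1 : ℝ) else 0) ≤ m / Fintype.card κ := by
  rw [← resample i]
  refine E_le fun π => ?_
  simp only [hB, Function.update_self]
  rw [Fintype.expect_eq_sum_div_card]
  refine div_le_div_of_nonneg_right ?_ (Nat.cast_nonneg _)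
  simpa using hm π

lemma P3 [Nonempty κ] {i i' : ι} (h : i ≠ i') :
    𝔼 π : ι → κ, (if π i = π i' then (1 : ℝ) else 0) ≤ 1 / Fintype.card κ := by
  have := hit (κ := κ) i (fun π => {π i'}) 1
    (fun π b => by rw [Function.update_of_ne h.symm]) (fun π => by simp)
  simpa only [mem_singleton] using this

lemma P1 [Nonempty κ] (S : Finset ι) :
    𝔼 π : ι → κ, (if 2 ≤ S.card ∧ (pat π S).card = 1 then (1 : ℝ) else 0) ≤
      7 / Fintype.card κ := by
  by_cases hS : 2 ≤ S.card
  swap
  · simp only [hS, false_and, if_false, E_const]; positivity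
  obtain ⟨i, hi, i', hi', hne⟩ := one_lt_card.mp hS
  set T := (S.erase i).erase i' with hT
  have hiT : i ∉ T := fun h => notMem_erase i S (mem_of_mem_erase h)
  have hiT' : i' ∉ T := notMem_erase _ _
  have hST : S = insert i (insert i' T) := by
    rw [hT, insert_erase (mem_erase.mpr ⟨hne.symm, hi'⟩), insert_erase hi]
  set B : (ι → κ) → Finset κ := fun π => if (pat π T).card ≤ 3 then pat π T else ∅ with hB
  have hm : ∀ π, ((B π).card : ℝ) ≤ 3 := by
    intro π; simp only [hB]; split_ifs with h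
    · exact_mod_cast h
    · simp
  have a1 := hit i B 3 (fun π b => by simp only [hB, pat_update π hiT]) hm
  have a2 := hit i' B 3 (fun π b => by simp only [hB, pat_update π hiT']) hm
  have a3 := P3 (κ := κ) hne
  have key : ∀ π : ι → κ, (if 2 ≤ S.card ∧ (pat π S).card = 1 then (1 : ℝ) else 0) ≤
      (if π i ∈ B π then (1 : ℝ) else 0) + (if π i' ∈ B π then (1 : ℝ) else 0) +
        (if π i = π i' then (1 : ℝ) else 0) := by
    intro π
    by_cases c : 2 ≤ S.card ∧ (pat π S).card = 1
    swap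
    · rw [if_neg c]; positivity
    rw [if_pos c]
    have e : pat π S = {π i} ∆ ({π i'} ∆ pat π T) := by
      rw [hST, pat_insert π (by simp [hne, hiT]), pat_insert π hiT']
    have : π i ∈ B π ∨ π i' ∈ B π ∨ π i = π i' := by
      by_contra hc
      push Not at hc
      obtain ⟨c1, c2, c3⟩ := hc
      by_cases h3 : (pat π T).card ≤ 3
      · simp only [hB, if_pos h3] at c1 c2
        have : ({π i, π i'} : Finset κ) ⊆ pat π S := by
          rw [e]; intro a ha
          simp only [mem_insert, mem_singleton] at ha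
          rcases ha with rfl | rfl <;> simp [mem_symmDiff, c1, c2, c3, c3.symm]
        have := card_le_card this
        rw [card_pair c3] at this; omega
      · have : ((pat π T).erase (π i)).erase (π i') ⊆ pat π S := by
          rw [e]; intro a ha
          simp only [mem_erase] at ha
          simp [mem_symmDiff, ha.1, ha.2.1, ha.2.2]
        have b1 := card_le_card this
        have b2 := pred_card_le_card_erase (s := pat π T) (a := π i)
        have b3 := pred_card_le_card_erase (s := (pat π T).erase (π i)) (a := π i')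
        omega
    rcases this with h | h | h <;> rw [if_pos h] <;> split_ifs <;> norm_num
  refine (E_mono key).trans ?_
  rw [E_add, E_add]
  have : (7 : ℝ) / Fintype.card κ = 3 / Fintype.card κ + 3 / Fintype.card κ + 1 / Fintype.card κ := by
    ring
  linarith

lemma P2 [Nonempty κ] (S J : Finset ι) :
    𝔼 π : ι → κ, (if ¬ S ⊆ J ∧ pat π S ⊆ J.image π then (1 : ℝ) else 0) ≤
      (J.card + 1) / Fintype.card κ := by
  by_cases hS : S ⊆ J
  · simp only [hS, not_true, false_and, if_false, E_const]; positivity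
  obtain ⟨i, hi, hJ⟩ := not_subset.mp hS
  set T := S.erase i with hT
  have hiT : i ∉ T := notMem_erase _ _
  set B : (ι → κ) → Finset κ := fun π => J.image π ∪
    if (pat π T \ J.image π).card ≤ 1 then pat π T \ J.image π else ∅ with hB
  have himg : ∀ (π : ι → κ) b, J.image (Function.update π i b) = J.image π := fun π b =>
    image_congr fun j hj => by rw [Function.update_of_ne (ne_of_mem_of_not_mem hj hJ)]
  refine le_trans (E_mono fun π => ?_) (hit i B (J.card + 1)
    (fun π b => by simp only [hB, pat_update π hiT, himg]) (fun π => ?_))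
  · by_cases c : ¬ S ⊆ J ∧ pat π S ⊆ J.image π
    swap
    · rw [if_neg c]; positivity
    rw [if_pos c, if_pos]
    have e : pat π S = {π i} ∆ pat π T := by rw [← pat_insert π hiT, hT, insert_erase hi]
    by_cases h : π i ∈ J.image π
    · exact mem_union_left _ h
    refine mem_union_right _ ?_
    have h1 : π i ∈ pat π T := by
      by_contra hc
      exact h (c.2 (e ▸ mem_symmDiff.mpr (Or.inl ⟨mem_singleton_self _, hc⟩)))
    have h2 : pat π T \ J.image π ⊆ {π i} := by
      intro a ha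
      by_contra hc
      exact (mem_sdiff.mp ha).2 (c.2 (e ▸ mem_symmDiff.mpr (Or.inr ⟨(mem_sdiff.mp ha).1, hc⟩)))
    rw [if_pos (by simpa using card_le_card h2)]
    exact mem_sdiff.mpr ⟨h1, h⟩
  · have a1 : (J.image π).card ≤ J.card := card_image_le
    have a2 : (if (pat π T \ J.image π).card ≤ 1 then pat π T \ J.image π else ∅).card ≤ 1 := by
      split_ifs with h
      · exact h
      · simp
    have a3 := (card_union_le _ _).trans (add_le_add a1 a2)
    exact_mod_cast a3

open Classical in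
lemma P5 [Nonempty κ] (J : Finset ι) :
    𝔼 π : ι → κ, (if Set.InjOn π J then (0 : ℝ) else 1) ≤ J.card ^ 2 / Fintype.card κ := by
  have key : ∀ π : ι → κ, (if Set.InjOn π J then (0 : ℝ) else 1) ≤
      ∑ p ∈ J.offDiag, (if π p.1 = π p.2 then (1 : ℝ) else 0) := by
    intro π
    split_ifs with h
    · exact sum_nonneg fun _ _ => by positivity
    · simp only [Set.InjOn, not_forall] at h
      obtain ⟨a, ha, b, hb, e, hne⟩ := h
      refine le_trans ?_ (single_le_sum (f := fun p : ι × ι => if π p.1 = π p.2 then (1 : ℝ) else 0)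
        (fun _ _ => by positivity) (mem_offDiag.mpr ⟨ha, hb, hne⟩ : (a, b) ∈ J.offDiag))
      simp [e]
  refine (E_mono key).trans ?_
  rw [E_sum]
  refine (sum_le_card_nsmul _ _ _ fun p hp => P3 (mem_offDiag.mp hp).2.2).trans ?_
  rw [nsmul_eq_mul, mul_one_div]
  refine div_le_div_of_nonneg_right ?_ (Nat.cast_nonneg _)
  have : J.offDiag.card ≤ J.card ^ 2 := by rw [offDiag_card, sq]; omega
  exact_mod_cast this

end Pool.Agent.H37.Lt
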