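import Pool.Agent.H37.Lt3

/-! The error statistics of a random block cube and the transfer lemma. -/

open scoped BigOperators symmDiff
open Finset

namespace Pool.Agent.H37.Lt

variable {ι κ : Type} [Fintype ι] [DecidableEq ι] [Fintype κ] [DecidableEq κ]

noncomputable def ell (f : (ι → Bool) → ℝ) (J : Finset ι) (i : ι) : ℝ :=
  if i ∈ J then 0 else co f {i}

noncomputable def aa (f : (ι → Bool) → ℝ) (J : Finset ι) (x : ι → Bool) (π : ι → κ) (j : κ) : ℝ :=
  lin (fun i => if π i = j then ell f J i else 0) x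

noncomputable def bb (f : (ι → Bool) → ℝ) (x : ι → Bool) (π : ι → κ) (j : κ) : ℝ :=
  co (fun y => f (pt x π y)) {j} - lin (fun i => if π i = j then co f {i} else 0) x

noncomputable def dd (f : (ι → Bool) → ℝ) (J : Finset ι) (x : ι → Bool) (π : ι → κ)
    (y : κ → Bool) : ℝ :=
  (𝔼 y', f (pt x π ((J.image π).piecewise y y'))) - 𝔼 z', f (J.piecewise (pt x π y) z')

open Classical in
noncomputable def Err (f : (ι → Bool) → ℝ) (J : Finset ι) (x : ι → Bool) (π : ι → κ) : ℝ :=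
  ∑ j, bb f x π j ^ 2 + 𝔼 y, dd f J x π y ^ 2 + (∑ j, aa f J x π j ^ 2 - ∑ i, ell f J i ^ 2) ^ 2
    + ∑ j, aa f J x π j ^ 4 + (if Set.InjOn π J then 0 else 1)

lemma sum_one (F : Finset ι → ℝ) : ∑ S, (if S.card = 1 then F S else 0) = ∑ i, F {i} := by
  rw [← sum_filter]
  have : univ.filter (fun S : Finset ι => S.card = 1) = univ.image fun i => {i} := by
    ext S; simp [card_eq_one, eq_comm]
  rw [this, sum_image fun a _ b _ h => singleton_injective h]

lemma bb_eq (f : (ι → Bool) → ℝ) (x : ι → Bool) (π : ι → κ) (j : κ) :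
    bb f x π j = ∑ S, (co f S * if S.card ≠ 1 ∧ pat π S = {j} then 1 else 0) * chi S x := by
  have h1 : co (fun y => f (pt x π y)) {j} =
      ∑ S, (co f S * if pat π S = {j} then 1 else 0) * chi S x := by
    have : ∀ y, f (pt x π y) * chi {j} y =
        ∑ S, (co f S * chi S x) * (chi (pat π S) y * chi {j} y) := by
      intro y; rw [expand f (pt x π y), sum_mul]
      exact sum_congr rfl fun S _ => by rw [chi_pt]; ring
    change 𝔼 y, f (pt x π y) * chi {j} y = _
    simp only [this, E_sum, E_cmul, orth]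
    exact sum_congr rfl fun S _ => by ring
  have h2 : lin (fun i => if π i = j then co f {i} else 0) x =
      ∑ S, (if S.card = 1 then (co f S * if pat π S = {j} then 1 else 0) * chi S x else 0) := by
    rw [sum_one]
    refine sum_congr rfl fun i _ => ?_
    simp only [pat_single, singleton_inj, chi_single]
    split_ifs <;> simp
  rw [bb, h1, h2, ← sum_sub_distrib]
  refine sum_congr rfl fun S _ => ?_
  by_cases a : S.card = 1 <;> simp [a]

lemma Err1 [Nonempty κ] (f : (ι → Bool) → ℝ) (hf : ∀ z, f z ^ 2 = 1) :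
    𝔼 π : ι → κ, 𝔼 x, ∑ j, bb f x π j ^ 2 ≤ 7 / Fintype.card κ := by
  have h0 : ∑ S, co f S ^ 2 = 1 := by rw [pars']; simp only [hf, E_const]
  have h1 : ∀ π : ι → κ, 𝔼 x, ∑ j, bb f x π j ^ 2 ≤
      ∑ S, co f S ^ 2 * if 2 ≤ S.card ∧ (pat π S).card = 1 then (1 : ℝ) else 0 := by
    intro π
    simp only [E_sum, bb_eq, pars]
    rw [sum_comm]
    refine sum_le_sum fun S _ => ?_
    simp only [mul_pow, ← mul_sum]
    refine mul_le_mul_of_nonneg_left ?_ (sq_nonneg _)
    by_cases c : 2 ≤ S.card ∧ (pat π S).card = 1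
    · rw [if_pos c]
      obtain ⟨j, hj⟩ := card_eq_one.mp c.2
      have : S.card ≠ 1 := by omega
      simp [hj, this]
    · rw [if_neg c]
      refine le_of_eq (sum_eq_zero fun j _ => ?_)
      rw [if_neg]; · simp
      rintro ⟨a, b⟩
      refine c ⟨?_, by rw [b, card_singleton]⟩
      by_contra hc
      have : S = ∅ := card_eq_zero.mp (by omega)
      rw [this, pat_empty] at b
      exact singleton_ne_empty j b.symm
  refine (E_mono h1).trans ?_
  simp only [E_sum, E_cmul]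
  calc _ ≤ ∑ S, co f S ^ 2 * (7 / Fintype.card κ) :=
        sum_le_sum fun S _ => mul_le_mul_of_nonneg_left (P1 S) (sq_nonneg _)
    _ = _ := by rw [← sum_mul, h0, one_mul]

lemma cond_eq (f : (ι → Bool) → ℝ) (J : Finset ι) (z : ι → Bool) :
    𝔼 z', f (J.piecewise z z') = ∑ S, co f S * if S ⊆ J then chi S z else 0 := by
  have : ∀ z', f (J.piecewise z z') = ∑ S, co f S * chi S (J.piecewise z z') :=
    fun z' => expand f _
  simp only [this, E_sum, E_cmul, E_chi_pw]

lemma dd_eq (f : (ι → Bool) → ℝ) (J : Finset ι) (x : ι → Bool) (π : ι → κ) (y : κ → Bool) :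
    dd f J x π y = ∑ S, (co f S * if ¬ S ⊆ J ∧ pat π S ⊆ J.image π then chi (pat π S) y else 0)
      * chi S x := by
  have h1 : ∀ y', f (pt x π ((J.image π).piecewise y y')) =
      ∑ S, (co f S * chi S x) * chi (pat π S) ((J.image π).piecewise y y') := by
    intro y'; rw [expand f (pt x π _)]
    exact sum_congr rfl fun S _ => by rw [chi_pt]; ring
  rw [dd, cond_eq]
  simp only [h1, E_sum, E_cmul, E_chi_pw, chi_pt]
  rw [← sum_sub_distrib]
  refine sum_congr rfl fun S _ => ?_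
  by_cases a : S ⊆ J
  · have : pat π S ⊆ J.image π := (pat_sub π S).trans (image_subset_image a)
    simp [a, this]; ring
  · by_cases b : pat π S ⊆ J.image π <;> simp [a, b]; ring

lemma Err2 [Nonempty κ] (f : (ι → Bool) → ℝ) (hf : ∀ z, f z ^ 2 = 1) (J : Finset ι) :
    𝔼 π : ι → κ, 𝔼 x, 𝔼 y, dd f J x π y ^ 2 ≤ (J.card + 1) / Fintype.card κ := by
  have h0 : ∑ S, co f S ^ 2 = 1 := by rw [pars']; simp only [hf, E_const]
  have h1 : ∀ π : ι → κ, 𝔼 x, 𝔼 y, dd f J x π y ^ 2 =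
      ∑ S, co f S ^ 2 * if ¬ S ⊆ J ∧ pat π S ⊆ J.image π then (1 : ℝ) else 0 := by
    intro π
    rw [E_comm]
    simp only [dd_eq, pars]
    have : ∀ (y : κ → Bool) (S : Finset ι),
        (co f S * if ¬ S ⊆ J ∧ pat π S ⊆ J.image π then chi (pat π S) y else 0) ^ 2 =
        co f S ^ 2 * if ¬ S ⊆ J ∧ pat π S ⊆ J.image π then (1 : ℝ) else 0 := by
      intro y S; rw [mul_pow]; split_ifs <;> simp
    simp only [this, E_const]
  simp only [h1, E_sum, E_cmul]
  calc _ ≤ ∑ S, co f S ^ 2 * ((J.card + 1) / Fintype.card κ) :=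
        sum_le_sum fun S _ => mul_le_mul_of_nonneg_left (P2 S J) (sq_nonneg _)
    _ = _ := by rw [← sum_mul, h0, one_mul]

lemma lin_sq_le (f : (ι → Bool) → ℝ) (hf : ∀ z, f z ^ 2 = 1) : ∑ i, co f {i} ^ 2 ≤ 1 := by
  have h0 : ∑ S, co f S ^ 2 = 1 := by rw [pars']; simp only [hf, E_const]
  rw [← sum_one (fun S => co f S ^ 2), ← h0]
  exact sum_le_sum fun S _ => by split_ifs <;> [exact le_rfl; positivity]

lemma ell_sq_le (f : (ι → Bool) → ℝ) (hf : ∀ z, f z ^ 2 = 1) (J : Finset ι) :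
    ∑ i, ell f J i ^ 2 ≤ 1 :=
  le_trans (sum_le_sum fun i _ => by unfold ell; split_ifs <;> simp [sq_nonneg]) (lin_sq_le f hf)

lemma blocks [Nonempty κ] (c : ι → ℝ) (t : ℝ) (hc : ∑ i, c i ^ 2 ≤ 1) (ht : ∀ i, |c i| ≤ t) :
    𝔼 π : ι → κ, ∑ j, (∑ i, (if π i = j then c i else 0) ^ 2) ^ 2 ≤ t ^ 2 + 1 / Fintype.card κ := by
  have h1 : ∀ π : ι → κ, ∑ j, (∑ i, (if π i = j then c i else 0) ^ 2) ^ 2 =
      ∑ i, ∑ i', c i ^ 2 * c i' ^ 2 * if π i = π i' then (1 : ℝ) else 0 := by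
    intro π
    simp only [sq (∑ i, _), sum_mul_sum]
    rw [sum_comm]
    refine sum_congr rfl fun i _ => ?_
    rw [sum_comm]
    refine sum_congr rfl fun i' _ => ?_
    rw [sum_eq_single (π i)]
    · by_cases h : π i = π i' <;> simp [h, eq_comm]
    · intro j _ hj; simp [hj.symm]
    · simp
  simp only [h1, E_sum, E_cmul]
  have hk : (0 : ℝ) ≤ 1 / Fintype.card κ := by positivity
  have h2 : ∀ i, ∑ i', c i ^ 2 * c i' ^ 2 * 𝔼 π : ι → κ, (if π i = π i' then (1 : ℝ) else 0) ≤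
      c i ^ 2 * (t ^ 2 + 1 / Fintype.card κ) := by
    intro i
    simp only [mul_assoc, ← mul_sum]
    refine mul_le_mul_of_nonneg_left ?_ (sq_nonneg _)
    calc _ ≤ ∑ i', ((if i = i' then c i' ^ 2 else 0) + c i' ^ 2 * (1 / Fintype.card κ)) :=
          sum_le_sum fun i' _ => by
            by_cases h : i = i'
            · subst h; simp only [if_true, E_const, mul_one]
              exact le_add_of_nonneg_right (by positivity)
            · rw [if_neg h, zero_add]; exact mul_le_mul_of_nonneg_left (P3 h) (sq_nonneg _)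
      _ ≤ _ := by
          rw [sum_add_distrib, sum_ite_eq, if_pos (mem_univ _), ← sum_mul]
          have : c i ^ 2 ≤ t ^ 2 := by
            rw [← sq_abs]; exact pow_le_pow_left₀ (abs_nonneg _) (ht i) 2
          nlinarith
  refine (sum_le_sum fun i _ => h2 i).trans ?_
  rw [← sum_mul]
  exact mul_le_of_le_one_left (by positivity) hc

lemma Err34 (c : ι → ℝ) (π : ι → κ) :
    𝔼 x, ((∑ j, lin (fun i => if π i = j then c i else 0) x ^ 2 - ∑ i, c i ^ 2) ^ 2 +
      ∑ j, lin (fun i => if π i = j then c i else 0) x ^ 4) ≤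
      5 * ∑ j, (∑ i, (if π i = j then c i else 0) ^ 2) ^ 2 := by
  set α : κ → ι → ℝ := fun j i => if π i = j then c i else 0 with hα
  set A : κ → ℝ := fun j => ∑ i, α j i ^ 2 with hA
  have hs : ∑ j, A j = ∑ i, c i ^ 2 := by
    simp only [hA]; rw [sum_comm]
    refine sum_congr rfl fun i _ => ?_
    rw [sum_eq_single (π i)] <;> simp +contextual [hα, eq_comm]
  have h4 : ∀ j j', 𝔼 x, lin (α j) x ^ 2 * lin (α j') x ^ 2 ≤
      A j * A j' + if j = j' then 2 * A j ^ 2 else 0 := by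
    intro j j'
    refine (mom4 (α j) (α j') univ).trans (add_le_add le_rfl (le_of_eq ?_))
    split_ifs with h
    · subst h; simp only [hA, sq]
    · rw [sum_eq_zero]; · simp
      intro i _; simp only [hα]; split_ifs with a b
      · exact absurd (a.symm.trans b) h
      all_goals simp
  have e : ∀ x, (∑ j, lin (α j) x ^ 2 - ∑ i, c i ^ 2) ^ 2 + ∑ j, lin (α j) x ^ 4 =
      ∑ j, ∑ j', lin (α j) x ^ 2 * lin (α j') x ^ 2 - 2 * (∑ i, c i ^ 2) * ∑ j, lin (α j) x ^ 2
        + (∑ i, c i ^ 2) ^ 2 + ∑ j, lin (α j) x ^ 2 * lin (α j) x ^ 2 := by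
    intro x
    rw [← sum_mul_sum, sum_congr rfl (fun j _ => by ring :
      ∀ j ∈ univ, lin (α j) x ^ 4 = lin (α j) x ^ 2 * lin (α j) x ^ 2)]
    ring
  change 𝔼 x, ((∑ j, lin (α j) x ^ 2 - ∑ i, c i ^ 2) ^ 2 + ∑ j, lin (α j) x ^ 4) ≤ 5 * ∑ j, A j ^ 2
  simp only [e, E_add, E_sub, E_cmul, E_const, E_sum, E_lin_sq]
  have b1 : ∑ j, ∑ j', 𝔼 x, lin (α j) x ^ 2 * lin (α j') x ^ 2 ≤
      (∑ j, A j) ^ 2 + 2 * ∑ j, A j ^ 2 := by
    refine (sum_le_sum fun j _ => sum_le_sum fun j' _ => h4 j j').trans (le_of_eq ?_)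
    simp only [sum_add_distrib, sum_ite_eq, mem_univ, if_true, ← mul_sum, ← sum_mul, sq]
  have b2 : ∑ j, 𝔼 x, lin (α j) x ^ 2 * lin (α j) x ^ 2 ≤ 3 * ∑ j, A j ^ 2 := by
    refine (sum_le_sum fun j _ => h4 j j).trans (le_of_eq ?_)
    rw [mul_sum]; exact sum_congr rfl fun j _ => by simp; ring
  change _ - 2 * _ * ∑ j, A j + _ + _ ≤ _
  rw [hs] at b1 ⊢
  nlinarith

lemma Err_le [Nonempty κ] (f : (ι → Bool) → ℝ) (hf : ∀ z, f z ^ 2 = 1) (J : Finset ι) (t : ℝ)
    (ht0 : 0 ≤ t) (ht : ∀ i ∉ J, |co f {i}| ≤ t) :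
    𝔼 π : ι → κ, 𝔼 x, Err f J x π ≤ 5 * t ^ 2 + (13 + J.card + J.card ^ 2) / Fintype.card κ := by
  have h1 := Err1 (κ := κ) f hf
  have h2 := Err2 (κ := κ) f hf J
  have h5 := P5 (κ := κ) J
  have h3 := blocks (κ := κ) (ell f J) t (ell_sq_le f hf J) fun i => by
    unfold ell; split_ifs with h
    · simpa using ht0
    · exact ht i h
  have h4 := E_mono fun π : ι → κ => Err34 (ell f J) π
  rw [E_cmul] at h4
  simp only [E_add] at h4
  simp only [Err, aa, E_add, E_const]
  have e : (13 + J.card + J.card ^ 2 : ℝ) / Fintype.card κ = 7 / Fintype.card κ +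
    (J.card + 1) / Fintype.card κ + J.card ^ 2 / Fintype.card κ + 5 * (1 / Fintype.card κ) := by ring
  linarith

/-- A function of the coordinates in `J` has the same mean on a block cube separating `J`. -/
lemma unif (J : Finset ι) (x : ι → Bool) (π : ι → κ) (hπ : Set.InjOn π J) (H : (ι → Bool) → ℝ)
    (hH : ∀ z z', H (J.piecewise z z') = H z) : 𝔼 y, H (pt x π y) = 𝔼 z, H z := by
  have h1 : ∀ z, H z = ∑ S, co H S * if S ⊆ J then chi S z else 0 := by
    intro z; rw [← cond_eq]; simp only [hH, E_const]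
  have h2 : ∀ y, H (pt x π y) = ∑ S, co H S * if S ⊆ J then chi S x * chi (pat π S) y else 0 := by
    intro y; rw [h1]; simp only [chi_pt]
  simp only [h2, E_sum, E_cmul]
  rw [sum_eq_single ∅]
  · simp [co]
  · intro S _ hS
    split_ifs with a
    · rw [E_cmul, E_chi, if_neg fun e => hS (pat_inj π S (hπ.mono (coe_subset.mpr a)) e)]; simp
    · simp
  · simp

/-- Transfer of correlations with bounded functions of the head from the block cube to the cube. -/
lemma transfer (f : (ι → Bool) → ℝ) (J : Finset ι) (x : ι → Bool) (π : ι → κ)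
    (hπ : Set.InjOn π J) (H : (ι → Bool) → ℝ) (hH : ∀ z z', H (J.piecewise z z') = H z)
    (B m : ℝ) (hB : 0 ≤ B) (hm : 0 ≤ m) (hb : ∀ z, |H z| ≤ B)
    (hd : 𝔼 y, dd f J x π y ^ 2 ≤ m ^ 2) :
    |(𝔼 y, f (pt x π y) * H (pt x π y)) - 𝔼 z, f z * H z| ≤ B * m := by
  have hc : ∀ z z' : ι → Bool, (∀ i ∈ J, z i = z' i) → H z = H z' := by
    intro z z' h
    rw [← hH z z']; congr 1
    funext i; by_cases hi : i ∈ J <;> simp [piecewise, hi, h i]
  have h1 : 𝔼 y, f (pt x π y) * H (pt x π y) =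
      𝔼 y, (𝔼 y', f (pt x π ((J.image π).piecewise y y'))) * H (pt x π y) := by
    rw [← swap (J.image π)]
    refine E_congr fun y => ?_
    rw [← E_mulc]
    refine E_congr fun y' => ?_
    rw [hc _ (pt x π y) fun i hi => by simp [pt, piecewise, mem_image_of_mem π hi]]
  have h2 : 𝔼 z, f z * H z = 𝔼 y, (𝔼 z', f (J.piecewise (pt x π y) z')) * H (pt x π y) := by
    rw [unif J x π hπ (fun z => (𝔼 z', f (J.piecewise z z')) * H z) fun z z' => by
      simp only [hH, piecewise_idem_left], ← swap J]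
    refine E_congr fun z => ?_
    simp only [hH, E_mulc]
  rw [h1, h2, ← E_sub]
  simp only [← sub_mul]
  exact E_cs _ _ B m hB hm (fun y => hb _) hd

end Pool.Agent.H37.Lt
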