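import Pool.Agent.H37.Lt2
import Pool.Agent.H37.Lt4

/-! From a halfspace on one good block cube to a nearby halfspace on the whole cube. -/

open scoped BigOperators
open Finset

namespace Pool.Agent.H37.Lt

variable {ι κ : Type} [Fintype ι] [DecidableEq ι] [Fintype κ] [DecidableEq κ]

noncomputable def dst (F h : (ι → Bool) → Bool) : ℝ := 𝔼 z, if F z ≠ h z then (1 : ℝ) else 0

def IsL (h : (ι → Bool) → Bool) : Prop := ∃ w : ι → ℝ, ∃ θ : ℝ, ∀ z, h z = decide (θ ≤ lin w z)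

lemma dst_eq (F h : (ι → Bool) → Bool) : dst F h = (1 - 𝔼 z, sg (F z) * sg (h z)) / 2 := by
  have : ∀ z, (if F z ≠ h z then (1 : ℝ) else 0) = (1 - sg (F z) * sg (h z)) / 2 := by
    intro z; cases F z <;> cases h z <;> simp [sg]
  simp only [dst, this, E_div, E_sub, E_const]

lemma E_sumtype (H : (ι ⊕ κ → Bool) → ℝ) : 𝔼 p, H p = 𝔼 y, 𝔼 z, H (Sum.elim z y) := by
  rw [E_comm, ← E_prod (fun p : (ι → Bool) × (κ → Bool) => H (Sum.elim p.1 p.2))]
  exact (Fintype.expect_equiv (Equiv.sumArrowEquivProdArrow ι κ Bool).symm _ _ fun _ => rfl).symm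

omit [DecidableEq ι] [DecidableEq κ] in
lemma lin_elim (a : ι → ℝ) (b : κ → ℝ) (z : ι → Bool) (y : κ → Bool) :
    lin (Sum.elim a b) (Sum.elim z y) = lin a z + lin b y := by
  simp [lin, Fintype.sum_sum_type]

lemma lin_pw (A : Finset ι) (w : ι → ℝ) (hw : ∀ j ∈ A, w j = 0) (y y' : ι → Bool) :
    lin w (A.piecewise y y') = lin w y' :=
  sum_congr rfl fun j _ => by by_cases h : j ∈ A <;> simp [piecewise, h, hw]

lemma lin_pw' (A : Finset ι) (w : ι → ℝ) (hw : ∀ j ∉ A, w j = 0) (y y' : ι → Bool) :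
    lin w (A.piecewise y y') = lin w y :=
  sum_congr rfl fun j _ => by by_cases h : j ∈ A <;> simp [piecewise, h, hw]

omit [DecidableEq ι] in
lemma lin_div (w : ι → ℝ) (c : ℝ) (y : ι → Bool) : lin (fun j => w j / c) y = lin w y / c := by
  simp only [lin, sum_div]; exact sum_congr rfl fun j _ => by ring

noncomputable def cl (Θ t : ℝ) : ℝ := max (-Θ) (min Θ t)

lemma cl_abs {Θ : ℝ} (h : 0 < Θ) (t : ℝ) : |cl Θ t| ≤ Θ :=
  abs_le.mpr ⟨le_max_left _ _, max_le (by linarith) (min_le_left _ _)⟩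

lemma cl_cases {Θ : ℝ} (h : 0 < Θ) (t X : ℝ) :
    (cl Θ t ≤ X ↔ t ≤ X) ∨ (Θ ≤ |X| ∧ |X - cl Θ t| ≤ |X|) := by
  unfold cl
  rcases le_total t Θ with a | a
  · rw [min_eq_right a]
    rcases le_total (-Θ) t with b | b
    · rw [max_eq_right b]; exact Or.inl Iff.rfl
    · rw [max_eq_left b]
      by_cases c : -Θ ≤ X
      · exact Or.inl ⟨fun _ => b.trans c, fun _ => c⟩
      · push Not at c
        right; rw [abs_of_neg (by linarith : X < 0), abs_of_neg (by linarith : X - -Θ < 0)]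
        constructor <;> linarith
  · rw [min_eq_left a, max_eq_right (by linarith)]
    by_cases c : Θ ≤ X
    · right; rw [abs_of_nonneg (by linarith : 0 ≤ X), abs_of_nonneg (by linarith : 0 ≤ X - Θ)]
      constructor <;> linarith
    · exact Or.inl ⟨fun d => absurd d c, fun d => a.trans d⟩

lemma sg_dec (t X : ℝ) : sg (decide (t ≤ X)) * (X - t) = |X - t| := by
  by_cases h : t ≤ X
  · rw [abs_of_nonneg (by linarith)]; simp [sg, h]
  · rw [abs_of_neg (by linarith [not_le.mp h])]; simp [sg, h]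

lemma sg_le (b : Bool) (u : ℝ) : |sg b * u| = |u| := by rw [abs_mul, abs_sg, one_mul]

lemma clamp1 {Θ : ℝ} (h : 0 < Θ) (t X : ℝ) :
    |X - cl Θ t| - 2 / Θ * X ^ 2 ≤ sg (decide (t ≤ X)) * (X - cl Θ t) := by
  rcases cl_cases h t X with a | ⟨a, b⟩
  · rw [← decide_eq_decide.mpr a, sg_dec]
    have : 0 ≤ 2 / Θ * X ^ 2 := by positivity
    linarith
  · have c := neg_abs_le (sg (decide (t ≤ X)) * (X - cl Θ t))
    rw [sg_le] at c
    have d : 2 * |X| ≤ 2 / Θ * X ^ 2 := by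
      rw [div_mul_eq_mul_div, le_div_iff₀ h, ← sq_abs]
      nlinarith [abs_nonneg X]
    linarith

lemma clamp2 {Θ s : ℝ} (h : 0 < Θ) (hs : 0 < s) (b : Bool) (t V : ℝ) :
    (if b ≠ decide (t ≤ V) then (1 : ℝ) else 0) ≤ (if |V - cl Θ t| ≤ s then 1 else 0) +
      (|V - cl Θ t| - sg b * (V - cl Θ t)) / (2 * s) + V ^ 2 / Θ ^ 2 := by
  have p1 : (0 : ℝ) ≤ if |V - cl Θ t| ≤ s then 1 else 0 := by positivity
  have p2 : 0 ≤ (|V - cl Θ t| - sg b * (V - cl Θ t)) / (2 * s) := by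
    refine div_nonneg ?_ (by positivity)
    have := le_abs_self (sg b * (V - cl Θ t))
    rw [sg_le] at this; linarith
  have p3 : 0 ≤ V ^ 2 / Θ ^ 2 := by positivity
  by_cases c : b ≠ decide (t ≤ V)
  swap
  · rw [if_neg c]; linarith
  rw [if_pos c]
  rcases cl_cases h t V with a | ⟨a, -⟩
  · by_cases d : |V - cl Θ t| ≤ s
    · rw [if_pos d]; linarith
    · have e : sg b * (V - cl Θ t) = -|V - cl Θ t| := by
        rw [← sg_dec, decide_eq_decide.mpr a, ← neg_mul, ← sg_not]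
        rw [Bool.eq_not_of_ne c]
      have : 1 ≤ (|V - cl Θ t| - sg b * (V - cl Θ t)) / (2 * s) := by
        rw [e, le_div_iff₀ (by positivity)]; linarith [not_le.mp d]
      linarith
  · have : 1 ≤ V ^ 2 / Θ ^ 2 := by
      rw [le_div_iff₀ (by positivity), one_mul, ← sq_abs V]; gcongr
    linarith

/-- The case of a heavy tail coordinate, or of no tail. -/
lemma irregular (F : (ι → Bool) → Bool) (g : (κ → Bool) → ℝ) (A : Finset κ)
    (th : (ι → Bool) → ℝ) (T : (κ → Bool) → ℝ) (W : κ → ℝ) (τ μ : ℝ) (hτ : 0 < τ) (hμ : 0 ≤ μ)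
    (hW : ∀ j ∈ A, W j = 0)
    (H1 : ∀ y y', g (A.piecewise y y') = sg (decide (T y ≤ lin W y')))
    (H2 : ∀ Ψ : ℝ → ℝ, (∀ t, |Ψ t| ≤ 1) →
      |(𝔼 y, g y * Ψ (T y)) - 𝔼 z, sg (F z) * Ψ (th z)| ≤ μ)
    (H4 : ∀ y y', T (A.piecewise y y') = T y)
    (H5 : ∀ j ∉ A, |co g {j}| ≤ 2 * μ)
    (hc : (∀ j, W j = 0) ∨ ∃ j, τ ^ 2 * ∑ i, W i ^ 2 < W j ^ 2) :
    ∃ c : ℝ, dst F (fun z => decide (th z ≤ c)) ≤ (4 / τ ^ 2 + 9) * μ := by
  set Ψ : ℝ → ℝ := fun t => 𝔼 y, sg (decide (t ≤ lin W y)) with hΨ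
  have hΨ1 : ∀ t, |Ψ t| ≤ 1 := fun t => (E_abs _).trans (E_le fun y => by simp)
  have h1 : 𝔼 y, g y * Ψ (T y) = 𝔼 y, Ψ (T y) ^ 2 := by
    rw [← swap A]
    refine E_congr fun y => ?_
    simp only [H1, H4, E_mulc, sq]; rfl
  have h2 : 1 - 𝔼 y, Ψ (T y) ^ 2 ≤ (4 / τ ^ 2 + 8) * (2 * μ) := by
    rcases hc with hc | ⟨j0, hj0⟩
    · have : ∀ t, Ψ t ^ 2 = 1 := by
        intro t; simp only [hΨ, lin, hc, zero_mul, sum_const_zero, E_const, sg_sq]
      simp only [this, E_const, sub_self]; positivity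
    · obtain ⟨j, -, hj⟩ := exists_max_image univ (fun j => |W j|) ⟨j0, mem_univ _⟩
      have a0 : 0 ≤ ∑ i, W i ^ 2 := sum_nonneg fun _ _ => sq_nonneg _
      have a1 : τ ^ 2 * ∑ i, W i ^ 2 < |W j| ^ 2 := by
        refine hj0.trans_le ?_
        rw [← sq_abs]; exact pow_le_pow_left₀ (abs_nonneg _) (hj j0 (mem_univ _)) 2
      have a2 : 0 < |W j| := by
        refine (abs_nonneg _).lt_of_ne fun e => ?_
        rw [← e] at a1; nlinarith [sq_nonneg τ]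
      have a3 : j ∉ A := fun h => by simp [hW j h] at a2
      have a4 := E_mono fun y => heavy W (T y) j a2 fun i => hj i (mem_univ _)
      have a5 : 𝔼 y, 𝔼 y', sg (decide (T y ≤ lin W y')) * (W j / |W j| * sg (y' j)) =
          W j / |W j| * co g {j} := by
        rw [co, ← E_cmul, ← swap A (fun y => W j / |W j| * (g y * chi {j} y))]
        refine E_congr fun y => E_congr fun y' => ?_
        rw [H1, chi_single, piecewise_eq_of_notMem _ _ _ a3]; ring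
      rw [E_cmul, a5, E_sub, E_const] at a4
      have a6 : |W j / |W j| * co g {j}| ≤ 2 * μ := by
        rw [abs_mul, abs_div, abs_abs, div_self a2.ne', one_mul]; exact H5 j a3
      have a7 : 4 * (∑ i, W i ^ 2) / |W j| ^ 2 ≤ 4 / τ ^ 2 := by
        rw [div_le_div_iff₀ (by positivity) (by positivity)]; nlinarith
      have a8 : 0 ≤ 4 * (∑ i, W i ^ 2) / |W j| ^ 2 + 8 := by positivity
      refine a4.trans ((mul_le_mul_of_nonneg_left (le_of_abs_le a6) a8).trans ?_)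
      gcongr
  have h3 := (abs_le.mp (H2 Ψ hΨ1)).2
  have h4 : 𝔼 z, sg (F z) * Ψ (th z) = 𝔼 y, 𝔼 z, sg (F z) * sg (decide (th z ≤ lin W y)) := by
    rw [E_comm]; simp only [E_cmul]; rfl
  obtain ⟨y, -, hy⟩ := exists_le_of_le_expect univ_nonempty h4.le
  refine ⟨lin W y, ?_⟩
  rw [dst_eq]
  nlinarith

/-- The case of a regular tail. -/
lemma regular (F : (ι → Bool) → Bool) (g : (κ → Bool) → ℝ) (J : Finset ι) (A : Finset κ)
    (th : (ι → Bool) → ℝ) (T : (κ → Bool) → ℝ) (w a b : κ → ℝ) (τ μ Θ δ η η' s : ℝ)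
    (hμ : 0 ≤ μ) (hΘ : 0 < Θ) (hδ : 0 < δ) (hs : 0 < s)
    (hw : ∀ j ∈ A, w j = 0) (hr : Reg τ w)
    (H1 : ∀ y y', g (A.piecewise y y') = sg (decide (T y ≤ lin w y')))
    (H2 : |(𝔼 y, g y * cl Θ (T y)) - 𝔼 z, sg (F z) * cl Θ (th z)| ≤ Θ * μ)
    (H3 : ∀ Ψ : ℝ → ℝ, 𝔼 y, Ψ (T y) = 𝔼 z, Ψ (th z))
    (H4 : ∀ y y', T (A.piecewise y y') = T y)
    (H4' : ∀ z z', th (J.piecewise z z') = th z)
    (H5 : ∀ j ∉ A, co g {j} = a j + b j)
    (ha : ∑ j, a j ^ 2 ≤ ∑ i, ell (fun z => sg (F z)) J i ^ 2 + μ ^ 2) (hb : ∑ j, b j ^ 2 ≤ μ ^ 2)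
    (hl : ∀ i, |ell (fun z => sg (F z)) J i| ≤ τ * δ)
    (HU : ∀ v : ι ⊕ κ → ℝ, Reg τ v → ∀ θ, |θ| ≤ Θ →
      𝔼 p, |lin v p - θ| ≤ 𝔼 y, |lin w y - θ| + η)
    (HA : ∀ v : ι ⊕ κ → ℝ, Reg τ v → ∀ θ,
      𝔼 p, (if |lin v p - θ| ≤ s then (1 : ℝ) else 0) ≤ η') :
    ∃ (v : ι → ℝ) (c : ℝ), dst F (fun z => decide (th z ≤ lin v z + c)) ≤
      η' + (δ + η + 2 / Θ + 2 * μ + Θ * μ) / (2 * s) + 1 / Θ ^ 2 := by
  set l := ell (fun z => sg (F z)) J with hldef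
  have l0 : 0 ≤ ∑ i, l i ^ 2 := sum_nonneg fun _ _ => sq_nonneg _
  obtain ⟨L, L0, hL⟩ : ∃ L : ℝ, 0 ≤ L ∧ L ^ 2 = ∑ i, l i ^ 2 :=
    ⟨_, Real.sqrt_nonneg _, Real.sq_sqrt l0⟩
  obtain ⟨N, N0, hN⟩ : ∃ N : ℝ, 0 < N ∧ N ^ 2 = L ^ 2 + δ ^ 2 :=
    ⟨_, Real.sqrt_pos.mpr (by positivity), Real.sq_sqrt (by positivity)⟩
  have hδN : δ ≤ N := by nlinarith
  have hNL : N ≤ L + δ := by nlinarith
  set v1 : ι → ℝ := fun i => l i / N with hv1
  set v2 : κ → ℝ := fun j => δ * w j / N with hv2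
  have hτ : 0 ≤ τ := by
    by_contra hc
    have : ∀ j, w j = 0 := fun j => by
      have := (abs_nonneg _).trans (hr.2 j); exact absurd this hc
    have h1 := hr.1; simp [this] at h1
  have hreg : Reg τ (Sum.elim v1 v2) := by
    constructor
    · simp only [Fintype.sum_sum_type, Sum.elim_inl, Sum.elim_inr, hv1, hv2, div_pow, mul_pow,
        ← sum_div, ← mul_sum, hr.1, ← hL]
      rw [← add_div, mul_one, ← hN]; exact div_self (by positivity)
    · rintro (i | j)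
      · simp only [Sum.elim_inl, hv1, abs_div, abs_of_pos N0]
        rw [div_le_iff₀ N0]; exact (hl i).trans (by gcongr)
      · simp only [Sum.elim_inr, hv2, abs_div, abs_of_pos N0, abs_mul, abs_of_pos hδ]
        rw [div_le_iff₀ N0, mul_comm]
        exact mul_le_mul (hr.2 j) hδN hδ.le hτ
  have hv1J : ∀ i ∈ J, v1 i = 0 := fun i hi => by simp [hv1, hldef, ell, hi]
  have hsw : ∀ Φ : ℝ → ℝ → ℝ, 𝔼 y, 𝔼 z, Φ (lin v1 z + lin v2 y) (th z) =
      𝔼 z, 𝔼 p, Φ (lin (Sum.elim v1 v2) p) (th z) := by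
    intro Φ
    simp only [E_sumtype, lin_elim]
    rw [E_comm (fun z y => 𝔼 z', Φ (lin v1 z' + lin v2 y) (th z))]
    refine E_congr fun y => ?_
    rw [← swap J]
    simp only [lin_pw J v1 hv1J, H4']
  have B1 : (𝔼 y, 𝔼 y', |lin w y' - cl Θ (T y)|) - 2 / Θ ≤
      (𝔼 y, g y * lin w y) - 𝔼 y, g y * cl Θ (T y) := by
    rw [← E_sub, ← swap A (fun y => g y * lin w y - g y * cl Θ (T y))]
    simp only [H1, H4, lin_pw A w hw, ← mul_sub]
    refine le_trans (le_of_eq ?_) (E_mono fun y => E_mono fun y' => clamp1 hΘ (T y) (lin w y'))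
    simp only [E_sub, E_cmul, E_lin_sq, hr.1, E_const, mul_one]
  have B2 : 𝔼 y, g y * lin w y ≤ L + 2 * μ := by
    rw [E_lin_mul]
    have e : ∑ j, w j * co g {j} = ∑ j, w j * a j + ∑ j, w j * b j := by
      rw [← sum_add_distrib]
      refine sum_congr rfl fun j _ => ?_
      by_cases h : j ∈ A
      · simp [hw j h]
      · rw [H5 j h]; ring
    have c1 := sum_mul_sq_le_sq_mul_sq univ w a
    have c2 := sum_mul_sq_le_sq_mul_sq univ w b
    rw [hr.1, one_mul] at c1 c2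
    have d1 : ∑ j, w j * a j ≤ L + μ :=
      (abs_le_of_sq_le_sq' (by nlinarith [mul_nonneg L0 hμ]) (by positivity)).2
    have d2 : ∑ j, w j * b j ≤ μ := (abs_le_of_sq_le_sq' (c2.trans hb) hμ).2
    linarith
  have B4 : 𝔼 y, 𝔼 z, |lin v1 z + lin v2 y - cl Θ (th z)| ≤
      (𝔼 y, 𝔼 y', |lin w y' - cl Θ (T y)|) + η := by
    rw [hsw (fun V t => |V - cl Θ t|), H3 (fun t => 𝔼 y', |lin w y' - cl Θ t|)]
    refine (E_mono fun z => HU _ hreg _ (cl_abs hΘ _)).trans ?_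
    rw [E_add, E_const]
  have B5 : L - δ - 𝔼 z, sg (F z) * cl Θ (th z) ≤
      𝔼 y, 𝔼 z, sg (F z) * (lin v1 z + lin v2 y - cl Θ (th z)) := by
    simp only [mul_sub, mul_add, E_sub, E_add, E_mulc, E_const, E_cmul, E_lin, E_lin_mul]
    have e : ∑ i, v1 i * co (fun z => sg (F z)) {i} = L ^ 2 / N := by
      rw [hL, sum_div]
      refine sum_congr rfl fun i _ => ?_
      simp only [hv1, hldef, ell]; split_ifs <;> ring
    have : L - δ ≤ L ^ 2 / N := by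
      rw [le_div_iff₀ N0]
      rcases le_total L δ with c | c <;> nlinarith
    rw [e]; linarith
  have B6 : 𝔼 y, 𝔼 z, (if |lin v1 z + lin v2 y - cl Θ (th z)| ≤ s then (1 : ℝ) else 0) ≤ η' := by
    rw [hsw (fun V t => if |V - cl Θ t| ≤ s then (1 : ℝ) else 0)]
    exact E_le fun z => HA _ hreg _
  have B7 : 𝔼 y, 𝔼 z, (lin v1 z + lin v2 y) ^ 2 = 1 := by
    rw [hsw (fun V _ => V ^ 2)]
    simp only [E_lin_sq, hreg.1, E_const]
  have key := E_mono fun y : κ → Bool => E_mono fun z : ι → Bool =>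
    clamp2 hΘ hs (F z) (th z) (lin v1 z + lin v2 y)
  simp only [E_add (fun z => _ + _), E_add (fun z => ite _ _ _), E_add (fun z => 𝔼 _, ite _ _ _),
    E_div, E_sub (fun z => |_|), E_sub (fun y => 𝔼 _, |_|)] at key
  rw [B7] at key
  have fin : 𝔼 y, dst F (fun z => decide (th z ≤ lin v1 z + lin v2 y)) ≤
      η' + (δ + η + 2 / Θ + 2 * μ + Θ * μ) / (2 * s) + 1 / Θ ^ 2 := by
    refine key.trans (add_le_add (add_le_add B6 ?_) le_rfl)
    refine div_le_div_of_nonneg_right ?_ (by positivity)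
    linarith [(abs_le.mp H2).1]
  obtain ⟨y, -, hy⟩ := exists_le_of_expect_le univ_nonempty fin
  exact ⟨v1, lin v2 y, hy⟩

end Pool.Agent.H37.Lt
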