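import Pool.Agent.H37.Lt5

/-! The block cube test rejects functions that are far from halfspaces. -/

open scoped BigOperators
open Finset

namespace Pool.Agent.H37.Lt

lemma close (ε : ℝ) (hε : 0 < ε) : ∃ μ > 0, ∃ t > 0, ∀ (ι κ : Type) [Fintype ι] [DecidableEq ι]
    [Fintype κ] [DecidableEq κ] (F : (ι → Bool) → Bool) (J : Finset ι) (x : ι → Bool) (π : ι → κ),
    (∀ i ∉ J, |co (fun z => sg (F z)) {i}| ≤ t) → Err (fun z => sg (F z)) J x π < μ ^ 4 →
    (∃ (w : ι → ℝ) (θ : ℝ), ∀ y, F (pt x π y) = decide (θ ≤ lin w (pt x π y))) →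
    ∃ h, IsL h ∧ dst F h < ε := by
  obtain ⟨s, hs, τ1, hτ1, HA⟩ := anti (ε / 4) (by positivity)
  set δ := s * ε / 8 with hδdef
  have hδ : 0 < δ := by positivity
  set Θ := 2 / δ + 4 / ε + 1 with hΘdef
  have q1 : 0 < 2 / δ := by positivity
  have q2 : 0 < 4 / ε := by positivity
  have hΘ : 0 < Θ := by positivity
  have hΘ1 : 2 / Θ ≤ δ := by
    rw [div_le_iff₀ hΘ, mul_comm, ← div_le_iff₀ hδ]; linarith
  have hΘ2 : 1 / Θ ^ 2 ≤ ε / 4 := by
    have a : 4 / ε ≤ Θ ^ 2 := by nlinarith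
    rw [div_le_iff₀ hε] at a
    rw [div_le_div_iff₀ (by positivity) (by positivity)]; linarith
  obtain ⟨τ2, hτ2, HU⟩ := universal δ Θ hδ
  set τ := min τ1 τ2 with hτdef
  have hτ : 0 < τ := lt_min hτ1 hτ2
  set μ := min 1 (min (δ / (2 + Θ)) (ε / 2 / (4 / τ ^ 2 + 9))) with hμdef
  have hμ : 0 < μ := lt_min one_pos (lt_min (by positivity) (by positivity))
  have m1 : μ ≤ 1 := min_le_left _ _
  have m2 : μ * (2 + Θ) ≤ δ := by
    rw [← le_div_iff₀ (by positivity)]; exact (min_le_right _ _).trans (min_le_left _ _)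
  have m3 : μ * (4 / τ ^ 2 + 9) ≤ ε / 2 := by
    rw [← le_div_iff₀ (by positivity)]; exact (min_le_right _ _).trans (min_le_right _ _)
  have m4 : μ ^ 4 ≤ μ ^ 2 := pow_le_pow_of_le_one hμ.le m1 (by norm_num)
  have m5 : μ ^ 4 ≤ 1 := pow_le_one₀ hμ.le m1
  refine ⟨μ, hμ, τ * δ, by positivity, ?_⟩
  intro ι κ _ _ _ _ F J x π hJ hE ⟨w, θ, hw⟩
  set f : (ι → Bool) → ℝ := fun z => sg (F z) with hf
  have p1 : 0 ≤ ∑ j, bb f x π j ^ 2 := sum_nonneg fun _ _ => sq_nonneg _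
  have p2 : 0 ≤ 𝔼 y, dd f J x π y ^ 2 := E_nonneg fun _ => sq_nonneg _
  have p3 := sq_nonneg (∑ j, aa f J x π j ^ 2 - ∑ i, ell f J i ^ 2)
  have p4 : 0 ≤ ∑ j, aa f J x π j ^ 4 := sum_nonneg fun _ _ => by positivity
  unfold Err at hE
  have hπ : Set.InjOn π J := by
    by_contra hc
    rw [if_neg hc] at hE; linarith
  rw [if_pos hπ] at hE
  have hb : ∑ j, bb f x π j ^ 2 ≤ μ ^ 2 := by linarith
  have hd : 𝔼 y, dd f J x π y ^ 2 ≤ μ ^ 2 := by linarith
  have ha : ∑ j, aa f J x π j ^ 2 ≤ ∑ i, ell f J i ^ 2 + μ ^ 2 := by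
    have := (abs_le_of_sq_le_sq' (show (∑ j, aa f J x π j ^ 2 - ∑ i, ell f J i ^ 2) ^ 2 ≤
      (μ ^ 2) ^ 2 by linarith) (by positivity)).2
    linarith
  have hb' : ∀ j, |bb f x π j| ≤ μ := fun j =>
    abs_le.mpr (abs_le_of_sq_le_sq' ((single_le_sum (f := fun j => bb f x π j ^ 2)
      (fun _ _ => sq_nonneg _) (mem_univ j)).trans hb) hμ.le)
  have ha' : ∀ j, |aa f J x π j| ≤ μ := by
    intro j
    have a1 := single_le_sum (f := fun j => aa f J x π j ^ 4) (s := univ)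
      (fun _ _ => by positivity) (mem_univ j)
    have a2 : aa f J x π j ^ 2 ≤ μ ^ 2 :=
      (abs_le_of_sq_le_sq' (show (aa f J x π j ^ 2) ^ 2 ≤ (μ ^ 2) ^ 2 by linarith) (by positivity)).2
    exact abs_le.mpr (abs_le_of_sq_le_sq' a2 hμ.le)
  set A := J.image π with hA
  set W : κ → ℝ := fun j => ∑ i, if π i = j then w i * sg (x i) else 0 with hW
  set Wt : κ → ℝ := fun j => if j ∈ A then 0 else W j with hWt
  set u : ι → ℝ := fun i => if i ∈ J then W (π i) * sg (x i) else 0 with hu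
  set g : (κ → Bool) → ℝ := fun y => f (pt x π y) with hg
  have hWA : ∀ j ∈ A, Wt j = 0 := fun j hj => if_pos hj
  have huJ : ∀ i ∉ J, u i = 0 := fun i hi => if_neg hi
  have e1 : ∀ y, lin w (pt x π y) = lin W y := by
    intro y
    simp only [lin, hW, sum_mul]
    rw [sum_comm]
    refine sum_congr rfl fun i _ => ?_
    rw [sum_eq_single (π i)] <;> simp +contextual [pt, sg_beq, eq_comm, mul_assoc]
  have e2 : ∀ y, lin u (pt x π y) = ∑ j ∈ A, W j * sg (y j) := by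
    intro y
    rw [hA, sum_image hπ, lin, ← sum_subset (subset_univ J) fun i _ hi => by rw [huJ i hi, zero_mul]]
    refine sum_congr rfl fun i hi => ?_
    simp only [hu, if_pos hi, pt, sg_beq]
    rw [mul_assoc, ← mul_assoc (sg (x i)), sg_mul_self, one_mul]
  have e3 : ∀ y y', lin W (A.piecewise y y') = lin u (pt x π y) + lin Wt y' := by
    intro y y'
    rw [e2, ← sum_ite_mem_eq, lin, lin, ← sum_add_distrib]
    refine sum_congr rfl fun j _ => ?_
    by_cases h : j ∈ A <;> simp [hWt, h, piecewise]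
  have e4 : ∀ y y', lin u (pt x π (A.piecewise y y')) = lin u (pt x π y) := by
    intro y y'
    rw [e2, e2]
    exact sum_congr rfl fun j hj => by rw [piecewise_eq_of_mem _ _ _ hj]
  have H1 : ∀ y y', g (A.piecewise y y') = sg (decide (θ - lin u (pt x π y) ≤ lin Wt y')) := by
    intro y y'
    simp only [hg, hf, hw, e1, e3, sub_le_iff_le_add']
  have H2 : ∀ (Ψ : ℝ → ℝ) (B : ℝ), 0 ≤ B → (∀ t, |Ψ t| ≤ B) →
      |(𝔼 y, g y * Ψ (lin u (pt x π y))) - 𝔼 z, sg (F z) * Ψ (lin u z)| ≤ B * μ :=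
    fun Ψ B hB hΨ => transfer f J x π hπ (fun z => Ψ (lin u z))
      (fun z z' => by rw [lin_pw' J u huJ]) B μ hB hμ.le (fun _ => hΨ _) hd
  have H3 : ∀ Ψ : ℝ → ℝ, 𝔼 y, Ψ (lin u (pt x π y)) = 𝔼 z, Ψ (lin u z) :=
    fun Ψ => unif J x π hπ (fun z => Ψ (lin u z)) fun z z' => by rw [lin_pw' J u huJ]
  have H5 : ∀ j ∉ A, co g {j} = aa f J x π j + bb f x π j := by
    intro j hj
    have : (fun i => if π i = j then ell f J i else 0) = fun i => if π i = j then co f {i} else 0 := by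
      funext i
      split_ifs with h
      · exact if_neg fun hi => hj (h ▸ mem_image_of_mem π hi)
      · rfl
    rw [aa, bb, this]; ring
  by_cases hc : (∀ j, Wt j = 0) ∨ ∃ j, τ ^ 2 * ∑ i, Wt i ^ 2 < Wt j ^ 2
  · obtain ⟨c, h⟩ := irregular F g A (fun z => θ - lin u z) (fun y => θ - lin u (pt x π y)) Wt τ μ
      hτ hμ.le hWA H1 (fun Ψ hΨ => by simpa using H2 (fun r => Ψ (θ - r)) 1 zero_le_one fun _ => hΨ _)
      (fun y y' => by simp only [e4]) (fun j hj => by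
        rw [H5 j hj]; refine (abs_add_le _ _).trans ?_; linarith [ha' j, hb' j]) hc
    refine ⟨_, ⟨u, θ - c, fun z => decide_eq_decide.mpr ?_⟩, h.trans_lt (by linarith)⟩
    constructor <;> intro <;> linarith
  · push Not at hc
    obtain ⟨⟨j0, hj0⟩, hc⟩ := hc
    have n0 : 0 < ∑ i, Wt i ^ 2 :=
      sum_pos' (fun _ _ => sq_nonneg _) ⟨j0, mem_univ _, by positivity⟩
    obtain ⟨N, N0, hN⟩ : ∃ N : ℝ, 0 < N ∧ N ^ 2 = ∑ i, Wt i ^ 2 :=
      ⟨_, Real.sqrt_pos.mpr n0, Real.sq_sqrt n0.le⟩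
    have hr : Reg τ fun j => Wt j / N := by
      constructor
      · simp only [div_pow, ← sum_div, ← hN]; exact div_self (by positivity)
      · intro j
        rw [abs_div, abs_of_pos N0, div_le_iff₀ N0]
        refine abs_le.mpr (abs_le_of_sq_le_sq' ?_ (by positivity))
        rw [mul_pow, hN]; exact hc j
    obtain ⟨v, c, h⟩ := regular F g J A (fun z => (θ - lin u z) / N)
      (fun y => (θ - lin u (pt x π y)) / N) (fun j => Wt j / N) (aa f J x π) (bb f x π)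
      τ μ Θ δ δ (ε / 4) s hμ.le hΘ hδ hs (fun j hj => by simp [hWA j hj]) hr
      (fun y y' => by rw [H1, lin_div]; simp only [div_le_div_iff_of_pos_right N0])
      (H2 (fun r => cl Θ ((θ - r) / N)) Θ hΘ.le fun _ => cl_abs hΘ _)
      (fun Ψ => H3 fun r => Ψ ((θ - r) / N)) (fun y y' => by simp only [e4])
      (fun z z' => by simp only [lin_pw' J u huJ]) H5 ha hb
      (fun i => by
        unfold ell; split_ifs with h
        · rw [abs_zero]; positivity
        · exact hJ i h)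
      (fun v hv θ hθ => HU _ _ v _ (hv.mono (min_le_right _ _)) (hr.mono (min_le_right _ _)) θ hθ)
      (fun v hv θ => HA _ v (hv.mono (min_le_left _ _)) θ)
    refine ⟨_, ⟨fun i => v i + u i / N, θ / N - c, fun z => decide_eq_decide.mpr ?_⟩,
      h.trans_lt ?_⟩
    · have : lin (fun i => v i + u i / N) z = lin v z + lin u z / N := by
        rw [← lin_div]; simp only [lin, add_mul, sum_add_distrib]
      rw [this, sub_div]
      constructor <;> intro <;> linarith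
    · have : (δ + δ + 2 / Θ + 2 * μ + Θ * μ) / (2 * s) ≤ ε / 4 := by
        rw [div_le_iff₀ (by positivity)]; linarith
      linarith

open Classical in
lemma test (ε : ℝ) (hε : 0 < ε) : ∃ k : ℕ, ∀ (ι : Type) [Fintype ι] [DecidableEq ι]
    (F : (ι → Bool) → Bool), (∀ h, IsL h → ε ≤ dst F h) →
    (2 : ℝ) / 3 ≤ 𝔼 p : (ι → Fin (k + 1)) × (ι → Bool), if ∃ (w : ι → ℝ) (θ : ℝ),
      ∀ y, F (pt p.2 p.1 y) = decide (θ ≤ lin w (pt p.2 p.1 y)) then (0 : ℝ) else 1 := by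
  obtain ⟨μ, hμ, t0, ht0, H⟩ := close ε hε
  set t := min t0 (μ ^ 2 / 6) with ht
  have tp : 0 < t := lt_min ht0 (by positivity)
  have t1 : 5 * t ^ 2 ≤ μ ^ 4 / 6 := by
    have : t ^ 2 ≤ (μ ^ 2 / 6) ^ 2 := pow_le_pow_left₀ tp.le (min_le_right _ _) 2
    nlinarith [sq_nonneg (μ ^ 2)]
  set M := 1 / t ^ 2 with hM
  obtain ⟨k, hk⟩ := exists_nat_gt ((13 + M + M ^ 2) / (μ ^ 4 / 6))
  refine ⟨k, fun ι _ _ F hF => ?_⟩
  set f : (ι → Bool) → ℝ := fun z => sg (F z) with hf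
  have f1 : ∀ z, f z ^ 2 = 1 := fun z => sg_sq _
  set J := univ.filter fun i => t < |co f {i}| with hJ
  have hJ1 : ∀ i ∉ J, |co f {i}| ≤ t := fun i hi => by simpa [hJ] using hi
  have hJ2 : (J.card : ℝ) ≤ M := by
    rw [hM, le_div_iff₀ (by positivity), ← nsmul_eq_mul]
    refine (card_nsmul_le_sum J (fun i => co f {i} ^ 2) _ fun i hi => ?_).trans
      ((sum_le_univ_sum_of_nonneg fun _ => sq_nonneg _).trans (lin_sq_le f f1))
    rw [← sq_abs (co f {i})]
    exact pow_le_pow_left₀ tp.le (mem_filter.mp hi).2.le 2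
  have hE := Err_le (κ := Fin (k + 1)) f f1 J t tp.le hJ1
  have hE2 : (13 + J.card + J.card ^ 2 : ℝ) / Fintype.card (Fin (k + 1)) ≤ μ ^ 4 / 6 := by
    rw [div_lt_iff₀ (by positivity)] at hk
    rw [Fintype.card_fin, div_le_iff₀ (by positivity)]
    have : (J.card : ℝ) ^ 2 ≤ M ^ 2 := by gcongr
    push_cast
    nlinarith [pow_pos hμ 4]
  have key : ∀ p : (ι → Fin (k + 1)) × (ι → Bool), 1 - Err f J p.2 p.1 / μ ^ 4 ≤
      if ∃ (w : ι → ℝ) (θ : ℝ), ∀ y, F (pt p.2 p.1 y) = decide (θ ≤ lin w (pt p.2 p.1 y))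
      then (0 : ℝ) else 1 := by
    intro p
    split_ifs with h
    · rw [sub_nonpos, one_le_div (by positivity)]
      by_contra hc
      obtain ⟨g, hg, hd⟩ := H ι _ F J p.2 p.1 (fun i hi => (hJ1 i hi).trans (min_le_left _ _))
        (not_le.mp hc) h
      exact absurd (hF g hg) (not_le.mpr hd)
    · refine sub_le_self _ (div_nonneg ?_ (by positivity))
      unfold Err
      have p2 : 0 ≤ 𝔼 y, dd f J p.2 p.1 y ^ 2 := E_nonneg fun _ => sq_nonneg _
      positivity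
  refine le_trans ?_ (E_mono key)
  rw [E_sub, E_const, E_div, E_prod]
  have : (𝔼 π : ι → Fin (k + 1), 𝔼 x, Err f J x π) / μ ^ 4 ≤ 1 / 3 := by
    rw [div_le_iff₀ (by positivity)]; linarith
  linarith

end Pool.Agent.H37.Lt
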