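import Mathlib

set_option autoImplicit false

namespace Pool.Agent.H37.Med

/-- the group element represented by a word in the generators and their inverses -/
def ev {G : Type} [Group G] {r : ℕ} (gens : Fin r → G) (w : List (Fin r × Bool)) : G :=
  (w.map fun p => cond p.2 (gens p.1) (gens p.1)⁻¹).prod

/-- the sequence of values of a configuration along the standard enumeration of words -/
def hat {G : Type} [Group G] {r k : ℕ} (gens : Fin r → G) (x : G → Fin k) (n : ℕ) : ℕ :=
  (Encodable.decode n : Option (List (Fin r × Bool))).elim 0 fun w => (x (ev gens w)).val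

/-- nonempty effectively closed subsets of Cantor space -/
def Pi01 (P : Set (ℕ → ℕ)) : Prop :=
  P.Nonempty ∧ ∃ c : List ℕ → Bool, Computable c ∧
    P = {x | (∀ n, x n ≤ 1) ∧ ∀ m, c ((List.range m).map x) = false}

/-- weak reducibility: every member of `Q` computes a member of `P` -/
def Weak (P Q : Set (ℕ → ℕ)) : Prop :=
  ∀ q ∈ Q, ∃ p ∈ P, TuringReducible (fun n => Part.some (p n)) (fun n => Part.some (q n))

end Pool.Agent.H37.Med
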