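import Pool.Agent.H37.Lq3

/-! A thin class of rank one whose tree of extendible nodes has a given c.e. degree. -/

set_option autoImplicit false

namespace Pool.Agent.H37.Mx

open Filter Rnd Encodable Hd Attr

abbrev St := List Bool × List ℕ

def hit (e s : ℕ) (σ : List Bool) : Bool :=
  (List.range (σ.length + 1)).any fun j => (ev e (encode (σ.take j)) s).isSome

section
variable (D : ℕ × ℕ → Bool) (F : ℕ → St)

def kd (i u : ℕ) : Bool :=
  decide (i < u) && (D ((F i).2.length, u) && (u == i + 1 || !D ((F i).2.length, u - 1)))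

def db (i u : ℕ) : Bool := (F u).1.take (i + 1) != (F i).1 ++ [true]

def alive (s : ℕ) (σ : List Bool) : Bool := (List.range σ.length).all fun i =>
  cond (σ.take i == (F i).1)
    ((List.range (s + 1)).all fun u => !kd D F i u || σ.getD i false != db F i u) (!σ.getD i false)

def mm (s e : ℕ) : ℕ := (F s).2.getD e s

def rq (e s : ℕ) (σ : List Bool) : Bool :=
  alive D F s σ && (σ.take (mm F s e) == (F s).1.take (mm F s e) &&
    (hit e s σ && !hit e s ((F s).1.take (mm F s (e + 1)))))

def act (s : ℕ) : Option (ℕ × List Bool) :=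
  ((List.range (F s).2.length).flatMap fun e =>
    ((W s).filter (rq D F e s)).map fun σ => (e, σ)).head?

def nxt (s : ℕ) : St := (act D F s).elim ((F s).1 ++ [false], (F s).2 ++ [s])
  fun p => (p.2 ++ [false], (F s).2.take (p.1 + 1))

def Req (e s : ℕ) (σ : List Bool) : Prop :=
  e < (F s).2.length ∧ σ.length = s ∧ rq D F e s σ = true

def Al (σ : List Bool) : Prop := ∀ s, alive D F s σ = true

def TS (e l : ℕ) : Prop := (F l).2.length = e ∧ ∀ u, l ≤ u → ∀ e' σ, Req D F e' u σ → e ≤ e'

end

variable {D : ℕ × ℕ → Bool} {F : ℕ → St}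

theorem alive_iff {s : ℕ} {σ : List Bool} : alive D F s σ = true ↔ ∀ ρ c, ρ ++ [c] <+: σ →
    (c = true → ρ = (F ρ.length).1) ∧
      ∀ u ≤ s, kd D F ρ.length u = true → ρ = (F ρ.length).1 → c ≠ db F ρ.length u := by
  simp only [alive, List.all_eq_true, List.mem_range]
  constructor
  · rintro h ρ c ⟨τ, rfl⟩
    have := h ρ.length (by simp)
    simp only [List.append_assoc, List.take_left', List.cons_append, List.nil_append,
      List.getD_append_right _ _ _ _ le_rfl, Nat.sub_self, List.getD_cons_zero] at this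
    by_cases e : ρ = (F ρ.length).1
    · rw [beq_iff_eq.2 e] at this
      simp only [cond_true, List.all_eq_true, List.mem_range] at this
      exact ⟨fun _ => e, fun u hu h1 _ => by simpa [h1] using this u (by omega)⟩
    · rw [beq_eq_false_iff_ne.2 e] at this
      exact ⟨fun h1 => by simp [h1] at this, fun _ _ _ h => absurd h e⟩
  · intro h i hi
    have := h (σ.take i) (σ.getD i false) (by
      rw [List.getD_eq_getElem _ _ hi, List.take_append_getElem hi]; exact List.take_prefix _ _)
    rw [List.length_take, min_eq_left hi.le] at this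
    by_cases e : σ.take i = (F i).1
    · rw [beq_iff_eq.2 e]
      simp only [cond_true, List.all_eq_true, List.mem_range]
      intro u hu
      cases h1 : kd D F i u
      · rfl
      · simpa using this.2 u (by omega) h1 e
    · rw [beq_eq_false_iff_ne.2 e]
      simpa using mt this.1 e

theorem nxt_congr {G : ℕ → St} {s : ℕ} (h : ∀ i ≤ s, F i = G i) : nxt D F s = nxt D G s := by
  have : act D F s = act D G s := by
    unfold act
    rw [h s le_rfl]
    refine congrArg _ (List.flatMap_congr fun e _ => congrArg _ (List.filter_congr fun σ hσ => ?_))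
    unfold rq mm
    rw [h s le_rfl]
    refine congrArg (· && _) (Bool.eq_iff_iff.2 ?_)
    rw [alive_iff, alive_iff]
    refine forall₃_congr fun ρ c hρ => ?_
    have h1 : ρ.length ≤ s := by have := hρ.length_le; simp [mem_W.1 hσ] at this; omega
    rw [h _ h1]
    refine and_congr_right fun _ => forall₂_congr fun u hu => ?_
    unfold kd db
    rw [h _ h1, h _ hu]
  unfold nxt
  rw [this, h s le_rfl]

section
variable {α : Type} [Primcodable α] {O : Set (ℕ →. ℕ)}

@[fun_prop] theorem ci_hit {e s : α → ℕ} {σ : α → List Bool} (h1 : CI O e) (h2 : CI O s)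
    (h3 : CI O σ) : CI O fun a => hit (e a) (s a) (σ a) := by unfold hit; fun_prop

theorem ci_alive {G : α → ℕ → St} (hD : CI O D) (hG : CI O fun q : α × ℕ => G q.1 q.2) :
    CI O fun q : α × ℕ × List Bool => alive D (G q.1) q.2.1 q.2.2 := by
  obtain ⟨G', h1, h2⟩ : ∃ G' : α × ℕ → St, CI O G' ∧ ∀ a i, G a i = G' (a, i) :=
    ⟨_, hG, fun _ _ => rfl⟩
  simp only [alive, kd, db, h2]
  fun_prop
end

theorem exists_F (hD : CI ∅ D) :
    ∃ F : ℕ → St, CI ∅ F ∧ F 0 = ([], []) ∧ ∀ s, F (s + 1) = nxt D F s := by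
  obtain ⟨a, h1, h2⟩ : ∃ a : List St × ℕ × List Bool → Bool, CI ∅ a ∧
      ∀ H s σ, alive D (fun i => H.getD i ([], [])) s σ = a (H, s, σ) :=
    ⟨_, ci_alive (G := fun (H : List St) i => H.getD i ([], [])) hD (by fun_prop), fun _ _ _ => rfl⟩
  obtain ⟨b, h3, h4⟩ : ∃ b : List St × ℕ → Option (ℕ × List Bool), CI ∅ b ∧
      ∀ H s, act D (fun i => H.getD i ([], [])) s = b (H, s) :=
    ⟨fun q => act D (fun i => q.1.getD i ([], [])) q.2, by
      unfold act rq mm; simp only [h2]; fun_prop, fun _ _ => rfl⟩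
  obtain ⟨Hs, h5, h6⟩ : ∃ Hs : ℕ → List St, Hs 0 = [([], [])] ∧
      ∀ s, Hs (s + 1) = Hs s ++ [nxt D (fun i => (Hs s).getD i ([], [])) s] :=
    ⟨fun s => s.rec [([], [])] fun s H => H ++ [nxt D (fun i => H.getD i ([], [])) s], rfl,
      fun _ => rfl⟩
  have h7 : CI ∅ Hs := CI.of_rec1 (h := fun s H => H ++ [nxt D (fun i => H.getD i ([], [])) s])
    (by simp only [nxt, h4]; fun_prop) h6
  have h8 : ∀ s, Hs s = pre (fun s => (Hs s).getD s ([], [])) (s + 1) := fun s => by
    induction s with
    | zero => simp [h5, pre]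
    | succ s ih =>
      rw [pre_succ, ← ih, h6, List.getD_append_right _ _ _ _ (by rw [ih]; simp)]
      simp [show (Hs s).length = s + 1 by rw [ih]; simp]
  refine ⟨fun s => (Hs s).getD s ([], []), by fun_prop, by simp [h5], fun s => ?_⟩
  beta_reduce
  rw [h6, List.getD_append_right _ _ _ _ (by rw [h8]; simp),
    show (Hs s).length = s + 1 by rw [h8]; simp, Nat.sub_self, List.getD_cons_zero]
  exact nxt_congr fun i hi => by rw [h8 s, getD_pre _ (by omega)]

theorem step (hF : ∀ s, F (s + 1) = nxt D F s) (s : ℕ) : ∃ e σ, (F (s + 1)).1 = σ ++ [false] ∧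
    (F (s + 1)).2.length = e + 1 ∧ (∀ i, mm F (s + 1) i = if i ≤ e then mm F s i else s + 1) ∧
    (∀ e' σ', Req D F e' s σ' → e ≤ e') ∧
    ((e = (F s).2.length ∧ σ = (F s).1) ∨ Req D F e s σ) := by
  have key : ∀ e' σ', Req D F e' s σ' → ∃ p, act D F s = some p ∧ p.1 ≤ e' := fun e' σ' h => by
    obtain ⟨e, h1, p, h2, h3⟩ := Lq.hd_flat (fun e => ((W s).filter (rq D F e s)).map
      fun σ => (e, σ)) h.1 (List.ne_nil_of_mem (List.mem_map.2
        ⟨σ', List.mem_filter.2 ⟨mem_W.2 h.2.1, h.2.2⟩, rfl⟩))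
    obtain ⟨σ, -, rfl⟩ := List.mem_map.1 h2
    exact ⟨_, h3, h1⟩
  cases e : act D F s with
  | none =>
    refine ⟨_, _, by simp [hF, nxt, e], by simp [hF, nxt, e], fun i => ?_, fun e' σ' h => ?_,
      Or.inl ⟨rfl, rfl⟩⟩
    · simp only [mm, hF, nxt, e, Option.elim_none]
      rcases lt_trichotomy i (F s).2.length with h | rfl | h
      · simp [h, h.le, List.getElem?_append_left h]
      · simp
      · simp [h.not_ge, List.getElem?_eq_none (show ((F s).2 ++ [s]).length ≤ i by simpa using h)]
    · obtain ⟨p, h1, -⟩ := key _ _ h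
      simp [e] at h1
  | some p =>
    have h1 := List.mem_of_mem_head? (show p ∈ act D F s from e)
    simp only [List.mem_flatMap, List.mem_range, List.mem_map, List.mem_filter, mem_W] at h1
    obtain ⟨a, h1, σ, h2, rfl⟩ := h1
    refine ⟨a, σ, by simp [hF, nxt, e], by simp [hF, nxt, e]; omega, fun i => ?_,
      fun e' σ' h => ?_, Or.inr ⟨h1, h2⟩⟩
    · simp only [mm, hF, nxt, e, Option.elim_some]
      split_ifs with h
      · simp [List.getElem?_take, show i < a + 1 by omega, show i < (F s).2.length by omega]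
      · simp [List.getElem?_take, show ¬ i < a + 1 by omega]
    · obtain ⟨p, h3, h4⟩ := key _ _ h
      rw [e] at h3
      cases h3
      exact h4

end Pool.Agent.H37.Mx
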