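import Pool.Agent.H37.Mx1

/-! Verification of the construction. -/

set_option autoImplicit false

namespace Pool.Agent.H37.Mx

open Filter Rnd Encodable Hd Attr

structure Con (D : ℕ × ℕ → Bool) (F : ℕ → St) : Prop where
  h0 : F 0 = ([], [])
  hF : ∀ s, F (s + 1) = nxt D F s
  mono : ∀ a s t, s ≤ t → D (a, s) = true → D (a, t) = true

variable {D : ℕ × ℕ → Bool} {F : ℕ → St}

theorem hit_iff {e s : ℕ} {σ : List Bool} :
    hit e s σ = true ↔ ∃ ρ, ρ <+: σ ∧ (ev e (encode ρ) s).isSome = true := by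
  simp only [hit, List.any_eq_true, List.mem_range]
  exact ⟨fun ⟨j, _, h⟩ => ⟨_, List.take_prefix _ _, h⟩, fun ⟨ρ, h1, h2⟩ =>
    ⟨ρ.length, by have := h1.length_le; omega, by rwa [← List.prefix_iff_eq_take.1 h1]⟩⟩

theorem hit_mono {e s t : ℕ} {σ τ : List Bool} (h : s ≤ t) (h' : σ <+: τ)
    (h1 : hit e s σ = true) : hit e t τ = true := by
  obtain ⟨ρ, h2, h3⟩ := hit_iff.1 h1
  obtain ⟨v, hv⟩ := Option.isSome_iff_exists.1 h3
  exact hit_iff.2 ⟨ρ, h2.trans h', by simp [ev_mono h hv]⟩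

theorem alive_mono {s t : ℕ} {σ τ : List Bool} (h : s ≤ t) (h' : σ <+: τ)
    (h1 : alive D F t τ = true) : alive D F s σ = true :=
  alive_iff.2 fun ρ c h2 => (alive_iff.1 h1 ρ c (h2.trans h')).imp_right fun h3 u hu =>
    h3 u (hu.trans h)

theorem Al.pf {σ τ : List Bool} (h : Al D F τ) (h' : σ <+: τ) : Al D F σ :=
  fun s => alive_mono le_rfl h' (h s)

theorem al_snoc {σ : List Bool} {c : Bool} : Al D F (σ ++ [c]) ↔ Al D F σ ∧
    (c = true → σ = (F σ.length).1) ∧
      ∀ u, kd D F σ.length u = true → σ = (F σ.length).1 → c ≠ db F σ.length u := by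
  refine ⟨fun h => ⟨h.pf (List.prefix_append _ _), (alive_iff.1 (h 0) _ _ List.prefix_rfl).1,
    fun u => (alive_iff.1 (h u) _ _ List.prefix_rfl).2 u le_rfl⟩,
    fun h s => alive_iff.2 fun ρ d h1 => ?_⟩
  rcases List.prefix_concat_iff.1 h1 with h2 | h2
  · obtain ⟨rfl, h3⟩ := List.append_inj' h2 rfl
    obtain rfl : d = c := by simpa using h3
    exact ⟨h.2.1, fun u _ => h.2.2 u⟩
  · exact alive_iff.1 (h.1 s) ρ d h2

theorem db_ne {ρ : List Bool} {c : Bool} {u : ℕ} (h : ρ ++ [c] <+: (F u).1)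
    (h' : ρ = (F ρ.length).1) : c ≠ db F ρ.length u := by
  have := List.prefix_iff_eq_take.1 h
  simp only [List.length_append, List.length_singleton] at this
  unfold db
  rw [← this, ← h']
  cases c <;> simp

theorem kd_iff {i u : ℕ} : kd D F i u = true ↔ i < u ∧ D ((F i).2.length, u) = true ∧
    (u = i + 1 ∨ D ((F i).2.length, u - 1) = false) := by simp [kd]

theorem kd_ex {i t : ℕ} (hi : i < t) (h : D ((F i).2.length, t) = true) :
    ∃ u, kd D F i u = true := by
  induction t with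
  | zero => omega
  | succ t ih =>
    by_cases h1 : t = i ∨ D ((F i).2.length, t) = false
    · exact ⟨t + 1, kd_iff.2 ⟨hi, h, by simpa using h1⟩⟩
    · exact ih (by omega) (by simpa using (not_or.1 h1).2)

namespace Con
variable (h : Con D F)
include h

theorem kd_le {i u t : ℕ} (h1 : kd D F i u = true) (hi : i < t)
    (h2 : D ((F i).2.length, t) = true) : u ≤ t := by
  by_contra h3
  rcases (kd_iff.1 h1).2.2 with h4 | h4
  · omega
  · simp [h.mono _ _ (u - 1) (by omega) h2] at h4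

theorem len (s : ℕ) : (F s).1.length = s := by
  induction s with
  | zero => simp [h.h0]
  | succ s ih =>
    obtain ⟨e, σ, h1, -, -, -, ⟨-, rfl⟩ | h2⟩ := step h.hF s
    · simp [h1, ih]
    · simp [h1, h2.2.1]

theorem mm_mono (s : ℕ) : (∀ i, mm F s i ≤ s) ∧ ∀ i j, i ≤ j → mm F s i ≤ mm F s j := by
  induction s with
  | zero => simp [mm, h.h0]
  | succ s ih =>
    obtain ⟨e, σ, -, -, h1, -⟩ := step h.hF s
    refine ⟨fun i => ?_, fun i j hij => ?_⟩
    · have := ih.1 i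
      rw [h1]; split_ifs <;> omega
    · have := ih.1 i
      have := ih.2 i j hij
      rw [h1, h1]; split_ifs <;> omega

theorem alive_A (s : ℕ) : alive D F s (F s).1 = true := by
  induction s with
  | zero => simp [alive, h.h0]
  | succ s ih =>
    obtain ⟨e, σ, h1, -, -, -, h2⟩ := step h.hF s
    have h3 : σ.length = s ∧ alive D F s σ = true := by
      rcases h2 with ⟨-, rfl⟩ | h2
      · exact ⟨h.len s, ih⟩
      · exact ⟨h2.2.1, (Bool.and_eq_true_iff.1 h2.2.2).1⟩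
    refine alive_iff.2 fun ρ c hρ => ⟨fun hc => ?_, fun u hu h4 h5 => ?_⟩
    · rcases List.prefix_concat_iff.1 (h1 ▸ hρ) with h4 | h4
      · simp [hc] at h4
      · exact (alive_iff.1 h3.2 ρ c h4).1 hc
    · rcases hu.lt_or_eq with hu | rfl
      · refine (alive_iff.1 h3.2 ρ c (List.prefix_of_prefix_length_le (h1 ▸ hρ)
          (List.prefix_append _ _) ?_)).2 u (by omega) h4 h5
        have := (kd_iff.1 h4).1
        simp; omega
      · exact db_ne hρ h5

theorem keep {e l v : ℕ} (h1 : (F l).2.length = e) (h2 : l ≤ v)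
    (h3 : ∀ u, l ≤ u → u < v → ∀ e' σ, Req D F e' u σ → e ≤ e') :
    mm F v e = l ∧ (F l).1 <+: (F v).1 ∧ e ≤ (F v).2.length ∧ (l < v → e < (F v).2.length) := by
  induction v, h2 using Nat.le_induction with
  | base => exact ⟨by simp [mm, ← h1], List.prefix_rfl, h1.ge, by omega⟩
  | succ v hv ih =>
    obtain ⟨a1, a2, a3, -⟩ := ih fun u h4 h5 => h3 u h4 (by omega)
    obtain ⟨e', σ, b1, b2, b3, -, b4⟩ := step h.hF v
    have c1 : e ≤ e' ∧ (F l).1 <+: σ := by
      rcases b4 with ⟨rfl, rfl⟩ | b4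
      · exact ⟨a3, a2⟩
      · have c1 := h3 v hv (by omega) _ _ b4
        have c2 := b4.2.2
        simp only [rq, Bool.and_eq_true, beq_iff_eq] at c2
        refine ⟨c1, List.IsPrefix.trans ?_ (List.take_prefix (mm F v e') σ)⟩
        rw [c2.2.1]
        exact List.prefix_take_iff.2 ⟨a2, by rw [h.len, ← a1]; exact (h.mm_mono v).2 _ _ c1⟩
    exact ⟨by rw [b3, if_pos c1.1, a1], b1 ▸ c1.2.trans (List.prefix_append _ _), by omega,
      fun _ => by omega⟩

theorem ts {e l v : ℕ} (h1 : TS D F e l) (h2 : l ≤ v) :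
    mm F v e = l ∧ (F l).1 <+: (F v).1 ∧ e ≤ (F v).2.length ∧ (l < v → e < (F v).2.length) :=
  h.keep h1.1 h2 fun u h3 _ => h1.2 u h3

theorem take_eq {l v : ℕ} (h1 : (F l).1 <+: (F v).1) : (F v).1.take l = (F l).1 := by
  rw [List.prefix_iff_eq_take.1 h1, h.len]

theorem ts_succ {e l : ℕ} (h1 : TS D F e l) : ∃ l', TS D F (e + 1) l' := by
  by_cases h2 : ∃ u, l ≤ u ∧ ∃ σ, Req D F e u σ
  · obtain ⟨u, h2, σ, h3⟩ := h2
    obtain ⟨e', σ', b1, b2, -, b3, b4⟩ := step h.hF u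
    have b5 : Req D F e' u σ' := b4.resolve_left fun b4 => by
      have := b3 _ _ h3
      have := h3.1
      omega
    obtain rfl : e' = e := (b3 _ _ h3).antisymm (h1.2 u h2 _ _ b5)
    refine ⟨u + 1, b2, fun v => ?_⟩
    induction v using Nat.strong_induction_on with
    | _ v ih =>
      intro hv e'' τ h4
      refine Nat.succ_le_of_lt ((h1.2 v (by omega) _ _ h4).lt_of_ne ?_)
      rintro rfl
      obtain ⟨a1, a2, -⟩ := h.keep b2 hv fun w h5 h6 => ih w h6 h5
      have c1 := h4.2.2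
      have c2 := b5.2.2
      simp only [rq, Bool.and_eq_true, beq_iff_eq, Bool.not_eq_true'] at c1 c2
      rw [a1, h.take_eq a2, b1, hit_mono (by omega) (List.prefix_append _ _) c2.2.2.1] at c1
      simp at c1
  · obtain ⟨e', σ', -, b2, -, -, b4⟩ := step h.hF l
    refine ⟨l + 1, ?_, fun v hv e'' τ h4 => Nat.succ_le_of_lt
      ((h1.2 v (by omega) _ _ h4).lt_of_ne fun h5 => h2 ⟨v, by omega, τ, h5 ▸ h4⟩)⟩
    rcases b4 with ⟨rfl, -⟩ | b4
    · rw [b2, h1.1]
    · have := h1.2 l le_rfl _ _ b4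
      have := b4.1
      have := h1.1
      omega

theorem exists_ts (e : ℕ) : ∃ l, TS D F e l := by
  induction e with
  | zero => exact ⟨0, by simp [h.h0], fun _ _ _ _ _ => Nat.zero_le _⟩
  | succ e ih => exact ih.elim fun _ h1 => h.ts_succ h1

theorem ts_lt {e e' l l' : ℕ} (h1 : TS D F e l) (h2 : TS D F e' l') (h3 : e < e') : l < l' := by
  by_contra h4
  have := (h.ts h2 (not_lt.1 h4)).2.2.1
  have := h1.1
  omega

theorem ts_al {e l : ℕ} (h1 : TS D F e l) : Al D F (F l).1 := fun s =>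
  alive_mono (le_max_left s l) (h.ts h1 (le_max_right s l)).2.1 (h.alive_A _)

theorem ts_both {e l : ℕ} (h1 : TS D F e l) (h2 : ∀ s, D (e, s) = false) (c : Bool) :
    Al D F ((F l).1 ++ [c]) :=
  al_snoc.2 ⟨h.ts_al h1, fun _ => by rw [h.len], fun u hu => by
    simp [kd, h.len, h1.1, h2] at hu⟩

theorem ext1 {σ : List Bool} (h1 : Al D F σ) : ∃ c, Al D F (σ ++ [c]) := by
  by_cases h2 : ∃ u, kd D F σ.length u = true ∧ σ = (F σ.length).1
  · obtain ⟨u, h2, h3⟩ := h2
    refine ⟨!db F σ.length u, al_snoc.2 ⟨h1, fun _ => h3, fun v hv _ => ?_⟩⟩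
    rw [(h.kd_le hv (kd_iff.1 h2).1 (kd_iff.1 h2).2.1).antisymm
      (h.kd_le h2 (kd_iff.1 hv).1 (kd_iff.1 hv).2.1)]
    simp
  · exact ⟨false, al_snoc.2 ⟨h1, by simp, fun u h3 h4 => absurd ⟨u, h3, h4⟩ h2⟩⟩

theorem ext {σ : List Bool} (h1 : Al D F σ) (n : ℕ) :
    ∃ τ, σ <+: τ ∧ τ.length = σ.length + n ∧ Al D F τ := by
  induction n with
  | zero => exact ⟨σ, List.prefix_rfl, rfl, h1⟩
  | succ n ih =>
    obtain ⟨τ, h2, h3, h4⟩ := ih
    obtain ⟨c, h5⟩ := h.ext1 h4
    exact ⟨_, h2.trans (List.prefix_append _ _), by simp [h3, add_assoc], h5⟩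

theorem thin {p : List Bool → Prop} (hp : REPred p) (p1 : ∀ σ, ¬ Al D F σ → p σ)
    (p2 : ∀ σ, p (σ ++ [false]) → p (σ ++ [true]) → p σ) (p3 : ∀ σ τ, σ <+: τ → p σ → p τ) :
    ∃ L, ∀ τ, Al D F τ → L ≤ τ.length → p τ → p (τ.take L) := by
  obtain ⟨e, he⟩ := re_index hp
  obtain ⟨l, h1⟩ := h.exists_ts e
  obtain ⟨L, h2⟩ := h.exists_ts (e + 1)
  have h3 := h.ts_lt h1 h2 (by omega)
  refine ⟨L, fun τ h4 h5 h6 => ?_⟩
  by_cases h7 : (F L).1 <+: τ
  · obtain ⟨s, hs⟩ := (he τ).1 h6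
    obtain ⟨τ', a1, a2, a3⟩ := h.ext h4 s
    obtain ⟨b1, b2, -⟩ := h.ts h1 (v := τ'.length) (by omega)
    obtain ⟨c1, c2, c3, -⟩ := h.ts h2 (v := τ'.length) (by omega)
    have : hit e τ'.length (F L).1 = true := by
      by_contra h8
      refine absurd (h2.2 τ'.length (by omega) e τ' ⟨by omega, rfl, ?_⟩) (by omega)
      have := List.prefix_iff_eq_take.1 (((h.ts h1 h3.le).2.1.trans h7).trans a1)
      rw [h.len] at this
      simp [rq, a3 _, b1, c1, h.take_eq b2, h.take_eq c2, Bool.eq_false_iff.2 h8, ← this,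
        hit_mono (show s ≤ τ'.length by omega) a1 (hit_iff.2 ⟨τ, List.prefix_rfl, hs⟩)]
    obtain ⟨ρ, d1, d2⟩ := hit_iff.1 this
    exact p3 _ _ (List.prefix_take_iff.2 ⟨d1.trans h7, d1.length_le.trans (h.len L).le⟩)
      ((he ρ).2 ⟨_, d2⟩)
  · induction τ using List.reverseRecOn with
    | nil => simpa using h6
    | append_singleton σ c ih =>
      rcases h5.lt_or_eq with h5 | h5
      · have h8 : L ≤ σ.length := by simp at h5; omega
        have h9 : ¬ (F L).1 <+: σ := fun h9 => h7 (h9.trans (List.prefix_append _ _))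
        have a1 : σ ≠ (F σ.length).1 := fun a1 => h9 (a1 ▸ (h.ts h2 h8).2.1)
        obtain rfl : c = false := Bool.eq_false_iff.2 fun hc => a1 ((al_snoc.1 h4).2.1 hc)
        rw [List.take_append_of_le_length h8]
        exact ih (al_snoc.1 h4).1 h8 (p2 _ h6 (p1 _ fun a2 => a1 ((al_snoc.1 a2).2.1 rfl))) h9
      · rwa [h5, List.take_length]

theorem split (hD : ∀ e s, D (2 * e + 1, s) = false) : ∃ a : ℕ → List Bool, ∀ n m, n < m →
    ∃ τ, Al D F τ ∧ a n <+: τ ∧ ¬ τ <+: a m ∧ ¬ a m <+: τ := by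
  choose l hl using h.exists_ts
  refine ⟨fun n => (F (l (2 * n + 1))).1, fun n m hnm => ?_⟩
  have h1 := h.ts_lt (hl (2 * n + 1)) (hl (2 * m + 1)) (by omega)
  obtain ⟨ρ, h2⟩ := (h.ts (hl (2 * n + 1)) h1.le).2.1
  cases ρ with
  | nil => simpa [h.len, h1.ne] using congrArg List.length h2
  | cons c ρ =>
    refine ⟨_, h.ts_both (hl _) (hD n) !c, List.prefix_append _ _, ?_, fun h3 => ?_⟩
    · simp [← h2]
    · beta_reduce at h3
      rw [← h2] at h3
      simp at h3

theorem le_al {C : ℕ → Bool} (hD : CI ∅ D) (hF : CI ∅ F) (hC : ∀ a, C a = true ↔ ∃ s, D (a, s) = true)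
    {O : Set (ℕ →. ℕ)} {a : List Bool → Bool} (h1 : CI O a) (h2 : ∀ σ, a σ = true ↔ Al D F σ) :
    CI O C := by
  have hD' : CI O D := hD.of_empty
  have hF' : CI O F := hF.of_empty
  obtain ⟨f, f1, f2⟩ := CI.exists_choice (O := O) (p := fun e l : ℕ => D (e, l) ||
    ((F l).2.length == e && (a ((F l).1 ++ [false]) && a ((F l).1 ++ [true])))) (by fun_prop)
    fun e => by
      by_cases h3 : ∃ s, D (e, s) = true
      · exact h3.imp fun s hs => by simp [hs]
      · obtain ⟨l, hl⟩ := h.exists_ts e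
        exact ⟨l, by simp [hl.1, (h2 _).2 (h.ts_both hl (by simpa using h3) _)]⟩
  refine (show CI O fun e => D (e, f e) by fun_prop).of_eq fun e => Bool.eq_iff_iff.2
    ⟨fun h3 => (hC e).2 ⟨_, h3⟩, fun h3 => ?_⟩
  by_contra h4
  have h5 := f2 e
  simp only [Bool.eq_false_iff.2 h4, Bool.false_or, Bool.and_eq_true, beq_iff_eq, h2] at h5
  obtain ⟨s, hs⟩ := (hC e).1 h3
  obtain ⟨u, hu⟩ := kd_ex (F := F) (i := f e) (t := s + f e + 1) (by omega)
    (h5.1 ▸ h.mono _ _ _ (by omega) hs)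
  have : Al D F ((F (f e)).1 ++ [db F (f e) u]) := by cases db F (f e) u; exacts [h5.2.1, h5.2.2]
  have := (al_snoc.1 this).2.2 u
  simp [h.len, hu] at this

theorem al_le {C : ℕ → Bool} (hD : CI ∅ D) (hF : CI ∅ F) (hC : ∀ a, C a = true ↔ ∃ s, D (a, s) = true)
    {O : Set (ℕ →. ℕ)} (h1 : CI O C) : ∃ a : List Bool → Bool, CI O a ∧
      ∀ σ, a σ = true ↔ Al D F σ := by
  have hD' : CI O D := hD.of_empty
  have hF' : CI O F := hF.of_empty
  obtain ⟨f, f1, f2⟩ := CI.exists_choice (O := O) (p := fun n s : ℕ => (List.range n).all fun i =>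
    !C (F i).2.length || D ((F i).2.length, s)) (by fun_prop) fun n =>
      (exists_stage_all (List.range n) (fun i s => !C (F i).2.length || D ((F i).2.length, s))
        (fun i s t ht h2 => by
          simp only [Bool.or_eq_true] at h2 ⊢
          exact h2.imp_right (h.mono _ _ _ ht)) fun i _ => by
          cases h2 : C (F i).2.length
          · simp
          · simpa using (hC _).1 h2).imp fun t ht => List.all_eq_true.2 (ht t le_rfl)
  have := ci_alive (O := O) (G := fun (_ : ℕ) => F) hD' (by fun_prop)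
  refine ⟨fun σ => alive D F (f σ.length + σ.length) σ, this.comp
    (g := fun σ : List Bool => (0, f σ.length + σ.length, σ)) (by fun_prop), fun σ =>
      ⟨fun h2 s => alive_iff.2 fun ρ c hρ => (alive_iff.1 h2 ρ c hρ).imp_right
        fun h3 u _ h4 => h3 u ?_ h4, fun h2 => h2 _⟩⟩
  have h5 : ρ.length < σ.length := by simpa using hρ.length_le
  have h6 := List.all_eq_true.1 (f2 σ.length) _ (List.mem_range.2 h5)
  rw [(hC _).2 ⟨_, (kd_iff.1 h4).2.1⟩] at h6
  exact h.kd_le h4 (by omega) (h.mono _ (f σ.length) _ (by omega) (by simpa using h6))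

end Con

end Pool.Agent.H37.Mx
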