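import Pool.Agent.H37.AttrDefs

/-! Decidable presentations of Boolean algebras and their c.e. ideals. -/

set_option autoImplicit false

namespace Pool.Agent.H37.Mx

/-- a decidable presentation: computable universe, operations and order -/
structure Pres (B : Type) [BooleanAlgebra B] where
  code : B → ℕ
  inj : Function.Injective code
  univ : ComputablePred fun n => n ∈ Set.range code
  sup : ∃ f : ℕ × ℕ → ℕ, Computable f ∧ ∀ x y, f (code x, code y) = code (x ⊔ y)
  inf : ∃ f : ℕ × ℕ → ℕ, Computable f ∧ ∀ x y, f (code x, code y) = code (x ⊓ y)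
  compl : ∃ f : ℕ → ℕ, Computable f ∧ ∀ x, f (code x) = code xᶜ
  le : ∃ r : ℕ × ℕ → Prop, ComputablePred r ∧ ∀ x y, r (code x, code y) ↔ x ≤ y

variable {B : Type} [BooleanAlgebra B] (Q : Pres B)

/-- c.e. ideals -/
def CE (I : Order.Ideal B) : Prop := REPred fun n => ∃ x ∈ I, Q.code x = n

/-- maximal c.e. ideals -/
def Maximal (I : Order.Ideal B) : Prop :=
  CE Q I ∧ {J | CE Q J ∧ I ≤ J}.Infinite ∧
    ∀ J, CE Q J → I ≤ J → ∃ x, J = I ⊔ Order.Ideal.principal x

open Classical in
/-- the set of codes of the elements of an ideal -/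
noncomputable def codes (I : Order.Ideal B) (n : ℕ) : Bool := decide (∃ x ∈ I, Q.code x = n)

end Pool.Agent.H37.Mx
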