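import Pool.Agent.H37.Mx2
import Pool.Agent.H37.MxDefs

/-! Transfer to ideals of the atomless Boolean algebra. -/

set_option autoImplicit false

namespace Pool.Agent.H37.Mx

open Filter Rnd Encodable Hd Attr

variable {B : Type} [BooleanAlgebra B] (Q : Pres B)

theorem exists_b [Nontrivial B] (hB : ∀ a : B, ¬ IsAtom a) : ∃ b : List Bool → B,
    CI ∅ (fun σ => Q.code (b σ)) ∧ (∀ σ, b σ ≠ ⊥) ∧
    (∀ σ, b (σ ++ [false]) ⊔ b (σ ++ [true]) = b σ) ∧
    (∀ σ, Disjoint (b (σ ++ [false])) (b (σ ++ [true]))) ∧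
    ∀ x σ c, Q.code x = σ.length → b (σ ++ [c]) ≤ x ∨ Disjoint (b (σ ++ [c])) x := by
  obtain ⟨u, u1, u2⟩ := computablePred_iff.1 Q.univ
  obtain ⟨i, i1, i2⟩ := Q.inf
  obtain ⟨n, n1, n2⟩ := Q.compl
  have i1 : CI ∅ i := .of_comp i1
  have n1 : CI ∅ n := .of_comp n1
  have u3 : ∀ x, u (Q.code x) = true := fun x => (u2 _).1 ⟨x, rfl⟩
  have c1 : ∀ x y, Q.code x = Q.code y ↔ x = y := fun x y => Q.inj.eq_iff
  obtain ⟨f, f1, f2⟩ := CI.exists_choice (O := ∅) (p := fun (q : ℕ × ℕ) (z : ℕ) =>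
    (!u q.1 || q.1 == Q.code ⊥) || (u z && (z != Q.code ⊥ && (z != q.1 && (i (z, q.1) == z &&
      (!u q.2 || ((i (z, q.2) == z || i (z, q.2) == Q.code ⊥) &&
        (i (i (q.1, n z), q.2) == i (q.1, n z) || i (i (q.1, n z), q.2) == Q.code ⊥))))))))
    (by fun_prop) fun q => by
      obtain ⟨y, m⟩ := q
      by_cases h1 : u y = true
      · obtain ⟨y, rfl⟩ := (u2 y).2 h1
        by_cases h2 : y = ⊥
        · simp [h2]
        obtain ⟨z, h3, h4⟩ : ∃ z, z < y ∧ z ≠ ⊥ := by simpa [IsAtom, h2] using hB y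
        by_cases h5 : u m = true
        · obtain ⟨x, rfl⟩ := (u2 m).2 h5
          by_cases h6 : y ≤ x
          · exact ⟨Q.code z, by simp [u3, c1, i2, n2, h4, h3.ne, h3.le, h3.le.trans h6,
              inf_le_left.trans h6]⟩
          by_cases h7 : Disjoint y x
          · exact ⟨Q.code z, by simp [u3, c1, i2, n2, h4, h3.ne, h3.le, (h7.mono_left h3.le).eq_bot,
              (h7.mono_left inf_le_left).eq_bot]⟩
          · exact ⟨Q.code (y ⊓ x), by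
              simp [u3, c1, i2, n2, h6, disjoint_iff.not.1 h7, inf_sup_left, inf_assoc]⟩
        · exact ⟨Q.code z, by simp [u3, c1, i2, h4, h3.ne, h3.le, h5]⟩
      · simp [h1]
  obtain ⟨β, β1, β2, β3⟩ : ∃ β : List Bool → ℕ × ℕ, CI ∅ β ∧ β [] = (Q.code ⊤, 0) ∧ ∀ σ c,
      β (σ ++ [c]) = (cond c (i ((β σ).1, n (f (β σ)))) (f (β σ)), (β σ).2 + 1) :=
    ⟨fun σ => σ.foldl (fun q c => (cond c (i (q.1, n (f q))) (f q), q.2 + 1)) (Q.code ⊤, 0),
      by fun_prop, rfl, fun σ c => by simp⟩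
  have key : ∀ σ y, y ≠ ⊥ → β σ = (Q.code y, σ.length) → ∃ z, z ≠ ⊥ ∧ z < y ∧
      β (σ ++ [false]) = (Q.code z, σ.length + 1) ∧
      β (σ ++ [true]) = (Q.code (y ⊓ zᶜ), σ.length + 1) ∧ ∀ x, Q.code x = σ.length →
        (z ≤ x ∨ Disjoint z x) ∧ (y ⊓ zᶜ ≤ x ∨ Disjoint (y ⊓ zᶜ) x) := fun σ y h1 h2 => by
    have h3 := f2 (β σ)
    obtain ⟨z, hz⟩ := (u2 (f (β σ))).2 (by simp [h2, u3, c1, h1] at h3; simpa [h2] using h3.1)
    rw [β3, β3, ← hz, h2]
    rw [← hz, h2] at h3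
    simp only [u3, c1, h1, i2, n2, Bool.not_true, Bool.false_or, beq_iff_eq, Bool.or_eq_true,
      Bool.and_eq_true, bne_iff_ne, ne_eq, false_or, true_and, inf_eq_left] at h3
    refine ⟨z, h3.1, lt_of_le_of_ne h3.2.2.1 h3.2.1, rfl, by simp [i2, n2], fun x hx => ?_⟩
    simpa only [← hx, u3, i2, c1, inf_eq_left, ← disjoint_iff, Bool.not_true, Bool.false_eq_true,
      false_or] using h3.2.2.2
  have ex : ∀ σ, ∃ y, y ≠ ⊥ ∧ β σ = (Q.code y, σ.length) := fun σ => by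
    induction σ using List.reverseRecOn with
    | nil => exact ⟨⊤, top_ne_bot, β2⟩
    | append_singleton σ c ih =>
      obtain ⟨y, h1, h2⟩ := ih
      obtain ⟨z, a1, a2, a3, a4, -⟩ := key σ y h1 h2
      cases c
      · exact ⟨z, a1, by simpa using a3⟩
      · exact ⟨y ⊓ zᶜ, fun h => a2.not_ge (by simpa [← sdiff_eq] using h), by simpa using a4⟩
  choose b b1 b2 using ex
  have k2 : ∀ σ, ∃ z, z < b σ ∧ b (σ ++ [false]) = z ∧ b (σ ++ [true]) = b σ ⊓ zᶜ ∧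
      ∀ x, Q.code x = σ.length →
        (z ≤ x ∨ Disjoint z x) ∧ (b σ ⊓ zᶜ ≤ x ∨ Disjoint (b σ ⊓ zᶜ) x) := fun σ => by
    obtain ⟨z, -, a2, a3, a4, a5⟩ := key σ _ (b1 σ) (b2 σ)
    rw [b2] at a3 a4
    exact ⟨z, a2, Q.inj (congrArg Prod.fst a3), Q.inj (congrArg Prod.fst a4), a5⟩
  refine ⟨b, β1.fst.of_eq fun σ => by rw [b2], b1, fun σ => ?_, fun σ => ?_, fun x σ c hx => ?_⟩
  all_goals obtain ⟨z, a2, a3, a4, a5⟩ := k2 σ
  · simp [a3, a4, sup_inf_left, a2.le]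
  · rw [a3, a4]; exact disjoint_compl_right.mono_right inf_le_right
  · cases c
    · exact a3 ▸ (a5 x hx).1
    · exact a4 ▸ (a5 x hx).2

theorem main [Nontrivial B] (hB : ∀ a : B, ¬ IsAtom a) {C : ℕ → Bool}
    (hC : REPred fun n => C n = true) :
    ∃ I, Maximal Q I ∧ LE (codes Q I) C ∧ LE C (codes Q I) := by
  classical
  obtain ⟨b, b0, b1, b2, b3, b4⟩ := exists_b Q hB
  obtain ⟨D0, d1, d2, d3⟩ := re_stage hC
  obtain ⟨D, hD, dm, d4, d5⟩ : ∃ D : ℕ × ℕ → Bool, CI ∅ D ∧ (∀ a s t, s ≤ t → D (a, s) = true →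
      D (a, t) = true) ∧ (∀ e s, D (2 * e + 1, s) = false) ∧
      ∀ a, Hd.join C (fun _ => false) a = true ↔ ∃ s, D (a, s) = true :=
    ⟨fun q => q.1 % 2 == 0 && D0 (q.1 / 2) q.2, CI.and (by fun_prop) (d1.comp
      (g := fun q : ℕ × ℕ => (q.1 / 2, q.2)) (by fun_prop)), fun a s t h1 h2 => by
        simp only [Bool.and_eq_true] at h2 ⊢
        exact h2.imp_right (d2 _ _ _ h1), fun e s => by simp [Nat.add_mod], fun a => by
        simp [Hd.join, d3]⟩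
  obtain ⟨F, hF, f0, f1⟩ := exists_F hD
  have h : Con D F := ⟨f0, f1, dm⟩
  obtain ⟨u, u1, u2⟩ := computablePred_iff.1 Q.univ
  obtain ⟨r, r1, r2⟩ := Q.le
  obtain ⟨r, r1, r3⟩ := computablePred_iff.1 r1
  replace r2 : ∀ x y, r (Q.code x, Q.code y) = true ↔ x ≤ y := fun x y => (r3 _).symm.trans (r2 x y)
  obtain ⟨β, b0, eβ⟩ : ∃ β : List Bool → ℕ, CI ∅ β ∧ ∀ σ, β σ = Q.code (b σ) := ⟨_, b0, fun _ => rfl⟩
  have le1 : ∀ σ c, b (σ ++ [c]) ≤ b σ := fun σ c => by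
    rw [← b2 σ]; cases c; exacts [le_sup_left, le_sup_right]
  have le2 : ∀ σ τ, σ <+: τ → b τ ≤ b σ := by
    rintro σ _ ⟨τ, rfl⟩
    induction τ using List.reverseRecOn with
    | nil => simp
    | append_singleton τ c ih => rw [← List.append_assoc]; exact (le1 _ _).trans ih
  have dj : ∀ σ τ, ¬ σ <+: τ → ¬ τ <+: σ → Disjoint (b σ) (b τ) := by
    have : ∀ ρ σ τ, ¬ σ <+: τ → ¬ τ <+: σ → Disjoint (b (ρ ++ σ)) (b (ρ ++ τ)) := by
      intro ρ σ
      induction σ generalizing ρ with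
      | nil => simp
      | cons c σ ih =>
        rintro (- | ⟨d, τ⟩) h1 h2
        · simp at h2
        rw [List.append_cons ρ c, List.append_cons ρ d]
        cases c <;> cases d
        · exact ih _ _ (by simpa using h1) (by simpa using h2)
        · exact (b3 ρ).mono (le2 _ _ (List.prefix_append _ _)) (le2 _ _ (List.prefix_append _ _))
        · exact (b3 ρ).symm.mono (le2 _ _ (List.prefix_append _ _))
            (le2 _ _ (List.prefix_append _ _))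
        · exact ih _ _ (by simpa using h1) (by simpa using h2)
    exact this []
  have dec : ∀ x σ, Q.code x < σ.length → ¬ b σ ≤ x → Disjoint (b σ) x := fun x σ h1 h2 => by
    have h3 := le2 _ _ (List.take_prefix (Q.code x + 1) σ)
    rw [← List.take_append_getElem h1] at h3
    exact ((b4 x _ _ (by simp [h1.le])).resolve_left fun h4 => h2 (h3.trans h4)).mono_left h3
  obtain ⟨I, hI⟩ : ∃ I : Order.Ideal B, ∀ x, x ∈ I ↔ ∀ σ, Al D F σ → ¬ b σ ≤ x :=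
    ⟨⟨⟨{x | ∀ σ, Al D F σ → ¬ b σ ≤ x}, fun x y h1 h2 σ h3 h4 => h2 σ h3 (h4.trans h1)⟩,
      ⟨⊥, fun σ _ h1 => b1 σ (le_bot_iff.1 h1)⟩, fun x hx y hy => ⟨x ⊔ y, fun σ h1 h2 => by
        obtain ⟨τ, a1, a2, a3⟩ := h.ext h1 (Q.code x + Q.code y + 1)
        exact b1 τ (((dec x τ (by omega) (hx τ a3)).sup_right
          (dec y τ (by omega) (hy τ a3))).eq_bot_of_le ((le2 _ _ a1).trans h2)),
        le_sup_left, le_sup_right⟩⟩, fun _ => Iff.rfl⟩
  have i1 : ∀ σ, b σ ∈ I ↔ ¬ Al D F σ := fun σ => (hI _).trans ⟨fun h1 h2 => h1 σ h2 le_rfl,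
    fun h1 τ h2 h3 => by
      obtain ⟨ρ, a1, a2, a3⟩ := h.ext h2 σ.length
      have a4 : ¬ σ <+: ρ := fun a4 => h1 (a3.pf a4)
      exact b1 ρ ((dj ρ σ (fun a5 => a4 (a5.eq_of_length_le (by omega) ▸ List.prefix_rfl))
        a4).eq_bot_of_le ((le2 _ _ a1).trans h3))⟩
  have i2 : ∀ n, (∃ x ∈ I, Q.code x = n) ↔
      u n = true ∧ ∀ σ ∈ W (n + 1), Al D F σ → r (β σ, n) = false := fun n => by
    refine ⟨?_, fun ⟨h1, h2⟩ => ?_⟩
    · rintro ⟨x, hx, rfl⟩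
      exact ⟨(u2 _).1 ⟨x, rfl⟩, fun σ _ h1 => by
        rw [eβ, Bool.eq_false_iff, Ne, r2]; exact (hI x).1 hx σ h1⟩
    · obtain ⟨x, rfl⟩ := (u2 n).2 h1
      refine ⟨x, (hI x).2 fun σ h3 h4 => ?_, rfl⟩
      obtain ⟨ρ, a1, a2, a3⟩ := h.ext h3 (Q.code x + 1)
      have a4 := List.take_prefix (Q.code x + 1) ρ
      have a5 := h2 _ (mem_W.2 (by simp; omega)) (a3.pf a4)
      rw [eβ, Bool.eq_false_iff, Ne, r2] at a5
      exact b1 ρ (((dec x _ (by simp; omega) a5).mono_left (le2 _ _ a4)).eq_bot_of_le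
        ((le2 _ _ a1).trans h4))
  have ce : CE Q I := by
    have := ci_alive (O := ∅) (G := fun (_ : ℕ) => F) hD (by fun_prop)
    obtain ⟨a, a1, a2⟩ : ∃ a : ℕ × List Bool → Bool, CI ∅ a ∧ ∀ s σ, a (s, σ) = alive D F s σ :=
      ⟨_, this.comp (g := fun q : ℕ × List Bool => (0, q)) (by fun_prop), fun _ _ => rfl⟩
    refine REPred.of_eq (re_and (re_of_bool u u1 fun _ => Iff.rfl) (re_forall_mem
      (p := fun n σ => Al D F σ → r (β σ, n) = false) (re_of_nat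
        (fun q s => !a (s, q.2) || !r (β q.2, q.1)) (by fun_prop) fun q => ?_)
      (l := fun n => W (n + 1)) (by fun_prop))) fun n => (i2 n).symm
    cases r (β q.2, q.1) <;> simp [Al, a2]
  have sp : ∀ x y, y ∈ I ⊔ Order.Ideal.principal x ↔ y ⊓ xᶜ ∈ I := fun x y =>
    ⟨fun ⟨i, hi, j, hj, h1⟩ => I.lower (by
      rw [← sdiff_eq, sdiff_le_iff, sup_comm]; exact h1.trans (sup_le_sup_left hj i)) hi,
      fun h1 => ⟨_, h1, x, le_rfl, by rw [← sdiff_eq]; exact le_sdiff_sup⟩⟩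
  refine ⟨I, ⟨ce, ?_, fun J hJ hIJ => ?_⟩, ?_, ?_⟩
  · obtain ⟨a, ha⟩ := h.split d4
    obtain ⟨i, j1, j2⟩ := Q.inf
    have j1 : CI ∅ i := .of_comp j1
    refine Set.infinite_of_injective_forall_mem
      (f := fun n : ℕ => I ⊔ Order.Ideal.principal (b (a n))ᶜ) (Function.Injective.of_lt_imp_ne
        fun n m hnm e => ?_) fun n => ⟨?_, le_sup_left⟩
    · obtain ⟨τ, a1, a2, a3, a4⟩ := ha n m hnm
      have : b τ ∈ I ⊔ Order.Ideal.principal (b (a m))ᶜ := by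
        simp [sp, (dj _ _ a3 a4).eq_bot]
      rw [← e, sp, compl_compl, inf_eq_left.2 (le2 _ _ a2), i1] at this
      exact this a1
    · refine REPred.of_eq (re_and (re_of_bool u u1 fun _ => Iff.rfl) (REPred.comp' ce
        (g := fun m => i (m, Q.code (b (a n)))) (by fun_prop))) fun m => ⟨fun ⟨h1, x, h2, h3⟩ => ?_, ?_⟩
      · obtain ⟨y, rfl⟩ := (u2 m).2 h1
        rw [j2] at h3
        exact ⟨y, by rwa [sp, compl_compl, ← Q.inj h3], rfl⟩
      · rintro ⟨y, h1, rfl⟩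
        exact ⟨(u2 _).1 ⟨y, rfl⟩, _, by simpa [sp] using h1, (j2 _ _).symm⟩
  · obtain ⟨L, hL⟩ := h.thin (p := fun σ => b σ ∈ J) (REPred.of_eq (REPred.comp' hJ b0) fun σ => by
      simp [eβ, Q.inj.eq_iff]) (fun σ h1 => hIJ ((i1 σ).2 h1))
      (fun σ h1 h2 => b2 σ ▸ J.sup_mem h1 h2) fun σ τ h1 h2 => J.lower (le2 _ _ h1) h2
    refine ⟨((W L).toFinset.filter fun σ => b σ ∈ J).sup b, le_antisymm (fun y hy => ?_)
      (sup_le hIJ (Order.Ideal.principal_le_iff.2 (Finset.sup_induction J.bot_mem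
        (fun _ h1 _ h2 => J.sup_mem h1 h2) fun σ hσ => (Finset.mem_filter.1 hσ).2)))⟩
    refine (sp _ y).2 ((hI _).2 fun σ h1 h2 => ?_)
    obtain ⟨τ, a1, a2, a3⟩ := h.ext h1 L
    have a4 := le_inf_iff.1 ((le2 _ _ a1).trans h2)
    refine b1 τ ((le_compl_iff_disjoint_right.1 a4.2).eq_bot_of_le ((le2 _ _
      (List.take_prefix L τ)).trans (Finset.le_sup (Finset.mem_filter.2
        ⟨by simp [mem_W]; omega, hL τ a3 (by omega) (J.lower a4.1 hy)⟩))))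
  · have hC' : CI (orc (bit C)) C := LE.refl C
    obtain ⟨a, a1, a2⟩ := h.al_le hD hF d5 (O := orc (bit C)) (by unfold Hd.join; fun_prop)
    have u1 : CI (orc (bit C)) u := u1.of_empty
    have r1 : CI (orc (bit C)) r := r1.of_empty
    have b0 : CI (orc (bit C)) β := b0.of_empty
    refine CI.of_eq (f := fun n => u n && (W (n + 1)).all fun σ => !a σ || !r (β σ, n))
      (by fun_prop) fun n => Bool.eq_iff_iff.2 ?_
    simp [codes, i2, ← a2, or_iff_not_imp_left]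
  · have hI' : CI (orc (bit (codes Q I))) (codes Q I) := LE.refl _
    have b0 : CI (orc (bit (codes Q I))) β := b0.of_empty
    exact (le_join_l C _).trans (h.le_al hD hF d5 (a := fun σ => !codes Q I (β σ)) (by fun_prop)
      fun σ => by simp [codes, eβ, Q.inj.eq_iff, i1])

end Pool.Agent.H37.Mx
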