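import Pool.Agent.H37.Hd1

/-! A tree construction of a class of rank one deciding all intersections of effectively open
classes near its limit point. -/

set_option autoImplicit false

namespace Pool.Agent.H37.Nc

open Filter Rnd Encodable Hd

abbrev Bs := List Bool
abbrev St := List (List Bs × Bs × List Bs) × List Bs

def look (S : St) (α : List Bs) : Option (Bs × List Bs) :=
  (S.1.find? fun p => p.1 == α).map fun p => p.2

def conv (e n : ℕ) (l : Bs) : Bool := (List.range n).all fun m => (U e (l.map Bool.toNat) m).isSome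

def pf (τ l : Bs) : Bool := l.take τ.length == τ

def cont (S : St) (α : List Bs) : Option Bs := (look S α).bind fun d => d.2.head?.elim (some d.1)
  fun τ => cond ((S.2.any fun l => pf τ l) &&
    !S.2.any fun l => pf τ l && conv α.length τ.length l) (some τ) none

def nd (S : St) (k : ℕ) : List Bs := (fun α => (cont S α).elim α fun o => o :: α)^[k] []

def rs (S : St) (s : ℕ) : List (List Bs × Bs × List Bs) :=
  (List.range (s + 1)).filterMap (fun k => (look S (nd S k)).bind fun d =>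
    cond d.2.isEmpty (some (nd S k, d.1, (W (s + 1)).filter fun l => pf d.1 l)) none) ++ S.1

def nxt (S : St) (s : ℕ) : St := (look S (nd S s)).elim
  ((S.2.find? fun l => pf ((nd S s).headD []) l).elim (rs S s, S.2.map fun l => l ++ [false])
    fun l => ((nd S s, l ++ [false], []) :: rs S s, (l ++ [true]) :: S.2.map fun l => l ++ [false]))
  fun d => ((nd S s, d.1, d.2.tail) :: rs S s, (S.2.filter fun l => !pf (d.2.headD []) l ||
    some l == S.2.find? fun l => pf (d.2.headD []) l &&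
      conv (nd S s).length (d.2.headD []).length l).map fun l => l ++ [false])

def SS : ℕ → St
  | 0 => ([], [[]])
  | s + 1 => nxt (SS s) s

section
variable {γ : Type} [Primcodable γ] {O : Set (ℕ →. ℕ)}

@[fun_prop] theorem ci_look {S : γ → St} {a : γ → List Bs} (h1 : CI O S) (h2 : CI O a) :
    CI O fun x => look (S x) (a x) := by unfold look; fun_prop
@[fun_prop] theorem ci_conv {e n : γ → ℕ} {l : γ → Bs} (h1 : CI O e) (h2 : CI O n) (h3 : CI O l) :
    CI O fun x => conv (e x) (n x) (l x) := by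
  have : CI O fun x => (l x).map fun b => b.toNat := by fun_prop
  unfold conv; fun_prop
@[fun_prop] theorem ci_pf {a b : γ → Bs} (h1 : CI O a) (h2 : CI O b) :
    CI O fun x => pf (a x) (b x) := by unfold pf; fun_prop
@[fun_prop] theorem ci_cont {S : γ → St} {a : γ → List Bs} (h1 : CI O S) (h2 : CI O a) :
    CI O fun x => cont (S x) (a x) := by unfold cont; fun_prop
@[fun_prop] theorem ci_nd {S : γ → St} {k : γ → ℕ} (h1 : CI O S) (h2 : CI O k) :
    CI O fun x => nd (S x) (k x) := by unfold nd; fun_prop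
@[fun_prop] theorem ci_rs {S : γ → St} {k : γ → ℕ} (h1 : CI O S) (h2 : CI O k) :
    CI O fun x => rs (S x) (k x) := by unfold rs; fun_prop
end

theorem ci_SS : CI ∅ SS :=
  CI.of_rec1 (h := fun s S => nxt S s) (by unfold nxt; fun_prop) fun _ => rfl

theorem pf_iff {τ l : Bs} : pf τ l = true ↔ τ <+: l := by
  rw [pf, beq_iff_eq, List.prefix_iff_eq_take, eq_comm]

theorem conv_mono {e n m : ℕ} {l l' : Bs} (h : conv e n l = true) (hm : m ≤ n) (hl : l <+: l') :
    conv e m l' = true := by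
  simp only [conv, List.all_eq_true, List.mem_range, Option.isSome_iff_exists] at h ⊢
  exact fun k hk => (h k (by omega)).imp fun v hv => U_mon e _ _ _ _ (hl.map _) hv

theorem nd_succ (S : St) (k : ℕ) :
    nd S (k + 1) = (cont S (nd S k)).elim (nd S k) fun o => o :: nd S k :=
  Function.iterate_succ_apply' _ _ _

theorem nd_stop {S : St} {j k : ℕ} (h : cont S (nd S j) = none) (hk : j ≤ k) :
    nd S k = nd S j := by
  induction k, hk using Nat.le_induction with
  | base => rfl
  | succ k _ ih => rw [nd_succ, ih, h]; rfl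

theorem nd_len (S : St) (k : ℕ) :
    (nd S k).length ≤ k ∧ (cont S (nd S k) ≠ none → (nd S k).length = k) := by
  induction k with
  | zero => simp [nd]
  | succ k ih =>
    rw [nd_succ]
    cases h : cont S (nd S k) with
    | none => exact ⟨ih.1.trans (by simp), fun h1 => absurd h h1⟩
    | some o => simp [ih.2 (by simp [h])]

def dat (s : ℕ) (α : List Bs) : Option (Bs × List Bs) := look (SS s) α
def L (s : ℕ) : List Bs := (SS s).2
def be (s : ℕ) : List Bs := nd (SS s) s
def V (s : ℕ) (α : List Bs) : Prop := ∃ k ≤ s, nd (SS s) k = α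

theorem look_rs (s : ℕ) (α : List Bs) (M : List Bs) :
    (∀ h, V s α → dat s α = some (h, []) →
      look (rs (SS s) s, M) α = some (h, (W (s + 1)).filter fun l => pf h l)) ∧
    ((∀ h, V s α → dat s α ≠ some (h, [])) → look (rs (SS s) s, M) α = dat s α) := by
  simp only [look, rs, List.find?_append]
  cases e : List.find? (fun p => p.1 == α) ((List.range (s + 1)).filterMap fun k =>
    (look (SS s) (nd (SS s) k)).bind fun d => cond d.2.isEmpty
      (some (nd (SS s) k, d.1, (W (s + 1)).filter fun l => pf d.1 l)) none) with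
  | none =>
    simp only [look] at e
    refine ⟨fun h ⟨k, h1, h2⟩ h3 => ?_, fun _ => by rw [e]; rfl⟩
    refine absurd (List.find?_eq_none.1 e (α, h, (W (s + 1)).filter fun l => pf h l)
      (List.mem_filterMap.2 ⟨k, List.mem_range.2 (by omega), ?_⟩)) (by simp)
    rw [h2]
    exact (congrArg (Option.bind · _) h3).trans rfl
  | some p =>
    obtain ⟨k, h1, h2⟩ := List.mem_filterMap.1 (List.mem_of_find?_eq_some e)
    obtain ⟨⟨h, td⟩, h3, h4⟩ := Option.bind_eq_some_iff.1 h2
    rcases td with _ | ⟨a, b⟩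
    swap
    · simp at h4
    obtain rfl := Option.some.inj h4
    obtain rfl : nd (SS s) k = α := by simpa using List.find?_some e
    simp only [look] at e
    rw [e]
    refine ⟨fun h' _ h5 => ?_, fun h5 => absurd h3 (h5 h ⟨k, by simp at h1; omega, rfl⟩)⟩
    obtain rfl : h' = h := (Prod.mk.inj (Option.some.inj (h5.symm.trans h3))).1
    rfl

theorem look_succ {s : ℕ} {α : List Bs} (h : α ≠ be s) :
    dat (s + 1) α = look (rs (SS s) s, []) α := by
  have : (nd (SS s) s == α) = false := beq_eq_false_iff_ne.2 h.symm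
  simp only [dat, SS, nxt]
  cases look (SS s) (nd (SS s) s) with
  | none =>
    cases (SS s).2.find? fun l => pf ((nd (SS s) s).headD []) l <;> simp [look, List.find?, this]
  | some d => simp [look, List.find?, this]

def Birth (s : ℕ) (l : Bs) : Prop := dat s (be s) = none ∧ l ∈ L s ∧ (be s).headD [] <+: l ∧
  dat (s + 1) (be s) = some (l ++ [false], []) ∧
  ∀ μ, μ ∈ L (s + 1) ↔ μ = l ++ [true] ∨ ∃ ν ∈ L s, ν ++ [false] = μ

def Idle (s : ℕ) : Prop := dat s (be s) = none ∧ (∀ l ∈ L s, ¬ (be s).headD [] <+: l) ∧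
  dat (s + 1) (be s) = none ∧ ∀ μ, μ ∈ L (s + 1) ↔ ∃ ν ∈ L s, ν ++ [false] = μ

def Pop (s : ℕ) (τ : Bs) : Prop := ∃ h r, dat s (be s) = some (h, τ :: r) ∧
  dat (s + 1) (be s) = some (h, r) ∧ ∃ o : Option Bs,
    (∀ μ, μ ∈ L (s + 1) ↔ ∃ ν ∈ L s, (τ <+: ν → some ν = o) ∧ ν ++ [false] = μ) ∧
    (∀ ν, some ν = o → conv (be s).length τ.length ν = true) ∧
    ∀ ν ∈ L s, τ <+: ν → ∃ ν ∈ L s, τ <+: ν ∧ some ν = o

theorem cont_iff {s : ℕ} {α : List Bs} {o : Bs} : cont (SS s) α = some o ↔
    dat s α = some (o, []) ∨ ∃ h r, dat s α = some (h, o :: r) ∧ (∃ l ∈ L s, o <+: l) ∧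
      ∀ l ∈ L s, o <+: l → conv α.length o.length l = false := by
  unfold cont dat L
  rcases look (SS s) α with - | ⟨h, - | ⟨τ, r⟩⟩
  · simp
  · simp
  · by_cases h1 : τ = o
    · subst h1; simp [pf_iff, Bool.cond_eq_ite, ← and_assoc]
    · simp [h1, Bool.cond_eq_ite]

theorem tri' {s : ℕ} (hc : cont (SS s) (be s) = none) :
    (∃ l, Birth s l) ∨ Idle s ∨ ∃ τ, Pop s τ := by
  cases e : dat s (be s) with
  | none =>
    have e' : look (SS s) (nd (SS s) s) = none := e
    cases e1 : (SS s).2.find? fun l => pf ((nd (SS s) s).headD []) l with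
    | none =>
      have e2 : SS (s + 1) = (rs (SS s) s, (L s).map fun l => l ++ [false]) := by
        simp only [SS, nxt, e', e1, Option.elim_none, L]
      refine Or.inr (Or.inl ⟨e, fun l hl h => ?_, ?_, fun μ => ?_⟩)
      · exact List.find?_eq_none.1 e1 l hl (pf_iff.2 h)
      · rw [dat, e2]
        exact ((look_rs s _ _).2 fun h _ => by simp [e]).trans e
      · rw [L, e2]; simp
    | some l =>
      have e2 : SS (s + 1) = ((be s, l ++ [false], []) :: rs (SS s) s,
          (l ++ [true]) :: (L s).map fun l => l ++ [false]) := by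
        simp only [SS, nxt, e', e1, Option.elim_none, Option.elim_some, L, be]
      refine Or.inl ⟨l, e, List.mem_of_find?_eq_some e1, pf_iff.1 (List.find?_some e1), ?_,
        fun μ => ?_⟩
      · rw [dat, e2]; simp [look]
      · rw [L, e2]; simp
  | some d =>
    have e' : look (SS s) (nd (SS s) s) = some d := e
    obtain ⟨h, - | ⟨τ, r⟩⟩ := d
    · simp [cont_iff.2 (Or.inl e)] at hc
    have e2 : SS (s + 1) = ((be s, h, r) :: rs (SS s) s, ((L s).filter fun l => !pf τ l ||
        some l == (L s).find? fun l => pf τ l && conv (be s).length τ.length l).map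
          fun l => l ++ [false]) := by
      simp only [SS, nxt, e', Option.elim_some, L, be, List.headD_cons, List.tail_cons]
    refine Or.inr (Or.inr ⟨τ, h, r, e, by rw [dat, e2]; simp [look],
      (L s).find? fun l => pf τ l && conv (be s).length τ.length l, fun μ => ?_,
      fun ν hν => (Bool.and_eq_true_iff.1 (List.find?_some
        (p := fun l => pf τ l && conv (be s).length τ.length l) hν.symm)).2, fun ν h1 h2 => ?_⟩)
    · rw [L, e2]
      simp [← pf_iff, or_iff_not_imp_left, and_assoc]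
    · obtain ⟨l, h3, h4, h5⟩ : ∃ l ∈ L s, τ <+: l ∧ conv (be s).length τ.length l = true := by
        by_contra h3
        simp [cont_iff.2 (Or.inr ⟨h, r, e, ⟨ν, h1, h2⟩, by simpa using h3⟩)] at hc
      obtain ⟨l', h6⟩ := Option.isSome_iff_exists.1 (List.find?_isSome.2
        ⟨l, h3, Bool.and_eq_true_iff.2 ⟨pf_iff.2 h4, h5⟩⟩ : ((L s).find? fun l =>
          pf τ l && conv (be s).length τ.length l).isSome = true)
      exact ⟨l', List.mem_of_find?_eq_some h6, pf_iff.1 (Bool.and_eq_true_iff.1 (List.find?_some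
        (p := fun l => pf τ l && conv (be s).length τ.length l) h6)).1, h6.symm⟩

theorem born {s : ℕ} {α : List Bs} (h : dat s α ≠ none) : ∃ u < s, be u = α := by
  induction s with
  | zero => simp [dat, look, SS] at h
  | succ s ih =>
    by_cases h1 : α = be s
    · exact ⟨s, by omega, h1.symm⟩
    · refine (ih fun h2 => h ?_).imp fun u hu => ⟨by omega, hu.2⟩
      rw [look_succ h1, (look_rs s α []).2 fun _ _ => by simp [h2], h2]

theorem cont_be (s : ℕ) : cont (SS s) (be s) = none := by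
  by_contra h
  obtain ⟨u, h1, h2⟩ := born (s := s) (α := be s) fun h1 => h (by
    rw [cont, show look (SS s) (be s) = none from h1]; rfl)
  have := (nd_len (SS u) u).1
  have := (nd_len (SS s) s).2 h
  simp only [be] at h2
  rw [h2] at *
  omega

theorem tri (s : ℕ) : (∃ l, Birth s l) ∨ Idle s ∨ ∃ τ, Pop s τ := tri' (cont_be s)

theorem V_be (s : ℕ) : V s (be s) := ⟨s, le_rfl, rfl⟩

theorem V.eq {s : ℕ} {α : List Bs} (h : V s α) (h1 : cont (SS s) α = none) : be s = α := by
  obtain ⟨k, h2, rfl⟩ := h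
  exact nd_stop h1 h2

theorem V_cons {s : ℕ} {α : List Bs} {o : Bs} :
    V s (o :: α) ↔ V s α ∧ cont (SS s) α = some o := by
  constructor
  · rintro ⟨k, h1, h2⟩
    induction k with
    | zero => simp [nd] at h2
    | succ k ih =>
      rw [nd_succ] at h2
      cases e : cont (SS s) (nd (SS s) k) with
      | none => exact ih (by omega) (by simpa [e] using h2)
      | some o' =>
        simp only [e, Option.elim_some, List.cons.injEq] at h2
        exact ⟨⟨k, by omega, h2.2⟩, by rw [← h2.2, ← h2.1, e]⟩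
  · rintro ⟨⟨k, h1, rfl⟩, h2⟩
    refine ⟨k + 1, h1.lt_of_ne ?_, by rw [nd_succ, h2]; rfl⟩
    rintro rfl
    simp [show cont (SS k) (nd (SS k) k) = none from cont_be k] at h2

/-- evolution of the data of a node -/
theorem evo {s : ℕ} {α : List Bs} {h : Bs} {td : List Bs} (e : dat s α = some (h, td)) :
    (dat (s + 1) α = some (h, td) ∧ be s ≠ α ∧ (V s α → td ≠ [])) ∨
    (V s α ∧ td = [] ∧ dat (s + 1) α = some (h, (W (s + 1)).filter fun l => pf h l)) ∨
    ∃ τ r, td = τ :: r ∧ be s = α ∧ Pop s τ ∧ dat (s + 1) α = some (h, r) := by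
  by_cases h1 : α = be s
  · subst h1
    rcases tri s with ⟨l, h2⟩ | h2 | ⟨τ, h', r, h2, h3, h4⟩
    · simp [h2.1] at e
    · simp [h2.1] at e
    · obtain ⟨rfl, rfl⟩ := Prod.mk.inj (Option.some.inj (e.symm.trans h2))
      exact Or.inr (Or.inr ⟨τ, r, rfl, rfl, ⟨_, r, h2, h3, h4⟩, h3⟩)
  · rw [look_succ h1]
    by_cases h2 : V s α ∧ td = []
    · exact Or.inr (Or.inl ⟨h2.1, h2.2, (look_rs s α []).1 h h2.1 (h2.2 ▸ e)⟩)
    · exact Or.inl ⟨((look_rs s α []).2 fun h' h3 h4 => h2
        ⟨h3, (Prod.mk.inj (Option.some.inj (e.symm.trans h4))).2⟩).trans e, Ne.symm h1,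
        fun h3 h4 => h2 ⟨h3, h4⟩⟩

theorem evo0 {s : ℕ} {α : List Bs} (e : dat s α = none) :
    dat (s + 1) α = none ∨ ∃ l, be s = α ∧ Birth s l := by
  by_cases h1 : α = be s
  · subst h1
    rcases tri s with ⟨l, h2⟩ | h2 | ⟨τ, h', r, h2, -⟩
    · exact Or.inr ⟨l, rfl, h2⟩
    · exact Or.inl h2.2.2.1
    · simp [h2] at e
  · rw [look_succ h1, (look_rs s α []).2 fun _ _ => by simp [e]]
    exact Or.inl e

theorem L_succ {s : ℕ} {μ : Bs} (h : μ ∈ L (s + 1)) :
    (∃ ν ∈ L s, ν ++ [false] = μ) ∨ ∃ l, Birth s l ∧ μ = l ++ [true] := by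
  rcases tri s with ⟨l, h2⟩ | h2 | ⟨τ, h', r, -, -, o, h2, -⟩
  · exact ((h2.2.2.2.2 μ).1 h).symm.imp_right fun h3 => ⟨l, h2, h3⟩
  · exact Or.inl ((h2.2.2.2 μ).1 h)
  · exact Or.inl (((h2 μ).1 h).imp fun ν hν => ⟨hν.1, hν.2.2⟩)

theorem L_pre {s : ℕ} {μ : Bs} (h : μ ∈ L (s + 1)) : ∃ ν ∈ L s, ∃ c, ν ++ [c] = μ := by
  rcases L_succ h with ⟨ν, h1, h2⟩ | ⟨l, h1, h2⟩
  exacts [⟨ν, h1, _, h2⟩, ⟨l, h1.2.1, _, h2.symm⟩]

theorem L_len {s : ℕ} {μ : Bs} (h : μ ∈ L s) : μ.length = s := by
  induction s generalizing μ with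
  | zero => simpa [L, SS] using h
  | succ s ih => obtain ⟨ν, h1, c, rfl⟩ := L_pre h; simp [ih h1]

theorem L_take {s u : ℕ} {μ : Bs} (h : μ ∈ L s) (hu : u ≤ s) : μ.take u ∈ L u := by
  induction s, hu using Nat.le_induction generalizing μ with
  | base => rwa [← L_len h, List.take_length, L_len h]
  | succ s hu ih =>
    obtain ⟨ν, h1, c, rfl⟩ := L_pre h
    rw [List.take_append_of_le_length (L_len h1 ▸ hu)]
    exact ih h1

theorem survive {s : ℕ} {ρ : Bs} (h : ∃ ν ∈ L s, ρ <+: ν)
    (hp : ∀ τ, Pop s τ → ρ.length ≤ τ.length) : ∃ ν ∈ L (s + 1), ρ <+: ν := by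
  obtain ⟨ν, h1, h3⟩ := h
  rcases tri s with ⟨l, h2⟩ | h2 | ⟨τ, h2⟩
  · exact ⟨_, (h2.2.2.2.2 _).2 (Or.inr ⟨ν, h1, rfl⟩), h3.trans (List.prefix_append _ _)⟩
  · exact ⟨_, (h2.2.2.2 _).2 ⟨ν, h1, rfl⟩, h3.trans (List.prefix_append _ _)⟩
  · have h4 := hp τ h2
    obtain ⟨-, -, -, -, o, a1, -, a3⟩ := h2
    by_cases h5 : τ <+: ν
    · obtain ⟨ν', b1, b2, b3⟩ := a3 ν h1 h5
      exact ⟨_, (a1 _).2 ⟨ν', b1, fun _ => b3, rfl⟩, ((List.prefix_of_prefix_length_le h3 h5
        h4).trans b2).trans (List.prefix_append _ _)⟩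
    · exact ⟨_, (a1 _).2 ⟨ν, h1, fun h6 => absurd h6 h5, rfl⟩, h3.trans (List.prefix_append _ _)⟩

theorem inv {s : ℕ} {α : List Bs} {h : Bs} {td : List Bs} (e : dat s α = some (h, td)) :
    α.headD [] <+: h ∧ h.length ≤ s ∧ td.Nodup ∧
      ∀ τ ∈ td, h <+: τ ∧ h.length < τ.length ∧ τ.length ≤ s := by
  induction s generalizing td with
  | zero => simp [dat, look, SS] at e
  | succ s ih =>
    cases e1 : dat s α with
    | none =>
      rcases evo0 e1 with h1 | ⟨l, rfl, h1⟩
      · simp [h1] at e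
      · obtain ⟨rfl, rfl⟩ := Prod.mk.inj (Option.some.inj (e.symm.trans h1.2.2.2.1))
        exact ⟨h1.2.2.1.trans (List.prefix_append _ _), by simp [L_len h1.2.1], by simp⟩
    | some d =>
      obtain ⟨h', td'⟩ := d
      rcases evo e1 with ⟨h1, -⟩ | ⟨-, -, h1⟩ | ⟨τ, r, rfl, -, -, h1⟩ <;>
        obtain ⟨rfl, rfl⟩ := Prod.mk.inj (Option.some.inj (e.symm.trans h1)) <;>
        obtain ⟨a1, a2, a3, a4⟩ := ih e1 <;> refine ⟨a1, by omega, ?_, fun σ hσ => ?_⟩
      · exact a3
      · exact (a4 σ hσ).imp_right fun h => ⟨h.1, by omega⟩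
      · exact (nodup_W _).filter _
      · simp only [List.mem_filter, mem_W, pf_iff] at hσ
        exact ⟨hσ.2, by omega⟩
      · exact a3.of_cons
      · exact (a4 σ (by simp [hσ])).imp_right fun h => ⟨h.1, by omega⟩

end Pool.Agent.H37.Nc
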