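import Pool.Agent.H37.Nc1

/-! Verification of the tree construction. -/

set_option autoImplicit false

namespace Pool.Agent.H37.Nc

open Filter Rnd Encodable Hd

def Reg (v : ℕ) (ρ : Bs) : Prop := Birth v ρ ∨ Pop v ρ
def Ext (ρ : Bs) : Prop := ∀ v, ρ.length ≤ v → ∃ ν ∈ L v, ρ <+: ν
def Spl (ρ : Bs) : Prop := Ext (ρ ++ [false]) ∧ Ext (ρ ++ [true])

variable {α : List Bs} {h τ ρ : Bs} {td : List Bs} {s u v : ℕ}

theorem cont_hd {o : Bs} (e : dat v α = some (h, td)) (hc : cont (SS v) α = some o) :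
    o = td.headD h := by
  rcases cont_iff.1 hc with h1 | ⟨h', r, h1, -⟩ <;>
    obtain ⟨rfl, rfl⟩ := Prod.mk.inj (Option.some.inj (e.symm.trans h1)) <;> rfl

theorem hd_pf (e : dat v α = some (h, td)) : h <+: td.headD h := by
  cases td with
  | nil => exact List.prefix_rfl
  | cons τ r => exact ((inv e).2.2.2 τ (by simp)).1

theorem stem (hV : V v α) (hR : Reg v ρ) : α.headD [] <+: ρ := by
  obtain ⟨k, hk, rfl⟩ := hV
  induction hk using Nat.decreasingInduction with
  | self =>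
    rcases hR with hR | ⟨h, r, e, -⟩
    exacts [hR.2.2.1, (inv e).1.trans (hd_pf e)]
  | of_succ k _ ih =>
    rw [nd_succ] at ih
    cases hc : cont (SS v) (nd (SS v) k) with
    | none => simpa only [hc, Option.elim_none] using ih
    | some o =>
      simp only [hc, Option.elim_some, List.headD_cons] at ih
      rcases cont_iff.1 hc with e | ⟨h, r, e, -⟩
      exacts [(inv e).1.trans ih, ((inv e).1.trans (hd_pf e)).trans ih]

theorem reg (hV : V v α) (e : dat v α = some (h, td)) (hR : Reg v ρ) : td.headD h <+: ρ := by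
  cases hc : cont (SS v) α with
  | none =>
    obtain rfl := hV.eq hc
    rcases hR with hR | ⟨h', r, e', -⟩
    · simp [hR.1] at e
    · obtain ⟨rfl, rfl⟩ := Prod.mk.inj (Option.some.inj (e.symm.trans e'))
      exact List.prefix_rfl
  | some o => exact cont_hd e hc ▸ stem (V_cons.2 ⟨hV, hc⟩) hR

theorem home (e : dat u α = some (h, td)) (huv : u ≤ v) : ∃ td', dat v α = some (h, td') := by
  induction v, huv using Nat.le_induction with
  | base => exact ⟨td, e⟩
  | succ v _ ih =>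
    obtain ⟨td', e⟩ := ih
    rcases evo e with h1 | h1 | ⟨τ, r, -, -, -, h1⟩
    exacts [⟨_, h1.1⟩, ⟨_, h1.2.2⟩, ⟨_, h1⟩]

theorem popped {td' : List Bs} (e : dat u α = some (h, td)) (hτ : τ ∈ td) (huv : u ≤ v)
    (e' : dat v α = some (h, td')) (hτ' : τ ∉ td') : ∃ w, u ≤ w ∧ w < v ∧ be w = α ∧ Pop w τ := by
  induction v, huv using Nat.le_induction generalizing td' with
  | base => simp_all
  | succ v huv ih =>
    obtain ⟨t, e1⟩ := home e huv
    by_cases h1 : τ ∈ t
    · rcases evo e1 with h2 | h2 | ⟨σ, r, rfl, h2, h3, h4⟩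
      · simp_all
      · simp_all
      · obtain rfl : τ = σ := by simp_all
        exact ⟨v, huv, by omega, h2, h3⟩
    · exact (ih e1 h1).imp fun w hw => ⟨hw.1, by omega, hw.2.2⟩

/-- strings entering the list later are long -/
theorem fresh {td' : List Bs} (e : dat u α = some (h, td)) (huv : u ≤ v)
    (e' : dat v α = some (h, td')) (hτ : τ ∈ td') : τ ∈ td ∨ u < τ.length := by
  induction v, huv using Nat.le_induction generalizing td' with
  | base => simp_all
  | succ v huv ih =>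
    obtain ⟨t, e1⟩ := home e huv
    rcases evo e1 with ⟨h2, -⟩ | ⟨-, -, h2⟩ | ⟨σ, r, rfl, -, -, h2⟩ <;>
      obtain ⟨-, rfl⟩ := Prod.mk.inj (Option.some.inj (e'.symm.trans h2))
    · exact ih e1 hτ
    · exact Or.inr (by have := mem_W.1 (List.mem_filter.1 hτ).1; omega)
    · exact ih e1 (by simp [hτ])

theorem stab {v0 : ℕ} (h0 : ∀ v, v0 ≤ v → V v α → dat v α ≠ some (h, [])) (hu : v0 ≤ u)
    (e : dat u α = some (h, td)) : ∃ v1 td', ∀ v, v1 ≤ v → dat v α = some (h, td') := by
  induction td generalizing u with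
  | nil =>
    refine ⟨u, [], fun v hv => ?_⟩
    induction v, hv using Nat.le_induction with
    | base => exact e
    | succ v hv ih =>
      rcases evo ih with h2 | h2 | ⟨σ, r, h2, -⟩
      exacts [h2.1, absurd ih (h0 v (by omega) h2.1), by simp at h2]
  | cons τ r ih =>
    by_contra hc
    refine hc ⟨u, τ :: r, fun v hv => ?_⟩
    induction v, hv using Nat.le_induction with
    | base => exact e
    | succ v hv ih' =>
      rcases evo ih' with h2 | h2 | ⟨σ, r', h2, -, -, h3⟩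
      · exact h2.1
      · simp at h2
      · obtain ⟨rfl, rfl⟩ := List.cons.inj h2
        exact absurd (ih (by omega) h3) hc

structure Tr (α : List Bs) (s : ℕ) (l : Bs) : Prop where
  be : be s = α
  birth : Birth s l
  inf : ∀ n, ∃ v, n ≤ v ∧ V v α
  out : ∀ u v, s ≤ u → u < v → V u α → ¬ V v α →
    ∃ τ w, u < τ.length ∧ v ≤ w ∧ Pop w τ ∧ ∀ ρ, Reg v ρ → τ <+: ρ

variable {l : Bs}

theorem Tr.len (T : Tr α s l) : l.length = s := L_len T.birth.2.1

theorem Tr.dat (T : Tr α s l) (hv : s < v) : ∃ td, dat v α = some (l ++ [false], td) :=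
  home (T.be ▸ T.birth.2.2.2.1) hv

theorem Tr.ext (T : Tr α s l) (b : Bool) : Ext (l ++ [b]) := by
  intro v hv
  rw [List.length_append, T.len, List.length_singleton] at hv
  induction v, hv using Nat.le_induction with
  | base =>
    refine ⟨_, (T.birth.2.2.2.2 _).2 ?_, List.prefix_rfl⟩
    cases b
    exacts [Or.inr ⟨l, T.birth.2.1, rfl⟩, Or.inl rfl]
  | succ v hv ih =>
    refine survive ih fun τ hτ => ?_
    by_cases h1 : V v α
    · obtain ⟨td, e⟩ := T.dat hv
      simpa using ((hd_pf e).trans (reg h1 e (Or.inr hτ))).length_le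
    · obtain ⟨σ, w, h2, -, -, h3⟩ := T.out s v le_rfl hv (T.be ▸ V_be s) h1
      have := (h3 τ (Or.inr hτ)).length_le
      simp [T.len]; omega

theorem Tr.iso (T : Tr α s l) (h1 : s < ρ.length) (h2 : Spl ρ) : l ++ [false] <+: ρ := by
  obtain ⟨ν, a1, a2⟩ := h2.2 _ le_rfl
  obtain rfl := a2.eq_of_length (L_len a1).symm
  rw [List.length_append, List.length_singleton] at a1
  obtain ⟨l', b1, b2⟩ := (L_succ a1).resolve_left (by simp)
  obtain rfl : ρ = l' := by simpa using b2
  by_cases h3 : V ρ.length α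
  · obtain ⟨td, e⟩ := T.dat h1
    exact (hd_pf e).trans (reg h3 e (Or.inl b1))
  obtain ⟨τ, w, -, c1, ⟨h, r, c2, -, o, c3, -⟩, c4⟩ :=
    T.out s _ le_rfl h1 (T.be ▸ V_be s) h3
  have c5 : ρ.length < w := c1.lt_of_ne fun h => by simp [← h, b1.1] at c2
  have : ∀ b, ∃ ν, ρ ++ [b] <+: ν ∧ some ν = o := fun b => by
    obtain ⟨μ, d1, d2⟩ := (show Ext (ρ ++ [b]) by cases b; exacts [h2.1, h2.2]) (w + 1)
      (by simp; omega)
    obtain ⟨ν, d3, d4, rfl⟩ := (c3 μ).1 d1
    have := List.prefix_of_prefix_length_le d2 (List.prefix_append _ _) (by simp [L_len d3]; omega)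
    exact ⟨ν, this, d4 (((c4 ρ (Or.inl b1)).trans (List.prefix_append _ _)).trans this)⟩
  obtain ⟨ν, d1, d2⟩ := this false
  obtain ⟨ν', d3, d4⟩ := this true
  obtain rfl := Option.some.inj (d2.trans d4.symm)
  simpa using (List.prefix_of_prefix_length_le d1 d3 (by simp)).eq_of_length (by simp)

theorem child {o : Bs} (T : Tr α s l)
    (h1 : ∀ n, ∃ v, n ≤ v ∧ V v (o :: α) ∧ ∃ ν ∈ L v, o <+: ν)
    (h2 : ∀ u v, u < v → V u (o :: α) → V v α → ¬ V v (o :: α) →
      ∃ τ w, u < τ.length ∧ v ≤ w ∧ Pop w τ ∧ ∀ ρ, Reg v ρ → τ <+: ρ) :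
    ∃ s' l', s < s' ∧ Tr (o :: α) s' l' := by
  obtain ⟨s', l', a1, a2⟩ : ∃ s' l', be s' = o :: α ∧ Birth s' l' := by
    by_contra! hc
    have h3 : ∀ v, dat v (o :: α) = none := fun v => by
      induction v with
      | zero => rfl
      | succ v ih => exact (evo0 ih).resolve_right fun ⟨l, h⟩ => hc v l h.1 h.2
    obtain ⟨v, -, b1, ν, b2, b3⟩ := h1 0
    have b4 := b1.eq (by rw [cont, show look (SS v) (o :: α) = none from h3 v]; rfl)
    rcases tri v with ⟨l, h⟩ | h | ⟨τ, h, r, b5, -⟩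
    · exact hc v l b4 h
    · exact h.2.1 ν b2 (by rwa [b4])
    · simp [b4, h3] at b5
  have a3 : s < s' := by
    by_contra! h
    have h3 := (V_cons.1 (a1 ▸ V_be s')).2
    obtain ⟨h', td, e⟩ : ∃ h' td, dat s' α = some (h', td) := by
      rcases cont_iff.1 h3 with e | ⟨h, r, e, -⟩ <;> exact ⟨_, _, e⟩
    obtain ⟨td', e'⟩ := home e h
    simp [← T.be, T.birth.1] at e'
  refine ⟨s', l', a3, a1, a2, fun n => (h1 n).imp fun v h => ⟨h.1, h.2.1⟩, fun u v b1 b2 b3 b4 => ?_⟩
  by_cases h : V v α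
  exacts [h2 u v b2 b3 h b4, T.out u v (by omega) b2 (V_cons.1 b3).1 h]

theorem step (T : Tr α s l) : ∃ o s' l', s < s' ∧ Tr (o :: α) s' l' ∧ l ++ [false] <+: o ∧
    ((∀ n, ∃ v, n ≤ v ∧ ∀ μ ∈ L v, l ++ [false] <+: μ → conv α.length n μ = true) ∨
      ∀ n, ∃ v, n ≤ v ∧ ∀ μ ∈ L v, o <+: μ → conv α.length o.length μ = false) := by
  by_cases hA : ∀ n, ∃ v, n ≤ v ∧ V v α ∧ dat v α = some (l ++ [false], [])
  · have hV : ∀ {v}, s < v → V v ((l ++ [false]) :: α) → dat v α = some (l ++ [false], []) :=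
      fun hv h => by
        obtain ⟨td, e⟩ := T.dat hv
        have h1 := cont_hd e (V_cons.1 h).2
        cases td with
        | nil => exact e
        | cons τ r => simpa [← show l ++ [false] = τ from h1] using (inv e).2.2.2 τ (by simp)
    obtain ⟨s', l', a1, a2⟩ := child (o := l ++ [false]) T (fun n => by
      obtain ⟨v, b1, b2, b3⟩ := hA n
      exact ⟨v, b1, V_cons.2 ⟨b2, cont_iff.2 (Or.inl b3)⟩, T.ext _ _ (inv b3).2.1⟩)
      fun u v b1 b2 b3 b4 => by
        have b5 : dat u α = some (l ++ [false], []) := by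
          refine hV (lt_of_not_ge fun h => ?_) b2
          obtain ⟨h', td, e⟩ : ∃ h' td, dat u α = some (h', td) := by
            rcases cont_iff.1 (V_cons.1 b2).2 with e | ⟨h, r, e, -⟩ <;> exact ⟨_, _, e⟩
          obtain ⟨td', e'⟩ := home e h
          simp [← T.be, T.birth.1] at e'
        obtain ⟨_ | ⟨τ, r⟩, e⟩ := home b5 b1.le
        · exact absurd (V_cons.2 ⟨b3, cont_iff.2 (Or.inl e)⟩) b4
        obtain ⟨x, c1, -, c2⟩ := hA v
        obtain ⟨w, c3, -, -, c4⟩ := popped (τ := τ) e (by simp) c1 c2 (by simp)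
        rcases evo b5 with h | ⟨-, -, h⟩ | ⟨_, _, h, -⟩
        · exact absurd rfl (h.2.2 (V_cons.1 b2).1)
        · refine ⟨τ, w, ?_, c3, c4, fun ρ => reg b3 e⟩
          rcases fresh (τ := τ) h b1 e (by simp) with h | h
          · have := mem_W.1 (List.mem_filter.1 h).1
            omega
          · omega
        · simp at h
    refine ⟨_, s', l', a1, a2, List.prefix_rfl, Or.inl fun n => ?_⟩
    obtain ⟨u, b1, b2, b3⟩ := hA n
    obtain ⟨v, b4, -, b5⟩ := hA (u + 1)
    refine ⟨v, by omega, fun μ c1 c2 => ?_⟩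
    rcases evo b3 with h | ⟨-, -, h⟩ | ⟨_, _, h, -⟩
    · exact absurd rfl (h.2.2 b2)
    swap
    · simp at h
    have c0 := L_len c1
    have c3 := (inv b3).2.1
    obtain ⟨w, d1, d2, rfl, -, -, -, -, o, d3, d4, -⟩ := popped (τ := μ.take (u + 1)) h
      (List.mem_filter.2 ⟨mem_W.2 (by simp; omega), pf_iff.2 (List.prefix_take_iff.2
        ⟨c2, by omega⟩)⟩) b4 b5 (by simp)
    obtain ⟨ν, d5, d6, d7⟩ := (d3 _).1 (L_take c1 d2)
    have d8 : ν <+: μ := (List.prefix_append _ _).trans (d7 ▸ List.take_prefix _ _)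
    exact conv_mono (d4 ν (d6 (List.prefix_of_prefix_length_le (List.take_prefix _ _) d8
      (by simp [L_len d5]; omega)))) (by simp; omega) d8
  push Not at hA
  obtain ⟨v0, hA⟩ := hA
  obtain ⟨td, e0⟩ := T.dat (v := s + 1 + v0) (by omega)
  obtain ⟨v1, td, e1⟩ := stab hA (by omega) e0
  rcases td with _ | ⟨τ, r⟩
  · obtain ⟨v, b1, b2⟩ := T.inf (v0 + v1)
    exact absurd (e1 v (by omega)) (hA v (by omega) b2)
  have key : ∀ {v r'}, V v α → dat v α = some (l ++ [false], τ :: r') →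
      dat (v + 1) α = some (l ++ [false], τ :: r') → cont (SS v) α = some τ := fun {v r'} a e e' => by
    cases hc : cont (SS v) α with
    | some o => rw [cont_hd e hc]; rfl
    | none =>
      rcases evo e with h | h | ⟨_, _, h, -, -, h'⟩
      · exact absurd (a.eq hc) h.2.1
      · simp at h
      · obtain ⟨rfl, rfl⟩ := List.cons.inj h
        simp [e'] at h'
  have hB : ∀ n, ∃ v, n ≤ v ∧ V v (τ :: α) ∧ (∃ ν ∈ L v, τ <+: ν) ∧
      ∀ μ ∈ L v, τ <+: μ → conv α.length τ.length μ = false := fun n => by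
    obtain ⟨v, b1, b2⟩ := T.inf (n + v1)
    have e := e1 v (by omega)
    have hc := key b2 e (e1 _ (by omega))
    refine ⟨v, by omega, V_cons.2 ⟨b2, hc⟩, ?_⟩
    rcases cont_iff.1 hc with h | ⟨_, _, -, h⟩
    exacts [by simp [e] at h, h]
  have e2 := (inv (e1 v1 le_rfl)).2.2.2 τ (by simp)
  obtain ⟨s', l', a1, a2⟩ := child (o := τ) T
    (fun n => (hB n).imp fun v h => ⟨h.1, h.2.1, h.2.2.1⟩) fun u v b1 b2 b3 b4 => by
      obtain ⟨r', e⟩ : ∃ r', dat u α = some (l ++ [false], τ :: r') := by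
        rcases cont_iff.1 (V_cons.1 b2).2 with e | ⟨h, r', e, -⟩ <;>
          obtain ⟨t, e'⟩ := home e (le_max_left u v1) <;>
          obtain ⟨rfl, -⟩ := Prod.mk.inj (Option.some.inj (e'.symm.trans (e1 _ (le_max_right _ _))))
        exacts [absurd e2.2.1 (lt_irrefl _), ⟨r', e⟩]
      have : ∀ x, u ≤ x → dat x α = some (l ++ [false], τ :: r') := fun x hx => by
        induction x, hx using Nat.le_induction with
        | base => exact e
        | succ x hx ih =>
          rcases evo ih with h | h | ⟨_, _, h, -, -, h'⟩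
          · exact h.1
          · simp at h
          · obtain ⟨rfl, rfl⟩ := List.cons.inj h
            have := (inv ih).2.2
            rcases fresh (τ := τ) h' (le_max_left _ v1) (e1 _ (le_max_right _ _)) (by simp)
              with h | h
            · exact absurd h (List.nodup_cons.1 this.1).1
            · have := this.2 τ (by simp)
              omega
      exact absurd (V_cons.2 ⟨b3, key b3 (this v b1.le) (this _ (by omega))⟩) b4
  exact ⟨τ, s', l', a1, a2, e2.1, Or.inr fun n => (hB n).imp fun v h => ⟨h.1, h.2.2.2⟩⟩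

theorem root : Tr [] 0 [] := by
  refine ⟨rfl, ?_, fun n => ⟨n, le_rfl, 0, by omega, rfl⟩,
    fun u v _ _ _ h => absurd ⟨0, by omega, rfl⟩ h⟩
  rcases tri 0 with ⟨l, h⟩ | h | ⟨τ, h, r, e, -⟩
  · rwa [List.length_eq_zero_iff.1 (L_len h.2.1)] at h
  · exact absurd List.prefix_rfl (h.2.1 [] (by simp [L, SS]))
  · simp [dat, look, SS] at e

theorem exists_pt : ∃ A : ℕ → Bool, (∀ v, pre A v ∈ L v) ∧
    (∀ k, ∃ n, k ≤ n ∧ A n = false ∧ Ext (pre A n ++ [true]) ∧
      ∀ ρ : Bs, n < ρ.length → Spl ρ → pre A (n + 1) <+: ρ) ∧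
    ∀ e, (∀ m, (app e (bit A) m).Dom) →
      ∃ k, ∀ n, ∃ v, n ≤ v ∧ ∀ μ ∈ L v, pre A k <+: μ → conv e n μ = true := by
  choose! o s' l' h1 h2 h3 h4 using fun (p : List Bs × ℕ × Bs) (T : Tr p.1 p.2.1 p.2.2) => step T
  let N : ℕ → List Bs × ℕ × Bs := fun i => i.rec ([], 0, []) fun _ p => (o p :: p.1, s' p, l' p)
  have T : ∀ i, Tr (N i).1 (N i).2.1 (N i).2.2 := fun i => by
    induction i with
    | zero => exact root
    | succ i ih => exact h2 _ ih
  have a1 : ∀ i, (N i).1.length = i ∧ i ≤ (N i).2.1 := fun i => by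
    induction i with
    | zero => exact ⟨rfl, le_rfl⟩
    | succ i ih => exact ⟨congrArg (· + 1) ih.1, ih.2.trans_lt (h1 _ (T i))⟩
  have a0 : ∀ i, o (N i) <+: (N (i + 1)).2.2 ++ [false] := fun i => by
    have := (T (i + 1)).birth.2.2.1
    rw [(T (i + 1)).be] at this
    exact this.trans (List.prefix_append _ _)
  have a2 : ∀ i j, i ≤ j → (N i).2.2 ++ [false] <+: (N j).2.2 ++ [false] := fun i j h => by
    induction j, h using Nat.le_induction with
    | base => exact List.prefix_rfl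
    | succ j _ ih => exact ih.trans ((h3 _ (T j)).trans (a0 j))
  let A : ℕ → Bool := fun i => ((N i).2.2 ++ [false]).getD i false
  have a3 : ∀ i, pre A ((N i).2.1 + 1) = (N i).2.2 ++ [false] := fun i => by
    refine List.ext_getElem (by simp [(T i).len]) fun j b1 b2 => ?_
    have b3 : j < ((N j).2.2 ++ [false]).length := by simp [(T j).len]; have := a1 j; omega
    simp only [pre, List.getElem_map, List.getElem_range, A, List.getD_eq_getElem _ _ b3]
    rw [(a2 _ _ (le_max_left i j)).getElem, (a2 _ _ (le_max_right i j)).getElem]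
  have a4 : ∀ v, pre A v ∈ L v := fun v => by
    have b1 := (a1 v).2
    rw [← take_pre A (show v ≤ (N v).2.1 + 1 by omega), a3]
    exact L_take (((T v).birth.2.2.2.2 _).2 (Or.inr ⟨_, (T v).birth.2.1, rfl⟩)) (by omega)
  refine ⟨A, a4, fun k => ?_, fun e he => ?_⟩
  · have := a3 k
    rw [pre_succ] at this
    obtain ⟨b1, b2⟩ := List.append_inj' this rfl
    exact ⟨_, (a1 k).2, by simpa using b2, b1 ▸ (T k).ext true, fun ρ c1 c2 =>
      a3 k ▸ (T k).iso c1 c2⟩
  · refine ⟨_, a3 e ▸ (a1 e).1 ▸ (h4 _ (T e)).resolve_right fun h => ?_⟩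
    have : ∀ᶠ v in atTop, ∀ m ∈ Finset.range (o (N e)).length,
        (U e (pre (bit A) v) m).isSome = true := (eventually_all_finset _).2 fun m _ => by
      obtain ⟨x, hx⟩ := Part.dom_iff_mem.1 (he m)
      exact (mem_app'.1 hx).mono fun v hv => by simp [hv]
    obtain ⟨n, hn⟩ := eventually_atTop.1 this
    obtain ⟨v, b1, b2⟩ := h (n + ((N (e + 1)).2.1 + 1))
    have := b2 _ (a4 v) ((a0 e).trans (List.IsPrefix.trans
      ⟨[], (List.append_nil _).trans (a3 (e + 1)).symm⟩ (pre_pf A (by omega))))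
    rw [(a1 e).1, ← Bool.not_eq_true] at this
    exact this (by simpa [conv, map_pre] using hn v (by omega))

end Pool.Agent.H37.Nc
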