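import Pool.Agent.H37.VlDefs

/-! Randomness for continuous measures, moduli, hyperarithmetic reals. -/

set_option autoImplicit false

namespace Pool.Agent.H37.Nc

open MeasureTheory Defc Vl

/-- `R` computes the values of `μ` on cylinders to any precision -/
def Rep (R : ℕ → Bool) (μ : Measure (ℕ → Bool)) : Prop :=
  ∃ f : List Bool × ℕ → ℕ, RecursiveIn {chi R} (fun p => Part.some (f p)) ∧
    ∀ σ k, |(μ {x | cut x σ.length = σ}).toReal - f (σ, k) / 2 ^ k| ≤ 1 / 2 ^ k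

/-- `X` passes every Martin-Löf `μ`-test relative to `R` -/
def Passes (μ : Measure (ℕ → Bool)) (R X : ℕ → Bool) : Prop :=
  ∀ V : ℕ × List Bool →. Unit, RecursiveIn {chi R} V →
    (∀ k, μ {x | ∃ n, (V (k, cut x n)).Dom} ≤ 2⁻¹ ^ k) → ∃ k, ∀ n, ¬ (V (k, cut X n)).Dom

/-- not random for any continuous probability measure -/
def NCR (X : ℕ → Bool) : Prop :=
  ∀ μ : Measure (ℕ → Bool), IsProbabilityMeasure μ → (∀ x, μ {x} = 0) →
    ¬ ∃ R, Rep R μ ∧ Passes μ R X

def Modulus (f : ℕ → ℕ) (X : ℕ → Bool) : Prop :=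
  ∀ g : ℕ → ℕ, (∀ n, f n ≤ g n) → TuringReducible (chi X) fun n => Part.some (g n)

def SelfModulus (X : ℕ → Bool) : Prop :=
  ∃ f : ℕ → ℕ, TuringReducible (fun n => Part.some (f n)) (chi X) ∧ Modulus f X

/-- Kleene normal form of the lightface analytic sets of numbers -/
def Sigma11 (S : ℕ → Prop) : Prop :=
  ∃ T : ℕ × List ℕ → Bool, Computable T ∧
    ∀ n, S n ↔ ∃ f : ℕ → ℕ, ∀ m, T (n, (List.range m).map f) = true

def Delta11 (X : ℕ → Bool) : Prop :=
  Sigma11 (fun n => X n = true) ∧ Sigma11 fun n => X n = false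

end Pool.Agent.H37.Nc
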