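import Pool.Agent.H37.Nc2
import Pool.Agent.H37.NcDefs

/-! A hyperarithmetic real, never continuously random, whose degree has no self-modulus. -/

set_option autoImplicit false

namespace Pool.Agent.H37.Nc

open Filter Rnd Encodable Hd MeasureTheory Defc Vl Topology

theorem ci_L {γ : Type} [Primcodable γ] {O : Set (ℕ →. ℕ)} : ∃ F : ℕ → List Bs, CI O F ∧ L = F :=
  ⟨L, (CI.snd ci_SS).of_empty, rfl⟩

theorem sigma11_of {S : ℕ → Prop} (D : ℕ × Bs × ℕ × Bs × ℕ → Bool) (hD : CI ∅ D)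
    (h : ∀ n, S n ↔ ∃ σ, ∀ m, ∃ ρ, ∀ v, D (n, σ, m, ρ, v) = true) : Sigma11 S := by
  refine ⟨fun q => (List.range (q.2.length - 1)).all fun m => (List.range q.2.length).all fun v =>
    D (q.1, (decode (q.2.getD 0 0)).getD [], m, (decode (q.2.getD (m + 1) 0)).getD [], v),
    CI.computable (by fun_prop), fun n => (h n).trans ?_⟩
  change _ ↔ ∃ f : ℕ → ℕ, ∀ k, ((List.range ((pre f k).length - 1)).all fun m =>
    (List.range (pre f k).length).all fun v => D (n, (decode ((pre f k).getD 0 0)).getD [], m,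
      (decode ((pre f k).getD (m + 1) 0)).getD [], v)) = true
  simp only [List.all_eq_true, List.mem_range, length_pre]
  constructor
  · rintro ⟨σ, h1⟩
    choose ρ hρ using h1
    refine ⟨fun i => i.casesOn (encode σ) fun m => encode (ρ m), fun k m hm v _ => ?_⟩
    rw [getD_pre _ (by omega), getD_pre _ (by omega)]
    simpa using hρ m v
  · rintro ⟨f, hf⟩
    refine ⟨(decode (f 0)).getD [], fun m => ⟨(decode (f (m + 1))).getD [], fun v => ?_⟩⟩
    have := hf (m + v + 2) m (by omega) v (by omega)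
    rwa [getD_pre _ (by omega), getD_pre _ (by omega)] at this

theorem ext_pre {X : ℕ → Bool} (h : ∀ v, pre X v ∈ L v) (n : ℕ) : Ext (pre X n) :=
  fun v hv => ⟨_, h v, pre_pf X (by simpa using hv)⟩

section
variable {A : ℕ → Bool} (hL : ∀ v, pre A v ∈ L v)
  (hI : ∀ k, ∃ n, k ≤ n ∧ A n = false ∧ Ext (pre A n ++ [true]) ∧
    ∀ ρ : Bs, n < ρ.length → Spl ρ → pre A (n + 1) <+: ρ)
  (hP : ∀ e, (∀ m, (app e (bit A) m).Dom) →
    ∃ k, ∀ n, ∃ v, n ≤ v ∧ ∀ μ ∈ L v, pre A k <+: μ → conv e n μ = true)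

include hL hI in
theorem sig (b : Bool) : Sigma11 fun n => A n = b := by
  obtain ⟨F, hF, e⟩ := ci_L (γ := ℕ) (O := ∅)
  refine sigma11_of (fun q => q.2.1.length == q.1 && pf (q.2.1 ++ [b]) q.2.2.2.1 &&
    decide (q.2.2.1 ≤ q.2.2.2.1.length) && (decide (q.2.2.2.2 ≤ q.2.2.2.1.length) ||
      ((F q.2.2.2.2).any fun ν => pf (q.2.2.2.1 ++ [false]) ν) &&
      (F q.2.2.2.2).any fun ν => pf (q.2.2.2.1 ++ [true]) ν)) (by fun_prop) fun n => ?_
  simp only [← e, Bool.and_eq_true, Bool.or_eq_true, List.any_eq_true, pf_iff, beq_iff_eq,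
    decide_eq_true_eq]
  constructor
  · rintro rfl
    refine ⟨pre A n, fun m => ?_⟩
    obtain ⟨k, h1, h2, h3, -⟩ := hI (m + n + 1)
    refine ⟨pre A k, fun v => ⟨⟨⟨by simp, pre_succ A n ▸ pre_pf A (by omega)⟩, by simp; omega⟩,
      (le_or_gt _ _).imp_right fun h => ⟨?_, h3 v (by simpa using h)⟩⟩⟩
    rw [← h2, ← pre_succ]
    exact ext_pre hL _ v (by simpa using h)
  · rintro ⟨σ, h⟩
    obtain ⟨k, h1, -, -, h2⟩ := hI n
    obtain ⟨ρ, h3⟩ := h (k + 1)
    obtain ⟨⟨⟨rfl, h4⟩, h5⟩, -⟩ := h3 0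
    have h6 := h2 ρ h5 ⟨fun v hv => ((h3 v).2.resolve_left (by simp at hv; omega)).1,
      fun v hv => ((h3 v).2.resolve_left (by simp at hv; omega)).2⟩
    have h7 := pf_pre (List.prefix_of_prefix_length_le h4 h6 (by simp; omega))
    rw [List.length_append, List.length_singleton, pre_succ] at h7
    simpa using (List.append_inj' h7 rfl).2.symm

include hI in
theorem cnt : {X : ℕ → Bool | ∀ v, pre X v ∈ L v}.Countable := by
  refine ((Set.countable_iUnion fun σ : Bs => Set.Subsingleton.countable (s := {X : ℕ → Bool |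
    X ∈ cyl σ ∧ (∀ v, pre X v ∈ L v) ∧ ∀ Y ∈ cyl σ, (∀ v, pre Y v ∈ L v) → Y = X})
      fun X hX Y hY => hY.2.2 X hX.1 hX.2.1).insert A).mono fun X hX => ?_
  refine or_iff_not_imp_left.2 fun h => ?_
  obtain ⟨i, hi⟩ := Function.ne_iff.1 h
  obtain ⟨n, h1, -, -, h2⟩ := hI i
  refine Set.mem_iUnion.2 ⟨pre X (n + 1), by simp [cyl], hX, fun Y hY hY' => ?_⟩
  by_contra h3
  have h4 := Function.ne_iff.1 h3
  have h5 : pre Y (Nat.find h4) = pre X (Nat.find h4) :=
    pre_congr fun j hj => not_not.1 (Nat.find_min h4 hj)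
  have h6 : n < Nat.find h4 := lt_of_not_ge fun h => Nat.find_spec h4
    (pre_eq_iff.1 (show pre Y (n + 1) = pre X (n + 1) by simpa [cyl] using hY) _ (by omega))
  have a1 := ext_pre hX (Nat.find h4 + 1)
  have a2 := ext_pre hY' (Nat.find h4 + 1)
  have a3 := Nat.find_spec h4
  rw [pre_succ] at a1 a2
  rw [h5] at a2
  have := pf_pre (h2 (pre X (Nat.find h4)) (by simpa using h6) (by
    unfold Spl
    cases e : X (Nat.find h4) <;> cases e' : Y (Nat.find h4) <;> simp_all))
  rw [length_pre] at this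
  exact hi (pre_eq_iff.1 this i (by omega)).symm

theorem real_pre (μ : Measure (ℕ → Bool)) [IsFiniteMeasure μ] (p : Bs → Bool) (v : ℕ) :
    μ.real {ω | p (pre ω v) = true} = (((W v).filter p).map fun τ => μ.real (cyl τ)).sum := by
  have e : {ω | p (pre ω v) = true} = ⋃ τ ∈ ((W v).filter p).toFinset, cyl τ := by
    ext ω
    simp only [Set.mem_setOf_eq, List.mem_toFinset, List.mem_filter, mem_W, Set.mem_iUnion, cyl]
    exact ⟨fun h => ⟨_, ⟨by simp, h⟩, by simp⟩, fun ⟨τ, ⟨h1, h2⟩, h3⟩ => by rwa [← h1, h3]⟩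
  rw [e, measureReal_biUnion_finset _ (fun τ _ => meas_cyl τ),
    List.sum_toFinset _ ((nodup_W v).filter _)]
  intro a ha b hb hab
  have h1 := mem_W.1 (List.mem_filter.1 (List.mem_toFinset.1 ha)).1
  have h2 := mem_W.1 (List.mem_filter.1 (List.mem_toFinset.1 hb)).1
  exact disj_cyl (fun h => hab (h.eq_of_length (by omega)))
    fun h => hab (h.eq_of_length (by omega)).symm

theorem sum_bd {g : Bs → ℝ} {f : Bs → ℕ} {c : ℝ} (h : ∀ σ, |g σ - f σ / c| ≤ 1 / c) (M : List Bs) :
    (M.map g).sum ≤ ((M.map fun σ => f σ + 1).sum : ℕ) / c ∧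
      ((M.map fun σ => f σ + 1).sum : ℕ) / c ≤ (M.map g).sum + M.length * 2 / c := by
  induction M with
  | nil => simp
  | cons σ M ih =>
    have := abs_le.1 (h σ)
    simp only [List.map_cons, List.sum_cons, List.length_cons, Nat.cast_add, Nat.cast_one,
      add_div, add_mul, one_mul] at ih ⊢
    have e : 2 / c = 1 / c + 1 / c := by ring
    constructor <;> linarith

include hL hI in
theorem ncr : NCR A := by
  rintro μ _ h0 ⟨R, ⟨f, hf, hf'⟩, h⟩
  haveI : NullSingletonClass μ := ⟨h0⟩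
  have hf : CI {chi R} f := CI.of_ri hf
  obtain ⟨F, hF, e⟩ := ci_L (γ := ℕ) (O := {chi R})
  have t1 := tendsto_measure_iInter_atTop (μ := μ) (s := fun v => {ω | pre ω v ∈ L v})
    (fun v => (meas_set (· ∈ L v) v).nullMeasurableSet)
    (fun u v h ω h' => show pre ω u ∈ L u from take_pre ω h ▸ L_take h' h) ⟨0, measure_ne_top _ _⟩
  rw [← Set.setOf_forall, (cnt hI).measure_zero] at t1
  have t2 := (ENNReal.tendsto_toReal ENNReal.zero_ne_top).comp t1
  have e1 : ∀ v, μ.real {ω | pre ω v ∈ L v} =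
      (((W v).filter fun τ => (F v).contains τ).map fun τ => μ.real (cyl τ)).sum := fun v => by
    simpa [e] using real_pre μ (fun τ => (F v).contains τ) v
  obtain ⟨g, hg, hg'⟩ := CI.exists_choice (O := {chi R}) (p := fun (k : ℕ) (q : ℕ × ℕ) =>
    decide ((((W q.1).filter fun τ => (F q.1).contains τ).map fun τ => f (τ, q.2) + 1).sum *
      2 ^ k ≤ 2 ^ q.2)) (by fun_prop) fun k => by
    obtain ⟨v, hv⟩ := (t2.eventually_lt_const (show (0 : ENNReal).toReal < 1 / 2 ^ k by
      simp)).exists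
    have hv : μ.real {ω | pre ω v ∈ L v} < 1 / 2 ^ k := hv
    have t3 : Tendsto (fun j : ℕ => μ.real {ω | pre ω v ∈ L v} +
        ((W v).filter fun τ => (F v).contains τ).length * 2 / 2 ^ j) atTop
        (𝓝 (μ.real {ω | pre ω v ∈ L v} + 0)) :=
      tendsto_const_nhds.add (tendsto_const_nhds.div_atTop
        (tendsto_pow_atTop_atTop_of_one_lt one_lt_two))
    obtain ⟨j, hj⟩ := (t3.eventually_lt_const ((add_zero _).trans_lt hv)).exists
    refine ⟨(v, j), decide_eq_true ?_⟩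
    have := ((sum_bd (g := fun τ => μ.real (cyl τ)) (fun σ => hf' σ j) _).2.trans_lt
      (e1 v ▸ hj)).le
    rw [div_le_div_iff₀ (by positivity) (by positivity), one_mul] at this
    exact_mod_cast this
  obtain ⟨k, hk⟩ := h (fun q => (cond ((F (g q.1).1).contains q.2) (some ()) none : Option Unit))
    (RI.ofOption (by fun_prop)) fun k => by
      have e2 : {x : ℕ → Bool | ∃ n, ((cond ((F (g k).1).contains (cut x n)) (some ()) none :
          Option Unit) : Part Unit).Dom} ⊆ {ω | pre ω (g k).1 ∈ L (g k).1} := by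
        rintro x ⟨n, hn⟩
        have : pre x n ∈ L (g k).1 := by
          by_contra h
          simp [← e, cut_eq, h] at hn
        obtain rfl : n = (g k).1 := by simpa using L_len this
        exact this
      refine (measure_mono e2).trans ?_
      rw [← ENNReal.toReal_le_toReal (measure_ne_top _ _) (by simp)]
      refine ((e1 _).trans_le (sum_bd (fun σ => hf' σ (g k).2) _).1).trans ?_
      have := of_decide_eq_true (hg' k)
      simp only [ENNReal.toReal_pow, ENNReal.toReal_inv, ENNReal.toReal_ofNat, inv_pow]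
      rw [← one_div, div_le_div_iff₀ (by positivity) (by positivity), one_mul]
      exact_mod_cast this
  exact hk (g k).1 (by simp [← e, cut_eq, hL])

include hI hP in
theorem noncomp : ¬ CI ∅ A := fun h => by
  have hb := ci_bit.2 h
  obtain ⟨e, h1, h2⟩ := exists_U (Φ := fun σ n => cond (σ.take n == pre (bit A) n) (some 0) none)
    (by fun_prop) (by
      rintro σ τ n v ⟨ρ, rfl⟩ h
      by_cases h1 : σ.take n = pre (bit A) n
      · have := congrArg List.length h1
        beta_reduce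
        rw [List.take_append_of_le_length (by simp at this; omega)]
        exact h
      · simp [h1, Bool.cond_eq_ite] at h)
  obtain ⟨k, hk⟩ := hP e fun m => Part.dom_iff_mem.2 ⟨0, (h2 _ _ _).2 ⟨m, by simp [take_pre]⟩⟩
  obtain ⟨n, a1, a2, a3, -⟩ := hI k
  obtain ⟨v, a4, a5⟩ := hk (n + 2)
  obtain ⟨μ, a6, a7⟩ := a3 v (by simp; omega)
  have a8 := a5 μ a6 ((pre_pf A a1).trans ((List.prefix_append _ _).trans a7))
  simp only [conv, List.all_eq_true, List.mem_range, Option.isSome_iff_exists] at a8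
  obtain ⟨x, hx⟩ := a8 (n + 1) (by omega)
  have a9 : (μ.map Bool.toNat).take (n + 1) = pre (bit A) (n + 1) := by
    by_contra h
    simpa [h, Bool.cond_eq_ite] using h1 _ _ _ hx
  obtain ⟨ρ, rfl⟩ := a7
  rw [List.map_append, List.take_left' (by simp), pre_succ, List.map_append] at a9
  simpa [bit, a2] using (List.append_inj' a9 rfl).2

include hL hP in
theorem domin {f : ℕ → ℕ} (hf : CI (orc (bit A)) f) : ∃ g, CI ∅ g ∧ ∀ n, f n ≤ g n := by
  obtain ⟨e, he⟩ := exists_app_tot hf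
  obtain ⟨k, hk⟩ := hP e fun m => Part.dom_iff_mem.2 ⟨_, he m⟩
  obtain ⟨F, hF, e1⟩ := ci_L (γ := ℕ) (O := ∅)
  obtain ⟨g, hg, hg'⟩ := CI.exists_choice (O := ∅) (p := fun n v : ℕ => decide (k ≤ v) &&
    (F v).all fun μ => !pf (pre A k) μ || conv e (n + 1) μ) (by fun_prop) fun n => by
      obtain ⟨v, a1, a2⟩ := hk (n + 1 + k)
      refine ⟨v, ?_⟩
      simp only [← e1, Bool.and_eq_true, decide_eq_true_eq, List.all_eq_true, Bool.or_eq_true,
        Bool.not_eq_true', ← Bool.not_eq_true, pf_iff, ← imp_iff_not_or]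
      exact ⟨by omega, fun μ h h' => conv_mono (a2 μ h h') (by omega) List.prefix_rfl⟩
  refine ⟨fun n => ((F (g n)).map fun μ => (U e (μ.map fun b => b.toNat) n).getD 0).sum,
    by fun_prop, fun n => ?_⟩
  have := hg' n
  simp only [← e1, Bool.and_eq_true, decide_eq_true_eq, List.all_eq_true, Bool.or_eq_true,
    Bool.not_eq_true', ← Bool.not_eq_true, pf_iff, ← imp_iff_not_or] at this
  have a1 := this.2 _ (hL _) (pre_pf A this.1)
  simp only [conv, List.all_eq_true, List.mem_range, Option.isSome_iff_exists] at a1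
  obtain ⟨x, hx⟩ := a1 n (by omega)
  obtain rfl : f n = x := Part.mem_unique (he n) (mem_app.2 ⟨_, map_pre A _ ▸ hx⟩)
  refine List.single_le_sum (by simp) _ (List.mem_map.2 ⟨_, e1 ▸ hL (g n), ?_⟩)
  exact (congrArg (Option.getD · 0) hx).trans rfl

end

theorem main : ∃ A, Delta11 A ∧ NCR A ∧
    ∀ B, TuringEquivalent (chi A) (chi B) → ¬ SelfModulus B := by
  obtain ⟨A, hL, hI, hP⟩ := exists_pt
  refine ⟨A, ⟨sig hL hI _, sig hL hI _⟩, ncr hL hI, fun B ⟨h1, h2⟩ ⟨f, h3, h4⟩ => noncomp hI hP ?_⟩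
  obtain ⟨g, h5, h6⟩ := domin hL hP ((tr_fun.1 h3).trans (ci_bit.2 (tr_iff.1 h2)))
  exact CI.trans (tr_iff.1 h1) (CI.trans (CI.of_ri (h4 g h6)) h5)

end Pool.Agent.H37.Nc
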