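import Pool.Agent.H37.NegDefs
import Pool.Agent.H37.Blm1

namespace Pool.Agent.H37.Neg

open Nat.Partrec Nat.Partrec.Code Filter

def In (e x s : ℕ) : Bool := (ev e x s).isSome
def Ws (e : ℕ) : Set ℕ := {x | ∃ s, In e x s = true}
def Cons (σ : List Datum) (e s : ℕ) : Bool :=
  σ.all fun d => d.elim true fun p => !p.2 || In e p.1 s
def V (σ : List Datum) (m x s : ℕ) : Bool :=
  (List.range (m + 1)).all fun e => !Cons σ e s || In e x s
def Ref (σ : List Datum) (m s : ℕ) : Bool :=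
  σ.any fun d => d.elim false fun p => !p.2 && V σ m p.1 s
def D (σ : List Datum) (x s : ℕ) : Bool :=
  decide (x ≤ s) && (List.range σ.length).any fun m => !Ref σ m s && V σ m x s

variable {α : Type} [Primcodable α]

@[fun_prop] theorem ci_In {e x s : α → ℕ} (he : CI ∅ e) (hx : CI ∅ x) (hs : CI ∅ s) :
    CI ∅ fun a => In (e a) (x a) (s a) := by unfold In; fun_prop

theorem ci_Cons0 : CI ∅ fun q : List Datum × ℕ × ℕ => Cons q.1 q.2.1 q.2.2 := by
  unfold Cons; fun_prop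

@[fun_prop] theorem ci_Cons {σ : α → List Datum} {e s : α → ℕ} (hσ : CI ∅ σ) (he : CI ∅ e)
    (hs : CI ∅ s) : CI ∅ fun a => Cons (σ a) (e a) (s a) :=
  ci_Cons0.comp (g := fun a => (σ a, e a, s a)) (by fun_prop)

theorem ci_V0 : CI ∅ fun q : List Datum × ℕ × ℕ × ℕ => V q.1 q.2.1 q.2.2.1 q.2.2.2 := by
  unfold V; fun_prop

@[fun_prop] theorem ci_V {σ : α → List Datum} {m x s : α → ℕ} (hσ : CI ∅ σ) (hm : CI ∅ m)
    (hx : CI ∅ x) (hs : CI ∅ s) : CI ∅ fun a => V (σ a) (m a) (x a) (s a) :=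
  ci_V0.comp (g := fun a => (σ a, m a, x a, s a)) (by fun_prop)

theorem ci_Ref0 : CI ∅ fun q : List Datum × ℕ × ℕ => Ref q.1 q.2.1 q.2.2 := by
  unfold Ref; fun_prop

@[fun_prop] theorem ci_Ref {σ : α → List Datum} {m s : α → ℕ} (hσ : CI ∅ σ) (hm : CI ∅ m)
    (hs : CI ∅ s) : CI ∅ fun a => Ref (σ a) (m a) (s a) :=
  ci_Ref0.comp (g := fun a => (σ a, m a, s a)) (by fun_prop)

theorem ci_D : CI ∅ fun q : (List Datum × ℕ) × ℕ => D q.1.1 q.1.2 q.2 := by
  unfold D; fun_prop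

theorem exists_learner : ∃ M : List Datum → ℕ, Computable M ∧ ∀ σ x,
    (eval (Denumerable.ofNat Code (M σ)) x).Dom ↔ ∃ s, D σ x s = true := by
  obtain ⟨h, hh, -, he⟩ := Blm.smn (F := fun i x => Nat.rfind fun s =>
      Part.some (D ((Encodable.decode (α := List Datum) i).getD []) x s))
    (partrec_of_ri (RI.rfind (p := fun (a : ℕ × ℕ) s =>
      Part.some (D ((Encodable.decode (α := List Datum) a.1).getD []) a.2 s))
      (ci_D.comp (g := fun q : (ℕ × ℕ) × ℕ =>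
        (((Encodable.decode (α := List Datum) q.1.1).getD [], q.1.2), q.2)) (by fun_prop)).ri))
  refine ⟨fun σ => h (Encodable.encode σ), hh.comp Computable.encode, fun σ x => ?_⟩
  rw [← he, Nat.rfind_dom]
  simp

def ConsL (σ : List Datum) (e : ℕ) : Prop := ∀ x, some (x, true) ∈ σ → x ∈ Ws e
def VL (σ : List Datum) (m : ℕ) : Set ℕ := {x | ∀ e ≤ m, ConsL σ e → x ∈ Ws e}
def RefL (σ : List Datum) (m : ℕ) : Prop := ∃ x, some (x, false) ∈ σ ∧ x ∈ VL σ m

theorem ev_In (e x : ℕ) : ∀ᶠ s in atTop, (In e x s = true ↔ x ∈ Ws e) := by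
  by_cases h : x ∈ Ws e
  · obtain ⟨s, hs⟩ := h
    obtain ⟨v, hv⟩ := Option.isSome_iff_exists.1 hs
    exact eventually_atTop.2 ⟨s, fun t ht => ⟨fun h => ⟨t, h⟩, fun _ => by
      simp [In, ev_mono ht hv]⟩⟩
  · exact Eventually.of_forall fun s => ⟨fun h => ⟨s, h⟩, fun h' => absurd h' h⟩

theorem cons_iff (σ : List Datum) (e s : ℕ) :
    Cons σ e s = true ↔ ∀ x, some (x, true) ∈ σ → In e x s = true := by
  simp only [Cons, List.all_eq_true]
  constructor
  · intro h x hx; simpa using h _ hx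
  · intro h d hd
    rcases d with _ | ⟨x, _ | _⟩
    · rfl
    · rfl
    · simpa using h x hd

theorem V_iff (σ : List Datum) (m x s : ℕ) :
    V σ m x s = true ↔ ∀ e ≤ m, Cons σ e s = true → In e x s = true := by
  simp only [V, List.all_eq_true, List.mem_range, Nat.lt_succ_iff]
  refine forall₂_congr fun e _ => ?_
  cases Cons σ e s <;> simp

theorem ref_iff (σ : List Datum) (m s : ℕ) :
    Ref σ m s = true ↔ ∃ x, some (x, false) ∈ σ ∧ V σ m x s = true := by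
  simp only [Ref, List.any_eq_true]
  constructor
  · rintro ⟨d, hd, h⟩
    rcases d with _ | ⟨x, _ | _⟩
    · simp at h
    · exact ⟨x, hd, by simpa using h⟩
    · simp at h
  · rintro ⟨x, hx, h⟩
    exact ⟨_, hx, by simpa using h⟩

theorem fin_mem (σ : List Datum) (b : Bool) : {x : ℕ | some (x, b) ∈ σ}.Finite :=
  (List.finite_toSet σ).preimage (f := fun x : ℕ => (some (x, b) : Datum))
    (fun _ _ _ _ h => by simpa using h)

theorem ev_Cons (σ : List Datum) (e : ℕ) : ∀ᶠ s in atTop, (Cons σ e s = true ↔ ConsL σ e) := by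
  filter_upwards [(eventually_all_finite (fin_mem σ true)).2 fun x _ => ev_In e x] with s hs
  rw [cons_iff]
  exact forall₂_congr fun x hx => hs x hx

theorem ev_Cons' (σ : List Datum) (m : ℕ) :
    ∀ᶠ s in atTop, ∀ e ≤ m, (Cons σ e s = true ↔ ConsL σ e) :=
  (eventually_all_finite (Set.finite_le_nat m)).2 fun e _ => ev_Cons σ e

theorem ev_V (σ : List Datum) (m x : ℕ) : ∀ᶠ s in atTop, (V σ m x s = true ↔ x ∈ VL σ m) := by
  filter_upwards [ev_Cons' σ m,
    (eventually_all_finite (Set.finite_le_nat m)).2 fun e _ => ev_In e x] with s h1 h2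
  rw [V_iff]
  exact forall₂_congr fun e he => imp_congr (h1 e he) (h2 e he)

theorem ev_V' (σ : List Datum) (m : ℕ) : ∀ᶠ s in atTop, ∀ x, V σ m x s = true → x ∈ VL σ m := by
  filter_upwards [ev_Cons' σ m] with s h1 x hx e he hc
  exact ⟨s, (V_iff _ _ _ _).1 hx e he ((h1 e he).2 hc)⟩

theorem ev_Ref (σ : List Datum) (m : ℕ) : ∀ᶠ s in atTop, (Ref σ m s = true ↔ RefL σ m) := by
  filter_upwards [(eventually_all_finite (fin_mem σ false)).2 fun x _ => ev_V σ m x] with s hs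
  rw [ref_iff]
  exact exists_congr fun x => and_congr_right fun hx => hs x hx

theorem D_iff (σ : List Datum) (x s : ℕ) : D σ x s = true ↔
    x ≤ s ∧ ∃ m < σ.length, ¬ Ref σ m s = true ∧ V σ m x s = true := by
  simp [D]

theorem out_fin {σ : List Datum} {L : Set ℕ} {m1 : ℕ} (h1 : m1 < σ.length) (h2 : VL σ m1 = L)
    (h3 : ¬ RefL σ m1) (h4 : ∀ m < m1, RefL σ m) :
    (symmDiff {x | ∃ s, D σ x s = true} L).Finite := by
  obtain ⟨s0, hs0⟩ := eventually_atTop.1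
    ((eventually_all_finite (Set.finite_lt_nat σ.length)).2 fun m _ => (ev_Ref σ m).and (ev_V' σ m))
  refine (Set.finite_lt_nat s0).subset ?_
  rintro x (⟨⟨s, hs⟩, hx⟩ | ⟨hx, hn⟩)
  · by_contra hlt
    obtain ⟨e1, m, e2, e3, e4⟩ := (D_iff _ _ _).1 hs
    obtain ⟨f1, f2⟩ := hs0 s (by simp at hlt; omega) m e2
    have hm : m1 ≤ m := by
      by_contra hm
      exact e3 (f1.2 (h4 m (by omega)))
    refine hx (h2 ▸ fun e he hc => f2 x e4 e (he.trans hm) hc)
  · exfalso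
    obtain ⟨s, e1, e2, e3⟩ := ((eventually_ge_atTop x).and ((ev_Ref σ m1).and (ev_V σ m1 x))).exists
    exact hn ⟨s, (D_iff _ _ _).2 ⟨e1, m1, h1, fun h => h3 (e2.1 h), e3.2 (h2 ▸ hx)⟩⟩

theorem mem_seg {I : ℕ → Datum} {n : ℕ} {d : Datum} : d ∈ seg I n ↔ ∃ k < n, I k = d := by
  simp [seg]

def Vinf (L : Set ℕ) (m : ℕ) : Set ℕ := {x | ∀ e ≤ m, L ⊆ Ws e → x ∈ Ws e}

theorem ev_VL (I : ℕ → Datum) (m : ℕ) :
    ∀ᶠ n in atTop, ∀ k ≤ m, VL (seg I n) k = Vinf (PosInfo I) k := by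
  have one : ∀ e, ∀ᶠ n in atTop, (ConsL (seg I n) e ↔ PosInfo I ⊆ Ws e) := by
    intro e
    by_cases h : PosInfo I ⊆ Ws e
    · refine Eventually.of_forall fun n => ⟨fun _ => h, fun _ x hx => h ?_⟩
      obtain ⟨k, -, hk⟩ := mem_seg.1 hx
      exact ⟨k, hk⟩
    · obtain ⟨x, ⟨k, hk⟩, hx⟩ := Set.not_subset.1 h
      filter_upwards [eventually_gt_atTop k] with n hn
      exact ⟨fun hc => absurd (hc x (mem_seg.2 ⟨k, hn, hk⟩)) hx, fun h' => absurd h' h⟩
  filter_upwards [(eventually_all_finite (Set.finite_le_nat m)).2 fun e _ => one e] with n hn k hk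
  ext x
  exact forall₂_congr fun e he => imp_congr_left (hn e (le_trans he hk))

theorem main {φ : ℕ → ℕ →. ℕ} (hφ : Acceptable φ) : ∃ M : List Datum → ℕ, Computable M ∧
    ∀ L : Set ℕ, REPred (· ∈ L) → Identifies φ M 1 L := by
  classical
  obtain ⟨g, hg, he⟩ := hφ.ofStd
  obtain ⟨M, hM, hD⟩ := exists_learner
  refine ⟨fun σ => g (M σ), hg.comp hM, fun L hL => ?_⟩
  have hW : ∀ σ, W φ (g (M σ)) = {x | ∃ s, D σ x s = true} := fun σ => by
    ext x; rw [W, ← he]; exact hD σ x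
  obtain ⟨e0, he0⟩ : ∃ e, Ws e = L := by
    obtain ⟨e, h⟩ := exists_index_part (Partrec.map hL (Computable.const (0 : ℕ)).to₂)
    refine ⟨e, Set.ext fun x => ?_⟩
    simp only [Ws, In, Option.isSome_iff_exists, Set.mem_setOf_eq]
    constructor
    · rintro ⟨s, v, hv⟩
      obtain ⟨_, h1, -⟩ := (Part.mem_map_iff _).1 ((h x v).2 ⟨s, hv⟩)
      exact (Part.mem_assert_iff.1 h1).1
    · intro hx
      obtain ⟨s, hs⟩ := (h x 0).1 ((Part.mem_map_iff _).2
        ⟨(), Part.mem_assert_iff.2 ⟨hx, Part.mem_some _⟩, rfl⟩)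
      exact ⟨s, 0, hs⟩
  have hex : ∃ m, Vinf L m ⊆ L := ⟨e0, fun x hx => he0 ▸ hx e0 le_rfl he0.symm.subset⟩
  set m1 := Nat.find hex with hm1
  have hV : Vinf L m1 = L := (Nat.find_spec hex).antisymm fun x hx e _ h => h hx
  obtain ⟨S, S1, S2, S3⟩ : ∃ S : Finset ℕ, (S : Set ℕ) ⊆ Lᶜ ∧ S.card ≤ 1 ∧
      ∀ m < m1, ∃ x ∈ S, x ∈ Vinf L m := by
    rcases Nat.eq_zero_or_pos m1 with h | h
    · exact ⟨∅, by simp, by simp, fun m hm => by omega⟩
    · obtain ⟨x, hx, hn⟩ := Set.not_subset.1 (Nat.find_min hex (m := m1 - 1) (by omega))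
      exact ⟨{x}, by simpa using hn, by simp, fun m hm =>
        ⟨x, by simp, fun e he => hx e (by omega)⟩⟩
  refine ⟨S, S1, S2, fun I _ hP hS hN => eventually_atTop.1 ?_⟩
  have hS' : ∀ᶠ n in atTop, ∀ x ∈ S, some (x, false) ∈ seg I n := by
    refine (eventually_all_finset S).2 fun x hx => ?_
    obtain ⟨k, hk⟩ := hS hx
    filter_upwards [eventually_gt_atTop k] with n hn
    exact mem_seg.2 ⟨k, hn, hk⟩
  filter_upwards [ev_VL I m1, hS', eventually_gt_atTop m1] with n h1 h2 h3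
  rw [hP] at h1
  rw [hW]
  refine out_fin (m1 := m1) (by simpa [seg] using h3) ((h1 m1 le_rfl).trans hV) ?_ fun m hm => ?_
  · rintro ⟨x, hx, hx'⟩
    obtain ⟨k, -, hk⟩ := mem_seg.1 hx
    rw [h1 m1 le_rfl, hV] at hx'
    exact hN ⟨k, hk⟩ hx'
  · obtain ⟨x, hx, hx'⟩ := S3 m hm
    exact ⟨x, h2 x hx, by rw [h1 m hm.le]; exact hx'⟩

end Pool.Agent.H37.Neg
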