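import Mathlib

/-! Language learning with finite open negative information. -/

namespace Pool.Agent.H37.Neg

open Nat.Partrec

/-- An acceptable numbering of the partial computable functions: computable translations to and
from the standard numbering. -/
structure Acceptable (φ : ℕ → ℕ →. ℕ) : Prop where
  toStd : ∃ f : ℕ → ℕ, Computable f ∧ ∀ i, φ i = Code.eval (Denumerable.ofNat Code (f i))
  ofStd : ∃ g : ℕ → ℕ, Computable g ∧ ∀ e, Code.eval (Denumerable.ofNat Code e) = φ (g e)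

/-- `W_e = dom φ_e`. -/
def W (φ : ℕ → ℕ →. ℕ) (e : ℕ) : Set ℕ := {x | (φ e x).Dom}

/-- A datum: `none` is the pause symbol, `(x, true)` is `(x,1)` and `(x, false)` is `(x,0)`. -/
abbrev Datum : Type := Option (ℕ × Bool)

def PosInfo (I : ℕ → Datum) : Set ℕ := {x | ∃ n, I n = some (x, true)}

def NegInfo (I : ℕ → Datum) : Set ℕ := {x | ∃ n, I n = some (x, false)}

/-- An information sequence: no `x` occurs with both labels. -/
def IsInfo (I : ℕ → Datum) : Prop := ∀ x, ¬ (x ∈ PosInfo I ∧ x ∈ NegInfo I)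

/-- The initial segment `I[n]`. -/
def seg (I : ℕ → Datum) (n : ℕ) : List Datum := (List.range n).map I

/-- `M` `NegO^b TxtBc^*`-identifies `L`. -/
def Identifies (φ : ℕ → ℕ →. ℕ) (M : List Datum → ℕ) (b : ℕ) (L : Set ℕ) : Prop :=
  ∃ S : Finset ℕ, (S : Set ℕ) ⊆ Lᶜ ∧ S.card ≤ b ∧
    ∀ I : ℕ → Datum, IsInfo I → PosInfo I = L → (S : Set ℕ) ⊆ NegInfo I → NegInfo I ⊆ Lᶜ →
      ∃ N, ∀ n, N ≤ n → (symmDiff (W φ (M (seg I n))) L).Finite

end Pool.Agent.H37.Neg
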