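import Pool.Agent.H37.Gen

/-!
An effective quasi-Polish T1 space with a point of non-cototal enumeration degree.
-/

set_option autoImplicit false

namespace Pool.Agent.H37.NonCot

open Pool.Agent.H37

abbrev Mx := ℕ → ℕ → Bool

def Inf (c : ℕ → Bool) : Prop := ∀ s, ∃ t, s ≤ t ∧ c t = true

def Sim (m : ℕ) (z y : Mx) : Prop :=
  ∀ n < m, (∀ t < m, y n t = z n t) ∧ ((Inf (z n) ∧ Inf (y n)) ∨ y n = z n)

theorem Sim.refl (m : ℕ) (z : Mx) : Sim m z z := fun _ _ => ⟨fun _ _ => rfl, Or.inr rfl⟩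
theorem Sim.mono {m k : ℕ} {z y : Mx} (h : Sim m z y) (hk : k ≤ m) : Sim k z y := fun n hn =>
  ⟨fun t ht => (h n (by omega)).1 t (by omega), (h n (by omega)).2⟩
theorem Sim.trans {m : ℕ} {z y x : Mx} (h : Sim m z y) (h' : Sim m y x) : Sim m z x := fun n hn =>
  ⟨fun t ht => ((h' n hn).1 t ht).trans ((h n hn).1 t ht), by
    rcases (h n hn).2 with a | a <;> rcases (h' n hn).2 with b | b
    · exact Or.inl ⟨a.1, b.2⟩
    · exact Or.inl ⟨a.1, b ▸ a.2⟩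
    · exact Or.inl ⟨a ▸ b.1, b.2⟩
    · exact Or.inr (b.trans a)⟩

theorem gen {ι : Type} [Countable ι] (P : ι → Mx → Prop) :
    ∃ f : Mx, ∀ i, ∃ k, (∀ g, Sim k f g → P i g) ∨
      ∀ g, Sim k f g → ∀ l, ∃ h, Sim l g h ∧ ¬ P i h := by
  obtain ⟨s, -, -, h1, h2⟩ := chain (P := ℕ × Mx) (ι := ι ⊕ ℕ × ℕ)
    (fun q p => p.1 ≤ q.1 ∧ Sim p.1 p.2 q.2) (fun p => ⟨le_rfl, Sim.refl _ _⟩)
    (fun p q r h h' => ⟨h'.1.trans h.1, h'.2.trans (h.2.mono h'.1)⟩) (fun _ => True)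
    (fun i p => Sum.elim (fun i => (∀ g, Sim p.1 p.2 g → P i g) ∨
      ∀ g, Sim p.1 p.2 g → ∀ l, ∃ h, Sim l g h ∧ ¬ P i h)
      (fun n => n.1 < p.1 ∧ n.2 < p.1 ∧ (Inf (p.2 n.1) → ∃ t < p.1, n.2 ≤ t ∧ p.2 n.1 t = true)) i)
    (by
      rintro (i | ⟨n, s⟩) ⟨k, f⟩ -
      · by_cases h : ∀ g, Sim k f g → ∀ l, ∃ h, Sim l g h ∧ ¬ P i h
        · exact ⟨(k, f), trivial, ⟨le_rfl, Sim.refl _ _⟩, Or.inr h⟩
        · push Not at h
          obtain ⟨g, h1, l, h2⟩ := h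
          exact ⟨(max k l, g), trivial, ⟨le_max_left _ _, h1⟩,
            Or.inl fun h h3 => h2 h (h3.mono (le_max_right _ _))⟩
      · by_cases h : Inf (f n)
        · obtain ⟨t, h1, h2⟩ := h s
          exact ⟨(k + n + t + 1, f), trivial, ⟨by simp only; omega, Sim.refl _ _⟩, by simp only; omega,
            by simp only; omega, fun _ => ⟨t, by simp only; omega, h1, h2⟩⟩
        · exact ⟨(k + n + s + 1, f), trivial, ⟨by simp only; omega, Sim.refl _ _⟩,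
            by simp only; omega, by simp only; omega, fun h' => absurd h' h⟩)
    (0, default) trivial
  choose N hN using fun n => h2 (Sum.inr n)
  have h4 : ∀ n t j, N (n, t) ≤ j → (s j).2 n t = (s (N (n, t))).2 n t := fun n t j hj =>
    ((h1 _ _ hj).2 n (hN (n, t)).1).1 t (hN (n, t)).2.1
  have h3 : ∀ j, Sim (s j).1 (s j).2 fun n t => (s (N (n, t))).2 n t := fun j n hn => by
    have h5 := fun t => (h1 _ _ (le_max_left j (N (n, t)))).2 n hn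
    have h6 := fun t => h4 n t _ (le_max_right j (N (n, t)))
    refine ⟨fun t ht => (h6 t).symm.trans ((h5 t).1 t ht), ?_⟩
    by_cases hi : Inf ((s j).2 n)
    · refine Or.inl ⟨hi, fun u => ?_⟩
      have h7 : Inf ((s (N (n, u))).2 n) := by
        have a := ((h1 _ _ (le_max_left j (N (n, u)))).2 n hn).2
        have b := ((h1 _ _ (le_max_right j (N (n, u)))).2 n (hN (n, u)).1).2
        rcases b with b | b
        · exact b.1
        · rw [← b]; exact a.elim (·.2) fun a => a ▸ hi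
      obtain ⟨t, a1, a2, a3⟩ := (hN (n, u)).2.2 h7
      refine ⟨t, a2, ?_⟩
      beta_reduce
      rw [← h4 n t _ (le_max_right (N (n, u)) (N (n, t))),
        ((h1 _ _ (le_max_left _ _)).2 n (hN (n, u)).1).1 t a1, a3]
    · refine Or.inr (funext fun t => (h6 t).symm.trans ?_)
      rw [(h5 t).2.resolve_left fun h => hi h.1]
  refine ⟨fun n t => (s (N (n, t))).2 n t, fun i => ?_⟩
  obtain ⟨n, hn⟩ := h2 (Sum.inl i)
  exact ⟨(s n).1, hn.imp (fun h g hg => h g ((h3 n).trans hg)) fun h g hg => h g ((h3 n).trans hg)⟩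

def cd (j n t : ℕ) : ℕ := 3 * Nat.pair n t + j

def A (z : Mx) : Set ℕ := {x | (x % 3 = 0 ∧ z (x / 3).unpair.1 (x / 3).unpair.2 = true) ∨
  (x % 3 = 1 ∧ z (x / 3).unpair.1 (x / 3).unpair.2 = false) ∨
  (x % 3 = 2 ∧ ((∀ t, (x / 3).unpair.2 ≤ t → z (x / 3).unpair.1 t = false) ∨
    Inf (z (x / 3).unpair.1)))}

@[simp] theorem cd0 (z : Mx) (n t : ℕ) : cd 0 n t ∈ A z ↔ z n t = true := by simp [A, cd]
@[simp] theorem cd1 (z : Mx) (n t : ℕ) : cd 1 n t ∈ A z ↔ z n t = false := by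
  have : (3 * Nat.pair n t + 1) / 3 = Nat.pair n t := by omega
  simp [A, cd, this]
@[simp] theorem cd2 (z : Mx) (n s : ℕ) :
    cd 2 n s ∈ A z ↔ (∀ t, s ≤ t → z n t = false) ∨ Inf (z n) := by
  have : (3 * Nat.pair n s + 2) / 3 = Nat.pair n s := by omega
  simp [A, cd, this]

theorem split (x : ℕ) : ∃ n t, n ≤ x ∧ t ≤ x ∧ (x = cd 0 n t ∨ x = cd 1 n t ∨ x = cd 2 n t) := by
  have h1 := Nat.unpair_left_le (x / 3)
  have h2 := Nat.unpair_right_le (x / 3)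
  refine ⟨(x / 3).unpair.1, (x / 3).unpair.2, by omega, by omega, ?_⟩
  simp only [cd, Nat.pair_unpair]; omega

theorem A_open {z y : Mx} {x m : ℕ} (h : x ∈ A z) (hm : x < m) (hs : Sim m z y) : x ∈ A y := by
  obtain ⟨n, t, h1, h2, rfl | rfl | rfl⟩ := split x
  · simpa [(hs n (by omega)).1 t (by omega)] using h
  · simpa [(hs n (by omega)).1 t (by omega)] using h
  · rcases (hs n (by omega)).2 with a | a
    · simp [a.2]
    · simpa [a] using h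

def Op (W : ℕ × List ℕ → Prop) (X : Set ℕ) : Set ℕ := {n | ∃ l, W (n, l) ∧ ∀ k ∈ l, k ∈ X}

theorem lt_sum {l : List ℕ} {k : ℕ} (h : k ∈ l) : k < l.sum + 1 :=
  Nat.lt_succ_of_le (List.single_le_sum (by simp) _ h)

theorem swap {W : ℕ × List ℕ → Prop} {z : Mx} {m n y : ℕ} (hi : Inf (z n))
    (h : ∀ g, Sim m z g → y ∉ Op W (A g)) (g : Mx)
    (hg : Sim m (Function.update z n fun t => z n t && decide (t < m)) g) : y ∉ Op W (A g) := by
  rintro ⟨l, h1, h2⟩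
  have hi' : Inf fun t => g n t || decide (m + l.sum + 1 ≤ t) := fun s =>
    ⟨s + m + l.sum + 1, by omega, by simp⟩
  refine h (Function.update g n fun t => g n t || decide (m + l.sum + 1 ≤ t)) (fun j hj => ?_)
    ⟨l, h1, fun k hk => ?_⟩
  · have := hg j hj
    by_cases e : j = n
    · subst e
      simp only [Function.update_self] at this ⊢
      refine ⟨fun t ht => ?_, Or.inl ⟨hi, hi'⟩⟩
      simp [this.1 t ht, ht, show ¬ m + l.sum + 1 ≤ t by omega]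
    · simpa only [Function.update_of_ne e] using this
  · have a := h2 k hk
    have b := lt_sum hk
    obtain ⟨j, t, h3, h4, rfl | rfl | rfl⟩ := split k <;> by_cases e : j = n
    · subst e; rw [cd0] at a; rw [cd0, Function.update_self, a]; rfl
    · simpa only [cd0, Function.update_of_ne e] using a
    · subst e; rw [cd1] at a
      rw [cd1, Function.update_self, a, decide_eq_false (by omega)]; rfl
    · simpa only [cd1, Function.update_of_ne e] using a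
    · subst e; rw [cd2, Function.update_self]; exact Or.inr hi'
    · simpa only [cd2, Function.update_of_ne e] using a

theorem noncot : ∃ z : Mx, ∀ C : Set ℕ,
    (∃ W : ℕ × List ℕ → Prop, REPred W ∧
      ∀ n : ℕ, n ∈ C ↔ ∃ l : List ℕ, W (n, l) ∧ ∀ k ∈ l, k ∉ C) →
    ¬ ((∃ W : ℕ × List ℕ → Prop, REPred W ∧
          ∀ n : ℕ, n ∈ A z ↔ ∃ l : List ℕ, W (n, l) ∧ ∀ k ∈ l, k ∈ C) ∧
       (∃ W : ℕ × List ℕ → Prop, REPred W ∧
          ∀ n : ℕ, n ∈ C ↔ ∃ l : List ℕ, W (n, l) ∧ ∀ k ∈ l, k ∈ A z)) := by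
  let R := {p : ℕ × List ℕ → Prop // REPred p}
  let G : (ℕ × List ℕ → Prop) → Mx → Prop := fun W z =>
    ∀ y, y ∉ Op W (A z) → ∃ m, ∀ g, Sim m z g → y ∉ Op W (A g)
  obtain ⟨z, hz⟩ := gen (ι := R × ℕ ⊕ R × R × R) (Sum.elim (fun p g => p.2 ∈ Op p.1.1 (A g))
    fun p g => ¬ (G p.1.1 g ∧ Op p.1.1 (A g) = Op p.2.1.1 (Op p.1.1 (A g))ᶜ ∧
      A g = Op p.2.2.1 (Op p.1.1 (A g))))
  refine ⟨z, fun C ⟨Θ, hΘ, e1⟩ ⟨⟨Δ, hΔ, e2⟩, Γ, hΓ, e3⟩ => ?_⟩
  obtain rfl : C = Op Γ (A z) := Set.ext e3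
  obtain ⟨k, hk | hk⟩ := hz (.inr (⟨Γ, hΓ⟩, ⟨Θ, hΘ⟩, ⟨Δ, hΔ⟩))
  · refine hk z (Sim.refl _ _) ⟨fun y hy => ?_, Set.ext e1, Set.ext e2⟩
    obtain ⟨m, hm | hm⟩ := hz (.inl (⟨Γ, hΓ⟩, y))
    · exact absurd (hm z (Sim.refl _ _)) hy
    · refine ⟨m, fun g hg ⟨l, h1, h2⟩ => ?_⟩
      obtain ⟨h, h3, h4⟩ := hm g hg (l.sum + 1)
      exact h4 ⟨l, h1, fun k hk => A_open (h2 k hk) (lt_sum hk) h3⟩
  simp only [Sum.elim_inr, not_not] at hk
  obtain ⟨g, a1, a2, a3, a4⟩ := hk (Function.update z k fun _ => true)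
    (fun n hn => by rw [Function.update_of_ne hn.ne]; exact Sim.refl k z n hn) (k + 1)
  have a5 := a1 k (by omega)
  simp only [Function.update_self] at a5
  have a6 : Inf (g k) := a5.2.elim (·.2) fun h => h ▸ fun s => ⟨s, le_rfl, rfl⟩
  obtain ⟨D, b1, b2⟩ : cd 2 k 0 ∈ Op Δ (Op Γ (A g)) := a4 ▸ (by simp [a6])
  have b3 : ∀ d ∈ D, ∀ᶠ m in Filter.atTop, ∃ E, Θ (d, E) ∧
      ∀ y ∈ E, ∀ h, Sim m g h → y ∉ Op Γ (A h) := fun d hd => by
    obtain ⟨E, c1, c2⟩ : d ∈ Op Θ (Op Γ (A g))ᶜ := a3 ▸ b2 d hd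
    have : ∀ᶠ m in Filter.atTop, ∀ y ∈ E.toFinset, ∀ h, Sim m g h → y ∉ Op Γ (A h) :=
      (Filter.eventually_all_finset _).2 fun y hy => by
        obtain ⟨m, hm⟩ := a2 y (c2 y (List.mem_toFinset.1 hy))
        exact (Filter.eventually_ge_atTop m).mono fun m' c3 h c4 => hm h (c4.mono c3)
    exact this.mono fun m hm => ⟨E, c1, fun y hy => hm y (List.mem_toFinset.2 hy)⟩
  obtain ⟨m, c1, c2⟩ := (((Filter.eventually_all_finset D.toFinset).2 fun d hd =>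
    b3 d (List.mem_toFinset.1 hd)).and (Filter.eventually_gt_atTop k)).exists
  obtain ⟨h, d1, -, d3, d4⟩ := hk (Function.update g k fun t => g k t && decide (t < m))
    (fun n hn => by
      have := (a1.mono (Nat.le_succ k)) n hn
      simpa only [Function.update_of_ne hn.ne] using this) m
  have d5 : cd 2 k 0 ∈ A h := d4 ▸ ⟨D, b1, fun d hd => by
    obtain ⟨E, c3, c4⟩ := c1 d (List.mem_toFinset.2 hd)
    exact d3 ▸ ⟨E, c3, fun y hy => swap a6 (c4 y hy) h d1⟩⟩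
  have d6 := d1 k c2
  simp only [Function.update_self] at d6
  have d7 : ¬ Inf fun t => g k t && decide (t < m) := fun h => by
    obtain ⟨t, e1, e2⟩ := h m
    simp at e2; omega
  rw [cd2, d6.2.resolve_left fun h => d7 h.1] at d5
  have := d5.resolve_right d7 0 le_rfl
  simp [a5.1 0 (by omega), show 0 < m by omega] at this

def u (p : ℕ × ℕ × ℕ × ℕ × ℕ) : List ℕ :=
  if p.1 = 0 then [] else if p.1 = 1 then [cd 0 p.2.1 p.2.2.1, cd 1 p.2.1 p.2.2.1]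
  else if p.1 = 2 then [] else [cd 2 p.2.1 p.2.2.1, cd 0 p.2.1 (p.2.2.1 + p.2.2.2.1)]

def v (p : ℕ × ℕ × ℕ × ℕ × ℕ) (w : ℕ) : Option (List ℕ) :=
  if p.1 = 0 then some [cd (w % 2) p.2.1 p.2.2.1] else if p.1 = 1 then none
  else if p.1 = 2 then if w = 0 then some [cd 2 p.2.1 p.2.2.1]
    else some [cd 0 p.2.1 (p.2.2.1 + w - 1), cd 2 p.2.1 (p.2.2.1 + w)]
  else some [cd 0 p.2.1 (p.2.2.1 + p.2.2.2.1 + 1 + w), cd 2 p.2.1 p.2.2.2.2]

def dc (i : ℕ) : ℕ × ℕ × ℕ × ℕ × ℕ := (Encodable.decode i).getD (0, 0, 0, 0, 0)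

theorem dc_enc (p : ℕ × ℕ × ℕ × ℕ × ℕ) : dc (Encodable.encode p) = p := by
  rw [dc, Encodable.encodek]; rfl

theorem ci_dc : CI ∅ dc := by unfold dc; fun_prop
theorem ci_u : CI ∅ u := by unfold u cd; fun_prop
theorem ci_v : CI ∅ fun q : (ℕ × ℕ × ℕ × ℕ × ℕ) × ℕ => v q.1 q.2 := by unfold v cd; fun_prop

def Ok (X : Set ℕ) : Prop := ∀ p, (∀ k ∈ u p, k ∈ X) → ∃ l, (∃ w, v p w = some l) ∧ ∀ k ∈ l, k ∈ X

theorem ok_A (z : Mx) : Ok (A z) := by
  rintro ⟨r, n, a, b, c⟩ h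
  simp only [u, v] at h ⊢
  split_ifs at h ⊢ with h0 h1 h2
  · cases h3 : z n a
    · exact ⟨_, ⟨1, rfl⟩, by simp [h3]⟩
    · exact ⟨_, ⟨0, rfl⟩, by simp [h3]⟩
  · simp at h
  · by_cases h3 : (∀ t, a ≤ t → z n t = false) ∨ Inf (z n)
    · exact ⟨_, ⟨0, rfl⟩, by simpa using h3⟩
    · obtain ⟨h4, h5⟩ := not_or.1 h3
      simp only [Inf, not_forall, not_exists, not_and, Bool.not_eq_true, Bool.not_eq_false] at h4 h5
      obtain ⟨t, h6, h7⟩ := h4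
      obtain ⟨s, h8⟩ := h5
      have h9 : ∃ s, ∀ t, s ≤ t → z n t = false := ⟨s, h8⟩
      classical
      have e1 := Nat.find_spec h9
      have e2 : t < Nat.find h9 := by
        by_contra e; rw [e1 t (by omega)] at h7; cases h7
      obtain ⟨w, e3⟩ : ∃ w, Nat.find h9 = a + w + 1 := ⟨Nat.find h9 - a - 1, by omega⟩
      have e4 := Nat.find_min h9 (show a + w < Nat.find h9 by omega)
      rw [e3] at e1
      refine ⟨_, ⟨w + 1, if_neg (by omega)⟩, ?_⟩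
      simp only [List.mem_cons, List.not_mem_nil, or_false, forall_eq_or_imp, forall_eq, cd0, cd2]
      refine ⟨?_, Or.inl e1⟩
      by_contra e5
      refine e4 fun t ht => ?_
      rcases ht.eq_or_lt with rfl | ht
      · simpa using e5
      · exact e1 t ht
  · simp only [List.mem_cons, List.not_mem_nil, or_false, forall_eq_or_imp, forall_eq, cd0,
      cd2] at h
    have h3 : Inf (z n) := h.1.resolve_left fun h' => by simp [h' (a + b) (by omega)] at h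
    obtain ⟨t, h4, h5⟩ := h3 (a + b + 1)
    obtain ⟨w, rfl⟩ := Nat.exists_eq_add_of_le h4
    exact ⟨_, ⟨w, rfl⟩, by simp [h5, h3]⟩

theorem eq_A {X : Set ℕ} (h : Ok X) : ∃ z, X = A z := by
  classical
  have r0 : ∀ n a, cd 0 n a ∈ X ∨ cd 1 n a ∈ X := fun n a => by
    obtain ⟨l, ⟨w, h1⟩, h2⟩ := h (0, n, a, 0, 0) (by simp [u])
    simp only [v, if_true, Option.some.injEq] at h1
    subst h1
    rcases Nat.mod_two_eq_zero_or_one w with e | e <;> simp_all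
  have r1 : ∀ n a, cd 0 n a ∈ X → cd 1 n a ∉ X := fun n a h1 h2 => by
    simpa [v] using h (1, n, a, 0, 0) (by simp [u, h1, h2])
  have r2 : ∀ n a, cd 2 n a ∈ X ∨ ∃ t, a ≤ t ∧ cd 0 n t ∈ X ∧ cd 2 n (t + 1) ∈ X := fun n a => by
    obtain ⟨l, ⟨w, h1⟩, h2⟩ := h (2, n, a, 0, 0) (by simp [u])
    rcases w with _ | w
    · simp only [v] at h1; simp at h1; subst h1; simp_all
    · simp only [v] at h1; simp at h1; subst h1
      exact Or.inr ⟨a + w, by omega, by simpa [add_assoc] using h2⟩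
  have r3 : ∀ n a t c, a ≤ t → cd 2 n a ∈ X → cd 0 n t ∈ X →
      (∃ t', t < t' ∧ cd 0 n t' ∈ X) ∧ cd 2 n c ∈ X := fun n a t c h0 h1 h2 => by
    obtain ⟨b, rfl⟩ := Nat.exists_eq_add_of_le h0
    obtain ⟨l, ⟨w, h3⟩, h4⟩ := h (3, n, a, b, c) (by simp [u, h1, h2])
    simp only [v] at h3; simp at h3; subst h3
    exact ⟨⟨a + b + 1 + w, by omega, h4 _ (by simp)⟩, h4 _ (by simp)⟩
  refine ⟨fun n t => decide (cd 0 n t ∈ X), Set.ext fun x => ?_⟩
  obtain ⟨n, t, -, -, rfl | rfl | rfl⟩ := split x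
  · simp
  · simpa using ⟨fun h1 h2 => r1 n t h2 h1, (r0 n t).resolve_left⟩
  · simp only [cd2, Inf, decide_eq_false_iff_not, decide_eq_true_eq]
    constructor
    · intro h1
      by_cases h2 : ∃ s, t ≤ s ∧ cd 0 n s ∈ X
      · refine Or.inr fun s => ?_
        have : ∃ t', s ≤ t' ∧ t ≤ t' ∧ cd 0 n t' ∈ X := by
          induction s with
          | zero => simpa using h2
          | succ s ih =>
            obtain ⟨a, h3, h4, h5⟩ := ih
            obtain ⟨b, h6, h7⟩ := (r3 n t a 0 h4 h1 h5).1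
            exact ⟨b, by omega, by omega, h7⟩
        exact this.imp fun _ h => ⟨h.1, h.2.2⟩
      · exact Or.inl fun s h3 h4 => h2 ⟨s, h3, h4⟩
    · intro h1
      rcases r2 n t with h2 | ⟨s, h2, h3, h4⟩
      · exact h2
      · obtain ⟨a, h5, h6⟩ := h1.resolve_left (fun h => h s h2 h3) (s + 1)
        exact (r3 n _ a t h5 h4 h6).2

theorem main : ∃ (U V : ℕ × List ℕ → Prop), REPred U ∧ REPred V ∧
      (∀ X Y : Set ℕ,
        (∀ i : ℕ, (∃ l : List ℕ, U (i, l) ∧ ∀ k ∈ l, k ∈ X) →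
          ∃ l : List ℕ, V (i, l) ∧ ∀ k ∈ l, k ∈ X) →
        (∀ i : ℕ, (∃ l : List ℕ, U (i, l) ∧ ∀ k ∈ l, k ∈ Y) →
          ∃ l : List ℕ, V (i, l) ∧ ∀ k ∈ l, k ∈ Y) →
        X ⊆ Y → X = Y) ∧
      ∃ A : Set ℕ,
        (∀ i : ℕ, (∃ l : List ℕ, U (i, l) ∧ ∀ k ∈ l, k ∈ A) →
          ∃ l : List ℕ, V (i, l) ∧ ∀ k ∈ l, k ∈ A) ∧
        ∀ C : Set ℕ,
          (∃ W : ℕ × List ℕ → Prop, REPred W ∧
            ∀ n : ℕ, n ∈ C ↔ ∃ l : List ℕ, W (n, l) ∧ ∀ k ∈ l, k ∉ C) →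
          ¬ ((∃ W : ℕ × List ℕ → Prop, REPred W ∧
                ∀ n : ℕ, n ∈ A ↔ ∃ l : List ℕ, W (n, l) ∧ ∀ k ∈ l, k ∈ C) ∧
             (∃ W : ℕ × List ℕ → Prop, REPred W ∧
                ∀ n : ℕ, n ∈ C ↔ ∃ l : List ℕ, W (n, l) ∧ ∀ k ∈ l, k ∈ A)) := by
  have hOk : ∀ X : Set ℕ, (∀ i : ℕ, (∃ l : List ℕ, l = u (dc i) ∧ ∀ k ∈ l, k ∈ X) →
      ∃ l : List ℕ, (∃ w, v (dc i) w = some l) ∧ ∀ k ∈ l, k ∈ X) ↔ Ok X :=
    fun X => ⟨fun h p hp => by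
      simpa only [dc_enc] using h (Encodable.encode p)
        ⟨_, by rw [dc_enc], hp⟩,
      fun h i ⟨l, h1, h2⟩ => h _ (h1 ▸ h2)⟩
  obtain ⟨z, hz⟩ := noncot
  refine ⟨fun q => q.2 = u (dc q.1),
    fun q => ∃ w, v (dc q.1) w = some q.2,
    re_of_bool (fun q => q.2 == u (dc q.1)) (by have := ci_u; have := ci_dc; fun_prop) (by simp),
    re_of_nat (fun q w => v (dc q.1) w == some q.2) (CI.beq (ci_v.comp
      (g := fun q : (ℕ × List ℕ) × ℕ => (dc q.1.1, q.2)) (by have := ci_dc; fun_prop)) (by fun_prop))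
      (by simp), fun X Y hX hY h => ?_, A z, (hOk _).2 (ok_A z), hz⟩
  obtain ⟨x, rfl⟩ := eq_A ((hOk X).1 hX)
  obtain ⟨y, rfl⟩ := eq_A ((hOk Y).1 hY)
  congr
  funext n t
  cases h1 : x n t
  · exact ((cd1 _ _ _).1 (h ((cd1 _ _ _).2 h1))).symm
  · exact ((cd0 _ _ _).1 (h ((cd0 _ _ _).2 h1))).symm

end Pool.Agent.H37.NonCot
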