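import Pool.Agent.H37.Spc3

namespace Pool.Agent.H37.Spc

open Filter Asymptotics Relation

namespace PDA

variable {M : PDA}

theorem acc_iff (q : M.Q) (v : List M.S) (α : List M.G) : M.Acc (q, v, α) ↔
    (v = [] ∧ q ∈ M.final) ∨
    (q ∉ M.univ ∧ ∃ t ∈ M.δ q v.head? α.head?,
      M.Acc (t.1, if t.2.2 = true then v.tail else v, t.2.1 ++ α.tail)) ∨
    (q ∈ M.univ ∧ (∃ t, t ∈ M.δ q v.head? α.head?) ∧ ∀ t ∈ M.δ q v.head? α.head?,
      M.Acc (t.1, if t.2.2 = true then v.tail else v, t.2.1 ++ α.tail)) := by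
  constructor
  · intro H
    cases H with
    | fin h1 h2 => exact Or.inl ⟨h1, h2⟩
    | @ex _ d h1 h2 h3 =>
      obtain ⟨q', i', s'⟩ := d
      obtain ⟨β, m, hδ, hi, hs⟩ := h2
      simp only at hδ hi hs
      subst hi hs
      exact Or.inr (Or.inl ⟨h1, _, hδ, h3⟩)
    | all h1 h2 h3 =>
      obtain ⟨d, β, m, hδ, -⟩ := h2
      exact Or.inr (Or.inr ⟨h1, ⟨_, hδ⟩, fun t ht => h3 _ ⟨t.2.1, t.2.2, ht, rfl, rfl⟩⟩)
  · rintro (⟨h1, h2⟩ | ⟨h1, t, ht, h3⟩ | ⟨h1, ⟨t, ht⟩, h3⟩)
    · exact Acc.fin h1 h2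
    · exact Acc.ex h1 ⟨t.2.1, t.2.2, ht, rfl, rfl⟩ h3
    · refine Acc.all h1 ⟨(t.1, _, _), t.2.1, t.2.2, ht, rfl, rfl⟩ ?_
      rintro ⟨q', i', s'⟩ ⟨β, m, hδ, hi, hs⟩
      simp only at hδ hi hs
      subst hi hs
      exact h3 _ hδ

theorem realtime_of_rank (rk : M.Q → ℕ) (K : ℕ) (hK : ∀ q, rk q ≤ K)
    (h : ∀ q a g t, t ∈ M.δ q a g → (t.2.2 = true ∧ a ≠ none) ∨ rk t.1 < rk q) : M.Realtime := by
  refine ⟨K + 1, fun w f _ hs => ?_⟩
  have key : ∀ i ≤ K + 1, (f i).2.1.length < (f 0).2.1.length ∨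
      ((f i).2.1.length = (f 0).2.1.length ∧ rk (f i).1 + i ≤ rk (f 0).1) := by
    intro i
    induction i with
    | zero => intro _; exact Or.inr ⟨rfl, le_rfl⟩
    | succ i ih =>
      intro hi
      obtain ⟨β, m, hδ, h1, -⟩ := hs i (by omega)
      have h2 : (f (i + 1)).2.1.length ≤ (f i).2.1.length := by
        rw [h1]; split_ifs <;> simp
      rcases h _ _ _ _ hδ with ⟨h3, h4⟩ | h3
      · simp only at h3
        have h5 : (f (i + 1)).2.1.length < (f i).2.1.length := by
          rw [h1, if_pos h3]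
          cases hv : (f i).2.1 with
          | nil => rw [hv] at h4; exact absurd rfl h4
          | cons x r => simp
        rcases ih (by omega) with h6 | h6 <;> omega
      · simp only at h3
        rcases ih (by omega) with h6 | h6 <;> omega
  have := hK (f 0).1
  rcases key (K + 1) le_rfl with h6 | h6 <;> omega

end PDA

theorem not_regular_of {S : Type} (L : Language S) (x : ℕ → List S)
    (h : ∀ i j, L.leftQuotient (x i) = L.leftQuotient (x j) → i = j) : ¬ L.IsRegular := by
  intro hr
  have := hr.finite_range_leftQuotient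
  exact (Set.infinite_of_injective_forall_mem (f := fun i => L.leftQuotient (x i))
    (fun i j e => h i j e) (fun i => Set.mem_range_self _)) this

theorem keep {G : Type} (α : List G) : α.head?.toList ++ α.tail = α := by cases α <;> rfl

/-! The machine for `a^n b^n`. -/

def δ1 : Fin 3 → Option Bool → Option Unit → List (Fin 3 × List Unit × Bool)
  | 0, some true, g => [(0, () :: g.toList, true)]
  | 0, _, g => [(1, g.toList, false)]
  | 1, some false, some _ => [(1, [], true)]
  | 1, none, none => [(2, [], false)]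
  | _, _, _ => []

def M1 : PDA where
  Q := Fin 3
  S := Bool
  G := Unit
  finQ := inferInstance
  finS := inferInstance
  finG := inferInstance
  start := 0
  final := {2}
  univ := ∅
  δ := fun q a g => {t | t ∈ δ1 q a g}
  finδ := fun q a g => (δ1 q a g).finite_toSet

def A1 (q : Fin 3) (v : List Bool) (α : List Unit) : Prop := M1.Acc (q, v, α)

theorem a1_iff (q : Fin 3) (v : List Bool) (α : List Unit) : A1 q v α ↔ (v = [] ∧ q = 2) ∨
    ∃ t ∈ δ1 q v.head? α.head?, A1 t.1 (if t.2.2 = true then v.tail else v) (t.2.1 ++ α.tail) := by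
  unfold A1
  rw [PDA.acc_iff]
  constructor
  · rintro (h | ⟨-, h⟩ | ⟨h, -⟩)
    · exact Or.inl h
    · exact Or.inr h
    · exact h.elim
  · rintro (h | h)
    · exact Or.inl h
    · exact Or.inr (Or.inl ⟨id, h⟩)

theorem a1_one (n : ℕ) : ∀ α, A1 1 (List.replicate n false) α ↔ α.length = n := by
  induction n with
  | zero =>
    intro α
    rw [a1_iff]
    cases α with
    | nil => simp [δ1]; rw [a1_iff]; simp
    | cons g α => simp [δ1]
  | succ n ih =>
    intro α
    rw [a1_iff]
    cases α with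
    | nil => simp [δ1, List.replicate_succ]
    | cons g α => simp [δ1, List.replicate_succ, ih]

theorem a1_zero (m n : ℕ) : ∀ α, A1 0 (List.replicate m true ++ List.replicate n false) α ↔
    α.length + m = n := by
  induction m with
  | zero =>
    intro α
    rw [a1_iff]
    cases n <;> simp [δ1, List.replicate_succ, keep]
    · exact (a1_one 0 α).trans (by simp)
    · rw [← List.replicate_succ, a1_one]
  | succ m ih =>
    intro α
    rw [a1_iff]
    simp [δ1, List.replicate_succ, keep, ih]
    omega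

theorem M1_nonreg : ¬ M1.lang.IsRegular := by
  refine not_regular_of _ (fun i => List.replicate i true) fun i j e => ?_
  have h1 : List.replicate i false ∈ M1.lang.leftQuotient (List.replicate i true) :=
    (a1_zero i i []).2 (by simp)
  rw [e] at h1
  have := (a1_zero j i []).1 h1
  simp at this; exact this.symm

theorem M1_rank (q : Fin 3) (a : Option Bool) (g : Option Unit) (t : Fin 3 × List Unit × Bool)
    (ht : t ∈ δ1 q a g) : (t.2.2 = true ∧ a ≠ none) ∨ 2 - t.1.1 < 2 - q.1 := by
  fin_cases q <;> rcases a with _ | _ | _ <;> rcases g with _ | _ <;> simp [δ1] at ht <;>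
    subst ht <;> simp

theorem M1_realtime : M1.Realtime :=
  PDA.realtime_of_rank (M := M1) (fun q : Fin 3 => 2 - q.1) 2 (fun q => by omega) M1_rank

theorem M1_inv (q q' : Fin 3) (v : List Bool) (α β : List Unit) (m : Bool)
    (hδ : (q', β, m) ∈ δ1 q v.head? α.head?) :
    (β ++ α.tail).length + (if m = true then v.tail else v).length ≤ α.length + v.length := by
  fin_cases q <;> rcases v with _ | ⟨_ | _, v⟩ <;> rcases α with _ | ⟨_, α⟩ <;>
    simp [δ1] at hδ <;> obtain ⟨rfl, rfl, rfl⟩ := hδ <;> simp <;> omega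

theorem M1_strong : M1.Strong id := by
  intro w c hc
  have : c.2.2.length + c.2.1.length ≤ w.length := by
    induction hc with
    | refl => simp
    | @tail c d _ hs ih =>
      obtain ⟨β, m, hδ, h1, h2⟩ := hs
      rw [h1, h2]
      exact (M1_inv _ _ _ _ _ _ hδ).trans ih
  simp only [id]; omega

end Pool.Agent.H37.Spc
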