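import Pool.Agent.H37.OcaDefs
import Pool.Agent.H37.Spc4

namespace Pool.Agent.H37.Oca

open Filter Asymptotics Relation Pool.Agent.H37.Spc

/-! ### Lower bounds for pushdown automata -/

theorem AccH_mono {M : PDA} {h h' : ℕ} (hh : h ≤ h') {c : M.Cfg} (H : M.AccH h c) :
    M.AccH h' c := by
  induction H with
  | fin h0 h1 h2 => exact PDA.AccH.fin (h0.trans hh) h1 h2
  | ex h0 h1 h2 _ ih => exact PDA.AccH.ex (h0.trans hh) h1 h2 ih
  | all h0 h1 h2 _ ih => exact PDA.AccH.all (h0.trans hh) h1 h2 ih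

theorem exists_jump' {M : PDA} {s : ℕ → ℕ} (hs : ∀ w ∈ M.lang, w ∈ M.LH (s w.length))
    (hr : ¬ M.lang.IsRegular) (h0 : ℕ) :
    ∃ h, h0 ≤ h ∧ ∃ w, w ∈ M.LH (h + 1) ∧ w ∉ M.LH h := by
  by_contra hn
  push Not at hn
  apply hr
  apply PDA.regular_of_bounded (h := h0)
  intro w hw
  have h1 : w ∈ M.LH (h0 + s w.length) := AccH_mono (by omega) (hs w hw)
  generalize s w.length = k at h1
  induction k with
  | zero => exact h1
  | succ k ih => exact ih (hn (h0 + k) (by omega) w h1)

theorem card_unit_lists (G : Type) [Subsingleton G] (h : ℕ) :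
    Nat.card {l : List G // l.length ≤ h} ≤ h + 1 := by
  have hinj : Function.Injective
      (fun (l : {l : List G // l.length ≤ h}) => (⟨l.1.length, Nat.lt_succ_of_le l.2⟩ : Fin (h + 1))) := by
    intro l l' he
    apply Subtype.ext
    have : l.1.length = l'.1.length := by simpa using he
    exact List.ext_getElem this fun _ _ _ => Subsingleton.elim _ _
  simpa using Nat.card_le_card_of_injective _ hinj

theorem short_jump' {M : PDA} [Subsingleton M.G] {h : ℕ} {w : List M.S} (h1 : w ∈ M.LH (h + 1))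
    (h2 : w ∉ M.LH h) : ∃ w, (w ∈ M.LH (h + 1) ∧ w ∉ M.LH h) ∧
      Nat.log 2 w.length ≤ (3 * Nat.card M.Q + 1) * (h + 1) := by
  haveI := (card_lists M.G h).1
  haveI := (card_lists M.G (h + 1)).1
  obtain ⟨w', hw', hl⟩ := exists_short (fun v => (M.Phi (h + 1) v, M.Phi h v))
    (fun x v v' e => by
      rw [Prod.mk.injEq] at e ⊢
      exact ⟨PDA.phi_cons _ x _ _ e.1, PDA.phi_cons _ x _ _ e.2⟩)
    (fun w => w ∈ M.LH (h + 1) ∧ w ∉ M.LH h)
    (fun v v' e H => by
      rw [Prod.mk.injEq] at e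
      exact ⟨PDA.phi_imp e.1 _ _ H.1, fun H' => H.2 (PDA.phi_imp e.2.symm _ _ H')⟩) _ w rfl ⟨h1, h2⟩
  refine ⟨w', hw', ?_⟩
  rw [Nat.card_prod, card_set', card_set', Nat.card_prod, Nat.card_prod, ← pow_add] at hl
  set a := Nat.card M.Q
  have c1 := Nat.mul_le_mul_left a (card_unit_lists M.G h)
  have c2 := Nat.mul_le_mul_left a (card_unit_lists M.G (h + 1))
  have c4 : a * Nat.card {l : List M.G // l.length ≤ h + 1} +
      a * Nat.card {l : List M.G // l.length ≤ h} ≤ (3 * a + 1) * (h + 1) := by nlinarith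
  have c5 : w'.length ≤ 2 ^ ((3 * a + 1) * (h + 1)) :=
    hl.le.trans (Nat.pow_le_pow_right (by norm_num) c4)
  calc _ ≤ Nat.log 2 (2 ^ ((3 * a + 1) * (h + 1))) := Nat.log_mono_right c5
    _ = _ := by rw [Nat.log_pow (by norm_num)]

theorem not_littleO_log {M : PDA} [Subsingleton M.G] {s : ℕ → ℕ}
    (hs : ∀ w ∈ M.lang, w ∈ M.LH (s w.length)) (hr : ¬ M.lang.IsRegular) :
    ¬ (fun n => (s n : ℝ)) =o[atTop] (fun n => ((Nat.log 2 n : ℕ) : ℝ)) := by
  intro ho
  set C := 3 * Nat.card M.Q + 1 with hC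
  have hCp : (0 : ℝ) < C := by
    have : 0 < C := by omega
    exact_mod_cast this
  obtain ⟨n0, hn0⟩ := eventually_atTop.1 (ho.bound (c := 1 / (2 * C)) (by positivity))
  obtain ⟨h, hh, w, h1, h2⟩ := exists_jump' hs hr ((Finset.range n0).sup s)
  obtain ⟨w, ⟨h1, h2⟩, hl⟩ := short_jump' h1 h2
  have hw : w ∈ M.lang := PDA.AccH.acc h1
  have h3 : h + 1 ≤ s w.length := by
    by_contra hlt
    exact h2 (AccH_mono (by omega) (hs w hw))
  have h4 : n0 ≤ w.length := by
    by_contra hlt
    have : s w.length ≤ (Finset.range n0).sup s :=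
      Finset.le_sup (f := s) (Finset.mem_range.2 (by omega))
    omega
  have h5 := hn0 _ h4
  simp only [Real.norm_natCast] at h5
  have h6 : ((Nat.log 2 w.length : ℕ) : ℝ) ≤ C * (h + 1) := by exact_mod_cast hl
  have h7 : (h + 1 : ℝ) ≤ s w.length := by exact_mod_cast h3
  have h8 : 1 / (2 * (C : ℝ)) * (C * (h + 1)) = (h + 1) / 2 := by field_simp
  have h9 : 1 / (2 * (C : ℝ)) * ((Nat.log 2 w.length : ℕ) : ℝ) ≤
      1 / (2 * (C : ℝ)) * (C * (h + 1)) := mul_le_mul_of_nonneg_left h6 (by positivity)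
  have : (0 : ℝ) ≤ h := Nat.cast_nonneg h
  linarith

theorem nil_of_rtg {M : PDA} {c d : M.Cfg} (H : ReflTransGen M.Step c d) (h : c.2.1 = []) :
    d.2.1 = [] := by
  induction H with
  | refl => exact h
  | tail _ hs ih =>
    obtain ⟨β, m, -, h1, -⟩ := hs
    rw [h1, ih]; simp

theorem regular_of_inner {M : PDA} {s : ℕ → ℕ} (hs : M.Middle s) {N : ℕ}
    (hb : ∀ w d, M.Reach w d → d.2.1 ≠ [] → d.2.2.length ≤ N) : M.lang.IsRegular := by
  classical
  obtain ⟨B, -, hB⟩ := M.exists_B
  haveI := (card_lists M.G (N + B)).1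
  let X := M.Q × {l : List M.G // l.length ≤ N + B}
  let P : X → ℕ → Prop := fun x H =>
    ∀ d, ReflTransGen M.Step (x.1, [], x.2.1) d → d.2.2.length ≤ H
  let bd : X → ℕ := fun x => if h : ∃ H, P x H then h.choose else 0
  obtain ⟨H, hH⟩ := (Set.finite_range bd).bddAbove
  apply PDA.regular_of_bounded (h := max N H)
  intro w hw
  refine PDA.accH_of_acc hw fun d hd => ?_
  have key : d.2.1 ≠ [] ∨ ∃ x : X, M.Reach w (x.1, [], x.2.1) ∧
      ReflTransGen M.Step (x.1, [], x.2.1) d := by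
    induction hd with
    | refl =>
      by_cases h : w = []
      · subst h
        exact Or.inr ⟨(M.start, ⟨[], by simp⟩), .refl, .refl⟩
      · exact Or.inl h
    | @tail c d hc hst ih =>
      rcases ih with ih | ⟨x, x1, x2⟩
      · by_cases h : d.2.1 = []
        · have h1 := hb w c hc ih
          have h2 := (hB _ _ hst).1
          have e : d = (d.1, [], d.2.2) := by rw [← h]
          refine Or.inr ⟨(d.1, ⟨d.2.2, by omega⟩), ?_, ?_⟩
          · show M.Reach w (d.1, [], d.2.2)
            rw [← e]; exact hc.tail hst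
          · show ReflTransGen M.Step (d.1, [], d.2.2) d
            rw [← e]
        · exact Or.inl h
      · exact Or.inr ⟨x, x1, x2.tail hst⟩
  rcases key with h | ⟨x, x1, x2⟩
  · exact (hb w d hd h).trans (le_max_left _ _)
  · have hx : ∃ H, P x H := ⟨s w.length, fun e he => hs w hw e (ReflTransGen.trans x1 he)⟩
    have h1 : d.2.2.length ≤ bd x := by
      simp only [bd, dif_pos hx]
      exact hx.choose_spec d x2
    exact h1.trans ((hH ⟨x, rfl⟩).trans (le_max_right _ _))

theorem not_littleO_unary {M : PDA} [Subsingleton M.S] {s : ℕ → ℕ} (hs : M.Middle s)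
    (hr : ¬ M.lang.IsRegular) : ¬ (fun n => (s n : ℝ)) =o[atTop] (fun n => (n : ℝ)) := by
  obtain ⟨N, hN⟩ := M.pump
  by_cases hb : ∀ w d, M.Reach w d → d.2.1 ≠ [] → d.2.2.length ≤ N
  · exact absurd (regular_of_inner hs hb) hr
  push Not at hb
  obtain ⟨w, d, h1, h2, h3⟩ := hb
  obtain ⟨p, hp⟩ := hN w d d h1 .refl h3
  have big : ∀ k, ∀ v ∈ M.lang, w.length + k * p ≤ v.length → k ≤ s v.length := by
    intro k v hv hk
    obtain ⟨w', d', z', e1, e2, e3, e4, -, e6⟩ := hp k
    have hne : d'.2.1 ≠ [] := fun h => h2 (e6 ▸ nil_of_rtg e3 h)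
    obtain ⟨u, hu, hf⟩ := PDA.in_frame e2
    simp only at hu hf
    have hl := congrArg List.length hu
    rw [List.length_append] at hl
    have hpos : 0 < d'.2.1.length := List.length_pos_iff.2 hne
    have hhead : (v.drop u.length).head? = d'.2.1.head? := by
      have : 0 < (v.drop u.length).length := by rw [List.length_drop]; omega
      revert this hpos
      cases v.drop u.length <;> cases d'.2.1 <;> simp
      exact Subsingleton.elim _ _
    have hv' : u ++ v.drop u.length = v := by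
      refine List.ext_getElem ?_ fun _ _ _ => Subsingleton.elim _ _
      rw [List.length_append, List.length_drop]; omega
    have := hf _ hhead
    rw [hv'] at this
    exact e4.trans (hs v hv (d'.1, List.drop u.length v, d'.2.2) this)
  have inf : ∀ n, ∃ v ∈ M.lang, n ≤ v.length := by
    intro n
    by_contra hn
    push Not at hn
    apply hr
    apply PDA.regular_of_bounded (h := (Finset.range n).sup s)
    intro v hv
    refine PDA.accH_of_acc hv fun e he => (hs v hv e he).trans ?_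
    exact Finset.le_sup (f := s) (Finset.mem_range.2 (hn v hv))
  intro ho
  obtain ⟨n0, hn0⟩ := eventually_atTop.1 (ho.bound (c := 1 / (2 * (p + 1 : ℝ))) (by positivity))
  obtain ⟨v, hv, hl⟩ := inf (n0 + 2 * w.length + 2 * (p + 1) + 1)
  set n := v.length with hn
  have h4 := hn0 n (by omega)
  simp only [Real.norm_natCast] at h4
  have hq := Nat.div_add_mod (n - w.length) (p + 1)
  have hm := Nat.mod_lt (n - w.length) (show p + 1 > 0 by omega)
  set k := (n - w.length) / (p + 1) with hk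
  have h9 : (p + 1) * k = k * p + k := by ring
  have h10 : w.length + k * p ≤ n := by
    clear_value k
    have : w.length ≤ n := by omega
    omega
  have h5 := big k v hv h10
  have h6 : (k : ℝ) ≤ 1 / (2 * (p + 1 : ℝ)) * n := le_trans (by exact_mod_cast h5) h4
  rw [one_div, ← div_eq_inv_mul, le_div_iff₀ (by positivity)] at h6
  have h7 : k * (2 * (p + 1)) ≤ n := by exact_mod_cast h6
  have h8 : (p + 1) * k * 2 = k * (2 * (p + 1)) := by ring
  omega

/-! ### A counter automaton as a pushdown automaton -/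

def Op.len : Op → Bool → ℕ
  | .dec, _ => 0
  | .stay, z => if z = true then 0 else 1
  | .inc, z => if z = true then 1 else 2

namespace CA

variable {S : Type}

def toP [Finite S] (M : CA S) : PDA where
  Q := M.Q
  S := S
  G := Unit
  finQ := M.finQ
  finS := inferInstance
  finG := inferInstance
  start := M.start
  final := M.final
  univ := M.univ
  δ := fun q a g => (fun t => (t.1, List.replicate (t.2.1.len g.isNone) (), t.2.2)) '' M.δ q a g.isNone
  finδ := fun q a g => by
    haveI := M.finQ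
    exact (Set.toFinite _).image _

variable [Finite S] {M : CA S}

instance : Subsingleton M.toP.G := inferInstanceAs (Subsingleton Unit)

def fw (c : M.toP.Cfg) : M.Cfg := (c.1, c.2.1, c.2.2.length)

def bw (c : M.Cfg) : M.toP.Cfg := (c.1, c.2.1, List.replicate c.2.2 ())

theorem fw_bw (c : M.Cfg) : fw (bw c) = c := by
  obtain ⟨q, v, n⟩ := c
  exact Prod.ext rfl (Prod.ext rfl (List.length_replicate (n := n) (a := ())))

theorem isNone_eq (α : List Unit) : α.head?.isNone = decide (α.length = 0) := by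
  cases α <;> simp

theorem len_eq (o : Op) (α : List Unit) :
    o.len (decide (α.length = 0)) + α.tail.length = o.app α.length := by
  cases o <;> cases α <;> simp [Op.len, Op.app] <;> omega

theorem step_iff (c d : M.toP.Cfg) : M.toP.Step c d ↔ M.Step (fw c) (fw d) := by
  obtain ⟨q, v, α⟩ := c
  obtain ⟨q', v', α'⟩ := d
  change List Unit at α α'
  constructor
  · rintro ⟨β, m, ⟨⟨q2, o, m2⟩, ht, e⟩, h1, h2⟩
    simp only [Prod.mk.injEq] at e
    obtain ⟨rfl, rfl, rfl⟩ := e
    refine ⟨o, _, ?_, h1, ?_⟩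
    · have := isNone_eq α
      exact this ▸ ht
    · have h3 : α' = List.replicate (o.len α.head?.isNone) () ++ α.tail := h2
      show α'.length = o.app α.length
      rw [h3, List.length_append, List.length_replicate, isNone_eq, len_eq]
  · rintro ⟨o, m, ht, h1, h2⟩
    refine ⟨List.replicate (o.len α.head?.isNone) (), m, ⟨(q', o, m), ?_, rfl⟩, h1, ?_⟩
    · have := isNone_eq α
      exact this ▸ ht
    · have h3 : α'.length = o.app α.length := h2
      show α' = List.replicate (o.len α.head?.isNone) () ++ α.tail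
      refine List.ext_getElem ?_ fun _ _ _ => rfl
      rw [h3, List.length_append, List.length_replicate, isNone_eq, len_eq]

theorem acc_fw {c : M.toP.Cfg} (H : M.toP.Acc c) : M.Acc (fw c) := by
  induction H with
  | fin h1 h2 => exact Acc.fin h1 h2
  | ex h1 h2 _ ih => exact Acc.ex h1 ((step_iff _ _).1 h2) ih
  | all h1 h2 _ ih =>
    obtain ⟨d, hd⟩ := h2
    refine Acc.all h1 ⟨_, (step_iff _ _).1 hd⟩ fun e he => ?_
    rw [← fw_bw e] at he ⊢
    exact ih _ ((step_iff _ _).2 he)

theorem acc_bw {c : M.Cfg} (H : M.Acc c) : ∀ c', fw c' = c → M.toP.Acc c' := by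
  induction H with
  | fin h1 h2 => rintro c' rfl; exact PDA.Acc.fin h1 h2
  | @ex c d h1 h2 _ ih =>
    rintro c' rfl
    rw [← fw_bw d] at h2
    exact PDA.Acc.ex h1 ((step_iff _ _).2 h2) (ih _ (fw_bw d))
  | all h1 h2 _ ih =>
    rintro c' rfl
    obtain ⟨d, hd⟩ := h2
    rw [← fw_bw d] at hd
    exact PDA.Acc.all h1 ⟨_, (step_iff _ _).2 hd⟩ fun e he => ih _ ((step_iff _ _).1 he) _ rfl

theorem accH_bw {h : ℕ} {c : M.Cfg} (H : M.AccH h c) : ∀ c', fw c' = c → M.toP.AccH h c' := by
  induction H with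
  | fin h0 h1 h2 => rintro c' rfl; exact PDA.AccH.fin h0 h1 h2
  | @ex c d h0 h1 h2 _ ih =>
    rintro c' rfl
    rw [← fw_bw d] at h2
    exact PDA.AccH.ex h0 h1 ((step_iff _ _).2 h2) (ih _ (fw_bw d))
  | all h0 h1 h2 _ ih =>
    rintro c' rfl
    obtain ⟨d, hd⟩ := h2
    rw [← fw_bw d] at hd
    exact PDA.AccH.all h0 h1 ⟨_, (step_iff _ _).2 hd⟩ fun e he => ih _ ((step_iff _ _).1 he) _ rfl

theorem lang_eq : M.toP.lang = M.lang := by
  ext w
  exact ⟨fun h => acc_fw h, fun h => acc_bw h _ rfl⟩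

theorem reach_fw {w : List S} {c : M.toP.Cfg} (H : M.toP.Reach w c) : M.Reach w (fw c) := by
  induction H with
  | refl => exact .refl
  | tail _ hs ih => exact ih.tail ((step_iff _ _).1 hs)

theorem lb_strong {s : ℕ → ℕ} (hs : M.Strong s) (hr : ¬ M.lang.IsRegular) :
    ¬ (fun n => (s n : ℝ)) =o[atTop] (fun n => (n : ℝ)) :=
  PDA.not_littleO_strong (M := M.toP) (fun w c hc => hs w _ (reach_fw hc)) (lang_eq (M := M) ▸ hr)

theorem lb_weak {s : ℕ → ℕ} (hs : M.Weak s) (hr : ¬ M.lang.IsRegular) :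
    ¬ (fun n => (s n : ℝ)) =o[atTop] (fun n => ((Nat.log 2 n : ℕ) : ℝ)) :=
  not_littleO_log (M := M.toP) (fun w hw => accH_bw (hs w (lang_eq (M := M) ▸ hw)) _ rfl) (lang_eq (M := M) ▸ hr)

theorem lb_unary {M : CA Unit} {s : ℕ → ℕ} (hs : M.Middle s) (hr : ¬ M.lang.IsRegular) :
    ¬ (fun n => (s n : ℝ)) =o[atTop] (fun n => (n : ℝ)) :=
  haveI : Subsingleton M.toP.S := inferInstanceAs (Subsingleton Unit)
  not_littleO_unary (M := M.toP) (fun w hw c hc => hs w (lang_eq (M := M) ▸ hw) _ (reach_fw hc))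
    (lang_eq (M := M) ▸ hr)

end CA

end Pool.Agent.H37.Oca
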