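import Pool.Agent.H37.Oca1

namespace Pool.Agent.H37.Oca

open Filter Asymptotics Relation Pool.Agent.H37.Spc

namespace CA

variable {S : Type} {M : CA S}

theorem acc_iff (q : M.Q) (v : List S) (n : ℕ) : M.Acc (q, v, n) ↔
    (v = [] ∧ q ∈ M.final) ∨
    (q ∉ M.univ ∧ ∃ t ∈ M.δ q v.head? (decide (n = 0)),
      M.Acc (t.1, if t.2.2 = true then v.tail else v, t.2.1.app n)) ∨
    (q ∈ M.univ ∧ (∃ t, t ∈ M.δ q v.head? (decide (n = 0))) ∧
      ∀ t ∈ M.δ q v.head? (decide (n = 0)),
      M.Acc (t.1, if t.2.2 = true then v.tail else v, t.2.1.app n)) := by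
  constructor
  · intro H
    cases H with
    | fin h1 h2 => exact Or.inl ⟨h1, h2⟩
    | @ex _ d h1 h2 h3 =>
      obtain ⟨q', i', s'⟩ := d
      obtain ⟨β, m, hδ, hi, hs⟩ := h2
      simp only at hδ hi hs
      subst hi hs
      exact Or.inr (Or.inl ⟨h1, _, hδ, h3⟩)
    | all h1 h2 h3 =>
      obtain ⟨d, β, m, hδ, -⟩ := h2
      exact Or.inr (Or.inr ⟨h1, ⟨_, hδ⟩, fun t ht => h3 _ ⟨t.2.1, t.2.2, ht, rfl, rfl⟩⟩)
  · rintro (⟨h1, h2⟩ | ⟨h1, t, ht, h3⟩ | ⟨h1, ⟨t, ht⟩, h3⟩)
    · exact Acc.fin h1 h2
    · exact Acc.ex h1 ⟨t.2.1, t.2.2, ht, rfl, rfl⟩ h3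
    · refine Acc.all h1 ⟨(t.1, _, _), t.2.1, t.2.2, ht, rfl, rfl⟩ ?_
      rintro ⟨q', i', s'⟩ ⟨β, m, hδ, hi, hs⟩
      simp only at hδ hi hs
      subst hi hs
      exact h3 _ hδ

theorem accH_of_acc {h : ℕ} {c : M.Cfg} (H : M.Acc c)
    (hb : ∀ d, ReflTransGen M.Step c d → d.2.2 ≤ h) : M.AccH h c := by
  induction H with
  | fin h1 h2 => exact AccH.fin (hb _ .refl) h1 h2
  | ex h1 h2 _ ih => exact AccH.ex (hb _ .refl) h1 h2 (ih fun e he => hb e (.head h2 he))
  | all h1 h2 _ ih =>
    exact AccH.all (hb _ .refl) h1 h2 fun d hd => ih d hd fun e he => hb e (.head hd he)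

theorem Middle.weak {s : ℕ → ℕ} (h : M.Middle s) : M.Weak s :=
  fun w hw => accH_of_acc hw (h w hw)

theorem Strong.middle {s : ℕ → ℕ} (h : M.Strong s) : M.Middle s := fun w _ => h w

theorem realtime_of_rank (rk : M.Q → ℕ) (K : ℕ) (hK : ∀ q, rk q ≤ K)
    (h : ∀ q a g t, t ∈ M.δ q a g → (t.2.2 = true ∧ a ≠ none) ∨ rk t.1 < rk q) : M.Realtime := by
  refine ⟨K + 1, fun w f _ hs => ?_⟩
  have key : ∀ i ≤ K + 1, (f i).2.1.length < (f 0).2.1.length ∨
      ((f i).2.1.length = (f 0).2.1.length ∧ rk (f i).1 + i ≤ rk (f 0).1) := by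
    intro i
    induction i with
    | zero => intro _; exact Or.inr ⟨rfl, le_rfl⟩
    | succ i ih =>
      intro hi
      obtain ⟨β, m, hδ, h1, -⟩ := hs i (by omega)
      have h2 : (f (i + 1)).2.1.length ≤ (f i).2.1.length := by
        rw [h1]; split_ifs <;> simp
      rcases h _ _ _ _ hδ with ⟨h3, h4⟩ | h3
      · simp only at h3
        have h5 : (f (i + 1)).2.1.length < (f i).2.1.length := by
          rw [h1, if_pos h3]
          cases hv : (f i).2.1 with
          | nil => rw [hv] at h4; exact absurd rfl h4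
          | cons x r => simp
        rcases ih (by omega) with h6 | h6 <;> omega
      · simp only at h3
        rcases ih (by omega) with h6 | h6 <;> omega
  have := hK (f 0).1
  rcases key (K + 1) le_rfl with h6 | h6 <;> omega

theorem strong_of_inc (h : ∀ q a g t, t ∈ M.δ q a g → t.2.1 = Op.inc → t.2.2 = true ∧ a ≠ none) :
    M.Strong id := by
  intro w c hc
  have : c.2.2 + c.2.1.length ≤ w.length := by
    induction hc with
    | refl => simp
    | @tail c d _ hs ih =>
      obtain ⟨o, m, hδ, h1, h2⟩ := hs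
      have h3 : d.2.1.length ≤ c.2.1.length := by
        rw [h1]; split_ifs <;> simp
      cases o with
      | inc =>
        obtain ⟨h4, h5⟩ := h _ _ _ _ hδ rfl
        simp only at h4
        have h6 : d.2.1.length < c.2.1.length := by
          rw [h1, if_pos h4]
          cases hv : c.2.1 with
          | nil => rw [hv] at h5; exact absurd rfl h5
          | cons x r => simp
        rw [h2]; simp only [Op.app]; omega
      | _ => rw [h2]; simp only [Op.app]; omega
  simp only [id]; omega

end CA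

/-! ### The unary machine -/

inductive US
  | S | F | B (b : Bool) | P (b c : Bool) | C (b : Bool) | Z | ACC | REJ
  deriving DecidableEq, Fintype

open US Op

def δu : US → Option Unit → Bool → List (US × Op × Bool)
  | S, some _, _ => [(S, inc, true), (F, stay, false)]
  | S, none, _ => [(F, stay, false)]
  | F, _, _ => [(Z, stay, false), (C true, stay, false)]
  | B b, some _, _ => [(P true (!b), stay, false), (P false b, stay, false)]
  | P b c, some _, _ => [(B b, stay, true), (C c, stay, true)]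
  | P _ _, none, _ => [(REJ, stay, false)]
  | C true, _, true => [(ACC, stay, false)]
  | C true, some _, false => [(B true, dec, true), (C true, dec, true)]
  | C true, none, false => [(REJ, stay, false)]
  | C false, some _, false => [(B false, dec, true), (C false, dec, true)]
  | C false, none, false => [(ACC, stay, false)]
  | Z, some _, _ => [(Z, stay, true), (C false, stay, true)]
  | ACC, some _, _ => [(ACC, stay, true)]
  | _, _, _ => []

def uU : US → Bool
  | F => true
  | P _ _ => true
  | C true => true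
  | Z => true
  | _ => false

def uF : US → Bool
  | B false => true
  | Z => true
  | ACC => true
  | _ => false

def MU : CA Unit where
  Q := US
  finQ := inferInstance
  start := S
  final := {q | uF q = true}
  univ := {q | uU q = true}
  δ := fun q a g => {t | t ∈ δu q a g}

def Au (q : US) (m n : ℕ) : Prop := MU.Acc (q, List.replicate m (), n)

theorem au_zero (q : US) (n : ℕ) : Au q 0 n ↔
    uF q = true ∨
    (¬ uU q = true ∧ ∃ t ∈ δu q none (decide (n = 0)), Au t.1 0 (t.2.1.app n)) ∨
    (uU q = true ∧ (∃ t, t ∈ δu q none (decide (n = 0))) ∧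
      ∀ t ∈ δu q none (decide (n = 0)), Au t.1 0 (t.2.1.app n)) := by
  unfold Au
  rw [CA.acc_iff (M := MU)]
  simp only [List.replicate_zero, List.tail_nil, ite_self, true_and]
  rfl

theorem au_succ (q : US) (m n : ℕ) : Au q (m + 1) n ↔
    (¬ uU q = true ∧ ∃ t ∈ δu q (some ()) (decide (n = 0)),
      Au t.1 (if t.2.2 = true then m else m + 1) (t.2.1.app n)) ∨
    (uU q = true ∧ (∃ t, t ∈ δu q (some ()) (decide (n = 0))) ∧
      ∀ t ∈ δu q (some ()) (decide (n = 0)),
        Au t.1 (if t.2.2 = true then m else m + 1) (t.2.1.app n)) := by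
  unfold Au
  rw [CA.acc_iff (M := MU)]
  have e : ∀ b : Bool, (if b = true then (List.replicate (m + 1) ()).tail
      else List.replicate (m + 1) ()) = List.replicate (if b = true then m else m + 1) () := by
    intro b; cases b <;> simp
  simp only [e]
  rw [or_iff_right (by simp)]
  rfl

theorem au_ACC (m n : ℕ) : Au ACC m n := by
  induction m with
  | zero => rw [au_zero]; simp [uF]
  | succ m ih => rw [au_succ]; simp [uU, δu, Op.app, ih]

theorem au_REJ (n : ℕ) : ¬ Au REJ 0 n := by
  rw [au_zero]; simp [uF, uU, δu]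

def NN (j m : ℕ) : ℕ := (m - j) / 2 ^ j

theorem NN_zero (m : ℕ) : NN 0 m = m := by simp [NN]
theorem NN_zero' (j : ℕ) : NN j 0 = 0 := by simp [NN]
theorem NN_succ (j m : ℕ) : NN (j + 1) (m + 1) = NN j m / 2 := by
  simp [NN, pow_succ, Nat.div_div_eq_div_mul]

theorem NN_step (j : ℕ) : ∀ m, NN j m ≤ NN j (m + 1) ∧ NN j (m + 1) ≤ NN j m + 1 := by
  induction j with
  | zero => intro m; simp [NN_zero]
  | succ j ih =>
    intro m
    cases m with
    | zero => rw [NN_succ, NN_zero', NN_zero']; omega
    | succ m => have := ih m; rw [NN_succ, NN_succ]; omega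

theorem au_BC (m : ℕ) : ∀ j, (∀ b, Au (B b) m j ↔ (NN j m % 2 = 1 ↔ b = true)) ∧
    (∀ b, Au (C b) m j ↔ (NN j (m + 1) ≠ NN j m ↔ b = true)) := by
  induction m with
  | zero =>
    intro j
    refine ⟨fun b => ?_, fun b => ?_⟩
    · rw [au_zero]; cases b <;> simp [uF, uU, δu, NN_zero']
    · rw [au_zero]
      cases j with
      | zero => cases b <;> simp [uF, uU, δu, NN_zero, au_ACC]
      | succ j => cases b <;> simp [uF, uU, δu, NN_succ, NN_zero', au_ACC, au_REJ]
  | succ m ih =>
    intro j
    have hP : ∀ b c, Au (P b c) (m + 1) j ↔ Au (B b) m j ∧ Au (C c) m j := by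
      intro b c; rw [au_succ]; simp [uU, δu, Op.app]
    refine ⟨fun b => ?_, fun b => ?_⟩
    · rw [au_succ]
      have := NN_step j m
      cases b <;> simp [uU, δu, Op.app, hP, (ih j).1, (ih j).2] <;> omega
    · rw [au_succ]
      cases j with
      | zero => cases b <;> simp [uU, δu, NN_zero, au_ACC]
      | succ j =>
        have := NN_step j m
        cases b <;> simp [uU, δu, Op.app, NN_succ, (ih j).1, (ih j).2] <;> omega

theorem au_Z (m j : ℕ) : Au Z m j ↔ NN j m = 0 := by
  induction m with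
  | zero => rw [au_zero]; simp [uF, NN_zero']
  | succ m ih =>
    rw [au_succ]
    have := NN_step j m
    simp [uU, δu, Op.app, ih, (au_BC m j).2]
    omega

theorem au_F (m j : ℕ) : Au F m j ↔ m + 1 = 2 ^ j + j := by
  have h : Au F m j ↔ Au Z m j ∧ Au (C true) m j := by
    cases m with
    | zero => rw [au_zero]; simp [uF, uU, δu, Op.app]
    | succ m => rw [au_succ]; simp [uU, δu, Op.app]
  rw [h, au_Z, (au_BC m j).2]
  have hp : 0 < 2 ^ j := by positivity
  constructor
  · rintro ⟨h1, h2⟩
    have h3 : NN j (m + 1) ≠ 0 := by rw [← h1]; exact h2.2 rfl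
    unfold NN at h1 h3
    rw [Nat.div_eq_zero_iff_lt hp] at h1
    rw [Ne, Nat.div_eq_zero_iff_lt hp] at h3
    omega
  · intro h1
    have h2 : NN j m = 0 := by
      unfold NN; rw [Nat.div_eq_zero_iff_lt hp]; omega
    have h3 : NN j (m + 1) ≠ 0 := by
      unfold NN; rw [Ne, Nat.div_eq_zero_iff_lt hp]; omega
    exact ⟨h2, by rw [h2]; simp [h3]⟩

theorem au_S (m : ℕ) : ∀ j, Au S m j ↔ ∃ i, j ≤ i ∧ m + j + 1 = 2 ^ i + 2 * i := by
  induction m with
  | zero =>
    intro j
    rw [au_zero]
    simp only [uF, uU, δu, List.mem_singleton, exists_eq_left, Op.app, au_F]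
    constructor
    · rintro (h | ⟨-, h⟩ | ⟨h, -⟩)
      · cases h
      · exact ⟨j, le_rfl, by omega⟩
      · cases h
    · rintro ⟨i, h1, h2⟩
      have : 0 < 2 ^ i := by positivity
      obtain rfl : i = j := by omega
      exact Or.inr (Or.inl ⟨by simp, by omega⟩)
  | succ m ih =>
    intro j
    rw [au_succ]
    simp only [uU, δu, List.mem_cons, List.not_mem_nil, or_false, exists_eq_or_imp,
      exists_eq_left, Op.app, au_F, if_true, ih]
    constructor
    · rintro (⟨-, ⟨i, h1, h2⟩ | h⟩ | ⟨h, -⟩)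
      · exact ⟨i, by omega, by omega⟩
      · exact ⟨j, le_rfl, by simp at h; omega⟩
      · cases h
    · rintro ⟨i, h1, h2⟩
      refine Or.inl ⟨by simp, ?_⟩
      rcases h1.eq_or_lt with rfl | h1
      · right; simp; omega
      · exact Or.inl ⟨i, h1, by omega⟩

theorem unit_list (w : List Unit) : w = List.replicate w.length () :=
  List.ext_getElem (by simp) fun _ _ _ => rfl

theorem mem_MU (n : ℕ) : List.replicate n () ∈ MU.lang ↔ ∃ i, n + 1 = 2 ^ i + 2 * i := by
  change Au S n 0 ↔ _
  rw [au_S]; simp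

theorem MU_nonreg : ¬ MU.lang.IsRegular := by
  have key : ∀ i j, i < j → MU.lang.leftQuotient (List.replicate (2 ^ i + 2 * i - 1) ()) ≠
      MU.lang.leftQuotient (List.replicate (2 ^ j + 2 * j - 1) ()) := by
    intro i j hij e
    have hi : 0 < 2 ^ i := by positivity
    have h1 : List.replicate (2 ^ i + 2) () ∈
        MU.lang.leftQuotient (List.replicate (2 ^ i + 2 * i - 1) ()) := by
      rw [Language.mem_leftQuotient, ← List.replicate_add, mem_MU]
      exact ⟨i + 1, by rw [pow_succ]; omega⟩
    rw [e, Language.mem_leftQuotient, ← List.replicate_add, mem_MU] at h1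
    obtain ⟨k, hk⟩ := h1
    have h2 : 2 ^ i < 2 ^ j := Nat.pow_lt_pow_right (by norm_num) hij
    rcases le_or_gt k j with h | h
    · have := Nat.pow_le_pow_right (n := 2) (by norm_num) h
      omega
    · have := Nat.pow_le_pow_right (n := 2) (by norm_num) (Nat.succ_le_of_lt h)
      rw [pow_succ] at this
      omega
  refine not_regular_of _ (fun i => List.replicate (2 ^ i + 2 * i - 1) ()) fun i j e => ?_
  rcases lt_trichotomy i j with h | h | h
  · exact absurd e (key i j h)
  · exact h
  · exact absurd e.symm (key j i h)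

def rku : US → ℕ
  | S => 4
  | F => 3
  | B _ => 2
  | C _ => 2
  | P _ _ => 1
  | _ => 0

theorem MU_realtime : MU.Realtime :=
  CA.realtime_of_rank (M := MU) rku 4 (fun q => by cases q <;> simp [rku]) (by
    change ∀ (q : US) (a : Option Unit) (g : Bool) (t : US × Op × Bool), t ∈ δu q a g →
      (t.2.2 = true ∧ a ≠ none) ∨ rku t.1 < rku q
    decide)

theorem MU_strong : MU.Strong id :=
  CA.strong_of_inc (M := MU) (by
    change ∀ (q : US) (a : Option Unit) (g : Bool) (t : US × Op × Bool), t ∈ δu q a g →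
      t.2.1 = Op.inc → t.2.2 = true ∧ a ≠ none
    decide)

theorem noinc : ∀ (q : US) (a : Option Unit) (g : Bool) (t : US × Op × Bool), t ∈ δu q a g →
    q ≠ S → t.1 ≠ S ∧ t.2.1 ≠ Op.inc := by decide

theorem accH_F {m j h : ℕ} (H : Au F m j) (hj : j ≤ h) : MU.AccH h (F, List.replicate m (), j) := by
  refine CA.accH_of_acc H fun d hd => ?_
  have : d.1 ≠ S ∧ d.2.2 ≤ h := by
    induction hd with
    | refl => exact ⟨by simp, hj⟩
    | @tail c d _ hs ih =>
      obtain ⟨o, mv, hδ, -, h2⟩ := hs
      obtain ⟨h3, h4⟩ := noinc _ _ _ _ hδ ih.1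
      refine ⟨h3, ?_⟩
      have := ih.2
      rw [h2]
      cases o <;> simp [Op.app] at h4 ⊢ <;> omega
  exact this.2

theorem accH_S (i : ℕ) {h : ℕ} (hi : i ≤ h) (k : ℕ) : ∀ j m, j + k = i → m + j + 1 = 2 ^ i + 2 * i →
    MU.AccH h (S, List.replicate m (), j) := by
  induction k with
  | zero =>
    intro j m h1 h2
    obtain rfl : j = i := by omega
    refine CA.AccH.ex (d := (F, List.replicate m (), j)) hi (show ¬ uU S = true by decide)
      ⟨stay, false, ?_, rfl, rfl⟩ (accH_F ((au_F m j).2 (by omega)) hi)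
    show (F, stay, false) ∈ δu S (List.replicate m ()).head? (decide (j = 0))
    cases m <;> simp [δu, List.replicate_succ]
  | succ k ih =>
    intro j m h1 h2
    have : 0 < 2 ^ i := by positivity
    obtain ⟨m, rfl⟩ : ∃ m', m = m' + 1 := ⟨m - 1, by omega⟩
    refine CA.AccH.ex (d := (S, List.replicate m (), j + 1)) (show j ≤ h by omega)
      (show ¬ uU S = true by decide) ⟨inc, true, ?_, by simp, rfl⟩ (ih _ _ (by omega) (by omega))
    show (S, inc, true) ∈ δu S (List.replicate (m + 1) ()).head? (decide (j = 0))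
    simp [δu, List.replicate_succ]

theorem MU_weak : MU.Weak fun n => Nat.log 2 n + 1 := by
  intro w hw
  rw [unit_list w, mem_MU] at hw
  obtain ⟨i, hi⟩ := hw
  have h1 : i ≤ Nat.log 2 w.length + 1 := by
    cases i with
    | zero => omega
    | succ i =>
      have : 2 ^ i ≤ w.length := by rw [pow_succ] at hi; omega
      have := Nat.log_mono_right (b := 2) this
      rw [Nat.log_pow (by norm_num)] at this
      omega
  have := accH_S i h1 i 0 w.length (by omega) (by omega)
  rw [← unit_list w] at this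
  exact this

end Pool.Agent.H37.Oca
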