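import Pool.Agent.H37.Oca2

namespace Pool.Agent.H37.Oca

open Filter Asymptotics Relation Pool.Agent.H37.Spc

/-! ### The binary machine -/

inductive BS
  | M | SK | OB | S (r : Bool) | E (r : Bool) | U (r : Bool) | K (r : Bool) | LS | E1 | EQ | AC
  deriving DecidableEq, Fintype

open BS Op

def δb : BS → Option Bool → Bool → List (BS × Op × Bool)
  | M, some _, _ => [(OB, stay, false), (SK, stay, false)]
  | M, none, _ => [(AC, stay, false)]
  | SK, some true, _ => [(SK, stay, true)]
  | SK, some false, _ => [(M, stay, true)]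
  | OB, some true, _ => [(OB, inc, true)]
  | OB, some false, z => [(if z = true then AC else S true, stay, true)]
  | S r, _, _ => [(LS, stay, false), (E r, stay, false)]
  | E r, _, _ => [(K r, stay, false), (U r, stay, false)]
  | U r, _, _ => [(E1, stay, false), (if r = true then K false else AC, stay, false)]
  | K r, some true, _ => [(K r, stay, true)]
  | K r, some false, _ => [(S r, stay, true)]
  | LS, some true, false => [(LS, dec, true)]
  | LS, some false, false => [(AC, stay, true)]
  | E1, _, false => [(EQ, dec, false)]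
  | EQ, some true, false => [(EQ, dec, true)]
  | EQ, some false, true => [(AC, stay, true)]
  | AC, some _, _ => [(AC, stay, true)]
  | _, _, _ => []

def bU : BS → Bool
  | M => true
  | S _ => true
  | U _ => true
  | _ => false

def MB : CA Bool where
  Q := BS
  finQ := inferInstance
  start := M
  final := {q | q = AC}
  univ := {q | bU q = true}
  δ := fun q a g => {t | t ∈ δb q a g}

def Ab (q : BS) (v : List Bool) (n : ℕ) : Prop := MB.Acc (q, v, n)

theorem ab_iff (q : BS) (v : List Bool) (n : ℕ) : Ab q v n ↔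
    (v = [] ∧ q = AC) ∨
    (¬ bU q = true ∧ ∃ t ∈ δb q v.head? (decide (n = 0)),
      Ab t.1 (if t.2.2 = true then v.tail else v) (t.2.1.app n)) ∨
    (bU q = true ∧ (∃ t, t ∈ δb q v.head? (decide (n = 0))) ∧
      ∀ t ∈ δb q v.head? (decide (n = 0)),
      Ab t.1 (if t.2.2 = true then v.tail else v) (t.2.1.app n)) :=
  CA.acc_iff (M := MB) q v n

theorem ab_AC (v : List Bool) (n : ℕ) : Ab AC v n := by
  induction v with
  | nil => rw [ab_iff]; simp
  | cons x v ih => rw [ab_iff]; simp [bU, δb, Op.app, ih]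

def blk : ℕ → List Bool → List Bool
  | 0, r => false :: r
  | i + 1, r => true :: blk i r

def enc : List ℕ → List Bool
  | [] => []
  | i :: bs => blk i (enc bs)

theorem ab_LS (i : ℕ) (r) : ∀ n, Ab LS (blk i r) n ↔ i < n := by
  induction i with
  | zero => intro n; rw [ab_iff]; cases n <;> simp [bU, δb, blk, ab_AC]
  | succ i ih => intro n; rw [ab_iff]; cases n <;> simp [bU, δb, blk, ih, Op.app]

theorem ab_EQ (i : ℕ) (r) : ∀ n, Ab EQ (blk i r) n ↔ i = n := by
  induction i with
  | zero =>
    intro n; rw [ab_iff]; cases n <;> simp [bU, δb, blk, ab_AC]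
  | succ i ih => intro n; rw [ab_iff]; cases n <;> simp [bU, δb, blk, ih, Op.app]

theorem ab_E1 (i : ℕ) (r n) : Ab E1 (blk i r) n ↔ i + 1 = n := by
  rw [ab_iff]; cases n <;> simp [bU, δb, ab_EQ, Op.app]

theorem ab_K (j : Bool) (i : ℕ) (r n) : Ab (K j) (blk i r) n ↔ Ab (S j) r n := by
  induction i with
  | zero => rw [ab_iff]; simp [bU, δb, blk, Op.app]
  | succ i ih => rw [ab_iff]; simp [bU, δb, blk, Op.app, ih]

theorem ab_SK (i : ℕ) (r n) : Ab SK (blk i r) n ↔ Ab M r n := by
  induction i with
  | zero => rw [ab_iff]; simp [bU, δb, blk, Op.app]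
  | succ i ih => rw [ab_iff]; simp [bU, δb, blk, Op.app, ih]

theorem ab_OB (i : ℕ) (r) : ∀ n, Ab OB (blk i r) n ↔ i + n = 0 ∨ Ab (S true) r (i + n) := by
  induction i with
  | zero => intro n; rw [ab_iff]; cases n <;> simp [bU, δb, blk, Op.app, ab_AC]
  | succ i ih =>
    intro n; rw [ab_iff]
    have e : i + (n + 1) = i + 1 + n := by ring
    simp [bU, δb, blk, Op.app, ih, e]

theorem ab_M_cons (x : Bool) (v n) : Ab M (x :: v) n ↔ Ab OB (x :: v) n ∧ Ab SK (x :: v) n := by
  rw [ab_iff]; simp [bU, δb, Op.app]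

theorem parse (n : ℕ) (v : List Bool) :
    (Ab SK v n → ∃ i bs, v = blk i (enc bs)) ∧ (Ab M v n → ∃ bs, v = enc bs) := by
  induction v with
  | nil =>
    refine ⟨fun h => ?_, fun _ => ⟨[], rfl⟩⟩
    rw [ab_iff] at h; simp [bU, δb] at h
  | cons x v ih =>
    have h1 : Ab SK (x :: v) n → ∃ i bs, x :: v = blk i (enc bs) := by
      intro h
      rw [ab_iff] at h
      cases x with
      | false =>
        simp [bU, δb, Op.app] at h
        obtain ⟨bs, rfl⟩ := ih.2 h
        exact ⟨0, bs, rfl⟩
      | true =>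
        simp [bU, δb, Op.app] at h
        obtain ⟨u, bs, rfl⟩ := ih.1 h
        exact ⟨u + 1, bs, rfl⟩
    refine ⟨h1, fun h => ?_⟩
    obtain ⟨u, bs, e⟩ := h1 ((ab_M_cons x v n).1 h).2
    exact ⟨u :: bs, e⟩

def Srch (y : ℕ) : List ℕ → Bool → Prop
  | [], _ => False
  | v :: bs, r => v < y ∧ (Srch y bs r ∨ (v + 1 = y ∧ (r = true → Srch y bs false)))

theorem ab_S_step (j : Bool) (v n) : Ab (S j) v n ↔
    Ab LS v n ∧ (Ab (K j) v n ∨ (Ab E1 v n ∧ Ab (if j = true then K false else AC) v n)) := by
  rw [ab_iff]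
  simp only [bU, δb, List.mem_cons, List.not_mem_nil, or_false, forall_eq_or_imp, forall_eq,
    Op.app]
  rw [ab_iff (E j)]
  simp only [bU, δb, List.mem_cons, List.not_mem_nil, or_false, exists_eq_or_imp,
    exists_eq_left, Op.app]
  rw [ab_iff (U j)]
  simp [bU, δb, Op.app]

theorem ab_S (y : ℕ) (bs : List ℕ) : ∀ j, Ab (S j) (enc bs) y ↔ Srch y bs j := by
  induction bs with
  | nil =>
    intro j
    rw [ab_S_step, ab_iff LS]
    simp [bU, δb, enc, Srch]
  | cons v bs ih =>
    intro j
    rw [ab_S_step, enc, ab_LS, ab_K, ab_E1, ih, Srch]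
    cases j
    · simp [ab_AC]
    · simp [ab_K, ih]

def Good : List ℕ → Prop
  | [] => True
  | v :: bs => (v = 0 ∨ Srch v bs true) ∧ Good bs

theorem ab_M (bs : List ℕ) : Ab M (enc bs) 0 ↔ Good bs := by
  induction bs with
  | nil => rw [ab_iff]; simp [bU, δb, enc, Good, ab_AC]
  | cons v bs ih =>
    have : ∃ x w, enc (v :: bs) = x :: w := by cases v <;> simp [enc, blk]
    obtain ⟨x, w, e⟩ := this
    rw [e, ab_M_cons, ← e, enc, ab_OB, ab_SK, ih, Good, ab_S]
    simp

/-- length of the longest initial segment with entries below `y` -/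
def RR (y : ℕ) : List ℕ → ℕ
  | [] => 0
  | v :: bs => if v < y then RR y bs + 1 else 0

theorem RR_le (y : ℕ) (bs : List ℕ) : RR y bs ≤ bs.length := by
  induction bs with
  | nil => simp [RR]
  | cons v bs ih => simp only [RR]; split_ifs <;> simp [ih]

theorem RR_mono (y : ℕ) (bs : List ℕ) : RR y bs ≤ RR (y + 1) bs := by
  induction bs with
  | nil => simp [RR]
  | cons v bs ih => simp only [RR]; split_ifs <;> omega

theorem span : ∀ (y : ℕ) (bs : List ℕ), Good bs → (y = 0 ∨ Srch y bs true) →
    2 ^ y ≤ RR y bs + 1 := by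
  intro y
  induction y with
  | zero => intro bs _ _; simp
  | succ y ih =>
    have two : ∀ bs, Good bs → Srch (y + 1) bs false →
        RR y bs + 2 ^ y ≤ RR (y + 1) bs := by
      intro bs
      induction bs with
      | nil => intro _ h; exact h.elim
      | cons v bs ih2 =>
        rintro hg ⟨h1, h2 | ⟨h2, -⟩⟩
        · have := ih2 hg.2 h2
          simp only [RR, if_pos h1]; split_ifs <;> omega
        · obtain rfl : v = y := by omega
          have h3 := ih bs hg.2 hg.1
          have h4 := RR_mono v bs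
          simp only [RR, if_pos h1, lt_irrefl, if_false]; omega
    intro bs hg h0
    have h := h0.resolve_left (by omega)
    clear h0
    induction bs with
    | nil => exact h.elim
    | cons v bs ih2 =>
      obtain ⟨h1, h2 | ⟨h2, h3⟩⟩ := h
      · have := ih2 hg.2 h2
        simp only [RR, if_pos h1]; omega
      · obtain rfl : v = y := by omega
        have h4 := ih bs hg.2 hg.1
        have h5 := two bs hg.2 (h3 rfl)
        simp only [RR, if_pos h1, pow_succ]; omega

theorem blk_length (i r) : (blk i r).length = i + 1 + r.length := by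
  induction i with
  | zero => simp [blk]; omega
  | succ i ih => simp [blk, ih]; omega

theorem enc_length (bs : List ℕ) : bs.length ≤ (enc bs).length := by
  induction bs with
  | nil => simp
  | cons v bs ih => simp [enc, blk_length]; omega

theorem Good.small {bs : List ℕ} (h : Good bs) : ∀ v ∈ bs, 2 ^ v ≤ bs.length := by
  induction bs with
  | nil => simp
  | cons y bs ih =>
    intro v hv
    rcases List.mem_cons.1 hv with rfl | hv
    · have := span v bs h.2 h.1
      have := RR_le v bs
      simp; omega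
    · have := ih h.2 v hv
      simp; omega

/-! completeness -/

def ZZ : ℕ → List ℕ
  | 0 => []
  | j + 1 => j :: (ZZ j ++ j :: ZZ j)

theorem mem_ZZ {v : ℕ} : ∀ j, v ∈ ZZ j → v < j := by
  intro j
  induction j with
  | zero => intro h; simp [ZZ] at h
  | succ j ih =>
    intro h
    have : v = j ∨ v ∈ ZZ j := by
      simp only [ZZ, List.mem_cons, List.mem_append] at h; tauto
    rcases this with h | h
    · omega
    · have := ih h; omega

theorem srch_skip {y : ℕ} {rest : List ℕ} {r : Bool} (a : List ℕ)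
    (ha : ∀ v ∈ a, v < y) (h : Srch y rest r) : Srch y (a ++ rest) r := by
  induction a with
  | nil => exact h
  | cons v a ih => exact ⟨ha v (by simp), Or.inl (ih fun w hw => ha w (by simp [hw]))⟩

theorem srch_ZZ (j : ℕ) (rest : List ℕ) : Srch (j + 1) (ZZ (j + 1) ++ rest) true := by
  simp only [ZZ, List.cons_append, List.append_assoc]
  refine ⟨by omega, Or.inr ⟨rfl, fun _ => srch_skip _ (fun v hv => ?_) ?_⟩⟩
  · have := mem_ZZ j hv; omega
  · exact ⟨by omega, Or.inr ⟨rfl, by simp⟩⟩

theorem good_ZZ : ∀ j rest, Good rest → Good (ZZ j ++ rest) := by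
  intro j
  induction j with
  | zero => intro rest h; exact h
  | succ j ih =>
    intro rest h
    have one : ∀ rest, Good rest → Good (j :: (ZZ j ++ rest)) := by
      intro rest h
      refine ⟨?_, ih rest h⟩
      cases j with
      | zero => exact Or.inl rfl
      | succ j => exact Or.inr (srch_ZZ j rest)
    simp only [ZZ, List.cons_append, List.append_assoc]
    exact one _ (one _ h)

theorem blk_eq (i : ℕ) (r) : List.replicate i true ++ false :: r = blk i r := by
  induction i with
  | zero => rfl
  | succ i ih => simp [List.replicate_succ, blk, ih]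

theorem MB_nonreg : ¬ MB.lang.IsRegular := by
  have key : ∀ i j, MB.lang.leftQuotient (List.replicate (i + 1) true) =
      MB.lang.leftQuotient (List.replicate (j + 1) true) → i ≤ j := by
    intro i j e
    have h1 : false :: enc (ZZ (i + 1)) ∈ MB.lang.leftQuotient (List.replicate (i + 1) true) := by
      rw [Language.mem_leftQuotient, blk_eq]
      refine (ab_M ((i + 1) :: ZZ (i + 1))).2 ⟨Or.inr ?_, ?_⟩
      · simpa using srch_ZZ i []
      · simpa using good_ZZ (i + 1) [] trivial
    rw [e, Language.mem_leftQuotient, blk_eq] at h1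
    have h2 := ((ab_M ((j + 1) :: ZZ (i + 1))).1 h1).1.resolve_left (by omega)
    have := h2.1
    omega
  exact not_regular_of _ (fun i => List.replicate (i + 1) true) fun i j e =>
    le_antisymm (key i j e) (key j i e.symm)

def rkb : BS → ℕ
  | M => 5
  | S _ => 5
  | E _ => 4
  | U _ => 3
  | E1 => 2
  | _ => 0

theorem MB_realtime : MB.Realtime :=
  CA.realtime_of_rank (M := MB) rkb 5 (fun q => by cases q <;> simp [rkb]) (by
    change ∀ (q : BS) (a : Option Bool) (g : Bool) (t : BS × Op × Bool), t ∈ δb q a g →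
      (t.2.2 = true ∧ a ≠ none) ∨ rkb t.1 < rkb q
    decide)

theorem MB_strong : MB.Strong id :=
  CA.strong_of_inc (M := MB) (by
    change ∀ (q : BS) (a : Option Bool) (g : Bool) (t : BS × Op × Bool), t ∈ δb q a g →
      t.2.1 = Op.inc → t.2.2 = true ∧ a ≠ none
    decide)

def run : List Bool → ℕ
  | true :: v => run v + 1
  | _ => 0

def Sm (k : ℕ) : List Bool → Prop
  | [] => True
  | x :: v => run (x :: v) ≤ k ∧ Sm k v

theorem Sm.run_le {k : ℕ} {v} (h : Sm k v) : run v ≤ k := by
  cases v with
  | nil => simp [run]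
  | cons x v => exact h.1

theorem sm_blk {k : ℕ} (i : ℕ) (r) (hu : i ≤ k) (hr : Sm k r) :
    run (blk i r) = i ∧ Sm k (blk i r) := by
  induction i with
  | zero => exact ⟨rfl, by simp [run], hr⟩
  | succ i ih =>
    obtain ⟨h1, h2⟩ := ih (by omega)
    refine ⟨by simp [run, blk, h1], ?_, h2⟩
    show run (blk i r) + 1 ≤ k
    rw [h1]; exact hu

theorem sm_enc {k : ℕ} (bs : List ℕ) (h : ∀ v ∈ bs, v ≤ k) : Sm k (enc bs) := by
  induction bs with
  | nil => trivial
  | cons v bs ih =>
    exact (sm_blk v _ (h v (by simp)) (ih fun w hw => h w (by simp [hw]))).2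

def Inv (k : ℕ) : BS → List Bool → ℕ → Prop
  | M, _, n => n = 0
  | SK, _, n => n = 0
  | OB, v, n => n + run v ≤ k
  | _, _, n => n ≤ k

theorem inv_step (k : ℕ) (q : BS) (v : List Bool) (n : ℕ) (t : BS × Op × Bool)
    (hδ : t ∈ δb q v.head? (decide (n = 0))) (hs : Sm k v) (hi : Inv k q v n) :
    Inv k t.1 (if t.2.2 = true then v.tail else v) (t.2.1.app n) := by
  have hr := hs.run_le
  cases q with
  | U r =>
    simp only [δb, List.mem_cons, List.not_mem_nil, or_false] at hδ
    rcases hδ with rfl | rfl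
    · exact hi
    · cases r <;> exact hi
  | _ =>
    rcases v with _ | ⟨_ | _, v⟩ <;> rcases n with _ | n <;> simp [δb] at hδ <;>
      (rcases hδ with rfl | rfl) <;>
      simp [Inv, run, Op.app] at hi hr ⊢ <;> omega

theorem MB_middle : MB.Middle fun n => Nat.log 2 n + 1 := by
  intro w hw c hc
  obtain ⟨bs, rfl⟩ := (parse 0 w).2 hw
  have h2 := (ab_M bs).1 hw
  set k := Nat.log 2 (enc bs).length with hk
  have h3 : Sm k (enc bs) := sm_enc bs fun v hv => by
    have := Nat.log_mono_right (b := 2) ((h2.small v hv).trans (enc_length bs))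
    rwa [Nat.log_pow (by norm_num)] at this
  have : Sm k c.2.1 ∧ Inv k c.1 c.2.1 c.2.2 := by
    induction hc with
    | refl => exact ⟨h3, rfl⟩
    | @tail c d _ hs ih =>
      obtain ⟨β, m, hδ, e1, e2⟩ := hs
      rw [e1, e2]
      refine ⟨?_, inv_step k _ _ _ _ hδ ih.1 ih.2⟩
      have := ih.1
      split_ifs
      · revert this; cases c.2.1 with
        | nil => exact id
        | cons x v => exact fun h => h.2
      · exact this
  obtain ⟨q, v, α⟩ := c
  have := this.2
  cases q <;> simp only [Inv] at this <;> simp only <;> omega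

theorem log_bigO : (fun n => (((Nat.log 2 n + 1 : ℕ)) : ℝ)) =O[atTop]
    (fun n => ((Nat.log 2 n : ℕ) : ℝ)) := by
  refine IsBigO.of_bound 2 (eventually_atTop.2 ⟨2, fun n hn => ?_⟩)
  have h : 1 ≤ Nat.log 2 n := by
    have := Nat.log_mono_right (b := 2) hn
    exact le_trans (by norm_num) this
  simp only [Real.norm_natCast]
  have : (Nat.log 2 n + 1 : ℕ) ≤ 2 * Nat.log 2 n := by omega
  exact_mod_cast this

end Pool.Agent.H37.Oca
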