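import Mathlib

/-! One-way alternating one-counter automata and their space bounds. -/

namespace Pool.Agent.H37.Oca

open Filter Asymptotics

/-- Counter operations: change by `-1`, `0`, `+1`. -/
inductive Op | dec | stay | inc
  deriving DecidableEq, Fintype

/-- Effect on the counter (a decrement at zero leaves it at zero). -/
def Op.app : Op → ℕ → ℕ
  | .dec, n => n - 1
  | .stay, n => n
  | .inc, n => n + 1

/-- A one-way alternating one-counter automaton over the input alphabet `S`.  In state `q`,
scanning `a` (`none` = right end marker), with zero test `z` (`true` iff the counter is zero), a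
transition `(q', o, m)` enters `q'`, applies `o` to the counter and moves the head right iff
`m = true`. -/
structure CA (S : Type) where
  Q : Type
  finQ : Finite Q
  start : Q
  final : Set Q
  univ : Set Q
  δ : Q → Option S → Bool → Set (Q × Op × Bool)

namespace CA

variable {S : Type}

/-- Configuration: state, unread input (its head is the scanned symbol), counter value. -/
abbrev Cfg (M : CA S) : Type := M.Q × List S × ℕ

/-- One step. -/
def Step (M : CA S) (c d : M.Cfg) : Prop :=
  ∃ o m, (d.1, o, m) ∈ M.δ c.1 c.2.1.head? (decide (c.2.2 = 0)) ∧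
    d.2.1 = (if m = true then c.2.1.tail else c.2.1) ∧ d.2.2 = o.app c.2.2

/-- Configurations having a finite accepting computation tree. -/
inductive Acc (M : CA S) : M.Cfg → Prop
  | fin {c : M.Cfg} : c.2.1 = [] → c.1 ∈ M.final → Acc M c
  | ex {c d : M.Cfg} : c.1 ∉ M.univ → M.Step c d → Acc M d → Acc M c
  | all {c : M.Cfg} : c.1 ∈ M.univ → (∃ d, M.Step c d) → (∀ d, M.Step c d → Acc M d) → Acc M c

/-- Configurations having a finite accepting computation tree all of whose configurations have
counter value at most `h`. -/
inductive AccH (M : CA S) (h : ℕ) : M.Cfg → Prop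
  | fin {c : M.Cfg} : c.2.2 ≤ h → c.2.1 = [] → c.1 ∈ M.final → AccH M h c
  | ex {c d : M.Cfg} : c.2.2 ≤ h → c.1 ∉ M.univ → M.Step c d → AccH M h d → AccH M h c
  | all {c : M.Cfg} : c.2.2 ≤ h → c.1 ∈ M.univ → (∃ d, M.Step c d) →
      (∀ d, M.Step c d → AccH M h d) → AccH M h c

/-- The recognized language. -/
def lang (M : CA S) : Language S := {w | M.Acc (M.start, w, 0)}

/-- `c` occurs in some computation on input `w`. -/
def Reach (M : CA S) (w : List S) (c : M.Cfg) : Prop :=
  Relation.ReflTransGen M.Step (M.start, w, 0) c

/-- Realtime: for a fixed `k`, in every computation the head moves within any `k` steps. -/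
def Realtime (M : CA S) : Prop :=
  ∃ k : ℕ, ∀ (w : List S) (f : ℕ → M.Cfg), M.Reach w (f 0) →
    (∀ i < k, M.Step (f i) (f (i + 1))) → (f k).2.1.length < (f 0).2.1.length

/-- Strong space: every computation on every input. -/
def Strong (M : CA S) (s : ℕ → ℕ) : Prop :=
  ∀ w c, M.Reach w c → c.2.2 ≤ s w.length

/-- Middle space: every computation on every accepted input. -/
def Middle (M : CA S) (s : ℕ → ℕ) : Prop :=
  ∀ w ∈ M.lang, ∀ c, M.Reach w c → c.2.2 ≤ s w.length

/-- Weak space: some accepting computation tree on every accepted input. -/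
def Weak (M : CA S) (s : ℕ → ℕ) : Prop :=
  ∀ w ∈ M.lang, M.AccH (s w.length) (M.start, w, 0)

end CA

inductive Head | oneWay | realtime
inductive Notion | weak | middle | strong

/-- `M` works in space `s` under the given notion. -/
def Bound {S : Type} (M : CA S) : Notion → (ℕ → ℕ) → Prop
  | Notion.weak, s => M.Weak s
  | Notion.middle, s => M.Middle s
  | Notion.strong, s => M.Strong s

/-- Some automaton of mode `h` over `S` recognizes a nonregular language in space `s`. -/
def Attained (S : Type) (h : Head) (m : Notion) (s : ℕ → ℕ) : Prop :=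
  ∃ M : CA S, (h = Head.realtime → M.Realtime) ∧ ¬ M.lang.IsRegular ∧ Bound M m s

/-- `f` is a tight space bound for the alphabet `S`, mode `h` and space notion `m`. -/
def Tight (S : Type) (h : Head) (m : Notion) (f : ℕ → ℝ) : Prop :=
  (∃ s : ℕ → ℕ, Attained S h m s ∧ (fun n => (s n : ℝ)) =O[atTop] f) ∧
  ¬ ∃ s : ℕ → ℕ, Attained S h m s ∧ (fun n => (s n : ℝ)) =o[atTop] f

end Pool.Agent.H37.Oca
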