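import Mathlib

set_option autoImplicit false

namespace Pool.Agent.H37.PD

/-- a total function as a partial function -/
def tot (f : ℕ → ℕ) : ℕ →. ℕ := fun n => Part.some (f n)

/-- computably bounded effectively closed classes -/
def CB (P : Set (ℕ → ℕ)) : Prop :=
  ∃ (T : Set (List ℕ)) (g : List ℕ → ℕ), ComputablePred (fun σ => σ ∈ T) ∧
    (∀ σ τ, σ <+: τ → τ ∈ T → σ ∈ T) ∧ Computable g ∧ (∀ σ i, σ ++ [i] ∈ T → i < g σ) ∧
    P = {x | ∀ n, (List.range n).map x ∈ T}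

/-- computable partial orderings -/
def CPO (A : Set ℕ) (R : ℕ → ℕ → Prop) : Prop :=
  ComputablePred (fun x => x ∈ A) ∧ ComputablePred (fun p : ℕ × ℕ => R p.1 p.2) ∧
    (∀ x y, R x y → x ∈ A ∧ y ∈ A) ∧ (∀ x ∈ A, R x x) ∧ (∀ x y, R x y → R y x → x = y) ∧
    ∀ x y z, R x y → R y z → R x z

/-- maps from `A` to `0, ..., k - 1`, extended by zero outside `A` -/
def Col (A : Set ℕ) (k : ℕ) (f : ℕ → ℕ) : Prop := (∀ x ∈ A, f x < k) ∧ ∀ x ∉ A, f x = 0

/-- decompositions into `k` chains -/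
def Chains (A : Set ℕ) (R : ℕ → ℕ → Prop) (k : ℕ) : Set (ℕ → ℕ) :=
  {f | Col A k f ∧ ∀ x ∈ A, ∀ y ∈ A, f x = f y → R x y ∨ R y x}

/-- decompositions into `k` antichains -/
def Antichains (A : Set ℕ) (R : ℕ → ℕ → Prop) (k : ℕ) : Set (ℕ → ℕ) :=
  {f | Col A k f ∧ ∀ x ∈ A, ∀ y ∈ A, f x = f y → R x y → x = y}

/-- there is a degree-preserving bijection -/
def Rep (P Q : Set (ℕ → ℕ)) : Prop :=
  ∃ F : P → Q, Function.Bijective F ∧ ∀ f, TuringEquivalent (tot (F f)) (tot f)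

/-- `f` and `g` induce the same partition of `A` -/
def Same (A : Set ℕ) (f g : ℕ → ℕ) : Prop := ∀ x ∈ A, ∀ y ∈ A, (f x = f y ↔ g x = g y)

/-- there is a degree-preserving bijection up to renaming of the colours -/
def RepMod (A : Set ℕ) (P Q : Set (ℕ → ℕ)) : Prop :=
  ∃ F : Q → P, Function.Surjective F ∧ (∀ f g, F f = F g ↔ Same A f g) ∧
    ∀ f, TuringEquivalent (tot (F f)) (tot f)

end Pool.Agent.H37.PD
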