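import Pool.Agent.H37.Dilw
import Pool.Agent.H37.PDDefs
import Pool.Agent.H37.Indep

set_option autoImplicit false

namespace Pool.Agent.H37.PD

open Finset Filter Function

theorem uniq_ci (C : ℕ × ℕ × ℕ × ℕ → Bool) (hC : CI ∅ C) (k : ℕ) (f : ℕ → ℕ) (h1 : ∀ x, f x ≤ k)
    (h2 : ∀ x y, C (x, y, f x, f y) = true)
    (h3 : ∀ g : ℕ → ℕ, (∀ x y, C (x, y, g x, g y) = true) → g = f) : CI ∅ f := by
  obtain ⟨s, hs, e⟩ := CI.exists_choice (O := ∅) (p := fun (x : ℕ) (q : ℕ × ℕ) => decide (x < q.2) &&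
    (allLists (List.range (k + 1)) q.2).all fun l =>
      !(decide (l.length = q.2) && (List.range q.2).all fun i => (List.range q.2).all fun j =>
        C (i, j, l.getD i 0, l.getD j 0)) || decide (l.getD x 0 = q.1)) (by fun_prop) (by
    intro x
    by_contra hn
    have : ∀ n, ∃ g : ℕ → ℕ, (∀ i, g i ≤ k) ∧ (x < n → g x ≠ f x ∧
        ∀ i < n, ∀ j < n, C (i, j, g i, g j) = true) := fun n => by
      by_cases hx : x < n
      · have := not_exists.1 hn (f x, n)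
        simp only [hx, decide_true, Bool.true_and, List.all_eq_true, mem_allLists, List.mem_range,
          Bool.or_eq_true, Bool.not_eq_true', decide_eq_true_eq, not_forall, not_or,
          Bool.not_eq_false, Bool.and_eq_true] at this
        obtain ⟨l, a, b, c⟩ := this
        refine ⟨fun i => l.getD i 0, fun i => ?_, fun _ => ⟨c, b.2⟩⟩
        by_cases hi : i < l.length
        · simpa [hi, Nat.lt_succ_iff] using a.2 _ (List.getElem_mem hi)
        · simp [hi]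
      · exact ⟨0, by simp, fun h => absurd h hx⟩
    choose g g1 g2 using this
    obtain ⟨u, hu⟩ := cluster (Ultrafilter.of atTop) g k g1
    have ev : ∀ m : ℕ, ∀ᶠ n : ℕ in (Ultrafilter.of atTop : Ultrafilter ℕ), m < n := fun m =>
      Ultrafilter.of_le atTop (eventually_gt_atTop m)
    obtain rfl := h3 u fun i j => by
      obtain ⟨n, ⟨a, b⟩, c⟩ := (((hu i).and (hu j)).and (ev (x + i + j))).exists
      rw [← a, ← b]
      exact (g2 n (by omega)).2 i (by omega) j (by omega)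
    obtain ⟨n, a, b⟩ := ((hu x).and (ev x)).exists
    exact (g2 n b).1 a)
  refine (CI.fst hs).of_eq fun x => ?_
  have := e x
  simp only [Bool.and_eq_true, decide_eq_true_eq, List.all_eq_true, Bool.or_eq_true,
    Bool.not_eq_true', ← Bool.not_eq_true, List.mem_range] at this
  have h4 := this.2 (pre f (s x).2) (mem_allLists.2 ⟨by simp, fun a ha => by
    obtain ⟨i, -, rfl⟩ := List.mem_map.1 ha
    exact List.mem_range.2 (Nat.lt_succ_of_le (h1 i))⟩)
  rw [getD_pre f this.1] at h4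
  refine (h4.resolve_left fun h => h ⟨by simp, fun i hi j hj => ?_⟩).symm
  rw [getD_pre f hi, getD_pre f hj, h2]

/-- decidable in the sense of `CI` -/
def Dc {α : Type} [Primcodable α] (p : α → Prop) : Prop := ∃ b : α → Bool, CI ∅ b ∧ ∀ a, p a ↔ b a = true

variable {A : Set ℕ} {k : ℕ}

theorem uniq_col (hA : Dc (· ∈ A)) {G : ℕ × ℕ × ℕ × ℕ → Prop} (hG : Dc G) (M : Finset ℕ) {f : ℕ → ℕ}
    (h1 : Col A k f) (h2 : ∀ x ∈ A, ∀ y ∈ A, G (x, y, f x, f y))
    (h3 : ∀ g, Col A k g → (∀ x ∈ A, ∀ y ∈ A, G (x, y, g x, g y)) → (∀ m ∈ M, g m = f m) →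
      ∀ x ∈ A, g x = f x) : CI ∅ f := by
  obtain ⟨a, a1, a2⟩ := hA
  obtain ⟨γ, g1, g2⟩ := hG
  have key : ∀ g : ℕ → ℕ, (∀ x y, (cond (a x) (decide (g x < k) && (!a y || γ (x, y, g x, g y)))
      (decide (g x = 0)) && (M.toList.map fun m => (m, f m)).all fun p =>
        !decide (p.1 = x) || decide (p.2 = g x)) = true) ↔
      Col A k g ∧ (∀ x ∈ A, ∀ y ∈ A, G (x, y, g x, g y)) ∧ ∀ m ∈ M, g m = f m := fun g => by
    simp only [Col, a2, g2, Bool.and_eq_true, List.all_eq_true, List.mem_map, mem_toList,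
      forall_exists_index, and_imp, forall_apply_eq_imp_iff₂, Bool.or_eq_true, Bool.not_eq_true',
      decide_eq_false_iff_not, decide_eq_true_eq]
    constructor
    · intro h
      refine ⟨⟨fun x hx => ?_, fun x hx => ?_⟩, fun x hx y hy => ?_, fun m hm => ?_⟩
      · have := (h x x).1; simp [hx] at this; exact this.1
      · simpa [hx] using (h x x).1
      · have := (h x y).1; simp [hx, hy] at this; exact this.2
      · exact (((h m m).2 m hm).resolve_left fun h => h rfl).symm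
    · rintro ⟨⟨b1, b2⟩, b3, b4⟩ x y
      refine ⟨?_, fun m hm => ?_⟩
      · cases hx : a x
        · simpa using b2 x (by simp [hx])
        · cases hy : a y
          · simpa using b1 x hx
          · simpa using ⟨b1 x hx, b3 x hx y hy⟩
      · by_cases e : m = x
        · exact Or.inr (e ▸ (b4 m hm).symm)
        · exact Or.inl e
  refine uniq_ci (fun q => cond (a q.1) (decide (q.2.2.1 < k) && (!a q.2.1 || γ q))
      (decide (q.2.2.1 = 0)) && (M.toList.map fun m => (m, f m)).all fun p =>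
        !decide (p.1 = q.1) || decide (p.2 = q.2.2.1)) (by fun_prop) k f (fun x => ?_)
    ((key f).2 ⟨h1, h2, fun _ _ => rfl⟩) fun g hg => funext fun x => ?_
  · by_cases hx : x ∈ A
    · exact (h1.1 x hx).le
    · simp [h1.2 x hx]
  · obtain ⟨b1, b2, b3⟩ := (key g).1 hg
    by_cases hx : x ∈ A
    · exact h3 g b1 b2 b3 x hx
    · rw [h1.2 x hx, b1.2 x hx]

/-- the join -/
def jo (f g : ℕ → ℕ) (n : ℕ) : ℕ := Nat.pair (f n) (g n)

theorem ci_l (f g : ℕ → ℕ) : CI (orc (jo f g)) f :=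
  (CI.fst (CI.unpair (CI.self (jo f g)))).of_eq fun n => by simp [jo]

theorem ci_r (f g : ℕ → ℕ) : CI (orc (jo f g)) g :=
  (CI.snd (CI.unpair (CI.self (jo f g)))).of_eq fun n => by simp [jo]

/-- the properties of a class represented by the independent class -/
def Bad (A : Set ℕ) (Q : Set (ℕ → ℕ)) : Prop :=
  Q.Nonempty ∧ (∀ f ∈ Q, ¬ CI ∅ f) ∧
    ∀ f ∈ Q, ∀ g ∈ Q, ∀ h ∈ Q, CI (orc (jo f g)) h → Same A h f ∨ Same A h g

theorem exists_P : ∃ P, CB P ∧ ∀ A Q, Rep P Q ∨ RepMod A P Q → Bad A Q := by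
  refine ⟨{x | ∀ n, Ind.T (pre x n) = true}, ⟨{σ | Ind.T σ = true}, fun _ => 2,
    computablePred_of _ Ind.ci_T fun _ => Iff.rfl, fun _ _ => Ind.T_pf, Computable.const _,
    fun σ i h => Ind.T_bin h i (by simp), rfl⟩, fun A Q h => ?_⟩
  obtain ⟨F, h1, h2, h3⟩ : ∃ F : Q → {x | ∀ n, Ind.T (pre x n) = true}, Surjective F ∧
      (∀ f g, F f = F g → Same A f g) ∧ ∀ f, TuringEquivalent (tot (F f)) (tot f) := by
    rcases h with ⟨F, h1, h2⟩ | ⟨F, h1, h2, h3⟩
    · refine ⟨(Equiv.ofBijective F h1).symm, Equiv.surjective _, fun f g e => ?_, fun f => ?_⟩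
      · rw [Equiv.injective _ e]; exact fun _ _ _ _ => Iff.rfl
      · obtain ⟨x, rfl⟩ := h1.2 f
        rw [Equiv.ofBijective_symm_apply_apply]
        exact (h2 x).symm
    · exact ⟨F, h1, fun f g => (h2 f g).1, h3⟩
  have a : ∀ f, CI (orc f.1) (F f).1 := fun f => CI.of_ri (h3 f).1
  have b : ∀ f, CI (orc (F f).1) f.1 := fun f => CI.of_ri (h3 f).2
  refine ⟨?_, fun f hf h => Ind.not_comp (F ⟨f, hf⟩).2 ((a _).trans h), fun f hf g hg h hh e => ?_⟩
  · obtain ⟨x, -, hx, -⟩ := Ind.two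
    obtain ⟨f, -⟩ := h1 ⟨x, hx⟩
    exact ⟨f.1, f.2⟩
  · refine (Ind.indep (F ⟨h, hh⟩).2 (F ⟨f, hf⟩).2 (F ⟨g, hg⟩).2 ((a _).trans (e.trans
      (CI.pair ((b ⟨f, hf⟩).trans (ci_l _ _)) ((b ⟨g, hg⟩).trans (ci_r _ _)))))).imp ?_ ?_
    · exact fun e => h2 _ _ (Subtype.ext e)
    · exact fun e => h2 _ _ (Subtype.ext e)

theorem variant (hA : Dc (· ∈ A)) {E : ℕ → ℕ → Prop} (hE : Dc fun p : ℕ × ℕ => E p.1 p.2)
    (hr : ∀ x ∈ A, E x x) (hB : Bad A {f | Col A k f ∧ ∀ x ∈ A, ∀ y ∈ A, f x = f y → E x y})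
    {p : ℕ → ℕ} {x c : ℕ} (hp : Col A k p ∧ ∀ x ∈ A, ∀ y ∈ A, p x = p y → E x y) (hx : x ∈ A)
    (hc : c ≠ p x) (hq : Col A k (update p x c) ∧
      ∀ u ∈ A, ∀ v ∈ A, update p x c u = update p x c v → E u v) : False := by
  have ci : ∀ y, CI (orc (jo p p)) (update p y c) := fun y => by
    have := ci_l p p
    exact (show CI _ fun n => if n = y then c else p n by fun_prop).of_eq fun n => by rw [update_apply]
  have s1 := (hB.2.2 p hp p hp _ hq (ci x)).elim id id
  have un : ∀ y ∈ A, p y ≠ c := fun y hy e => by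
    have hne : y ≠ x := by rintro rfl; exact hc e.symm
    have := (s1 y hy x hx).1 (by simp [hne, e])
    exact hc (e.symm.trans this)
  have ck : c < k := by simpa using hq.1.1 x hx
  by_cases hf : A.Finite
  · obtain ⟨e, e1, e2⟩ := hE
    exact hB.2.1 p hp (uniq_col hA (G := fun q => q.2.2.1 = q.2.2.2 → E q.1 q.2.1)
      ⟨fun q => !decide (q.2.2.1 = q.2.2.2) || e (q.1, q.2.1), by fun_prop, fun q => by
        simp [← e2, imp_iff_not_or]⟩ hf.toFinset hp.1 hp.2 fun g _ _ h y hy => h y (by simpa using hy))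
  obtain ⟨y, hy, y', hy', hne, e⟩ := Set.Infinite.exists_ne_map_eq_of_mapsTo hf
    (f := p) (t := Set.Iio k) hp.1.1 (Set.finite_lt_nat k)
  have := (hB.2.2 p hp p hp _ ⟨⟨fun u hu => ?_, fun u hu => ?_⟩, fun u hu v hv h => ?_⟩ (ci y)).elim id id
  · exact un y' hy' (by simpa [hne.symm] using ((this y hy y' hy').2 e).symm)
  · rw [update_apply]; split_ifs; exacts [ck, hp.1.1 u hu]
  · rw [update_of_ne (by rintro rfl; exact hu hy), hp.1.2 u hu]
  · simp only [update_apply] at h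
    split_ifs at h with a b b
    · rw [a, b]; exact hr y hy
    · exact absurd h.symm (un v hv)
    · exact absurd h (un u hu)
    · exact hp.2 u hu v hv h

theorem anti {R : ℕ → ℕ → Prop} (h : CPO A R) : ¬ Bad A (Antichains A R k) := by
  classical
  intro hB
  obtain ⟨hA, hR, -, -, ha, ht⟩ := h
  rw [computablePred_iff] at hA hR
  obtain ⟨f, f1, f2⟩ := hB.1
  let H : ℕ → ℕ → Prop := fun x n => ∃ T : Finset ℕ, #T = n ∧ (∀ y ∈ T, y ∈ A ∧ R y x ∧ y ≠ x) ∧
    ∀ y ∈ T, ∀ z ∈ T, R y z ∨ R z y ∨ y = z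
  have Hk : ∀ x ∈ A, ∀ n, H x n → n < k := by
    rintro x hx _ ⟨T, rfl, a, b⟩
    have h1 : x ∉ T := fun h => (a x h).2.2 rfl
    rw [Nat.lt_iff_add_one_le, ← card_insert_of_notMem h1, ← card_range k]
    refine card_le_card_of_injOn f (fun y hy => ?_) fun y hy z hz e => ?_
    · simp only [coe_insert, Set.mem_insert_iff, mem_coe, coe_range, Set.mem_Iio] at hy ⊢
      exact f1.1 y (hy.elim (fun e => e ▸ hx) fun h => (a y h).1)
    · simp only [coe_insert, Set.mem_insert_iff, mem_coe] at hy hz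
      rcases hy with rfl | hy <;> rcases hz with rfl | hz
      · rfl
      · exact (f2 z (a z hz).1 y hx e.symm (a z hz).2.1).symm
      · exact f2 y (a y hy).1 z hx e (a y hy).2.1
      · rcases b y hy z hz with r | r | r
        exacts [f2 y (a y hy).1 z (a z hz).1 e r, (f2 z (a z hz).1 y (a y hy).1 e.symm r).symm, r]
  let Mo : (ℕ → ℕ) → Prop := fun g => Col A k g ∧ ∀ x ∈ A, ∀ y ∈ A, R x y → x ≠ y → g x < g y
  have mo : ∀ g, Mo g → g ∈ Antichains A R k := fun g hg =>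
    ⟨hg.1, fun x hx y hy e r => by_contra fun hne => (hg.2 x hx y hy r hne).ne e⟩
  obtain ⟨l, hl⟩ : ∃ l, Mo l := by
    have H0 : ∀ x, H x 0 := fun x => ⟨∅, by simp⟩
    refine ⟨fun x => if x ∈ A then Nat.findGreatest (H x) k else 0, ⟨fun x hx => ?_, fun x hx => ?_⟩,
      fun x hx y hy r hne => ?_⟩
    · simp only [hx, if_true]
      exact Hk x hx _ (Nat.findGreatest_spec (Nat.zero_le k) (H0 x))
    · simp [hx]
    · simp only [hx, hy, if_true]
      obtain ⟨T, a, b, c⟩ := Nat.findGreatest_spec (P := H x) (Nat.zero_le k) (H0 x)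
      have : H y (Nat.findGreatest (H x) k + 1) := by
        refine ⟨insert x T, by rw [card_insert_of_notMem fun h => (b x h).2.2 rfl, a], ?_, ?_⟩
        · simp only [mem_insert, forall_eq_or_imp]
          refine ⟨⟨hx, r, hne⟩, fun z hz => ⟨(b z hz).1, ht _ _ _ (b z hz).2.1 r, ?_⟩⟩
          rintro rfl
          exact hne (ha _ _ r (b z hz).2.1)
        · simp only [mem_insert, forall_eq_or_imp]
          exact ⟨⟨by simp, fun z hz => Or.inr (Or.inl (b z hz).2.1)⟩,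
            fun z hz => ⟨Or.inl (b z hz).2.1, c z hz⟩⟩
      exact Nat.le_findGreatest (Hk y hy _ this).le this
  obtain ⟨r, r1, r2⟩ := hR
  obtain ⟨g, hg, x, hx, e⟩ : ∃ g, Mo g ∧ ∃ x ∈ A, g x ≠ l x := by
    by_contra hn
    push Not at hn
    exact hB.2.1 l (mo l hl) (uniq_col hA (G := fun q => R q.1 q.2.1 → q.1 ≠ q.2.1 → q.2.2.1 < q.2.2.2)
      ⟨fun q => !r (q.1, q.2.1) || decide (q.1 = q.2.1) || decide (q.2.2.1 < q.2.2.2), by fun_prop,
        fun q => by simp [← r2, imp_iff_not_or, or_assoc, ← Bool.not_eq_true]⟩ ∅ hl.1 hl.2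
      fun g a b _ => hn g ⟨a, b⟩)
  have hp : Mo fun y => min (g y) (l y) := ⟨⟨fun y hy => min_lt_of_left_lt (hg.1.1 y hy),
    fun y hy => by simp [hl.1.2 y hy]⟩, fun u hu v hv a b => min_lt_min (hg.2 u hu v hv a b) (hl.2 u hu v hv a b)⟩
  obtain ⟨z, ⟨z1, z2⟩, z3⟩ := Set.Finite.exists_maximalFor' (fun y => min (g y) (l y))
    {y | y ∈ A ∧ g y ≠ l y} ((Set.finite_lt_nat k).subset (by
      rintro _ ⟨y, hy, rfl⟩; exact hp.1.1 y hy.1)) ⟨x, hx, e⟩
  refine variant hA (E := fun x y => R x y → x = y) ⟨fun q => !r q || decide (q.1 = q.2), by fun_prop,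
    fun q => by simp [← r2, imp_iff_not_or, ← Bool.not_eq_true]⟩ (fun _ _ _ => rfl) hB (mo _ hp) z1
    (Nat.succ_ne_self _) (mo _ ⟨⟨fun u hu => ?_, fun u hu => ?_⟩, fun u hu v hv a b => ?_⟩)
  · rw [update_apply]; split_ifs
    · have := hg.1.1 z z1
      have := hl.1.1 z z1
      omega
    · exact hp.1.1 u hu
  · rw [update_of_ne (by rintro rfl; exact hu z1)]
    exact hp.1.2 u hu
  · have := hg.2 u hu v hv a b
    have := hl.2 u hu v hv a b
    simp only [update_apply]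
    split_ifs with c d d
    · exact absurd (c.trans d.symm) b
    · subst c
      by_cases h : g v = l v
      · omega
      · have := @z3 v ⟨hv, h⟩
        simp only at this
        omega
    · subst d; omega
    · omega

theorem chains {R : ℕ → ℕ → Prop} (h : CPO A R) : ¬ Bad A (Chains A R k) := by
  classical
  intro hB
  obtain ⟨hA, hR, hA', hr, ha, ht⟩ := h
  rw [computablePred_iff] at hA hR
  obtain ⟨f, hf⟩ := hB.1
  obtain ⟨r, r1, r2⟩ := hR
  have ch : ∀ g ∈ Chains A R k, ∀ S ⊆ A, Ch R S k g := fun g hg S hS =>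
    ⟨fun x hx => hg.1.1 x (hS hx), fun x hx y hy => hg.2 x (hS hx) y (hS hy)⟩
  have hw : ∀ M : Finset ℕ, (∀ m ∈ M, m ∈ A) → An R M → #M ≤ k := fun M h1 h2 => by
    rw [← card_range k]
    exact card_le_card_of_injOn f (fun m hm => mem_range.2 (hf.1.1 m (h1 m hm))) fun x hx y hy e =>
      (hf.2 x (h1 x hx) y (h1 y hy) e).elim (h2 x hx y hy) fun h => (h2 y hy x hx h).symm
  by_cases hz : ∃ z ∈ A, ∀ M : Finset ℕ, (∀ m ∈ M, m ∈ A) → An R M → z ∈ M → #M < k
  · obtain ⟨z, z1, z2⟩ := hz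
    obtain ⟨F, F1, F2⟩ := dilw (R := fun p q : ℕ × Bool => p = q ∨ (p.1 ≠ q.1 ∧ R p.1 q.1))
      (fun _ => Or.inl rfl)
      (by
        rintro p q s (rfl | a) (rfl | b)
        exacts [Or.inl rfl, Or.inr b, Or.inr a,
          Or.inr ⟨fun e => a.1 (ha _ _ a.2 (e ▸ b.2)), ht _ _ _ a.2 b.2⟩])
      (by
        rintro p q (rfl | a) (b | b)
        exacts [rfl, rfl, b.symm, absurd (ha _ _ a.2 b.2) a.1])
      {p | p.1 ∈ A ∧ (p.2 = true → p.1 = z)} k fun M h1 h2 => by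
        have a1 : ∀ m ∈ M.image Prod.fst, m ∈ A := fun m hm => by
          obtain ⟨p, hp, rfl⟩ := mem_image.1 hm
          exact (h1 p hp).1
        have a2 : An R (M.image Prod.fst) := fun x hx y hy e => by
          obtain ⟨p, hp, rfl⟩ := mem_image.1 hx
          obtain ⟨q, hq, rfl⟩ := mem_image.1 hy
          by_contra hne
          exact hne (congrArg _ (h2 p hp q hq (Or.inr ⟨hne, e⟩)))
        have a3 : ∀ N ⊆ M, ((z, true) ∉ N ∨ (z, false) ∉ N) → #N ≤ #(M.image Prod.fst) := by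
          intro N b c
          refine card_le_card_of_injOn Prod.fst (fun p hp => mem_image_of_mem _ (b hp)) ?_
          rintro ⟨x, u⟩ hp ⟨y, v⟩ hq (rfl : x = y)
          have := (h1 _ (b hp)).2
          have := (h1 _ (b hq)).2
          cases u <;> cases v <;> simp_all
        by_cases c : (z, true) ∈ M
        · have := z2 _ a1 a2 (mem_image_of_mem _ c)
          have := a3 (M.erase (z, true)) (erase_subset _ _) (by simp)
          rw [card_erase_of_mem c] at this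
          omega
        · exact (a3 M le_rfl (Or.inl c)).trans (hw _ a1 a2)
    have key : ∀ b : ℕ → Bool, (∀ x, b x = true → x = z) →
        (fun x => if x ∈ A then F (x, b x) else 0) ∈ Chains A R k := fun b hb =>
      ⟨⟨fun x hx => by simpa [hx] using F1 (x, b x) ⟨hx, hb x⟩, fun x hx => by simp [hx]⟩,
        fun x hx y hy e => by
          simp only [hx, hy, if_true] at e
          rcases F2 _ ⟨hx, hb x⟩ _ ⟨hy, hb y⟩ e with (h | h) | h | h
          · cases h; exact Or.inl (hr x hx)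
          · exact Or.inl h.2
          · cases h; exact Or.inl (hr x hx)
          · exact Or.inr h.2⟩
    refine variant hA (E := fun x y => R x y ∨ R y x) ⟨fun q => r q || r (q.2, q.1), by fun_prop,
      fun q => by simp [← r2]⟩ (fun x hx => Or.inl (hr x hx)) hB (key (fun _ => false) (by simp)) z1
      (c := F (z, true)) (fun e => ?_) ?_
    · simp only [z1, if_true] at e
      simpa using F2 (z, true) ⟨z1, by simp⟩ (z, false) ⟨z1, by simp⟩ e
    · have : update (fun x => if x ∈ A then F (x, false) else 0) z (F (z, true)) =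
          fun x => if x ∈ A then F (x, decide (x = z)) else 0 := funext fun x => by
        by_cases e : x = z <;> simp [e, z1]
      rw [this]
      exact key _ (by simp)
  push Not at hz
  have ps : ∀ M : Finset ℕ, (∀ m ∈ M, m ∈ A) → An R M → #M = k →
      ∀ g ∈ Chains A R k, ∀ g' ∈ Chains A R k, ∃ h ∈ Chains A R k, CI (orc (jo g g')) h ∧
        (∀ x ∈ A, (∃ m ∈ M, R x m) → h x = g x) ∧
        ∀ x ∈ A, (∃ m ∈ M, R m x) → ∀ y ∈ A, (∃ m ∈ M, R m y) → (h x = h y ↔ g' x = g' y) := by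
    intro M h1 h2 h3 g hg g' hg'
    have c1 := ci_l g g'
    have c2 := ci_r g g'
    have c3 : CI (orc (jo g g')) r := r1.of_empty
    have e : ∀ x, (M.toList.any fun m => r (m, x)) = true ↔ ∃ m ∈ M, R m x := fun x => by
      simp [← r2]
    obtain ⟨a, b⟩ := paste ht ha h2 (fun m hm => ⟨h1 m hm, hr m (h1 m hm)⟩)
      (cover hw h2 (fun m hm => ⟨h1 m hm, hr m (h1 m hm)⟩) h3)
      (h := fun x => cond (M.toList.any fun m => r (m, x))
        (g ((M.toList.find? fun m => decide (g' m = g' x)).getD 0)) (g x))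
      (ch g hg _ fun _ h => h.1) (ch g' hg' _ fun _ h => h.1)
      (fun x hx u => by
        obtain ⟨m, hm, e1⟩ := (ch g' hg' A le_rfl).hit h2 h1 h3 (hg'.1.1 x hx)
        obtain ⟨n, hn⟩ := Option.isSome_iff_exists.1 (List.find?_isSome (p := fun m =>
          decide (g' m = g' x)) (xs := M.toList).2 ⟨m, mem_toList.2 hm, by simpa using e1⟩)
        exact ⟨n, mem_toList.1 (List.mem_of_find?_eq_some hn), by simpa using List.find?_some hn,
          by simp only [(e x).2 u, hn]; rfl⟩)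
      (fun x _ u => by simp only [Bool.eq_false_iff.2 (mt (e x).1 u)]; rfl)
    refine ⟨_, ⟨⟨a.1, fun x hx => ?_⟩, a.2⟩, by fun_prop, b⟩
    simp only [Bool.eq_false_iff.2 (mt (e x).1 fun ⟨m, _, h⟩ => hx (hA' _ _ h).2)]
    exact hg.1.2 x hx
  let Ty : (ℕ → ℕ → Prop) → Finset ℕ → Prop := fun S M => (∀ m ∈ M, m ∈ A) ∧ An R M ∧ #M = k ∧
    ∀ g ∈ Chains A R k, ∀ g' ∈ Chains A R k, ∀ x ∈ A, (∃ m ∈ M, S x m) → ∀ y ∈ A, (∃ m ∈ M, S y m) →
      (g x = g y ↔ g' x = g' y)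
  have ty : ∀ z ∈ A, ∃ M, z ∈ M ∧ (Ty R M ∨ Ty (fun x y => R y x) M) := fun z hz' => by
    obtain ⟨M, h1, h2, h3, h4⟩ := hz z hz'
    have h5 := le_antisymm (hw M h1 h2) h4
    refine ⟨M, h3, ?_⟩
    by_contra hn
    simp only [Ty, eq_true h1, h2, h5, true_and, not_or, not_forall] at hn
    obtain ⟨⟨a, a1, a', a2, x, x1, x2, y, y1, y2, n1⟩, b, b1, b', b2, u, u1, u2, v, v1, v2, n2⟩ := hn
    obtain ⟨F, F1, -, F2, F3⟩ := ps M h1 h2 h5 a a1 b b1
    obtain ⟨G, G1, -, G2, G3⟩ := ps M h1 h2 h5 a' a2 b' b2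
    obtain ⟨H, H1, H0, H2, H3⟩ := ps M h1 h2 h5 F F1 G G1
    rcases hB.2.2 F F1 G G1 H H1 H0 with s | s
    · exact n2 (by rw [← F3 u u1 u2 v v1 v2, ← s u u1 v v1, H3 u u1 u2 v v1 v2, G3 u u1 u2 v v1 v2])
    · exact n1 (by rw [← F2 x x1 x2, ← F2 y y1 y2, ← H2 x x1 x2, ← H2 y y1 y2, s x x1 y y1,
        G2 x x1 x2, G2 y y1 y2])
  have fin : ∀ S : ℕ → ℕ → Prop, (∀ x ∈ A, S x x) → (∀ x y, R x y ∨ R y x → S x y ∨ S y x) →
      ∃ N : Finset ℕ, ∀ g ∈ Chains A R k, (∀ m ∈ N, g m = f m) → ∀ M, Ty S M → ∀ z ∈ M, g z = f z := by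
    intro S s1 s2
    by_cases h : ∃ N, Ty S N
    · obtain ⟨N, n1, n2, n3, n4⟩ := h
      refine ⟨N, fun g hg e M ⟨m1, m2, m3, m4⟩ z hz' => ?_⟩
      obtain ⟨n, a, b⟩ := (ch f hf A le_rfl).hit n2 n1 n3 (hf.1.1 z (m1 z hz'))
      rw [← b, ← e n a]
      rcases s2 _ _ (hf.2 n (n1 n a) z (m1 z hz') b) with c | c
      · exact ((m4 f hf g hg n (n1 n a) ⟨z, hz', c⟩ z (m1 z hz') ⟨z, hz', s1 z (m1 z hz')⟩).1 b).symm
      · exact ((n4 f hf g hg n (n1 n a) ⟨n, a, s1 n (n1 n a)⟩ z (m1 z hz') ⟨n, a, c⟩).1 b).symm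
    · exact ⟨∅, fun g _ _ M hM => absurd ⟨M, hM⟩ h⟩
  obtain ⟨N, hN⟩ := fin R hr fun _ _ => id
  obtain ⟨N', hN'⟩ := fin (fun x y => R y x) hr fun _ _ => Or.symm
  refine hB.2.1 f hf (uniq_col hA (G := fun q => q.2.2.1 = q.2.2.2 → R q.1 q.2.1 ∨ R q.2.1 q.1)
    ⟨fun q => !decide (q.2.2.1 = q.2.2.2) || r (q.1, q.2.1) || r (q.2.1, q.1), by fun_prop,
      fun q => by simp [← r2, imp_iff_not_or, or_assoc]⟩ (N ∪ N') hf.1 hf.2 fun g a b c z hz' => ?_)
  obtain ⟨M, h1, h2 | h2⟩ := ty z hz'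
  · exact hN g ⟨a, b⟩ (fun m hm => c m (mem_union_left _ hm)) M h2 z h1
  · exact hN' g ⟨a, b⟩ (fun m hm => c m (mem_union_right _ hm)) M h2 z h1

end Pool.Agent.H37.PD
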