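import Mathlib

/-! A group generated by two elements of order three and an involution that inverts or centralises
prescribed conjugates of them. -/

set_option autoImplicit false

namespace Pool.Agent.H37.PP

open Equiv Pointwise

def gg {G : Type} [Group G] (a b : G) (n : ℕ) (t : Bool) : G :=
  (a * b) ^ n * cond t a⁻¹ (a * b⁻¹)

def uu {G : Type} [Group G] (a b : G) (n : ℕ) (t : Bool) : G :=
  gg a b n t * cond t b a * (gg a b n t)⁻¹

theorem map_uu {G H : Type} [Group G] [Group H] (φ : G →* H) (a b : G) (n : ℕ) (t : Bool) :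
    φ (uu a b n t) = uu (φ a) (φ b) n t := by
  cases t <;> simp [uu, gg]

def fa (n : ℕ) : ℕ := if n % 4 = 0 then n + 2 else if n % 4 = 2 then n / 2 else 2 * (n - 1)
def fb (n : ℕ) : ℕ := if n % 4 = 1 then n + 2 else if n % 4 = 3 then (n - 3) / 2 else 2 * n + 1

theorem fa3 (n : ℕ) : fa (fa (fa n)) = n := by unfold fa; split_ifs <;> omega
theorem fb3 (n : ℕ) : fb (fb (fb n)) = n := by unfold fb; split_ifs <;> omega

def pa : Perm ℕ := ⟨fa, fun n => fa (fa n), fa3, fa3⟩
def pb : Perm ℕ := ⟨fb, fun n => fb (fb n), fb3, fb3⟩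

theorem pa_app (n : ℕ) : pa n = fa n := rfl
theorem pb_app (n : ℕ) : pb n = fb n := rfl
theorem pa_inv (n : ℕ) : pa⁻¹ n = fa (fa n) := rfl
theorem pb_inv (n : ℕ) : pb⁻¹ n = fb (fb n) := rfl

theorem cube (t : Bool) : (cond t pb pa) ^ 3 = 1 := by
  ext n; cases t
  exacts [fa3 n, fb3 n]

theorem sig (n m : ℕ) (h : m % 2 = 0) : ((pa * pb) ^ n) m = 4 ^ n * m := by
  induction n generalizing m with
  | zero => simp
  | succ n ih =>
    have : (pa * pb) m = 4 * m := by
      rw [Perm.mul_apply, pa_app, pb_app]; unfold fa fb; split_ifs <;> omega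
    rw [pow_succ, Perm.mul_apply, this, ih _ (by omega)]; ring

theorem gg_app (n : ℕ) (t : Bool) (p : ℕ) (h : p % 2 = t.toNat) :
    ∃ m, gg pa pb n t p = 4 ^ n * m ∧ cond t (m % 4 = 2) (m % 8 = 4) := by
  have : ∃ m, cond t pa⁻¹ (pa * pb⁻¹) p = m ∧ m % 2 = 0 ∧ cond t (m % 4 = 2) (m % 8 = 4) := by
    refine ⟨_, rfl, ?_⟩
    cases t
    · simp only [cond, Perm.mul_apply, pa_app, pb_inv, Bool.toNat_false] at h ⊢
      unfold fa fb; split_ifs <;> omega
    · simp only [cond, pa_inv, Bool.toNat_true] at h ⊢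
      unfold fa; split_ifs <;> omega
  obtain ⟨m, h1, h2, h3⟩ := this
  exact ⟨m, by rw [gg, Perm.mul_apply, h1, sig _ _ h2], h3⟩

def Y (i : ℕ × Bool) : Set ℕ := {q | ((gg pa pb i.1 i.2)⁻¹ q) % 2 = i.2.toNat}

theorem Y_disj {i j : ℕ × Bool} {q : ℕ} (hi : q ∈ Y i) (hj : q ∈ Y j) : i = j := by
  obtain ⟨n, t⟩ := i
  obtain ⟨n', t'⟩ := j
  obtain ⟨m, h1, h2⟩ := gg_app n _ _ hi
  obtain ⟨m', h3, h4⟩ := gg_app n' _ _ hj
  simp only [Perm.coe_inv, apply_symm_apply] at h1 h3
  have key : ∀ {n n' m m' : ℕ}, 4 ^ n * m = 4 ^ n' * m' → m % 8 ≠ 0 → m' % 2 = 0 → n' ≤ n := by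
    intro n n' m m' e a b
    by_contra hn
    obtain ⟨k, rfl⟩ := Nat.exists_eq_add_of_lt (not_le.1 hn)
    have : m = 4 * (4 ^ k * m') := Nat.eq_of_mul_eq_mul_left (pow_pos (by norm_num : 0 < 4) n)
      (by rw [e]; ring)
    obtain ⟨c, rfl⟩ := Nat.dvd_of_mod_eq_zero b
    rw [this, show 4 * (4 ^ k * (2 * c)) = 8 * (4 ^ k * c) by ring] at a
    omega
  have e := h1.symm.trans h3
  have a1 : m % 8 ≠ 0 ∧ m % 2 = 0 := by cases t <;> simp only [cond] at h2 <;> omega
  have a2 : m' % 8 ≠ 0 ∧ m' % 2 = 0 := by cases t' <;> simp only [cond] at h4 <;> omega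
  obtain rfl : n = n' := le_antisymm (key e.symm a2.1 a1.2) (key e a1.1 a2.2)
  obtain rfl : m = m' := Nat.eq_of_mul_eq_mul_left (pow_pos (by norm_num : 0 < 4) n) e
  cases t <;> cases t' <;> simp only [cond] at h2 h4 <;> first | rfl | omega

abbrev C3 := Multiplicative (ZMod 3)

def cyc {G : Type} [Group G] (u : G) (h : u ^ 3 = 1) : C3 →* G :=
  MonoidHom.mk' (fun x => u ^ x.toAdd.val) fun x y => by
    rw [toAdd_mul, ZMod.val_add, ← pow_eq_pow_mod _ h, pow_add]

theorem uu_cube {G : Type} [Group G] {a b : G} {t : Bool} (h : (cond t b a) ^ 3 = 1) (n : ℕ) :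
    uu a b n t ^ 3 = 1 := by rw [uu, conj_pow, h]; simp

abbrev L := Monoid.CoprodI fun _ : ℕ × Bool => C3

def lf : L →* Perm ℕ := Monoid.CoprodI.lift fun i => cyc _ (uu_cube (cube i.2) i.1)

theorem lf_inj : Function.Injective lf := by
  refine Monoid.CoprodI.lift_injective_of_ping_pong _ (Or.inr ⟨(0, true), by simp⟩) Y
    (fun i => ⟨gg pa pb i.1 i.2 i.2.toNat, ?_⟩)
    (fun i j h => Set.disjoint_left.2 fun q a b => h (Y_disj a b)) fun i j h x hx => ?_
  · simp only [Y, Set.mem_setOf_eq, Perm.coe_inv, symm_apply_apply]; cases i.2 <;> rfl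
  rintro _ ⟨q, hq, rfl⟩
  have h1 : q ∉ Y i := fun a => h (Y_disj a hq)
  have : x.toAdd.val = 1 ∨ x.toAdd.val = 2 := by revert x; decide
  simp only [Y, Set.mem_setOf_eq, cyc, MonoidHom.mk'_apply, uu, conj_pow, Perm.smul_def,
    Perm.mul_apply, Perm.coe_inv, symm_apply_apply] at h1 ⊢
  generalize (gg pa pb i.1 i.2).symm q = p at h1
  obtain ⟨n, t⟩ := i
  rcases this with e | e <;> rw [e] <;> cases t <;>
    simp only [cond, pow_one, pow_two, Perm.mul_apply, pa_app, pb_app, Bool.toNat_false,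
      Bool.toNat_true] at h1 ⊢
  all_goals first | (unfold fa; split_ifs <;> omega) | (unfold fb; split_ifs <;> omega)

theorem coset {G K : Type} [Group G] [Group K] (f : K →* G) (hf : Function.Injective f)
    (φ : K →* K) (hφ : ∀ k, φ (φ k) = k) :
    ∃ s : Perm G, s * s = 1 ∧ ∀ k g, s (f k * g) = f (φ k) * s g := by
  let t : G → G := fun g => (Quotient.mk (QuotientGroup.rightRel f.range) g).out
  have h : ∀ g, ∃ k, f k * t g = g := fun g => by
    obtain ⟨k, hk⟩ := QuotientGroup.rightRel_apply.1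
      (Quotient.mk_out (s := QuotientGroup.rightRel f.range) g)
    exact ⟨k, by rw [hk]; simp [t]⟩
  choose κ hκ using h
  have ht : ∀ k g, t (f k * g) = t g := fun k g =>
    congrArg Quotient.out (Quotient.sound (QuotientGroup.rightRel_apply.2 ⟨k⁻¹, by simp⟩))
  have hk : ∀ k g, κ (f k * g) = k * κ g := fun k g => hf (mul_right_cancel (b := t g) (by
    rw [map_mul, mul_assoc, hκ, ← ht k g, hκ]))
  let s : G → G := fun g => f (φ (κ g)) * t g
  have hs : ∀ k g, s (f k * g) = f (φ k) * s g := fun k g => by simp only [s, ht, hk, map_mul, mul_assoc]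
  have h2 : Function.Involutive s := fun g => by
    have e : t (t g) = t g := by rw [← ht (κ g), hκ]
    have e1 : κ (t g) = 1 := hf (mul_right_cancel (b := t g) (by
      rw [map_one, one_mul]; nth_rewrite 2 [← e]; exact hκ _))
    change s (f _ * _) = g
    rw [hs, hφ]
    simp only [s, e, e1, map_one, one_mul, hκ]
  exact ⟨h2.toPerm, Equiv.ext h2, hs⟩

open Classical in
theorem model (B : ℕ → Prop) : ∃ (G : Type) (_ : Group G) (a b s : G), a ^ 3 = 1 ∧ b ^ 3 = 1 ∧
    s * s = 1 ∧ a ≠ 1 ∧ ∀ n t, s * uu a b n t * s⁻¹ = if B n then (uu a b n t)⁻¹ else uu a b n t := by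
  let φ : L →* L := Monoid.CoprodI.lift fun i =>
    (Monoid.CoprodI.of (i := i)).comp (if B i.1 then invMonoidHom else MonoidHom.id _)
  have hφ : φ.comp φ = MonoidHom.id _ := by
    refine Monoid.CoprodI.ext_hom _ _ fun i => MonoidHom.ext fun x => ?_
    by_cases h : B i.1 <;> simp [φ, h]
  obtain ⟨s, h1, h2⟩ := coset lf lf_inj φ fun k => DFunLike.congr_fun hφ k
  let ρ := MulAction.toPermHom (Perm ℕ) (Perm ℕ)
  refine ⟨Perm (Perm ℕ), inferInstance, ρ pa, ρ pb, s, ?_, ?_, h1, fun e => ?_, fun n t => ?_⟩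
  · rw [← map_pow, show pa ^ 3 = 1 from cube false, map_one]
  · rw [← map_pow, show pb ^ 3 = 1 from cube true, map_one]
  · have := congrArg (fun x : Perm (Perm ℕ) => x 1 0) e
    simp [ρ, pa_app, fa] at this
  · have e : ∀ i : ℕ × Bool, lf (Monoid.CoprodI.of (i := i) (Multiplicative.ofAdd 1)) =
        uu pa pb i.1 i.2 := fun i => by
      simp only [lf, Monoid.CoprodI.lift_of, cyc, MonoidHom.mk'_apply, toAdd_ofAdd]
      exact pow_one _
    rw [mul_inv_eq_iff_eq_mul, ← map_uu, ← e (n, t)]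
    ext1 g
    have := h2 (Monoid.CoprodI.of (i := (n, t)) (Multiplicative.ofAdd 1)) g
    by_cases h : B n <;> simpa [ρ, φ, h] using this

end Pool.Agent.H37.PP
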