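import Pool.Agent.H37.PP1
import Pool.Agent.H37.Indep

/-! A recursively presented group on which every configuration is computable or computes a
separator of a given pair of disjoint c.e. sets. -/

set_option autoImplicit false

namespace Pool.Agent.H37.PP

open Encodable

abbrev Wd (r : ℕ) := List (Fin r × Bool)

variable {G : Type} [Group G] {r : ℕ}

def ev (gens : Fin r → G) (w : Wd r) : G :=
  (w.map fun p => cond p.2 (gens p.1) (gens p.1)⁻¹).prod

def code (gens : Fin r → G) (x : G → ℕ) (n : ℕ) : ℕ :=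
  (decode n : Option (Wd r)).elim 0 fun w => x (ev gens w)

theorem ev_eq (gens : Fin r → G) (w : Wd r) : ev gens w = FreeGroup.lift gens (FreeGroup.mk w) := rfl

theorem ev_append (gens : Fin r → G) (v w : Wd r) : ev gens (v ++ w) = ev gens v * ev gens w := by
  simp [ev]

theorem ev_inv (gens : Fin r → G) (w : Wd r) : ev gens (FreeGroup.invRev w) = (ev gens w)⁻¹ := by
  rw [ev_eq, ev_eq, ← FreeGroup.inv_mk, map_inv]

theorem ev_surj {gens : Fin r → G} (h : Subgroup.closure (Set.range gens) = ⊤) (g : G) :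
    ∃ w, ev gens w = g := by
  have : g ∈ (FreeGroup.lift gens).range := by rw [FreeGroup.range_lift_eq_closure, h]; trivial
  obtain ⟨⟨w⟩, rfl⟩ := this
  exact ⟨w, rfl⟩

@[fun_prop] theorem ci_invRev {α : Type} [Primcodable α] {O : Set (ℕ →. ℕ)} {f : α → Wd r}
    (hf : CI O f) : CI O fun a => FreeGroup.invRev (f a) := by unfold FreeGroup.invRev; fun_prop

theorem ci_red : CI ∅ (FreeGroup.reduce : Wd r → Wd r) := by
  refine CI.of_eq (f := fun w : Wd r => w.foldr (fun x l => l.head?.elim [x] fun y =>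
    cond (decide (x.1 = y.1) && decide (x.2 = !y.2)) l.tail (x :: l)) []) (by fun_prop) fun w => ?_
  induction w with
  | nil => rfl
  | cons x w ih =>
    rw [List.foldr_cons, ih, FreeGroup.reduce.cons]
    cases FreeGroup.reduce w with
    | nil => rfl
    | cons y l => by_cases h1 : x.1 = y.1 <;> by_cases h2 : x.2 = !y.2 <;> simp [h1, h2]

def cj (l : List (Wd r × Wd r × Bool)) : Wd r :=
  l.flatMap fun q => q.1 ++ cond q.2.2 q.2.1 (FreeGroup.invRev q.2.1) ++ FreeGroup.invRev q.1

theorem mem_nc (R : Wd r → Prop) (x : FreeGroup (Fin r)) :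
    x ∈ Subgroup.normalClosure (FreeGroup.mk '' {w | R w}) ↔
      ∃ l : List (Wd r × Wd r × Bool), (∀ q ∈ l, R q.2.1) ∧ x = FreeGroup.mk (cj l) := by
  constructor
  · intro h
    induction h using Subgroup.closure_induction'' with
    | mem x hx =>
      obtain ⟨_, ⟨w, hw, rfl⟩, h⟩ := Group.mem_conjugatesOfSet_iff.1 hx
      obtain ⟨⟨g⟩, rfl⟩ := isConj_iff.1 h
      exact ⟨[(g, w, true)], by simpa using hw, by
        simp [cj, ← FreeGroup.mul_mk, ← FreeGroup.inv_mk, mul_assoc]⟩
    | inv_mem x hx =>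
      obtain ⟨_, ⟨w, hw, rfl⟩, h⟩ := Group.mem_conjugatesOfSet_iff.1 hx
      obtain ⟨⟨g⟩, rfl⟩ := isConj_iff.1 h
      exact ⟨[(g, w, false)], by simpa using hw, by
        simp [cj, ← FreeGroup.mul_mk, ← FreeGroup.inv_mk, mul_assoc]⟩
    | one => exact ⟨[], by simp, rfl⟩
    | mul x y _ _ hx hy =>
      obtain ⟨l, a, rfl⟩ := hx
      obtain ⟨l', a', rfl⟩ := hy
      exact ⟨l ++ l', fun q hq => (List.mem_append.1 hq).elim (a q) (a' q), by
        simp [cj, FreeGroup.mul_mk]⟩
  · rintro ⟨l, h, rfl⟩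
    induction l with
    | nil => exact one_mem _
    | cons q l ih =>
      rw [cj, List.flatMap_cons, ← FreeGroup.mul_mk, ← FreeGroup.mul_mk, ← FreeGroup.mul_mk,
        ← FreeGroup.inv_mk]
      refine mul_mem (Subgroup.normalClosure_normal.conj_mem _ ?_ _)
        (ih fun q hq => h q (List.mem_cons_of_mem _ hq))
      have : FreeGroup.mk q.2.1 ∈ Subgroup.normalClosure (FreeGroup.mk '' {w | R w}) :=
        Subgroup.subset_normalClosure ⟨_, h q List.mem_cons_self, rfl⟩
      cases q.2.2
      · simpa only [cond, ← FreeGroup.inv_mk] using inv_mem this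
      · exact this

theorem ev_of (S : Set (FreeGroup (Fin r))) (w : Wd r) :
    ev (PresentedGroup.of (rels := S)) w = PresentedGroup.mk S (FreeGroup.mk w) := by
  rw [ev_eq]
  exact DFunLike.congr_fun (show FreeGroup.lift _ = PresentedGroup.mk S by ext; simp; rfl) _

theorem re_wp {R : Wd r → Prop} (hR : REPred R) :
    REPred fun w : Wd r => ev (PresentedGroup.of (rels := FreeGroup.mk '' {w | R w})) w = 1 := by
  have h := ci_red (r := r)
  have h1 : REPred fun p : Wd r × List (Wd r × Wd r × Bool) => (∀ q ∈ p.2, R q.2.1) ∧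
      FreeGroup.reduce p.1 = FreeGroup.reduce (cj p.2) :=
    re_and (re_forall_mem (p := fun _ (q : Wd r × Wd r × Bool) => R q.2.1) (REPred.comp' hR (by fun_prop)) (by fun_prop))
      (re_of_bool (fun p => decide (FreeGroup.reduce p.1 = FreeGroup.reduce (cj p.2)))
        (by unfold cj; fun_prop) (by simp))
  refine (re_exists (p := fun w l => (∀ q ∈ l, R q.2.1) ∧
    FreeGroup.reduce w = FreeGroup.reduce (cj l)) h1).of_eq fun w => ?_
  rw [ev_of, PresentedGroup.mk_eq_one_iff, mem_nc]
  exact exists_congr fun l => and_congr_right fun _ =>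
    ⟨FreeGroup.reduce.exact, FreeGroup.reduce.sound⟩

theorem fin_comp (gens : Fin r → G) (N : Subgroup G) [N.Normal] [Finite (G ⧸ N)] (x : G → ℕ)
    (hx : ∀ g, ∀ h ∈ N, x (g * h) = x g) : CI ∅ (code gens x) := by
  obtain ⟨m, ⟨e⟩⟩ := Finite.exists_equiv_fin (G ⧸ N)
  let f : (Fin r × Bool) × Fin m → Fin m := fun p =>
    e (QuotientGroup.mk' N (cond p.1.2 (gens p.1.1) (gens p.1.1)⁻¹) * e.symm p.2)
  let F : Fin m → ℕ := fun q => x (e.symm q).out
  have hf : CI ∅ f := CI.dom_finite f CI.id'
  have hF : CI ∅ F := CI.dom_finite F CI.id'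
  have h1 : ∀ w : Wd r, w.foldr (fun a b => f (a, b)) (e 1) = e (QuotientGroup.mk' N (ev gens w)) :=
    fun w => by induction w with
      | nil => rfl
      | cons p w ih => simp [f, ev] at ih ⊢; simp [ih]
  refine CI.of_eq (f := fun n => (decode n : Option (Wd r)).elim 0 fun w =>
    F (w.foldr (fun a b => f (a, b)) (e 1))) (by clear_value f F; fun_prop) fun n => ?_
  unfold code
  congr 1
  funext w
  obtain ⟨h, hh⟩ := QuotientGroup.mk_out_eq_mul N (ev gens w)
  simp only [h1, F, Equiv.symm_apply_apply, QuotientGroup.mk'_apply, hh, hx _ _ h.2]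

def gw (n : ℕ) (t : Bool) : Wd 3 :=
  (List.replicate n [(0, true), (1, true)]).flatten ++ cond t [(0, false)] [(0, true), (1, false)]

def uw (n : ℕ) (t : Bool) : Wd 3 := gw n t ++ [(cond t 1 0, true)] ++ FreeGroup.invRev (gw n t)

def rw' (n : ℕ) (t c : Bool) : Wd 3 :=
  [(2, true)] ++ uw n t ++ [(2, false)] ++ cond c (uw n t) (FreeGroup.invRev (uw n t))

theorem ev_uw (gens : Fin 3 → G) (n : ℕ) (t : Bool) :
    ev gens (uw n t) = uu (gens 0) (gens 1) n t := by
  have : ev gens (gw n t) = gg (gens 0) (gens 1) n t := by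
    rw [gw, ev_append, gg]
    congr 1
    · induction n with
      | zero => simp [ev]
      | succ n ih => rw [List.replicate_succ, List.flatten_cons, ev_append, ih, pow_succ']; simp [ev]
    · cases t <;> simp [ev]
  rw [uw, ev_append, ev_append, ev_inv, this, uu]
  cases t <;> simp [ev]

theorem ev_rw (gens : Fin 3 → G) (n : ℕ) (t c : Bool) :
    ev gens (rw' n t c) = gens 2 * uu (gens 0) (gens 1) n t * (gens 2)⁻¹ *
      cond c (uu (gens 0) (gens 1) n t) (uu (gens 0) (gens 1) n t)⁻¹ := by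
  cases c <;> simp only [rw', ev_append, cond, ev_inv, ev_uw] <;> simp [ev]

def Rel (A B : ℕ → Prop) (w : Wd 3) : Prop :=
  w ∈ [[(0, true), (0, true), (0, true)], [(1, true), (1, true), (1, true)], [(2, true), (2, true)]] ∨
    ∃ q : ℕ × Bool, A q.1 ∧ w = rw' q.1 q.2 false ∨ B q.1 ∧ w = rw' q.1 q.2 true

theorem ci_rw {O : Set (ℕ →. ℕ)} : CI O fun q : ℕ × Bool × Bool => rw' q.1 q.2.1 q.2.2 := by
  unfold rw' uw gw; fun_prop

def core (x : G → ℕ) : Subgroup G where
  carrier := {h | ∀ g g', x (g * h * g') = x (g * g')}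
  one_mem' := by simp
  mul_mem' {a b} ha hb g g' := by rw [← mul_assoc, hb, ha]
  inv_mem' {a} ha g g' := by rw [← ha (g * a⁻¹)]; simp

instance (x : G → ℕ) : (core x).Normal :=
  ⟨fun h hh c g g' => by simpa [mul_assoc] using hh (g * c) (c⁻¹ * g')⟩

theorem grp {A B : ℕ → Prop} (hA : REPred A) (hB : REPred B) (hd : ∀ n, A n → ¬ B n) :
    ∃ (G : Type) (_ : Group G) (gens : Fin 3 → G), Subgroup.closure (Set.range gens) = ⊤ ∧
      (REPred fun w => ev gens w = 1) ∧ gens 0 ≠ 1 ∧ gens 0 ^ 3 = 1 ∧ ∀ x : G → ℕ,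
        (CI ∅ (code gens x) ∧ x (gens 0) = x 1) ∨ ∃ D : ℕ → Bool, CI (orc (code gens x)) D ∧
          (∀ n, A n → D n = true) ∧ ∀ n, B n → D n = false := by
  obtain ⟨F, hF, eF⟩ : ∃ F : ℕ × Bool × Bool → Wd 3, CI ∅ F ∧ ∀ a b c, rw' a b c = F (a, b, c) :=
    ⟨_, ci_rw, fun _ _ _ => rfl⟩
  have hR : REPred (Rel A B) := by
    unfold Rel
    refine re_or (re_of_bool (fun w => decide (w ∈ [[(0, true), (0, true), (0, true)],
      [(1, true), (1, true), (1, true)], [(2, true), (2, true)]])) (by fun_prop) (by simp))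
      (re_exists (re_or (re_and (REPred.comp' hA (by fun_prop))
        (re_of_bool (fun p => decide (p.1 = F (p.2.1, p.2.2, false))) (by fun_prop) (by simp [eF])))
        (re_and (REPred.comp' hB (by fun_prop))
        (re_of_bool (fun p => decide (p.1 = F (p.2.1, p.2.2, true))) (by fun_prop) (by simp [eF])))))
  set S := FreeGroup.mk '' {w | Rel A B w}
  let gens : Fin 3 → PresentedGroup S := PresentedGroup.of
  have hc : Subgroup.closure (Set.range gens) = ⊤ := PresentedGroup.closure_range_of S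
  have h1 : ∀ w, Rel A B w → ev gens w = 1 := fun w hw =>
    (ev_of S w).trans (PresentedGroup.one_of_mem ⟨w, hw, rfl⟩)
  have c0 : ∀ t, cond t (gens 1) (gens 0) ^ 3 = 1 := fun t => by
    cases t
    · simpa [ev, pow_three] using h1 [(0, true), (0, true), (0, true)] (Or.inl (by simp))
    · simpa [ev, pow_three] using h1 [(1, true), (1, true), (1, true)] (Or.inl (by simp))
  have c2 : gens 2 * gens 2 = 1 := by simpa [ev] using h1 [(2, true), (2, true)] (Or.inl (by simp))
  refine ⟨PresentedGroup S, inferInstance, gens, hc, re_wp hR, fun e => ?_, c0 false, fun x => ?_⟩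
  · obtain ⟨Γ, _, a, b, s, m1, m2, m3, m4, m5⟩ := model B
    have : ∀ r ∈ S, FreeGroup.lift ![a, b, s] r = 1 := by
      rintro _ ⟨w, hw | ⟨q, ⟨h, rfl⟩ | ⟨h, rfl⟩⟩, rfl⟩
      · rw [pow_three] at m1 m2
        simp only [List.mem_cons, List.not_mem_nil, or_false] at hw
        rcases hw with rfl | rfl | rfl <;> simpa
      · rw [← ev_eq, ev_rw]; simp [m5, hd _ h]
      · rw [← ev_eq, ev_rw]; simp [m5, h]
    have h := congrArg (PresentedGroup.toGroup this) e
    exact m4 (by simpa [gens] using h)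
  by_cases h : ∀ t, cond t (gens 1) (gens 0) ∈ core x
  · left
    have : ∀ g : PresentedGroup S, g ∈ core x ∨ (gens 2)⁻¹ * g ∈ core x := fun g => by
      obtain ⟨w, rfl⟩ := ev_surj hc g
      induction w with
      | nil => exact Or.inl (one_mem _)
      | cons p w ih =>
        have e : ∀ g ∈ core x, (ev gens w ∈ core x ∨ (gens 2)⁻¹ * ev gens w ∈ core x) →
            (g * ev gens w ∈ core x ∨ (gens 2)⁻¹ * (g * ev gens w) ∈ core x) := fun g hg ih =>
          ih.imp (mul_mem hg) fun a => by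
            simpa [mul_assoc] using mul_mem (Subgroup.Normal.conj_mem' inferInstance g hg (gens 2)) a
        have i2 : (gens 2)⁻¹ = gens 2 := inv_eq_of_mul_eq_one_left c2
        have e2 : gens 2 * ev gens w ∈ core x ∨ (gens 2)⁻¹ * (gens 2 * ev gens w) ∈ core x := by
          rw [inv_mul_cancel_left, ← i2]; exact ih.symm
        change cond p.2 (gens p.1) (gens p.1)⁻¹ * ev gens w ∈ _ ∨
          _ * (cond p.2 (gens p.1) (gens p.1)⁻¹ * ev gens w) ∈ _
        obtain ⟨i, c⟩ := p
        fin_cases i <;> cases c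
        exacts [e _ (inv_mem (h false)) ih, e _ (h false) ih, e _ (inv_mem (h true)) ih,
          e _ (h true) ih, by simpa [i2] using e2, e2]
    have : Finite (PresentedGroup S ⧸ core x) := by
      refine Finite.of_surjective (fun c : Bool => QuotientGroup.mk (cond c 1 (gens 2))) fun q => ?_
      obtain ⟨g, rfl⟩ := QuotientGroup.mk_surjective q
      rcases this g with a | a
      · exact ⟨true, QuotientGroup.eq.2 (by simpa using a)⟩
      · exact ⟨false, QuotientGroup.eq.2 a⟩
    exact ⟨fin_comp gens (core x) x fun g a ha => by simpa using ha g 1, by simpa using h false 1 1⟩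
  right
  obtain ⟨t, ht⟩ := not_forall.1 h
  have hy := CI.self (code gens x)
  obtain ⟨f, hf, h2⟩ := CI.exists_choice (O := orc (code gens x))
    (p := fun (n : ℕ) (q : Bool × Wd 3 × Wd 3) => code gens x (encode (q.2.1 ++ F (n, t, q.1) ++ q.2.2)) !=
      code gens x (encode (q.2.1 ++ q.2.2))) (by have := hF.of_empty (O := orc (code gens x)); fun_prop)
    fun n => by
      have : ∃ c, ev gens (rw' n t c) ∉ core x := by
        by_contra hn
        push Not at hn
        have a := mul_mem (inv_mem (hn true)) (hn false)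
        have c := uu_cube (c0 t) n
        rw [ev_rw, ev_rw] at a
        simp only [cond] at a
        generalize hu : uu (gens 0) (gens 1) n t = u at a c
        have : u ∈ core x := by
          convert a using 1
          rw [pow_three] at c
          calc u = u⁻¹ * u⁻¹ * (u * (u * u)) := by group
            _ = _ := by rw [c]; group
        rw [← hu, uu] at this
        exact ht (by simpa [mul_assoc] using Subgroup.Normal.conj_mem' inferInstance _ this (gg (gens 0) (gens 1) n t))
      obtain ⟨c, hc'⟩ := this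
      obtain ⟨g, hg⟩ := not_forall.1 hc'
      obtain ⟨g', hg⟩ := not_forall.1 hg
      obtain ⟨v, rfl⟩ := ev_surj hc g
      obtain ⟨v', rfl⟩ := ev_surj hc g'
      exact ⟨(c, v, v'), by simpa [code, ev_append, ← eF, mul_assoc] using hg⟩
  have h3 : ∀ n, ev gens (rw' n t (f n).1) ≠ 1 := fun n e => by
    simpa [code, ev_append, ← eF, e] using h2 n
  refine ⟨fun n => (f n).1, by fun_prop, fun n a => ?_, fun n a => ?_⟩
  · by_contra e
    exact h3 n (h1 _ (Or.inr ⟨(n, t), Or.inl ⟨a, congrArg _ (Bool.eq_false_iff.2 e)⟩⟩))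
  · by_contra e
    exact h3 n (h1 _ (Or.inr ⟨(n, t), Or.inr ⟨a, congrArg _ (eq_true_of_ne_false e)⟩⟩))

end Pool.Agent.H37.PP
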