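import Pool.Agent.H37.PP2
import Pool.Agent.H37.MedDefs

/-! A recursively presented group omitting an effectively closed Medvedev degree. -/

set_option autoImplicit false

namespace Pool.Agent.H37.PP

open Encodable Ind

def ext (σ : List ℕ) (s : ℕ) : Bool :=
  (allLists [0, 1] s).any fun τ => decide (τ.length = s) && T (σ ++ τ)

theorem ext_iff {σ : List ℕ} {s : ℕ} : ext σ s = true ↔ ∃ τ : List ℕ, τ.length = s ∧ T (σ ++ τ) = true := by
  simp only [ext, List.any_eq_true, mem_allLists, Bool.and_eq_true, decide_eq_true_eq]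
  refine ⟨fun ⟨τ, _, h⟩ => ⟨τ, h⟩, fun ⟨τ, h1, h2⟩ => ⟨τ, ⟨h1.le, fun i hi => ?_⟩, h1, h2⟩⟩
  have := T_bin h2 i (List.mem_append_right _ hi)
  simp; omega

theorem ext_mono {σ : List ℕ} {s t : ℕ} (h : s ≤ t) (h1 : ext σ t = true) : ext σ s = true := by
  obtain ⟨τ, a, b⟩ := ext_iff.1 h1
  exact ext_iff.2 ⟨τ.take s, by simp; omega,
    T_pf ((List.prefix_append_right_inj _).2 (List.take_prefix _ _)) b⟩

def Dd (i j n : ℕ) : Prop := ∃ s, ext ((decode n).getD [] ++ [i]) s = false ∧
  ext ((decode n).getD [] ++ [j]) s = true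

theorem re_Dd (i j : ℕ) : REPred (Dd i j) := by
  have := ci_T
  exact re_of_nat (fun n s => !ext ((decode n).getD [] ++ [i]) s && ext ((decode n).getD [] ++ [j]) s)
    (by unfold ext; fun_prop) fun n => by simp [Dd]

theorem Dd_disj (n : ℕ) : Dd 0 1 n → ¬ Dd 1 0 n := by
  rintro ⟨s, a, b⟩ ⟨t, c, d⟩
  rcases le_total s t with h | h
  · rw [ext_mono h d] at a; cases a
  · rw [ext_mono h b] at c; cases c

theorem sep_path {O : Set (ℕ →. ℕ)} {D : ℕ → Bool} (hD : CI O D) (h1 : ∀ n, Dd 0 1 n → D n = true)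
    (h2 : ∀ n, Dd 1 0 n → D n = false) {y : ℕ → ℕ} (hy : ∀ n, T (pre y n) = true) (p : ℕ) :
    ∃ z, CI O z ∧ (∀ n, T (pre z n) = true) ∧ z p = y p := by
  let Z : ℕ → List ℕ := fun k => Nat.rec (pre y (p + 1)) (fun _ l => l ++ [(D (encode l)).toNat]) k
  have hZ : CI O Z := CI.of_rec1 (h := fun _ l => l ++ [(D (encode l)).toNat]) (by fun_prop)
    fun _ => rfl
  have hE : ∀ k s, ext (Z k) s = true := by
    intro k
    induction k with
    | zero =>
      intro s
      obtain ⟨τ, e⟩ := pre_pf y (Nat.le_add_right (p + 1) s)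
      have := congrArg List.length e
      exact ext_iff.2 ⟨τ, by simpa using this, by change T (pre y _ ++ τ) = _; rw [e, hy]⟩
    | succ k ih =>
      intro s
      by_contra hn
      obtain ⟨τ, a, b⟩ := ext_iff.1 (ih (s + 1))
      obtain ⟨i, τ, rfl⟩ := List.exists_cons_of_length_eq_add_one a
      have hi := T_bin b i (by simp)
      have he : ext (Z k ++ [i]) s = true := ext_iff.2 ⟨τ, by simpa using a, by simpa using b⟩
      change ¬ ext (Z k ++ [(D (encode (Z k))).toNat]) s = true at hn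
      cases e : D (encode (Z k)) <;> rw [e] at hn <;> interval_cases i
      · exact hn he
      · rw [h1 (encode (Z k)) ⟨s, by simpa using hn, by simpa using he⟩] at e; cases e
      · rw [h2 (encode (Z k)) ⟨s, by simpa using hn, by simpa using he⟩] at e; cases e
      · exact hn he
  have hm : ∀ k l, k ≤ l → Z k <+: Z l := fun k l h => by
    induction l, h using Nat.le_induction with
    | base => exact List.prefix_rfl
    | succ l _ ih => exact ih.trans (List.prefix_append _ _)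
  have hl : ∀ k, k ≤ (Z k).length := fun k => by
    induction k with
    | zero => simp
    | succ k ih => change _ ≤ (Z k ++ _).length; simpa using ih
  have hs : ∀ n, Sub (Z n) fun i => (Z (i + 1)).getD i 0 := fun n q w h => by
    have h1 : q < (Z (q + 1)).length := hl _
    rcases le_total n (q + 1) with e | e
    · simp [pf_get (hm _ _ e) h]
    · have := pf_get (hm _ _ e) (List.getElem?_eq_getElem h1)
      rw [h] at this
      simp [h1, Option.some.inj this]
  refine ⟨fun i => (Z (i + 1)).getD i 0, by fun_prop, fun n => ?_, hs 0 p _ (getElem?_pre y (by omega))⟩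
  obtain ⟨τ, -, b⟩ := ext_iff.1 (hE n 0)
  exact T_pf (((sub_pre _ n).le (hs n) (by simpa using hl n)).trans (List.prefix_append _ _)) b

theorem main : ∃ (G : Type) (_ : Group G) (_ : Infinite G) (gens : Fin 3 → G),
    Subgroup.closure (Set.range gens) = ⊤ ∧ (REPred fun w => ev gens w = 1) ∧
    (¬ ∃ H : Subgroup G, H.FiniteIndex ∧ IsFreeGroup H) ∧ ∃ c : List ℕ → Bool, CI ∅ c ∧
      (∃ x : ℕ → ℕ, (∀ n, x n ≤ 1) ∧ ∀ m, c (pre x m) = false) ∧
      ∀ x : ℕ → ℕ, (∀ m, c (pre x m) = false) →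
        ¬ CI ∅ x ∧ ∀ y : G → ℕ, CI (orc x) (code gens y) → CI ∅ (code gens y) := by
  obtain ⟨G, _, gens, h1, h2, h3, h4, h5⟩ := grp (re_Dd 0 1) (re_Dd 1 0) Dd_disj
  obtain ⟨x, y, hx, hy, e⟩ := two
  obtain ⟨p, hp⟩ := Function.ne_iff.1 e
  have fin : ∀ (N : Subgroup G) [N.Normal] [Finite (G ⧸ N)], gens 0 ∈ N := by
    intro N _ _
    obtain ⟨m, ⟨e⟩⟩ := Finite.exists_equiv_fin (G ⧸ N)
    rcases h5 fun g => (e (QuotientGroup.mk g)).val with ⟨-, h⟩ | ⟨D, a, b, c⟩
    · simpa using QuotientGroup.eq.1 (e.injective (Fin.ext h.symm))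
    · obtain ⟨z, z1, z2, -⟩ := sep_path (a.trans (fin_comp gens N _ fun g h hh => by
        rw [QuotientGroup.mk_mul_of_mem g hh])) b c hy 0
      exact absurd z1 (not_comp z2)
  have hT := ci_T
  refine ⟨G, inferInstance, not_finite_iff_infinite.1 fun _ => h3 (Subgroup.mem_bot.1 (fin ⊥)), gens,
    h1, h2, ?_, fun σ => !T σ || σ[p]?.elim false (· != x p), by fun_prop, ⟨x, fun n => ?_, fun m => ?_⟩,
    fun u hu => ?_⟩
  · rintro ⟨H, _, _⟩
    have a := H.normalCore_le (fin H.normalCore)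
    have b : (IsFreeGroup.toFreeGroup H ⟨_, a⟩) ^ 3 = 1 := by
      rw [← map_pow, show (⟨_, a⟩ : H) ^ 3 = 1 from Subtype.ext h4, map_one]
    rw [pow_eq_one_iff_left (by norm_num), MulEquiv.map_eq_one_iff] at b
    exact h3 (congrArg Subtype.val b)
  · exact Nat.le_of_lt_succ (T_bin (hx (n + 1)) _ (by simp [pre_succ]))
  · by_cases h : p < m
    · simp [hx, getElem?_pre x h]
    · simp [hx, h]
  have u1 : ∀ n, T (pre u n) = true := fun n => by
    have := hu n
    simp only [Bool.or_eq_false_iff, Bool.not_eq_false'] at this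
    exact this.1
  have u2 : u p = x p := by
    have := hu (p + 1)
    simp only [u1, getElem?_pre u (Nat.lt_succ_self p)] at this
    simpa using this
  refine ⟨not_comp u1, fun v hv => ?_⟩
  rcases h5 v with ⟨h, -⟩ | ⟨D, a, b, c⟩
  · exact h
  obtain ⟨z, z1, z2, z3⟩ := sep_path (a.trans hv) b c hy p
  have hu' := CI.self u
  have : CI (orc fun n => Nat.pair (u n) (u n)) u := by
    have := CI.self fun n => Nat.pair (u n) (u n)
    exact CI.of_eq (f := fun n => (Nat.pair (u n) (u n)).unpair.1) (by fun_prop) (by simp)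
  have e := (indep z2 u1 u1 (z1.trans this)).elim id id
  exact absurd (by rw [← u2, ← e, z3]) hp

theorem ofFn_pre (x : ℕ → ℕ) (m : ℕ) : (List.ofFn fun j : Fin m => x j.val) = pre x m :=
  List.ext_getElem (by simp) fun i _ _ => by simp [pre]

theorem red_ci {f : List ℕ → List ℕ} (hf : Computable f) (hm : ∀ σ τ : List ℕ, σ <+: τ → f σ <+: f τ)
    {x y : ℕ → ℕ} (h : ∀ n : ℕ, ∃ m : ℕ, ∀ i < n,
      (f (List.ofFn fun j : Fin m => y j.val))[i]? = some (x i)) : CI (orc y) x := by
  simp only [ofFn_pre] at h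
  have h1 : CI (orc y) f := CI.of_comp hf
  have hy := CI.self y
  obtain ⟨g, hg, h2⟩ := CI.exists_choice (O := orc y)
    (p := fun i m : ℕ => (f (pre y m))[i]?.isSome) (by fun_prop) fun i => by
      obtain ⟨m, hm⟩ := h (i + 1)
      exact ⟨m, by simp [hm i (Nat.lt_succ_self i)]⟩
  refine CI.of_eq (f := fun i => (f (pre y (g i)))[i]?.getD 0) (by fun_prop) fun i => ?_
  obtain ⟨m, h3⟩ := h (i + 1)
  have h3 := h3 i (Nat.lt_succ_self i)
  obtain ⟨w, hw⟩ := Option.isSome_iff_exists.1 (h2 i)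
  rcases le_total m (g i) with e | e
  · simp [pf_get (hm _ _ (pre_pf y e)) h3]
  · rw [pf_get (hm _ _ (pre_pf y e)) hw] at h3
    simp [hw, h3]

end Pool.Agent.H37.PP
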