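import Mathlib

/-! Points of represented spaces, given by their sets of names. -/

set_option autoImplicit false

namespace Pool.Agent.H37.Qm

/-- the machine `φ`, reading initial segments of `p`, outputs `q` -/
def Comp (φ : List ℕ × ℕ →. ℕ) (p q : ℕ → ℕ) : Prop :=
  ∀ n, (∃ k, (φ ((List.range k).map p, n)).Dom) ∧
    ∀ k, ∀ v ∈ φ ((List.range k).map p, n), v = q n

/-- one machine sends every name in `X` to a name in `Y` -/
def Red (Y X : Set (ℕ → ℕ)) : Prop := ∃ φ, Partrec φ ∧ ∀ p ∈ X, ∃ q ∈ Y, Comp φ p q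

/-- there is a computable name -/
def CompPt (X : Set (ℕ → ℕ)) : Prop := ∃ p ∈ X, Computable p

/-- names of a set: its enumerations -/
def enum (A : Set ℕ) : Set (ℕ → ℕ) := {p | A = {k | ∃ n, p n = k + 1}}

/-- names of a functional: its Kleene associates -/
def assoc (Φ : (ℕ → ℕ) → ℕ) : Set (ℕ → ℕ) :=
  {α | (∀ σ τ : List ℕ, σ <+: τ → α (Encodable.encode σ) ≠ 0 →
      α (Encodable.encode τ) = α (Encodable.encode σ)) ∧
    ∀ x, ∃ k, α (Encodable.encode ((List.range k).map x)) = Φ x + 1}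

/-- quasi-minimal enumeration degrees -/
def QuasiMin (A : Set ℕ) : Prop :=
  ¬ CompPt (enum A) ∧ ∀ y : ℕ → ℕ, Red {y} (enum A) → CompPt {y}

end Pool.Agent.H37.Qm
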