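import Pool.Agent.H37.Gen
import Pool.Agent.H37.QmDefs

/-! The finite injury construction. -/

set_option autoImplicit false

namespace Pool.Agent.H37.Qm

open Filter Encodable

abbrev St := List (ℕ × List ℕ)

def dk (k : ℕ) : ℕ × List ℕ := Denumerable.ofNat _ k
def dm (m : ℕ) : List ℕ × ℕ := Denumerable.ofNat _ m
def di (i : ℕ) : ℕ × List ℕ × ℕ := Denumerable.ofNat _ i

def inc (σ τ : List ℕ) : Bool := τ.take σ.length != σ && σ.take τ.length != τ

def tr (S : St) (a : ℕ × List ℕ) : Bool := S.all fun p => p.1 != a.1 || inc a.2 p.2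

def ax (c n m : ℕ) : Option ℕ := ev c (encode ((dm m).1, n)) (dm m).2

def good (S : St) (i n m : ℕ) : Bool := (ax (di i).1 n m).isSome && (dm m).1.all fun k =>
  k == 0 || (tr S (dk (k - 1)) &&
    decide ((di i).2.1.getD (dk (k - 1)).1 ((di i).2.2 + n) < (dk (k - 1)).2.length))

def pick (S : St) (i n t : ℕ) : Option ℕ := (List.range t).find? (good S i n)

def ent (m : ℕ) : ℕ := ((dm m).1.map fun k => (dk (k - 1)).2.sum).sum

def tg (S : St) (e t j : ℕ) : ℕ :=
  ((List.range e).map fun i => ((List.range (j + 1)).map fun n =>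
    (pick S i n t).elim 0 ent).sum).sum + 1

def acts (S : St) (t : ℕ) : Bool := (S.all fun p => p.1 != t.unpair.1) &&
  (List.range t).any fun j =>
    ev t.unpair.1 (encode (t.unpair.1 :: pre (tg S t.unpair.1 t) j)) t == some 1

def SS : ℕ → St
  | 0 => []
  | t + 1 => cond (acts (SS t) t)
      ((t.unpair.1, pre (tg (SS t) t.unpair.1 t) (t + 1)) :: SS t) (SS t)

section
variable {α : Type} [Primcodable α] {O : Set (ℕ →. ℕ)}

@[fun_prop] theorem ci_dk {k : α → ℕ} (h : CI O k) : CI O fun a => dk (k a) := by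
  unfold dk; fun_prop
@[fun_prop] theorem ci_dm {k : α → ℕ} (h : CI O k) : CI O fun a => dm (k a) := by
  unfold dm; fun_prop
@[fun_prop] theorem ci_di {k : α → ℕ} (h : CI O k) : CI O fun a => di (k a) := by
  unfold di; fun_prop
@[fun_prop] theorem ci_tr {S : α → St} {a : α → ℕ × List ℕ} (h1 : CI O S) (h2 : CI O a) :
    CI O fun x => tr (S x) (a x) := by unfold tr inc; fun_prop
@[fun_prop] theorem ci_ax {c n m : α → ℕ} (h1 : CI O c) (h2 : CI O n) (h3 : CI O m) :
    CI O fun x => ax (c x) (n x) (m x) := by unfold ax; fun_prop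
@[fun_prop] theorem ci_good {S : α → St} {c n m : α → ℕ} (h0 : CI O S) (h1 : CI O c) (h2 : CI O n)
    (h3 : CI O m) : CI O fun x => good (S x) (c x) (n x) (m x) := by unfold good; fun_prop
@[fun_prop] theorem ci_pick {S : α → St} {c n m : α → ℕ} (h0 : CI O S) (h1 : CI O c) (h2 : CI O n)
    (h3 : CI O m) : CI O fun x => pick (S x) (c x) (n x) (m x) :=
  CI.find? (f := fun x m => good (S x) (c x) (n x) m) (by fun_prop) (by fun_prop)
@[fun_prop] theorem ci_ent {k : α → ℕ} (h : CI O k) : CI O fun a => ent (k a) := by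
  unfold ent; fun_prop
@[fun_prop] theorem ci_tg {S : α → St} {c n m : α → ℕ} (h0 : CI O S) (h1 : CI O c) (h2 : CI O n)
    (h3 : CI O m) : CI O fun x => tg (S x) (c x) (n x) (m x) := by
  obtain ⟨F, h, e⟩ : ∃ F : St × ℕ × ℕ × ℕ → ℕ, CI O F ∧
      ∀ S i n t, (pick S i n t).elim 0 ent = F (S, i, n, t) :=
    ⟨fun q => (pick q.1 q.2.1 q.2.2.1 q.2.2.2).elim 0 fun m => ent m, by fun_prop,
      fun _ _ _ _ => rfl⟩
  simp only [tg, e]; fun_prop
end

theorem ci_SS : CI ∅ SS := by
  obtain ⟨F, h, e⟩ : ∃ F : St × ℕ × ℕ → List ℕ, CI ∅ F ∧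
      ∀ S t j, pre (tg S t.unpair.1 t) j = F (S, t, j) :=
    ⟨fun q => pre (fun j => tg q.1 q.2.1.unpair.1 q.2.1 j) q.2.2, by fun_prop, fun _ _ _ => rfl⟩
  exact CI.of_rec1 (h := fun t S => cond (acts S t)
    ((t.unpair.1, pre (tg S t.unpair.1 t) (t + 1)) :: S) S)
    (by simp only [acts, e]; fun_prop) fun _ => rfl

theorem inc_iff {σ τ : List ℕ} : inc σ τ = true ↔ ¬ σ <+: τ ∧ ¬ τ <+: σ := by
  simp only [inc, List.prefix_iff_eq_take, Bool.and_eq_true, bne_iff_ne, ne_eq]
  rw [eq_comm (a := σ), eq_comm (a := τ)]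

theorem tr_iff {S : St} {a : ℕ × List ℕ} :
    tr S a = true ↔ ∀ τ, (a.1, τ) ∈ S → ¬ a.2 <+: τ ∧ ¬ τ <+: a.2 := by
  simp only [tr, List.all_eq_true, Bool.or_eq_true, bne_iff_ne, inc_iff]
  exact ⟨fun h τ h1 => (h _ h1).resolve_left (by simp), fun h p h1 =>
    or_iff_not_imp_left.2 fun h2 => h _ (by rwa [← not_not.1 h2])⟩

theorem good_iff {S : St} {i n m : ℕ} : good S i n m = true ↔ (ax (di i).1 n m).isSome = true ∧
    ∀ k, k + 1 ∈ (dm m).1 → tr S (dk k) = true ∧
      (di i).2.1.getD (dk k).1 ((di i).2.2 + n) < (dk k).2.length := by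
  simp only [good, Bool.and_eq_true, List.all_eq_true, Bool.or_eq_true, beq_iff_eq,
    decide_eq_true_eq]
  exact and_congr_right fun _ => ⟨fun h k hk => by simpa using h _ hk, fun h k hk => by
    cases k with
    | zero => simp
    | succ k => exact Or.inr (h k hk)⟩

theorem mem_succ {t : ℕ} {p : ℕ × List ℕ} : p ∈ SS (t + 1) ↔ p ∈ SS t ∨ (acts (SS t) t = true ∧
    p = (t.unpair.1, pre (tg (SS t) t.unpair.1 t) (t + 1))) := by
  rw [SS]; cases acts (SS t) t <;> simp [or_comm]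

theorem SS_mono {s t : ℕ} (h : s ≤ t) : SS s ⊆ SS t := by
  induction t, h using Nat.le_induction with
  | base => exact fun _ h => h
  | succ t _ ih => exact fun p hp => mem_succ.2 (Or.inl (ih hp))

theorem mem_SS {t : ℕ} {p : ℕ × List ℕ} (h : p ∈ SS t) : ∃ s < t, acts (SS s) s = true ∧
    p = (s.unpair.1, pre (tg (SS s) s.unpair.1 s) (s + 1)) := by
  induction t with
  | zero => simp [SS] at h
  | succ t ih =>
    rcases mem_succ.1 h with h | h
    · exact (ih h).imp fun s hs => ⟨by omega, hs.2⟩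
    · exact ⟨t, by omega, h⟩

theorem once {s t : ℕ} (h : s < t) (h1 : acts (SS s) s = true) (h2 : acts (SS t) t = true) :
    s.unpair.1 ≠ t.unpair.1 := by
  simpa using List.all_eq_true.1 (Bool.and_eq_true_iff.1 h2).1 _
    (SS_mono h (mem_succ.2 (Or.inr ⟨h1, rfl⟩)))

theorem uniq {s t e : ℕ} {σ τ : List ℕ} (h1 : (e, σ) ∈ SS s) (h2 : (e, τ) ∈ SS t) : σ = τ := by
  obtain ⟨u, -, a1, a2⟩ := mem_SS h1
  obtain ⟨v, -, b1, b2⟩ := mem_SS h2
  simp only [Prod.mk.injEq] at a2 b2
  rcases lt_trichotomy u v with h | rfl | h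
  · exact absurd (a2.1.symm.trans b2.1) (once h a1 b1)
  · exact a2.2.trans b2.2.symm
  · exact absurd (b2.1.symm.trans a2.1) (once h b1 a1)

theorem silent (b : ℕ) : ∀ᶠ t in atTop, acts (SS t) t = true → b ≤ t.unpair.1 := by
  have : ∀ e, ∀ᶠ t in atTop, acts (SS t) t = true → e ≠ t.unpair.1 := fun e => by
    by_cases h : ∃ s, acts (SS s) s = true ∧ e = s.unpair.1
    · obtain ⟨s, h1, rfl⟩ := h
      exact (eventually_gt_atTop s).mono fun t ht => once ht h1
    · exact .of_forall fun t h1 h2 => h ⟨t, h1, h2⟩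
  exact ((eventually_all_finset (Finset.range b)).2 fun e _ => this e).mono fun t ht h =>
    not_lt.1 fun h1 => ht _ (Finset.mem_range.2 h1) h rfl

theorem good_anti {s t i n m : ℕ} (h : s ≤ t) (h1 : good (SS t) i n m = true) :
    good (SS s) i n m = true :=
  good_iff.2 ((good_iff.1 h1).imp_right fun h2 k hk => (h2 k hk).imp_left fun h3 =>
    tr_iff.2 fun τ h4 => tr_iff.1 h3 τ (SS_mono h h4))

theorem pick_iff {S : St} {i n t m : ℕ} : pick S i n t = some m ↔
    good S i n m = true ∧ m < t ∧ ∀ j < m, good S i n j = false := by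
  simp [pick, List.find?_range_eq_some]

theorem lt_tg {S : St} {e i n t m k j : ℕ} (h : pick S i n t = some m) (hi : i < e) (hn : n ≤ j)
    (hk : k + 1 ∈ (dm m).1) : (dk k).2.getD j 0 < tg S e t j := by
  have h1 : (dk k).2.getD j 0 ≤ (dk k).2.sum := by
    by_cases h1 : j < (dk k).2.length
    · rw [List.getD_eq_getElem _ _ h1]; exact List.single_le_sum (by simp) _ (by simp)
    · rw [List.getD_eq_default _ _ (not_lt.1 h1)]; omega
  have h2 : (dk k).2.sum ≤ ent m := List.single_le_sum (by simp) _ (List.mem_map.2 ⟨_, hk, rfl⟩)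
  refine Nat.lt_succ_of_le (h1.trans (h2.trans (le_trans ?_ (List.single_le_sum (by simp) _
    (List.mem_map.2 ⟨i, List.mem_range.2 hi, rfl⟩)))))
  exact List.single_le_sum (by simp) _ (List.mem_map.2 ⟨n, List.mem_range.2 (by omega), by simp [h]⟩)

theorem getD_pf {σ τ : List ℕ} (h : σ <+: τ) {j : ℕ} (hj : j < σ.length) :
    τ.getD j 0 = σ.getD j 0 := by
  obtain ⟨ρ, rfl⟩ := h
  exact List.getD_append _ _ _ _ hj

theorem pick_succ {i n t m : ℕ} (h : pick (SS t) i n t = some m) (hn : n ≤ t)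
    (hs : acts (SS t) t = true → i + 1 + (di i).2.1.length ≤ t.unpair.1) :
    pick (SS (t + 1)) i n (t + 1) = some m := by
  obtain ⟨h1, h2, h3⟩ := pick_iff.1 h
  refine pick_iff.2 ⟨good_iff.2 ((good_iff.1 h1).imp_right fun h4 k hk => ⟨tr_iff.2 fun τ h5 => ?_,
    (h4 k hk).2⟩), by omega, fun j hj => Bool.eq_false_iff.2 fun h4 => by
      simpa [good_anti (Nat.le_succ t) h4] using h3 j hj⟩
  rcases mem_succ.1 h5 with h5 | ⟨h5', h6⟩
  · exact tr_iff.1 (h4 k hk).1 τ h5
  obtain ⟨h6, rfl⟩ := Prod.mk.inj h6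
  have h7 := hs h5'
  have h8 := (h4 k hk).2
  rw [List.getD_eq_default _ _ (by omega)] at h8
  constructor <;> intro h9
  · have a1 := lt_tg (e := t.unpair.1) (j := (dk k).2.length - 1) h (by omega) (by omega) hk
    have a2 := h9.length_le
    rw [← getD_pf h9 (by omega), getD_pre _ (by simp at a2; omega)] at a1
    omega
  · have a1 := lt_tg (e := t.unpair.1) h (by omega) hn hk
    rw [getD_pf h9 (by simp), getD_pre _ (by omega)] at a1
    omega

theorem stable (i : ℕ) : ∃ b, ∀ n t m, b ≤ t → n ≤ t → pick (SS t) i n t = some m →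
    ∀ u, t ≤ u → pick (SS u) i n u = some m := by
  obtain ⟨b, hb⟩ := eventually_atTop.1 (silent (i + 1 + (di i).2.1.length))
  refine ⟨b, fun n t m h1 h2 h3 u hu => ?_⟩
  induction u, hu using Nat.le_induction with
  | base => exact h3
  | succ u hu ih => exact pick_succ ih (by omega) (hb u (by omega))

theorem lim_pick (i n : ℕ) : ∃ o, ∀ᶠ t in atTop, pick (SS t) i n t = o := by
  obtain ⟨b, hb⟩ := stable i
  by_cases h : ∃ t m, b + n ≤ t ∧ pick (SS t) i n t = some m
  · obtain ⟨t, m, h1, h2⟩ := h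
    exact ⟨_, (eventually_ge_atTop t).mono (hb n t m (by omega) (by omega) h2)⟩
  · exact ⟨none, (eventually_ge_atTop (b + n)).mono fun t ht =>
      Option.eq_none_iff_forall_ne_some.2 fun m hm => h ⟨t, m, ht, hm⟩⟩

theorem lim_tg (e : ℕ) : ∃ x : ℕ → ℕ, ∀ j, ∀ᶠ t in atTop, pre (tg (SS t) e t) j = pre x j := by
  choose o ho using lim_pick
  refine ⟨fun j => ((List.range e).map fun i => ((List.range (j + 1)).map fun n =>
    (o i n).elim 0 ent).sum).sum + 1, fun j => ?_⟩
  refine ((eventually_all_finset (Finset.range e)).2 fun i _ =>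
    (eventually_all_finset (Finset.range j)).2 fun n _ => ho i n).mono fun t ht =>
      pre_congr fun k hk => ?_
  unfold tg
  refine congrArg (List.sum · + 1) (List.map_congr_left fun i hi => congrArg _
    (List.map_congr_left fun n hn => ?_))
  rw [ht i (by simpa using hi) n (by simp at hn ⊢; omega)]

end Pool.Agent.H37.Qm
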