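import Pool.Agent.H37.Qm1

/-! The functional, its associates and the generic set. -/

set_option autoImplicit false

namespace Pool.Agent.H37.Qm

open Filter Encodable Topology

def AA (g : ℕ → ℕ) : Set ℕ := {k | (∀ t, tr (SS t) (dk k) = true) ∧ g (dk k).1 < (dk k).2.length}

def Hit (z : ℕ → ℕ) : Prop := ∃ t τ, (z 0, τ) ∈ SS t ∧ τ = pre (fun i => z (i + 1)) τ.length

open Classical in
noncomputable def Ph (z : ℕ → ℕ) : ℕ := if Hit z then 1 else 0

def val (ρ σ : List ℕ) : ℕ := cond σ.isEmpty 0 (cond ((SS σ.length).any fun p =>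
  p.1 == σ.headD 0 && σ.tail.take p.2.length == p.2) 2 (cond (ρ.any fun k => k != 0 &&
    ((dk (k - 1)).1 == σ.headD 0 && σ.tail.take (dk (k - 1)).2.length == (dk (k - 1)).2)) 1 0))

def ln (n : ℕ) : List ℕ := Denumerable.ofNat _ n

def al (p : ℕ → ℕ) (n : ℕ) : ℕ := val (pre p (ln n).length) (ln n)

theorem ci_val : CI ∅ fun q : List ℕ × List ℕ => val q.1 q.2 := by
  have := ci_SS
  unfold val; fun_prop

open Classical in
theorem al_cons (p : ℕ → ℕ) (e : ℕ) (σ : List ℕ) : al p (encode (e :: σ)) =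
    if ∃ τ, (e, τ) ∈ SS (σ.length + 1) ∧ τ <+: σ then 2 else
      if ∃ k, (∃ n ≤ σ.length, p n = k + 1) ∧ (dk k).1 = e ∧ (dk k).2 <+: σ then 1 else 0 := by
  simp only [al, ln, Denumerable.ofNat_encode, val, List.isEmpty_cons, cond_false,
    List.length_cons, List.headD_cons, List.tail_cons, Bool.cond_eq_ite, List.any_eq_true,
    Bool.and_eq_true, beq_iff_eq, bne_iff_ne, List.prefix_iff_eq_take]
  rw [if_neg (by simp)]
  refine if_congr ⟨?_, fun ⟨τ, h1, h2⟩ => ⟨_, h1, rfl, h2.symm⟩⟩ rfl (if_congr ⟨?_, ?_⟩ rfl rfl)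
  · rintro ⟨⟨_, τ⟩, h1, rfl, h2⟩
    exact ⟨τ, h1, h2.symm⟩
  · rintro ⟨k, h1, h2, h3, h4⟩
    obtain ⟨n, h5, h6⟩ := List.mem_map.1 h1
    exact ⟨k - 1, ⟨n, by simp at h5; omega, by omega⟩, h3, h4.symm⟩
  · rintro ⟨k, ⟨n, h1, h2⟩, h3, h4⟩
    exact ⟨k + 1, List.mem_map.2 ⟨n, by simp; omega, h2⟩, by omega, h3, h4.symm⟩

theorem pre_cons (x : ℕ → ℕ) (j : ℕ) : pre x (j + 1) = x 0 :: pre (fun i => x (i + 1)) j := by
  simp [pre, List.range_succ_eq_map]

theorem al_assoc {g p : ℕ → ℕ} (hp : p ∈ enum (AA g)) : al p ∈ assoc Ph := by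
  have hp : ∀ k, k ∈ AA g ↔ ∃ n, p n = k + 1 := Set.ext_iff.1 hp
  refine ⟨fun σ τ h1 h2 => ?_, fun x => ?_⟩
  · obtain - | ⟨e, σ⟩ := σ
    · exact absurd (by simp [al, ln, val, -encode_list_nil]) h2
    obtain - | ⟨e', τ⟩ := τ
    · simp at h1
    obtain ⟨rfl, h1'⟩ := List.cons_prefix_cons.1 h1
    clear h1
    rename' h1' => h1
    have := h1.length_le
    rw [al_cons] at h2
    rw [al_cons, al_cons]
    split_ifs at h2 with h3 h4
    · rw [if_pos h3, if_pos (h3.imp fun ρ h => ⟨SS_mono (by omega) h.1, h.2.trans h1⟩)]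
    · rw [if_neg h3, if_pos h4, if_neg, if_pos (h4.imp fun k h =>
        ⟨h.1.imp fun n hn => ⟨by omega, hn.2⟩, h.2.1, h.2.2.trans h1⟩)]
      rintro ⟨ρ, a1, a2⟩
      obtain ⟨k, ⟨n, -, b1⟩, rfl, b2⟩ := h4
      exact (List.prefix_or_prefix_of_prefix (b2.trans h1) a2).elim
        (tr_iff.1 (((hp k).2 ⟨n, b1⟩).1 _) ρ a1).1 (tr_iff.1 (((hp k).2 ⟨n, b1⟩).1 _) ρ a1).2
    · exact absurd rfl h2
  · by_cases h : Hit x
    · obtain ⟨t, τ, h1, h2⟩ := id h
      refine ⟨t + τ.length + 1, (congrArg (al p ∘ encode) (pre_cons x _)).trans ?_⟩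
      simp only [Function.comp, al_cons, Ph, if_pos h]
      exact if_pos ⟨τ, SS_mono (by simp; omega) h1, h2 ▸ pre_pf _ (by simp)⟩
    · obtain ⟨b, hb⟩ : ∃ b, ∀ t τ, (x 0, τ) ∈ SS t → τ.length < b := by
        by_cases h1 : ∃ t τ, (x 0, τ) ∈ SS t
        · obtain ⟨t, τ, h1⟩ := h1
          exact ⟨τ.length + 1, fun _ _ h2 => by rw [uniq h2 h1]; omega⟩
        · exact ⟨0, fun t τ h2 => absurd ⟨t, τ, h2⟩ h1⟩
      obtain ⟨n, hn⟩ := (hp (encode (x 0, pre (fun i => x (i + 1)) (b + g (x 0) + 1)))).1 (by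
        simp only [AA, dk, Set.mem_setOf_eq, Denumerable.ofNat_encode, length_pre]
        refine ⟨fun t => tr_iff.2 fun τ h1 => ⟨fun h2 => ?_, fun h2 => h ⟨t, τ, h1, pf_pre h2⟩⟩,
          by omega⟩
        have := h2.length_le
        have := hb t τ h1
        simp at *; omega)
      refine ⟨n + (b + g (x 0) + 1) + 1, (congrArg (al p ∘ encode) (pre_cons x _)).trans ?_⟩
      simp only [Function.comp, al_cons, Ph, if_neg h]
      rw [if_neg fun ⟨τ, h1, h2⟩ => h ⟨_, τ, h1, pf_pre h2⟩, if_pos ⟨_, ⟨n, by simp, hn⟩,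
        by simp [dk], by simpa only [dk, Denumerable.ofNat_encode] using pre_pf _ (by omega)⟩]

theorem assoc_eq {α : ℕ → ℕ} {Φ : (ℕ → ℕ) → ℕ} (h : α ∈ assoc Φ) {x : ℕ → ℕ} {k : ℕ}
    (h1 : α (encode (pre x k)) ≠ 0) : α (encode (pre x k)) = Φ x + 1 := by
  obtain ⟨j, hj : α (encode (pre x j)) = _⟩ := h.2 x
  rw [← h.1 _ _ (pre_pf x (le_max_left k j)) h1, ← hj]
  exact h.1 _ _ (pre_pf x (le_max_right k j)) (by omega)

theorem cont {α : ℕ → ℕ} {Φ : (ℕ → ℕ) → ℕ} (h : α ∈ assoc Φ) : Continuous Φ := by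
  refine ((IsLocallyConstant.iff_eventually_eq Φ).2 fun x => ?_).continuous
  obtain ⟨k, hk⟩ := h.2 x
  refine ((eventually_all_finset (Finset.range k)).2 fun i _ => ((isOpen_discrete {x i}).preimage
    (continuous_apply i)).mem_nhds rfl).mono fun y hy => ?_
  have e : pre y k = pre x k := pre_congr fun i hi => (hy i (Finset.mem_range.2 hi) : x i = y i).symm
  have := assoc_eq h (x := y) (k := k) (by rw [e, pre, hk]; omega)
  rw [e, pre, hk] at this
  omega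

theorem not_comp : ¬ CompPt (assoc Ph) := by
  rintro ⟨α, h, hc⟩
  obtain ⟨e, he⟩ := exists_index (.of_comp hc)
  by_cases h1 : ∃ t, acts (SS t) t = true ∧ t.unpair.1 = e
  · obtain ⟨t, h1, h2⟩ := h1
    obtain ⟨j, h3, h4⟩ := List.any_eq_true.1 (Bool.and_eq_true_iff.1 h1).2
    obtain ⟨s, hs⟩ := he (encode (e :: pre (tg (SS t) e t) j))
    rw [h2, beq_iff_eq] at h4
    have h5 := ev_unique hs h4
    have h6 := assoc_eq h (x := fun n => n.casesOn e (tg (SS t) e t)) (k := j + 1)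
    rw [pre_cons, Ph, if_pos ⟨t + 1, _, mem_succ.2 (Or.inr ⟨h1, by rw [h2]; rfl⟩), by simp⟩] at h6
    exact absurd (h5.symm.trans (h6 (h5.trans_ne one_ne_zero))) (by simp)
  · obtain ⟨x, hx⟩ := lim_tg e
    obtain ⟨k, hk : α (encode (pre _ k)) = _⟩ := h.2 fun n => n.casesOn e x
    have h2 : ∀ t τ, (e, τ) ∉ SS t := fun t τ h2 => by
      obtain ⟨s, -, h3, h4⟩ := mem_SS h2
      exact h1 ⟨s, h3, (Prod.mk.inj h4).1.symm⟩
    rw [Ph, if_neg fun ⟨t, τ, h3, _⟩ => h2 t τ h3] at hk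
    have h3 := h.1 _ _ (pre_pf _ (Nat.le_succ k)) (by rw [hk]; omega)
    rw [pre_cons, hk] at h3
    obtain ⟨s, hs⟩ := he (encode (e :: pre x k))
    obtain ⟨b, hb⟩ := eventually_atTop.1 (hx k)
    have := Nat.right_le_pair e (b + s + k + 1)
    refine h1 ⟨Nat.pair e (b + s + k + 1), Bool.and_eq_true_iff.2 ⟨List.all_eq_true.2 fun p hp => ?_,
      List.any_eq_true.2 ⟨k, List.mem_range.2 (by omega), ?_⟩⟩, by simp⟩
    · have : p.1 ≠ e := fun h4 => h2 _ p.2 (by rw [← h4]; rw [← h4] at hp; exact hp)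
      simpa using this
    · rw [Nat.unpair_pair, hb _ (by omega), ev_mono (by omega) hs]
      exact beq_iff_eq.2 (congrArg some h3)

theorem red (g : ℕ → ℕ) : Red (assoc Ph) (enum (AA g)) := by
  have := ci_val
  refine ⟨fun q => (cond (decide ((ln q.2).length ≤ q.1.length))
    (some (val (q.1.take (ln q.2).length) (ln q.2))) none : Option ℕ), partrec_of_ri (RI.ofOption
      (CI.cond (by unfold ln; fun_prop) (CI.some (this.comp (g := fun q : List ℕ × ℕ =>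
        (q.1.take (ln q.2).length, ln q.2)) (by unfold ln; fun_prop))) (by fun_prop))),
    fun p hp => ⟨_, al_assoc hp, fun n => ⟨⟨(ln n).length, by simp⟩, fun k v hv => ?_⟩⟩⟩
  by_cases h : (ln n).length ≤ k
  · rw [al, ← take_pre p h]
    simpa [h, pre] using hv
  · simp [h] at hv

theorem not_ce (g : ℕ → ℕ) : ¬ CompPt (enum (AA g)) := fun ⟨p, h1, h2⟩ => by
  have := CI.of_comp (O := ∅) h2
  exact not_comp ⟨_, al_assoc h1, CI.computable (ci_val.comp (g := fun n =>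
    (pre p (ln n).length, ln n)) (by unfold ln; fun_prop))⟩

def In (g : ℕ → ℕ) (m : ℕ) : Prop := ∀ k, k + 1 ∈ (dm m).1 → k ∈ AA g

theorem In.mono {g g' : ℕ → ℕ} {m : ℕ} (h : In g m) (h' : ∀ k, k + 1 ∈ (dm m).1 →
    g' (dk k).1 ≤ g (dk k).1) : In g' m :=
  fun k hk => ⟨(h k hk).1, (h' k hk).trans_lt (h k hk).2⟩

def Gr (g : ℕ → ℕ) (c : ℕ) (y : ℕ → ℕ) : Prop :=
  ∀ n, (∃ m, In g m ∧ (ax c n m).isSome = true) ∧ ∀ m v, In g m → ax c n m = some v → v = y n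

theorem gr_of_red {g y : ℕ → ℕ} (h : Red {y} (enum (AA g))) : ∃ c, Gr g c y := by
  classical
  obtain ⟨φ, h1, h2⟩ := h
  obtain ⟨c, hc⟩ := exists_index_part (f := fun m =>
    ((decode (α := List ℕ × ℕ) m : Option _) : Part _).bind φ)
    ((Computable.ofOption (CI.computable (by fun_prop))).bind (h1.comp Computable.snd).to₂)
  have h3 : ∀ q v, v ∈ φ q ↔ ∃ s, ev c (encode q) s = some v := fun q v => by
    rw [← hc]; simp only [encodek, Part.coe_some, Part.bind_some]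
  have h4 : ∀ ρ : List ℕ, (∀ k, k + 1 ∈ ρ → k ∈ AA g) → ∃ p, pre p ρ.length = ρ ∧
      (∀ k j, k + 1 ∈ pre p j → k ∈ AA g) ∧ Comp φ p y := fun ρ hρ => by
    have : (fun i => ρ.getD i (if i - ρ.length ∈ AA g then i - ρ.length + 1 else 0)) ∈
        enum (AA g) := Set.ext fun k => ⟨fun hk => ⟨ρ.length + k, by simp [hk]⟩, fun ⟨n, hn⟩ => by
      by_cases h5 : n < ρ.length
      · exact hρ k (by rw [← hn]; simp [h5])
      · beta_reduce at hn
        rw [List.getD_eq_default _ _ (not_lt.1 h5)] at hn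
        split_ifs at hn with h6
        exact Nat.succ_injective hn ▸ h6⟩
    obtain ⟨_, rfl, h5⟩ := h2 _ this
    refine ⟨_, List.ext_getElem (by simp) fun i _ h6 => by simp [pre, h6], fun k j hk => ?_, h5⟩
    obtain ⟨n, -, hn⟩ := List.mem_map.1 hk
    exact (Set.ext_iff.1 this k).2 ⟨n, hn⟩
  refine ⟨c, fun n => ⟨?_, fun m v h5 h6 => ?_⟩⟩
  · obtain ⟨p, -, h5, h6⟩ := h4 [] (by simp)
    obtain ⟨k, hk⟩ := (h6 n).1
    obtain ⟨s, hs⟩ := (h3 _ _).1 (Part.get_mem hk)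
    refine ⟨encode (pre p k, s), fun j hj => h5 j k ?_, ?_⟩
    · simpa only [dm, Denumerable.ofNat_encode] using hj
    · simp only [ax, dm, Denumerable.ofNat_encode, pre, hs, Option.isSome_some]
  · obtain ⟨p, h7, -, h8⟩ := h4 _ h5
    exact (h8 n).2 (dm m).1.length v ((h3 _ _).2 ⟨_, by rw [← pre, h7]; exact h6⟩)

def low (p : List ℕ × ℕ) (e : ℕ) : ℕ := p.1.getD e p.2

def Ext (p : List ℕ × ℕ) (g : ℕ → ℕ) : Prop :=
  (∀ e, low p e ≤ g e) ∧ ∀ e < p.1.length, g e = low p e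

theorem low_pad (p : List ℕ × ℕ) (M : ℕ) : low (p.1 ++ List.replicate M p.2, p.2) = low p :=
  funext fun e => by
    simp only [low, List.getD_eq_getElem?_getD, List.getElem?_append, List.getElem?_replicate]
    split_ifs <;> simp_all

theorem dense (c : ℕ) (p : List ℕ × ℕ) : ∃ q : List ℕ × ℕ, (p.1.length ≤ q.1.length ∧
    Ext p (low q)) ∧ ∀ g y, Ext q g → Gr g c y → CI ∅ y := by
  by_cases h1 : ∃ n m m' v v', In (low p) m ∧ In (low p) m' ∧ ax c n m = some v ∧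
    ax c n m' = some v' ∧ v ≠ v'
  · obtain ⟨n, m, m', v, v', a1, a2, a3, a4, a5⟩ := h1
    obtain ⟨M, hM⟩ := (((dm m).1 ++ (dm m').1).map fun k => (dk (k - 1)).1).finite_toSet.bddAbove
    refine ⟨(p.1 ++ List.replicate (M + 1) p.2, p.2), ⟨by simp, by simp [low_pad, Ext]⟩,
      fun g y h2 h3 => absurd ?_ a5⟩
    have : ∀ k, k + 1 ∈ (dm m).1 ++ (dm m').1 → g (dk k).1 ≤ low p (dk k).1 := fun k hk => by
      have := hM (List.mem_map.2 ⟨_, hk, rfl⟩)
      rw [h2.2 _ (by simp at this ⊢; omega), low_pad]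
    exact ((h3 n).2 m v (a1.mono fun k hk => this k (by simp [hk])) a3).trans
      ((h3 n).2 m' v' (a2.mono fun k hk => this k (by simp [hk])) a4).symm
  have h0 : ∀ n, Ext p (low (p.1, p.2 + n)) := fun n => ⟨fun e => by
    simp only [low, List.getD_eq_getElem?_getD]; cases p.1[e]? <;> simp, fun e he => by
    simp [low, he]⟩
  by_cases h2 : ∃ n, ∀ m, In (low (p.1, p.2 + n)) m → (ax c n m).isSome = false
  · obtain ⟨n, h2⟩ := h2
    refine ⟨(p.1, p.2 + n), ⟨le_rfl, h0 n⟩, fun g y h3 h4 => ?_⟩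
    obtain ⟨m, h5, h6⟩ := (h4 n).1
    simp [h2 m (h5.mono fun k _ => h3.1 _)] at h6
  refine ⟨p, ⟨le_rfl, fun _ => le_rfl, fun _ _ => rfl⟩, fun g y h3 h4 => ?_⟩
  obtain ⟨i, hi⟩ : ∃ i, di i = (c, p) := ⟨encode (c, p), Denumerable.ofNat_encode _⟩
  obtain ⟨b, hb⟩ := stable i
  have := ci_SS
  obtain ⟨f, f1, f2⟩ := CI.exists_choice (O := ∅) (p := fun n t : ℕ =>
    (pick (SS (b + n + t)) i n (b + n + t)).isSome) (by fun_prop) fun n => by
      obtain ⟨m, h5, h6⟩ : ∃ m, In (low (p.1, p.2 + n)) m ∧ (ax c n m).isSome = true := by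
        by_contra h5
        exact h2 ⟨n, fun m h6 => Bool.eq_false_iff.2 fun h7 => h5 ⟨m, h6, h7⟩⟩
      exact ⟨m + 1, List.find?_isSome.2 ⟨m, List.mem_range.2 (by omega), good_iff.2
        ⟨hi ▸ h6, fun k hk => ⟨(h5 k hk).1 _, hi ▸ (h5 k hk).2⟩⟩⟩⟩
  refine (show CI ∅ fun n => ((pick (SS (b + n + f n)) i n (b + n + f n)).bind
    fun m => ax c n m).getD 0 by fun_prop).of_eq fun n => ?_
  obtain ⟨m, hm⟩ := Option.isSome_iff_exists.1 (f2 n)
  have h5 : ∀ u, good (SS u) i n m = true := fun u => good_anti (Nat.le_add_left u _)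
    (pick_iff.1 (hb n _ m (by omega) (by omega) hm _ (Nat.le_add_right _ u))).1
  obtain ⟨v, hv⟩ := Option.isSome_iff_exists.1 (good_iff.1 (h5 0)).1
  obtain ⟨m', h6, h7⟩ := (h4 n).1
  obtain ⟨v', hv'⟩ := Option.isSome_iff_exists.1 h7
  rw [hi] at hv
  rw [hm, Option.bind_some, hv, Option.getD_some, ← (h4 n).2 m' v' h6 hv']
  by_contra h8
  exact h1 ⟨n, m, m', v, v', fun k hk => ⟨fun u => ((good_iff.1 (h5 u)).2 k hk).1,
    ((h0 n).1 _).trans_lt (by simpa only [hi, low] using ((good_iff.1 (h5 0)).2 k hk).2)⟩,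
    h6.mono fun k _ => h3.1 _, hv, hv', h8⟩

theorem exists_g : ∃ g, ∀ c y, Gr g c y → CI ∅ y := by
  obtain ⟨s, -, -, h1, h2⟩ := chain (P := List ℕ × ℕ) (ι := ℕ ⊕ ℕ)
    (fun q p => p.1.length ≤ q.1.length ∧ Ext p (low q))
    (fun _ => ⟨le_rfl, fun _ => le_rfl, fun _ _ => rfl⟩)
    (fun p q r h h' => ⟨h'.1.trans h.1, fun e => (h'.2.1 e).trans (h.2.1 e), fun e he =>
      (h.2.2 e (he.trans_le h'.1)).trans (h'.2.2 e he)⟩) (fun _ => True)
    (fun i q => i.elim (fun c => ∀ g y, Ext q g → Gr g c y → CI ∅ y) fun n => n < q.1.length)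
    (by
      rintro (c | n) p -
      · exact (dense c p).imp fun q hq => ⟨trivial, hq⟩
      · exact ⟨(p.1 ++ List.replicate (n + 1) p.2, p.2), trivial, ⟨by simp, by simp [low_pad, Ext]⟩,
          by simp; omega⟩) ([], 0) trivial
  choose N hN using fun n => h2 (.inr n)
  refine ⟨fun e => low (s (N e)) e, fun c y => ?_⟩
  obtain ⟨n, hn⟩ := h2 (.inl c)
  have : ∀ e, low (s (N e)) e = low (s (max n (N e))) e := fun e =>
    ((h1 _ _ (le_max_right n (N e))).2.2 e (hN e)).symm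
  exact hn _ y ⟨fun e => ((h1 _ _ (le_max_left n (N e))).2.1 e).trans (this e).ge,
    fun e he => (this e).trans ((h1 _ _ (le_max_left n (N e))).2.2 e he)⟩

theorem main : ∃ A, QuasiMin A ∧
    ∃ Φ : (ℕ → ℕ) → ℕ, Continuous Φ ∧ ¬ CompPt (assoc Φ) ∧ Red (assoc Φ) (enum A) := by
  classical
  obtain ⟨g, hg⟩ := exists_g
  refine ⟨AA g, ⟨not_ce g, fun y hy => ?_⟩, Ph, cont (al_assoc (g := g)
    (p := fun k => if k ∈ AA g then k + 1 else 0) (Set.ext fun k => ⟨fun h => ⟨k, if_pos h⟩,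
      fun ⟨n, hn⟩ => ?_⟩)), not_comp, red g⟩
  · obtain ⟨c, hc⟩ := gr_of_red hy
    exact ⟨y, rfl, (hg c y hc).computable⟩
  · beta_reduce at hn
    split_ifs at hn with h
    exact Nat.succ_injective hn ▸ h

end Pool.Agent.H37.Qm
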