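import Mathlib

set_option autoImplicit false

namespace Pool.Agent.H37.Ra

open Finset

/-- a temporal multigraph with marks: every edge sees `a` alternating marks of its two ends,
and at every time the living edges can be oriented with out-degree at most `w` -/
structure Sys (a w D : ℕ) where
  V : Type
  E : Type
  [fV : Fintype V]
  [fE : Fintype E]
  [dV : DecidableEq V]
  [dE : DecidableEq E]
  fst : E → V
  snd : E → V
  ne : ∀ e, fst e ≠ snd e
  s : E → ℕ
  t : E → ℕ
  st : ∀ e, s e ≤ t e
  X : Finset (V × ℕ)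
  pat : E → ℕ → ℕ
  mono : ∀ e i j, i < j → j < a → pat e i < pat e j
  lo : ∀ e i, i < a → s e ≤ pat e i
  hi : ∀ e i, i < a → pat e i ≤ t e
  mk' : ∀ e i, i < a → (if Even i then fst e else snd e, pat e i) ∈ X
  P : ∀ e e', snd e = snd e' → s e = s e' → e = e'
  ori : ∀ τ, ∃ o : E → V, (∀ e, o e = fst e ∨ o e = snd e) ∧
    ∀ v, (univ.filter fun e => s e ≤ τ ∧ τ ≤ t e ∧ o e = v).card ≤ w
  rat : D * Fintype.card V ≤ Fintype.card E
  xc : X.card ≤ a * Fintype.card V
  pos : 0 < Fintype.card E

def base (D : ℕ) : Sys 0 1 D where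
  V := Bool
  E := Fin (2 * D + 1)
  fst _ := true
  snd _ := false
  ne _ := by simp
  s e := e
  t e := e
  st _ := le_rfl
  X := ∅
  pat _ _ := 0
  mono _ _ _ _ h := by omega
  lo _ _ h := by omega
  hi _ _ h := by omega
  mk' _ _ h := by omega
  P _ _ _ h := Fin.ext h
  ori τ := ⟨fun _ => true, fun _ => Or.inl rfl, fun v => card_le_one.2 fun e he e' he' => by
    simp only [mem_filter] at he he'
    exact Fin.ext (by omega)⟩
  rat := by simp; omega
  xc := by simp
  pos := by simp

/-- value of a digit string -/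
def val {T g : ℕ} (z : Fin T → Fin g) : ℕ := ∑ r, (z r : ℕ) * g ^ (r : ℕ)

lemma val_succ {T g : ℕ} (z : Fin (T + 1) → Fin g) :
    val z = val (fun r : Fin T => z r.castSucc) + z (Fin.last T) * g ^ T := by
  simp [val, Fin.sum_univ_castSucc]

lemma val_lt {g : ℕ} : ∀ {T : ℕ} (z : Fin T → Fin g), val z < g ^ T
  | 0, z => by simp [val]
  | T + 1, z => by
    rw [val_succ, pow_succ]
    have h1 := val_lt (fun r : Fin T => z r.castSucc)
    have h2 : (z (Fin.last T) : ℕ) + 1 ≤ g := (z (Fin.last T)).2
    nlinarith [Nat.mul_le_mul_right (g ^ T) h2]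

lemma val_lex {g : ℕ} : ∀ {T : ℕ} (u w : Fin T → Fin g), val u ≤ val w → ∀ h : Fin T,
    (∀ r, h < r → u r = w r) → u h ≤ w h
  | 0, _, _, _, h, _ => h.elim0
  | T + 1, u, w, hv, h, ha => by
    rw [val_succ u, val_succ w] at hv
    induction h using Fin.lastCases with
    | last =>
      have h1 := val_lt (fun r : Fin T => w r.castSucc)
      by_contra hc
      have h2 : (w (Fin.last T) : ℕ) + 1 ≤ u (Fin.last T) := by
        have := not_le.1 hc; exact this
      nlinarith [Nat.mul_le_mul_right (g ^ T) h2]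
    | cast h =>
      rw [ha (Fin.last T) (Fin.castSucc_lt_last h)] at hv
      exact val_lex (fun r : Fin T => u r.castSucc) (fun r : Fin T => w r.castSucc) (by omega) h
        fun r hr => ha _ (Fin.castSucc_lt_castSucc_iff.2 hr)

lemma val_inj {T g : ℕ} {u w : Fin T → Fin g} (h : val u = val w) : u = w := by
  have : ∀ n : ℕ, ∀ r : Fin T, T - r ≤ n → u r = w r := by
    intro n
    induction n with
    | zero => intro r hr; have := r.2; omega
    | succ n ih =>
      intro r hr
      have a : ∀ q, r < q → u q = w q := fun q hq => ih q (by have : (r : ℕ) < q := hq; omega)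
      exact le_antisymm (val_lex u w h.le r a) (val_lex w u h.ge r fun q hq => (a q hq).symm)
  exact funext fun r => this _ r le_rfl

lemma val_mono {T g : ℕ} {u w : Fin T → Fin g} (h : ∀ r, u r ≤ w r) : val u ≤ val w :=
  sum_le_sum fun r _ => Nat.mul_le_mul_right _ (h r)

lemma val_surj {g : ℕ} (hg : 0 < g) : ∀ (T y : ℕ),
    val (fun r : Fin T => (⟨y / g ^ (r : ℕ) % g, Nat.mod_lt _ hg⟩ : Fin g)) = y % g ^ T
  | 0, y => by simp [val, Nat.mod_one]
  | T + 1, y => by
    rw [val_succ, Nat.mod_pow_succ]
    have := val_surj hg T y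
    simp only [Fin.val_castSucc, Fin.val_last]
    rw [this, mul_comm]

/-- last leaf of the node given by the digits above `R` -/
def top {T m : ℕ} (R : ℕ) (z : Fin T → Fin (m + 1)) : Fin T → Fin (m + 1) :=
  fun q => if (q : ℕ) ≤ R then Fin.last m else z q

lemma le_top {T m : ℕ} (R : ℕ) (z : Fin T → Fin (m + 1)) : val z ≤ val (top R z) :=
  val_mono fun r => by
    unfold top; split_ifs
    · exact Fin.le_last _
    · exact le_rfl

lemma top_mono {T m : ℕ} {R R' : ℕ} (h : R ≤ R') (z : Fin T → Fin (m + 1)) :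
    val (top R z) ≤ val (top R' z) :=
  val_mono fun r => by
    unfold top; split_ifs
    · exact le_rfl
    · omega
    · exact Fin.le_last _
    · exact le_rfl

lemma between {T m : ℕ} (R : ℕ) {x y : Fin T → Fin (m + 1)} (h1 : val x ≤ val y)
    (h2 : val y ≤ val (top R x)) : ∀ r : Fin T, R < r → y r = x r := by
  have : ∀ n : ℕ, ∀ r : Fin T, T - r ≤ n → R < r → y r = x r := by
    intro n
    induction n with
    | zero => intro r hr; have := r.2; omega
    | succ n ih =>
      intro r hr hR
      have a : ∀ q, r < q → y q = x q := fun q hq => by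
        have : (r : ℕ) < q := hq
        exact ih q (by omega) (by omega)
      have b := val_lex y (top R x) h2 r fun q hq => by
        have : (r : ℕ) < q := hq
        rw [a q hq, top, if_neg (by omega)]
      rw [top, if_neg (by omega)] at b
      exact le_antisymm b (val_lex x y h1 r fun q hq => (a q hq).symm)
  exact fun r => this _ r le_rfl

/-- highest digit where `z` and `y` differ -/
def hd {T g : ℕ} (y z : Fin T → Fin g) : ℕ := (univ.filter fun q => z q ≠ y q).sup fun q => (q : ℕ)

lemma le_hd {T g : ℕ} {y z : Fin T → Fin g} {q : Fin T} (h : z q ≠ y q) : (q : ℕ) ≤ hd y z :=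
  le_sup (f := fun q : Fin T => (q : ℕ)) (by simpa using h)

lemma hd_le {T g : ℕ} {y z : Fin T → Fin g} {R : ℕ} (h : ∀ q : Fin T, R < q → z q = y q) :
    hd y z ≤ R :=
  Finset.sup_le fun q hq => by
    by_contra hc
    exact (mem_filter.1 hq).2 (h q (not_le.1 hc))

lemma hd_congr {T g : ℕ} {y z z' : Fin T → Fin g} {R : ℕ} (h : ∀ q : Fin T, R < q → z q = z' q)
    (h' : R < hd y z) : hd y z' ≤ hd y z :=
  Finset.sup_le fun q hq => by
    by_cases hc : R < q
    · exact le_hd (by rw [h q hc]; exact (mem_filter.1 hq).2)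
    · show (q : ℕ) ≤ _
      omega

end Pool.Agent.H37.Ra
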