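import Pool.Agent.H37.Ra1

set_option autoImplicit false

namespace Pool.Agent.H37.Ra

open Finset

section
variable {a w D : ℕ} (S : Sys a w D)

instance : Fintype S.V := S.fV
instance : Fintype S.E := S.fE
instance : DecidableEq S.V := S.dV
instance : DecidableEq S.E := S.dE

/-- number of old times -/
def Sys.T : ℕ := (univ.sup S.t) + 1

lemma Sys.t_lt (e : S.E) : S.t e < S.T := Nat.lt_succ_of_le (le_sup (f := S.t) (mem_univ e))

/-- leaves -/
abbrev Sys.L : Type := Fin S.T → Fin (Fintype.card S.E + 1)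

def Sys.ρ (e : S.E) : Fin S.T := ⟨S.s e, (S.st e).trans_lt (S.t_lt e)⟩

noncomputable def Sys.k (e : S.E) : Fin (Fintype.card S.E + 1) := (Fintype.equivFin S.E e).succ

lemma Sys.k_ne (e : S.E) : S.k e ≠ 0 := Fin.succ_ne_zero _

lemma Sys.k_inj {e e' : S.E} (h : S.k e = S.k e') : e = e' :=
  (Fintype.equivFin S.E).injective (Fin.succ_injective _ h)

noncomputable def Sys.sh (e : S.E) (x : S.L) : S.L := Function.update x (S.ρ e) (x (S.ρ e) + S.k e)

lemma Sys.sh_self (e : S.E) (x : S.L) : S.sh e x (S.ρ e) = x (S.ρ e) + S.k e := by simp [Sys.sh]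

lemma Sys.sh_ne (e : S.E) (x : S.L) {q : Fin S.T} (h : q ≠ S.ρ e) : S.sh e x q = x q := by
  simp [Sys.sh, h]

lemma Sys.sh_gt (e : S.E) (x : S.L) {q : Fin S.T} (h : S.s e < q) : S.sh e x q = x q :=
  S.sh_ne e x fun h' => by rw [h'] at h; exact lt_irrefl _ h

lemma Sys.sh_inj (e : S.E) {x x' : S.L} (h : S.sh e x = S.sh e x') : x = x' := by
  funext q
  by_cases hq : q = S.ρ e
  · subst hq
    have := congrFun h (S.ρ e)
    rw [S.sh_self, S.sh_self] at this
    exact add_right_cancel this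
  · have := congrFun h q
    rwa [S.sh_ne e x hq, S.sh_ne e x' hq] at this

lemma Sys.sh_diff (e : S.E) (x : S.L) : S.sh e x (S.ρ e) ≠ x (S.ρ e) := by
  rw [S.sh_self]
  intro h
  exact S.k_ne e (by simpa using h)

lemma Sys.top_sh (e : S.E) (x : S.L) {r : ℕ} (h : S.s e ≤ r) : top r (S.sh e x) = top r x := by
  funext q
  unfold top
  split_ifs with hq
  · rfl
  · exact S.sh_gt e x (by omega)

def Sys.ct (x : S.L) : ℕ := val x * (S.T + 1)

def Sys.en (r : ℕ) (x : S.L) : ℕ := val (top r x) * (S.T + 1) + (r + 1)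

lemma Sys.ct_lt (r : ℕ) (x : S.L) : S.ct x < S.en r x := by
  have := Nat.mul_le_mul_right (S.T + 1) (le_top r x)
  unfold Sys.ct Sys.en; omega

lemma Sys.en_lt {r r' : ℕ} (h : r < r') (x : S.L) : S.en r x < S.en r' x := by
  have := Nat.mul_le_mul_right (S.T + 1) (top_mono h.le x)
  unfold Sys.en; omega

lemma Sys.en_le {r r' : ℕ} (h : r ≤ r') (x : S.L) : S.en r x ≤ S.en r' x := by
  have := Nat.mul_le_mul_right (S.T + 1) (top_mono h x)
  unfold Sys.en; omega

lemma Sys.en_sh (e : S.E) (x : S.L) {r : ℕ} (h : S.s e ≤ r) : S.en r (S.sh e x) = S.en r x := by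
  unfold Sys.en; rw [S.top_sh e x h]

/-- the leaf of a time -/
def Sys.leaf (τ : ℕ) : S.L := fun r =>
  ⟨τ / (S.T + 1) / (Fintype.card S.E + 1) ^ (r : ℕ) % (Fintype.card S.E + 1),
    Nat.mod_lt _ (Nat.succ_pos _)⟩

lemma Sys.alive {τ R : ℕ} {x : S.L} (hR : R < S.T) (h1 : S.ct x ≤ τ) (h2 : τ ≤ S.en R x) :
    ∀ r : Fin S.T, R < r → S.leaf τ r = x r := by
  have a1 : val x ≤ τ / (S.T + 1) := (Nat.le_div_iff_mul_le (Nat.succ_pos _)).2 h1
  have a2 : τ / (S.T + 1) ≤ val (top R x) := by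
    apply Nat.le_of_lt_succ
    rw [Nat.div_lt_iff_lt_mul (Nat.succ_pos _)]
    unfold Sys.en at h2
    rw [Nat.succ_mul]; simp only [Nat.succ_eq_add_one]; omega
  have a3 : val (S.leaf τ) = τ / (S.T + 1) := by
    have := val_surj (Nat.succ_pos (Fintype.card S.E)) S.T (τ / (S.T + 1))
    rw [Nat.mod_eq_of_lt (a2.trans_lt (val_lt _))] at this
    exact this
  exact between R (by omega) (by omega)

lemma Sys.ori' (τ : ℕ) : ∃ o : S.E × S.L → S.V × S.L,
    (∀ e, o e = (S.snd e.1, S.sh e.1 e.2) ∨ o e = (S.fst e.1, e.2)) ∧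
    ∀ v, (univ.filter fun e : S.E × S.L =>
      S.ct (S.sh e.1 e.2) ≤ τ ∧ τ ≤ S.en (S.t e.1) e.2 ∧ o e = v).card ≤ w + 2 := by
  classical
  choose o ho1 ho2 using S.ori
  set y := S.leaf τ with hy
  let c1 : S.E × S.L → Prop := fun e => S.s e.1 < hd y e.2
  let o' : S.E × S.L → S.V × S.L := fun e =>
    if c1 e then (if o (hd y e.2) e.1 = S.fst e.1 then (S.fst e.1, e.2)
      else (S.snd e.1, S.sh e.1 e.2))
    else if y (S.ρ e.1) = S.sh e.1 e.2 (S.ρ e.1) then (S.fst e.1, e.2)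
      else (S.snd e.1, S.sh e.1 e.2)
  refine ⟨o', fun e => ?_, fun v => ?_⟩
  · simp only [o']; split_ifs <;> simp
  have hsh : ∀ e : S.E × S.L, c1 e → hd y (S.sh e.1 e.2) = hd y e.2 := by
    intro e h
    have a1 : hd y (S.sh e.1 e.2) ≤ hd y e.2 :=
      hd_congr (fun q hq => (S.sh_gt e.1 e.2 hq).symm) h
    have a2 : S.s e.1 < hd y (S.sh e.1 e.2) := by
      by_contra hc
      have : hd y e.2 ≤ S.s e.1 := hd_le fun q hq => by
        by_contra hne
        have := le_hd (y := y) (z := S.sh e.1 e.2) (q := q) (by rwa [S.sh_gt e.1 e.2 hq])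
        omega
      exact absurd h (not_lt.2 this)
    exact le_antisymm a1 (hd_congr (fun q hq => S.sh_gt e.1 e.2 hq) a2)
  set A := univ.filter fun e : S.E × S.L =>
    S.ct (S.sh e.1 e.2) ≤ τ ∧ τ ≤ S.en (S.t e.1) e.2 ∧ o' e = v with hA
  have b1 : (A.filter c1).card ≤ w := by
    refine le_trans (card_le_card_of_injOn Prod.fst ?_ ?_) (ho2 (hd y v.2) v.1)
    · intro e he
      simp only [hA, coe_filter, mem_filter, mem_univ, true_and, Set.mem_setOf_eq] at he ⊢
      obtain ⟨⟨h1, h2, h3⟩, hc⟩ := he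
      rw [← S.en_sh e.1 e.2 (S.st e.1)] at h2
      have al := S.alive (S.t_lt e.1) h1 h2
      have hv : hd y v.2 = hd y e.2 ∧ o (hd y e.2) e.1 = v.1 := by
        simp only [o', if_pos hc] at h3
        split_ifs at h3 with h4
        · rw [← h3]; exact ⟨rfl, h4⟩
        · rw [← h3]; exact ⟨hsh e hc, (ho1 _ _).resolve_left h4⟩
      rw [hv.1]
      refine ⟨le_of_lt hc, ?_, hv.2⟩
      rw [← hsh e hc]
      exact hd_le fun q hq => (al q hq).symm
    · rintro ⟨e, x⟩ he ⟨e', x'⟩ he' (rfl : e = e')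
      simp only [hA, coe_filter, mem_filter, mem_univ, true_and, Set.mem_setOf_eq] at he he'
      obtain ⟨⟨-, -, h3⟩, hc⟩ := he
      obtain ⟨⟨-, -, h3'⟩, hc'⟩ := he'
      simp only [o', if_pos hc, if_pos hc'] at h3 h3'
      have hne := S.ne e
      rw [← h3'] at h3
      split_ifs at h3 <;> simp only [Prod.mk.injEq] at h3
      · rw [h3.2]
      · exact absurd h3.1 hne
      · exact absurd h3.1.symm hne
      · rw [S.sh_inj e h3.2]
  let c2 : S.E × S.L → Prop := fun e => y (S.ρ e.1) = S.sh e.1 e.2 (S.ρ e.1)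
  have b2 : (A.filter fun e => ¬ c1 e ∧ c2 e).card ≤ 1 := by
    have key : ∀ e ∈ A.filter fun e => ¬ c1 e ∧ c2 e, (S.fst e.1, e.2) = v ∧ hd y e.2 = S.s e.1 ∧
        y (S.ρ e.1) = e.2 (S.ρ e.1) + S.k e.1 := by
      intro e he
      simp only [hA, mem_filter, mem_univ, true_and] at he
      obtain ⟨⟨-, -, h3⟩, hc, hc2⟩ := he
      have hc2' : y (S.ρ e.1) = S.sh e.1 e.2 (S.ρ e.1) := hc2
      simp only [o', if_neg hc, if_pos hc2'] at h3
      refine ⟨h3, le_antisymm (not_lt.1 hc) ?_, by rw [hc2', S.sh_self]⟩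
      exact le_hd (q := S.ρ e.1) (by rw [hc2']; exact (S.sh_diff e.1 e.2).symm)
    refine card_le_one.2 ?_
    rintro ⟨e, x⟩ he ⟨e', x'⟩ he'
    obtain ⟨k1, k2, k3⟩ := key _ he
    obtain ⟨l1, l2, l3⟩ := key _ he'
    rw [← l1] at k1
    obtain ⟨-, rfl⟩ := Prod.mk.inj k1
    have : S.ρ e = S.ρ e' := Fin.ext (by simp only at k2 l2; show S.s e = S.s e'; omega)
    simp only at k3 l3
    rw [this, l3] at k3
    rw [S.k_inj (add_left_cancel k3)]
  have b3 : (A.filter fun e => ¬ c1 e ∧ ¬ c2 e).card ≤ 1 := by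
    have key : ∀ e ∈ A.filter fun e => ¬ c1 e ∧ ¬ c2 e, (S.snd e.1, S.sh e.1 e.2) = v ∧
        hd y (S.sh e.1 e.2) = S.s e.1 := by
      intro e he
      simp only [hA, mem_filter, mem_univ, true_and] at he
      obtain ⟨⟨-, -, h3⟩, hc, hc2⟩ := he
      have hc2' : ¬ y (S.ρ e.1) = S.sh e.1 e.2 (S.ρ e.1) := hc2
      simp only [o', if_neg hc, if_neg hc2'] at h3
      refine ⟨h3, le_antisymm (hd_le fun q hq => ?_) ?_⟩
      · rw [S.sh_gt e.1 e.2 hq]
        by_contra hne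
        have := le_hd hne
        exact hc (lt_of_lt_of_le hq this)
      · exact le_hd (q := S.ρ e.1) (Ne.symm hc2')
    refine card_le_one.2 ?_
    rintro ⟨e, x⟩ he ⟨e', x'⟩ he'
    obtain ⟨k1, k2⟩ := key _ he
    obtain ⟨l1, l2⟩ := key _ he'
    rw [← l1] at k1
    obtain ⟨m1, m2⟩ := Prod.mk.inj k1
    simp only at m1 m2 k2 l2
    rw [m2] at k2
    obtain rfl := S.P e e' m1 (by omega)
    rw [S.sh_inj e m2]
  have : A ⊆ (A.filter c1 ∪ A.filter fun e => ¬ c1 e ∧ c2 e) ∪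
      A.filter fun e => ¬ c1 e ∧ ¬ c2 e := by
    intro e he
    simp only [mem_union, mem_filter]
    tauto
  refine (card_le_card this).trans ((card_union_le _ _).trans ?_)
  have := card_union_le (A.filter c1) (A.filter fun e => ¬ c1 e ∧ c2 e)
  omega

/-- the lifted system -/
noncomputable def Sys.lift : Sys (a + 1) (w + 2) D where
  V := S.V × S.L
  E := S.E × S.L
  fst e := (S.snd e.1, S.sh e.1 e.2)
  snd e := (S.fst e.1, e.2)
  ne e h := S.ne e.1 (Prod.mk.inj h).1.symm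
  s e := S.ct (S.sh e.1 e.2)
  t e := S.en (S.t e.1) e.2
  st e := by rw [← S.en_sh e.1 e.2 (S.st e.1)]; exact (S.ct_lt _ _).le
  X := (univ.image fun v : S.V × S.L => (v, S.ct v.2)) ∪
    (S.X ×ˢ (univ : Finset S.L)).image fun p => ((p.1.1, p.2), S.en p.1.2 p.2)
  pat e i := if i = 0 then S.ct (S.sh e.1 e.2) else S.en (S.pat e.1 (i - 1)) e.2
  mono e i j hij hj := by
    rw [if_neg (show j ≠ 0 by omega)]
    split_ifs with h
    · rw [← S.en_sh e.1 e.2 (S.lo e.1 _ (by omega))]; exact S.ct_lt _ _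
    · exact S.en_lt (S.mono e.1 _ _ (by omega) (by omega)) _
  lo e i hi := by
    split_ifs with h
    · exact le_rfl
    · rw [← S.en_sh e.1 e.2 (S.lo e.1 _ (by omega))]; exact (S.ct_lt _ _).le
  hi e i hi := by
    split_ifs with h
    · rw [← S.en_sh e.1 e.2 (S.st e.1)]; exact (S.ct_lt _ _).le
    · exact S.en_le (S.hi e.1 _ (by omega)) _
  mk' e i hi := by
    cases i with
    | zero =>
      exact mem_union_left _ (mem_image.2 ⟨(S.snd e.1, S.sh e.1 e.2), mem_univ _, by simp⟩)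
    | succ i =>
      refine mem_union_right _ (mem_image.2 ?_)
      have := S.mk' e.1 i (by omega)
      by_cases h : Even i
      · rw [if_pos h] at this
        refine ⟨(_, e.2), mem_product.2 ⟨this, mem_univ _⟩, ?_⟩
        simp [Nat.even_add_one, h]
      · rw [if_neg h] at this
        refine ⟨(_, S.sh e.1 e.2), mem_product.2 ⟨this, mem_univ _⟩, ?_⟩
        simp [Nat.even_add_one, h, S.en_sh e.1 e.2 (S.lo e.1 i (by omega))]
  P := by
    rintro ⟨e, x⟩ ⟨e', x'⟩ h1 h2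
    obtain ⟨-, rfl⟩ := Prod.mk.inj h1
    have h3 : S.sh e x = S.sh e' x :=
      val_inj (Nat.eq_of_mul_eq_mul_right (Nat.succ_pos _) h2)
    have h4 : S.ρ e = S.ρ e' := by
      by_contra hc
      exact S.sh_diff e x (by rw [h3, S.sh_ne e' x hc])
    have h5 := congrFun h3 (S.ρ e)
    rw [S.sh_self, h4, S.sh_self] at h5
    rw [S.k_inj (add_left_cancel h5)]
  ori τ := S.ori' τ
  rat := by
    simp only [Fintype.card_prod, ← mul_assoc]
    exact Nat.mul_le_mul_right _ S.rat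
  xc := by
    refine (card_union_le _ _).trans ((add_le_add card_image_le card_image_le).trans ?_)
    have := Nat.mul_le_mul_right (Fintype.card S.L) S.xc
    simp only [card_univ, card_product, Fintype.card_prod] at this ⊢
    nlinarith
  pos := by
    rw [Fintype.card_prod]
    exact Nat.mul_pos S.pos Fintype.card_pos

end

theorem exists_sys (D : ℕ) : ∀ a, Nonempty (Sys a (2 * a + 1) D)
  | 0 => ⟨base D⟩
  | a + 1 => (exists_sys D a).elim fun S => ⟨S.lift⟩

end Pool.Agent.H37.Ra
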