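import Mathlib

set_option autoImplicit false

namespace Pool.Agent.H37.Ra

open Finset

/-- `N` unit tasks on `n` machines: eligible sets, arrival times and departure times -/
structure Inst (n N : ℕ) where
  M : Fin N → Finset (Fin n)
  arr : Fin N → ℕ
  dep : Fin N → ℕ

variable {n N : ℕ}

/-- eligible sets are nonempty, each task arrives before it departs, and the `2 * N` events
happen at distinct times -/
def Inst.Valid (I : Inst n N) : Prop :=
  (∀ j, (I.M j).Nonempty) ∧ (∀ j, I.arr j < I.dep j) ∧ Function.Injective I.arr ∧
    Function.Injective I.dep ∧ ∀ j j', I.arr j ≠ I.dep j'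

/-- tasks active at time `t` -/
def Inst.act (I : Inst n N) (t : ℕ) : Finset (Fin N) :=
  univ.filter fun j => I.arr j ≤ t ∧ t < I.dep j

/-- every task active at time `t` is on an eligible machine -/
def Inst.Elig (I : Inst n N) (t : ℕ) (a : Fin N → Fin n) : Prop := ∀ j ∈ I.act t, a j ∈ I.M j

/-- load of machine `i` at time `t` under the assignment `a` -/
def Inst.load (I : Inst n N) (t : ℕ) (a : Fin N → Fin n) (i : Fin n) : ℕ :=
  ((I.act t).filter fun j => a j = i).card

/-- the benchmark: least `L` such that at each time some assignment has all loads at most `L` -/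
noncomputable def Inst.OPT (I : Inst n N) : ℕ :=
  sInf {L | ∀ t, ∃ a, I.Elig t a ∧ ∀ i, I.load t a i ≤ L}

/-- number of pairs (task, time `t`) with the task active at `t` and `t + 1` on different
machines -/
def Inst.moves (I : Inst n N) (A : ℕ → Fin N → Fin n) : ℕ :=
  ∑ j, ((range (I.dep j)).filter fun t =>
    j ∈ I.act t ∧ j ∈ I.act (t + 1) ∧ A t j ≠ A (t + 1) j).card

end Pool.Agent.H37.Ra
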