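import Pool.Agent.H37.Ra2
import Pool.Agent.H37.RaDefs

set_option autoImplicit false

namespace Pool.Agent.H37.Ra

open Finset

lemma exists_change {α : Type} (f : ℕ → α) {u v : ℕ} (h : u ≤ v) (hne : f u ≠ f v) :
    ∃ t, u ≤ t ∧ t < v ∧ f t ≠ f (t + 1) := by
  induction v, h using Nat.le_induction with
  | base => exact absurd rfl hne
  | succ v hv ih =>
    by_cases h' : f u = f v
    · exact ⟨v, hv, Nat.lt_succ_self _, h' ▸ hne⟩
    · obtain ⟨t, a, b, c⟩ := ih h'
      exact ⟨t, a, by omega, c⟩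

section
variable {a w D : ℕ} (S : Sys a w D)

noncomputable def Sys.vi (v : S.V) : Fin (Fintype.card S.V) := Fintype.equivFin S.V v

noncomputable def Sys.ei (j : Fin (Fintype.card S.E)) : S.E := (Fintype.equivFin S.E).symm j

noncomputable def Sys.inst : Inst (Fintype.card S.V) (Fintype.card S.E) where
  M j := {S.vi (S.fst (S.ei j)), S.vi (S.snd (S.ei j))}
  arr j := S.s (S.ei j) * (2 * Fintype.card S.E + 1) + j
  dep j := S.t (S.ei j) * (2 * Fintype.card S.E + 1) + (Fintype.card S.E + 1 + j)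

lemma Sys.vi_inj {v v' : S.V} (h : S.vi v = S.vi v') : v = v' := (Fintype.equivFin S.V).injective h

lemma res_eq {M p q r s : ℕ} (hr : r < M) (hs : s < M) (h : p * M + r = q * M + s) : r = s := by
  have := congrArg (· % M) h
  simpa [Nat.mul_add_mod', Nat.mod_eq_of_lt hr, Nat.mod_eq_of_lt hs] using this

lemma Sys.valid : S.inst.Valid := by
  refine ⟨fun j => by simp [Sys.inst], fun j => ?_, fun j j' h => ?_, fun j j' h => ?_,
    fun j j' h => ?_⟩
  · have := Nat.mul_le_mul_right (2 * Fintype.card S.E + 1) (S.st (S.ei j))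
    simp only [Sys.inst]; omega
  · have := j.2; have := j'.2
    exact Fin.ext (res_eq (by omega) (by omega) h)
  · have := j.2; have := j'.2
    have := res_eq (by omega) (by omega) h
    exact Fin.ext (by omega)
  · have := j.2; have := j'.2
    have := res_eq (by omega) (by omega) h
    omega

lemma Sys.card_M (j : Fin (Fintype.card S.E)) : (S.inst.M j).card = 2 :=
  card_pair fun h => S.ne _ (S.vi_inj h)

lemma Sys.opt_mem (t : ℕ) : ∃ b, S.inst.Elig t b ∧ ∀ i, S.inst.load t b i ≤ w := by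
  obtain ⟨o, h1, h2⟩ := S.ori (t / (2 * Fintype.card S.E + 1))
  refine ⟨fun j => S.vi (o (S.ei j)), fun j _ => ?_, fun i => ?_⟩
  · rcases h1 (S.ei j) with h | h <;> simp [Sys.inst, h]
  · refine le_trans (card_le_card_of_injOn S.ei ?_ (Fintype.equivFin S.E).symm.injective.injOn)
      (h2 ((Fintype.equivFin S.V).symm i))
    intro j hj
    simp only [Inst.act, Sys.inst, coe_filter, mem_filter, mem_univ, true_and,
      Set.mem_setOf_eq] at hj ⊢
    obtain ⟨⟨a1, a2⟩, a3⟩ := hj
    have := j.2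
    refine ⟨(Nat.le_div_iff_mul_le (Nat.succ_pos _)).2 (by simp only [Nat.succ_eq_add_one]; omega),
      Nat.le_of_lt_succ ?_, by rw [← a3]; simp [Sys.vi]⟩
    rw [Nat.div_lt_iff_lt_mul (Nat.succ_pos _), Nat.succ_mul]
    simp only [Nat.succ_eq_add_one]; omega

/-- real time of a mark -/
def Sys.tm (τ : ℕ) : ℕ := τ * (2 * Fintype.card S.E + 1) + Fintype.card S.E

lemma Sys.tm_act (j : Fin (Fintype.card S.E)) {τ : ℕ} (h1 : S.s (S.ei j) ≤ τ)
    (h2 : τ ≤ S.t (S.ei j)) : S.inst.arr j ≤ S.tm τ ∧ S.tm τ < S.inst.dep j := by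
  have := Nat.mul_le_mul_right (2 * Fintype.card S.E + 1) h1
  have := Nat.mul_le_mul_right (2 * Fintype.card S.E + 1) h2
  have := j.2
  simp only [Sys.inst, Sys.tm]; omega

lemma Sys.tm_mono {τ τ' : ℕ} (h : τ ≤ τ') : S.tm τ ≤ S.tm τ' := by
  have := Nat.mul_le_mul_right (2 * Fintype.card S.E + 1) h
  simp only [Sys.tm]; omega

lemma Sys.task (A : ℕ → Fin (Fintype.card S.E) → Fin (Fintype.card S.V))
    (hA : ∀ t, S.inst.Elig t (A t)) (j : Fin (Fintype.card S.E)) :
    a ≤ 1 + ((range (S.inst.dep j)).filter fun t =>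
      j ∈ S.inst.act t ∧ j ∈ S.inst.act (t + 1) ∧ A t j ≠ A (t + 1) j).card +
      2 * (S.X.filter fun x => j ∈ S.inst.act (S.tm x.2) ∧ A (S.tm x.2) j = S.vi x.1).card := by
  classical
  set e := S.ei j with he
  let u : ℕ → ℕ := fun i => S.tm (S.pat e i)
  let m : ℕ → S.V := fun i => if Even i then S.fst e else S.snd e
  have act : ∀ i, i < a → S.inst.arr j ≤ u i ∧ u i < S.inst.dep j :=
    fun i hi => S.tm_act j (S.lo e i hi) (S.hi e i hi)
  have act' : ∀ t, S.inst.arr j ≤ t ∧ t < S.inst.dep j → j ∈ S.inst.act t :=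
    fun t h => mem_filter.2 ⟨mem_univ _, h⟩
  have um : ∀ i i', i ≤ i' → i' < a → u i ≤ u i' := by
    intro i i' h h'
    rcases h.eq_or_lt with rfl | h
    · exact le_rfl
    · exact S.tm_mono (S.mono e i i' h h').le
  set H := (range a).filter fun i => A (u i) j = S.vi (m i) with hH
  set Ch := (range (a - 1)).filter fun i => A (u i) j ≠ A (u (i + 1)) j with hCh
  have h1 : H.card ≤ (S.X.filter fun x => j ∈ S.inst.act (S.tm x.2) ∧
      A (S.tm x.2) j = S.vi x.1).card := by
    refine card_le_card_of_injOn (fun i => (m i, S.pat e i)) ?_ ?_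
    · intro i hi
      simp only [hH, coe_filter, mem_range, Set.mem_setOf_eq] at hi ⊢
      exact ⟨S.mk' e i hi.1, act' _ (act i hi.1), hi.2⟩
    · intro i hi i' hi' h
      simp only [hH, coe_filter, mem_range, Set.mem_setOf_eq] at hi hi'
      have h := (Prod.mk.inj h).2
      rcases lt_trichotomy i i' with c | c | c
      · exact absurd h (S.mono e i i' c hi'.1).ne
      · exact c
      · exact absurd h (S.mono e i' i c hi.1).ne'
  have h2 : Ch.card ≤ ((range (S.inst.dep j)).filter fun t =>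
      j ∈ S.inst.act t ∧ j ∈ S.inst.act (t + 1) ∧ A t j ≠ A (t + 1) j).card := by
    have : ∀ i, i ∈ Ch → ∃ t, u i ≤ t ∧ t < u (i + 1) ∧ A t j ≠ A (t + 1) j := by
      intro i hi
      simp only [hCh, mem_filter, mem_range] at hi
      exact exists_change (fun t => A t j) (um i (i + 1) (by omega) (by omega)) hi.2
    choose! f hf using this
    refine card_le_card_of_injOn f ?_ ?_
    · intro i hi
      obtain ⟨b1, b2, b3⟩ := hf i hi
      simp only [hCh, coe_filter, mem_range, Set.mem_setOf_eq] at hi ⊢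
      have := act i (by omega)
      have := act (i + 1) (by omega)
      exact ⟨by omega, act' _ (by omega), act' _ (by omega), b3⟩
    · intro i hi i' hi' h
      obtain ⟨b1, b2, -⟩ := hf i hi
      obtain ⟨c1, c2, -⟩ := hf i' hi'
      simp only [hCh, coe_filter, mem_range, Set.mem_setOf_eq] at hi hi'
      rcases lt_trichotomy i i' with c | c | c
      · have := um (i + 1) i' c (by omega); omega
      · exact c
      · have := um (i' + 1) i c (by omega); omega
  have h3 : range (a - 1) ⊆ (Ch ∪ H) ∪ H.image fun i => i - 1 := by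
    intro i hi
    have hi' := mem_range.1 hi
    simp only [hCh, hH, mem_union, mem_filter, mem_range, mem_image]
    by_contra hc
    push Not at hc
    obtain ⟨⟨c1, c2⟩, c3⟩ := hc
    have c4 := fun h => c3 (i + 1) ⟨by omega, h⟩ rfl
    have c5 := hA _ j (act' _ (act i (by omega)))
    rw [← c1 hi'] at c4
    have c6 := c2 (by omega)
    simp only [Sys.inst, mem_insert, mem_singleton, ← he] at c5
    simp only [m, Nat.even_add_one] at c4 c6
    by_cases h : Even i
    · simp only [h, if_true, not_true, if_false] at c4 c6; tauto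
    · simp only [h, if_true, not_false_iff, if_false] at c4 c6; tauto
  have h4 := card_le_card h3
  have h5 := card_union_le (Ch ∪ H) (H.image fun i => i - 1)
  have h6 := card_union_le Ch H
  have h7 : (H.image fun i => i - 1).card ≤ H.card := card_image_le
  rw [card_range] at h4
  omega

lemma Sys.total (A : ℕ → Fin (Fintype.card S.E) → Fin (Fintype.card S.V))
    (hA : ∀ t, S.inst.Elig t (A t)) {L : ℕ} (hL : ∀ t i, S.inst.load t (A t) i ≤ L) :
    a * Fintype.card S.E ≤ Fintype.card S.E + S.inst.moves A + 2 * (S.X.card * L) := by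
  classical
  have h1 := sum_le_sum fun j (_ : j ∈ univ) => S.task A hA j
  have h2 : ∑ j, (S.X.filter fun x => j ∈ S.inst.act (S.tm x.2) ∧
      A (S.tm x.2) j = S.vi x.1).card ≤ S.X.card * L := by
    simp only [card_filter]
    rw [sum_comm, ← smul_eq_mul]
    refine sum_le_card_nsmul _ _ _ fun x _ => le_trans (le_of_eq ?_) (hL (S.tm x.2) (S.vi x.1))
    rw [← card_filter, Inst.load]
    congr 1; ext j; simp
  simp only [sum_add_distrib, ← mul_sum, sum_const, card_univ, Fintype.card_fin, smul_eq_mul,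
    mul_one] at h1
  unfold Inst.moves
  nlinarith

end

theorem main (c C : ℝ) : ∃ (n N : ℕ) (I : Inst n N), I.Valid ∧ (∀ j, (I.M j).card = 2) ∧
    (∃ L, ∀ t, ∃ a, I.Elig t a ∧ ∀ i, I.load t a i ≤ L) ∧
    ∀ A : ℕ → Fin N → Fin n, (∀ t, I.Elig t (A t)) →
      (∀ t i, (I.load t (A t) i : ℝ) ≤ c * I.OPT) → C * (2 * N) < I.moves A := by
  set a := 2 * ⌈C⌉₊ + 3 with ha
  set L := ⌈c⌉₊ * (2 * a + 1) with hL
  obtain ⟨S⟩ := exists_sys (2 * L * a) a
  refine ⟨_, _, S.inst, S.valid, S.card_M, ⟨_, S.opt_mem⟩, fun A hA hl => ?_⟩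
  have o1 : S.inst.OPT ≤ 2 * a + 1 := Nat.sInf_le S.opt_mem
  have h1 := S.total A hA (L := L) fun t i => by
    have : (S.inst.load t (A t) i : ℝ) ≤ ((⌈c⌉₊ * S.inst.OPT : ℕ) : ℝ) := by
      push_cast
      exact (hl t i).trans (mul_le_mul_of_nonneg_right (Nat.le_ceil c) (Nat.cast_nonneg _))
    exact (Nat.cast_le.1 this).trans (Nat.mul_le_mul_left _ o1)
  have h2 := S.rat
  have h3 := Nat.mul_le_mul_right L S.xc
  have h4 := S.pos
  have h5 : ⌈C⌉₊ * (2 * Fintype.card S.E) < S.inst.moves A := by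
    have : a * Fintype.card S.E = ⌈C⌉₊ * (2 * Fintype.card S.E) + 3 * Fintype.card S.E := by
      generalize Fintype.card S.E = q
      rw [ha]; ring
    nlinarith
  calc C * (2 * (Fintype.card S.E : ℝ)) ≤ ⌈C⌉₊ * (2 * (Fintype.card S.E : ℝ)) :=
        mul_le_mul_of_nonneg_right (Nat.le_ceil C) (by positivity)
    _ < _ := by exact_mod_cast h5

end Pool.Agent.H37.Ra
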