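import Pool.Agent.H37.RE

/-!
A three-generator group of permutations with finite orbits and co-c.e. word problem that has no
faithful computable action on `ℕ`.
-/

set_option autoImplicit false

namespace Pool.Agent.H37.ResFin

open Pool.Agent.H37

/-- the `e`-th program has shown a point of exact period three -/
def W (e s : ℕ) : Bool :=
  (List.range s).any fun n => ((ev e (Nat.pair e n) s).bind fun n1 =>
    (ev e (Nat.pair e n1) s).bind fun n2 => (ev e (Nat.pair e n2) s).map fun n3 =>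
      (n1 != n && n3 == n)).getD false

theorem W_iff {e s : ℕ} : W e s = true ↔ ∃ n < s, ∃ n1 n2, ev e (Nat.pair e n) s = some n1 ∧
    ev e (Nat.pair e n1) s = some n2 ∧ ev e (Nat.pair e n2) s = some n ∧ n1 ≠ n := by
  unfold W
  simp only [List.any_eq_true, List.mem_range]
  refine exists_congr fun n => and_congr_right fun _ => ?_
  cases h1 : ev e (Nat.pair e n) s with
  | none => simp
  | some n1 =>
    cases h2 : ev e (Nat.pair e n1) s with
    | none => simp [h2]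
    | some n2 =>
      cases h3 : ev e (Nat.pair e n2) s with
      | none => simp [h2, h3]
      | some n3 => simp [h2, h3, and_comm]

theorem W_mono {e s t : ℕ} (h : s ≤ t) (hW : W e s = true) : W e t = true := by
  obtain ⟨n, hn, n1, n2, h1, h2, h3, h4⟩ := W_iff.1 hW
  exact W_iff.2 ⟨n, by omega, n1, n2, ev_mono h h1, ev_mono h h2, ev_mono h h3, h4⟩

@[fun_prop] theorem ci_W {α : Type} [Primcodable α] {e s : α → ℕ} (he : CI ∅ e) (hs : CI ∅ s) :
    CI ∅ fun a => W (e a) (s a) := by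
  unfold W; fun_prop

open Classical in
noncomputable def m (j : ℕ) : ℕ := if h : ∃ s, W j s = true then 3 * Nat.find h + 4 else 3

def N (j : ℕ) : ℕ := 2 ^ (j + 1)

theorem m_ge (j : ℕ) : 3 ≤ m j := by unfold m; split_ifs <;> omega
instance (j : ℕ) : NeZero (m j) := ⟨by have := m_ge j; omega⟩
instance (j : ℕ) : NeZero (N j) := ⟨by unfold N; positivity⟩

def NC (j A B s : ℕ) : Bool :=
  (A % 3 != B % 3 && !W j (A + B)) ||
    (W j s && (List.range s).all (fun r => !W j r) && A % (3 * s + 4) != B % (3 * s + 4))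

theorem NC_iff (j A B : ℕ) : A % m j ≠ B % m j ↔ ∃ s, NC j A B s = true := by
  unfold NC m
  simp only [Bool.or_eq_true, Bool.and_eq_true, bne_iff_ne, ne_eq, Bool.not_eq_true',
    List.all_eq_true, List.mem_range]
  split_ifs with h
  · constructor
    · intro H
      exact ⟨Nat.find h, Or.inr ⟨⟨Nat.find_spec h, fun r hr => by
        simpa using Nat.find_min h hr⟩, H⟩⟩
    · rintro ⟨s, ⟨h1, h2⟩ | ⟨⟨h1, h2⟩, h3⟩⟩
      · have : A + B < Nat.find h := by
          by_contra hc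
          have := W_mono (not_lt.1 hc) (Nat.find_spec h)
          simp [h2] at this
        rw [Nat.mod_eq_of_lt (by omega), Nat.mod_eq_of_lt (by omega)]
        rintro rfl; exact h1 rfl
      · have : Nat.find h = s := (Nat.find_eq_iff h).2 ⟨h1, fun r hr => by simp [h2 r hr]⟩
        rwa [this]
  · push Not at h
    constructor
    · intro H
      exact ⟨0, Or.inl ⟨H, by simpa using h _⟩⟩
    · rintro ⟨s, ⟨h1, -⟩ | ⟨⟨h1, -⟩, -⟩⟩
      · exact h1
      · exact absurd h1 (h s)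

abbrev Y (j : ℕ) := ZMod (N j) × ZMod (m j)

noncomputable def ga (j : ℕ) : Equiv.Perm (Y j) :=
  Equiv.prodCongrRight fun i => if i = 0 then Equiv.neg _ else Equiv.refl _
noncomputable def gb (j : ℕ) : Equiv.Perm (Y j) :=
  Equiv.prodCongrRight fun i => if i = ((2 ^ j : ℕ) : ZMod (N j)) then Equiv.addRight 1
    else Equiv.refl _
noncomputable def gt (j : ℕ) : Equiv.Perm (Y j) := Equiv.prodCongr (Equiv.addRight 1) (Equiv.refl _)

theorem ga_apply (j : ℕ) (p : Y j) : ga j p = (p.1, if p.1 = 0 then -p.2 else p.2) := by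
  obtain ⟨i, y⟩ := p
  by_cases h : i = 0 <;> simp [ga, Equiv.prodCongrRight, h]
theorem ga_inv (j : ℕ) (p : Y j) : (ga j)⁻¹ p = (p.1, if p.1 = 0 then -p.2 else p.2) := by
  rw [Equiv.Perm.inv_eq_iff_eq, ga_apply]
  obtain ⟨i, y⟩ := p
  by_cases h : i = 0 <;> simp [h]
theorem gb_apply (j : ℕ) (p : Y j) :
    gb j p = (p.1, if p.1 = ((2 ^ j : ℕ) : ZMod (N j)) then p.2 + 1 else p.2) := by
  obtain ⟨i, y⟩ := p
  simp only [gb, Equiv.prodCongrRight_apply]
  split_ifs <;> simp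
theorem gb_inv (j : ℕ) (p : Y j) :
    (gb j)⁻¹ p = (p.1, if p.1 = ((2 ^ j : ℕ) : ZMod (N j)) then p.2 - 1 else p.2) := by
  rw [Equiv.Perm.inv_eq_iff_eq, gb_apply]
  obtain ⟨i, y⟩ := p
  by_cases h : i = ((2 ^ j : ℕ) : ZMod (N j)) <;> simp only [h] <;> simp
theorem gt_apply (j : ℕ) (p : Y j) : gt j p = (p.1 + 1, p.2) := rfl
theorem gt_inv (j : ℕ) (p : Y j) : (gt j)⁻¹ p = (p.1 - 1, p.2) := by
  rw [Equiv.Perm.inv_eq_iff_eq, gt_apply]; simp
theorem gt_pow (j k : ℕ) (p : Y j) : (gt j ^ k) p = (p.1 + k, p.2) := by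
  induction k with
  | zero => simp
  | succ k ih => rw [pow_succ', Equiv.Perm.mul_apply, ih, gt_apply]; simp [add_assoc]
theorem gt_inv_pow (j k : ℕ) (p : Y j) : ((gt j)⁻¹ ^ k) p = (p.1 - k, p.2) := by
  rw [inv_pow, Equiv.Perm.inv_eq_iff_eq, gt_pow]; simp

abbrev P := ∀ j, Equiv.Perm (Y j)

noncomputable def gen : Fin 3 → P := ![ga, gb, gt]

noncomputable def π0 : FreeGroup (Fin 3) →* P := FreeGroup.lift gen

def sim (j : ℕ) (x : Fin 3 × Bool) (s : ℕ × ℕ × ℕ) : ℕ × ℕ × ℕ :=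
  if x.1.val = 0 then (if s.1 % N j = 0 then (s.1, s.2.2, s.2.1) else s)
  else if x.1.val = 1 then
    (if s.1 % N j = 2 ^ j % N j then
      cond x.2 (s.1, s.2.1 + 1, s.2.2) (s.1, s.2.1, s.2.2 + 1) else s)
  else cond x.2 (s.1 + 1, s.2) (s.1 + (N j - 1), s.2)

noncomputable def cst (j : ℕ) (s : ℕ × ℕ × ℕ) : Y j := ((s.1 : ZMod (N j)), (s.2.1 : ZMod (m j)) - s.2.2)

theorem cst_surj (j : ℕ) (p : Y j) : ∃ s, cst j s = p :=
  ⟨(p.1.val, p.2.val, 0), by simp [cst]⟩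

theorem sim_spec (j : ℕ) (x : Fin 3 × Bool) (s : ℕ × ℕ × ℕ) :
    (cond x.2 (gen x.1) (gen x.1)⁻¹ : P) j (cst j s) = cst j (sim j x s) := by
  obtain ⟨g, b⟩ := x
  obtain ⟨i, u, v⟩ := s
  have h0 : ((i : ZMod (N j)) = 0) ↔ i % N j = 0 := by
    rw [ZMod.natCast_eq_zero_iff, Nat.dvd_iff_mod_eq_zero]
  have h1 : ((i : ZMod (N j)) = ((2 ^ j : ℕ) : ZMod (N j))) ↔ i % N j = 2 ^ j % N j :=
    ZMod.natCast_eq_natCast_iff' _ _ _
  have h2 : ((N j - 1 : ℕ) : ZMod (N j)) = -1 := by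
    rw [Nat.cast_sub (NeZero.one_le)]; simp
  fin_cases g <;> cases b
  · change (ga j)⁻¹ _ = _
    rw [ga_inv]; simp only [cst, sim, h0]; split_ifs <;> simp_all
  · change ga j _ = _
    rw [ga_apply]; simp only [cst, sim, h0]; split_ifs <;> simp_all
  · change (gb j)⁻¹ _ = _
    rw [gb_inv]; simp only [cst, sim, h1]; split_ifs <;> simp_all [sub_sub]
  · change gb j _ = _
    rw [gb_apply]; simp only [cst, sim, h1]; split_ifs <;> simp_all [add_sub_right_comm]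
  · change (gt j)⁻¹ _ = _
    rw [gt_inv]; simp [cst, sim, h2, sub_eq_add_neg]
  · change gt j _ = _
    rw [gt_apply]; simp [cst, sim]

theorem word_spec (j : ℕ) (w : List (Fin 3 × Bool)) (s : ℕ × ℕ × ℕ) :
    π0 (FreeGroup.mk w) j (cst j s) = cst j (w.foldr (sim j) s) := by
  rw [π0, FreeGroup.lift_mk]
  induction w with
  | nil => simp
  | cons x w ih =>
    rw [List.map_cons, List.prod_cons, Pi.mul_apply, Equiv.Perm.mul_apply, ih, List.foldr_cons,
      ← sim_spec]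

theorem cst_ne (j : ℕ) (s s' : ℕ × ℕ × ℕ) : cst j s' ≠ cst j s ↔
    s'.1 % N j ≠ s.1 % N j ∨ (s'.2.1 + s.2.2) % m j ≠ (s.2.1 + s'.2.2) % m j := by
  rw [← not_iff_not]
  simp only [cst, ne_eq, Prod.mk.injEq, not_not, not_or, ← ZMod.natCast_eq_natCast_iff',
    Nat.cast_add, sub_eq_sub_iff_add_eq_add]

def D (w : List (Fin 3 × Bool)) (q : ℕ × (ℕ × ℕ × ℕ) × ℕ) : Bool :=
  ((w.foldr (sim q.1) q.2.1).1 % N q.1 != q.2.1.1 % N q.1) ||
    NC q.1 ((w.foldr (sim q.1) q.2.1).2.1 + q.2.1.2.2) (q.2.1.2.1 + (w.foldr (sim q.1) q.2.1).2.2)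
      q.2.2

theorem ci_sim : CI ∅ fun p : ℕ × (Fin 3 × Bool) × (ℕ × ℕ × ℕ) => sim p.1 p.2.1 p.2.2 := by
  unfold sim N; fun_prop

theorem ci_D : CI ∅ fun p : List (Fin 3 × Bool) × (ℕ × (ℕ × ℕ × ℕ) × ℕ) => D p.1 p.2 := by
  have h : CI ∅ fun p : List (Fin 3 × Bool) × (ℕ × (ℕ × ℕ × ℕ) × ℕ) =>
      p.1.foldr (sim p.2.1) p.2.2.1 :=
    CI.foldr (ci_sim.comp (g := fun p : (List (Fin 3 × Bool) × (ℕ × (ℕ × ℕ × ℕ) × ℕ)) ×
      (Fin 3 × Bool) × (ℕ × ℕ × ℕ) => (p.1.2.1, p.2.1, p.2.2)) (by fun_prop))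
      (by fun_prop) (by fun_prop)
  have h2 : CI ∅ fun p : ℕ × ℕ × ℕ × ℕ => NC p.1 p.2.1 p.2.2.1 p.2.2.2 := by
    unfold NC; fun_prop
  unfold D N
  refine CI.or (by fun_prop) ?_
  exact h2.comp (g := fun p : List (Fin 3 × Bool) × (ℕ × (ℕ × ℕ × ℕ) × ℕ) =>
    (p.2.1, (p.1.foldr (sim p.2.1) p.2.2.1).2.1 + p.2.2.1.2.2,
      p.2.2.1.2.1 + (p.1.foldr (sim p.2.1) p.2.2.1).2.2, p.2.2.2)) (by fun_prop)

theorem re_word : REPred fun w : List (Fin 3 × Bool) => π0 (FreeGroup.mk w) ≠ 1 := by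
  refine re_of_exists D ci_D fun w => ?_
  constructor
  · intro h
    obtain ⟨j, hj⟩ := Function.ne_iff.1 h
    have : ∃ p, π0 (FreeGroup.mk w) j p ≠ p := by
      by_contra hc; push Not at hc; exact hj (Equiv.ext hc)
    obtain ⟨p, hp⟩ := this
    obtain ⟨s, rfl⟩ := cst_surj j p
    rw [word_spec, cst_ne, NC_iff] at hp
    rcases hp with hp | ⟨r, hr⟩
    · exact ⟨(j, s, 0), by simp [D, hp]⟩
    · exact ⟨(j, s, r), by simp [D, hr]⟩
  · rintro ⟨⟨j, s, r⟩, h⟩ h1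
    have : cst j (w.foldr (sim j) s) ≠ cst j s := by
      rw [cst_ne, NC_iff]
      simp only [D, Bool.or_eq_true, bne_iff_ne] at h
      exact h.imp id fun h => ⟨r, h⟩
    apply this
    rw [← word_spec, h1]; rfl

def z {G : Type} [Group G] (a b t : G) (e : ℕ) : G :=
  a * (t⁻¹ ^ (2 ^ e) * b * t ^ (2 ^ e)) * a⁻¹ * (t⁻¹ ^ (2 ^ e) * b⁻¹ * t ^ (2 ^ e))

theorem pow_cast (e j : ℕ) : ((2 ^ e : ℕ) : ZMod (N j)) = ((2 ^ j : ℕ) : ZMod (N j)) ↔ e = j := by
  refine ⟨fun h => ?_, fun h => by rw [h]⟩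
  rw [ZMod.natCast_eq_natCast_iff', N] at h
  have h1 : 2 ^ j % 2 ^ (j + 1) = 2 ^ j := Nat.mod_eq_of_lt (Nat.pow_lt_pow_right (by norm_num) (by omega))
  rw [h1] at h
  rcases lt_or_ge j e with hl | hl
  · have : 2 ^ e % 2 ^ (j + 1) = 0 := Nat.mod_eq_zero_of_dvd (pow_dvd_pow 2 hl)
    have : 0 < 2 ^ j := by positivity
    omega
  · rw [Nat.mod_eq_of_lt (Nat.pow_lt_pow_right (by norm_num) (by omega))] at h
    exact Nat.pow_right_injective le_rfl h

theorem z_apply (e j : ℕ) (p : Y j) :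
    z (ga : P) gb gt e j p = (p.1, if p.1 = 0 ∧ e = j then p.2 - 2 else p.2) := by
  obtain ⟨i, y⟩ := p
  simp only [z, Pi.mul_apply, Pi.pow_apply, Pi.inv_apply, Equiv.Perm.mul_apply, gt_pow, gt_inv_pow,
    gb_inv, gb_apply, ga_inv, ga_apply, add_sub_cancel_right]
  by_cases hi : i = 0
  · subst hi
    simp only [zero_add, pow_cast, true_and, if_true]
    split_ifs <;> simp; ring
  · simp only [hi, false_and, if_false]
    split_ifs <;> simp

theorem z_pow (e n j : ℕ) (p : Y j) :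
    (z (ga : P) gb gt e ^ n) j p = (p.1, if p.1 = 0 ∧ e = j then p.2 - 2 * n else p.2) := by
  induction n with
  | zero => simp
  | succ n ih =>
    rw [pow_succ', Pi.mul_apply, Equiv.Perm.mul_apply, ih, z_apply]
    split_ifs <;> simp; ring

theorem z_pow_m (e : ℕ) : z (ga : P) gb gt e ^ m e = 1 := by
  funext j
  ext1 p
  rw [z_pow]
  split_ifs with h
  · obtain ⟨-, rfl⟩ := h; simp
  · rfl

theorem z_ne (e : ℕ) : z (ga : P) gb gt e ≠ 1 := by
  intro h
  have := z_apply e e (0, 0)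
  rw [h] at this
  simp only [Pi.one_apply, Equiv.Perm.one_apply, and_self, if_true, Prod.mk.injEq, true_and,
    zero_sub, zero_eq_neg] at this
  have h2 : ((2 : ℕ) : ZMod (m e)) = 0 := by simpa using this
  rw [ZMod.natCast_eq_zero_iff] at h2
  have := Nat.le_of_dvd (by norm_num) h2
  have := m_ge e
  omega

theorem no_action {G : Type} [Group G] (a b t : G) (h1 : ∀ e, z a b t e ≠ 1)
    (h2 : ∀ e, z a b t e ^ m e = 1) :
    ¬ ∃ f : G →* Equiv.Perm ℕ, Function.Injective f ∧ ∀ g : G, Computable (⇑(f g) : ℕ → ℕ) := by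
  rintro ⟨f, hf, hc⟩
  have hc' : ∀ g, CI ∅ (⇑(f g) : ℕ → ℕ) := fun g => CI.of_comp (hc g)
  have ha := hc' a
  have ha' := hc' a⁻¹
  have hb := hc' b
  have hb' := hc' b⁻¹
  have ht := hc' t
  have ht' := hc' t⁻¹
  have hz : CI ∅ fun n : ℕ => f (z a b t n.unpair.1) n.unpair.2 := by
    have : CI ∅ fun n : ℕ => f a ((fun x => f t⁻¹ x)^[2 ^ n.unpair.1] (f b
        ((fun x => f t x)^[2 ^ n.unpair.1] (f a⁻¹ ((fun x => f t⁻¹ x)^[2 ^ n.unpair.1]
          (f b⁻¹ ((fun x => f t x)^[2 ^ n.unpair.1] n.unpair.2))))))) := by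
      fun_prop
    refine this.of_eq fun n => ?_
    simp only [z, map_mul, map_pow, Equiv.Perm.mul_apply, Equiv.Perm.coe_pow]
  obtain ⟨e, he⟩ := exists_index hz
  have he' : ∀ n, ∃ s, ev e (Nat.pair e n) s = some (f (z a b t e) n) := fun n => by
    simpa using he (Nat.pair e n)
  set g := f (z a b t e) with hg
  have hm : g ^ m e = 1 := by rw [hg, ← map_pow, h2, map_one]
  by_cases hW : ∃ s, W e s = true
  · obtain ⟨n, -, n1, n2, e1, e2, e3, e4⟩ := W_iff.1 (Nat.find_spec hW)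
    obtain ⟨s1, hs1⟩ := he' n
    obtain ⟨s2, hs2⟩ := he' n1
    obtain ⟨s3, hs3⟩ := he' n2
    have f1 := ev_unique e1 hs1
    have f2 := ev_unique e2 hs2
    have f3 := ev_unique e3 hs3
    have h3 : (g ^ 3) n = n := by
      simp only [pow_succ, pow_zero, one_mul, Equiv.Perm.mul_apply, ← f1, ← f2, ← f3]
    have h4 : ∀ k, (g ^ (3 * k)) n = n := by
      intro k
      induction k with
      | zero => simp
      | succ k ih => rw [mul_add, mul_one, pow_add, Equiv.Perm.mul_apply, h3, ih]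
    have h5 : m e = 1 + 3 * (Nat.find hW + 1) := by simp only [m, dif_pos hW]; ring
    have h6 : (g ^ m e) n = n1 := by
      rw [h5, pow_add, Equiv.Perm.mul_apply, h4, pow_one, f1]
    rw [hm] at h6
    exact e4 h6.symm
  · have h5 : m e = 3 := by simp only [m, dif_neg hW]
    have hne : g ≠ 1 := fun h => h1 e (hf (by rw [← hg, h, map_one]))
    have : ∃ n, g n ≠ n := by
      by_contra hc; push Not at hc; exact hne (Equiv.ext hc)
    obtain ⟨n, hn⟩ := this
    obtain ⟨s1, hs1⟩ := he' n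
    obtain ⟨s2, hs2⟩ := he' (g n)
    obtain ⟨s3, hs3⟩ := he' (g (g n))
    have h3 : g (g (g n)) = n := by
      have := congrArg (fun x : Equiv.Perm ℕ => x n) hm
      simpa [h5, pow_succ] using this
    rw [h3] at hs3
    exact hW ⟨n + 1 + s1 + s2 + s3, W_iff.2 ⟨n, by omega, g n, g (g n), ev_mono (by omega) hs1,
      ev_mono (by omega) hs2, ev_mono (by omega) hs3, hn⟩⟩

theorem main :
    ∃ (G : Type) (_ : Group G),
      Group.FG G ∧
      (∀ g : G, g ≠ 1 → ∃ H : Subgroup G, H.index ≠ 0 ∧ g ∉ H) ∧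
      (∃ (n : ℕ) (π : FreeGroup (Fin n) →* G), Function.Surjective π ∧
        REPred (fun w : List (Fin n × Bool) => π (FreeGroup.mk w) ≠ 1)) ∧
      ¬ ∃ f : G →* Equiv.Perm ℕ, Function.Injective f ∧
          ∀ g : G, Computable (⇑(f g) : ℕ → ℕ) := by
  refine ⟨π0.range, inferInstance, inferInstance, fun g hg => ?_,
    ⟨3, π0.rangeRestrict, π0.rangeRestrict_surjective, re_word.of_eq fun w => ?_⟩, ?_⟩
  · have : (g : P) ≠ 1 := fun h => hg (Subtype.ext h)
    obtain ⟨j, hj⟩ := Function.ne_iff.1 this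
    refine ⟨((Pi.evalMonoidHom _ j).comp π0.range.subtype).ker, ?_, hj⟩
    exact Subgroup.FiniteIndex.index_ne_zero
  · simp [Subtype.ext_iff]
  · have key : ∀ e, ((z (π0.rangeRestrict (FreeGroup.of 0)) (π0.rangeRestrict (FreeGroup.of 1))
        (π0.rangeRestrict (FreeGroup.of 2)) e : π0.range) : P) = z (ga : P) gb gt e := by
      intro e
      simp only [z, Subgroup.coe_mul, Subgroup.coe_pow, Subgroup.coe_inv,
        MonoidHom.coe_rangeRestrict]
      simp [π0, gen]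
    refine no_action (π0.rangeRestrict (FreeGroup.of 0)) (π0.rangeRestrict (FreeGroup.of 1))
      (π0.rangeRestrict (FreeGroup.of 2)) (fun e h => z_ne e ?_) fun e => Subtype.ext ?_
    · rw [← key, h]; rfl
    · rw [Subgroup.coe_pow, key, z_pow_m]; rfl

end Pool.Agent.H37.ResFin
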