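import Pool.Agent.H37.NF
import Pool.Agent.H37.DC

/-!
Averages over binary strings of a fixed length, a convexity step for coverings, and Post's theorem
for sets enumerable in the halting problem.
-/

set_option autoImplicit false

namespace Pool.Agent.H37.Rnd

open Encodable

section comp
variable {α β : Type} [Primcodable α] [Primcodable β]

theorem Kf_eq (j : ℕ) : (Kf j = 1 ↔ ∃ s, Kst j s = true) ∧ (Kf j = 0 ∨ Kf j = 1) := by
  unfold Kf Kst
  have : (Nat.Partrec.Code.eval (Denumerable.ofNat Nat.Partrec.Code j) j).Dom ↔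
      ∃ s, (ev j j s).isSome = true := by
    simp only [Part.dom_iff_mem, ev_iff, Option.isSome_iff_exists]
    exact exists_comm
  split_ifs with h
  · simp [← this, h]
  · simp [← this, h]

/-- sets enumerable in the halting problem are `Σ₂` -/
theorem post {p : α → Prop} (D : α → ℕ → Bool) (hD : CI (orc Kf) fun q : α × ℕ => D q.1 q.2)
    (h : ∀ a, p a ↔ ∃ t, D a t = true) :
    ∃ R : α × ℕ × ℕ → Bool, CI ∅ R ∧ ∀ a, p a ↔ ∃ c, ∀ b, R (a, c, b) = true := by
  obtain ⟨F, hF, eF⟩ : ∃ F : α × ℕ → Bool, CI (orc Kf) F ∧ ∀ a t, D a t = F (a, t) :=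
    ⟨_, hD, fun _ _ => rfl⟩
  have hf : CI (orc Kf) fun m : ℕ => (decode (α := α × ℕ) m).elim 0 fun q => (F q).toNat := by
    fun_prop
  obtain ⟨e, he⟩ := exists_app_tot hf
  have key : ∀ k s, (∀ b, pre (fun j => (Kst j (s + b)).toNat) k =
      pre (fun j => (Kst j s).toNat) k) → pre (fun j => (Kst j s).toNat) k = pre Kf k := by
    intro k s hb
    refine pre_congr fun j hj => ?_
    obtain ⟨h1, h2⟩ := Kf_eq j
    cases hs : Kst j s with
    | true => simpa using (h1.2 ⟨s, hs⟩).symm
    | false =>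
      rcases h2 with h2 | h2
      · simp [h2]
      · obtain ⟨s', hs'⟩ := h1.1 h2
        have := pre_eq_iff.1 (hb s') j hj
        rw [hs, Kst_mono (Nat.le_add_left s' s) hs'] at this
        simp at this
  refine ⟨fun q => (U e (pre (fun j => (Kst j q.2.1.unpair.2.unpair.2).toNat)
      q.2.1.unpair.2.unpair.1) (encode (q.1, q.2.1.unpair.1)) == some 1) &&
    (pre (fun j => (Kst j (q.2.1.unpair.2.unpair.2 + q.2.2)).toNat) q.2.1.unpair.2.unpair.1 ==
      pre (fun j => (Kst j q.2.1.unpair.2.unpair.2).toNat) q.2.1.unpair.2.unpair.1),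
    by fun_prop, fun a => ?_⟩
  rw [h]
  simp only [Bool.and_eq_true, beq_iff_eq]
  constructor
  · rintro ⟨t, ht⟩
    have := he (encode (a, t))
    rw [encodek, Option.elim_some, ← eF, ht] at this
    obtain ⟨k, hk⟩ := mem_app.1 this
    obtain ⟨s, hs⟩ := exists_stage_all ((List.range k).filter fun j => Kf j == 1) Kst
      (fun a s t => Kst_mono) fun j hj => (Kf_eq j).1.1 (by simpa using (List.mem_filter.1 hj).2)
    have e1 : ∀ s', s ≤ s' → pre (fun j => (Kst j s').toNat) k = pre Kf k := fun s' h' =>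
      pre_congr fun j hj => by
        rcases (Kf_eq j).2 with h2 | h2
        · cases hs' : Kst j s' with
          | false => simp [h2]
          | true => rw [(Kf_eq j).1.2 ⟨s', hs'⟩] at h2; cases h2
        · simp [hs s' h' j (by simp [hj, h2]), h2]
    refine ⟨Nat.pair t (Nat.pair k s), fun b => ?_⟩
    simp only [Nat.unpair_pair]
    rw [e1 s le_rfl, e1 (s + b) (Nat.le_add_right _ _)]
    exact ⟨hk, rfl⟩
  · rintro ⟨c, hc⟩
    refine ⟨c.unpair.1, ?_⟩
    have h1 := (hc 0).1
    rw [key _ _ fun b => (hc b).2] at h1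
    have := Part.mem_unique (he _) (mem_app.2 ⟨_, h1⟩)
    rw [encodek, Option.elim_some, ← eF] at this
    cases hd : D a c.unpair.1 <;> simp_all

open Classical in
/-- exceeding a threshold with a monotone weighted sum is c.e. -/
theorem re_wsum {p : β → Prop} (hp : REPred p) {γ : Type} [Primcodable γ] {k : α → ℕ}
    {l : α → List γ} {g : α × γ → β} {c0 c1 : α × γ → ℕ} (hk : CI ∅ k) (hl : CI ∅ l)
    (hg : CI ∅ g) (h0 : CI ∅ c0) (h1 : CI ∅ c1) (hc : ∀ q, c0 q ≤ c1 q) :
    REPred fun a => k a <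
      ((l a).map fun x => if p (g (a, x)) then c1 (a, x) else c0 (a, x)).sum := by
  obtain ⟨D, hD, hm, h⟩ := re_stage hp
  obtain ⟨F, hF, eF⟩ : ∃ F : β × ℕ → Bool, CI ∅ F ∧ ∀ a t, D a t = F (a, t) :=
    ⟨_, hD, fun _ _ => rfl⟩
  refine re_of_nat (fun a s => decide (k a <
    ((l a).map fun x => bif F (g (a, x), s) then c1 (a, x) else c0 (a, x)).sum)) (by fun_prop)
    fun a => ?_
  simp only [decide_eq_true_eq, ← eF]
  constructor
  · intro ha
    obtain ⟨s, hs⟩ := exists_stage_all ((l a).filter fun x => decide (p (g (a, x))))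
      (fun x s => D (g (a, x)) s) (fun x s t => hm _ s t)
      fun x hx => (h _).1 (by simpa using (List.mem_filter.1 hx).2)
    refine ⟨s, lt_of_lt_of_le ha (List.sum_le_sum fun x hx => ?_)⟩
    split_ifs with hx'
    · simp [hs s le_rfl x (by simp [hx, hx'])]
    · cases D (g (a, x)) s <;> simp [hc]
  · rintro ⟨s, hs⟩
    refine lt_of_lt_of_le hs (List.sum_le_sum fun x _ => ?_)
    cases hd : D (g (a, x)) s
    · split_ifs <;> simp [hc]
    · simp [(h _).2 ⟨s, hd⟩]

end comp

/-- all binary strings of length `M` -/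
def W (M : ℕ) : List (List Bool) :=
  (fun L => L.flatMap fun σ => [σ ++ [false], σ ++ [true]])^[M] [[]]

theorem W_succ (M : ℕ) : W (M + 1) = (W M).flatMap fun σ => [σ ++ [false], σ ++ [true]] := by
  unfold W; rw [Function.iterate_succ_apply']

@[fun_prop] theorem ci_W {α : Type} [Primcodable α] {O : Set (ℕ →. ℕ)} {M : α → ℕ}
    (h : CI O M) : CI O fun a => W (M a) := by
  unfold W; fun_prop

theorem mem_W {M : ℕ} {σ : List Bool} : σ ∈ W M ↔ σ.length = M := by
  induction M generalizing σ with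
  | zero => simp [W]
  | succ M ih =>
    rw [W_succ]
    simp only [List.mem_flatMap, ih, List.mem_cons, List.not_mem_nil, or_false]
    constructor
    · rintro ⟨τ, rfl, rfl | rfl⟩ <;> simp
    · intro h
      rcases List.eq_nil_or_concat σ with rfl | ⟨τ, b, rfl⟩
      · simp at h
      · refine ⟨τ, by simpa using h, ?_⟩
        cases b <;> simp

theorem nodup_W (M : ℕ) : (W M).Nodup := by
  induction M with
  | zero => simp [W]
  | succ M ih =>
    rw [W_succ, List.nodup_flatMap]
    refine ⟨fun σ _ => by simp, ih.imp fun {a b} hab => ?_⟩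
    simp only [Function.onFun, List.disjoint_left, List.mem_cons, List.not_mem_nil, or_false]
    rintro x (rfl | rfl) (h | h) <;> exact hab (List.append_inj_left' h rfl)

theorem sum_W_succ (M : ℕ) (g : List Bool → ℝ) :
    ((W (M + 1)).map g).sum = ((W M).map fun σ => g (σ ++ [false]) + g (σ ++ [true])).sum := by
  rw [W_succ]
  induction W M with
  | nil => simp
  | cons a l ih => simp only [List.flatMap_cons, List.map_append, List.sum_append, ih]; simp

/-- the average over strings of length `M` -/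
noncomputable def E (M : ℕ) (g : List Bool → ℝ) : ℝ := ((W M).map g).sum / 2 ^ M

theorem E_mono {M : ℕ} {g h : List Bool → ℝ} (H : ∀ σ, σ.length = M → g σ ≤ h σ) :
    E M g ≤ E M h :=
  div_le_div_of_nonneg_right (List.sum_le_sum fun σ hσ => H σ (mem_W.1 hσ)) (by positivity)

theorem E_congr {M : ℕ} {g h : List Bool → ℝ} (H : ∀ σ, σ.length = M → g σ = h σ) :
    E M g = E M h :=
  le_antisymm (E_mono fun σ hσ => (H σ hσ).le) (E_mono fun σ hσ => (H σ hσ).ge)

theorem E_add (M : ℕ) (g h : List Bool → ℝ) : E M (fun σ => g σ + h σ) = E M g + E M h := by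
  simp only [E, List.sum_map_add, add_div]

theorem E_mul (M : ℕ) (c : ℝ) (g : List Bool → ℝ) : E M (fun σ => c * g σ) = c * E M g := by
  simp only [E, List.sum_map_mul_left, mul_div_assoc]

theorem E_sub (M : ℕ) (g h : List Bool → ℝ) : E M (fun σ => g σ - h σ) = E M g - E M h := by
  have := E_add M (fun σ => g σ - h σ) h
  simp only [sub_add_cancel] at this
  linarith

theorem E_succ (M : ℕ) (g : List Bool → ℝ) :
    E (M + 1) g = E M fun σ => (1 / 2) * (g (σ ++ [false]) + g (σ ++ [true])) := by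
  rw [E_mul, E, E, sum_W_succ, pow_succ]; ring

theorem E_const (M : ℕ) (c : ℝ) : E M (fun _ => c) = c := by
  induction M with
  | zero => simp [E, W]
  | succ M ih => rw [E_succ]; simpa [show (2 : ℝ)⁻¹ * (c + c) = c by ring] using ih

/-- `g` depends on the first `M` bits only -/
def Dep (M : ℕ) (g : List Bool → ℝ) : Prop := ∀ σ τ : List Bool, σ.take M = τ.take M → g σ = g τ

theorem Dep.mono {M N : ℕ} {g : List Bool → ℝ} (h : Dep M g) (hN : M ≤ N) : Dep N g :=
  fun σ τ e => h σ τ (by
    have := congrArg (List.take M) e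
    rwa [List.take_take, List.take_take, min_eq_left hN] at this)

theorem E_dep {M N : ℕ} {g : List Bool → ℝ} (h : Dep M g) (hN : M ≤ N) : E N g = E M g := by
  induction N, hN using Nat.le_induction with
  | base => rfl
  | succ N hN ih =>
    rw [E_succ, ← ih]
    refine E_congr fun σ hσ => ?_
    have e : ∀ b, g (σ ++ [b]) = g σ := fun b => h _ _ (List.take_append_of_le_length (by omega))
    rw [e, e]; ring

theorem E_eq {M N N' : ℕ} {g : List Bool → ℝ} (h : Dep M g) (hN : M ≤ N) (hN' : M ≤ N') :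
    E N g = E N' g := by rw [E_dep h hN, E_dep h hN']

/-- the local potential -/
noncomputable def ph (u a : ℝ) : ℝ := u ^ 2 / 2 + a * (1 - u)

theorem ptw {u f a η : ℝ} (hf1 : f ≤ 1) (hf0 : 0 ≤ f) (hu : 0 ≤ u) (ha : a = 0 ∨ a = 1)
    (h0 : 0 ≤ η) :
    (max ((1 - η) * f + η * a - u) 0) ^ 2 / 2 ≤
      (max (f - u) 0) ^ 2 / 2 - η * (ph (max u f) a - ph u a) + η ^ 2 / 2 := by
  have hq : (η * (a - f)) ^ 2 ≤ η ^ 2 := by
    have : (a - f) ^ 2 ≤ 1 := by rcases ha with rfl | rfl <;> nlinarith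
    rw [mul_pow]; nlinarith [sq_nonneg η]
  have h1 : (max ((1 - η) * f + η * a - u) 0) ^ 2 ≤ (max (f - u) 0 + η * (a - f)) ^ 2 := by
    rcases le_total ((1 - η) * f + η * a - u) 0 with h | h
    · rw [max_eq_right h]; nlinarith [sq_nonneg (max (f - u) 0 + η * (a - f))]
    · rw [max_eq_left h]
      have := le_max_left (f - u) 0
      exact pow_le_pow_left₀ h (by linarith) 2
  have h2 : ph (max u f) a - ph u a ≤ max (f - u) 0 * (f - a) := by
    unfold ph
    rcases le_total u f with h | h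
    · rw [max_eq_right h, max_eq_left (by linarith)]
      rcases ha with rfl | rfl <;> nlinarith [sq_nonneg (f - u)]
    · rw [max_eq_left h, max_eq_right (by linarith)]; simp
  nlinarith [mul_le_mul_of_nonneg_left h2 h0]

/-- the frequency of the indices of `L` whose set contains `σ` -/
noncomputable def fr (χ : ℕ → List Bool → ℝ) (L : List ℕ) (σ : List Bool) : ℝ :=
  (L.map fun n => χ n σ).sum / L.length

theorem step {χ : ℕ → List Bool → ℝ} (hχ : ∀ n σ, χ n σ = 0 ∨ χ n σ = 1)
    (hd : ∀ n, Dep n (χ n)) {M : ℕ} {u : List Bool → ℝ} (hu : Dep M u) (hu0 : ∀ σ, 0 ≤ u σ)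
    {t : ℝ} {k : ℕ} (q : ℕ) (H : ∀ n, k ≤ n → E (M + n) (fun σ => ph (u σ) (χ n σ)) ≤ t) :
    ∃ L : List ℕ, L ≠ [] ∧ (∀ n ∈ L, k ≤ n) ∧ ∀ n, k ≤ n →
      E (M + L.sum + n) (fun σ => ph (max (u σ) (fr χ L σ)) (χ n σ)) ≤ t + 1 / (q + 1) := by
  by_contra hc
  push Not at hc
  have dfr : ∀ L : List ℕ, Dep L.sum (fr χ L) := fun L σ τ e => by
    unfold fr
    congr 2
    exact List.map_congr_left fun n hn => (hd n).mono (List.le_sum_of_mem hn) σ τ e
  have fr01 : ∀ L σ, 0 ≤ fr χ L σ ∧ fr χ L σ ≤ 1 := fun L σ => by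
    have h1 : 0 ≤ (L.map fun n => χ n σ).sum := List.sum_nonneg fun x hx => by
      obtain ⟨n, -, rfl⟩ := List.mem_map.1 hx
      rcases hχ n σ with h | h <;> simp [h]
    have h2 : (L.map fun n => χ n σ).sum ≤ L.length := by
      have := List.sum_le_card_nsmul (L.map fun n => χ n σ) 1 fun x hx => by
        obtain ⟨n, -, rfl⟩ := List.mem_map.1 hx
        rcases hχ n σ with h | h <;> simp [h]
      simpa using this
    exact ⟨div_nonneg h1 (by positivity), div_le_one_of_le₀ h2 (by positivity)⟩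
  let G : List ℕ → ℝ := fun L => E (M + L.sum) fun σ => (max (fr χ L σ - u σ) 0) ^ 2 / 2
  have dG : ∀ L : List ℕ, Dep (M + L.sum) fun σ => (max (fr χ L σ - u σ) 0) ^ 2 / 2 :=
    fun L σ τ e => by
      simp only [(dfr L).mono (Nat.le_add_left _ _) σ τ e, hu.mono (Nat.le_add_right _ _) σ τ e]
  have G0 : ∀ L, 0 ≤ G L := fun L => by
    rw [← E_const (M + L.sum) 0]; exact E_mono fun σ _ => by positivity
  set η : ℝ := 1 / (q + 1) with hη
  have η0 : 0 < η := by positivity
  have dec : ∀ L : List ℕ, L ≠ [] → (∀ n ∈ L, k ≤ n) → ∃ L' : List ℕ, L' ≠ [] ∧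
      (∀ n ∈ L', k ≤ n) ∧ G L' ≤ G L - η ^ 2 / 2 := by
    intro L h1 h2
    obtain ⟨n, hn, hv⟩ := hc L h1 h2
    have hl : (0 : ℝ) < L.length := by exact_mod_cast List.length_pos_iff.2 h1
    let L' := (List.replicate q L).flatten ++ List.replicate L.length n
    have e : ∀ σ, fr χ L' σ = (1 - η) * fr χ L σ + η * χ n σ := fun σ => by
      simp only [fr, L', hη, List.map_append, List.sum_append, List.map_flatten, List.map_replicate,
        List.sum_flatten, List.sum_replicate, List.length_append, List.length_flatten,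
        List.length_replicate, nsmul_eq_mul, smul_eq_mul]
      push_cast
      field_simp
      ring
    refine ⟨L', by simp [L', h1], fun m hm => ?_, ?_⟩
    · simp only [L', List.mem_append, List.mem_flatten, List.mem_replicate] at hm
      rcases hm with ⟨l, ⟨-, rfl⟩, hm⟩ | ⟨-, rfl⟩
      · exact h2 m hm
      · exact hn
    · let N := M + L'.sum + L.sum + n
      have d1 : Dep (M + L.sum + n) fun σ => ph (max (u σ) (fr χ L σ)) (χ n σ) := fun σ τ e => by
        simp only [(dfr L).mono (by omega : L.sum ≤ M + L.sum + n) σ τ e,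
          hu.mono (by omega : M ≤ M + L.sum + n) σ τ e, (hd n).mono (Nat.le_add_left _ _) σ τ e]
      have d2 : Dep (M + n) fun σ => ph (u σ) (χ n σ) := fun σ τ e => by
        simp only [hu.mono (Nat.le_add_right _ _) σ τ e, (hd n).mono (Nat.le_add_left _ _) σ τ e]
      have a1 : G L' = E N _ := (E_dep (dG L') (by omega)).symm
      have a2 : G L = E N _ := (E_dep (dG L) (by omega)).symm
      rw [← E_dep d1 (by omega : _ ≤ N)] at hv
      have a3 := H n hn
      rw [← E_dep d2 (by omega : _ ≤ N)] at a3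
      have a4 : E N (fun σ => (max (fr χ L' σ - u σ) 0) ^ 2 / 2) ≤ E N fun σ =>
          (max (fr χ L σ - u σ) 0) ^ 2 / 2 -
            η * (ph (max (u σ) (fr χ L σ)) (χ n σ) - ph (u σ) (χ n σ)) + η ^ 2 / 2 :=
        E_mono fun σ _ => by
          rw [e]; exact ptw (fr01 L σ).2 (fr01 L σ).1 (hu0 σ) (hχ n σ) η0.le
      rw [E_add, E_sub, E_mul, E_sub, E_const] at a4
      rw [a1, a2]
      nlinarith
  have all : ∀ m : ℕ, ∃ L : List ℕ, L ≠ [] ∧ (∀ n ∈ L, k ≤ n) ∧
      G L ≤ G [k] - m * (η ^ 2 / 2) := by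
    intro m
    induction m with
    | zero => exact ⟨[k], by simp, by simp, by simp⟩
    | succ m ih =>
      obtain ⟨L, h1, h2, h3⟩ := ih
      obtain ⟨L', h4, h5, h6⟩ := dec L h1 h2
      exact ⟨L', h4, h5, by push_cast; linarith⟩
  obtain ⟨m, hm⟩ := exists_nat_gt (G [k] / (η ^ 2 / 2))
  obtain ⟨L, -, -, h⟩ := all m
  rw [div_lt_iff₀ (by positivity)] at hm
  linarith [G0 L]

end Pool.Agent.H37.Rnd
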