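import Pool.Agent.H37.PP1

/-! Group expressions in eight generators and a permutation model of them. -/

set_option autoImplicit false
set_option maxHeartbeats 400000

namespace Pool.Agent.H37.SF

open Equiv PP

section
variable {G H : Type} [Group G] [Group H]

def dd (γ : Fin 8 → G) (k : Fin 5) : G := γ (![0, 1, 7, 3, 4] k)
def R0 (s a b d : G) (t : Bool) (n : ℕ) (c : Bool) : G :=
  s * (gg a b n t * d * (gg a b n t)⁻¹) * s⁻¹ *
    cond c (gg a b n t * d * (gg a b n t)⁻¹) (gg a b n t * d * (gg a b n t)⁻¹)⁻¹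
def RR (γ : Fin 8 → G) (k : Fin 5) (n : ℕ) (c : Bool) : G :=
  R0 (γ (![2, 2, 2, 5, 5] k)) (γ (![0, 0, 0, 3, 3] k)) (γ (![1, 1, 1, 4, 4] k)) (dd γ k)
    (![false, true, false, false, true] k) n c
def cm (x y : G) : G := x * y * x⁻¹ * y⁻¹
def lit (γ : Fin 8 → G) (p : ℕ × Bool) : G := γ 6 ^ p.1 * cond p.2 (γ 7) (γ 0 * (γ 7)⁻¹) * (γ 6 ^ p.1)⁻¹
def WW (v : G) (l : ℕ × Bool → G) (F : List (ℕ × Bool)) : G :=
  F.foldr (fun p w => cm w (l p)) v
def FL (γ : Fin 8 → G) (i : Fin 15) : G :=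
  ![γ 0 ^ 3, γ 1 ^ 3, γ 7 ^ 3, γ 3 ^ 3, γ 4 ^ 3, γ 2 ^ 2, γ 5 ^ 2, cm (γ 2) (γ 5), cm (γ 6) (γ 0), cm (γ 6) (γ 1),
    cm (γ 6) (γ 2), cm (γ 6) (γ 3), cm (γ 6) (γ 4), cm (γ 6) (γ 5),
    γ 6 * γ 7 * (γ 6)⁻¹ * ((γ 3 * γ 4)⁻¹ * γ 7 * (γ 3 * γ 4))⁻¹] i

def Rel (A B : ℕ → Prop) (C : List (ℕ × Bool) → Prop) (γ : Fin 8 → G) (r : G) : Prop :=
  (∃ i, r = FL γ i) ∨ (∃ q : Fin 5 × ℕ × Bool, (A q.2.1 ∧ q.2.2 = false ∨ B q.2.1 ∧ q.2.2 = true) ∧
    r = RR γ q.1 q.2.1 q.2.2) ∨ ∃ F, C F ∧ r = WW (γ 0 * γ 1) (lit γ) F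

theorem map_WW (φ : G →* H) (v : G) (l : ℕ × Bool → G) (F : List (ℕ × Bool)) :
    φ (WW v l F) = WW (φ v) (fun p => φ (l p)) F := by
  induction F with
  | nil => rfl
  | cons p F ih => simp only [WW, List.foldr_cons, cm, map_mul, map_inv] at ih ⊢; rw [ih]

theorem map_R0 (φ : G →* H) (s a b d : G) (t : Bool) (n : ℕ) (c : Bool) :
    φ (R0 s a b d t n c) = R0 (φ s) (φ a) (φ b) (φ d) t n c := by
  cases c <;> cases t <;> simp [R0, gg]

theorem Rel.map (φ : G →* H) {A B : ℕ → Prop} {C : List (ℕ × Bool) → Prop} {γ : Fin 8 → G} {r : G}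
    (h : Rel A B C γ r) : Rel A B C (fun i => φ (γ i)) (φ r) := by
  rcases h with ⟨i, rfl⟩ | ⟨q, h, rfl⟩ | ⟨F, h, rfl⟩
  · exact Or.inl ⟨i, by fin_cases i <;> simp [FL, cm]⟩
  · exact Or.inr (Or.inl ⟨q, h, map_R0 ..⟩)
  · refine Or.inr (Or.inr ⟨F, h, ?_⟩)
    rw [map_WW, map_mul]
    congr 1
    funext p
    unfold lit; cases p.2 <;> simp

theorem WW_one (v : G) {l : ℕ × Bool → G} {F : List (ℕ × Bool)} (h : ∃ p ∈ F, l p = 1) :
    WW v l F = 1 := by
  induction F with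
  | nil => simp at h
  | cons p F ih =>
    obtain ⟨q, h1, h2⟩ := h
    change WW v l F * l p * (WW v l F)⁻¹ * (l p)⁻¹ = 1
    rcases List.mem_cons.1 h1 with rfl | h1
    · simp [h2]
    · simp [ih ⟨q, h1, h2⟩]

theorem coset' (f : H →* G) (hf : Function.Injective f) :
    ∃ κ : G → H, ∀ k g, κ (f k * g) = k * κ g := by
  let t : G → G := fun g => (Quotient.mk (QuotientGroup.rightRel f.range) g).out
  have h : ∀ g, ∃ k, f k * t g = g := fun g => by
    obtain ⟨k, hk⟩ := QuotientGroup.rightRel_apply.1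
      (Quotient.mk_out (s := QuotientGroup.rightRel f.range) g)
    exact ⟨k, by rw [hk]; simp [t]⟩
  choose κ hκ using h
  have ht : ∀ k g, t (f k * g) = t g := fun k g =>
    congrArg Quotient.out (Quotient.sound (QuotientGroup.rightRel_apply.2 ⟨k⁻¹, by simp⟩))
  exact ⟨κ, fun k g => hf (mul_right_cancel (b := t g) (by
    rw [map_mul, mul_assoc, hκ, ← ht k g, hκ]))⟩

end

abbrev M := Perm (Fin 4)
def ma : M := swap 0 1 * swap 1 2
def mb : M := swap 1 2 * swap 2 3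
abbrev Γ := Perm ℕ × M
def a0 : Γ := (pa, ma)
def b0 : Γ := (pb, mb)
def ρ : Γ →* Perm Γ := MulAction.toPermHom Γ Γ

theorem WW_ne {l : ℕ × Bool → M} {F : List (ℕ × Bool)} (h : ∀ p ∈ F, l p = ma) :
    WW (ma * mb) l F ≠ 1 := by
  have : WW (ma * mb) l F ∈ [ma * mb, mb * ma, ma * mb * mb * ma] := by
    induction F with
    | nil => exact List.mem_cons_self
    | cons p F ih =>
      change WW _ l F * l p * (WW _ l F)⁻¹ * (l p)⁻¹ ∈ _
      have := ih fun q hq => h q (List.mem_cons_of_mem _ hq)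
      rw [h p List.mem_cons_self]
      revert this
      generalize WW (ma * mb) l F = w
      revert w; decide
  intro e
  rw [e] at this
  revert this; decide

theorem cube0 (t : Bool) : (cond t b0 a0) ^ 3 = 1 := by
  cases t
  · exact Prod.ext (cube false) (by decide)
  · exact Prod.ext (cube true) (by decide)

open Classical in
theorem model2 (B : ℕ → Prop) : ∃ s : Perm Γ, s * s = 1 ∧ ∀ n t, s * uu (ρ a0) (ρ b0) n t * s⁻¹ =
    if B n then (uu (ρ a0) (ρ b0) n t)⁻¹ else uu (ρ a0) (ρ b0) n t := by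
  let φ : L →* L := Monoid.CoprodI.lift fun i =>
    (Monoid.CoprodI.of (i := i)).comp (if B i.1 then invMonoidHom else MonoidHom.id _)
  have hφ : φ.comp φ = MonoidHom.id _ := by
    refine Monoid.CoprodI.ext_hom _ _ fun i => MonoidHom.ext fun x => ?_
    by_cases h : B i.1 <;> simp [φ, h]
  let f : L →* Γ := Monoid.CoprodI.lift fun i => cyc _ (uu_cube (cube0 i.2) i.1)
  have hf : (MonoidHom.fst _ _).comp f = lf := by
    refine Monoid.CoprodI.ext_hom _ _ fun i => MonoidHom.ext fun x => ?_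
    simp only [f, lf, cyc, MonoidHom.comp_apply, Monoid.CoprodI.lift_of, MonoidHom.mk'_apply, map_pow,
      map_uu]
    rfl
  obtain ⟨s, h1, h2⟩ := coset f (Function.Injective.of_comp (f := MonoidHom.fst _ _)
    (by rw [← MonoidHom.coe_comp, hf]; exact lf_inj)) φ fun k => DFunLike.congr_fun hφ k
  refine ⟨s, h1, fun n t => ?_⟩
  have e : ∀ i : ℕ × Bool, f (Monoid.CoprodI.of (i := i) (Multiplicative.ofAdd 1)) =
      uu a0 b0 i.1 i.2 := fun i => by
    simp only [f, Monoid.CoprodI.lift_of, cyc, MonoidHom.mk'_apply, toAdd_ofAdd]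
    exact pow_one _
  rw [mul_inv_eq_iff_eq_mul, ← map_uu, ← e (n, t)]
  ext1 g
  have := h2 (Monoid.CoprodI.of (i := (n, t)) (Multiplicative.ofAdd 1)) g
  by_cases h : B n <;> simpa [ρ, φ, h] using this

theorem iota : ∃ ι : Γ → ℤ, ∀ g, ι (a0 * b0 * g) = ι g + 1 := by
  obtain ⟨κ, h⟩ := coset' (zpowersHom Γ (a0 * b0)) (by
    refine (injective_zpow_iff_not_isOfFinOrder.2 fun h => ?_).comp Multiplicative.toAdd.injective
    obtain ⟨n, h1, h2⟩ := isOfFinOrder_iff_pow_eq_one.1 h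
    have := sig n 2 rfl
    rw [show (pa * pb) ^ n = 1 from congrArg Prod.fst h2] at this
    have h3 := Nat.one_lt_pow h1.ne' (show 1 < 4 by norm_num)
    simp at this; omega)
  exact ⟨fun g => (κ g).toAdd, fun g => by
    simpa [add_comm] using congrArg Multiplicative.toAdd (h (Multiplicative.ofAdd 1) g)⟩

abbrev Ω := ℤ × (Γ → Γ)

def PT : (ℤ → Γ → Perm Γ) →* Perm Ω :=
  MonoidHom.mk' (fun e => ⟨fun w => (w.1, fun j => e w.1 j (w.2 j)),
    fun w => (w.1, fun j => (e w.1 j)⁻¹ (w.2 j)), fun w => by simp, fun w => by simp⟩) fun _ _ => rfl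

def CP : Perm Γ →* Perm Ω :=
  MonoidHom.mk' (fun σ => ⟨fun w => (w.1, fun j => w.2 (σ⁻¹ j)),
    fun w => (w.1, fun j => w.2 (σ j)), fun w => by simp, fun w => by simp⟩) fun _ _ => rfl

def TT : Perm Ω := ⟨fun w => (w.1 - 1, w.2), fun w => (w.1 + 1, w.2), fun w => by simp, fun w => by simp⟩

def KK : Perm Γ →* Perm Ω := PT.comp (MonoidHom.mk' (fun σ _ _ => σ) fun _ _ => rfl)

theorem TT_PT (n : ℕ) (e : ℤ → Γ → Perm Γ) :
    TT ^ n * PT e * (TT ^ n)⁻¹ = PT fun i j => e (i + n) j := by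
  induction n with
  | zero => simp
  | succ n ih =>
    rw [pow_succ', mul_inv_rev, mul_assoc TT, mul_assoc TT, ← mul_assoc _ _ TT⁻¹, ih]
    ext1 w
    refine Prod.ext (by simp [TT, PT]) (funext fun j => ?_)
    simp [TT, PT, add_assoc, add_comm (1 : ℤ)]

open Classical in
theorem model (A B : ℕ → Prop) (C : List (ℕ × Bool) → Prop) (hd : ∀ n, A n → ¬ B n) (z : ℤ → Bool)
    (hz : ∀ F, C F → ∀ j : ℤ, ∃ p ∈ F, z (j + p.1) ≠ p.2) :
    ∃ (γ : Fin 8 → Perm Ω) (ζ : Ω → Bool) (c : Ω → M) (w0 : Ω), (∀ r, Rel A B C γ r → r = 1) ∧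
      (∀ n : ℤ, ζ ((γ 6 ^ n)⁻¹ w0) = z n) ∧ ∀ w, (∀ i, i ≠ 6 → ζ ((γ i)⁻¹ w) = ζ w) ∧
        c ((γ 0)⁻¹ w) = ma⁻¹ * c w ∧ c ((γ 1)⁻¹ w) = mb⁻¹ * c w ∧ c ((γ 6)⁻¹ w) = c w ∧
        c ((γ 7)⁻¹ w) = (cond (ζ w) ma 1)⁻¹ * c w := by
  obtain ⟨s, s1, s2⟩ := model2 B
  obtain ⟨ι, hι⟩ := iota
  let e : ℤ → Γ → Perm Γ := fun i j => cond (z (ι j + i)) (ρ a0) 1
  have ca : ρ a0 ^ 3 = 1 := by rw [← map_pow, show a0 ^ 3 = 1 from cube0 false, map_one]
  have cb : ρ b0 ^ 3 = 1 := by rw [← map_pow, show b0 ^ 3 = 1 from cube0 true, map_one]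
  refine ⟨![KK (ρ a0), KK (ρ b0), KK s, CP (ρ a0), CP (ρ b0), CP s, TT, PT e],
    fun w => z (ι 1 + w.1), fun w => (w.2 1).2, (-ι 1, fun _ => 1), ?_, fun n => ?_, fun w => ⟨fun i hi => ?_,
      rfl, rfl, rfl, ?_⟩⟩
  · rintro _ (⟨i, rfl⟩ | ⟨⟨k, n, c⟩, h, rfl⟩ | ⟨F, h, rfl⟩)
    · have k1 : ∀ σ, cm (TT) (KK σ) = 1 := fun σ => mul_inv_eq_one.2 (mul_inv_eq_iff_eq_mul.2 rfl)
      have k2 : ∀ σ, cm (TT) (CP σ) = 1 := fun σ => mul_inv_eq_one.2 (mul_inv_eq_iff_eq_mul.2 rfl)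
      have k3 : cm (KK s) (CP s) = 1 := mul_inv_eq_one.2 (mul_inv_eq_iff_eq_mul.2 rfl)
      have k4 : PT e ^ 3 = 1 := by
        rw [← map_pow, ← map_one PT]
        congr 1; funext i j
        change e i j ^ 3 = 1
        simp only [e]; cases z (ι j + i) <;> simp [ca]
      have k5 : TT * PT e * TT⁻¹ = (CP (ρ a0) * CP (ρ b0))⁻¹ * PT e * (CP (ρ a0) * CP (ρ b0)) := by
        rw [← pow_one TT, TT_PT, ← map_mul, ← map_mul]
        ext1 w
        refine Prod.ext rfl (funext fun j => ?_)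
        change e (w.1 + (1 : ℕ)) j (w.2 j) = e w.1 (a0 * b0 * j) (w.2 ((a0 * b0)⁻¹ * (a0 * b0 * j)))
        simp only [e, hι, inv_mul_cancel_left, add_assoc, add_comm (1 : ℤ), Nat.cast_one]
      have s3 : s ^ 2 = 1 := by rw [pow_two, s1]
      fin_cases i <;> simp [FL, k1, k2, k3, k4, k5, ← map_pow, ca, cb, s3, -mul_inv_rev]
    · have k0 : ∀ t, R0 s (ρ a0) (ρ b0) (cond t (ρ b0) (ρ a0)) t n c = 1 := fun t => by
        have := s2 n t
        rcases h with ⟨h, rfl⟩ | ⟨h, rfl⟩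
        · rw [if_neg (hd _ h)] at this
          exact mul_inv_eq_one.2 this
        · rw [if_pos h] at this
          exact mul_eq_one_iff_eq_inv.2 this
      have k1 : ∀ (φ : Perm Γ →* Perm Ω) t, R0 (φ s) (φ (ρ a0)) (φ (ρ b0)) (φ (cond t (ρ b0) (ρ a0))) t n c
          = 1 := fun φ t => by rw [← map_R0, k0, map_one]
      have k2 : R0 (PT fun _ _ => s) (PT fun _ _ => ρ a0) (PT fun _ _ => ρ b0) (PT e) false n c = 1 := by
        rw [← map_R0, ← map_one PT]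
        congr 1; funext i j
        refine (map_R0 ((Pi.evalMonoidHom _ j).comp (Pi.evalMonoidHom (fun _ => Γ → Perm Γ) i))
          _ _ _ _ _ _ _).trans ?_
        change R0 s (ρ a0) (ρ b0) (cond (z (ι j + i)) (ρ a0) 1) false n c = 1
        cases z (ι j + i)
        · cases c <;> simp [R0]
        · exact k0 false
      fin_cases k
      exacts [k1 KK false, k1 KK true, k2, k1 CP false, k1 CP true]
    · have : lit ![KK (ρ a0), KK (ρ b0), KK s, CP (ρ a0), CP (ρ b0), CP s, TT, PT e] = fun p =>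
          PT fun i j => cond p.2 (e (i + p.1) j) (ρ a0 * (e (i + p.1) j)⁻¹) := by
        funext p
        obtain ⟨n, c⟩ := p
        cases c
        · exact (by rw [← map_inv, ← map_mul] :
            TT ^ n * (PT (fun _ _ => ρ a0) * (PT e)⁻¹) * (TT ^ n)⁻¹ = _).trans (TT_PT _ _)
        · exact TT_PT _ _
      rw [this]
      refine (map_WW PT (fun _ _ => ρ a0 * ρ b0) _ F).symm.trans ?_
      rw [← map_one PT]
      congr 1; funext i j
      refine (map_WW ((Pi.evalMonoidHom _ j).comp (Pi.evalMonoidHom (fun _ => Γ → Perm Γ) i))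
        _ _ _).trans (WW_one _ ?_)
      obtain ⟨p, h1, h2⟩ := hz F h (ι j + i)
      refine ⟨p, h1, ?_⟩
      rw [add_assoc] at h2
      cases h3 : p.2 <;> simp [h3] at h2 <;> simp [e, h2, h3]
  · have : ∀ (n : ℤ) (w : Ω), ((TT ^ n)⁻¹ w).1 = w.1 + n := fun n => by
      induction n with
      | zero => simp
      | succ n ih => intro w; rw [zpow_add_one, mul_inv_rev, Perm.mul_apply, ← add_assoc, ← ih]; rfl
      | pred n ih =>
        intro w; rw [zpow_sub_one, mul_inv_rev, Perm.mul_apply, inv_inv, ← add_sub_assoc, ← ih]; rfl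
    change z (ι 1 + ((TT ^ n)⁻¹ _).1) = _
    rw [this]; simp
  · fin_cases i <;> first | rfl | exact absurd rfl hi
  · change ((e w.1 1)⁻¹ (w.2 1)).2 = _
    simp only [e]
    cases z (ι 1 + w.1) <;> simp [ρ, a0]

end Pool.Agent.H37.SF
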