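import Pool.Agent.H37.Indep

/-! Toeplitz coding of an effectively closed class in a subshift on the integers. -/

set_option autoImplicit false

namespace Pool.Agent.H37.SF

open Encodable Ind

def tv (σ : List ℕ) (m : ℕ) : Option Bool :=
  (σ.foldl (fun s b => (s.1 / 3, cond s.2.isSome s.2
    (if s.1 % 3 = 1 then some (b == 1) else if s.1 % 3 = 2 then some (!(b == 1)) else none)))
    (m, none)).2

theorem ci_tv {O : Set (ℕ →. ℕ)} : CI O fun q : List ℕ × ℕ => tv q.1 q.2 := by unfold tv; fun_prop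

theorem tv_cons (b : ℕ) (σ : List ℕ) (m : ℕ) : tv (b :: σ) m =
    if m % 3 = 1 then some (b == 1) else if m % 3 = 2 then some (!(b == 1)) else tv σ (m / 3) := by
  have : ∀ (σ : List ℕ) m v, (σ.foldl (fun (s : ℕ × Option Bool) b => (s.1 / 3, cond s.2.isSome s.2
      (if s.1 % 3 = 1 then some (b == 1) else if s.1 % 3 = 2 then some (!(b == 1)) else none)))
      (m, some v)).2 = some v := fun σ => by
    induction σ with
    | nil => simp
    | cons b σ ih => intro m v; exact ih _ _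
  unfold tv
  rw [List.foldl_cons]
  split_ifs with h1 h2
  exacts [this _ _ _, this _ _ _, rfl]

theorem tv_mono {σ σ' : List ℕ} {m m' : ℕ} {β : Bool} (h : tv σ m = some β) (h1 : σ <+: σ')
    (h2 : m ≡ m' [MOD 3 ^ σ.length]) : tv σ' m' = some β := by
  induction σ generalizing σ' m m' with
  | nil => simp [tv] at h
  | cons b σ ih =>
    obtain ⟨σ', rfl, h3⟩ := List.cons_prefix_iff.1 h1
    have e : m % 3 = m' % 3 := h2.of_dvd (dvd_pow_self 3 (by simp))
    rw [tv_cons] at h ⊢
    rw [← e]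
    split_ifs at h ⊢ with a1 a2
    exacts [h, h, ih h h3 (Nat.ModEq.mul_left_cancel' (c := 3) (by norm_num) (by
      rw [Nat.mul_div_cancel' (by omega), Nat.mul_div_cancel' (by omega), ← pow_succ']; exact h2))]

theorem tv_none {σ : List ℕ} {m : ℕ} : tv σ m = none ↔ 3 ^ σ.length ∣ m := by
  induction σ generalizing m with
  | nil => simp [tv]
  | cons b σ ih =>
    have : 3 ^ (b :: σ).length ∣ m → m % 3 = 0 := fun h =>
      Nat.mod_eq_zero_of_dvd ((dvd_pow_self 3 (by simp)).trans h)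
    rw [tv_cons]
    split_ifs with a1 a2
    · simp only [reduceCtorEq, false_iff]; omega
    · simp only [reduceCtorEq, false_iff]; omega
    · rw [ih, List.length_cons, pow_succ', Nat.dvd_div_iff_mul_dvd (by omega)]

def cns (σ : List ℕ) (o : ℕ) (F : List (ℕ × Bool)) : Bool := F.all fun p => tv σ (p.1 + o) != some (!p.2)

def Forb (T1 : List ℕ → Bool) (F : List (ℕ × Bool)) : Prop :=
  ∃ n, ∀ σ : List ℕ, σ.length = n → T1 σ = true → ∀ o < 3 ^ n, cns σ o F = false

variable {T1 : List ℕ → Bool}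

theorem re_Forb (h : CI ∅ T1) (hb : ∀ σ, T1 σ = true → ∀ i ∈ σ, i < 2) : REPred (Forb T1) := by
  obtain ⟨V, hV, eV⟩ : ∃ V : List ℕ × ℕ → Option Bool, CI ∅ V ∧ ∀ a b, tv a b = V (a, b) :=
    ⟨_, ci_tv, fun _ _ => rfl⟩
  refine re_of_nat (fun F n => (allLists (List.range 2) n).all fun σ => !(decide (σ.length = n) && T1 σ) ||
    (List.range (3 ^ n)).all fun o => !cns σ o F) (by unfold cns; simp only [eV]; fun_prop) fun F => ?_
  refine exists_congr fun n => ?_
  simp only [List.all_eq_true, mem_allLists, List.mem_range, Bool.or_eq_true, Bool.not_eq_true',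
    Bool.and_eq_false_imp, decide_eq_true_eq]
  refine ⟨fun H σ _ => ?_, fun H σ a b => (H σ ⟨a.le, hb σ b⟩).resolve_left fun c => by simp [c a] at b⟩
  by_cases a : σ.length = n ∧ T1 σ = true
  · exact Or.inr (H σ a.1 a.2)
  · exact Or.inl fun b => by simpa [b] using a

open Classical in
noncomputable def zx (x : ℕ → ℕ) (j : ℤ) : Bool :=
  decide (∃ n m : ℕ, (m : ℤ) ≡ j [ZMOD 3 ^ n] ∧ tv (pre x n) m = some true)

theorem zx_eq {x : ℕ → ℕ} {j : ℤ} {n m : ℕ} {β : Bool} (h : (m : ℤ) ≡ j [ZMOD 3 ^ n])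
    (h1 : tv (pre x n) m = some β) : zx x j = β := by
  classical
  cases β
  · refine decide_eq_false ?_
    rintro ⟨n', m', a, b⟩
    rcases le_total n n' with e | e
    · rw [tv_mono h1 (pre_pf x e) (m' := m') (by
        rw [length_pre, ← Int.natCast_modEq_iff]; push_cast
        exact h.trans (a.symm.of_dvd (pow_dvd_pow 3 e)))] at b
      cases b
    · rw [tv_mono b (pre_pf x e) (m' := m) (by
        rw [length_pre, ← Int.natCast_modEq_iff]; push_cast
        exact a.trans (h.symm.of_dvd (pow_dvd_pow 3 e)))] at h1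
      cases h1
  · exact decide_eq_true ⟨n, m, h, h1⟩

theorem zx_avoid {x : ℕ → ℕ} (hx : ∀ n, T1 (pre x n) = true) (F : List (ℕ × Bool)) (h : Forb T1 F)
    (j : ℤ) : ∃ p ∈ F, zx x (j + p.1) ≠ p.2 := by
  obtain ⟨n, h⟩ := h
  have h0 : (0 : ℤ) < 3 ^ n := by positivity
  have h1 := Int.emod_nonneg j h0.ne'
  have := h _ (length_pre x n) (hx n) (j % 3 ^ n).toNat (by
    have := Int.emod_lt_of_pos j h0
    zify; rwa [Int.toNat_of_nonneg h1])
  simp only [cns, List.all_eq_false, bne_iff_ne, ne_eq, not_not] at this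
  obtain ⟨p, a, b⟩ := this
  refine ⟨p, a, ?_⟩
  rw [zx_eq (n := n) _ b]
  · simp
  · push_cast
    rw [Int.toNat_of_nonneg h1, add_comm]
    exact (Int.mod_modEq _ _).add_right _

theorem zx_ci (x : ℕ → ℕ) : CI (orc x) fun q : ℕ × ℕ => zx x (q.1 - q.2) := by
  obtain ⟨V, hV, eV⟩ : ∃ V : List ℕ × ℕ → Option Bool, CI (orc x) V ∧ ∀ a b, tv a b = V (a, b) :=
    ⟨_, ci_tv, fun _ _ => rfl⟩
  have hx := CI.self x
  refine CI.of_eq (f := fun q : ℕ × ℕ => (tv (pre x (q.1 + q.2))
    (q.1 + (3 ^ (q.1 + q.2) - 1) * q.2)).getD false) (by simp only [eV]; fun_prop) ?_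
  classical
  rintro ⟨p, q⟩
  have h : ((p + (3 ^ (p + q) - 1) * q : ℕ) : ℤ) ≡ p - q [ZMOD 3 ^ (p + q)] := by
    rw [Int.modEq_iff_dvd, Nat.cast_add, Nat.cast_mul, Nat.cast_sub (Nat.one_le_pow _ _ (by norm_num))]
    exact ⟨-q, by push_cast; ring⟩
  cases e : tv (pre x (p + q)) (p + (3 ^ (p + q) - 1) * q) with
  | some β => exact (zx_eq h e).symm
  | none =>
    have h1 := Int.natCast_dvd_natCast.2 (tv_none.1 e)
    rw [length_pre, Nat.cast_pow] at h1
    have h2 : (p : ℤ) - q = 0 := Int.eq_zero_of_abs_lt_dvd (h.dvd_iff.1 h1) (by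
      have : p + q < 3 ^ (p + q) := Nat.lt_pow_self (by norm_num)
      zify at this
      rw [abs_lt]; constructor <;> omega)
    refine (decide_eq_false ?_).symm
    rintro ⟨n, m, a, b⟩
    rw [h2, Int.modEq_zero_iff_dvd] at a
    rw [tv_none.2 (by rw [length_pre]; exact_mod_cast a)] at b
    cases b

def Good (z : ℕ → Bool) (σ : List ℕ) (o : ℕ) : Prop := ∀ i β, tv σ (i + o) = some β → z i = β

theorem uniq (n : ℕ) : ∀ (z : ℕ → Bool) (σ σ' : List ℕ) (o o' : ℕ), σ.length = n + 1 →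
    σ'.length = n + 1 → (∀ i ∈ σ, i < 2) → (∀ i ∈ σ', i < 2) → Good z σ o → Good z σ' o' →
    σ.take n = σ'.take n := by
  induction n with
  | zero => simp
  | succ n ih =>
    intro z σ σ' o o' l l' b b' g g'
    obtain ⟨u, τ, rfl⟩ := List.exists_cons_of_length_eq_add_one l
    obtain ⟨u', τ', rfl⟩ := List.exists_cons_of_length_eq_add_one l'
    have e : o % 3 = o' % 3 := by
      by_contra hn
      obtain ⟨c, τ, rfl⟩ := List.exists_cons_of_length_eq_add_one (l := τ) (by simpa using l)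
      have a1 := g (8 * o + 3) (c == 1) (by
        rw [tv_cons, if_neg (by omega), if_neg (by omega), tv_cons, if_pos (by omega)])
      have a2 := g (8 * o + 6) (!(c == 1)) (by
        rw [tv_cons, if_neg (by omega), if_neg (by omega), tv_cons, if_neg (by omega), if_pos (by omega)])
      by_cases h : (8 * o + 3 + o') % 3 = 1
      · rw [g' _ _ (by rw [tv_cons, if_pos h])] at a1
        rw [g' _ _ (by rw [tv_cons, if_pos (by omega)]), a1] at a2
        simp at a2
      · rw [g' _ _ (by rw [tv_cons, if_neg h, if_pos (by omega)])] at a1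
        rw [g' _ _ (by rw [tv_cons, if_neg (by omega), if_pos (by omega)]), a1] at a2
        simp at a2
    have a1 := g (2 * o + 1) _ (by rw [tv_cons, if_pos (by omega)])
    rw [g' _ _ (by rw [tv_cons, if_pos (by omega)])] at a1
    have a2 := b u List.mem_cons_self
    have a3 := b' u' List.mem_cons_self
    have a4 : u = u' := by interval_cases u <;> interval_cases u' <;> simp_all
    rw [List.take_succ_cons, List.take_succ_cons, a4, ih (fun k => z (3 * k + 2 * o)) τ τ' o
      ((2 * o + o') / 3) (by simpa using l) (by simpa using l')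
      (fun i hi => b i (List.mem_cons_of_mem _ hi)) (fun i hi => b' i (List.mem_cons_of_mem _ hi))
      (fun i β h => g _ _ (by rw [tv_cons, if_neg (by omega), if_neg (by omega), ← h]; congr 1; omega))
      (fun i β h => g' _ _ (by rw [tv_cons, if_neg (by omega), if_neg (by omega), ← h]; congr 1; omega))]

theorem cns_iff {z : ℕ → Bool} {σ : List ℕ} {o L : ℕ} : cns σ o (pre (fun i => (i, z i)) L) = true ↔
    ∀ i < L, ∀ β, tv σ (i + o) = some β → z i = β := by
  simp only [cns, pre, List.all_map, List.all_eq_true, List.mem_range, Function.comp, bne_iff_ne]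
  refine forall₂_congr fun i _ => ⟨fun h β e => ?_, fun h e => by simpa using h _ e⟩
  rw [e] at h
  cases β <;> simpa using h

theorem back (h : CI ∅ T1) (hb : ∀ σ, T1 σ = true → ∀ i ∈ σ, i < 2)
    (hp : ∀ σ τ, σ <+: τ → T1 τ = true → T1 σ = true) {z : ℕ → Bool} (hz : CI ∅ z)
    (H : ∀ L, ¬ Forb T1 (pre (fun i => (i, z i)) L)) : ∃ x, CI ∅ x ∧ ∀ n, T1 (pre x n) = true := by
  have key : ∀ n (Q : List ℕ → Prop), (∀ σ o, σ.length = n → T1 σ = true → Good z σ o → Q σ) →
      ∃ L, ∀ σ : List ℕ, σ.length = n → T1 σ = true → ∀ o < 3 ^ n,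
        cns σ o (pre (fun i => (i, z i)) L) = true → Q σ := by
    intro n Q hQ
    have hf : {a : List ℕ × ℕ | a.1 ∈ allLists (List.range 2) n ∧ a.2 < 3 ^ n}.Finite :=
      ((List.finite_toSet _).prod (Set.finite_lt_nat _)).subset fun _ h => h
    have : ∀ᶠ L in Filter.atTop, ∀ a ∈ {a : List ℕ × ℕ | a.1 ∈ allLists (List.range 2) n ∧ a.2 < 3 ^ n},
        cns a.1 a.2 (pre (fun i => (i, z i)) L) = true → Good z a.1 a.2 := by
      rw [Filter.eventually_all_finite hf]
      intro a _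
      by_cases g : Good z a.1 a.2
      · simp [g]
      · obtain ⟨i, hi⟩ := not_forall.1 g
        exact (Filter.eventually_gt_atTop i).mono fun L hL c => absurd (cns_iff.1 c i hL) hi
    obtain ⟨L, hL⟩ := this.exists
    exact ⟨L, fun σ a b o c d => hQ σ o a b (hL (σ, o)
      ⟨mem_allLists.2 ⟨a.le, fun i hi => List.mem_range.2 (hb σ b i hi)⟩, c⟩ d)⟩
  have ex : ∀ n, ∃ σ o, σ.length = n ∧ T1 σ = true ∧ Good z σ o ∧ o < 3 ^ n := fun n => by
    by_contra hn
    obtain ⟨L, hL⟩ := key n (fun σ => ∀ o < 3 ^ n, ¬ Good z σ o) fun σ _ a b _ o c d =>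
      hn ⟨σ, o, a, b, d, c⟩
    obtain ⟨L', hL'⟩ := key n (fun σ => ∃ o, Good z σ o) fun σ o _ _ c => ⟨o, c⟩
    refine H L' ⟨n, fun σ a b o c => Bool.eq_false_iff.2 fun d => ?_⟩
    obtain ⟨o', e⟩ := hL' σ a b o c d
    exact hn ⟨σ, o' % 3 ^ n, a, b, fun i β f => e i β (tv_mono f List.prefix_rfl
      (by rw [a]; exact (Nat.mod_modEq _ _).add_left _)), Nat.mod_lt _ (by positivity)⟩
  choose S o S1 S2 S3 S4 using ex
  obtain ⟨V, hV, eV⟩ : ∃ V : List ℕ × ℕ → Option Bool, CI ∅ V ∧ ∀ a b, tv a b = V (a, b) :=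
    ⟨_, ci_tv, fun _ _ => rfl⟩
  obtain ⟨f, hf, h2⟩ := CI.exists_choice (O := ∅) (p := fun (n : ℕ) (q : List ℕ × ℕ) =>
    (allLists (List.range 2) (n + 1)).all fun σ => (List.range (3 ^ (n + 1))).all fun o =>
      !(decide (σ.length = n + 1) && T1 σ && cns σ o (pre (fun i => (i, z i)) q.2)) ||
        decide (σ.take n = q.1)) (by unfold cns; simp only [eV]; fun_prop) fun n => by
    obtain ⟨L, hL⟩ := key (n + 1) (fun σ => σ.take n = (S (n + 1)).take n) fun σ o a b c =>
      uniq n z _ _ _ _ a (S1 _) (hb _ b) (hb _ (S2 _)) c (S3 _)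
    refine ⟨((S (n + 1)).take n, L), ?_⟩
    simp only [List.all_eq_true, List.mem_range, Bool.or_eq_true, Bool.not_eq_true', decide_eq_true_eq]
    intro σ _ o c
    refine or_iff_not_imp_left.2 fun d => ?_
    simp only [Bool.not_eq_false, Bool.and_eq_true, decide_eq_true_eq] at d
    exact hL σ d.1.1 d.1.2 o c d.2
  have h3 : ∀ n, (f n).1 = (S (n + 1)).take n := fun n => by
    have := List.all_eq_true.1 (List.all_eq_true.1 (h2 n) (S (n + 1)) (mem_allLists.2
      ⟨(S1 _).le, fun i hi => List.mem_range.2 (hb _ (S2 _) i hi)⟩)) _ (List.mem_range.2 (S4 _))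
    simpa [S1, S2, cns_iff.2 fun i _ => S3 (n + 1) i, eq_comm] using this
  have h4 : ∀ n N, n < N → (S N).take n = (S (n + 1)).take n := fun n N hN => by
    have := uniq n z ((S N).take (n + 1)) _ (o N) _ (by simp [S1]; omega) (S1 _)
      (fun i hi => hb _ (S2 _) i (List.mem_of_mem_take hi)) (hb _ (S2 _))
      (fun i β e => S3 N i β (tv_mono e (List.take_prefix _ _) rfl)) (S3 _)
    simpa [List.take_take] using this
  refine ⟨fun i => (f (i + 1)).1.getD i 0, by fun_prop, fun n => hp _ (S (n + 2)) ?_ (S2 _)⟩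
  rw [List.prefix_iff_eq_take]
  refine List.ext_getElem (by simp [S1]) fun i a b => ?_
  rw [length_pre] at a
  have := h3 (i + 1)
  rw [← h4 (i + 1) (n + 2) (by omega)] at this
  simp [pre, this, List.getElem?_eq_getElem (show i < (S (n + 2)).length by rw [S1]; omega)]

end Pool.Agent.H37.SF
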