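import Pool.Agent.H37.SF1
import Pool.Agent.H37.PP2

/-! The presented group, detection of separators and periodic points. -/

set_option autoImplicit false
set_option maxHeartbeats 400000

namespace Pool.Agent.H37.SF

open Encodable PP

variable {r : ℕ} {α β : Type} [Primcodable α] [Primcodable β]

def CW (f : α → FreeGroup (Fin r)) : Prop :=
  ∃ w : α → Wd r, CI ∅ w ∧ ∀ a, FreeGroup.mk (w a) = f a

theorem CW.mul {f g : α → FreeGroup (Fin r)} (hf : CW f) (hg : CW g) : CW fun a => f a * g a :=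
  let ⟨v, v1, v2⟩ := hf
  let ⟨w, w1, w2⟩ := hg
  ⟨fun a => v a ++ w a, by fun_prop, fun a => by rw [← FreeGroup.mul_mk, v2, w2]⟩

theorem CW.inv {f : α → FreeGroup (Fin r)} (hf : CW f) : CW fun a => (f a)⁻¹ :=
  let ⟨v, v1, v2⟩ := hf
  ⟨fun a => FreeGroup.invRev (v a), by fun_prop, fun a => by rw [← FreeGroup.inv_mk, v2]⟩

theorem CW.cond {f g : α → FreeGroup (Fin r)} {c : α → Bool} (hc : CI ∅ c) (hf : CW f) (hg : CW g) :
    CW fun a => cond (c a) (f a) (g a) :=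
  let ⟨v, v1, v2⟩ := hf
  let ⟨w, w1, w2⟩ := hg
  ⟨fun a => _root_.cond (c a) (v a) (w a), by fun_prop, fun a => by
    beta_reduce; cases c a <;> simp [v2, w2]⟩

theorem CW.pow {f : α → FreeGroup (Fin r)} {n : α → ℕ} (hf : CW f) (hn : CI ∅ n) :
    CW fun a => f a ^ n a :=
  let ⟨v, v1, v2⟩ := hf
  ⟨fun a => (List.replicate (n a) (v a)).flatten, by fun_prop, fun a => by rw [← FreeGroup.pow_mk, v2]⟩

theorem CW.fin [Finite β] (g : β → FreeGroup (Fin r)) {h : α → β} (hh : CI ∅ h) :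
    CW fun a => g (h a) :=
  ⟨fun a => (g (h a)).toWord, CI.dom_finite (fun b => (g b).toWord) hh, fun _ => FreeGroup.mk_toWord⟩

theorem CW.const (g : FreeGroup (Fin r)) : CW fun _ : α => g :=
  ⟨fun _ => g.toWord, by fun_prop, fun _ => FreeGroup.mk_toWord⟩

theorem re_fam {p : α → Prop} (hp : REPred p) {f : α → FreeGroup (Fin r)} (hf : CW f) :
    REPred fun w : Wd r => ∃ i, p i ∧ FreeGroup.mk w = f i := by
  obtain ⟨v, v1, v2⟩ := hf
  have := ci_red (r := r)
  exact re_exists (re_and (REPred.comp' hp (by fun_prop)) (re_of_bool (fun q : Wd r × α =>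
    decide (FreeGroup.reduce q.1 = FreeGroup.reduce (v q.2))) (by fun_prop) fun q => by
      rw [← v2, decide_eq_true_eq]; exact ⟨FreeGroup.reduce.sound, FreeGroup.reduce.exact⟩))

theorem cw_RR : CW fun q : Fin 5 × ℕ × Bool => RR FreeGroup.of q.1 q.2.1 q.2.2 := by
  have k : CI ∅ fun q : Fin 5 × ℕ × Bool => q.1 := by fun_prop
  have g := ((CW.fin (fun k => FreeGroup.of (![0, 0, 0, 3, 3] k) * FreeGroup.of (![1, 1, 1, 4, 4] k))
    k).pow (n := fun q => q.2.1) (by fun_prop)).mul (CW.fin (r := 8) (fun k =>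
      cond (![false, true, false, false, true] k) (FreeGroup.of (![0, 0, 0, 3, 3] k))⁻¹
        (FreeGroup.of (![0, 0, 0, 3, 3] k) * (FreeGroup.of (![1, 1, 1, 4, 4] k))⁻¹)) k)
  have u := (g.mul (CW.fin (dd FreeGroup.of) k)).mul g.inv
  have s := CW.fin (r := 8) (fun k => FreeGroup.of (![2, 2, 2, 5, 5] k)) k
  exact ((s.mul u).mul s.inv).mul (CW.cond (by fun_prop) u u.inv)

theorem cw_WW : CW fun F => WW (FreeGroup.of 0 * FreeGroup.of 1) (lit FreeGroup.of) F := by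
  have t := (CW.const (FreeGroup.of (6 : Fin 8))).pow (n := fun p : ℕ × Bool => p.1) (by fun_prop)
  obtain ⟨v, v1, v2⟩ : CW (lit FreeGroup.of) :=
    (t.mul (CW.cond (by fun_prop) (CW.const _) (CW.const _))).mul t.inv
  refine ⟨fun F => F.foldr (fun p u => u ++ v p ++ FreeGroup.invRev u ++ FreeGroup.invRev (v p))
    [(0, true), (1, true)], by fun_prop, fun F => ?_⟩
  induction F with
  | nil => rfl
  | cons p F ih =>
    simp only [List.foldr_cons, ← FreeGroup.mul_mk, ← FreeGroup.inv_mk, ih, v2]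
    rfl

theorem pres {A B : ℕ → Prop} {C : List (ℕ × Bool) → Prop} (hA : REPred A) (hB : REPred B)
    (hC : REPred C) : ∃ (G : Type) (_ : Group G) (gens : Fin 8 → G),
      Subgroup.closure (Set.range gens) = ⊤ ∧ (REPred fun w => PP.ev gens w = 1) ∧
      (∀ r, Rel A B C gens r → r = 1) ∧ ∀ (H : Type) [Group H] (γ : Fin 8 → H),
        (∀ r, Rel A B C γ r → r = 1) → ∃ φ : G →* H, ∀ i, φ (gens i) = γ i := by
  have hR : REPred fun w : Wd 8 => Rel A B C FreeGroup.of (FreeGroup.mk w) :=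
    re_or ((re_fam (p := fun _ => True) (re_of_bool (fun _ => true) (by fun_prop) (by simp))
      (CW.fin (FL FreeGroup.of) CI.id')).of_eq (by simp))
      (re_or (re_fam (re_or (re_and (REPred.comp' hA (by fun_prop))
        (re_of_bool (fun q => !q.2.2) (by fun_prop) (by simp))) (re_and (REPred.comp' hB (by fun_prop))
        (re_of_bool (fun q => q.2.2) (by fun_prop) (by simp)))) cw_RR) (re_fam hC cw_WW))
  set S := FreeGroup.mk '' {w | Rel A B C FreeGroup.of (FreeGroup.mk w)}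
  have h1 : ∀ r, Rel A B C FreeGroup.of r → PresentedGroup.mk S r = 1 := by
    rintro ⟨w⟩ h
    exact PresentedGroup.one_of_mem ⟨w, h, rfl⟩
  refine ⟨PresentedGroup S, inferInstance, PresentedGroup.of, PresentedGroup.closure_range_of S,
    re_wp hR, ?_, fun H _ γ h => ⟨PresentedGroup.toGroup (f := γ) ?_, fun _ => PresentedGroup.toGroup.of _⟩⟩
  · rintro _ (⟨i, rfl⟩ | ⟨q, h, rfl⟩ | ⟨F, h, rfl⟩)
    · rw [← h1 _ (Or.inl ⟨i, rfl⟩)]
      fin_cases i <;> simp [FL, cm, PresentedGroup.of]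
    · exact (map_R0 ..).symm.trans (h1 _ (Or.inr (Or.inl ⟨q, h, rfl⟩)))
    · rw [← h1 _ (Or.inr (Or.inr ⟨F, h, rfl⟩)), map_WW, map_mul]
      congr 1
      funext p
      unfold lit; cases p.2 <;> simp [PresentedGroup.of]
  · rintro _ ⟨w, hw, rfl⟩
    exact h _ (by simpa using Rel.map (FreeGroup.lift γ) hw)

variable {G : Type} [Group G] {A B : ℕ → Prop} {C : List (ℕ × Bool) → Prop} {gens : Fin 8 → G}

theorem detect (hc : Subgroup.closure (Set.range gens) = ⊤) (hr : ∀ r, Rel A B C gens r → r = 1)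
    (x : G → ℕ) (k : Fin 5) (hk : dd gens k ∉ core x) : ∃ D : ℕ → Bool, CI (orc (code gens x)) D ∧
      (∀ n, A n → D n = true) ∧ ∀ n, B n → D n = false := by
  obtain ⟨F, hF, eF⟩ := cw_RR
  have e : ∀ n c, PP.ev gens (F (k, n, c)) = RR gens k n c := fun n c => by
    rw [ev_eq, eF]; exact (map_R0 ..).trans (by simp [RR, dd])
  have c0 : dd gens k ^ 3 = 1 := by
    fin_cases k
    exacts [hr _ (Or.inl ⟨0, rfl⟩), hr _ (Or.inl ⟨1, rfl⟩), hr _ (Or.inl ⟨2, rfl⟩), hr _ (Or.inl ⟨3, rfl⟩),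
      hr _ (Or.inl ⟨4, rfl⟩)]
  have hy := CI.self (code gens x)
  obtain ⟨f, hf, h2⟩ := CI.exists_choice (O := orc (code gens x))
    (p := fun (n : ℕ) (q : Bool × Wd 8 × Wd 8) => code gens x (encode (q.2.1 ++ F (k, n, q.1) ++ q.2.2)) !=
      code gens x (encode (q.2.1 ++ q.2.2))) (by have := hF.of_empty (O := orc (code gens x)); fun_prop)
    fun n => by
      have : ∃ c, RR gens k n c ∉ core x := by
        by_contra hn
        push Not at hn
        have a := mul_mem (inv_mem (hn true)) (hn false)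
        simp only [RR, R0, cond] at a
        generalize gg (G := G) _ _ _ _ = g at a
        have c : (g * dd gens k * g⁻¹) ^ 3 = 1 := by rw [conj_pow, c0]; simp
        generalize hu : g * dd gens k * g⁻¹ = u at a c
        have : u ∈ core x := by
          convert a using 1
          rw [pow_three] at c
          calc u = u⁻¹ * u⁻¹ * (u * (u * u)) := by group
            _ = _ := by rw [c]; group
        rw [← hu] at this
        exact hk (by simpa [mul_assoc] using Subgroup.Normal.conj_mem' inferInstance _ this g)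
      obtain ⟨c, hc'⟩ := this
      obtain ⟨g, hg⟩ := not_forall.1 hc'
      obtain ⟨g', hg⟩ := not_forall.1 hg
      obtain ⟨v, rfl⟩ := ev_surj hc g
      obtain ⟨v', rfl⟩ := ev_surj hc g'
      exact ⟨(c, v, v'), by simpa [code, ev_append, e, mul_assoc] using hg⟩
  have h3 : ∀ n, RR gens k n (f n).1 ≠ 1 := fun n a => by
    simpa [code, ev_append, e, a] using h2 n
  refine ⟨fun n => (f n).1, by fun_prop, fun n a => ?_, fun n a => ?_⟩
  · by_contra e
    exact h3 n (hr _ (Or.inr (Or.inl ⟨(k, n, (f n).1), Or.inl ⟨a, Bool.eq_false_iff.2 e⟩, rfl⟩)))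
  · by_contra e
    exact h3 n (hr _ (Or.inr (Or.inl ⟨(k, n, (f n).1), Or.inr ⟨a, eq_true_of_ne_false e⟩, rfl⟩)))

abbrev C2 := Multiplicative (ZMod 2)
abbrev Q := Multiplicative ℤ × C2 × C2

def γQ : Fin 8 → Q := ![1, 1, (1, .ofAdd 1, 1), 1, 1, (1, 1, .ofAdd 1), (.ofAdd 1, 1), 1]

theorem relQ (r : Q) (h : Rel A B C γQ r) : r = 1 := by
  rcases h with ⟨i, rfl⟩ | ⟨⟨k, n, c⟩, h, rfl⟩ | ⟨F, h, rfl⟩
  · revert i; decide
  · have : dd γQ k = 1 := by clear h; revert k; decide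
    cases c <;> simp [RR, R0, this]
  · cases F with
    | nil => decide
    | cons p F => exact mul_inv_eq_one.2 (mul_inv_eq_iff_eq_mul.2 (mul_comm _ _))

theorem period {E : Type} [Finite E] (ξ : ℤ → E) (R : ℕ) : ∃ (p : ℕ) (ξ' : ℤ → E), 0 < p ∧
    (∀ m d : ℤ, (p : ℤ) ∣ d → ξ' (m + d) = ξ' m) ∧
      ∀ m, ∃ m', ∀ j : ℤ, j.natAbs ≤ R → ξ' (m + j) = ξ (m' + j) := by
  obtain ⟨i, i', h1, h2⟩ := Set.Finite.exists_lt_map_eq_of_forall_mem
    (f := fun (n : ℕ) (d : Fin (2 * R + 1)) => ξ (n * (2 * R + 1) + d)) (fun _ => Set.mem_univ _)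
    (Set.toFinite _)
  obtain ⟨p, hp, e⟩ : ∃ p : ℕ, 2 * R + 1 ≤ p ∧ (i' * (2 * R + 1) : ℤ) = i * (2 * R + 1) + p := by
    obtain ⟨k, rfl⟩ := Nat.exists_eq_add_of_lt h1
    exact ⟨(k + 1) * (2 * R + 1), by nlinarith, by push_cast; ring⟩
  generalize (i * (2 * R + 1) : ℤ) = a at h2 e
  refine ⟨p, fun m => ξ (a + m % p), by omega, fun m d hd => ?_, fun m => ⟨a + (m - R) % p + R, fun j hj => ?_⟩⟩
  · obtain ⟨c, rfl⟩ := hd
    simp
  have b1 := Int.emod_nonneg (m - R) (show (p : ℤ) ≠ 0 by omega)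
  have b2 := Int.emod_lt_of_pos (m - R) (show (0 : ℤ) < p by omega)
  have b3 : (m + j) % p = ((m - R) % p + (R + j)) % p := by rw [Int.emod_add_emod]; congr 1; ring
  beta_reduce
  rw [b3]
  generalize (m - R) % p = u at *
  by_cases h : u + (R + j) < p
  · rw [Int.emod_eq_of_lt (by omega) h]; congr 1; ring
  · have := congrFun h2 ⟨(u + (R + j) - p).toNat, by omega⟩
    simp only [e, Int.toNat_of_nonneg (show 0 ≤ u + (R + j) - p by omega)] at this
    rw [← Int.sub_emod_right, Int.emod_eq_of_lt (by omega) (by omega), this]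
    congr 1; ring

def cy2 {G : Type} [Group G] (u : G) (h : u ^ 2 = 1) : C2 →* G :=
  MonoidHom.mk' (fun x => u ^ x.toAdd.val) fun x y => by
    rw [toAdd_mul, ZMod.val_add, ← pow_eq_pow_mod _ h, pow_add]

theorem cm_iff {G : Type} [Group G] {x y : G} (h : cm x y = 1) : Commute x y :=
  mul_inv_eq_iff_eq_mul.1 (mul_inv_eq_one.1 h)

theorem periodic (hc : Subgroup.closure (Set.range gens) = ⊤) (hr : ∀ r, Rel A B C gens r → r = 1)
    {φ : G →* Q} (hφ : ∀ i, φ (gens i) = γQ i) {k : ℕ} (D : Finset G) (x : G → Fin k)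
    (hx : ∀ i, dd gens i ∈ core fun g => (x g).val) : ∃ y : G → Fin k,
      CI ∅ (code gens fun g => (y g).val) ∧ ∀ g, ∃ g', ∀ h ∈ D, y (g * h) = x (g' * h) := by
  set N := core fun g => (x g).val
  let q := QuotientGroup.mk' N
  have s1 : q (gens 2) ^ 2 = 1 := by
    rw [← map_pow, show gens 2 ^ 2 = 1 from hr _ (Or.inl ⟨5, rfl⟩), map_one]
  have s2 : q (gens 5) ^ 2 = 1 := by
    rw [← map_pow, show gens 5 ^ 2 = 1 from hr _ (Or.inl ⟨6, rfl⟩), map_one]
  have c1 := (cm_iff (hr _ (Or.inl ⟨7, rfl⟩))).map q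
  have c2 := (cm_iff (hr _ (Or.inl ⟨10, rfl⟩))).map q
  have c3 := (cm_iff (hr _ (Or.inl ⟨13, rfl⟩))).map q
  let ψ : Q →* G ⧸ N := (zpowersHom _ (q (gens 6))).noncommCoprod
    ((cy2 _ s1).noncommCoprod (cy2 _ s2) fun _ _ => c1.pow_pow _ _) fun _ _ =>
      ((c2.pow_right _).mul_right (c3.pow_right _)).zpow_left _
  have hψ : ψ.comp φ = q := MonoidHom.eq_of_eqOn_dense hc (by
    rintro _ ⟨i, rfl⟩
    have := fun i => (QuotientGroup.eq_one_iff _).2 (hx i)
    have a0 : q (gens 0) = 1 := this 0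
    have a1 : q (gens 1) = 1 := this 1
    have a7 : q (gens 7) = 1 := this 2
    have a3 : q (gens 3) = 1 := this 3
    have a4 : q (gens 4) = 1 := this 4
    rw [MonoidHom.comp_apply, hφ]
    fin_cases i <;> simp [γQ, ψ, cy2, a0, a1, a3, a4, a7, ZMod.val_one])
  let ξ : ℤ → C2 × C2 → Fin k := fun m e => x (ψ (.ofAdd m, e)).out
  have h1 : ∀ g, x g = ξ (φ g).1.toAdd (φ g).2 := fun g => by
    obtain ⟨h, hh⟩ := QuotientGroup.mk_out_eq_mul N g
    have : ψ (φ g) = QuotientGroup.mk g := DFunLike.congr_fun hψ g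
    simp only [ξ, ofAdd_toAdd, Prod.mk.eta, this, hh]
    exact Fin.ext (by simpa using (h.2 g 1).symm)
  obtain ⟨p, ξ', p0, p1, p2⟩ := period ξ (D.sup fun h => (φ h).1.toAdd.natAbs)
  refine ⟨fun g => ξ' (φ g).1.toAdd (φ g).2, ?_, fun g => ?_⟩
  · haveI : NeZero p := ⟨p0.ne'⟩
    let θ : G →* Multiplicative (ZMod p) × C2 × C2 :=
      ((Int.castAddHom (ZMod p)).toMultiplicative.prodMap (MonoidHom.id _)).comp φ
    refine fin_comp gens θ.ker _ fun g h hh => ?_
    have a1 : (((φ h).1.toAdd : ℤ) : ZMod p) = 0 := congrArg Prod.fst (MonoidHom.mem_ker.1 hh)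
    have a2 : (φ h).2 = 1 := congrArg Prod.snd (MonoidHom.mem_ker.1 hh)
    simp [a2, p1 _ _ ((ZMod.intCast_zmod_eq_zero_iff_dvd _ _).1 a1)]
  · obtain ⟨m, hm⟩ := p2 (φ g).1.toAdd
    refine ⟨gens 6 ^ (m - (φ g).1.toAdd) * g, fun h hh => ?_⟩
    rw [h1]
    simp [hφ, γQ, hm _ (Finset.le_sup (f := fun h => (φ h).1.toAdd.natAbs) hh)]

end Pool.Agent.H37.SF
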