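import Pool.Agent.H37.MedDefs

set_option autoImplicit false

namespace Pool.Agent.H37.Med

/-- the shift action on configurations -/
def shift {G A : Type} [Group G] (g : G) (x : G → A) : G → A := fun h => x (g⁻¹ * h)

/-- subshifts of finite type: the pattern seen in a finite window is allowed everywhere -/
def SFT {G : Type} [Group G] {k : ℕ} (X : Set (G → Fin k)) : Prop :=
  ∃ (D : Finset G) (P : Set (D → Fin k)), X = {x | ∀ g, (fun h : D => x (g * h)) ∈ P}

/-- sofic subshifts: images of subshifts of finite type under continuous equivariant maps -/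
def Sofic {G : Type} [Group G] {l : ℕ} (Y : Set (G → Fin l)) : Prop :=
  ∃ (k : ℕ) (X : Set (G → Fin k)) (f : (G → Fin k) → G → Fin l), SFT X ∧ ContinuousOn f X ∧
    (∀ g, ∀ x ∈ X, f (shift g x) = shift g (f x)) ∧ f '' X = Y

end Pool.Agent.H37.Med
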