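import Pool.Agent.H37.SF2
import Pool.Agent.H37.SF3
import Pool.Agent.H37.PP3
import Pool.Agent.H37.SofDefs

/-! A sofic subshift whose degree is not the degree of a subshift of finite type. -/

set_option autoImplicit false
set_option maxHeartbeats 400000

namespace Pool.Agent.H37.SF

open Encodable PP

variable {G : Type} [Group G] {A B : ℕ → Prop} {C : List (ℕ × Bool) → Prop} {gens : Fin 8 → G}

def Rule (u : Bool × M) (v : Fin 8 → Bool × M) : Prop :=
  (∀ i, i ≠ 6 → (v i).1 = u.1) ∧ (v 0).2 = ma⁻¹ * u.2 ∧ (v 1).2 = mb⁻¹ * u.2 ∧ (v 6).2 = u.2 ∧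
    (v 7).2 = (cond u.1 ma 1)⁻¹ * u.2

theorem zeta (hc : Subgroup.closure (Set.range gens) = ⊤) (hr : ∀ r, Rel A B C gens r → r = 1)
    {φ : G →* Q} (hφ : ∀ i, φ (gens i) = γQ i) {x : G → Bool × M}
    (hx : ∀ g, Rule (x g) fun i => x (g * gens i)) (g : G) :
    (x g).1 = (x (gens 6 ^ (φ g).1.toAdd)).1 := by
  let K : Subgroup G :=
    { carrier := {h | ∀ g, (x (g * h)).1 = (x g).1}
      one_mem' := by simp
      mul_mem' := fun {a b} ha hb g => by rw [← mul_assoc, hb, ha]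
      inv_mem' := fun {a} ha g => by rw [← ha (g * a⁻¹)]; simp }
  have k0 : ∀ i, i ≠ 6 → gens i ∈ K := fun i hi g => (hx g).1 i hi
  have c : ∀ i : Fin 8, i < 6 → Commute (gens 6) (gens i) := fun i hi => by
    fin_cases i
    exacts [cm_iff (hr _ (Or.inl ⟨8, rfl⟩)), cm_iff (hr _ (Or.inl ⟨9, rfl⟩)),
      cm_iff (hr _ (Or.inl ⟨10, rfl⟩)), cm_iff (hr _ (Or.inl ⟨11, rfl⟩)),
      cm_iff (hr _ (Or.inl ⟨12, rfl⟩)), cm_iff (hr _ (Or.inl ⟨13, rfl⟩)), absurd hi (by decide),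
      absurd hi (by decide)]
  have k1 : ∀ i, i ≠ 6 → ∀ n : ℤ, (gens 6 ^ n)⁻¹ * gens i * gens 6 ^ n ∈ K := fun i hi n => by
    by_cases h : i < 6
    · rw [mul_assoc, ← ((c i h).zpow_left n).eq, inv_mul_cancel_left]; exact k0 i hi
    obtain rfl : i = 7 := by omega
    have c1 : Commute (gens 6) (gens 3 * gens 4) := (c 3 (by decide)).mul_right (c 4 (by decide))
    have e : gens 6 * gens 7 * (gens 6)⁻¹ = _ := mul_inv_eq_one.1 (hr _ (Or.inl ⟨14, rfl⟩))
    have m : gens 3 * gens 4 ∈ K := mul_mem (k0 3 (by decide)) (k0 4 (by decide))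
    generalize gens 3 * gens 4 = τ at *
    have c2 : Commute (gens 6 * τ) (gens 7) := by
      rw [mul_inv_eq_iff_eq_mul] at e
      rw [Commute, SemiconjBy, c1.eq, mul_assoc, e]; group
    have c3 := (c2.zpow_left n).eq
    rw [c1.mul_zpow] at c3
    have : (gens 6 ^ n)⁻¹ * gens 7 * gens 6 ^ n = τ ^ n * gens 7 * (τ ^ n)⁻¹ := by
      rw [eq_mul_inv_iff_mul_eq, mul_assoc, mul_assoc, ← c3]; group
    rw [this]
    exact mul_mem (mul_mem (zpow_mem m n) (k0 7 hi)) (inv_mem (zpow_mem m n))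
  have k2 : ∀ i, i ≠ 6 → (γQ i).1 = 1 := by decide
  have : ∀ n : ℤ, (x (g * gens 6 ^ n)).1 = (x (gens 6 ^ ((φ g).1.toAdd + n))).1 := by
    have hg : g ∈ Subgroup.closure (Set.range gens) := hc ▸ trivial
    induction hg using Subgroup.closure_induction_right with
    | one => simp
    | mul_right g _ y hy ih =>
      obtain ⟨i, rfl⟩ := hy
      intro n
      by_cases h : i = 6
      · rw [h, mul_assoc, ← zpow_one_add, ih]; simp [hφ, γQ, add_assoc]
      · simpa [mul_assoc, hφ, k2 i h, ih] using k1 i h n (g * gens 6 ^ n)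
    | mul_inv_cancel g _ y hy ih =>
      obtain ⟨i, rfl⟩ := hy
      intro n
      by_cases h : i = 6
      · rw [h, mul_assoc, ← zpow_neg_one, ← zpow_add, ih]; simp [hφ, γQ, add_assoc]
      · simpa [mul_assoc, hφ, k2 i h, ih] using inv_mem (k1 i h n) (g * gens 6 ^ n)
  simpa using this 0

theorem avoid (hc : Subgroup.closure (Set.range gens) = ⊤) (hr : ∀ r, Rel A B C gens r → r = 1)
    {φ : G →* Q} (hφ : ∀ i, φ (gens i) = γQ i) {x : G → Bool × M}
    (hx : ∀ g, Rule (x g) fun i => x (g * gens i)) (F : List (ℕ × Bool)) (hF : C F) :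
    ∃ p ∈ F, (x (gens 6 ^ p.1)).1 ≠ p.2 := by
  let S : Subgroup (G × (ℤ → M)) :=
    { carrier := {h | (φ h.1).1 = 1 ∧ ∀ g, (x (g * h.1)).2 = (h.2 (φ g).1.toAdd)⁻¹ * (x g).2}
      one_mem' := by simp
      mul_mem' := fun {a b} ha hb => ⟨by simp [ha.1, hb.1], fun g => by
        rw [Prod.fst_mul, ← mul_assoc, hb.2, ha.2]; simp [ha.1, mul_assoc]⟩
      inv_mem' := fun {a} ha => ⟨by simp [ha.1], fun g => by
        have := ha.2 (g * a.1⁻¹)
        simp [ha.1] at this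
        simp [this]⟩ }
  have t : ∀ (n : ℕ) g, (x (g * gens 6 ^ n)).2 = (x g).2 := fun n g => by
    induction n with
    | zero => simp
    | succ n ih => rw [pow_succ, ← mul_assoc, ← ih]; exact (hx _).2.2.2.1
  have s0 : (gens 0, fun _ => ma) ∈ S := ⟨by simp [hφ, γQ], fun g => (hx g).2.1⟩
  have s1 : (gens 1, fun _ => mb) ∈ S := ⟨by simp [hφ, γQ], fun g => (hx g).2.2.1⟩
  have s7 : (gens 7, fun j => cond (x (gens 6 ^ j)).1 ma 1) ∈ S := ⟨by simp [hφ, γQ], fun g => by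
    have := (hx g).2.2.2.2
    rwa [zeta hc hr hφ hx g] at this⟩
  have sc : ∀ (n : ℕ), ∀ h ∈ S, (gens 6 ^ n * h.1 * (gens 6 ^ n)⁻¹, fun j => h.2 (j + n)) ∈ S :=
    fun n h hh => ⟨by simp [hh.1], fun g => by
      rw [← t n]
      simp only [mul_assoc, inv_mul_cancel, mul_one]
      rw [← mul_assoc, hh.2, t]; simp [hφ, γQ]⟩
  let l : ℕ × Bool → G × (ℤ → M) := fun p => (lit gens p, fun j =>
    cond p.2 (cond (x (gens 6 ^ (j + p.1))).1 ma 1) (ma * (cond (x (gens 6 ^ (j + p.1))).1 ma 1)⁻¹))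
  have sl : ∀ p, l p ∈ S := by
    rintro ⟨n, c⟩
    cases c
    exacts [sc n _ (mul_mem s0 (inv_mem s7)), sc n _ s7]
  have sw : WW ((gens 0, fun _ => ma) * (gens 1, fun _ => mb)) l F ∈ S := by
    clear hF
    induction F with
    | nil => exact mul_mem s0 s1
    | cons p F ih => exact mul_mem (mul_mem (mul_mem ih (sl p)) (inv_mem ih)) (inv_mem (sl p))
  have e1 := (map_WW (MonoidHom.fst _ _) ((gens 0, fun _ => ma) * (gens 1, fun _ => mb)) l F).trans
    (hr _ (Or.inr (Or.inr ⟨F, hF, rfl⟩)))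
  have e2 := map_WW ((Pi.evalMonoidHom (fun _ => M) 0).comp (MonoidHom.snd _ _))
    ((gens 0, fun _ => ma) * (gens 1, fun _ => mb)) l F
  have e3 := sw.2 1
  rw [show (WW _ l F).1 = 1 from e1] at e3
  by_contra hn
  push Not at hn
  refine WW_ne (F := F) (fun p hp => ?_) (e2.symm.trans (by simpa using e3))
  have := hn p hp
  cases h : p.2 <;> simp [l, this, h]

theorem count {φ : G →* Q} (hφ : ∀ i, φ (gens i) = γQ i) (w : Wd 8) : (φ (PP.ev gens w)).1.toAdd =
    (w.countP (· == (6, true)) : ℕ) - (w.countP (· == (6, false)) : ℕ) := by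
  induction w with
  | nil => simp [PP.ev]
  | cons p w ih =>
    have : (φ (cond p.2 (gens p.1) (gens p.1)⁻¹)).1.toAdd = (if p == (6, true) then 1 else 0 : ℕ) -
        (if p == (6, false) then 1 else 0 : ℕ) := by
      obtain ⟨i, c⟩ := p
      cases c <;> simp only [cond, map_inv, hφ] <;> revert i <;> decide
    change (φ (_ * PP.ev gens w)).1.toAdd = _
    rw [map_mul, Prod.fst_mul, toAdd_mul, ih, this, List.countP_cons, List.countP_cons]
    push_cast; ring

open Med Ind in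
theorem main : ∃ (G : Type) (_ : Group G) (r : ℕ) (gens : Fin r → G),
    Subgroup.closure (Set.range gens) = ⊤ ∧ (REPred fun w => Med.ev gens w = 1) ∧
    ∃ (l : ℕ) (Y : Set (G → Fin l)), Y.Nonempty ∧ Sofic Y ∧ ∀ (k : ℕ) (X : Set (G → Fin k)), SFT X →
      ¬ (Weak (hat gens '' X) (hat gens '' Y) ∧ Weak (hat gens '' Y) (hat gens '' X)) := by
  classical
  obtain ⟨x0, y0, hx, hy, e⟩ := two
  obtain ⟨p, hp⟩ := Function.ne_iff.1 e
  let T1 : List ℕ → Bool := fun σ => T σ && σ[p]?.elim true (· == x0 p)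
  have t1 : CI ∅ T1 := by have := ci_T; fun_prop
  have t0 : ∀ σ, T1 σ = true → T σ = true := fun σ h => (Bool.and_eq_true _ _ ▸ h).1
  have t2 : ∀ σ, T1 σ = true → ∀ i ∈ σ, i < 2 := fun σ h => T_bin (t0 σ h)
  have t3 : ∀ σ τ, σ <+: τ → T1 τ = true → T1 σ = true := fun σ τ h a => by
    simp only [T1, Bool.and_eq_true] at a ⊢
    refine ⟨T_pf h a.1, ?_⟩
    cases e : σ[p]? with
    | none => rfl
    | some w => simpa [pf_get h e] using a.2
  have t4 : ∀ n, T1 (pre x0 n) = true := fun n => by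
    by_cases h : p < n
    · simp only [T1, hx, getElem?_pre x0 h]; simp
    · simp [T1, hx, h]
  obtain ⟨G, _, gens, hc, hre, hr, hu⟩ := pres (re_Dd 0 1) (re_Dd 1 0) (re_Forb t1 t2)
  obtain ⟨φ, hφ⟩ := hu Q γQ relQ
  obtain ⟨k, ⟨ε⟩⟩ := Finite.exists_equiv_fin (Bool × M)
  let X : Set (G → Fin k) := {x | ∀ g, Rule (ε.symm (x g)) fun i => ε.symm (x (g * gens i))}
  let f : (G → Fin k) → G → Fin 2 := fun x g => cond (ε.symm (x g)).1 1 0
  have hf : ∀ x w, hat gens (f x) (encode w) = (ε.symm (x (PP.ev gens w))).1.toNat := fun x w => by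
    simp only [hat, encodek, Option.elim, f]
    change (cond (ε.symm (x (PP.ev gens w))).1 1 0 : Fin 2).val = _
    cases (ε.symm (x (PP.ev gens w))).1 <;> rfl
  obtain ⟨γ, ζ, c, w0, m1, m2, m3⟩ := model _ _ _ Dd_disj (zx x0) (zx_avoid t4)
  obtain ⟨θ, hθ⟩ := hu _ γ m1
  let u : G → Fin k := fun g => ε (ζ ((θ g)⁻¹ w0), c ((θ g)⁻¹ w0))
  have u1 : u ∈ X := fun g => by
    simpa only [u, Rule, Equiv.symm_apply_apply, map_mul, mul_inv_rev, Equiv.Perm.mul_apply, hθ] using m3 _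
  have u2 : CI (orc x0) (hat gens (f u)) := by
    obtain ⟨Z, hZ, eZ⟩ : ∃ Z : ℕ × ℕ → Bool, CI (orc x0) Z ∧ ∀ a b : ℕ, zx x0 (a - b) = Z (a, b) :=
      ⟨_, zx_ci x0, fun _ _ => rfl⟩
    refine CI.of_eq (f := fun n => (decode n : Option (Wd 8)).elim 0 fun w =>
      (Z (w.countP (· == (6, true)), w.countP (· == (6, false)))).toNat) (by fun_prop) fun n => ?_
    cases e : (decode n : Option (Wd 8)) with
    | none => simp [hat, e]
    | some w =>
      have := hf u w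
      simp only [hat, encodek, e, Option.elim] at this ⊢
      rw [this, zeta hc hr hφ u1, ← eZ, ← count hφ, ← m2]
      simp [u, hθ]
  have nc : ∀ x ∈ X, ¬ CI ∅ (hat gens (f x)) := fun x h1 h2 => by
    obtain ⟨v, v1, v2⟩ := back t1 t2 t3 (z := fun i => (ε.symm (x (gens 6 ^ i))).1)
      (CI.of_eq (f := fun i => hat gens (f x) (encode (List.replicate i ((6 : Fin 8), true))) == 1)
        (by fun_prop) fun i => by
          rw [hf]
          simp only [PP.ev, List.map_replicate, List.prod_replicate, cond]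
          cases (ε.symm (x (gens 6 ^ i))).1 <;> rfl) fun L hL => by
      obtain ⟨q, a, b⟩ := avoid hc hr hφ h1 _ hL
      obtain ⟨i, -, rfl⟩ := List.mem_map.1 a
      exact b rfl
    exact not_comp (fun n => t0 _ (v2 n)) v1
  refine ⟨G, inferInstance, 8, gens, hc, hre, 2, f '' X, ⟨_, u, u1, rfl⟩, ⟨k, X, f,
    ⟨insert 1 (Finset.univ.image gens), {v | Rule (ε.symm (v ⟨1, by simp⟩))
      fun i => ε.symm (v ⟨gens i, by simp⟩)}, by simp [X]⟩,
    (continuous_pi fun g => (continuous_of_discreteTopology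
      (f := fun a => (cond (ε.symm a).1 1 0 : Fin 2))).comp (continuous_apply g)).continuousOn,
    fun _ _ _ => rfl, rfl⟩, ?_⟩
  rintro k' _ ⟨D, P, rfl⟩ ⟨a, b⟩
  obtain ⟨_, ⟨x, x1, rfl⟩, x2⟩ := a _ ⟨_, ⟨u, u1, rfl⟩, rfl⟩
  by_cases h : ∀ i, dd gens i ∈ core fun g => (x g).val
  · obtain ⟨y, y1, y2⟩ := periodic hc hr hφ D x h
    obtain ⟨_, ⟨_, ⟨v, v1, rfl⟩, rfl⟩, v2⟩ := b _ ⟨y, fun g => by
      obtain ⟨g', hg⟩ := y2 g
      convert x1 g' using 2 with h
      exact hg _ h.2, rfl⟩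
    exact nc v v1 ((CI.of_ri v2).trans y1)
  obtain ⟨i, hi⟩ := not_forall.1 h
  obtain ⟨E, e1, e2, e3⟩ := detect hc hr _ i hi
  obtain ⟨z, z1, z2, z3⟩ := sep_path (e1.trans ((CI.of_ri x2).trans u2)) e2 e3 hy p
  have : CI (orc fun n => Nat.pair (x0 n) (x0 n)) x0 := by
    have := CI.self fun n => Nat.pair (x0 n) (x0 n)
    exact CI.of_eq (f := fun n => (Nat.pair (x0 n) (x0 n)).unpair.1) (by fun_prop) (by simp)
  have e := (indep z2 hx hx (z1.trans this)).elim id id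
  exact hp (by rw [← e, z3])

end Pool.Agent.H37.SF
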