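import Pool.Agent.H37.Gen

/-!
A minimal pair of s-degrees inside one enumeration degree.
-/

set_option autoImplicit false

namespace Pool.Agent.H37.SMin

open Pool.Agent.H37

def L (f : ℕ → Bool) (n : ℕ) : Bool :=
  if n % 2 = 0 then xor (f n) (xor (f (n + 3)) (f (n + 4))) else xor (f n) (f (n + 1))
def M (g : ℕ → Bool) (n : ℕ) : Bool :=
  if n % 2 = 0 then xor (g n) (g (n + 3)) else xor (g n) (xor (g (n + 1)) (g (n + 4)))
def ph (n : ℕ) : ℕ := if n % 2 = 0 then n + 3 else n + 1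

theorem ML (f : ℕ → Bool) : M (L f) = f := by
  funext n
  simp only [M, L]
  split_ifs <;> first | omega | simp [add_assoc]
theorem LM (f : ℕ → Bool) : L (M f) = f := by
  funext n
  simp only [M, L]
  split_ifs <;> first | omega | simp [add_assoc]

structure Good (L : (ℕ → Bool) → ℕ → Bool) : Prop where
  md : ∀ k f g, Agr (k + 4) f g → Agr k (L f) (L g)
  fl : ∀ f n, L (Function.update f (ph n) (!f (ph n))) n ≠ L f n
  ci : CI ∅ fun q : List ℕ × ℕ => L (fun j => q.1.getD j 0 % 2 == 1) q.2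

theorem good_L : Good L where
  md k f g h i hi := by
    simp only [L, h i (by omega), h (i + 3) (by omega), h (i + 4) (by omega), h (i + 1) (by omega)]
  fl f n := by unfold L ph; split_ifs <;> simp
  ci := by unfold L; fun_prop
theorem good_M : Good M where
  md k f g h i hi := by
    simp only [M, h i (by omega), h (i + 3) (by omega), h (i + 4) (by omega), h (i + 1) (by omega)]
  fl f n := by unfold M ph; split_ifs <;> simp
  ci := by unfold M; fun_prop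

def A (f : ℕ → Bool) : Set ℕ := {y | y % 2 = (f (y / 2)).toNat}

theorem mem_A (f : ℕ → Bool) (n : ℕ) (b : Bool) : 2 * n + b.toNat ∈ A f ↔ b = f n := by
  have : (2 * n + b.toNat) / 2 = n := by cases b <;> simp <;> omega
  simp only [A, Set.mem_setOf_eq, this]
  cases b <;> cases f n <;> simp

theorem split (y : ℕ) : ∃ (n : ℕ) (b : Bool), y = 2 * n + b.toNat := by
  obtain ⟨n, rfl | rfl⟩ := Nat.even_or_odd' y
  exacts [⟨n, false, rfl⟩, ⟨n, true, rfl⟩]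

theorem ered {L : (ℕ → Bool) → ℕ → Bool} (h : Good L) (g : ℕ → Bool) :
    ∃ W : Set (ℕ × List ℕ),
      (∃ f : ℕ × List ℕ →. ℕ, Partrec f ∧ ∀ p : ℕ × List ℕ, (f p).Dom ↔ p ∈ W) ∧
      ∀ x : ℕ, x ∈ A (L g) ↔ ∃ l : List ℕ, (x, l) ∈ W ∧ ∀ y ∈ l, y ∈ A g := by
  obtain ⟨L', hL⟩ : ∃ L' : List ℕ × ℕ → Bool, ∀ (l : List ℕ) n,
      L (fun j => l.getD j 0 % 2 == 1) n = L' (l, n) :=
    ⟨fun q => L (fun j => q.1.getD j 0 % 2 == 1) q.2, fun _ _ => rfl⟩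
  have h1 : CI ∅ L' := h.ci.of_eq fun q => hL _ _
  refine ⟨{p | (p.2.length == p.1 / 2 + 5 &&
      ((List.range (p.1 / 2 + 5)).all fun j => p.2.getD j 0 / 2 == j) &&
      p.1 % 2 == (L' (p.2, p.1 / 2)).toNat) = true},
    re_iff_dom.2 (re_of_bool _ (by fun_prop) fun _ => Iff.rfl), fun x => ?_⟩
  simp only [Set.mem_setOf_eq, Bool.and_eq_true, beq_iff_eq, List.all_eq_true, List.mem_range,
    ← hL]
  constructor
  · intro hx
    refine ⟨pre (fun j => 2 * j + (g j).toNat) (x / 2 + 5), ⟨⟨by simp, fun j hj => ?_⟩, ?_⟩,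
      fun y hy => ?_⟩
    · rw [getD_pre _ hj]; cases g j <;> simp <;> omega
    · rw [h.md (x / 2 + 1) g _ (fun j hj => ?_) _ (by omega)]
      · exact hx
      · rw [getD_pre _ hj]; cases g j <;> simp <;> omega
    · obtain ⟨j, -, rfl⟩ := List.mem_map.1 hy
      exact (mem_A _ _ _).2 rfl
  · rintro ⟨l, ⟨⟨h2, h3⟩, h4⟩, h5⟩
    rw [h.md (x / 2 + 1) g _ (fun j hj => ?_) _ (by omega)] at h4
    · exact h4
    · have h6 := h5 (l.getD j 0) (by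
        rw [List.getD_eq_getElem _ _ (by omega)]; exact List.getElem_mem _)
      simp only [A, Set.mem_setOf_eq, h3 j hj] at h6
      rw [h6]; cases g j <;> rfl

def Cl (W : ℕ × ℕ → Prop) (x : ℕ) (f : ℕ → Bool) : Prop := ∃ y ∈ A f, W (x, y)

theorem cl_iff {W : ℕ × ℕ → Prop} {x : ℕ} {f : ℕ → Bool} (h : ¬ Cl W x f) (g : ℕ → Bool) :
    Cl W x g ↔ ∃ n, (∃ b : Bool, W (x, 2 * n + b.toNat)) ∧ g n ≠ f n := by
  constructor
  · rintro ⟨y, h1, h2⟩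
    obtain ⟨n, b, rfl⟩ := split y
    exact ⟨n, ⟨b, h2⟩, fun h3 => h ⟨_, (mem_A _ _ _).2 (((mem_A _ _ _).1 h1).trans h3), h2⟩⟩
  · rintro ⟨n, ⟨b, h1⟩, h2⟩
    refine ⟨_, (mem_A _ _ _).2 ?_, h1⟩
    have : b ≠ f n := fun h3 => h ⟨_, (mem_A _ _ _).2 h3, h1⟩
    revert this h2
    cases b <;> cases f n <;> cases g n <;> simp

theorem step {L : (ℕ → Bool) → ℕ → Bool} (h : Good L) {V V' : ℕ → Prop} {f : ℕ → Bool} {k t : ℕ}
    (H : ∀ g, Agr k f g → ∀ l, ∃ h, Agr l g h ∧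
      ((∃ n, V n ∧ h n ≠ f n) ↔ ∃ n, V' n ∧ L h n ≠ L f n)) (hV : ∀ n, V n → n < t)
    {m : ℕ} (hm : V' m) (hk : k ≤ ph m) : V (ph m) := by
  obtain ⟨g, h1, h2⟩ := H (Function.update f (ph m) (!f (ph m)))
    (fun i hi => Function.update_of_ne (by omega) _ _) (t + m + 5)
  obtain ⟨n, h3, h4⟩ := h2.2 ⟨m, hm, by
    rw [h.md (m + 1) _ _ (h1.mono (by omega)) m (by omega)]; exact h.fl f m⟩
  rw [h1 n (by have := hV n h3; omega)] at h4
  by_contra h5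
  exact h4 (Function.update_of_ne (fun h6 : n = ph m => h5 (h6 ▸ h3)) _ _)

theorem bound {W : ℕ × ℕ → Prop} {x k : ℕ} {f : ℕ → Bool} (h : ¬ Cl W x f)
    (H : ∀ g, Agr k f g → ¬ Cl W x g) (n : ℕ) (hn : ∃ b : Bool, W (x, 2 * n + b.toNat)) : n < k := by
  by_contra h1
  exact H (Function.update f n (!f n)) (fun i hi => Function.update_of_ne (by omega) _ _)
    ((cl_iff h _).2 ⟨n, hn, by simp⟩)

theorem cl_open {W : ℕ × ℕ → Prop} {x : ℕ} {f : ℕ → Bool} (h : Cl W x f) :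
    ∃ k, ∀ g, Agr k f g → Cl W x g := by
  obtain ⟨y, h1, h2⟩ := h
  exact ⟨y / 2 + 1, fun g hg => ⟨y, by simpa [A, hg (y / 2) (by omega)] using h1, h2⟩⟩

theorem A_inj {f g : ℕ → Bool} (h : A f = A g) : f = g :=
  funext fun n => (mem_A g n _).1 (h ▸ (mem_A f n _).2 rfl)

theorem main : ∃ A B : Set ℕ,
      (∃ W : Set (ℕ × List ℕ),
        (∃ f : ℕ × List ℕ →. ℕ, Partrec f ∧ ∀ p : ℕ × List ℕ, (f p).Dom ↔ p ∈ W) ∧
        ∀ x : ℕ, x ∈ A ↔ ∃ l : List ℕ, (x, l) ∈ W ∧ ∀ y ∈ l, y ∈ B) ∧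
      (∃ W : Set (ℕ × List ℕ),
        (∃ f : ℕ × List ℕ →. ℕ, Partrec f ∧ ∀ p : ℕ × List ℕ, (f p).Dom ↔ p ∈ W) ∧
        ∀ x : ℕ, x ∈ B ↔ ∃ l : List ℕ, (x, l) ∈ W ∧ ∀ y ∈ l, y ∈ A) ∧
      (¬ ∃ f : ℕ →. ℕ, Partrec f ∧ ∀ n : ℕ, (f n).Dom ↔ n ∈ A) ∧
      (¬ ∃ f : ℕ →. ℕ, Partrec f ∧ ∀ n : ℕ, (f n).Dom ↔ n ∈ B) ∧
      ∀ C : Set ℕ,
        (∃ W : Set (ℕ × ℕ),
          (∃ f : ℕ × ℕ →. ℕ, Partrec f ∧ ∀ p : ℕ × ℕ, (f p).Dom ↔ p ∈ W) ∧
          ∀ x : ℕ, x ∈ C ↔ ∃ y ∈ A, (x, y) ∈ W) →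
        (∃ W : Set (ℕ × ℕ),
          (∃ f : ℕ × ℕ →. ℕ, Partrec f ∧ ∀ p : ℕ × ℕ, (f p).Dom ↔ p ∈ W) ∧
          ∀ x : ℕ, x ∈ C ↔ ∃ y ∈ B, (x, y) ∈ W) →
        ∃ f : ℕ →. ℕ, Partrec f ∧ ∀ n : ℕ, (f n).Dom ↔ n ∈ C := by
  let R := {p : ℕ × ℕ → Prop // REPred p}
  let Z := {p : ℕ → Prop // REPred p}
  obtain ⟨f, hf⟩ := generic (β := Bool) (ι := (R × ℕ ⊕ R × ℕ) ⊕ (R × R) ⊕ Z ⊕ Z)
    (Sum.elim (Sum.elim (fun p g => Cl p.1.1 p.2 g) fun p g => Cl p.1.1 p.2 (L g))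
      (Sum.elim (fun p g => ∃ x l, ∀ h, Agr l g h → ¬ (Cl p.1.1 x h ↔ Cl p.2.1 x (L h)))
        (Sum.elim (fun p g => A g ≠ {n | p.1 n}) fun p g => A (L g) ≠ {n | p.1 n})))
  have nA : ∀ (L : (ℕ → Bool) → ℕ → Bool) (Z : Set ℕ), Function.Injective L →
      (∃ k, (∀ g, Agr k f g → A (L g) ≠ Z) ∨ ∀ g, Agr k f g → ∀ l, ∃ h, Agr l g h ∧
        ¬ A (L h) ≠ Z) → A (L f) ≠ Z := by
    rintro L Z hL ⟨k, h | h⟩
    · exact h f (Agr.refl _ _)
    · obtain ⟨h1, a1, a2⟩ := h f (Agr.refl _ _) (k + 1)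
      obtain ⟨h2, b1, b2⟩ := h (Function.update f k (!f k))
        (fun i hi => Function.update_of_ne (by omega) _ _) (k + 1)
      have := b1 k (by omega)
      rw [← hL (A_inj ((not_not.1 a2).trans (not_not.1 b2).symm)), a1 k (by omega)] at this
      simp at this
  refine ⟨A f, A (L f), by simpa [ML] using ered good_M (L f), ered good_L f, fun h => ?_,
    fun h => ?_, fun C ⟨W, hW, h1⟩ ⟨W', hW', h2⟩ => re_iff_dom.2 ?_⟩
  · exact nA id _ Function.injective_id (hf (.inr (.inr (.inl ⟨_, re_iff_dom.1 h⟩)))) rfl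
  · exact nA L _ (Function.LeftInverse.injective ML)
      (hf (.inr (.inr (.inr ⟨_, re_iff_dom.1 h⟩)))) rfl
  replace hW := re_iff_dom.1 hW
  replace hW' := re_iff_dom.1 hW'
  change ∀ x, x ∈ C ↔ Cl (· ∈ W) x f at h1
  change ∀ x, x ∈ C ↔ Cl (· ∈ W') x (L f) at h2
  obtain ⟨k, hk | hk⟩ := hf (.inr (.inl (⟨_, hW⟩, ⟨_, hW'⟩)))
  · obtain ⟨x, l, h⟩ := hk f (Agr.refl _ _)
    exact absurd ((h1 x).symm.trans (h2 x)) (h f (Agr.refl _ _))
  have H : ∀ x g, Agr k f g → ∀ l, ∃ h, Agr l g h ∧ (Cl (· ∈ W) x h ↔ Cl (· ∈ W') x (L h)) := by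
    intro x g hg l
    obtain ⟨h, a1, a2⟩ := hk g hg l
    by_contra hn
    exact a2 ⟨x, l, fun h' a3 a4 => hn ⟨h', a1.trans a3, a4⟩⟩
  have key : ∀ x, x ∉ C → ∀ n, k + 4 ≤ n → ¬ ∃ b : Bool, (x, 2 * n + b.toNat) ∈ W := by
    intro x hx
    have n1 := mt (h1 x).2 hx
    have n2 := mt (h2 x).2 hx
    obtain ⟨t, ht⟩ : ∃ t, ∀ g, Agr t f g → ¬ Cl (· ∈ W) x g := by
      obtain ⟨t, ht | ht⟩ := hf (.inl (.inl (⟨_, hW⟩, x)))
      · exact absurd (ht f (Agr.refl _ _)) n1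
      · refine ⟨t, fun g hg hc => ?_⟩
        obtain ⟨l, hl⟩ := cl_open hc
        obtain ⟨h, a1, a2⟩ := ht g hg l
        exact a2 (hl h a1)
    obtain ⟨t', ht'⟩ : ∃ t, ∀ g, Agr t (L f) g → ¬ Cl (· ∈ W') x g := by
      obtain ⟨t, ht | ht⟩ := hf (.inl (.inr (⟨_, hW'⟩, x)))
      · exact absurd (ht f (Agr.refl _ _)) n2
      · refine ⟨t + 4, fun g hg hc => ?_⟩
        obtain ⟨l, hl⟩ := cl_open hc
        obtain ⟨h, a1, a2⟩ := ht (M g) (by simpa [ML] using good_M.md _ _ _ hg) (l + 4)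
        exact a2 (hl _ (by simpa [LM] using good_L.md _ _ _ a1))
    have b1 := bound n1 ht
    have b2 := bound n2 ht'
    have s1 := fun m => step (m := m) good_L (V := fun n => ∃ b : Bool, (x, 2 * n + b.toNat) ∈ W)
      (V' := fun n => ∃ b : Bool, (x, 2 * n + b.toNat) ∈ W') (f := f) (k := k) (fun g hg l => by
        obtain ⟨h, a1, a2⟩ := H x g hg l
        exact ⟨h, a1, (cl_iff n1 h).symm.trans (a2.trans (cl_iff n2 _))⟩) b1
    have s2 := fun m => step (m := m) good_M (V := fun n => ∃ b : Bool, (x, 2 * n + b.toNat) ∈ W')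
      (V' := fun n => ∃ b : Bool, (x, 2 * n + b.toNat) ∈ W) (f := L f) (k := k + 4)
      (fun g hg l => by
        obtain ⟨h, a1, a2⟩ := H x (M g) (by simpa [ML] using good_M.md _ _ _ hg) (l + 4)
        refine ⟨L h, by simpa [LM] using good_L.md _ _ _ a1, ?_⟩
        rw [ML, ML]
        exact (cl_iff n2 _).symm.trans (a2.symm.trans (cl_iff n1 _))) b2
    have hp : ∀ n, n < ph n := fun n => by unfold ph; split_ifs <;> omega
    have : ∀ d n, k + 4 ≤ n → t ≤ n + d → ¬ ∃ b : Bool, (x, 2 * n + b.toNat) ∈ W := by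
      intro d
      induction d with
      | zero => exact fun n _ h h' => absurd (b1 n h') (by omega)
      | succ d ih =>
        intro n c1 c2 h
        have c3 := hp n
        have c4 := hp (ph n)
        exact ih _ (by omega) (by omega) (s1 _ (s2 n h (by omega)) (by omega))
    exact fun n hn => this t n hn (by omega)
  refine (re_exists (p := fun x y => (x, y) ∈ W ∧ (k + 4 ≤ y / 2 ∨
    y % 2 = ((pre f (k + 4)).getD (y / 2) false).toNat)) (re_and hW (re_of_bool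
      (fun q => decide (k + 4 ≤ q.2 / 2) ||
        q.2 % 2 == ((pre f (k + 4)).getD (q.2 / 2) false).toNat) (by fun_prop)
      (by simp [-List.getD_eq_getElem?_getD])))).of_eq fun x => ⟨fun ⟨y, a1, a2⟩ => ?_, fun hx => ?_⟩
  · by_contra hx
    by_cases hy : k + 4 ≤ y / 2
    · obtain ⟨n, b, rfl⟩ := split y
      exact key x hx n (by cases b <;> simp at hy <;> omega) ⟨b, a1⟩
    · rw [getD_pre _ (by omega)] at a2
      exact hx ((h1 x).2 ⟨y, a2.resolve_left hy, a1⟩)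
  · obtain ⟨y, a1, a2⟩ := (h1 x).1 hx
    refine ⟨y, a2, (le_or_gt (k + 4) (y / 2)).imp_right fun h => ?_⟩
    rw [getD_pre _ h]; exact a1

end Pool.Agent.H37.SMin
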