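import Pool.Agent.H37.SchDefs

namespace Pool.Agent.H37.Sch

abbrev B := Fin 5 × Fin 3

def badj (u v : B) : Prop := u ≠ v ∧ (u.1 = v.1 ∨ u.1 = v.1 + 1 ∨ v.1 = u.1 + 1)

instance : DecidableRel badj := fun u v => by unfold badj; infer_instance

theorem badj_symm : ∀ u v, badj u v → badj v u := by decide

def adj {m : ℕ} : B ⊕ Fin m → B ⊕ Fin m → Prop
  | .inl u, .inl v => badj u v
  | .inl _, .inr _ => True
  | .inr _, .inl _ => True
  | .inr i, .inr j => i ≠ j

def Gr (m : ℕ) : SimpleGraph (B ⊕ Fin m) where
  Adj := adj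
  symm := ⟨by
    rintro (u | u) (v | v) h
    · exact badj_symm _ _ h
    · trivial
    · trivial
    · exact Ne.symm h⟩
  loopless := ⟨by
    rintro (u | u) h
    · exact h.1 rfl
    · exact h rfl⟩

def tab : List (List ℕ) :=
  [[0, 4615724703954, 4615724703912, 4615684467366, 4615684461192, 4615684403568, 0, 0, 0, 0, 0, 0, 4562656436184, 4147417820154, 659413445502],
  [4615724703954, 0, 4615724703961, 4615724703667, 4615724699551, 4615724656333, 0, 0, 0, 0, 0, 0, 4576497723385, 4244306830561, 1337636518351],
  [4615724703912, 4615724703961, 0, 4615724704010, 4615724701952, 4615724673140, 0, 0, 0, 0, 0, 0, 4590299480522, 4341156310904, 2015820061136],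
  [4615684467366, 4615724703667, 4615724704010, 0, 4615724704353, 4615724689947, 4603856998335, 4603859116017, 4603844292243, 0, 0, 0, 0, 0, 0],
  [4615684461192, 4615724699551, 4615724701952, 4615724704353, 0, 4615724706754, 4615721076442, 4615723900018, 4615714017502, 0, 0, 0, 0, 0, 0],
  [4615684403568, 4615724656333, 4615724673140, 4615724689947, 4615724706754, 0, 4615721194091, 4615724723561, 4615719782303, 0, 0, 0, 0, 0, 0],
  [0, 0, 0, 4603856998335, 4615721076442, 4615721194091, 0, 4615720605846, 4615690958298, 4615681075782, 4615196832498, 4610112278016, 0, 0, 0],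
  [0, 0, 0, 4603859116017, 4615723900018, 4615724723561, 4615720605846, 0, 4615725547104, 4615721429389, 4615479307747, 4612089604759, 0, 0, 0],
  [0, 0, 0, 4603844292243, 4615714017502, 4615719782303, 4615690958298, 4615725547104, 0, 4615696723099, 4615454601457, 4612064898469, 0, 0, 0],
  [0, 0, 0, 0, 0, 0, 4615681075782, 4615721429389, 4615696723099, 0, 4615761782996, 4614066931502, 4603938176145, 4437842729733, 2693840542407],
  [0, 0, 0, 0, 0, 0, 4615196832498, 4615479307747, 4615454601457, 4615761782996, 0, 4616044258245, 4604180297787, 4438084851375, 2694082664049],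
  [0, 0, 0, 0, 0, 0, 4610112278016, 4612089604759, 4612064898469, 4614066931502, 4616044258245, 0, 4618021584988, 4534973861782, 3372305736898],
  [4562656436184, 4576497723385, 4590299480522, 0, 0, 0, 0, 0, 0, 4603938176145, 4604180297787, 4618021584988, 0, 4631862872189, 4050528809747],
  [4147417820154, 4244306830561, 4341156310904, 0, 0, 0, 0, 0, 0, 4437842729733, 4438084851375, 4534973861782, 4631862872189, 0, 4728751882596],
  [659413445502, 1337636518351, 2015820061136, 0, 0, 0, 0, 0, 0, 2693840542407, 2694082664049, 3372305736898, 4050528809747, 4728751882596, 0]]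

def idx (u : B) : ℕ := 3 * u.1.val + u.2.val

def c7 (u v w : B) : Fin 7 :=
  ⟨((tab.getD (idx u) []).getD (idx v) 0 / 7 ^ idx w) % 7, Nat.mod_lt _ (by norm_num)⟩

def ok (u v a b : B) : Prop := badj a b → c7 u v a = c7 u v b → (a = u ∧ b = v) ∨ (a = v ∧ b = u)

instance (u v a b : B) : Decidable (ok u v a b) := by unfold ok; infer_instance

def ok2 (u v : B) : Prop := badj u v → ∀ a b, ok u v a b

instance (u v : B) : Decidable (ok2 u v) := by unfold ok2; infer_instance

theorem ok2_all : ∀ u v, ok2 u v := by decide +kernel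

theorem c7_ok : ∀ u v, badj u v → ∀ a b, badj a b → c7 u v a = c7 u v b →
    (a = u ∧ b = v) ∨ (a = v ∧ b = u) := ok2_all

def nb (u : B) : B := (u.1, u.2 + 1)

theorem nb_adj : ∀ u, badj u (nb u) := by decide

theorem three : ∀ a b c : B, a ≠ b → a ≠ c → b ≠ c → badj a b ∨ badj a c ∨ badj b c := by
  decide +kernel

/-- colouring in which base vertex `w` gets the special colour `z`. -/
def sp {m : ℕ} (w : B) (z : Fin 7 ⊕ Fin m) (a : B) : Fin 7 ⊕ Fin m :=
  if a = w then z else .inl (c7 w (nb w) a)

theorem sp_ok {m : ℕ} (w : B) (i : Fin m) (a b : B) (h : badj a b) :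
    sp w (.inr i) a ≠ sp w (.inr i) b := by
  unfold sp
  by_cases ha : a = w <;> by_cases hb : b = w
  · exact absurd (ha.trans hb.symm) h.1
  · simp [ha, hb]
  · simp [ha, hb]
  · simp only [ha, hb, if_false, ne_eq, Sum.inl.injEq]
    intro e
    rcases c7_ok w _ (nb_adj w) a b h e with h' | h'
    · exact ha h'.1
    · exact hb h'.2

theorem edge_col {m : ℕ} (u v : B ⊕ Fin m) (h : adj u v) :
    ∃ c : B ⊕ Fin m → Fin 7 ⊕ Fin m, ∀ a b, adj a b → c a = c b →
      (a = u ∧ b = v) ∨ (a = v ∧ b = u) := by
  have mix : ∀ (w : B) (i : Fin m), ∃ c : B ⊕ Fin m → Fin 7 ⊕ Fin m, ∀ a b, adj a b → c a = c b →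
      (a = .inl w ∧ b = .inr i) ∨ (a = .inr i ∧ b = .inl w) := by
    intro w i
    refine ⟨Sum.elim (sp w (.inr i)) .inr, ?_⟩
    rintro (a | a) (b | b) hab e
    · exact absurd e (sp_ok w i a b hab)
    · simp only [Sum.elim_inl, Sum.elim_inr, sp] at e
      split_ifs at e with hw
      simp_all
    · simp only [Sum.elim_inl, Sum.elim_inr, sp] at e
      split_ifs at e with hw
      simp_all
    · exact absurd (Sum.inr_injective e) hab
  rcases u with u | u <;> rcases v with v | v
  · refine ⟨Sum.map (c7 u v) id, ?_⟩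
    rintro (a | a) (b | b) hab e
    · simpa using c7_ok u v h a b hab (Sum.inl_injective e)
    · simp at e
    · simp at e
    · exact absurd (Sum.inr_injective e) hab
  · exact mix u v
  · obtain ⟨c, hc⟩ := mix v u
    exact ⟨c, fun a b x y => (hc a b x y).symm⟩
  · have huv : u ≠ v := h
    refine ⟨Sum.elim (sp (0, 0) (.inr v)) (fun a => .inr (if a = v then u else a)), ?_⟩
    rintro (a | a) (b | b) hab e
    · exact absurd e (sp_ok _ v a b hab)
    · simp only [Sum.elim_inl, Sum.elim_inr, sp] at e
      split_ifs at e with hw h2 <;> simp_all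
    · simp only [Sum.elim_inl, Sum.elim_inr, sp] at e
      split_ifs at e with hw h2 <;> simp_all
    · have hab' : a ≠ b := hab
      simp only [Sum.elim_inr, Sum.inr.injEq] at e
      split_ifs at e with h1 h2 h2 <;> simp_all

theorem col8 (m : ℕ) : (Gr m).Colorable (8 + m) := by
  have : (Gr m).Coloring ((Fin 7 ⊕ Fin 1) ⊕ Fin m) :=
    SimpleGraph.Coloring.mk (Sum.map (sp (0, 0) (.inr 0)) id) (by
      rintro (a | a) (b | b) hab e
      · exact sp_ok _ _ a b hab (Sum.inl_injective e)
      · simp at e
      · simp at e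
      · exact hab (Sum.inr_injective e))
  simpa using this.colorable

theorem not7 (m : ℕ) : ¬ (Gr m).Colorable (7 + m) := by
  classical
  rintro ⟨f⟩
  have hinj : Function.Injective fun i : Fin m => f (.inr i) := fun i j e => by
    by_contra h
    exact f.valid (show (Gr m).Adj (.inr i) (.inr j) from h) e
  have hc : (Finset.univ.image fun i : Fin m => f (.inr i))ᶜ.card = 7 := by
    rw [Finset.card_compl, Finset.card_image_of_injective _ hinj]
    simp
  obtain ⟨y, -, hy⟩ := Finset.exists_lt_card_fiber_of_mul_lt_card_of_maps_to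
    (s := (Finset.univ : Finset B)) (t := (Finset.univ.image fun i : Fin m => f (.inr i))ᶜ)
    (f := fun a => f (.inl a)) (n := 2) (fun a _ => by
      simp only [Finset.mem_compl, Finset.mem_image, Finset.mem_univ, true_and, not_exists]
      exact fun i => f.valid (show (Gr m).Adj (.inr i) (.inl a) from trivial))
    (by rw [hc]; decide)
  obtain ⟨a, b, c, ha, hb, hc', ab, ac, bc⟩ := Finset.two_lt_card_iff.1 hy
  simp only [Finset.mem_filter, Finset.mem_univ, true_and] at ha hb hc'
  rcases three a b c ab ac bc with h | h | h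
  · exact f.valid (show (Gr m).Adj (.inl a) (.inl b) from h) (ha.trans hb.symm)
  · exact f.valid (show (Gr m).Adj (.inl a) (.inl c) from h) (ha.trans hc'.symm)
  · exact f.valid (show (Gr m).Adj (.inl b) (.inl c) from h) (hb.trans hc'.symm)

theorem critical (m : ℕ) : Critical (8 + m) (Gr m) := by
  constructor
  · have : 8 + m = (7 + m) + 1 := by omega
    rw [this]
    push_cast
    have h := (SimpleGraph.chromaticNumber_eq_iff_colorable_not_colorable (G := Gr m)
      (n := 7 + m)).2 ⟨this ▸ col8 m, not7 m⟩
    exact_mod_cast h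
  · intro H hH
    have : ∃ u v, adj u v ∧ ¬ H.Adj u v := by
      by_contra hn
      push Not at hn
      apply hH
      refine SimpleGraph.Subgraph.ext ?_ ?_
      · ext v
        simp only [SimpleGraph.Subgraph.verts_top, Set.mem_univ, iff_true]
        rcases v with v | v
        · exact H.edge_vert (hn (.inl v) (.inl (nb v)) (nb_adj v))
        · exact H.edge_vert (hn (.inr v) (.inl (0, 0)) trivial)
      · ext a b
        exact ⟨fun h => H.adj_sub h, fun h => hn a b h⟩
    obtain ⟨u, v, huv, hn⟩ := this
    obtain ⟨c, hc⟩ := edge_col u v huv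
    have : H.coe.Coloring (Fin 7 ⊕ Fin m) :=
      SimpleGraph.Coloring.mk (fun a => c a) (by
        intro a b hab e
        have hab' : H.Adj a b := hab
        rcases hc a b (H.adj_sub hab') e with h | h
        · exact hn (h.1 ▸ h.2 ▸ hab')
        · exact hn (h.1 ▸ h.2 ▸ hab'.symm))
    have h2 : H.coe.Colorable (7 + m) := by simpa using this.colorable
    refine lt_of_le_of_lt h2.chromaticNumber_le ?_
    exact_mod_cast (by omega : 7 + m < 8 + m)

end Pool.Agent.H37.Sch
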