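import Mathlib

/-! Critical graphs and chromatic schemes. -/

namespace Pool.Agent.H37.Sch

/-- `χ(G) = k` and every proper subgraph has smaller chromatic number. -/
def Critical {V : Type} (k : ℕ) (G : SimpleGraph V) : Prop :=
  G.chromaticNumber = k ∧ ∀ H : G.Subgraph, H ≠ ⊤ → H.coe.chromaticNumber < k

/-- A proper colouring with `k` colours, vertices `x i` of colour `i`, and for `i < j` a path from
`x i` to `x j` all of whose vertices have colour `i` or `j` (alternately, as `f` is proper). -/
def HasScheme {V : Type} (k : ℕ) (G : SimpleGraph V) : Prop :=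
  ∃ (f : G.Coloring (Fin k)) (x : Fin k → V), (∀ i, f (x i) = i) ∧
    ∀ i j, i < j → ∃ p : G.Walk (x i) (x j), p.IsPath ∧ ∀ v ∈ p.support, f v = i ∨ f v = j

end Pool.Agent.H37.Sch
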