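import Pool.Agent.H37.SolDefs
import Pool.Agent.H37.Hd1
import Pool.Agent.H37.Defc2

/-! Computable rational valued functions, domination by a universal semimeasure. -/

set_option autoImplicit false

namespace Pool.Agent.H37.Sol

open Filter Topology MeasureTheory Rnd Defc Hd
open scoped ENNReal

section cq
variable {α β : Type} [Primcodable α] [Primcodable β]

/-- computable functions with rational values -/
def CQ (g : α → ℝ) : Prop := ∃ r : α → ℕ × ℕ × ℕ, CI ∅ r ∧ ∀ a, g a = val (r a)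

def qadd (p q : ℕ × ℕ × ℕ) : ℕ × ℕ × ℕ :=
  (p.1 * (q.2.2 + 1) + q.1 * (p.2.2 + 1), p.2.1 * (q.2.2 + 1) + q.2.1 * (p.2.2 + 1),
    p.2.2 * q.2.2 + p.2.2 + q.2.2)

def qmul (p q : ℕ × ℕ × ℕ) : ℕ × ℕ × ℕ :=
  (p.1 * q.1 + p.2.1 * q.2.1, p.1 * q.2.1 + p.2.1 * q.1, p.2.2 * q.2.2 + p.2.2 + q.2.2)

theorem val_add (p q : ℕ × ℕ × ℕ) : val (qadd p q) = val p + val q := by
  simp only [val, qadd]; push_cast
  rw [show (p.2.2 : ℝ) * q.2.2 + p.2.2 + q.2.2 + 1 = (p.2.2 + 1) * (q.2.2 + 1) by ring]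
  field_simp; ring

theorem val_mul (p q : ℕ × ℕ × ℕ) : val (qmul p q) = val p * val q := by
  simp only [val, qmul]; push_cast
  rw [show (p.2.2 : ℝ) * q.2.2 + p.2.2 + q.2.2 + 1 = (p.2.2 + 1) * (q.2.2 + 1) by ring]
  field_simp; ring

theorem CQ.of_eq {g h : α → ℝ} (H : CQ g) (e : ∀ a, g a = h a) : CQ h :=
  (funext e : g = h) ▸ H

theorem CQ.comp {g : β → ℝ} (H : CQ g) {f : α → β} (hf : CI ∅ f) : CQ fun a => g (f a) :=
  let ⟨r, h1, h2⟩ := H; ⟨fun a => r (f a), h1.comp hf, fun _ => h2 _⟩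

theorem CQ.nat {f : α → ℕ} (hf : CI ∅ f) : CQ fun a => (f a : ℝ) :=
  ⟨fun a => (f a, 0, 0), by fun_prop, fun a => by simp [val]⟩

theorem CQ.zero : CQ fun _ : α => (0 : ℝ) := (CQ.nat (CI.const 0)).of_eq (by simp)
theorem CQ.one : CQ fun _ : α => (1 : ℝ) := (CQ.nat (CI.const 1)).of_eq (by simp)
theorem CQ.two : CQ fun _ : α => (2 : ℝ) := (CQ.nat (CI.const 2)).of_eq (by simp)

theorem CQ.half : CQ fun _ : α => (2⁻¹ : ℝ) :=
  ⟨fun _ => (1, 0, 1), by fun_prop, fun a => by norm_num [val]⟩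

theorem CQ.add {g h : α → ℝ} (hg : CQ g) (hh : CQ h) : CQ fun a => g a + h a := by
  obtain ⟨r, h1, h2⟩ := hg
  obtain ⟨s, h3, h4⟩ := hh
  exact ⟨fun a => qadd (r a) (s a), by unfold qadd; fun_prop, fun a => by simp only [val_add, h2, h4]⟩

theorem CQ.mul {g h : α → ℝ} (hg : CQ g) (hh : CQ h) : CQ fun a => g a * h a := by
  obtain ⟨r, h1, h2⟩ := hg
  obtain ⟨s, h3, h4⟩ := hh
  exact ⟨fun a => qmul (r a) (s a), by unfold qmul; fun_prop, fun a => by simp only [val_mul, h2, h4]⟩

theorem CQ.sub {g h : α → ℝ} (hg : CQ g) (hh : CQ h) : CQ fun a => g a - h a := by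
  obtain ⟨s, h3, h4⟩ := hh
  refine (hg.add (h := fun a => - h a) ⟨fun a => ((s a).2.1, (s a).1, (s a).2.2), by fun_prop,
    fun a => ?_⟩).of_eq fun a => by ring
  simp only [h4, val]; ring

theorem CQ.pow {g : α → ℝ} (hg : CQ g) {k : α → ℕ} (hk : CI ∅ k) : CQ fun a => g a ^ k a := by
  obtain ⟨r, h1, h2⟩ := hg
  refine ⟨fun a => (fun s => qmul s (r a))^[k a] (1, 0, 0), by unfold qmul; fun_prop, fun a => ?_⟩
  beta_reduce
  induction k a with
  | zero => simp [val]
  | succ n ih => rw [Function.iterate_succ_apply', val_mul, ← ih, ← h2, pow_succ]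

theorem CQ.sum {l : α → List β} {g : α × β → ℝ} (hl : CI ∅ l) (hg : CQ g) :
    CQ fun a => ((l a).map fun b => g (a, b)).sum := by
  obtain ⟨r, h1, h2⟩ := hg
  refine ⟨fun a => (l a).foldr (fun b s => qadd (r (a, b)) s) (0, 0, 0),
    by unfold qadd; fun_prop, fun a => ?_⟩
  beta_reduce
  induction l a with
  | nil => simp [val]
  | cons b l ih => rw [List.foldr_cons, val_add, ← ih, ← h2]; simp

theorem CQ.elim {o : α → Option β} {g : α × β → ℝ} (ho : CI ∅ o) (hg : CQ g) :
    CQ fun a => (o a).elim 0 fun b => g (a, b) :=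
  (CQ.sum (l := fun a => (o a).toList) (by fun_prop) hg).of_eq fun a => by cases o a <;> simp

theorem CQ.lt {g h : α → ℝ} (hg : CQ g) (hh : CQ h) : CI ∅ fun a => decide (g a < h a) := by
  obtain ⟨r, h1, h2⟩ := hh.sub hg
  refine (show CI ∅ fun a => decide ((r a).2.1 < (r a).1) by fun_prop).of_eq fun a => ?_
  rw [decide_eq_decide, ← sub_pos (a := h a), show h a - g a = _ from h2 a, val,
     div_pos_iff_of_pos_right (by positivity),
    sub_pos, Nat.cast_lt]

end cq

theorem sum_W_cons (r : ℕ) (g : List Bool → ℝ) : ((W (r + 1)).map g).sum =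
    ((W r).map fun σ => g (false :: σ)).sum + ((W r).map fun σ => g (true :: σ)).sum := by
  induction r generalizing g with
  | zero => simp [W]
  | succ r ih => rw [sum_W_succ, ih, sum_W_succ, sum_W_succ]; rfl

theorem Semi.sum_le {M : List Bool → ℝ} (h : Semi M) (x : List Bool) (r : ℕ) :
    ((W r).map fun σ => M (x ++ σ)).sum ≤ M x := by
  induction r with
  | zero => simp [W]
  | succ r ih =>
    rw [sum_W_succ]
    refine le_trans (List.sum_le_sum fun σ _ => ?_) ih
    simpa using h.2.2 (x ++ σ)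

theorem Semi.anti {M : List Bool → ℝ} (h : Semi M) (x σ : List Bool) : M (x ++ σ) ≤ M x := by
  refine le_trans ?_ (h.sum_le x σ.length)
  exact List.single_le_sum (by simpa using fun _ _ => h.1 _) _
    (List.mem_map.2 ⟨σ, mem_W.2 rfl, rfl⟩)

/-- a universal semimeasure dominates a uniform family of stagewise semimeasures -/
theorem dom {M : List Bool → ℝ} (hM : Univ M) {s : ℕ × ℕ × List Bool → ℝ} (hs : CQ s)
    (h1 : ∀ i t, Semi fun x => s (i, t, x)) (h2 : ∀ i t x, s (i, t, x) ≤ s (i, t + 1, x)) :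
    ∃ d : ℝ, 0 < d ∧ ∀ i t x, d * (2⁻¹ ^ i * s (i, t, x)) ≤ M x := by
  let S : List Bool → ℕ → ℝ := fun x t => ∑ i ∈ Finset.range t, 2⁻¹ ^ (i + 1) * s (i, t, x)
  have m1 : ∀ i x, Monotone fun t => s (i, t, x) := fun i x =>
    monotone_nat_of_le_succ fun t => h2 i t x
  have p1 : ∀ i t x, 0 ≤ 2⁻¹ ^ (i + 1) * s (i, t, x) := fun i t x =>
    mul_nonneg (by positivity) ((h1 i t).1 x)
  have m2 : ∀ x, Monotone (S x) := fun x => monotone_nat_of_le_succ fun t => by
    simp only [S]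
    rw [Finset.sum_range_succ]
    refine le_trans (Finset.sum_le_sum fun i _ => ?_) (le_add_of_nonneg_right (p1 _ _ _))
    exact mul_le_mul_of_nonneg_left (h2 i t x) (by positivity)
  have b1 : ∀ x t, S x t ≤ 1 := fun x t => by
    have : ∀ t : ℕ, ∑ i ∈ Finset.range t, (2⁻¹ : ℝ) ^ (i + 1) = 1 - 2⁻¹ ^ t := fun t => by
      induction t with
      | zero => simp
      | succ t ih => rw [Finset.sum_range_succ, ih]; ring
    refine le_trans (Finset.sum_le_sum fun i _ => ?_) ((this t).le.trans (by simp))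
    exact mul_le_of_le_one_right (by positivity) (((h1 i t).anti [] x).trans (h1 i t).2.1)
  have bd : ∀ x, BddAbove (Set.range (S x)) := fun x => ⟨1, by rintro _ ⟨t, rfl⟩; exact b1 x t⟩
  have T : ∀ x, Tendsto (S x) atTop (𝓝 (⨆ t, S x t)) := fun x => tendsto_atTop_ciSup (m2 x) (bd x)
  obtain ⟨r, r1, r2⟩ : CQ fun q : List Bool × ℕ => S q.1 q.2 :=
    (CQ.sum (l := fun q : List Bool × ℕ => List.range q.2)
      (g := fun q => 2⁻¹ ^ (q.2 + 1) * s (q.2, q.1.2, q.1.1)) (by fun_prop)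
      ((CQ.half.pow (by fun_prop)).mul (hs.comp (by fun_prop)))).of_eq fun q => by
        simp only [S]; rw [← List.sum_toFinset _ List.nodup_range, List.toFinset_range]
  obtain ⟨d, d0, hd⟩ := hM.2.2 (fun x => ⨆ t, S x t)
    ⟨fun x => le_ciSup_of_le (bd x) 0 (by simp [S]), ciSup_le (b1 []), fun x =>
      le_of_tendsto_of_tendsto' ((T _).add (T _)) (T x) fun t => by
        simp only [S]
        rw [← Finset.sum_add_distrib]
        refine Finset.sum_le_sum fun i _ => ?_
        rw [← mul_add]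
        exact mul_le_mul_of_nonneg_left ((h1 i t).2.2 x) (by positivity)⟩
    ⟨r, r1.computable, fun x => by simp only [← r2]; exact ⟨m2 x, T x⟩⟩
  refine ⟨d / 2, by positivity, fun i t x => le_trans ?_ (hd x)⟩
  rw [div_mul_eq_mul_div, mul_div_assoc]
  refine mul_le_mul_of_nonneg_left (le_ciSup_of_le (bd x) (max t (i + 1)) ?_) d0.le
  refine le_trans ?_ (Finset.single_le_sum (fun j _ => p1 j _ x)
    (Finset.mem_range.2 (lt_of_lt_of_le i.lt_succ_self (le_max_right t _))))
  rw [pow_succ, mul_right_comm, ← div_eq_mul_inv]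
  gcongr
  exact m1 i x (le_max_left _ _)

theorem cyl_split (x : List Bool) : cyl x = cyl (x ++ [false]) ∪ cyl (x ++ [true]) := by
  ext ω
  simp only [cyl, Set.mem_setOf_eq, Set.mem_union, List.length_append, List.length_singleton,
    pre_succ]
  constructor
  · intro h; rw [h]; cases ω x.length <;> simp
  · rintro (h | h) <;> exact List.append_inj_left' h rfl

/-- a sequence along which a universal semimeasure stays below a multiple of the uniform measure
is random -/
theorem ml_of_bdd {M : List Bool → ℝ} (hM : Univ M) {ω : ℕ → Bool} {C : ℝ}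
    (h : ∀ n, 2 ^ n * M (pre ω n) ≤ C) : MLRandom ω := by
  intro V hV hm
  by_contra hn
  push Not at hn
  obtain ⟨D, hD, mD, eD⟩ := re_stage hV
  obtain ⟨F, hF, eF⟩ : ∃ F : (ℕ × List Bool) × ℕ → Bool, CI ∅ F ∧ ∀ a t, D a t = F (a, t) :=
    ⟨_, hD, fun _ _ => rfl⟩
  let A : ℕ → ℕ → Set (ℕ → Bool) := fun k t => {z | ∃ n ≤ t, D (2 * k, pre z n) t = true}
  let p : ℕ → ℕ → List Bool → List Bool → Bool := fun k t x σ => (σ.take x.length == x) &&
      (List.range (t + 1)).any fun n => F ((2 * k, σ.take n), t)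
  have e : ∀ k t x, A k t ∩ cyl x = {z | p k t x (pre z (x.length + t)) = true} :=
    fun k t x => by
      ext z
      simp only [A, p, cyl, Set.mem_inter_iff, Set.mem_setOf_eq, Bool.and_eq_true, beq_iff_eq,
        List.any_eq_true, List.mem_range, Nat.lt_succ_iff, ← eF,
        take_pre z (Nat.le_add_right x.length t)]
      rw [and_comm]
      refine and_congr_right fun _ => exists_congr fun n => and_congr_right fun hn => ?_
      rw [take_pre z (by omega)]
  have ms : ∀ k t x, MeasurableSet (A k t ∩ cyl x) := fun k t x => by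
    rw [e]; exact meas_set (fun σ => p k t x σ = true) _
  obtain ⟨d, d0, hd⟩ := dom hM (s := fun q => 4 ^ q.1 * P.real (A q.1 q.2.1 ∩ cyl q.2.2))
    ((((CQ.two.mul CQ.two).pow (k := fun q : ℕ × ℕ × List Bool => q.1) (by fun_prop)).mul
      ((CQ.nat (f := fun q : ℕ × ℕ × List Bool => (W (q.2.2.length + q.2.1)).countP
        (p q.1 q.2.1 q.2.2)) (by simp only [p]; fun_prop)).mul
        (CQ.half.pow (k := fun q : ℕ × ℕ × List Bool => q.2.2.length + q.2.1)
          (by fun_prop)))).of_eq fun q => by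
        rw [e, Measure.real, P_pre]; norm_num)
    (fun k t => ⟨fun x => by positivity, by
        have : P (A k t ∩ cyl []) ≤ 2⁻¹ ^ (2 * k) := le_trans (measure_mono fun z hz => by
          obtain ⟨⟨n, -, h⟩, -⟩ := hz
          exact ⟨n, (eD _).2 ⟨t, h⟩⟩) (hm (2 * k))
        have := ENNReal.toReal_mono (by simp) this
        simp only [ENNReal.toReal_pow, ENNReal.toReal_inv, ENNReal.toReal_ofNat] at this
        refine le_trans (mul_le_mul_of_nonneg_left this (by positivity)) (le_of_eq ?_)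
        rw [pow_mul, ← mul_pow]; norm_num, fun x => by
        rw [← mul_add, ← measureReal_union _ (ms _ _ _), ← Set.inter_union_distrib_left,
          ← cyl_split]
        refine (disj_cyl ?_ ?_).mono Set.inter_subset_right Set.inter_subset_right <;> simp⟩)
    (fun k t x => mul_le_mul_of_nonneg_left (measureReal_mono (Set.inter_subset_inter_left _
      fun z ⟨n, h1, h2⟩ => ⟨n, h1.trans t.le_succ, mD _ _ _ t.le_succ h2⟩)) (by positivity))
  obtain ⟨k, hk⟩ := pow_unbounded_of_one_lt (C / d) (one_lt_two (α := ℝ))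
  obtain ⟨n, hn⟩ := hn (2 * k)
  obtain ⟨s, hs⟩ := (eD _).1 hn
  have h1 := hd k (n + s) (pre ω (n + s))
  have h2 : A k (n + s) ∩ cyl (pre ω (n + s)) = cyl (pre ω (n + s)) :=
    Set.inter_eq_right.2 fun z hz => ⟨n, by omega, by
      have : pre z (n + s) = pre ω (n + s) := by simpa [cyl] using hz
      rw [← take_pre z (Nat.le_add_right n s), this, take_pre ω (Nat.le_add_right n s)]
      exact mD _ _ _ (by omega) hs⟩
  simp only [h2, Measure.real, P_cyl, length_pre, ENNReal.toReal_pow, ENNReal.toReal_inv,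
    ENNReal.toReal_ofNat] at h1
  have h3 := (mul_le_mul_of_nonneg_left h1 (by positivity : (0 : ℝ) ≤ 2 ^ (n + s))).trans (h _)
  rw [div_lt_iff₀ d0] at hk
  have : (2 : ℝ) ^ (n + s) * (d * (2⁻¹ ^ k * (4 ^ k * 2⁻¹ ^ (n + s)))) = 2 ^ k * d := by
    rw [show (4 : ℝ) = 2 * 2 by norm_num, mul_pow, inv_pow, inv_pow]; field_simp
  linarith

end Pool.Agent.H37.Sol
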