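import Pool.Agent.H37.ShDefs
import Pool.Agent.H37.Sol1
import Pool.Agent.H37.Kc1

/-! Heavy substrings exist at one of a tower of lengths. -/

set_option autoImplicit false

namespace Pool.Agent.H37.Sh

open Filter Topology Rnd Defc Sol Finset Classical

/-- concatenations of `m` words of `D` -/
noncomputable def Cat (D : Finset (List Bool)) : ℕ → Finset (List Bool)
  | 0 => {[]}
  | m + 1 => image₂ (· ++ ·) D (Cat D m)

theorem card_Cat (D : Finset (List Bool)) (m : ℕ) : (Cat D m).card ≤ D.card ^ m := by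
  induction m with
  | zero => simp [Cat]
  | succ m ih => rw [Cat, pow_succ']; exact (card_image₂_le _ _ _).trans (Nat.mul_le_mul_left _ ih)

theorem mem_Cat {D : Finset (List Bool)} {k m : ℕ} {σ : List Bool} (h : σ.length = k * m)
    (hD : ∀ τ, τ <:+: σ → τ.length = k → τ ∈ D) : σ ∈ Cat D m := by
  induction m generalizing σ with
  | zero => simpa [Cat] using h
  | succ m ih =>
    rw [Nat.mul_succ] at h
    refine mem_image₂.2 ⟨σ.take k, hD _ (List.take_prefix _ _).isInfix (by simp; omega), σ.drop k,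
      ih (by simp; omega) fun τ h => hD τ (h.trans (List.drop_suffix _ _).isInfix), by simp⟩

/-- the substrings of length `k` -/
noncomputable def Dic (k : ℕ) (x : List Bool) : Finset (List Bool) :=
  (W k).toFinset.filter (· <:+: x)

theorem mem_Dic {k : ℕ} {x σ : List Bool} : σ ∈ Dic k x ↔ σ.length = k ∧ σ <:+: x := by
  simp [Dic, mem_W]

theorem card_W (k : ℕ) : (W k).toFinset.card = 2 ^ k := by
  rw [List.toFinset_card_of_nodup (nodup_W k), length_W]

theorem Dic_pos {k : ℕ} {x : List Bool} (h : k ≤ x.length) : 0 < (Dic k x).card :=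
  card_pos.2 ⟨x.take k, mem_Dic.2 ⟨by simpa, (List.take_prefix _ _).isInfix⟩⟩

theorem round {X : Finset (List Bool)} {μ : List Bool → ℝ} (h0 : ∀ x, 0 ≤ μ x) {k m l : ℕ} {ε : ℝ}
    (e0 : 0 ≤ ε) (hk : ∀ x ∈ X, k ≤ x.length)
    (h : ∀ σ : List Bool, σ.length = k * m → ∑ x ∈ X.filter (σ <:+: ·), μ x ≤ ε * 2⁻¹ ^ (2 * l)) :
    ∑ x ∈ X.filter (fun x => (Dic k x).card ^ m ≤ (Dic (k * m) x).card * 2 ^ l), μ x ≤
      2 ^ 2 ^ k * (ε * 2⁻¹ ^ l) := by
  rw [← sum_fiberwise_of_maps_to (t := (W k).toFinset.powerset) (g := Dic k)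
    fun x _ => mem_powerset.2 (filter_subset _ _)]
  refine (sum_le_card_nsmul _ _ (ε * 2⁻¹ ^ l) fun D _ => ?_).trans (by simp [card_W])
  set B := (X.filter fun x => (Dic k x).card ^ m ≤ (Dic (k * m) x).card * 2 ^ l).filter
    fun x => Dic k x = D with hB
  rcases B.eq_empty_or_nonempty with e | ⟨x0, hx0⟩
  · rw [e, sum_empty]; positivity
  have hB' : ∀ x ∈ B, x ∈ X ∧ D.card ^ m ≤ (Dic (k * m) x).card * 2 ^ l ∧ Dic k x = D := by
    intro x hx
    simp only [hB, mem_filter] at hx
    exact ⟨hx.1.1, hx.2 ▸ hx.1.2, hx.2⟩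
  have p : (0 : ℝ) < D.card ^ m := by
    have := Dic_pos (hk _ (hB' _ hx0).1)
    rw [(hB' _ hx0).2.2] at this
    positivity
  set C := (Cat D m).filter fun σ => σ.length = k * m
  refine le_of_mul_le_mul_left ?_ p
  calc _ ≤ ∑ x ∈ B, 2 ^ l * ∑ σ ∈ C, if σ <:+: x then μ x else 0 := by
        rw [mul_sum]
        refine sum_le_sum fun x hx => ?_
        obtain ⟨-, a, b⟩ := hB' x hx
        rw [← sum_filter, sum_const, nsmul_eq_mul, ← mul_assoc]
        refine mul_le_mul_of_nonneg_right ?_ (h0 x)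
        have : (Dic (k * m) x).card ≤ (C.filter (· <:+: x)).card := card_le_card fun σ hσ => by
          obtain ⟨c, d⟩ := mem_Dic.1 hσ
          exact mem_filter.2 ⟨mem_filter.2 ⟨mem_Cat c fun τ e f =>
            b ▸ mem_Dic.2 ⟨f, e.trans d⟩, c⟩, d⟩
        exact_mod_cast a.trans (by rw [mul_comm]; exact Nat.mul_le_mul_left _ this)
    _ = 2 ^ l * ∑ σ ∈ C, ∑ x ∈ B.filter (σ <:+: ·), μ x := by
        rw [← mul_sum, sum_comm]; simp only [sum_filter]
    _ ≤ 2 ^ l * (D.card ^ m * (ε * 2⁻¹ ^ (2 * l))) := by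
        refine mul_le_mul_of_nonneg_left ((sum_le_card_nsmul _ _ (ε * 2⁻¹ ^ (2 * l))
          fun σ hσ => le_trans (sum_le_sum_of_subset_of_nonneg (filter_subset_filter _
            fun x hx => (hB' x hx).1) fun _ _ _ => h0 _) (h σ (mem_filter.1 hσ).2)).trans ?_)
          (by positivity)
        rw [nsmul_eq_mul]
        refine mul_le_mul_of_nonneg_right ?_ (by positivity)
        exact_mod_cast (card_filter_le _ _).trans (card_Cat D m)
    _ = _ := by rw [two_mul, pow_add, inv_pow]; field_simp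

/-- the tower of lengths -/
def lv (n : ℕ) : ℕ → ℕ
  | 0 => n + 1
  | j + 1 => lv n j * (2 ^ ((n + 1) * lv n j) + (n + 1))

theorem lv_succ (n j : ℕ) : lv n j ≤ lv n (j + 1) := Nat.le_mul_of_pos_right _ (by positivity)
theorem lv_mono (n : ℕ) : Monotone (lv n) := monotone_nat_of_le_succ (lv_succ n)
theorem lt_lv (n j : ℕ) : n < lv n j := lv_mono n j.zero_le
theorem lv_mono' (j : ℕ) {n m : ℕ} (h : n ≤ m) : lv n j ≤ lv m j := by
  induction j with
  | zero => exact Nat.succ_le_succ h
  | succ j ih => unfold lv; gcongr; norm_num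

theorem dict {X : Finset (List Bool)} {μ : List Bool → ℝ} (h0 : ∀ x, 0 ≤ μ x) {n : ℕ} {ε : ℝ}
    (e0 : 0 ≤ ε) (hk : ∀ x ∈ X, x.length = (n + 1) * lv n (n + 1))
    (h : ∀ (σ : List Bool) l, n < l → σ.length = (n + 1) * l →
      ∑ x ∈ X.filter (σ <:+: ·), μ x ≤ ε * 2⁻¹ ^ (2 * l)) : ∑ x ∈ X, μ x ≤ ε := by
  let B : ℕ → List Bool → Prop := fun j x =>
    (Dic ((n + 1) * lv n j) x).card ^ (2 ^ ((n + 1) * lv n j) + (n + 1)) ≤
      (Dic ((n + 1) * lv n j * (2 ^ ((n + 1) * lv n j) + (n + 1))) x).card * 2 ^ lv n (j + 1)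
  have c : ∀ x ∈ X, ∃ j ∈ range (n + 1), B j x := fun x hx => by
    by_contra hn
    push Not at hn
    have : ∀ j i, j + i = n + 1 → 0 < j → (Dic ((n + 1) * lv n j) x).card < 2 ^ (i * lv n j) := by
      have st : ∀ j i, j + (i + 1) = n + 1 →
          (Dic ((n + 1) * lv n j) x).card ≤ 2 ^ ((i + 1) * lv n j) →
          (Dic ((n + 1) * lv n (j + 1)) x).card < 2 ^ (i * lv n (j + 1)) := fun j i e a => by
        have b := (not_le.1 (hn j (mem_range.2 (by omega)))).trans_le (Nat.pow_le_pow_left a _)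
        rw [← pow_mul, mul_assoc, mul_assoc, ← lv, Nat.succ_mul, pow_add] at b
        exact lt_of_mul_lt_mul_right b (Nat.zero_le _)
      intro j
      induction j with
      | zero => simp
      | succ j ih =>
        intro i e _
        refine st j i (by omega) ?_
        rcases j.eq_zero_or_pos with rfl | hj
        · rw [show i = n by omega]
          exact (card_filter_le _ _).trans (card_W _).le
        · exact (ih (i + 1) (by omega) hj).le
    have a := this (n + 1) 0 rfl n.succ_pos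
    have b := Dic_pos (hk x hx).ge
    simp only [zero_mul, pow_zero] at a
    omega
  calc _ ≤ ∑ x ∈ X, ∑ j ∈ range (n + 1), if B j x then μ x else 0 := sum_le_sum fun x hx => by
        obtain ⟨j, a, b⟩ := c x hx
        refine le_trans (le_of_eq (if_pos b).symm) (single_le_sum
          (f := fun j => if B j x then μ x else 0) (fun j _ => ?_) a)
        split_ifs <;> simp [h0]
    _ ≤ (range (n + 1)).card • (ε * 2⁻¹ ^ (n + 1)) := by
        rw [sum_comm]
        refine sum_le_card_nsmul _ _ _ fun j hj => ?_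
        rw [← sum_filter]
        refine (round h0 e0 (fun x hx => ?_) fun σ hσ =>
          h σ _ (lt_lv n (j + 1)) (by rw [hσ, mul_assoc]; rfl)).trans ?_
        · rw [hk x hx]; exact Nat.mul_le_mul_left _ (lv_mono n (mem_range.1 hj).le)
        · have : (2⁻¹ : ℝ) ^ lv n (j + 1) ≤ 2⁻¹ ^ (2 ^ ((n + 1) * lv n j) + (n + 1)) :=
            pow_le_pow_of_le_one (by norm_num) (by norm_num)
              (Nat.le_mul_of_pos_left _ (Nat.zero_lt_of_lt (lt_lv n j)))
          refine (mul_le_mul_of_nonneg_left (mul_le_mul_of_nonneg_left this e0)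
            (by positivity)).trans (le_of_eq ?_)
          rw [pow_add, inv_pow]; field_simp
    _ ≤ ε := by
        have : ((n + 1 : ℕ) : ℝ) ≤ 2 ^ (n + 1) := by exact_mod_cast Nat.lt_two_pow_self.le
        rw [card_range, nsmul_eq_mul, mul_left_comm, inv_pow, ← div_eq_mul_inv]
        exact mul_le_of_le_one_right e0 (div_le_one_of_le₀ this (by positivity))

end Pool.Agent.H37.Sh
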