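import Pool.Agent.H37.Sh1

/-! Killing heavy substrings; depth and negligibility for a sublinear bound. -/

set_option autoImplicit false

namespace Pool.Agent.H37.Sh

open Filter Topology MeasureTheory Rnd Defc Sol Finset Encodable Hd Classical

def inf (σ x : List Bool) : Bool :=
  (List.range (x.length + 1)).any fun i => (x.drop i).take σ.length == σ

theorem inf_iff {σ x : List Bool} : inf σ x = true ↔ σ <:+: x := by
  simp only [inf, List.any_eq_true, List.mem_range, beq_iff_eq]
  constructor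
  · rintro ⟨i, -, h⟩
    rw [← h]; exact (List.take_prefix _ _).isInfix.trans (List.drop_suffix _ _).isInfix
  · rintro ⟨s, t, rfl⟩
    exact ⟨s.length, by simp, by simp⟩

def hh (n : ℕ) : ℕ := (n + 1) * lv n (n + 1)

def ff (k : ℕ) : ℕ :=
  ((List.range (k + 1)).map fun n => 5 * min (lv n (n + 1)) (k / (n + 1))).foldr max 0

theorem ci_lv : CI ∅ fun p : ℕ × ℕ => lv p.1 p.2 :=
  CI.of_rec (g := fun n => n + 1) (h := fun n _ l => l * (2 ^ ((n + 1) * l) + (n + 1)))
    (by fun_prop) (by fun_prop) (fun _ => rfl) fun _ _ => rfl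

theorem ci_top : CI ∅ fun n => lv n (n + 1) := ci_lv.comp (g := fun n => (n, n + 1)) (by fun_prop)

theorem ci_hh : CI ∅ hh := CI.mul (by fun_prop) ci_top

theorem ff_eq (k : ℕ) : ff k = (range (k + 1)).sup fun n => 5 * min (lv n (n + 1)) (k / (n + 1)) := by
  rw [ff, ← List.toFinset_range]
  induction List.range (k + 1) with
  | nil => simp
  | cons a l ih => simp [ih]

theorem le_ff {n k : ℕ} (h : n ≤ k) : 5 * min (lv n (n + 1)) (k / (n + 1)) ≤ ff k := by
  rw [ff_eq]
  exact le_sup (f := fun n => 5 * min (lv n (n + 1)) (k / (n + 1))) (mem_range.2 (by omega))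

theorem hh_mono : Monotone hh := fun n m h => Nat.mul_le_mul (by omega)
  ((lv_mono' _ h).trans (lv_mono m (by omega)))

theorem le_hh (n : ℕ) : n ≤ hh n := (lt_lv n (n + 1)).le.trans (Nat.le_mul_of_pos_left _ n.succ_pos)

theorem order_ff : Order ff := by
  have m : Monotone ff := fun a b h => by
    rw [ff_eq]
    refine Finset.sup_le fun n hn => le_trans ?_ (le_ff (n := n) (by simp at hn; omega))
    gcongr
  refine ⟨CI.computable ?_, m, tendsto_atTop_atTop_of_monotone m fun b => ⟨hh b, ?_⟩⟩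
  · obtain ⟨F, hF, eF⟩ : ∃ F : ℕ → ℕ, CI ∅ F ∧ ∀ n, lv n (n + 1) = F n := ⟨_, ci_top, fun _ => rfl⟩
    unfold ff; simp only [eF]; fun_prop
  · refine le_trans ?_ (le_ff (le_hh b))
    have := lt_lv b (b + 1)
    rw [hh, Nat.mul_div_cancel_left _ b.succ_pos]; omega

theorem lim_ff : Tendsto (fun k => (ff k : ℝ) / k) atTop (𝓝 0) := by
  refine tendsto_order.2 ⟨fun a ha => .of_forall fun k => ha.trans_le (by positivity),
    fun a ha => ?_⟩
  obtain ⟨N, hN⟩ := exists_nat_gt (5 / a)
  filter_upwards [eventually_ge_atTop (hh N), eventually_gt_atTop 0] with k hk k0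
  have : ff k * (N + 1) ≤ 5 * k := by
    rw [← Nat.le_div_iff_mul_le N.succ_pos, ff_eq]
    refine Finset.sup_le fun n _ => ?_
    rw [Nat.le_div_iff_mul_le N.succ_pos, mul_assoc]
    refine Nat.mul_le_mul_left _ ?_
    rcases le_total n N with h | h
    · refine le_trans (Nat.mul_le_mul_right _ ((min_le_left _ _).trans
        ((lv_mono' _ h).trans (lv_mono N (Nat.succ_le_succ h))))) ?_
      rwa [mul_comm]
    · exact (Nat.mul_le_mul (min_le_right _ _) (Nat.succ_le_succ h)).trans (Nat.div_mul_le_self _ _)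
  have h : (ff k : ℝ) * (N + 1) ≤ 5 * k := by exact_mod_cast this
  have k1 : (0 : ℝ) < k := by exact_mod_cast k0
  rw [div_lt_iff₀ ha] at hN
  rw [div_lt_iff₀ k1]
  refine lt_of_mul_lt_mul_right (h.trans_lt ?_) (by positivity : (0 : ℝ) ≤ N + 1)
  nlinarith

noncomputable def mass (n : ℕ) (L : List (List Bool)) (σ : List Bool) (g : List Bool → ℝ) : ℝ :=
  ((W (hh n)).map fun x => (((L.all fun τ => !inf τ x) && inf σ x).toNat : ℝ) * g x).sum

noncomputable def A (n : ℕ) (L : List (List Bool)) : Finset (List Bool) :=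
  (W (hh n)).toFinset.filter fun x => ∀ τ ∈ L, ¬ τ <:+: x

theorem mass_eq (n : ℕ) (L : List (List Bool)) (σ : List Bool) (g : List Bool → ℝ) :
    mass n L σ g = ∑ x ∈ (A n L).filter (σ <:+: ·), g x := by
  rw [mass, ← List.sum_toFinset _ (nodup_W _), A, filter_filter, sum_filter]
  refine sum_congr rfl fun x _ => ?_
  split_ifs with h
  · rw [inf_iff.2 h.2, List.all_eq_true.2 fun τ hτ => by simpa [← inf_iff] using h.1 τ hτ]; simp
  · have : ((L.all fun τ => !inf τ x) && inf σ x) = false := by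
      rw [← Bool.not_eq_true]
      simpa [← inf_iff] using h
    simp [this]

noncomputable def kill (q : List Bool × ℕ → ℝ) (n : ℕ) : ℕ → List (List Bool)
  | 0 => []
  | t + 1 => bif decide (n < ((decode t.unpair.1).getD ([] : List Bool)).length / (n + 1)) &&
        decide (2⁻¹ ^ (2 * (((decode t.unpair.1).getD ([] : List Bool)).length / (n + 1)) + n) <
          mass n (kill q n t) ((decode t.unpair.1).getD []) fun x => q (x, t))
      then (decode t.unpair.1).getD [] :: kill q n t else kill q n t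

variable {q : List Bool × ℕ → ℝ} {M : List Bool → ℝ}

theorem ci_kill (hq : CQ q) : CI ∅ fun p : ℕ × ℕ => kill q p.1 p.2 := by
  have := ci_hh
  have h : CQ fun p : ℕ × List (List Bool) × List Bool × ℕ =>
      mass p.1 p.2.1 p.2.2.1 fun x => q (x, p.2.2.2) :=
    CQ.sum (g := fun r : (ℕ × List (List Bool) × List Bool × ℕ) × List Bool =>
      (((r.1.2.1.all fun τ => !inf τ r.2) && inf r.1.2.2.1 r.2).toNat : ℝ) * q (r.2, r.1.2.2.2))
      (by fun_prop) ((CQ.nat (by unfold inf; fun_prop)).mul (hq.comp (by fun_prop)))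
  exact CI.of_rec (g := fun _ => []) (h := fun n t L =>
    bif decide (n < ((decode t.unpair.1).getD ([] : List Bool)).length / (n + 1)) &&
        decide (2⁻¹ ^ (2 * (((decode t.unpair.1).getD ([] : List Bool)).length / (n + 1)) + n) <
          mass n L ((decode t.unpair.1).getD []) fun x => q (x, t))
      then (decode t.unpair.1).getD [] :: L else L) (by fun_prop)
    (CI.cond (CI.and (by fun_prop) ((CQ.half.pow (by fun_prop)).lt
      (h.comp (f := fun p : ℕ × ℕ × List (List Bool) =>
        (p.1, p.2.2, (decode p.2.1.unpair.1).getD [], p.2.1)) (by fun_prop))))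
      (by fun_prop) (by fun_prop)) (fun _ => rfl) fun _ _ => rfl

theorem kill_step (n t : ℕ) : kill q n (t + 1) = kill q n t ∨ ∃ σ : List Bool,
    n < σ.length / (n + 1) ∧ 2⁻¹ ^ (2 * (σ.length / (n + 1)) + n) <
      mass n (kill q n t) σ (fun x => q (x, t)) ∧ kill q n (t + 1) = σ :: kill q n t := by
  rw [kill, Bool.cond_eq_ite]
  split_ifs with h
  · simp only [Bool.and_eq_true, decide_eq_true_eq] at h
    exact Or.inr ⟨_, h.1, h.2, rfl⟩
  · exact Or.inl rfl

theorem kill_mono (n : ℕ) : Monotone fun t => (kill q n t).toFinset :=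
  monotone_nat_of_le_succ fun t => by
    rcases kill_step (q := q) n t with h | ⟨σ, -, -, h⟩ <;> simp [h]

theorem kill_lt {n t : ℕ} : ∀ σ ∈ kill q n t, n < σ.length / (n + 1) := by
  induction t with
  | zero => simp [kill]
  | succ t ih => rcases kill_step (q := q) n t with h | ⟨σ, a, -, h⟩ <;> simp_all

theorem kill_inv (hS : Semi M) (h1 : ∀ p, q p ≤ M p.1) (n t : ℕ) :
    ∑ σ ∈ (kill q n t).toFinset, 2⁻¹ ^ (2 * (σ.length / (n + 1)) + n) +
      ∑ x ∈ A n (kill q n t), M x ≤ 1 := by
  induction t with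
  | zero =>
    have := (hS.sum_le [] (hh n)).trans hS.2.1
    rw [← List.sum_toFinset _ (nodup_W _)] at this
    simpa [kill, A] using this
  | succ t ih =>
    rcases kill_step (q := q) n t with h | ⟨σ, -, b, h⟩ <;> rw [h]
    · exact ih
    rw [mass_eq] at b
    have c := b.trans_le (sum_le_sum fun x _ => h1 (x, t))
    have d : A n (σ :: kill q n t) = (A n (kill q n t)).filter fun x => ¬ σ <:+: x := by
      ext x; simp only [A, mem_filter, List.forall_mem_cons]; tauto
    have e := sum_filter_add_sum_filter_not (A n (kill q n t)) (σ <:+: ·) M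
    rw [List.toFinset_cons, d]
    by_cases hσ : σ ∈ (kill q n t).toFinset
    · have : (0 : ℝ) < 2⁻¹ ^ (2 * (σ.length / (n + 1)) + n) := by positivity
      rw [insert_eq_of_mem hσ]; linarith
    · rw [sum_insert hσ]; linarith

theorem kill_fin (hS : Semi M) (h2 : ∀ x, Tendsto (fun t => q (x, t)) atTop (𝓝 (M x))) (n : ℕ) :
    ∃ t, ∑ x ∈ A n (kill q n t), M x ≤ 2⁻¹ ^ n := by
  let t0 := Function.argmin fun t => (A n (kill q n t)).card
  have e : ∀ t, t0 ≤ t → A n (kill q n t) = A n (kill q n t0) := fun t h =>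
    eq_of_subset_of_card_le (monotone_filter_right _ fun x _ a τ b => a τ
      (List.mem_toFinset.1 (kill_mono n h (List.mem_toFinset.2 b))))
      (Function.argmin_le (fun t => (A n (kill q n t)).card) t)
  refine ⟨t0, dict hS.1 (n := n) (by positivity) (fun x hx => ?_) fun σ l a b => ?_⟩
  · simpa [mem_W, hh] using (mem_filter.1 hx).1
  by_contra h
  rw [not_le, ← pow_add, add_comm] at h
  obtain ⟨T, hT⟩ := eventually_atTop.1 ((tendsto_finset_sum _ fun x _ => h2 x).eventually
    (lt_mem_nhds h))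
  have l1 : σ.length / (n + 1) = l := by rw [b, Nat.mul_div_cancel_left _ n.succ_pos]
  have l2 := Nat.right_le_pair (encode σ) (T + t0)
  have : kill q n (Nat.pair (encode σ) (T + t0) + 1) = σ :: kill q n (Nat.pair (encode σ) (T + t0)) := by
    rw [kill]
    simp only [Nat.unpair_pair, encodek, Option.getD_some, l1, mass_eq, 
      e _ ((Nat.le_add_left _ _).trans l2)]
    rw [decide_eq_true a, decide_eq_true (hT _ ((Nat.le_add_right _ _).trans l2))]; rfl
  rw [← e (Nat.pair (encode σ) (T + t0) + 1) (by omega), this, filter_false_of_mem, sum_empty] at h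
  · exact absurd h (by positivity : (0 : ℝ) ≤ _).not_gt
  · exact fun x hx => (mem_filter.1 hx).2 σ List.mem_cons_self

theorem inf_pre {τ : List Bool} {X : ℕ → Bool} {h : ℕ} (H : τ <:+: pre X h) :
    ∃ i, pre (fun j => X (i + j)) τ.length = τ := by
  obtain ⟨s, t, e⟩ := H
  refine ⟨s.length, List.ext_getElem? fun j => ?_⟩
  by_cases hj : j < τ.length
  · have := congrArg List.length e
    simp only [List.length_append, length_pre] at this
    rw [getElem?_pre _ hj, ← getElem?_pre X (k := h) (by omega), ← e, List.append_assoc,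
      List.getElem?_append_right (by omega), List.getElem?_append_left (by omega)]
    simp
  · rw [List.getElem?_eq_none (by simpa using hj), List.getElem?_eq_none (by simpa using hj)]

theorem core (hS : Semi M) (hq : CQ q) (h1 : ∀ p, q p ≤ M p.1)
    (h2 : ∀ x, Tendsto (fun t => q (x, t)) atTop (𝓝 (M x))) {V : List Bool →. List Bool}
    (hV : Ki.Opt V) (c : ℕ) : ∃ n0, ∀ n, n0 ≤ n → ∀ S : Finset (List Bool),
      (∀ σ ∈ S, ∃ X ∈ SC V ff c, cut X (hh n) = σ) → ∑ σ ∈ S, M σ ≤ 2⁻¹ ^ n := by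
  obtain ⟨F, hF, eF⟩ : ∃ F : ℕ × ℕ → List (List Bool), CI ∅ F ∧ ∀ n t, kill q n t = F (n, t) :=
    ⟨_, ci_kill hq, fun _ _ => rfl⟩
  let R : ℕ → ℕ × List Bool → Prop := fun n p =>
    p.1 = 2 * (p.2.length / (n + 1)) + n + (n + 1) ∧ ∃ t, p.2 ∈ kill q n t
  obtain ⟨N, n1, n2, n3⟩ := Kc.kc (R := fun p => ∃ n, R n p)
    (re_of_exists (fun p (r : ℕ × ℕ) => (p.1 == 2 * (p.2.length / (r.1 + 1)) + r.1 + (r.1 + 1)) &&
      (F r).contains p.2) (by fun_prop) fun p => by simp [R, eF])
    (Kc.share (fun _ => by positivity) fun n S hS' => by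
      obtain ⟨t, ht⟩ := exists_stage_all S.toList (fun p t => decide (p.2 ∈ kill q n t))
        (fun p s t h a => by simpa using kill_mono n h (by simpa using a))
        fun p hp => by simpa using (hS' p (mem_toList.1 hp)).2
      have a := kill_inv hS h1 n t
      have b : 0 ≤ ∑ x ∈ A n (kill q n t), M x := sum_nonneg fun x _ => hS.1 x
      calc _ = ∑ p ∈ S, 2⁻¹ ^ (2 * (p.2.length / (n + 1)) + n) * ((1 : ℝ) / 2) ^ (n + 1) :=
            sum_congr rfl fun p hp => by rw [(hS' p hp).1, pow_add, one_div]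
        _ ≤ _ := by
            rw [← sum_mul]
            refine mul_le_of_le_one_left (by positivity) (le_trans ?_ ((le_add_of_nonneg_right b).trans a))
            rw [← sum_image (g := Prod.snd)
              (f := fun σ : List Bool => (2⁻¹ : ℝ) ^ (2 * (σ.length / (n + 1)) + n))
              fun p hp p' hp' e => Prod.ext (by rw [(hS' p hp).1, (hS' p' hp').1, e]) e]
            refine sum_le_sum_of_subset_of_nonneg (fun σ hσ => ?_) fun _ _ _ => by positivity
            obtain ⟨p, hp, rfl⟩ := mem_image.1 hσ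
            simpa using ht t le_rfl p (mem_toList.2 hp))
  obtain ⟨c0, hc⟩ := hV.2.2 N n1 n2
  refine ⟨c + c0, fun n hn S h => ?_⟩
  obtain ⟨t, ht⟩ := kill_fin hS h2 n
  refine le_trans (sum_le_sum_of_subset_of_nonneg (fun σ hσ => ?_) fun x _ _ => hS.1 x) ht
  obtain ⟨X, hX, rfl⟩ := h σ hσ
  refine mem_filter.2 ⟨by simp [mem_W, cut_eq], fun τ a b => ?_⟩
  obtain ⟨i, hi⟩ := inf_pre b
  have d := hX i τ.length
  obtain ⟨p, p1, p2⟩ := n3 (2 * (τ.length / (n + 1)) + n + (n + 1)) τ ⟨n, rfl, t, a⟩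
  obtain ⟨p', p3, p4⟩ := hc p τ p2
  have e : Ki.KP V τ ≤ p'.length := Nat.sInf_le ⟨p', rfl, p4⟩
  have f := kill_lt τ a
  have g := le_ff (f.le.trans (Nat.div_le_self _ _))
  have l := b.length_le
  rw [cut_eq, length_pre] at l
  rw [min_eq_right (Nat.div_le_of_le_mul l)] at g
  rw [cut_eq, hi] at d
  omega

theorem deep (hS : Semi M) (hL : Lsc M) {V : List Bool →. List Bool} (hV : Ki.Opt V) (c : ℕ) :
    Deep M (SC V ff c) := by
  obtain ⟨f, hf, hm⟩ := hL
  obtain ⟨n0, h⟩ := core (q := fun p => val (f p)) hS ⟨f, CI.of_comp hf, fun _ => rfl⟩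
    (fun p => (hm p.1).1.ge_of_tendsto (hm p.1).2 p.2) (fun x => (hm x).2) hV c
  have := ci_hh
  refine ⟨fun n => hh (n + n0), ⟨CI.computable (by fun_prop), fun a b h => hh_mono (by omega),
    tendsto_atTop_mono (fun n => (Nat.le_add_right n n0).trans (le_hh _)) tendsto_id⟩, fun n => ?_⟩
  have fin : ((fun X => cut X (hh (n + n0))) '' SC V ff c).Finite :=
    (W (hh (n + n0))).finite_toSet.subset (by rintro _ ⟨X, -, rfl⟩; simp [mem_W, cut_eq])
  rw [finsum_mem_eq_finite_toFinset_sum _ fin]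
  exact (h (n + n0) (by omega) _ fun σ hσ => by simpa using hσ).trans
    (pow_le_pow_of_le_one (by norm_num) (by norm_num) (by omega))

theorem negl {V : List Bool →. List Bool} (hV : Ki.Opt V) (c : ℕ) : Negl (SC V ff c) := by
  let p : ℕ → List Bool → List Bool → Bool := fun e σ y => (List.range σ.length).all fun i =>
    U e (y.map Bool.toNat) i == some (σ.getD i false).toNat
  let B : ℕ → List Bool → ℕ → Set (ℕ → Bool) := fun e σ t => {Y | p e σ (pre Y t) = true}
  have eB : ∀ e σ t Y, Y ∈ B e σ t ↔ ∀ i < σ.length,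
      U e (pre (bit Y) t) i = some (σ.getD i false).toNat := fun e σ t Y => by
    simp [B, p, map_pre]
  have mB : ∀ e σ, Monotone (B e σ) := fun e σ s t h Y a =>
    (eB _ _ _ _).2 fun i hi => U_mon e _ _ _ _ (pre_pf _ h) ((eB _ _ _ _).1 a i hi)
  have eU : ∀ e σ Y, Y ∈ ⋃ t, B e σ t ↔ ∀ i < σ.length,
      (σ.getD i false).toNat ∈ app e (bit Y) i := fun e σ Y => by
    simp only [Set.mem_iUnion, eB]
    refine ⟨fun ⟨t, h⟩ i hi => mem_app.2 ⟨t, h i hi⟩, fun h => ?_⟩
    exact ((eventually_all_finset (range σ.length)).2 fun i hi =>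
      mem_app'.1 (h i (mem_range.1 hi))).exists.imp fun t a i hi => a i (mem_range.2 hi)
  have ms : ∀ e σ, MeasurableSet (⋃ t, B e σ t) := fun e σ =>
    .iUnion fun t => meas_set (fun y => p e σ y = true) t
  refine measure_mono_null (t := ⋃ e, {Y | ∃ X ∈ SC V ff c, ∀ n, bit X n ∈ app e (bit Y) n})
    (fun Y ⟨X, a, b⟩ => ?_) (measure_iUnion_null fun e => null_of_le fun n => ?_)
  · obtain ⟨e, he⟩ := exists_app_tot (tr_fun.1 b)
    exact Set.mem_iUnion.2 ⟨e, X, a, he⟩
  obtain ⟨n0, h⟩ := core (M := fun σ => P.real (⋃ t, B e σ t)) (q := fun r => P.real (B e r.1 r.2))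
    ⟨fun _ => measureReal_nonneg, measureReal_le_one, fun x => by
      rw [← measureReal_union _ (ms _ _)]
      · refine measureReal_mono (Set.union_subset ?_ ?_) <;>
        exact fun Y a => (eU _ _ _).2 fun i hi => by
          have := (eU _ _ _).1 a i (by simp; omega)
          rwa [List.getD_append _ _ _ _ hi] at this
      · refine Set.disjoint_left.2 fun Y a b => ?_
        simpa using Part.mem_unique ((eU _ _ _).1 a x.length (by simp))
          ((eU _ _ _).1 b x.length (by simp))⟩
    (((CQ.nat (f := fun r : List Bool × ℕ => (W r.2).countP (p e r.1))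
      (by simp only [p]; fun_prop)).mul (CQ.half.pow (k := fun r : List Bool × ℕ => r.2)
        (by fun_prop))).of_eq fun r => by rw [Measure.real, P_pre]; simp)
    (fun r => measureReal_mono (Set.subset_iUnion _ _))
    (fun x => (ENNReal.tendsto_toReal (measure_ne_top _ _)).comp
      (tendsto_measure_iUnion_atTop (mB e x))) hV c
  let S := (W (hh (n + n0))).toFinset.filter fun σ => ∃ X ∈ SC V ff c, cut X (hh (n + n0)) = σ
  have a := (h (n + n0) (by omega) S fun σ hσ => (mem_filter.1 hσ).2).trans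
    (pow_le_pow_of_le_one (by norm_num) (by norm_num) (Nat.le_add_right n n0))
  refine (measure_mono (t := ⋃ σ ∈ S, ⋃ t, B e σ t) ?_).trans ?_
  · rintro Y ⟨X, b, d⟩
    refine Set.mem_iUnion₂.2 ⟨pre X (hh (n + n0)), mem_filter.2 ⟨by simp [mem_W], X, b, rfl⟩,
      (eU _ _ _).2 fun i hi => ?_⟩
    rw [getD_pre X (by simpa using hi)]; exact d i
  · rw [← ofReal_measureReal (measure_ne_top _ _)]
    refine (ENNReal.ofReal_le_ofReal ((measureReal_biUnion_finset_le _ _).trans a)).trans ?_
    rw [ENNReal.ofReal_pow (by norm_num), ENNReal.ofReal_inv_of_pos (by norm_num)]; simp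

end Pool.Agent.H37.Sh
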