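import Pool.Agent.H37.SolDefs
import Pool.Agent.H37.KiDefs

/-! Shift complex sequences, deep and negligible classes. -/

set_option autoImplicit false

namespace Pool.Agent.H37.Sh

open Filter

/-- computable, nondecreasing, unbounded -/
def Order (f : ℕ → ℕ) : Prop := Computable f ∧ Monotone f ∧ Tendsto f atTop atTop

/-- every block of `k` consecutive bits has complexity at least `f k - c` -/
def SC (V : List Bool →. List Bool) (f : ℕ → ℕ) (c : ℕ) : Set (ℕ → Bool) :=
  {X | ∀ i k, f k ≤ Ki.KP V (Defc.cut (fun j => X (i + j)) k) + c}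

/-- depth with respect to the semimeasure `M` -/
def Deep (M : List Bool → ℝ) (S : Set (ℕ → Bool)) : Prop :=
  ∃ h, Order h ∧ ∀ n, ∑ᶠ σ ∈ (fun X => Defc.cut X (h n)) '' S, M σ ≤ 2⁻¹ ^ n

/-- almost no oracle computes a member -/
def Negl (S : Set (ℕ → Bool)) : Prop :=
  Defc.P {Y | ∃ X ∈ S, TuringReducible (fun n => Part.some (X n).toNat)
    (fun n => Part.some (Y n).toNat)} = 0

end Pool.Agent.H37.Sh
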