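import Pool.Agent.H37.SignDefs

set_option autoImplicit false

namespace Pool.Agent.H37.Sign

open Matrix

variable {V : Type} [Fintype V] [DecidableEq V]

theorem norm_le {A : Matrix V V ℝ} (hA : A.IsHermitian) {t : ℝ} (ht : 0 < t)
    (h : ∀ μ ∈ spectrum ℝ A, |μ| ≤ t) (u : V → ℝ) :
    (A *ᵥ u) ⬝ᵥ (A *ᵥ u) ≤ t ^ 2 * (u ⬝ᵥ u) := by
  have hT : (algebraMap ℝ (Matrix V V ℝ) t).IsHermitian := by
    rw [Matrix.algebraMap_eq_diagonal]; exact Matrix.isHermitian_diagonal _
  have h1 : (algebraMap ℝ (Matrix V V ℝ) t - A).PosSemidef := by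
    rw [posSemidef_iff_isHermitian_and_spectrum_nonneg, ← spectrum.singleton_sub_eq]
    refine ⟨hT.sub hA, ?_⟩
    rintro _ ⟨a, rfl, b, hb, rfl⟩
    have := (abs_le.1 (h b hb)).2
    simp only [Set.mem_setOf_eq]; linarith
  have h2 : (algebraMap ℝ (Matrix V V ℝ) t + A).PosSemidef := by
    rw [posSemidef_iff_isHermitian_and_spectrum_nonneg, ← spectrum.singleton_add_eq]
    refine ⟨hT.add hA, ?_⟩
    rintro _ ⟨a, rfl, b, hb, rfl⟩
    have := (abs_le.1 (h b hb)).1
    simp only [Set.mem_setOf_eq]; linarith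
  have hs : ∀ x y : V → ℝ, x ⬝ᵥ (A *ᵥ y) = (A *ᵥ x) ⬝ᵥ y := by
    intro x y
    rw [dotProduct_mulVec, ← mulVec_transpose]
    have : Aᵀ = A := by ext u v; simpa using hA.apply u v
    rw [this]
  have e : ∀ x : V → ℝ, (algebraMap ℝ (Matrix V V ℝ) t) *ᵥ x = t • x := by
    intro x; rw [Algebra.algebraMap_eq_smul_one, smul_mulVec, one_mulVec]
  set w := A *ᵥ u with hw
  have a1 := h1.dotProduct_mulVec_nonneg (t • u + w)
  have a2 := h2.dotProduct_mulVec_nonneg (t • u - w)
  simp only [star_trivial, sub_mulVec, add_mulVec, e, mulVec_add, mulVec_sub, mulVec_smul,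
    dotProduct_add, dotProduct_sub, add_dotProduct, sub_dotProduct, smul_dotProduct,
    dotProduct_smul, smul_eq_mul, smul_add, smul_sub, ← hw] at a1 a2
  have b1 : u ⬝ᵥ (A *ᵥ w) = w ⬝ᵥ w := by rw [hs]
  have b2 : w ⬝ᵥ u = u ⬝ᵥ w := dotProduct_comm _ _
  rw [b1, b2] at a1 a2
  have : 0 ≤ 2 * t * (t ^ 2 * (u ⬝ᵥ u) - w ⬝ᵥ w) := by nlinarith
  have := nonneg_of_mul_nonneg_right this (by linarith)
  nlinarith

theorem spec_iff {A : Matrix V V ℝ} (hA : A.IsHermitian) (R : V → Prop)
    (hR : ∀ u v, A u v ≠ 0 → (R u ↔ ¬ R v)) {t : ℝ} (ht : 0 < t)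
    (hd : ∀ r, R r → ∑ c, A r c * A r c = t ^ 2) :
    (∀ μ ∈ spectrum ℝ A, |μ| ≤ t) ↔
      ∀ r r', R r → R r' → r ≠ r' → ∑ c, A r c * A r' c = 0 := by
  have hsy : ∀ u v, A u v = A v u := fun u v => by simpa using (hA.apply u v).symm
  constructor
  · intro h r r' hr hr' hne
    have key : ∀ ε : ℝ, ε * ε = 1 → ε * ∑ c, A r c * A r' c ≤ 0 := by
      intro ε hε
      have := norm_le hA ht h (Pi.single r 1 + ε • Pi.single r' 1)
      simp only [mulVec_add, mulVec_smul, dotProduct_add, add_dotProduct, smul_dotProduct,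
        dotProduct_smul, smul_eq_mul, mulVec_single_one, single_dotProduct, Pi.single_eq_same,
        Pi.single_eq_of_ne hne, Pi.single_eq_of_ne hne.symm] at this
      have c1 : A.col r ⬝ᵥ A.col r = t ^ 2 := by
        rw [← hd r hr]; simp [dotProduct, hsy _ r]
      have c2 : A.col r' ⬝ᵥ A.col r' = t ^ 2 := by
        rw [← hd r' hr']; simp [dotProduct, hsy _ r']
      have c3 : A.col r ⬝ᵥ A.col r' = ∑ c, A r c * A r' c := by
        simp [dotProduct, hsy _ r, hsy _ r']
      have c4 : A.col r' ⬝ᵥ A.col r = ∑ c, A r c * A r' c := by rw [dotProduct_comm, c3]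
      rw [c1, c2, c3, c4] at this
      have e : ε * (ε * t ^ 2) = t ^ 2 := by rw [← mul_assoc, hε, one_mul]
      nlinarith
    have := key 1 (by norm_num)
    have := key (-1) (by norm_num)
    linarith
  · intro h μ hμ
    rw [← Matrix.spectrum_toLin', ← Module.End.hasEigenvalue_iff_mem_spectrum] at hμ
    obtain ⟨v, hv⟩ := hμ.exists_hasEigenvector
    have hv1 : A *ᵥ v = μ • v := by simpa using hv.apply_eq_smul
    by_cases hex : ∃ r, R r ∧ v r ≠ 0
    · obtain ⟨r, hr, hv0⟩ := hex
      have e1 : (A *ᵥ (A *ᵥ v)) r = μ * μ * v r := by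
        rw [hv1, mulVec_smul, hv1]; simp [mul_assoc]
      have e2 : (A *ᵥ (A *ᵥ v)) r = t ^ 2 * v r := by
        rw [mulVec_mulVec]
        simp only [mulVec, dotProduct, mul_apply]
        rw [Finset.sum_eq_single r]
        · rw [← hd r hr]; simp only [hsy _ r]
        · intro w _ hw
          by_cases hw' : R w
          · have := h r w hr hw' hw.symm
            simp only [hsy _ w]
            rw [this, zero_mul]
          · rw [Finset.sum_eq_zero, zero_mul]
            intro c _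
            by_contra hc
            have h1 := hR r c (left_ne_zero_of_mul hc)
            have h2 := hR c w (right_ne_zero_of_mul hc)
            tauto
        · simp
      have : μ ^ 2 = t ^ 2 := by
        rw [e1] at e2
        have := mul_right_cancel₀ hv0 e2
        linarith
      exact le_of_eq (by rw [← abs_of_pos ht]; exact sq_eq_sq_iff_abs_eq_abs _ _ |>.1 this)
    · push Not at hex
      obtain ⟨c, hc⟩ := Function.ne_iff.1 hv.2
      have hc' : ¬ R c := fun h => hc (hex c h)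
      have : (A *ᵥ v) c = 0 := by
        simp only [mulVec, dotProduct]
        refine Finset.sum_eq_zero fun w _ => ?_
        by_cases h0 : A c w = 0
        · simp [h0]
        · have := hR c w h0
          rw [hex w (by tauto), mul_zero]
      rw [hv1] at this
      simp only [Pi.smul_apply, smul_eq_mul, mul_eq_zero] at this
      rcases this with h0 | h0
      · rw [h0, abs_zero]; exact ht.le
      · exact absurd h0 hc

theorem rho_le {A : Matrix V V ℝ} {t : ℝ} (ht : 0 ≤ t) :
    rho A ≤ t ↔ ∀ μ ∈ spectrum ℝ A, |μ| ≤ t := by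
  unfold rho
  constructor
  · intro h μ hμ
    exact (le_csSup (A.finite_spectrum.image _).bddAbove ⟨μ, hμ, rfl⟩).trans h
  · intro h
    refine Real.sSup_le ?_ ht
    rintro _ ⟨μ, hμ, rfl⟩
    exact h μ hμ

theorem rhoMin_le (G : SimpleGraph V) (t : ℝ) : rhoMin G ≤ t ↔ ∃ σ, rho (sAdj G σ) ≤ t := by
  classical
  unfold rhoMin
  constructor
  · intro h
    obtain ⟨σ, hσ⟩ := exists_eq_ciInf_of_finite (f := fun σ : G.edgeSet → ℤˣ => rho (sAdj G σ))
    exact ⟨σ, hσ ▸ h⟩
  · rintro ⟨σ, h⟩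
    exact (ciInf_le (Set.finite_range _).bddBelow σ).trans h

omit [Fintype V] [DecidableEq V] in
theorem sAdj_herm (G : SimpleGraph V) (σ : G.edgeSet → ℤˣ) : (sAdj G σ).IsHermitian := by
  ext u v
  simp only [sAdj, conjTranspose_apply, of_apply, star_trivial]
  by_cases h : G.Adj u v
  · rw [dif_pos h, dif_pos h.symm]; congr 4; exact Sym2.eq_swap
  · rw [dif_neg h, dif_neg fun h' => h h'.symm]

open Classical in
/-- orthogonal signings of the rows of a bipartite graph -/
theorem rhoMin_iff (G : SimpleGraph V) (R : V → Prop) (hR : ∀ u v, G.Adj u v → (R u ↔ ¬ R v))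
    {t : ℕ} (ht : 0 < t) (hd : ∀ r, R r → ∑ c, (if G.Adj r c then 1 else 0) = t ^ 2) :
    rhoMin G ≤ t ↔ ∃ s : V → V → ℤ, (∀ r c, s r c = 1 ∨ s r c = -1) ∧
      ∀ r r', R r → R r' → r ≠ r' →
        ∑ c, (if G.Adj r c ∧ G.Adj r' c then s r c * s r' c else 0) = 0 := by
  have ht' : (0 : ℝ) < t := by exact_mod_cast ht
  rw [rhoMin_le]
  have key : ∀ σ, rho (sAdj G σ) ≤ t ↔
      ∀ r r', R r → R r' → r ≠ r' → ∑ c, sAdj G σ r c * sAdj G σ r' c = 0 := by
    intro σ
    rw [rho_le ht'.le]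
    refine spec_iff (sAdj_herm G σ) R (fun u v h => hR u v ?_) ht' fun r hr => ?_
    · by_contra h'; simp [sAdj, h'] at h
    · have := congrArg (Nat.cast : ℕ → ℝ) (hd r hr)
      push_cast at this
      rw [← this]
      refine Finset.sum_congr rfl fun c _ => ?_
      by_cases h : G.Adj r c
      · simp only [sAdj, of_apply, dif_pos h, if_pos h]
        rcases Int.units_eq_one_or (σ ⟨s(r, c), h⟩) with e | e <;> simp [e]
      · simp [sAdj, h]
  simp only [key]
  constructor
  · rintro ⟨σ, h⟩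
    refine ⟨fun r c => if h : G.Adj r c then ((σ ⟨s(r, c), h⟩ : ℤˣ) : ℤ) else 1, fun r c => ?_,
      fun r r' hr hr' hne => ?_⟩
    · by_cases h : G.Adj r c
      · simp only [dif_pos h]
        rcases Int.units_eq_one_or (σ ⟨s(r, c), h⟩) with e | e <;> simp [e]
      · simp [h]
    · have := h r r' hr hr' hne
      apply Int.cast_injective (α := ℝ)
      rw [Int.cast_sum, Int.cast_zero]
      refine Eq.trans (Finset.sum_congr rfl fun c _ => ?_) this
      by_cases h1 : G.Adj r c <;> by_cases h2 : G.Adj r' c <;> simp [sAdj, h1, h2]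
  · rintro ⟨s, hs, h⟩
    let f : V → V → ℤˣ := fun u v =>
      if (if R u then s u v else 1) * (if R v then s v u else 1) = 1 then 1 else -1
    have hf : ∀ u v, f u v = f v u := fun u v => by simp only [f, mul_comm]
    refine ⟨fun e => Sym2.lift ⟨f, hf⟩ e.1, fun r r' hr hr' hne => ?_⟩
    have e : ∀ r c, R r → G.Adj r c → ((f r c : ℤˣ) : ℤ) = s r c := by
      intro r c hr hc
      have := (hR r c hc).1 hr
      rcases hs r c with e | e <;> simp [f, hr, this, e]
    have := congrArg (Int.cast : ℤ → ℝ) (h r r' hr hr' hne)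
    push_cast at this
    rw [← this]
    refine Finset.sum_congr rfl fun c _ => ?_
    by_cases h1 : G.Adj r c <;> by_cases h2 : G.Adj r' c <;> simp [sAdj, h1, h2, e, hr, hr']

end Pool.Agent.H37.Sign
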