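import Pool.Agent.H37.Sign1
import Pool.Agent.H36.Gr

set_option autoImplicit false

namespace Pool.Agent.H37.Sign

open Pool.Agent.H38.NP Pool.Agent.H36.Gr Finset

abbrev C := ℕ × ℕ × ℕ × ℕ

section
variable (n N : ℕ) (inc act : ℕ → ℕ → Bool)

def com (a b : ℕ) : ℕ := (List.range N).countP fun c => inc a c && inc b c

def sl (a b : ℕ) : ℕ :=
  cond (decide (a < b)) (cond (act a b) (com N inc a b - 1) (com N inc a b + 1)) 0

def cols : List C :=
  (List.range (N + 1)).map (fun c => (1, c, 0, 0)) ++
  (List.range n).flatMap fun a => (List.range n).flatMap fun b =>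
    (List.range (sl N inc act a b)).map fun i => (2, a, b, i)

def adj (x y : C) : Bool :=
  decide (x.1 = 0) && ((decide (y.1 = 1) && (decide (y.2.1 = N) || inc x.2.1 y.2.1)) ||
    (decide (y.1 = 2) && (decide (x.2.1 = y.2.1) || decide (x.2.1 = y.2.2.1))) ||
    (decide (y.1 = 3) && decide (x.2.1 = y.2.1)))

def deg (r : ℕ) : ℕ := (cols n N inc act).countP fun y => adj N inc (0, r, 0, 0) y

def tt : ℕ := (cols n N inc act).length + 1

def verts : List C :=
  (List.range n).map (fun r => (0, r, 0, 0)) ++ cols n N inc act ++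
  (List.range n).flatMap fun a =>
    (List.range (tt n N inc act * tt n N inc act - deg n N inc act a)).map fun i => (3, a, i, 0)

end

theorem nodup_fm {n : ℕ} {g : ℕ → List C} (key : C → ℕ) (h1 : ∀ a, (g a).Nodup)
    (h2 : ∀ a, ∀ x ∈ g a, key x = a) : ((List.range n).flatMap g).Nodup := by
  rw [List.nodup_flatMap]
  refine ⟨fun a _ => h1 a, List.nodup_range.imp fun {a b} hab => ?_⟩
  intro x hx hy
  exact hab ((h2 a x hx).symm.trans (h2 b x hy))

variable {n N : ℕ} {inc act : ℕ → ℕ → Bool}

theorem mem_verts {x : C} : x ∈ verts n N inc act ↔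
    (∃ r < n, x = (0, r, 0, 0)) ∨ (∃ c ≤ N, x = (1, c, 0, 0)) ∨
    (∃ a < n, ∃ b < n, ∃ i < sl N inc act a b, x = (2, a, b, i)) ∨
    (∃ a < n, ∃ i < tt n N inc act * tt n N inc act - deg n N inc act a, x = (3, a, i, 0)) := by
  simp only [verts, cols, List.mem_append, List.mem_map, List.mem_range, List.mem_flatMap,
    eq_comm (a := x), Nat.lt_succ_iff, or_assoc]

theorem nodup_verts : (verts n N inc act).Nodup := by
  unfold verts cols
  refine List.Nodup.append (List.Nodup.append ?_ (List.Nodup.append ?_ ?_ ?_) ?_) ?_ ?_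
  · exact List.nodup_range.map fun a b h => by simpa using h
  · exact List.nodup_range.map fun a b h => by simpa using h
  · refine nodup_fm (·.2.1) (fun a => nodup_fm (·.2.2.1) (fun b => ?_) ?_) ?_
    · exact List.nodup_range.map fun a b h => by simpa using h
    · simp
    · simp +contextual [eq_comm]
  · intro x hx hy
    simp only [List.mem_map, List.mem_flatMap] at hx hy
    obtain ⟨_, _, rfl⟩ := hx
    obtain ⟨_, _, _, _, _, _, h⟩ := hy
    simp at h
  · intro x hx hy
    simp only [List.mem_map, List.mem_flatMap, List.mem_append] at hx hy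
    obtain ⟨_, _, rfl⟩ := hx
    obtain ⟨_, _, h⟩ | ⟨_, _, _, _, _, _, h⟩ := hy <;> simp at h
  · refine nodup_fm (·.2.1) (fun a => ?_) ?_
    · exact List.nodup_range.map fun a b h => by simpa using h
    · simp
  · intro x hx hy
    simp only [List.mem_map, List.mem_flatMap, List.mem_append] at hx hy
    obtain ⟨_, _, _, _, rfl⟩ := hy
    obtain ⟨_, _, h⟩ | ⟨_, _, h⟩ | ⟨_, _, _, _, _, _, h⟩ := hx <;> simp at h

theorem sum_code' {M : Type} [AddCommMonoid M] (vs : List C) (f : C → M) :
    ∑ v : Fin vs.length, f (code vs v) = (vs.map f).sum := by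
  simp only [code_eq]
  exact Fin.sum_univ_fun_getElem vs f

theorem sum_fm {M : Type} [AddCommMonoid M] (n : ℕ) (g : ℕ → List C) (f : C → M) :
    (((List.range n).flatMap g).map f).sum = ∑ a ∈ range n, ((g a).map f).sum := by
  induction n with
  | zero => simp
  | succ n ih => rw [List.range_succ, List.flatMap_append, List.map_append, List.sum_append, ih,
      sum_range_succ]; simp

theorem sum_mp {M : Type} [AddCommMonoid M] (n : ℕ) (g : ℕ → C) (f : C → M) :
    (((List.range n).map g).map f).sum = ∑ a ∈ range n, f (g a) := by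
  induction n with
  | zero => simp
  | succ n ih => rw [List.range_succ, List.map_append, List.map_append, List.sum_append, ih,
      sum_range_succ]; simp

theorem sum_pair {a b : ℕ} (hab : a < b) (hb : b < n) (F : C → ℤ) :
    ((verts n N inc act).map fun y =>
      if adj N inc (0, a, 0, 0) y = true ∧ adj N inc (0, b, 0, 0) y = true then F y else 0).sum =
    F (1, N, 0, 0) + ∑ c ∈ range N, (if inc a c = true ∧ inc b c = true then F (1, c, 0, 0) else 0)
      + ∑ i ∈ range (sl N inc act a b), F (2, a, b, i) := by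
  simp only [verts, cols, List.map_append, List.sum_append, sum_fm, sum_mp]
  rw [sum_eq_zero (s := range n) fun r _ => by simp [adj], zero_add, sum_range_succ,
    sum_eq_zero (s := range n) (f := fun a' => ∑ i ∈ range (_ - deg n N inc act a'), _)
      fun r _ => sum_eq_zero fun i _ => by simp [adj]; omega, add_zero]
  congr 1
  · rw [add_comm]
    congr 1
    · simp [adj]
    · refine sum_congr rfl fun c hc => ?_
      have := (mem_range.1 hc).ne
      simp [adj, this]
  · rw [sum_eq_single a, sum_eq_single b]
    · simp [adj]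
    · intro b' _ hb'
      refine sum_eq_zero fun i _ => ?_
      simp [adj]; omega
    · simp; omega
    · intro a' _ ha'
      refine sum_eq_zero fun b' _ => sum_eq_zero fun i hi => ?_
      have : a' < b' := by
        by_contra h
        simp [sl, h] at hi
      simp [adj]; omega
    · simp; omega

theorem sum_deg {a : ℕ} (ha : a < n) :
    ((verts n N inc act).map fun y => if adj N inc (0, a, 0, 0) y = true then 1 else 0).sum =
      tt n N inc act ^ 2 := by
  have h1 : ((cols n N inc act).map fun y =>
      if adj N inc (0, a, 0, 0) y = true then 1 else 0).sum = deg n N inc act a := by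
    unfold deg
    generalize cols n N inc act = l
    induction l with
    | nil => simp
    | cons y l ih => rw [List.map_cons, List.sum_cons, ih, List.countP_cons, add_comm]
  have h2 : deg n N inc act a ≤ tt n N inc act * tt n N inc act :=
    (List.countP_le_length.trans (Nat.le_succ _)).trans (Nat.le_mul_self _)
  simp only [verts, List.map_append, List.sum_append, sum_fm, sum_mp, h1]
  rw [sum_eq_zero (s := range n) fun r _ => by simp [adj], zero_add, sum_eq_single a]
  · simp [adj, sq]; omega
  · intro a' _ ha'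
    refine sum_eq_zero fun i _ => ?_
    simp [adj]; omega
  · simp; omega

theorem com_eq (a b : ℕ) : (com N inc a b : ℤ) =
    ∑ c ∈ range N, (if inc a c = true ∧ inc b c = true then 1 else 0) := by
  unfold com
  induction N with
  | zero => simp
  | succ N ih => rw [List.range_succ, List.countP_append, sum_range_succ, ← ih]; simp

theorem sum_sign (k m : ℕ) (h : k ≤ m) :
    ∑ i ∈ range m, (if i < k then (-1 : ℤ) else 1) = m - 2 * k := by
  induction m, h using Nat.le_induction with
  | base => rw [sum_congr rfl fun i hi => if_pos (mem_range.1 hi)]; simp; ring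
  | succ m h ih => rw [sum_range_succ, ih, if_neg (by omega)]; push_cast; ring

theorem adj_iff {u v : Fin (verts n N inc act).length} :
    (RG (verts n N inc act) (adj N inc)).Adj u v ↔
      adj N inc (code _ u) (code _ v) = true ∨ adj N inc (code _ v) (code _ u) = true := by
  rw [RG_adj nodup_verts, GC_adj]
  refine ⟨fun h => h.2, fun h => ⟨fun e => ?_, h⟩⟩
  rw [e] at h
  simp [adj] at h
  omega

theorem adj_row {u v : Fin (verts n N inc act).length} {a : ℕ} (h : code _ u = (0, a, 0, 0)) :
    (RG (verts n N inc act) (adj N inc)).Adj u v ↔ adj N inc (0, a, 0, 0) (code _ v) = true := by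
  rw [adj_iff, h]
  simp [adj]

theorem row_code {u : Fin (verts n N inc act).length} (h : (code _ u).1 = 0) :
    ∃ a < n, code _ u = (0, a, 0, 0) := by
  rcases mem_verts.1 (code_mem _ u) with h' | ⟨_, _, e⟩ | ⟨_, _, _, _, _, _, e⟩ | ⟨_, _, _, _, e⟩
  · exact h'
  all_goals rw [e] at h; simp at h

theorem connected (hn : 0 < n) (hN : ∀ c < N, ∃ r < n, inc r c = true) :
    (RG (verts n N inc act) (adj N inc)).Connected := by
  have hz : (1, N, 0, 0) ∈ verts n N inc act := mem_verts.2 (.inr (.inl ⟨N, le_rfl, rfl⟩))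
  have hr : ∀ r < n, (0, r, 0, 0) ∈ verts n N inc act := fun r h => mem_verts.2 (.inl ⟨r, h, rfl⟩)
  have k1 : ∀ u : Fin (verts n N inc act).length, ∀ r < n, code _ u = (0, r, 0, 0) →
      (RG (verts n N inc act) (adj N inc)).Reachable u (ix nodup_verts _ hz) := fun u r _ e =>
    SimpleGraph.Adj.reachable ((adj_row e).2 (by simp [adj]))
  have k2 : ∀ u : Fin (verts n N inc act).length, ∀ r < n, adj N inc (0, r, 0, 0) (code _ u) →
      (RG (verts n N inc act) (adj N inc)).Reachable u (ix nodup_verts _ hz) := fun u r h e =>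
    (SimpleGraph.Adj.reachable ((adj_row (code_ix nodup_verts _ (hr r h))).2 e)).symm.trans
      (k1 _ r h (code_ix _ _ _))
  have k : ∀ u, (RG (verts n N inc act) (adj N inc)).Reachable u (ix nodup_verts _ hz) := by
    intro u
    rcases mem_verts.1 (code_mem _ u) with ⟨r, h, e⟩ | ⟨c, h, e⟩ | ⟨a, h, _, _, _, _, e⟩ |
      ⟨a, h, _, _, e⟩
    · exact k1 u r h e
    · rcases h.lt_or_eq with h | rfl
      · obtain ⟨r, h1, h2⟩ := hN c h
        exact k2 u r h1 (by simp [e, adj, h2])
      · exact k2 u 0 hn (by simp [e, adj])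
    · exact k2 u a h (by simp [e, adj])
    · exact k2 u a h (by simp [e, adj])
  haveI : Nonempty (Fin (verts n N inc act).length) := ⟨ix nodup_verts _ hz⟩
  exact ⟨fun u v => (k u).trans (k v).symm⟩

theorem rho_code : rhoMin (RG (verts n N inc act) (adj N inc)) ≤ tt n N inc act ↔
    ∃ S : C → C → ℤ, (∀ x y, S x y = 1 ∨ S x y = -1) ∧ ∀ a b, a < b → b < n →
      S (0, a, 0, 0) (1, N, 0, 0) * S (0, b, 0, 0) (1, N, 0, 0) +
      ∑ c ∈ range N, (if inc a c = true ∧ inc b c = true then
        S (0, a, 0, 0) (1, c, 0, 0) * S (0, b, 0, 0) (1, c, 0, 0) else 0) +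
      ∑ i ∈ range (sl N inc act a b),
        S (0, a, 0, 0) (2, a, b, i) * S (0, b, 0, 0) (2, a, b, i) = 0 := by
  classical
  have hr : ∀ r < n, (0, r, 0, 0) ∈ verts n N inc act := fun r h => mem_verts.2 (.inl ⟨r, h, rfl⟩)
  rw [rhoMin_iff _ (fun u => (code _ u).1 = 0) ?_ (t := tt n N inc act) (Nat.succ_pos _) ?_]
  rotate_left
  · intro u v h
    rw [adj_iff] at h
    simp only [adj, Bool.and_eq_true, Bool.or_eq_true, decide_eq_true_eq] at h
    omega
  · intro u hu
    obtain ⟨a, ha, e⟩ := row_code hu
    have := sum_deg (N := N) (inc := inc) (act := act) ha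
    rw [← sum_code'] at this
    simp only [adj_row e]
    convert this
  constructor
  · rintro ⟨s, hs, h⟩
    refine ⟨fun x y => if h : x ∈ verts n N inc act ∧ y ∈ verts n N inc act then
      s (ix nodup_verts x h.1) (ix nodup_verts y h.2) else 1, fun x y => ?_, fun a b hab hb => ?_⟩
    · by_cases h : x ∈ verts n N inc act ∧ y ∈ verts n N inc act
      · simp only [dif_pos h]; exact hs _ _
      · simp [h]
    · rw [← sum_pair hab hb (act := act) fun y =>
        (if h : (0, a, 0, 0) ∈ verts n N inc act ∧ y ∈ verts n N inc act then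
          s (ix nodup_verts _ h.1) (ix nodup_verts y h.2) else 1) *
        (if h : (0, b, 0, 0) ∈ verts n N inc act ∧ y ∈ verts n N inc act then
          s (ix nodup_verts _ h.1) (ix nodup_verts y h.2) else 1), ← sum_code']
      have := h (ix nodup_verts _ (hr a (by omega))) (ix nodup_verts _ (hr b hb)) (by simp)
        (by simp) (fun e => by have := congrArg (code _) e; simp at this; omega)
      refine Eq.trans (sum_congr rfl fun c _ => ?_) this
      simp [adj_row (code_ix nodup_verts _ (hr a (by omega))),
        adj_row (code_ix nodup_verts _ (hr b hb)), code_mem, hr a (by omega), hr b hb]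
  · rintro ⟨S, hS, h⟩
    refine ⟨fun u v => S (code _ u) (code _ v), fun _ _ => hS _ _, fun u v hu hv hne => ?_⟩
    obtain ⟨a, ha, e⟩ := row_code hu
    obtain ⟨b, hb, e'⟩ := row_code hv
    have key : ∀ a b, a < b → b < n → ∑ c : Fin (verts n N inc act).length,
        (if adj N inc (0, a, 0, 0) (code _ c) = true ∧ adj N inc (0, b, 0, 0) (code _ c) = true
          then S (0, a, 0, 0) (code _ c) * S (0, b, 0, 0) (code _ c) else 0) = 0 := by
      intro a b hab hb
      have := sum_pair hab hb (N := N) (inc := inc) (act := act) fun y =>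
        S (0, a, 0, 0) y * S (0, b, 0, 0) y
      rw [← sum_code', h a b hab hb] at this
      exact this
    simp only [adj_row e, adj_row e', e, e']
    rcases lt_trichotomy a b with hab | rfl | hab
    · convert key a b hab hb
    · exact absurd (code_inj nodup_verts (e.trans e'.symm)) hne
    · have := key b a hab ha
      simp only [and_comm, mul_comm] at this ⊢
      convert this

theorem rho_main : rhoMin (RG (verts n N inc act) (adj N inc)) ≤ tt n N inc act ↔
    ∃ τ : ℕ → ℕ → Bool, ∀ a b, a < b → b < n → act a b = true →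
      ∃ c < N, inc a c = true ∧ inc b c = true ∧ τ a c ≠ τ b c := by
  rw [rho_code]
  constructor
  · rintro ⟨S, hS, h⟩
    refine ⟨fun r c => decide (S (0, r, 0, 0) (1, c, 0, 0) = S (0, r, 0, 0) (1, N, 0, 0)),
      fun a b hab hb ha => ?_⟩
    by_contra hc
    push Not at hc
    have h0 := h a b hab hb
    set e := S (0, a, 0, 0) (1, N, 0, 0) * S (0, b, 0, 0) (1, N, 0, 0) with he
    have h1 : ∑ c ∈ range N, (if inc a c = true ∧ inc b c = true then
        S (0, a, 0, 0) (1, c, 0, 0) * S (0, b, 0, 0) (1, c, 0, 0) else 0) =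
        e * com N inc a b := by
      rw [com_eq, mul_sum]
      refine sum_congr rfl fun c hc' => ?_
      split_ifs with hi
      · have := hc c (mem_range.1 hc') hi.1 hi.2
        rw [he]
        rcases hS (0, a, 0, 0) (1, c, 0, 0) with e1 | e1 <;>
        rcases hS (0, b, 0, 0) (1, c, 0, 0) with e2 | e2 <;>
        rcases hS (0, a, 0, 0) (1, N, 0, 0) with e3 | e3 <;>
        rcases hS (0, b, 0, 0) (1, N, 0, 0) with e4 | e4 <;>
        simp only [e1, e2, e3, e4] at this ⊢ <;> first | rfl | simp at this
      · simp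
    have h2 : |∑ i ∈ range (sl N inc act a b),
        S (0, a, 0, 0) (2, a, b, i) * S (0, b, 0, 0) (2, a, b, i)| ≤ sl N inc act a b := by
      refine (abs_sum_le_sum_abs _ _).trans (le_of_eq ?_)
      rw [sum_congr rfl (g := fun _ => 1)]
      · simp
      · intro i _
        rcases hS (0, a, 0, 0) (2, a, b, i) with e1 | e1 <;>
        rcases hS (0, b, 0, 0) (2, a, b, i) with e2 | e2 <;> simp [e1, e2]
    have h3 : sl N inc act a b ≤ com N inc a b := by simp [sl, hab, ha]
    have h4 : e = 1 ∨ e = -1 := by
      rw [he]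
      rcases hS (0, a, 0, 0) (1, N, 0, 0) with e3 | e3 <;>
      rcases hS (0, b, 0, 0) (1, N, 0, 0) with e4 | e4 <;> simp [e3, e4]
    rw [h1] at h0
    have := abs_le.1 h2
    rcases h4 with e0 | e0 <;> rw [e0] at h0 <;> omega
  · rintro ⟨τ, h⟩
    let p : ℕ → ℕ → ℕ := fun a b =>
      ∑ c ∈ range N, if (inc a c = true ∧ inc b c = true) ∧ τ a c = τ b c then 1 else 0
    let q : ℕ → ℕ → ℕ := fun a b =>
      ∑ c ∈ range N, if (inc a c = true ∧ inc b c = true) ∧ τ a c ≠ τ b c then 1 else 0
    refine ⟨fun x y => if y.1 = 1 then (if y.2.1 ≠ N ∧ τ x.2.1 y.2.1 = true then -1 else 1)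
      else if x.2.1 = y.2.2.1 ∧ y.2.2.2 < p y.2.1 y.2.2.1 + cond (act y.2.1 y.2.2.1) 0 1
        then -1 else 1, fun x y => by dsimp only; split_ifs <;> simp, fun a b hab hb => ?_⟩
    have h1 : (com N inc a b : ℤ) = p a b + q a b := by
      rw [com_eq]
      simp only [p, q]
      push_cast
      rw [← sum_add_distrib]
      refine sum_congr rfl fun c _ => ?_
      by_cases h1 : inc a c = true ∧ inc b c = true <;> by_cases h2 : τ a c = τ b c <;>
        simp [h1, h2]
    have h2 : act a b = true → 1 ≤ q a b := fun ha => by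
      obtain ⟨c, hc, h1, h2, h3⟩ := h a b hab hb ha
      refine le_trans ?_ (single_le_sum (f := fun c =>
        if (inc a c = true ∧ inc b c = true) ∧ τ a c ≠ τ b c then 1 else 0)
        (fun _ _ => Nat.zero_le _) (mem_range.2 hc))
      simp [h1, h2, h3]
    have h3 : ∑ c ∈ range N, (if inc a c = true ∧ inc b c = true then
        (if c ≠ N ∧ τ a c = true then (-1 : ℤ) else 1) *
        (if c ≠ N ∧ τ b c = true then (-1 : ℤ) else 1) else 0) = p a b - q a b := by
      simp only [p, q]
      push_cast
      rw [← sum_sub_distrib]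
      refine sum_congr rfl fun c hc => ?_
      have := (mem_range.1 hc).ne
      by_cases h1 : inc a c = true ∧ inc b c = true <;> cases h2 : τ a c <;> cases h3 : τ b c <;>
        simp [h1, this]
    simp only [if_true, ne_eq, not_true, false_and, if_false, hab.ne, one_mul, true_and,
      show (2 : ℕ) ≠ 1 by omega, OfNat.ofNat_ne_one]
    rw [h3, sum_sign]
    · cases ha : act a b
      · simp [sl, hab, ha, h1]; ring
      · have := h2 ha
        have : 1 ≤ com N inc a b := by omega
        simp [sl, hab, ha, Nat.cast_sub this, h1]; ring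
    · cases ha : act a b
      · simp [sl, hab, ha]; omega
      · have := h2 ha
        simp [sl, hab, ha]; omega

end Pool.Agent.H37.Sign
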