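import Pool.Agent.H38.NP.Defs

set_option autoImplicit false

namespace Pool.Agent.H37.Sign

open Pool.Agent.H38.NP

open Classical in
/-- the signed adjacency matrix of `G` for the signature `σ` -/
noncomputable def sAdj {V : Type} (G : SimpleGraph V) (σ : G.edgeSet → ℤˣ) : Matrix V V ℝ :=
  Matrix.of fun u v => if h : G.Adj u v then (((σ ⟨s(u, v), h⟩ : ℤˣ) : ℤ) : ℝ) else 0

/-- the spectral radius: the largest absolute value of an eigenvalue -/
noncomputable def rho {V : Type} [Fintype V] [DecidableEq V] (A : Matrix V V ℝ) : ℝ :=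
  sSup ((fun μ => |μ|) '' spectrum ℝ A)

/-- the least spectral radius of a signing of `G` -/
noncomputable def rhoMin {V : Type} [Fintype V] [DecidableEq V] (G : SimpleGraph V) : ℝ :=
  ⨅ σ : G.edgeSet → ℤˣ, rho (sAdj G σ)

/-- the rational number given by a sign, a binary numerator and a binary denominator -/
def rat (t : Bool × Bin × Bin) : ℚ := (if t.1 then -1 else 1) * t.2.1.val / t.2.2.val

end Pool.Agent.H37.Sign
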