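import Pool.Agent.H37.SneDefs

namespace Pool.Agent.H37.Sne

open Finset Filter Topology

variable {V P : Type} [Fintype V] [Fintype P] [DecidableEq P]

/-- one-step transition weights -/
noncomputable def Game.tr (G : Game V P) (s : List V → V → V → ℝ) (h : List V) (u w : V) : ℝ :=
  match G.kind u with
  | Kind.chance => G.prob u w
  | _ => s h u w

def Game.Valid (G : Game V P) (s : List V → V → V → ℝ) : Prop :=
  ∀ h u i, G.kind u = Kind.player i → G.IsDist u (s h u)

omit [Fintype P] [DecidableEq P] in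
theorem pay_term (G : Game V P) (s : List V → V → V → ℝ) (i : P) (n : ℕ) (h : List V) (u : V)
    (hu : G.kind u = Kind.terminal) : G.pay s i n h u = G.rew u i := by
  cases n <;> simp [Game.pay, hu]

omit [Fintype P] [DecidableEq P] in
theorem pay_zero (G : Game V P) (s : List V → V → V → ℝ) (i : P) (h : List V) (u : V)
    (hu : G.kind u ≠ Kind.terminal) : G.pay s i 0 h u = 0 := by
  unfold Game.pay
  cases hk : G.kind u <;> simp_all

omit [Fintype P] [DecidableEq P] in
theorem pay_succ (G : Game V P) (s : List V → V → V → ℝ) (i : P) (n : ℕ) (h : List V) (u : V)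
    (hu : G.kind u ≠ Kind.terminal) :
    G.pay s i (n + 1) h u = ∑ w, G.tr s h u w * G.pay s i n (u :: h) w := by
  rw [Game.pay]
  unfold Game.tr
  cases hk : G.kind u <;> simp_all

omit [Fintype P] [DecidableEq P] in
theorem tr_chance (G : Game V P) (s : List V → V → V → ℝ) (h : List V) (u : V)
    (hk : G.kind u = Kind.chance) : G.tr s h u = fun w => (G.prob u w : ℝ) := by
  funext w; simp [Game.tr, hk]

omit [Fintype P] [DecidableEq P] in
theorem tr_player (G : Game V P) (s : List V → V → V → ℝ) (h : List V) (u : V) (i : P)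
    (hk : G.kind u = Kind.player i) : G.tr s h u = s h u := by
  funext w; simp [Game.tr, hk]

omit [Fintype P] [DecidableEq P] in
theorem tr_dist (G : Game V P) {s : List V → V → V → ℝ} (hs : G.Valid s) (h : List V) (u : V)
    (hu : G.kind u ≠ Kind.terminal) : G.IsDist u (G.tr s h u) := by
  cases hk : G.kind u with
  | player i => rw [tr_player G s h u i hk]; exact hs h u i hk
  | chance =>
    rw [tr_chance G s h u hk]
    refine ⟨fun w => ?_, ?_, fun w hw => ?_⟩
    · show (0 : ℝ) ≤ (G.prob u w : ℝ)
      exact_mod_cast G.prob_nonneg u w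
    · show ∑ w, (G.prob u w : ℝ) = 1
      exact_mod_cast G.prob_sum u hk
    · have hw' : (G.prob u w : ℝ) ≠ 0 := hw
      exact G.prob_edge u w hk (by exact_mod_cast hw')
  | terminal => exact absurd hk hu

omit [Fintype P] [DecidableEq P] in
theorem pay_le (G : Game V P) {s : List V → V → V → ℝ} (hs : G.Valid s) (i : P) (F : V → ℝ)
    (h0 : ∀ u, 0 ≤ F u) (ht : ∀ u, G.kind u = Kind.terminal → (G.rew u i : ℝ) ≤ F u)
    (hn : ∀ h u, G.kind u ≠ Kind.terminal → ∑ w, G.tr s h u w * F w ≤ F u) :
    ∀ n h u, G.pay s i n h u ≤ F u := by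
  intro n
  induction n with
  | zero =>
    intro h u
    by_cases hu : G.kind u = Kind.terminal
    · rw [pay_term G s i 0 h u hu]; exact ht u hu
    · rw [pay_zero G s i h u hu]; exact h0 u
  | succ n ih =>
    intro h u
    by_cases hu : G.kind u = Kind.terminal
    · rw [pay_term G s i _ h u hu]; exact ht u hu
    · rw [pay_succ G s i n h u hu]
      refine le_trans (sum_le_sum fun w _ => ?_) (hn h u hu)
      exact mul_le_mul_of_nonneg_left (ih _ w) ((tr_dist G hs h u hu).1 w)

omit [Fintype P] [DecidableEq P] in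
theorem E_le (G : Game V P) {s : List V → V → V → ℝ} (hs : G.Valid s) (i : P) (F : V → ℝ)
    (h0 : ∀ u, 0 ≤ F u) (ht : ∀ u, G.kind u = Kind.terminal → (G.rew u i : ℝ) ≤ F u)
    (hn : ∀ h u, G.kind u ≠ Kind.terminal → ∑ w, G.tr s h u w * F w ≤ F u) :
    G.E s i ≤ F G.init :=
  ciSup_le fun n => pay_le G hs i F h0 ht hn n [] _

omit [Fintype P] [DecidableEq P] in
theorem pay_le_one (G : Game V P) {s : List V → V → V → ℝ} (hs : G.Valid s) (i : P) :
    ∀ n h u, G.pay s i n h u ≤ 1 := by
  refine pay_le G hs i (fun _ => 1) (fun _ => zero_le_one) (fun u _ => ?_) (fun h u hu => ?_)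
  · exact_mod_cast (G.rew_mem u i).2
  · simp [(tr_dist G hs h u hu).2.1]

omit [Fintype P] [DecidableEq P] in
theorem pay_nonneg (G : Game V P) {s : List V → V → V → ℝ} (hs : G.Valid s) (i : P) :
    ∀ n h u, 0 ≤ G.pay s i n h u := by
  intro n
  induction n with
  | zero =>
    intro h u
    by_cases hu : G.kind u = Kind.terminal
    · rw [pay_term G s i 0 h u hu]; exact_mod_cast (G.rew_mem u i).1
    · rw [pay_zero G s i h u hu]
  | succ n ih =>
    intro h u
    by_cases hu : G.kind u = Kind.terminal
    · rw [pay_term G s i _ h u hu]; exact_mod_cast (G.rew_mem u i).1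
    · rw [pay_succ G s i n h u hu]
      exact sum_nonneg fun w _ => mul_nonneg ((tr_dist G hs h u hu).1 w) (ih _ w)

omit [Fintype P] [DecidableEq P] in
theorem pay_mono (G : Game V P) {s : List V → V → V → ℝ} (hs : G.Valid s) (i : P) :
    ∀ n h u, G.pay s i n h u ≤ G.pay s i (n + 1) h u := by
  intro n
  induction n with
  | zero =>
    intro h u
    by_cases hu : G.kind u = Kind.terminal
    · rw [pay_term G s i 0 h u hu, pay_term G s i _ h u hu]
    · rw [pay_zero G s i h u hu]; exact pay_nonneg G hs i _ _ _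
  | succ n ih =>
    intro h u
    by_cases hu : G.kind u = Kind.terminal
    · rw [pay_term G s i _ h u hu, pay_term G s i _ h u hu]
    · rw [pay_succ G s i n h u hu, pay_succ G s i (n + 1) h u hu]
      exact sum_le_sum fun w _ =>
        mul_le_mul_of_nonneg_left (ih _ w) ((tr_dist G hs h u hu).1 w)

omit [Fintype P] [DecidableEq P] in
theorem pay_hist (G : Game V P) (σ : V → V → ℝ) (i : P) :
    ∀ n h u, G.pay (fun _ => σ) i n h u = G.pay (fun _ => σ) i n [] u := by
  intro n
  induction n with
  | zero =>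
    intro h u
    by_cases hu : G.kind u = Kind.terminal
    · rw [pay_term G _ i 0 h u hu, pay_term G _ i _ _ u hu]
    · rw [pay_zero G _ i h u hu, pay_zero G _ i _ u hu]
  | succ n ih =>
    intro h u
    by_cases hu : G.kind u = Kind.terminal
    · rw [pay_term G _ i _ h u hu, pay_term G _ i _ _ u hu]
    · rw [pay_succ G _ i n h u hu, pay_succ G _ i n _ u hu]
      refine sum_congr rfl fun w _ => ?_
      rw [ih (u :: h) w, ih [u] w]
      rfl

/-- value of a stationary profile from a vertex -/
noncomputable def Game.W (G : Game V P) (σ : V → V → ℝ) (i : P) (u : V) : ℝ :=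
  ⨆ n, G.pay (fun _ => σ) i n [] u

omit [Fintype P] [DecidableEq P] in
theorem stat_valid (G : Game V P) {σ : V → V → ℝ} (hσ : G.Stat σ) : G.Valid (fun _ => σ) :=
  fun _ u i hu => hσ u i hu

omit [Fintype P] [DecidableEq P] in
theorem W_bdd (G : Game V P) {σ : V → V → ℝ} (hσ : G.Stat σ) (i : P) (u : V) :
    BddAbove (Set.range fun n => G.pay (fun _ => σ) i n [] u) :=
  ⟨1, by rintro _ ⟨n, rfl⟩; exact pay_le_one G (stat_valid G hσ) i n [] u⟩

omit [Fintype P] [DecidableEq P] in
theorem W_le_one (G : Game V P) {σ : V → V → ℝ} (hσ : G.Stat σ) (i : P) (u : V) :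
    G.W σ i u ≤ 1 :=
  ciSup_le fun n => pay_le_one G (stat_valid G hσ) i n [] u

omit [Fintype P] [DecidableEq P] in
theorem W_nonneg (G : Game V P) {σ : V → V → ℝ} (hσ : G.Stat σ) (i : P) (u : V) :
    0 ≤ G.W σ i u :=
  le_trans (pay_nonneg G (stat_valid G hσ) i 0 [] u) (le_ciSup (W_bdd G hσ i u) 0)

omit [Fintype P] [DecidableEq P] in
theorem W_term (G : Game V P) (σ : V → V → ℝ) (i : P) (u : V)
    (hu : G.kind u = Kind.terminal) : G.W σ i u = G.rew u i := by
  unfold Game.W
  simp [pay_term G _ i _ _ u hu]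

omit [Fintype P] [DecidableEq P] in
theorem W_step (G : Game V P) {σ : V → V → ℝ} (hσ : G.Stat σ) (i : P) (u : V)
    (hu : G.kind u ≠ Kind.terminal) :
    ∑ w, G.tr (fun _ => σ) [] u w * G.W σ i w ≤ G.W σ i u := by
  have hT : ∀ w, Tendsto (fun n => G.pay (fun _ => σ) i n [] w) atTop (𝓝 (G.W σ i w)) :=
    fun w => tendsto_atTop_ciSup
      (monotone_nat_of_le_succ fun n => pay_mono G (stat_valid G hσ) i n [] w) (W_bdd G hσ i w)
  have h1 : Tendsto (fun n => ∑ w, G.tr (fun _ => σ) [] u w * G.pay (fun _ => σ) i n [] w)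
      atTop (𝓝 (∑ w, G.tr (fun _ => σ) [] u w * G.W σ i w)) :=
    tendsto_finset_sum _ fun w _ => (hT w).const_mul _
  refine le_of_tendsto' h1 fun n => ?_
  have h2 := le_ciSup (W_bdd G hσ i u) (n + 1)
  simp only [pay_succ G _ i n [] u hu] at h2
  refine le_trans (le_of_eq ?_) h2
  refine sum_congr rfl fun w _ => ?_
  rw [pay_hist G σ i n [u] w]

/-- a distribution supported on two points -/
theorem sum_two [DecidableEq V] (d f : V → ℝ) (a b : V) (h1 : ∑ w, d w = 1)
    (hs : ∀ w, d w ≠ 0 → w = a ∨ w = b) :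
    ∑ w, d w * f w = (if a = b then 0 else d a) * f a + (1 - (if a = b then 0 else d a)) * f b := by
  have key : ∀ g : V → ℝ, ∑ w, d w * g w = ∑ w ∈ ({a, b} : Finset V), d w * g w := by
    intro g
    symm
    refine sum_subset (subset_univ _) fun w _ hw => ?_
    have : d w = 0 := by
      by_contra h
      rcases hs w h with rfl | rfl <;> simp at hw
    simp [this]
  have k1 := key (fun _ => 1)
  simp only [mul_one, h1] at k1
  rw [key f]
  by_cases hab : a = b
  · subst hab
    simp at k1 ⊢
    rw [← k1]; ring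
  · rw [sum_pair hab] at k1 ⊢
    simp only [hab, if_false]
    have : d b = 1 - d a := by linarith
    rw [this]

theorem poly_lt_exp (p : Polynomial ℕ) : ∃ t₀, ∀ t, t₀ ≤ t → p.eval t < 2 ^ t := by
  have key : ∀ p : Polynomial ℕ,
      Tendsto (fun t : ℕ => ((p.eval t : ℕ) : ℝ) / 2 ^ t) atTop (𝓝 0) := by
    intro p
    induction p using Polynomial.induction_on' with
    | add p q hp hq =>
      have := hp.add hq
      simp only [add_zero] at this
      refine this.congr fun t => ?_
      simp [add_div]
    | monomial n a =>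
      have := (tendsto_pow_const_div_const_pow_of_one_lt n (r := 2) (by norm_num)).const_mul (a : ℝ)
      simp only [mul_zero] at this
      refine this.congr fun t => ?_
      simp [Polynomial.eval_monomial, mul_div_assoc]
  have := (key p).eventually (gt_mem_nhds (show (0 : ℝ) < 1 by norm_num))
  obtain ⟨t₀, ht⟩ := eventually_atTop.1 this
  refine ⟨t₀, fun t h => ?_⟩
  have h2 := ht t h
  rw [div_lt_one (by positivity)] at h2
  exact_mod_cast h2

theorem poly_mono (p : Polynomial ℕ) {a b : ℕ} (h : a ≤ b) : p.eval a ≤ p.eval b := by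
  induction p using Polynomial.induction_on' with
  | add p q hp hq => simp only [Polynomial.eval_add]; omega
  | monomial n c =>
    simp only [Polynomial.eval_monomial]
    exact Nat.mul_le_mul_left _ (Nat.pow_le_pow_left h n)

end Pool.Agent.H37.Sne
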