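import Pool.Agent.H37.Sne1

namespace Pool.Agent.H37.Sne

open Finset

abbrev Ev (m : ℕ) := Option (Fin (m + 2) × Bool)

inductive Vx (m : ℕ) where
  | top : Vx m
  | bot : Vx m
  | mid : Vx m
  | coin (c : Fin (m + 2)) : Vx m
  | rt (e : Ev m) (i : Fin (2 * m + 1)) : Vx m
  | gd (e : Ev m) (X : Fin (2 * m)) (j : Fin (2 * m + 1)) : Vx m
  deriving DecidableEq, Fintype

abbrev Pl (m : ℕ) := Option (Fin (2 * m))

variable {m : ℕ}

def cn (m n : ℕ) : Vx m := if h : n < m + 2 then .coin ⟨n, h⟩ else .bot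

def tgt (X : Fin (2 * m)) : Ev m → Vx m
  | none => cn m (X.val / 2 + 2)
  | some (c, b) =>
    if c.val = X.val / 2 + 2 then
      (if b then (if X.val % 2 = 0 then .top else .bot) else cn m (X.val / 2 + 1))
    else if c.val = X.val / 2 + 1 then (if b then cn m (X.val / 2) else cn m (X.val / 2 + 2))
    else if c.val = X.val / 2 then
      (if b then (if X.val % 2 = 0 then .bot else .top) else cn m (X.val / 2 + 2))
    else .bot

def dflt : Ev m → Vx m
  | none => .mid
  | some _ => .bot

def nx : Vx m → Vx m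
  | .coin c => .rt (some (c, false)) 0
  | .rt e i => if h : i.val < 2 * m then .rt e ⟨i.val + 1, by omega⟩ else dflt e
  | .gd e X j => if h : j.val < 2 * m then .gd e X ⟨j.val + 1, by omega⟩ else tgt X e
  | u => u

def op : Vx m → Vx m
  | .coin c => .rt (some (c, true)) 0
  | .rt e i => if h : i.val < 2 * m then .gd e ⟨i.val, h⟩ 0 else dflt e
  | .gd e X j => if j.val < 2 * m ∧ j.val ≠ X.val then .top else nx (.gd e X j)
  | u => u

def knd : Vx m → Kind (Pl m)
  | .top => .terminal
  | .bot => .terminal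
  | .mid => .terminal
  | .coin c => if c.val < 2 then .chance else .player none
  | .rt _ i => if h : i.val < 2 * m then .player (some ⟨i.val, h⟩) else .chance
  | .gd _ _ j => if h : j.val < 2 * m then .player (some ⟨j.val, h⟩) else .chance

def qq : Vx m → ℚ
  | .coin _ => 1 / 8
  | _ => 0

def rw0 : Vx m → Pl m → ℚ
  | .top, some _ => 1
  | .bot, some _ => 0
  | _, _ => 1 / 2

theorem qq_mem (u : Vx m) : 0 ≤ qq u ∧ qq u ≤ 1 := by
  cases u <;> simp [qq] <;> norm_num

def game (m : ℕ) : Game (Vx m) (Pl m) where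
  kind := knd
  edge u w := knd u ≠ .terminal ∧ (w = op u ∨ w = nx u)
  prob u w := (if w = op u then qq u else 0) + (if w = nx u then 1 - qq u else 0)
  rew := rw0
  init := .rt none 0
  prob_nonneg u w := by
    have := qq_mem u
    split_ifs <;> linarith [this.1, this.2]
  prob_sum u _ := by simp [sum_add_distrib]
  prob_edge u w hk hw := by
    refine ⟨by rw [hk]; simp, ?_⟩
    by_contra h
    push Not at h
    simp [h.1, h.2] at hw
  edge_exists u i hk := ⟨nx u, by rw [hk]; simp, Or.inr rfl⟩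
  rew_mem t i := by
    cases t <;> cases i <;> simp [rw0] <;> norm_num

theorem coin_ne (c : Fin (m + 2)) : op (Vx.coin c) ≠ nx (Vx.coin c) := by
  simp [op, nx]

/-- weight of the option edge -/
noncomputable def wt (d : Vx m → ℝ) (u : Vx m) : ℝ := if op u = nx u then 0 else d (op u)

theorem dist_sum {u : Vx m} {d : Vx m → ℝ} (hd : (game m).IsDist u d) (f : Vx m → ℝ) :
    ∑ w, d w * f w = wt d u * f (op u) + (1 - wt d u) * f (nx u) :=
  sum_two d f (op u) (nx u) hd.2.1 fun w hw => (hd.2.2 w hw).2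

theorem wt_mem {u : Vx m} {d : Vx m → ℝ} (hd : (game m).IsDist u d) :
    0 ≤ wt d u ∧ wt d u ≤ 1 := by
  unfold wt
  split_ifs with h
  · simp
  · refine ⟨hd.1 _, ?_⟩
    rw [← hd.2.1]
    exact single_le_sum (fun w _ => hd.1 w) (mem_univ _)

section lower

variable {σ : Vx m → Vx m → ℝ}

theorem W_two (hσ : (game m).Stat σ) (i : Pl m) (u : Vx m) (hu : knd u ≠ .terminal) :
    wt ((game m).tr (fun _ => σ) [] u) u * (game m).W σ i (op u) +
      (1 - wt ((game m).tr (fun _ => σ) [] u) u) * (game m).W σ i (nx u) ≤ (game m).W σ i u := by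
  have hd := tr_dist (game m) (stat_valid _ hσ) [] u hu
  rw [← dist_sum hd]
  exact W_step _ hσ i u hu

theorem W_min (hσ : (game m).Stat σ) (i : Pl m) (u : Vx m) (hu : knd u ≠ .terminal) (r : ℝ)
    (h1 : r ≤ (game m).W σ i (op u)) (h2 : r ≤ (game m).W σ i (nx u)) :
    r ≤ (game m).W σ i u := by
  have h := W_two hσ i u hu
  have hw := wt_mem (tr_dist (game m) (stat_valid _ hσ) [] u hu)
  nlinarith [hw.1, hw.2]

/-- the deviation: always take the option edge -/
noncomputable def tau : Vx m → Vx m → ℝ := fun u w => if w = op u then 1 else 0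

theorem tau_dist (u : Vx m) (hu : knd u ≠ .terminal) : (game m).IsDist u (tau u) := by
  refine ⟨fun w => ?_, ?_, fun w hw => ⟨hu, Or.inl ?_⟩⟩
  · unfold tau; split_ifs <;> norm_num
  · simp [tau]
  · by_contra h; simp [tau, h] at hw

noncomputable def dv (σ : Vx m → Vx m → ℝ) (X : Fin (2 * m)) : Vx m → Vx m → ℝ :=
  fun u => if knd u = .player (some X) then tau u else σ u

theorem dv_stat (hσ : (game m).Stat σ) (X : Fin (2 * m)) : (game m).Stat (dv σ X) := by
  intro u i hu
  unfold dv
  split_ifs with h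
  · exact tau_dist u (by rw [h]; simp)
  · exact hσ u i hu

theorem W_own (hσ : (game m).Stat σ) (X : Fin (2 * m)) (u : Vx m)
    (hu : knd u = .player (some X)) :
    (game m).W (dv σ X) (some X) (op u) ≤ (game m).W (dv σ X) (some X) u := by
  have h := W_step _ (dv_stat hσ X) (some X) u (by show knd u ≠ _; rw [hu]; simp)
  rw [tr_player _ _ _ u _ hu] at h
  simpa [dv, hu, tau] using h

theorem W_top (σ : Vx m → Vx m → ℝ) (X : Fin (2 * m)) : (game m).W σ (some X) .top = 1 := by
  rw [W_term _ _ _ _ rfl]; simp [game, rw0]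

theorem knd_gd (e : Ev m) (Y : Fin (2 * m)) (j : Fin (2 * m + 1)) :
    knd (Vx.gd e Y j) ≠ .terminal := by
  simp only [knd]; split_ifs <;> simp

theorem knd_rt (e : Ev m) (j : Fin (2 * m + 1)) : knd (Vx.rt e j) ≠ .terminal := by
  simp only [knd]; split_ifs <;> simp

theorem knd_coin (c : Fin (m + 2)) : knd (Vx.coin c) ≠ .terminal := by
  simp only [knd]; split_ifs <;> simp

theorem gd_own (hσ : (game m).Stat σ) (X : Fin (2 * m)) (e : Ev m) :
    ∀ d j (hj : j + d = 2 * m), (game m).W (dv σ X) (some X) (tgt X e) ≤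
      (game m).W (dv σ X) (some X) (.gd e X ⟨j, by omega⟩) := by
  intro d
  induction d with
  | zero =>
    intro j hj
    have hj' : ¬ j < 2 * m := by omega
    refine W_min (dv_stat hσ X) _ _ (knd_gd _ _ _) _ ?_ ?_ <;> simp [op, nx, hj']
  | succ d ih =>
    intro j hj
    have hj' : j < 2 * m := by omega
    have h2 : (game m).W (dv σ X) (some X) (tgt X e) ≤
        (game m).W (dv σ X) (some X) (nx (.gd e X ⟨j, by omega⟩)) := by
      simp only [nx, hj', dif_pos]
      exact ih (j + 1) (by omega)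
    refine W_min (dv_stat hσ X) _ _ (knd_gd _ _ _) _ ?_ h2
    simp only [op]
    split_ifs
    · rw [W_top]; exact W_le_one _ (dv_stat hσ X) _ _
    · exact h2

theorem gd_other (hσ : (game m).Stat σ) (X Y : Fin (2 * m)) (hY : Y ≠ X) (e : Ev m) :
    ∀ d j (hj : j + d = X.val),
      1 ≤ (game m).W (dv σ X) (some X) (.gd e Y ⟨j, by have := X.2; omega⟩) := by
  intro d
  have hX := X.2
  induction d with
  | zero =>
    intro j hj
    have hj' : j < 2 * m := by omega
    have hjX : j = X.val := by omega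
    have hk : knd (Vx.gd e Y ⟨j, by omega⟩) = .player (some X) := by
      simp only [knd, hj', dif_pos]
      congr 2
      exact Fin.ext hjX
    have h := W_own hσ X _ hk
    have hne : j ≠ Y.val := by
      intro h; apply hY; apply Fin.ext; omega
    simp only [op, hj', hne, ne_eq, not_false_eq_true, and_self, if_true, W_top] at h
    exact h
  | succ d ih =>
    intro j hj
    have hj' : j < 2 * m := by omega
    have h2 : 1 ≤ (game m).W (dv σ X) (some X) (nx (.gd e Y ⟨j, by omega⟩)) := by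
      simp only [nx, hj', dif_pos]
      exact ih (j + 1) (by omega)
    refine W_min (dv_stat hσ X) _ _ (knd_gd _ _ _) _ ?_ h2
    simp only [op]
    split_ifs
    · rw [W_top]
    · exact h2

theorem rt_ge (hσ : (game m).Stat σ) (X : Fin (2 * m)) (e : Ev m) :
    ∀ d j (hj : j + d = X.val), (game m).W (dv σ X) (some X) (tgt X e) ≤
      (game m).W (dv σ X) (some X) (.rt e ⟨j, by have := X.2; omega⟩) := by
  intro d
  have hX := X.2
  induction d with
  | zero =>
    intro j hj
    have hj' : j < 2 * m := by omega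
    have hjX : j = X.val := by omega
    have hk : knd (Vx.rt e ⟨j, by omega⟩) = .player (some X) := by
      simp only [knd, hj', dif_pos]
      congr 2
      exact Fin.ext hjX
    have h := W_own hσ X _ hk
    simp only [op, hj', dif_pos] at h
    have hXe : (⟨j, hj'⟩ : Fin (2 * m)) = X := Fin.ext hjX
    rw [hXe] at h
    exact le_trans (gd_own hσ X e (2 * m) 0 (by omega)) h
  | succ d ih =>
    intro j hj
    have hj' : j < 2 * m := by omega
    refine W_min (dv_stat hσ X) _ _ (knd_rt _ _) _ ?_ ?_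
    · simp only [op, hj', dif_pos]
      refine le_trans (W_le_one _ (dv_stat hσ X) _ _) ?_
      exact gd_other hσ X ⟨j, hj'⟩ (by intro h; rw [← h] at hj; simp at hj) e X.val 0 (by omega)
    · simp only [nx, hj', dif_pos]
      exact ih (j + 1) (by omega)

theorem rt_zero (hσ : (game m).Stat σ) (X : Fin (2 * m)) (e : Ev m) :
    (game m).W (dv σ X) (some X) (tgt X e) ≤ (game m).W (dv σ X) (some X) (.rt e 0) :=
  rt_ge hσ X e X.val 0 (by omega)

/-- success probability of coin `n` -/
noncomputable def dl (σ : Vx m → Vx m → ℝ) (n : ℕ) : ℝ :=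
  (game m).tr (fun _ => σ) [] (cn m n) (op (cn m n))

theorem dl_mem (hσ : (game m).Stat σ) {n : ℕ} (hn : n < m + 2) : 0 ≤ dl σ n ∧ dl σ n ≤ 1 := by
  have := wt_mem (tr_dist (game m) (stat_valid _ hσ) [] (.coin ⟨n, hn⟩) (knd_coin _))
  simpa [wt, coin_ne, dl, cn, hn] using this

theorem coin_ge (hσ : (game m).Stat σ) (X : Fin (2 * m)) {n : ℕ} (hn : n < m + 2) :
    dl σ n * (game m).W (dv σ X) (some X) (tgt X (some (⟨n, hn⟩, true))) +
      (1 - dl σ n) * (game m).W (dv σ X) (some X) (tgt X (some (⟨n, hn⟩, false))) ≤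
      (game m).W (dv σ X) (some X) (cn m n) := by
  have h := W_two (dv_stat hσ X) (some X) (.coin ⟨n, hn⟩) (knd_coin _)
  have e1 : wt ((game m).tr (fun _ => dv σ X) [] (.coin ⟨n, hn⟩)) (.coin ⟨n, hn⟩) = dl σ n := by
    simp only [wt, coin_ne, if_false, dl, cn, hn, dif_pos]
    by_cases h2 : n < 2
    · have hk : (game m).kind (.coin ⟨n, hn⟩) = .chance := by simp [game, knd, h2]
      rw [tr_chance _ _ _ _ hk, tr_chance _ _ _ _ hk]
    · have hk : (game m).kind (.coin ⟨n, hn⟩) = .player none := by simp [game, knd, h2]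
      rw [tr_player _ _ _ _ _ hk, tr_player _ _ _ _ _ hk]
      have hk' : knd (Vx.coin ⟨n, hn⟩) = .player none := hk
      simp [dv, hk']
  rw [e1] at h
  have hm := dl_mem hσ hn
  have h1 := rt_zero hσ X (some (⟨n, hn⟩, true))
  have h2 := rt_zero hσ X (some (⟨n, hn⟩, false))
  simp only [op, nx] at h
  simp only [cn, hn, dif_pos]
  nlinarith [hm.1, hm.2]

theorem dl_step (hσ : (game m).Stat σ)
    (hW : ∀ X : Fin (2 * m), (game m).W (dv σ X) (some X) (.rt none 0) ≤ 3 / 4)
    {j : ℕ} (hj : j < m) (h0 : 0 < dl σ j) (h1 : 0 < dl σ (j + 1)) :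
    0 < dl σ (j + 2) ∧ dl σ (j + 2) ≤ 3 * dl σ (j + 1) * dl σ j := by
  have ma := dl_mem hσ (show j + 2 < m + 2 by omega)
  have mb := dl_mem hσ (show j + 1 < m + 2 by omega)
  have mc := dl_mem hσ (show j < m + 2 by omega)
  constructor
  · set X : Fin (2 * m) := ⟨2 * j + 1, by omega⟩ with hX
    have hd : X.val / 2 = j := by simp only [hX]; omega
    have hr : X.val % 2 ≠ 0 := by simp only [hX]; omega
    have a2 := coin_ge hσ X (show j + 2 < m + 2 by omega)
    have a1 := coin_ge hσ X (show j + 1 < m + 2 by omega)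
    have a0 := coin_ge hσ X (show j < m + 2 by omega)
    have a3 := le_trans (rt_zero hσ X none) (hW X)
    simp [tgt, hd, hr, W_top] at a2 a1 a0 a3
    have hb := W_nonneg _ (dv_stat hσ X) (some X) .bot
    rcases ma.1.lt_or_eq with h | h
    · exact h
    · exfalso
      rw [← h] at a2
      have hbc : 0 < dl σ (j + 1) * dl σ j := mul_pos h1 h0
      nlinarith [mul_le_mul_of_nonneg_left a0 mb.1]
  · set X : Fin (2 * m) := ⟨2 * j, by omega⟩ with hX
    have hd : X.val / 2 = j := by simp only [hX]; omega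
    have hr : X.val % 2 = 0 := by simp only [hX]; omega
    have a2 := coin_ge hσ X (show j + 2 < m + 2 by omega)
    have a1 := coin_ge hσ X (show j + 1 < m + 2 by omega)
    have a0 := coin_ge hσ X (show j < m + 2 by omega)
    have a3 := le_trans (rt_zero hσ X none) (hW X)
    simp [tgt, hd, hr, W_top] at a2 a1 a0 a3
    have hb := W_nonneg _ (dv_stat hσ X) (some X) .bot
    set a := dl σ (j + 2)
    set b := dl σ (j + 1)
    set c := dl σ j
    set w2 := (game m).W (dv σ X) (some X) (cn m (j + 2))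
    set w1 := (game m).W (dv σ X) (some X) (cn m (j + 1))
    set w0 := (game m).W (dv σ X) (some X) (cn m j)
    have b0 : (1 - c) * w2 ≤ w0 := by nlinarith [mul_nonneg mc.1 hb]
    have b1 : (1 - b * c) * w2 ≤ w1 := by nlinarith [mul_le_mul_of_nonneg_left b0 mb.1]
    have b2 : a + (1 - a) * ((1 - b * c) * w2) ≤ w2 := by
      nlinarith [mul_le_mul_of_nonneg_left b1 (sub_nonneg.2 ma.2)]
    have hbc : 0 ≤ b * c := mul_nonneg mb.1 mc.1
    have b3 : a ≤ (a + (1 - a) * (b * c)) * w2 := by nlinarith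
    have b4 : 0 ≤ a + (1 - a) * (b * c) := by nlinarith [mul_nonneg (sub_nonneg.2 ma.2) hbc]
    have b5 : a ≤ (a + (1 - a) * (b * c)) * (3 / 4) :=
      le_trans b3 (mul_le_mul_of_nonneg_left a3 b4)
    nlinarith [mul_nonneg ma.1 hbc]

theorem dl_small (σ : Vx m → Vx m → ℝ) {n : ℕ} (hn : n < 2) : dl σ n = 1 / 8 := by
  have hn' : n < m + 2 := by omega
  have hk : (game m).kind (.coin ⟨n, hn'⟩) = .chance := by simp [game, knd, hn]
  simp only [dl, cn, hn', dif_pos]
  rw [tr_chance _ _ _ _ hk]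
  simp [game, coin_ne, qq]

theorem dl_bound (hσ : (game m).Stat σ)
    (hW : ∀ X : Fin (2 * m), (game m).W (dv σ X) (some X) (.rt none 0) ≤ 3 / 4) :
    ∀ n, n < m + 2 → 0 < dl σ n ∧ 3 * dl σ n ≤ (1 / 2) ^ (2 ^ (n / 2)) := by
  intro n
  induction n using Nat.strong_induction_on with
  | _ n ih =>
    intro hn
    by_cases h2 : n < 2
    · rw [dl_small σ h2]
      have : n / 2 = 0 := by omega
      rw [this]; norm_num
    · obtain ⟨j, rfl⟩ : ∃ j, n = j + 2 := ⟨n - 2, by omega⟩
      obtain ⟨p0, q0⟩ := ih j (by omega) (by omega)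
      obtain ⟨p1, q1⟩ := ih (j + 1) (by omega) (by omega)
      obtain ⟨p2, q2⟩ := dl_step hσ hW (show j < m by omega) p0 p1
      refine ⟨p2, ?_⟩
      have e1 : (j + 2) / 2 = j / 2 + 1 := by omega
      have q1' : 3 * dl σ (j + 1) ≤ (1 / 2) ^ (2 ^ (j / 2)) := by
        refine le_trans q1 (pow_le_pow_of_le_one (by norm_num) (by norm_num) ?_)
        exact Nat.pow_le_pow_right (by norm_num) (by omega)
      rw [e1, pow_succ, mul_two, pow_add]
      calc 3 * dl σ (j + 2) ≤ (3 * dl σ (j + 1)) * (3 * dl σ j) := by nlinarith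
        _ ≤ _ := mul_le_mul q1' q0 (by positivity) (by positivity)

end lower

end Pool.Agent.H37.Sne
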