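import Pool.Agent.H37.Sne2

namespace Pool.Agent.H37.Sne

open Finset

variable {m : ℕ}

noncomputable def de : ℕ → ℝ
  | 0 => 1 / 8
  | 1 => 1 / 8
  | n + 2 => de (n + 1) * de n / (1 + de (n + 1) * de n)

theorem de_mem (n : ℕ) : 0 ≤ de n ∧ de n ≤ 1 := by
  induction n using Nat.strong_induction_on with
  | _ n ih =>
    match n with
    | 0 => simp [de]; norm_num
    | 1 => simp [de]; norm_num
    | n + 2 =>
      have h := mul_nonneg (ih (n + 1) (by omega)).1 (ih n (by omega)).1
      rw [de]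
      refine ⟨by positivity, ?_⟩
      rw [div_le_one (by positivity)]; linarith

theorem de_eq (n : ℕ) : de (n + 2) = (1 - de (n + 2)) * (de (n + 1) * de n) := by
  have h := mul_nonneg (de_mem (n + 1)).1 (de_mem n).1
  rw [de]
  field_simp
  ring

noncomputable def aa : Vx m → ℝ
  | .coin c => de c.val
  | _ => 0

theorem aa_mem (u : Vx m) : 0 ≤ aa u ∧ aa u ≤ 1 := by
  cases u <;> simp [aa, de_mem]

/-- the equilibrium profile -/
noncomputable def eqm : Vx m → Vx m → ℝ := fun u w =>
  (if w = op u then aa u else 0) + (if w = nx u then 1 - aa u else 0)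

theorem eqm_stat : (game m).Stat eqm := by
  intro u i hu
  have ha := aa_mem u
  refine ⟨fun w => ?_, ?_, fun w hw => ⟨?_, ?_⟩⟩
  · unfold eqm; split_ifs <;> linarith [ha.1, ha.2]
  · simp [eqm, sum_add_distrib]
  · show knd u ≠ _
    have : knd u = .player i := hu
    rw [this]; simp
  · by_contra h
    push Not at h
    simp [eqm, h.1, h.2] at hw

theorem eqm_sum (u : Vx m) (f : Vx m → ℝ) :
    ∑ w, eqm u w * f w = aa u * f (op u) + (1 - aa u) * f (nx u) := by
  simp [eqm, add_mul, sum_add_distrib]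

theorem qq_aa (u : Vx m) (hu : knd u = .chance) : (qq u : ℝ) = aa u := by
  cases u with
  | coin c =>
    have h2 : c.val < 2 := by
      by_contra h; simp [knd, h] at hu
    have : c.val = 0 ∨ c.val = 1 := by omega
    rcases this with h | h <;> simp [qq, aa, h, de]
  | _ => simp [qq, aa]

theorem tr_eqm (s : List (Vx m) → Vx m → Vx m → ℝ) (h : List (Vx m)) (u : Vx m)
    (hu : knd u ≠ .terminal) (hs : ∀ i, knd u = .player i → s h u = eqm u) (f : Vx m → ℝ) :
    ∑ w, (game m).tr s h u w * f w = aa u * f (op u) + (1 - aa u) * f (nx u) := by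
  cases hk : knd u with
  | player i => rw [tr_player _ _ _ u i hk, hs i hk, eqm_sum]
  | chance =>
    rw [tr_chance _ _ _ u hk, ← eqm_sum]
    refine sum_congr rfl fun w _ => ?_
    congr 1
    simp only [game, eqm, ← qq_aa u hk]
    split_ifs <;> simp
  | terminal => exact absurd hk hu

theorem dev_valid (i : Pl m) (τ : List (Vx m) → Vx m → Vx m → ℝ)
    (hτ : ∀ h u, (game m).kind u = Kind.player i → (game m).IsDist u (τ h u)) :
    (game m).Valid ((game m).dev eqm i τ) := by
  intro h u j hu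
  unfold Game.dev
  split_ifs with hk
  · exact hτ h u hk
  · exact eqm_stat u j hu

noncomputable def sg (X : Fin (2 * m)) : ℝ := if X.val % 2 = 0 then -1 else 1

noncomputable def Uc (X : Fin (2 * m)) (n : ℕ) : ℝ :=
  if n = X.val / 2 + 2 then 1 / 2
  else if n = X.val / 2 + 1 then 1 / 2 + sg X * (de (X.val / 2 + 1) * de (X.val / 2)) / 2
  else if n = X.val / 2 then 1 / 2 + sg X * de (X.val / 2) / 2 else 0

noncomputable def U (X : Fin (2 * m)) : Vx m → ℝ
  | .top => 1
  | .mid => 1 / 2
  | .coin c => Uc X c.val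
  | _ => 0

theorem Uc_mem (X : Fin (2 * m)) (n : ℕ) : 0 ≤ Uc X n ∧ Uc X n ≤ 1 := by
  have h0 := de_mem (X.val / 2)
  have h1 := de_mem (X.val / 2 + 1)
  have h2 := mul_nonneg h1.1 h0.1
  have h3 : de (X.val / 2 + 1) * de (X.val / 2) ≤ 1 := by nlinarith [h0.1, h0.2, h1.1, h1.2]
  unfold Uc sg
  split_ifs <;> constructor <;> linarith [h0.1, h0.2]

theorem U_mem (X : Fin (2 * m)) (u : Vx m) : 0 ≤ U X u ∧ U X u ≤ 1 := by
  cases u <;> simp [U, Uc_mem]
  norm_num

theorem U_cn (X : Fin (2 * m)) {n : ℕ} (hn : n < m + 2) : U X (cn m n) = Uc X n := by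
  simp [cn, hn, U]

noncomputable def F (X : Fin (2 * m)) : Vx m → ℝ
  | .rt e i => if i.val ≤ X.val then U X (tgt X e) else U X (dflt e)
  | .gd e Y _ => if Y = X then U X (tgt X e) else 1
  | u => U X u

theorem F_mem (X : Fin (2 * m)) (u : Vx m) : 0 ≤ F X u ∧ F X u ≤ 1 := by
  cases u <;> simp only [F] <;> (try split_ifs) <;> first | exact U_mem _ _ | norm_num

theorem F_cn (X : Fin (2 * m)) (n : ℕ) : F X (cn m n) = U X (cn m n) := by
  unfold cn; split_ifs <;> rfl

theorem F_tgt (X : Fin (2 * m)) (e : Ev m) : F X (tgt X e) = U X (tgt X e) := by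
  rcases e with _ | ⟨c, b⟩
  · exact F_cn _ _
  · simp only [tgt]
    split_ifs <;> first | exact F_cn _ _ | rfl

theorem F_dflt (X : Fin (2 * m)) (e : Ev m) : F X (dflt e) = U X (dflt e) := by
  cases e <;> rfl

theorem U_none (X : Fin (2 * m)) : U X (tgt X none) = 1 / 2 := by
  have := X.2
  simp only [tgt]
  rw [U_cn X (by omega)]
  simp [Uc]

theorem U_dflt (X : Fin (2 * m)) (e : Ev m) : U X (dflt e) ≤ U X (tgt X e) := by
  cases e with
  | none => rw [U_none]; simp [dflt, U]
  | some e => simp only [dflt, U]; exact (U_mem _ _).1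

theorem F_coin (X : Fin (2 * m)) (c : Fin (m + 2)) :
    de c.val * U X (tgt X (some (c, true))) + (1 - de c.val) * U X (tgt X (some (c, false))) ≤
      Uc X c.val := by
  have hX := X.2
  have e2 := U_cn X (show X.val / 2 + 2 < m + 2 by omega)
  have e1 := U_cn X (show X.val / 2 + 1 < m + 2 by omega)
  have e0 := U_cn X (show X.val / 2 < m + 2 by omega)
  have hd := de_eq (X.val / 2)
  by_cases h2 : c.val = X.val / 2 + 2
  · by_cases hr : X.val % 2 = 0
    · simp [tgt, h2, hr, e1, Uc, sg]
      simp only [U]; nlinarith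
    · simp [tgt, h2, hr, e1, Uc, sg]
      simp only [U]; nlinarith
  by_cases h1 : c.val = X.val / 2 + 1
  · simp [tgt, h1, e0, e2, Uc]
    nlinarith
  by_cases h0 : c.val = X.val / 2
  · by_cases hr : X.val % 2 = 0
    · simp [tgt, h0, hr, e2, Uc, sg]
      simp only [U]; nlinarith
    · simp [tgt, h0, hr, e2, Uc, sg]
      simp only [U]; nlinarith
  · simp [tgt, h0, h1, h2, Uc, U]

theorem F_other (X : Fin (2 * m)) (u : Vx m) (hu : knd u ≠ .terminal)
    (ho : knd u ≠ .player (some X)) :
    aa u * F X (op u) + (1 - aa u) * F X (nx u) ≤ F X u := by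
  have hX := X.2
  cases u with
  | top => exact absurd rfl hu
  | bot => exact absurd rfl hu
  | mid => exact absurd rfl hu
  | coin c =>
    have := F_coin X c
    simpa [aa, op, nx, F, U] using this
  | rt e i =>
    simp only [aa, zero_mul, sub_zero, one_mul, zero_add, nx]
    split_ifs with h
    · have hne : i.val ≠ X.val := by
        intro hi; apply ho
        simp only [knd, h, dif_pos]
        congr 2
        exact Fin.ext hi
      simp only [F]
      split_ifs <;> first | exact le_rfl | omega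
    · rw [F_dflt]
      simp only [F]
      rw [if_neg (by omega)]
  | gd e Y j =>
    simp only [aa, zero_mul, sub_zero, one_mul, zero_add, nx]
    by_cases hY : Y = X
    · subst hY
      split_ifs with h
      · simp [F]
      · rw [F_tgt]; simp [F]
    · have : F X (.gd e Y j) = 1 := by simp [F, hY]
      rw [this]; exact (F_mem _ _).2

theorem F_own (X : Fin (2 * m)) (u : Vx m) (ho : knd u = .player (some X)) :
    F X (op u) ≤ F X u ∧ F X (nx u) ≤ F X u := by
  have hX := X.2
  cases u with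
  | top => simp [knd] at ho
  | bot => simp [knd] at ho
  | mid => simp [knd] at ho
  | coin c => simp only [knd] at ho; split_ifs at ho <;> simp at ho
  | rt e i =>
    simp only [knd] at ho
    split_ifs at ho with h
    have hi : (⟨i.val, h⟩ : Fin (2 * m)) = X := by simpa using ho
    have hi' : i.val = X.val := by rw [← hi]
    simp only [op, nx, h, dif_pos, hi, F]
    have c1 : i.val ≤ X.val := by omega
    have c2 : ¬ i.val + 1 ≤ X.val := by omega
    simp only [if_true, c1, c2, if_false]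
    exact ⟨le_rfl, U_dflt X e⟩
  | gd e Y j =>
    simp only [knd] at ho
    split_ifs at ho with h
    have hi : (⟨j.val, h⟩ : Fin (2 * m)) = X := by simpa using ho
    have hi' : j.val = X.val := by rw [← hi]
    by_cases hY : Y = X
    · subst hY
      simp [op, nx, hi', F, hX]
    · have : F X (.gd e Y j) = 1 := by simp [F, hY]
      rw [this]; exact ⟨(F_mem _ _).2, (F_mem _ _).2⟩

theorem dev_le (i : Pl m) (τ : List (Vx m) → Vx m → Vx m → ℝ)
    (hτ : ∀ h u, (game m).kind u = Kind.player i → (game m).IsDist u (τ h u)) :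
    (game m).E ((game m).dev eqm i τ) i ≤ 1 / 2 := by
  have hv := dev_valid i τ hτ
  cases i with
  | none =>
    refine E_le _ hv none (fun _ => 1 / 2) (fun _ => by norm_num) (fun u _ => ?_) (fun h u hu => ?_)
    · cases u <;> simp [game, rw0]
    · rw [← sum_mul, (tr_dist _ hv h u hu).2.1]; simp
  | some X =>
    have h := E_le _ hv (some X) (F X) (fun u => (F_mem X u).1) (fun u hu => ?_)
      (fun h u hu => ?_)
    · have e : F X (game m).init = 1 / 2 := by
        simp only [game, F]
        rw [if_pos (by simp), U_none]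
      rwa [e] at h
    · cases u with
      | top => simp [game, rw0, F, U]
      | bot => simp [game, rw0, F, U]
      | mid => simp [game, rw0, F, U]
      | coin c => exact absurd hu (knd_coin c)
      | rt e i => exact absurd hu (knd_rt e i)
      | gd e Y j => exact absurd hu (knd_gd e Y j)
    · by_cases ho : knd u = .player (some X)
      · have hd := tr_dist _ hv h u hu
        rw [dist_sum hd]
        have hw := wt_mem hd
        have hf := F_own X u ho
        nlinarith [hw.1, hw.2, hf.1, hf.2]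
      · rw [tr_eqm _ h u hu (fun i _ => ?_)]
        · exact F_other X u hu ho
        · have ho' : (game m).kind u ≠ .player (some X) := ho
          simp [Game.dev, ho']

theorem eqm_ge (i : Pl m) : ∀ d j (hj : j + d = 2 * m),
    1 / 2 ≤ (game m).W eqm i (.rt none ⟨j, by omega⟩) := by
  have step : ∀ k : Fin (2 * m + 1),
      (game m).W eqm i (nx (.rt none k)) ≤ (game m).W eqm i (.rt none k) := by
    intro k
    have h := W_step _ eqm_stat i (Vx.rt none k) (knd_rt none k)
    rw [tr_eqm _ _ _ (knd_rt none k) (fun _ _ => rfl)] at h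
    simpa [aa] using h
  intro d
  induction d with
  | zero =>
    intro j hj
    have hj' : ¬ j < 2 * m := by omega
    refine le_trans ?_ (step _)
    simp only [nx, hj', dif_neg, not_false_eq_true, dflt]
    rw [W_term _ _ _ _ rfl]
    cases i <;> simp [game, rw0]
  | succ d ih =>
    intro j hj
    have hj' : j < 2 * m := by omega
    refine le_trans ?_ (step _)
    simp only [nx, hj', dif_pos]
    exact ih (j + 1) (by omega)

theorem eqm_E (i : Pl m) : (game m).E (fun _ => eqm) i = 1 / 2 := by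
  apply le_antisymm
  · have h := dev_le i (fun _ => eqm) (fun _ u hu => eqm_stat u i hu)
    have e : (game m).dev eqm i (fun _ => eqm) = fun _ => eqm := by
      funext h u; simp [Game.dev]
    rwa [e] at h
  · exact eqm_ge i (2 * m) 0 (by omega)

theorem card_Vx : Fintype.card (Vx m) ≤ 40 * (m + 1) ^ 3 := by
  let f : Fin 3 ⊕ Fin (m + 2) ⊕ (Ev m × Fin (2 * m + 1)) ⊕ (Ev m × Fin (2 * m) × Fin (2 * m + 1)) →
      Vx m := fun z => match z with
    | .inl k => if k = 0 then .top else if k = 1 then .bot else .mid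
    | .inr (.inl c) => .coin c
    | .inr (.inr (.inl (e, i))) => .rt e i
    | .inr (.inr (.inr (e, X, j))) => .gd e X j
  have hf : Function.Surjective f := by
    intro u
    cases u with
    | top => exact ⟨.inl 0, rfl⟩
    | bot => exact ⟨.inl 1, rfl⟩
    | mid => exact ⟨.inl 2, rfl⟩
    | coin c => exact ⟨.inr (.inl c), rfl⟩
    | rt e i => exact ⟨.inr (.inr (.inl (e, i))), rfl⟩
    | gd e X j => exact ⟨.inr (.inr (.inr (e, X, j))), rfl⟩
  have h := Fintype.card_le_of_surjective f hf
  simp only [Fintype.card_sum, Fintype.card_prod, Fintype.card_fin, Fintype.card_option,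
    Fintype.card_bool] at h
  refine le_trans h ?_
  nlinarith [Nat.zero_le m, Nat.zero_le (m ^ 2), Nat.zero_le (m ^ 3)]

theorem bits_vals : bits 0 ≤ 9 ∧ bits 1 ≤ 9 ∧ bits (1 / 2) ≤ 9 ∧ bits (1 / 8) ≤ 9 ∧
    bits (7 / 8) ≤ 9 ∧ bits (3 / 8) ≤ 9 ∧ bits (5 / 8) ≤ 9 := by
  refine ⟨?_, ?_, ?_, ?_, ?_, ?_, ?_⟩ <;> norm_num [bits] <;> decide

theorem bits_prob (u w : Vx m) : bits ((game m).prob u w) ≤ 9 := by
  obtain ⟨b0, b1, -, b8, b7, -, -⟩ := bits_vals
  have hq : qq u = 0 ∨ qq u = 1 / 8 := by cases u <;> simp [qq]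
  simp only [game]
  rcases hq with h | h <;> rw [h] <;> split_ifs <;> norm_num <;> assumption

theorem bits_rew (u : Vx m) (i : Pl m) : bits ((game m).rew u i) ≤ 9 := by
  obtain ⟨b0, b1, b2, -⟩ := bits_vals
  cases u <;> cases i <;> simp only [game, rw0] <;> assumption

theorem size_le : (game m).size (fun _ => 3 / 8) (fun _ => 5 / 8) (1 / 8) ≤
    30000 * (m + 1) ^ 6 := by
  obtain ⟨-, -, -, b8, -, b3, b5⟩ := bits_vals
  have hc := card_Vx (m := m)
  have hP : Fintype.card (Pl m) = 2 * m + 1 := by simp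
  have h1 : ∑ u : Vx m, ∑ w : Vx m, (1 + bits ((game m).prob u w)) ≤
      Fintype.card (Vx m) * (Fintype.card (Vx m) * 10) := by
    calc _ ≤ ∑ _u : Vx m, ∑ _w : Vx m, 10 :=
          sum_le_sum fun u _ => sum_le_sum fun w _ => by have := bits_prob u w; omega
      _ = _ := by simp
  have h2 : ∑ u : Vx m, ∑ i : Pl m, bits ((game m).rew u i) ≤
      Fintype.card (Vx m) * ((2 * m + 1) * 9) := by
    calc _ ≤ ∑ _u : Vx m, ∑ _i : Pl m, 9 :=
          sum_le_sum fun u _ => sum_le_sum fun i _ => bits_rew u i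
      _ = _ := by simp
  have h3 : ∑ _i : Pl m, (bits (3 / 8) + bits (5 / 8)) ≤ (2 * m + 1) * 18 := by
    calc _ ≤ ∑ _i : Pl m, 18 := sum_le_sum fun i _ => by omega
      _ = _ := by simp
  unfold Game.size
  rw [hP]
  beta_reduce
  set c := Fintype.card (Vx m)
  set k := m + 1 with hk
  have hk1 : 1 ≤ k := by omega
  have p1 : k ≤ k ^ 6 := by
    calc k = k ^ 1 := (pow_one k).symm
      _ ≤ k ^ 6 := Nat.pow_le_pow_right hk1 (by norm_num)
  have p3 : k ≤ k ^ 3 := by
    calc k = k ^ 1 := (pow_one k).symm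
      _ ≤ k ^ 3 := Nat.pow_le_pow_right hk1 (by norm_num)
  have e6 : k ^ 6 = k ^ 3 * k ^ 3 := by ring
  have q1 : c * (2 * m + 1 + 3) ≤ 40 * k ^ 3 * (4 * k ^ 3) :=
    Nat.mul_le_mul hc (by omega)
  have q2 : c * (c * 10) ≤ 40 * k ^ 3 * (40 * k ^ 3 * 10) :=
    Nat.mul_le_mul hc (by omega)
  have q3 : c * ((2 * m + 1) * 9) ≤ 40 * k ^ 3 * (18 * k ^ 3) :=
    Nat.mul_le_mul hc (by omega)
  have r1 : 40 * k ^ 3 * (4 * k ^ 3) = 160 * k ^ 6 := by ring
  have r2 : 40 * k ^ 3 * (40 * k ^ 3 * 10) = 16000 * k ^ 6 := by ring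
  have r3 : 40 * k ^ 3 * (18 * k ^ 3) = 720 * k ^ 6 := by ring
  omega

theorem tiny {σ : Vx m → Vx m → ℝ} (hm : 1 ≤ m) (hσ : (game m).Stat σ)
    (hne : (game m).StatNE (1 / 8) σ) (hy : ∀ i, (game m).E (fun _ => σ) i ≤ 5 / 8) :
    ∃ u i w, (game m).kind u = Kind.player i ∧ 0 < σ u w ∧
      σ u w < (1 / 2) ^ (2 ^ ((m + 1) / 2)) := by
  have hW : ∀ X : Fin (2 * m), (game m).W (dv σ X) (some X) (.rt none 0) ≤ 3 / 4 := by
    intro X
    have h := hne (some X) tau (fun u hu => tau_dist u (by
      have : knd u = _ := hu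
      rw [this]; simp))
    have h2 := hy (some X)
    have e : (game m).E ((game m).dev σ (some X) fun _ => tau) (some X) =
        (game m).W (dv σ X) (some X) (.rt none 0) := rfl
    rw [e] at h
    linarith
  obtain ⟨p, q⟩ := dl_bound hσ hW (m + 1) (by omega)
  have hn : m + 1 < m + 2 := by omega
  have hk : (game m).kind (.coin ⟨m + 1, hn⟩) = .player none := by
    have : ¬ m + 1 < 2 := by omega
    simp [game, knd, this]
  have e : dl σ (m + 1) = σ (.coin ⟨m + 1, hn⟩) (op (.coin ⟨m + 1, hn⟩)) := by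
    simp only [dl, cn, hn, dif_pos]
    rw [tr_player _ _ _ _ _ hk]
  rw [e] at p q
  exact ⟨_, _, _, hk, p, by linarith⟩

end Pool.Agent.H37.Sne
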