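import Mathlib

/-! Turn-based stochastic games with terminal rewards, stationary profiles, equilibria. -/

namespace Pool.Agent.H37.Sne

open Finset

/-- The three kinds of vertices: owned by a player, stochastic, terminal. -/
inductive Kind (P : Type) where
  | player (i : P) : Kind P
  | chance : Kind P
  | terminal : Kind P
  deriving DecidableEq

/-- A turn-based stochastic game on the finite vertex set `V` with the finite set `P` of players.
`prob u` is read only at stochastic vertices `u`, and `rew t` only at terminal vertices `t`. -/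
structure Game (V P : Type) [Fintype V] where
  kind : V → Kind P
  edge : V → V → Prop
  prob : V → V → ℚ
  rew : V → P → ℚ
  init : V
  prob_nonneg : ∀ u w, 0 ≤ prob u w
  prob_sum : ∀ u, kind u = Kind.chance → ∑ w, prob u w = 1
  prob_edge : ∀ u w, kind u = Kind.chance → prob u w ≠ 0 → edge u w
  edge_exists : ∀ u i, kind u = Kind.player i → ∃ w, edge u w
  rew_mem : ∀ t i, 0 ≤ rew t i ∧ rew t i ≤ 1

variable {V P : Type} [Fintype V] [Fintype P] [DecidableEq P]

/-- `d` is a probability distribution on the out-neighbours of `u`. -/
def Game.IsDist (G : Game V P) (u : V) (d : V → ℝ) : Prop :=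
  (∀ w, 0 ≤ d w) ∧ ∑ w, d w = 1 ∧ ∀ w, d w ≠ 0 → G.edge u w

/-- Expected reward of player `i` from the plays that reach a terminal vertex within `n` further
moves, when the play is at `u` after the history `h` (latest vertex first) and the owner of a
player vertex `u` moves to `w` with probability `s h u w`. -/
noncomputable def Game.pay (G : Game V P) (s : List V → V → V → ℝ) (i : P) :
    ℕ → List V → V → ℝ
  | 0, _, u => match G.kind u with
    | Kind.terminal => G.rew u i
    | _ => 0
  | n + 1, h, u => match G.kind u with
    | Kind.terminal => G.rew u i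
    | Kind.chance => ∑ w, (G.prob u w : ℝ) * G.pay s i n (u :: h) w
    | Kind.player _ => ∑ w, s h u w * G.pay s i n (u :: h) w

/-- Expected payoff of player `i` from the initial vertex (plays that never reach a terminal
vertex pay `0`). -/
noncomputable def Game.E (G : Game V P) (s : List V → V → V → ℝ) (i : P) : ℝ :=
  ⨆ n, G.pay s i n [] G.init

/-- `σ` is a stationary profile: a distribution on the out-neighbours of each player vertex. -/
def Game.Stat (G : Game V P) (σ : V → V → ℝ) : Prop :=
  ∀ u i, G.kind u = Kind.player i → G.IsDist u (σ u)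

/-- The profile in which player `i` plays `τ` and the others keep to `σ`. -/
def Game.dev (G : Game V P) (σ : V → V → ℝ) (i : P) (τ : List V → V → V → ℝ) :
    List V → V → V → ℝ :=
  fun h u => if G.kind u = Kind.player i then τ h u else σ u

/-- `σ` is an `ε`-Nash equilibrium against all (history-dependent, randomized) deviations. -/
def Game.NE (G : Game V P) (ε : ℝ) (σ : V → V → ℝ) : Prop :=
  ∀ (i : P) (τ : List V → V → V → ℝ),
    (∀ h u, G.kind u = Kind.player i → G.IsDist u (τ h u)) →
      G.E (G.dev σ i τ) i ≤ G.E (fun _ => σ) i + ε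

/-- `σ` is an `ε`-Nash equilibrium against stationary deviations only (a weaker demand). -/
def Game.StatNE (G : Game V P) (ε : ℝ) (σ : V → V → ℝ) : Prop :=
  ∀ (i : P) (τ : V → V → ℝ), (∀ u, G.kind u = Kind.player i → G.IsDist u (τ u)) →
    G.E (G.dev σ i (fun _ => τ)) i ≤ G.E (fun _ => σ) i + ε

/-- The payoff constraints `x ≤ E(σ) ≤ y`. -/
def Game.Sat (G : Game V P) (x y : P → ℚ) (σ : V → V → ℝ) : Prop :=
  ∀ i, (x i : ℝ) ≤ G.E (fun _ => σ) i ∧ G.E (fun _ => σ) i ≤ y i

/-- Fixed-point size `L`: every probability used by a player is a multiple of `2^(-L)`. -/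
def Game.Fixed (G : Game V P) (L : ℕ) (σ : V → V → ℝ) : Prop :=
  ∀ u i w, G.kind u = Kind.player i → ∃ z : ℤ, σ u w = z / 2 ^ L

/-- Binary length of a rational: sign, numerator and denominator. -/
def bits (q : ℚ) : ℕ := 1 + q.num.natAbs.size + q.den.size

/-- Input size: kinds and owners of the vertices (in unary) and the initial vertex, the adjacency
matrix with all probabilities, all rewards, the two constraint vectors and `ε`. -/
def Game.size (G : Game V P) (x y : P → ℚ) (ε : ℚ) : ℕ :=
  Fintype.card V * (Fintype.card P + 3) + ∑ u, ∑ w, (1 + bits (G.prob u w)) +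
    ∑ t, ∑ i, bits (G.rew t i) + ∑ i, (bits (x i) + bits (y i)) + bits ε

end Pool.Agent.H37.Sne
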