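import Pool.Agent.H37.Sol1

/-! A family of semimeasures playing against a lower semicomputable semimeasure. -/

set_option autoImplicit false

namespace Pool.Agent.H37.Sol

open Filter Topology Rnd Defc

abbrev St := ℕ × ℕ × ℕ

def K (n : ℕ) : ℕ := 2 * n + 3 + 1
def sp (n : ℕ) : List Bool := true :: List.replicate (2 * n + 3) false
noncomputable def w (n : ℕ) : ℝ := 2 * (1 - 2⁻¹ ^ K n)
noncomputable def H (n : ℕ) (u l : ℕ) : ℝ := 2⁻¹ ^ (2 * n) * (w n ^ u * 2⁻¹ ^ l)
noncomputable def G (n : ℕ) (s : St) : ℝ :=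
  2 ^ (2 * n) + 1 - s.1 * 2⁻¹ ^ 3 - (1 + 2⁻¹ ^ (K n + 1)) ^ s.2.2 * 2⁻¹ ^ s.2.1

def step (n e : ℕ) (s : St) (σ : List Bool) : Option St :=
  if σ = sp n then some (s.1, s.2.1 + 1, s.2.2) else
    if e = 1 then (if σ.head? = some false then some (s.1 + 1, s.2.1, s.2.2) else none) else
      if e = 2 then some (s.1, s.2.1, s.2.2 + 1) else none

variable (q : List Bool × ℕ → ℝ)

noncomputable def evf (n : ℕ) (τ : List Bool) (s : St) : ℕ → ℕ
  | 0 => 0
  | t + 1 => if evf n τ s t = 0 then
      (if H n s.1 (τ.length + 2) < q (τ ++ [true], t) then 1 else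
        if G n (s.1, s.2.1 + 1, s.2.2) * H n s.1 (τ.length + K n) < q (τ ++ sp n, t) then 2 else 0)
      else evf n τ s t

noncomputable def st (n t : ℕ) (x : List Bool) : ℕ → Option St
  | 0 => some (0, 0, 0)
  | k + 1 => (st n t x k).bind fun s =>
      step n (evf q n (x.take (K n * k)) s t) s ((x.drop (K n * k)).take (K n))

noncomputable def mu (n t : ℕ) (x : List Bool) : ℝ :=
  (st q n t x (x.length / K n)).elim 0 fun s => w n ^ s.1 * 2⁻¹ ^ x.length

noncomputable def nu (n t : ℕ) (x : List Bool) : ℝ :=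
  ((W ((K n - x.length % K n) % K n)).map fun σ => mu q n t (x ++ σ)).sum

variable {q}

section cq
variable {α : Type} [Primcodable α]

theorem cq_w {n : α → ℕ} (hn : CI ∅ n) : CQ fun a => w (n a) :=
  CQ.two.mul (CQ.one.sub (CQ.half.pow (by unfold K; fun_prop)))

theorem cq_H {n u l : α → ℕ} (hn : CI ∅ n) (hu : CI ∅ u) (hl : CI ∅ l) :
    CQ fun a => H (n a) (u a) (l a) :=
  (CQ.half.pow (by fun_prop)).mul (((cq_w hn).pow hu).mul (CQ.half.pow hl))

theorem cq_G {n : α → ℕ} {s : α → St} (hn : CI ∅ n) (hs : CI ∅ s) : CQ fun a => G (n a) (s a) :=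
  (((CQ.two.pow (by fun_prop)).add CQ.one).sub ((CQ.nat (by fun_prop)).mul
    (CQ.half.pow (CI.const 3)))).sub
    (((CQ.one.add (CQ.half.pow (by unfold K; fun_prop))).pow (by fun_prop)).mul
      (CQ.half.pow (by fun_prop)))

theorem ci_evf (hq : CQ q) : CI ∅ fun p : (ℕ × List Bool × St) × ℕ =>
    evf q p.1.1 p.1.2.1 p.1.2.2 p.2 :=
  CI.of_rec (F := fun (a : ℕ × List Bool × St) t => evf q a.1 a.2.1 a.2.2 t) (g := fun _ => 0)
    (h := fun a t e => if e = 0 then
      (if H a.1 a.2.2.1 (a.2.1.length + 2) < q (a.2.1 ++ [true], t) then 1 else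
        if G a.1 (a.2.2.1, a.2.2.2.1 + 1, a.2.2.2.2) * H a.1 a.2.2.1 (a.2.1.length + K a.1) <
          q (a.2.1 ++ sp a.1, t) then 2 else 0) else e) (by fun_prop)
    (CI.ite (by fun_prop) (CI.ite ((cq_H (by fun_prop) (by fun_prop) (by fun_prop)).lt
      (hq.comp (by fun_prop))) (by fun_prop) (CI.ite (((cq_G (by fun_prop) (by fun_prop)).mul
        (cq_H (by fun_prop) (by fun_prop) (by unfold K; fun_prop))).lt
        (hq.comp (by unfold sp; fun_prop))) (by fun_prop) (by fun_prop))) (by fun_prop))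
    (fun _ => rfl) fun _ _ => rfl

theorem ci_st (hq : CQ q) : CI ∅ fun p : (ℕ × ℕ × List Bool) × ℕ =>
    st q p.1.1 p.1.2.1 p.1.2.2 p.2 := by
  obtain ⟨F, hF, eF⟩ : ∃ F : (ℕ × List Bool × St) × ℕ → ℕ, CI ∅ F ∧
      ∀ n τ s t, evf q n τ s t = F ((n, τ, s), t) := ⟨_, ci_evf hq, fun _ _ _ _ => rfl⟩
  obtain ⟨E, hE, eE⟩ : ∃ E : ℕ × ℕ × St × List Bool → Option St, CI ∅ E ∧
      ∀ n e s σ, step n e s σ = E (n, e, s, σ) :=
    ⟨fun p => step p.1 p.2.1 p.2.2.1 p.2.2.2, by unfold step sp; fun_prop, fun _ _ _ _ => rfl⟩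
  exact CI.of_rec (F := fun (a : ℕ × ℕ × List Bool) k => st q a.1 a.2.1 a.2.2 k)
    (g := fun _ => some (0, 0, 0))
    (h := fun a k o => o.bind fun s => E (a.1, F ((a.1, a.2.2.take (K a.1 * k), s), a.2.1), s,
      (a.2.2.drop (K a.1 * k)).take (K a.1))) (by fun_prop) (by unfold K; fun_prop)
    (fun _ => rfl) fun _ _ => by simp only [st, eF, eE]

theorem cq_nu (hq : CQ q) : CQ fun p : ℕ × ℕ × List Bool => nu q p.1 p.2.1 p.2.2 := by
  have h : CQ fun p : ℕ × ℕ × List Bool => mu q p.1 p.2.1 p.2.2 :=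
    CQ.elim (o := fun p : ℕ × ℕ × List Bool => st q p.1 p.2.1 p.2.2 (p.2.2.length / K p.1))
      (g := fun p => w p.1.1 ^ p.2.1 * 2⁻¹ ^ p.1.2.2.length)
      ((ci_st hq).comp (g := fun p : ℕ × ℕ × List Bool => (p, p.2.2.length / K p.1))
        (by unfold K; fun_prop))
      (((cq_w (by fun_prop)).pow (by fun_prop)).mul (CQ.half.pow (by fun_prop)))
  exact CQ.sum (l := fun p : ℕ × ℕ × List Bool => W ((K p.1 - p.2.2.length % K p.1) % K p.1))
    (g := fun p => mu q p.1.1 p.1.2.1 (p.1.2.2 ++ p.2)) (by unfold K; fun_prop)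
    (h.comp (f := fun p : (ℕ × ℕ × List Bool) × List Bool => (p.1.1, p.1.2.1, p.1.2.2 ++ p.2))
      (by fun_prop))

end cq

variable {n : ℕ}

theorem K_pos : 0 < K n := Nat.succ_pos _
theorem len_sp : (sp n).length = K n := by simp [sp, K]
theorem y_le : (2⁻¹ : ℝ) ^ K n ≤ 2⁻¹ := pow_le_of_le_one (by norm_num) (by norm_num) K_pos.ne'
theorem w_pos : 0 < w n := by have := y_le (n := n); unfold w; linarith
theorem w_le : w n ≤ 2 := by
  have : (0 : ℝ) < 2⁻¹ ^ K n := by positivity
  unfold w; linarith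

theorem st_app {t k : ℕ} {x : List Bool} (z : List Bool) (h : K n * k ≤ x.length) :
    st q n t (x ++ z) k = st q n t x k := by
  induction k with
  | zero => rfl
  | succ k ih =>
    rw [Nat.mul_succ] at h
    simp only [st]
    rw [ih (by omega), List.take_append_of_le_length (by omega),
      List.drop_append_of_le_length (by omega), List.take_append_of_le_length (by simp; omega)]

theorem st_succ {t k : ℕ} {τ σ : List Bool} (h : τ.length = K n * k) (h' : σ.length = K n) :
    st q n t (τ ++ σ) (k + 1) = (st q n t τ k).bind fun s => step n (evf q n τ s t) s σ := by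
  simp only [st]
  rw [st_app _ h.ge, ← h, List.take_left, List.drop_left, ← h', List.take_length]

theorem evf_mono {τ : List Bool} {s : St} {t t' : ℕ} (h : evf q n τ s t ≠ 0) (ht : t ≤ t') :
    evf q n τ s t' = evf q n τ s t := by
  induction t', ht using Nat.le_induction with
  | base => rfl
  | succ t' _ ih => rw [evf, ih, if_neg h]

theorem st_mono {t t' k : ℕ} {x : List Bool} {s : St} (h : st q n t x k = some s) (ht : t ≤ t') :
    st q n t' x k = some s := by
  induction k generalizing s with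
  | zero => exact h
  | succ k ih =>
    simp only [st, Option.bind_eq_some_iff] at h ⊢
    obtain ⟨s', h1, h2⟩ := h
    refine ⟨s', ih h1, ?_⟩
    by_cases h0 : evf q n (x.take (K n * k)) s' t = 0
    · rw [h0] at h2
      unfold step at h2 ⊢
      split_ifs at h2 with h3 <;> simp_all
    · rwa [evf_mono h0 ht]

theorem mu_nonneg (t : ℕ) (x : List Bool) : 0 ≤ mu q n t x := by
  have := w_pos (n := n)
  unfold mu; cases st q n t x (x.length / K n) <;> simp only [Option.elim] <;> positivity

theorem nu_mono (t : ℕ) (x : List Bool) : nu q n t x ≤ nu q n (t + 1) x := by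
  refine List.sum_le_sum fun σ _ => ?_
  cases h : st q n t (x ++ σ) ((x ++ σ).length / K n) with
  | none => rw [mu, h]; exact mu_nonneg _ _
  | some s => rw [mu, mu, h, st_mono h t.le_succ]

theorem nu_eq {t k : ℕ} {τ : List Bool} (h : τ.length = K n * k) : nu q n t τ = mu q n t τ := by
  simp [nu, h, W]

theorem mu_eq {t k : ℕ} {τ : List Bool} (h : τ.length = K n * k) :
    mu q n t τ = (st q n t τ k).elim 0 fun s => w n ^ s.1 * 2⁻¹ ^ τ.length := by
  rw [mu, h, Nat.mul_div_cancel_left _ K_pos]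

theorem sum_one {r : ℕ} {a : List Bool} (ha : a.length = r) (c d : ℝ) :
    ((W r).map fun σ => if σ = a then c else d).sum = c + (2 ^ r - 1) * d := by
  have : ∀ σ, (if σ = a then c else d) = (if σ = a then c - d else 0) + d := fun σ => by
    split_ifs <;> simp
  simp only [this, List.sum_map_add, List.map_const', List.sum_replicate, length_W]
  rw [← List.sum_toFinset _ (nodup_W r), Finset.sum_ite_eq']
  simp [mem_W, ha]; ring

theorem step_sum (e : ℕ) (s : St) :
    ((W (K n)).map fun σ => (step n e s σ).elim 0 fun s => w n ^ s.1).sum ≤ 2 ^ K n * w n ^ s.1 := by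
  have := w_pos (n := n)
  by_cases he : e = 1
  · have e1 : ∀ σ, ((step n e s (true :: σ)).elim 0 fun s => w n ^ s.1) =
        if σ = List.replicate (2 * n + 3) false then w n ^ s.1 else 0 := fun σ => by
      by_cases h : σ = List.replicate (2 * n + 3) false <;> simp [step, sp, he, h]
    have e0 : ∀ σ, ((step n e s (false :: σ)).elim 0 fun s => w n ^ s.1) = w n ^ (s.1 + 1) :=
      fun σ => by simp [step, sp, he]
    rw [K, sum_W_cons]
    simp only [e0, e1, List.map_const', List.sum_replicate, length_W]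
    rw [sum_one (by simp), pow_succ (w n), w, K]
    refine le_of_eq ?_
    simp only [nsmul_eq_mul, inv_pow, pow_succ (2 : ℝ) (2 * n + 3)]
    push_cast; field_simp; ring
  · refine le_trans (List.sum_le_sum (g := fun _ => w n ^ s.1) fun σ _ => ?_) (by simp [length_W])
    unfold step
    split_ifs <;> simp only [Option.elim] <;> first | rfl | positivity

theorem semi_nu (t : ℕ) : Semi (nu q n t) := by
  refine ⟨fun x => List.sum_nonneg (by simpa using fun _ _ => mu_nonneg _ _), by
    rw [nu_eq (k := 0) rfl, mu_eq (k := 0) rfl]; simp [st], fun x => ?_⟩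
  have hK := K_pos (n := n)
  have h1 : ∀ b, nu q n t (x ++ [b]) = ((W (K n - 1 - x.length % K n)).map fun σ =>
      mu q n t (x ++ b :: σ)).sum := fun b => by
    have : (K n - (x.length + 1) % K n) % K n = K n - 1 - x.length % K n := by
      have := Nat.mod_lt x.length hK
      rw [← Nat.mod_add_mod]
      rcases (Nat.succ_le_of_lt this).eq_or_lt with h | h
      · rw [show x.length % K n + 1 = K n from h]; simp; omega
      · rw [Nat.mod_eq_of_lt h, Nat.mod_eq_of_lt (by omega)]; omega
    simp [nu, this]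
  rw [h1, h1, ← sum_W_cons _ fun σ => mu q n t (x ++ σ)]
  have := Nat.mod_lt x.length hK
  by_cases h : x.length % K n = 0
  · obtain ⟨k, hk⟩ := Nat.dvd_of_mod_eq_zero h
    rw [h, show K n - 1 - 0 + 1 = K n by omega, nu_eq hk, mu_eq hk]
    have e : ∀ σ ∈ W (K n), mu q n t (x ++ σ) = (((st q n t x k).bind fun s =>
        step n (evf q n x s t) s σ).elim 0 fun s => w n ^ s.1) * 2⁻¹ ^ (x.length + K n) :=
      fun σ hσ => by
        rw [mu_eq (k := k + 1) (by simp [hk, mem_W.1 hσ, Nat.mul_succ]), st_succ hk (mem_W.1 hσ),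
          List.length_append, mem_W.1 hσ]
        cases (st q n t x k).bind fun s => step n (evf q n x s t) s σ <;> simp
    rw [List.map_congr_left e, List.sum_map_mul_right]
    cases st q n t x k with
    | none => simp
    | some s =>
      refine le_trans (mul_le_mul_of_nonneg_right (step_sum _ s) (by positivity)) (le_of_eq ?_)
      simp only [Option.elim, pow_add, inv_pow]; field_simp
  · rw [nu, Nat.mod_eq_of_lt (a := K n - _) (by omega),
      show K n - 1 - x.length % K n + 1 = K n - x.length % K n by omega]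

end Pool.Agent.H37.Sol
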