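import Pool.Agent.H37.Sol2

/-! No universal semimeasure predicts all random sequences. -/

set_option autoImplicit false

namespace Pool.Agent.H37.Sol

open Filter Topology Rnd Defc

variable {q : List Bool × ℕ → ℝ} {n : ℕ} {M : List Bool → ℝ}

theorem H_pos (u l : ℕ) : 0 < H n u l := by have := w_pos (n := n); unfold H; positivity
theorem H_add (u l m : ℕ) : H n u (l + m) = H n u l * 2⁻¹ ^ m := by unfold H; ring
theorem H_succ (u l : ℕ) : H n (u + 1) l = H n u l * w n := by unfold H; ring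

theorem G_le (s : St) : G n s ≤ 2 ^ (2 * n) + 1 := by
  have : (0 : ℝ) ≤ s.1 * 2⁻¹ ^ 3 := by positivity
  have : (0 : ℝ) ≤ (1 + 2⁻¹ ^ (K n + 1)) ^ s.2.2 * 2⁻¹ ^ s.2.1 := by positivity
  unfold G; linarith

theorem evf_spec (h1 : ∀ p, q p ≤ M p.1) (τ : List Bool) (s : St) (t : ℕ) :
    evf q n τ s t = 0 ∨ (evf q n τ s t = 1 ∧ H n s.1 (τ.length + 2) < M (τ ++ [true])) ∨
      (evf q n τ s t = 2 ∧
        G n (s.1, s.2.1 + 1, s.2.2) * H n s.1 (τ.length + K n) < M (τ ++ sp n)) := by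
  induction t with
  | zero => exact Or.inl rfl
  | succ t ih =>
    rw [evf]
    split_ifs with a b c
    · exact Or.inr (Or.inl ⟨rfl, b.trans_le (h1 _)⟩)
    · exact Or.inr (Or.inr ⟨rfl, c.trans_le (h1 _)⟩)
    · exact Or.inl rfl
    · exact ih

/-- an active node at which `M` has not reached its target -/
def Act (q : List Bool × ℕ → ℝ) (n : ℕ) (M : List Bool → ℝ) (k : ℕ) (p : List Bool × St) : Prop :=
  p.1.length = K n * k ∧ p.2.1 + p.2.2.1 + p.2.2.2 = k ∧ (∃ t, st q n t p.1 k = some p.2) ∧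
    M p.1 ≤ G n p.2 * H n p.2.1 p.1.length

theorem Act.low (h3 : ∀ t x, 2⁻¹ ^ (2 * n) * nu q n t x ≤ M x) {k : ℕ} {p : List Bool × St}
    (h : Act q n M k p) : H n p.2.1 p.1.length ≤ M p.1 := by
  obtain ⟨e, -, ⟨t, ht⟩, -⟩ := h
  have := h3 t p.1
  rwa [nu_eq e, mu_eq e, ht] at this

theorem Act.next (hS : Semi M) (h1 : ∀ p, q p ≤ M p.1)
    (h2 : ∀ x c, c < M x → ∃ t, c < q (x, t))
    (h3 : ∀ t x, 2⁻¹ ^ (2 * n) * nu q n t x ≤ M x) {k : ℕ} {p : List Bool × St}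
    (h : Act q n M k p) : ∃ p', Act q n M (k + 1) p' ∧ p.1 <+: p'.1 ∧ (p'.2.2.1 = p.2.2.1 ∨
      (p.1 ++ [true] <+: p'.1 ∧ M (p.1 ++ [true]) ≤ M p.1 / 4)) := by
  have lo := h.low h3
  obtain ⟨τ, u, i, j⟩ := p
  obtain ⟨e, e', ⟨t, ht⟩, hf⟩ := h
  simp only at e e' ht hf lo ⊢
  have hl : ∀ σ : List Bool, σ.length = K n → (τ ++ σ).length = K n * (k + 1) := fun σ h => by
    simp [e, h, Nat.mul_succ]
  have hp := H_pos (n := n) u τ.length
  have y0 : (0 : ℝ) < 2⁻¹ ^ K n := by positivity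
  by_cases h0 : ∀ t, evf q n τ (u, i, j) t = 0
  · have a : M (τ ++ [true]) ≤ H n u (τ.length + 2) := le_of_not_gt fun h => by
      obtain ⟨t, h⟩ := h2 _ _ h
      have := h0 (t + 1)
      rw [evf, if_pos (h0 t), if_pos h] at this
      cases this
    have b : M (τ ++ sp n) ≤ G n (u, i + 1, j) * H n u (τ.length + K n) := le_of_not_gt fun h => by
      obtain ⟨t, h⟩ := h2 _ _ h
      have := h0 (t + 1)
      rw [evf, if_pos (h0 t), if_pos h] at this
      split_ifs at this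
    refine ⟨(τ ++ sp n, u, i + 1, j), ⟨hl _ len_sp, by simp only; omega, ⟨t, ?_⟩, ?_⟩,
      List.prefix_append _ _, Or.inr ⟨⟨List.replicate (2 * n + 3) false, by simp [sp]⟩, ?_⟩⟩
    · rw [st_succ e len_sp, ht]; simp [step]
    · simpa [len_sp] using b
    · rw [H_add] at a; norm_num at a; linarith
  push Not at h0
  obtain ⟨t', h0⟩ := h0
  have ht' := st_mono ht (le_max_left t t')
  have he := evf_mono h0 (le_max_right t t')
  by_contra hn
  push Not at hn
  have key : ∀ σ s', σ.length = K n → step n (evf q n τ (u, i, j) t') (u, i, j) σ = some s' →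
      s'.1 + s'.2.1 + s'.2.2 = k + 1 → s'.2.1 = i →
      G n s' * H n s'.1 (τ.length + K n) ≤ M (τ ++ σ) := fun σ s' a b c d =>
    le_of_not_gt fun h => (hn (τ ++ σ, s') ⟨hl σ a, c, ⟨max t t', by
      rw [st_succ e a, ht', Option.bind_some, he, b]⟩, by simpa [a] using h.le⟩
      (List.prefix_append _ _)).1 d
  rcases evf_spec h1 τ (u, i, j) t' with a | ⟨a, b⟩ | ⟨a, b⟩
  · exact h0 a
  · have c : ((W (2 * n + 3)).map fun _ => G n (u + 1, i, j) * H n (u + 1) (τ.length + K n)).sum ≤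
        M (τ ++ [false]) := le_trans (List.sum_le_sum fun σ hσ => by
      have := key (false :: σ) (u + 1, i, j) (by simp [mem_W.1 hσ, K]) (by simp [a, step, sp])
        (by simp only; omega) rfl
      simpa using this) (hS.sum_le (τ ++ [false]) (2 * n + 3))
    have d := hS.2.2 τ
    have g := G_le (n := n) (u, i, j)
    have g1 : G n (u + 1, i, j) = G n (u, i, j) - 8⁻¹ := by
      simp only [G]; push_cast; ring
    have y1 : (2 : ℝ) ^ (2 * n + 3) * 2⁻¹ ^ K n = 2⁻¹ := by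
      rw [K, pow_succ (2⁻¹ : ℝ), ← mul_assoc, ← mul_pow]; norm_num
    have y2 : (2⁻¹ : ℝ) ^ K n * G n (u, i, j) ≤ 8⁻¹ := by
      have : (1 : ℝ) ≤ 2 ^ (2 * n) := one_le_pow₀ (by norm_num)
      have : 2⁻¹ ^ K n * G n (u, i, j) ≤ 2⁻¹ ^ K n * (2 * 2 ^ (2 * n)) := by gcongr; linarith
      rw [pow_add] at y1; linarith
    simp only [List.map_const', List.sum_replicate, length_W, nsmul_eq_mul] at c
    rw [H_add] at b
    rw [H_add, H_succ, g1, w] at c
    push_cast at c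
    have : (2 : ℝ) ^ (2 * n + 3) * ((G n (u, i, j) - 8⁻¹) * (H n u τ.length * (2 * (1 - 2⁻¹ ^ K n)) *
      2⁻¹ ^ K n)) = (G n (u, i, j) - 8⁻¹) * (H n u τ.length * (2 * (1 - 2⁻¹ ^ K n))) *
        (2 ^ (2 * n + 3) * 2⁻¹ ^ K n) := by ring
    rw [this, y1] at c
    simp only at b
    nlinarith [mul_le_mul_of_nonneg_left y2 hp.le, mul_pos hp y0]
  · have c : ((W (K n)).map fun σ => if σ = sp n then M (τ ++ sp n) else
        G n (u, i, j + 1) * H n u (τ.length + K n)).sum ≤ M τ :=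
      le_trans (List.sum_le_sum fun σ hσ => by
        split_ifs with h
        · rw [h]
        · exact key σ (u, i, j + 1) (mem_W.1 hσ) (by simp [a, step, h]) (by simp only; omega) rfl)
        (hS.sum_le τ (K n))
    rw [sum_one len_sp] at c
    simp only [H_add] at b c
    have y1 : (2 : ℝ) ^ K n * 2⁻¹ ^ K n = 1 := by rw [← mul_pow]; norm_num
    obtain ⟨γ, γ0, g1, g2⟩ : ∃ γ : ℝ, 0 < γ ∧ G n (u, i + 1, j) = G n (u, i, j) + γ / 2 ∧
        G n (u, i, j + 1) = G n (u, i, j) - γ * 2⁻¹ ^ K n / 2 :=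
      ⟨(1 + 2⁻¹ ^ (K n + 1)) ^ j * 2⁻¹ ^ i, by positivity, by simp only [G]; ring,
        by simp only [G]; ring⟩
    rw [g1] at b
    have : (2 ^ K n - 1) * (G n (u, i, j + 1) * (H n u τ.length * 2⁻¹ ^ K n)) =
        (2 ^ K n * 2⁻¹ ^ K n - 2⁻¹ ^ K n) * (G n (u, i, j + 1) * H n u τ.length) := by ring
    rw [this, y1, g2] at c
    nlinarith [mul_pos (mul_pos γ0 hp) (mul_pos y0 y0)]

theorem main (hM : Univ M) : ∃ ω, MLRandom ω ∧
    ¬ Tendsto (fun m => M (cut ω (m + 1)) / M (cut ω m)) atTop (𝓝 (1 / 2)) := by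
  obtain ⟨f, hf, hm⟩ := hM.2.1
  obtain ⟨q, hq, h1, h2⟩ : ∃ q : List Bool × ℕ → ℝ, CQ q ∧ (∀ p, q p ≤ M p.1) ∧
      ∀ x c, c < M x → ∃ t, c < q (x, t) :=
    ⟨fun p => val (f p), ⟨f, CI.of_comp hf, fun _ => rfl⟩,
      fun p => (hm p.1).1.ge_of_tendsto (hm p.1).2 p.2,
      fun x c h => ((hm x).2.eventually (lt_mem_nhds h)).exists⟩
  obtain ⟨d, d0, hd⟩ := dom hM (cq_nu hq) (fun i t => semi_nu t) fun i t x => nu_mono t x
  obtain ⟨n, hn⟩ := exists_pow_lt_of_lt_one d0 (by norm_num : (2⁻¹ : ℝ) < 1)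
  have h3 : ∀ t x, 2⁻¹ ^ (2 * n) * nu q n t x ≤ M x := fun t x => by
    refine le_trans ?_ (hd n t x)
    rw [two_mul, pow_add, mul_assoc]
    exact mul_le_mul_of_nonneg_right hn.le (mul_nonneg (by positivity) ((semi_nu t).1 x))
  choose! F f1 f2 f3 using fun k p (h : Act q n M k p) => h.next hM.1 h1 h2 h3
  let p : ℕ → List Bool × St := fun k => k.rec ([], 0, 0, 0) F
  have a1 : ∀ k, Act q n M k (p k) := fun k => by
    induction k with
    | zero =>
      refine ⟨rfl, rfl, ⟨0, rfl⟩, hM.1.2.1.trans (le_of_eq ?_)⟩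
      simp [p, G, H]
    | succ k ih => exact f1 k _ ih
  have a2 : ∀ k l, k ≤ l → (p k).1 <+: (p l).1 := fun k l h => by
    induction l, h using Nat.le_induction with
    | base => exact List.prefix_rfl
    | succ l _ ih => exact ih.trans (f2 l _ (a1 l))
  have hK := K_pos (n := n)
  obtain ⟨ω, hω⟩ : ∃ ω : ℕ → Bool, ∀ k, pre ω (K n * k) = (p k).1 := by
    refine ⟨fun i => (p (i + 1)).1.getD i false, fun k => ?_⟩
    rw [← pre_getD (p k).1 false, (a1 k).1]
    refine pre_congr fun i hi => ?_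
    have : ∀ l m, l ≤ m → i < K n * l → (p m).1.getD i false = (p l).1.getD i false :=
      fun l m h h' => by
        obtain ⟨z, hz⟩ := a2 l m h
        rw [← hz, List.getD_append _ _ _ _ (by rw [(a1 l).1]; exact h')]
    rw [← this (i + 1) _ (le_max_left _ k) (by nlinarith), this k _ (le_max_right _ _) hi]
  have a3 : ∀ k, 1 ≤ G n (p k).2 := fun k =>
    (le_mul_iff_one_le_left (H_pos _ _)).1 (((a1 k).low h3).trans (a1 k).2.2.2)
  have a4 : ∀ k, (p k).2.1 ≤ 8 * 2 ^ (2 * n) := fun k => by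
    have := a3 k
    have h0 : (0 : ℝ) ≤ (1 + 2⁻¹ ^ (K n + 1)) ^ (p k).2.2.2 * 2⁻¹ ^ (p k).2.2.1 := by positivity
    have : ((p k).2.1 : ℝ) ≤ 8 * 2 ^ (2 * n) := by unfold G at this; linarith
    exact_mod_cast this
  refine ⟨ω, ml_of_bdd hM (C := 2 ^ K n * ((2 ^ (2 * n) + 1) * 2 ^ (8 * 2 ^ (2 * n)))) fun m => ?_,
    fun T => ?_⟩
  · obtain ⟨z, hz⟩ := pre_pf ω (Nat.mul_div_le m (K n))
    have b1 := hM.1.anti (pre ω (K n * (m / K n))) z
    rw [hz, hω] at b1
    have b2 := b1.trans (a1 _).2.2.2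
    rw [(a1 _).1] at b2
    have b3 : (2 : ℝ) ^ m ≤ 2 ^ K n * 2 ^ (K n * (m / K n)) := by
      rw [← pow_add]
      have := Nat.div_add_mod m (K n)
      have := Nat.mod_lt m hK
      exact pow_le_pow_right₀ (by norm_num) (by omega)
    have b4 : 2 ^ (K n * (m / K n)) * H n (p (m / K n)).2.1 (K n * (m / K n)) ≤
        2 ^ (8 * 2 ^ (2 * n)) := by
      have : (2 : ℝ) ^ (K n * (m / K n)) * H n (p (m / K n)).2.1 (K n * (m / K n)) =
          2⁻¹ ^ (2 * n) * w n ^ (p (m / K n)).2.1 := by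
        simp only [H, inv_pow]; field_simp
      rw [this]
      have := w_pos (n := n)
      refine (mul_le_of_le_one_left (by positivity) (pow_le_one₀ (by norm_num) (by norm_num))).trans
        ((pow_le_pow_left₀ this.le w_le _).trans (pow_le_pow_right₀ (by norm_num) (a4 _)))
    have := hM.1.1 (pre ω m)
    have := H_pos (n := n) (p (m / K n)).2.1 (K n * (m / K n))
    calc _ ≤ 2 ^ K n * 2 ^ (K n * (m / K n)) * ((2 ^ (2 * n) + 1) *
          H n (p (m / K n)).2.1 (K n * (m / K n))) :=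
          mul_le_mul b3 (b2.trans (mul_le_mul_of_nonneg_right (G_le _) this.le)) ‹_›
            (by positivity)
      _ = 2 ^ K n * ((2 ^ (2 * n) + 1) * (2 ^ (K n * (m / K n)) *
          H n (p (m / K n)).2.1 (K n * (m / K n)))) := by ring
      _ ≤ _ := by gcongr
  · obtain ⟨k0, hk⟩ := eventually_atTop.1 (T.eventually (lt_mem_nhds (by norm_num : (1 / 4 : ℝ) < _)))
    have c1 : ∀ k, k0 ≤ k → (p k).2.2.1 = (p k0).2.2.1 := fun k h => by
      induction k, h using Nat.le_induction with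
      | base => rfl
      | succ k h ih =>
        rcases f3 k _ (a1 k) with c | ⟨c, c'⟩
        · exact c.trans ih
        · have := hk (K n * k) (by nlinarith)
          have c2 : (p k).1 ++ [true] <+: pre ω (K n * (k + 1)) := by rw [hω]; exact c
          have c3 := pf_pre c2
          rw [List.length_append, (a1 k).1] at c3
          rw [cut_eq, cut_eq, ← show _ = pre ω (K n * k + 1) from c3, hω,
            lt_div_iff₀ ((H_pos _ _).trans_le ((a1 k).low h3))] at this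
          linarith
    obtain ⟨j, hj⟩ := pow_unbounded_of_one_lt (2 ^ (2 * n) * 2 ^ (p k0).2.2.1 : ℝ)
      (lt_add_of_pos_right 1 (by positivity) : (1 : ℝ) < 1 + 2⁻¹ ^ (K n + 1))
    have c2 := (a1 (k0 + (8 * 2 ^ (2 * n) + (p k0).2.2.1 + j))).2.1
    have c3 := a3 (k0 + (8 * 2 ^ (2 * n) + (p k0).2.2.1 + j))
    have c4 := a4 (k0 + (8 * 2 ^ (2 * n) + (p k0).2.2.1 + j))
    unfold G at c3
    rw [c1 _ (Nat.le_add_right _ _)] at c2 c3
    have c5 := hj.trans_le (pow_le_pow_right₀ (le_add_of_nonneg_right (by positivity))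
      (by omega : j ≤ (p (k0 + (8 * 2 ^ (2 * n) + (p k0).2.2.1 + j))).2.2.2))
    rw [← lt_div_iff₀ (by positivity), div_eq_mul_inv, ← inv_pow] at c5
    have : (0 : ℝ) ≤ (p (k0 + (8 * 2 ^ (2 * n) + (p k0).2.2.1 + j))).2.1 * 2⁻¹ ^ 3 := by positivity
    linarith

end Pool.Agent.H37.Sol
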