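import Pool.Agent.H37.DefcDefs

/-! Semimeasures on binary strings. -/

set_option autoImplicit false

namespace Pool.Agent.H37.Sol

open Filter Topology

/-- the rational number `(a - b) / (d + 1)` coded by the triple `(a, b, d)` -/
noncomputable def val (r : ℕ × ℕ × ℕ) : ℝ := ((r.1 : ℝ) - r.2.1) / (r.2.2 + 1)

/-- semimeasure -/
def Semi (M : List Bool → ℝ) : Prop :=
  (∀ x, 0 ≤ M x) ∧ M [] ≤ 1 ∧ ∀ x, M (x ++ [false]) + M (x ++ [true]) ≤ M x

/-- limit of a computable nondecreasing family of rationals -/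
def Lsc (M : List Bool → ℝ) : Prop :=
  ∃ f : List Bool × ℕ → ℕ × ℕ × ℕ, Computable f ∧ ∀ x,
    Monotone (fun t => val (f (x, t))) ∧ Tendsto (fun t => val (f (x, t))) atTop (𝓝 (M x))

/-- universal lower semicomputable semimeasure -/
def Univ (M : List Bool → ℝ) : Prop :=
  Semi M ∧ Lsc M ∧ ∀ ν, Semi ν → Lsc ν → ∃ c : ℝ, 0 < c ∧ ∀ x, c * ν x ≤ M x

end Pool.Agent.H37.Sol
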