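import Pool.Agent.H37.SpcDefs

namespace Pool.Agent.H37.Spc

open Filter Asymptotics

theorem congr_append {S T : Type} (Φ : List S → T)
    (hΦ : ∀ x v v', Φ v = Φ v' → Φ (x :: v) = Φ (x :: v')) (u : List S) {v v' : List S}
    (h : Φ v = Φ v') : Φ (u ++ v) = Φ (u ++ v') := by
  induction u with
  | nil => simpa using h
  | cons x u ih => exact hΦ x _ _ ih

theorem exists_short {S T : Type} [Finite T] (Φ : List S → T)
    (hΦ : ∀ x v v', Φ v = Φ v' → Φ (x :: v) = Φ (x :: v')) (P : List S → Prop)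
    (hP : ∀ v v', Φ v = Φ v' → P v → P v') :
    ∀ (n : ℕ) (w : List S), w.length = n → P w → ∃ w, P w ∧ w.length < Nat.card T := by
  intro n
  induction n using Nat.strong_induction_on with
  | _ n ih =>
    intro w hn hw
    by_cases hlt : w.length < Nat.card T
    · exact ⟨w, hw, hlt⟩
    · haveI := Fintype.ofFinite T
      have hc : Fintype.card T < Fintype.card (Fin (w.length + 1)) := by
        rw [Fintype.card_fin, ← Nat.card_eq_fintype_card]; omega
      obtain ⟨i, j, hij, he⟩ := Fintype.exists_ne_map_eq_of_card_lt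
        (fun i : Fin (w.length + 1) => Φ (w.drop i)) hc
      have key : ∀ i j : Fin (w.length + 1), i < j → Φ (w.drop i) = Φ (w.drop j) →
          ∃ w, P w ∧ w.length < Nat.card T := by
        intro i j hlt he
        have h1 := congr_append Φ hΦ (w.take i) he
        rw [List.take_append_drop] at h1
        have hi := i.2
        have hj := j.2
        have hlt' : (i : ℕ) < j := hlt
        refine ih (w.take i ++ w.drop j).length ?_ _ rfl (hP _ _ h1 hw)
        simp only [List.length_append, List.length_take, List.length_drop]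
        omega
      rcases lt_or_gt_of_ne hij with h | h
      · exact key i j h he
      · exact key j i h he.symm

theorem regular_of {S T : Type} [Finite T] (Φ : List S → T)
    (hΦ : ∀ x v v', Φ v = Φ v' → Φ (x :: v) = Φ (x :: v')) (L : Language S)
    (hP : ∀ v v', Φ v = Φ v' → v ∈ L → v' ∈ L) : L.IsRegular := by
  apply Language.IsRegular.of_finite_range_leftQuotient
  refine (Set.finite_range (fun A : Set T => ({v | Φ v ∈ A} : Language S))).subset ?_
  rintro _ ⟨u, rfl⟩
  refine ⟨{t | ∃ v, Φ v = t ∧ u ++ v ∈ L}, ?_⟩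
  apply Set.ext
  intro v
  show (∃ v', Φ v' = Φ v ∧ u ++ v' ∈ L) ↔ u ++ v ∈ L
  constructor
  · rintro ⟨v', h1, h2⟩
    exact hP _ _ (congr_append Φ hΦ u h1) h2
  · intro h
    exact ⟨v, rfl, h⟩

theorem card_lists (G : Type) [Finite G] (h : ℕ) :
    Finite {l : List G // l.length ≤ h} ∧
      Nat.card {l : List G // l.length ≤ h} ≤ (Nat.card G + 1) ^ h := by
  have hinj : Function.Injective
      (fun (l : {l : List G // l.length ≤ h}) (i : Fin h) => l.1[(i : ℕ)]?) := by
    intro l l' he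
    apply Subtype.ext
    apply List.ext_getElem?
    intro i
    by_cases hi : i < h
    · exact congrFun he ⟨i, hi⟩
    · have h1 := l.2
      have h2 := l'.2
      rw [List.getElem?_eq_none (by omega), List.getElem?_eq_none (by omega)]
  refine ⟨Finite.of_injective _ hinj, ?_⟩
  have h9 := Nat.card_le_card_of_injective _ hinj
  rw [Nat.card_fun, Nat.card_eq_fintype_card (α := Fin h), Fintype.card_fin] at h9
  haveI := Fintype.ofFinite G
  rw [Nat.card_eq_fintype_card (α := Option G), Fintype.card_option,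
    ← Nat.card_eq_fintype_card] at h9
  exact h9

theorem card_set' (T : Type) [Finite T] : Nat.card (Set T) = 2 ^ Nat.card T := by
  classical
  haveI := Fintype.ofFinite T
  rw [Nat.card_eq_fintype_card, Fintype.card_set, Nat.card_eq_fintype_card]

namespace PDA

variable {M : PDA}

instance : Finite M.Q := M.finQ
instance : Finite M.S := M.finS
instance : Finite M.G := M.finG

/-- acceptance with all stores of height at most `h` -/
inductive AccH (M : PDA) (h : ℕ) : M.Cfg → Prop
  | fin {c : M.Cfg} : c.2.2.length ≤ h → c.2.1 = [] → c.1 ∈ M.final → AccH M h c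
  | ex {c d : M.Cfg} : c.2.2.length ≤ h → c.1 ∉ M.univ → M.Step c d → AccH M h d → AccH M h c
  | all {c : M.Cfg} : c.2.2.length ≤ h → c.1 ∈ M.univ → (∃ d, M.Step c d) →
      (∀ d, M.Step c d → AccH M h d) → AccH M h c

theorem AccH.acc {h : ℕ} {c : M.Cfg} (H : M.AccH h c) : M.Acc c := by
  induction H with
  | fin _ h1 h2 => exact Acc.fin h1 h2
  | ex _ h1 h2 _ ih => exact Acc.ex h1 h2 ih
  | all _ h1 h2 _ ih => exact Acc.all h1 h2 ih

theorem AccH.le {h : ℕ} {c : M.Cfg} (H : M.AccH h c) : c.2.2.length ≤ h := by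
  cases H <;> assumption

theorem accH_of_acc {h : ℕ} {c : M.Cfg} (H : M.Acc c)
    (hb : ∀ d, Relation.ReflTransGen M.Step c d → d.2.2.length ≤ h) : M.AccH h c := by
  induction H with
  | fin h1 h2 => exact AccH.fin (hb _ .refl) h1 h2
  | ex h1 h2 _ ih => exact AccH.ex (hb _ .refl) h1 h2 (ih fun e he => hb e (.head h2 he))
  | all h1 h2 _ ih =>
    exact AccH.all (hb _ .refl) h1 h2 fun d hd => ih d hd fun e he => hb e (.head hd he)

theorem accH_cons {h : ℕ} {v v' : List M.S} (x : M.S)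
    (H : ∀ q α, M.AccH h (q, v, α) → M.AccH h (q, v', α)) {c : M.Cfg} (hc : M.AccH h c) :
    c.2.1 = x :: v → M.AccH h (c.1, x :: v', c.2.2) := by
  induction hc with
  | fin _ h1 _ => intro e; rw [h1] at e; cases e
  | @ex c d h0 h1 h2 h3 ih =>
    intro e
    obtain ⟨β, m, hδ, hi, hs⟩ := h2
    rw [e] at hδ hi
    cases m with
    | false =>
      exact AccH.ex (d := (d.1, x :: v', d.2.2)) h0 h1 ⟨β, false, hδ, rfl, hs⟩ (ih (by simpa using hi))
    | true =>
      refine AccH.ex (d := (d.1, v', d.2.2)) h0 h1 ⟨β, true, hδ, rfl, hs⟩ (H _ _ ?_)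
      have : d = (d.1, v, d.2.2) := by
        have : d.2.1 = v := by simpa using hi
        rw [← this]
      rw [← this]; exact h3
  | @all c h0 h1 h2 h3 ih =>
    intro e
    refine AccH.all h0 h1 ?_ ?_
    · obtain ⟨d, β, m, hδ, hi, hs⟩ := h2
      rw [e] at hδ
      exact ⟨(d.1, if m = true then v' else x :: v', d.2.2), β, m, hδ, rfl, hs⟩
    · rintro ⟨q', i', s'⟩ ⟨β, m, hδ, hi, hs⟩
      simp only at hδ hi hs
      cases m with
      | false =>
        have hst : M.Step c (q', x :: v, s') := ⟨β, false, by rw [e]; exact hδ, by simp [e], hs⟩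
        have := ih _ hst rfl
        simp only [Bool.false_eq_true, if_false] at hi
        rw [hi]; exact this
      | true =>
        have hst : M.Step c (q', v, s') := ⟨β, true, by rw [e]; exact hδ, by simp [e], hs⟩
        have := H _ _ (h3 _ hst)
        simp only [if_true, List.tail_cons] at hi
        rw [hi]; exact this

def Phi (M : PDA) (h : ℕ) (v : List M.S) : Set (M.Q × {l : List M.G // l.length ≤ h}) :=
  {p | M.AccH h (p.1, v, p.2.1)}

theorem phi_imp {h : ℕ} {v v' : List M.S} (e : M.Phi h v = M.Phi h v') (q : M.Q) (α : List M.G)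
    (H : M.AccH h (q, v, α)) : M.AccH h (q, v', α) := by
  have : (q, (⟨α, H.le⟩ : {l : List M.G // l.length ≤ h})) ∈ M.Phi h v := H
  rw [e] at this
  exact this

theorem phi_cons (h : ℕ) (x : M.S) (v v' : List M.S) (e : M.Phi h v = M.Phi h v') :
    M.Phi h (x :: v) = M.Phi h (x :: v') := by
  ext p
  exact ⟨fun H => accH_cons x (phi_imp e) H rfl, fun H => accH_cons x (phi_imp e.symm) H rfl⟩

def LH (M : PDA) (h : ℕ) : Language M.S := {w | M.AccH h (M.start, w, [])}

theorem LH_regular (M : PDA) (h : ℕ) : (M.LH h).IsRegular := by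
  haveI := (card_lists M.G h).1
  exact regular_of (M.Phi h) (phi_cons h) _ fun v v' e H => phi_imp e _ _ H

theorem regular_of_bounded {h : ℕ} (H : ∀ w ∈ M.lang, w ∈ M.LH h) : M.lang.IsRegular := by
  have : M.lang = M.LH h := by
    ext w
    exact ⟨H w, fun hw => AccH.acc hw⟩
  rw [this]; exact M.LH_regular h

theorem exists_jump {s : ℕ → ℕ} (hs : M.Middle s) (hr : ¬ M.lang.IsRegular) (h0 : ℕ) :
    ∃ h, h0 ≤ h ∧ ∃ w, w ∈ M.LH (h + 1) ∧ w ∉ M.LH h := by
  by_contra hn
  push Not at hn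
  apply hr
  apply regular_of_bounded (h := h0)
  intro w hw
  have h1 : w ∈ M.LH (h0 + s w.length) :=
    accH_of_acc hw fun d hd => (hs w hw d hd).trans (by omega)
  generalize s w.length = k at h1
  induction k with
  | zero => exact h1
  | succ k ih => exact ih (hn (h0 + k) (by omega) w h1)

theorem short_jump {h : ℕ} {w : List M.S} (h1 : w ∈ M.LH (h + 1)) (h2 : w ∉ M.LH h) :
    ∃ w, (w ∈ M.LH (h + 1) ∧ w ∉ M.LH h) ∧
      Nat.log 2 (Nat.log 2 w.length) ≤ (Nat.card M.Q + 1 + (Nat.card M.G + 1)) * (h + 1) := by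
  haveI := (card_lists M.G h).1
  haveI := (card_lists M.G (h + 1)).1
  obtain ⟨w', hw', hl⟩ := exists_short (fun v => (M.Phi (h + 1) v, M.Phi h v))
    (fun x v v' e => by
      rw [Prod.mk.injEq] at e ⊢
      exact ⟨phi_cons _ x _ _ e.1, phi_cons _ x _ _ e.2⟩)
    (fun w => w ∈ M.LH (h + 1) ∧ w ∉ M.LH h)
    (fun v v' e H => by
      rw [Prod.mk.injEq] at e
      exact ⟨phi_imp e.1 _ _ H.1, fun H' => H.2 (phi_imp e.2.symm _ _ H')⟩) _ w rfl ⟨h1, h2⟩
  refine ⟨w', hw', ?_⟩
  rw [Nat.card_prod, card_set', card_set', Nat.card_prod, Nat.card_prod] at hl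
  set a := Nat.card M.Q
  set b := Nat.card M.G + 1
  have c1 := (card_lists M.G h).2
  have c2 := (card_lists M.G (h + 1)).2
  have c3 : b ^ h ≤ b ^ (h + 1) := Nat.pow_le_pow_right (by omega) (by omega)
  have c4 : a * Nat.card {l : List M.G // l.length ≤ h + 1} +
      a * Nat.card {l : List M.G // l.length ≤ h} ≤ 2 ^ ((a + 1 + b) * (h + 1)) := by
    have e1 : 2 * a ≤ 2 ^ (a + 1) := by
      have := Nat.lt_two_pow_self (n := a)
      rw [pow_succ]; omega
    have e2 : b ^ (h + 1) ≤ 2 ^ (b * (h + 1)) := by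
      rw [pow_mul]; exact Nat.pow_le_pow_left (Nat.lt_two_pow_self).le _
    calc _ ≤ a * b ^ (h + 1) + a * b ^ (h + 1) :=
          Nat.add_le_add (Nat.mul_le_mul_left _ c2) (Nat.mul_le_mul_left _ (c1.trans c3))
      _ = 2 * a * b ^ (h + 1) := by ring
      _ ≤ 2 ^ (a + 1) * 2 ^ (b * (h + 1)) := Nat.mul_le_mul e1 e2
      _ = 2 ^ (a + 1 + b * (h + 1)) := by rw [← pow_add]
      _ ≤ _ := Nat.pow_le_pow_right (by norm_num) (by nlinarith)
  rw [← pow_add] at hl
  have c5 : w'.length ≤ 2 ^ 2 ^ ((a + 1 + b) * (h + 1)) :=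
    hl.le.trans (Nat.pow_le_pow_right (by norm_num) c4)
  calc _ ≤ Nat.log 2 (Nat.log 2 (2 ^ 2 ^ ((a + 1 + b) * (h + 1)))) :=
        Nat.log_mono_right (Nat.log_mono_right c5)
    _ = _ := by rw [Nat.log_pow (by norm_num), Nat.log_pow (by norm_num)]

theorem not_littleO_loglog {s : ℕ → ℕ} (hs : M.Middle s) (hr : ¬ M.lang.IsRegular) :
    ¬ (fun n => (s n : ℝ)) =o[atTop] (fun n => ((Nat.log 2 (Nat.log 2 n) : ℕ) : ℝ)) := by
  intro ho
  set C := Nat.card M.Q + 1 + (Nat.card M.G + 1) with hC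
  have hCp : (0 : ℝ) < C := by
    have : 0 < C := by omega
    exact_mod_cast this
  obtain ⟨n0, hn0⟩ := eventually_atTop.1 (ho.bound (c := 1 / (2 * C)) (by positivity))
  obtain ⟨h, hh, w, h1, h2⟩ := exists_jump hs hr ((Finset.range n0).sup s)
  obtain ⟨w, ⟨h1, h2⟩, hl⟩ := short_jump h1 h2
  have hw : w ∈ M.lang := AccH.acc h1
  have h3 : h + 1 ≤ s w.length := by
    by_contra hlt
    exact h2 (accH_of_acc hw fun d hd => (hs w hw d hd).trans (by omega))
  have h4 : n0 ≤ w.length := by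
    by_contra hlt
    have : s w.length ≤ (Finset.range n0).sup s :=
      Finset.le_sup (f := s) (Finset.mem_range.2 (by omega))
    omega
  have h5 := hn0 _ h4
  simp only [Real.norm_natCast] at h5
  have h6 : ((Nat.log 2 (Nat.log 2 w.length) : ℕ) : ℝ) ≤ C * (h + 1) := by exact_mod_cast hl
  have h7 : (h + 1 : ℝ) ≤ s w.length := by exact_mod_cast h3
  have h8 : 1 / (2 * (C : ℝ)) * (C * (h + 1)) = (h + 1) / 2 := by field_simp
  have h9 : 1 / (2 * (C : ℝ)) * ((Nat.log 2 (Nat.log 2 w.length) : ℕ) : ℝ) ≤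
      1 / (2 * (C : ℝ)) * (C * (h + 1)) := mul_le_mul_of_nonneg_left h6 (by positivity)
  have : (0 : ℝ) ≤ h := Nat.cast_nonneg h
  linarith

end PDA

end Pool.Agent.H37.Spc
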