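import Pool.Agent.H37.Spc2

namespace Pool.Agent.H37.Spc

open Filter Asymptotics Relation

namespace PDA

variable {M : PDA}

theorem pump_pair {B l1 l2 : ℕ} {w : List M.S} {d z : M.Cfg} {p1 p2 : M.Cfg × M.Cfg}
    (hl : l1 < l2) (L1 : M.Lev B (M.start, w, []) d z l1 p1)
    (L2 : M.Lev B (M.start, w, []) d z l2 p2)
    (hA : ReflTransGen (M.HS l1) p1.1 p2.1) (hC : ReflTransGen (M.HS l1) p2.2 p1.2)
    (q1 : p1.1.1 = p2.1.1) (q2 : p1.1.2.1.head? = p2.1.2.1.head?)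
    (q3 : p1.1.2.2.take (p1.1.2.2.length - l1) = p2.1.2.2.take (p2.1.2.2.length - l2))
    (q4 : p1.2.1 = p2.2.1) (q5 : p1.2.2.1.head? = p2.2.2.1.head?)
    (q6 : p1.2.2.2.length = l1 ↔ p2.2.2.2.length = l2) :
    ∃ p, ∀ k, ∃ w' d' z', w'.length = w.length + k * p ∧ M.Reach w' d' ∧
      ReflTransGen M.Step d' z' ∧ k ≤ d'.2.2.length ∧ z'.1 = z.1 ∧ z'.2.1 = z.2.1 := by
  obtain ⟨⟨q, i1, σ1⟩, ⟨r, j1, π1⟩⟩ := p1
  obtain ⟨⟨q', i2, σ2⟩, ⟨r', j2, π2⟩⟩ := p2
  obtain ⟨a1, a2, -, -, a5, a6, a7⟩ := L1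
  obtain ⟨-, b2, -, b4, b5, -, b7⟩ := L2
  simp only at *
  subst q1 q4
  set τ := σ1.take (σ1.length - l1) with hτ
  obtain ⟨ρ1, hσ1, hρ1⟩ : ∃ ρ1, σ1 = τ ++ ρ1 ∧ ρ1.length = l1 :=
    ⟨σ1.drop (σ1.length - l1), (List.take_append_drop _ _).symm, by simp; omega⟩
  obtain ⟨ρ2, hσ2, hρ2⟩ : ∃ ρ2, σ2 = τ ++ ρ2 ∧ ρ2.length = l2 :=
    ⟨σ2.drop (σ2.length - l2), by rw [q3]; exact (List.take_append_drop _ _).symm,
      by simp; omega⟩
  clear_value τ
  obtain ⟨u0, hu0, f0⟩ := in_frame a1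
  obtain ⟨u, hu, fA⟩ := seg_of_hrun hA
  obtain ⟨α', hα', sA⟩ := fA τ ρ1 hσ1 hρ1
  obtain ⟨y, hy, fB⟩ := seg_of_hrun (b4.trans b5)
  obtain ⟨α2, hα2, sB⟩ := fB τ ρ2 hσ2 hρ2
  simp only at *
  obtain ⟨β, hβ1, hβ2⟩ : ∃ β, α' = τ ++ β ∧ ρ2 = β ++ ρ1 := by
    have h1 : α' ++ ρ1 = τ ++ ρ2 := hα'.symm.trans hσ2
    rcases List.append_eq_append_iff.1 h1 with ⟨β, h2, h3⟩ | ⟨β, h2, h3⟩
    · have := congrArg List.length h3
      simp at this; omega
    · exact ⟨β, h2, h3⟩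
  subst hβ1
  have hβl : 1 ≤ β.length := by
    have := congrArg List.length hβ2
    simp at this; omega
  have hua : ∀ v : List M.S, v.head? = i2.head? → (u ++ v).head? = i2.head? := fun v hv => by
    rw [head_app u hv, ← hu, q2]
  have up : ∀ k V, V.head? = j2.head? →
      M.Reach (u0 ++ (rp k u ++ (y ++ V))) (q, y ++ V, τ ++ (rp k β ++ ρ1)) ∧
      ReflTransGen M.Step (q, y ++ V, τ ++ (rp k β ++ ρ1)) (r, V, α2 ++ (rp k β ++ ρ1)) := by
    intro k V hV
    have h1 : (y ++ V).head? = i2.head? := by rw [head_app y hV, ← hy]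
    have h2 : (rp k u ++ (y ++ V)).head? = i1.head? := by
      rw [rp_head k u _ (by rw [hua _ h1, h1]), h1, q2]
    refine ⟨(f0 _ h2).trans ?_, sB V _ hV⟩
    rw [hσ1]
    exact seg_up sA hua k _ _ h1
  have hlen : ∀ k, k ≤ (τ ++ (rp (k + 1) β ++ ρ1)).length := fun k => by
    simp only [List.length_append, rp_length]; nlinarith
  by_cases hf : π1.length = l1
  · have hf2 := q6.1 hf
    have hα2e : α2 = [] := by
      have := congrArg List.length hα2
      simp only [List.length_append] at this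
      exact List.eq_nil_of_length_eq_zero (by omega)
    subst hα2e
    obtain ⟨x, hx, fC⟩ := seg_of_hrun hC
    obtain ⟨α3, hα3, sC⟩ := fC β ρ1 (by simpa [hβ2] using hα2) hρ1
    simp only at *
    have hα3e : α3 = [] := by
      have := congrArg List.length hα3
      simp only [List.length_append] at this
      exact List.eq_nil_of_length_eq_zero (by omega)
    subst hα3e
    have hxa : ∀ v : List M.S, v.head? = j1.head? → (x ++ v).head? = j1.head? := fun v hv => by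
      rw [head_app x hv, ← hx, q5]
    refine ⟨u.length + x.length, fun k => ?_⟩
    have hV : (rp (k + 1) x ++ j1).head? = j2.head? := by
      rw [rp_head _ x _ (hxa _ rfl), q5]
    obtain ⟨r1, r2⟩ := up (k + 1) _ hV
    refine ⟨_, _, z, ?_, r1, r2.trans ?_, hlen k, rfl, rfl⟩
    · rw [hu0, hu, hy, hx]
      simp only [List.length_append, rp_length]; ring
    · refine (seg_down sC hxa (k + 1) j1 ρ1 rfl).trans ?_
      rw [hα3] at a6; exact a6
  · have hf2 : ¬ π2.length = l2 := fun h => hf (q6.2 h)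
    have hz : (r, j2, π2) = z := b7.resolve_left hf2
    refine ⟨u.length, fun k => ?_⟩
    obtain ⟨r1, r2⟩ := up (k + 1) j2 rfl
    refine ⟨_, _, _, ?_, r1, r2, hlen k, by rw [← hz], by rw [← hz]⟩
    rw [hu0, hu, hy]
    simp only [List.length_append, rp_length]; ring

theorem pump (M : PDA) : ∃ N, ∀ w d z, M.Reach w d → ReflTransGen M.Step d z →
    N < d.2.2.length → ∃ p, ∀ k, ∃ w' d' z', w'.length = w.length + k * p ∧ M.Reach w' d' ∧
      ReflTransGen M.Step d' z' ∧ k ≤ d'.2.2.length ∧ z'.1 = z.1 ∧ z'.2.1 = z.2.1 := by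
  classical
  obtain ⟨B, hB1, hB⟩ := M.exists_B
  haveI := (card_lists M.G B).1
  let T := M.Q × Option M.S × {l : List M.G // l.length ≤ B} × M.Q × Option M.S × Prop
  haveI : Fintype T := Fintype.ofFinite T
  refine ⟨Fintype.card T * B, fun w d z h1 h2 hN => ?_⟩
  obtain ⟨p, hp, hq⟩ := levels hB1 hB (c := (M.start, w, [])) rfl h1 h2 _ hN
  have hj : ∀ j : Fin (Fintype.card T + 1), (j : ℕ) ≤ Fintype.card T := fun j =>
    Nat.lt_succ_iff.1 j.2
  let sig : Fin (Fintype.card T + 1) → T := fun j =>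
    ((p j).1.1, (p j).1.2.1.head?,
      ⟨(p j).1.2.2.take ((p j).1.2.2.length - j * B), by
        have := (hp j (hj j)).2.2.1
        simp only [List.length_take]; omega⟩,
      (p j).2.1, (p j).2.2.1.head?, (p j).2.2.2.length = j * B)
  obtain ⟨i, j, hij, he⟩ := Fintype.exists_ne_map_eq_of_card_lt sig (by simp)
  have key : ∀ i j : Fin (Fintype.card T + 1), i < j → sig i = sig j →
      ∃ p, ∀ k, ∃ w' d' z', w'.length = w.length + k * p ∧ M.Reach w' d' ∧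
      ReflTransGen M.Step d' z' ∧ k ≤ d'.2.2.length ∧ z'.1 = z.1 ∧ z'.2.1 = z.2.1 := by
    intro i j hlt he
    have hlt' : (i : ℕ) < j := hlt
    simp only [sig, T, Prod.mk.injEq, Subtype.mk.injEq, eq_iff_iff] at he
    obtain ⟨e1, e2, e3, e4, e5, e6⟩ := he
    exact pump_pair (Nat.mul_lt_mul_of_pos_right hlt' hB1) (hp i (hj i)) (hp j (hj j))
      (hq i j hlt'.le (hj j)).1 (hq i j hlt'.le (hj j)).2 e1 e2 e3 e4 e5 e6
  rcases lt_or_gt_of_ne hij with h | h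
  · exact key i j h he
  · exact key j i h he.symm

theorem not_o_of_pump {s : ℕ → ℕ} {n p : ℕ} (H : ∀ k, k ≤ s (n + k * p)) :
    ¬ (fun n => (s n : ℝ)) =o[atTop] (fun n => (n : ℝ)) := by
  intro ho
  rcases Nat.eq_zero_or_pos p with rfl | hp
  · have := H (s n + 1)
    simp at this
  · obtain ⟨n0, hn0⟩ := eventually_atTop.1 (ho.bound (c := 1 / (2 * (p + 1 : ℝ))) (by positivity))
    have h1 := hn0 (n + (n0 + n + 1) * p) (by nlinarith)
    have h2 : ((n0 + n + 1 : ℕ) : ℝ) ≤ s (n + (n0 + n + 1) * p) := by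
      exact_mod_cast H (n0 + n + 1)
    simp only [Real.norm_natCast] at h1
    have h3 := h2.trans h1
    rw [one_div, ← div_eq_inv_mul, le_div_iff₀ (by positivity)] at h3
    push_cast at h3
    have : (0 : ℝ) ≤ n0 := Nat.cast_nonneg _
    have : (0 : ℝ) ≤ n := Nat.cast_nonneg _
    have : (0 : ℝ) ≤ p := Nat.cast_nonneg _
    nlinarith

theorem not_littleO_strong {s : ℕ → ℕ} (hs : M.Strong s) (hr : ¬ M.lang.IsRegular) :
    ¬ (fun n => (s n : ℝ)) =o[atTop] (fun n => (n : ℝ)) := by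
  obtain ⟨N, hN⟩ := M.pump
  by_cases hb : ∀ w d, M.Reach w d → d.2.2.length ≤ N
  · exact absurd (regular_of_bounded (h := N) fun w hw => accH_of_acc hw (hb w)) hr
  · push Not at hb
    obtain ⟨w, d, h1, h2⟩ := hb
    obtain ⟨p, hp⟩ := hN w d d h1 .refl h2
    refine not_o_of_pump (n := w.length) (p := p) fun k => ?_
    obtain ⟨w', d', -, e1, e2, -, e3, -⟩ := hp k
    rw [← e1]; exact e3.trans (hs _ _ e2)

theorem acc_of_path (hu : M.univ = ∅) {c z : M.Cfg} (H : ReflTransGen M.Step c z)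
    (h1 : z.2.1 = []) (h2 : z.1 ∈ M.final) : M.Acc c := by
  induction H using ReflTransGen.head_induction_on with
  | refl => exact Acc.fin h1 h2
  | head hs _ ih => exact Acc.ex (by rw [hu]; exact id) hs ih

theorem acc_cases (hu : M.univ = ∅) (h : ℕ) {c : M.Cfg} (H : M.Acc c) :
    (∃ z, ReflTransGen M.Step c z ∧ z.2.1 = [] ∧ z.1 ∈ M.final) ∧ (M.AccH h c ∨
      ∃ d z, ReflTransGen M.Step c d ∧ ReflTransGen M.Step d z ∧ h < d.2.2.length ∧
        z.2.1 = [] ∧ z.1 ∈ M.final) := by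
  induction H with
  | @fin c h1 h2 =>
    refine ⟨⟨c, .refl, h1, h2⟩, ?_⟩
    by_cases hc : c.2.2.length ≤ h
    · exact Or.inl (AccH.fin hc h1 h2)
    · exact Or.inr ⟨c, c, .refl, .refl, by omega, h1, h2⟩
  | @ex c d h1 h2 _ ih =>
    obtain ⟨⟨z, z1, z2, z3⟩, ih⟩ := ih
    refine ⟨⟨z, .head h2 z1, z2, z3⟩, ?_⟩
    by_cases hc : c.2.2.length ≤ h
    · rcases ih with ih | ⟨d', z', e1, e2⟩
      · exact Or.inl (AccH.ex hc h1 h2 ih)
      · exact Or.inr ⟨d', z', .head h2 e1, e2⟩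
    · exact Or.inr ⟨c, z, .refl, .head h2 z1, by omega, z2, z3⟩
  | all h1 => rw [hu] at h1; exact h1.elim

theorem not_littleO_middle (hu : M.univ = ∅) {s : ℕ → ℕ} (hs : M.Middle s)
    (hr : ¬ M.lang.IsRegular) :
    ¬ (fun n => (s n : ℝ)) =o[atTop] (fun n => (n : ℝ)) := by
  obtain ⟨N, hN⟩ := M.pump
  by_cases hb : ∀ w ∈ M.lang, w ∈ M.LH N
  · exact absurd (regular_of_bounded hb) hr
  · push Not at hb
    obtain ⟨w, h1, h2⟩ := hb
    obtain ⟨d, z, e1, e2, e3, e4, e5⟩ := (acc_cases hu N h1).2.resolve_left h2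
    obtain ⟨p, hp⟩ := hN w d z e1 e2 e3
    refine not_o_of_pump (n := w.length) (p := p) fun k => ?_
    obtain ⟨w', d', z', f1, f2, f3, f4, f5, f6⟩ := hp k
    rw [← f1]
    refine f4.trans (hs _ ?_ _ f2)
    exact acc_of_path hu (ReflTransGen.trans f2 f3) (f6.trans e4) (f5 ▸ e5)

end PDA

end Pool.Agent.H37.Spc
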