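import Pool.Agent.H37.Spc4

namespace Pool.Agent.H37.Spc

open Filter Asymptotics Relation

inductive St
  | F | A | M | SK | LEN | OB (z : Bool) | S (r : Fin 3) | E (r : Fin 3) | U (r : Fin 3)
  | K (r : Fin 3) | NE | V (b : Bool) | INC (f : Bool) | ACC | REJ
  deriving DecidableEq, Fintype

open St

def nx : Fin 3 → St
  | 0 => ACC
  | 1 => K 0
  | 2 => K 1

def δ2 : St → Option (Option Bool) → Option Bool → List (St × List Bool × Bool)
  | F, some (some true), g => [(F, true :: g.toList, true)]
  | F, some none, g => [(A, g.toList, true)]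
  | A, _, g => [(S 2, g.toList, false), (M, g.toList, false)]
  | M, some _, g => [(LEN, g.toList, false), (OB true, g.toList, false), (SK, g.toList, false)]
  | SK, some (some _), g => [(SK, g.toList, true)]
  | SK, some none, g => [(M, g.toList, true)]
  | LEN, some (some _), some _ => [(LEN, [], true)]
  | LEN, some none, none => [(ACC, [], true)]
  | OB z, some (some b), g => [(OB (z && !b), b :: g.toList, true)]
  | OB z, some none, g => [(if z = true then ACC else S 2, g.toList, true)]
  | S r, _, g => [(NE, g.toList, false), (E r, g.toList, false)]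
  | E r, _, g => [(K r, g.toList, false), (U r, g.toList, false)]
  | U r, _, g => [(INC true, g.toList, false), (nx r, g.toList, false)]
  | K r, some (some _), g => [(K r, g.toList, true)]
  | K r, some none, g => [(S r, g.toList, true)]
  | NE, some (some b), g => [(NE, g.toList, true), (V (!b), g.toList, true)]
  | V b, some (some _), _ => [(V b, [], true)]
  | V b, some none, g => if g = some b then [(ACC, g.toList, true)] else []
  | INC f, some (some b), g => [(V (xor f b), g.toList, true), (INC (f && b), g.toList, true)]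
  | INC _, some none, g => [(ACC, g.toList, true)]
  | INC _, none, g => [(REJ, g.toList, false)]
  | ACC, some _, g => [(ACC, g.toList, true)]
  | _, _, _ => []

def isU : St → Bool
  | A => true
  | M => true
  | S _ => true
  | U _ => true
  | INC _ => true
  | _ => false

def isF : St → Bool
  | M => true
  | ACC => true
  | _ => false

def M2 : PDA where
  Q := St
  S := Option Bool
  G := Bool
  finQ := inferInstance
  finS := inferInstance
  finG := inferInstance
  start := F
  final := {q | isF q = true}
  univ := {q | isU q = true}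
  δ := fun q a g => {t | t ∈ δ2 q a g}
  finδ := fun q a g => (δ2 q a g).finite_toSet

def Ac (q : St) (v : List (Option Bool)) (α : List Bool) : Prop := M2.Acc (q, v, α)

theorem ac_iff (q : St) (v : List (Option Bool)) (α : List Bool) : Ac q v α ↔
    (v = [] ∧ isF q = true) ∨
    (¬ isU q = true ∧ ∃ t ∈ δ2 q v.head? α.head?,
      Ac t.1 (if t.2.2 = true then v.tail else v) (t.2.1 ++ α.tail)) ∨
    (isU q = true ∧ (∃ t, t ∈ δ2 q v.head? α.head?) ∧ ∀ t ∈ δ2 q v.head? α.head?,
      Ac t.1 (if t.2.2 = true then v.tail else v) (t.2.1 ++ α.tail)) :=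
  PDA.acc_iff (M := M2) q v α

theorem ac_ACC (v : List (Option Bool)) : ∀ α, Ac ACC v α := by
  induction v with
  | nil => intro α; rw [ac_iff]; simp [isF]
  | cons x v ih => intro α; rw [ac_iff]; simp [isU, δ2, ih]

def blk (u : List Bool) (r : List (Option Bool)) : List (Option Bool) := u.map some ++ none :: r

@[simp] theorem blk_nil (r) : blk [] r = none :: r := rfl
@[simp] theorem blk_cons (b u r) : blk (b :: u) r = some b :: blk u r := rfl

def enc : List (List Bool) → List (Option Bool)
  | [] => []
  | u :: bs => blk u (enc bs)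

theorem ac_V (b : Bool) (u : List Bool) (r) : ∀ α,
    Ac (V b) (blk u r) α ↔ (α.drop u.length).head? = some b := by
  induction u with
  | nil =>
    intro α; rw [ac_iff]
    by_cases h : α.head? = some b <;> simp [isU, isF, δ2, h, ac_ACC]
  | cons x u ih => intro α; rw [ac_iff]; simp [isU, isF, δ2, ih]

theorem ac_LEN (u : List Bool) (r) : ∀ α, Ac LEN (blk u r) α ↔ u.length = α.length := by
  induction u with
  | nil =>
    intro α; rw [ac_iff]
    cases α <;> simp [isU, isF, δ2, ac_ACC]
  | cons x u ih => intro α; rw [ac_iff]; cases α <;> simp [isU, isF, δ2, ih]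

theorem drop_rev (y : List Bool) (base : List Bool) (n : ℕ) (h : y.length = n) :
    (y.reverse ++ base).drop n = base := by
  subst h
  rw [← List.length_reverse, List.drop_left]

theorem ac_NE (u : List Bool) (r) : ∀ (y base : List Bool), y.length = u.length →
    (Ac NE (blk u r) (y.reverse ++ base) ↔ u ≠ y) := by
  induction u with
  | nil =>
    intro y base h; rw [ac_iff]
    have : y = [] := by simpa using h
    simp [isU, isF, δ2, this]
  | cons x u ih =>
    intro y base h
    cases y with
    | nil => simp at h
    | cons b y =>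
      have h' : y.length = u.length := by simpa using h
      rw [ac_iff, List.reverse_cons, List.append_assoc]
      simp only [isU, isF, δ2, blk_cons, List.head?_cons, List.tail_cons, List.mem_cons,
        List.not_mem_nil, or_false, exists_eq_or_imp, exists_eq_left, if_true, keep, ih y _ h',
        ac_V, drop_rev y _ _ h']
      cases x <;> cases b <;> simp

def incr : Bool → List Bool → List Bool
  | _, [] => []
  | f, b :: u => xor f b :: incr (f && b) u

theorem ac_INC (u : List Bool) (r) : ∀ (f : Bool) (y base : List Bool), y.length = u.length →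
    (Ac (INC f) (blk u r) (y.reverse ++ base) ↔ y = incr f u) := by
  induction u with
  | nil =>
    intro f y base h; rw [ac_iff]
    have : y = [] := by simpa using h
    simp [isU, isF, δ2, this, incr, ac_ACC]
  | cons x u ih =>
    intro f y base h
    cases y with
    | nil => simp at h
    | cons b y =>
      have h' : y.length = u.length := by simpa using h
      rw [ac_iff, List.reverse_cons, List.append_assoc]
      simp only [isU, isF, δ2, blk_cons, List.head?_cons, List.tail_cons, List.mem_cons,
        List.not_mem_nil, or_false, forall_eq_or_imp, forall_eq, if_true, keep, ih _ y _ h',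
        ac_V, drop_rev y _ _ h', incr]
      simp

theorem ac_K (j : Fin 3) (u : List Bool) (r α) : Ac (K j) (blk u r) α ↔ Ac (S j) r α := by
  induction u with
  | nil => rw [ac_iff]; simp [isU, isF, δ2, keep]
  | cons x u ih => rw [ac_iff]; simp [isU, isF, δ2, keep, ih]

theorem ac_SK (u : List Bool) (r α) : Ac SK (blk u r) α ↔ Ac M r α := by
  induction u with
  | nil => rw [ac_iff]; simp [isU, isF, δ2, keep]
  | cons x u ih => rw [ac_iff]; simp [isU, isF, δ2, keep, ih]

theorem ac_OB (u : List Bool) (r) : ∀ z α, Ac (OB z) (blk u r) α ↔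
    (z = true ∧ ∀ b ∈ u, b = false) ∨ Ac (S 2) r (u.reverse ++ α) := by
  induction u with
  | nil => intro z α; rw [ac_iff]; cases z <;> simp [isU, isF, δ2, keep, ac_ACC]
  | cons x u ih =>
    intro z α; rw [ac_iff]
    simp [isU, isF, δ2, keep, ih, and_assoc]

theorem ac_M_cons (x : Option Bool) (v α) : Ac M (x :: v) α ↔
    Ac LEN (x :: v) α ∧ Ac (OB true) (x :: v) α ∧ Ac SK (x :: v) α := by
  rw [ac_iff]; simp [isU, isF, δ2, keep]

theorem parse (α : List Bool) (v : List (Option Bool)) :
    (Ac SK v α → ∃ u bs, v = blk u (enc bs)) ∧ (Ac M v α → ∃ bs, v = enc bs) := by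
  induction v with
  | nil =>
    refine ⟨fun h => ?_, fun _ => ⟨[], rfl⟩⟩
    rw [ac_iff] at h; simp [isU, isF, δ2] at h
  | cons x v ih =>
    have h1 : Ac SK (x :: v) α → ∃ u bs, x :: v = blk u (enc bs) := by
      intro h
      rw [ac_iff] at h
      cases x with
      | none =>
        simp [isU, isF, δ2, keep] at h
        obtain ⟨bs, rfl⟩ := ih.2 h
        exact ⟨[], bs, rfl⟩
      | some b =>
        simp [isU, isF, δ2, keep] at h
        obtain ⟨u, bs, rfl⟩ := ih.1 h
        exact ⟨b :: u, bs, rfl⟩
    refine ⟨h1, fun h => ?_⟩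
    obtain ⟨u, bs, e⟩ := h1 ((ac_M_cons x v α).1 h).2.2
    exact ⟨u :: bs, e⟩

def Srch (y : List Bool) : List (List Bool) → ℕ → Prop
  | _, 0 => True
  | [], _ + 1 => False
  | v :: bs, r + 1 => v ≠ y ∧ (Srch y bs (r + 1) ∨ (y = incr true v ∧ Srch y bs r))

theorem ac_S_step (j : Fin 3) (v α) : Ac (S j) v α ↔
    Ac NE v α ∧ (Ac (K j) v α ∨ (Ac (INC true) v α ∧ Ac (nx j) v α)) := by
  rw [ac_iff]
  simp only [isU, isF, δ2, List.mem_cons, List.not_mem_nil, or_false, forall_eq_or_imp, forall_eq,
    keep]
  rw [ac_iff (E j)]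
  simp only [isU, isF, δ2, List.mem_cons, List.not_mem_nil, or_false, exists_eq_or_imp,
    exists_eq_left, keep]
  rw [ac_iff (U j)]
  simp [isU, isF, δ2, keep]

theorem ac_S (y base : List Bool) (bs : List (List Bool)) (h : ∀ v ∈ bs, v.length = y.length) :
    ∀ j : Fin 3, Ac (S j) (enc bs) (y.reverse ++ base) ↔ Srch y bs (j.1 + 1) := by
  induction bs with
  | nil =>
    intro j
    rw [ac_S_step, ac_iff NE]
    simp [isU, isF, δ2, enc, Srch]
  | cons v bs ih =>
    intro j
    have h1 := (h v (by simp)).symm
    have ih' := ih fun w hw => h w (by simp [hw])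
    rw [ac_S_step, enc, ac_NE _ _ _ _ h1, ac_K, ac_INC _ _ _ _ _ h1, ih', Srch]
    fin_cases j
    · simp [nx, ac_ACC, Srch]
    · simp only [nx, ac_K, ih']; rfl
    · simp only [nx, ac_K, ih']; rfl

def Good (k : ℕ) : List (List Bool) → Prop
  | [] => True
  | v :: bs => v.length = k ∧ ((∀ b ∈ v, b = false) ∨ Srch v bs 3) ∧ Good k bs

theorem Good.len {k : ℕ} {bs : List (List Bool)} (h : Good k bs) : ∀ v ∈ bs, v.length = k := by
  induction bs with
  | nil => simp
  | cons v bs ih =>
    intro w hw
    rcases List.mem_cons.1 hw with rfl | hw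
    · exact h.1
    · exact ih h.2.2 w hw

theorem ac_M (α : List Bool) (bs : List (List Bool)) : Ac M (enc bs) α ↔ Good α.length bs := by
  induction bs with
  | nil => rw [ac_iff]; simp [isF, enc, Good]
  | cons v bs ih =>
    have : ∃ x w, enc (v :: bs) = x :: w := by cases v <;> simp [enc]
    obtain ⟨x, w, e⟩ := this
    rw [e, ac_M_cons, ← e, enc, ac_LEN, ac_OB, ac_SK, ih, Good]
    constructor
    · rintro ⟨h1, h2, h3⟩
      rw [ac_S v α bs fun w hw => (h3.len w hw).trans h1.symm] at h2
      exact ⟨h1, h2.imp (fun h => h.2) id, h3⟩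
    · rintro ⟨h1, h2, h3⟩
      rw [ac_S v α bs fun w hw => (h3.len w hw).trans h1.symm]
      exact ⟨h1, h2.imp (fun h => ⟨rfl, h⟩) id, h3⟩

theorem ac_F (k : ℕ) (r) : ∀ α, Ac F (blk (List.replicate k true) r) α ↔
    Ac (S 2) r (List.replicate k true ++ α) ∧ Ac M r (List.replicate k true ++ α) := by
  induction k with
  | zero =>
    intro α; rw [ac_iff]
    simp only [isU, isF, δ2, List.replicate_zero, blk_nil, List.head?_cons, List.mem_cons,
      List.not_mem_nil, or_false, exists_eq_left, keep]
    rw [ac_iff A]
    simp [isU, isF, δ2, keep]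
  | succ k ih =>
    intro α; rw [ac_iff]
    have e : List.replicate k true ++ true :: α = List.replicate (k + 1) true ++ α := by
      rw [List.replicate_succ', List.append_assoc]; rfl
    rw [← e]
    simp [isU, isF, δ2, keep, ih, List.replicate_succ]

theorem parse_F (w : List (Option Bool)) : ∀ α, Ac F w α →
    ∃ k r, w = blk (List.replicate k true) r := by
  induction w with
  | nil => intro α h; rw [ac_iff] at h; simp [isU, isF, δ2] at h
  | cons x w ih =>
    intro α h
    rw [ac_iff] at h
    rcases x with _ | _ | _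
    · exact ⟨0, w, rfl⟩
    · simp [isU, isF, δ2] at h
    · simp [isU, isF, δ2] at h
      obtain ⟨k, r, rfl⟩ := ih _ h
      exact ⟨k + 1, r, rfl⟩

theorem lang_blk (k : ℕ) (bs : List (List Bool)) :
    blk (List.replicate k true) (enc bs) ∈ M2.lang ↔
      Srch (List.replicate k true) bs 3 ∧ Good k bs := by
  change Ac F _ [] ↔ _
  rw [ac_F, ac_M]
  simp only [List.append_nil, List.length_replicate]
  have e : List.replicate k true = (List.replicate k true).reverse ++ [] := by simp
  constructor
  · rintro ⟨h1, h2⟩
    rw [e, ac_S _ _ bs fun w hw => by simpa using h2.len w hw] at h1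
    exact ⟨h1, h2⟩
  · rintro ⟨h1, h2⟩
    refine ⟨?_, h2⟩
    rw [e, ac_S _ _ bs fun w hw => by simpa using h2.len w hw]
    exact h1

theorem lang_parse {w : List (Option Bool)} (h : w ∈ M2.lang) :
    ∃ k bs, w = blk (List.replicate k true) (enc bs) := by
  obtain ⟨k, r, rfl⟩ := parse_F w [] h
  obtain ⟨bs, rfl⟩ := (parse _ r).2 ((ac_F k r []).1 h).2
  exact ⟨k, bs, rfl⟩

end Pool.Agent.H37.Spc
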