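import Pool.Agent.H37.Spc5

namespace Pool.Agent.H37.Spc

open Filter Asymptotics Relation St

def val : List Bool → ℕ
  | [] => 0
  | b :: u => b.toNat + 2 * val u

theorem incr_false (u : List Bool) : incr false u = u := by
  induction u with
  | nil => rfl
  | cons b u ih => simp [incr, ih]

theorem val_zero {u : List Bool} (h : ∀ b ∈ u, b = false) : val u = 0 := by
  induction u with
  | nil => rfl
  | cons b u ih =>
    have h1 := h b (by simp)
    subst h1
    simp [val, ih fun c hc => h c (by simp [hc])]

theorem val_incr (u : List Bool) (h : val (incr true u) ≠ 0) : val (incr true u) = val u + 1 := by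
  induction u with
  | nil => simp [incr, val] at h
  | cons b u ih =>
    cases b
    · simp [incr, val, incr_false]; omega
    · simp [incr, val] at h ⊢
      rw [ih h]; omega

theorem incr_inj (u : List Bool) : ∀ f u', incr f u = incr f u' → u = u' := by
  induction u with
  | nil => intro f u' h; cases u' <;> simp [incr] at h ⊢
  | cons b u ih =>
    intro f u' h
    cases u' with
    | nil => simp [incr] at h
    | cons b' u' =>
      simp only [incr, List.cons.injEq] at h
      have : b = b' := by cases f <;> simpa using h.1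
      subst this
      rw [ih _ _ h.2]

theorem val_ones (k : ℕ) : val (List.replicate k true) + 1 = 2 ^ k := by
  induction k with
  | zero => rfl
  | succ k ih => simp [List.replicate_succ, val, pow_succ]; omega

theorem srch_dec {y : List Bool} {bs : List (List Bool)} {r : ℕ} (h : Srch y bs (r + 1)) :
    ∃ a v rest, bs = a ++ v :: rest ∧ y ∉ a ∧ v ≠ y ∧ y = incr true v ∧ Srch y rest r := by
  induction bs with
  | nil => exact h.elim
  | cons v bs ih =>
    obtain ⟨h1, h2 | ⟨h2, h3⟩⟩ := h
    · obtain ⟨a, v', rest, e, e1, e2⟩ := ih h2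
      refine ⟨v :: a, v', rest, by rw [e]; rfl, ?_, e2⟩
      simp only [List.mem_cons, not_or]
      exact ⟨fun h => h1 h.symm, e1⟩
    · exact ⟨[], v, bs, rfl, by simp, h1, h2, h3⟩

theorem Good.suf {k : ℕ} (a : List (List Bool)) {b : List (List Bool)} (h : Good k (a ++ b)) :
    Good k b := by
  induction a with
  | nil => exact h
  | cons v a ih => exact ih h.2.2

def Av (y : List Bool) (post : List (List Bool)) (n : ℕ) : Prop :=
  ∃ pre suf, post = pre ++ suf ∧ y ∉ pre ∧ n ≤ pre.length + 1

theorem Av.le {v : List Bool} {a rest : List (List Bool)} {n : ℕ} (h : Av v (a ++ v :: rest) n) :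
    n ≤ a.length + 1 := by
  obtain ⟨pre, suf, e, h1, h2⟩ := h
  rcases List.append_eq_append_iff.1 e with ⟨c, h3, h4⟩ | ⟨c, h3, h4⟩
  · cases c with
    | nil => simp at h3; rw [h3] at h2; exact h2
    | cons x c =>
      simp only [List.cons_append, List.cons.injEq] at h4
      exact absurd (by rw [h3, h4.1]; simp) h1
  · rw [h3]; simp; omega

theorem span {k : ℕ} : ∀ (j : ℕ) (y : List Bool) (post : List (List Bool)), val y = j →
    Good k post → ((∀ b ∈ y, b = false) ∨ Srch y post 3) → Av y post (2 ^ j) := by
  intro j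
  induction j with
  | zero => intro y post _ _ _; exact ⟨[], post, rfl, by simp, by simp⟩
  | succ j ih =>
    intro y post hv hg h
    rcases h with h | h
    · rw [val_zero h] at hv; omega
    obtain ⟨a1, v, r1, rfl, n1, m1, i1, h⟩ := srch_dec h
    obtain ⟨a2, v2, r2, rfl, n2, -, i2, h⟩ := srch_dec h
    obtain ⟨a3, v3, r3, rfl, n3, -, i3, -⟩ := srch_dec h
    obtain rfl := incr_inj _ _ _ (i1.symm.trans i2)
    obtain rfl := incr_inj _ _ _ (i1.symm.trans i3)
    have hvv : val v = j := by
      have := val_incr v (by rw [← i1]; omega)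
      rw [← i1] at this; omega
    have g1 := hg.suf a1
    have g2 := g1.2.2.suf a2
    have l2 := (ih v _ hvv g1.2.2 g1.2.1).le
    have l3 := (ih v _ hvv g2.2.2 g2.2.1).le
    refine ⟨a1 ++ v :: (a2 ++ v :: a3), v :: r3, by simp, ?_, ?_⟩
    · simp only [List.mem_append, List.mem_cons, not_or]
      exact ⟨n1, m1.symm, n2, m1.symm, n3⟩
    · simp only [List.length_append, List.length_cons, pow_succ]; omega

theorem blk_length (u r) : (blk u r).length = u.length + 1 + r.length := by
  simp [blk]; omega

theorem enc_length (bs : List (List Bool)) : bs.length ≤ (enc bs).length := by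
  induction bs with
  | nil => simp
  | cons v bs ih => simp [enc, blk_length]; omega

theorem long {k : ℕ} {bs : List (List Bool)} (h : blk (List.replicate k true) (enc bs) ∈ M2.lang) :
    k ≤ Nat.log 2 (Nat.log 2 (blk (List.replicate k true) (enc bs)).length) + 1 := by
  obtain ⟨h1, h2⟩ := (lang_blk k bs).1 h
  obtain ⟨pre, suf, e, -, h3⟩ := span _ _ bs rfl h2 (Or.inr h1)
  have h4 := val_ones k
  rcases k with _ | k
  · omega
  have h5 : 2 ^ k ≤ val (List.replicate (k + 1) true) := by
    have : 0 < 2 ^ k := by positivity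
    rw [pow_succ] at h4; omega
  have h6 : 2 ^ 2 ^ k ≤ (blk (List.replicate (k + 1) true) (enc bs)).length := by
    have := enc_length bs
    have h7 := Nat.pow_le_pow_right (n := 2) (by norm_num) h5
    have h8 : pre.length ≤ bs.length := by rw [e]; simp
    rw [blk_length]; omega
  have := Nat.log_mono_right (b := 2) (Nat.log_mono_right (b := 2) h6)
  rw [Nat.log_pow (by norm_num), Nat.log_pow (by norm_num)] at this
  omega

/-! completeness -/

def bits : ℕ → ℕ → List Bool
  | 0, _ => []
  | k + 1, j => decide (j % 2 = 1) :: bits k (j / 2)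

theorem bits_length (k : ℕ) : ∀ j, (bits k j).length = k := by
  induction k with
  | zero => intro j; rfl
  | succ k ih => intro j; simp [bits, ih]

theorem bits_succ (k : ℕ) : ∀ j, bits k (j + 1) = incr true (bits k j) := by
  induction k with
  | zero => intro j; rfl
  | succ k ih =>
    intro j
    rcases Nat.mod_two_eq_zero_or_one j with h | h
    · have h1 : (j + 1) % 2 = 1 := by omega
      have h2 : (j + 1) / 2 = j / 2 := by omega
      simp [bits, incr, h, h1, h2, incr_false]
    · have h1 : (j + 1) % 2 = 0 := by omega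
      have h2 : (j + 1) / 2 = j / 2 + 1 := by omega
      simp [bits, incr, h, h1, h2, ih]

theorem val_bits (k : ℕ) : ∀ j, j < 2 ^ k → val (bits k j) = j := by
  induction k with
  | zero => intro j h; simp at h; simp [bits, val, h]
  | succ k ih =>
    intro j h
    rw [pow_succ] at h
    rcases Nat.mod_two_eq_zero_or_one j with h1 | h1 <;>
      simp [bits, val, h1, ih (j / 2) (by omega)] <;> omega

theorem bits_zero (k : ℕ) : ∀ b ∈ bits k 0, b = false := by
  induction k with
  | zero => simp [bits]
  | succ k ih => simpa [bits] using ih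

theorem bits_ones (k : ℕ) : bits k (2 ^ k - 1) = List.replicate k true := by
  induction k with
  | zero => rfl
  | succ k ih =>
    have : 0 < 2 ^ k := by positivity
    have h1 : (2 ^ (k + 1) - 1) % 2 = 1 := by rw [pow_succ]; omega
    have h2 : (2 ^ (k + 1) - 1) / 2 = 2 ^ k - 1 := by rw [pow_succ]; omega
    simp [bits, h1, h2, ih, List.replicate_succ]

def Z (k : ℕ) : ℕ → List (List Bool)
  | 0 => []
  | j + 1 => bits k j :: (Z k j ++ bits k j :: (Z k j ++ bits k j :: Z k j))

theorem mem_Z (k : ℕ) {v : List Bool} : ∀ j, v ∈ Z k j → ∃ i < j, v = bits k i := by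
  intro j
  induction j with
  | zero => intro h; simp [Z] at h
  | succ j ih =>
    intro h
    have : v = bits k j ∨ v ∈ Z k j := by
      simp only [Z, List.mem_cons, List.mem_append] at h; tauto
    rcases this with h | h
    · exact ⟨j, by omega, h⟩
    · obtain ⟨i, hi, e⟩ := ih h
      exact ⟨i, by omega, e⟩

theorem srch_skip {y : List Bool} {rest : List (List Bool)} {r : ℕ} (a : List (List Bool))
    (ha : y ∉ a) (h : Srch y rest r) : Srch y (a ++ rest) r := by
  induction a with
  | nil => exact h
  | cons v a ih =>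
    simp only [List.mem_cons, not_or] at ha
    cases r with
    | zero => simp [Srch]
    | succ r => exact ⟨fun e => ha.1 e.symm, Or.inl (ih ha.2)⟩

theorem srch_Z {k j : ℕ} (h : j + 1 < 2 ^ k) (rest : List (List Bool)) :
    Srch (bits k (j + 1)) (Z k (j + 1) ++ rest) 3 := by
  have hne : ∀ i ≤ j, bits k i ≠ bits k (j + 1) := fun i hi e => by
    have := congrArg val e
    rw [val_bits k i (by omega), val_bits k _ h] at this; omega
  have hZ : bits k (j + 1) ∉ Z k j := fun hm => by
    obtain ⟨i, hi, e⟩ := mem_Z k j hm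
    exact hne i hi.le e.symm
  simp only [Z, List.cons_append, List.append_assoc]
  refine ⟨hne j le_rfl, Or.inr ⟨bits_succ k j, srch_skip _ hZ ?_⟩⟩
  refine ⟨hne j le_rfl, Or.inr ⟨bits_succ k j, srch_skip _ hZ ?_⟩⟩
  exact ⟨hne j le_rfl, Or.inr ⟨bits_succ k j, by simp [Srch]⟩⟩

theorem good_Z (k : ℕ) : ∀ j, j ≤ 2 ^ k → ∀ rest, Good k rest → Good k (Z k j ++ rest) := by
  intro j
  induction j with
  | zero => intro _ rest h; exact h
  | succ j ih =>
    intro hj rest h
    have one : ∀ rest, Good k rest → Good k (bits k j :: (Z k j ++ rest)) := by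
      intro rest h
      refine ⟨bits_length k j, ?_, ih (by omega) rest h⟩
      cases j with
      | zero => exact Or.inl (bits_zero k)
      | succ j => exact Or.inr (srch_Z (by omega) rest)
    simp only [Z, List.cons_append, List.append_assoc]
    exact one _ (one _ (one _ h))

theorem M2_nonreg : ¬ M2.lang.IsRegular := by
  refine not_regular_of _ (fun i => (List.replicate (i + 1) true).map some) fun i j e => ?_
  have hp : 0 < 2 ^ i := by positivity
  obtain ⟨m, hm⟩ : ∃ m, 2 ^ (i + 1) - 1 = m + 1 := ⟨2 ^ (i + 1) - 2, by rw [pow_succ]; omega⟩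
  have h1 : none :: enc (Z (i + 1) (m + 1)) ∈
      M2.lang.leftQuotient ((List.replicate (i + 1) true).map some) := by
    refine (lang_blk (i + 1) _).2 ⟨?_, ?_⟩
    · rw [← bits_ones, hm]
      simpa using srch_Z (k := i + 1) (j := m) (by omega) []
    · simpa using good_Z (i + 1) (m + 1) (by omega) [] trivial
  rw [e] at h1
  have := ((lang_blk (j + 1) _).1 h1).2.1
  rw [bits_length] at this
  omega

/-! realtime and space -/

def rk : St → ℕ
  | A => 6
  | S _ => 5
  | M => 5
  | E _ => 4
  | U _ => 3
  | INC _ => 2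
  | _ => 0

theorem M2_rank (q : St) (a : Option (Option Bool)) (g : Option Bool) (t : St × List Bool × Bool)
    (ht : t ∈ δ2 q a g) : (t.2.2 = true ∧ a ≠ none) ∨ rk t.1 < rk q := by
  cases q with
  | U r =>
    simp only [δ2, List.mem_cons, List.not_mem_nil, or_false] at ht
    rcases ht with rfl | rfl
    · simp [rk]
    · fin_cases r <;> simp [rk, nx]
  | V b =>
    rcases a with _ | _ | _ <;> simp [δ2] at ht <;> simp [ht]
  | _ =>
    rcases a with _ | _ | _ | _ <;> rcases g with _ | _ <;> simp [δ2] at ht <;>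
      (rcases ht with rfl | rfl | rfl) <;> simp [rk]

theorem M2_realtime : M2.Realtime :=
  PDA.realtime_of_rank (M := M2) rk 6 (fun q => by cases q <;> simp [rk]) M2_rank

def run : List (Option Bool) → ℕ
  | some _ :: v => run v + 1
  | _ => 0

def Sm (k : ℕ) : List (Option Bool) → Prop
  | [] => True
  | x :: v => run (x :: v) ≤ k ∧ Sm k v

theorem Sm.run_le {k : ℕ} {v} (h : Sm k v) : run v ≤ k := by
  cases v with
  | nil => simp [run]
  | cons x v => exact h.1

theorem sm_blk {k : ℕ} (u : List Bool) (r) (hu : u.length ≤ k) (hr : Sm k r) :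
    run (blk u r) = u.length ∧ Sm k (blk u r) := by
  induction u with
  | nil => exact ⟨rfl, by simp [run], hr⟩
  | cons b u ih =>
    obtain ⟨h1, h2⟩ := ih (by simp at hu; omega)
    refine ⟨by simp [run, h1], ?_, h2⟩
    show run (blk u r) + 1 ≤ k
    rw [h1]; simpa using hu

theorem sm_enc {k : ℕ} (bs : List (List Bool)) (h : ∀ v ∈ bs, v.length = k) : Sm k (enc bs) := by
  induction bs with
  | nil => trivial
  | cons v bs ih =>
    exact (sm_blk v _ (h v (by simp)).le (ih fun w hw => h w (by simp [hw]))).2

def Inv (k : ℕ) : St → List (Option Bool) → ℕ → Prop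
  | F, v, n => n + run v ≤ k
  | A, _, n => n ≤ k
  | M, _, n => n ≤ k
  | SK, _, n => n ≤ k
  | OB _, v, n => n + run v ≤ 2 * k
  | _, _, n => n ≤ 2 * k

theorem inv_step (k : ℕ) (q : St) (v : List (Option Bool)) (α : List Bool)
    (t : St × List Bool × Bool)
    (hδ : t ∈ δ2 q v.head? α.head?) (hs : Sm k v) (hi : Inv k q v α.length) :
    Inv k t.1 (if t.2.2 = true then v.tail else v) (t.2.1 ++ α.tail).length := by
  have hr := hs.run_le
  cases q with
  | U r =>
    simp only [δ2, List.mem_cons, List.not_mem_nil, or_false] at hδ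
    rcases hδ with rfl | rfl
    · rw [keep]; exact hi
    · rw [keep]; fin_cases r <;> exact hi
  | V b =>
    rcases v with _ | ⟨_ | _, v⟩ <;> simp [δ2] at hδ
    · obtain ⟨-, rfl⟩ := hδ
      rw [keep]; exact hi
    · subst hδ
      simp [Inv] at hi ⊢; omega
  | OB z =>
    rcases v with _ | ⟨_ | _, v⟩ <;> simp [δ2] at hδ <;> subst hδ
    · cases z <;> simp [Inv, keep, run] at hi ⊢ <;> omega
    · simp [Inv, keep, run] at hi ⊢; omega
  | _ =>
    rcases v with _ | ⟨_ | _ | _, v⟩ <;> rcases α with _ | ⟨_, α⟩ <;> simp [δ2] at hδ <;>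
      (rcases hδ with rfl | rfl | rfl) <;>
      simp [Inv, run] at hi hr ⊢ <;> omega

theorem M2_middle : M2.Middle fun n => 2 * (Nat.log 2 (Nat.log 2 n) + 1) := by
  intro w hw c hc
  obtain ⟨k, bs, rfl⟩ := lang_parse hw
  have h1 := long hw
  have h2 := ((lang_blk k bs).1 hw).2
  have h3 := sm_blk (k := k) (List.replicate k true) _ (by simp) (sm_enc bs h2.len)
  have : Sm k c.2.1 ∧ Inv k c.1 c.2.1 c.2.2.length := by
    induction hc with
    | refl => exact ⟨h3.2, by simpa [Inv, M2] using h3.1.le⟩
    | @tail c d _ hs ih =>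
      obtain ⟨β, m, hδ, e1, e2⟩ := hs
      rw [e1, e2]
      refine ⟨?_, inv_step k _ _ _ _ hδ ih.1 ih.2⟩
      have := ih.1
      split_ifs
      · revert this; cases c.2.1 with
        | nil => exact id
        | cons x v => exact fun h => h.2
      · exact this
  have h4 : c.2.2.length ≤ 2 * k := by
    obtain ⟨q, v, α⟩ := c
    have := this.2
    cases q <;> simp only [Inv] at this <;> simp only <;> omega
  exact h4.trans (Nat.mul_le_mul_left 2 h1)

theorem loglog_bigO : (fun n => (((2 * (Nat.log 2 (Nat.log 2 n) + 1) : ℕ)) : ℝ)) =O[atTop]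
    (fun n => ((Nat.log 2 (Nat.log 2 n) : ℕ) : ℝ)) := by
  refine IsBigO.of_bound 4 (eventually_atTop.2 ⟨4, fun n hn => ?_⟩)
  have h : 1 ≤ Nat.log 2 (Nat.log 2 n) := by
    have := Nat.log_mono_right (b := 2) (Nat.log_mono_right (b := 2) hn)
    exact le_trans (by norm_num) this
  simp only [Real.norm_natCast]
  have : (2 * (Nat.log 2 (Nat.log 2 n) + 1) : ℕ) ≤ 4 * Nat.log 2 (Nat.log 2 n) := by omega
  exact_mod_cast this

end Pool.Agent.H37.Spc
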