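import Mathlib

/-! One-way pushdown automata (nondeterministic / alternating), their space bounds. -/

namespace Pool.Agent.H37.Spc

open Filter Asymptotics

/-- A one-way alternating pushdown automaton.  In state `q`, scanning the input symbol `a`
(`none` = right end marker) with top pushdown symbol `g` (`none` = empty store), a transition
`(q', β, m)` enters `q'`, replaces the top symbol by the word `β` and moves the input head right
iff `m = true`. -/
structure PDA where
  Q : Type
  S : Type
  G : Type
  finQ : Finite Q
  finS : Finite S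
  finG : Finite G
  start : Q
  final : Set Q
  univ : Set Q
  δ : Q → Option S → Option G → Set (Q × List G × Bool)
  finδ : ∀ q a g, (δ q a g).Finite

namespace PDA

/-- Configuration: state, unread input (its head is the scanned symbol), store (top first). -/
abbrev Cfg (M : PDA) : Type := M.Q × List M.S × List M.G

/-- One step. -/
def Step (M : PDA) (c d : M.Cfg) : Prop :=
  ∃ β m, (d.1, β, m) ∈ M.δ c.1 c.2.1.head? c.2.2.head? ∧
    d.2.1 = (if m = true then c.2.1.tail else c.2.1) ∧ d.2.2 = β ++ c.2.2.tail

/-- Configurations having a (finite-depth) accepting computation tree. -/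
inductive Acc (M : PDA) : M.Cfg → Prop
  | fin {c : M.Cfg} : c.2.1 = [] → c.1 ∈ M.final → Acc M c
  | ex {c d : M.Cfg} : c.1 ∉ M.univ → M.Step c d → Acc M d → Acc M c
  | all {c : M.Cfg} : c.1 ∈ M.univ → (∃ d, M.Step c d) → (∀ d, M.Step c d → Acc M d) → Acc M c

/-- The accepted language. -/
def lang (M : PDA) : Language M.S := {w | M.Acc (M.start, w, [])}

/-- `c` occurs in some computation on input `w`. -/
def Reach (M : PDA) (w : List M.S) (c : M.Cfg) : Prop :=
  Relation.ReflTransGen M.Step (M.start, w, []) c

/-- Realtime: for a fixed `k`, in every computation the head moves within any `k` steps. -/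
def Realtime (M : PDA) : Prop :=
  ∃ k : ℕ, ∀ (w : List M.S) (f : ℕ → M.Cfg), M.Reach w (f 0) →
    (∀ i < k, M.Step (f i) (f (i + 1))) → (f k).2.1.length < (f 0).2.1.length

/-- Strong space bound: every computation on every input. -/
def Strong (M : PDA) (s : ℕ → ℕ) : Prop :=
  ∀ w c, M.Reach w c → c.2.2.length ≤ s w.length

/-- Middle space bound: every computation on every accepted input. -/
def Middle (M : PDA) (s : ℕ → ℕ) : Prop :=
  ∀ w ∈ M.lang, ∀ c, M.Reach w c → c.2.2.length ≤ s w.length

end PDA

inductive Head | oneWay | realtime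
inductive Branch | nondet | alt
inductive Mode | strong | middle

/-- Membership in one of the four machine classes. -/
def InClass (M : PDA) (h : Head) (b : Branch) : Prop :=
  (h = Head.realtime → M.Realtime) ∧ (b = Branch.nondet → M.univ = ∅)

/-- `s` is a space bound of `M` in the given mode. -/
def Bound (M : PDA) : Mode → (ℕ → ℕ) → Prop
  | Mode.strong, s => M.Strong s
  | Mode.middle, s => M.Middle s

/-- `f` is a tight bound for nonregular recognition in the given class and mode. -/
def Tight (h : Head) (b : Branch) (m : Mode) (f : ℕ → ℝ) : Prop :=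
  (∃ (M : PDA) (s : ℕ → ℕ), InClass M h b ∧ ¬ M.lang.IsRegular ∧ Bound M m s ∧
      (fun n => (s n : ℝ)) =O[atTop] f) ∧
  ¬ ∃ (M : PDA) (s : ℕ → ℕ), InClass M h b ∧ ¬ M.lang.IsRegular ∧ Bound M m s ∧
      (fun n => (s n : ℝ)) =o[atTop] f

end Pool.Agent.H37.Spc
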