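import Mathlib

/-! Sparsity counts for multigraphs given by an edge set and an endpoint map. -/

namespace Pool.Agent.H37.Tig

/-- The multigraph on `W` whose edges are the members `f` of `S`, with ends `φ f`, is
`(k,l)`-tight: every subgraph with at least `k` vertices has at most `k|V'| - l` edges, and
`|S| = k|W| - l`. Parallel edges are counted with multiplicity. -/
def Tight {W ε : Type} [Fintype W] (k l : ℕ) (S : Finset ε) (φ : ε → Sym2 W) : Prop :=
  (∀ (V' : Finset W) (E' : Finset ε), k ≤ V'.card → E' ⊆ S → (∀ f ∈ E', ∀ w ∈ φ f, w ∈ V') →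
    E'.card + l ≤ k * V'.card) ∧ S.card + l = k * Fintype.card W

/-- Identify `y` with `x ≠ y`; the new vertex is represented by `x`. -/
def merge {V : Type} [DecidableEq V] {x y : V} (h : x ≠ y) (v : V) : {v : V // v ≠ y} :=
  if hv : v = y then ⟨x, h⟩ else ⟨v, hv⟩

/-- `(V,S)/xy` is `(2,3)`-tight. -/
def ConTight {V : Type} [Fintype V] [DecidableEq V] {x y : V} (h : x ≠ y) (S : Finset (Sym2 V)) :
    Prop :=
  Tight 2 3 (S.erase s(x, y)) (Sym2.map (merge h))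

/-- Property (P). -/
def PropP {V : Type} [Fintype V] [DecidableEq V] (G : SimpleGraph V) [DecidableRel G.Adj] : Prop :=
  ∀ (x y : V) (h : G.Adj x y), ∃ S₁ S₂ S₃ : Finset (Sym2 V),
    S₁ ∪ S₂ ∪ S₃ = G.edgeFinset ∧ Disjoint S₁ S₂ ∧ Disjoint S₁ S₃ ∧ Disjoint S₂ S₃ ∧
    S₁.card + 1 = Fintype.card V ∧ S₂.card + 2 = Fintype.card V ∧ S₃.card + 3 = Fintype.card V ∧
    s(x, y) ∈ S₁ ∧ Tight 2 3 (S₁ ∪ S₂) id ∧ ConTight h.ne (S₁ ∪ S₃) ∧
    ConTight h.ne (S₂ ∪ S₃ ∪ {s(x, y)})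

end Pool.Agent.H37.Tig
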