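import Mathlib

namespace Pool.Agent.H37.Tpd

open Finset

abbrev P (N t : ℕ) := {A : Finset (Fin N) // A.card ≤ t}

theorem card_P (N t : ℕ) (hN : 0 < N) : Fintype.card (P N t) ≤ (t + 1) * N ^ t := by
  classical
  rw [Fintype.card_subtype]
  refine le_trans (card_le_card (t := (range (t + 1)).biUnion fun i => powersetCard i univ) ?_) ?_
  · intro A hA
    simp only [mem_filter, mem_univ, true_and] at hA
    exact mem_biUnion.2 ⟨A.card, mem_range.2 (by omega), mem_powersetCard.2 ⟨subset_univ _, rfl⟩⟩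
  · refine le_trans (card_biUnion_le_card_mul _ _ (N ^ t) fun i hi => ?_) (by simp)
    rw [card_powersetCard, card_univ, Fintype.card_fin]
    exact (Nat.choose_le_pow _ _).trans (Nat.pow_le_pow_right hN (by have := mem_range.1 hi; omega))

theorem enc {ι Ω : Type} [Fintype ι] [DecidableEq Ω] (N t : ℕ) (hN : Fintype.card ι * t < N)
    (x : ι → Finset Ω) (hx : ∀ i, (x i).card ≤ t) :
    ∃ y : ι → P N t, ∀ i j, ((y i).1 ∩ (y j).1).card = (x i ∩ x j).card := by
  classical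
  have hU : (univ.biUnion x).card ≤ N :=
    (card_biUnion_le_card_mul _ _ t fun i _ => hx i).trans hN.le
  obtain ⟨e⟩ := Function.Embedding.nonempty_of_card_le
    (α := (univ.biUnion x : Finset Ω)) (β := Fin N) (by simpa using hU)
  let g : Ω → Fin N := fun w => if h : w ∈ univ.biUnion x then e ⟨w, h⟩ else ⟨0, by omega⟩
  have hg : Set.InjOn g ↑(univ.biUnion x) := by
    intro a ha b hb hab
    have ha' : a ∈ univ.biUnion x := ha
    have hb' : b ∈ univ.biUnion x := hb
    simp only [g, ha', hb', dif_pos] at hab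
    exact congrArg Subtype.val (e.injective hab)
  have hs : ∀ i, (↑(x i) : Set Ω) ⊆ ↑(univ.biUnion x) := fun i w hw =>
    mem_coe.2 (mem_biUnion.2 ⟨i, mem_univ _, hw⟩)
  refine ⟨fun i => ⟨(x i).image g, card_image_le.trans (hx i)⟩, fun i j => ?_⟩
  rw [← image_inter_of_injOn _ _ (hg.mono (Set.union_subset (hs i) (hs j))),
    card_image_of_injOn (hg.mono fun w hw => hs i (mem_inter.1 hw).1)]

def D {d : ℕ} (z u : Fin d → ℤ) : Finset (Fin d) := univ.filter fun i => u i ≠ z i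

def S {d : ℕ} (z u : Fin d → ℤ) : Finset (Fin d × ℤ) := (D z u).image fun i => (i, u i)

theorem ident {d : ℕ} (z u v : Fin d → ℤ) :
    hammingDist u v + (S z u ∩ S z v).card + (D z u ∩ D z v).card =
      (D z u ∩ D z u).card + (D z v ∩ D z v).card := by
  have h : S z u ∩ S z v = (univ.filter fun i => u i ≠ z i ∧ u i = v i).image fun i => (i, u i) := by
    ext ⟨i, c⟩
    simp only [S, D, mem_inter, mem_image, mem_filter, mem_univ, true_and, Prod.mk.injEq]
    constructor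
    · rintro ⟨⟨a, h1, rfl, rfl⟩, b, h2, rfl, h3⟩
      exact ⟨b, ⟨h1, h3.symm⟩, rfl, rfl⟩
    · rintro ⟨a, ⟨h1, h2⟩, rfl, rfl⟩
      exact ⟨⟨a, h1, rfl, rfl⟩, a, h2 ▸ h1, rfl, h2.symm⟩
  rw [h, card_image_of_injective _ (fun a b e => (Prod.mk.inj e).1), inter_self, inter_self]
  simp only [hammingDist, D, ← filter_and, card_filter, ← sum_add_distrib]
  refine sum_congr rfl fun i _ => ?_
  by_cases a : u i = v i <;> by_cases b : u i = z i <;> by_cases c : v i = z i <;> simp_all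

theorem count (m t : ℕ) (h : ∀ M : Fin m → Fin (m + 1) → Bool, ∃ s ≤ t, ∃ (d : ℕ)
    (p : Fin m ⊕ Fin (m + 1) → Fin d → ℤ) (z : Fin d → ℤ), (∀ a, hammingDist (p a) z ≤ t) ∧
      ∀ a b, (M a b = true ↔ s ≤ hammingDist (p (.inl a)) (p (.inr b)))) :
    2 ^ ((m + 1) * m) ≤ (t + 1) * (((t + 1) * ((2 * m + 1) * t + 1) ^ t) ^ (2 * m + 1)) ^ 2 := by
  classical
  choose s hs d p z hz hM using h
  have hc : Fintype.card (Fin m ⊕ Fin (m + 1)) = 2 * m + 1 := by simp; omega
  choose y1 h1 using fun M => enc ((2 * m + 1) * t + 1) t (by rw [hc]; omega)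
    (fun a => D (z M) (p M a)) (hz M)
  choose y2 h2 using fun M => enc ((2 * m + 1) * t + 1) t (by rw [hc]; omega)
    (fun a => S (z M) (p M a)) (fun a => card_image_le.trans (hz M a))
  have hinj : Function.Injective fun M => ((⟨s M, Nat.lt_succ_of_le (hs M)⟩ : Fin (t + 1)),
      y1 M, y2 M) := by
    intro M M' e
    simp only [Prod.mk.injEq, Fin.mk.injEq] at e
    obtain ⟨e0, e1, e2⟩ := e
    funext a b
    have i1 := ident (z M) (p M (.inl a)) (p M (.inr b))
    have i2 := ident (z M') (p M' (.inl a)) (p M' (.inr b))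
    rw [← h1 M, ← h1 M, ← h1 M, ← h2 M, e1, e2] at i1
    rw [← h1 M', ← h1 M', ← h1 M', ← h2 M'] at i2
    rw [Bool.eq_iff_iff, hM, hM, e0]
    omega
  have := Fintype.card_le_of_injective _ hinj
  simp only [Fintype.card_prod, Fintype.card_fun, Fintype.card_fin, Fintype.card_bool, hc,
    ← pow_mul] at this
  have hp := Nat.pow_le_pow_left (card_P ((2 * m + 1) * t + 1) t (by omega)) (2 * m + 1)
  refine this.trans (Nat.mul_le_mul_left _ ?_)
  rw [sq]
  exact Nat.mul_le_mul hp hp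

theorem numeric (m t L : ℕ) (ht : 1 ≤ t) (hL : 2 * m + 2 ≤ 2 ^ L) (h : 14 * t * L ≤ m)
    (hL1 : 1 ≤ L) :
    (t + 1) * (((t + 1) * ((2 * m + 1) * t + 1) ^ t) ^ (2 * m + 1)) ^ 2 < 2 ^ ((m + 1) * m) := by
  have htm : t ≤ m := by nlinarith
  have a : t + 1 ≤ 2 ^ L := by omega
  have b : (2 * m + 1) * t + 1 ≤ 2 ^ L * 2 ^ L := by nlinarith
  calc _ ≤ 2 ^ L * ((2 ^ L * (2 ^ L * 2 ^ L) ^ t) ^ (2 * m + 1)) ^ 2 := by gcongr
    _ = 2 ^ (L + (L + (L + L) * t) * (2 * m + 1) * 2) := by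
      simp only [← pow_add, ← pow_mul]
    _ < _ := by
      refine Nat.pow_lt_pow_right (by norm_num) ?_
      have c : L ≤ t * L := Nat.le_mul_of_pos_left _ ht
      have e : (L + L) * t = 2 * (t * L) := by ring
      have h' : 14 * (t * L) ≤ m := by rw [← mul_assoc]; exact h
      rw [e]
      nlinarith

def adj {m k : ℕ} (M : Fin m → Fin (m + 1) → Bool) :
    (Option (Fin m) ⊕ Fin (m + 1)) ⊕ Fin (k + 1) → (Option (Fin m) ⊕ Fin (m + 1)) ⊕ Fin (k + 1) → Prop
  | .inl (.inl a), .inl (.inr b) => ∀ a', a = some a' → M a' b = true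
  | .inl (.inr b), .inl (.inl a) => ∀ a', a = some a' → M a' b = true
  | _, _ => False

def Gr {m : ℕ} (k : ℕ) (M : Fin m → Fin (m + 1) → Bool) :
    SimpleGraph ((Option (Fin m) ⊕ Fin (m + 1)) ⊕ Fin (k + 1)) where
  Adj := adj M
  symm := ⟨by rintro ((a | a) | a) ((b | b) | b) h <;> exact h⟩
  loopless := ⟨by rintro ((a | a) | a) h <;> exact h⟩

end Pool.Agent.H37.Tpd
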