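import Pool.Agent.H37.Tpd1

namespace Pool.Agent.H37.Tpd

open Finset

theorem count2 {F A : Type} [Fintype F] [Fintype A] [DecidableEq A] (R : F → A → A → Prop)
    (hR : ∀ M M', (∀ a b, R M a b ↔ R M' a b) → M = M') (t : ℕ)
    (h : ∀ M : F, ∃ s ≤ t, ∃ (d : ℕ) (p : A ⊕ A → Fin d → ℤ) (z : Fin d → ℤ),
      (∀ a, hammingDist (p a) z ≤ t) ∧
      ∀ a b, (R M a b ↔ s ≤ hammingDist (p (.inl a)) (p (.inr b)))) :
    Fintype.card F ≤ (t + 1) *
      (((t + 1) * ((2 * Fintype.card A) * t + 1) ^ t) ^ (2 * Fintype.card A)) ^ 2 := by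
  classical
  choose s hs d p z hz hM using h
  have hc : Fintype.card (A ⊕ A) = 2 * Fintype.card A := by simp; omega
  choose y1 h1 using fun M => enc ((2 * Fintype.card A) * t + 1) t (by rw [hc]; omega)
    (fun a => D (z M) (p M a)) (hz M)
  choose y2 h2 using fun M => enc ((2 * Fintype.card A) * t + 1) t (by rw [hc]; omega)
    (fun a => S (z M) (p M a)) (fun a => card_image_le.trans (hz M a))
  have hinj : Function.Injective fun M => ((⟨s M, Nat.lt_succ_of_le (hs M)⟩ : Fin (t + 1)),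
      y1 M, y2 M) := by
    intro M M' e
    simp only [Prod.mk.injEq, Fin.mk.injEq] at e
    obtain ⟨e0, e1, e2⟩ := e
    refine hR _ _ fun a b => ?_
    have i1 := ident (z M) (p M (.inl a)) (p M (.inr b))
    have i2 := ident (z M') (p M' (.inl a)) (p M' (.inr b))
    rw [← h1 M, ← h1 M, ← h1 M, ← h2 M, e1, e2] at i1
    rw [← h1 M', ← h1 M', ← h1 M', ← h2 M'] at i2
    rw [hM, hM, e0]
    omega
  have := Fintype.card_le_of_injective _ hinj
  simp only [Fintype.card_prod, Fintype.card_fun, Fintype.card_fin, hc] at this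
  have hp := Nat.pow_le_pow_left (card_P ((2 * Fintype.card A) * t + 1) t (by omega))
    (2 * Fintype.card A)
  refine this.trans (Nat.mul_le_mul_left _ ?_)
  rw [sq]
  exact Nat.mul_le_mul hp hp

theorem fact_ge (r : ℕ) : (2 ^ Nat.log 2 r) ^ r ≤ r.factorial ^ 2 := by
  have h1 : r ^ r ≤ r.factorial ^ 2 := by
    have e : r.factorial ^ 2 = ∏ i ∈ range r, ((i + 1) * (r - 1 - i + 1)) := by
      rw [prod_mul_distrib, prod_range_add_one_eq_factorial,
        prod_range_reflect (fun i => i + 1) r, prod_range_add_one_eq_factorial, sq]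
    rw [e]
    calc r ^ r = ∏ _i ∈ range r, r := by simp
      _ ≤ _ := prod_le_prod' fun i hi => by
        have hi' := mem_range.1 hi
        obtain ⟨j, rfl⟩ : ∃ j, r = i + j + 1 := ⟨r - i - 1, by omega⟩
        rw [show i + j + 1 - 1 - i = j by omega]
        nlinarith [Nat.zero_le (i * j)]
  rcases Nat.eq_zero_or_pos r with rfl | hr
  · simp
  · exact (Nat.pow_le_pow_left (Nat.pow_log_le_self 2 hr.ne') r).trans h1

theorem numeric2 (q t L E : ℕ) (ht : 1 ≤ t) (hq : 1 ≤ q) (hL : 2 * q ≤ 2 ^ L) (htq : t < 2 * q)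
    (hL1 : 1 ≤ L) (h : 26 * (t * L) * q < E) :
    ((t + 1) * (((t + 1) * ((2 * q) * t + 1) ^ t) ^ (2 * q)) ^ 2) ^ 2 < 2 ^ E := by
  have a : t + 1 ≤ 2 ^ L := by omega
  have b : (2 * q) * t + 1 ≤ 2 ^ L * 2 ^ L := by nlinarith
  calc _ ≤ (2 ^ L * ((2 ^ L * (2 ^ L * 2 ^ L) ^ t) ^ (2 * q)) ^ 2) ^ 2 := by gcongr
    _ = 2 ^ ((L + (L + (L + L) * t) * (2 * q) * 2) * 2) := by
      simp only [← pow_add, ← pow_mul]
    _ < _ := by
      refine Nat.pow_lt_pow_right (by norm_num) ?_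
      have c : L ≤ t * L := Nat.le_mul_of_pos_left _ ht
      have e : (L + L) * t = 2 * (t * L) := by ring
      have c2 : L * q ≤ t * L * q := Nat.mul_le_mul_right _ c
      have c3 : L ≤ L * q := Nat.le_mul_of_pos_right _ hq
      rw [e]
      nlinarith

abbrev W (Δ r k : ℕ) := ((Fin Δ × Fin r) ⊕ (Fin Δ × Fin r)) ⊕ Fin (k + 1)

def adj2 {Δ r k : ℕ} (M : Fin Δ → Fin Δ → Equiv.Perm (Fin r)) : W Δ r k → W Δ r k → Prop
  | .inl (.inl a), .inl (.inr b) => M a.1 b.1 a.2 = b.2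
  | .inl (.inr b), .inl (.inl a) => M a.1 b.1 a.2 = b.2
  | _, _ => False

def Gr2 {Δ r : ℕ} (k : ℕ) (M : Fin Δ → Fin Δ → Equiv.Perm (Fin r)) : SimpleGraph (W Δ r k) where
  Adj := adj2 M
  symm := ⟨by rintro ((a | a) | a) ((b | b) | b) h <;> exact h⟩
  loopless := ⟨by rintro ((a | a) | a) h <;> exact h⟩

theorem degA {Δ r : ℕ} (k : ℕ) (M : Fin Δ → Fin Δ → Equiv.Perm (Fin r)) (a : Fin Δ × Fin r) :
    ((Gr2 k M).neighborSet (.inl (.inl a))).ncard = Δ := by
  have : (Gr2 k M).neighborSet (.inl (.inl a)) =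
      (fun j : Fin Δ => (.inl (.inr (j, M a.1 j a.2)) : W Δ r k)) '' Set.univ := by
    ext ((b | ⟨j, y⟩) | b)
    · exact ⟨fun h => h.elim, fun ⟨_, _, e⟩ => by simp at e⟩
    · refine ⟨fun h => ⟨j, trivial, ?_⟩, fun ⟨i, _, e⟩ => ?_⟩
      · have h' : M a.1 j a.2 = y := h
        simp [h']
      · simp only [Sum.inl.injEq, Sum.inr.injEq, Prod.mk.injEq] at e
        obtain ⟨rfl, rfl⟩ := e
        exact rfl
    · exact ⟨fun h => h.elim, fun ⟨_, _, e⟩ => by simp at e⟩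
  rw [this, Set.ncard_image_of_injective _ (fun a b e => by simp at e; exact e.1), Set.ncard_univ]
  simp

theorem degB {Δ r : ℕ} (k : ℕ) (M : Fin Δ → Fin Δ → Equiv.Perm (Fin r)) (b : Fin Δ × Fin r) :
    ((Gr2 k M).neighborSet (.inl (.inr b))).ncard ≤ Δ := by
  have : (Gr2 k M).neighborSet (.inl (.inr b)) ⊆
      (fun i : Fin Δ => (.inl (.inl (i, (M i b.1).symm b.2)) : W Δ r k)) '' Set.univ := by
    rintro ((⟨i, x⟩ | a) | a) h
    · have h' : M i b.1 x = b.2 := h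
      exact ⟨i, trivial, by simp [← h']⟩
    · exact h.elim
    · exact h.elim
  refine (Set.ncard_le_ncard this).trans ((Set.ncard_image_le).trans ?_)
  rw [Set.ncard_univ]
  simp

end Pool.Agent.H37.Tpd
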