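import Pool.Agent.H37.TrlDefs

namespace Pool.Agent.H37.Trl

variable {D : Type}

def Det (p q : ℕ) (T : ℕ → ℕ → D) : Prop :=
  ∀ i j i' j', T (i / p) (j / q) = T (i' / p) (j' / q) → i % p = i' % p → j % q = j' % q →
    T i j = T i' j'

theorem blockM_low {p q : ℕ} (σ : D → ℕ → ℕ → D) (k : ℕ) : ∀ δ i j, i < p ^ (k + 1) →
    j < q ^ (k + 1) →
    blockM p q σ (k + 1) δ i j = σ (blockM p q σ k δ (i / p) (j / q)) (i % p) (j % q) := by
  induction k with
  | zero =>
    intro δ i j hi hj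
    simp only [zero_add, pow_one] at hi hj
    simp [blockM, Nat.mod_eq_of_lt hi, Nat.mod_eq_of_lt hj]
  | succ k ih =>
    intro δ i j hi hj
    have hp : 0 < p ^ (k + 1) := by
      rcases Nat.eq_zero_or_pos p with rfl | h
      · simp at hi
      · positivity
    have hq : 0 < q ^ (k + 1) := by
      rcases Nat.eq_zero_or_pos q with rfl | h
      · simp at hj
      · positivity
    rw [blockM, ih _ _ _ (Nat.mod_lt _ hp) (Nat.mod_lt _ hq), blockM]
    have e1 : ∀ p i : ℕ, i % p ^ (k + 1) / p = i / p % p ^ k := fun p i => by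
      rw [pow_succ', Nat.mod_mul_right_div_self]
    have e2 : ∀ p i : ℕ, i / p / p ^ k = i / p ^ (k + 1) := fun p i => by
      rw [Nat.div_div_eq_div_mul, pow_succ']
    have e3 : ∀ p i : ℕ, i % p ^ (k + 1) % p = i % p := fun p i =>
      Nat.mod_mod_of_dvd _ (dvd_pow_self p (by omega))
    rw [e1, e1, e2, e2, e3, e3]

theorem lt_pow_of {p : ℕ} (hp : 2 ≤ p) {i k : ℕ} (h : i ≤ k) : i < p ^ k :=
  lt_of_le_of_lt h (Nat.lt_pow_self (by omega))

theorem det_of_modular {T : ℕ → ℕ → D} (h : Modular T) : ∃ p q, 2 ≤ p ∧ 2 ≤ q ∧ Det p q T := by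
  obtain ⟨p, q, σ, δ0, hp, hq, -, h⟩ := h
  have key : ∀ i j, T i j = σ (T (i / p) (j / q)) (i % p) (j % q) := by
    intro i j
    obtain ⟨K, hK⟩ := h i j
    obtain ⟨K', hK'⟩ := h (i / p) (j / q)
    rw [hK (K + K' + i + j + 1) (by omega), hK' (K + K' + i + j) (by omega)]
    exact blockM_low σ _ _ _ _ (lt_pow_of hp (by omega)) (lt_pow_of hq (by omega))
  refine ⟨p, q, hp, hq, fun i j i' j' h1 h2 h3 => ?_⟩
  rw [key i j, key i' j', h1, h2, h3]

theorem modular_of_det {T : ℕ → ℕ → D} {p q : ℕ} (hp : 2 ≤ p) (hq : 2 ≤ q) (h : Det p q T) :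
    Modular T := by
  classical
  let σ : D → ℕ → ℕ → D := fun δ a b =>
    if h : ∃ x : ℕ × ℕ, T (x.1 / p) (x.2 / q) = δ ∧ x.1 % p = a ∧ x.2 % q = b then
      T h.choose.1 h.choose.2 else δ
  have key : ∀ i j, T i j = σ (T (i / p) (j / q)) (i % p) (j % q) := by
    intro i j
    have hx : ∃ x : ℕ × ℕ, T (x.1 / p) (x.2 / q) = T (i / p) (j / q) ∧ x.1 % p = i % p ∧
        x.2 % q = j % q := ⟨(i, j), rfl, rfl, rfl⟩
    simp only [σ, dif_pos hx]
    exact (h _ _ _ _ hx.choose_spec.1 hx.choose_spec.2.1 hx.choose_spec.2.2).symm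
  refine ⟨p, q, σ, T 0 0, hp, hq, by simpa using (key 0 0).symm, fun i j => ⟨i + j, fun k hk => ?_⟩⟩
  have : ∀ k i j, i < p ^ k → j < q ^ k → T i j = blockM p q σ k (T 0 0) i j := by
    intro k
    induction k with
    | zero =>
      intro i j hi hj
      obtain rfl : i = 0 := by simpa using hi
      obtain rfl : j = 0 := by simpa using hj
      rfl
    | succ k ih =>
      intro i j hi hj
      rw [blockM_low σ k _ _ _ hi hj, ← ih, ← key]
      · rw [Nat.div_lt_iff_lt_mul (by omega), ← pow_succ]; exact hi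
      · rw [Nat.div_lt_iff_lt_mul (by omega), ← pow_succ]; exact hj
  exact this k i j (lt_pow_of hp (by omega)) (lt_pow_of hq (by omega))

theorem Det.pow {T : ℕ → ℕ → D} {p q : ℕ} (h : Det p q T) (k : ℕ) : Det (p ^ k) (q ^ k) T := by
  induction k with
  | zero => intro i j i' j' h1 _ _; simpa using h1
  | succ k ih =>
    intro i j i' j' h1 h2 h3
    have e1 : ∀ p i : ℕ, i % p ^ (k + 1) / p = i / p % p ^ k := fun p i => by
      rw [pow_succ', Nat.mod_mul_right_div_self]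
    have e2 : ∀ p i : ℕ, i / p / p ^ k = i / p ^ (k + 1) := fun p i => by
      rw [Nat.div_div_eq_div_mul, pow_succ']
    have e3 : ∀ p i : ℕ, i % p ^ (k + 1) % p = i % p := fun p i =>
      Nat.mod_mod_of_dvd _ (dvd_pow_self p (by omega))
    refine h _ _ _ _ (ih _ _ _ _ ?_ ?_ ?_) ?_ ?_
    · rw [e2, e2, e2, e2]; exact h1
    · rw [← e1, ← e1, h2]
    · rw [← e1, ← e1, h3]
    · rw [← e3 p i, ← e3 p i', h2]
    · rw [← e3 q j, ← e3 q j', h3]

theorem add_div_mod {P : ℕ} (hP : 0 < P) (i a : ℕ) :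
    (i + a) / P = i / P + (i % P + a) / P ∧ (i + a) % P = (i % P + a) % P := by
  have e : i + a = (i % P + a) + P * (i / P) := by
    have := Nat.div_add_mod i P; omega
  refine ⟨?_, by simp⟩
  rw [e, Nat.add_mul_div_left _ _ hP]; omega

theorem shift1 {P n : ℕ} (hP : 2 ≤ P) (hn : 3 ≤ n) {i i' s : ℕ} (h0 : i / P = 0 ↔ i' / P = 0)
    (hm : i % P = i' % P) (hs : s < n) : ∃ s' < n, (i + s - 1) / P = i / P + s' - 1 ∧
      (i' + s - 1) / P = i' / P + s' - 1 ∧ (i + s - 1) % P = (i' + s - 1) % P := by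
  have hlt := Nat.mod_lt i (show P > 0 by omega)
  by_cases h : i % P + s = 0
  · obtain ⟨h1, rfl⟩ : i % P = 0 ∧ s = 0 := by omega
    have one : ∀ i : ℕ, i % P = 0 → (i - 1) / P = i / P - 1 ∧
        (i - 1) % P = if i / P = 0 then 0 else P - 1 := by
      intro i hi
      have e := Nat.div_add_mod i P
      rcases hI : i / P with _ | I
      · rw [hI] at e
        have : i = 0 := by omega
        subst this; simp
      · rw [hI, hi, Nat.mul_succ] at e
        have e2 : i - 1 = (P - 1) + P * I := by omega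
        rw [e2, Nat.add_mul_div_left _ _ (by omega), Nat.add_mul_mod_self_left,
          Nat.div_eq_of_lt (by omega), Nat.mod_eq_of_lt (by omega)]
        simp
    refine ⟨0, by omega, (one i h1).1, (one i' (hm ▸ h1)).1, ?_⟩
    simp only [add_zero]
    rw [(one i h1).2, (one i' (hm ▸ h1)).2]
    simp only [h0]
  · have one : ∀ i' : ℕ, i % P = i' % P →
        (i' + s - 1) / P = i' / P + ((i % P + s - 1) / P + 1) - 1 ∧
        (i' + s - 1) % P = (i % P + s - 1) % P := by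
      intro i' hm
      have e : i' + s - 1 = (i % P + s - 1) + P * (i' / P) := by
        have := Nat.div_add_mod i' P; omega
      rw [e, Nat.add_mul_div_left _ _ (by omega), Nat.add_mul_mod_self_left]
      refine ⟨?_, rfl⟩
      generalize (i % P + s - 1) / P = u
      generalize i' / P = v
      omega
    refine ⟨(i % P + s - 1) / P + 1, ?_, (one i rfl).1, (one i' hm).1,
      (one i rfl).2.trans (one i' hm).2.symm⟩
    have : (i % P + s - 1) / P < n - 1 := by
      rw [Nat.div_lt_iff_lt_mul (by omega)]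
      obtain ⟨m, rfl⟩ : ∃ m, n = m + 3 := ⟨n - 3, by omega⟩
      have h2 : m + 3 - 1 = m + 2 := by omega
      have h3 : m * 2 ≤ m * P := Nat.mul_le_mul_left _ hP
      rw [h2, add_mul]; omega
    omega

def W (T : ℕ → ℕ → D) (n1 n2 : ℕ) (i j : ℕ) : Prop × Prop × (Fin n1 → Fin n2 → D) :=
  (i = 0, j = 0, fun s t => T (i + s - 1) (j + t - 1))

theorem zero_iff {P i i' : ℕ} (h0 : i / P = 0 ↔ i' / P = 0) (hm : i % P = i' % P) :
    i = 0 ↔ i' = 0 := by
  have e := Nat.div_add_mod i P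
  have e' := Nat.div_add_mod i' P
  constructor
  · rintro rfl
    rw [h0.1 (by simp), ← hm] at e'; simpa using e'.symm
  · rintro rfl
    rw [h0.2 (by simp), hm] at e; simpa using e.symm

theorem Det.W {T : ℕ → ℕ → D} {P Q n1 n2 : ℕ} (h : Det P Q T) (hP : 2 ≤ P) (hQ : 2 ≤ Q)
    (h1 : 3 ≤ n1) (h2 : 3 ≤ n2) : Det P Q (W T n1 n2) := by
  intro i j i' j' e hi hj
  simp only [Trl.W, Prod.mk.injEq, eq_iff_iff] at e ⊢
  obtain ⟨e1, e2, e3⟩ := e
  refine ⟨zero_iff e1 hi, zero_iff e2 hj, ?_⟩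
  funext s t
  obtain ⟨s', hs', a1, a2, a3⟩ := shift1 hP h1 e1 hi s.2
  obtain ⟨t', ht', b1, b2, b3⟩ := shift1 hQ h2 e2 hj t.2
  refine h _ _ _ _ ?_ a3 b3
  rw [a1, a2, b1, b2]
  exact congrFun (congrFun e3 ⟨s', hs'⟩) ⟨t', ht'⟩

def Up {X : Type} (V : ℕ → ℕ → X) (P Q : ℕ) (hP : 0 < P) (hQ : 0 < Q) (i j : ℕ) :
    X × Fin P × Fin Q :=
  (V (i / P) (j / Q), ⟨i % P, Nat.mod_lt _ hP⟩, ⟨j % Q, Nat.mod_lt _ hQ⟩)

theorem Det.up {X : Type} {V : ℕ → ℕ → X} {P Q : ℕ} (h : Det P Q V) (hP : 0 < P) (hQ : 0 < Q) :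
    Det P Q (Up V P Q hP hQ) := by
  intro i j i' j' e hi hj
  simp only [Up, Prod.mk.injEq, Fin.mk.injEq] at e ⊢
  exact ⟨h _ _ _ _ e.1 e.2.1 e.2.2, hi, hj⟩

def code (P : ℕ) (f : ℕ → ℕ → Bool) (s t : ℕ) : Bool :=
  if s ≤ 1 then decide (t = 0) else if s % 2 = 1 ∧ s + 1 < P then f ((s - 3) / 2) t else false

theorem code_marker {P : ℕ} (hP : 4 ≤ P) {f f' : ℕ → ℕ → Bool} {i t : ℕ}
    (h1 : code P f (i % P) t = true) (h2 : code P f' ((i + 1) % P) t = true) :
    i % P = 0 ∧ t = 0 := by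
  have hlt := Nat.mod_lt i (show P > 0 by omega)
  have e : (i + 1) % P = if i % P + 1 < P then i % P + 1 else 0 := by
    rw [(add_div_mod (by omega) i 1).2]
    split_ifs with h
    · exact Nat.mod_eq_of_lt h
    · have : i % P + 1 = P := by omega
      rw [this, Nat.mod_self]
  rw [e] at h2
  generalize i % P = s at *
  unfold code at h1 h2
  split_ifs at h1 h2 <;> first | omega | (simp at h1 h2; omega) | (simp at h1; omega)

theorem capacity {d P Q : ℕ} (hP : 160 * (d + 1) ≤ P) (hQ : 160 * (d + 1) ≤ Q) :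
    d * ((2 * P + 2 * Q) / P + 2) * ((2 * P + 2 * Q) / Q + 2) ≤ (P - 3) / 2 * Q := by
  have e1 : (2 * P + 2 * Q) / P = 2 + 2 * Q / P := by
    rw [add_comm, Nat.add_mul_div_right _ _ (by omega)]; omega
  have e2 : (2 * P + 2 * Q) / Q = 2 + 2 * P / Q := by
    rw [Nat.add_mul_div_right _ _ (by omega)]; omega
  rw [e1, e2]
  have x1 : 2 * Q / P * P ≤ 2 * Q := Nat.div_mul_le_self _ _
  have y1 : 2 * P / Q * Q ≤ 2 * P := Nat.div_mul_le_self _ _
  have m1 : P ≤ 4 * ((P - 3) / 2) := by omega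
  generalize 2 * Q / P = x at *
  generalize 2 * P / Q = y at *
  generalize (P - 3) / 2 = m at *
  have x2 : x ≤ 2 * Q := le_trans (Nat.le_mul_of_pos_right _ (by omega)) x1
  have y2 : y ≤ 2 * P := le_trans (Nat.le_mul_of_pos_right _ (by omega)) y1
  have xy : x * y ≤ 4 := by
    have h1 : x * y * (P * Q) ≤ 4 * (P * Q) := by
      calc x * y * (P * Q) = (x * P) * (y * Q) := by ring
        _ ≤ (2 * Q) * (2 * P) := Nat.mul_le_mul x1 y1
        _ = 4 * (P * Q) := by ring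
    exact Nat.le_of_mul_le_mul_right h1 (Nat.mul_pos (by omega) (by omega))
  have h1 : (2 + x + 2) * (2 + y + 2) ≤ 20 * (P + Q) := by nlinarith
  have h2 : 160 * (d + 1) * (P + Q) ≤ 2 * (P * Q) := by nlinarith
  have h3 : P * Q ≤ 4 * (m * Q) := by nlinarith
  have h4 : d * (2 + x + 2) * (2 + y + 2) ≤ d * (20 * (P + Q)) := by
    rw [mul_assoc]; exact Nat.mul_le_mul_left _ h1
  nlinarith

theorem exists_code (X : Type) [Finite X] (m Q : ℕ) (h : Nat.card X ≤ 2 ^ (m * Q)) :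
    ∃ E : X → ℕ → ℕ → Bool, ∀ x y, (∀ a < m, ∀ t < Q, E x a t = E y a t) → x = y := by
  classical
  haveI := Fintype.ofFinite X
  obtain ⟨e⟩ : Nonempty (X ↪ (Fin m → Fin Q → Bool)) := by
    apply Function.Embedding.nonempty_of_card_le
    rw [← Nat.card_eq_fintype_card]
    simpa [← pow_mul, mul_comm] using h
  refine ⟨fun x a t => if h : a < m ∧ t < Q then e x ⟨a, h.1⟩ ⟨t, h.2⟩ else false, fun x y H => ?_⟩
  apply e.injective
  funext a t
  simpa using H a a.2 t t.2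

/-- a locally decodable two-valued modular labelling -/
theorem exists_binary [Finite D] {T : ℕ → ℕ → D} (hT : Modular T) :
    ∃ (D' : Type) (_ : Finite D') (T' : ℕ → ℕ → D') (β : D' → Bool) (c : ℕ), Modular T' ∧ 1 ≤ c ∧
      ∀ i j i' j', (∀ a b, a + b ≤ c → β (T' (i + a) (j + b)) = β (T' (i' + a) (j' + b))) →
        ∀ a b, a + b ≤ c → T (i + a) (j + b) = T (i' + a) (j' + b) := by
  obtain ⟨p, q, hp, hq, hd⟩ := det_of_modular hT
  set d := Nat.card D
  have hd' := hd.pow (160 * (d + 1))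
  have hP := (lt_pow_of hp (le_refl (160 * (d + 1)))).le
  have hQ := (lt_pow_of hq (le_refl (160 * (d + 1)))).le
  generalize p ^ (160 * (d + 1)) = P at *
  generalize q ^ (160 * (d + 1)) = Q at *
  set c := 2 * P + 2 * Q with hc
  have hn1 : 1 ≤ c / P := by rw [Nat.le_div_iff_mul_le (by omega)]; omega
  have hn2 : 1 ≤ c / Q := by rw [Nat.le_div_iff_mul_le (by omega)]; omega
  obtain ⟨E, hE⟩ := exists_code (Fin (c / P + 2) → Fin (c / Q + 2) → D) ((P - 3) / 2) Q (by
    rw [Nat.card_fun, Nat.card_fun]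
    simp only [Nat.card_eq_fintype_card, Fintype.card_fin]
    rw [← pow_mul]
    calc _ ≤ (2 ^ d) ^ ((c / Q + 2) * (c / P + 2)) :=
          Nat.pow_le_pow_left (Nat.lt_two_pow_self).le _
      _ = 2 ^ (d * (c / P + 2) * (c / Q + 2)) := by rw [← pow_mul]; congr 1; ring
      _ ≤ _ := Nat.pow_le_pow_right (by norm_num) (capacity hP hQ))
  have hP0 : 0 < P := by omega
  have hQ0 : 0 < Q := by omega
  refine ⟨_, inferInstance, Up (W T (c / P + 2) (c / Q + 2)) P Q hP0 hQ0,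
    fun x => code P (E x.1.2.2) x.2.1 x.2.2, c,
    modular_of_det (by omega) (by omega) ((hd'.W (by omega) (by omega) (by omega) (by omega)).up _ _),
    by omega, fun i j i' j' H => ?_⟩
  simp only [Up] at H
  have li := Nat.mod_lt i hP0
  have lj := Nat.mod_lt j hQ0
  have li' := Nat.mod_lt i' hP0
  have lj' := Nat.mod_lt j' hQ0
  have cell : ∀ {P : ℕ} (hP0 : 0 < P) (i i' s : ℕ), i % P = i' % P → s < P →
      (i' + (P - i % P + s)) / P = i' / P + 1 ∧ (i' + (P - i % P + s)) % P = s := by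
    intro P hP0 i i' s e hs
    have := Nat.mod_lt i hP0
    obtain ⟨h1, h2⟩ := add_div_mod hP0 i' (P - i % P + s)
    have e2 : i' % P + (P - i % P + s) = s + P * 1 := by omega
    rw [h1, h2, e2, Nat.add_mul_div_left _ _ hP0, Nat.add_mul_mod_self_left,
      Nat.div_eq_of_lt hs, Nat.mod_eq_of_lt hs]
    exact ⟨rfl, rfl⟩
  have back : ∀ {P : ℕ} (hP0 : 0 < P) (i i' : ℕ), (i' + (P - i % P + 0)) % P = 0 →
      i % P = i' % P := by
    intro P hP0 i i' e
    have h1 := Nat.mod_lt i hP0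
    have h2 := Nat.mod_lt i' hP0
    rw [(add_div_mod hP0 _ _).2] at e
    obtain ⟨k, hk⟩ := Nat.dvd_of_mod_eq_zero e
    rcases k with _ | _ | k
    · omega
    · omega
    · have : P * (k + 1 + 1) = P * k + 2 * P := by ring
      omega
  have m1 := H (P - i % P + 0) (Q - j % Q + 0) (by omega)
  have m2 := H (P - i % P + 1) (Q - j % Q + 0) (by omega)
  rw [(cell hP0 i i 0 rfl hP0).2, (cell hQ0 j j 0 rfl hQ0).2] at m1
  rw [(cell hP0 i i 1 rfl (by omega)).2, (cell hQ0 j j 0 rfl hQ0).2, ← add_assoc i',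
    show P - i % P = P - i % P + 0 from rfl] at m2
  obtain ⟨r1, r2⟩ := code_marker (by omega) (m1.symm.trans (by simp [code]))
    (m2.symm.trans (by simp [code]))
  have ei := back hP0 i i' r1
  have ej := back hQ0 j j' r2
  have eW : (W T (c / P + 2) (c / Q + 2) (i / P + 1) (j / Q + 1)).2.2 =
      (W T (c / P + 2) (c / Q + 2) (i' / P + 1) (j' / Q + 1)).2.2 := by
    refine hE _ _ fun a ha t ht => ?_
    have hs : 2 * a + 3 < P := by omega
    have := H (P - i % P + (2 * a + 3)) (Q - j % Q + t) (by omega)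
    rw [(cell hP0 i i _ rfl hs).2, (cell hQ0 j j _ rfl ht).2, (cell hP0 i i _ rfl hs).1,
      (cell hQ0 j j _ rfl ht).1, (cell hP0 i i' _ ei hs).2, (cell hQ0 j j' _ ej ht).2,
      (cell hP0 i i' _ ei hs).1, (cell hQ0 j j' _ ej ht).1] at this
    have c1 : ¬ 2 * a + 3 ≤ 1 := by omega
    have c2 : (2 * a + 3) % 2 = 1 ∧ 2 * a + 3 + 1 < P := by omega
    have c3 : (2 * a + 3 - 3) / 2 = a := by omega
    simpa only [code, if_neg c1, if_pos c2, c3] using this
  intro a b hab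
  have bd : ∀ {P : ℕ} (hP0 : 0 < P) (r a : ℕ), r < P → a ≤ c → (r + a) / P < c / P + 2 := by
    intro P hP0 r a hr ha
    have : (r + a) / P ≤ (c + P * 1) / P := Nat.div_le_div_right (by omega)
    rw [Nat.add_mul_div_left _ _ hP0] at this
    omega
  refine hd' _ _ _ _ ?_ ?_ ?_
  · rw [(add_div_mod hP0 i a).1, (add_div_mod hP0 i' a).1, (add_div_mod hQ0 j b).1,
      (add_div_mod hQ0 j' b).1, ← ei, ← ej]
    have := congrFun (congrFun eW ⟨(i % P + a) / P, bd hP0 _ _ li (by omega)⟩)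
      ⟨(j % Q + b) / Q, bd hQ0 _ _ lj (by omega)⟩
    simpa only [W, Nat.add_right_comm _ 1, Nat.add_sub_cancel] using this
  · rw [(add_div_mod hP0 i a).2, (add_div_mod hP0 i' a).2, ei]
  · rw [(add_div_mod hQ0 j b).2, (add_div_mod hQ0 j' b).2, ej]

end Pool.Agent.H37.Trl
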