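import Pool.Agent.H37.Trl1

namespace Pool.Agent.H37.Trl

variable {S : Type}

abbrev Info (A : TA S) (c : ℕ) : Type :=
  Fin (c + 2) × (Fin (c + 1) → Fin (c + 1) → Option Bool × Option (Option S) × Option A.G)

/-- what a node of the simulating automaton knows -/
def Phi (A : TA S) (B : ℕ → ℕ → Bool) (c : ℕ) (w : List S) (h i j : ℕ) : Info A c :=
  (⟨min h (c + 1), by omega⟩, fun a b =>
    (if a.1 + b.1 ≤ c ∧ a.1 + b.1 ≤ h then some (B (i + a) (j + b)) else none,
     if a.1 + b.1 ≤ c ∧ a.1 + b.1 = h then some w[i + a]? else none,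
     if a.1 + b.1 = c ∧ c ≤ h then some (A.out w (h - c) (i + a) (j + b)) else none))

theorem phi_eq {A : TA S} {B : ℕ → ℕ → Bool} {c : ℕ} {w w' : List S} {h i j h' i' j' : ℕ} :
    Phi A B c w h i j = Phi A B c w' h' i' j' ↔ min h (c + 1) = min h' (c + 1) ∧
      (∀ a b, a + b ≤ c → a + b ≤ h → B (i + a) (j + b) = B (i' + a) (j' + b)) ∧
      (∀ a b, a + b ≤ c → a + b = h → w[i + a]? = w'[i' + a]?) ∧
      (∀ a b, a + b = c → c ≤ h →
        A.out w (h - c) (i + a) (j + b) = A.out w' (h' - c) (i' + a) (j' + b)) := by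
  simp only [Phi, Prod.mk.injEq, Fin.mk.injEq]
  refine and_congr_right fun e => ?_
  constructor
  · intro H
    have H' := fun a b (hab : a + b ≤ c) =>
      congrFun (congrFun H ⟨a, by omega⟩) ⟨b, by omega⟩
    simp only [Prod.mk.injEq] at H'
    refine ⟨fun a b h1 h2 => ?_, fun a b h1 h2 => ?_, fun a b h1 h2 => ?_⟩
    · have := (H' a b h1).1
      rw [if_pos ⟨h1, h2⟩, if_pos ⟨h1, by omega⟩] at this
      exact Option.some.inj this
    · have := (H' a b h1).2.1
      rw [if_pos ⟨h1, h2⟩, if_pos ⟨h1, by omega⟩] at this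
      exact Option.some.inj this
    · have := (H' a b h1.le).2.2
      rw [if_pos ⟨h1, h2⟩, if_pos ⟨h1, by omega⟩] at this
      exact Option.some.inj this
  · rintro ⟨H1, H2, H3⟩
    funext a b
    simp only [Prod.mk.injEq]
    refine ⟨?_, ?_, ?_⟩
    · by_cases hh : a.1 + b.1 ≤ c ∧ a.1 + b.1 ≤ h
      · rw [if_pos hh, if_pos ⟨hh.1, by omega⟩, H1 _ _ hh.1 hh.2]
      · rw [if_neg hh, if_neg (by omega)]
    · by_cases hh : a.1 + b.1 ≤ c ∧ a.1 + b.1 = h
      · rw [if_pos hh, if_pos ⟨hh.1, by omega⟩, H2 _ _ hh.1 hh.2]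
      · rw [if_neg hh, if_neg (by omega)]
    · by_cases hh : a.1 + b.1 = c ∧ c ≤ h
      · rw [if_pos hh, if_pos ⟨hh.1, by omega⟩, H3 _ _ hh.1 hh.2]
      · rw [if_neg hh, if_neg (by omega)]

theorem phi_base {A : TA S} {B : ℕ → ℕ → Bool} {c : ℕ} (hc : 1 ≤ c) {w w' : List S}
    {i j i' j' : ℕ} (h1 : B i j = B i' j') (h2 : w[i]? = w'[i']?) :
    Phi A B c w 0 i j = Phi A B c w' 0 i' j' := by
  refine phi_eq.2 ⟨rfl, fun a b _ h => ?_, fun a b _ h => ?_, fun a b _ h => by omega⟩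
  · obtain ⟨rfl, rfl⟩ : a = 0 ∧ b = 0 := by omega
    exact h1
  · obtain ⟨rfl, rfl⟩ : a = 0 ∧ b = 0 := by omega
    exact h2

theorem phi_step {A : TA S} {B : ℕ → ℕ → Bool} {c : ℕ}
    (hB : ∀ i j i' j', (∀ a b, a + b ≤ c → B (i + a) (j + b) = B (i' + a) (j' + b)) →
      ∀ a b, a + b ≤ c → A.T (i + a) (j + b) = A.T (i' + a) (j' + b))
    {w w' : List S} {h i j h' i' j' : ℕ} (h1 : B i j = B i' j')
    (hl : Phi A B c w h i (j + 1) = Phi A B c w' h' i' (j' + 1))
    (hr : Phi A B c w h (i + 1) j = Phi A B c w' h' (i' + 1) j') :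
    Phi A B c w (h + 1) i j = Phi A B c w' (h' + 1) i' j' := by
  obtain ⟨e, l1, l2, l3⟩ := phi_eq.1 hl
  obtain ⟨-, r1, r2, r3⟩ := phi_eq.1 hr
  have k1 : ∀ a b, a + b ≤ c → a + b ≤ h + 1 → B (i + a) (j + b) = B (i' + a) (j' + b) := by
    intro a b p1 p2
    rcases b with _ | b
    · rcases a with _ | a
      · exact h1
      · have := r1 a 0 (by omega) (by omega)
        rwa [add_assoc, add_assoc, add_comm 1 a] at this
    · have := l1 a b (by omega) (by omega)
      rwa [add_assoc, add_assoc, add_comm 1 b] at this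
  have k2 : ∀ a b, a + b ≤ c → a + b = h + 1 → w[i + a]? = w'[i' + a]? := by
    intro a b p1 p2
    rcases b with _ | b
    · rcases a with _ | a
      · omega
      · have := r2 a 0 (by omega) (by omega)
        rwa [add_assoc, add_assoc, add_comm 1 a] at this
    · exact l2 a b (by omega) (by omega)
  refine phi_eq.2 ⟨by omega, k1, k2, fun a b p1 p2 => ?_⟩
  have hT := hB i j i' j' (fun a b p => k1 a b p (by omega)) a b p1.le
  rcases p2.eq_or_lt with p3 | p3
  · have p4 : h' + 1 - c = 0 := by omega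
    have p5 : h + 1 - c = 0 := by omega
    rw [p4, p5, TA.out, TA.out, hT, k2 a b p1.le (by omega)]
  · have p4 : h' + 1 - c = h' - c + 1 := by omega
    have p5 : h + 1 - c = h - c + 1 := by omega
    have q1 := l3 a b p1 (by omega)
    have q2 := r3 a b p1 (by omega)
    rw [add_right_comm j, add_right_comm j'] at q1
    rw [add_right_comm i, add_right_comm i'] at q2
    rw [p4, p5, TA.out, TA.out, hT, q1, q2]

theorem out_up (A : TA S) {w w' : List S} {m m' c : ℕ}
    (H : ∀ a b, a + b = c → A.out w m a b = A.out w' m' a b) :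
    ∀ d a b, a + b + d = c → A.out w (m + d) a b = A.out w' (m' + d) a b := by
  intro d
  induction d with
  | zero => intro a b h; exact H a b h
  | succ d ih =>
    intro a b h
    rw [← add_assoc, ← add_assoc, TA.out, TA.out, ih a (b + 1) (by omega), ih (a + 1) b (by omega)]

theorem phi_apex {A : TA S} {B : ℕ → ℕ → Bool} {c : ℕ} {w w' : List S} {h h' : ℕ}
    (H : Phi A B c w h 0 0 = Phi A B c w' h' 0 0) : A.out w h 0 0 = A.out w' h' 0 0 := by
  obtain ⟨e, -, l2, l3⟩ := phi_eq.1 H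
  simp only [zero_add] at l2 l3
  by_cases hc : c ≤ h
  · have := out_up A (fun a b p => l3 a b p hc) c 0 0 (by omega)
    rwa [Nat.sub_add_cancel hc, Nat.sub_add_cancel (by omega)] at this
  · obtain rfl : h = h' := by omega
    have := out_up A (m := 0) (m' := 0) (w := w) (w' := w') (c := h) (fun a b p => by
      rw [TA.out, TA.out, l2 a b (by omega) p]) h 0 0 (by omega)
    rwa [zero_add] at this

open Classical in
noncomputable def gB (A : TA S) (B : ℕ → ℕ → Bool) (c : ℕ) (b : Bool)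
    (x y : Option (S ⊕ Info A c)) : S ⊕ Info A c :=
  if H : ∃ t : List S × ℕ × ℕ, B t.2.1 t.2.2 = b ∧ x = none ∧ y = t.1[t.2.1]?.map Sum.inl then
    Sum.inr (Phi A B c H.choose.1 0 H.choose.2.1 H.choose.2.2)
  else if H : ∃ t : List S × ℕ × ℕ × ℕ, B t.2.2.1 t.2.2.2 = b ∧
      x = some (Sum.inr (Phi A B c t.1 t.2.1 t.2.2.1 (t.2.2.2 + 1))) ∧
      y = some (Sum.inr (Phi A B c t.1 t.2.1 (t.2.2.1 + 1) t.2.2.2)) then
    Sum.inr (Phi A B c H.choose.1 (H.choose.2.1 + 1) H.choose.2.2.1 H.choose.2.2.2)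
  else Sum.inr (Phi A B c [] 0 0 0)

theorem two_types (A : TA S) (hA : Modular A.T) :
    ∃ B : TA S, Modular B.T ∧ B.lang = A.lang ∧ B.types ≤ 2 := by
  haveI := A.finD
  haveI := A.finG
  haveI : Finite S := Finite.of_injective _ A.ι.injective
  obtain ⟨D', fD, T', β, c, hM, hc, hB⟩ := exists_binary hA
  let Bl : ℕ → ℕ → Bool := fun i j => β (T' i j)
  let B : TA S :=
    { D := D', G := S ⊕ Info A c, finD := fD, finG := inferInstance,
      ι := ⟨Sum.inl, Sum.inl_injective⟩,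
      acc := {y | ∃ w h, y = Sum.inr (Phi A Bl c w h 0 0) ∧ A.out w h 0 0 ∈ A.acc},
      T := T', g := fun δ => gB A Bl c (β δ) }
  have key : ∀ w h i j, B.out w h i j = Sum.inr (Phi A Bl c w h i j) := by
    intro w h
    induction h with
    | zero =>
      intro i j
      show gB A Bl c (Bl i j) none (w[i]?.map Sum.inl) = _
      have H : ∃ t : List S × ℕ × ℕ, Bl t.2.1 t.2.2 = Bl i j ∧
          (none : Option (S ⊕ Info A c)) = none ∧
          (w[i]?.map Sum.inl : Option (S ⊕ Info A c)) = t.1[t.2.1]?.map Sum.inl :=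
        ⟨(w, i, j), rfl, rfl, rfl⟩
      rw [gB, dif_pos H]
      obtain ⟨h1, -, h2⟩ := H.choose_spec
      exact congrArg _ (phi_base hc h1 (Option.map_injective Sum.inl_injective h2).symm)
    | succ h ih =>
      intro i j
      show gB A Bl c (Bl i j) (some (B.out w h i (j + 1))) (some (B.out w h (i + 1) j)) = _
      rw [ih, ih]
      have H : ∃ t : List S × ℕ × ℕ × ℕ, Bl t.2.2.1 t.2.2.2 = Bl i j ∧
          some (Sum.inr (Phi A Bl c w h i (j + 1)) : S ⊕ Info A c) =
            some (Sum.inr (Phi A Bl c t.1 t.2.1 t.2.2.1 (t.2.2.2 + 1))) ∧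
          some (Sum.inr (Phi A Bl c w h (i + 1) j) : S ⊕ Info A c) =
            some (Sum.inr (Phi A Bl c t.1 t.2.1 (t.2.2.1 + 1) t.2.2.2)) :=
        ⟨(w, h, i, j), rfl, rfl, rfl⟩
      rw [gB, dif_neg (by simp), dif_pos H]
      obtain ⟨h1, h2, h3⟩ := H.choose_spec
      exact congrArg _ (phi_step hB h1 (Sum.inr_injective (Option.some.inj h2)).symm
        (Sum.inr_injective (Option.some.inj h3)).symm)
  refine ⟨B, hM, ?_, ?_⟩
  · ext w
    refine and_congr_right fun _ => ?_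
    rw [key]
    constructor
    · rintro ⟨w', h', e, hacc⟩
      rw [phi_apex (Sum.inr_injective e)]; exact hacc
    · intro hacc
      exact ⟨w, _, rfl, hacc⟩
  · have : Set.range B.g ⊆ {gB A Bl c true, gB A Bl c false} := by
      rintro _ ⟨δ, rfl⟩
      show gB A Bl c (β δ) ∈ _
      cases β δ <;> simp
    exact (Set.ncard_le_ncard this (Set.toFinite _)).trans ((Set.ncard_insert_le _ _).trans (by simp))

end Pool.Agent.H37.Trl
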