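import Mathlib

/-! Real-time trellis automata with a modular labelling. -/

namespace Pool.Agent.H37.Trl

/-- `blockM p q σ k δ i j` is the `(i,j)` entry (`i < p^k`, `j < q^k`) of the array `M^k_δ`.
Here `σ δ a b` (`a < p`, `b < q`) is the `(a,b)` entry of the `p × q` array `M^1_δ`; `M^0_δ` is the
`1 × 1` array `δ`, and the `(a,b)` block of `M^(k+1)_δ` is `M^k` of the label `σ δ a b`. -/
def blockM {D : Type} (p q : ℕ) (σ : D → ℕ → ℕ → D) : ℕ → D → ℕ → ℕ → D
  | 0, δ, _, _ => δ
  | k + 1, δ, i, j => blockM p q σ k (σ δ (i / p ^ k) (j / q ^ k)) (i % p ^ k) (j % q ^ k)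

/-- A labelling `T` is modular. -/
def Modular {D : Type} (T : ℕ → ℕ → D) : Prop :=
  ∃ (p q : ℕ) (σ : D → ℕ → ℕ → D) (δ0 : D), 2 ≤ p ∧ 2 ≤ q ∧ σ δ0 0 0 = δ0 ∧
    ∀ i j, ∃ K, ∀ k, K ≤ k → T i j = blockM p q σ k δ0 i j

/-- A real-time trellis automaton over the input alphabet `S`: labels `D`, working alphabet `G`
containing `S` (via `ι`), accepting symbols `acc`, labelling `T`, transition functions `g`
(`none` is the symbol `λ`). -/
structure TA (S : Type) where
  D : Type
  G : Type
  finD : Finite D
  finG : Finite G
  ι : S ↪ G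
  acc : Set G
  T : ℕ → ℕ → D
  g : D → Option G → Option G → G

namespace TA

variable {S : Type}

/-- `out A w h i j`: the output of node `(i,j)` when it lies `h` levels above the input level.
An input-level node `(i,j)` reads `λ` and the letter at (0-based) position `i`; any other node
reads the outputs of `(i,j+1)` (left) and `(i+1,j)` (right). -/
def out (A : TA S) (w : List S) : ℕ → ℕ → ℕ → A.G
  | 0, i, j => A.g (A.T i j) none (w[i]?.map A.ι)
  | h + 1, i, j => A.g (A.T i j) (some (out A w h i (j + 1))) (some (out A w h (i + 1) j))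

/-- The accepted language: nonempty words (input level `n - 1`) with accepting apex output. -/
def lang (A : TA S) : Set (List S) := {w | w ≠ [] ∧ A.out w (w.length - 1) 0 0 ∈ A.acc}

/-- The number of types of processors: distinct functions among the `g δ`. -/
noncomputable def types (A : TA S) : ℕ := (Set.range A.g).ncard

end TA

end Pool.Agent.H37.Trl
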