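import Pool.Agent.H37.NF

/-! A computably ordered family of hyperreal numbers attached to a bounded tree. -/

set_option autoImplicit false

namespace Pool.Agent.H37.Val

open Filter Hyperreal List

theorem sum_split {α M : Type} [AddCommMonoid M] (f : α → M) (p : α → Bool) (l : List α) :
    (l.map f).sum = ((l.filter p).map f).sum + ((l.filter fun a => !p a).map f).sum := by
  induction l with
  | nil => simp
  | cons a l ih => cases h : p a <;> simp [h, ih, add_assoc, add_left_comm]

theorem stab {α : Type} (e d : α → ℕ) (s : ℕ) (D : ℕ) : ∀ l1 l2 : List α,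
    (∀ b ∈ l1 ++ l2, d b < D) → (∀ b ∈ l1 ++ l2, ∀ c ∈ l1 ++ l2, d c < d b → e c + s ≤ e b) →
    l1.length ≤ s → l2.length ≤ s →
    ((l1.map fun b => 2 ^ (e b + d b)).sum ≤ (l2.map fun b => 2 ^ (e b + d b)).sum ↔
      (l1.map fun b => 2 ^ e b).sum ≤ (l2.map fun b => 2 ^ e b).sum) := by
  classical
  induction D with
  | zero =>
    intro l1 l2 h _ _ _
    cases l1 with
    | nil => simp
    | cons a _ => exact absurd (h a (by simp)) (by simp)
  | succ D ih =>
    intro l1 l2 h1 h2 h3 h4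
    have top : ∀ l : List α, ((l.filter fun b => decide (d b = D)).map fun b => 2 ^ (e b + d b)).sum =
        2 ^ D * ((l.filter fun b => decide (d b = D)).map fun b => 2 ^ e b).sum := fun l => by
      rw [← sum_map_mul_left]
      refine congrArg _ (map_congr_left fun b hb => ?_)
      rw [of_decide_eq_true (mem_filter.1 hb).2, pow_add, mul_comm]
    have sub : ∀ p : α → Bool, ∀ b ∈ l1.filter p ++ l2.filter p, b ∈ l1 ++ l2 ∧ p b = true := by
      intro p b hb
      simp only [mem_append, mem_filter] at hb ⊢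
      tauto
    have ih' := ih (l1.filter fun b => !decide (d b = D)) (l2.filter fun b => !decide (d b = D))
      (fun b hb => by
        have := h1 b (sub _ b hb).1
        have := (sub _ b hb).2
        simp at this; omega)
      (fun b hb c hc => h2 b (sub _ b hb).1 c (sub _ c hc).1)
      ((length_filter_le _ _).trans h3) ((length_filter_le _ _).trans h4)
    rw [sum_split _ (fun b => decide (d b = D)) l1, sum_split _ (fun b => decide (d b = D)) l2,
      sum_split (fun b => 2 ^ e b) (fun b => decide (d b = D)) l1,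
      sum_split (fun b => 2 ^ e b) (fun b => decide (d b = D)) l2, top, top]
    by_cases he : ((l1.filter fun b => decide (d b = D)).map fun b => 2 ^ e b).sum =
      ((l2.filter fun b => decide (d b = D)).map fun b => 2 ^ e b).sum
    · rw [he, Nat.add_le_add_iff_left, Nat.add_le_add_iff_left, ih']
    obtain ⟨m, m1, m2⟩ := (l1.filter (fun b => decide (d b = D)) ++
        l2.filter fun b => decide (d b = D)).toFinset.exists_min_image e
      (toFinset_nonempty_iff _ |>.2 fun h => he (by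
        rw [(append_eq_nil_iff.1 h).1, (append_eq_nil_iff.1 h).2]))
    obtain ⟨m3, m4⟩ := sub _ m (mem_toFinset.1 m1)
    have key : ∀ l : List α, l ⊆ l1 ++ l2 → l.length ≤ s →
        (∀ b ∈ l.filter fun b => decide (d b = D), e m ≤ e b) →
        (∃ a, ((l.filter fun b => decide (d b = D)).map fun b => 2 ^ e b).sum = 2 ^ e m * a) ∧
        ((l.filter fun b => !decide (d b = D)).map fun b => 2 ^ e b).sum < 2 ^ e m ∧
        ((l.filter fun b => !decide (d b = D)).map fun b => 2 ^ (e b + d b)).sum < 2 ^ D * 2 ^ e m := by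
      intro l a1 a2 a3
      have b1 : ((l.filter fun b => !decide (d b = D)).map fun b => 2 ^ e b).sum < 2 ^ e m := by
        refine lt_of_mul_lt_mul_left (a := 2 ^ s) ?_ (Nat.zero_le _)
        rw [← sum_map_mul_left]
        refine (sum_le_card_nsmul _ (2 ^ e m) fun x hx => ?_).trans_lt ?_
        · obtain ⟨b, hb, rfl⟩ := mem_map.1 hx
          rw [mem_filter] at hb
          have := h1 b (a1 hb.1)
          have := h2 m m3 b (a1 hb.1) (by simp at hb m4; omega)
          rw [← pow_add]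
          exact Nat.pow_le_pow_right (by norm_num) (by omega)
        · rw [length_map, smul_eq_mul]
          exact Nat.mul_lt_mul_of_pos_right
            (((length_filter_le _ _).trans a2).trans_lt Nat.lt_two_pow_self) (by positivity)
      refine ⟨dvd_sum fun x hx => ?_, b1, lt_of_le_of_lt ?_ (Nat.mul_lt_mul_of_pos_left b1 (by positivity))⟩
      · obtain ⟨b, hb, rfl⟩ := mem_map.1 hx
        exact pow_dvd_pow _ (a3 b hb)
      · rw [← sum_map_mul_left]
        refine sum_le_sum fun b hb => ?_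
        have := h1 b (a1 (mem_filter.1 hb).1)
        rw [← pow_add]
        exact Nat.pow_le_pow_right (by norm_num) (by omega)
    obtain ⟨⟨a1, p1⟩, p2, p3⟩ := key l1 (subset_append_left _ _) h3 fun b hb =>
      m2 b (mem_toFinset.2 (mem_append_left _ hb))
    obtain ⟨⟨a2, q1⟩, q2, q3⟩ := key l2 (subset_append_right _ _) h4 fun b hb =>
      m2 b (mem_toFinset.2 (mem_append_right _ hb))
    rw [p1, q1] at he ⊢
    rcases lt_trichotomy a1 a2 with h | h | h
    · have := Nat.mul_le_mul_left (2 ^ e m) (Nat.succ_le_of_lt h)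
      have := Nat.mul_le_mul_left (2 ^ D) this
      simp only [Nat.succ_eq_add_one, mul_add, mul_one] at *
      exact iff_of_true (by omega) (by omega)
    · exact absurd (by rw [h]) he
    · have := Nat.mul_le_mul_left (2 ^ e m) (Nat.succ_le_of_lt h)
      have := Nat.mul_le_mul_left (2 ^ D) this
      simp only [Nat.succ_eq_add_one, mul_add, mul_one] at *
      exact iff_of_false (by omega) (by omega)

abbrev Bd := ℕ × ℕ

section
variable (T : List ℕ → Bool) (g : List ℕ → ℕ)

def ch (τ : List ℕ) : List (List ℕ) := cond (T τ) ((range (g τ + 1)).map fun i => τ ++ [i]) [τ]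

def rf (l : List (List ℕ)) : List (List ℕ) := l.flatMap (ch T g)

def L (s : ℕ) : List (List ℕ) := (rf T g)^[s] [[]]

def wt (l : List (List ℕ)) : ℕ := (l.map length).sum

def pr (b : Bd) (t : ℕ) : List (List ℕ) := (rf T g)^[t - b.1] ((L T g b.1).take b.2)

def N (l : List Bd) (t : ℕ) : ℕ := (l.map fun b => 2 ^ wt (pr T g b t)).sum

def stg (l : List Bd) : ℕ := (l.map Prod.fst).sum + l.length

def leb (l1 l2 : List Bd) : Bool := decide (N T g l1 (stg (l1 ++ l2)) ≤ N T g l2 (stg (l1 ++ l2)))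

noncomputable def G (b : Bd) : ℝ* := ofSeq fun t => (2 ^ wt (pr T g b t) : ℕ)

noncomputable def S (l : List Bd) : ℝ* := (l.map (G T g)).sum

variable {T g}

theorem ci_rf (hT : CI ∅ T) (hg : CI ∅ g) : CI ∅ (rf T g) := by unfold rf ch; fun_prop

theorem ci_L (hT : CI ∅ T) (hg : CI ∅ g) : CI ∅ (L T g) := by
  have := ci_rf hT hg
  unfold L; fun_prop

theorem ci_leb (hT : CI ∅ T) (hg : CI ∅ g) : CI ∅ fun p : List Bd × List Bd => leb T g p.1 p.2 := by
  have := ci_rf hT hg
  have := ci_L hT hg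
  unfold leb N stg wt pr; fun_prop

theorem rf_app (a b : List (List ℕ)) : rf T g (a ++ b) = rf T g a ++ rf T g b := flatMap_append

theorem it_app (n : ℕ) (a b : List (List ℕ)) :
    (rf T g)^[n] (a ++ b) = (rf T g)^[n] a ++ (rf T g)^[n] b := by
  induction n generalizing a b with
  | zero => rfl
  | succ n ih => simp [rf_app, ih]

@[simp] theorem wt_app (a b : List (List ℕ)) : wt (a ++ b) = wt a + wt b := by simp [wt]

theorem wt_it (n : ℕ) (a : List (List ℕ)) : wt a ≤ wt ((rf T g)^[n] a) := by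
  induction n with
  | zero => rfl
  | succ n ih =>
    rw [Function.iterate_succ_apply']
    refine ih.trans ?_
    generalize (rf T g)^[n] a = l
    induction l with
    | nil => simp [wt]
    | cons τ l ih =>
      have : τ.length ≤ wt (ch T g τ) := by
        unfold ch; cases T τ
        · simp [wt]
        · simp [wt, range_succ_eq_map]; omega
      change wt ([τ] ++ l) ≤ wt (ch T g τ ++ rf T g l)
      rw [wt_app, wt_app]
      exact Nat.add_le_add (by simpa [wt] using this) ih

theorem it_dead (n : ℕ) {a : List (List ℕ)} (h : ∀ τ ∈ a, T τ = false) : (rf T g)^[n] a = a := by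
  refine Function.iterate_fixed ?_ n
  rw [rf, flatMap_congr (g := fun τ => [τ]) fun τ hτ => by simp [ch, h τ hτ]]
  simp

theorem L_len (s : ℕ) : ∀ τ ∈ L T g s, T τ = true → τ.length = s := by
  induction s with
  | zero => simp [L]
  | succ s ih =>
    intro τ h1 h2
    rw [L, Function.iterate_succ_apply'] at h1
    obtain ⟨σ, a, b⟩ := mem_flatMap.1 h1
    cases h : T σ
    · simp [ch, h] at b; simp [b, h] at h2
    · simp only [ch, h, cond_true, List.mem_map] at b
      obtain ⟨i, -, rfl⟩ := b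
      simp [ih σ a h]

theorem pr_add {b : Bd} {s : ℕ} (h : b.1 ≤ s) (n : ℕ) :
    pr T g b (s + n) = (rf T g)^[n] (pr T g b s) := by
  rw [pr, pr, ← Function.iterate_add_apply]; congr 1; omega

theorem pr_self (s k : ℕ) : pr T g (s, k) s = (L T g s).take k := by simp [pr]

theorem pr_pf {b : Bd} {s : ℕ} (h : b.1 ≤ s) : pr T g b s <+: L T g s := by
  obtain ⟨n, rfl⟩ := Nat.exists_eq_add_of_le h
  rw [pr_add le_rfl, pr_self, L, L, add_comm, Function.iterate_add_apply]
  conv_rhs => rw [← take_append_drop b.2 ((rf T g)^[b.1] [[]]), it_app]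
  exact prefix_append _ _

theorem N_stab (l1 l2 : List Bd) (t : ℕ) (h : stg (l1 ++ l2) ≤ t) :
    N T g l1 t ≤ N T g l2 t ↔ leb T g l1 l2 = true := by
  obtain ⟨n, rfl⟩ := Nat.exists_eq_add_of_le h
  set s := stg (l1 ++ l2) with hs
  have d : ∀ b ∈ l1 ++ l2, b.1 ≤ s := fun b hb =>
    (single_le_sum (by simp) _ (mem_map_of_mem hb)).trans (Nat.le_add_right _ _)
  have e : ∀ b ∈ l1 ++ l2, wt (pr T g b (s + n)) = wt (pr T g b s) +
      (wt (pr T g b (s + n)) - wt (pr T g b s)) := fun b hb => by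
    have := wt_it (T := T) (g := g) n (pr T g b s)
    rw [pr_add (d b hb)]; omega
  rw [leb, decide_eq_true_eq, N, N, map_congr_left fun b hb => by rw [e b (mem_append_left _ hb)],
    map_congr_left (l := l2) fun b hb => by rw [e b (mem_append_right _ hb)]]
  refine stab _ _ s (wt (L T g (s + n)) + 1) l1 l2 (fun b hb => ?_) (fun b hb c hc h => ?_)
    (by simp [hs, stg]; omega) (by simp [hs, stg]; omega)
  · obtain ⟨M, hM⟩ := pr_pf (T := T) (g := g) ((d b hb).trans (Nat.le_add_right s n))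
    rw [← hM, wt_app]; omega
  · rw [pr_add (d b hb), pr_add (d c hc)] at h
    rcases prefix_or_prefix_of_prefix (pr_pf (T := T) (g := g) (d b hb)) (pr_pf (d c hc)) with
      ⟨M, hM⟩ | ⟨M, hM⟩
    · have := wt_it (T := T) (g := g) n M
      have := wt_it (T := T) (g := g) n (pr T g b s)
      rw [← hM, it_app, wt_app, wt_app] at h
      omega
    · have := wt_it (T := T) (g := g) n (pr T g c s)
      rw [← hM, it_app, wt_app, wt_app] at h
      obtain ⟨τ, h1, h2⟩ : ∃ τ ∈ M, T τ = true := by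
        by_contra hn
        rw [it_dead n (a := M) (by simpa using hn)] at h
        omega
      have h3 := L_len s τ ((pr_pf (d b hb)).subset (hM ▸ mem_append_right _ h1)) h2
      have h4 : τ.length ≤ wt M := single_le_sum (by simp) _ (mem_map_of_mem h1)
      rw [← hM, wt_app]; omega

theorem ev_iff {p : ℕ → Prop} {q : Prop} (h : ∀ᶠ t in atTop, p t ↔ q) :
    (∀ᶠ t in hyperfilter ℕ, p t) ↔ q := by
  have h := h.filter_mono Nat.hyperfilter_le_atTop
  exact ⟨fun a => let ⟨_, b, c⟩ := (a.and h).exists; c.1 b, fun a => h.mono fun _ b => b.2 a⟩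

theorem S_eq (l : List Bd) : S T g l = ofSeq fun t => (N T g l t : ℝ) := by
  induction l with
  | nil => simp only [S, N, map_nil, sum_nil, Nat.cast_zero]; rfl
  | cons b l ih =>
    simp only [S, N, map_cons, sum_cons, Nat.cast_add] at ih ⊢
    rw [ih]; rfl

theorem S_le (l1 l2 : List Bd) : S T g l1 ≤ S T g l2 ↔ leb T g l1 l2 = true := by
  rw [S_eq, S_eq, ofSeq_le_ofSeq]
  exact ev_iff ((eventually_ge_atTop _).mono fun t ht => by rw [Nat.cast_le, N_stab l1 l2 t ht])

@[simp] theorem S_nil : S T g [] = 0 := rfl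
@[simp] theorem S_app (a b : List Bd) : S T g (a ++ b) = S T g a + S T g b := by simp [S]
@[simp] theorem S_rep (n : ℕ) (b : Bd) : S T g (replicate n b) = n * G T g b := by simp [S]
@[simp] theorem S_one (b : Bd) : S T g [b] = G T g b := by simp [S]

theorem mul_G (k : ℕ) (b : Bd) :
    2 ^ k * G T g b = ofSeq fun t => (2 ^ (wt (pr T g b t) + k) : ℕ) := by
  induction k with
  | zero => rw [pow_zero, one_mul]; rfl
  | succ k ih =>
    rw [pow_succ', mul_assoc, ih, two_mul]
    simp only [← add_assoc, pow_succ, mul_two, Nat.cast_add]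
    rfl

theorem G_le {b c : Bd} {s k : ℕ} (h1 : b.1 ≤ s) (h2 : c.1 ≤ s) {M : List (List ℕ)}
    (h : pr T g b s ++ M = pr T g c s) (hk : k ≤ wt M) : 2 ^ k * G T g b ≤ G T g c := by
  rw [mul_G, G, ofSeq_le_ofSeq]
  refine ((eventually_ge_atTop s).mono fun t ht => ?_).filter_mono Nat.hyperfilter_le_atTop
  obtain ⟨n, rfl⟩ := Nat.exists_eq_add_of_le ht
  have := wt_it (T := T) (g := g) n M
  rw [pr_add h1, pr_add h2, ← h, it_app, wt_app, Nat.cast_le]
  exact Nat.pow_le_pow_right (by norm_num) (by omega)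

theorem G_mono {b c : Bd} {s : ℕ} (h1 : b.1 ≤ s) (h2 : c.1 ≤ s) (h : pr T g b s <+: pr T g c s) :
    G T g b ≤ G T g c := by
  obtain ⟨M, h⟩ := h
  simpa using G_le h1 h2 h (Nat.zero_le _)

theorem G_eq {b c : Bd} {s : ℕ} (h1 : b.1 ≤ s) (h2 : c.1 ≤ s) {M : List (List ℕ)}
    (h : pr T g b s ++ M = pr T g c s) (hM : ∀ n, wt ((rf T g)^[n] M) = wt M) :
    G T g c = 2 ^ wt M * G T g b := by
  rw [mul_G, G]
  refine le_antisymm (ofSeq_le_ofSeq.2 ?_) (ofSeq_le_ofSeq.2 ?_) <;>
  refine ((eventually_ge_atTop s).mono fun t ht => ?_).filter_mono Nat.hyperfilter_le_atTop <;>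
  obtain ⟨n, rfl⟩ := Nat.exists_eq_add_of_le ht <;>
  rw [pr_add h1, pr_add h2, ← h, it_app, wt_app, hM]

theorem G_zero : G T g (0, 0) = 1 := by
  have : ∀ t, pr T g (0, 0) t = [] := fun t => it_dead _ (by simp)
  simp only [G, this, wt, map_nil, sum_nil, pow_zero, Nat.cast_one]; rfl

theorem G_ge (b : Bd) : 1 ≤ G T g b := by
  rw [← G_zero (T := T) (g := g)]
  exact G_mono (s := b.1) (Nat.zero_le _) le_rfl (by rw [pr, take_zero, it_dead _ (by simp)]; simp)

theorem G_top (b : Bd) : G T g b ≤ G T g (0, 1) :=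
  G_mono (s := b.1) le_rfl (Nat.zero_le _) (pr_pf le_rfl)

/-- infinitely smaller -/
def Ll (x y : ℝ*) : Prop := ∀ n : ℕ, n * x < y

theorem Ll.of_pow {x y : ℝ*} (hx : 0 < x) (h : ∀ k : ℕ, 2 ^ k * x ≤ y) : Ll x y := fun n =>
  lt_of_lt_of_le (mul_lt_mul_of_pos_right (by exact_mod_cast Nat.lt_two_pow_self) hx) (h n)

theorem G_pos (b : Bd) : 0 < G T g b := one_pos.trans_le (G_ge b)

theorem dich {b c : Bd} {s : ℕ} (h1 : b.1 ≤ s) (h2 : c.1 ≤ s) (h : pr T g b s <+: pr T g c s) :
    (∃ k : ℕ, G T g c = 2 ^ k * G T g b) ∨ Ll (G T g b) (G T g c) := by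
  obtain ⟨M, h⟩ := h
  have e : ∀ n, pr T g b (s + n) ++ (rf T g)^[n] M = pr T g c (s + n) := fun n => by
    rw [pr_add h1, pr_add h2, ← h, it_app]
  by_cases hb : ∀ k, ∃ n, k ≤ wt ((rf T g)^[n] M)
  · refine Or.inr (Ll.of_pow (G_pos b) fun k => ?_)
    obtain ⟨n, hn⟩ := hb k
    exact G_le (h1.trans (Nat.le_add_right s n)) (h2.trans (Nat.le_add_right s n)) (e n) hn
  · push Not at hb
    obtain ⟨k, hk⟩ := hb
    obtain ⟨n, -, hn⟩ := Set.Finite.exists_maximalFor' (fun n => wt ((rf T g)^[n] M)) Set.univ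
      ((Set.finite_lt_nat k).subset (by rintro _ ⟨n, -, rfl⟩; exact hk n)) Set.univ_nonempty
    refine Or.inl ⟨_, G_eq (h1.trans (Nat.le_add_right s n)) (h2.trans (Nat.le_add_right s n)) (e n)
      fun m => le_antisymm ?_ (wt_it _ _)⟩
    have := wt_it (T := T) (g := g) m ((rf T g)^[n] M)
    rw [← Function.iterate_add_apply] at this ⊢
    exact hn trivial this

theorem Ll.mul {x y : ℝ*} {k : ℕ} (h : Ll x (2 ^ k * y)) : Ll x y := fun n => by
  have := h (2 ^ k * n)
  push_cast at this
  rw [mul_assoc] at this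
  exact lt_of_mul_lt_mul_left this (by positivity)

open Classical in
theorem block (b0 : Bd) (l : List Bd) (h : ∀ b ∈ l, G T g b ≤ G T g b0) :
    ∃ (b1 : Bd) (k : ℕ), G T g b0 = 2 ^ k * G T g b1 ∧ ∀ l' ⊆ l, ∃ z : ℕ,
      S T g l' = z * G T g b1 + S T g (l'.filter fun b => decide (Ll (G T g b) (G T g b0))) ∧
      Ll (S T g (l'.filter fun b => decide (Ll (G T g b) (G T g b0)))) (G T g b1) := by
  obtain ⟨b1, k, h1, h2⟩ : ∃ (b1 : Bd) (k : ℕ), G T g b0 = 2 ^ k * G T g b1 ∧
      ∀ b ∈ l, ¬ Ll (G T g b) (G T g b0) → ∃ j : ℕ, G T g b = 2 ^ j * G T g b1 := by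
    induction l with
    | nil => exact ⟨b0, 0, by simp, by simp⟩
    | cons b l ih =>
      obtain ⟨b1, k, h1, h2⟩ := ih fun c hc => h c (mem_cons_of_mem _ hc)
      have a1 := le_max_left b.1 b1.1
      have a2 := le_max_right b.1 b1.1
      rcases prefix_or_prefix_of_prefix (pr_pf (T := T) (g := g) a1) (pr_pf a2) with c | c
      · rcases dich a1 a2 c with ⟨j, d⟩ | d
        · refine ⟨b, k + j, by rw [h1, d]; ring, forall_mem_cons.2 ⟨fun _ => ⟨0, by simp⟩,
            fun c hc hn => ?_⟩⟩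
          obtain ⟨i, hi⟩ := h2 c hc hn
          exact ⟨i + j, by rw [hi, d]; ring⟩
        · refine ⟨b1, k, h1, forall_mem_cons.2 ⟨fun hn => absurd (fun n => (d n).trans_le ?_) hn, h2⟩⟩
          rw [h1]
          exact le_mul_of_one_le_left (G_pos _).le (one_le_pow₀ (by norm_num))
      · rcases dich a2 a1 c with d | d
        · exact ⟨b1, k, h1, forall_mem_cons.2 ⟨fun _ => d, h2⟩⟩
        · have := (d (2 ^ k)).trans_le (h b mem_cons_self)
          push_cast at this
          exact absurd h1 this.ne'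
  refine ⟨b1, k, h1, fun l' hl => ?_⟩
  induction l' with
  | nil => exact ⟨0, by simp, fun n => by simpa using G_pos b1⟩
  | cons b l' ih =>
    obtain ⟨z, a1, a2⟩ := ih fun c hc => hl (mem_cons_of_mem _ hc)
    have e : ∀ l, S T g (b :: l) = G T g b + S T g l := fun l => by simp [S]
    by_cases c : Ll (G T g b) (G T g b0)
    · rw [filter_cons_of_pos (by simpa using c), e, e]
      refine ⟨z, by rw [a1]; ring, fun n => ?_⟩
      have := a2 (2 * n)
      have := (h1 ▸ c).mul (2 * n)
      push_cast at *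
      linarith
    · obtain ⟨j, hj⟩ := h2 b (hl mem_cons_self) c
      rw [filter_cons_of_neg (by simpa using c), e]
      exact ⟨2 ^ j + z, by rw [a1, hj]; push_cast; ring, a2⟩

theorem S_nonneg (l : List Bd) : 0 ≤ S T g l :=
  sum_nonneg fun x hx => by obtain ⟨b, -, rfl⟩ := mem_map.1 hx; exact (G_pos b).le

theorem arch (l1 l2 : List Bd) : S T g l1 - S T g l2 ≤ 0 ∨ ∃ (b : Bd) (n : ℕ),
    G T g b ≤ n * (S T g l1 - S T g l2) ∧ S T g l1 - S T g l2 ≤ n * G T g b := by
  classical
  induction hn : (l1 ++ l2).length using Nat.strong_induction_on generalizing l1 l2 with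
  | _ n ih =>
  by_cases he : l1 ++ l2 = []
  · simp [(append_eq_nil_iff.1 he).1, (append_eq_nil_iff.1 he).2]
  obtain ⟨b0, m1, m2⟩ := (l1 ++ l2).toFinset.exists_max_image (G T g)
    (toFinset_nonempty_iff _ |>.2 he)
  obtain ⟨b1, k, -, h⟩ := block b0 (l1 ++ l2) fun b hb => m2 b (mem_toFinset.2 hb)
  obtain ⟨z1, p1, p2⟩ := h l1 (subset_append_left _ _)
  obtain ⟨z2, q1, q2⟩ := h l2 (subset_append_right _ _)
  have := S_nonneg (T := T) (g := g) (l1.filter fun b => decide (Ll (G T g b) (G T g b0)))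
  have := S_nonneg (T := T) (g := g) (l2.filter fun b => decide (Ll (G T g b) (G T g b0)))
  have := G_pos (T := T) (g := g) b1
  rcases lt_trichotomy z1 z2 with c | rfl | c
  · have c : (z1 : ℝ*) + 1 ≤ z2 := by exact_mod_cast c
    have := p2 1
    left; rw [p1, q1]; push_cast at *; nlinarith
  · rw [p1, q1, add_sub_add_left_eq_sub]
    refine ih _ ?_ _ _ rfl
    rw [← filter_append, ← hn]
    exact length_filter_lt_length_iff_exists.2 ⟨b0, mem_toFinset.1 m1, by
      simpa using fun h : Ll _ _ => by simpa using h 1⟩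
  · have c : (z2 : ℝ*) + 1 ≤ z1 := by exact_mod_cast c
    have := p2 1
    have := q2 2
    have : (0 : ℝ*) ≤ z2 := by positivity
    refine Or.inr ⟨b1, z1 + 2, ?_, ?_⟩ <;> rw [p1, q1] <;> push_cast at *
    · have h1 : G T g b1 ≤ 2 * (z1 * G T g b1 + S T g (l1.filter fun b => decide (Ll (G T g b) (G T g b0))) -
        (z2 * G T g b1 + S T g (l2.filter fun b => decide (Ll (G T g b) (G T g b0))))) := by nlinarith
      nlinarith
    · nlinarith

theorem third (h0 : Ll 1 (G T g (0, 1))) (l1 l2 : List Bd)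
    (h : G T g (0, 1) < 3 * (S T g l1 - S T g l2)) (n : ℕ) :
    G T g (0, 1) < 3 * (S T g l1 - S T g l2 - n) := by
  classical
  obtain ⟨b1, k, e, h'⟩ := block (0, 1) (l1 ++ l2) fun b _ => G_top (T := T) (g := g) b
  obtain ⟨z1, p1, p2⟩ := h' l1 (subset_append_left _ _)
  obtain ⟨z2, q1, q2⟩ := h' l2 (subset_append_right _ _)
  have := S_nonneg (T := T) (g := g) (l1.filter fun b => decide (Ll (G T g b) (G T g (0, 1))))
  have := S_nonneg (T := T) (g := g) (l2.filter fun b => decide (Ll (G T g b) (G T g (0, 1))))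
  have := G_pos (T := T) (g := g) b1
  have := (e ▸ h0).mul (6 * n)
  have := p2 3
  have := q2 6
  rw [p1, q1] at h ⊢
  generalize S T g (l1.filter fun b => decide (Ll (G T g b) (G T g (0, 1)))) = r1 at *
  generalize S T g (l2.filter fun b => decide (Ll (G T g b) (G T g (0, 1)))) = r2 at *
  rw [e] at h ⊢
  rcases lt_trichotomy (3 * z1) (3 * z2 + 2 ^ k) with c | c | c
  · have c : 3 * (z1 : ℝ*) + 1 ≤ 3 * z2 + 2 ^ k := by exact_mod_cast c
    push_cast at *; nlinarith
  · have : 3 ∣ 2 ^ k := (Nat.dvd_add_right (Dvd.intro _ rfl)).1 (c ▸ Dvd.intro _ rfl)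
    exact absurd (Nat.prime_three.dvd_of_dvd_pow this) (by norm_num)
  · have c : 3 * (z2 : ℝ*) + 2 ^ k + 1 ≤ 3 * z1 := by exact_mod_cast c
    push_cast at *; nlinarith

end

end Pool.Agent.H37.Val
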