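import Pool.Agent.H37.Val1
import Pool.Agent.H37.CRing

set_option autoImplicit false

namespace Pool.Agent.H37.Val

open Hyperreal List HahnSeries

abbrev K := HahnSeries ℝ* (ZMod 2)
abbrev Gc := List Bd × List Bd
abbrev Fc := List Gc × List Gc

def ad (a b : Gc) : Gc := (a.1 ++ b.1, a.2 ++ b.2)
def ml (f h : List Gc) : List Gc := f.flatMap fun a => h.map (ad a)

section
variable (T : List ℕ → Bool) (g : List ℕ → ℕ)

noncomputable def val (a : Gc) : ℝ* := S T g a.1 - S T g a.2
def le (a b : Gc) : Bool := leb T g (a.1 ++ b.2) (b.1 ++ a.2)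
noncomputable def P (f : List Gc) : K := (f.map fun a => single (val T g a) 1).sum
def od (f : List Gc) (a : Gc) : Bool := (f.countP fun b => le T g a b && le T g b a).bodd
def lead (f : List Gc) : Option Gc :=
  f.find? fun a => od T g f a && f.all fun b => !od T g f b || le T g a b
def den (f : List Gc) : List Gc := cond (lead T g f).isSome f [([], [])]
noncomputable def X (c : Fc) : K := P T g c.1 / P T g (den T g c.2)
def vc (c : Fc) : Option Gc :=
  (lead T g c.1).map fun a => ad a ((lead T g (den T g c.2)).getD ([], [])).swap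
def nf (c : Fc × ℕ) : Fc × ℕ :=
  cond ((vc T g c.1).elim true fun a => le T g ([], replicate c.2 (0, 0)) a) c (([], []), 0)
def fa (c d : Fc) : Fc := (ml c.1 (den T g d.2) ++ ml d.1 (den T g c.2), ml (den T g c.2) (den T g d.2))
def fm (c d : Fc) : Fc := (ml c.1 d.1, ml (den T g c.2) (den T g d.2))
def ca (p : (Fc × ℕ) × Fc × ℕ) : Fc × ℕ :=
  (fa T g (nf T g p.1).1 (nf T g p.2).1, (nf T g p.1).2 + (nf T g p.2).2)
def cm (p : (Fc × ℕ) × Fc × ℕ) : Fc × ℕ :=
  (fm T g (nf T g p.1).1 (nf T g p.2).1, (nf T g p.1).2 + (nf T g p.2).2)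
def ce (p : (Fc × ℕ) × Fc × ℕ) : Bool :=
  (vc T g (ca T g p).1).elim true fun a => !le T g (ad a (ad a a)) ([(0, 1)], [])

variable {T g}

theorem ci_all (hT : CI ∅ T) (hg : CI ∅ g) : (CI ∅ fun p : Gc × Gc => le T g p.1 p.2) ∧
    CI ∅ (vc T g) ∧ CI ∅ (nf T g) ∧ CI ∅ (ca T g) ∧ CI ∅ (cm T g) ∧ CI ∅ (ce T g) := by
  obtain ⟨A, hA, eA⟩ : ∃ A : List Bd × List Bd → Bool, CI ∅ A ∧ ∀ a b, leb T g a b = A (a, b) :=
    ⟨_, ci_leb hT hg, fun _ _ => rfl⟩
  have h1 : CI ∅ fun p : Gc × Gc => le T g p.1 p.2 := by unfold le; simp only [eA]; fun_prop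
  obtain ⟨B, hB, eB⟩ : ∃ A : Gc × Gc → Bool, CI ∅ A ∧ ∀ a b, le T g a b = A (a, b) :=
    ⟨_, h1, fun _ _ => rfl⟩
  have h2 : CI ∅ (lead T g) := by unfold lead od; simp only [eB]; fun_prop
  have h3 : CI ∅ (den T g) := by unfold den; fun_prop
  have h4 : CI ∅ (vc T g) := by unfold vc ad Prod.swap; fun_prop
  have h5 : CI ∅ (nf T g) := by unfold nf; simp only [eB]; fun_prop
  have h6 : CI ∅ (ca T g) := by unfold ca fa ml ad; fun_prop
  refine ⟨h1, h4, h5, h6, by unfold cm fm ml ad; fun_prop, ?_⟩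
  unfold ce ad
  generalize ca T g = c at h6
  simp only [eB]; fun_prop

@[simp] theorem val_ad (a b : Gc) : val T g (ad a b) = val T g a + val T g b := by
  simp [val, ad]; ring

@[simp] theorem val_swap (a : Gc) : val T g a.swap = - val T g a := by simp [val]

theorem le_iff (a b : Gc) : le T g a b = true ↔ val T g a ≤ val T g b := by
  rw [le, ← S_le, S_app, S_app, val, val]; constructor <;> intro h <;> linarith

theorem P_app (f h : List Gc) : P T g (f ++ h) = P T g f + P T g h := by simp [P]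

theorem P_ml (f h : List Gc) : P T g (ml f h) = P T g f * P T g h := by
  induction f with
  | nil => simp [P, ml]
  | cons a f ih =>
    have : P T g (h.map (ad a)) = single (val T g a) 1 * P T g h := by
      simp [P, ← sum_map_mul_left, single_mul_single, Function.comp_def]
    rw [ml, flatMap_cons, P_app, this, ← ml, ih, ← add_mul]
    simp [P]

theorem od_iff (f : List Gc) (a : Gc) : od T g f a = true ↔ (P T g f).coeff (val T g a) ≠ 0 := by
  have : (P T g f).coeff (val T g a) = ((f.countP fun b => le T g a b && le T g b a : ℕ) : ZMod 2) := by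
    induction f with
    | nil => simp [P]
    | cons b f ih =>
      simp only [P, map_cons, sum_cons, coeff_add, countP_cons, Bool.and_eq_true, le_iff,
        ← le_antisymm_iff, Nat.cast_add] at ih ⊢
      rw [ih, add_comm]
      by_cases h : val T g a = val T g b <;> simp [h]
  rw [this, od, ne_eq, ZMod.natCast_eq_zero_iff_even, Nat.not_even_iff_odd, Nat.odd_iff,
    Nat.mod_two_of_bodd]
  cases Nat.bodd _ <;> simp

theorem ex_ord {f : List Gc} (h : P T g f ≠ 0) : ∃ a ∈ f, val T g a = (P T g f).order := by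
  by_contra hn
  push Not at hn
  refine h (coeff_order_eq_zero.1 ?_)
  generalize (P T g f).order = γ at hn
  clear h
  induction f with
  | nil => simp [P]
  | cons b f ih =>
    have := ih fun a ha => hn a (mem_cons_of_mem _ ha)
    simp only [P, map_cons, sum_cons, coeff_add] at this ⊢
    rw [this, coeff_single_of_ne (hn b mem_cons_self).symm, add_zero]

theorem lead_none {f : List Gc} (h : lead T g f = none) : P T g f = 0 := by
  by_contra hn
  obtain ⟨a, h1, h2⟩ := ex_ord hn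
  refine find?_eq_none.1 h a h1 ?_
  simp only [Bool.and_eq_true, all_eq_true, Bool.or_eq_true, Bool.not_eq_true', le_iff,
    ← Bool.not_eq_true, od_iff, h2]
  exact ⟨mt coeff_order_eq_zero.1 hn, fun b _ => or_iff_not_imp_left.2 fun h =>
    order_le_of_coeff_ne_zero (not_not.1 h)⟩

theorem lead_some {f : List Gc} {a : Gc} (h : lead T g f = some a) :
    P T g f ≠ 0 ∧ (P T g f).order = val T g a := by
  have := find?_some h
  simp only [Bool.and_eq_true, all_eq_true, Bool.or_eq_true, Bool.not_eq_true', le_iff,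
    ← Bool.not_eq_true, od_iff] at this
  have h0 := ne_zero_of_coeff_ne_zero this.1
  obtain ⟨b, h1, h2⟩ := ex_ord h0
  exact ⟨h0, le_antisymm (order_le_of_coeff_ne_zero this.1) (h2 ▸ (this.2 b h1).resolve_left
    (not_not.2 (h2 ▸ mt coeff_order_eq_zero.1 h0)))⟩

theorem P_one : P T g [([], [])] = 1 := by simp [P, val]

theorem den_ne (f : List Gc) : P T g (den T g f) ≠ 0 := by
  unfold den
  cases h : lead T g f with
  | none => simp [P_one]
  | some a => exact (lead_some h).1

theorem den_of {f : List Gc} (h : P T g f ≠ 0) : den T g f = f := by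
  unfold den
  cases h' : lead T g f with
  | none => exact absurd (lead_none h') h
  | some a => rfl

theorem ord_div {x y : K} (hx : x ≠ 0) (hy : y ≠ 0) : (x / y).order = x.order - y.order := by
  have := order_mul (div_ne_zero hx hy) hy
  rw [div_mul_cancel₀ _ hy] at this
  rw [this]; ring

theorem vc_none {c : Fc} (h : vc T g c = none) : X T g c = 0 := by
  rw [X, lead_none (Option.map_eq_none_iff.1 h), zero_div]

theorem vc_some {c : Fc} {a : Gc} (h : vc T g c = some a) :
    X T g c ≠ 0 ∧ (X T g c).order = val T g a := by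
  obtain ⟨b, h1, rfl⟩ := Option.map_eq_some_iff.1 h
  obtain ⟨h2, h3⟩ := lead_some h1
  refine ⟨div_ne_zero h2 (den_ne _), ?_⟩
  cases h' : lead T g (den T g c.2) with
  | none => exact absurd (lead_none h') (den_ne _)
  | some d => simp [X, ord_div h2 (den_ne _), h3, (lead_some h').2, sub_eq_add_neg]

theorem vc_iff {q : Gc → Bool} {Q : ℝ* → Prop} (h : ∀ a, q a = true ↔ Q (val T g a)) (c : Fc) :
    (vc T g c).elim true q = true ↔ (X T g c ≠ 0 → Q (X T g c).order) := by
  cases h' : vc T g c with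
  | none => simp [vc_none h']
  | some a => simp [(vc_some h').1, (vc_some h').2, h]

theorem ord_X {c : Fc} (h : X T g c ≠ 0) : ∃ a, (X T g c).order = val T g a := by
  cases h' : vc T g c with
  | none => exact absurd (vc_none h') h
  | some a => exact ⟨a, (vc_some h').2⟩

theorem X_fa (c d : Fc) : X T g (fa T g c d) = X T g c + X T g d := by
  have : P T g (ml (den T g c.2) (den T g d.2)) ≠ 0 := by
    rw [P_ml]; exact mul_ne_zero (den_ne _) (den_ne _)
  simp only [X, fa, den_of this, P_app, P_ml]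
  rw [div_add_div _ _ (den_ne _) (den_ne _), mul_comm (P T g d.1)]

theorem X_fm (c d : Fc) : X T g (fm T g c d) = X T g c * X T g d := by
  have : P T g (ml (den T g c.2) (den T g d.2)) ≠ 0 := by
    rw [P_ml]; exact mul_ne_zero (den_ne _) (den_ne _)
  simp only [X, fm, den_of this, P_ml]
  rw [div_mul_div_comm]

theorem X_one (a : Gc) : X T g ([a], []) = single (val T g a) 1 := by
  have : den T g [] = [([], [])] := rfl
  simp only [X, this, P_one, div_one]; simp [P]

theorem neg_K (x : K) : -x = x := by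
  ext γ; simp [CharTwo.neg_eq]

/-- order at least `-n` -/
def Ge (x : K) (n : ℕ) : Prop := x ≠ 0 → -(n : ℝ*) ≤ x.order

theorem add_up {Q : ℝ* → Prop} (hQ : ∀ a b, a ≤ b → Q a → Q b) {x y : K}
    (hx : x ≠ 0 → Q x.order) (hy : y ≠ 0 → Q y.order) (h : x + y ≠ 0) : Q (x + y).order := by
  by_cases a : x = 0
  · simp only [a, zero_add] at h ⊢; exact hy h
  by_cases b : y = 0
  · simp only [b, add_zero] at h ⊢; exact hx h
  rcases min_le_iff.1 (min_order_le_order_add h) with c | c
  exacts [hQ _ _ c (hx a), hQ _ _ c (hy b)]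

theorem Ge.add {x y : K} {n m : ℕ} (hx : Ge x n) (hy : Ge y m) : Ge (x + y) (n + m) :=
  add_up (Q := fun a => -((n + m : ℕ) : ℝ*) ≤ a) (fun _ _ a b => b.trans a)
    (fun h => le_trans (by simp) (hx h)) fun h => le_trans (by simp) (hy h)

theorem Ge.mul {x y : K} {n m : ℕ} (hx : Ge x n) (hy : Ge y m) : Ge (x * y) (n + m) := fun h => by
  have a := hx (left_ne_zero_of_mul h)
  have b := hy (right_ne_zero_of_mul h)
  rw [order_mul (left_ne_zero_of_mul h) (right_ne_zero_of_mul h)]
  push_cast; linarith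

variable (T g) in
/-- the valuation ring -/
def A : Subring K where
  carrier := {x | (∃ c, X T g c = x) ∧ ∃ n, Ge x n}
  mul_mem' := by
    rintro _ _ ⟨⟨c, rfl⟩, n, h⟩ ⟨⟨d, rfl⟩, m, h'⟩
    exact ⟨⟨_, X_fm c d⟩, _, h.mul h'⟩
  add_mem' := by
    rintro _ _ ⟨⟨c, rfl⟩, n, h⟩ ⟨⟨d, rfl⟩, m, h'⟩
    exact ⟨⟨_, X_fa c d⟩, _, h.add h'⟩
  one_mem' := ⟨⟨_, (X_one ([], [])).trans (by simp [val])⟩, 0, by simp [Ge]⟩
  zero_mem' := ⟨⟨([], []), by simp [X, P]⟩, 0, by simp [Ge]⟩
  neg_mem' := fun h => by rwa [neg_K]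

theorem nf_iff (c : Fc × ℕ) : ((vc T g c.1).elim true fun a =>
    le T g ([], replicate c.2 (0, 0)) a) = true ↔ Ge (X T g c.1) c.2 :=
  vc_iff (Q := fun γ => -(c.2 : ℝ*) ≤ γ) (fun a => by simp [le_iff, val, G_zero]) c.1

theorem nf_of {c : Fc × ℕ} (h : Ge (X T g c.1) c.2) : nf T g c = c := by
  rw [nf, (nf_iff c).2 h]; rfl

theorem nf_ge (c : Fc × ℕ) : Ge (X T g (nf T g c).1) (nf T g c).2 := by
  by_cases h : Ge (X T g c.1) c.2
  · rwa [nf_of h]
  · rw [nf, Bool.eq_false_iff.2 (mt (nf_iff c).1 h)]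
    simp [Ge, X, P]

variable (T g) in
/-- the element with a given code -/
noncomputable def Y (c : Fc × ℕ) : A T g := ⟨X T g (nf T g c).1, ⟨_, rfl⟩, _, nf_ge c⟩

theorem Y_val (c : Fc × ℕ) : (Y T g c).1 = X T g (nf T g c).1 := rfl

theorem Y_surj : Function.Surjective (Y T g) := by
  rintro ⟨_, ⟨c, rfl⟩, n, h⟩
  exact ⟨(c, n), Subtype.ext (by rw [Y_val, nf_of (c := (c, n)) h])⟩

theorem nf_ca (p : (Fc × ℕ) × Fc × ℕ) : nf T g (ca T g p) = ca T g p :=
  nf_of (by rw [ca, X_fa]; exact (nf_ge _).add (nf_ge _))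

theorem Y_ca (c d : Fc × ℕ) : Y T g (ca T g (c, d)) = Y T g c + Y T g d :=
  Subtype.ext (by simp only [Y, nf_ca]; exact X_fa _ _)

theorem Y_cm (c d : Fc × ℕ) : Y T g (cm T g (c, d)) = Y T g c * Y T g d := by
  have : nf T g (cm T g (c, d)) = cm T g (c, d) :=
    nf_of (by rw [cm, X_fm]; exact (nf_ge _).mul (nf_ge _))
  exact Subtype.ext (by simp only [Y, this]; exact X_fm _ _)

theorem dv {x y : A T g} (hy : y.1 ≠ 0) (h : x.1 ≠ 0 → y.1.order ≤ x.1.order) : y ∣ x := by
  obtain ⟨_, ⟨c, rfl⟩, _⟩ := x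
  obtain ⟨_, ⟨d, rfl⟩, _⟩ := y
  refine ⟨⟨X T g c / X T g d, ⟨fm T g c (den T g d.2, d.1), ?_⟩, 0, fun h0 => ?_⟩,
    Subtype.ext (mul_div_cancel₀ _ hy).symm⟩
  · have : P T g d.1 ≠ 0 := (div_ne_zero_iff.1 hy).1
    rw [X_fm, div_eq_mul_inv, X, X, X, den_of this, inv_div]
  · have := (div_ne_zero_iff.1 h0).1
    simpa [ord_div this hy] using h this

/-- the ideal given by an upper set of values -/
def idl (Q : ℝ* → Prop) (h1 : ∀ a b, a ≤ b → Q a → Q b)
    (h2 : ∀ (a : Gc) (n : ℕ), Q (val T g a) → Q (val T g a - n)) : Ideal (A T g) where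
  carrier := {x | x.1 ≠ 0 → Q x.1.order}
  add_mem' := fun hx hy => add_up h1 hx hy
  zero_mem' := fun h => absurd rfl h
  smul_mem' := by
    rintro ⟨a, _, n, ha⟩ ⟨_, ⟨c, rfl⟩, _⟩ hx (h : a * _ ≠ 0)
    change Q (a * _).order
    obtain ⟨b, hb⟩ := ord_X (right_ne_zero_of_mul h)
    have := ha (left_ne_zero_of_mul h)
    rw [order_mul (left_ne_zero_of_mul h) (right_ne_zero_of_mul h), hb]
    exact h1 _ _ (by linarith) (h2 b n (hb ▸ hx (right_ne_zero_of_mul h)))

/-- code of a monomial -/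
def tc (b : Bd) : Fc × ℕ := (([([b], [])], []), 0)

theorem Y_tc (b : Bd) : (Y T g (tc b)).1 = single (G T g b) 1 := by
  have e : X T g (tc b).1 = single (G T g b) 1 := (X_one _).trans (by simp [val])
  rw [← e, Y_val, nf_of]
  rw [e]
  intro _
  simpa [tc, order_single] using (G_pos b).le

theorem tc_ne (b : Bd) : (Y T g (tc b)).1 ≠ 0 := by rw [Y_tc]; exact single_ne_zero one_ne_zero

theorem tc_ord (b : Bd) : (Y T g (tc b)).1.order = G T g b := by rw [Y_tc, order_single one_ne_zero]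

theorem pr_up {p : Ideal (A T g)} (hp : p.IsPrime) {x y : A T g} {n : ℕ} (hy : y ∈ p)
    (h0 : y.1 ≠ 0) (h : x.1 ≠ 0 → y.1.order ≤ n * x.1.order) : x ∈ p := by
  by_cases hx : x.1 = 0
  · rw [show x = 0 from Subtype.ext hx]; exact p.zero_mem
  refine hp.mem_of_pow_mem n (Ideal.mem_of_dvd _ (dv h0 fun _ => ?_) hy)
  simpa using h hx

end

end Pool.Agent.H37.Val
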