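import Pool.Agent.H37.Val2

set_option autoImplicit false

namespace Pool.Agent.H37.Val

open Hyperreal List HahnSeries

variable {T : List ℕ → Bool} {g : List ℕ → ℕ}

theorem G_k {j k k' : ℕ} (h : k ≤ k') : G T g (j, k) ≤ G T g (j, k') :=
  G_mono (s := j) le_rfl le_rfl (by rw [pr_self, pr_self]; exact take_prefix_take_left h)

variable (T g) in
/-- number of cells at the next stage below the first `k` cells -/
def nx (j k : ℕ) : ℕ := (rf T g ((L T g j).take k)).length

theorem L_succ (j : ℕ) : L T g (j + 1) = rf T g (L T g j) := Function.iterate_succ_apply' _ _ _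

theorem G_nx (j k : ℕ) : G T g (j + 1, nx T g j k) = G T g (j, k) := by
  have : pr T g (j + 1, nx T g j k) (j + 1) = pr T g (j, k) (j + 1) := by
    rw [pr_self, pr_add (b := (j, k)) le_rfl, pr_self, L_succ]
    conv_lhs => rw [← take_append_drop k (L T g j), rf_app]
    exact take_left' rfl
  exact le_antisymm (G_mono le_rfl (Nat.le_succ j) (this ▸ prefix_rfl))
    (G_mono (Nat.le_succ j) le_rfl (this ▸ prefix_rfl))

theorem take_cell {j k : ℕ} {τ : List ℕ} (h : (L T g j)[k]? = some τ) :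
    (L T g j).take k ++ [τ] = (L T g j).take (k + 1) := by rw [take_add_one, h]; rfl

theorem nx_succ {j k : ℕ} {τ : List ℕ} (h : (L T g j)[k]? = some τ) (hT : T τ = true) :
    nx T g j (k + 1) = nx T g j k + (g τ + 1) := by
  simp [nx, ← take_cell h, rf, ch, hT]

theorem cell_succ {j k i : ℕ} {τ : List ℕ} (h : (L T g j)[k]? = some τ) (hT : T τ = true)
    (hi : i ≤ g τ) : (L T g (j + 1))[nx T g j k + i]? = some (τ ++ [i]) := by
  rw [L_succ, ← take_append_drop (k + 1) (L T g j), ← take_cell h, rf_app, rf_app, append_assoc, nx,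
    getElem?_append_right (by omega), Nat.add_sub_cancel_left, getElem?_append_left]
  · simp [rf, ch, hT, Nat.lt_succ_of_le hi]
  · simp [rf, ch, hT, Nat.lt_succ_of_le hi]

theorem G_alive {j k : ℕ} {τ : List ℕ} (h : (L T g j)[k]? = some τ) (hT : T τ = true) :
    2 ^ j * G T g (j, k) ≤ G T g (j, k + 1) :=
  G_le (s := j) (M := [τ]) le_rfl le_rfl (by rw [pr_self, pr_self, take_cell h])
    (by simpa [wt] using (L_len j τ (mem_of_getElem? h) hT).ge)

theorem G_dead {j k : ℕ} {τ : List ℕ} (h : (L T g j)[k]? = some τ) (hT : T τ = false) :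
    G T g (j, k + 1) = 2 ^ wt [τ] * G T g (j, k) :=
  G_eq (s := j) (M := [τ]) le_rfl le_rfl (by rw [pr_self, pr_self, take_cell h])
    fun n => by rw [it_dead n (by simpa using hT)]

variable (T g) in
def kk (f : ℕ → ℕ) : ℕ → ℕ
  | 0 => 0
  | j + 1 => nx T g j (kk f j) + f j

variable (T g) in
def Sm (f : ℕ → ℕ) (γ : ℝ*) : Prop := ∃ j n : ℕ, γ ≤ n * G T g (j, kk T g f j)

variable (T g) in
def Bg (f : ℕ → ℕ) (γ : ℝ*) : Prop := ∃ j n : ℕ, G T g (j, kk T g f j + 1) ≤ n * γ

section path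
variable {f : ℕ → ℕ} (h1 : ∀ n, T (pre f n) = true) (h2 : ∀ n, f n ≤ g (pre f n))
include h1 h2

theorem kk_cell (j : ℕ) : (L T g j)[kk T g f j]? = some (pre f j) := by
  induction j with
  | zero => rfl
  | succ j ih => rw [pre_succ]; exact cell_succ ih (h1 j) (h2 j)

omit h1 h2 in
theorem a_mono : Monotone fun j => G T g (j, kk T g f j) := monotone_nat_of_le_succ fun j => by
  rw [← G_nx]; exact G_k (Nat.le_add_right _ _)

theorem u_anti : Antitone fun j => G T g (j, kk T g f j + 1) := antitone_nat_of_succ_le fun j => by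
  rw [← G_nx j, nx_succ (kk_cell h1 h2 j) (h1 j)]
  exact G_k (by have := h2 j; simp only [kk]; omega)

theorem a_ll_u (i j : ℕ) : Ll (G T g (i, kk T g f i)) (G T g (j, kk T g f j + 1)) :=
  Ll.of_pow (G_pos _) fun k => by
    have a := G_alive (kk_cell h1 h2 (i + j + k)) (h1 _)
    have b := a_mono (T := T) (g := g) (f := f) (show i ≤ i + j + k by omega)
    have c := u_anti h1 h2 (show j ≤ i + j + k by omega)
    refine le_trans (mul_le_mul (pow_le_pow_right₀ (by norm_num) (by omega)) b (G_pos _).le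
      (by positivity)) (a.trans c)

theorem not_both {γ : ℝ*} (a : Sm T g f γ) (b : Bg T g f γ) : False := by
  obtain ⟨i, n, a⟩ := a
  obtain ⟨j, m, b⟩ := b
  have := a_ll_u h1 h2 i j (m * n)
  have := mul_le_mul_of_nonneg_left a (Nat.cast_nonneg m)
  push_cast at *
  nlinarith

omit h1 h2 in
theorem either (a : Gc) : Sm T g f (val T g a) ∨ Bg T g f (val T g a) := by
  rcases arch (T := T) (g := g) a.1 a.2 with h | ⟨b, n, h3, h4⟩
  · exact Or.inl ⟨0, 0, by simpa [val] using h⟩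
  · rcases le_or_gt b.2 (kk T g f b.1) with h | h
    · exact Or.inl ⟨b.1, n, h4.trans (mul_le_mul_of_nonneg_left (G_k h) (Nat.cast_nonneg n))⟩
    · exact Or.inr ⟨b.1, n, (G_k h).trans h3⟩

omit h1 h2 in
theorem Sm.add {α β : ℝ*} (a : Sm T g f α) (b : Sm T g f β) : Sm T g f (α + β) := by
  obtain ⟨i, n, a⟩ := a
  obtain ⟨j, m, b⟩ := b
  refine ⟨i + j, n + m, ?_⟩
  have c := mul_le_mul_of_nonneg_left (a_mono (T := T) (g := g) (f := f) (Nat.le_add_right i j))
    (Nat.cast_nonneg (α := ℝ*) n)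
  have d := mul_le_mul_of_nonneg_left (a_mono (T := T) (g := g) (f := f) (Nat.le_add_left j i))
    (Nat.cast_nonneg (α := ℝ*) m)
  push_cast
  linarith

theorem tc_iff (j k : ℕ) : ¬ Sm T g f (G T g (j, k + 1)) ↔ kk T g f j ≤ k :=
  ⟨fun h => le_of_not_gt fun c => h ⟨j, 1, by simpa using G_k c⟩,
    fun h a => not_both h1 h2 a ⟨j, 1, by simpa using G_k (Nat.succ_le_succ h)⟩⟩

end path

variable (T g) in
/-- the prime ideal of a path -/
def pX (f : ℕ → ℕ) : Ideal (A T g) :=
  idl (fun γ => ¬ Sm T g f γ) (fun _ _ h a ⟨j, n, b⟩ => a ⟨j, n, h.trans b⟩) fun a n h b =>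
    h (by simpa using b.add (β := n) ⟨0, n, by simp [kk, G_zero]⟩)

theorem mem_pX {f : ℕ → ℕ} {x : A T g} : x ∈ pX T g f ↔ (x.1 ≠ 0 → ¬ Sm T g f x.1.order) := Iff.rfl

theorem pX_prime (f : ℕ → ℕ) : (pX T g f).IsPrime := by
  refine ⟨(Ideal.ne_top_iff_one _).2 fun h => mem_pX.1 h (by simp) ⟨0, 0, by simp⟩, fun {x y} h => ?_⟩
  by_contra hn
  simp only [mem_pX, not_or, Classical.not_imp, not_not] at hn
  refine mem_pX.1 h (mul_ne_zero hn.1.1 hn.2.1) ?_
  rw [Subring.coe_mul, order_mul hn.1.1 hn.2.1]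
  exact hn.1.2.add hn.2.2

theorem surj {p : Ideal (A T g)} (hp : p.IsPrime) (h0 : Y T g (tc (0, 1)) ∈ p) :
    ∃ f, (∀ n, T (pre f n) = true) ∧ pX T g f = p := by
  have up : ∀ {b c : Bd} {n : ℕ}, Y T g (tc b) ∈ p → G T g b ≤ n * G T g c → Y T g (tc c) ∈ p :=
    fun a h => pr_up hp a (tc_ne _) fun _ => by rwa [tc_ord, tc_ord]
  have up' : ∀ {b c : Bd}, G T g b = G T g c → Y T g (tc b) ∈ p → Y T g (tc c) ∈ p :=
    fun h a => up (n := 1) a (by simp [h])
  let I : ℕ → ℕ → List ℕ → Prop := fun j k τ => (L T g j)[k]? = some τ ∧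
    Y T g (tc (j, k)) ∉ p ∧ Y T g (tc (j, k + 1)) ∈ p
  have al : ∀ j k τ, I j k τ → T τ = true := fun j k τ h => by
    by_contra hn
    exact h.2.1 (up (n := 2 ^ wt [τ]) h.2.2 (by simpa using (G_dead h.1 (by simpa using hn)).le))
  have st : ∀ j k τ, ∃ i, I j k τ → I (j + 1) (nx T g j k + i) (τ ++ [i]) := fun j k τ => by
    classical
    by_cases h : I j k τ
    · have e : ∃ i, Y T g (tc (j + 1, nx T g j k + i + 1)) ∈ p ∧ i ≤ g τ :=
        ⟨g τ, up' (by rw [add_assoc, ← nx_succ h.1 (al j k τ h), G_nx]) h.2.2, le_rfl⟩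
      refine ⟨Nat.find e, fun _ => ⟨cell_succ h.1 (al j k τ h) (Nat.find_spec e).2, fun c => ?_,
        (Nat.find_spec e).1⟩⟩
      rcases hi : Nat.find e with _ | i
      · rw [hi] at c; exact h.2.1 (up' (G_nx j k) c)
      · have := (Nat.find_spec e).2
        exact Nat.find_min e (show i < Nat.find e by omega) ⟨by rwa [hi] at c, by omega⟩
    · exact ⟨0, fun a => absurd a h⟩
  choose i hi using st
  let s : ℕ → ℕ × List ℕ := fun j => Nat.rec (0, [])
    (fun j q => (nx T g j q.1 + i j q.1 q.2, q.2 ++ [i j q.1 q.2])) j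
  let f : ℕ → ℕ := fun j => i j (s j).1 (s j).2
  have inv : ∀ j, s j = (kk T g f j, pre f j) ∧ I j (kk T g f j) (pre f j) := by
    intro j
    induction j with
    | zero =>
      refine ⟨rfl, rfl, fun c => hp.ne_top ((Ideal.eq_top_iff_one _).2 ?_), h0⟩
      refine Ideal.mem_of_dvd _ ?_ c
      obtain ⟨y, hy⟩ : ∃ y : A T g, y.1 = single (-1) 1 :=
        ⟨⟨_, ⟨_, (X_one ([], [(0, 0)])).trans (by simp [val, G_zero])⟩, 1, fun _ => by
          simp [order_single]⟩, rfl⟩
      exact ⟨y, Subtype.ext (by simp [hy, Y_tc, kk, G_zero, single_mul_single])⟩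
    | succ j ih =>
      have e : f j = i j (kk T g f j) (pre f j) := by simp only [f, ih.1]
      refine ⟨?_, ?_⟩
      · change (nx T g j (s j).1 + f j, (s j).2 ++ [f j]) = _
        rw [ih.1, pre_succ]; rfl
      · rw [pre_succ, kk, e]; exact hi _ _ _ ih.2
  refine ⟨f, fun n => al _ _ _ (inv n).2, Ideal.ext fun x => ⟨fun h => ?_, fun h h0 ⟨j, n, c⟩ => ?_⟩⟩
  · by_cases hx : x.1 = 0
    · rw [show x = 0 from Subtype.ext hx]; exact p.zero_mem
    obtain ⟨c, hc⟩ := x.2.1
    obtain ⟨a, ha⟩ := ord_X (hc ▸ hx)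
    rw [hc] at ha
    obtain ⟨j, n, d⟩ := (either a).resolve_left (ha ▸ mem_pX.1 h hx)
    exact pr_up hp (inv j).2.2.2 (tc_ne _) fun _ => by rwa [tc_ord, ha]
  · exact (inv j).2.2.1 (pr_up hp h h0 fun _ => by rwa [tc_ord])

theorem main (hT : CI ∅ T) (hg : CI ∅ g) (hb : ∀ f, (∀ n, T (pre f n) = true) → ∀ n, f n ≤ g (pre f n))
    (h0 : ∃ f, ∀ n, T (pre f n) = true) :
    ∃ (I : Ideal (A T g)) (F : (ℕ → ℕ) → Ideal (A T g ⧸ I)),
      (∀ c d, ce T g (c, d) = true ↔ Ideal.Quotient.mk I (Y T g c) = Ideal.Quotient.mk I (Y T g d)) ∧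
      Set.BijOn F {f | ∀ n, T (pre f n) = true} {p | p.IsPrime} ∧
      (∀ f, (∀ n, T (pre f n) = true) → ∃ b : Fc × ℕ → Bool, CI (orc f) b ∧
        ∀ c, Ideal.Quotient.mk I (Y T g c) ∈ F f ↔ b c = true) ∧
      ∀ f, (∀ n, T (pre f n) = true) → ∀ O (b : Fc × ℕ → Bool), CI O b →
        (∀ c, Ideal.Quotient.mk I (Y T g c) ∈ F f ↔ b c = true) → CI O f := by
  obtain ⟨f0, h0⟩ := h0
  have l0 : Ll 1 (G T g (0, 1)) := by simpa [kk, G_zero] using a_ll_u h0 (hb f0 h0) 0 0
  let I : Ideal (A T g) := idl (fun γ => G T g (0, 1) < 3 * γ) (fun _ _ a b => by linarith)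
    fun a n h => third l0 _ _ h n
  have le1 : ∀ f, (∀ n, T (pre f n) = true) → I ≤ pX T g f := fun f hf x hx h ⟨j, n, c⟩ => by
    have a : G T g (0, 1) < 3 * _ := hx h
    have := a_ll_u hf (hb f hf) j 0 (3 * n)
    simp only [kk] at this
    push_cast at this
    linarith
  have mem : ∀ f, (∀ n, T (pre f n) = true) → ∀ x,
      Ideal.Quotient.mk I x ∈ (pX T g f).map (Ideal.Quotient.mk I) ↔ x ∈ pX T g f := fun f hf x =>
    Ideal.mem_quotient_iff_mem (le1 f hf)
  have tcm : ∀ f, (∀ n, T (pre f n) = true) → ∀ j k,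
      Y T g (tc (j, k + 1)) ∈ pX T g f ↔ kk T g f j ≤ k := fun f hf j k => by
    rw [mem_pX, tc_ord, tc_iff hf (hb f hf)]
    exact ⟨fun h => h (tc_ne _), fun h _ => h⟩
  have kf : ∀ f j, f j = kk T g f (j + 1) - nx T g j (kk T g f j) := fun f j => by simp [kk]
  obtain ⟨c1, c2, c3, -⟩ := ci_all hT hg
  have cn : CI ∅ fun p : ℕ × ℕ => nx T g p.1 p.2 := by
    have := ci_rf hT hg
    have := ci_L hT hg
    unfold nx; fun_prop
  obtain ⟨B, hB, eB⟩ : ∃ A : Gc × Gc → Bool, CI ∅ A ∧ ∀ a b, le T g a b = A (a, b) :=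
    ⟨_, c1, fun _ _ => rfl⟩
  obtain ⟨M, hM, eM⟩ : ∃ A : ℕ × ℕ → ℕ, CI ∅ A ∧ ∀ a b, nx T g a b = A (a, b) :=
    ⟨_, cn, fun _ _ => rfl⟩
  refine ⟨I, fun f => (pX T g f).map (Ideal.Quotient.mk I), fun c d => ?_, ⟨fun f hf => ?_,
    fun f hf f' hf' e => ?_, fun p hp => ?_⟩, fun f hf => ?_, fun f hf O b hb e => ?_⟩
  · rw [Ideal.Quotient.eq, ce, vc_iff (Q := fun γ => G T g (0, 1) < 3 * γ) fun a => by
      rw [Bool.not_eq_true', ← Bool.not_eq_true, le_iff, not_le]
      simp only [val_ad]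
      simp only [val, S_one, S_nil, sub_zero]
      constructor <;> intro h <;> linarith]
    have : (Y T g c - Y T g d).1 = X T g (ca T g (c, d)).1 := by
      rw [← nf_ca, ← Y_val, Y_ca, sub_eq_add_neg, Subring.coe_add, Subring.coe_add, Subring.coe_neg,
        neg_K]
    rw [← this]; rfl
  · haveI := pX_prime (T := T) (g := g) f
    exact Ideal.map_isPrime_of_surjective Ideal.Quotient.mk_surjective (by simpa using le1 f hf)
  · have : ∀ j, kk T g f j = kk T g f' j := fun j => eq_of_forall_ge_iff fun k => by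
      rw [← tcm f hf, ← tcm f' hf', ← mem f hf, ← mem f' hf']
      exact iff_of_eq (congrArg (_ ∈ ·) e)
    exact funext fun j => by rw [kf f, kf f', this, this]
  · haveI : p.IsPrime := hp
    obtain ⟨f, h1, h2⟩ := surj (p := p.comap (Ideal.Quotient.mk I)) inferInstance (by
      rw [Ideal.mem_comap, Ideal.Quotient.eq_zero_iff_mem.2]
      · exact p.zero_mem
      · intro _
        have := G_pos (T := T) (g := g) (0, 1)
        rw [tc_ord]; linarith)
    exact ⟨f, h1, by simp only [h2]; exact Ideal.map_comap_of_surjective _ Ideal.Quotient.mk_surjective _⟩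
  · have a1 := CI.self f
    have a2 := hM.of_empty (O := orc f)
    have a3 := hB.of_empty (O := orc f)
    have a4 := c2.of_empty (O := orc f)
    have a5 := c3.of_empty (O := orc f)
    have a6 : CI (orc f) (kk T g f) := CI.of_rec1 (h := fun j k => M (j, k) + f j) (by fun_prop)
      fun j => by rw [kk, eM]
    have k0 : ∀ n l, S T g (replicate n l).flatten = n * S T g l := fun n l => by
      induction n with
      | zero => simp
      | succ n ih => simp [replicate_succ, ih]; ring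
    have k1 : ∀ a j n, B (a, (replicate n (j, kk T g f j), [])) = true ↔
        val T g a ≤ n * G T g (j, kk T g f j) := fun a j n => by
      rw [← eB, le_iff]; simp [val]
    have k2 : ∀ (a : Gc) j n, B (([(j, kk T g f j + 1)], []), ((replicate n a.1).flatten,
        (replicate n a.2).flatten)) = true ↔ G T g (j, kk T g f j + 1) ≤ n * val T g a := fun a j n => by
      rw [← eB, le_iff]; simp [val, k0, mul_sub]
    obtain ⟨w, w1, w2⟩ := CI.exists_choice (O := orc f) (p := fun (a : Gc) (q : Bool × ℕ × ℕ) =>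
      cond q.1 (B (([(q.2.1, kk T g f q.2.1 + 1)], []), ((replicate q.2.2 a.1).flatten,
        (replicate q.2.2 a.2).flatten))) (B (a, (replicate q.2.2 (q.2.1, kk T g f q.2.1), []))))
      (by fun_prop) fun a => (either (f := f) a).elim
        (fun ⟨j, n, h⟩ => ⟨(false, j, n), (k1 a j n).2 h⟩) fun ⟨j, n, h⟩ => ⟨(true, j, n), (k2 a j n).2 h⟩
    refine ⟨fun c => (vc T g (nf T g c).1).elim true fun a => (w a).1, by fun_prop, fun c => ?_⟩
    rw [mem f hf, mem_pX, Y_val, vc_iff (Q := fun γ => ¬ Sm T g f γ) fun a => ?_]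
    have := w2 a
    cases h : (w a).1
    · simp only [h, cond_false, k1] at this
      exact iff_of_false (by simp) (not_not.2 ⟨_, _, this⟩)
    · simp only [h, cond_true, k2] at this
      exact iff_of_true rfl fun c => not_both hf (hb f hf) c ⟨_, _, this⟩
  · have a2 := hM.of_empty (O := O)
    have a6 : CI O (kk T g f) := (CI.find (p := fun j k => b (tc (j, k + 1)))
      (by unfold tc; fun_prop) fun j => ⟨_, by rw [← e, mem f hf, tcm f hf]⟩).of_eq fun j => by
        simp only [← e, mem f hf, tcm f hf]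
        exact (Nat.find_eq_iff _).2 ⟨le_rfl, fun _ h => h.not_ge⟩
    exact (show CI O fun j => kk T g f (j + 1) - M (j, kk T g f j) by fun_prop).of_eq fun j => by
      rw [← eM, ← kf]

theorem final (T : List ℕ → Bool) (g : List ℕ → ℕ) (hT : Computable T) (hg : Computable g)
    (hb : ∀ (σ : List ℕ) (i : ℕ), T (σ ++ [i]) = true → i < g σ) :
    ∃ (U : ℕ → Bool) (add mul : ℕ → ℕ → ℕ) (neg : ℕ → ℕ) (zero one : ℕ),
      Computable U ∧ Computable₂ add ∧ Computable₂ mul ∧ Computable neg ∧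
      U zero = true ∧ U one = true ∧
      (∀ a b, U a = true → U b = true → U (add a b) = true ∧ U (mul a b) = true) ∧
      (∀ a, U a = true → U (neg a) = true) ∧
      (∀ a b c, U a = true → U b = true → U c = true →
        add (add a b) c = add a (add b c) ∧ mul (mul a b) c = mul a (mul b c) ∧
        mul a (add b c) = add (mul a b) (mul a c)) ∧
      (∀ a b, U a = true → U b = true → add a b = add b a ∧ mul a b = mul b a) ∧
      (∀ a, U a = true → add zero a = a ∧ add a (neg a) = zero ∧ mul one a = a) ∧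
      ∃ F : (ℕ → ℕ) → (ℕ → ℕ),
        Set.BijOn F {f : ℕ → ℕ | ∀ n, T ((List.range n).map f) = true}
          {χ : ℕ → ℕ | (∀ n, χ n = 0 ∨ χ n = 1) ∧
            (∀ n, χ n = 1 → U n = true) ∧
            χ zero = 1 ∧ χ one = 0 ∧
            (∀ a b, χ a = 1 → χ b = 1 → χ (add a b) = 1) ∧
            (∀ a b, U a = true → χ b = 1 → χ (mul a b) = 1) ∧
            (∀ a b, U a = true → U b = true → χ (mul a b) = 1 → χ a = 1 ∨ χ b = 1)} ∧
        ∀ f : ℕ → ℕ, (∀ n, T ((List.range n).map f) = true) →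
          TuringEquivalent (PFun.lift f) (PFun.lift (F f)) := by
  by_cases h0 : ∃ f, ∀ n, T (pre f n) = true
  · obtain ⟨I, F, a1, a2, a3, a4⟩ := main (CI.of_comp hT) (CI.of_comp hg)
      (fun f hf n => (hb _ _ (pre_succ f n ▸ hf (n + 1))).le) h0
    obtain ⟨-, -, -, c1, c2, c3⟩ := ci_all (CI.of_comp hT) (CI.of_comp hg)
    refine cring (fun c => Ideal.Quotient.mk I (Y T g c)) (Ideal.Quotient.mk_surjective.comp Y_surj)
      _ c3 a1 _ _ id c1 c2 CI.id' (fun a b => by rw [Y_ca, map_add]) (fun a b => by rw [Y_cm, map_mul])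
      (fun a => ?_) _ F a2 a3 a4
    rw [← map_neg]
    exact congrArg _ (Subtype.ext (neg_K _).symm)
  · refine cring (R := PUnit) (C := Unit) id Function.surjective_id (fun _ => true) (CI.const _)
      (by simp) (fun _ => ()) (fun _ => ()) id (CI.const _) (CI.const _) CI.id' (by simp) (by simp)
      (by simp) _ (fun _ => ⊤) ⟨fun f hf => absurd ⟨f, hf⟩ h0, fun f hf => absurd ⟨f, hf⟩ h0,
        fun p hp => absurd (Subsingleton.elim _ _) hp.ne_top⟩
      (fun f hf => absurd ⟨f, hf⟩ h0) fun f hf => absurd ⟨f, hf⟩ h0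

end Pool.Agent.H37.Val
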