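import Pool.Agent.H37.VlDefs
import Pool.Agent.H37.Hd1
import Pool.Agent.H37.Fo1

/-! Relative randomness through decidable tests; almost every set is random; translation
invariance; upper cones are null. -/

set_option autoImplicit false

namespace Pool.Agent.H37.Vl

open MeasureTheory ProbabilityTheory Filter Rnd Defc Encodable Hd
open scoped ENNReal NNReal

theorem join_eq : join = Hd.join := rfl

/-- randomness for tests decidable in the oracle -/
def Rd (A ω : ℕ → Bool) : Prop :=
  ∀ D : ℕ × List Bool → Bool, CI (orc (bit A)) D →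
    (∀ k, P {x | ∃ n, D (k, pre x n) = true} ≤ 2⁻¹ ^ k) → ∃ k, ∀ n, D (k, pre ω n) = false

theorem rd_iff {A ω : ℕ → Bool} : RandIn A ω ↔ Rd A ω := by
  refine ⟨fun h D hD hm => ?_, fun h V hV hm => ?_⟩
  · have := h (fun a => ((if D a = true then some () else none : Option Unit) : Part Unit))
      (RI.ofOption (O := orc (bit A)) (by fun_prop)) (by simpa [cut_eq] using hm)
    simpa [cut_eq] using this
  · obtain ⟨D, hD, mono, e⟩ := Fo.ri_stage (x := bit A) hV
    have key : ∀ k x, (∃ n, ((List.range ((pre x n).length + 1)).any fun j =>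
        D ((k, (pre x n).take j), (), (pre x n).length)) = true) ↔
        ∃ n, (V (k, cut x n)).Dom := fun k x => by
      simp only [length_pre, List.any_eq_true, List.mem_range, Part.dom_iff_mem, cut_eq]
      refine ⟨fun ⟨n, j, hj, h⟩ => ⟨j, (), (e _ _).2 ⟨n, by rwa [take_pre _ (by omega)] at h⟩⟩,
        fun ⟨n, _, h⟩ => ?_⟩
      obtain ⟨t, ht⟩ := (e _ _).1 h
      exact ⟨max n t, n, by omega, by
        rw [take_pre _ (le_max_left _ _)]; exact mono _ _ _ _ (le_max_right _ _) ht⟩
    obtain ⟨k, hk⟩ := h (fun q => (List.range (q.2.length + 1)).any fun j =>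
      D ((q.1, q.2.take j), (), q.2.length)) (by fun_prop) fun k => by
        simpa only [key] using hm k
    refine ⟨k, fun n hn => ?_⟩
    obtain ⟨m, hm⟩ := (key k ω).2 ⟨n, hn⟩
    rw [hk m] at hm
    exact absurd hm (by simp)

theorem Rd.mono {A A' ω : ℕ → Bool} (h : Rd A ω) (hA : LE A' A) : Rd A' ω :=
  fun D hD => h D (hD.trans (ci_bit.2 hA))

theorem ae_rd (A : ℕ → Bool) : ∀ᵐ ω ∂P, Rd A ω := by
  have := (ae_ball_iff (μ := P) (countable_ci' (α := ℕ × List Bool) (β := Bool) (bit A))
    (p := fun ω D _ => (∀ k, P {x | ∃ n, D (k, pre x n) = true} ≤ 2⁻¹ ^ k) →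
      ∃ k, ∀ n, D (k, pre ω n) = false)).2 fun D _ => by
      by_cases hm : ∀ k, P {x | ∃ n, D (k, pre x n) = true} ≤ 2⁻¹ ^ k
      · refine null_of_le fun k => (measure_mono fun ω hω => ?_).trans (hm k)
        simp only [Set.mem_compl_iff, Set.mem_setOf_eq, not_forall, not_exists] at hω
        obtain ⟨-, h⟩ := hω
        simpa using h k
      · exact .of_forall fun _ h => absurd h hm
  exact this.mono fun ω h D hD => h D hD

/-! ### translation -/

/-- symmetric difference -/
def sd (X Z : ℕ → Bool) (n : ℕ) : Bool := xor (X n) (Z n)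

theorem meas_sd (X : ℕ → Bool) : Measurable (sd X) :=
  measurable_pi_lambda _ fun n => (measurable_of_countable (xor (X n))).comp (by fun_prop)

theorem map_sd (X : ℕ → Bool) : P.map (sd X) = P := by
  have h := Measure.infinitePi_map_pi (fun _ : ℕ => uniformOn (Set.univ : Set Bool))
    (f := fun n b => xor (X n) b) fun n => measurable_of_countable _
  refine h.trans ?_
  unfold P
  congr 1
  funext n
  refine Measure.ext_of_singleton fun b => ?_
  rw [Measure.map_apply (measurable_of_countable _) (by trivial),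
    show (fun b => xor (X n) b) ⁻¹' {b} = {xor (X n) b} by
      ext c; cases X n <;> cases b <;> cases c <;> simp]
  simp only [uniformOn_univ, Measure.count_singleton]

theorem ae_sd {p : (ℕ → Bool) → Prop} (X : ℕ → Bool) (h : ∀ᵐ Z ∂P, p Z) :
    ∀ᵐ Z ∂P, p (sd X Z) := by
  rw [← map_sd X] at h
  exact ae_of_ae_map (meas_sd X).aemeasurable h

theorem meas_test (D : List Bool → Bool) : MeasurableSet {x : ℕ → Bool | ∃ n, D (pre x n) = true} := by
  rw [Set.setOf_exists]
  exact MeasurableSet.iUnion fun n => meas_set (fun τ => D τ = true) n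

theorem Rd.sd {A X Z : ℕ → Bool} (h : Rd A Z) (hX : LE X A) : Rd A (sd X Z) := fun D hD hm => by
  have e : ∀ x n, pre (fun i => xor (X i) ((pre x n).getD i false)) (pre x n).length =
      pre (Vl.sd X x) n := fun x n => by
    rw [length_pre]; exact pre_congr fun i hi => by rw [getD_pre _ hi]; rfl
  have hX' : CI (orc (bit A)) X := hX
  have := h (fun q => D (q.1, pre (fun i => xor (X i) (q.2.getD i false)) q.2.length))
    (by fun_prop) fun k => by
      simp only [e]
      refine le_of_eq_of_le ?_ (hm k)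
      conv_rhs => rw [← map_sd X, Measure.map_apply (meas_sd X) (meas_test fun τ => D (k, τ))]
      rfl
  simpa only [e] using this

theorem le_sd (X Z : ℕ → Bool) : LE Z (Hd.join X (sd X Z)) := by
  have h1 : CI _ X := le_join_l X (sd X Z)
  have h2 : CI _ (sd X Z) := le_join_r X (sd X Z)
  exact (show CI _ fun n => xor (X n) (sd X Z n) by fun_prop).of_eq fun n => by simp [sd]

/-! ### upper cones -/

theorem lt_cnt (c k L : ℕ) : (2⁻¹ : ℝ≥0∞) ^ k < c * 2⁻¹ ^ L ↔ 2 ^ L < c * 2 ^ k := by
  rw [← not_le, cnt_le, not_le]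

theorem cone {C : ℕ → Bool} (hC : ¬ Computable C) : ∀ᵐ X ∂P, ¬ LE C X := by
  suffices ∀ e, P {X | ∀ m, bit C m ∈ app e (bit X) m} = 0 from
    measure_mono_null (fun X hX => by
      simpa using exists_app_tot (ci_bit.2 (not_not.1 hX))) (measure_iUnion_null this)
  intro e
  by_contra h0
  apply hC
  let p : ℕ → List Bool → Prop := fun n τ =>
    ∀ m ≤ n, ∀ v, U e (τ.map Bool.toNat) m = some v → v = bit C m
  let T : ℕ → Set (ℕ → Bool) := fun n => {x | p n (pre x n)}
  have hT : ∀ n, MeasurableSet (T n) := fun n => meas_set (p n) n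
  have anti : Antitone fun n => T n \ ⋂ n, T n := fun n n' hn x hx =>
    ⟨fun m hm v hv => hx.1 m (hm.trans hn) v (U_mon e _ _ _ _ ((pre_pf x hn).map _) hv), hx.2⟩
  have lim := tendsto_measure_iInter_atTop (μ := P)
    (fun n => ((hT n).diff (MeasurableSet.iInter hT)).nullMeasurableSet) anti
    ⟨0, measure_ne_top _ _⟩
  rw [show (⋂ n, T n \ ⋂ b, T b) = ∅ from Set.eq_empty_of_forall_notMem fun x hx =>
    (Set.mem_iInter.1 hx 0).2 (Set.mem_iInter.2 fun n => (Set.mem_iInter.1 hx n).1),
    measure_empty] at lim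
  obtain ⟨k, hk⟩ := ((ENNReal.tendsto_pow_atTop_nhds_zero_of_lt_one
    (show (2⁻¹ : ℝ≥0∞) < 1 by simp)).eventually (gt_mem_nhds (pos_iff_ne_zero.2 h0))).exists
  obtain ⟨n, hn⟩ := (lim.eventually (gt_mem_nhds (show (0 : ℝ≥0∞) < 2⁻¹ ^ k by
    simp [pos_iff_ne_zero]))).exists
  classical
  let Λ : List (List Bool) := (W n).filter fun τ => decide (p n τ)
  have hΛ : ∀ x, pre x n ∈ Λ ↔ x ∈ T n := fun x => by simp [Λ, T, mem_W]
  let q : ℕ → ℕ → List Bool → Bool := fun m v τ =>
    Λ.contains (τ.take n) && U e (τ.map Bool.toNat) m == some v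
  have hq : ∀ m v t x, q m v (pre x (n + t)) = true ↔
      x ∈ T n ∧ U e (pre (bit x) (n + t)) m = some v := fun m v t x => by
    simp only [q, Bool.and_eq_true, List.contains_iff_mem, take_pre x (Nat.le_add_right n t), hΛ,
      map_pre, beq_iff_eq]
  have hin : ∀ x, (∀ m t v, U e (pre (bit x) t) m = some v → v = bit C m) ↔ x ∈ ⋂ n, T n :=
    fun x => by
      simp only [Set.mem_iInter, T, Set.mem_setOf_eq, p, map_pre]
      exact ⟨fun h t m _ v hv => h m t v hv, fun h m t v hv => h (max m t) m (le_max_left _ _) v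
        (U_mon e _ _ _ _ (pre_pf _ (le_max_right _ _)) hv)⟩
  obtain ⟨f, hf, ef⟩ := CI.exists_choice (O := ∅) (p := fun m (r : ℕ × ℕ) =>
    decide (2 ^ (n + r.1) < (W (n + r.1)).countP (q m r.2) * 2 ^ k))
    (by simp only [q]; unfold W; fun_prop) fun m => by
      by_contra hc
      simp only [not_exists, decide_eq_true_eq, ← lt_cnt, ← P_pre, not_lt] at hc
      refine absurd hk (not_lt.2 (le_trans (measure_mono fun x hx => ?_)
        (P_mono_le (S := fun t => {x | q m (bit C m) (pre x (n + t)) = true})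
          (fun t t' ht x hx => ?_) fun t => hc (t, bit C m))))
      · obtain ⟨t, ht⟩ := mem_app.1 (hx m)
        refine Set.mem_iUnion.2 ⟨t, (hq _ _ _ _).2 ⟨?_,
          U_mon e _ _ _ _ (pre_pf _ (Nat.le_add_left _ _)) ht⟩⟩
        exact Set.mem_iInter.1 ((hin x).1 fun m t v hv =>
          Part.mem_unique (mem_app.2 ⟨t, hv⟩) (hx m)) n
      · exact (hq _ _ _ _).2 ⟨((hq _ _ _ _).1 hx).1,
          U_mon e _ _ _ _ (pre_pf _ (by omega)) ((hq _ _ _ _).1 hx).2⟩
  refine (ci_bit.1 ((show CI ∅ fun m => (f m).2 by fun_prop).of_eq fun m => ?_)).computable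
  by_contra hne
  have := ef m
  simp only [decide_eq_true_eq, ← lt_cnt, ← P_pre] at this
  refine absurd (this.trans_le (measure_mono fun x hx => ?_)) (not_lt.2 hn.le)
  obtain ⟨h1, h2⟩ := (hq _ _ _ _).1 hx
  exact ⟨h1, fun h => hne ((hin x).2 h _ _ _ h2)⟩

theorem mp_iff {X B : ℕ → Bool} : MinPair X B ↔ ∀ C, LE C X → LE C B → Computable C :=
  forall_congr' fun _ => imp_congr tr_iff (imp_congr tr_iff Iff.rfl)

theorem ae_mp (B : ℕ → Bool) : ∀ᵐ X ∂P, MinPair X B := by
  have := (ae_ball_iff (μ := P) (countable_ci' (α := ℕ) (β := Bool) (bit B))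
    (p := fun X C _ => LE C X → Computable C)).2 fun C _ => by
      by_cases hC : Computable C
      · exact .of_forall fun _ _ => hC
      · exact (cone hC).mono fun _ h h' => absurd h' h
  exact this.mono fun X h => mp_iff.2 fun C h1 h2 => h C h2 h1

end Pool.Agent.H37.Vl
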