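import Pool.Agent.H37.Vl1

/-! The theorem of van Lambalgen relative to an oracle. -/

set_option autoImplicit false

namespace Pool.Agent.H37.Vl

open MeasureTheory ProbabilityTheory Filter Rnd Defc Encodable Hd
open scoped ENNReal NNReal

/-- the open set of pairs given by a test -/
def S2 (E : List Bool × List Bool → Bool) : Set ((ℕ → Bool) × (ℕ → Bool)) :=
  {p | ∃ t, E (pre p.1 t, pre p.2 t) = true}

/-- randomness of a pair -/
def R2 (A X Y : ℕ → Bool) : Prop :=
  ∀ E : ℕ × List Bool × List Bool → Bool, CI (orc (bit A)) E →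
    (∀ k, P.prod P (S2 fun q => E (k, q)) ≤ 2⁻¹ ^ k) → ∃ k, (X, Y) ∉ S2 fun q => E (k, q)

theorem meas_S2 (E : List Bool × List Bool → Bool) : MeasurableSet (S2 E) := by
  rw [S2, Set.setOf_exists]
  refine MeasurableSet.iUnion fun n => ?_
  letI : MeasurableSpace (List Bool) := ⊤
  have h : Measurable fun p : (ℕ → Bool) × (ℕ → Bool) => (pre p.1 n, pre p.2 n) :=
    ((meas_pre id n).comp measurable_fst).prodMk ((meas_pre id n).comp measurable_snd)
  exact h (t := {q | E q = true}) (Set.to_countable _).measurableSet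

theorem r2_iff {A X Y : ℕ → Bool} : Rd A (Hd.join X Y) ↔ R2 A X Y := by
  refine ⟨fun h E hE hm => ?_, fun h D hD hm => ?_⟩
  · have key : ∀ k X Y, (∃ n, E (k, pre (fun i => (pre (Hd.join X Y) n).getD (2 * i) false)
        ((pre (Hd.join X Y) n).length / 2), pre (fun i => (pre (Hd.join X Y) n).getD (2 * i + 1)
        false) ((pre (Hd.join X Y) n).length / 2)) = true) ↔ (X, Y) ∈ S2 fun q => E (k, q) := by
      intro k X Y
      have e1 : ∀ n, pre (fun i => (pre (Hd.join X Y) n).getD (2 * i) false) (n / 2) =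
          pre X (n / 2) := fun n => pre_congr fun i hi => by rw [getD_pre _ (by omega), join_ev]
      have e2 : ∀ n, pre (fun i => (pre (Hd.join X Y) n).getD (2 * i + 1) false) (n / 2) =
          pre Y (n / 2) := fun n => pre_congr fun i hi => by rw [getD_pre _ (by omega), join_od]
      simp only [length_pre, e1, e2]
      exact ⟨fun ⟨n, h⟩ => ⟨_, h⟩, fun ⟨t, h⟩ => ⟨2 * t, by simpa using h⟩⟩
    obtain ⟨F, hF, eF⟩ : ∃ F : ℕ × List Bool → Bool, CI (orc (bit A)) F ∧ ∀ k τ, F (k, τ) =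
        E (k, pre (fun i => τ.getD (2 * i) false) (τ.length / 2),
          pre (fun i => τ.getD (2 * i + 1) false) (τ.length / 2)) :=
      ⟨fun q => E (q.1, pre (fun i => q.2.getD (2 * i) false) (q.2.length / 2),
        pre (fun i => q.2.getD (2 * i + 1) false) (q.2.length / 2)), by fun_prop, fun _ _ => rfl⟩
    simp only [← eF] at key
    obtain ⟨k, hk⟩ := h F hF fun k => by
      rw [← map_join, Measure.map_apply meas_join (meas_test fun τ => F (k, τ))]
      exact le_of_eq_of_le (congrArg _ (Set.ext fun p => key k p.1 p.2)) (hm k)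
    exact ⟨k, fun hx => by simpa [hk] using (key k X Y).2 hx⟩
  · have key : ∀ X Y t, pre (fun i => if i % 2 = 0 then (pre X t).getD (i / 2) false else
        (pre Y t).getD (i / 2) false) (pre X t).length = pre (Hd.join X Y) t := fun X Y t => by
      rw [length_pre]
      exact pre_congr fun i hi => by
        rw [getD_pre _ (by omega), getD_pre _ (by omega)]; rfl
    obtain ⟨k, hk⟩ := h (fun q => D (q.1, pre (fun i => if i % 2 = 0 then q.2.1.getD (i / 2) false
      else q.2.2.getD (i / 2) false) q.2.1.length)) (by fun_prop) fun k => by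
        simp only [S2, key]
        refine le_of_eq_of_le ?_ (hm k)
        conv_rhs => rw [← map_join, Measure.map_apply meas_join (meas_test fun τ => D (k, τ))]
        rfl
    simp only [S2, key] at hk
    exact ⟨k, by simpa using hk⟩

theorem R2.swap {A X Y : ℕ → Bool} (h : R2 A X Y) : R2 A Y X := fun E hE hm =>
  h (fun q => E (q.1, q.2.2, q.2.1)) (by fun_prop) fun k => by
    refine le_of_eq_of_le ?_ (hm k)
    conv_rhs => rw [← Measure.prod_swap, Measure.map_apply measurable_swap (meas_S2 _)]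
    rfl

theorem R2.fst {A X Y : ℕ → Bool} (h : R2 A X Y) : Rd A X := fun D hD hm => by
  obtain ⟨k, hk⟩ := h (fun q => D (q.1, q.2.1)) (by fun_prop) fun k => by
    refine le_of_eq_of_le ?_ (hm k)
    rw [show (S2 fun q => D (k, q.1)) = {x | ∃ n, D (k, pre x n) = true} ×ˢ Set.univ by
      ext p; simp [S2], Measure.prod_prod, measure_univ, mul_one]
  exact ⟨k, by simpa [S2] using hk⟩

theorem P_good {S : ℕ → Set (ℕ → Bool)} (h : Monotone S) (c : ℝ≥0∞) :
    P {y | ∃ t, y ∈ S t ∧ P (S t) ≤ c} ≤ c := by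
  classical
  have d : Directed (· ⊆ ·) fun t => if P (S t) ≤ c then S t else ∅ := by
    have : ∀ a b, a ≤ b → ∃ z, (if P (S a) ≤ c then S a else ∅) ⊆ (if P (S z) ≤ c then S z else ∅) ∧
        (if P (S b) ≤ c then S b else ∅) ⊆ (if P (S z) ≤ c then S z else ∅) := fun a b hab => by
      by_cases hb : P (S b) ≤ c
      · refine ⟨b, ?_, subset_rfl⟩
        rw [if_pos hb]
        split_ifs
        exacts [h hab, Set.empty_subset _]
      · exact ⟨a, subset_rfl, by rw [if_neg hb]; exact Set.empty_subset _⟩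
    intro a b
    rcases le_total a b with hab | hab
    exacts [this a b hab, (this b a hab).imp fun _ h => h.symm]
  refine le_trans (measure_mono fun y ⟨t, h1, h2⟩ => Set.mem_iUnion.2 ⟨t, by simpa [h2]⟩)
    (d.measure_iUnion.le.trans (iSup_le fun t => ?_))
  split_ifs with h
  exacts [h, by simp]

theorem R2.snd {A X Y : ℕ → Bool} (h : R2 A X Y) : Rd (Hd.join A X) Y := fun D hD hm => by
  obtain ⟨e, he⟩ := exists_app_tot (x := bit (Hd.join A X))
    (f := fun n => ((decode (α := ℕ × List Bool) n).map D == some true).toNat) (by fun_prop)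
  have hA : CI (orc (bit A)) A := LE.refl A
  obtain ⟨G, hG, eG⟩ : ∃ G : ℕ × List Bool × List Bool → Bool, CI (orc (bit A)) G ∧
      ∀ k X' Y' t, G (k, pre X' t, pre Y' t) = true ↔
        ∃ j ≤ t, U e (pre (bit (Hd.join A X')) t) (encode (k, pre Y' j)) = some 1 := by
    refine ⟨fun q => (List.range (q.2.1.length + 1)).any fun j => U e (pre (fun i =>
      (if i % 2 = 0 then A (i / 2) else q.2.1.getD (i / 2) false).toNat) q.2.1.length)
      (encode (q.1, q.2.2.take j)) == some 1, by fun_prop, fun k X' Y' t => ?_⟩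
    have : pre (fun i => (if i % 2 = 0 then A (i / 2) else (pre X' t).getD (i / 2) false).toNat) t =
        pre (bit (Hd.join A X')) t := pre_congr fun i hi => by rw [getD_pre _ (by omega)]; rfl
    simp only [length_pre, this, List.any_eq_true, List.mem_range, beq_iff_eq]
    exact exists_congr fun j => ⟨fun h => ⟨by omega, by rw [← take_pre Y' (l := t) (by omega)]; exact h.2⟩,
      fun h => ⟨by omega, by rw [take_pre _ h.1]; exact h.2⟩⟩
  have mono : ∀ k X', Monotone fun t => {Y' | G (k, pre X' t, pre Y' t) = true} :=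
    fun k X' t t' ht Y' h => by
      obtain ⟨j, hj, h⟩ := (eG _ _ _ _).1 h
      exact (eG _ _ _ _).2 ⟨j, by omega, U_mon e _ _ _ _ (pre_pf _ ht) h⟩
  have key : ∀ k X' Y', ((X', Y') ∈ S2 fun q => G (k, q) &&
      decide ((W q.1.length).countP (fun τ => G (k, q.1, τ)) * 2 ^ k ≤ 2 ^ q.1.length)) ↔
      ∃ t, Y' ∈ {Y' | G (k, pre X' t, pre Y' t) = true} ∧
        P {Y' | G (k, pre X' t, pre Y' t) = true} ≤ 2⁻¹ ^ k := fun k X' Y' => by
    simp only [S2, Set.mem_setOf_eq, length_pre, Bool.and_eq_true, decide_eq_true_eq, ← cnt_le,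
      ← P_pre]
  obtain ⟨k, hk⟩ := h (fun q => G q && decide ((W q.2.1.length).countP
    (fun τ => G (q.1, q.2.1, τ)) * 2 ^ q.1 ≤ 2 ^ q.2.1.length)) (by unfold W; fun_prop) fun k => by
      rw [Measure.prod_apply (meas_S2 _)]
      refine (lintegral_mono (g := fun _ => 2⁻¹ ^ k) fun X' => ?_).trans (by simp)
      exact le_of_eq_of_le (congrArg _ (Set.ext fun Y' => key k X' Y')) (P_good (mono k X') _)
  refine ⟨k, fun n => ?_⟩
  by_contra hn
  obtain ⟨s, hs⟩ := mem_app.1 (he (encode (k, pre Y n)))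
  refine hk ((key k X Y).2 ⟨max n s, (eG _ _ _ _).2 ⟨n, le_max_left _ _,
    U_mon e _ _ _ _ (pre_pf _ (le_max_right _ _)) (by simpa [hn] using hs)⟩,
    (measure_mono fun Y' h => ?_).trans (hm k)⟩)
  obtain ⟨j, -, h⟩ := (eG _ _ _ _).1 h
  have := Part.mem_unique (mem_app.2 ⟨_, h⟩) (he _)
  refine ⟨j, ?_⟩
  cases hc : D (k, pre Y' j)
  · simp [hc] at this
  · rfl

theorem r2_of {A X Y : ℕ → Bool} (hX : Rd A X) (hY : Rd (Hd.join A X) Y) : R2 A X Y := by
  intro E hE hm
  obtain ⟨G, hG, eG⟩ : ∃ G : ℕ × List Bool × List Bool → Bool, CI (orc (bit A)) G ∧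
      ∀ k X' Y' t, G (k, pre X' t, pre Y' t) = true ↔ ∃ j ≤ t, E (k, pre X' j, pre Y' j) = true := by
    refine ⟨fun q => (List.range (q.2.1.length + 1)).any fun j =>
      E (q.1, q.2.1.take j, q.2.2.take j), by fun_prop, fun k X' Y' t => ?_⟩
    simp only [length_pre, List.any_eq_true, List.mem_range]
    exact exists_congr fun j => ⟨fun h => ⟨by omega, by
      rw [← take_pre Y' (l := t) (by omega), ← take_pre X' (l := t) (by omega)]; exact h.2⟩,
      fun h => ⟨by omega, by rw [take_pre _ h.1, take_pre _ h.1]; exact h.2⟩⟩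
  let f : ℕ → (ℕ → Bool) → ℝ≥0∞ := fun k X' => P (Prod.mk X' ⁻¹' S2 fun q => E (k, q))
  have mk : ∀ i, P {X' | 2⁻¹ ^ i ≤ f (2 * i) X'} ≤ 2⁻¹ ^ i := fun i => by
    refine (meas_ge_le_lintegral_div (measurable_measure_prodMk_left (meas_S2 _)).aemeasurable
      (by simp) (by simp)).trans (ENNReal.div_le_of_le_mul ?_)
    rw [← Measure.prod_apply (meas_S2 _), ← pow_add, ← two_mul]
    exact hm _
  have sub : ∀ k X' t, P {Y' | G (k, pre X' t, pre Y' t) = true} ≤ f k X' := fun k X' t =>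
    measure_mono fun Y' h => let ⟨j, _, h⟩ := (eG _ _ _ _).1 h; ⟨j, h⟩
  obtain ⟨k, hk⟩ := hX (fun q => (List.range q.2.length).any fun i => decide (2 ^ q.2.length <
    (W q.2.length).countP (fun τ => G (2 * (i + q.1 + 1), q.2, τ)) * 2 ^ (i + q.1 + 1)))
    (by unfold W; fun_prop) fun k => by
      refine le_trans (measure_mono (t := ⋃ i, {X' | 2⁻¹ ^ (i + k + 1) ≤ f (2 * (i + k + 1)) X'})
        fun X' ⟨n, h⟩ => ?_) ((measure_iUnion_le _).trans
        ((ENNReal.tsum_le_tsum fun i => mk _).trans (le_of_eq ?_)))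
      · simp only [length_pre, List.any_eq_true, decide_eq_true_eq, ← lt_cnt, ← P_pre] at h
        obtain ⟨i, -, h⟩ := h
        exact Set.mem_iUnion.2 ⟨i, h.le.trans (sub _ _ _)⟩
      · simp only [pow_add, ENNReal.tsum_mul_right, ENNReal.tsum_geometric_two, pow_one]
        rw [mul_right_comm, ENNReal.mul_inv_cancel (by simp) (by simp), one_mul]
  simp only [length_pre, List.any_eq_false, List.mem_range, decide_eq_true_eq, ← lt_cnt, ← P_pre,
    not_lt] at hk
  have h1 : CI (orc (bit (Hd.join A X))) X := le_join_r A X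
  have h2 : CI (orc (bit (Hd.join A X))) E := hE.trans (ci_bit.2 (le_join_l A X))
  obtain ⟨i, hi⟩ := hY (fun q => E (2 * (q.1 + k + 1), pre X q.2.length, q.2)) (by fun_prop)
    fun i => by
      simp only [length_pre]
      refine le_trans (measure_mono fun Y' ⟨n, h⟩ => Set.mem_iUnion.2
        ⟨n, (eG _ _ _ _).2 ⟨n, by omega, h⟩⟩) ((P_mono_le (S := fun t =>
        {Y' | G (2 * (i + k + 1), pre X (t + i + 1), pre Y' (t + i + 1)) = true})
        (fun t t' ht Y' h => ?_) fun t => hk _ i (by omega)).trans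
        (pow_le_pow_right_of_le_one' (by simp) (by omega)))
      obtain ⟨j, hj, h⟩ := (eG _ _ _ _).1 h
      exact (eG _ _ _ _).2 ⟨j, by omega, h⟩
  exact ⟨2 * (i + k + 1), by simpa [S2] using hi⟩

theorem vl {A X Y : ℕ → Bool} : Rd A (Hd.join X Y) ↔ Rd A X ∧ Rd (Hd.join A X) Y :=
  r2_iff.trans ⟨fun h => ⟨h.fst, h.snd⟩, fun h => r2_of h.1 h.2⟩

theorem vl' {A X Y : ℕ → Bool} : Rd A (Hd.join X Y) ↔ Rd A Y ∧ Rd (Hd.join A Y) X :=
  (r2_iff.trans ⟨fun h => r2_iff.2 h.swap, fun h => (r2_iff.1 h).swap⟩).trans vl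

theorem main (A B : ℕ → Bool) : VL A B ↔ ∀ Z, RandIn A Z → MinPair Z B := by
  simp only [VL, Rand, rd_iff, join_eq]
  refine ⟨fun h Z hZ => mp_iff.2 fun C h1 h2 => ?_, fun h X Y => ?_⟩
  · obtain ⟨X, hX, h3, h4⟩ := ((ae_rd (Hd.join A Z)).and ((ae_mp B).and
      (ae_sd Z (ae_mp B)))).exists
    obtain ⟨h5, h6⟩ := vl.1 (vl'.2 ⟨hZ, hX⟩)
    have e : sd Z X = sd X Z := funext fun n => Bool.xor_comm _ _
    exact mp_iff.1 ((h X (sd X Z)).1.2 ⟨⟨h5, h3⟩, h6.sd (le_join_r A X), e ▸ h4⟩).2 C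
      (h1.trans (le_sd X Z)) h2
  · have e : ∀ U V, Rd (Hd.join A U) V → MinPair V B := fun U V hV => h V (hV.mono (le_join_l A U))
    exact ⟨⟨fun h1 => ⟨⟨(vl.1 h1.1).1, h _ (vl.1 h1.1).1⟩, (vl.1 h1.1).2, e _ _ (vl.1 h1.1).2⟩,
      fun h1 => ⟨vl.2 ⟨h1.1.1, h1.2.1⟩, h _ (vl.2 ⟨h1.1.1, h1.2.1⟩)⟩⟩,
      fun h1 => ⟨⟨(vl'.1 h1.1).1, h _ (vl'.1 h1.1).1⟩, (vl'.1 h1.1).2, e _ _ (vl'.1 h1.1).2⟩,
      fun h1 => ⟨vl'.2 ⟨h1.1.1, h1.2.1⟩, h _ (vl'.2 ⟨h1.1.1, h1.2.1⟩)⟩⟩

end Pool.Agent.H37.Vl
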