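import Pool.Agent.H37.DefcDefs

/-! Relative Martin-Löf randomness, minimal pairs, the van Lambalgen property. -/

set_option autoImplicit false

namespace Pool.Agent.H37.Vl

open Defc

/-- the characteristic function of a set -/
def chi (A : ℕ → Bool) : ℕ →. ℕ := fun n => Part.some (A n).toNat

/-- the join -/
def join (X Y : ℕ → Bool) (n : ℕ) : Bool := if n % 2 = 0 then X (n / 2) else Y (n / 2)

/-- Martin-Löf randomness relative to `A`: the `k`-th component of the test is the open set
generated by the strings `τ` with `(k, τ)` in the domain of `V` -/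
def RandIn (A ω : ℕ → Bool) : Prop :=
  ∀ V : ℕ × List Bool →. Unit, RecursiveIn {chi A} V →
    (∀ k, P {x | ∃ n, (V (k, cut x n)).Dom} ≤ 2⁻¹ ^ k) → ∃ k, ∀ n, ¬ (V (k, cut ω n)).Dom

/-- every set reducible to both is computable -/
def MinPair (X B : ℕ → Bool) : Prop :=
  ∀ C : ℕ → Bool, TuringReducible (chi C) (chi X) → TuringReducible (chi C) (chi B) → Computable C

/-- the class `Rand^A_B` -/
def Rand (A B X : ℕ → Bool) : Prop := RandIn A X ∧ MinPair X B

/-- conditions (i), (ii), (iii) are equivalent for all `X, Y` -/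
def VL (A B : ℕ → Bool) : Prop :=
  ∀ X Y, (Rand A B (join X Y) ↔ Rand A B X ∧ Rand (join A X) B Y) ∧
    (Rand A B (join X Y) ↔ Rand A B Y ∧ Rand (join A Y) B X)

end Pool.Agent.H37.Vl
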