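import Pool.Agent.H37.WsatDefs

namespace Pool.Agent.H37.Wsat

open Finset Polynomial

/-- Kalai's hyperconnectivity map on the moment curve. -/
def Phi (n d : ℕ) : (Fin n → Fin d → ℚ) →ₗ[ℚ] (Fin n × Fin n → ℚ) where
  toFun y := fun e => ∑ k, y e.1 k * ((e.2 : ℕ) : ℚ) ^ (k : ℕ) -
    ∑ k, y e.2 k * ((e.1 : ℕ) : ℚ) ^ (k : ℕ)
  map_add' x y := by
    funext e
    simp only [Pi.add_apply, add_mul, sum_add_distrib]
    ring
  map_smul' c x := by
    funext e
    simp only [Pi.smul_apply, smul_eq_mul, RingHom.id_apply, mul_sub, mul_sum, mul_assoc]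

def Psi (n d : ℕ) : (Sym2 (Fin d) → ℚ) →ₗ[ℚ] (Fin n → Fin d → ℚ) where
  toFun S := fun u k => ∑ l : Fin d, S s(k, l) * ((u : ℕ) : ℚ) ^ (l : ℕ)
  map_add' x y := by
    funext u k
    simp only [Pi.add_apply, add_mul, sum_add_distrib]
  map_smul' c x := by
    funext u k
    simp only [Pi.smul_apply, smul_eq_mul, RingHom.id_apply, mul_sum, mul_assoc]

theorem Phi_Psi (n d : ℕ) (S : Sym2 (Fin d) → ℚ) : Phi n d (Psi n d S) = 0 := by
  funext e
  change ∑ k : Fin d, (∑ l : Fin d, S s(k, l) * ((e.1 : ℕ) : ℚ) ^ (l : ℕ)) * ((e.2 : ℕ) : ℚ) ^ (k : ℕ) -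
    ∑ k : Fin d, (∑ l : Fin d, S s(k, l) * ((e.2 : ℕ) : ℚ) ^ (l : ℕ)) * ((e.1 : ℕ) : ℚ) ^ (k : ℕ) = 0
  simp only [sum_mul]
  rw [sub_eq_zero, sum_comm]
  refine sum_congr rfl fun k _ => sum_congr rfl fun l _ => ?_
  rw [Sym2.eq_swap]
  ring

theorem Psi_inj (n d : ℕ) (h : d ≤ n) : Function.Injective (Psi n d) := by
  rw [injective_iff_map_eq_zero]
  intro S hS
  funext e
  induction e using Sym2.ind with
  | _ k l =>
    have := Matrix.eq_zero_of_forall_index_sum_mul_pow_eq_zero (R := ℚ) (n := d)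
      (f := fun j : Fin d => ((j : ℕ) : ℚ)) (v := fun l => S s(k, l))
      (fun a b hab => Fin.ext (Nat.cast_injective (R := ℚ) hab))
      (fun j => congrFun (congrFun hS (Fin.castLE h j)) k)
    exact congrFun this l

theorem rank_le (n d : ℕ) (h : d ≤ n) :
    Module.finrank ℚ (LinearMap.range (Phi n d)) + (d + 1).choose 2 ≤ d * n := by
  have h1 := LinearMap.finrank_range_add_finrank_ker (Phi n d)
  have h2 : Module.finrank ℚ (Fin n → Fin d → ℚ) = d * n := by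
    simp [Module.finrank_pi_fintype, mul_comm]
  have h3 : Module.finrank ℚ (Sym2 (Fin d) → ℚ) ≤ Module.finrank ℚ (LinearMap.ker (Phi n d)) :=
    LinearMap.finrank_le_finrank_of_injective
      (f := LinearMap.codRestrict (LinearMap.ker (Phi n d)) (Psi n d) (Phi_Psi n d))
      (fun a b hab => Psi_inj n d h (congrArg Subtype.val hab))
  have h4 : Module.finrank ℚ (Sym2 (Fin d) → ℚ) = (d + 1).choose 2 := by
    simp [Sym2.card]
  omega

theorem key (n j : ℕ) (A B : Finset (Fin n)) (hd : Disjoint A B) (hc : (A ∪ B)ᶜ.card = j) :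
    ∃ y, ∀ u v, (Phi n (j + 1) y (u, v) ≠ 0 ↔ (u ∈ A ∧ v ∈ B) ∨ (u ∈ B ∧ v ∈ A)) := by
  classical
  set p : ℚ[X] := ∏ c ∈ (A ∪ B)ᶜ, (X - C ((c : ℕ) : ℚ)) with hp
  have hdeg : p.natDegree < j + 1 := by
    rw [hp, natDegree_prod_of_monic _ _ (fun c _ => monic_X_sub_C _)]
    simp only [natDegree_X_sub_C, sum_const, smul_eq_mul, mul_one, hc]
    omega
  have hev : ∀ x : ℚ, ∑ k : Fin (j + 1), p.coeff k * x ^ (k : ℕ) = p.eval x := fun x => by
    rw [eval_eq_sum_range' hdeg, Fin.sum_univ_eq_sum_range (fun k => p.coeff k * x ^ k)]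
  have hz : ∀ u : Fin n, p.eval ((u : ℕ) : ℚ) ≠ 0 ↔ u ∈ A ∨ u ∈ B := fun u => by
    rw [hp, eval_prod, prod_ne_zero_iff]
    simp only [eval_sub, eval_X, eval_C, mem_compl, mem_union, sub_ne_zero]
    constructor
    · intro h
      by_contra hu
      exact h u hu rfl
    · intro hu c hc' h
      have : u = c := Fin.ext (by exact_mod_cast h)
      exact hc' (this ▸ hu)
  refine ⟨fun u k => (if u ∈ A then p.eval ((u : ℕ) : ℚ) else 0) * p.coeff k, fun u v => ?_⟩
  change (∑ k : Fin (j + 1), (if u ∈ A then p.eval ((u : ℕ) : ℚ) else 0) * p.coeff k *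
      ((v : ℕ) : ℚ) ^ (k : ℕ) -
    ∑ k : Fin (j + 1), (if v ∈ A then p.eval ((v : ℕ) : ℚ) else 0) * p.coeff k *
      ((u : ℕ) : ℚ) ^ (k : ℕ) ≠ 0) ↔ _
  simp only [mul_assoc, ← mul_sum, hev]
  have hu := hz u
  have hv := hz v
  have d1 : u ∈ A → u ∉ B := fun h => disjoint_left.1 hd h
  have d2 : v ∈ A → v ∉ B := fun h => disjoint_left.1 hd h
  by_cases a : u ∈ A <;> by_cases b : v ∈ A
  · simp [a, b, d1 a, d2 b, mul_comm]
  · simp only [a, b, if_true, if_false, zero_mul, sub_zero, mul_ne_zero_iff, hu, hv]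
    simp
  · simp only [a, b, if_true, if_false, zero_mul, zero_sub, ne_eq, neg_eq_zero]
    rw [← ne_eq, mul_ne_zero_iff, hu, hv]
    simp [a, b]
  · simp [a, b]

theorem tri {m : ℕ} {ι : Type} (v : Fin m → ι → ℚ) (c : Fin m → ι) (h1 : ∀ i, v i (c i) ≠ 0)
    (h2 : ∀ i k, i < k → v i (c k) = 0) : LinearIndependent ℚ v := by
  classical
  rw [Fintype.linearIndependent_iff]
  intro g hg
  by_contra hne
  push Not at hne
  obtain ⟨i0, hi0⟩ := hne
  obtain ⟨k, hk, hmax⟩ := exists_max_image (univ.filter fun i => g i ≠ 0) id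
    ⟨i0, by simpa using hi0⟩
  have hk' : g k ≠ 0 := by simpa using hk
  have := congrFun hg (c k)
  rw [Finset.sum_apply, sum_eq_single k] at this
  · simp only [Pi.smul_apply, smul_eq_mul, Pi.zero_apply, mul_eq_zero] at this
    exact this.elim hk' (h1 k)
  · intro i _ hik
    by_cases hi : g i = 0
    · simp [hi]
    · have : i ≤ k := hmax i (by simpa using hi)
      simp [h2 i k (lt_of_le_of_ne this hik)]
  · simp

end Pool.Agent.H37.Wsat
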