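import Mathlib

/-! Weak saturation. -/

namespace Pool.Agent.H37.Wsat

open SimpleGraph

/-- `G` is weakly `F`-saturated: `G` has no copy of `F`, and the non-edges of `G` can be listed as
`e₁, …, e_m` so that each `G ∪ {e₁, …, e_i}` has a copy of `F` using the edge `e_i`. -/
def WeaklySaturated {W : Type} (F : SimpleGraph W) {n : ℕ} (G : SimpleGraph (Fin n)) : Prop :=
  ¬ F.IsContained G ∧
    ∃ l : List (Sym2 (Fin n)), l.Nodup ∧ (∀ e, e ∈ l ↔ e ∈ Gᶜ.edgeSet) ∧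
      ∀ i : Fin l.length, ∃ f : F.Copy (G ⊔ fromEdgeSet {e | e ∈ l.take (i + 1)}),
        ∃ a b, F.Adj a b ∧ s(f a, f b) = l[i]

end Pool.Agent.H37.Wsat
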